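import Pool.Agent.Lib.MP_1ae3da_al.C.Defs

/-! The group algebra and its semilinear automorphisms. -/

namespace Pool.Agent.Lib.MP_1ae3da_al.CT

open Submodule

section ga
variable {F X : Type} [Field F] [Group X]

theorem gu_mul (x y : X) : gu F X x * gu F X y = gu F X (x * y) := by
  simp [gu]

theorem gu_one : gu F X 1 = 1 := rfl

theorem gu_tg : TG F (gu F X) :=
  ⟨fun x y => ⟨1, one_ne_zero, by rw [gu_mul, one_smul]⟩,
    (funext (MonoidAlgebra.basis_apply F) : _ = gu F X) ▸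
      (MonoidAlgebra.basis X F).linearIndependent, by rw [gu_mul, mul_one]⟩

theorem aga_smul (c : F) (x : X) : c • gu F X x = MonoidAlgebra.single x c := by
  simp [gu]

theorem gu_inj {c c' : F} {x x' : X} (hc : c ≠ 0) (h : c • gu F X x = c' • gu F X x') :
    x = x' ∧ c = c' := by
  rw [aga_smul, aga_smul, MonoidAlgebra.single_inj] at h
  exact h.resolve_right fun k => hc k.1

theorem gu_mem {c : F} {x : X} {H : Subgroup X} (hc : c ≠ 0) :
    c • gu F X x ∈ Hm F (gu F X) H ↔ x ∈ H :=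
  ⟨fun ⟨_, _, _, m, e⟩ => (gu_inj hc e).1 ▸ m, fun m => ⟨c, hc, x, m, rfl⟩⟩

theorem aga_mem {x : X} {H : Subgroup X} : gu F X x ∈ Hm F (gu F X) H ↔ x ∈ H := by
  rw [← gu_mem (F := F) one_ne_zero, one_smul]

theorem gu_span : span F (Hm F (gu F X) ⊤) = ⊤ := by
  refine eq_top_iff.2 fun a _ => ?_
  induction a using MonoidAlgebra.induction_linear with
  | zero => exact zero_mem _
  | add a b p q => exact add_mem (p trivial) (q trivial)
  | single x c => exact aga_smul c x ▸ smul_mem _ c (subset_span (aga_mem.2 trivial))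

theorem gu_span_mul (H : Subgroup X) : ∀ a ∈ span F (Hm F (gu F X) H),
    ∀ b ∈ span F (Hm F (gu F X) H), a * b ∈ span F (Hm F (gu F X) H) := by
  intro a ha b hb
  refine (span_mul_span (R := F) _ _).le.trans (span_mono ?_) (mul_mem_mul ha hb)
  rintro _ ⟨_, ⟨c, hc, x, hx, rfl⟩, _, ⟨d, hd, y, hy, rfl⟩, rfl⟩
  exact ⟨c * d, mul_ne_zero hc hd, x * y, mul_mem hx hy, by
    simp only [smul_mul_smul_comm, gu_mul]⟩

/-- two `σ`-semilinear additive maps that agree on the basis of `H` agree on the span. -/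
theorem gu_ext {V : Type} [AddCommGroup V] [Module F V] (σ : RingAut F) (H : Subgroup X)
    (f g : MonoidAlgebra F X →+ V) (hf : ∀ (c : F) a, f (c • a) = σ c • f a)
    (hg : ∀ (c : F) a, g (c • a) = σ c • g a) (h : ∀ x ∈ H, f (gu F X x) = g (gu F X x)) :
    ∀ a ∈ span F (Hm F (gu F X) H), f a = g a := by
  intro a ha
  induction ha using span_induction with
  | mem a m =>
    obtain ⟨c, -, x, hx, rfl⟩ := m
    rw [hf, hg, h x hx]
  | zero => rw [map_zero, map_zero]
  | add a b _ _ p q => rw [map_add, map_add, p, q]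
  | smul c a _ p => rw [hf, hg, p]

theorem ga_aut (σ : RingAut F) (δ : MulAut X) : ∃ γ : RingAut (MonoidAlgebra F X),
    SL F σ γ ∧ ∀ x, γ (gu F X x) = gu F X (δ x) := by
  refine ⟨(MonoidAlgebra.mapRingEquiv X σ).trans (MonoidAlgebra.mapDomainRingEquiv F δ),
    fun c a => ?_, fun x => by simp [gu]⟩
  induction a using MonoidAlgebra.induction_linear with
  | zero => simp
  | add a b p q => simp only [smul_add, map_add, p, q]
  | single x d => simp

theorem ga_perf (hX : commutator X = ⊤) {σ : RingAut F} {γ : RingAut (MonoidAlgebra F X)}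
    (h : SL F σ γ) (hγ : γ ∈ Stb (Hm F (gu F X) ⊤)) :
    ∃ δ : MulAut X, ∀ x, γ (gu F X x) = gu F X (δ x) := by
  choose c hc d _ e using fun x => (hγ (gu F X x)).2 (aga_mem.2 trivial)
  have m (x y) : d (x * y) = d x * d y ∧ c (x * y) = c x * c y := gu_inj (hc _) (by
    rw [← e, ← gu_mul, map_mul, e, e, smul_mul_smul_comm, gu_mul])
  let χ : X →* Fˣ := MonoidHom.mk' (fun x => Units.mk0 (c x) (hc x)) fun x y =>
    Units.ext (m x y).2
  have c1 (x) : γ (gu F X x) = gu F X (d x) := by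
    have : χ x = 1 := Abelianization.commutator_subset_ker χ (hX.ge trivial)
    rw [e, show c x = 1 from congrArg Units.val this, one_smul]
  refine ⟨MulEquiv.ofBijective (MonoidHom.mk' d fun x y => (m x y).1)
    ⟨fun x y (k : d x = d y) => ?_, fun y => ?_⟩, c1⟩
  · have : gu F X x = gu F X y := γ.injective (by rw [c1, c1, k])
    exact (gu_inj one_ne_zero (congrArg ((1 : F) • ·) this)).1
  · obtain ⟨t, -, x, -, k⟩ := (hγ (γ.symm (gu F X y))).1
      (by rw [γ.apply_symm_apply]; exact aga_mem.2 trivial)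
    rw [γ.symm_apply_eq, h, c1, ← one_smul F (gu F X y)] at k
    exact ⟨x, (gu_inj one_ne_zero k).1.symm⟩

theorem ga_stb {σ : RingAut F} {γ : RingAut (MonoidAlgebra F X)} {δ : MulAut X} (h : SL F σ γ)
    (hδ : ∀ x, γ (gu F X x) = gu F X (δ x)) (H : Subgroup X) :
    γ ∈ Stb (Hm F (gu F X) H) ↔ ∀ x, δ x ∈ H ↔ x ∈ H := by
  refine ⟨fun k x => by rw [← aga_mem (F := F), ← hδ, k, aga_mem], fun k a => ⟨?_, ?_⟩⟩
  · rintro ⟨c, hc, y, hy, e⟩
    obtain ⟨x, rfl⟩ := δ.surjective y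
    refine ⟨σ.symm c, by simpa using hc, x, (k x).1 hy, γ.injective ?_⟩
    rw [h, hδ, e, σ.apply_symm_apply]
  · rintro ⟨c, hc, x, hx, rfl⟩
    exact ⟨σ c, by simpa using hc, δ x, (k x).2 hx, by rw [h, hδ]⟩

theorem ga_ext {σ : RingAut F} {γ γ' : RingAut (MonoidAlgebra F X)} (h : SL F σ γ)
    (h' : SL F σ γ') (e : ∀ x, γ (gu F X x) = γ' (gu F X x)) : γ = γ' :=
  RingEquiv.ext fun a => gu_ext σ ⊤ γ.toAddMonoidHom γ'.toAddMonoidHom h h' (fun x _ => e x) a
    (gu_span.ge trivial)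

theorem lin_iff {A : Type} [Ring A] [Algebra F A] {γ : RingAut A} : Lin F γ ↔ SL F 1 γ := Iff.rfl

theorem sl_uniq {A : Type} [Ring A] [Algebra F A] [Nontrivial A] {σ σ' : RingAut F}
    {γ : RingAut A} (h : SL F σ γ) (h' : SL F σ' γ) : σ = σ' :=
  RingEquiv.ext fun c => smul_left_injective F (one_ne_zero (α := A)) (by
    have := (h c 1).symm.trans (h' c 1)
    rwa [map_one] at this)

theorem lin_conj {A : Type} [Ring A] [Algebra F A] {σ : RingAut F} {γ a : RingAut A}
    (h : SL F σ γ) (ha : Lin F a) : Lin F (γ * a * γ⁻¹) := fun c x => by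
  obtain ⟨x, rfl⟩ := γ.surjective x
  obtain ⟨c, rfl⟩ := σ.surjective c
  change γ (a (γ.symm _)) = _ • γ (a (γ.symm _))
  rw [← h, γ.symm_apply_apply, γ.symm_apply_apply, ha, h]

theorem norm_stb [Finite X] {p : ℕ} [Fact p.Prime] (R : Sylow p X) (δ : MulAut X) :
    (∀ x, δ x ∈ Subgroup.normalizer (R : Set X) ↔ x ∈ Subgroup.normalizer (R : Set X)) ↔
      ∀ x, δ x ∈ (R : Subgroup X) ↔ x ∈ (R : Subgroup X) := by
  refine ⟨fun h x => ⟨fun k => ?_, fun k => ?_⟩, fun h x => ?_⟩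
  · have p1 := (R.2.comap_of_injective δ.toMonoidHom δ.injective).inf_normalizer_sylow R
    exact (p1.le ⟨k, (h x).1 (Subgroup.le_normalizer k)⟩).2
  · have p1 := (R.2.map δ.toMonoidHom).inf_normalizer_sylow R
    exact (p1.le ⟨⟨x, k, rfl⟩, (h x).2 (Subgroup.le_normalizer k)⟩).2
  · refine δ.surjective.forall.trans (forall_congr' fun y => iff_congr (h y) ?_)
    rw [← map_inv, ← map_mul, ← map_mul]
    exact h _

end ga

end Pool.Agent.Lib.MP_1ae3da_al.CT
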