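import Pool.Agent.Lib.MP_1ae3da_al.C.ACh
import Pool.Agent.Lib.MP_1ae3da_al.C.AGa

/-! From blocks of the group algebra back to characters. -/

namespace Pool.Agent.Lib.MP_1ae3da_al.CT

open Submodule NSV

section sub
variable {F X : Type} [Field F] [Group X] (N : Subgroup X)

/-- the basis of the group algebra of a subgroup. -/
noncomputable def gs (F : Type) {X : Type} [Field F] [Group X] (N : Subgroup X) (x : N) :
    MonoidAlgebra F X := gu F X x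

lemma gs_mul (x y : N) : gs F N x * gs F N y = gs F N (x * y) := gu_mul _ _

lemma gs_ind : LinearIndependent F (gs F N) :=
  (gu_tg (F := F) (X := X)).ind.comp _ Subtype.val_injective

lemma gs_hm : Hm F (gu F X) N = Hm F (gs F N) ⊤ := by
  ext a
  exact ⟨fun ⟨c, h0, x, hx, e⟩ => ⟨c, h0, ⟨x, hx⟩, trivial, e⟩,
    fun ⟨c, h0, x, _, e⟩ => ⟨c, h0, x, x.2, e⟩⟩

/-- the restriction of an automorphism to a stable subgroup. -/
def resA (δ : MulAut X) (h : ∀ x, δ x ∈ N ↔ x ∈ N) : N ≃* N where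
  toFun x := ⟨δ x, (h x).2 x.2⟩
  invFun x := ⟨δ.symm x, (h _).1 (by simp)⟩
  left_inv x := Subtype.ext (by simp)
  right_inv x := Subtype.ext (by simp)
  map_mul' x y := Subtype.ext (by simp)

@[simp] lemma resA_val (δ : MulAut X) (h : ∀ x, δ x ∈ N ↔ x ∈ N) (x : N) :
    (resA N δ h x : X) = δ x := rfl

@[simp] lemma resA_symm_val (δ : MulAut X) (h : ∀ x, δ x ∈ N ↔ x ∈ N) (x : N) :
    ((resA N δ h).symm x : X) = δ.symm x := rfl

end sub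

theorem fin_of {p : ℕ} [hp : Fact p.Prime] {F : Type} [Field F] {GG : Subgroup (RingAut F)}
    (j : Qbar →+* F) (h1 : ∀ σ ∈ GG, ∃ s ∈ NSV.H p, ∀ x, σ (j x) = j (s x))
    (h2 : ∀ s ∈ NSV.H0 p, ∀ n : ℕ, 0 < n → ∃ σ ∈ GG, ∀ ξ : Qbar, ξ ^ n = 1 → σ (j ξ) = j (s ξ))
    (G : Type) [Group G] [Finite G] (P : Sylow p G) (h : MN F p GG (gu F G) P) :
    ∃ f : NSV.IrrP p G ≃ NSV.IrrP p (Subgroup.normalizer (P : Set G)),
      ∀ γ : MulAut G, (∀ x, γ x ∈ P ↔ x ∈ P) → ∀ σ ∈ NSV.H0 p, ∀ θ θ' : NSV.IrrP p G,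
        (∀ x, θ'.1 x = σ (θ.1 (γ x))) → ∀ m m' : Subgroup.normalizer (P : Set G),
          (m' : G) = γ m → (f θ').1 m = σ ((f θ).1 m') := by
  classical
  have _ := Fintype.ofFinite G
  set N := Subgroup.normalizer (P : Set G) with hN
  have _ := Fintype.ofFinite N
  obtain ⟨Ω, hb, he⟩ := h
  have b1 := chi_bij j (gu_mul (F := F) (X := G)) gu_tg.ind hp.out
  have b2 := chi_bij j (gs_mul (F := F) N) (gs_ind N) hp.out
  rw [← gs_hm] at b2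
  let f : NSV.IrrP p G ≃ NSV.IrrP p N :=
    (b1.equiv _).trans ((hb.equiv _).trans (b2.equiv _).symm)
  have hf : ∀ θ : NSV.IrrP p G, chi j (gs F N) (f θ).1 = Ω (chi j (gu F G) θ.1) := fun θ =>
    congrArg Subtype.val ((b2.equiv _).apply_symm_apply _)
  refine ⟨f, fun γ hγ s hs θ θ' hθ m m' hm => ?_⟩
  obtain ⟨σ, hσ, e1⟩ := h2 s hs (Nat.card G) Nat.card_pos
  obtain ⟨s', -, e2⟩ := h1 σ hσ
  have e3 : ∀ ξ : Qbar, ξ ^ Nat.card G = 1 → s' ξ = s ξ := fun ξ hξ =>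
    j.injective ((e2 ξ).symm.trans (e1 ξ hξ))
  obtain ⟨g, hg, hgu⟩ := ga_aut (F := F) σ γ⁻¹
  have hP : ∀ x, γ⁻¹ x ∈ (P : Subgroup G) ↔ x ∈ (P : Subgroup G) := fun x => by
    have := hγ (γ⁻¹ x)
    rw [MulAut.apply_inv_self] at this
    exact this.symm
  have hNN : ∀ x, γ⁻¹ x ∈ N ↔ x ∈ N := (norm_stb P γ⁻¹).2 hP
  have hgm : g ∈ SG GG (MonoidAlgebra F G) ⊓ Stb (Hm F (gu F G) ⊤) ⊓ Stb (Hm F (gu F G) P) :=
    ⟨⟨⟨σ, hσ, hg⟩, (ga_stb hg hgu ⊤).2 fun _ => Iff.rfl⟩, (ga_stb hg hgu _).2 hP⟩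
  obtain ⟨n, hn, -⟩ := ch_iff.1 θ.2
  obtain ⟨n', hn', -⟩ := ch_iff.1 (f θ).2
  obtain ⟨n'', hn'', -⟩ := ch_iff.1 (f θ').2
  have e4 : g (chi j (gu F G) θ.1) = chi j (gu F G) θ'.1 :=
    chi_map j (s := s) hg γ⁻¹ hgu (fun x => by
      rw [e2, ch_gal hn s' s Nat.card_pos (fun _ => pow_card_eq_one') e3]) fun x => by
      rw [hθ, MulAut.apply_inv_self]
  let β := resA N γ⁻¹ hNN
  have hψ := ch_tw (f θ).2 s β.symm
  obtain ⟨n3, hn3, -⟩ := ch_iff.1 hψ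
  have e5 : g (chi j (gs F N) (f θ).1) = chi j (gs F N) fun x => s ((f θ).1 (β.symm x)) :=
    chi_map j (s := s) hg β (fun x => hgu x) (fun x => by
      rw [e2, ch_gal hn' s' s Nat.card_pos (fun x => Subtype.ext pow_card_eq_one') e3]) fun x => by
      rw [β.symm_apply_apply]
  have e6 : (f θ').1 = fun x => s ((f θ).1 (β.symm x)) := by
    refine chi_inj j (gs_ind N) hn'' hn3 ?_
    rw [← e5, hf, hf, ← e4]
    exact (he g hgm _ (b1.mapsTo θ.2)).2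
  have e7 : β.symm m = m' := Subtype.ext hm.symm
  rw [e6, ← e7]

end Pool.Agent.Lib.MP_1ae3da_al.CT
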