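import Pool.Agent.Lib.MP_1ae3da_al.C.Defs

/-! Homogeneous elements: basic facts. -/

namespace Pool.Agent.Lib.MP_1ae3da_al.CT

open Submodule

variable {F A G : Type} [Field F] [Ring A] [Algebra F A] [Group G] {u : G → A}

theorem TG.ne (hu : TG F u) (x : G) : u x ≠ 0 := hu.ind.ne_zero x

theorem TG.one_mul (hu : TG F u) (x : G) : u 1 * u x = u x := by
  obtain ⟨c, hc, e⟩ := hu.mul 1 x
  rw [_root_.one_mul] at e
  have h : c • c • u x = c • u x := by
    rw [← e, ← mul_smul_comm, ← e, ← mul_assoc, hu.one]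
  have h2 := smul_right_injective A hc h
  rw [e]; exact h2

theorem TG.mul_one (hu : TG F u) (x : G) : u x * u 1 = u x := by
  obtain ⟨c, hc, e⟩ := hu.mul x 1
  rw [_root_.mul_one] at e
  have h : c • c • u x = c • u x := by
    rw [← e, ← smul_mul_assoc, ← e, mul_assoc, hu.one]
  have h2 := smul_right_injective A hc h
  rw [e]; exact h2

theorem TG.eq_of (hu : TG F u) {x y : G} {c d : F} (hc : c ≠ 0) (e : c • u x = d • u y) :
    x = y ∧ c = d := by
  have h : x = y := by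
    by_contra k
    have h := hu.ind (a₁ := Finsupp.single x c) (a₂ := Finsupp.single y d) (by simpa using e)
    have h' := DFunLike.congr_fun h x
    rw [Finsupp.single_eq_same, Finsupp.single_eq_of_ne k] at h'
    exact hc h'
  subst h
  exact ⟨rfl, smul_left_injective F (hu.ne x) e⟩

theorem TG.inv (hu : TG F u) (x : G) :
    ∃ c : F, c ≠ 0 ∧ u x * (c • u x⁻¹) = u 1 ∧ (c • u x⁻¹) * u x = u 1 := by
  obtain ⟨c, hc, e⟩ := hu.mul x x⁻¹
  obtain ⟨d, hd, e'⟩ := hu.mul x⁻¹ x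
  rw [mul_inv_cancel] at e
  rw [inv_mul_cancel] at e'
  have h : c • u x = d • u x := by
    rw [← hu.one_mul x, ← smul_mul_assoc, ← e, hu.one_mul x, mul_assoc, e', mul_smul_comm,
      hu.mul_one]
  obtain rfl : c = d := (hu.eq_of hc h).2
  exact ⟨c⁻¹, inv_ne_zero hc, by rw [mul_smul_comm, e, inv_smul_smul₀ hc],
    by rw [smul_mul_assoc, e', inv_smul_smul₀ hc]⟩

theorem mem_Hm {H : Subgroup G} {x : G} (hx : x ∈ H) : u x ∈ Hm F u H :=
  ⟨1, one_ne_zero, x, hx, (one_smul _ _).symm⟩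

theorem Hm_smul {H : Subgroup G} {a : A} {c : F} (hc : c ≠ 0) (ha : a ∈ Hm F u H) :
    c • a ∈ Hm F u H := by
  obtain ⟨d, hd, x, hx, rfl⟩ := ha
  exact ⟨c * d, mul_ne_zero hc hd, x, hx, smul_smul _ _ _⟩

theorem Hm_mono {H K : Subgroup G} (h : H ≤ K) : Hm F u H ⊆ Hm F u K :=
  fun _ ⟨c, hc, x, hx, e⟩ => ⟨c, hc, x, h hx, e⟩

theorem TG.smul_mem_Hm (hu : TG F u) {H : Subgroup G} {x : G} {c : F} (hc : c ≠ 0) :
    c • u x ∈ Hm F u H ↔ x ∈ H :=
  ⟨fun ⟨_, _, _, hy, e⟩ => (hu.eq_of hc e).1 ▸ hy, fun h => Hm_smul hc (mem_Hm h)⟩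

theorem TG.mem_Hm (hu : TG F u) {H : Subgroup G} {x : G} : u x ∈ Hm F u H ↔ x ∈ H := by
  rw [← hu.smul_mem_Hm (one_ne_zero (α := F)), one_smul]

theorem TG.Hm_le (hu : TG F u) {H K : Subgroup G} : Hm F u H ⊆ Hm F u K ↔ H ≤ K :=
  ⟨fun h _ hx => hu.mem_Hm.1 (h (CT.mem_Hm hx)), Hm_mono⟩

theorem TG.Hm_inj (hu : TG F u) {H K : Subgroup G} (h : Hm F u H = Hm F u K) : H = K :=
  le_antisymm (hu.Hm_le.1 h.le) (hu.Hm_le.1 h.ge)

theorem TG.Hm_inf (hu : TG F u) (H K : Subgroup G) : Hm F u (H ⊓ K) = Hm F u H ∩ Hm F u K := by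
  refine Set.Subset.antisymm (Set.subset_inter (Hm_mono inf_le_left) (Hm_mono inf_le_right)) ?_
  rintro _ ⟨⟨c, hc, x, hx, rfl⟩, h⟩
  exact ⟨c, hc, x, ⟨hx, (hu.smul_mem_Hm hc).1 h⟩, rfl⟩

theorem TG.Hm_ne (hu : TG F u) {H : Subgroup G} {a : A} (ha : a ∈ Hm F u H) : a ≠ 0 := by
  obtain ⟨c, hc, x, -, rfl⟩ := ha
  exact smul_ne_zero hc (hu.ne x)

theorem TG.Hm_mul (hu : TG F u) {H : Subgroup G} {a b : A} (ha : a ∈ Hm F u H)
    (hb : b ∈ Hm F u H) : a * b ∈ Hm F u H := by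
  obtain ⟨c, hc, x, hx, rfl⟩ := ha
  obtain ⟨d, hd, y, hy, rfl⟩ := hb
  obtain ⟨k, hk, e⟩ := hu.mul x y
  rw [smul_mul_assoc, mul_smul_comm, e]
  exact Hm_smul hc (Hm_smul hd (Hm_smul hk (CT.mem_Hm (mul_mem hx hy))))

theorem TG.Hm_inv (hu : TG F u) {H : Subgroup G} {a : A} (ha : a ∈ Hm F u H) :
    ∃ b ∈ Hm F u H, a * b = u 1 ∧ b * a = u 1 := by
  obtain ⟨c, hc, x, hx, rfl⟩ := ha
  obtain ⟨d, hd, e, e'⟩ := hu.inv x
  refine ⟨c⁻¹ • d • u x⁻¹, Hm_smul (inv_ne_zero hc) (Hm_smul hd (CT.mem_Hm (inv_mem hx))), ?_, ?_⟩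
  · rw [smul_mul_assoc, mul_smul_comm, e, smul_inv_smul₀ hc]
  · rw [smul_mul_assoc, mul_smul_comm, e', inv_smul_smul₀ hc]

theorem span_Hm (u : G → A) (H : Subgroup G) : span F (Hm F u H) = span F (u '' H) := by
  refine le_antisymm (span_le.2 ?_) (span_mono ?_)
  · rintro _ ⟨c, -, x, hx, rfl⟩
    exact smul_mem _ _ (subset_span ⟨x, hx, rfl⟩)
  · rintro _ ⟨x, hx, rfl⟩
    exact mem_Hm hx

theorem span_Hm_top (u : G → A) : span F (Hm F u ⊤) = span F (Set.range u) := by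
  rw [span_Hm, Subgroup.coe_top, Set.image_univ]

theorem span_Hm_mono {H K : Subgroup G} (h : H ≤ K) : span F (Hm F u H) ≤ span F (Hm F u K) :=
  span_mono (Hm_mono h)

theorem TG.span_mul (hu : TG F u) {H : Subgroup G} {a b : A} (ha : a ∈ span F (Hm F u H))
    (hb : b ∈ span F (Hm F u H)) : a * b ∈ span F (Hm F u H) := by
  have := Submodule.mul_mem_mul ha hb
  rw [span_mul_span] at this
  refine span_mono ?_ this
  rintro _ ⟨x, hx, y, hy, rfl⟩
  exact hu.Hm_mul hx hy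

theorem TG.one_mul_span (hu : TG F u) {H : Subgroup G} {a : A} (ha : a ∈ span F (Hm F u H)) :
    u 1 * a = a := by
  induction ha using span_induction with
  | mem x h => obtain ⟨c, -, x, -, rfl⟩ := h; rw [mul_smul_comm, hu.one_mul]
  | zero => simp
  | add x y _ _ a b => rw [mul_add, a, b]
  | smul c x _ a => rw [mul_smul_comm, a]

theorem TG.span_mul_one (hu : TG F u) {H : Subgroup G} {a : A} (ha : a ∈ span F (Hm F u H)) :
    a * u 1 = a := by
  induction ha using span_induction with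
  | mem x h => obtain ⟨c, -, x, -, rfl⟩ := h; rw [smul_mul_assoc, hu.mul_one]
  | zero => simp
  | add x y _ _ a b => rw [add_mul, a, b]
  | smul c x _ a => rw [smul_mul_assoc, a]

/-- relations on generators extend to the span. -/
theorem span_comm {S : Set A} {w : A} {a : RingAut A} (l : Lin F a)
    (h : ∀ x ∈ S, w * x = a x * w) {x : A} (hx : x ∈ span F S) : w * x = a x * w := by
  induction hx using span_induction with
  | mem x k => exact h x k
  | zero => simp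
  | add x y _ _ p q => rw [mul_add, p, q, map_add, add_mul]
  | smul c x _ p => rw [mul_smul_comm, p, l, smul_mul_assoc]

theorem span_comm' {S : Set A} {w : A} (h : ∀ x ∈ S, w * x = x * w) {x : A}
    (hx : x ∈ span F S) : w * x = x * w :=
  span_comm (F := F) (a := 1) (fun _ _ => rfl) h hx

theorem TG.comp (hu : TG F u) {K : Type} [Group K] (f : K →* G) (hf : Function.Injective f) :
    TG F (u ∘ f) :=
  ⟨fun x y => by simpa only [Function.comp, map_mul] using hu.mul (f x) (f y),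
    hu.ind.comp f hf, by simpa only [Function.comp, map_one] using hu.one⟩

theorem Hm_comp {K : Type} [Group K] (f : K →* G) (H : Subgroup K) :
    Hm F (u ∘ f) H = Hm F u (H.map f) := by
  ext a
  exact ⟨fun ⟨c, hc, x, hx, e⟩ => ⟨c, hc, f x, ⟨x, hx, rfl⟩, e⟩,
    fun ⟨c, hc, _, ⟨x, hx, rfl⟩, e⟩ => ⟨c, hc, x, hx, e⟩⟩

theorem TG.sub (hu : TG F u) (H : Subgroup G) : TG F (u ∘ H.subtype) :=
  hu.comp _ H.subtype_injective

theorem Hm_sub_top (H : Subgroup G) : Hm F (u ∘ H.subtype) ⊤ = Hm F u H := by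
  rw [Hm_comp, ← MonoidHom.range_eq_map, Subgroup.range_subtype]

theorem Hm_subgroupOf (H K : Subgroup G) :
    Hm F (u ∘ H.subtype) (K.subgroupOf H) = Hm F u (K ⊓ H) := by
  rw [Hm_comp, Subgroup.subgroupOf_map_subtype]

theorem TG.nice [Finite G] (hu : TG F u) (H : Subgroup G) (h : (Nat.card H : F) ≠ 0) :
    Nice F (Hm F u H) :=
  ⟨H, inferInstance, inferInstance, _, hu.sub H, h, (Hm_sub_top H).symm⟩

theorem TG.finite [Finite G] (u : G → A) (H : Subgroup G) :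
    Module.Finite F (span F (Hm F u H)) := by
  rw [span_Hm]
  exact Module.Finite.span_of_finite F (Set.toFinite _)

theorem TG.finrank [Finite G] (hu : TG F u) (H : Subgroup G) :
    Module.finrank F (span F (Hm F u H)) = Nat.card H := by
  have := Fintype.ofFinite H
  rw [← Hm_sub_top, span_Hm_top, finrank_span_eq_card (hu.sub H).ind, Nat.card_eq_fintype_card]

theorem TG.mem_St (hu : TG F u) {e : A} (he : u 1 * e = e * u 1) {x : G} :
    x ∈ St u e ↔ u x * e = e * u x := by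
  refine ⟨fun h => ?_, fun h => Subgroup.subset_closure h⟩
  induction h using Subgroup.closure_induction with
  | mem x h => exact h
  | one => exact he
  | mul x y _ _ p q =>
    obtain ⟨c, hc, k⟩ := hu.mul x y
    apply smul_right_injective A hc
    show c • (u (x * y) * e) = c • (e * u (x * y))
    rw [← smul_mul_assoc, ← mul_smul_comm, ← k, mul_assoc, q, ← mul_assoc, p, mul_assoc]
  | inv x _ p =>
    obtain ⟨c, hc, k, k'⟩ := hu.inv x
    apply smul_right_injective A hc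
    show c • (u x⁻¹ * e) = c • (e * u x⁻¹)
    rw [← smul_mul_assoc, ← mul_smul_comm]
    set v := c • u x⁻¹ with hv
    have v1 : v * u 1 = v := by rw [hv, smul_mul_assoc, hu.mul_one]
    have v2 : u 1 * v = v := by rw [hv, mul_smul_comm, hu.one_mul]
    calc v * e = v * (u 1 * e) := by rw [← mul_assoc, v1]
      _ = v * (e * u x) * v := by rw [he, ← k]; simp only [mul_assoc]
      _ = u 1 * e * v := by rw [← p, ← mul_assoc, k']
      _ = e * v := by rw [he, mul_assoc, v2]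

theorem TG.mem_St_span (hu : TG F u) {H : Subgroup G} {e : A} (he : e ∈ span F (Hm F u H))
    {x : G} : x ∈ St u e ↔ u x * e = e * u x :=
  hu.mem_St (by rw [hu.one_mul_span he, hu.span_mul_one he])

theorem TG.le_St (hu : TG F u) {H : Subgroup G} {e : A} (he : e ∈ Cen F (Hm F u H)) :
    H ≤ St u e := fun _ hx => (hu.mem_St_span he.1).2 (he.2 _ (CT.mem_Hm hx)).symm

theorem mem_SG {GG : Subgroup (RingAut F)} {γ : RingAut A} :
    γ ∈ SG GG A ↔ ∃ σ ∈ GG, SL F σ γ := Iff.rfl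

theorem Lin.mem_SG {GG : Subgroup (RingAut F)} {γ : RingAut A} (h : Lin F γ) : γ ∈ SG GG A :=
  ⟨1, one_mem _, h⟩

theorem mem_Stb {S : Set A} {γ : RingAut A} : γ ∈ Stb S ↔ ∀ a, γ a ∈ S ↔ a ∈ S := Iff.rfl

theorem mem_Stb_iff {S : Set A} {γ : RingAut A} : γ ∈ Stb S ↔ γ '' S = S := by
  refine ⟨fun h => Set.ext fun a => ⟨?_, fun k => ⟨γ.symm a, (h _).1 (by simpa using k), by simp⟩⟩,
    fun h a => ⟨fun k => ?_, fun k => h.le ⟨a, k, rfl⟩⟩⟩
  · rintro ⟨b, hb, rfl⟩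
    exact (h b).2 hb
  · obtain ⟨b, hb, e⟩ := h.ge k
    exact γ.injective e ▸ hb

theorem mem_Fx {e : A} {γ : RingAut A} : γ ∈ Fx e ↔ γ e = e := Iff.rfl

/-- a semilinear automorphism of the homogeneous elements induces an automorphism of the group. -/
theorem TG.aut (hu : TG F u) {σ : RingAut F} {γ : RingAut A} (s : SL F σ γ)
    (h : γ ∈ Stb (Hm F u ⊤)) :
    ∃ φ : MulAut G, ∀ x, ∃ c : F, c ≠ 0 ∧ γ (u x) = c • u (φ x) := by
  have ex : ∀ x, ∃ y, ∃ c : F, c ≠ 0 ∧ γ (u x) = c • u y := fun x => by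
    obtain ⟨c, hc, y, -, e⟩ := (h (u x)).2 (CT.mem_Hm trivial)
    exact ⟨y, c, hc, e⟩
  choose f hf using ex
  have hm : ∀ x y, f (x * y) = f x * f y := fun x y => by
    obtain ⟨a, ha, ea⟩ := hf x
    obtain ⟨b, hb, eb⟩ := hf y
    obtain ⟨c, hc, ec⟩ := hf (x * y)
    obtain ⟨d, hd, ed⟩ := hu.mul x y
    obtain ⟨k, hk, ek⟩ := hu.mul (f x) (f y)
    have e := congrArg γ ed
    rw [map_mul, ea, eb, s, ec, smul_mul_assoc, mul_smul_comm, ek, smul_smul, smul_smul,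
      smul_smul] at e
    exact (hu.eq_of (mul_ne_zero (mul_ne_zero ha hb) hk) e).1.symm
  refine ⟨MulEquiv.ofBijective (MonoidHom.mk' f hm) ⟨fun x y e => ?_, fun y => ?_⟩, hf⟩
  · obtain ⟨a, ha, ea⟩ := hf x
    obtain ⟨b, hb, eb⟩ := hf y
    have e' : f x = f y := e
    have k : γ (σ.symm b • u x) = γ (σ.symm a • u y) := by
      rw [s, s, ea, eb, e', σ.apply_symm_apply, σ.apply_symm_apply, smul_comm]
    exact (hu.eq_of (by simpa using hb) (γ.injective k)).1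
  · obtain ⟨c, hc, x, -, e⟩ := (h (γ.symm (u y))).1 (by simpa using CT.mem_Hm (Subgroup.mem_top y))
    obtain ⟨a, ha, ea⟩ := hf x
    have k := congrArg γ e
    rw [γ.apply_symm_apply, s, ea, smul_smul, ← one_smul F (u y)] at k
    exact ⟨x, (hu.eq_of one_ne_zero k).1.symm⟩

section induced
variable {σ : RingAut F} {γ : RingAut A} {φ : MulAut G}

theorem image_Hm (s : SL F σ γ) (h : ∀ x, ∃ c : F, c ≠ 0 ∧ γ (u x) = c • u (φ x))
    (H : Subgroup G) : γ '' Hm F u H = Hm F u (H.map φ.toMonoidHom) := by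
  ext a
  constructor
  · rintro ⟨_, ⟨c, hc, x, hx, rfl⟩, rfl⟩
    obtain ⟨d, hd, e⟩ := h x
    rw [s, e]
    exact Hm_smul (by simpa using hc) (Hm_smul hd (mem_Hm ⟨x, hx, rfl⟩))
  · rintro ⟨c, hc, _, ⟨x, hx, rfl⟩, rfl⟩
    obtain ⟨d, hd, e⟩ := h x
    refine ⟨σ.symm (c * d⁻¹) • u x, Hm_smul (by simpa using ⟨hc, hd⟩) (mem_Hm hx), ?_⟩
    rw [s, e, σ.apply_symm_apply, smul_smul, inv_mul_cancel_right₀ hd]
    rfl

theorem TG.stb_iff (hu : TG F u) (s : SL F σ γ)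
    (h : ∀ x, ∃ c : F, c ≠ 0 ∧ γ (u x) = c • u (φ x)) (H : Subgroup G) :
    γ ∈ Stb (Hm F u H) ↔ H.map φ.toMonoidHom = H := by
  rw [mem_Stb_iff, image_Hm s h]
  exact ⟨hu.Hm_inj, fun k => by rw [k]⟩

end induced

/-- a subgroup invariant under all automorphisms fixing the members of a family. -/
theorem TG.stb_of (hu : TG F u) {σ : RingAut F} {γ : RingAut A} (s : SL F σ γ)
    (h : γ ∈ Stb (Hm F u ⊤)) {I : Sort*} {S : I → Subgroup G} (hS : ∀ i, γ ∈ Stb (Hm F u (S i)))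
    {H : Subgroup G} (k : ∀ φ : MulAut G, (∀ i, (S i).map φ.toMonoidHom = S i) →
      H.map φ.toMonoidHom = H) : γ ∈ Stb (Hm F u H) := by
  obtain ⟨φ, hφ⟩ := hu.aut s h
  exact (hu.stb_iff s hφ H).2 (k φ fun i => (hu.stb_iff s hφ _).1 (hS i))

theorem TG.stb_char (hu : TG F u) {σ : RingAut F} {γ : RingAut A} (s : SL F σ γ)
    (h : γ ∈ Stb (Hm F u ⊤)) (H : Subgroup G) [c : H.Characteristic] : γ ∈ Stb (Hm F u H) := by
  obtain ⟨φ, hφ⟩ := hu.aut s h
  exact (hu.stb_iff s hφ H).2 (Subgroup.characteristic_iff_map_eq.1 c φ)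

theorem TG.stb_inf (hu : TG F u) {γ : RingAut A} {H K : Subgroup G} (h : γ ∈ Stb (Hm F u H))
    (k : γ ∈ Stb (Hm F u K)) : γ ∈ Stb (Hm F u (H ⊓ K)) := fun a => by
  rw [hu.Hm_inf, Set.mem_inter_iff, Set.mem_inter_iff, h a, k a]

theorem TG.stb_sup (hu : TG F u) {σ : RingAut F} {γ : RingAut A} (s : SL F σ γ)
    (t : γ ∈ Stb (Hm F u ⊤)) {H K : Subgroup G} (h : γ ∈ Stb (Hm F u H))
    (k : γ ∈ Stb (Hm F u K)) : γ ∈ Stb (Hm F u (H ⊔ K)) := by
  obtain ⟨φ, hφ⟩ := hu.aut s t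
  rw [hu.stb_iff s hφ] at h k ⊢
  rw [Subgroup.map_sup, h, k]

theorem TG.stb_normalizer (hu : TG F u) {σ : RingAut F} {γ : RingAut A} (s : SL F σ γ)
    (t : γ ∈ Stb (Hm F u ⊤)) {H : Subgroup G} (h : γ ∈ Stb (Hm F u H)) :
    γ ∈ Stb (Hm F u (Subgroup.normalizer (H : Set G))) := by
  obtain ⟨φ, hφ⟩ := hu.aut s t
  rw [hu.stb_iff s hφ] at h ⊢
  rw [Subgroup.map_equiv_normalizer_eq, h]

theorem TG.stb_centralizer (hu : TG F u) {σ : RingAut F} {γ : RingAut A} (s : SL F σ γ)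
    (t : γ ∈ Stb (Hm F u ⊤)) {H : Subgroup G} (h : γ ∈ Stb (Hm F u H)) :
    γ ∈ Stb (Hm F u (Subgroup.centralizer (H : Set G))) := by
  obtain ⟨φ, hφ⟩ := hu.aut s t
  rw [hu.stb_iff s hφ] at h ⊢
  ext x
  constructor
  · rintro ⟨y, hy, rfl⟩ z hz
    obtain ⟨w, hw, rfl⟩ := h.ge hz
    rw [← map_mul, hy w hw, map_mul]
  · intro hx
    refine ⟨φ.symm x, fun z hz => φ.injective ?_, φ.apply_symm_apply x⟩
    rw [map_mul, map_mul, φ.apply_symm_apply]
    exact hx _ (h.le ⟨z, hz, rfl⟩)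

theorem TG.fix_one (hu : TG F u) {γ : RingAut A} {H : Subgroup G} (h : γ ∈ Stb (Hm F u H)) :
    γ (u 1) = u 1 := by
  have m := (h (u 1)).2 (CT.mem_Hm (one_mem H))
  obtain ⟨b, hb, e, -⟩ := hu.Hm_inv m
  have k : γ (u 1) * γ (u 1) * b = γ (u 1) * b := by rw [← map_mul, hu.one]
  rwa [mul_assoc, e, hu.span_mul_one (subset_span m)] at k

/-- conjugation by `u x` extends to the ambient algebra. -/
theorem TG.exists_isAd (hu : TG F u) (x : G) : ∃ a, IsAd F u x a := by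
  obtain ⟨c, hc, k, k'⟩ := hu.inv x
  set v := c • u x⁻¹ with hv
  have v1 : v * u 1 = v := by rw [hv, smul_mul_assoc, hu.mul_one]
  have v2 : u 1 * v = v := by rw [hv, mul_smul_comm, hu.one_mul]
  let w : Aˣ := ⟨u x + (1 - u 1), v + (1 - u 1), by
    simp only [mul_add, add_mul, mul_sub, sub_mul, _root_.mul_one, _root_.one_mul, k, hu.mul_one,
      v2]; abel, by
    simp only [mul_add, add_mul, mul_sub, sub_mul, _root_.mul_one, _root_.one_mul, k', hu.one_mul,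
      v1]; abel⟩
  let a : RingAut A := MulSemiringAction.toRingEquiv _ A (ConjAct.toConjAct w)
  have ha : ∀ b, a b = (u x + (1 - u 1)) * b * (v + (1 - u 1)) := fun b => rfl
  have hb : ∀ b ∈ span F (Hm F u ⊤), a b = u x * b * v := fun b m => by
    have m' := hu.span_mul (subset_span (CT.mem_Hm (H := ⊤) (x := x) trivial)) m
    rw [ha, add_mul, sub_mul, _root_.one_mul, hu.one_mul_span m, sub_self, add_zero, mul_add,
      mul_sub, _root_.mul_one, hu.span_mul_one m', sub_self, add_zero]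
  have mv : v ∈ Hm F u ⊤ := Hm_smul hc (CT.mem_Hm trivial)
  refine ⟨a, fun d b => by rw [ha, ha, mul_smul_comm, smul_mul_assoc], mem_Stb_iff.2 ?_,
    fun b m => by rw [hb b m, mul_assoc, k', mul_assoc, hu.span_mul_one m]⟩
  ext b
  constructor
  · rintro ⟨b, m, rfl⟩
    rw [hb b (subset_span m)]
    exact hu.Hm_mul (hu.Hm_mul (CT.mem_Hm trivial) m) mv
  · intro m
    have m' := hu.Hm_mul (hu.Hm_mul mv m) (CT.mem_Hm (H := ⊤) (x := x) trivial)
    refine ⟨_, m', ?_⟩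
    rw [hb _ (subset_span m')]
    calc u x * (v * b * u x) * v = u x * v * b * (u x * v) := by simp only [mul_assoc]
      _ = b := by rw [k, hu.one_mul_span (subset_span m), hu.span_mul_one (subset_span m)]

/-- the automorphism of the group induced by a conjugation. -/
theorem IsAd.conj (hu : TG F u) {x : G} {a : RingAut A} (h : IsAd F u x a) (y : G) :
    ∃ c : F, c ≠ 0 ∧ a (u y) = c • u (MulAut.conj x y) := by
  obtain ⟨c, hc, z, -, e⟩ := (h.2.1 (u y)).2 (mem_Hm trivial)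
  have k := h.2.2 (u y) (subset_span (mem_Hm trivial))
  obtain ⟨d, hd, ed⟩ := hu.mul x y
  obtain ⟨f, -, ef⟩ := hu.mul z x
  rw [e, ed, smul_mul_assoc, ef, smul_smul] at k
  have : z = MulAut.conj x y := by rw [MulAut.conj_apply, (hu.eq_of hd k).1, mul_inv_cancel_right]
  exact ⟨c, hc, this ▸ e⟩

theorem IsAd.stb_iff (hu : TG F u) {x : G} {a : RingAut A} (h : IsAd F u x a) (H : Subgroup G) :
    a ∈ Stb (Hm F u H) ↔ x ∈ Subgroup.normalizer (H : Set G) := by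
  rw [hu.stb_iff (σ := 1) h.1 (h.conj hu), Subgroup.mem_normalizer_iff]
  constructor
  · intro k y
    refine ⟨fun hy => k.le ⟨y, hy, rfl⟩, fun hy => ?_⟩
    obtain ⟨z, hz, e⟩ := k.ge hy
    exact (MulAut.conj x).injective e ▸ hz
  · intro k
    ext y
    constructor
    · rintro ⟨z, hz, rfl⟩
      exact (k z).1 hz
    · intro hy
      exact ⟨x⁻¹ * y * x, (k _).2 (by simpa [mul_assoc] using hy), by simp [mul_assoc]⟩

theorem IsAd.stb_normal (hu : TG F u) {x : G} {a : RingAut A} (h : IsAd F u x a) (H : Subgroup G)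
    [H.Normal] : a ∈ Stb (Hm F u H) :=
  (h.stb_iff hu H).2 (by rw [Subgroup.normalizer_eq_top]; trivial)

/-- a conjugation is determined on the span. -/
theorem IsAd.eq_iff (hu : TG F u) {x : G} {a : RingAut A} (h : IsAd F u x a) {b b' : A}
    (hb : b ∈ span F (Hm F u ⊤)) (hb' : b' * u 1 = b') : a b = b' ↔ u x * b = b' * u x := by
  refine ⟨fun e => e ▸ h.2.2 b hb, fun e => ?_⟩
  obtain ⟨c, -, k, -⟩ := hu.inv x
  have e1 : a b * u 1 = a b := by
    rw [← hu.fix_one h.2.1, ← map_mul, hu.span_mul_one hb]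
  rw [← e1, ← hb', ← k, ← mul_assoc, ← mul_assoc, ← e, h.2.2 b hb]

theorem IsAd.fx_iff (hu : TG F u) {x : G} {a : RingAut A} (h : IsAd F u x a) {e : A}
    (he : e ∈ span F (Hm F u ⊤)) : a ∈ Fx e ↔ x ∈ St u e := by
  rw [mem_Fx, h.eq_iff hu he (hu.span_mul_one he), hu.mem_St_span he]

end Pool.Agent.Lib.MP_1ae3da_al.CT
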