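import Mathlib

/-! Fitting idempotents over a complete discrete valuation ring. -/

namespace Pool.Agent.Lib.MP_1ae3da_al.CT

open Polynomial

theorem rfit_mem {O M ι : Type} [CommRing O] [AddCommGroup M] [Module O M] [Fintype ι]
    (b : Module.Basis ι O M) (J : Ideal O) (x : M) :
    x ∈ J • (⊤ : Submodule O M) ↔ ∀ i, b.repr x i ∈ J := by
  constructor
  · intro h i
    refine Submodule.smul_induction_on h (fun r hr n _ => ?_) fun x y hx hy => ?_
    · rw [map_smul, Finsupp.smul_apply, smul_eq_mul]; exact J.mul_mem_right _ hr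
    · rw [map_add, Finsupp.add_apply]; exact J.add_mem hx hy
  · intro h
    rw [← b.sum_repr x]
    exact Submodule.sum_mem _ fun i _ => Submodule.smul_mem_smul (h i) Submodule.mem_top

/-- a finite free module over a complete ring is complete. -/
theorem rfit_cpl {O : Type} (M : Type) [CommRing O] [AddCommGroup M] [Module O M] (I : Ideal O)
    [h : IsAdicComplete I O] [Module.Finite O M] [Module.Free O M] : IsAdicComplete I M := by
  let b := Module.Free.chooseBasis O M
  have k : ∀ (n : ℕ) (x y : O), x ≡ y [SMOD (I ^ n • ⊤ : Submodule O O)] ↔ x - y ∈ I ^ n :=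
    fun n x y => by rw [SModEq.sub_mem, smul_eq_mul, Ideal.mul_top]
  refine { haus' := fun x hx => ?_, prec' := fun f hf => ?_ }
  · refine b.ext_elem fun i => ?_
    rw [map_zero, Finsupp.zero_apply]
    refine h.toIsHausdorff.haus _ fun n => (k n _ _).2 ?_
    have := (rfit_mem b _ _).1 (SModEq.sub_mem.1 (hx n)) i
    simpa using this
  · have c : ∀ i, ∃ L : O, ∀ n, b.repr (f n) i ≡ L [SMOD (I ^ n • ⊤ : Submodule O O)] := fun i =>
      h.toIsPrecomplete.prec fun {m n} hmn => (k m _ _).2 (by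
        have := (rfit_mem b _ _).1 (SModEq.sub_mem.1 (hf hmn)) i
        simpa using this)
    choose L hL using c
    refine ⟨b.equivFun.symm L, fun n => SModEq.sub_mem.2 ((rfit_mem b _ _).2 fun i => ?_)⟩
    have e : b.repr (b.equivFun.symm L) i = L i := by
      rw [← b.equivFun_apply, LinearEquiv.apply_symm_apply]
    rw [map_sub, Finsupp.sub_apply, e]
    exact (k n _ _).1 (hL i n)

/-- idempotents lift in a complete commutative ring. -/
theorem rfit_idem {B : Type} [CommRing B] (J : Ideal B) [IsAdicComplete J B] (a : B)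
    (h : a * a - a ∈ J) : ∃ e : B, e * e = e ∧ e - a ∈ J := by
  have hm : (X ^ 2 - X : B[X]).Monic := by
    rcases subsingleton_or_nontrivial B with _ | _
    · exact monic_of_subsingleton _
    · monicity!
  obtain ⟨e, he, h1⟩ := HenselianRing.is_henselian (I := J) (X ^ 2 - X : B[X]) hm a
    (by simpa [sq] using h) (by
      refine IsUnit.of_mul_eq_one (Ideal.Quotient.mk J (2 * a - 1)) ?_
      rw [← map_mul, ← map_one (Ideal.Quotient.mk J), Ideal.Quotient.eq]
      have e : eval a (derivative (X ^ 2 - X : B[X])) * (2 * a - 1) - 1 = 4 * (a * a - a) := by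
        simp; ring
      rw [e]; exact J.mul_mem_left _ h)
  refine ⟨e, ?_, h1⟩
  have : e ^ 2 - e = 0 := by simpa using he
  linear_combination this

theorem rfit_comm {O B : Type} [CommRing O] [CommRing B] [Algebra O B] (π : O)
    (hπ : (Ideal.span {π}).IsMaximal) [IsAdicComplete (Ideal.span {π}) O] [Module.Finite O B]
    [Module.Free O B] (x : B) :
    ∃ (e g y : B) (n : ℕ), e * e = e ∧ g * x = e ∧ g * e = g ∧ x ^ n * (1 - e) = π • y := by
  set J : Ideal B := (Ideal.span {π}).map (algebraMap O B) with hJ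
  have : IsAdicComplete (Ideal.span {π}) B := rfit_cpl B _
  have : IsAdicComplete J B := (IsAdicComplete.map_algebraMap_iff _ _).2 this
  let := Ideal.Quotient.field (Ideal.span {π})
  have : Module.Finite (O ⧸ Ideal.span {π}) (B ⧸ J) :=
    Module.Finite.of_restrictScalars_finite O _ _
  have : IsArtinianRing (B ⧸ J) := IsArtinianRing.of_finite (O ⧸ Ideal.span {π}) _
  obtain ⟨n, y, hy⟩ := IsArtinian.exists_pow_succ_smul_dvd (Ideal.Quotient.mk J x) (1 : B ⧸ J)
  obtain ⟨y, rfl⟩ := Ideal.Quotient.mk_surjective y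
  set q := Ideal.Quotient.mk J with hq
  simp only [smul_eq_mul, mul_one, Nat.succ_eq_add_one] at hy
  have h1 : ∀ m, q x ^ n * (q x * q y) ^ m = q x ^ n := by
    intro m
    induction m with
    | zero => simp
    | succ m ih => linear_combination (q x * q y) ^ m * hy + ih
  obtain ⟨e, he, h2⟩ := rfit_idem J ((x * y) ^ (n + 1)) (by
    rw [← Ideal.Quotient.eq_zero_iff_mem, map_sub, map_mul, map_pow, map_mul]
    linear_combination (q x * q y ^ (n + 1)) * h1 (n + 1))
  have h3 : q e = (q x * q y) ^ (n + 1) := by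
    rw [← map_mul, ← map_pow]; exact Ideal.Quotient.eq.2 h2
  have h4 : q e * q e = q e := by rw [← map_mul, he]
  have hu : IsUnit (x * e + (1 - e)) := by
    have := isLocalHom_of_le_jacobson_bot J (IsAdicComplete.le_jacobson_bot J)
    refine IsLocalHom.map_nonunit (f := q) _ (IsUnit.of_mul_eq_one
      (q x ^ n * q y ^ (n + 1) * q e + (1 - q e)) ?_)
    rw [map_add, map_mul, map_sub, map_one]
    linear_combination (2 - q x - q x ^ n * q y ^ (n + 1) + (q x * q y) ^ (n + 1)) * h4 -
      (q e) * h3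
  obtain ⟨u, hu⟩ := hu.exists_left_inv
  have h5 : x ^ n * (1 - e) ∈ J := by
    rw [← Ideal.Quotient.eq_zero_iff_mem, map_mul, map_sub, map_pow, map_one]
    change q x ^ n * (1 - q e) = 0
    linear_combination -h1 (n + 1) - q x ^ n * h3
  rw [hJ, Ideal.map_span, Set.image_singleton, Ideal.mem_span_singleton'] at h5
  obtain ⟨z, hz⟩ := h5
  refine ⟨e, u * e, z, n, he, ?_, by rw [mul_assoc, he], by rw [← hz, Algebra.smul_def, mul_comm]⟩
  linear_combination e * hu - (u * x - u) * he

/-- the Fitting idempotent of an integral element. -/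
theorem rfit {O E : Type} [CommRing O] [Ring E] [Algebra O E] (π : O)
    (hπ : (Ideal.span {π}).IsMaximal) [IsAdicComplete (Ideal.span {π}) O] (f : E)
    (hf : IsIntegral O f) :
    ∃ (e g y : E) (n : ℕ), e * e = e ∧ g * f = e ∧ f * g = e ∧ g * e = g ∧ e * g = g ∧
      f ^ n * (1 - e) = π • y ∧ e ∈ Algebra.adjoin O {f} ∧ g ∈ Algebra.adjoin O {f} ∧
      y ∈ Algebra.adjoin O {f} := by
  obtain ⟨χ, hm, h0⟩ := hf
  have : Module.Finite O (AdjoinRoot χ) := hm.finite_adjoinRoot
  have : Module.Free O (AdjoinRoot χ) := hm.free_adjoinRoot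
  obtain ⟨e, g, y, n, h1, h2, h3, h4⟩ := rfit_comm π hπ (AdjoinRoot.root χ)
  let φ : AdjoinRoot χ →ₐ[O] E := Ideal.Quotient.liftₐ (Ideal.span {χ}) (aeval f) fun a ha => by
    obtain ⟨c, rfl⟩ := Ideal.mem_span_singleton'.1 ha
    rw [map_mul, show aeval f χ = 0 from h0, mul_zero]
  have hφ : ∀ a : O[X], φ (AdjoinRoot.mk χ a) = aeval f a := fun a => rfl
  have hx : φ (AdjoinRoot.root χ) = f := by
    rw [← AdjoinRoot.mk_X, hφ, aeval_X]
  have hm : ∀ a, φ a ∈ Algebra.adjoin O {f} := fun a => by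
    obtain ⟨c, rfl⟩ := AdjoinRoot.mk_surjective a
    rw [hφ]; exact aeval_mem_adjoin_singleton O f
  refine ⟨φ e, φ g, φ y, n, by rw [← map_mul, h1], by rw [← hx, ← map_mul, h2],
    by rw [← hx, ← map_mul, mul_comm, h2], by rw [← map_mul, h3],
    by rw [← map_mul, mul_comm, h3], ?_, hm e, hm g, hm y⟩
  rw [← map_smul, ← h4, map_mul, map_pow, map_sub, map_one, hx]

theorem rfit_commute {O E : Type} [CommRing O] [Ring E] [Algebra O E] {f a x : E}
    (ha : a ∈ Algebra.adjoin O {f}) (h : Commute x f) : Commute x a :=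
  Algebra.commute_of_mem_adjoin_of_forall_mem_commute ha fun _ hb => by
    rw [Set.mem_singleton_iff.1 hb]; exact h

/-- in a subalgebra with trivial idempotents every element is a unit or nilpotent modulo `π`. -/
theorem rfit_or {O E : Type} [CommRing O] [Ring E] [Algebra O E] [Module.Finite O E] (π : O)
    (hπ : (Ideal.span {π}).IsMaximal) [IsAdicComplete (Ideal.span {π}) O] (D : Subalgebra O E)
    (hD : ∀ e ∈ D, e * e = e → e = 0 ∨ e = 1) (f : E) (hf : f ∈ D) :
    (∃ g ∈ D, g * f = 1 ∧ f * g = 1) ∨ ∃ n : ℕ, ∃ y ∈ D, f ^ n = π • y := by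
  obtain ⟨e, g, y, n, h1, h2, h3, -, -, h6, he, hg, hy⟩ :=
    rfit π hπ f (IsIntegral.of_finite O f)
  have le : Algebra.adjoin O {f} ≤ D := Algebra.adjoin_le (Set.singleton_subset_iff.2 hf)
  rcases hD e (le he) h1 with h | h
  · exact Or.inr ⟨n, y, le hy, by rw [← h6, h, sub_zero, mul_one]⟩
  · exact Or.inl ⟨g, le hg, h2.trans h, h3.trans h⟩

end Pool.Agent.Lib.MP_1ae3da_al.CT
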