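import Pool.Agent.Lib.MP_1ae3da_al.C.AMod
import Pool.Agent.Lib.MP_1ae3da_al.GAll

/-! Irreducible characters and blocks of the group algebra. -/

namespace Pool.Agent.Lib.MP_1ae3da_al.CT

open Submodule Matrix NSV

variable {F B H : Type} [Field F] [Ring B] [Algebra F B] [Group H]

lemma ch_iff {p : ℕ} {θ : H → Qbar} : θ ∈ NSV.IrrP p H ↔ ∃ n, IsIrr n θ ∧ ¬ p ∣ n :=
  ⟨fun ⟨n, ρ, h1, h2, h3⟩ => ⟨n, ⟨ρ, h1, h2⟩, h3⟩,
    fun ⟨n, ⟨ρ, h1, h2⟩, h3⟩ => ⟨n, ρ, h1, h2, h3⟩⟩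

variable [Fintype H]

lemma ch_cl {n : ℕ} {θ : H → Qbar} (hθ : IsIrr n θ) (g x : H) : θ (x * g * x⁻¹) = θ g :=
  (GM.A_ha H).cl θ ((GM.A_ha H).ch_vc θ ((GM.A_ha H).irr_ch θ ⟨n, hθ⟩)) g x

lemma ch_tw {p : ℕ} {θ : H → Qbar} (hθ : θ ∈ NSV.IrrP p H) (s : Qbar ≃ₐ[ℚ] Qbar) (β : H ≃* H) :
    (fun x => s (θ (β x))) ∈ NSV.IrrP p H := by
  classical
  obtain ⟨n, h1, h2⟩ := ch_iff.1 hθ
  exact ch_iff.2 ⟨n, ((GM.A_hh H H β.toMonoidHom).infl β.surjective n θ h1).twist s.toRingEquiv, h2⟩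

omit [Fintype H] in
/-- two automorphisms that agree on enough roots of unity agree on characters. -/
lemma ch_gal {n : ℕ} {θ : H → Qbar} (hθ : IsIrr n θ) (s s' : Qbar ≃ₐ[ℚ] Qbar) {M : ℕ} (hM : 0 < M)
    (hx : ∀ x : H, x ^ M = 1) (h : ∀ ξ : Qbar, ξ ^ M = 1 → s ξ = s' ξ) (x : H) :
    s (θ x) = s' (θ x) := by
  obtain ⟨k, -, hk⟩ := exists_exponent s.toRingEquiv M hM
  obtain ⟨ρ, -, rfl⟩ := hθ
  have h1 := sigma_char ρ M hM x (hx x) s.toRingEquiv k hk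
  have h2 := sigma_char ρ M hM x (hx x) s'.toRingEquiv k fun ξ hξ => (h ξ hξ).symm.trans (hk ξ hξ)
  exact h1.trans h2.symm

omit [Fintype H] in
lemma ch_deg {n d : ℕ} {θ : H → Qbar} (hθ : IsIrr n θ) {ρ : H → Matrix (Fin d) (Fin d) Qbar}
    (h1 : ρ 1 = 1) (ht : ∀ x, (ρ x).trace = θ x) : d = n := by
  have := ht 1
  rw [h1, hθ.one] at this
  simpa using this

lemma ch_AR (j : Qbar →+* F) {v : H → B} (hv : ∀ x y, v x * v y = v (x * y))
    (hi : LinearIndependent F v) {n d : ℕ} {θ : H → Qbar} (hθ : IsIrr n θ)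
    {ρ : H → Matrix (Fin d) (Fin d) Qbar} (hm : ∀ x y, ρ (x * y) = ρ x * ρ y) (h1 : ρ 1 = 1)
    (ht : ∀ x, (ρ x).trace = θ x) : AR v fun x => (ρ x).map j := by
  obtain rfl := ch_deg hθ h1 ht
  refine ⟨hv, hi, fun x y => by rw [hm, Matrix.map_mul], by simp [h1], hθ.pos, fun a i k b => ?_⟩
  let ρ' : H →* Matrix (Fin d) (Fin d) Qbar := ⟨⟨ρ, h1⟩, hm⟩
  have hI : (fun x => (ρ' x).trace) ∈ GM.Irr H := ⟨d, by
    have : (fun x => (ρ' x).trace) = θ := funext ht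
    rwa [this]⟩
  have inv : ∀ x, ρ x⁻¹ * ρ x = 1 := fun x => by rw [← hm, inv_mul_cancel, h1]
  obtain ⟨c, hc⟩ := (GM.A_hb H).schur d ρ' hI (∑ h, ρ h * single i k 1 * ρ h⁻¹) fun x => by
    change _ * ρ x = ρ x * _
    rw [Finset.sum_mul, Finset.mul_sum, ← Equiv.sum_comp (Equiv.mulLeft x)]
    refine Finset.sum_congr rfl fun y _ => ?_
    rw [Equiv.coe_mulLeft, mul_assoc, ← hm, hm x y]
    simp [mul_assoc]
  have h0 : (Fintype.card H : Qbar) ≠ 0 := Nat.cast_ne_zero.2 Fintype.card_ne_zero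
  have h2 := congrArg trace hc
  rw [trace_sum] at h2
  have h3 : ∀ h : H, (ρ h * single i k (1 : Qbar) * ρ h⁻¹).trace = if i = k then 1 else 0 := by
    intro h
    rw [trace_mul_comm, ← mul_assoc, inv, one_mul]
    split_ifs with e
    · subst e; simp
    · exact trace_single_eq_of_ne _ _ _ e
  simp only [h3, Finset.sum_const, Finset.card_univ, trace_smul, trace_one, Fintype.card_fin,
    nsmul_eq_mul, smul_eq_mul] at h2
  have h4 : ∑ h, ρ h a i * ρ h⁻¹ k b = c * if a = b then 1 else 0 := by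
    have := congrFun (congrFun hc a) b
    rw [Matrix.sum_apply, Matrix.smul_apply, one_apply, smul_eq_mul] at this
    rw [← this]
    refine Finset.sum_congr rfl fun h _ => ?_
    simp [mul_apply, single_apply, ite_and]
  have h5 : (d : Qbar) / Fintype.card H * ∑ h, ρ h a i * ρ h⁻¹ k b =
      if i = k ∧ a = b then 1 else 0 := by
    rw [h4, ← mul_assoc]
    have : (d : Qbar) / Fintype.card H * c = if i = k then 1 else 0 := by
      field_simp
      rw [h2, mul_comm]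
    rw [this]
    simp [ite_and]
    split_ifs <;> rfl
  have h6 := congrArg j h5
  simpa [apply_ite j] using h6

/-- the block idempotent of a character. -/
noncomputable def chi (j : Qbar →+* F) (v : H → B) (θ : H → Qbar) : B := ide v fun x => j (θ x)

lemma chi_eq (j : Qbar →+* F) {v : H → B} {d : ℕ} {θ : H → Qbar}
    {ρ : H → Matrix (Fin d) (Fin d) Qbar} (h : AR v fun x => (ρ x).map j)
    (ht : ∀ x, (ρ x).trace = θ x) : Em v (fun x => (ρ x).map j) 1 = chi j v θ := by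
  rw [h.Em_one, chi]
  congr 1
  funext x
  rw [← ht]
  simp [trace]

lemma chi_irr (j : Qbar →+* F) {v : H → B} (hv : ∀ x y, v x * v y = v (x * y))
    (hi : LinearIndependent F v) {n : ℕ} {θ : H → Qbar} (hθ : IsIrr n θ) :
    chi j v θ ∈ Irr F (Hm F v ⊤) ∧ Dg F (Hm F v ⊤) (chi j v θ) = n ^ 2 := by
  obtain ⟨ρ, ht⟩ := (GM.A_hb H).real n θ hθ
  have h := ch_AR j hv hi hθ ρ.map_mul ρ.map_one ht
  rw [← chi_eq j h ht]
  exact ⟨h.irr, h.Dg_eq⟩

lemma chi_inj (j : Qbar →+* F) {v : H → B} (hi : LinearIndependent F v) {n n' : ℕ}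
    {θ θ' : H → Qbar} (hθ : IsIrr n θ) (hθ' : IsIrr n' θ') (h : chi j v θ = chi j v θ') :
    θ = θ' := by
  have _ : CharZero F := (RingHom.charZero_iff j.injective).1 inferInstance
  have h1 : ∀ x, θ 1 * θ x = θ' 1 * θ' x := fun x =>
    j.injective (by simpa using ide_inj hi h x)
  have h2 := h1 1
  rw [hθ.one, hθ'.one] at h2
  have h3 : n = n' := Nat.mul_self_inj.1 (by exact_mod_cast h2)
  funext x
  have h4 := h1 x
  rw [hθ.one, hθ'.one, ← h3] at h4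
  exact mul_left_cancel₀ (Nat.cast_ne_zero.2 hθ.pos.ne') h4

lemma chi_sum (j : Qbar →+* F) (v : H → B) (s : Finset (H → Qbar))
    (hs : (s : Set (H → Qbar)) = GM.Irr H) : ∑ θ ∈ s, chi j v θ = v 1 := by
  classical
  have h1 := (GM.A_ha H).expand (Pi.single 1 1) (fun g x => by
    simp only [Pi.single_apply, mul_inv_eq_one, mul_eq_left]) s hs
  have h2 : ∀ θ : H → Qbar, ip (Pi.single (1 : H) (1 : Qbar)) θ = θ 1 / Fintype.card H := by
    intro θ
    simp [ip, Pi.single_apply, div_eq_inv_mul]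
  simp only [chi, ide]
  rw [Finset.sum_comm]
  have h3 : ∀ x : H, ∑ θ ∈ s, (j (θ 1) / Fintype.card H * j (θ x⁻¹)) • v x =
      (if x = 1 then (1 : F) else 0) • v x := by
    intro x
    rw [← Finset.sum_smul]
    congr 1
    have := congrArg j (congrFun h1 x⁻¹)
    simp only [h2, Finset.sum_apply, Pi.smul_apply, smul_eq_mul, map_sum, map_mul, map_div₀,
      map_natCast, Pi.single_apply, inv_eq_one, apply_ite j, map_one, map_zero] at this
    exact this.symm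
  simp [h3]

theorem chi_bij (j : Qbar →+* F) {v : H → B} (hv : ∀ x y, v x * v y = v (x * y))
    (hi : LinearIndependent F v) {p : ℕ} (hp : p.Prime) :
    Set.BijOn (chi j v) (NSV.IrrP p H) (IrrP F p (Hm F v ⊤)) := by
  refine ⟨fun θ hθ => ?_, fun θ hθ θ' hθ' h => ?_, fun e he => ?_⟩
  · obtain ⟨n, h1, h2⟩ := ch_iff.1 hθ
    obtain ⟨h3, h4⟩ := chi_irr j hv hi h1
    exact ⟨h3, fun h => h2 (hp.dvd_of_dvd_pow (h4 ▸ h))⟩
  · obtain ⟨n, h1, -⟩ := ch_iff.1 hθ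
    obtain ⟨n', h2, -⟩ := ch_iff.1 hθ'
    exact chi_inj j hi h1 h2 h
  · have h1 : v 1 * e = e := by
      refine am_ind (P := fun a => v 1 * a = a) (by simp) (fun a b ha hb => by
        rw [mul_add, ha, hb]) (fun c x => by rw [mul_smul_comm, hv, one_mul]) e he.1.1.1
    have hs := (GM.A_ha H).fin.coe_toFinset
    rw [← chi_sum j v _ hs, Finset.sum_mul] at h1
    obtain ⟨θ, h2, h3⟩ := Finset.exists_ne_zero_of_sum_ne_zero (h1 ▸ he.1.2.2.1)
    obtain ⟨n, hn⟩ : θ ∈ GM.Irr H := hs ▸ h2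
    obtain ⟨h4, h5⟩ := chi_irr j hv hi hn
    have h6 := am_irr_eq he.1 h4 h3
    refine ⟨θ, ch_iff.2 ⟨n, hn, fun h => he.2 ?_⟩, h6.symm⟩
    rw [h6, h5]
    exact h.trans (dvd_pow_self n two_ne_zero)

lemma chi_map (j : Qbar →+* F) {v : H → B} {σ : RingAut F} {s : Qbar ≃ₐ[ℚ] Qbar} {γ : RingAut B}
    (hγ : SL F σ γ) (β : H ≃* H) (hβ : ∀ h, γ (v h) = v (β h)) {θ θ' : H → Qbar}
    (hs : ∀ x, σ (j (θ x)) = j (s (θ x))) (h : ∀ x, θ' (β x) = s (θ x)) :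
    γ (chi j v θ) = chi j v θ' :=
  ide_map hγ β hβ fun x => by rw [h, hs]

end Pool.Agent.Lib.MP_1ae3da_al.CT
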