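import Pool.Agent.Lib.MP_1ae3da_al.GT

/-! The double cover of the alternating group, lifting of automorphisms, and facts on perfect
central extensions. -/

namespace Pool.Agent.Lib.MP_1ae3da_al.CT

open Equiv
open scoped commutatorElement IsMulCommutative

/-- a homomorphism from a perfect group to a commutative group is trivial. -/
lemma hom_one_of_perfect {X Y : Type*} [Group X] [CommGroup Y] (hX : commutator X = ⊤)
    (c : X →* Y) (x : X) : c x = 1 :=
  Abelianization.commutator_subset_ker c (hX ▸ Subgroup.mem_top x)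

/-- two homomorphisms from a perfect group that agree modulo the centre are equal. -/
lemma hom_eq_of_perfect {X Y : Type*} [Group X] [Group Y] (hX : commutator X = ⊤)
    (a b : X →* Y) (h : ∀ x, a x * (b x)⁻¹ ∈ Subgroup.center Y) : a = b := by
  let c : X →* Subgroup.center Y :=
    { toFun := fun x => ⟨a x * (b x)⁻¹, h x⟩
      map_one' := Subtype.ext (by simp)
      map_mul' := fun x y => Subtype.ext (by
        have e := Subgroup.mem_center_iff.1 (h y) (b x)⁻¹
        simp only [map_mul, mul_inv_rev, Subgroup.coe_mul]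
        rw [mul_assoc (a x) (b x)⁻¹, e]
        simp only [mul_assoc]) }
  ext x
  have : c x = 1 := hom_one_of_perfect hX c x
  exact mul_inv_eq_one.1 (congrArg Subtype.val this)

/-- a group is perfect when it has a perfect quotient whose kernel consists of commutators. -/
lemma perfect_of_ker {X Y : Type*} [Group X] [Group Y] (f : X →* Y) (hf : Function.Surjective f)
    (hY : commutator Y = ⊤) (hk : f.ker ≤ commutator X) : commutator X = ⊤ := by
  rw [eq_top_iff]
  intro x _
  have h1 : f x ∈ (commutator X).map f := by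
    rw [commutator_def, Subgroup.map_commutator, Subgroup.map_top_of_surjective f hf,
      ← commutator_def, hY]
    trivial
  obtain ⟨y, hy, e⟩ := h1
  have h2 : y⁻¹ * x ∈ f.ker := by simp [MonoidHom.mem_ker, e]
  simpa using mul_mem hy (hk h2)

theorem cover_lift_of (hm : GM.ModSt) (ha : GM.AutSt) (n : ℕ) (hn : 7 ≤ n) :
    ∃ (X : Type) (_ : Group X) (_ : Finite X) (f : X →* alternatingGroup (Fin n)),
      commutator X = ⊤ ∧ Function.Surjective f ∧ f.ker ≤ Subgroup.center X ∧ f.ker ≠ ⊥ ∧
      ∀ γ : MulAut (alternatingGroup (Fin n)), ∃ δ : MulAut X, ∀ x, f (δ x) = γ (f x) := by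
  obtain ⟨Y, _, _, C, -⟩ := hm (Fin n) 1
  let X : Subgroup Y := (alternatingGroup (Fin n)).comap C.π
  have hXn : X.Normal := inferInstance
  let f : X →* alternatingGroup (Fin n) := C.π.subgroupComap _
  have hfv : ∀ x : X, (f x : Perm (Fin n)) = C.π x := fun _ => rfl
  have hs : Function.Surjective f := by
    rintro ⟨g, hg⟩
    obtain ⟨y, rfl⟩ := C.surj g
    exact ⟨⟨y, hg⟩, rfl⟩
  have hz : C.z ∈ X := by simp [X, C.πz]
  have hker : ∀ x : X, x ∈ f.ker → x = 1 ∨ x = ⟨C.z, hz⟩ := by
    intro x hx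
    have : C.π x = 1 := by rw [← hfv, MonoidHom.mem_ker.1 hx]; rfl
    rcases (C.ker _).1 this with h | h
    · exact Or.inl (Subtype.ext h)
    · exact Or.inr (Subtype.ext h)
  have zc : ∀ g, C.z * g = g * C.z := C.toSg.zc
  have zz : C.z * C.z = 1 := C.toSg.zz
  refine ⟨X, inferInstance, inferInstance, f, ?_, hs, ?_, ?_, ?_⟩
  · refine perfect_of_ker f hs (commutator_alternatingGroup_eq_top (by simp; omega)) ?_
    intro x hx
    rcases hker x hx with rfl | rfl
    · exact one_mem _
    let a : Fin n := ⟨0, by omega⟩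
    let b : Fin n := ⟨1, by omega⟩
    let c : Fin n := ⟨2, by omega⟩
    let d : Fin n := ⟨3, by omega⟩
    have ab : a ≠ b := by simp [a, b]
    have ac : a ≠ c := by simp [a, c]
    have ad : a ≠ d := by simp [a, d]
    have bc : b ≠ c := by simp [b, c]
    have bd : b ≠ d := by simp [b, d]
    have cd : c ≠ d := by simp [c, d]
    have ev : ∀ i j k l : Fin n, i ≠ j → k ≠ l → C.t i j * C.t k l ∈ X := by
      intro i j k l h1 h2
      simp [X, Subgroup.mem_comap, Perm.mem_alternatingGroup, C.πt _ _ h1, C.πt _ _ h2,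
        Perm.sign_swap h1, Perm.sign_swap h2]
    have cj : ∀ i j k l : Fin n, i ≠ j → k ≠ l →
        C.t i j * C.t k l * (C.t i j)⁻¹ = C.z * C.t (swap i j k) (swap i j l) := by
      intro i j k l h1 h2
      rw [C.t_conj _ _ _ h2, C.πt _ _ h1, Perm.sign_swap h1, if_neg (by decide)]
    have sw : ∀ i j : Fin n, i ≠ j → C.t i j = C.z * C.t j i := by
      intro i j h
      have := cj i j i j h h
      rwa [swap_apply_left, swap_apply_right, mul_inv_cancel_right] at this
    let u : X := ⟨_, ev a b c d ab cd⟩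
    let v : X := ⟨_, ev a c b d ac bd⟩
    have hu : ∀ k l : Fin n, k ≠ l → (u : Y) * C.t k l * (u : Y)⁻¹ =
        C.t (C.π u k) (C.π u l) := by
      intro k l h
      rw [C.t_conj _ _ _ h, if_pos (Perm.mem_alternatingGroup.1 u.2), one_mul]
    have pu : C.π u = swap a b * swap c d := by simp [u, C.πt _ _ ab, C.πt _ _ cd]
    have h1 : (u : Y) * C.t a c * (u : Y)⁻¹ = C.t b d := by
      rw [hu _ _ ac, pu]
      simp [swap_apply_of_ne_of_ne ac ad, swap_apply_of_ne_of_ne ad.symm bd.symm]
    have h2 : (u : Y) * C.t b d * (u : Y)⁻¹ = C.t a c := by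
      rw [hu _ _ bd, pu]
      simp [swap_apply_of_ne_of_ne bc bd, swap_apply_of_ne_of_ne ac.symm bc.symm]
    have h3 : C.t b d * C.t a c * (C.t b d)⁻¹ = C.z * C.t a c := by
      rw [cj _ _ _ _ bd ac, swap_apply_of_ne_of_ne ab ad, swap_apply_of_ne_of_ne bc.symm cd]
    have h4 : (⟨C.z, hz⟩ : X) = ⁅u, v⁆ := by
      apply Subtype.ext
      have e : (u : Y) * v * (u : Y)⁻¹ = C.t b d * C.t a c := by
        have : (v : Y) = C.t a c * C.t b d := rfl
        calc (u : Y) * v * (u : Y)⁻¹
            = ((u : Y) * C.t a c * (u : Y)⁻¹) * ((u : Y) * C.t b d * (u : Y)⁻¹) := by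
              rw [this]; group
          _ = _ := by rw [h1, h2]
      have e2 : ((⁅u, v⁆ : X) : Y) = (u : Y) * v * (u : Y)⁻¹ * (v : Y)⁻¹ := rfl
      rw [e2, e]
      have : (v : Y) = C.t a c * C.t b d := rfl
      rw [this, mul_inv_rev, ← mul_assoc, h3, mul_inv_cancel_right]
    rw [h4]
    exact Subgroup.commutator_mem_commutator (Subgroup.mem_top _) (Subgroup.mem_top _)
  · intro x hx
    rcases hker x hx with rfl | rfl
    · exact one_mem _
    · exact Subgroup.mem_center_iff.2 fun g => Subtype.ext (zc g).symm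
  · intro h
    have : (⟨C.z, hz⟩ : X) ∈ f.ker := Subtype.ext C.πz
    rw [h, Subgroup.mem_bot] at this
    exact C.z_ne (congrArg Subtype.val this)
  · intro γ
    obtain ⟨s, hs⟩ := ha (Fin n) (by simpa using hn) γ
    obtain ⟨y, rfl⟩ := C.surj s
    refine ⟨MulAut.conjNormal y, fun x => Subtype.ext ?_⟩
    rw [hs, hfv, hfv, MulAut.conjNormal_apply]
    simp

end Pool.Agent.Lib.MP_1ae3da_al.CT
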