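import Pool.Agent.Lib.MP_1ae3da_al.C.Defs

/-! Transport of linked bijections along a multiplicative map that is injective on the part cut
out by a central idempotent. -/

namespace Pool.Agent.Lib.MP_1ae3da_al.CT

open Submodule

variable {F A B : Type} [Field F] [Ring A] [Algebra F A] [Ring B] [Algebra F B]

/-- `Φ` is multiplicative with kernel `B (1 - ε)` -/
structure Tp (Φ : B →ₗ[F] A) (ε : B) : Prop where
  mul : ∀ a b, Φ (a * b) = Φ a * Φ b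
  cen : ∀ b, ε * b = b * ε
  abs : ∀ b, Φ (b * ε) = Φ b
  ker : ∀ b, Φ b = 0 → b * ε = 0

variable {Φ : B →ₗ[F] A} {ε : B}

theorem Tp.inj (h : Tp Φ ε) {a b : B} (ha : a * ε = a) (hb : b * ε = b) (hab : Φ a = Φ b) :
    a = b := by
  have := h.ker (a - b) (by rw [map_sub, hab, sub_self])
  rwa [sub_mul, ha, hb, sub_eq_zero] at this

theorem Tp.idem (h : Tp Φ ε) (b : B) : b * ε * ε = b * ε := by
  have := h.ker (b * ε - b) (by rw [map_sub, h.abs, sub_self])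
  rwa [sub_mul, sub_eq_zero] at this

theorem Tp.left (h : Tp Φ ε) {a : B} (ha : a * ε = a) (b : B) : a * b * ε = a * b := by
  rw [mul_assoc, ← h.cen, ← mul_assoc, ha]

theorem Tp.right {a : B} (ha : a * ε = a) (b : B) : b * a * ε = b * a := by
  rw [mul_assoc, ha]

theorem tp_span {S : Set B} {a : A} : a ∈ span F (Φ '' S) ↔ ∃ b ∈ span F S, Φ b = a := by
  rw [← map_span]; rfl

theorem Tp.cen_map (h : Tp Φ ε) {S : Set B} {z : B} (hz : z ∈ Cen F S) : Φ z ∈ Cen F (Φ '' S) :=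
  ⟨tp_span.mpr ⟨z, hz.1, rfl⟩, by
    rintro _ ⟨s, hs, rfl⟩
    rw [← h.mul, hz.2 s hs, h.mul]⟩

theorem Tp.cen_lift (h : Tp Φ ε) {S : Set B} (hS : ∀ b ∈ span F S, b * ε ∈ span F S) {z : A}
    (hz : z ∈ Cen F (Φ '' S)) : ∃ b ∈ Cen F S, b * ε = b ∧ Φ b = z := by
  obtain ⟨b, hb, rfl⟩ := tp_span.mp hz.1
  refine ⟨b * ε, ⟨hS b hb, fun s hs => ?_⟩, h.idem b, h.abs b⟩
  refine h.inj (h.left (h.idem b) s) (Tp.right (h.idem b) s) ?_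
  rw [h.mul, h.mul s, h.abs]
  exact hz.2 _ ⟨s, hs, rfl⟩

theorem Tp.irr_map (h : Tp Φ ε) {S : Set B} (hS : ∀ b ∈ span F S, b * ε ∈ span F S) {e : B}
    (he : e ∈ Irr F S) (hε : e * ε = e) : Φ e ∈ Irr F (Φ '' S) := by
  refine ⟨h.cen_map he.1, by rw [← h.mul, he.2.1], fun h0 => he.2.2.1 ?_, fun z hz => ?_⟩
  · rw [← hε]; exact h.ker e h0
  · obtain ⟨b, hb, -, rfl⟩ := h.cen_lift hS hz
    obtain ⟨c, hc⟩ := he.2.2.2 b hb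
    exact ⟨c, by rw [← h.mul, hc, map_smul]⟩

theorem Tp.irr_lift (h : Tp Φ ε) {S : Set B} (hS : ∀ b ∈ span F S, b * ε ∈ span F S) {e : A}
    (he : e ∈ Irr F (Φ '' S)) : ∃ b ∈ Irr F S, b * ε = b ∧ Φ b = e := by
  obtain ⟨b, hb, hε, rfl⟩ := h.cen_lift hS he.1
  refine ⟨b, ⟨hb, h.inj (Tp.right hε b) hε (by rw [h.mul, he.2.1]),
    fun h0 => he.2.2.1 (by rw [h0, map_zero]), fun z hz => ?_⟩, hε, rfl⟩
  obtain ⟨c, hc⟩ := he.2.2.2 _ (h.cen_map hz)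
  exact ⟨c, h.inj (Tp.right hε z) (by rw [smul_mul_assoc, hε]) (by rw [h.mul, hc, map_smul])⟩

theorem Tp.dg_map (h : Tp Φ ε) (S : Set B) {e : B} (hε : e * ε = e) :
    Dg F (Φ '' S) (Φ e) = Dg F S e := by
  unfold Dg
  have h1 : (span F (Φ '' S)).map (LinearMap.mulRight F (Φ e)) =
      ((span F S).map (LinearMap.mulRight F e)).map Φ := by
    rw [← map_span, ← map_comp, ← map_comp]
    congr 1
    ext b
    simp [h.mul]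
  rw [h1, ← LinearMap.range_domRestrict]
  apply LinearMap.finrank_range_of_inj
  rintro ⟨_, a, ha, rfl⟩ ⟨_, b, hb, rfl⟩ hab
  exact Subtype.ext (h.inj (Tp.right hε a) (Tp.right hε b) hab)

theorem Tp.irrP_map (h : Tp Φ ε) {p : ℕ} {S : Set B} (hS : ∀ b ∈ span F S, b * ε ∈ span F S)
    {e : B} (he : e ∈ IrrP F p S) (hε : e * ε = e) : Φ e ∈ IrrP F p (Φ '' S) :=
  ⟨h.irr_map hS he.1 hε, by rw [h.dg_map S hε]; exact he.2⟩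

theorem Tp.irrP_lift (h : Tp Φ ε) {p : ℕ} {S : Set B} (hS : ∀ b ∈ span F S, b * ε ∈ span F S)
    {e : A} (he : e ∈ IrrP F p (Φ '' S)) : ∃ b ∈ IrrP F p S, b * ε = b ∧ Φ b = e := by
  obtain ⟨b, hb, hε, rfl⟩ := h.irr_lift hS he.1
  exact ⟨b, ⟨hb, by rw [← h.dg_map S hε]; exact he.2⟩, hε, rfl⟩

theorem tp_ln_abs {S : Set B} {e w : B} {δ : RingAut B} (hε : e * ε = e) (hw : w ∈ Ln F S e δ) :
    w * ε = w := by
  rw [← hw.2.1]; exact Tp.right hε w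

theorem Tp.ln_map (h : Tp Φ ε) {S : Set B} {e w : B} {γ : RingAut A} {δ : RingAut B}
    (hε : e * ε = e) (hc : ∀ b, Φ (δ b) = γ (Φ b)) (hw : w ∈ Ln F S e δ) :
    Φ w ∈ Ln F (Φ '' S) (Φ e) γ := by
  refine ⟨tp_span.mpr ⟨w, hw.1, rfl⟩, by rw [← h.mul, hw.2.1], fun h0 => hw.2.2.1 ?_, ?_⟩
  · rw [← tp_ln_abs hε hw]; exact h.ker w h0
  · rintro _ ⟨x, hx, rfl⟩
    rw [← h.mul, hw.2.2.2 x hx, h.mul, hc]

/-- a link respects central characters -/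
theorem link_cen {Γ : Subgroup (RingAut B)} {L M : Set B} {e e' : B}
    {U : RingAut B → B → B → Prop} (hU : Link F Γ L M e e' U) (he : e ∈ Irr F L)
    (h1 : (1 : B) ∈ M) {z : B} (hz : z ∈ span F {z | z ∈ M ∧ z ∈ Cen F L}) :
    ∃ c : F, z * e = c • e ∧ z * e' = c • e' := by
  induction hz using span_induction with
  | mem z hz =>
    obtain ⟨c, hc⟩ := he.2.2.2 z hz.2
    have a1 := hU.loc 1 (one_mem _) (fun _ _ => rfl) z hz.1 fun x hx => hz.2.2 x hx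
    have a2 := hU.loc 1 (one_mem _) (fun _ _ => rfl) 1 h1 fun x hx => by simp
    have hc0 : c ≠ 0 := fun h0 => (hU.int _ _ _ a1).2.2.1.2.2.1 (by rw [hc, h0, zero_smul])
    have a3 := hU.smul _ _ _ c hc0 a2
    rw [one_mul, one_mul, ← hc] at a3
    exact ⟨c, hc, hU.fn _ _ _ _ a1 a3⟩
  | zero => exact ⟨0, by simp, by simp⟩
  | add x y _ _ hx hy =>
    obtain ⟨c, h2, h3⟩ := hx
    obtain ⟨d, h4, h5⟩ := hy
    exact ⟨c + d, by rw [add_mul, h2, h4, add_smul], by rw [add_mul, h3, h5, add_smul]⟩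
  | smul a x _ hx =>
    obtain ⟨c, h2, h3⟩ := hx
    exact ⟨a * c, by rw [smul_mul_assoc, h2, mul_smul], by rw [smul_mul_assoc, h3, mul_smul]⟩

/-- the automorphisms in `Γ` have compatible lifts in `Δ` -/
structure Ht (Φ : B →ₗ[F] A) (Γ : Subgroup (RingAut A)) (Δ : Subgroup (RingAut B))
    (L M : Set B) (H : RingAut A → RingAut B → Prop) : Prop where
  ex : ∀ γ ∈ Γ, ∃ δ, H γ δ
  mem : ∀ γ ∈ Γ, ∀ δ, H γ δ → δ ∈ Δ
  comm : ∀ γ δ, H γ δ → ∀ b, Φ (δ b) = γ (Φ b)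
  fn : ∀ γ δ δ', H γ δ → H γ δ' → δ = δ'
  mul : ∀ γ δ γ' δ', H γ δ → H γ' δ' → H (γ * γ') (δ * δ')
  inv : ∀ γ δ, H γ δ → H γ⁻¹ δ⁻¹
  lin : ∀ γ δ, H γ δ → Lin F γ → Lin F δ
  loc : ∀ γ δ, H γ δ → ∀ m ∈ M, (∀ x ∈ L, Φ m * Φ x = γ (Φ x) * Φ m) →
    ∀ x ∈ L, m * x = δ x * m

variable {Γ : Subgroup (RingAut A)} {Δ : Subgroup (RingAut B)} {L M : Set B}
  {H : RingAut A → RingAut B → Prop}

theorem Ht.eps (h : Tp Φ ε) (hH : Ht Φ Γ Δ L M H) {γ : RingAut A} {δ : RingAut B} (hγ : H γ δ) :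
    δ ε = ε := by
  have key : ∀ γ δ, H γ δ → δ ε * ε = ε := fun γ δ hγ => by
    have h1 : Φ (1 - ε) = 0 := by
      have := h.abs 1
      rw [one_mul] at this
      rw [map_sub, this, sub_self]
    have h2 := h.ker (δ (1 - ε)) (by rw [hH.comm γ δ hγ, h1, map_zero])
    rw [map_sub, map_one, sub_mul, one_mul, sub_eq_zero] at h2
    exact h2.symm
  have h3 := congrArg δ (key _ _ (hH.inv γ δ hγ))
  have h4 : δ (δ⁻¹ ε) = ε := δ.apply_symm_apply ε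
  rw [map_mul, h4, h.cen, key γ δ hγ] at h3
  exact h3.symm

theorem Ht.abs (h : Tp Φ ε) (hH : Ht Φ Γ Δ L M H) {γ : RingAut A} {δ : RingAut B} (hγ : H γ δ)
    {b : B} (hb : b * ε = b) : δ b * ε = δ b := by
  conv_rhs => rw [← hb, map_mul, hH.eps h hγ]

theorem tp_lin_conj {GG : Subgroup (RingAut F)} {γ a : RingAut A} (hγ : γ ∈ SG GG A)
    (ha : Lin F a) : Lin F (γ * a * γ⁻¹) := by
  obtain ⟨σ, -, hσ⟩ := hγ
  intro c y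
  have h1 : γ⁻¹ (c • y) = σ.symm c • γ⁻¹ y := by
    apply γ.injective
    change γ (γ.symm (c • y)) = γ (σ.symm c • γ.symm y)
    rw [hσ]; simp
  change γ (a (γ⁻¹ (c • y))) = c • γ (a (γ⁻¹ y))
  rw [h1, ha, hσ]; simp

theorem Ht.link {GG : Subgroup (RingAut F)} (h : Tp Φ ε) (hH : Ht Φ Γ Δ L M H)
    (hΓ : Γ ≤ SG GG A) {e e' : B} (he : e * ε = e)
    (he' : e' * ε = e') {V : RingAut B → B → B → Prop} (hV : Link F (Δ ⊓ Fx e) L M e e' V) :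
    ∃ U, Link F (Γ ⊓ Fx (Φ e)) (Φ '' L) (Φ '' M) (Φ e) (Φ e') U := by
  have hm : ∀ γ ∈ Γ ⊓ Fx (Φ e), ∀ δ, H γ δ → δ ∈ Δ ⊓ Fx e := fun γ hγ δ hδ =>
    ⟨hH.mem γ hγ.1 δ hδ, h.inj (hH.abs h hδ he) he ((hH.comm γ δ hδ e).trans hγ.2)⟩
  refine ⟨fun a w w' => a ∈ Γ ⊓ Fx (Φ e) ∧ Lin F a ∧
    ∃ δ v v', H a δ ∧ V δ v v' ∧ w = Φ v ∧ w' = Φ v', ?_, ?_, ?_, ?_, ?_, ?_, ?_⟩
  · rintro a _ _ ⟨ha, hl, δ, v, v', h1, h2, rfl, rfl⟩
    obtain ⟨-, -, h3, h4⟩ := hV.int _ _ _ h2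
    exact ⟨ha, hl, h.ln_map he (hH.comm a δ h1) h3, h.ln_map he' (hH.comm a δ h1) h4⟩
  · intro a ha hl
    obtain ⟨δ, hδ⟩ := hH.ex a ha.1
    obtain ⟨v, v', hv⟩ := hV.tot δ (hm a ha δ hδ) (hH.lin a δ hδ hl)
    exact ⟨_, _, ha, hl, δ, v, v', hδ, hv, rfl, rfl⟩
  · rintro a _ _ b _ _ ⟨ha, hl, δ, v, v', h1, h2, rfl, rfl⟩ ⟨hb, hl', δ', x, x', h3, h4, rfl, rfl⟩
    refine ⟨mul_mem ha hb, fun c y => ?_, δ * δ', v * x, v' * x', hH.mul _ _ _ _ h1 h3,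
      hV.mul _ _ _ _ _ _ h2 h4, (h.mul _ _).symm, (h.mul _ _).symm⟩
    change a (b (c • y)) = c • a (b y)
    rw [hl', hl]
  · rintro a _ _ c hc ⟨ha, hl, δ, v, v', h1, h2, rfl, rfl⟩
    exact ⟨ha, hl, δ, c • v, c • v', h1, hV.smul _ _ _ c hc h2, (map_smul _ _ _).symm,
      (map_smul _ _ _).symm⟩
  · rintro a _ _ _ ⟨-, -, δ, v, v', h1, h2, rfl, rfl⟩ ⟨-, -, δ', x, x', h3, h4, h5, rfl⟩
    obtain rfl := hH.fn _ _ _ h1 h3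
    obtain rfl := h.inj (tp_ln_abs he (hV.int _ _ _ h2).2.2.1)
      (tp_ln_abs he (hV.int _ _ _ h4).2.2.1) h5
    rw [hV.fn _ _ _ _ h2 h4]
  · rintro a ha hl _ ⟨m, hm', rfl⟩ hx
    obtain ⟨δ, hδ⟩ := hH.ex a ha.1
    exact ⟨ha, hl, δ, m * e, m * e', hδ, hV.loc δ (hm a ha δ hδ) (hH.lin a δ hδ hl) m hm'
      (hH.loc a δ hδ m hm' fun x hx' => hx _ ⟨x, hx', rfl⟩), (h.mul _ _).symm, (h.mul _ _).symm⟩
  · rintro γ hγ a _ _ ⟨ha, hl, δ, v, v', h1, h2, rfl, rfl⟩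
    obtain ⟨β, hβ⟩ := hH.ex γ hγ.1
    have h3 := hV.nat β (hm γ hγ β hβ) δ v v' h2
    have h4 := hH.mul _ _ _ _ (hH.mul _ _ _ _ hβ h1) (hH.inv _ _ hβ)
    exact ⟨mul_mem (mul_mem hγ ha) (inv_mem hγ), tp_lin_conj (hΓ hγ.1) hl, _, _, _, h4, h3,
      (hH.comm γ β hβ v).symm, (hH.comm γ β hβ v').symm⟩

/-- transport of a linked bijection -/
theorem lk_transport {p : ℕ} {GG : Subgroup (RingAut F)} (h : Tp Φ ε) (hH : Ht Φ Γ Δ L M H)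
    (hΓ : Γ ≤ SG GG A) (hL : ∀ b ∈ span F L, b * ε ∈ span F L)
    (hM : ∀ b ∈ span F M, b * ε ∈ span F M) (h1 : (1 : B) ∈ M)
    (hε : ε ∈ span F {z | z ∈ M ∧ z ∈ Cen F L})
    (hK : LK F Δ L M (IrrP F p L) (IrrP F p M)) :
    LK F Γ (Φ '' L) (Φ '' M) (IrrP F p (Φ '' L)) (IrrP F p (Φ '' M)) := by
  obtain ⟨Ω, ⟨hb, heq⟩, hlk⟩ := hK
  have hΨ : ∀ b, b * ε = b → Function.invFun Φ (Φ b) * ε = b := fun b hb =>
    h.inj (h.idem _) hb (by rw [h.abs]; exact Function.invFun_eq ⟨b, rfl⟩)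
  have hov : ∀ e ∈ IrrP F p L, e * ε = e ↔ Ω e * ε = Ω e := fun e he => by
    obtain ⟨V, hV⟩ := hlk e he
    obtain ⟨c, h2, h3⟩ := link_cen hV he.1 h1 hε
    rw [← h.cen, ← h.cen, h2, h3]
    have key : ∀ x : B, x ≠ 0 → (c • x = x ↔ c = 1) := fun x hx =>
      ⟨fun h4 => smul_left_injective F hx (by simpa using h4), fun h4 => by rw [h4, one_smul]⟩
    rw [key e he.1.2.2.1, key _ (hb.mapsTo he).1.2.2.1]
  refine ⟨fun a => Φ (Ω (Function.invFun Φ a * ε)), ⟨⟨fun a ha => ?_, fun a ha a' ha' haa => ?_,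
    fun a ha => ?_⟩, fun γ hγ a ha => ?_⟩, fun a ha => ?_⟩
  · obtain ⟨b, h2, h3, rfl⟩ := h.irrP_lift hL ha
    simp only [hΨ b h3]
    exact h.irrP_map hM (hb.mapsTo h2) ((hov b h2).mp h3)
  · obtain ⟨b, h2, h3, rfl⟩ := h.irrP_lift hL ha
    obtain ⟨b', h4, h5, rfl⟩ := h.irrP_lift hL ha'
    simp only [hΨ b h3, hΨ b' h5] at haa
    rw [hb.injOn h2 h4 (h.inj ((hov b h2).mp h3) ((hov b' h4).mp h5) haa)]
  · obtain ⟨b', h2, h3, rfl⟩ := h.irrP_lift hM ha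
    obtain ⟨b, h4, rfl⟩ := hb.surjOn h2
    have h5 := (hov b h4).mpr h3
    exact ⟨Φ b, h.irrP_map hL h4 h5, by simp only [hΨ b h5]⟩
  · obtain ⟨b, h2, h3, rfl⟩ := h.irrP_lift hL ha
    obtain ⟨δ, hδ⟩ := hH.ex γ hγ
    obtain ⟨h4, h5⟩ := heq δ (hH.mem γ hγ δ hδ) b h2
    rw [← hH.comm γ δ hδ]
    refine ⟨h.irrP_map hL h4 (hH.abs h hδ h3), ?_⟩
    simp only [hΨ b h3, hΨ _ (hH.abs h hδ h3)]
    rw [h5, hH.comm γ δ hδ]
  · obtain ⟨b, h2, h3, rfl⟩ := h.irrP_lift hL ha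
    obtain ⟨V, hV⟩ := hlk b h2
    simp only [hΨ b h3]
    exact hH.link h hΓ h3 ((hov b h2).mp h3) hV

end Pool.Agent.Lib.MP_1ae3da_al.CT
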