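import Mathlib

/-! Universal central extensions of finite perfect groups. -/

namespace Pool.Agent.Lib.MP_1ae3da_al.CT

open Subgroup
open scoped commutatorElement

variable {X S E T : Type*} [Group X] [Group S] [Group E] [Group T]

/-- commutators only depend on the images under a map with central kernel -/
theorem uce_comm (ρ : E →* T) (hc : ρ.ker ≤ center E) {x y x' y' : E} (hx : ρ x = ρ x')
    (hy : ρ y = ρ y') : ⁅x, y⁆ = ⁅x', y'⁆ := by
  obtain ⟨a, ha, rfl⟩ : ∃ a ∈ center E, x' = x * a :=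
    ⟨x⁻¹ * x', hc (by simp [MonoidHom.mem_ker, hx]), by simp⟩
  obtain ⟨b, hb, rfl⟩ : ∃ b ∈ center E, y' = y * b :=
    ⟨y⁻¹ * y', hc (by simp [MonoidHom.mem_ker, hy]), by simp⟩
  have h1 := mem_center_iff.mp ha
  have h2 := mem_center_iff.mp hb
  simp only [commutatorElement_def, mul_inv_rev]
  have e1 : x * a * (y * b) * (a⁻¹ * x⁻¹) = x * (y * b) * x⁻¹ := by
    rw [mul_assoc x a, ← h1]; group
  have e2 : x * (y * b) * x⁻¹ = x * y * x⁻¹ * b := by
    rw [mul_assoc (x * y), h2 x⁻¹]; group
  rw [e1, e2]; group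

/-- lifts from a perfect group are unique -/
theorem uce_unique (hX : commutator X = ⊤) (ρ : E →* T) (hc : ρ.ker ≤ center E)
    {φ ψ : X →* E} (h : ∀ x, ρ (φ x) = ρ (ψ x)) : φ = ψ := by
  apply MonoidHom.eq_of_eqOn_dense (s := commutatorSet X) (by rw [← commutator_eq_closure, hX])
  rintro _ ⟨x, y, rfl⟩
  rw [map_commutatorElement, map_commutatorElement]
  exact uce_comm ρ hc (h x) (h y)

/-- Schur: a central extension of a finite group has finite commutator subgroup -/
theorem uce_finite [Finite T] (ρ : E →* T) (hc : ρ.ker ≤ center E) :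
    Finite (commutator E) := by
  have : Finite (commutatorSet E) := by
    refine Set.Finite.subset (Set.finite_range fun x : T × T =>
      ⁅Function.invFun ρ x.1, Function.invFun ρ x.2⁆) ?_
    rintro _ ⟨x, y, rfl⟩
    exact ⟨(ρ x, ρ y), uce_comm ρ hc (Function.invFun_eq ⟨x, rfl⟩) (Function.invFun_eq ⟨y, rfl⟩)⟩
  infer_instance

/-- a subgroup that covers the image contains the commutator subgroup -/
theorem uce_comm_le (ρ : E →* T) (hc : ρ.ker ≤ center E) (H : Subgroup E)
    (h : ∀ x, ∃ y ∈ H, ρ y = ρ x) : commutator E ≤ ⁅H, H⁆ := by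
  rw [commutator_eq_closure, closure_le]
  rintro _ ⟨x, y, rfl⟩
  obtain ⟨x', hx, hx'⟩ := h x
  obtain ⟨y', hy, hy'⟩ := h y
  rw [← uce_comm ρ hc hx' hy']
  exact commutator_mem_commutator hx hy

theorem uce_surj (hT : commutator T = ⊤) (ρ : E →* T) (hs : Function.Surjective ρ) (t : T) :
    ∃ y ∈ commutator E, ρ y = t := by
  have h1 : (commutator E).map ρ = ⊤ := by
    rw [map_commutator_eq, MonoidHom.range_eq_top.mpr hs, ← commutator_def, hT]
  exact mem_map.mp (h1 ▸ mem_top t)

theorem uce_perfect (hT : commutator T = ⊤) (ρ : E →* T) (hs : Function.Surjective ρ)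
    (hc : ρ.ker ≤ center E) : commutator (commutator E) = ⊤ := by
  apply map_injective (subtype_injective _)
  rw [map_subtype_commutator, ← MonoidHom.range_eq_map, range_subtype]
  exact le_antisymm (commutator_mono le_top le_top)
    (uce_comm_le ρ hc _ fun x => uce_surj hT ρ hs (ρ x))

/-- universal central extension -/
structure IsUce {X S : Type} [Group X] [Group S] (π : X →* S) : Prop where
  perf : commutator X = ⊤
  surj : Function.Surjective π
  cent : π.ker ≤ center X
  lift : ∀ (E T : Type) [Group E] [Group T] (ρ : E →* T) (f : S →* T), ρ.ker ≤ center E →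
    (∀ s, ∃ e, ρ e = f s) → ∃ φ : X →* E, ∀ x, ρ (φ x) = f (π x)

theorem exists_uce (S : Type) [Group S] [Finite S] (hS : commutator S = ⊤) :
    ∃ (X : Type) (_ : Group X) (_ : Finite X) (π : X →* S), IsUce π := by
  let a : FreeGroup S →* S := FreeGroup.lift id
  let K : Subgroup (FreeGroup S) := ⁅a.ker, ⊤⁆
  have hK : K ≤ a.ker := commutator_le_left _ _
  let b : FreeGroup S ⧸ K →* S := QuotientGroup.lift K a hK
  have hb : ∀ x, b (x : FreeGroup S) = a x := fun _ => rfl
  have hbs : Function.Surjective b := fun s => ⟨(FreeGroup.of s : FreeGroup S), by simp [hb, a]⟩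
  have hbc : b.ker ≤ center _ := by
    intro z hz
    obtain ⟨z, rfl⟩ := QuotientGroup.mk_surjective z
    rw [mem_center_iff]
    intro y
    obtain ⟨y, rfl⟩ := QuotientGroup.mk_surjective y
    symm
    rw [← commutatorElement_eq_one_iff_mul_comm]
    exact (QuotientGroup.eq_one_iff (⁅z, y⁆ : FreeGroup S)).mpr
      (commutator_mem_commutator hz (mem_top y))
  refine ⟨commutator (FreeGroup S ⧸ K), inferInstance, uce_finite b hbc, b.domRestrict _,
    uce_perfect hS b hbs hbc, fun s => ?_, fun z hz => ?_, fun E T _ _ ρ f hc hf => ?_⟩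
  · obtain ⟨y, hy, h⟩ := uce_surj hS b hbs s
    exact ⟨⟨y, hy⟩, h⟩
  · rw [mem_center_iff]
    intro y
    exact Subtype.ext (mem_center_iff.mp (hbc hz) y.1)
  · choose g hg using hf
    let c : FreeGroup S →* E := FreeGroup.lift g
    have hc1 : ρ.comp c = f.comp a := FreeGroup.ext_hom _ _ fun s => by simp [c, a, hg]
    have hc2 : ∀ x, ρ (c x) = f (a x) := fun x => DFunLike.congr_fun hc1 x
    have hKc : K ≤ c.ker := by
      rw [commutator_le]
      intro z hz y _
      rw [MonoidHom.mem_ker, map_commutatorElement, commutatorElement_eq_one_iff_mul_comm]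
      refine (mem_center_iff.mp (hc ?_) _).symm
      rw [MonoidHom.mem_ker, hc2, MonoidHom.mem_ker.mp hz, map_one]
    refine ⟨(QuotientGroup.lift K c hKc).domRestrict _, fun x => ?_⟩
    obtain ⟨x, hx⟩ := x
    obtain ⟨x, rfl⟩ := QuotientGroup.mk_surjective x
    exact hc2 x

section Lifts

variable {X S X' S' : Type} [Group X] [Group S] [Group X'] [Group S'] {π : X →* S} {π' : X' →* S'}

theorem IsUce.existsUnique (h : IsUce π) {E T : Type} [Group E] [Group T] (ρ : E →* T)
    (f : S →* T) (hc : ρ.ker ≤ center E) (hf : ∀ s, ∃ e, ρ e = f s) :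
    ∃! φ : X →* E, ∀ x, ρ (φ x) = f (π x) := by
  obtain ⟨φ, hφ⟩ := h.lift E T ρ f hc hf
  exact ⟨φ, hφ, fun ψ hψ => uce_unique h.perf ρ hc fun x => by rw [hφ, hψ]⟩

/-- isomorphisms lift -/
theorem IsUce.lift_equiv (h : IsUce π) (h' : IsUce π') (e : S ≃* S') :
    ∃! g : X ≃* X', ∀ x, π' (g x) = e (π x) := by
  obtain ⟨φ, hφ⟩ := h.lift X' S' π' e.toMonoidHom h'.cent fun s => h'.surj _
  obtain ⟨ψ, hψ⟩ := h'.lift X S π e.symm.toMonoidHom h.cent fun s => h.surj _
  have h1 : ψ.comp φ = MonoidHom.id X :=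
    uce_unique h.perf π h.cent fun x => by simp [hφ, hψ]
  have h2 : φ.comp ψ = MonoidHom.id X' :=
    uce_unique h'.perf π' h'.cent fun x => by simp [hφ, hψ]
  refine ⟨MonoidHom.toMulEquiv φ ψ h1 h2, hφ, fun g hg => ?_⟩
  have h3 : g.toMonoidHom = φ := uce_unique h.perf π' h'.cent fun x => by simp [hφ, hg]
  ext x
  exact DFunLike.congr_fun h3 x

/-- two automorphisms of a perfect central extension that agree below are equal -/
theorem uce_aut_ext (hX : commutator X = ⊤) (hc : π'.ker ≤ center X') {g g' : X ≃* X'}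
    (h : ∀ x, π' (g x) = π' (g' x)) : g = g' := by
  have h3 : g.toMonoidHom = g'.toMonoidHom := uce_unique hX π' hc h
  ext x
  exact DFunLike.congr_fun h3 x

/-- the lift of automorphisms as a homomorphism -/
noncomputable def IsUce.aut (h : IsUce π) : MulAut S →* MulAut X :=
  MonoidHom.mk' (fun e => (h.lift_equiv h e).choose) fun a b =>
    uce_aut_ext h.perf h.cent fun x => by
      rw [MulAut.mul_apply, (h.lift_equiv h (a * b)).choose_spec.1,
        (h.lift_equiv h a).choose_spec.1, (h.lift_equiv h b).choose_spec.1, MulAut.mul_apply]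

theorem IsUce.aut_spec (h : IsUce π) (e : MulAut S) (x : X) : π (h.aut e x) = e (π x) :=
  (h.lift_equiv h e).choose_spec.1 x

theorem IsUce.aut_conj (h : IsUce π) (y : X) : h.aut (MulAut.conj (π y)) = MulAut.conj y :=
  uce_aut_ext h.perf h.cent fun x => by simp [h.aut_spec]

theorem IsUce.aut_injective (h : IsUce π) : Function.Injective h.aut := by
  rw [injective_iff_map_eq_one]
  intro e he
  ext s
  obtain ⟨x, rfl⟩ := h.surj s
  rw [← h.aut_spec, he]; rfl

/-- if the kernel is trivial every central extension splits -/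
theorem IsUce.split (h : IsUce π) (hk : π.ker = ⊥) {E T : Type} [Group E] [Group T]
    (ρ : E →* T) (f : S →* T) (hc : ρ.ker ≤ center E) (hf : ∀ s, ∃ e, ρ e = f s) :
    ∃ σ : S →* E, ∀ s, ρ (σ s) = f s := by
  obtain ⟨φ, hφ⟩ := h.lift E T ρ f hc hf
  let e := MulEquiv.ofBijective π ⟨π.ker_eq_bot_iff.mp hk, h.surj⟩
  refine ⟨φ.comp e.symm.toMonoidHom, fun s => ?_⟩
  rw [MonoidHom.comp_apply, hφ]
  exact congrArg f (e.apply_symm_apply s)

/-- the kernel is nontrivial as soon as two commuting elements have lifts that do not commute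
in some central extension -/
theorem IsUce.ker_ne_bot (h : IsUce π) {E T : Type} [Group E] [Group T]
    (ρ : E →* T) (f : S →* T) (hc : ρ.ker ≤ center E) (hf : ∀ s, ∃ e, ρ e = f s)
    {s t : S} {x y : E} (hx : ρ x = f s) (hy : ρ y = f t) (hst : s * t = t * s)
    (hxy : x * y ≠ y * x) : π.ker ≠ ⊥ := by
  intro hk
  obtain ⟨σ, hσ⟩ := h.split hk ρ f hc hf
  apply hxy
  rw [← commutatorElement_eq_one_iff_mul_comm,
    uce_comm ρ hc (hx.trans (hσ s).symm) (hy.trans (hσ t).symm), ← map_commutatorElement,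
    commutatorElement_eq_one_iff_mul_comm.mpr hst, map_one]

/-- the lift to a perfect cover is onto -/
theorem IsUce.lift_surj (h : IsUce π) {E : Type} [Group E] (hE : commutator E = ⊤)
    (ρ : E →* S) (hc : ρ.ker ≤ center E) {φ : X →* E} (hφ : ∀ x, ρ (φ x) = π x) :
    Function.Surjective φ := by
  rw [← MonoidHom.range_eq_top, eq_top_iff, ← hE]
  refine (uce_comm_le ρ hc φ.range fun e => ?_).trans (commutator_le_self _)
  obtain ⟨x, hx⟩ := h.surj (ρ e)
  exact ⟨φ x, ⟨x, rfl⟩, by rw [hφ, hx]⟩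

theorem IsUce.ker_ne_bot' (h : IsUce π) {E : Type} [Group E] (hE : commutator E = ⊤)
    (ρ : E →* S) (hs : Function.Surjective ρ) (hc : ρ.ker ≤ center E) (hk : ρ.ker ≠ ⊥) :
    π.ker ≠ ⊥ := by
  obtain ⟨φ, hφ⟩ := h.lift E S ρ (MonoidHom.id S) hc fun s => hs s
  intro h0
  apply hk
  rw [eq_bot_iff]
  intro z hz
  obtain ⟨x, rfl⟩ := h.lift_surj hE ρ hc hφ z
  have hx : x ∈ π.ker := by
    rw [MonoidHom.mem_ker] at hz ⊢
    exact (hφ x).symm.trans hz
  rw [h0, mem_bot] at hx
  rw [hx, map_one]
  exact one_mem _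

/-- the image of a lift along a surjection with central kernel is the commutator subgroup -/
theorem IsUce.lift_range (h : IsUce π) {E : Type} [Group E] (ρ : E →* S)
    (hc : ρ.ker ≤ center E) {φ : X →* E} (hφ : ∀ x, ρ (φ x) = π x) :
    φ.range = commutator E := by
  apply le_antisymm
  · rw [MonoidHom.range_eq_map, ← h.perf, map_commutator_eq]
    exact commutator_mono le_top le_top
  · refine (uce_comm_le ρ hc φ.range fun e => ?_).trans (commutator_le_self _)
    obtain ⟨x, hx⟩ := h.surj (ρ e)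
    exact ⟨φ x, ⟨x, rfl⟩, by rw [hφ, hx]⟩

end Lifts

section Syl

variable {p : ℕ} [hp : Fact p.Prime]

/-- transfer: a perfect central extension of a group with Sylow subgroups of order at most `p`
has kernel of order prime to `p` -/
theorem uce_transfer [Finite X] [Finite S] (hX : commutator X = ⊤) (π : X →* S)
    (hc : π.ker ≤ center X) (hS : ¬ p ^ 2 ∣ Nat.card S) : ¬ p ∣ Nat.card π.ker := by
  intro hd
  obtain ⟨z, hz⟩ := exists_prime_orderOf_dvd_card' p hd
  have hz1 : orderOf (z : X) = p := by rw [orderOf_coe, hz]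
  have hP : IsPGroup p (zpowers (z : X)) :=
    IsPGroup.of_card (n := 1) (by rw [Nat.card_zpowers, hz1, pow_one])
  obtain ⟨R, hR⟩ := hP.exists_le_sylow
  have hcyc : IsCyclic ((R : Subgroup X).map π) := by
    obtain ⟨n, hn⟩ := (R.2.map π).exists_card_eq
    apply isCyclic_of_card_dvd_prime (p := p)
    rw [hn]
    have h1 : n ≤ 1 := by
      by_contra h2
      exact hS ((pow_dvd_pow p (by omega)).trans (hn ▸ card_subgroup_dvd_card _))
    simpa using pow_dvd_pow p h1
  have hcomm : IsMulCommutative (R : Subgroup X) :=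
    (π.subgroupMap R).isMulCommutative_of_isCyclic_of_ker_le_center fun x hx => by
      rw [mem_center_iff]
      intro y
      have h1 : π x = 1 := congrArg Subtype.val (MonoidHom.mem_ker.mp hx)
      exact Subtype.ext (mem_center_iff.mp (hc h1) y.1)
  open scoped IsMulCommutative in
  have h1 := MonoidHom.transfer_eq_pow (MonoidHom.id (R : Subgroup X)) (z : X) fun k g _ => by
    rw [mul_assoc, ← mem_center_iff.mp (pow_mem (hc z.2) k) g, inv_mul_cancel_left]
  open scoped IsMulCommutative in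
  have h2 : MonoidHom.transfer (MonoidHom.id (R : Subgroup X)) (z : X) = 1 :=
    Abelianization.commutator_subset_ker _ (hX ▸ mem_top _)
  rw [h2] at h1
  have h3 : (z : X) ^ (R : Subgroup X).index = 1 := (congrArg Subtype.val h1).symm
  have h4 := orderOf_dvd_of_pow_eq_one h3
  rw [hz1] at h4
  exact R.not_dvd_index h4

theorem uce_small [Finite X] [Finite S] (hX : commutator X = ⊤) (π : X →* S)
    (hc : π.ker ≤ center X) (hS : ¬ p ^ 2 ∣ Nat.card S) : ¬ p ^ 2 ∣ Nat.card X := by
  intro h
  rw [← π.ker.card_mul_index, index_ker] at h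
  have h1 := (hp.out.coprime_iff_not_dvd.mpr (uce_transfer hX π hc hS)).pow_left 2
  exact hS ((h1.dvd_of_dvd_mul_left h).trans (card_subgroup_dvd_card _))

/-- a `p`-subgroup whose image lies in the image of a Sylow subgroup lies in it -/
theorem uce_syl_le (π : X →* S) (hc : π.ker ≤ center X) (R : Sylow p X) {P : Subgroup X}
    (hP : IsPGroup p P) (h : P.map π ≤ (R : Subgroup X).map π) : P ≤ R := by
  have h1 : P ≤ normalizer (R : Set X) := by
    intro x hx
    obtain ⟨r, hr, hrx⟩ := h (mem_map_of_mem π hx)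
    have h2 : r⁻¹ * x ∈ center X := hc (by simp [MonoidHom.mem_ker, hrx])
    have h3 : x = r * (r⁻¹ * x) := by simp
    rw [h3]
    exact mul_mem (le_normalizer (H := (R : Subgroup X)) hr) (center_le_normalizer _ h2)
  have h4 := hP.inf_normalizer_sylow R
  rw [inf_eq_left.mpr h1] at h4
  exact h4.le.trans inf_le_right

theorem uce_syl [Finite X] (π : X →* S) (hs : Function.Surjective π) (hc : π.ker ≤ center X)
    (Q : Sylow p S) : ∃! R : Sylow p X, (R : Subgroup X).map π = Q := by
  obtain ⟨R, hR⟩ := Sylow.mapSurjective_surjective hs p Q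
  have h1 : (R : Subgroup X).map π = Q := by rw [← hR]; rfl
  refine ⟨R, h1, fun R' h2 => Sylow.ext (le_antisymm ?_ ?_)⟩
  · exact uce_syl_le π hc R R'.2 (by rw [h1, h2])
  · exact uce_syl_le π hc R' R.2 (by rw [h1, h2])

/-- an automorphism over one that keeps the image keeps the Sylow subgroup -/
theorem uce_syl_aut (π : X →* S) (hc : π.ker ≤ center X) (R : Sylow p X) (g : X →* X)
    (e : S → S) (hg : ∀ x, π (g x) = e (π x))
    (he : ∀ s ∈ (R : Subgroup X).map π, e s ∈ (R : Subgroup X).map π) :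
    (R : Subgroup X).map g ≤ R := by
  refine uce_syl_le π hc R (R.2.map g) ?_
  rintro _ ⟨_, ⟨x, hx, rfl⟩, rfl⟩
  rw [hg]
  exact he _ (mem_map_of_mem π hx)

theorem uce_norm (π : X →* S) (hc : π.ker ≤ center X) (R : Sylow p X) (g : X) :
    g ∈ normalizer (R : Set X) ↔ π g ∈ normalizer (((R : Subgroup X).map π : Subgroup S) : Set S) := by
  constructor
  · intro h
    exact le_normalizer_map π (mem_map_of_mem π h)
  · intro h
    have key : ∀ g : X, π g ∈ normalizer (((R : Subgroup X).map π : Subgroup S) : Set S) →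
        ∀ x ∈ R, g * x * g⁻¹ ∈ R := fun g h x hx =>
      uce_syl_aut π hc R (MulAut.conj g).toMonoidHom (fun s => π g * s * (π g)⁻¹)
        (fun x => by simp) (fun s hs => (mem_normalizer_iff.mp h s).mp hs) ⟨x, hx, rfl⟩
    refine (mem_normalizer_iff (H := (R : Subgroup X))).mpr fun x => ⟨key g h x, fun hx => ?_⟩
    have := key g⁻¹ (by rw [map_inv]; exact inv_mem h) _ hx
    have h5 : x ∈ R := by simpa [mul_assoc] using this
    exact h5

end Syl

end Pool.Agent.Lib.MP_1ae3da_al.CT
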