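import Pool.Agent.Lib.MP_1ae3da_al.C.THm
import Pool.Agent.Lib.MP_1ae3da_al.C.AUce
import Pool.Agent.Lib.MP_1ae3da_al.C.ALf1

/-! A twisted group algebra of a perfect group is a corner of the group algebra of the universal
central extension. -/

namespace Pool.Agent.Lib.MP_1ae3da_al.CT

open Submodule

section grp
variable {F A G : Type} [Field F] [Ring A] [Algebra F A] [Group G] {u : G → A}

/-- the group of nonzero homogeneous elements -/
def HmG (_ : TG F u) : Type := {a : A // a ∈ Hm F u ⊤}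

noncomputable instance (hu : TG F u) : Group (HmG hu) :=
  @Group.ofLeftAxioms _ ⟨fun a b => ⟨a.1 * b.1, hu.Hm_mul a.2 b.2⟩⟩
    ⟨fun a => ⟨(hu.Hm_inv a.2).choose, (hu.Hm_inv a.2).choose_spec.1⟩⟩
    ⟨⟨u 1, mem_Hm trivial⟩⟩ (fun a b c => Subtype.ext (mul_assoc a.1 b.1 c.1))
    (fun a => Subtype.ext (hu.one_mul_span (subset_span a.2)))
    (fun a => Subtype.ext (hu.Hm_inv a.2).choose_spec.2.2)

theorem HmG.mul_val {hu : TG F u} (a b : HmG hu) : (a * b).1 = a.1 * b.1 := rfl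

theorem HmG.one_val {hu : TG F u} : (1 : HmG hu).1 = u 1 := rfl

theorem HmG.ex {hu : TG F u} (a : HmG hu) : ∃ x, ∃ c : F, c ≠ 0 ∧ a.1 = c • u x := by
  obtain ⟨c, hc, x, -, e⟩ := a.2
  exact ⟨x, c, hc, e⟩

theorem HmG.choose_eq {hu : TG F u} (a : HmG hu) {x : G} {c : F} (hc : c ≠ 0)
    (e : a.1 = c • u x) : a.ex.choose = x := by
  obtain ⟨d, -, e'⟩ := a.ex.choose_spec
  exact (hu.eq_of hc (e.symm.trans e')).1.symm

/-- the degree of a homogeneous element -/
noncomputable def HmG.proj (hu : TG F u) : HmG hu →* G :=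
  MonoidHom.mk' (fun a => a.ex.choose) fun a b => by
    obtain ⟨c, hc, e⟩ := a.ex.choose_spec
    obtain ⟨d, hd, e'⟩ := b.ex.choose_spec
    obtain ⟨k, hk, e''⟩ := hu.mul a.ex.choose b.ex.choose
    refine (a * b).choose_eq (mul_ne_zero (mul_ne_zero hc hd) hk) ?_
    rw [HmG.mul_val]
    conv_lhs => rw [e, e']
    rw [smul_mul_smul_comm, e'', smul_smul]

theorem HmG.proj_eq {hu : TG F u} (a : HmG hu) {x : G} {c : F} (hc : c ≠ 0)
    (e : a.1 = c • u x) : HmG.proj hu a = x := a.choose_eq hc e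

theorem HmG.proj_spec {hu : TG F u} (a : HmG hu) :
    ∃ c : F, c ≠ 0 ∧ a.1 = c • u (HmG.proj hu a) := a.ex.choose_spec

theorem HmG.cent (hu : TG F u) : (HmG.proj hu).ker ≤ Subgroup.center _ := by
  intro a ha
  obtain ⟨c, -, e⟩ := a.proj_spec
  rw [MonoidHom.mem_ker.mp ha] at e
  rw [Subgroup.mem_center_iff]
  intro b
  apply Subtype.ext
  rw [HmG.mul_val, HmG.mul_val, e, mul_smul_comm, smul_mul_assoc,
    hu.one_mul_span (subset_span b.2), hu.span_mul_one (subset_span b.2)]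

end grp

section lift
variable {F A X S : Type} [Field F] [Ring A] [Algebra F A] [Group X] [Group S] {π : X →* S}
  {u : S → A}

theorem lf_phi (h : IsUce π) (hu : TG F u) : ∃ φ : X → A,
    (∀ x y, φ (x * y) = φ x * φ y) ∧ φ 1 = u 1 ∧ (∀ x, ∃ c : F, c ≠ 0 ∧ φ x = c • u (π x)) ∧
      ∀ (σ : RingAut F) (γ : RingAut A), SL F σ γ → γ ∈ Stb (Hm F u ⊤) →
        ∃ a : MulAut X, ∀ x, φ (a x) = γ (φ x) := by
  obtain ⟨φ, hφ⟩ := h.lift (HmG hu) S (HmG.proj hu) (MonoidHom.id S) (HmG.cent hu) fun s =>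
    ⟨⟨u s, mem_Hm trivial⟩, HmG.proj_eq _ one_ne_zero (one_smul _ _).symm⟩
  have hφ' : ∀ x, HmG.proj hu (φ x) = π x := hφ
  have h3 : ∀ x, ∃ c : F, c ≠ 0 ∧ (φ x).1 = c • u (π x) := fun x => hφ' x ▸ (φ x).proj_spec
  refine ⟨fun x => (φ x).1, fun x y => congrArg Subtype.val (map_mul φ x y),
    congrArg Subtype.val (map_one φ), h3,
    fun σ γ hs hγ => ?_⟩
  obtain ⟨α, hα⟩ := hu.aut hs hγ
  let g : HmG hu →* HmG hu :=
    MonoidHom.mk' (fun a => ⟨γ a.1, (hγ a.1).2 a.2⟩) fun a b => Subtype.ext (map_mul γ a.1 b.1)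
  have key : φ.comp (h.aut α).toMonoidHom = g.comp φ :=
    uce_unique h.perf (HmG.proj hu) (HmG.cent hu) fun x => by
      obtain ⟨c, hc, e⟩ := h3 x
      obtain ⟨d, hd, e'⟩ := hα (π x)
      have h4 : HmG.proj hu (g (φ x)) = α (π x) :=
        HmG.proj_eq _ (mul_ne_zero ((map_ne_zero σ).mpr hc) hd) (by
          change γ (φ x).1 = _
          rw [e, hs, e', smul_smul])
      exact ((hφ' _).trans (h.aut_spec α x)).trans h4.symm
  exact ⟨h.aut α, fun x => congrArg Subtype.val (DFunLike.congr_fun key x)⟩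

theorem lf_mul (x y : X) : gu F X x * gu F X y = gu F X (x * y) := by
  simp [gu, MonoidAlgebra.single_mul_single]

theorem lf_one : gu F X 1 = 1 := rfl

theorem lf_tg : TG F (gu F X) :=
  ⟨fun x y => ⟨1, one_ne_zero, by rw [lf_mul, one_smul]⟩,
    (MonoidAlgebra.basis X F).linearIndependent, by rw [lf_one, mul_one]⟩

theorem lf_ind {P : MonoidAlgebra F X → Prop} (h0 : P 0) (ha : ∀ a b, P a → P b → P (a + b))
    (hs : ∀ (c : F) x, P (c • gu F X x)) (b : MonoidAlgebra F X) : P b :=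
  MonoidAlgebra.induction_linear b h0 ha fun x c => by simpa [gu] using hs c x

theorem lf_span (b : MonoidAlgebra F X) : b ∈ span F (Hm F (gu F X) ⊤) :=
  lf_ind (zero_mem _) (fun _ _ => add_mem) 
    (fun c x => smul_mem _ c (subset_span (mem_Hm (Subgroup.mem_top x)))) b

theorem lf_data [CharZero F] [Finite X] (hs : Function.Surjective π)
    (hc : π.ker ≤ Subgroup.center X) (hu : TG F u) {φ : X → A}
    (h1 : ∀ x y, φ (x * y) = φ x * φ y) (h3 : ∀ x, ∃ c : F, c ≠ 0 ∧ φ x = c • u (π x)) :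
    ∃ (Φ : MonoidAlgebra F X →ₗ[F] A) (ε : MonoidAlgebra F X), Tp Φ ε ∧
      (∀ x, Φ (gu F X x) = φ x) ∧ ε ∈ span F (Hm F (gu F X) π.ker) := by
  classical
  have := Fintype.ofFinite π.ker
  choose l hl0 hl using h3
  let Φ : MonoidAlgebra F X →ₗ[F] A := (MonoidAlgebra.basis X F).constr F φ
  have hΦ : ∀ x, Φ (gu F X x) = φ x := fun x => (MonoidAlgebra.basis X F).constr_basis F φ x
  have hz : ∀ z : π.ker, φ z = l z • u 1 := fun z => by rw [hl, MonoidHom.mem_ker.mp z.2]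
  have hlm : ∀ z w : π.ker, l (z * w : π.ker) = l z * l w := fun z w => by
    have e := hz (z * w)
    rw [Subgroup.coe_mul, h1, hz, hz, smul_mul_smul_comm, hu.one] at e
    exact (hu.eq_of (mul_ne_zero (hl0 _) (hl0 _)) e).2.symm
  let ε : MonoidAlgebra F X := (Fintype.card π.ker : F)⁻¹ • ∑ z : π.ker, (l z)⁻¹ • gu F X z
  have hze : ∀ z : π.ker, gu F X z * ε = l z • ε := fun z => by
    rw [mul_smul_comm, smul_comm (l z), Finset.mul_sum, Finset.smul_sum (r := l z)]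
    congr 1
    refine Fintype.sum_equiv (Equiv.mulLeft z) _ _ fun w => ?_
    rw [Equiv.coe_mulLeft, hlm, mul_smul_comm, lf_mul, smul_smul, mul_inv,
      mul_inv_cancel_left₀ (hl0 _), Subgroup.coe_mul]
  have hΦe : Φ ε = u 1 := by
    rw [map_smul, map_sum]
    simp only [map_smul, hΦ, hz, smul_smul, inv_mul_cancel₀ (hl0 _), one_smul,
      Finset.sum_const, Finset.card_univ]
    rw [← Nat.cast_smul_eq_nsmul F, smul_smul, inv_mul_cancel₀ (by simp), one_smul]
  have hmul : ∀ a b, Φ (a * b) = Φ a * Φ b := fun a b => by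
    induction a using lf_ind with
    | h0 => simp
    | ha a a' h h' => rw [add_mul, map_add, map_add, add_mul, h, h']
    | hs c x =>
      induction b using lf_ind with
      | h0 => simp
      | ha b b' h h' => rw [mul_add, map_add, map_add, mul_add, h, h']
      | hs d y =>
        rw [smul_mul_smul_comm, lf_mul, map_smul, map_smul, map_smul, hΦ, hΦ, hΦ, h1,
          smul_mul_smul_comm]
  have hsp : ∀ b, Φ b ∈ span F (Hm F u ⊤) := fun b => by
    induction b using lf_ind with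
    | h0 => simp
    | ha b b' h h' => rw [map_add]; exact add_mem h h'
    | hs d y =>
      rw [map_smul, hΦ, hl]
      exact smul_mem _ _ (smul_mem _ _ (subset_span (mem_Hm trivial)))
  choose s hs' using hs
  obtain ⟨Ψ, hΨ⟩ := LinearMap.exists_extend
    ((Finsupp.linearCombination F fun t => (l (s t))⁻¹ • (gu F X (s t) * ε)) ∘ₗ hu.ind.repr)
  have hΨu : ∀ t, Ψ (u t) = (l (s t))⁻¹ • (gu F X (s t) * ε) := fun t => by
    have e := DFunLike.congr_fun hΨ ⟨u t, subset_span ⟨t, rfl⟩⟩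
    rw [LinearMap.comp_apply, LinearMap.comp_apply, hu.ind.repr_eq_single t _ rfl] at e
    simpa using e
  have hΨΦ : ∀ b, Ψ (Φ b) = b * ε := fun b => by
    induction b using lf_ind with
    | h0 => simp
    | ha b b' h h' => rw [map_add, map_add, h, h', add_mul]
    | hs d y =>
      have hk : (s (π y))⁻¹ * y ∈ π.ker := by simp [MonoidHom.mem_ker, hs']
      have e : y = s (π y) * (⟨_, hk⟩ : π.ker) := by simp
      rw [map_smul, map_smul, smul_mul_assoc, hΦ]
      congr 1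
      conv_lhs => rw [e, h1, hz, hl (s (π y)), hs', smul_mul_smul_comm, hu.mul_one, map_smul, hΨu]
      conv_rhs => rw [e, ← lf_mul, mul_assoc, hze, mul_smul_comm]
      rw [smul_smul, mul_right_comm, mul_inv_cancel₀ (hl0 _), one_mul]
  refine ⟨Φ, ε, ⟨hmul, fun b => ?_, fun b => ?_, fun b hb => ?_⟩, hΦ, ?_⟩
  · induction b using lf_ind with
    | h0 => simp
    | ha b b' h h' => rw [mul_add, add_mul, h, h']
    | hs d y =>
      have k : ε * gu F X y = gu F X y * ε := by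
        simp only [ε, mul_smul_comm, smul_mul_assoc, Finset.mul_sum, Finset.sum_mul, lf_mul]
        congr 1
        exact Finset.sum_congr rfl fun z _ => by rw [Subgroup.mem_center_iff.mp (hc z.2) y]
      rw [mul_smul_comm, k, smul_mul_assoc]
  · rw [hmul, hΦe, hu.span_mul_one (hsp b)]
  · rw [← hΨΦ, hb, map_zero]
  · exact smul_mem _ _ (sum_mem fun z _ => smul_mem _ _ (subset_span (mem_Hm z.2)))

theorem lf_sl_inv {σ : RingAut F} {γ : RingAut A} (h : SL F σ γ) : SL F σ⁻¹ γ⁻¹ := fun c x => by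
  change γ.symm (c • x) = σ.symm c • γ.symm x
  apply γ.injective
  rw [h]; simp

theorem lf_sl_eq {σ σ' : RingAut F} {γ : RingAut A} (h : SL F σ γ) (h' : SL F σ' γ) {a : A}
    (ha : a ≠ 0) : σ = σ' := by
  ext c
  exact smul_left_injective F ((map_ne_zero_iff γ γ.injective).mpr ha)
    ((h c a).symm.trans (h' c a))

theorem lf_aut (σ : RingAut F) (a : MulAut X) : ∃ δ : RingAut (MonoidAlgebra F X),
    SL F σ δ ∧ ∀ x, δ (gu F X x) = gu F X (a x) := by
  refine ⟨(MonoidAlgebra.mapRingEquiv X σ).trans (MonoidAlgebra.mapDomainRingEquiv F a),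
    fun c b => ?_, fun x => by simp [gu]⟩
  induction b using lf_ind with
  | h0 => simp
  | ha b b' h h' => rw [smul_add, map_add, map_add, smul_add, h, h']
  | hs d y => simp [gu]

/-- LIFT: the linked bijection passes from the group algebra of the universal central extension
to every twisted group algebra -/
theorem lf_ml {p : ℕ} [CharZero F] [Finite X] {GG : Subgroup (RingAut F)} (h : IsUce π)
    (hu : TG F u) (N : Subgroup S)
    (hl : ML F p GG (Hm F (gu F X) ⊤) (Hm F (gu F X) (N.comap π))) :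
    ML F p GG (Hm F u ⊤) (Hm F u N) := by
  obtain ⟨φ, h1, h2, h3, h4⟩ := lf_phi h hu
  obtain ⟨Φ, ε, hT, hΦ, hε⟩ := lf_data h.surj h.cent hu h1 h3
  have him : ∀ K : Subgroup S, Φ '' Hm F (gu F X) (K.comap π) = Hm F u K := fun K => by
    ext a
    constructor
    · rintro ⟨_, ⟨c, hc, x, hx, rfl⟩, rfl⟩
      obtain ⟨d, hd, e⟩ := h3 x
      rw [map_smul, hΦ, e]
      exact Hm_smul hc (Hm_smul hd (mem_Hm hx))
    · rintro ⟨c, hc, t, ht, rfl⟩
      obtain ⟨x, rfl⟩ := h.surj t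
      obtain ⟨d, hd, e⟩ := h3 x
      refine ⟨(c * d⁻¹) • gu F X x, 
        Hm_smul (mul_ne_zero hc (inv_ne_zero hd)) (mem_Hm ht), ?_⟩
      rw [map_smul, hΦ, e, smul_smul, inv_mul_cancel_right₀ hd]
  have hπ : ∀ x y, φ x = φ y → π x = π y := fun x y e => by
    obtain ⟨c, hc, e1⟩ := h3 x
    obtain ⟨d, -, e2⟩ := h3 y
    exact (hu.eq_of hc (e1.symm.trans (e.trans e2))).1
  have hN : ∀ x, φ x ∈ Hm F u N ↔ x ∈ N.comap π := fun x => by
    obtain ⟨c, hc, e⟩ := h3 x
    rw [e, hu.smul_mem_Hm hc]; rfl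
  have hker : π.ker ≤ N.comap π := fun z hz => by
    rw [Subgroup.mem_comap, MonoidHom.mem_ker.mp hz]; exact one_mem _
  have hH : Ht Φ (SG GG A ⊓ Stb (Hm F u ⊤) ⊓ Stb (Hm F u N))
      (SG GG _ ⊓ Stb (Hm F (gu F X) ⊤) ⊓ Stb (Hm F (gu F X) (N.comap π))) (Hm F (gu F X) ⊤)
      (Hm F (gu F X) (N.comap π)) fun γ δ => ∃ σ ∈ GG, SL F σ γ ∧ SL F σ δ ∧ ∃ a : MulAut X,
        (∀ x, δ (gu F X x) = gu F X (a x)) ∧ ∀ x, φ (a x) = γ (φ x) := by
    refine ⟨?_, ?_, ?_, ?_, ?_, ?_, ?_, ?_⟩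
    · rintro γ ⟨⟨⟨σ, hσ, hs⟩, hγ⟩, -⟩
      obtain ⟨a, ha⟩ := h4 σ γ hs hγ
      obtain ⟨δ, hδ, hδ'⟩ := lf_aut σ a
      exact ⟨δ, σ, hσ, hs, hδ, a, hδ', ha⟩
    · rintro γ ⟨-, hγ⟩ δ ⟨σ, hσ, -, hδ, a, hδ', ha⟩
      have k : ∀ x, ∃ c : F, c ≠ 0 ∧ δ (gu F X x) = c • gu F X (a x) := fun x =>
        ⟨1, one_ne_zero, by rw [hδ', one_smul]⟩
      refine ⟨⟨⟨σ, hσ, hδ⟩, (lf_tg.stb_iff hδ k _).mpr ?_⟩, (lf_tg.stb_iff hδ k _).mpr ?_⟩
      · exact Subgroup.map_top_of_surjective _ a.surjective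
      · have k2 : ∀ x, a x ∈ N.comap π ↔ x ∈ N.comap π := fun x => by
          rw [← hN, ← hN, ha]; exact hγ _
        ext x
        exact ⟨fun ⟨y, hy, e⟩ => e ▸ (k2 y).mpr hy,
          fun hx => ⟨a.symm x, (k2 _).mp (by simpa using hx), by simp⟩⟩
    · rintro γ δ ⟨σ, -, hs, hδ, a, hδ', ha⟩ b
      induction b using lf_ind with
      | h0 => simp
      | ha b b' k k' => simp only [map_add, k, k']
      | hs d y => rw [hδ, map_smul, map_smul, hs, hδ', hΦ, hΦ, ha]
    · rintro γ δ δ' ⟨σ, -, hs, hδ, a, k1, k2⟩ ⟨σ', -, hs', hδ', a', k3, k4⟩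
      obtain rfl := lf_sl_eq hs hs' (hu.ne 1)
      obtain rfl : a = a' := uce_aut_ext h.perf h.cent fun x => hπ _ _ (by rw [k2, k4])
      refine RingEquiv.ext fun b => ?_
      induction b using lf_ind with
      | h0 => simp
      | ha b b' k k' => simp only [map_add, k, k']
      | hs d y => rw [hδ, hδ', k1, k3]
    · rintro γ δ γ' δ' ⟨σ, hσ, hs, hδ, a, k1, k2⟩ ⟨σ', hσ', hs', hδ', a', k3, k4⟩
      refine ⟨σ * σ', mul_mem hσ hσ', fun c x => ?_, fun c x => ?_, a * a', fun x => ?_,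
        fun x => ?_⟩
      · change γ (γ' (c • x)) = σ (σ' c) • γ (γ' x)
        rw [hs', hs]
      · change δ (δ' (c • x)) = σ (σ' c) • δ (δ' x)
        rw [hδ', hδ]
      · change δ (δ' _) = gu F X (a (a' x))
        rw [k3, k1]
      · change φ (a (a' x)) = γ (γ' _)
        rw [k2, k4]
    · rintro γ δ ⟨σ, hσ, hs, hδ, a, k1, k2⟩
      refine ⟨σ⁻¹, inv_mem hσ, lf_sl_inv hs, lf_sl_inv hδ, a⁻¹, fun x => ?_, fun x => ?_⟩
      · change δ.symm _ = _
        rw [RingEquiv.symm_apply_eq, k1, MulAut.apply_inv_self]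
      · change _ = γ.symm _
        rw [RingEquiv.eq_symm_apply, ← k2, MulAut.apply_inv_self]
    · rintro γ δ ⟨σ, -, hs, hδ, -⟩ hl'
      obtain rfl : σ = 1 := lf_sl_eq hs hl' (hu.ne 1)
      exact hδ
    · rintro γ δ ⟨σ, -, hs, hδ, a, k1, k2⟩ _ ⟨c, hc, y, -, rfl⟩ hm _ ⟨d, hd, x, -, rfl⟩
      have hne : ∀ x, φ x ≠ 0 := fun x => by
        obtain ⟨c, hc, e⟩ := h3 x
        rw [e]; exact smul_ne_zero hc (hu.ne _)
      have k3 : ∀ (d : F), d ≠ 0 → ∀ x, d • φ (y * x) = σ d • φ (a x * y) := fun d hd x => by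
        have e := hm _ (Hm_smul hd (mem_Hm (Subgroup.mem_top x)))
        rw [map_smul, map_smul, hΦ, hΦ, hs, ← k2, smul_mul_smul_comm, smul_mul_smul_comm,
          ← h1, ← h1, mul_comm (σ d), mul_smul, mul_smul] at e
        exact smul_right_injective A hc e
      have k4 : ∀ x, φ (y * x) = φ (a x * y) := fun x => by
        simpa using k3 1 one_ne_zero x
      have k5 : a = MulAut.conj y := uce_aut_ext h.perf h.cent fun x => by
        have e := hπ _ _ (k4 x)
        rw [map_mul, map_mul] at e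
        simp [e]
      have k6 : σ d = d := by
        have e := k3 d hd x
        rw [k4] at e
        exact (smul_left_injective F (hne _) e).symm
      rw [hδ, k1, k6, smul_mul_smul_comm, smul_mul_smul_comm, lf_mul, lf_mul, k5, mul_comm c]
      simp
  have key := lk_transport (p := p) (GG := GG) hT hH (inf_le_left.trans inf_le_left)
    (fun b _ => lf_span _) (fun b hb => lf_tg.span_mul hb (span_Hm_mono hker hε))
    (mem_Hm (u := gu F X) (one_mem _)) (span_mono ?_ hε) hl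
  · rw [him N, ← Subgroup.comap_top π, him ⊤] at key
    exact key
  · rintro _ ⟨c, hc, z, hz, rfl⟩
    refine ⟨Hm_smul hc (mem_Hm (hker hz)), lf_span _, ?_⟩
    rintro _ ⟨d, -, x, -, rfl⟩
    rw [smul_mul_smul_comm, smul_mul_smul_comm, lf_mul, lf_mul, mul_comm c,
      Subgroup.mem_center_iff.mp (h.cent hz) x]

end lift

end Pool.Agent.Lib.MP_1ae3da_al.CT
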