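import Pool.Agent.Lib.MP_1ae3da_al.C.Defs

/-! Explicit matrix models of the blocks of a group algebra. -/

namespace Pool.Agent.Lib.MP_1ae3da_al.CT

open Submodule Matrix

variable {F B H : Type} [Field F] [Ring B] [Algebra F B] [Group H]

omit [Group H] in
lemma am_lin {V : Type} [AddCommGroup V] [Module F V] {v : H → B} (hi : LinearIndependent F v)
    (f : H → V) : ∃ R : B →ₗ[F] V, ∀ h, R (v h) = f h := by
  obtain ⟨g, hg⟩ := LinearMap.exists_leftInverse_of_injective (Finsupp.linearCombination F v)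
    (LinearMap.ker_eq_bot.2 hi)
  refine ⟨(Finsupp.linearCombination F f).comp g, fun h => ?_⟩
  have := LinearMap.congr_fun hg (Finsupp.single h 1)
  simp only [LinearMap.comp_apply, Finsupp.linearCombination_single, one_smul,
    LinearMap.id_apply] at this
  simp [this]

lemma am_mem (v : H → B) (h : H) : v h ∈ Hm F v ⊤ := ⟨1, one_ne_zero, h, trivial, by simp⟩

lemma am_ind {v : H → B} {P : B → Prop} (h0 : P 0) (ha : ∀ a b, P a → P b → P (a + b))
    (hs : ∀ (c : F) h, P (c • v h)) : ∀ a ∈ span F (Hm F v ⊤), P a := by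
  have key : ∀ a ∈ span F (Hm F v ⊤), ∀ c : F, P (c • a) := by
    intro a hA
    induction hA using span_induction with
    | mem x hx =>
      obtain ⟨c', -, h, -, rfl⟩ := hx
      intro c; rw [smul_smul]; exact hs _ _
    | zero => intro c; rwa [smul_zero]
    | add x y _ _ hx hy => intro c; rw [smul_add]; exact ha _ _ (hx c) (hy c)
    | smul c' x _ hx => intro c; rw [smul_smul]; exact hx _
  intro a hA
  simpa using key a hA 1

/-- blocks with nonzero product are equal. -/
lemma am_irr_eq {S : Set B} {e f : B} (he : e ∈ Irr F S) (hf : f ∈ Irr F S) (h : f * e ≠ 0) :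
    e = f := by
  have hc : e * f = f * e := by
    have : ∀ a ∈ span F S, e * a = a * e := by
      intro a ha
      induction ha using span_induction with
      | mem x hx => exact he.1.2 x hx
      | zero => simp
      | add x y _ _ hx hy => rw [mul_add, add_mul, hx, hy]
      | smul c x _ hx => rw [mul_smul_comm, smul_mul_assoc, hx]
    exact this f hf.1.1
  obtain ⟨c, h1⟩ := he.2.2.2 f hf.1
  obtain ⟨c', h2⟩ := hf.2.2.2 e he.1
  have e1 : f * e = e := by
    have h3 : f * (f * e) = f * e := by rw [← mul_assoc, hf.2.1]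
    have h4 : c • (f * e) = (1 : F) • (f * e) := by
      rw [one_smul, ← mul_smul_comm]
      conv_rhs => rw [← h3, h1]
    rw [h1, smul_left_injective F h h4, one_smul]
  have e2 : e * f = f := by
    have h3 : e * (e * f) = e * f := by rw [← mul_assoc, he.2.1]
    have h4 : c' • (e * f) = (1 : F) • (e * f) := by
      rw [one_smul, ← mul_smul_comm]
      conv_rhs => rw [← h3, h2]
    rw [h2, smul_left_injective F (hc ▸ h) h4, one_smul]
  rw [← e1, ← hc, e2]

variable [Fintype H]

/-- the idempotent attached to a character. -/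
noncomputable def ide (v : H → B) (θ : H → F) : B :=
  ∑ h, (θ 1 / Fintype.card H * θ h⁻¹) • v h

/-- the element of the block with prescribed matrix. -/
noncomputable def Em {d : ℕ} (v : H → B) (r : H → Matrix (Fin d) (Fin d) F) :
    Matrix (Fin d) (Fin d) F →ₗ[F] B where
  toFun m := ∑ h, ((d : F) / Fintype.card H * (r h⁻¹ * m).trace) • v h
  map_add' m m' := by
    simp only [mul_add, trace_add, add_smul, Finset.sum_add_distrib]
  map_smul' c m := by
    simp only [Matrix.mul_smul, trace_smul, smul_eq_mul, RingHom.id_apply, Finset.smul_sum,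
      smul_smul, mul_left_comm]

lemma Em_apply {d : ℕ} (v : H → B) (r : H → Matrix (Fin d) (Fin d) F) (m) :
    Em v r m = ∑ h, ((d : F) / Fintype.card H * (r h⁻¹ * m).trace) • v h := rfl

/-- an absolutely irreducible matrix representation, with a group basis `v`. -/
structure AR {d : ℕ} (v : H → B) (r : H → Matrix (Fin d) (Fin d) F) : Prop where
  vm : ∀ x y, v x * v y = v (x * y)
  ind : LinearIndependent F v
  rm : ∀ x y, r (x * y) = r x * r y
  r1 : r 1 = 1
  pos : 0 < d
  rel : ∀ a i k b, (d : F) / Fintype.card H * ∑ h, r h a i * r h⁻¹ k b =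
    if i = k ∧ a = b then 1 else 0

lemma ide_map {v : H → B} {σ : RingAut F} {γ : RingAut B} (hγ : SL F σ γ) (β : H ≃* H)
    (hβ : ∀ h, γ (v h) = v (β h)) {θ θ' : H → F} (h : ∀ x, θ' (β x) = σ (θ x)) :
    γ (ide v θ) = ide v θ' := by
  unfold ide
  rw [map_sum]
  conv_rhs => rw [← β.toEquiv.sum_comp]
  refine Finset.sum_congr rfl fun x _ => ?_
  have h1 := h 1
  rw [map_one] at h1
  rw [hγ, hβ, map_mul, map_div₀, map_natCast, ← h1, ← h, map_inv]
  rfl

lemma ide_inj [CharZero F] {v : H → B} (hi : LinearIndependent F v) {θ θ' : H → F}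
    (h : ide v θ = ide v θ') (x : H) : θ 1 * θ x = θ' 1 * θ' x := by
  have h1 := Fintype.linearIndependent_iffₛ.1 hi _ _ h x⁻¹
  have h0 : (Fintype.card H : F) ≠ 0 := Nat.cast_ne_zero.2 Fintype.card_ne_zero
  simp only [inv_inv] at h1
  field_simp at h1
  exact h1

namespace AR
variable {d : ℕ} {v : H → B} {r : H → Matrix (Fin d) (Fin d) F} (h : AR v r)
include h

lemma sum_eq (m : Matrix (Fin d) (Fin d) F) :
    ∑ x, ((d : F) / Fintype.card H * (r x⁻¹ * m).trace) • r x = m := by
  ext a i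
  have : ∀ x, ((d : F) / Fintype.card H * (r x⁻¹ * m).trace) * r x a i =
      ∑ k, ∑ b, (d : F) / Fintype.card H * (r x a i * r x⁻¹ k b) * m b k := by
    intro x
    simp only [trace, diag, mul_apply, Finset.mul_sum, Finset.sum_mul]
    refine Finset.sum_congr rfl fun k _ => Finset.sum_congr rfl fun b _ => by ring
  simp only [Matrix.sum_apply, Matrix.smul_apply, smul_eq_mul, this]
  rw [Finset.sum_comm]
  have h2 : ∀ k, ∑ x, ∑ b, (d : F) / Fintype.card H * (r x a i * r x⁻¹ k b) * m b k =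
      ∑ b, (if i = k ∧ a = b then 1 else 0) * m b k := by
    intro k
    rw [Finset.sum_comm]
    refine Finset.sum_congr rfl fun b _ => ?_
    rw [← h.rel, ← Finset.sum_mul, ← Finset.mul_sum]
  simp only [h2]
  simp [ite_and]

lemma lin_Em {R : B →ₗ[F] Matrix (Fin d) (Fin d) F} (hR : ∀ x, R (v x) = r x) (m) :
    R (Em v r m) = m := by
  rw [Em_apply, map_sum]
  simp only [map_smul, hR]
  exact h.sum_eq m

lemma Em_inj : Function.Injective (Em v r) := by
  obtain ⟨R, hR⟩ := am_lin h.ind r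
  intro a b e
  rw [← h.lin_Em hR a, e, h.lin_Em hR]

omit h in
lemma Em_mem (m) : Em v r m ∈ span F (Hm F v ⊤) :=
  sum_mem fun x _ => smul_mem _ _ (subset_span (am_mem v x))

lemma v_Em (x : H) (m) : v x * Em v r m = Em v r (r x * m) := by
  rw [Em_apply, Em_apply, Finset.mul_sum]
  conv_rhs => rw [← Equiv.sum_comp (Equiv.mulLeft x)]
  refine Finset.sum_congr rfl fun y _ => ?_
  rw [mul_smul_comm, h.vm, Equiv.coe_mulLeft, ← mul_assoc, ← h.rm]
  simp

lemma Em_v (x : H) (m) : Em v r m * v x = Em v r (m * r x) := by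
  rw [Em_apply, Em_apply, Finset.sum_mul]
  conv_rhs => rw [← Equiv.sum_comp (Equiv.mulRight x)]
  refine Finset.sum_congr rfl fun y _ => ?_
  rw [smul_mul_assoc, h.vm, Equiv.coe_mulRight, ← mul_assoc, trace_mul_comm _ (r x), ← mul_assoc,
    ← h.rm]
  simp

lemma mul_Em {R : B →ₗ[F] Matrix (Fin d) (Fin d) F} (hR : ∀ x, R (v x) = r x) (m) :
    ∀ a ∈ span F (Hm F v ⊤), a * Em v r m = Em v r (R a * m) := by
  refine am_ind (by simp) (fun a b ha hb => by simp [add_mul, ha, hb]) fun c x => ?_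
  simp [hR, h.v_Em]

lemma Em_mul (m m') : Em v r m * Em v r m' = Em v r (m * m') := by
  obtain ⟨R, hR⟩ := am_lin h.ind r
  rw [h.mul_Em hR _ _ (Em_mem m), h.lin_Em hR]

lemma Em_one : Em v r 1 = ide v fun x => (r x).trace := by
  simp [Em_apply, ide, h.r1]

lemma Em_ne {m} (hm : IsUnit m) : Em v r m ≠ 0 := by
  intro e
  have : m = 0 := h.Em_inj (by rw [e, map_zero])
  have _ : Nonempty (Fin d) := ⟨⟨0, h.pos⟩⟩
  exact hm.ne_zero this

lemma irr : Em v r 1 ∈ Irr F (Hm F v ⊤) := by
  obtain ⟨R, hR⟩ := am_lin h.ind r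
  refine ⟨⟨Em_mem 1, ?_⟩, by rw [h.Em_mul, mul_one], h.Em_ne isUnit_one, fun z hz => ?_⟩
  · rintro _ ⟨c, -, x, -, rfl⟩
    rw [mul_smul_comm, smul_mul_assoc, h.v_Em, h.Em_v, mul_one, one_mul]
  · have h1 : ∀ x, R z * r x = r x * R z := by
      intro x
      apply h.Em_inj
      have e1 : z * v x * Em v r 1 = Em v r (R z * r x) := by
        rw [mul_assoc, h.v_Em, h.mul_Em hR _ _ hz.1, mul_one]
      have e2 : v x * z * Em v r 1 = Em v r (r x * R z) := by
        rw [mul_assoc, h.mul_Em hR _ _ hz.1, h.v_Em, mul_one]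
      rw [← e1, ← e2, hz.2 _ (am_mem v x)]
    have h2 : ∀ m, Commute m (R z) := by
      intro m
      rw [← h.sum_eq m]
      exact Commute.sum_left _ _ _ fun x _ => Commute.smul_left (h1 x).symm _
    obtain ⟨c, hc⟩ := mem_range_scalar_of_commute_single (M := R z) fun i k _ => h2 _
    refine ⟨c, ?_⟩
    rw [h.mul_Em hR _ _ hz.1, ← hc, ← map_smul]
    simp [scalar_apply, smul_one_eq_diagonal]

lemma Dg_eq : Dg F (Hm F v ⊤) (Em v r 1) = d ^ 2 := by
  obtain ⟨R, hR⟩ := am_lin h.ind r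
  have : (span F (Hm F v ⊤)).map (LinearMap.mulRight F (Em v r 1)) = LinearMap.range (Em v r) := by
    ext b
    constructor
    · rintro ⟨a, ha, rfl⟩
      exact ⟨_, (h.mul_Em hR 1 a ha).symm⟩
    · rintro ⟨m, rfl⟩
      exact ⟨Em v r m, Em_mem m, by simp [h.Em_mul]⟩
  rw [Dg, this, LinearMap.finrank_range_of_inj h.Em_inj]
  simp [Module.finrank_matrix, sq]

lemma ln {a : RingAut B} (ha : Lin F a) {δ : H → H} (hδ : ∀ x, a (v x) = v (δ x)) {m}
    (hm : IsUnit m) (hc : ∀ x, m * r x = r (δ x) * m) {c : F} (h0 : c ≠ 0) :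
    c • Em v r m ∈ Ln F (Hm F v ⊤) (Em v r 1) a := by
  refine ⟨smul_mem _ _ (Em_mem m), by rw [smul_mul_assoc, h.Em_mul, mul_one],
    smul_ne_zero h0 (h.Em_ne hm), ?_⟩
  rintro _ ⟨c', -, x, -, rfl⟩
  rw [ha, hδ]
  simp only [smul_mul_assoc, mul_smul_comm, h.v_Em, h.Em_v, hc]
  exact smul_comm _ _ _

omit h in
lemma nat {σ : RingAut F} {γ : RingAut B} (hγ : SL F σ γ) (β : H ≃* H)
    (hβ : ∀ x, γ (v x) = v (β x)) (U U' : Matrix (Fin d) (Fin d) F)
    (hU : ∀ x, (r x).map σ = U * r (β x) * U') (m : Matrix (Fin d) (Fin d) F) :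
    γ (Em v r m) = Em v r (U' * m.map σ * U) := by
  rw [Em_apply, Em_apply, map_sum]
  conv_rhs => rw [← β.toEquiv.sum_comp]
  refine Finset.sum_congr rfl fun x _ => ?_
  have e : σ (r x⁻¹ * m).trace = ((r x⁻¹).map σ * m.map σ).trace := by
    simp [trace, mul_apply]
  rw [hγ, hβ, map_mul, map_div₀, map_natCast, map_natCast, e, hU, map_inv, mul_assoc U,
    mul_assoc U, trace_mul_comm U]
  simp [mul_assoc]

end AR

end Pool.Agent.Lib.MP_1ae3da_al.CT
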