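import Pool.Agent.Lib.MP_1ae3da_al.C.ACh

/-! Projective representations associated with a character, read in the group algebra. -/

namespace Pool.Agent.Lib.MP_1ae3da_al.CT

open Submodule Matrix NSV

variable {F B H G : Type} [Field F] [Ring B] [Algebra F B] [Group H] [Fintype H] [Group G]

variable (F) in
/-- one side of a character triple relation. -/
structure Side (v : H → B) (κ : H →* G) (N T : Subgroup G) (ψ : G → Qbar) (θ : H → Qbar) {d : ℕ}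
    (P : G → Matrix (Fin d) (Fin d) Qbar) (α : G → G → Qbar) : Prop where
  vm : ∀ x y, v x * v y = v (x * y)
  ind : LinearIndependent F v
  rng : ∀ g, g ∈ N ↔ ∃ x, κ x = g
  le : N ≤ T
  val : ∀ x, ψ (κ x) = θ x
  irr : ∃ n, IsIrr n θ
  ass : Assoc N T ψ P α

/-- the element of the block attached to `y`. -/
noncomputable def Ey (j : Qbar →+* F) (v : H → B) (κ : H →* G) {d : ℕ}
    (P : G → Matrix (Fin d) (Fin d) Qbar) (y : G) : B :=
  Em v (fun x => (P (κ x)).map j) ((P y).map j)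

lemma fix_one (N : Subgroup G) (ψ : G → Qbar) : Fix N ψ 1 1 := fun n _ => by simp

lemma fix_cen {N : Subgroup G} (ψ : G → Qbar) {c : G} (hc : c ∈ Subgroup.centralizer (N : Set G)) :
    Fix N ψ c 1 := fun n hn => by
  rw [← hc n hn]; simp

namespace Side
variable {v : H → B} {κ : H →* G} {N T : Subgroup G} {ψ : G → Qbar} {θ : H → Qbar} {d : ℕ}
  {P : G → Matrix (Fin d) (Fin d) Qbar} {α : G → G → Qbar} (h : Side F v κ N T ψ θ P α)
include h

omit [Fintype H] in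
lemma mem (x : H) : κ x ∈ N := (h.rng _).2 ⟨x, rfl⟩

lemma fix (x : H) : Fix N ψ (κ x) 1 := by
  intro n hn
  obtain ⟨y, rfl⟩ := (h.rng n).1 hn
  obtain ⟨m, hm⟩ := h.irr
  rw [← map_inv, ← map_mul, ← map_mul, h.val, h.val, ch_cl hm]
  rfl

omit [Fintype H] in
lemma unit {y : G} (hy : y ∈ T) (hf : Fix N ψ y 1) : IsUnit (P y) := (h.ass.2 y hy hf).1

lemma P_one : P 1 = 1 := by
  have h1 := ((h.ass.2 1 (one_mem _) (fix_one N ψ)).2.2.1 1 (one_mem _)).1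
  rw [one_mul] at h1
  exact (h.unit (one_mem _) (fix_one N ψ)).mul_right_cancel (by rw [← h1, one_mul])

lemma ar (j : Qbar →+* F) : AR v fun x => (P (κ x)).map j := by
  obtain ⟨m, hm⟩ := h.irr
  exact ch_AR j h.vm h.ind hm (ρ := fun x => P (κ x)) (fun x y => by
    rw [map_mul]
    exact ((h.ass.2 _ (h.le (h.mem y)) (h.fix y)).2.2.1 _ (h.mem x)).1)
    (by rw [map_one, h.P_one]) fun x => by rw [h.ass.1 _ (h.mem x), h.val]

lemma one_eq (j : Qbar →+* F) : Em v (fun x => (P (κ x)).map j) 1 = chi j v θ :=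
  chi_eq j (ρ := fun x => P (κ x)) (h.ar j) fun x => by rw [h.ass.1 _ (h.mem x), h.val]

lemma unitj (j : Qbar →+* F) {y : G} (hy : y ∈ T) (hf : Fix N ψ y 1) : IsUnit ((P y).map j) :=
  (h.unit hy hf).map j.mapMatrix

lemma ne (j : Qbar →+* F) {y : G} (hy : y ∈ T) (hf : Fix N ψ y 1) : Ey j v κ P y ≠ 0 :=
  (h.ar j).Em_ne (h.unitj j hy hf)

lemma ln (j : Qbar →+* F) {y : G} (hy : y ∈ T) (hf : Fix N ψ y 1) {a : RingAut B} (ha : Lin F a)
    {δ : H → H} (hδ : ∀ x, a (v x) = v (δ x)) (hc : ∀ x, y * κ x = κ (δ x) * y) {c : F}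
    (h0 : c ≠ 0) : c • Ey j v κ P y ∈ Ln F (Hm F v ⊤) (chi j v θ) a := by
  rw [← h.one_eq j]
  refine (h.ar j).ln ha hδ (h.unitj j hy hf) (fun x => ?_) h0
  rw [← Matrix.map_mul, ← Matrix.map_mul, ← ((h.ass.2 y hy hf).2.2.1 _ (h.mem x)).2, hc,
    ((h.ass.2 y hy hf).2.2.1 _ (h.mem _)).1]

lemma mul (j : Qbar →+* F) {y y' : G} (hy : y ∈ T) (hf : Fix N ψ y 1) (hy' : y' ∈ T)
    (hf' : Fix N ψ y' 1) :
    j (α y y') ≠ 0 ∧ Ey j v κ P y * Ey j v κ P y' = j (α y y') • Ey j v κ P (y * y') := by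
  obtain ⟨h1, m, hm, h2⟩ := (h.ass.2 y hy hf).2.2.2 y' hy' hf'
  refine ⟨fun e => ?_, ?_⟩
  · rw [(map_eq_zero j).1 e, zero_pow hm.ne'] at h2
    exact zero_ne_one h2
  · rw [Ey, Ey, Ey, (h.ar j).Em_mul, ← Matrix.map_mul, h1, ← map_smul]
    congr 1
    ext a b
    simp

lemma loc (j : Qbar →+* F) (x : H) {c : G} (hc : c ∈ T) (hf : Fix N ψ c 1) {ζ : Qbar}
    (hζ : P c = ζ • 1) : j ζ ≠ 0 ∧ Ey j v κ P (κ x * c) = j ζ • (v x * chi j v θ) := by
  refine ⟨fun e => ?_, ?_⟩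
  · have _ : Nonempty (Fin d) := ⟨⟨0, (h.ar j).pos⟩⟩
    rw [(map_eq_zero j).1 e, zero_smul] at hζ
    exact (h.unit hc hf).ne_zero hζ
  · rw [← h.one_eq j, (h.ar j).v_Em, Ey, ((h.ass.2 c hc hf).2.2.1 _ (h.mem x)).1, hζ, ← map_smul]
    congr 1
    ext a b
    simp

lemma nat (j : Qbar →+* F) {σ : RingAut F} {s : Qbar ≃ₐ[ℚ] Qbar} (hs : ∀ x, σ (j x) = j (s x))
    {γ : RingAut B} (hγ : SL F σ γ) (β : H ≃* H) (hβ : ∀ x, γ (v x) = v (β x)) {g : G}
    (hg : ∀ x, g * κ (β x) * g⁻¹ = κ x) {μ : G → Qbar} (hμ : Mu N T ψ P g s μ) {y : G}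
    (hy : y ∈ T) (hf : Fix N ψ y 1) :
    γ (Ey j v κ P (g * y * g⁻¹)) = j (μ y) • Ey j v κ P y := by
  obtain ⟨h1, U, hU⟩ := hμ
  have mp : ∀ m : Matrix (Fin d) (Fin d) Qbar, (m.map j).map σ = (m.map s).map j := by
    intro m; ext a b; simp [hs]
  have sm : ∀ (c : Qbar) (m : Matrix (Fin d) (Fin d) Qbar), (c • m).map j = j c • m.map j := by
    intro c m; ext a b; simp
  have h2 : ∀ x, ((P (κ x)).map j).map σ =
      U.val.map j * (P (κ (β x))).map j * U.inv.map j := by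
    intro x
    have e1 := (hU 1 (one_mem _) (fix_one N ψ)).1 _ (h.mem (β x))
    have e2 := (hU _ (h.le (h.mem (β x))) (h.fix _)).2
    rw [mul_one, h1] at e1
    rw [hg, e1, one_smul] at e2
    rw [mp, e2, Matrix.map_mul, Matrix.map_mul]
  have h3 : U.inv.map j * U.val.map j = 1 := by
    rw [← Matrix.map_mul, U.inv_val]; simp
  rw [Ey, AR.nat hγ β hβ _ _ h2, mp, (hU y hy hf).2, sm, Matrix.map_mul, Matrix.map_mul, Ey,
    ← map_smul]
  congr 1
  rw [Matrix.mul_smul, Matrix.smul_mul]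
  congr 1
  simp only [← mul_assoc, h3, one_mul]
  rw [mul_assoc, h3, mul_one]

end Side

end Pool.Agent.Lib.MP_1ae3da_al.CT
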