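import Pool.Agent.Lib.MP_1ae3da_al.C.ASide
import Pool.Agent.Lib.MP_1ae3da_al.C.AFin

/-! The inductive Galois-McKay condition gives links in the group algebra. -/

namespace Pool.Agent.Lib.MP_1ae3da_al.CT

open Submodule NSV SemidirectProduct

variable {p : ℕ} {F : Type} [Field F] {GG : Subgroup (RingAut F)} {X : Type} [Group X]

lemma alt_T [Finite X] [Fact p.Prime] (Q : Sylow p X) (θ : X → Qbar)
    (g : X ⋊[(Gam p Q θ).subtype] Gam p Q θ) :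
    g ∈ Subgroup.closure {g : X ⋊[(Gam p Q θ).subtype] Gam p Q θ |
      g.left ∈ Subgroup.normalizer (Q : Set X)} ↔ g.left ∈ Subgroup.normalizer (Q : Set X) := by
  refine ⟨fun h => ?_, fun h => Subgroup.subset_closure h⟩
  have st : ∀ (δ : Gam p Q θ) x, x ∈ Subgroup.normalizer (Q : Set X) →
      (δ : MulAut X) x ∈ Subgroup.normalizer (Q : Set X) :=
    fun δ x hx => ((norm_stb Q δ).2 δ.2.1 x).2 hx
  induction h using Subgroup.closure_induction with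
  | mem x hx => exact hx
  | one => exact one_mem _
  | mul x y _ _ hx hy => exact mul_mem hx (st _ _ hy)
  | inv x _ hx => exact st x.right⁻¹ _ (inv_mem hx)

lemma alt_fix {Γ : Subgroup (MulAut X)} {θ : X → Qbar} (δ : Γ) {s : Qbar ≃ₐ[ℚ] Qbar}
    (h : ∀ x, s (θ ((δ : MulAut X) x)) = θ x) :
    Fix (G := X ⋊[Γ.subtype] Γ) inl.range (fun g => θ g.left) (inr δ) s := by
  rintro _ ⟨x, rfl⟩
  rw [← map_inv, ← inl_aut]
  exact h x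

lemma alt_comm {Γ : Subgroup (MulAut X)} (δ : Γ) (x : X) :
    (inr δ * inl x : X ⋊[Γ.subtype] Γ) = inl ((δ : MulAut X) x) * inr δ := by
  have := inl_aut (φ := Γ.subtype) δ x
  rw [map_inv, eq_mul_inv_iff_mul_eq] at this
  exact this.symm

theorem alt_link [Fact p.Prime] (j : Qbar →+* F)
    (hj : ∀ σ ∈ GG, ∃ s ∈ NSV.H p, ∀ x, σ (j x) = j (s x)) (X : Type) [Group X] [Finite X]
    (hX : commutator X = ⊤) (Q : Sylow p X) (hI : NSV.Inductive p X Q) :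
    ML F p GG (Hm F (gu F X) ⊤) (Hm F (gu F X) (Subgroup.normalizer (Q : Set X))) := by
  classical
  have hp : p.Prime := Fact.out
  have _ := Fintype.ofFinite X
  obtain ⟨-, Ω, hE, hG⟩ := hI
  let N : Subgroup X := Subgroup.normalizer ((Q : Subgroup X) : Set X)
  have hT := alt_T Q
  have hst : ∀ δ : MulAut X, (∀ x, δ x ∈ N ↔ x ∈ N) ↔
    ∀ x, δ x ∈ (Q : Subgroup X) ↔ x ∈ (Q : Subgroup X) := norm_stb Q
  change ML F p GG _ (Hm F _ N)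
  have _ := Fintype.ofFinite N
  have b1 := chi_bij j (gu_mul (F := F) (X := X)) gu_tg.ind hp
  have b2 := chi_bij j (gs_mul (F := F) N) (gs_ind N) hp
  rw [← gs_hm] at b2
  let c1 : NSV.IrrP p X → MonoidAlgebra F X := fun θ => chi j (gu F X) θ.1
  have i1 : Function.Injective c1 := fun a b e => Subtype.ext (b1.injOn a.2 b.2 e)
  let W := Function.extend c1 (fun θ => chi j (gs F N) (Ω θ).1) 0
  have hW : ∀ θ, W (c1 θ) = chi j (gs F N) (Ω θ).1 := fun θ => i1.extend_apply _ _ θ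
  have ex : ∀ e ∈ IrrP F p (Hm F (gu F X) ⊤), ∃ θ, c1 θ = e := fun e he => by
    obtain ⟨θ, h1, h2⟩ := b1.surjOn he
    exact ⟨⟨θ, h1⟩, h2⟩
  let Γ := SG GG (MonoidAlgebra F X) ⊓ Stb (Hm F (gu F X) ⊤) ⊓ Stb (Hm F (gu F X) N)
  have dat : ∀ γ ∈ Γ, ∀ (σ : RingAut F) (s : Qbar ≃ₐ[ℚ] Qbar), SL F σ γ →
      (∀ x, σ (j x) = j (s x)) → ∃ δ : MulAut X, (∀ x, γ (gu F X x) = gu F X (δ x)) ∧
      (∀ x, δ x ∈ N ↔ x ∈ N) ∧ ∀ θ : NSV.IrrP p X, ∃ θ' : NSV.IrrP p X,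
        (∀ x, θ'.1 (δ x) = s (θ.1 x)) ∧ γ (c1 θ) = c1 θ' := by
    intro γ hγ σ s h1 h2
    obtain ⟨δ, hδ⟩ := ga_perf hX h1 hγ.1.2
    refine ⟨δ, hδ, (ga_stb h1 hδ N).1 hγ.2, fun θ => ⟨⟨_, ch_tw θ.2 s δ.symm⟩, by simp, ?_⟩⟩
    exact chi_map j h1 δ hδ (fun x => h2 _) (by simp)
  refine ⟨W, ⟨⟨fun e he => ?_, fun e he e' he' h => ?_, fun e he => ?_⟩, fun γ hγ e he => ?_⟩,
    fun e he => ?_⟩
  · obtain ⟨θ, rfl⟩ := ex e he
    rw [hW]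
    exact b2.mapsTo (Ω θ).2
  · obtain ⟨θ, rfl⟩ := ex e he
    obtain ⟨θ', rfl⟩ := ex e' he'
    rw [hW, hW] at h
    rw [Ω.injective (Subtype.ext (b2.injOn (Ω θ).2 (Ω θ').2 h))]
  · obtain ⟨φ, h1, h2⟩ := b2.surjOn he
    refine ⟨c1 (Ω.symm ⟨φ, h1⟩), b1.mapsTo (Ω.symm ⟨φ, h1⟩).2, ?_⟩
    rw [hW, Ω.apply_symm_apply]
    exact h2
  · obtain ⟨θ, rfl⟩ := ex e he
    obtain ⟨σ, hσ, h1⟩ := hγ.1.1
    obtain ⟨s, hs, h2⟩ := hj σ hσ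
    obtain ⟨δ, hδ, hN', h3⟩ := dat γ hγ σ s h1 h2
    obtain ⟨θ', h4, h5⟩ := h3 θ
    rw [h5, hW, hW]
    refine ⟨b1.mapsTo θ'.2, (chi_map j h1 (resA N δ hN') (fun x => hδ x) (fun x => h2 _)
      fun x => ?_).symm⟩
    refine hE δ⁻¹ (fun x => ?_) s hs θ θ' (fun x => ?_) _ _ ?_
    · have := (hst δ).1 hN' (δ⁻¹ x)
      rw [MulAut.apply_inv_self] at this
      exact this.symm
    · rw [← h4, MulAut.apply_inv_self]
    · simp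
  obtain ⟨θ, rfl⟩ := ex e he
  rw [hW]
  obtain ⟨-, -, -, hc, hfx, d, d', P, P', α, α', hA, hA', hα, hz, hm⟩ := hG θ
  replace hT := hT θ.1
  obtain ⟨n, hn, -⟩ := ch_iff.1 θ.2
  obtain ⟨n', hn', -⟩ := ch_iff.1 (Ω θ).2
  have S1 : Side F (gu F X) inl _ _ _ θ.1 P α :=
    ⟨gu_mul, gu_tg.ind, fun _ => Iff.rfl, le_top, fun _ => rfl, ⟨n, hn⟩, hA⟩
  have S2 : Side F (gs F N) (inl.comp N.subtype)
      (inl.range ⊓ Subgroup.closure {g | g.left ∈ N}) (Subgroup.closure {g | g.left ∈ N})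
      (fun g => Function.extend Subtype.val (Ω θ).1 0 g.left) (Ω θ).1 P' α' := by
    refine ⟨gs_mul N, gs_ind N, ?_, ?_, ?_, ⟨n', hn'⟩, hA'⟩
    · exact fun g => ⟨fun ⟨⟨x, e⟩, h⟩ => ⟨⟨x, by subst e; exact (hT _).1 h⟩, e⟩,
        fun ⟨x, e⟩ => ⟨⟨x, e⟩, by subst e; exact (hT _).2 x.2⟩⟩
    · exact inf_le_right
    · exact fun x => Subtype.val_injective.extend_apply _ _ x
  have dt : ∀ γ ∈ Γ ⊓ Fx (c1 θ), ∀ (σ : RingAut F) (s : Qbar ≃ₐ[ℚ] Qbar), s ∈ NSV.H p →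
      SL F σ γ → (∀ x, σ (j x) = j (s x)) → ∃ δ : Gam p Q θ.1,
      (∀ x, γ (gu F X x) = gu F X ((δ : MulAut X) x)) ∧
        ∀ x, θ.1 ((δ : MulAut X) x) = s (θ.1 x) := by
    intro γ hγ σ s hs h1 h2
    obtain ⟨δ, hδ, hN', h3⟩ := dat γ hγ.1 σ s h1 h2
    obtain ⟨θ', h4, h5⟩ := h3 θ
    obtain rfl : θ = θ' := i1 ((show γ (c1 θ) = c1 θ from hγ.2).symm.trans h5)
    exact ⟨⟨δ, (hst δ).1 hN', s, hs, h4⟩, hδ, h4⟩
  have mT : ∀ δ : Gam p Q θ.1, _ := fun δ => (hT (inr δ)).2 (one_mem N)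
  have f1 : ∀ δ : Gam p Q θ.1, (∀ x, θ.1 ((δ : MulAut X) x) = θ.1 x) → _ :=
    fun δ h => alt_fix (s := 1) δ h
  have f2 : ∀ δ : Gam p Q θ.1, (∀ x, θ.1 ((δ : MulAut X) x) = θ.1 x) → _ :=
    fun δ h => (hfx _ (mT δ) 1 (one_mem _)).1 (f1 δ h)
  have sN : ∀ (δ : Gam p Q θ.1) x, (δ : MulAut X) x ∈ N ↔ x ∈ N := fun δ => (hst δ).2 δ.2.1
  have uq : ∀ δ δ' : Gam p Q θ.1,
      (∀ x, gu F X ((δ : MulAut X) x) = gu F X ((δ' : MulAut X) x)) → δ = δ' := fun δ δ' h =>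
    Subtype.ext (MulEquiv.ext fun x => gu_tg.ind.injective (h x))
  refine ⟨fun a w w' => a ∈ Γ ⊓ Fx (c1 θ) ∧ Lin F a ∧ ∃ δ : Gam p Q θ.1,
    (∀ x, a (gu F X x) = gu F X ((δ : MulAut X) x)) ∧ (∀ x, θ.1 ((δ : MulAut X) x) = θ.1 x) ∧
    ∃ c : F, c ≠ 0 ∧ w = c • Ey j (gu F X) inl P (inr δ) ∧
      w' = c • Ey j (gs F N) (inl.comp N.subtype) P' (inr δ), ?_, ?_, ?_, ?_, ?_, ?_, ?_⟩
  · rintro a _ _ ⟨h1, h2, δ, h3, h4, c, h0, rfl, rfl⟩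
    refine ⟨h1, h2, S1.ln j trivial (f1 δ h4) h2 h3 (alt_comm δ) h0, ?_⟩
    rw [gs_hm]
    exact S2.ln j (mT δ) (f2 δ h4) h2 (δ := resA N δ (sN δ)) (fun x => h3 x)
      (fun x => alt_comm δ x) h0
  · intro a h1 h2
    obtain ⟨δ, h3, h4⟩ := dt a h1 1 1 (one_mem _) (lin_iff.1 h2) fun _ => rfl
    exact ⟨_, _, h1, h2, δ, h3, h4, 1, one_ne_zero, rfl, rfl⟩
  · rintro a _ _ b _ _ ⟨h1, h2, δ, h3, h4, c, h0, rfl, rfl⟩ ⟨k1, k2, ε, k3, k4, c', k0, rfl, rfl⟩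
    obtain ⟨m0, m1⟩ := S1.mul j trivial (f1 δ h4) trivial (f1 ε k4)
    obtain ⟨-, m2⟩ := S2.mul j (mT δ) (f2 δ h4) (mT ε) (f2 ε k4)
    rw [← hα _ (mT δ) _ (mT ε) (f1 δ h4) (f1 ε k4)] at m2
    refine ⟨mul_mem h1 k1, fun c x => (congrArg a (k2 c x)).trans (h2 c _), δ * ε,
      fun x => (congrArg a (k3 x)).trans (h3 _), fun x => (h4 _).trans (k4 x),
      c * c' * j (α (inr δ) (inr ε)), mul_ne_zero (mul_ne_zero h0 k0) m0, ?_, ?_⟩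
    · rw [smul_mul_smul_comm, m1, smul_smul, map_mul inr]
    · rw [smul_mul_smul_comm, m2, smul_smul, map_mul inr]
  · rintro a _ _ c' k0 ⟨h1, h2, δ, h3, h4, c, h0, rfl, rfl⟩
    exact ⟨h1, h2, δ, h3, h4, c' * c, mul_ne_zero k0 h0, smul_smul _ _ _, smul_smul _ _ _⟩
  · rintro a _ _ _ ⟨-, -, δ, h3, h4, c, -, rfl, rfl⟩ ⟨-, -, ε, k3, -, c', -, e, rfl⟩
    obtain rfl := uq δ ε fun x => (h3 x).symm.trans (k3 x)
    rw [smul_left_injective F (S1.ne j trivial (f1 δ h4)) e]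
  · rintro a h1 h2 _ ⟨c, h0, y, hy, rfl⟩ h
    obtain ⟨δ, h3, h4⟩ := dt a h1 1 1 (one_mem _) (lin_iff.1 h2) fun _ => rfl
    have e1 : ∀ x, y * x = (δ : MulAut X) x * y := fun x => by
      have := h _ (am_mem (gu F X) x)
      rw [h3, smul_mul_assoc, mul_smul_comm, gu_mul, gu_mul] at this
      exact (gu_inj h0 this).1
    have e2 : (inl y)⁻¹ * inr δ ∈ Subgroup.centralizer
        ((inl : X →* X ⋊[(Gam p Q θ.1).subtype] Gam p Q θ.1).range :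
          Set (X ⋊[(Gam p Q θ.1).subtype] Gam p Q θ.1)) := by
      rintro _ ⟨x, rfl⟩
      rw [mul_assoc, alt_comm, ← mul_assoc, ← mul_assoc, ← map_inv, ← map_mul, ← map_mul]
      congr 2
      rw [eq_inv_mul_iff_mul_eq, ← mul_assoc, e1, mul_inv_cancel_right]
    obtain ⟨ζ, z1, z2⟩ := hz _ e2
    have e3 := fix_cen (fun g => θ.1 g.left) e2
    obtain ⟨l0, l1⟩ := S1.loc j y trivial e3 z1
    obtain ⟨-, l2⟩ := S2.loc j ⟨y, hy⟩ (hc e2) ((hfx _ (hc e2) 1 (one_mem _)).1 e3) z2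
    rw [mul_inv_cancel_left] at l1
    have l3 : Ey j (gs F N) (inl.comp N.subtype) P' (inr δ) =
        j ζ • (gu F X y * chi j (gs F N) (Ω θ).1) := by
      rw [← mul_inv_cancel_left (inl y) (inr δ)]
      exact l2
    refine ⟨h1, h2, δ, h3, h4, c * (j ζ)⁻¹, mul_ne_zero h0 (inv_ne_zero l0), ?_, ?_⟩
    · rw [l1, smul_smul, inv_mul_cancel_right₀ l0, smul_mul_assoc]
    · rw [l3, smul_smul, inv_mul_cancel_right₀ l0, smul_mul_assoc]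
  · rintro γ hγ a _ _ ⟨h1, h2, δ, h3, h4, c, h0, rfl, rfl⟩
    obtain ⟨σ, hσ, k1⟩ := hγ.1.1.1
    obtain ⟨s, hs, k2⟩ := hj σ hσ
    obtain ⟨β, k3, k4⟩ := dt γ hγ σ s hs k1 k2
    have k5 : ∀ x, s (θ.1 (((β⁻¹ : Gam p Q θ.1) : MulAut X) x)) = θ.1 x := fun x => by
      rw [← k4]
      exact congrArg θ.1 (MulAut.apply_inv_self X _ x)
    obtain ⟨μ, μ', u1, u2, u3⟩ := hm _ (mT β⁻¹) s hs (alt_fix β⁻¹ k5)
    have k6 : ∀ x, θ.1 (((β * δ * β⁻¹ : Gam p Q θ.1) : MulAut X) x) = θ.1 x := fun x =>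
      (k4 _).trans ((congrArg s (h4 _)).trans (k5 x))
    have k7 : ∀ x, (inr β⁻¹ * inl ((β : MulAut X) x) * (inr β⁻¹)⁻¹ :
        X ⋊[(Gam p Q θ.1).subtype] Gam p Q θ.1) = inl x := fun x => by
      rw [alt_comm, mul_inv_cancel_right]
      exact congrArg inl (MulAut.inv_apply_self X _ x)
    have k8 : (inr β⁻¹ * inr (β * δ * β⁻¹) * (inr β⁻¹)⁻¹ :
        X ⋊[(Gam p Q θ.1).subtype] Gam p Q θ.1) = inr δ := by
      rw [← map_inv, ← map_mul, ← map_mul]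
      congr 1
      group
    have n1 := S1.nat j k2 k1 (β : MulAut X) k3 k7 u1 trivial (f1 _ k6)
    have n2 := S2.nat j k2 k1 (resA N β (sN β)) (fun x => k3 x) (fun x => k7 x) u2 (mT _) (f2 _ k6)
    rw [k8] at n1 n2
    rw [← u3 _ (mT _) (f1 _ k6)] at n2
    have n0 : j (μ (inr (β * δ * β⁻¹))) ≠ 0 := fun e => by
      rw [e, zero_smul, map_eq_zero_iff γ γ.injective] at n1
      exact S1.ne j trivial (f1 δ h4) n1
    refine ⟨mul_mem (mul_mem hγ h1) (inv_mem hγ), lin_conj k1 h2, β * δ * β⁻¹, fun x => ?_, k6,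
      σ c * j (μ (inr (β * δ * β⁻¹))), mul_ne_zero ((map_ne_zero σ).2 h0) n0, ?_, ?_⟩
    · have : γ.symm (gu F X x) = gu F X (((β⁻¹ : Gam p Q θ.1) : MulAut X) x) := by
        rw [RingEquiv.symm_apply_eq, k3]
        exact congrArg (gu F X) (MulAut.apply_inv_self X _ x).symm
      change γ (a (γ.symm (gu F X x))) = _
      rw [this, h3, k3]
      rfl
    · rw [k1, n1, smul_smul]
    · rw [k1, n2, smul_smul]

end Pool.Agent.Lib.MP_1ae3da_al.CT
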