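import Pool.Agent.Lib.MP_1ae3da_al.C.DA

/-! Reduction modulo `p`: existence of normalisations and reductions.
nrm: al^n = be x be y / be (x y), be x = prod_y al x y, n = card G, rescale by n-th roots (1 at 1).
red a = sum r (coefficient) v x. RD: B = subalgebra of End k (G -> k) spanned by the twisted
left multiplications. -/

namespace Pool.Agent.Lib.MP_1ae3da_al.CT

open Submodule

variable {p : ℕ} {F k A B G : Type} [Field F] [Field k] [Ring A] [Algebra F A] [Ring B]
  [Algebra k B] [Group G] [Fintype G] {O R : Subring F} {r : F → k}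
  {GG : Subgroup (RingAut F)} {u : G → A} {v : G → B} {red : A → B}

omit [Fintype G] in
theorem db_uniq (hu : TG F u) {x : G} {c d : F} (e : c • u x = d • u x) : c = d :=
  smul_left_injective F (hu.ind.ne_zero x) e

omit [Fintype G] in
theorem db_coc (hu : TG F u) {al : G → G → F} (ha : ∀ x y, u x * u y = al x y • u (x * y))
    (x y z : G) : al x y * al (x * y) z = al y z * al x (y * z) := by
  apply db_uniq hu (x := x * y * z)
  have h1 : u x * u y * u z = (al x y * al (x * y) z) • u (x * y * z) := by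
    rw [ha x y, smul_mul_assoc, ha, smul_smul]
  have h2 : u x * (u y * u z) = (al y z * al x (y * z)) • u (x * y * z) := by
    rw [ha y z, mul_smul_comm, ha, smul_smul, mul_assoc]
  rw [← h1, ← h2, mul_assoc]

omit [Fintype G] in
theorem db_one (hu : TG F u) {al : G → G → F} (ha : ∀ x y, u x * u y = al x y • u (x * y))
    (x : G) : al 1 x = 1 ∧ al x 1 = 1 := by
  constructor
  · apply db_uniq hu (x := x)
    have := ha 1 x
    rw [hu.one_mul, one_mul] at this
    rw [one_smul, ← this]
  · apply db_uniq hu (x := x)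
    have := ha x 1
    rw [hu.mul_one, mul_one] at this
    rw [one_smul, ← this]

theorem db_prod {al : G → G → F} (ha : ∀ x y, u x * u y = al x y • u (x * y)) (c d : G → F) :
    (∑ x, c x • u x) * (∑ y, d y • u y) =
      ∑ z, (∑ x, c x * d (x⁻¹ * z) * al x (x⁻¹ * z)) • u z := by
  simp_rw [Finset.sum_smul]
  rw [Finset.sum_comm, Finset.sum_mul]
  refine Finset.sum_congr rfl fun x _ => ?_
  rw [Finset.mul_sum, ← Equiv.sum_comp (Equiv.mulLeft x⁻¹)]
  refine Finset.sum_congr rfl fun z _ => ?_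
  simp only [Equiv.coe_mulLeft]
  rw [smul_mul_smul_comm, ha, smul_smul, mul_inv_cancel_left]

/-- twisted left multiplication. -/
def dbL (be : G → G → k) (x : G) : Module.End k (G → k) where
  toFun f z := be x (x⁻¹ * z) * f (x⁻¹ * z)
  map_add' f g := by funext z; simp [mul_add]
  map_smul' c f := by funext z; simp [mul_left_comm]

omit [Fintype G] in
theorem dbL_mul {be : G → G → k}
    (hb : ∀ x y z, be x y * be (x * y) z = be y z * be x (y * z)) (x y : G) :
    dbL be x * dbL be y = be x y • dbL be (x * y) := by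
  refine LinearMap.ext fun f => funext fun z => ?_
  change be x (x⁻¹ * z) * (be y (y⁻¹ * (x⁻¹ * z)) * f (y⁻¹ * (x⁻¹ * z))) =
    be x y * (be (x * y) ((x * y)⁻¹ * z) * f ((x * y)⁻¹ * z))
  have e : (x * y)⁻¹ * z = y⁻¹ * (x⁻¹ * z) := by group
  have := hb x y (y⁻¹ * (x⁻¹ * z))
  rw [mul_inv_cancel_left] at this
  rw [e, ← mul_assoc (be x y), this, ← mul_assoc (be x _), mul_comm (be x _)]

omit [Fintype G] in
theorem dbL_one {be : G → G → k} (h1 : ∀ x, be 1 x = 1) : dbL be 1 = 1 := by
  refine LinearMap.ext fun f => funext fun z => ?_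
  change be 1 (1⁻¹ * z) * f (1⁻¹ * z) = f z
  rw [h1, inv_one, one_mul, one_mul]

theorem dbL_ind {be : G → G → k} (h1 : ∀ x, be x 1 = 1) : LinearIndependent k (dbL be) := by
  classical
  refine LinearIndependent.of_comp (LinearMap.applyₗ (Pi.single (1 : G) (1 : k))) ?_
  have : (LinearMap.applyₗ (Pi.single (1 : G) (1 : k))) ∘ dbL be = Pi.basisFun k G := by
    funext x z
    change be x (x⁻¹ * z) * (Pi.single (1 : G) (1 : k) : G → k) (x⁻¹ * z) = Pi.basisFun k G x z
    rw [Pi.basisFun_apply]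
    by_cases hz : z = x
    · subst hz; simp [h1]
    · have : x⁻¹ * z ≠ 1 := fun e => hz (by rw [inv_mul_eq_one] at e; exact e.symm)
      rw [Pi.single_eq_of_ne this, Pi.single_eq_of_ne hz, mul_zero]
  rw [this]
  exact (Pi.basisFun k G).linearIndependent

theorem exists_nrm (h : PM p O R r GG) (hu : TG F u) (hG : ¬ p ∣ Nat.card G) :
    ∃ u' : G → A, TG F u' ∧ Nrm F p u' ∧ (∀ x, ∃ c : F, c ≠ 0 ∧ u' x = c • u x) ∧
      ∀ H : Subgroup G, Hm F u' H = Hm F u H := by
  classical
  have := h.algF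
  choose al ha0 ha using hu.mul
  have hn : 0 < Fintype.card G := Fintype.card_pos
  set be : G → F := fun x => ∏ z, al x z with hbe
  have hb0 : ∀ x, be x ≠ 0 := fun x => Finset.prod_ne_zero_iff.2 fun z _ => ha0 x z
  have hb1 : be 1 = 1 := Finset.prod_eq_one fun z _ => (db_one hu ha z).1
  have hb : ∀ x y, al x y ^ Fintype.card G * be (x * y) = be y * be x := by
    intro x y
    have e : ∏ z, al x (y * z) = be x := Equiv.prod_comp (Equiv.mulLeft y) (fun z => al x z)
    rw [← e, hbe]
    simp only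
    rw [← Finset.card_univ, ← Finset.prod_const, ← Finset.prod_mul_distrib,
      ← Finset.prod_mul_distrib]
    exact Finset.prod_congr rfl fun z _ => db_coc hu ha x y z
  have hd : ∀ x, ∃ d : F, d ^ Fintype.card G = be x ∧ (x = 1 → d = 1) := by
    intro x
    by_cases hx : x = 1
    · exact ⟨1, by rw [hx, hb1, one_pow], fun _ => rfl⟩
    · obtain ⟨d, hd⟩ := IsAlgClosed.exists_pow_nat_eq (be x) hn
      exact ⟨d, hd, fun e => (hx e).elim⟩
  choose de hde hde1 using hd
  have hd0 : ∀ x, de x ≠ 0 := fun x e => hb0 x (by rw [← hde, e, zero_pow hn.ne'])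
  have hm : ∀ x y, ((de x)⁻¹ • u x) * ((de y)⁻¹ • u y) =
      ((de x)⁻¹ * (de y)⁻¹ * al x y * de (x * y)) • (de (x * y))⁻¹ • u (x * y) := by
    intro x y
    rw [smul_mul_smul_comm, ha, smul_smul, smul_smul, mul_inv_cancel_right₀ (hd0 _)]
  refine ⟨fun x => (de x)⁻¹ • u x, ⟨fun x y => ⟨_, ?_, hm x y⟩, ?_, ?_⟩,
    fun x y => ⟨_, ⟨Fintype.card G, by rwa [← Nat.card_eq_fintype_card], ?_⟩, hm x y⟩,
    fun x => ⟨_, inv_ne_zero (hd0 x), rfl⟩, fun H => ?_⟩
  · exact mul_ne_zero (mul_ne_zero (mul_ne_zero (inv_ne_zero (hd0 x)) (inv_ne_zero (hd0 y)))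
      (ha0 x y)) (hd0 _)
  · exact hu.ind.units_smul fun x => Units.mk0 _ (inv_ne_zero (hd0 x))
  · simp only [hde1 1 rfl, inv_one, one_smul, hu.one]
  · rw [mul_assoc, mul_pow, mul_pow, mul_pow, inv_pow, inv_pow, hde, hde, hde, hb]
    have := hb0 x
    have := hb0 y
    field_simp
  · ext a
    constructor
    · rintro ⟨c, hc, x, hx, rfl⟩
      exact ⟨c * (de x)⁻¹, mul_ne_zero hc (inv_ne_zero (hd0 x)), x, hx, smul_smul _ _ _⟩
    · rintro ⟨c, hc, x, hx, rfl⟩
      refine ⟨c * de x, mul_ne_zero hc (hd0 x), x, hx, ?_⟩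
      rw [smul_smul, mul_inv_cancel_right₀ (hd0 x)]

theorem exists_red (h : PM p O R r GG) (hu : TG F u) (hn : Nrm F p u) (hG : ¬ p ∣ Nat.card G)
    (hv : LinearIndependent k v) (ht : span k (Set.range v) = ⊤)
    (hc : ∀ x y (c : F), u x * u y = c • u (x * y) → v x * v y = r c • v (x * y)) :
    ∃ red : A → B, RD p R r u v red := by
  classical
  have hn' := hn
  choose al hal ha using hn'
  have hinj : LinearMap.ker (Fintype.linearCombination F u) = ⊥ :=
    LinearMap.ker_eq_bot.2 hu.ind.fintypeLinearCombination_injective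
  obtain ⟨l, hl⟩ := LinearMap.exists_leftInverse_of_injective _ hinj
  have hl' : ∀ c : G → F, l (∑ x, c x • u x) = c := fun c => by
    have := LinearMap.congr_fun hl c
    rwa [LinearMap.comp_apply, Fintype.linearCombination_apply] at this
  refine ⟨fun a => ∑ x, r (l a x) • v x, hu, hn, hG,
    ⟨fun x y => ⟨_, h.r_ne (hal x y), hc x y _ (ha x y)⟩, hv, ?_⟩, ht,
    fun c _ => by simp only [hl'], ?_⟩
  · have := hc 1 1 1 (by rw [one_smul, mul_one, hu.one])
    rwa [h.one, one_smul, mul_one] at this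
  · rintro _ ⟨c, hcR, rfl⟩ _ ⟨d, hdR, rfl⟩
    simp only [db_prod ha, hl']
    rw [db_prod (al := fun x y => r (al x y)) fun x y => hc x y _ (ha x y)]
    refine Finset.sum_congr rfl fun z _ => ?_
    rw [h.r_sum _ _ fun x _ => mul_mem (mul_mem (hcR _) (hdR _)) (h.mupR (hal _ _))]
    congr 1
    refine Finset.sum_congr rfl fun x _ => ?_
    rw [h.mul _ (mul_mem (hcR _) (hdR _)) _ (h.mupR (hal _ _)), h.mul _ (hcR _) _ (hdR _)]

theorem exists_RD (h : PM p O R r GG) (hu : TG F u) (hn : Nrm F p u) (hG : ¬ p ∣ Nat.card G) :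
    ∃ (B : Type) (_ : Ring B) (_ : Algebra k B) (v : G → B) (red : A → B),
      RD p R r u v red := by
  classical
  have hn' := hn
  choose al hal ha using hn'
  have hb : ∀ x y z, r (al x y) * r (al (x * y) z) = r (al y z) * r (al x (y * z)) := by
    intro x y z
    rw [← h.mul _ (h.mupR (hal _ _)) _ (h.mupR (hal _ _)),
      ← h.mul _ (h.mupR (hal _ _)) _ (h.mupR (hal _ _)), db_coc hu ha]
  set be : G → G → k := fun x y => r (al x y) with hbe
  have h1 : ∀ x, be 1 x = 1 := fun x => by simp only [hbe, (db_one hu ha x).1, h.one]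
  have h2 : ∀ x, be x 1 = 1 := fun x => by simp only [hbe, (db_one hu ha x).2, h.one]
  have hone : (1 : Module.End k (G → k)) ∈ span k (Set.range (dbL be)) :=
    subset_span ⟨1, dbL_one h1⟩
  have hmul : ∀ a b : Module.End k (G → k), a ∈ span k (Set.range (dbL be)) →
      b ∈ span k (Set.range (dbL be)) → a * b ∈ span k (Set.range (dbL be)) := by
    intro a b ha' hb'
    obtain ⟨c, rfl⟩ := (mem_span_range_iff_exists_fun k).1 ha'
    obtain ⟨d, rfl⟩ := (mem_span_range_iff_exists_fun k).1 hb'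
    rw [db_prod (dbL_mul hb)]
    exact sum_mem fun z _ => smul_mem _ _ (subset_span ⟨z, rfl⟩)
  let S : Subalgebra k (Module.End k (G → k)) :=
    (span k (Set.range (dbL be))).toSubalgebra hone hmul
  let w : G → S := fun x => ⟨dbL be x, subset_span ⟨x, rfl⟩⟩
  refine ⟨S, inferInstance, inferInstance, w, exists_red h hu hn hG ?_ ?_ ?_⟩
  · exact LinearIndependent.of_comp S.val.toLinearMap (dbL_ind h2)
  · rw [eq_top_iff]
    rintro ⟨a, ha'⟩ -
    obtain ⟨c, rfl⟩ := (mem_span_range_iff_exists_fun k).1 ha'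
    refine (mem_span_range_iff_exists_fun k).2 ⟨c, Subtype.ext ?_⟩
    simp [w]
  · intro x y c e
    have : c = al x y := db_uniq hu (e.symm.trans (ha x y))
    rw [this]
    exact Subtype.ext (dbL_mul hb x y)

end Pool.Agent.Lib.MP_1ae3da_al.CT
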