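import Pool.Agent.Lib.MP_1ae3da_al.C.DG

/-! Reduction modulo `p`: links lift -/

namespace Pool.Agent.Lib.MP_1ae3da_al.CT

open Submodule

variable {p : ℕ} {F k A B G : Type} [Field F] [Field k] [Ring A] [Algebra F A] [Ring B]
  [Algebra k B] [Group G] [Fintype G] {O R : Subring F} {r : F → k}
  {GG : Subgroup (RingAut F)} {u : G → A} {v : G → B} {red : A → B}

/-- normalised implementers. -/
def DhN (F : Type) {A : Type} [Field F] [Ring A] [Algebra F A] (p : ℕ) (S : Set A) (e : A)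
    (a : RingAut A) (w : A) : Prop := w ∈ Ln F S e a ∧ Mup p (Nd F S e w)

theorem dh_u (h : PM p O R r GG) (hr : RD p R r u v red) {H : Subgroup G} {e : A}
    (he : e ∈ Irr F (Hm F u H)) {y : G} (hy : y ∈ H) : Mup p (Nd F (Hm F u H) e (u y * e)) := by
  have := h.algF
  have hS := nice_Hm hr.tg (hr.cardF h H)
  have hy' : u y ∈ span F (Hm F u H) := subset_span (u_mem_Hm hy)
  have h1 : ∀ n : ℕ, u y ^ (n + 1) ∈ span F (Hm F u H) ∧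
      Nd F (Hm F u H) e (u y ^ (n + 1)) = Nd F (Hm F u H) e (u y) ^ (n + 1) := by
    intro n
    induction n with
    | zero => simpa using hy'
    | succ n ih =>
      rw [pow_succ (u y) (n + 1)]
      exact ⟨span_mul hr.tg ih.1 hy', by rw [Nd_mul hS he ih.1 hy', ih.2, ← pow_succ]⟩
  obtain ⟨N, hN, h2⟩ := hr.u_pow h
  obtain ⟨n, rfl⟩ := Nat.exists_eq_succ_of_ne_zero (fun h0 : N = 0 => hN (h0 ▸ dvd_zero p))
  refine ⟨n + 1, hN, ?_⟩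
  rw [Nd_mul_e hS he hy', ← (h1 n).2, h2,
    ← Nd_mul_e hS he (subset_span (u_mem_Hm H.one_mem)), (one_span hr.tg he.1.1).1, Nd_self hS he]

theorem dh_smul (h : PM p O R r GG) (hr : RD p R r u v red) {H : Subgroup G} {e w : A}
    {a : RingAut A} (he : e ∈ Irr F (Hm F u H)) (hw : DhN F p (Hm F u H) e a w) {c : F}
    (hc : Mup p c) : DhN F p (Hm F u H) e a (c • w) := by
  have := h.algF
  refine ⟨Ln_smul hw.1 hc.ne, ?_⟩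
  rw [Nd_smul (nice_Hm hr.tg (hr.cardF h H)) he]
  exact (hc.pow _).mul h.prime hw.2

theorem dh_ratio (h : PM p O R r GG) (hr : RD p R r u v red) {H : Subgroup G} {e w : A}
    {a : RingAut A} (he : e ∈ Irr F (Hm F u H)) (hw : DhN F p (Hm F u H) e a w) {c : F}
    (hc : DhN F p (Hm F u H) e a (c • w)) : Mup p c := by
  have := h.algF
  have hS := nice_Hm hr.tg (hr.cardF h H)
  have h1 := hc.2.mul h.prime hw.2.inv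
  rw [Nd_smul hS he, mul_assoc, mul_inv_cancel₀ hw.2.ne, mul_one] at h1
  refine Mup.of_pow h.prime (fun h2 => hr.not_dvd h he ?_) h1
  rw [(Dg_sq hS he).1]
  exact h2.trans (dvd_pow_self _ two_ne_zero)

theorem dh_mul (h : PM p O R r GG) (hr : RD p R r u v red) {H : Subgroup G} {e w w' : A}
    {a b : RingAut A} (he : e ∈ Irr F (Hm F u H)) (ha : Lin F a) (h1 : a ∈ Stb (Hm F u H))
    (h2 : b ∈ Stb (Hm F u H)) (hw : DhN F p (Hm F u H) e a w) (hw' : DhN F p (Hm F u H) e b w') :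
    DhN F p (Hm F u H) e (a * b) (w * w') := by
  have := h.algF
  have hS := nice_Hm hr.tg (hr.cardF h H)
  refine ⟨Ln_mul hS he ha h1 h2 hw.1 hw'.1, ?_⟩
  rw [Nd_mul hS he hw.1.1 hw'.1.1]
  exact hw.2.mul h.prime hw'.2

theorem dh_nat (h : PM p O R r GG) (hr : RD p R r u v red) {H : Subgroup G} {e w : A}
    {a γ : RingAut A} (he : e ∈ Irr F (Hm F u H)) (h1 : γ ∈ SG GG A) (h2 : γ ∈ Stb (Hm F u H))
    (h3 : γ e = e) (hw : DhN F p (Hm F u H) e a w) :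
    DhN F p (Hm F u H) e (γ * a * γ⁻¹) (γ w) := by
  have := h.algF
  have hS := nice_Hm hr.tg (hr.cardF h H)
  refine ⟨by have := ln_stb h1 h2 hw.1; rwa [h3] at this, ?_⟩
  obtain ⟨σ, -, h4⟩ := h1
  have h5 := Nd_nat hS he h4 hw.1.1
  rw [stb_image.1 h2, h3] at h5
  obtain ⟨n, hn, h6⟩ := hw.2
  exact ⟨n, hn, by rw [h5, ← map_pow, h6, map_one]⟩

theorem dh_link (h : PM p O R r GG) (hr : RD p R r u v red) {H M : Subgroup G} (hM : M ≤ H)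
    {Γ : Subgroup (RingAut A)}
    (hΓ : Γ ≤ SG GG A ⊓ Stb (Hm F u ⊤) ⊓ Stb (Hm F u H) ⊓ Stb (Hm F u M))
    {Δ : Subgroup (RingAut B)} (hΔ : ∀ γ ∈ Γ, ∀ δ, Bar R u red γ δ → δ ∈ Δ) {e e' : A}
    (he : e ∈ Irr F (Hm F u H)) (he' : e' ∈ Irr F (Hm F u M)) (hf : ∀ γ ∈ Γ, γ e = e ∧ γ e' = e')
    {V : RingAut B → B → B → Prop} (hV : Link k Δ (Hm k v H) (Hm k v M) (red e) (red e') V) :
    ∃ U, Link F Γ (Hm F u H) (Hm F u M) e e' U := by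
  have := h.algF
  have hu := hr.tg
  have g1 : ∀ γ ∈ Γ, γ ∈ SG GG A := fun γ hγ => (hΓ hγ).1.1.1
  have g2 : ∀ γ ∈ Γ, γ ∈ Stb (Hm F u ⊤) := fun γ hγ => (hΓ hγ).1.1.2
  have g3 : ∀ γ ∈ Γ, γ ∈ Stb (Hm F u H) := fun γ hγ => (hΓ hγ).1.2
  have g4 : ∀ γ ∈ Γ, γ ∈ Stb (Hm F u M) := fun γ hγ => (hΓ hγ).2
  have hb : ∀ γ ∈ Γ, ∃ δ, Bar R u red γ δ := fun γ hγ =>
    (hr.exists_bar h (g1 γ hγ) (g2 γ hγ)).imp fun _ h1 => h1.1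
  have l1 : ∀ {a w}, a ∈ Γ → Lin F a → DhN F p (Hm F u H) e a w → w ∈ Lam R u :=
    fun ha hl hw => hr.ln_lam h he hl (g3 _ ha) hw.1 hw.2
  have l2 : ∀ {a w}, a ∈ Γ → Lin F a → DhN F p (Hm F u M) e' a w → w ∈ Lam R u :=
    fun ha hl hw => hr.ln_lam h he' hl (g4 _ ha) hw.1 hw.2
  have b1 := fun a (ha : a ∈ Γ) (hl : Lin F a) δ (hδ : Bar R u red a δ) =>
    hr.ln_bij h he hl (g3 a ha) (hf a ha).1 hδ ((hr.bar_stb h hδ (g1 a ha) (g2 a ha)).2 _ (g3 a ha))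
  have b2 := fun a (ha : a ∈ Γ) (hl : Lin F a) δ (hδ : Bar R u red a δ) =>
    hr.ln_bij h he' hl (g4 a ha) (hf a ha).2 hδ
      ((hr.bar_stb h hδ (g1 a ha) (g2 a ha)).2 _ (g4 a ha))
  refine ⟨fun a w w' => a ∈ Γ ∧ Lin F a ∧ ∃ c : F, c ≠ 0 ∧ ∃ δ, Bar R u red a δ ∧
    DhN F p (Hm F u H) e a (c • w) ∧ DhN F p (Hm F u M) e' a (c • w') ∧
    V δ (red (c • w)) (red (c • w')), ?_, ?_, ?_, ?_, ?_, ?_, ?_⟩
  · rintro a w w' ⟨ha, hl, c, hc, δ, -, h1, h2, -⟩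
    have h3 := Ln_smul h1.1 (inv_ne_zero hc)
    have h4 := Ln_smul h2.1 (inv_ne_zero hc)
    rw [inv_smul_smul₀ hc] at h3 h4
    exact ⟨ha, hl, h3, h4⟩
  · intro a ha hl
    obtain ⟨δ, hδ⟩ := hb a ha
    obtain ⟨x, x', h1⟩ := hV.tot δ (hΔ a ha δ hδ) (hr.bar_lin h hδ hl)
    obtain ⟨-, -, h2, h3⟩ := hV.int _ _ _ h1
    obtain ⟨w, h4, rfl⟩ := (b1 a ha hl δ hδ).surjOn h2
    obtain ⟨w', h5, rfl⟩ := (b2 a ha hl δ hδ).surjOn h3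
    exact ⟨w, w', ha, hl, 1, one_ne_zero, δ, hδ, by rwa [one_smul], by rwa [one_smul],
      by rwa [one_smul, one_smul]⟩
  · rintro a w w' b x x' ⟨ha, hl, c, hc, δ, hδ, h1, h2, h3⟩ ⟨hb', hl', d, hd, ε, hε, h4, h5, h6⟩
    refine ⟨Γ.mul_mem ha hb', hl.mul hl', c * d, mul_ne_zero hc hd, δ * ε, hδ.mul hε, ?_, ?_, ?_⟩
    · rw [← smul_mul_smul_comm]; exact dh_mul h hr he hl (g3 a ha) (g3 b hb') h1 h4
    · rw [← smul_mul_smul_comm]; exact dh_mul h hr he' hl (g4 a ha) (g4 b hb') h2 h5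
    · rw [← smul_mul_smul_comm, ← smul_mul_smul_comm, hr.mul _ (l1 ha hl h1) _ (l1 hb' hl' h4),
        hr.mul _ (l2 ha hl h2) _ (l2 hb' hl' h5)]
      exact hV.mul _ _ _ _ _ _ h3 h6
  · rintro a w w' d hd ⟨ha, hl, c, hc, δ, hδ, h1⟩
    refine ⟨ha, hl, c * d⁻¹, mul_ne_zero hc (inv_ne_zero hd), δ, hδ, ?_⟩
    rwa [mul_smul, mul_smul, inv_smul_smul₀ hd, inv_smul_smul₀ hd]
  · rintro a w w₁ w₂ ⟨ha, hl, c, hc, δ, hδ, h1, h2, h3⟩ ⟨-, -, d, hd, ε, hε, h4, h5, h6⟩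
    obtain rfl : δ = ε := hr.bar_unique h hδ hε fun _ _ => rfl
    have h7 : ∀ x : A, (c * d⁻¹) • d • x = c • x := fun x => by
      rw [mul_smul, inv_smul_smul₀ hd]
    have h8 : Mup p (c * d⁻¹) := dh_ratio h hr he h4 (by rwa [h7])
    have h9 := hV.smul _ _ _ _ (h.r_ne h8) h6
    rw [← hr.red_smul h (h.mupR h8) (l1 ha hl h4), ← hr.red_smul h (h.mupR h8) (l2 ha hl h5),
      h7, h7] at h9
    have h10 := dh_smul h hr he' h5 h8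
    rw [h7] at h10
    exact smul_right_injective A hc ((b2 a ha hl δ hδ).injOn h2 h10 (hV.fn _ _ _ _ h3 h9))
  · rintro a ha hl _ ⟨c, hc, y, hy, rfl⟩ hm
    obtain ⟨δ, hδ⟩ := hb a ha
    have h1 : ∀ x ∈ Hm F u H, u y * x = a x * u y := fun x hx =>
      smul_right_injective A hc (by simpa only [smul_mul_assoc, mul_smul_comm] using hm x hx)
    refine ⟨ha, hl, c⁻¹, inv_ne_zero hc, δ, hδ, ?_⟩
    rw [smul_mul_assoc, smul_mul_assoc, inv_smul_smul₀ hc, inv_smul_smul₀ hc]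
    refine ⟨⟨Ln_hm (nice_Hm hu (hr.cardF h H)) he (u_mem_Hm (hM hy)) h1, dh_u h hr he (hM hy)⟩,
      ⟨Ln_hm (nice_Hm hu (hr.cardF h M)) he' (u_mem_Hm hy) fun x hx => h1 x (Hm_mono hM hx),
        dh_u h hr he' hy⟩, ?_⟩
    rw [hr.mul _ (lam_u y) _ (hr.irr_lam h he.1 he.2.1),
      hr.mul _ (lam_u y) _ (hr.irr_lam h he'.1 he'.2.1), hr.red_u h]
    refine hV.loc δ (hΔ a ha δ hδ) (hr.bar_lin h hδ hl) _ (u_mem_Hm hy) ?_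
    rintro _ ⟨d, -, x, hx, rfl⟩
    have h2 := congrArg red (h1 _ (u_mem_Hm hx))
    rw [hr.mul _ (lam_u y) _ (lam_u x), hr.mul _ (hδ _ (lam_u x)).1 _ (lam_u y),
      (hδ _ (lam_u x)).2, hr.red_u h, hr.red_u h] at h2
    rw [hr.bar_lin h hδ hl, mul_smul_comm, smul_mul_assoc, h2]
  · rintro γ hγ a w w' ⟨ha, hl, c, hc, δ, hδ, h1, h2, h3⟩
    obtain ⟨ε, hε⟩ := hb γ hγ
    obtain ⟨σ, -, hσ⟩ := g1 γ hγ
    refine ⟨Γ.mul_mem (Γ.mul_mem hγ ha) (Γ.inv_mem hγ), hσ.lin hl, σ c,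
      (map_ne_zero σ).2 hc, ε * δ * ε⁻¹,
      (hε.mul hδ).mul (hr.bar_inv h (g1 γ hγ) (g2 γ hγ) hε), ?_⟩
    rw [← hσ, ← hσ, (hε _ (l1 ha hl h1)).2, (hε _ (l2 ha hl h2)).2]
    exact ⟨dh_nat h hr he (g1 γ hγ) (g3 γ hγ) (hf γ hγ).1 h1,
      dh_nat h hr he' (g1 γ hγ) (g4 γ hγ) (hf γ hγ).2 h2, hV.nat ε (hΔ γ hγ ε hε) _ _ _ h3⟩

theorem RD.lk_lift (h : PM p O R r GG) (hr : RD p R r u v red) {H M : Subgroup G} (hM : M ≤ H)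
    {Γ : Subgroup (RingAut A)}
    (hΓ : Γ ≤ SG GG A ⊓ Stb (Hm F u ⊤) ⊓ Stb (Hm F u H) ⊓ Stb (Hm F u M))
    {Δ : Subgroup (RingAut B)} (hΔ : ∀ γ ∈ Γ, ∀ δ, Bar R u red γ δ → δ ∈ Δ) {X Y : Set A}
    (hX : X ⊆ Irr F (Hm F u H)) (hY : Y ⊆ Irr F (Hm F u M))
    (hk : LK k Δ (Hm k v H) (Hm k v M) (red '' X) (red '' Y)) :
    LK F Γ (Hm F u H) (Hm F u M) X Y := by
  classical
  obtain ⟨Ω, ⟨hb, he⟩, hl⟩ := hk
  have i1 := (hr.irr_bij h H).injOn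
  have i2 := (hr.irr_bij h M).injOn
  have hex : ∀ e, ∃ e', e ∈ X → e' ∈ Y ∧ red e' = Ω (red e) := fun e => by
    by_cases hx : e ∈ X
    · obtain ⟨e', h1, h2⟩ := hb.mapsTo ⟨e, hx, rfl⟩
      exact ⟨e', fun _ => ⟨h1, h2⟩⟩
    · exact ⟨e, fun h1 => absurd h1 hx⟩
  choose f hf using hex
  have lam : ∀ {K : Subgroup G} {e}, e ∈ Irr F (Hm F u K) → e ∈ Lam R u :=
    fun he => hr.irr_lam h he.1 he.2.1
  have heq : ∀ γ ∈ Γ, ∀ x ∈ X, γ x ∈ X ∧ f (γ x) = γ (f x) := by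
    intro γ hγ x hx
    obtain ⟨⟨⟨g1, g2⟩, g3⟩, g4⟩ := hΓ hγ
    obtain ⟨δ, hδ, -⟩ := hr.exists_bar h g1 g2
    obtain ⟨⟨y, hy, h1⟩, h2⟩ := he δ (hΔ γ hγ δ hδ) _ ⟨x, hx, rfl⟩
    rw [← (hδ _ (lam (hX hx))).2] at h1 h2
    have h3 : γ x ∈ X := i1 (hX hy) ((irr_stb g1 g3).2 (hX hx)) h1 ▸ hy
    refine ⟨h3, i2 (hY (hf _ h3).1) ((irr_stb g1 g4).2 (hY (hf _ hx).1)) ?_⟩
    rw [(hf _ h3).2, h2, (hδ _ (lam (hY (hf _ hx).1))).2, (hf _ hx).2]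
  refine ⟨f, ⟨⟨fun e hx => (hf e hx).1, fun x hx y hy hxy => ?_, fun y hy => ?_⟩, heq⟩,
    fun e hx => ?_⟩
  · refine i1 (hX hx) (hX hy) (hb.injOn ⟨x, hx, rfl⟩ ⟨y, hy, rfl⟩ ?_)
    rw [← (hf x hx).2, hxy, (hf y hy).2]
  · obtain ⟨_, ⟨x, hx, rfl⟩, h1⟩ := hb.surjOn ⟨y, hy, rfl⟩
    exact ⟨x, hx, i2 (hY (hf x hx).1) (hY hy) ((hf x hx).2.trans h1)⟩
  · obtain ⟨V, hV⟩ := hl _ ⟨e, hx, rfl⟩
    rw [← (hf e hx).2] at hV
    refine dh_link (Γ := Γ ⊓ Fx e) (Δ := Δ ⊓ Fx (red e)) h hr hM (inf_le_left.trans hΓ)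
      (fun γ hγ δ hδ => ⟨hΔ γ hγ.1 δ hδ, ?_⟩) (hX hx)
      (hY (hf e hx).1) (fun γ hγ => ⟨hγ.2, ?_⟩) hV
    · show δ (red e) = red e
      rw [← (hδ _ (lam (hX hx))).2, show γ e = e from hγ.2]
    · rw [← (heq γ hγ.1 e hx).2, show γ e = e from hγ.2]

end Pool.Agent.Lib.MP_1ae3da_al.CT
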