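import Pool.Agent.Lib.MP_1ae3da_al.C.BLk
import Pool.Agent.Lib.MP_1ae3da_al.C.DB
import Pool.Agent.Lib.MP_1ae3da_al.C.DH

/-! The Glauberman correspondence with links. -/

namespace Pool.Agent.Lib.MP_1ae3da_al.CT

open Submodule

variable {p : ℕ} {F k A : Type} [Field F] [Field k] [Ring A] [Algebra F A] {O R : Subring F}
  {r : F → k} {GG : Subgroup (RingAut F)}

section
variable {G : Type} [Group G] {u : G → A}

theorem b1_mul (hu : TG F u) {x y : G} {a b : RingAut A} (ha : IsAd F u x a)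
    (hb : IsAd F u y b) : IsAd F u (x * y) (a * b) := by
  refine ⟨ha.1.mul hb.1, mul_mem ha.2.1 hb.2.1, fun w hw => ?_⟩
  obtain ⟨c, c0, hc⟩ := hu.mul x y
  have m := (span_stb (GG := ⊤) hb.1.mem_SG hb.2.1).2 hw
  refine smul_right_injective A c0 ?_
  change c • (u (x * y) * w) = c • (a (b w) * u (x * y))
  rw [← smul_mul_assoc, ← mul_smul_comm, ← hc, mul_assoc, hb.2.2 w hw, ← mul_assoc, ha.2.2 _ m,
    mul_assoc]

theorem b1_eq (hu : TG F u) {x : G} {a b : RingAut A} (ha : IsAd F u x a) (hb : IsAd F u x b)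
    {w : A} (hw : w ∈ span F (Hm F u ⊤)) : a w = b w :=
  (ha.eq_iff hu hw (hu.span_mul_one ((span_stb (GG := ⊤) hb.1.mem_SG hb.2.1).2 hw))).2
    (hb.2.2 w hw)

theorem b1_conj {σ : RingAut F} {γ a : RingAut A} (hs : SL F σ γ) (hγ : γ ∈ Stb (Hm F u ⊤))
    {φ : MulAut G} (hφ : Ind F u γ φ) {x : G} (ha : IsAd F u x a) :
    IsAd F u (φ x) (γ * a * γ⁻¹) := by
  refine ⟨hs.lin ha.1, mul_mem (mul_mem hγ ha.2.1) (inv_mem hγ), fun w hw => ?_⟩
  obtain ⟨c, c0, hc⟩ := hφ x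
  obtain ⟨w, rfl⟩ := γ.surjective w
  have m := (span_stb (GG := ⊤) ⟨σ, Subgroup.mem_top _, hs⟩ hγ).1 hw
  have e : (γ * a * γ⁻¹) (γ w) = γ (a w) := congrArg (fun t => γ (a t)) (γ.symm_apply_apply w)
  refine smul_right_injective A c0 ?_
  change c • (u (φ x) * γ w) = c • ((γ * a * γ⁻¹) (γ w) * u (φ x))
  rw [← smul_mul_assoc, ← mul_smul_comm, ← hc, e, ← map_mul, ← map_mul, ha.2.2 w m]

end

theorem b1 (h : PM p O R r GG) {G : Type} [Group G] [Finite G] {u : G → A} (hu : TG F u)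
    (L E : Subgroup G) [L.Normal] (hL : ¬ p ∣ Nat.card L) (hE : ∀ x ∈ E, x ^ p = 1)
    (hc : ∀ x ∈ E, ∀ y ∈ E, x * y = y * x) :
    LK F (SG GG A ⊓ Stb (Hm F u ⊤) ⊓ Stb (Hm F u L) ⊓ Stb (Hm F u E)) (Hm F u L)
      (Hm F u (L ⊓ Subgroup.centralizer (E : Set G)))
      {e | e ∈ IrrP F p (Hm F u L) ∧ E ≤ St u e}
      (IrrP F p (Hm F u (L ⊓ Subgroup.centralizer (E : Set G)))) := by
  classical
  let _ := Fintype.ofFinite L
  obtain ⟨u', hu', hn, hcu, hH⟩ := exists_nrm h (hu.sub L) hL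
  obtain ⟨B, _, _, v, red, hr⟩ := exists_RD h hu' hn hL
  have e1 : Hm F u L = Hm F u' ⊤ := by rw [hH, Hm_sub_top]
  have e2 : Hm F u (L ⊓ Subgroup.centralizer (E : Set G)) =
      Hm F u' ((Subgroup.centralizer (E : Set G)).subgroupOf L) := by
    rw [hH, Hm_subgroupOf, inf_comm]
  have sp : ∀ {w}, w ∈ span F (Hm F u' ⊤) → w ∈ span F (Hm F u ⊤) := fun hw =>
    span_Hm_mono (H := L) le_top (by rwa [e1])
  have st : ∀ {x a}, IsAd F u x a → a ∈ Stb (Hm F u' ⊤) := fun ha => e1 ▸ ha.stb_normal hu L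
  choose ad had using exists_ad hu
  choose θ0 hθ0 using fun x => hr.exists_bar_lin h (had x).1 (st (had x))
  have un : ∀ {x a δ}, IsAd F u x a → Bar R u' red a δ → θ0 x = δ := fun ha hb =>
    hr.bar_unique h (hθ0 _) hb fun w hw => b1_eq hu (had _) ha (sp (lam_span hw))
  let θ : G →* RingAut B :=
    MonoidHom.mk' θ0 fun x y => un (b1_mul hu (had x) (had y)) ((hθ0 x).mul (hθ0 y))
  have hθ : ∀ x, Bar R u' red (ad x) (θ x) := hθ0
  have ca : CA k p v (E.map θ) ((Subgroup.centralizer (E : Set G)).subgroupOf L) :=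
    { prime := h.prime
      char := h.chark
      alg := h.algk
      finL := inferInstance
      finE := Finite.of_surjective _ (θ.subgroupMap_surjective E)
      tg := hr.tgk
      top := hr.top
      cop := hL
      lin := by
        rintro _ ⟨x, -, rfl⟩
        exact hr.bar_lin h (hθ x) (had x).1
      stb := by
        rintro _ ⟨x, -, rfl⟩
        exact (hr.bar_stb h (hθ x) (had x).1.mem_SG (st (had x))).2 ⊤ (st (had x))
      pw := by
        rintro _ ⟨x, hx, rfl⟩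
        rw [← map_pow, hE x hx, map_one]
      com := by
        rintro _ ⟨x, hx, rfl⟩ _ ⟨y, hy, rfl⟩
        rw [← map_mul, hc x hx y hy, map_mul]
      fix := fun x => by
        obtain ⟨c, c0, hx⟩ := hcu x
        have key : ∀ y, θ y (v x) = red (ad y (u' x)) := fun y => by
          rw [((hθ y) _ (lam_u x)).2, hr.red_u h]
        refine ⟨?_, fun H y hy => ?_⟩
        · rintro hm _ ⟨y, hy, rfl⟩
          have co : (orderOf y).Coprime (orderOf (x : G)) :=
            Nat.Coprime.coprime_dvd_left (orderOf_dvd_of_pow_eq_one (hE y hy))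
              (((Nat.Prime.coprime_iff_not_dvd h.prime).2 hL).coprime_dvd_right
                (by rw [Subgroup.orderOf_coe]; exact orderOf_dvd_natCard x))
          have f : ad y (u x) = u x :=
            ((had y).fix hu (subset_span (mem_Hm (Subgroup.mem_top _)))).2
              (comm_of_coprime hu (hm y hy) co)
          rw [key, hx, (had y).1, Function.comp, Subgroup.coe_subtype, f, ← hr.red_u h, hx]
          rfl
        · obtain ⟨-, N, hN, H2⟩ := hr.stb_mup h (st (had y))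
          obtain ⟨z, -, d, hd, hz⟩ := H2 x (Subgroup.mem_top _)
          have md : Mup p d := ⟨N, hN, hd⟩
          have a := H _ ⟨y, hy, rfl⟩
          rw [key, hz, hr.red_smul h (h.mupR md) (lam_u z), hr.red_u h, ← one_smul k (v x)] at a
          obtain rfl := (hr.tgk.eq_of (h.r_ne md) a).1
          obtain ⟨c', c0', hc'⟩ := (had y).conj hu z
          rw [hx, (had y).1, Function.comp, Subgroup.coe_subtype, hc', smul_smul, smul_smul] at hz
          have := (hu.eq_of (mul_ne_zero c0 c0') hz).1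
          rw [MulAut.conj_apply, mul_inv_eq_iff_eq_mul] at this
          exact this }
  have lk := b1k ca
  rw [e2, e1]
  refine hr.lk_lift h le_top ?_ (Δ := SG (⊤ : Subgroup (RingAut k)) B ⊓ Stb (Hm k v ⊤) ⊓
    Subgroup.normalizer (E.map θ : Set (RingAut B))) ?_ (fun e he => he.1.1) (fun e he => he.1) ?_
  · rintro γ ⟨⟨⟨g1, g2⟩, g3⟩, g4⟩
    obtain ⟨σ, -, hs⟩ := id g1
    exact ⟨⟨⟨g1, g3⟩, g3⟩, e2 ▸ hu.stb_inf (e1 ▸ g3) (hu.stb_centralizer hs g2 g4)⟩
  · rintro γ ⟨⟨⟨g1, g2⟩, g3⟩, g4⟩ δ hδ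
    obtain ⟨σ, -, hs⟩ := id g1
    obtain ⟨φ, hφ⟩ := exists_ind hu hs g2
    have c : ∀ x, θ (φ x) = δ * θ x * δ⁻¹ := fun x =>
      un (b1_conj hs g2 hφ (had x)) ((hδ.mul (hθ x)).mul (hr.bar_inv h g1 g3 hδ))
    refine ⟨⟨(hr.bar_stb h hδ g1 g3).1, (hr.bar_stb h hδ g1 g3).2 ⊤ g3⟩, fun g => ⟨?_, ?_⟩⟩
    · rintro ⟨x, hx, rfl⟩
      exact ⟨φ x, (hφ.of_stb hu g4 x).2 hx, c x⟩
    · rintro ⟨x, hx, e⟩
      obtain ⟨x, rfl⟩ := φ.surjective x
      rw [c, mul_left_inj, mul_right_inj] at e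
      exact ⟨x, (hφ.of_stb hu g4 x).1 hx, e⟩
  · have bij := hr.irr_bij h
    have x1 : red '' {e | e ∈ IrrP F p (Hm F u' ⊤) ∧ E ≤ St u e} =
        {e | e ∈ Irr k (Hm k v ⊤) ∧ ∀ g ∈ E.map θ, g e = e} := by
      ext e'
      constructor
      · rintro ⟨e, ⟨he, hs⟩, rfl⟩
        refine ⟨(bij ⊤).mapsTo he.1, ?_⟩
        rintro _ ⟨y, hy, rfl⟩
        rw [← ((hθ y) _ (hr.irr_lam h he.1.1 he.1.2.1)).2,
          mem_Fx.1 (((had y).fx_iff hu (sp he.1.1.1)).2 (hs hy))]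
      · rintro ⟨he', hs⟩
        obtain ⟨e, he, rfl⟩ := (bij ⊤).surjOn he'
        refine ⟨e, ⟨⟨he, hr.not_dvd h he⟩, fun y hy => ((had y).fx_iff hu (sp he.1.1)).1 ?_⟩, rfl⟩
        exact (bij ⊤).injOn ((irr_stb (GG := ⊤) (had y).1.mem_SG (st (had y))).2 he) he
          (((hθ y) _ (hr.irr_lam h he.1 he.2.1)).2.trans (hs _ ⟨y, hy, rfl⟩))
    have x2 : ∀ M : Subgroup L, red '' IrrP F p (Hm F u' M) = Irr k (Hm k v M) := fun M => by
      rw [← (bij M).image_eq]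
      congr 1
      exact Set.ext fun e => ⟨fun he => he.1, fun he => ⟨he, hr.not_dvd h he⟩⟩
    rw [x1, x2]
    exact lk

end Pool.Agent.Lib.MP_1ae3da_al.CT
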