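import Pool.Agent.Lib.MP_1ae3da_al.C.TTr

/-! An equivariant family of bijections and links for the components. -/

namespace Pool.Agent.Lib.MP_1ae3da_al.CT.Q

open Submodule

/-- equivariant choice. -/
theorem q_eqv {Γ X S : Type} [Group Γ] [MulAction Γ X] [MulAction Γ S] (P : X → S → Prop)
    (hP : ∀ (g : Γ) x s, P x s → P (g • x) (g • s))
    (h : ∀ x, ∃ s, P x s ∧ ∀ g : Γ, g • x = x → g • s = s) :
    ∃ f : X → S, (∀ x, P x (f x)) ∧ ∀ (g : Γ) x, f (g • x) = g • f x := by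
  choose s hs hf using h
  let r : X → X := fun x => (Quotient.mk (MulAction.orbitRel Γ X) x).out
  have hr : ∀ x, ∃ t : Γ, t • r x = x := fun x =>
    (MulAction.orbitRel Γ X).symm (Quotient.mk_out (s := MulAction.orbitRel Γ X) x)
  choose t ht using hr
  refine ⟨fun x => t x • s (r x), fun x => ?_, fun g x => ?_⟩
  · have := hP (t x) _ _ (hs (r x))
    rwa [ht] at this
  · have e : r (g • x) = r x :=
      congrArg Quotient.out (Quotient.sound (s := MulAction.orbitRel Γ X) ⟨g, rfl⟩)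
    have k := hf (r x) ((t (g • x))⁻¹ * g * t x) (by
      rw [mul_smul, mul_smul, ht, inv_smul_eq_iff, ← e, ht])
    rw [mul_smul, mul_smul, inv_smul_eq_iff] at k
    simp only [e, k]

variable {F A I : Type} [Field F] [Ring A] [Algebra F A]

theorem q_link_mono {Γ Δ : Subgroup (RingAut A)} (h : Δ ≤ Γ) {L M : Set A} {e e' : A}
    {U : RingAut A → A → A → Prop} (hU : Link F Γ L M e e' U) :
    Link F Δ L M e e' fun a w w' => a ∈ Δ ∧ U a w w' where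
  int a w w' k := ⟨k.1, (hU.int a w w' k.2).2⟩
  tot a ha l := (hU.tot a (h ha) l).imp fun _ k => k.imp fun _ k => ⟨ha, k⟩
  mul _ _ _ _ _ _ k k' := ⟨mul_mem k.1 k'.1, hU.mul _ _ _ _ _ _ k.2 k'.2⟩
  smul _ _ _ c c0 k := ⟨k.1, hU.smul _ _ _ c c0 k.2⟩
  fn _ _ _ _ k k' := hU.fn _ _ _ _ k.2 k'.2
  loc a ha l m hm k := ⟨ha, hU.loc a (h ha) l m hm k⟩
  nat γ hγ _ _ _ k := ⟨mul_mem (mul_mem hγ k.1) (inv_mem hγ), hU.nat γ (h hγ) _ _ _ k.2⟩

theorem qeq_inv {g : RingAut A} {σ : RingAut F} (hg : SL F σ g) : SL F σ⁻¹ g⁻¹ :=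
  (TR.of_image (S := ∅) hg rfl).symm.sl

theorem qeq_lin {g a : RingAut A} {σ : RingAut F} (hg : SL F σ g) (l : Lin F a) :
    Lin F (g⁻¹ * a * g) := fun c x => by
  change g⁻¹ (a (g (c • x))) = c • g⁻¹ (a (g x))
  rw [hg, l, qeq_inv hg]
  exact congrArg (· • _) (σ.symm_apply_apply c)

theorem qeq_ln {g a : RingAut A} {σ : RingAut F} (hg : SL F σ g) {L : Set A} {e w : A}
    (k : g⁻¹ w ∈ Ln F L e (g⁻¹ * a * g)) : w ∈ Ln F (g '' L) (g e) a :=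
  g.apply_symm_apply w ▸ (((TR.of_image hg rfl).ln e (a := g⁻¹ * a * g) (a' := a)
    fun _ _ => (g.apply_symm_apply _).symm).mem _).2 k

theorem q_link_conj {Γ Δ : Subgroup (RingAut A)} {g : RingAut A} {σ : RingAut F}
    (hg : SL F σ g) (h : ∀ a, a ∈ Δ ↔ g⁻¹ * a * g ∈ Γ) {L M : Set A} {e e' : A}
    {U : RingAut A → A → A → Prop} (hU : Link F Γ L M e e' U) :
    Link F Δ (g '' L) (g '' M) (g e) (g e') fun a w w' => U (g⁻¹ * a * g) (g⁻¹ w) (g⁻¹ w') := by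
  have i (x : A) : g⁻¹ (g x) = x := g.symm_apply_apply x
  refine ⟨fun a w w' k => ?_, fun a ha l => ?_, fun a w w' b v v' k k' => ?_,
    fun a w w' c c0 k => ?_, fun a w w₁ w₂ k k' => g⁻¹.injective (hU.fn _ _ _ _ k k'),
    fun a ha l m hm k => ?_, fun γ hγ a w w' k => ?_⟩
  · obtain ⟨h1, h2, h3, h4⟩ := hU.int _ _ _ k
    refine ⟨(h a).2 h1, ?_, qeq_ln hg h3, qeq_ln hg h4⟩
    have := qeq_lin (qeq_inv hg) h2
    rwa [show g⁻¹⁻¹ * (g⁻¹ * a * g) * g⁻¹ = a by group] at this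
  · obtain ⟨w, w', k⟩ := hU.tot _ ((h a).1 ha) (qeq_lin hg l)
    exact ⟨g w, g w', by rwa [i, i]⟩
  · have := hU.mul _ _ _ _ _ _ k k'
    rwa [show g⁻¹ * a * g * (g⁻¹ * b * g) = g⁻¹ * (a * b) * g by group, ← map_mul,
      ← map_mul] at this
  · rw [qeq_inv hg, qeq_inv hg]
    exact hU.smul _ _ _ _ (by simpa using c0) k
  · obtain ⟨m, hm, rfl⟩ := hm
    rw [map_mul, map_mul, i, i, i]
    refine hU.loc _ ((h a).1 ha) (qeq_lin hg l) m hm fun x hx => g.injective ?_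
    rw [map_mul, map_mul, k _ ⟨x, hx, rfl⟩]
    exact congrArg (· * _) (g.apply_symm_apply _).symm
  · have := hU.nat _ ((h γ).1 hγ) _ _ _ k
    have j (x : A) : (g⁻¹ * γ * g) (g⁻¹ x) = g⁻¹ (γ x) :=
      congrArg (fun y => g⁻¹ (γ y)) (g.apply_symm_apply x)
    rwa [show g⁻¹ * γ * g * (g⁻¹ * a * g) * (g⁻¹ * γ * g)⁻¹ = g⁻¹ * (γ * a * γ⁻¹) * g by group,
      j, j] at this

/-- the action of `Γ` on the index set. -/
theorem q_act {L M : I → Set A} (hL : Function.Injective L) (Γ : Subgroup (RingAut A))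
    (hπ : ∀ γ ∈ Γ, ∀ i, ∃ j, γ '' L i = L j ∧ γ '' M i = M j) :
    ∃ _ : MulAction Γ I, ∀ (g : Γ) (i : I), g.1 '' L i = L (g • i) ∧ g.1 '' M i = M (g • i) := by
  choose j hj using hπ
  refine ⟨{ smul := fun g i => j g.1 g.2 i
            one_smul := fun i => hL ((hj _ _ i).1.symm.trans (Set.image_id _))
            mul_smul := fun g k i => hL ((hj _ _ i).1.symm.trans ?_) }, fun g i => hj g.1 g.2 i⟩
  refine Eq.trans ?_ (hj g.1 g.2 (j k.1 k.2 i)).1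
  rw [← (hj k.1 k.2 i).1, Set.image_image]
  rfl

/-- conjugation of self maps. -/
@[reducible] def qeqO (Γ : Subgroup (RingAut A)) : MulAction Γ (A → A) where
  smul g Ω e := g.1 (Ω (g.1⁻¹ e))
  one_smul _ := rfl
  mul_smul _ _ _ := rfl

/-- conjugation of relations. -/
@[reducible] def qeqU (Γ : Subgroup (RingAut A)) : MulAction Γ (RingAut A → A → A → Prop) where
  smul g U a w w' := U (g.1⁻¹ * a * g.1) (g.1⁻¹ w) (g.1⁻¹ w')
  one_smul _ := rfl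
  mul_smul _ _ _ := rfl

theorem qeq_stb {g a : RingAut A} {S S' : Set A} (h : g '' S = S') :
    a ∈ Stb S' ↔ g⁻¹ * a * g ∈ Stb S := by
  have i := ttr_im.1 h
  have j (x : A) : (g⁻¹ * a * g) x ∈ S ↔ a (g x) ∈ S' :=
    (i _).symm.trans (iff_of_eq (congrArg (· ∈ S') (g.apply_symm_apply _)))
  refine ⟨fun k x => (j x).trans ((k _).trans (i x)), fun k x => ?_⟩
  obtain ⟨x, rfl⟩ := g.surjective x
  exact (j x).symm.trans ((k x).trans (i x).symm)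

theorem qeq_grp {Γ : Subgroup (RingAut A)} {g : RingAut A} (hg : g ∈ Γ) {S S' T T' : Set A}
    (h : g '' S = S') (k : g '' T = T') (e : A) (a : RingAut A) :
    a ∈ Γ ⊓ Stb S' ⊓ Stb T' ⊓ Fx (g e) ↔ g⁻¹ * a * g ∈ Γ ⊓ Stb S ⊓ Stb T ⊓ Fx e :=
  and_congr (and_congr (and_congr
    ((Γ.mul_mem_cancel_right hg).trans (Γ.mul_mem_cancel_left (inv_mem hg))).symm
      (qeq_stb h)) (qeq_stb k))
    (g.symm_apply_eq (x := a (g e)) (y := e)).symm

theorem q_family {p : ℕ} {GG : Subgroup (RingAut F)} {L M : I → Set A}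
    (Γ : Subgroup (RingAut A)) (hΓ : Γ ≤ SG GG A) [MulAction Γ I]
    (hπ : ∀ (g : Γ) (i : I), g.1 '' L i = L (g • i) ∧ g.1 '' M i = M (g • i))
    (hl : ∀ i, ML F p GG (L i) (M i)) :
    ∃ (Ω : I → A → A) (U : I → A → RingAut A → A → A → Prop),
      (∀ i, Set.BijOn (Ω i) (IrrP F p (L i)) (IrrP F p (M i))) ∧
      (∀ (g : Γ) (i : I), ∀ e ∈ IrrP F p (L i), Ω (g • i) (g.1 e) = g.1 (Ω i e)) ∧
      (∀ i, ∀ e ∈ IrrP F p (L i),
        Link F (Γ ⊓ Stb (L i) ⊓ Stb (M i) ⊓ Fx e) (L i) (M i) e (Ω i e) (U i e)) ∧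
      ∀ (g : Γ) (i : I), ∀ e ∈ IrrP F p (L i), ∀ a w w', U i e a w w' →
        U (g • i) (g.1 e) (g.1 * a * g.1⁻¹) (g.1 w) (g.1 w') := by
  classical
  have tL (g : Γ) (i : I) (e : A) : g.1 e ∈ IrrP F p (L (g • i)) ↔ e ∈ IrrP F p (L i) :=
    (hΓ g.2).elim fun _ k => ((TR.of_image k.2 (hπ g i).1).irrP p).mem e
  have tM (g : Γ) (i : I) (e : A) : g.1 e ∈ IrrP F p (M (g • i)) ↔ e ∈ IrrP F p (M i) :=
    (hΓ g.2).elim fun _ k => ((TR.of_image k.2 (hπ g i).2).irrP p).mem e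
  have tr (g : Γ) (i : I) (e e' : A) (U : RingAut A → A → A → Prop)
      (k : Link F (Γ ⊓ Stb (L i) ⊓ Stb (M i) ⊓ Fx e) (L i) (M i) e e' U) :
      Link F (Γ ⊓ Stb (L (g • i)) ⊓ Stb (M (g • i)) ⊓ Fx (g.1 e)) (L (g • i)) (M (g • i)) (g.1 e)
        (g.1 e') fun a w w' => U (g.1⁻¹ * a * g.1) (g.1⁻¹ w) (g.1⁻¹ w') := by
    obtain ⟨σ, -, hσ⟩ := hΓ g.2
    have := q_link_conj hσ (qeq_grp g.2 (hπ g i).1 (hπ g i).2 e) k
    rwa [(hπ g i).1, (hπ g i).2] at this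
  have st (g : Γ) (i : I) (h : g • i = i) : g.1 ∈ Γ ⊓ Stb (L i) ⊓ Stb (M i) :=
    ⟨⟨g.2, ttr_im.1 ((hπ g i).1.trans (congrArg L h))⟩,
      ttr_im.1 ((hπ g i).2.trans (congrArg M h))⟩
  have le (i : I) : Γ ⊓ Stb (L i) ⊓ Stb (M i) ≤ SG GG A ⊓ Stb (L i) ⊓ Stb (M i) :=
    inf_le_inf_right _ (inf_le_inf_right _ hΓ)
  obtain ⟨Ω, h1, h2⟩ := @q_eqv Γ I (A → A) _ _ (qeqO Γ)
    (fun i Ω => Set.BijOn Ω (IrrP F p (L i)) (IrrP F p (M i)) ∧ ∀ e ∈ IrrP F p (L i),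
      ∃ U, Link F (Γ ⊓ Stb (L i) ⊓ Stb (M i) ⊓ Fx e) (L i) (M i) e (Ω e) U)
    (fun g i Ω k => by
      have b1 : Set.BijOn g.1 (IrrP F p (L i)) (IrrP F p (L (g • i))) :=
        g.1.toEquiv.bijOn (tL g i)
      have b2 : Set.BijOn g.1 (IrrP F p (M i)) (IrrP F p (M (g • i))) :=
        g.1.toEquiv.bijOn (tM g i)
      refine ⟨b2.comp (k.1.comp (Set.BijOn.equiv_symm (e := g.1.toEquiv) b1)), fun e he => ?_⟩
      obtain ⟨e, rfl⟩ := g.1.surjective e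
      obtain ⟨U, hU⟩ := k.2 e ((tL g i e).1 he)
      have := tr g i _ _ U hU
      exact ⟨_, (congrArg (fun y => g.1 (Ω y)) (g.1.symm_apply_apply e)).symm ▸ this⟩)
    (fun i => by
      obtain ⟨Ω, ⟨b, q⟩, l⟩ := hl i
      refine ⟨fun e => if e ∈ IrrP F p (L i) then Ω e else e,
        ⟨b.congr fun e he => (if_pos he).symm, fun e he => ?_⟩, fun g hg => funext fun e => ?_⟩
      · obtain ⟨U, hU⟩ := l e he
        simp only [if_pos he]
        exact ⟨_, q_link_mono (inf_le_inf_right _ (le i)) hU⟩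
      · obtain ⟨e, rfl⟩ := g.1.surjective e
        have i1 : g.1⁻¹ (g.1 e) = e := g.1.symm_apply_apply e
        have i2 := tL g i e
        rw [hg] at i2
        change g.1 (if g.1⁻¹ (g.1 e) ∈ IrrP F p (L i) then Ω (g.1⁻¹ (g.1 e)) else g.1⁻¹ (g.1 e)) = _
        rw [i1]
        by_cases c : e ∈ IrrP F p (L i)
        · rw [if_pos c, if_pos (i2.2 c), (q _ (le i (st g i hg)) e c).2]
        · rw [if_neg c, if_neg (mt i2.1 c)])
  have h3 (g : Γ) (i : I) (e : A) : Ω (g • i) (g.1 e) = g.1 (Ω i e) :=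
    (congrFun (h2 g i) (g.1 e)).trans (congrArg (fun y => g.1 (Ω i y)) (g.1.symm_apply_apply e))
  obtain ⟨U, k1, k2⟩ := @q_eqv Γ (I × A) (RingAut A → A → A → Prop) _ _ (qeqU Γ)
    (fun x U => x.2 ∈ IrrP F p (L x.1) →
      Link F (Γ ⊓ Stb (L x.1) ⊓ Stb (M x.1) ⊓ Fx x.2) (L x.1) (M x.1) x.2 (Ω x.1 x.2) U)
    (fun g x U k he => by
      have := tr g x.1 _ _ U (k ((tL g x.1 x.2).1 he))
      rw [← h3] at this
      exact this)
    (fun x => by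
      by_cases c : x.2 ∈ IrrP F p (L x.1)
      · obtain ⟨U, hU⟩ := (h1 x.1).2 x.2 c
        refine ⟨U, fun _ => hU, fun g hg => ?_⟩
        have m : g.1 ∈ Γ ⊓ Stb (L x.1) ⊓ Stb (M x.1) ⊓ Fx x.2 :=
          ⟨st g x.1 (congrArg Prod.fst hg), congrArg Prod.snd hg⟩
        refine funext fun a => funext fun w => funext fun w' => propext ⟨fun k => ?_, fun k => ?_⟩
        · have := hU.nat _ m _ _ _ k
          have j (y : A) : g.1 (g.1⁻¹ y) = y := g.1.apply_symm_apply y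
          rwa [show g.1 * (g.1⁻¹ * a * g.1) * g.1⁻¹ = a by group, j, j] at this
        · exact hU.nat _ (inv_mem m) _ _ _ k
      · exact ⟨fun _ _ _ => False, fun k => (c k).elim, fun _ _ => rfl⟩)
  refine ⟨Ω, fun i e => U (i, e), fun i => (h1 i).1, fun g i e _ => h3 g i e,
    fun i e he => k1 (i, e) he, fun g i e _ a w w' k => ?_⟩
  have j (y : A) : g.1⁻¹ (g.1 y) = y := g.1.symm_apply_apply y
  have := k2 g (i, e)
  change U (g • (i, e)) _ _ _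
  rw [this]
  change U (i, e) (g.1⁻¹ * (g.1 * a * g.1⁻¹) * g.1) (g.1⁻¹ (g.1 w)) (g.1⁻¹ (g.1 w'))
  rwa [show g.1⁻¹ * (g.1 * a * g.1⁻¹) * g.1 = a by group, j, j]

end Pool.Agent.Lib.MP_1ae3da_al.CT.Q
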