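import Pool.Agent.Lib.MP_1ae3da_al.C.TTr

/-! Determinant and trace in a block: independence of the model and naturality. -/

namespace Pool.Agent.Lib.MP_1ae3da_al.CT

open Submodule

variable {F K A B : Type} [Field F] [Field K] [Ring A] [Ring B] [Algebra F A] [Algebra K B]
  {σ : F ≃+* K} {γ : A ≃+* B} {S : Set A} {S' : Set B} {e w : A} {n m : ℕ}
  {ρ : A →ₗ[F] Matrix (Fin n) (Fin n) F} {ρ' : A →ₗ[F] Matrix (Fin m) (Fin m) F}

variable (F) in
/-- the span of `S` is closed under products. -/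
def Mcl (S : Set A) : Prop := ∀ a ∈ span F S, ∀ b ∈ span F S, a * b ∈ span F S

open Pointwise in
theorem mcl_of (h : ∀ a ∈ S, ∀ b ∈ S, a * b ∈ span F S) : Mcl F S := fun _ ha _ hb =>
  (span_le.2 (Set.mul_subset_iff.2 h) : span F (S * S) ≤ span F S)
    (span_mul_span (R := F) S S ▸ mul_mem_mul ha hb)

theorem TG.mcl {G : Type} [Group G] {u : G → A} (hu : TG F u) (T : Subgroup G) :
    Mcl F (Hm F u T) := mcl_of fun _ ha _ hb => subset_span (hu.hm_mul ha hb)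

theorem Nice.mcl (h : Nice F S) : Mcl F S := by
  obtain ⟨G, _, _, u, hu, -, rfl⟩ := h
  exact hu.mcl ⊤

theorem TR.mcl (h : TR σ γ S S') (k : Mcl F S) : Mcl K S' :=
  h.span.all.2 fun a ha => h.span.all.2 fun b hb => map_mul γ a b ▸ h.span_to (k a ha b hb)

theorem MM.ker (h : MM F S e ρ) (he : e ∈ span F S) {a : A} (ha : a ∈ span F S) :
    ρ a = 0 ↔ a * e = 0 :=
  ⟨h.inj a ha, fun k => by rw [← mul_one (ρ a), ← h.one, ← h.mul a ha e he, k, map_zero]⟩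

theorem MM.eq_e (h : MM F S e ρ) (he : e ∈ span F S) {a b : A} (ha : a ∈ span F S)
    (hb : b ∈ span F S) : ρ a = ρ b ↔ a * e = b * e := by
  rw [← sub_eq_zero, ← map_sub, h.ker he (sub_mem ha hb), sub_mul, sub_eq_zero]

/-- Two matrix models of one block differ by an algebra isomorphism. -/
theorem MM.equiv (h : MM F S e ρ) (h' : MM F S e ρ') (k : Mcl F S) (he : e ∈ span F S) :
    ∃ φ : Matrix (Fin n) (Fin n) F ≃ₐ[F] Matrix (Fin m) (Fin m) F,
      ∀ a ∈ span F S, φ (ρ a) = ρ' a := by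
  choose s s1 s2 using h.surj
  have v : ∀ a ∈ span F S, ρ' (s (ρ a)) = ρ' a := fun a ha =>
    (h'.eq_e he (s1 _) ha).2 ((h.eq_e he (s1 _) ha).1 (s2 _))
  let f : Matrix (Fin n) (Fin n) F →ₗ[F] Matrix (Fin m) (Fin m) F :=
    { toFun := fun x => ρ' (s x)
      map_add' := fun x y => by
        rw [← map_add, ← v _ (add_mem (s1 x) (s1 y)), map_add ρ, s2, s2]
      map_smul' := fun c x => by
        rw [RingHom.id_apply, ← map_smul, ← v _ (smul_mem _ c (s1 x)), map_smul ρ, s2] }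
  let g := AlgHom.ofLinearMap f (by rw [← h.one]; exact (v e he).trans h'.one) fun x y => by
    change ρ' (s (x * y)) = ρ' (s x) * ρ' (s y)
    rw [← h'.mul _ (s1 x) _ (s1 y), ← v _ (k _ (s1 x) _ (s1 y)), h.mul _ (s1 x) _ (s1 y), s2, s2]
  refine ⟨AlgEquiv.ofBijective g ⟨fun x y c => ?_, fun y => ?_⟩, v⟩
  · rw [← s2 x, ← s2 y]
    exact (h.eq_e he (s1 x) (s1 y)).2 ((h'.eq_e he (s1 x) (s1 y)).1 c)
  · obtain ⟨a, ha, rfl⟩ := h'.surj y
    exact ⟨ρ a, v a ha⟩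

theorem MM.nd (h : MM F S e ρ) (k : Mcl F S) (he : e ∈ span F S) (hw : w ∈ span F S) :
    Nd F S e w = (ρ w).det := by
  have c : ∃ (n : ℕ) (ρ : A →ₗ[F] Matrix (Fin n) (Fin n) F), MM F S e ρ := ⟨n, ρ, h⟩
  obtain ⟨φ, p⟩ := h.equiv c.choose_spec.choose_spec k he
  rw [Nd, dif_pos c, ← p w hw, Matrix.det_map]

theorem MM.chv (h : MM F S e ρ) (k : Mcl F S) (he : e ∈ span F S) (hw : w ∈ span F S) :
    Chv F S e w = (ρ w).trace := by
  have c : ∃ (n : ℕ) (ρ : A →ₗ[F] Matrix (Fin n) (Fin n) F), MM F S e ρ := ⟨n, ρ, h⟩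
  obtain ⟨φ, p⟩ := h.equiv c.choose_spec.choose_spec k he
  rw [Chv, dif_pos c, ← p w hw, Matrix.trace_map]

/-- The block is linearly isomorphic to its matrix model. -/
theorem MM.Dg_eq (h : MM F S e ρ) (k : Mcl F S) (he : e ∈ span F S) : Dg F S e = n ^ 2 := by
  have i : ∀ a ∈ span F S, ρ (a * e) = ρ a := fun a ha => by rw [h.mul a ha e he, h.one, mul_one]
  have ee : ∀ a ∈ span F S, a * e * e = a * e := fun a ha =>
    (h.eq_e he (k a ha e he) ha).1 (i a ha)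
  have := LinearEquiv.finrank_eq (LinearEquiv.ofBijective
    (ρ.domRestrict ((span F S).map (LinearMap.mulRight F e))) ⟨?_, fun y => ?_⟩)
  · rw [Dg, this, Module.finrank_matrix]
    simp [sq]
  · rintro ⟨_, a, ha, rfl⟩ ⟨_, b, hb, rfl⟩ c
    exact Subtype.ext ((h.eq_e he ha hb).1 ((i a ha).symm.trans (c.trans (i b hb))))
  · obtain ⟨a, ha, rfl⟩ := h.surj y
    exact ⟨⟨a * e, a, ha, rfl⟩, i a ha⟩

theorem MM.dg_eq (h : MM F S e ρ) (k : Mcl F S) (he : e ∈ span F S) : dg F S e = n := by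
  rw [dg, h.Dg_eq k he, Nat.sqrt_eq']

theorem TR.mm (h : TR σ γ S S') (k : MM F S e ρ) :
    ∃ ρ' : B →ₗ[K] Matrix (Fin n) (Fin n) K, MM K S' (γ e) ρ' ∧ ∀ a, ρ' (γ a) = (ρ a).map σ := by
  let r : B →ₗ[K] Matrix (Fin n) (Fin n) K :=
    { toFun := fun b => σ.mapMatrix (ρ (γ.symm b))
      map_add' := fun x y => by simp only [map_add]
      map_smul' := fun c x => by
        rw [h.symm.sl, map_smul]
        ext i j
        simp }
  have v (a : A) : r (γ a) = σ.mapMatrix (ρ a) := congrArg (fun x => σ.mapMatrix (ρ x))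
    (γ.symm_apply_apply a)
  refine ⟨r, ⟨h.span.all.2 fun a ha => h.span.all.2 fun b hb => ?_, ?_,
    h.span.all.2 fun a ha c => ?_, fun y => ?_, k.pos⟩, v⟩
  · rw [← map_mul, v, v, v, k.mul a ha b hb, map_mul]
  · rw [v, k.one, map_one]
  · rw [← map_mul, k.inj a ha (σ.mapMatrix.map_eq_zero_iff.1 ((v a).symm.trans c)), map_zero]
  · obtain ⟨a, ha, c⟩ := k.surj (σ.mapMatrix.symm y)
    exact ⟨γ a, h.span_to ha, by rw [v, c, RingEquiv.apply_symm_apply]⟩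

theorem TR.mm_iff (h : TR σ γ S S') :
    (∃ (n : ℕ) (ρ : B →ₗ[K] Matrix (Fin n) (Fin n) K), MM K S' (γ e) ρ) ↔
      ∃ (n : ℕ) (ρ : A →ₗ[F] Matrix (Fin n) (Fin n) F), MM F S e ρ :=
  ⟨fun ⟨n, _, k⟩ => (h.symm.mm k).elim fun r c => ⟨n, r, γ.symm_apply_apply e ▸ c.1⟩,
    fun ⟨n, _, k⟩ => (h.mm k).elim fun r c => ⟨n, r, c.1⟩⟩

theorem TR.nd (h : TR σ γ S S') (k : Mcl F S) (he : e ∈ Submodule.span F S)
    (hw : w ∈ Submodule.span F S) : Nd K S' (γ e) (γ w) = σ (Nd F S e w) := by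
  by_cases c : ∃ (n : ℕ) (ρ : A →ₗ[F] Matrix (Fin n) (Fin n) F), MM F S e ρ
  · obtain ⟨n, ρ, c⟩ := c
    obtain ⟨r, r1, r2⟩ := h.mm c
    rw [r1.nd (h.mcl k) (h.span_to he) (h.span_to hw), c.nd k he hw, r2]
    exact (RingHom.map_det (σ : F →+* K) (ρ w)).symm
  · rw [Nd, Nd, dif_neg c, dif_neg (h.mm_iff.not.2 c), map_zero]

theorem TR.chv (h : TR σ γ S S') (k : Mcl F S) (he : e ∈ Submodule.span F S)
    (hw : w ∈ Submodule.span F S) : Chv K S' (γ e) (γ w) = σ (Chv F S e w) := by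
  by_cases c : ∃ (n : ℕ) (ρ : A →ₗ[F] Matrix (Fin n) (Fin n) F), MM F S e ρ
  · obtain ⟨n, ρ, c⟩ := c
    obtain ⟨r, r1, r2⟩ := h.mm c
    rw [r1.chv (h.mcl k) (h.span_to he) (h.span_to hw), c.chv k he hw, r2]
    exact (AddMonoidHom.map_trace σ (ρ w)).symm
  · rw [Chv, Chv, dif_neg c, dif_neg (h.mm_iff.not.2 c), map_zero]

theorem nd_mul (k : Mcl F S) (he : e ∈ span F S) {v : A} (hv : v ∈ span F S) (hw : w ∈ span F S) :
    Nd F S e (v * w) = Nd F S e v * Nd F S e w := by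
  by_cases c : ∃ (n : ℕ) (ρ : A →ₗ[F] Matrix (Fin n) (Fin n) F), MM F S e ρ
  · obtain ⟨n, ρ, c⟩ := c
    rw [c.nd k he (k v hv w hw), c.nd k he hv, c.nd k he hw, c.mul v hv w hw, Matrix.det_mul]
  · simp only [Nd, dif_neg c, mul_zero]

theorem nd_smul (k : Mcl F S) (he : e ∈ span F S) (hw : w ∈ span F S) (a : F) :
    Nd F S e (a • w) = a ^ dg F S e * Nd F S e w := by
  by_cases c : ∃ (n : ℕ) (ρ : A →ₗ[F] Matrix (Fin n) (Fin n) F), MM F S e ρ
  · obtain ⟨n, ρ, c⟩ := c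
    rw [c.nd k he (smul_mem _ a hw), c.nd k he hw, c.dg_eq k he, map_smul, Matrix.det_smul,
      Fintype.card_fin]
  · simp only [Nd, dif_neg c, mul_zero]

theorem MM.nd_one (h : MM F S e ρ) (k : Mcl F S) (he : e ∈ span F S) : Nd F S e e = 1 := by
  rw [h.nd k he he, h.one, Matrix.det_one]

theorem nd_mul_e (k : Mcl F S) (he : e ∈ span F S) (hw : w ∈ span F S) :
    Nd F S e (w * e) = Nd F S e w := by
  by_cases c : ∃ (n : ℕ) (ρ : A →ₗ[F] Matrix (Fin n) (Fin n) F), MM F S e ρ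
  · obtain ⟨n, ρ, c⟩ := c
    rw [nd_mul k he hw he, c.nd_one k he, mul_one]
  · simp only [Nd, dif_neg c]

theorem chv_add (e v w : A) : Chv F S e (v + w) = Chv F S e v + Chv F S e w := by
  unfold Chv
  split_ifs <;> simp

theorem chv_smul (e w : A) (a : F) : Chv F S e (a • w) = a * Chv F S e w := by
  unfold Chv
  split_ifs <;> simp

theorem MM.chv_one (h : MM F S e ρ) (k : Mcl F S) (he : e ∈ span F S) : Chv F S e e = n := by
  rw [h.chv k he he, h.one, Matrix.trace_one, Fintype.card_fin]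

theorem chv_comm (k : Mcl F S) (he : e ∈ span F S) {v : A} (hv : v ∈ span F S)
    (hw : w ∈ span F S) : Chv F S e (v * w) = Chv F S e (w * v) := by
  by_cases c : ∃ (n : ℕ) (ρ : A →ₗ[F] Matrix (Fin n) (Fin n) F), MM F S e ρ
  · obtain ⟨n, ρ, c⟩ := c
    rw [c.chv k he (k v hv w hw), c.chv k he (k w hw v hv), c.mul v hv w hw, c.mul w hw v hv,
      Matrix.trace_mul_comm]
  · simp only [Chv, dif_neg c]

end Pool.Agent.Lib.MP_1ae3da_al.CT
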