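import Pool.Agent.Lib.MP_1ae3da_al.C.QTen
import Pool.Agent.Lib.MP_1ae3da_al.C.TNd

/-! The blocks of a direct product are the products of blocks of the factors. -/

namespace Pool.Agent.Lib.MP_1ae3da_al.CT.Q

open Submodule

variable {F A G I : Type} [Field F] [Ring A] [Algebra F A] [Group G] [Fintype I] {u : G → A}
  {K : I → Subgroup G}

theorem qirr_mem {S : Set A} {e x : A} (k : Mcl F S) (he : e ∈ span F S) (e2 : e * e = e) :
    x ∈ blk F S e ↔ x ∈ span F S ∧ x * e = x :=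
  ⟨by rintro ⟨b, hb, rfl⟩; exact ⟨k b hb e he, by simp [mul_assoc, e2]⟩, fun h => ⟨x, h.1, h.2⟩⟩

theorem q_mor [CharZero F] [IsAlgClosed F] [Finite G] (hu : TG F u) (H : Subgroup G) {e : A}
    (he : e ∈ Irr F (Hm F u H)) : ∃ j, Mor (blk F (Hm F u H) e) e j := by
  obtain ⟨n, ρ, h⟩ := (hu.nice H (Nat.cast_ne_zero.2 Nat.card_pos.ne')).exists_MM he
  have k := hu.mcl H
  have m {x : A} := qirr_mem (x := x) k he.1.1 he.2.1
  have mul : ∀ x ∈ blk F (Hm F u H) e, ∀ y ∈ blk F (Hm F u H) e, x * y ∈ blk F (Hm F u H) e :=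
    fun x hx y hy => m.2 ⟨k x (m.1 hx).1 y (m.1 hy).1, by rw [mul_assoc, (m.1 hy).2]⟩
  have ρm : ∀ x ∈ blk F (Hm F u H) e, ∀ y ∈ blk F (Hm F u H) e, ρ (x * y) = ρ x * ρ y :=
    fun x hx y hy => h.mul x (m.1 hx).1 y (m.1 hy).1
  have inj : ∀ x ∈ blk F (Hm F u H) e, ∀ y ∈ blk F (Hm F u H) e, ρ x = ρ y → x = y :=
    fun x hx y hy q => by
      rw [← (m.1 hx).2, ← (m.1 hy).2]; exact (h.eq_e he.1.1 (m.1 hx).1 (m.1 hy).1).1 q
  have sur (a : Matrix (Fin n) (Fin n) F) : ∃ x ∈ blk F (Hm F u H) e, ρ x = a := by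
    obtain ⟨b, hb, rfl⟩ := h.surj a
    exact ⟨b * e, ⟨b, hb, rfl⟩, by rw [h.mul b hb e he.1.1, h.one, mul_one]⟩
  choose E E1 E2 using fun i l : Fin n => sur (Matrix.single i l 1)
  have he' : e ∈ blk F (Hm F u H) e := m.2 ⟨he.1.1, he.2.1⟩
  set o : Fin n := ⟨0, h.pos⟩
  refine ⟨E o o, mul, he', fun x hx => by rw [tcl_comm he.1.2 (m.1 hx).1, (m.1 hx).2],
    fun x hx => (m.1 hx).2, E1 o o, inj _ (mul _ (E1 o o) _ (E1 o o)) _ (E1 o o) ?_, fun z => ?_,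
    fun x hx => ⟨ρ x o o, inj _ (mul _ (mul _ (E1 o o) _ hx) _ (E1 o o)) _
      (smul_mem _ _ (E1 o o)) ?_⟩, ?_⟩
  · rw [ρm _ (E1 o o) _ (E1 o o), E2, Matrix.single_mul_single_same, one_mul]
  · have := congrFun (congrFun (E2 o o) o) o
    simp [z] at this
  · rw [ρm _ (mul _ (E1 o o) _ hx) _ (E1 o o), ρm _ (E1 o o) _ hx, map_smul, E2,
      Matrix.single_mul_mul_single]
    simp
  · have : e = ∑ i, E i o * E o o * E o i := by
      refine inj _ he' _ (sum_mem fun i _ => mul _ (mul _ (E1 i o) _ (E1 o o)) _ (E1 o i)) ?_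
      rw [h.one, map_sum, ← Matrix.sum_single_one]
      refine Finset.sum_congr rfl fun i _ => ?_
      rw [ρm _ (mul _ (E1 i o) _ (E1 o o)) _ (E1 o i), ρm _ (E1 i o) _ (E1 o o), E2, E2, E2]
      simp [Matrix.single_mul_single_same]
    refine (congrArg (· ∈ _) this).mpr
      (sum_mem fun i _ => subset_span ⟨_, E1 i o, _, E1 o i, rfl⟩)

theorem q_im_iff (hu : TG F u) (H : Subgroup G) {e : A} (he : e ∈ Irr F (Hm F u H))
    {a : RingAut A} (ha : Lin F a) (hae : a e = e) (w : A) :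
    Im (blk F (Hm F u H) e) a w ↔ w ∈ Ln F (Hm F u H) e a := by
  have m {x : A} := qirr_mem (x := x) (hu.mcl H) he.1.1 he.2.1
  have l {w : A} (hw : w ∈ span F (Hm F u H)) (h : w * e = w) : e * w = w := by
    rw [tcl_comm he.1.2 hw, h]
  constructor
  · rintro ⟨h1, h2, h3⟩
    refine ⟨(m.1 h1).1, (m.1 h1).2, h2, fun x hx => ?_⟩
    have := h3 (x * e) ⟨x, subset_span hx, rfl⟩
    rwa [map_mul, hae, mul_assoc, l (m.1 h1).1 (m.1 h1).2, ← he.1.2 x hx, ← mul_assoc,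
      (m.1 h1).2] at this
  · rintro ⟨h1, h2, h3, h4⟩
    exact ⟨m.2 ⟨h1, h2⟩, h3, fun x hx => span_comm ha h4 (m.1 hx).1⟩

theorem q_blk_map {S S' : Set A} {g : RingAut A} {σ : RingAut F} (hg : SL F σ g)
    (hS : g '' S = S') (e : A) : ∀ x ∈ blk F S e, g x ∈ blk F S' (g e) := by
  rintro _ ⟨b, hb, rfl⟩
  exact ⟨g b, (TR.of_image hg hS).span_to hb, (map_mul g b e).symm⟩

theorem q_irrP_map {S S' : Set A} {g : RingAut A} {σ : RingAut F} (hg : SL F σ g)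
    (hS : g '' S = S') (p : ℕ) {e : A} (he : e ∈ IrrP F p S) : g e ∈ IrrP F p S' :=
  (((TR.of_image hg hS).irrP p).mem e).2 he

variable [CharZero F] [IsAlgClosed F] [Finite G] [Nonempty I]

theorem Dp.pr_irr (h : Dp F u K) {ε : I → A} (hε : ∀ i, ε i ∈ Irr F (Hm F u (K i))) :
    pr ε ∈ Irr F (Hm F u (⨆ i, K i)) ∧
      Dg F (Hm F u (⨆ i, K i)) (pr ε) = ∏ i, Dg F (Hm F u (K i)) (ε i) := by
  have k {s : Finset I} (hs : s.Nonempty) : ps s ε ∈ Irr F (Hm F u (KS K s)) ∧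
      Dg F (Hm F u (KS K s)) (ps s ε) = ∏ i ∈ s, Dg F (Hm F u (K i)) (ε i) := by
    induction hs using Finset.Nonempty.cons_induction with
    | singleton a => rw [ps_single, ks_single, Finset.prod_singleton]; exact ⟨hε a, rfl⟩
    | cons a s ha _ ih =>
      rw [ps_cons (h.cmv fun i => (hε i).1.1), ks_cons, Finset.prod_cons, ← ih.2]
      exact ⟨(h.ten ha).irr (hε a) ih.1,
        (h.ten ha).dg (hε a).1.1 ih.1.1.1 (hε a).2.1 ih.1.2.1⟩
  exact ks_univ (K := K) ▸ k Finset.univ_nonempty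

theorem Dp.pr_inj (h : Dp F u K) {ε η : I → A} (hε : ∀ i, ε i ∈ Irr F (Hm F u (K i)))
    (hη : ∀ i, η i ∈ Irr F (Hm F u (K i))) (hh : pr ε = pr η) : ε = η := by
  funext i
  obtain ⟨r, hr, -⟩ := pr_out (h.cmv fun i => (hε i).1.1) i
  obtain ⟨s, hs, -⟩ := pr_out (h.cmv fun i => (hη i).1.1) i
  refine ten_eq (hε i) (hη i) fun z => (h.pr_irr hε).1.2.2.1 ?_
  have : ε i * pr ε = pr ε := by rw [hr, ← mul_assoc, (hε i).2.1]
  rw [← this, hh, hs, ← mul_assoc, z, zero_mul]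

theorem Dp.irr_pr (h : Dp F u K) {e : A} (he : e ∈ Irr F (Hm F u (⨆ i, K i))) :
    ∃ ε : I → A, (∀ i, ε i ∈ Irr F (Hm F u (K i))) ∧ e = pr ε := by
  have c (H : Subgroup G) : (Nat.card H : F) ≠ 0 := Nat.cast_ne_zero.2 Nat.card_pos.ne'
  refine h.dec (fun H => Irr F (Hm F u H)) (fun H x hx => hx.1.1) (fun H => ?_)
    (fun H L t x hx => t.irr_surj (c H) (c L) hx) Finset.univ_nonempty e (ks_univ (K := K) ▸ he)
  obtain ⟨e, he, -⟩ := ten_cover h.tg (c H) h.tg.one (h.tg.ne 1)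
  exact ⟨e, he⟩

theorem Dp.irrP_iff (h : Dp F u K) {p : ℕ} (hp : p.Prime) (e : A) :
    e ∈ IrrP F p (Hm F u (⨆ i, K i)) ↔
      ∃ ε : I → A, (∀ i, ε i ∈ IrrP F p (Hm F u (K i))) ∧ e = pr ε := by
  constructor
  · rintro ⟨h1, h2⟩
    obtain ⟨ε, hε, rfl⟩ := h.irr_pr h1
    rw [(h.pr_irr hε).2] at h2
    exact ⟨ε, fun i => ⟨hε i, fun d => h2 (d.trans (Finset.dvd_prod_of_mem _ (Finset.mem_univ i)))⟩,
      rfl⟩
  · rintro ⟨ε, hε, rfl⟩
    obtain ⟨h1, h2⟩ := h.pr_irr fun i => (hε i).1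
    refine ⟨h1, fun d => ?_⟩
    rw [h2] at d
    obtain ⟨i, -, hi⟩ := (Prime.dvd_finsetProd_iff hp.prime _).1 d
    exact (hε i).2 hi

end Pool.Agent.Lib.MP_1ae3da_al.CT.Q
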