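import Pool.Agent.Lib.MP_1ae3da_al.C.QLk
import Pool.Agent.Lib.MP_1ae3da_al.C.QEq
import Pool.Agent.Lib.MP_1ae3da_al.C.QIrr

/-! Links for a direct product of perfect components from links for the components. -/

namespace Pool.Agent.Lib.MP_1ae3da_al.CT

open Submodule Q

section
variable {F A G : Type} [Field F] [Ring A] [Algebra F A] [Group G] {u : G → A}

theorem qb_stb {S : Set A} {γ : RingAut A} : γ ∈ Stb S ↔ γ '' S = S := by
  constructor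
  · intro h
    ext a
    constructor
    · rintro ⟨b, hb, rfl⟩
      exact (h b).2 hb
    · intro ha
      obtain ⟨b, rfl⟩ := γ.surjective a
      exact ⟨b, (h b).1 ha, rfl⟩
  · intro h a
    constructor
    · intro ha
      rw [← h] at ha
      obtain ⟨b, hb, hh⟩ := ha
      rwa [← γ.injective hh]
    · intro ha
      rw [← h]
      exact ⟨a, ha, rfl⟩

theorem qb_one (hu : TG F u) (x : G) : u 1 * u x = u x ∧ u x * u 1 = u x := by
  have h0 : u x ≠ 0 := hu.ind.ne_zero x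
  have key : ∀ c : F, c ≠ 0 → c • c • u x = c • u x → c • u x = u x := fun c hc h =>
    smul_right_injective A hc h
  constructor
  · obtain ⟨c, hc, h⟩ := hu.mul 1 x
    rw [one_mul] at h
    rw [h]
    refine key c hc ?_
    rw [← h, ← smul_mul_assoc, smul_mul_assoc, ← mul_smul_comm, ← h, ← mul_assoc, hu.one]
  · obtain ⟨c, hc, h⟩ := hu.mul x 1
    rw [mul_one] at h
    rw [h]
    refine key c hc ?_
    rw [← h, ← smul_mul_assoc, ← h, mul_assoc, hu.one]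

theorem qb_span (hu : TG F u) (H : Subgroup G) {x : A} (hx : x ∈ span F (Hm F u H)) :
    u 1 * x = x ∧ x * u 1 = x := by
  induction hx using span_induction with
  | mem x hx =>
    obtain ⟨c, -, y, -, rfl⟩ := hx
    rw [mul_smul_comm, smul_mul_assoc, (qb_one hu y).1, (qb_one hu y).2]
    exact ⟨rfl, rfl⟩
  | zero => simp
  | add x y _ _ h1 h2 => rw [mul_add, add_mul, h1.1, h1.2, h2.1, h2.2]; exact ⟨rfl, rfl⟩
  | smul c x _ h => rw [mul_smul_comm, smul_mul_assoc, h.1, h.2]; exact ⟨rfl, rfl⟩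

end

section
variable {p : ℕ} {F k A : Type} [Field F] [Field k] [Ring A] [Algebra F A] {O R : Subring F}
  {r : F → k} {GG : Subgroup (RingAut F)}

theorem b2 [CharZero F] [IsAlgClosed F] (hp : p.Prime) {G I : Type} [Group G] [Finite G]
    [Fintype I] [Nonempty I] {u : G → A} (hu : TG F u) (S M : I → Subgroup G)
    (hM : ∀ i, M i ≤ S i) (hS : Function.Injective S) (hperf : ∀ i, commutator (S i) = ⊤)
    (hc : ∀ i j, i ≠ j → ∀ x ∈ S i, ∀ y ∈ S j, x * y = y * x) (hi : iSupIndep S)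
    (Γ : Subgroup (RingAut A)) (hΓ : Γ ≤ SG GG A)
    (hπ : ∀ γ ∈ Γ, ∀ i, ∃ j, γ '' Hm F u (S i) = Hm F u (S j) ∧ γ '' Hm F u (M i) = Hm F u (M j))
    (hl : ∀ i, ML F p GG (Hm F u (S i)) (Hm F u (M i))) :
    LK F Γ (Hm F u (⨆ i, S i)) (Hm F u (⨆ i, M i)) (IrrP F p (Hm F u (⨆ i, S i)))
      (IrrP F p (Hm F u (⨆ i, M i))) := by
  classical
  have hK : Dp F u S := ⟨hu, fun i k h x hx y hy =>
    q_comm hu (hperf i) (fun x hx => hc i k h x hx y hy) x hx, hc, hi⟩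
  have hK' := hK.mono hM
  have hinj : Function.Injective fun i => Hm F u (S i) := fun i k h => hS (q_hm_inj hu h)
  obtain ⟨inst, hact⟩ := q_act (M := fun i => Hm F u (M i)) hinj Γ hπ
  obtain ⟨Ω, U, hb, hΩ, hU, hn⟩ := q_family Γ hΓ hact hl
  have hsl : ∀ g : Γ, ∃ σ : RingAut F, SL F σ g.1 := fun g => by
    obtain ⟨σ, -, h⟩ := hΓ g.2
    exact ⟨σ, h⟩
  have hdec : ∀ e, ∃ ε : I → A, e ∈ IrrP F p (Hm F u (⨆ i, S i)) →
      (∀ i, ε i ∈ IrrP F p (Hm F u (S i))) ∧ e = pr ε := by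
    intro e
    by_cases h : e ∈ IrrP F p (Hm F u (⨆ i, S i))
    · obtain ⟨ε, h⟩ := (hK.irrP_iff hp e).1 h
      exact ⟨ε, fun _ => h⟩
    · exact ⟨0, fun h' => absurd h' h⟩
  choose ε hε using hdec
  have key : ∀ η : I → A, (∀ i, η i ∈ IrrP F p (Hm F u (S i))) → ε (pr η) = η := fun η hη => by
    obtain ⟨h1, h2⟩ := hε _ ((hK.irrP_iff hp _).2 ⟨η, hη, rfl⟩)
    exact hK.pr_inj (fun i => (h1 i).1) (fun i => (hη i).1) h2.symm
  have mv : ∀ (g : Γ) (η : I → A), (∀ i, η i ∈ IrrP F p (Hm F u (S i))) →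
      (∀ i, g.1 (η (g⁻¹ • i)) ∈ IrrP F p (Hm F u (S i))) ∧
      g.1 (pr η) = pr (fun i => g.1 (η (g⁻¹ • i))) ∧
      g.1 (pr fun i => Ω i (η i)) = pr fun i => Ω i (g.1 (η (g⁻¹ • i))) := by
    intro g η hη
    obtain ⟨σ, hσ⟩ := hsl g
    refine ⟨fun i => ?_, ?_, ?_⟩
    · have := q_irrP_map hσ (hact g (g⁻¹ • i)).1 p (hη _)
      rwa [smul_inv_smul] at this
    · rw [pr_map]
      exact (pr_perm (MulAction.toPerm g⁻¹) fun i => g.1 (η i)).symm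
    · rw [pr_map, ← pr_perm (MulAction.toPerm g⁻¹) fun i => g.1 (Ω i (η i))]
      congr 1
      funext i
      have := hΩ g (g⁻¹ • i) _ (hη _)
      rw [smul_inv_smul] at this
      exact this.symm
  refine ⟨fun e => pr fun i => Ω i (ε e i), ⟨⟨fun e he => ?_, fun e he f hf h => ?_,
    fun f hf => ?_⟩, fun γ hγ e he => ?_⟩, fun e he => ?_⟩
  · exact (hK'.irrP_iff hp _).2 ⟨_, fun i => (hb i).mapsTo ((hε e he).1 i), rfl⟩
  · have := hK'.pr_inj (fun i => ((hb i).mapsTo ((hε e he).1 i)).1)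
      (fun i => ((hb i).mapsTo ((hε f hf).1 i)).1) h
    rw [(hε e he).2, (hε f hf).2]
    congr 1
    funext i
    exact (hb i).injOn ((hε e he).1 i) ((hε f hf).1 i) (congrFun this i)
  · obtain ⟨η', h1, rfl⟩ := (hK'.irrP_iff hp _).1 hf
    choose η h2 h3 using fun i => (hb i).surjOn (h1 i)
    refine ⟨pr η, (hK.irrP_iff hp _).2 ⟨η, h2, rfl⟩, ?_⟩
    simp only [key η h2, h3]
  · obtain ⟨η, hη, rfl⟩ := (hK.irrP_iff hp _).1 he
    obtain ⟨h1, h2, h3⟩ := mv ⟨γ, hγ⟩ η hη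
    simp only at h1 h2 h3 ⊢
    rw [h2, key _ h1, key _ hη, h3]
    exact ⟨(hK.irrP_iff hp _).2 ⟨_, h1, rfl⟩, rfl⟩
  obtain ⟨η, hη, rfl⟩ := (hK.irrP_iff hp _).1 he
  simp only [key η hη]
  have hη' : ∀ i, Ω i (η i) ∈ IrrP F p (Hm F u (M i)) := fun i => (hb i).mapsTo (hη i)
  let ι : ↥(Γ ⊓ Fx (pr η)) →* Γ := Subgroup.inclusion inf_le_left
  letI : MulAction ↥(Γ ⊓ Fx (pr η)) I := MulAction.compHom I ι
  have f1 : ∀ (g : ↥(Γ ⊓ Fx (pr η))) (i : I), g.1 (η i) = η (g • i) := by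
    intro g i
    obtain ⟨h1, h2, -⟩ := mv (ι g) η hη
    have h3 := hK.pr_inj (fun i => (h1 i).1) (fun i => (hη i).1) (h2.symm.trans g.2.2)
    have := congrFun h3 (ι g • i)
    rwa [inv_smul_smul] at this
  have f2 : ∀ (g : ↥(Γ ⊓ Fx (pr η))) (i : I), g.1 (Ω i (η i)) = Ω (g • i) (η (g • i)) := by
    intro g i
    rw [← f1]
    exact (hΩ (ι g) i _ (hη i)).symm
  have f3 : ∀ g : ↥(Γ ⊓ Fx (pr η)), g.1 (pr fun i => Ω i (η i)) = pr fun i => Ω i (η i) := by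
    intro g
    rw [pr_map]
    simp only [f2]
    exact pr_perm (MulAction.toPerm g) fun i => Ω i (η i)
  have i1 := (hK.pr_irr fun i => (hη i).1).1
  have i2 := (hK'.pr_irr fun i => (hη' i).1).1
  have s1 : ∀ i, η i ∈ span F (Hm F u (S i)) := fun i => (hη i).1.1.1
  have s2 : ∀ i, Ω i (η i) ∈ span F (Hm F u (M i)) := fun i => (hη' i).1.1.1
  choose j hj using fun i => q_mor hu (S i) (hη i).1
  choose j' hj' using fun i => q_mor hu (M i) (hη' i).1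
  have H : Fam (Γ ⊓ Fx (pr η)) (fun i => blk F (Hm F u (S i)) (η i)) η j :=
    ⟨hj, hK.cm_blk s1, fun g i x hx => by
      obtain ⟨σ, hσ⟩ := hsl (ι g)
      rw [← f1]
      exact q_blk_map hσ (hact (ι g) i).1 _ x hx, fun g => hsl (ι g), i1.2.2.1⟩
  have H' : Fam (Γ ⊓ Fx (pr η)) (fun i => blk F (Hm F u (M i)) (Ω i (η i)))
      (fun i => Ω i (η i)) j' :=
    ⟨hj', hK'.cm_blk s2, fun g i x hx => by
      obtain ⟨σ, hσ⟩ := hsl (ι g)
      rw [← f2]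
      exact q_blk_map hσ (hact (ι g) i).2 _ x hx, fun g => hsl (ι g), i2.2.2.1⟩
  have mem : ∀ (a : ↥(Γ ⊓ Fx (pr η))) (i : I), a • i = i →
      a.1 ∈ Γ ⊓ Stb (Hm F u (S i)) ⊓ Stb (Hm F u (M i)) ⊓ Fx (η i) := by
    intro a i h
    have h1 := hact (ι a) i
    rw [show ι a • i = i from h] at h1
    refine ⟨⟨⟨a.2.1, qb_stb.2 h1.1⟩, qb_stb.2 h1.2⟩, ?_⟩
    change a.1 (η i) = η i
    rw [f1, h]
  obtain ⟨V, hV, v1, v2, v3, v4⟩ := tensor_link (U := fun i => U i (η i)) H H'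
    (fun i => ⟨fun a w w' h => by
        obtain ⟨⟨⟨⟨a1, a2⟩, -⟩, a3⟩, h1, h2, h3⟩ := (hU i _ (hη i)).int _ _ _ h
        have a4 : (⟨a, a1⟩ : Γ) • i = i :=
          hinj ((hact ⟨a, a1⟩ i).1.symm.trans (qb_stb.1 a2))
        have a5 := hΩ ⟨a, a1⟩ i _ (hη i)
        rw [a4, show (⟨a, a1⟩ : Γ).1 (η i) = η i from a3] at a5
        exact ⟨(q_im_iff hu _ (hη i).1 h1 a3 w).2 h2,
          (q_im_iff hu _ (hη' i).1 h1 a5.symm w').2 h3⟩,
      (hU i _ (hη i)).mul, (hU i _ (hη i)).smul, (hU i _ (hη i)).fn⟩)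
    (fun a i h1 h2 => (hU i _ (hη i)).tot _ (mem a i h2) h1)
    (fun i => by
      have := (hU i _ (hη i)).loc 1 (one_mem _) (fun _ _ => rfl) (u 1)
        ⟨1, one_ne_zero, 1, one_mem _, (one_smul _ _).symm⟩ fun x hx =>
          (qb_span hu _ (subset_span hx)).1.trans (qb_span hu _ (subset_span hx)).2.symm
      rwa [(qb_span hu _ (s1 i)).1, (qb_span hu _ (s2 i)).1] at this)
    (fun g i a w w' h => by
      have := hn (ι g) i _ (hη i) a w w' h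
      rw [← f1]
      exact this)
  rw [hK.blk_eq s1, hK'.blk_eq s2] at hV
  refine ⟨V, fun a w w' h => ?_, v2, hV.mul, hV.smul, hV.fn, fun a ha h1 m hm0 h2 => ?_, v3⟩
  · obtain ⟨a1, a2⟩ := v1 a w w' h
    exact ⟨a1, a2, (q_im_iff hu _ i1 a2 a1.2 w).1 (hV.int _ _ _ h).1,
      (q_im_iff hu _ i2 a2 (f3 ⟨a, a1⟩) w').1 (hV.int _ _ _ h).2⟩
  · obtain ⟨m, hm, rfl⟩ := hK'.hm_pr hm0
    have hm' : ∀ i, m i ∈ Hm F u (S i) := fun i => by
      obtain ⟨c, hc, x, hx, h⟩ := hm i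
      exact ⟨c, hc, x, hM i hx, h⟩
    have h3 := hK.loc hm' (fun i => ⟨_, (hact ⟨a, ha.1⟩ i).1⟩) h2
    have h4 : ∀ i : I, (⟨a, ha⟩ : ↥(Γ ⊓ Fx (pr η))) • i = i := fun i =>
      hinj ((hact ⟨a, ha.1⟩ i).1.symm.trans (h3 i).1)
    have := v4 ⟨a, ha⟩ h1 h4 _ _ fun i =>
      (hU i _ (hη i)).loc a (mem _ i (h4 i)) h1 (m i) (hm i) (h3 i).2
    rwa [hK.cm_span.pr_mul 1 (fun i => subset_span (hm' i)) s1,
      hK'.cm_span.pr_mul 1 (fun i => subset_span (hm i)) s2] at this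

end

end Pool.Agent.Lib.MP_1ae3da_al.CT
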