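import Pool.Agent.Lib.MP_1ae3da_al.C.BBrA

/-! The Brauer truncation: multiplicativity, relative traces, the bijection of blocks. -/

namespace Pool.Agent.Lib.MP_1ae3da_al.CT

open Submodule

variable {p : ℕ} [Fact p.Prime] {k B L E : Type} [Field k] [CharP k p] [Ring B] [Algebra k B]
  [Group L] [Finite L] [Group E] [Finite E] {v : L → B} {ρ : E →* Module.End k B}
  {M : Subgroup L} {Br : B →ₗ[k] B}

omit [Fact p.Prime] [CharP k p] in
/-- a relative trace applied to a fixed vector is a sum of relative traces of vectors -/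
theorem RT.bbs_app {V : Type} [AddCommGroup V] [Module k V] {ρ : E →* Module.End k V}
    (P : Submodule k V) (hP : ∀ U : Subgroup E, U ≠ ⊤ → ∀ y, (∀ g ∈ U, ρ g y = y) →
      ∑ᶠ q : E ⧸ U, ρ q.out y ∈ P) {f : Module.End k V} (hf : f ∈ RT ρ) {a : V}
    (ha : ∀ g, ρ g a = a) : f a ∈ P := by
  induction hf using span_induction with
  | mem f h =>
    obtain ⟨U, hU, y, hy, rfl⟩ := h
    have := Fintype.ofFinite (E ⧸ U)
    have k := hP U hU (y a) fun g hg => (LinearMap.congr_fun (hy g hg) a).trans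
      (congrArg y (ha g))
    simpa only [finsum_eq_sum_of_fintype, LinearMap.sum_apply, Module.End.mul_apply, ha] using k
  | zero => exact zero_mem P
  | add f g _ _ a b => exact add_mem a b
  | smul c f _ a => exact smul_mem P c a

section
omit [Fact p.Prime] [CharP k p] [Finite L] [Finite E]

theorem bbs_cancel (g : E) (a : B) : ρ g (ρ g⁻¹ a) = a := by
  rw [← Module.End.mul_apply, ← map_mul, mul_inv_cancel, map_one, Module.End.one_apply]

theorem bbs_one (mul : ∀ g a b, ρ g (a * b) = ρ g a * ρ g b) (g : E) : ρ g 1 = 1 := by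
  have := mul g 1 (ρ g⁻¹ 1)
  rwa [one_mul, bbs_cancel, mul_one, eq_comm] at this

/-- the data exist -/
theorem bbs_ex (tg : TG k v) (top : span k (Set.range v) = ⊤) (cop : (Nat.card L : k) ≠ 0)
    (pg : IsPGroup p E) (mul : ∀ g a b, ρ g (a * b) = ρ g a * ρ g b)
    (stb : ∀ g x, ρ g (v x) ∈ Hm k v ⊤) : ∃ M Br, BrD p v ρ M Br := by
  classical
  let M : Subgroup L :=
    { carrier := {x | ∀ g, ∃ c : k, ρ g (v x) = c • v x}
      one_mem' := fun g => ⟨1, by rw [bbr_one tg top, bbs_one mul, one_smul]⟩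
      mul_mem' := fun {x y} hx hy g => by
        obtain ⟨c, e1⟩ := hx g
        obtain ⟨d, e2⟩ := hy g
        obtain ⟨f, f0, e3⟩ := tg.mul x y
        have := mul g (v x) (v y)
        rw [e1, e2, smul_mul_smul_comm, e3, map_smul, smul_comm] at this
        exact ⟨_, smul_right_injective B f0 this⟩
      inv_mem' := fun {x} hx g => by
        obtain ⟨c, e1⟩ := hx g
        obtain ⟨d, -, y, -, e2⟩ := stb g x⁻¹
        obtain ⟨f, f0, e3⟩ := tg.mul x x⁻¹
        obtain ⟨r, -, e4⟩ := tg.mul x y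
        have := mul g (v x) (v x⁻¹)
        rw [e1, e2, smul_mul_smul_comm, e3, e4, smul_smul, map_smul, mul_inv_cancel,
          bbr_one tg top, bbs_one mul, ← bbr_one tg top] at this
        exact ⟨d, by rw [e2, eq_inv_of_mul_eq_one_right (bbr_inj tg f0 this).1.symm]⟩ }
  refine ⟨M, (Module.Basis.mk tg.ind top.ge).constr k fun x => if x ∈ M then v x else 0,
    tg, top, cop, pg, mul, stb, fun _ => Iff.rfl, fun x hx => ?_, fun x hx => ?_⟩
  · conv_lhs => rw [← Module.Basis.mk_apply tg.ind top.ge x, Module.Basis.constr_basis, if_pos hx]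
  · rw [← Module.Basis.mk_apply tg.ind top.ge x, Module.Basis.constr_basis, if_neg hx]

theorem BrD.act (h : BrD p v ρ M Br) : ∃ _ : MulAction E L,
    (∀ (g : E) x, ∃ c : k, c ≠ 0 ∧ ρ g (v x) = c • v (g • x)) ∧
      (∀ x, x ∈ M ↔ ∀ g : E, g • x = x) ∧ ∀ (g : E) x, g • x ∈ M ↔ x ∈ M := by
  choose c c0 π _ e using h.stb
  have a1 : ∀ x, π 1 x = x := fun x => (bbr_inj h.tg (c0 1 x) (d := 1) (by
    rw [← e, map_one, one_smul, Module.End.one_apply])).1
  have a2 : ∀ g g' x, π (g * g') x = π g (π g' x) := fun g g' x =>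
    (bbr_inj h.tg (c0 (g * g') x) (d := c g' x * c g (π g' x)) (by
      rw [← e, map_mul, Module.End.mul_apply, e, map_smul, e, smul_smul])).1
  have a3 : ∀ x, x ∈ M ↔ ∀ g, π g x = x := fun x => (h.mem x).trans (forall_congr' fun g =>
    ⟨fun ⟨d, a⟩ => (bbr_inj h.tg (c0 g x) ((e g x).symm.trans a)).1,
      fun a => ⟨c g x, by rw [e, a]⟩⟩)
  refine ⟨{ smul := π, one_smul := a1, mul_smul := a2 }, fun g x => ⟨c g x, c0 g x, e g x⟩, a3,
    fun g x => (show π g x ∈ M ↔ x ∈ M from ⟨fun b => ?_, fun b => by rwa [(a3 x).1 b]⟩)⟩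
  rwa [← (a3 _).1 b g⁻¹, ← a2, inv_mul_cancel, a1] at b

theorem BrD.br_mem (h : BrD p v ρ M Br) (a : B) : Br a ∈ span k (Hm k v M) := by
  have : ⊤ ≤ (span k (Hm k v M)).comap Br := h.top ▸ span_le.2 fun _ ⟨x, e⟩ => by
    subst e
    change Br (v x) ∈ span k (Hm k v M)
    by_cases hx : x ∈ M
    · rw [h.on x hx]
      exact subset_span ⟨1, one_ne_zero, x, hx, (one_smul k _).symm⟩
    · rw [h.off x hx]
      exact zero_mem _
  exact this mem_top

theorem bbs_ext {W : Type} [AddCommGroup W] [Module k W] {f g : B →ₗ[k] W}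
    (h : ∀ x ∈ M, f (v x) = g (v x)) {a : B} (ha : a ∈ span k (Hm k v M)) : f a = g a :=
  LinearMap.eqOn_span (s := Hm k v M)
    (by rintro _ ⟨c, -, x, hx, rfl⟩; rw [map_smul, map_smul, h x hx]) ha

theorem BrD.br_of_mem (h : BrD p v ρ M Br) {a : B} (ha : a ∈ span k (Hm k v M)) : Br a = a :=
  bbs_ext (g := .id) h.on ha

theorem BrD.br_left (h : BrD p v ρ M Br) {m : B} (hm : m ∈ span k (Hm k v M)) (a : B) :
    Br (m * a) = m * Br a := by
  refine bbs_ext (f := Br ∘ₗ LinearMap.mulRight k a) (g := LinearMap.mulRight k (Br a))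
    (fun x hx => bbr_ext h.top (f := Br ∘ₗ LinearMap.mulLeft k (v x))
      (g := LinearMap.mulLeft k (v x) ∘ₗ Br) (fun y => ?_) a) hm
  obtain ⟨c, -, e⟩ := h.tg.mul x y
  change Br (v x * v y) = v x * Br (v y)
  by_cases hy : y ∈ M
  · rw [h.on y hy, e, map_smul, h.on _ (mul_mem hx hy)]
  · rw [h.off y hy, e, map_smul, h.off _ fun b => hy ((mul_mem_cancel_left hx).1 b), smul_zero,
      mul_zero]

theorem BrD.br_right (h : BrD p v ρ M Br) {m : B} (hm : m ∈ span k (Hm k v M)) (a : B) :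
    Br (a * m) = Br a * m := by
  refine bbs_ext (f := Br ∘ₗ LinearMap.mulLeft k a) (g := LinearMap.mulLeft k (Br a))
    (fun x hx => bbr_ext h.top (f := Br ∘ₗ LinearMap.mulRight k (v x))
      (g := LinearMap.mulRight k (v x) ∘ₗ Br) (fun y => ?_) a) hm
  obtain ⟨c, -, e⟩ := h.tg.mul y x
  change Br (v y * v x) = Br (v y) * v x
  by_cases hy : y ∈ M
  · rw [h.on y hy, e, map_smul, h.on _ (mul_mem hy hx)]
  · rw [h.off y hy, e, map_smul, h.off _ fun b => hy ((mul_mem_cancel_right hx).1 b), smul_zero,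
      zero_mul]

/-- naturality under semilinear automorphisms -/
theorem BrD.nat (h : BrD p v ρ M Br) {σ : RingAut k} {γ : RingAut B} (hs : SL k σ γ)
    (h1 : γ ∈ Stb (Hm k v ⊤)) (h2 : γ ∈ Stb (Hm k v M)) (a : B) : γ (Br a) = Br (γ a) := by
  have m : ∀ (c : k) x, c ≠ 0 → (c • v x ∈ Hm k v M ↔ x ∈ M) := fun c x c0 =>
    ⟨fun ⟨_, _, _, hy, e⟩ => (bbr_inj h.tg c0 e).1 ▸ hy, fun hx => ⟨c, c0, x, hx, rfl⟩⟩
  refine span_induction (p := fun a _ => γ (Br a) = Br (γ a)) ?_ (by simp)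
    (fun a b _ _ x y => by simp only [map_add, x, y])
    (fun c a _ x => by rw [map_smul, hs, hs, map_smul, x]) (h.top ▸ mem_top : a ∈ span k (Set.range v))
  rintro _ ⟨x, rfl⟩
  obtain ⟨c, c0, y, -, e⟩ := (h1 (v x)).2 ⟨1, one_ne_zero, x, trivial, (one_smul k _).symm⟩
  have i := h2 (v x)
  rw [e, m c y c0, ← one_smul k (v x), m 1 x one_ne_zero] at i
  by_cases hx : x ∈ M
  · rw [h.on x hx, e, map_smul, h.on y (i.2 hx)]
  · rw [h.off x hx, e, map_smul, h.off y fun b => hx (i.1 b), smul_zero, map_zero]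

theorem BrD.irr (h : BrD p v ρ M Br) (g : E) {e : B} (he : e ∈ Irr k (Hm k v ⊤)) :
    ρ g e ∈ Irr k (Hm k v ⊤) := by
  have c : ∀ (g : E) z, z ∈ Cen k (Hm k v ⊤) → ρ g z ∈ Cen k (Hm k v ⊤) := fun g z hz =>
    (bbr_cen h.top).2 fun a => by
      rw [← bbs_cancel (ρ := ρ) g a, ← h.mul, ← h.mul, (bbr_cen h.top).1 hz]
  refine ⟨c g e he.1, by rw [← h.mul, he.2.1], fun z => he.2.2.1 ?_, fun z hz => ?_⟩
  · rw [← bbs_cancel (ρ := ρ) g⁻¹ e, inv_inv, z, map_zero]
  · obtain ⟨d, hd⟩ := he.2.2.2 _ (c g⁻¹ z hz)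
    exact ⟨d, by rw [← map_smul, ← hd, h.mul, bbs_cancel]⟩

/-- the identity is the truncation plus relative traces from proper subgroups -/
theorem BrD.rt [Finite L] [Finite E] (h : BrD p v ρ M Br) :
    (1 : Module.End k B) - Br ∈ RT ρ := by
  classical
  have := Fintype.ofFinite L
  obtain ⟨_, a1, a2, a3⟩ := h.act
  obtain ⟨P, P1, P2⟩ : ∃ P : L → Module.End k B, (∀ x, P x (v x) = v x) ∧
      ∀ x y, y ≠ x → P x (v y) = 0 :=
    ⟨fun x => ((Module.Basis.mk h.tg.ind h.top.ge).coord x).smulRight (v x),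
      fun x => by rw [LinearMap.smulRight_apply, Module.Basis.mk_coord_apply_eq, one_smul],
      fun x y n => by rw [LinearMap.smulRight_apply, Module.Basis.mk_coord_apply_ne n, zero_smul]⟩
  have cj : ∀ (g : E) x, ρ g * P x = P (g • x) * ρ g := fun g x =>
    LinearMap.ext_on_range h.top fun y => by
      obtain ⟨c, -, e⟩ := a1 g y
      rw [Module.End.mul_apply, Module.End.mul_apply, e, map_smul]
      by_cases n : y = x
      · rw [n, P1, P1, ← n, e]
      · rw [P2 x y n, P2 _ _ fun b => n (MulAction.injective g b), map_zero, smul_zero]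
  have e : (1 : Module.End k B) - Br = ∑ x, if x ∈ M then 0 else P x :=
    LinearMap.ext_on_range h.top fun y => by
      rw [LinearMap.sum_apply, Finset.sum_eq_single y (fun x _ n => by
        split_ifs
        exacts [rfl, P2 x y n.symm]) fun n => absurd (Finset.mem_univ y) n, LinearMap.sub_apply,
        Module.End.one_apply]
      split_ifs with hy
      · rw [h.on y hy, sub_self, LinearMap.zero_apply]
      · rw [h.off y hy, sub_zero, P1]
  rw [e]
  refine bbr_orb (E := E) (RT ρ).toAddSubmonoid _ fun x => ?_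
  by_cases hx : x ∈ M
  · simp only [(a2 x).1 hx, if_pos hx, finsum_zero]
    exact zero_mem _
  · refine subset_span ⟨_, bbr_stab fun b => hx ((a2 x).2 b), P x,
      fun g hg => by rw [cj, MulAction.mem_stabilizer_iff.1 hg], finsum_congr fun q => ?_⟩
    rw [if_neg fun b => hx ((a3 _ x).1 b), cj, mul_assoc, ← map_mul, mul_inv_cancel, map_one,
      mul_one]

end

omit [Finite L] [Finite E] in
theorem BrD.fix (h : BrD p v ρ M Br) {m : B} (hm : m ∈ span k (Hm k v M)) (g : E) :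
    ρ g m = m := by
  refine bbs_ext (g := .id) (fun x hx => ?_) hm
  obtain ⟨c, e⟩ := (h.mem x).1 hx g
  obtain ⟨n, hn⟩ := h.pg g
  have a : ∀ m : ℕ, ρ (g ^ m) (v x) = c ^ m • v x := fun m => by
    induction m with
    | zero => rw [pow_zero, pow_zero, map_one, one_smul, Module.End.one_apply]
    | succ m ih => rw [pow_succ, map_mul, Module.End.mul_apply, e, map_smul, ih, smul_smul, pow_succ']
  have b := a (p ^ n)
  rw [hn, map_one, Module.End.one_apply, ← one_smul k (v x), smul_smul, mul_one] at b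
  have d : (c - 1) ^ p ^ n = 0 := by
    rw [sub_pow_char_pow, ← (bbr_inj h.tg one_ne_zero b).2, one_pow, sub_self]
  rw [e, sub_eq_zero.1 (pow_eq_zero_iff (pow_ne_zero n (Fact.out : p.Prime).ne_zero) |>.1 d),
    one_smul, LinearMap.id_apply]

omit [Finite L] [Finite E] in
theorem BrD.act_br (h : BrD p v ρ M Br) (g : E) (a : B) : ρ g (Br a) = Br a :=
  h.fix (h.br_mem a) g

omit [Finite L] [Finite E] in
theorem BrD.br_act (h : BrD p v ρ M Br) (g : E) (a : B) : Br (ρ g a) = Br a := by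
  obtain ⟨_, a1, a2, a3⟩ := h.act
  refine bbr_ext h.top (f := Br ∘ₗ ρ g) (fun x => ?_) a
  change Br (ρ g (v x)) = _
  by_cases hx : x ∈ M
  · rw [h.fix (subset_span ⟨1, one_ne_zero, x, hx, (one_smul k _).symm⟩)]
  · obtain ⟨c, -, e⟩ := a1 g x
    rw [e, map_smul, h.off x hx, h.off _ fun b => hx ((a3 g x).1 b), smul_zero]

omit [Finite L] in
/-- the truncation kills relative traces -/
theorem BrD.br_rt (h : BrD p v ρ M Br) {f : Module.End k B} (hf : f ∈ RT ρ) {a : B}
    (ha : ∀ g, ρ g a = a) : Br (f a) = 0 :=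
  bbr_kill h.pg Br h.br_act hf ha

/-- the truncation is multiplicative on fixed elements -/
theorem BrD.br_mul (h : BrD p v ρ M Br) {a b : B} (ha : ∀ g, ρ g a = a) (hb : ∀ g, ρ g b = b) :
    Br (a * b) = Br a * Br b := by
  have e : Br ((a - Br a) * b) = 0 := bbr_kill h.pg (Br ∘ₗ LinearMap.mulRight k b)
    (fun g c => by
      change Br (ρ g c * b) = Br (c * b)
      rw [← h.br_act g (c * b), h.mul, hb]) h.rt ha
  rwa [sub_mul, map_sub, h.br_left (h.br_mem a), sub_eq_zero] at e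

/-- every central element of the small algebra comes from a fixed central element -/
theorem BrD.lift (h : BrD p v ρ M Br) {z : B} (hz : z ∈ Cen k (Hm k v M)) :
    ∃ Z ∈ Cen k (Hm k v ⊤), (∀ g, ρ g Z = Z) ∧ Br Z = z := by
  classical
  have := Fintype.ofFinite L
  obtain ⟨_, a1, a2, a3⟩ := h.act
  obtain ⟨w, h1, h2, -⟩ := bbr_inv h.tg h.top
  have e : ∀ (g : E) x, ρ g (v x * z * w x) = v (g • x) * z * w (g • x) := fun g x => by
    obtain ⟨c, -, e⟩ := a1 g x
    rw [h.mul, h.mul, h.fix hz.1]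
    exact bbr_conj e (by rw [← h.mul, h1, bbs_one h.mul]) (h2 _) z
  have M0 : (Nat.card M : k) ≠ 0 := fun b => h.cop (by
    rw [← M.card_mul_index, Nat.cast_mul, b, zero_mul])
  have s := bbr_sum (k := k) h.pg (fun x => if x ∈ M then 0 else Br (v x * z * w x))
    (fun g x => by simp only [a3, ← e, h.br_act]) fun x b => if_pos ((a2 x).2 b)
  have c := (bbr_cen h.top).1 (bbr_avg h.tg h.top h1 h2 z)
  refine ⟨(Nat.card M : k)⁻¹ • ∑ x, v x * z * w x,
    (bbr_cen h.top).2 fun a => by rw [smul_mul_assoc, c, mul_smul_comm], fun g => ?_, ?_⟩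
  · rw [map_smul, map_sum, Finset.sum_congr rfl fun x _ => e g x]
    exact congrArg _ (Equiv.sum_comp (MulAction.toPerm g) fun x => v x * z * w x)
  · have t : ∀ x, Br (v x * z * w x) =
        (if x ∈ M then z else 0) + if x ∈ M then 0 else Br (v x * z * w x) := fun x => by
      split_ifs with hx
      · rw [← hz.2 _ ⟨1, one_ne_zero, x, hx, (one_smul k _).symm⟩, mul_assoc, h1, mul_one,
          h.br_of_mem hz.1, add_zero]
      · rw [zero_add]
    rw [map_smul, map_sum, Finset.sum_congr rfl fun x _ => t x, Finset.sum_add_distrib, s,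
      add_zero, ← Finset.sum_filter, Finset.sum_const, ← Nat.cast_smul_eq_nsmul k, smul_smul,
      ← Fintype.card_subtype, ← Nat.card_eq_fintype_card, inv_mul_cancel₀ M0, one_smul]

theorem BrD.br_irr (h : BrD p v ρ M Br) {e : B} (he : e ∈ Irr k (Hm k v ⊤))
    (hf : ∀ g, ρ g e = e) : Br e ∈ Irr k (Hm k v M) := by
  have t : Tf k v ((Module.Basis.mk h.tg.ind h.top.ge).coord 1) :=
    ⟨Module.Basis.mk_coord_apply_eq 1, fun x n => Module.Basis.mk_coord_apply_ne n⟩
  refine ⟨⟨h.br_mem e, fun s hs => ?_⟩, by rw [← h.br_mul hf hf, he.2.1], fun z => ?_,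
    fun z hz => ?_⟩
  · rw [← h.br_left (subset_span hs), ← h.br_right (subset_span hs), (bbr_cen h.top).1 he.1]
  · refine bbr_t h.tg h.top h.cop t he ?_
    rw [← bbr_ext h.top (f := (Module.Basis.mk h.tg.ind h.top.ge).coord 1 ∘ₗ Br) (fun x => ?_) e,
      LinearMap.comp_apply, z, map_zero]
    by_cases hx : x ∈ M
    · rw [LinearMap.comp_apply, h.on x hx]
    · rw [LinearMap.comp_apply, h.off x hx, map_zero, t.2 x fun b => hx (b ▸ one_mem M)]
  · obtain ⟨Z, h1, h2, rfl⟩ := h.lift hz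
    obtain ⟨c, hc⟩ := he.2.2.2 Z h1
    exact ⟨c, by rw [← h.br_mul h2 hf, hc, map_smul]⟩

/-- the Glauberman bijection; `hs` says that `1` is the sum of the blocks -/
theorem BrD.bij (h : BrD p v ρ M Br) (hs : ∑ᶠ e ∈ Irr k (Hm k v ⊤), e = v 1)
    (hfin : (Irr k (Hm k v ⊤)).Finite) :
    Set.BijOn Br {e | e ∈ Irr k (Hm k v ⊤) ∧ ∀ g, ρ g e = e} (Irr k (Hm k v M)) := by
  classical
  refine ⟨fun e he => h.br_irr he.1 he.2, fun e he f hf a => bbr_orth he.1 hf.1 fun z => ?_,
    fun f hf => ?_⟩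
  · have i := h.br_irr he.1 he.2
    refine i.2.2.1 ?_
    rw [← i.2.1]
    nth_rewrite 2 [a]
    rw [← h.br_mul he.2 hf.2, z, map_zero]
  · have := hfin.fintype
    let : MulAction E (Irr k (Hm k v ⊤)) :=
      { smul := fun g e => ⟨ρ g e, h.irr g e.2⟩
        one_smul := fun e => Subtype.ext (LinearMap.congr_fun (map_one ρ) e.1)
        mul_smul := fun g g' e => Subtype.ext (LinearMap.congr_fun (map_mul ρ g g') e.1) }
    by_contra n
    have s := bbr_sum (k := k) h.pg (fun e : Irr k (Hm k v ⊤) => Br e * f)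
      (fun g e => congrArg (· * f) (h.br_act g e)) fun e b => by
        have b' : ∀ g, ρ g e = e := fun g => congrArg Subtype.val (b g)
        by_contra z
        exact n ⟨e, ⟨e.2, b'⟩, bbr_orth (h.br_irr e.2 b') hf z⟩
    rw [← Finset.sum_mul, ← map_sum, ← finsum_eq_sum_of_fintype,
      finsum_set_coe_eq_finsum_mem (f := fun e => e), hs, h.on 1 (one_mem M), bbr_one h.tg h.top,
      one_mul] at s
    exact hf.2.2.1 s

end Pool.Agent.Lib.MP_1ae3da_al.CT
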