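import Pool.Agent.Lib.MP_1ae3da_al.C.Defs

/-! Wedderburn decomposition of the span of a twisted group basis. -/

namespace Pool.Agent.Lib.MP_1ae3da_al.CT

open Submodule

variable {F A : Type} [Field F] [Ring A] [Algebra F A]

/-- `W` is closed under products and has the unit `o`. -/
structure UA (W : Submodule F A) (o : A) : Prop where
  mem : o ∈ W
  mul : ∀ a ∈ W, ∀ b ∈ W, a * b ∈ W
  one_mul : ∀ a ∈ W, o * a = a
  mul_one : ∀ a ∈ W, a * o = a

/-- the algebra on `W`. -/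
def UA.R {W : Submodule F A} {o : A} (_ : UA W o) : Type := W

namespace UA
variable {W : Submodule F A} {o : A} (h : UA W o)

instance : Ring h.R :=
  { (inferInstance : AddCommGroup W) with
    mul := fun a b => ⟨a.1 * b.1, h.mul _ a.2 _ b.2⟩
    one := ⟨o, h.mem⟩
    mul_assoc := fun a b c => Subtype.ext (mul_assoc a.1 b.1 c.1)
    one_mul := fun a => Subtype.ext (h.one_mul _ a.2)
    mul_one := fun a => Subtype.ext (h.mul_one _ a.2)
    left_distrib := fun a b c => Subtype.ext (mul_add a.1 b.1 c.1)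
    right_distrib := fun a b c => Subtype.ext (add_mul a.1 b.1 c.1)
    zero_mul := fun a => Subtype.ext (zero_mul a.1)
    mul_zero := fun a => Subtype.ext (mul_zero a.1) }

instance : Algebra F h.R :=
  letI : Module F h.R := (inferInstance : Module F W)
  Algebra.ofModule (fun c a b => Subtype.ext (smul_mul_assoc c a.1 b.1))
    fun c a b => Subtype.ext (mul_smul_comm c a.1 b.1)

/-- left multiplication on `W`. -/
def lm (a : A) (ha : a ∈ W) : W →ₗ[F] W :=
  (LinearMap.mulLeft F a).restrict fun b hb => h.mul a ha b hb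

theorem semisimple [FiniteDimensional F W]
    (nd : ∀ a ∈ W, (∀ b (hb : b * a ∈ W), b ∈ W → LinearMap.trace F W (h.lm _ hb) = 0) → a = 0) :
    IsSemisimpleRing h.R := by
  have : FiniteDimensional F h.R := (inferInstance : FiniteDimensional F W)
  have := IsArtinianRing.of_finite F h.R
  rw [IsArtinianRing.isSemisimpleRing_iff_jacobson, eq_bot_iff]
  intro a ha
  refine Subtype.ext (nd a.1 a.2 fun b hb hb' => ?_)
  obtain ⟨n, hn⟩ := IsArtinianRing.isNilpotent_jacobson_bot (R := h.R)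
  rw [Ideal.jacobson_bot] at hn
  have m : (show h.R from ⟨b, hb'⟩) * a ∈ Ring.jacobson h.R := Ideal.mul_mem_left _ _ ha
  have z : ((show h.R from ⟨b, hb'⟩) * a) ^ n = 0 := by
    have := Ideal.pow_mem_pow m n
    rwa [hn, Ideal.zero_eq_bot, Ideal.mem_bot] at this
  exact (LinearMap.isNilpotent_trace_of_isNilpotent
    (IsNilpotent.map ⟨n, z⟩ (Algebra.lmul F h.R))).eq_zero

/-- the decomposition into matrix algebras -/
theorem wed [IsAlgClosed F] [FiniteDimensional F W]
    (nd : ∀ a ∈ W, (∀ b (hb : b * a ∈ W), b ∈ W → LinearMap.trace F W (h.lm _ hb) = 0) → a = 0) :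
    ∃ (n : ℕ) (d : Fin n → ℕ) (ρ : ∀ i, A →ₗ[F] Matrix (Fin (d i)) (Fin (d i)) F),
      (∀ i, 0 < d i) ∧ (∀ i, ∀ a ∈ W, ∀ b ∈ W, ρ i (a * b) = ρ i a * ρ i b) ∧
      (∀ i, ρ i o = 1) ∧ (∀ a ∈ W, (∀ i, ρ i a = 0) → a = 0) ∧
      ∀ m : ∀ i, Matrix (Fin (d i)) (Fin (d i)) F, ∃ a ∈ W, ∀ i, ρ i a = m i := by
  have := h.semisimple nd
  have : FiniteDimensional F h.R := (inferInstance : FiniteDimensional F W)
  obtain ⟨n, d, hd, ⟨φ⟩⟩ := IsSemisimpleRing.exists_algEquiv_pi_matrix_of_isAlgClosed F h.R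
  obtain ⟨ψ, hψ⟩ := LinearMap.exists_extend (p := W) (show W →ₗ[F] _ from φ.toLinearMap)
  have e : ∀ a (ha : a ∈ W), ψ a = φ ⟨a, ha⟩ := fun a ha => LinearMap.congr_fun hψ ⟨a, ha⟩
  refine ⟨n, d, fun i => (LinearMap.proj i).comp ψ, fun i => (hd i).pos, fun i a ha b hb => ?_,
    fun i => ?_, fun a ha k => ?_, fun m => ?_⟩
  · change ψ (a * b) i = ψ a i * ψ b i
    rw [e _ (h.mul a ha b hb), e a ha, e b hb]
    exact congrFun (map_mul φ ⟨a, ha⟩ ⟨b, hb⟩) i
  · change ψ o i = 1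
    rw [e o h.mem]
    exact congrFun (map_one φ) i
  · have : φ ⟨a, ha⟩ = 0 := by rw [← e a ha]; exact funext k
    exact congrArg Subtype.val ((map_eq_zero_iff φ φ.injective).1 this)
  · obtain ⟨a, ha⟩ := φ.surjective m
    exact ⟨a.1, a.2, fun i => congrFun ((e a.1 a.2).trans ha) i⟩

end UA

theorem twed_scalar {n : ℕ} {m : Matrix (Fin n) (Fin n) F} (h : ∀ x, m * x = x * m) :
    ∃ c : F, m = c • 1 := by
  obtain ⟨c, hc⟩ := Matrix.mem_range_scalar_of_commute_single (M := m) fun i j _ => (h _).symm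
  exact ⟨c, by rw [← hc, Matrix.scalar_apply, Matrix.smul_one_eq_diagonal]⟩

theorem twed_cen {S : Set A} {z : A} (hz : z ∈ Cen F S) : ∀ a ∈ span F S, z * a = a * z := by
  intro a ha
  induction ha using span_induction with
  | mem x hx => exact hz.2 x hx
  | zero => simp
  | add x y _ _ h1 h2 => rw [mul_add, add_mul, h1, h2]
  | smul c x _ h1 => rw [mul_smul_comm, smul_mul_assoc, h1]

/-- blocks of a semisimple span -/
theorem UA.blocks [IsAlgClosed F] {S : Set A} {o : A} (h : UA (span F S) o)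
    [FiniteDimensional F (span F S)]
    (nd : ∀ a ∈ span F S, (∀ b (hb : b * a ∈ span F S), b ∈ span F S →
      LinearMap.trace F (span F S) (h.lm _ hb) = 0) → a = 0) :
    ∃ (n : ℕ) (d : Fin n → ℕ) (ρ : ∀ i, A →ₗ[F] Matrix (Fin (d i)) (Fin (d i)) F) (ε : Fin n → A),
      (∀ i, MM F S (ε i) (ρ i)) ∧ Irr F S = Set.range ε ∧ Function.Injective ε ∧
      (∀ i j, i ≠ j → ε i * ε j = 0) ∧ ∑ i, ε i = o := by
  classical
  obtain ⟨n, d, ρ, pos, mul, one, inj, surj⟩ := h.wed nd
  choose ε mem hε using fun i => surj (Pi.single i 1)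
  have ext : ∀ a ∈ span F S, ∀ b ∈ span F S, (∀ i, ρ i a = ρ i b) → a = b := fun a ha b hb k =>
    sub_eq_zero.1 (inj _ (sub_mem ha hb) fun i => by rw [map_sub, k, sub_self])
  have r1 : ∀ i, ρ i (ε i) = 1 := fun i => by rw [hε, Pi.single_eq_same]
  have r0 : ∀ i j, j ≠ i → ρ j (ε i) = 0 := fun i j k => by rw [hε, Pi.single_eq_of_ne k]
  have ne : ∀ i, (1 : Matrix (Fin (d i)) (Fin (d i)) F) ≠ 0 := fun i => by
    have : Nonempty (Fin (d i)) := ⟨⟨0, pos i⟩⟩
    exact one_ne_zero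
  have sc : ∀ z ∈ Cen F S, ∀ i, ∃ c : F, ρ i z = c • 1 := fun z hz i => twed_scalar fun x => by
    obtain ⟨a, ha, e⟩ := surj (Pi.single i x)
    have := e i
    rw [Pi.single_eq_same] at this
    rw [← this, ← mul i z hz.1 a ha, twed_cen hz a ha, mul i a ha z hz.1]
  have cen : ∀ i, ε i ∈ Cen F S := fun i => ⟨mem i, fun s hs => by
    have hs' := subset_span (R := F) hs
    refine ext _ (h.mul _ (mem i) _ hs') _ (h.mul _ hs' _ (mem i)) fun j => ?_
    rw [mul j _ (mem i) _ hs', mul j _ hs' _ (mem i)]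
    by_cases k : j = i
    · subst k
      rw [r1, Matrix.one_mul, Matrix.mul_one]
    · rw [r0 i j k, zero_mul, mul_zero]⟩
  have cut : ∀ i, ∀ a ∈ span F S, ∀ b ∈ span F S, ρ i a = ρ i b → a * ε i = b * ε i :=
    fun i a ha b hb k => ext _ (h.mul _ ha _ (mem i)) _ (h.mul _ hb _ (mem i)) fun j => by
      rw [mul j _ ha _ (mem i), mul j _ hb _ (mem i)]
      by_cases e : j = i
      · subst e
        rw [k]
      · rw [r0 i j e, mul_zero, mul_zero]
  have om : ∀ i, o * ε i = ε i := fun i => h.one_mul _ (mem i)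
  have e0 : ∀ i, ε i ≠ 0 := fun i k => ne i (by rw [← r1, k, map_zero])
  have zc : ∀ z ∈ Cen F S, ∀ i (c : F), ρ i z = c • 1 → z * ε i = c • ε i := fun z hz i c k => by
    rw [cut i z hz.1 _ (smul_mem _ c h.mem) (by rw [k, map_smul, one]), smul_mul_assoc, om]
  refine ⟨n, d, ρ, ε, fun i => ⟨mul i, r1 i, fun a ha k => ?_, fun m => ?_, pos i⟩, ?_,
    fun i j k => ?_, fun i j k => ?_, ?_⟩
  · rw [cut i a ha 0 (zero_mem _) (by rw [k, map_zero]), zero_mul]
  · obtain ⟨a, ha, e⟩ := surj (Pi.single i m)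
    exact ⟨a, ha, by rw [e, Pi.single_eq_same]⟩
  · ext e
    constructor
    · rintro ⟨c1, c2, c3, c4⟩
      obtain ⟨i, hi⟩ : ∃ i, ρ i e ≠ 0 := not_forall.1 fun k => c3 (inj e c1.1 k)
      obtain ⟨c, hc⟩ := sc e c1 i
      obtain ⟨c', hc'⟩ := c4 _ (cen i)
      have a1 : c * c = c := by
        have := mul i e c1.1 e c1.1
        rw [c2, hc, smul_mul_smul_comm, Matrix.one_mul] at this
        exact (smul_left_injective F (ne i) this).symm
      have a2 : c ≠ 0 := fun k => hi (by rw [hc, k, zero_smul])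
      obtain rfl : c = 1 := mul_left_cancel₀ a2 (a1.trans (_root_.mul_one c).symm)
      have a3 : c' = 1 := by
        have := mul i _ (mem i) e c1.1
        rw [hc', map_smul, r1, Matrix.one_mul] at this
        exact smul_left_injective F hi (this.trans (one_smul _ _).symm)
      refine ⟨i, ?_⟩
      rw [← one_smul F (ε i), ← zc e c1 i 1 hc, twed_cen c1 _ (mem i), hc', a3, one_smul]
    · rintro ⟨i, rfl⟩
      refine ⟨cen i, ?_, e0 i, fun z hz => (sc z hz i).imp fun c hc => zc z hz i c hc⟩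
      rw [zc _ (cen i) i 1 (by rw [r1, one_smul]), one_smul]
  · by_contra q
    exact ne i (by rw [← r1, k, r0 j i q])
  · rw [zc _ (cen i) j 0 (by rw [r0 i j k.symm, zero_smul]), zero_smul]
  · refine ext _ (sum_mem fun i _ => mem i) _ h.mem fun j => ?_
    rw [map_sum, one, Finset.sum_eq_single j (fun i _ k => r0 i j k.symm) (by simp), r1]

section tg
variable {G : Type} [Group G] {u : G → A}

theorem twed_ne (hu : TG F u) (x : G) : u x ≠ 0 := hu.ind.ne_zero x

theorem twed_one (hu : TG F u) (x : G) : u 1 * u x = u x ∧ u x * u 1 = u x := by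
  obtain ⟨c, c0, hc⟩ := hu.mul 1 x
  obtain ⟨d, d0, hd⟩ := hu.mul x 1
  rw [one_mul] at hc
  rw [mul_one] at hd
  have a : c • (u 1 * u x) = c • u x := by
    rw [← mul_smul_comm, ← hc, ← mul_assoc, hu.one]
  have b : d • (u x * u 1) = d • u x := by
    rw [← smul_mul_assoc, ← hd, mul_assoc, hu.one]
  exact ⟨smul_right_injective A c0 a, smul_right_injective A d0 b⟩

theorem twed_span (u : G → A) : span F (Hm F u ⊤) = span F (Set.range u) := by
  refine le_antisymm (span_le.2 ?_) (span_mono ?_)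
  · rintro _ ⟨c, -, x, -, rfl⟩
    exact smul_mem _ c (subset_span ⟨x, rfl⟩)
  · rintro _ ⟨x, rfl⟩
    exact ⟨1, one_ne_zero, x, trivial, (one_smul _ _).symm⟩

theorem twed_ua (hu : TG F u) : UA (span F (Set.range u)) (u 1) := by
  refine ⟨subset_span ⟨1, rfl⟩, fun a ha b hb => ?_, fun a ha => ?_, fun a ha => ?_⟩
  · have m := mul_mem_mul ha hb
    rw [span_mul_span] at m
    refine span_le.2 ?_ m
    rintro _ ⟨_, ⟨x, rfl⟩, _, ⟨y, rfl⟩, rfl⟩
    obtain ⟨c, -, hc⟩ := hu.mul x y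
    change u x * u y ∈ span F (Set.range u)
    rw [hc]
    exact smul_mem _ c (subset_span ⟨_, rfl⟩)
  · exact LinearMap.eqOn_span (f := LinearMap.mulLeft F (u 1)) (g := LinearMap.id)
      (by rintro _ ⟨x, rfl⟩; exact (twed_one hu x).1) ha
  · exact LinearMap.eqOn_span (f := LinearMap.mulRight F (u 1)) (g := LinearMap.id)
      (by rintro _ ⟨x, rfl⟩; exact (twed_one hu x).2) ha

theorem twed_tf (hu : TG F u) : ∃ t : A →ₗ[F] F, Tf F u t := by
  classical
  obtain ⟨t, ht⟩ := LinearMap.exists_extend ((Module.Basis.span hu.ind).coord 1)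
  have e : ∀ x, t (u x) = if x = 1 then 1 else 0 := fun x => by
    have := LinearMap.congr_fun ht (Module.Basis.span hu.ind x)
    rw [Module.Basis.coord_apply, Module.Basis.repr_self, Finsupp.single_apply] at this
    rw [← this]
    simp
  exact ⟨t, by rw [e, if_pos rfl], fun x hx => by rw [e, if_neg hx]⟩

theorem twed_tr [Finite G] (hu : TG F u) {t : A →ₗ[F] F} (ht : Tf F u t) (a : A)
    (ha : a ∈ span F (Set.range u)) :
    LinearMap.trace F _ ((twed_ua hu).lm a ha) = Nat.card G * t a := by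
  classical
  have := Fintype.ofFinite G
  induction ha using span_induction with
  | mem _ hx =>
    obtain ⟨x, rfl⟩ := hx
    obtain ⟨b, hb⟩ : ∃ b : Module.Basis G F (span F (Set.range u)), ∀ y, (b y : A) = u y :=
      ⟨Module.Basis.span hu.ind, fun y => by simp⟩
    rw [LinearMap.trace_eq_matrix_trace F b, Matrix.trace, Finset.sum_congr rfl (g := fun _ => t (u x)),
      Finset.sum_const, Nat.card_eq_fintype_card, nsmul_eq_mul, Finset.card_univ]
    intro y _
    obtain ⟨c, -, hc⟩ := hu.mul x y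
    rw [Matrix.diag_apply, LinearMap.toMatrix_apply]
    by_cases k : x = 1
    · subst k
      rw [show UA.lm _ (u 1) _ (b y) = b y from Subtype.ext ((twed_ua hu).one_mul _ (b y).2), ht.1]
      simp
    · have e : u x * b y = c • (b (x * y) : A) := by rw [hb, hb, hc]
      rw [show UA.lm _ (u x) _ (b y) = c • b (x * y) from Subtype.ext e, ht.2 x k]
      simp [k]
  | zero =>
    rw [show (twed_ua hu).lm 0 (zero_mem _) = 0 from LinearMap.ext fun b => Subtype.ext (zero_mul b.1)]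
    simp
  | add x y hx hy h1 h2 =>
    rw [show (twed_ua hu).lm (x + y) (add_mem hx hy) = (twed_ua hu).lm x hx + (twed_ua hu).lm y hy
      from LinearMap.ext fun b => Subtype.ext (add_mul x y b.1), map_add, h1, h2, map_add, mul_add]
  | smul c x hx h1 =>
    rw [show (twed_ua hu).lm (c • x) (smul_mem _ c hx) = c • (twed_ua hu).lm x hx
      from LinearMap.ext fun b => Subtype.ext (smul_mul_assoc c x b.1), map_smul, h1, map_smul,
      smul_eq_mul, smul_eq_mul, mul_left_comm]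

theorem twed_nd [Finite G] (hu : TG F u) {t : A →ₗ[F] F} (ht : Tf F u t) {a : A}
    (ha : a ∈ span F (Set.range u)) (h : ∀ y, t (u y * a) = 0) : a = 0 := by
  classical
  have := Fintype.ofFinite G
  obtain ⟨c, rfl⟩ := (mem_span_range_iff_exists_fun F).1 ha
  refine Finset.sum_eq_zero fun y _ => ?_
  have := h y⁻¹
  obtain ⟨d, d0, hd⟩ := hu.mul y⁻¹ y
  rw [Finset.mul_sum, map_sum, Finset.sum_eq_single y (fun z _ k => by
    obtain ⟨d, -, hd⟩ := hu.mul y⁻¹ z
    rw [mul_smul_comm, hd, map_smul, map_smul, ht.2 _ fun e => k (inv_mul_eq_one.1 e).symm,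
      smul_zero, smul_zero]) (by simp), mul_smul_comm, hd, inv_mul_cancel, map_smul, map_smul,
    ht.1] at this
  rw [(mul_eq_zero.1 this).resolve_right (by simpa using d0), zero_smul]

theorem twed_nice [Finite G] (hu : TG F u) (H : Subgroup G) (hH : (Nat.card H : F) ≠ 0) :
    Nice F (Hm F u H) := by
  refine ⟨H, inferInstance, inferInstance, fun x => u x, ⟨fun x y => hu.mul x y,
    hu.ind.comp _ Subtype.val_injective, hu.one⟩, hH, Set.ext fun a => ⟨?_, ?_⟩⟩
  · rintro ⟨c, c0, x, hx, rfl⟩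
    exact ⟨c, c0, ⟨x, hx⟩, trivial, rfl⟩
  · rintro ⟨c, c0, x, -, rfl⟩
    exact ⟨c, c0, x, x.2, rfl⟩

end tg

/-- the unit, and the Wedderburn decomposition -/
theorem Nice.wed [IsAlgClosed F] {S : Set A} (hS : Nice F S) :
    ∃ (o : A) (n : ℕ) (d : Fin n → ℕ) (ρ : ∀ i, A →ₗ[F] Matrix (Fin (d i)) (Fin (d i)) F)
      (ε : Fin n → A), o ∈ S ∧ UA (span F S) o ∧ FiniteDimensional F (span F S) ∧
      (∀ i, MM F S (ε i) (ρ i)) ∧ Irr F S = Set.range ε ∧ Function.Injective ε ∧
      (∀ i j, i ≠ j → ε i * ε j = 0) ∧ ∑ i, ε i = o := by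
  obtain ⟨G, _, _, u, hu, hG, rfl⟩ := hS
  obtain ⟨t, ht⟩ := twed_tf hu
  have e := twed_span (F := F) u
  have key : ∀ W, W = span F (Set.range u) → ∃ h : UA W (u 1), FiniteDimensional F W ∧
      ∀ a ∈ W, (∀ b (hb : b * a ∈ W), b ∈ W → LinearMap.trace F W (h.lm _ hb) = 0) → a = 0 := by
    rintro _ rfl
    refine ⟨twed_ua hu, .span_of_finite F (Set.finite_range u), fun a ha k =>
      twed_nd hu ht ha fun y => ?_⟩
    have m := subset_span (R := F) (Set.mem_range_self (f := u) y)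
    have := k _ ((twed_ua hu).mul _ m _ ha) m
    rw [twed_tr hu ht] at this
    exact (mul_eq_zero.1 this).resolve_left hG
  obtain ⟨h, fd, nd⟩ := key _ e
  obtain ⟨n, d, ρ, ε, k⟩ := h.blocks nd
  exact ⟨u 1, n, d, ρ, ε, ⟨1, one_ne_zero, 1, trivial, (one_smul _ _).symm⟩, h, fd, k⟩

theorem Nice.exists_MM [IsAlgClosed F] {S : Set A} (hS : Nice F S) {e : A} (he : e ∈ Irr F S) :
    ∃ (n : ℕ) (ρ : A →ₗ[F] Matrix (Fin n) (Fin n) F), MM F S e ρ := by
  obtain ⟨o, n, d, ρ, ε, -, -, -, h1, h2, -⟩ := hS.wed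
  obtain ⟨i, rfl⟩ := h2.le he
  exact ⟨_, _, h1 i⟩

end Pool.Agent.Lib.MP_1ae3da_al.CT
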