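import Pool.Agent.Lib.MP_1ae3da_al.C.BDef
import Pool.Agent.Lib.MP_1ae3da_al.C.BBrB
import Pool.Agent.Lib.MP_1ae3da_al.C.TWed

/-! The Brauer truncation for a coprime action. -/

namespace Pool.Agent.Lib.MP_1ae3da_al.CT

open Submodule

variable {k B L : Type} [Field k] [Ring B] [Algebra k B] [Group L] {p : ℕ} {v : L → B}
  {E : Subgroup (RingAut B)} {M : Subgroup L} {Br : B →ₗ[k] B}

/-- the action as a linear representation -/
def CA.act (h : CA k p v E M) : E →* Module.End k B where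
  toFun g := { toFun := g.1, map_add' := map_add g.1, map_smul' := h.lin g.1 g.2 }
  map_one' := rfl
  map_mul' _ _ := rfl

theorem bbr_cop (h : CA k p v E M) : (Nat.card L : k) ≠ 0 := fun e =>
  h.cop ((h.char.cast_eq_zero_iff _).1 e)

theorem bbr_brd (h : CA k p v E M) (hB : IsBr v M Br) {act : E →* Module.End k B}
    (ha : ∀ (g : E) (a : B), act g a = g.1 a) : BrD p v act M Br := by
  have := Fact.mk h.prime
  have := h.char
  have pg : IsPGroup p E := fun g => ⟨1, Subtype.ext (by rw [pow_one]; exact h.pw g.1 g.2)⟩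
  have mul : ∀ g a b, act g (a * b) = act g a * act g b := fun g a b => by
    rw [ha, ha, ha, map_mul]
  have stb : ∀ g x, act g (v x) ∈ Hm k v ⊤ := fun g x => by
    rw [ha]
    exact (h.stb g.1 g.2 _).2 ⟨1, one_ne_zero, x, trivial, (one_smul k _).symm⟩
  obtain ⟨M', Br', h'⟩ := bbs_ex h.tg h.top (bbr_cop h) pg mul stb
  refine ⟨h.tg, h.top, bbr_cop h, pg, mul, stb, fun x => ⟨fun hx g => ⟨1, ?_⟩, fun hx => ?_⟩,
    hB.1, hB.2⟩
  · rw [ha, one_smul, (h.fix x).1 hx g.1 g.2]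
  · exact (h.fix x).2 fun g hg => (ha ⟨g, hg⟩ _).symm.trans (h'.fix (subset_span
      ⟨1, one_ne_zero, x, (h'.mem x).2 hx, (one_smul k _).symm⟩) ⟨g, hg⟩)

theorem CA.brd (h : CA k p v E M) (hB : IsBr v M Br) : BrD p v h.act M Br :=
  bbr_brd h hB fun _ _ => rfl

theorem br_ex (h : CA k p v E M) : ∃ Br : B →ₗ[k] B, IsBr v M Br := by
  classical
  refine ⟨(Module.Basis.mk h.tg.ind h.top.ge).constr k fun x => if x ∈ M then v x else 0,
    fun x hx => ?_, fun x hx => ?_⟩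
  · conv_lhs =>
      rw [← Module.Basis.mk_apply h.tg.ind h.top.ge x, Module.Basis.constr_basis, if_pos hx]
  · rw [← Module.Basis.mk_apply h.tg.ind h.top.ge x, Module.Basis.constr_basis, if_neg hx]

theorem br_top (h : CA k p v E M) (a : B) : a ∈ span k (Hm k v ⊤) := bbr_span h.top ▸ mem_top

theorem br_mem (h : CA k p v E M) (hB : IsBr v M Br) (a : B) : Br a ∈ span k (Hm k v M) :=
  (h.brd hB).br_mem a

theorem br_id (hB : IsBr v M Br) {a : B} (ha : a ∈ span k (Hm k v M)) : Br a = a :=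
  bbs_ext (g := .id) hB.1 ha

theorem br_fix (h : CA k p v E M) {a : B} (ha : a ∈ span k (Hm k v M)) : ∀ g ∈ E, g a = a :=
  fun g hg => bbs_ext (f := h.act ⟨g, hg⟩) (g := .id) (fun x hx => (h.fix x).1 hx g hg) ha

theorem br_left (h : CA k p v E M) (hB : IsBr v M Br) {a : B} (ha : a ∈ span k (Hm k v M))
    (b : B) : Br (a * b) = a * Br b := (h.brd hB).br_left ha b

theorem br_right (h : CA k p v E M) (hB : IsBr v M Br) {a : B} (ha : a ∈ span k (Hm k v M))
    (b : B) : Br (b * a) = Br b * a := (h.brd hB).br_right ha b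

theorem br_mul (h : CA k p v E M) (hB : IsBr v M Br) {a b : B} (ha : ∀ g ∈ E, g a = a)
    (hb : ∀ g ∈ E, g b = b) : Br (a * b) = Br a * Br b := by
  have := Fact.mk h.prime
  have := h.char
  have := h.finL
  have := h.finE
  exact (h.brd hB).br_mul (fun g => ha g.1 g.2) fun g => hb g.1 g.2

theorem br_stb (h : CA k p v E M) {τ : RingAut k} {γ : RingAut B} (hs : SL k τ γ)
    (h1 : γ ∈ Stb (Hm k v ⊤)) (h2 : γ ∈ Subgroup.normalizer (E : Set (RingAut B))) :
    γ ∈ Stb (Hm k v M) := fun a => by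
  have m : ∀ a, a ∈ Hm k v M ↔ a ∈ Hm k v ⊤ ∧ ∀ g ∈ E, g a = a := fun a =>
    ⟨fun ha => ⟨ha.imp fun _ k => ⟨k.1, k.2.imp fun _ k => ⟨trivial, k.2⟩⟩,
      br_fix h (subset_span ha)⟩, fun ⟨⟨c, c0, x, _, e⟩, k⟩ => ⟨c, c0, x,
        (h.fix x).2 fun g hg => smul_right_injective B c0 (by
          have := k g hg
          rwa [e, h.lin g hg] at this), e⟩⟩
  rw [m, m, h1 a]
  refine and_congr_right fun _ => ⟨fun k g hg => γ.injective ?_, fun k g hg => ?_⟩
  · have := k _ ((Subgroup.mem_normalizer_iff.1 h2 g).1 hg)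
    exact (congrArg (fun b => γ (g b)) (γ.symm_apply_apply a)).symm.trans this
  · have := k _ ((Subgroup.mem_normalizer_iff''.1 h2 g).1 hg)
    exact (γ.apply_symm_apply _).symm.trans (congrArg γ this)

theorem br_nat (h : CA k p v E M) (hB : IsBr v M Br) {τ : RingAut k} {γ : RingAut B}
    (hs : SL k τ γ) (h1 : γ ∈ Stb (Hm k v ⊤)) (h2 : γ ∈ Stb (Hm k v M)) (a : B) :
    Br (γ a) = γ (Br a) := ((h.brd hB).nat hs h1 h2 a).symm

theorem br_inv (h : CA k p v E M) (hB : IsBr v M Br) (a : B) : ∀ g ∈ E, Br (g a) = Br a := by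
  have := Fact.mk h.prime
  have := h.char
  exact fun g hg => (h.brd hB).br_act ⟨g, hg⟩ a

theorem br_bij (h : CA k p v E M) (hB : IsBr v M Br) :
    Set.BijOn Br {e | e ∈ Irr k (Hm k v ⊤) ∧ ∀ g ∈ E, g e = e} (Irr k (Hm k v M)) := by
  have := Fact.mk h.prime
  have := h.char
  have := h.finL
  have := h.finE
  have := h.alg
  obtain ⟨o, n, d, ρ, ε, -, u, -, -, e, i, -, s⟩ := Nice.wed (twed_nice h.tg ⊤ (by
    rw [Subgroup.card_top]; exact bbr_cop h))
  have b := (h.brd hB).bij (by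
    rw [e, finsum_mem_range i, finsum_eq_sum_of_fintype, s, bbr_one h.tg h.top,
      ← u.mul_one 1 (br_top h 1), one_mul]) (e ▸ Set.finite_range ε)
  have q : {e | e ∈ Irr k (Hm k v ⊤) ∧ ∀ g ∈ E, g e = e} =
      {e | e ∈ Irr k (Hm k v ⊤) ∧ ∀ g, h.act g e = e} :=
    Set.ext fun e => and_congr_right fun _ => ⟨fun k g => k g.1 g.2, fun k g hg => k ⟨g, hg⟩⟩
  rwa [q]

theorem br_rt (h : CA k p v E M) (hB : IsBr v M Br) (act : E →* Module.End k B)
    (ha : ∀ (g : E) (a : B), act g a = g.1 a) : 1 - Br ∈ RT act := by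
  have := h.finL
  have := h.finE
  exact (bbr_brd h hB ha).rt

end Pool.Agent.Lib.MP_1ae3da_al.CT
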