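import Pool.Agent.Lib.MP_1ae3da_al.C.Defs

/-! The Brauer truncation of a twisted group algebra of a `p'`-group under a `p`-group. -/

namespace Pool.Agent.Lib.MP_1ae3da_al.CT

open Submodule

/-- a sum over a finite set with a group action is a sum of orbit sums -/
theorem bbr_orb {E X W : Type} [Group E] [Finite E] [Fintype X] [MulAction E X] [AddCommMonoid W]
    (P : AddSubmonoid W) (f : X → W)
    (h : ∀ x, ∑ᶠ q : E ⧸ MulAction.stabilizer E x, f (q.out • x) ∈ P) : ∑ x, f x ∈ P := by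
  classical
  have := Fintype.ofFinite (MulAction.orbitRel.Quotient E X)
  rw [← Finset.sum_fiberwise Finset.univ
    (fun x => (Quotient.mk'' x : MulAction.orbitRel.Quotient E X))]
  refine P.sum_mem fun ω _ => ?_
  have := Fintype.ofFinite (E ⧸ MulAction.stabilizer E ω.out)
  have k := h ω.out
  have e : ∀ q : E ⧸ MulAction.stabilizer E ω.out,
      q.out • ω.out = MulAction.ofQuotientStabilizer E ω.out q := fun q => by
    rw [← MulAction.ofQuotientStabilizer_mk, QuotientGroup.out_eq']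
  rw [finsum_eq_sum_of_fintype] at k
  refine Eq.subst (motive := (· ∈ P)) (Finset.sum_bij (fun q _ => q.out • ω.out) (fun q _ => ?_)
    (fun q _ q' _ a => ?_) (fun x hx => ?_) fun _ _ => rfl) k
  · refine Finset.mem_filter.2 ⟨Finset.mem_univ _, ?_⟩
    exact (Quotient.sound' (MulAction.mem_orbit _ _)).trans ω.out_eq'
  · exact MulAction.injective_ofQuotientStabilizer E ω.out ((e q).symm.trans (a.trans (e q')))
  · obtain ⟨g, hg⟩ : x ∈ MulAction.orbit E ω.out :=
      Quotient.exact' ((Finset.mem_filter.1 hx).2.trans ω.out_eq'.symm)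
    exact ⟨g, Finset.mem_univ _, (e g).trans hg⟩

variable {p : ℕ} [Fact p.Prime] {k B L E : Type} [Field k] [CharP k p] [Ring B] [Algebra k B]
  [Group L] [Finite L] [Group E] [Finite E]

theorem bbr_index (hE : IsPGroup p E) {U : Subgroup E} (hU : U ≠ ⊤) :
    (Nat.card (E ⧸ U) : k) = 0 := by
  obtain ⟨n, hn⟩ := hE.index U
  rw [CharP.cast_eq_zero_iff k p, ← Subgroup.index_eq_card, hn]
  exact dvd_pow_self p fun e => hU (Subgroup.index_eq_one.1 (by rw [hn, e, pow_zero]))

omit [Finite E] in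
theorem bbr_stab {X : Type} [MulAction E X] {x : X} (h : ¬∀ g : E, g • x = x) :
    MulAction.stabilizer E x ≠ ⊤ := fun e => h fun g =>
  MulAction.mem_stabilizer_iff.1 (e ▸ Subgroup.mem_top g)

/-- an invariant function that vanishes on the fixed points has sum zero -/
theorem bbr_sum (hE : IsPGroup p E) {X W : Type} [Fintype X] [MulAction E X] [AddCommGroup W]
    [Module k W] (f : X → W) (h : ∀ (g : E) x, f (g • x) = f x)
    (h0 : ∀ x, (∀ g : E, g • x = x) → f x = 0) : ∑ x, f x = 0 := by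
  refine bbr_orb (E := E) ⊥ f fun x => AddSubmonoid.mem_bot.2 ?_
  have := Fintype.ofFinite (E ⧸ MulAction.stabilizer E x)
  simp only [h]
  rw [finsum_eq_sum_of_fintype, Finset.sum_const, Finset.card_univ, ← Nat.card_eq_fintype_card]
  by_cases a : ∀ g : E, g • x = x
  · rw [h0 x a, smul_zero]
  · rw [← Nat.cast_smul_eq_nsmul k, bbr_index hE (bbr_stab a), zero_smul]

/-- an invariant functional kills the relative traces of fixed vectors -/
theorem bbr_kill (hE : IsPGroup p E) {V W : Type} [AddCommGroup V] [Module k V] [AddCommGroup W]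
    [Module k W] {ρ : E →* Module.End k V} (φ : V →ₗ[k] W) (hφ : ∀ g a, φ (ρ g a) = φ a)
    {f : Module.End k V} (hf : f ∈ RT ρ) {a : V} (ha : ∀ g, ρ g a = a) : φ (f a) = 0 := by
  induction hf using span_induction with
  | mem f h =>
    obtain ⟨U, hU, y, -, rfl⟩ := h
    have := Fintype.ofFinite (E ⧸ U)
    simp only [finsum_eq_sum_of_fintype, LinearMap.sum_apply, Module.End.mul_apply, ha, map_sum,
      hφ]
    rw [Finset.sum_const, Finset.card_univ, ← Nat.card_eq_fintype_card,
      ← Nat.cast_smul_eq_nsmul k, bbr_index hE hU, zero_smul]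
  | zero => exact map_zero φ
  | add f g _ _ a b => rw [LinearMap.add_apply, map_add, a, b, add_zero]
  | smul c f _ a => rw [LinearMap.smul_apply, map_smul, a, smul_zero]

omit [Fact p.Prime] [CharP k p] in
/-- relative traces pass along equivariant maps -/
theorem RT.bbr_map {V W : Type} [AddCommGroup V] [Module k V] [AddCommGroup W] [Module k W]
    {ρ : E →* Module.End k V} {ρ' : E →* Module.End k W} (i : W →ₗ[k] V) (r : V →ₗ[k] W)
    (hi : ∀ g a, i (ρ' g a) = ρ g (i a)) (hr : ∀ g a, r (ρ g a) = ρ' g (r a))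
    {f : Module.End k V} (hf : f ∈ RT ρ) : r ∘ₗ f ∘ₗ i ∈ RT ρ' := by
  induction hf using span_induction with
  | mem f h =>
    obtain ⟨U, hU, y, hy, rfl⟩ := h
    have := Fintype.ofFinite (E ⧸ U)
    refine subset_span ⟨U, hU, r ∘ₗ y ∘ₗ i, fun g hg => LinearMap.ext fun a => ?_,
      LinearMap.ext fun a => ?_⟩
    · change ρ' g (r (y (i a))) = r (y (i (ρ' g a)))
      rw [hi, ← hr]
      exact congrArg r (LinearMap.congr_fun (hy g hg) (i a))
    · simp only [finsum_eq_sum_of_fintype, LinearMap.sum_apply, Module.End.mul_apply, map_sum,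
        LinearMap.comp_apply, hi, hr]
  | zero => rw [LinearMap.zero_comp, LinearMap.comp_zero]; exact zero_mem _
  | add f g _ _ a b => rw [LinearMap.add_comp, LinearMap.comp_add]; exact add_mem a b
  | smul c f _ a => rw [LinearMap.smul_comp, LinearMap.comp_smul]; exact smul_mem _ c a

variable (p) in
/-- `E` acts on the twisted group algebra `B` of `L`, `M` is the fixed subgroup and `Br` is the
truncation to `M` -/
structure BrD (v : L → B) (ρ : E →* Module.End k B) (M : Subgroup L) (Br : B →ₗ[k] B) : Prop where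
  tg : TG k v
  top : span k (Set.range v) = ⊤
  cop : (Nat.card L : k) ≠ 0
  pg : IsPGroup p E
  mul : ∀ g a b, ρ g (a * b) = ρ g a * ρ g b
  stb : ∀ g x, ρ g (v x) ∈ Hm k v ⊤
  mem : ∀ x, x ∈ M ↔ ∀ g, ∃ c : k, ρ g (v x) = c • v x
  on : ∀ x ∈ M, Br (v x) = v x
  off : ∀ x, x ∉ M → Br (v x) = 0

section basic
omit [Fact p.Prime] [CharP k p] [Finite L]
variable {v : L → B}

omit [Group L] in
theorem bbr_ext (top : span k (Set.range v) = ⊤) {W : Type} [AddCommGroup W] [Module k W]
    {f g : B →ₗ[k] W} (h : ∀ x, f (v x) = g (v x)) (a : B) : f a = g a :=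
  LinearMap.congr_fun (LinearMap.ext_on_range top h) a

theorem bbr_inj (hv : TG k v) {c d : k} {x y : L} (hc : c ≠ 0) (h : c • v x = d • v y) :
    x = y ∧ c = d := by
  have a : x = y := hv.ind.eq_of_smul_apply_eq_smul_apply c d x y hc h
  subst a
  exact ⟨rfl, smul_left_injective k (hv.ind.ne_zero x) h⟩

theorem bbr_one (hv : TG k v) (top : span k (Set.range v) = ⊤) : v 1 = 1 := by
  have a : ∀ x, v 1 * v x = v x := fun x => by
    obtain ⟨c, c0, e⟩ := hv.mul 1 x
    rw [one_mul] at e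
    have : (c * c) • v x = c • v x := by
      rw [mul_smul, ← e, ← mul_smul_comm, ← e, ← mul_assoc, hv.one]
    rw [e, mul_right_cancel₀ c0 ((bbr_inj hv (mul_ne_zero c0 c0) this).2.trans (one_mul c).symm),
      one_smul]
  exact (mul_one _).symm.trans (bbr_ext top (f := LinearMap.mulLeft k (v 1)) (g := .id) a 1)

theorem bbr_inv (hv : TG k v) (top : span k (Set.range v) = ⊤) : ∃ w : L → B,
    (∀ x, v x * w x = 1) ∧ (∀ x, w x * v x = 1) ∧ ∀ x, ∃ c : k, c ≠ 0 ∧ w x = c • v x⁻¹ := by
  choose c c0 e using hv.mul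
  have a : ∀ x y, x * y = 1 → v x * ((c x y)⁻¹ • v y) = 1 ∧ (c x y)⁻¹ • v x * v y = 1 :=
    fun x y h => by
      rw [mul_smul_comm, smul_mul_assoc, e, h, bbr_one hv top, smul_smul,
        inv_mul_cancel₀ (c0 x y), one_smul]
      exact ⟨rfl, rfl⟩
  refine ⟨fun x => (c x x⁻¹)⁻¹ • v x⁻¹, fun x => (a x _ (mul_inv_cancel x)).1, fun x => ?_,
    fun x => ⟨_, inv_ne_zero (c0 _ _), rfl⟩⟩
  exact (congrArg (· * v x) (left_inv_eq_right_inv (a _ x (inv_mul_cancel x)).2
    (a x _ (mul_inv_cancel x)).1).symm).trans (a _ x (inv_mul_cancel x)).2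

theorem bbr_conj {s s' t t' : B} {c : k} (h : s = c • t) (h1 : s * s' = 1) (h2 : t' * t = 1)
    (a : B) : s * a * s' = t * a * t' := by
  have : t' = c • s' := by
    rw [← mul_one t', ← h1, h, ← mul_assoc, mul_smul_comm, h2, smul_mul_assoc, one_mul]
  rw [this, h, smul_mul_assoc, smul_mul_assoc, mul_smul_comm]

theorem bbr_span (top : span k (Set.range v) = ⊤) : span k (Hm k v ⊤) = ⊤ :=
  top_unique (top.ge.trans (span_mono fun _ ⟨x, e⟩ =>
    ⟨1, one_ne_zero, x, trivial, e.symm.trans (one_smul k _).symm⟩))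

theorem bbr_cen (top : span k (Set.range v) = ⊤) {z : B} :
    z ∈ Cen k (Hm k v ⊤) ↔ ∀ a, z * a = a * z :=
  ⟨fun h => bbr_ext top (f := LinearMap.mulLeft k z) (g := LinearMap.mulRight k z) fun x =>
    h.2 _ ⟨1, one_ne_zero, x, trivial, (one_smul k _).symm⟩,
    fun h => ⟨bbr_span top ▸ mem_top, fun s _ => h s⟩⟩

/-- two primitive central idempotents are equal or orthogonal -/
theorem bbr_orth {S : Set B} {e f : B} (he : e ∈ Irr k S) (hf : f ∈ Irr k S) (h : e * f ≠ 0) :
    e = f := by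
  obtain ⟨c, hc⟩ := hf.2.2.2 e he.1
  obtain ⟨d, hd⟩ := he.2.2.2 f hf.1
  have cm : e * f = f * e := by
    refine span_induction (p := fun a _ => e * a = a * e) he.1.2 (by simp)
      (fun a b _ _ x y => by rw [mul_add, add_mul, x, y])
      (fun r a _ x => by rw [mul_smul_comm, smul_mul_assoc, x]) hf.1.1
  have one : ∀ {e f : B} {c : k}, e * e = e → e * f ≠ 0 → e * f = c • f → e * f = f :=
    fun {e f c} a b d => by
      have x : c • (e * f) = (1 : k) • (e * f) := by
        rw [← mul_smul_comm, ← d, ← mul_assoc, a, one_smul]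
      rw [d, smul_left_injective k b x, one_smul]
  rw [← one hf.2.1 (cm ▸ h) hd, ← cm, one he.2.1 h hc]

end basic

omit [Fact p.Prime] [CharP k p] [Finite L] in
/-- the averaging map -/
theorem bbr_avg {v w : L → B} [Fintype L] (hv : TG k v) (top : span k (Set.range v) = ⊤)
    (h1 : ∀ x, v x * w x = 1) (h2 : ∀ x, w x * v x = 1) (a : B) :
    ∑ x, v x * a * w x ∈ Cen k (Hm k v ⊤) := by
  refine ⟨bbr_span top ▸ mem_top, ?_⟩
  rintro _ ⟨c, -, y, -, rfl⟩
  rw [mul_smul_comm, smul_mul_assoc, Finset.mul_sum, Finset.sum_mul,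
    ← Equiv.sum_comp (Equiv.mulLeft y)]
  refine congrArg _ (Finset.sum_congr rfl fun x _ => ?_)
  obtain ⟨d, -, e⟩ := hv.mul y x
  rw [Equiv.coe_mulLeft, ← bbr_conj (s' := w x * w y) e
    (by rw [mul_assoc, ← mul_assoc (v x), h1, one_mul, h1]) (h2 _) a]
  simp only [mul_assoc, h2, mul_one]

omit [Fact p.Prime] [CharP k p] in
/-- the coefficient of `1` in a primitive central idempotent is not zero -/
theorem bbr_t {v : L → B} (hv : TG k v) (top : span k (Set.range v) = ⊤)
    (cop : (Nat.card L : k) ≠ 0) {t : B →ₗ[k] k} (ht : Tf k v t) {e : B}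
    (he : e ∈ Irr k (Hm k v ⊤)) : t e ≠ 0 := fun h => by
  classical
  have := Fintype.ofFinite L
  obtain ⟨w, h1, h2, h3⟩ := bbr_inv hv top
  have one := bbr_one hv top
  have tc : ∀ x a, t (v x * a * w x) = t a := fun x =>
    bbr_ext top (f := t ∘ₗ LinearMap.mulRight k (w x) ∘ₗ LinearMap.mulLeft k (v x)) fun y => by
      change t (v x * v y * w x) = _
      by_cases a : y = 1
      · rw [a, one, mul_one, h1]
      · obtain ⟨c, -, e1⟩ := hv.mul x y
        obtain ⟨d, -, e2⟩ := h3 x
        obtain ⟨f, -, e3⟩ := hv.mul (x * y) x⁻¹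
        rw [e1, e2, smul_mul_assoc, mul_smul_comm, e3, map_smul, map_smul, map_smul, ht.2 y a,
          ht.2 _ (by simpa using a), smul_zero, smul_zero, smul_zero]
  have z : ∀ a, t (a * e) = 0 := fun a => by
    obtain ⟨c, hc⟩ := he.2.2.2 _ (bbr_avg hv top h1 h2 a)
    have b := congrArg t hc
    rw [map_smul, h, smul_zero, Finset.sum_mul, map_sum,
      Finset.sum_congr rfl (g := fun _ => t (a * e)) fun x _ => by
        rw [mul_assoc, ← (bbr_cen top).1 he.1, ← mul_assoc, mul_assoc _ a, tc],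
      Finset.sum_const, Finset.card_univ, ← Nat.card_eq_fintype_card, nsmul_eq_mul] at b
    exact (mul_eq_zero.1 b).resolve_left cop
  refine he.2.2.1 ((Module.Basis.mk hv.ind top.ge).forall_coord_eq_zero_iff.1 fun x => ?_)
  rw [← z (w x)]
  refine bbr_ext top (g := t ∘ₗ LinearMap.mulLeft k (w x)) (fun y => ?_) e
  change _ = t (w x * v y)
  by_cases a : y = x
  · rw [a, Module.Basis.mk_coord_apply_eq, h2, ← one, ht.1]
  · obtain ⟨d, -, e2⟩ := h3 x
    obtain ⟨f, -, e3⟩ := hv.mul x⁻¹ y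
    rw [Module.Basis.mk_coord_apply_ne a, e2, smul_mul_assoc, e3, map_smul, map_smul,
      ht.2 _ fun b => a (inv_mul_eq_one.1 b).symm, smul_zero, smul_zero]

end Pool.Agent.Lib.MP_1ae3da_al.CT
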