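import Mathlib

/-! The generic element of an elementary abelian action and the data acting on it. -/

namespace Pool.Agent.Lib.MP_1ae3da_al.CT

open Matrix Module

variable {k E d n : Type} [Field k] [Fintype E] [Fintype d] [DecidableEq d] [Fintype n]
  [DecidableEq n]

/-- the field of rational functions in the variables `Y g`. -/
abbrev KY (k E : Type) [Field k] := FractionRing (MvPolynomial E k)

/-- the generic element `∑ Y g (ρ g - 1)`. -/
noncomputable def zY (ρ : E → Matrix d d k) : Matrix d d (KY k E) :=
  ∑ g, algebraMap (MvPolynomial E k) (KY k E) (MvPolynomial.X g) •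
    (ρ g - 1).map (algebraMap k (KY k E))

/-- `c` commutes with the action. -/
def Cm (ρ : E → Matrix d d k) (c : Matrix d d k) : Prop := ∀ g, c * ρ g = ρ g * c

/-- a pair of semilinear maps compatible with the action and with `Br`. -/
structure Dat (ρ : E → Matrix d d k) (Br : Matrix d d k →ₗ[k] Matrix n n k) (τ : RingAut k)
    (s : Equiv.Perm E) (m : Matrix d d k) (m' : Matrix n n k) : Prop where
  um : IsUnit m
  um' : IsUnit m'
  rho : ∀ g, m * (ρ g).map τ = ρ (s g) * m
  br : ∀ c c', Cm ρ c → Cm ρ c' → m * c.map τ = c' * m → m' * (Br c).map τ = Br c' * m'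

end Pool.Agent.Lib.MP_1ae3da_al.CT
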