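import Pool.Agent.Lib.MP_1ae3da_al.C.Defs
import Pool.Agent.Lib.MP_1ae3da_al.C.BY

/-! Definitions for the coprime action step over the residue field. -/

namespace Pool.Agent.Lib.MP_1ae3da_al.CT

section br
variable {k B L : Type} [Field k] [Ring B] [Algebra k B] [Group L]

/-- `Br` is the truncation to `M`. -/
def IsBr (v : L → B) (M : Subgroup L) (Br : B →ₗ[k] B) : Prop :=
  (∀ x ∈ M, Br (v x) = v x) ∧ ∀ x, x ∉ M → Br (v x) = 0

variable (k) in
/-- a coprime action of the elementary abelian group `E` on a twisted group algebra in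
characteristic `p`, with fixed point group `M`. -/
structure CA (p : ℕ) (v : L → B) (E : Subgroup (RingAut B)) (M : Subgroup L) : Prop where
  prime : p.Prime
  char : CharP k p
  alg : IsAlgClosed k
  finL : Finite L
  finE : Finite E
  tg : TG k v
  top : Submodule.span k (Set.range v) = ⊤
  cop : ¬ p ∣ Nat.card L
  lin : ∀ g ∈ E, Lin k g
  stb : ∀ g ∈ E, g ∈ Stb (Hm k v ⊤)
  pw : ∀ g ∈ E, g ^ p = 1
  com : ∀ g ∈ E, ∀ h ∈ E, g * h = h * g
  fix : ∀ x, x ∈ M ↔ ∀ g ∈ E, g (v x) = v x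

end br

end Pool.Agent.Lib.MP_1ae3da_al.CT
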