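import Mathlib

/-! Dimension counts for a nilpotent operator and its commutant. -/

open Module LinearMap Finset

namespace Pool.Agent.Lib.MP_1ae3da_al.CT

variable {K V : Type*} [Field K] [AddCommGroup V] [Module K V] [FiniteDimensional K V]

theorem dp_rank {U : Type*} [AddCommGroup U] [Module K U] (f : V →ₗ[K] U) (S : Submodule K V) :
    finrank K (S.map f) + finrank K ↥(S ⊓ ker f) = finrank K S := by
  rw [← finrank_range_add_finrank_ker (f.domRestrict S), range_domRestrict, ker_domRestrict,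
    ← Submodule.finrank_map_subtype_eq S (Submodule.comap _ _), Submodule.map_comap_subtype]

/-- The layers of a nilpotent operator. -/
abbrev dpQ (z : End K V) (i : ℕ) : Submodule K V := ker z ⊓ range (z ^ i)

omit [FiniteDimensional K V] in
theorem dp_mono (z : End K V) : Monotone fun i => ker (z ^ i) := fun i j h v (a : (z ^ i) v = 0) => by
  obtain ⟨k, rfl⟩ := Nat.exists_eq_add_of_le' h
  rw [mem_ker, pow_add, End.mul_apply, a, map_zero]

omit [FiniteDimensional K V] in
theorem dp_map (z : End K V) (i : ℕ) : (ker (z ^ (i + 1))).map (z ^ i) = dpQ z i := by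
  ext v
  simp only [Submodule.mem_map, mem_ker, pow_succ', End.mul_apply, Submodule.mem_inf]
  exact ⟨fun ⟨w, a, b⟩ => ⟨b ▸ a, w, b⟩, fun ⟨a, w, b⟩ => ⟨w, b ▸ a, b⟩⟩

theorem dp_sum (z : End K V) (n : ℕ) :
    ∑ i ∈ range n, finrank K (dpQ z i) = finrank K (ker (z ^ n)) := by
  induction n with
  | zero => rw [pow_zero, End.one_eq_id, ker_id, finrank_bot, sum_range_zero]
  | succ n ih =>
    rw [sum_range_succ, ih, ← dp_rank (z ^ n) (ker (z ^ (n + 1))), dp_map,
      inf_of_le_right (dp_mono z n.le_succ), add_comm]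

variable {z : End K V} {p : ℕ}

theorem dp_tot (h : z ^ p = 0) : ∑ i ∈ range p, finrank K (dpQ z i) = finrank K V := by
  rw [dp_sum, h, ker_zero, finrank_top]

omit [FiniteDimensional K V] in
theorem dp_zero (z : End K V) : dpQ z 0 = ker z := by simp [dpQ, End.one_eq_id]

omit [FiniteDimensional K V] in
theorem dp_last (h : z ^ (p + 1) = 0) : dpQ z p = range (z ^ p) :=
  inf_of_le_right (by
    rintro _ ⟨v, rfl⟩
    rw [mem_ker, ← End.mul_apply, ← pow_succ', h, LinearMap.zero_apply])

theorem dp_two (hp : 0 < p) (h : z ^ p = 0) :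
    finrank K (ker z) + (p - 1) * finrank K (range (z ^ (p - 1))) ≤ finrank K V := by
  obtain ⟨p, rfl⟩ := Nat.exists_eq_add_one_of_ne_zero hp.ne'
  rw [← dp_tot h, sum_range_succ', dp_zero, add_comm, Nat.add_sub_cancel]
  refine Nat.add_le_add_right ?_ _
  simpa using card_nsmul_le_sum (range p) (fun i => finrank K (dpQ z (i + 1)))
    (finrank K (range (z ^ p))) fun i a => dp_last h ▸ Submodule.finrank_mono (inf_le_inf_left _ (by
      obtain ⟨k, rfl⟩ := Nat.exists_eq_add_of_le (mem_range.1 a).nat_succ_le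
      rintro _ ⟨v, rfl⟩
      exact ⟨(z ^ k) v, by rw [← End.mul_apply, ← pow_add]⟩))

theorem dp_nz (hp : 0 < p) (h : z ^ p = 0) (hd : ¬ p ∣ finrank K V) :
    finrank K (range (z ^ (p - 1))) < finrank K (ker z) := by
  have a := dp_two hp h
  have b : finrank K V ≤ p * finrank K (ker z) := by
    simpa [dp_tot h] using sum_le_card_nsmul (range p) (fun i => finrank K (dpQ z i))
      (finrank K (ker z)) fun i _ => Submodule.finrank_mono inf_le_left
  obtain ⟨p, rfl⟩ := Nat.exists_eq_add_one_of_ne_zero hp.ne'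
  rw [Nat.add_sub_cancel] at a ⊢
  refine lt_of_not_ge fun c => hd ⟨finrank K (ker z), b.antisymm ?_⟩
  nlinarith [Nat.mul_le_mul_left p c]

theorem dp_sq (z : End K V) (p : ℕ) : ∑ i ∈ range p, finrank K (dpQ z i) ^ 2 ≤
    finrank K (ker (mulLeft K z - mulRight K z)) := by
  let W (i : ℕ) := ker (z ^ i)
  have e (i : ℕ) : ∃ (s : dpQ z i →ₗ[K] V) (q : V →ₗ[K] dpQ z i), (∀ y, q (s y) = y) ∧
      (∀ y, s y ∈ W (i + 1)) ∧ ∀ v ∈ W i, q v = 0 := by
    obtain ⟨s, a⟩ := ((z ^ i).restrict (p := W (i + 1)) (q := dpQ z i)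
      fun v b => dp_map z i ▸ Submodule.mem_map_of_mem b).exists_rightInverse_of_surjective
        (range_eq_top.2 fun y => by
          obtain ⟨v, b, c⟩ := (dp_map z i).ge y.2
          exact ⟨⟨v, b⟩, Subtype.ext c⟩)
    obtain ⟨ρ, b⟩ := (dpQ z i).subtype.exists_leftInverse_of_injective (Submodule.ker_subtype _)
    refine ⟨(W (i + 1)).subtype ∘ₗ s, ρ ∘ₗ (z ^ i), fun y => ?_, fun y => (s y).2,
      fun v (c : (z ^ i) v = 0) => by rw [comp_apply, c, map_zero]⟩
    exact (congrArg (fun w : dpQ z i => ρ w.1) (LinearMap.congr_fun a y)).trans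
      (LinearMap.congr_fun b y)
  choose s q e1 e2 e3 using e
  let F (k : ℕ) : Submodule K (End K V) :=
    { carrier := {a | ∀ i, ∀ v ∈ W (i + k), a v ∈ W i}
      add_mem' := fun a b i v c => add_mem (a i v c) (b i v c)
      zero_mem' := fun i v _ => zero_mem _
      smul_mem' := fun c _ a i v b => Submodule.smul_mem _ c (a i v b) }
  let T : (∀ i : Fin p, End K (dpQ z i)) →ₗ[K] End K V :=
    { toFun := fun φ => ∑ i : Fin p, s i ∘ₗ φ i ∘ₗ q i
      map_add' := fun a b => by simp [add_comp, comp_add, sum_add_distrib]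
      map_smul' := fun c a => by simp [smul_comp, comp_smul, smul_sum] }
  have T0 (φ v) : T φ v = ∑ i : Fin p, s i (φ i (q i v)) := LinearMap.sum_apply ..
  have T1 : range T ≤ F 0 := by
    rintro _ ⟨φ, rfl⟩ j v a
    rw [T0]
    refine sum_mem fun i _ => ?_
    obtain b | b := le_or_gt j i
    · rw [e3 i v (dp_mono z b a), map_zero, map_zero]
      exact zero_mem _
    · exact dp_mono z b (e2 i _)
  have T2 (φ) (a : T φ ∈ F 1) : φ = 0 := funext fun j => LinearMap.ext fun y => by
    have := e3 j _ (a j _ (e2 j y))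
    rwa [T0, map_sum, sum_eq_single j (fun i _ b => ?_) (by simp), e1, e1] at this
    obtain b | b := lt_or_gt_of_ne b
    · exact e3 _ _ (dp_mono z b (e2 i _))
    · rw [e3 i _ (dp_mono z b (e2 j y)), map_zero, map_zero, map_zero]
  have c1 : finrank K (range T) = ∑ i ∈ range p, finrank K (dpQ z i) ^ 2 := by
    rw [finrank_range_of_inj ((injective_iff_map_eq_zero T).2 fun φ a => T2 φ (a ▸ zero_mem _)),
      finrank_pi_fintype, sum_range]
    exact sum_congr rfl fun i _ => by rw [finrank_linearMap, sq]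
  have c2 : finrank K (range T) + finrank K (F 1) ≤ finrank K (F 0) := by
    rw [← Submodule.finrank_sup_add_finrank_inf_eq, show range T ⊓ F 1 = ⊥ from
      eq_bot_iff.2 fun _ ⟨⟨φ, a⟩, b⟩ => by rw [← a, T2 φ (a ▸ b), map_zero]; rfl, finrank_bot, add_zero]
    exact Submodule.finrank_mono (sup_le T1 fun a b i v c => b i v (dp_mono z i.le_succ c))
  have z1 (i v) : z v ∈ W i ↔ v ∈ W (i + 1) := by
    simp only [W, mem_ker, pow_succ, End.mul_apply]
  have c3 : (F 0).map (mulLeft K z - mulRight K z) ≤ F 1 := by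
    rintro _ ⟨a, b, rfl⟩ i v c
    exact sub_mem ((z1 i _).2 (b _ v c)) (b i _ ((z1 i v).2 c))
  have c4 := dp_rank (mulLeft K z - mulRight K z) (F 0)
  have c5 := Submodule.finrank_mono c3
  have c6 := Submodule.finrank_mono (inf_le_right (a := F 0) (b := ker (mulLeft K z - mulRight K z)))
  omega

theorem dp_num (x : ℕ → ℤ) (p : ℕ) : (p + 1 : ℤ) * (x 0 - x p) ^ 2 + 2 * (∑ i ∈ range (p + 1), x i) ^ 2 ≤
    2 * (p + 1) * ∑ i ∈ range (p + 1), x i ^ 2 := by
  obtain _ | q := p
  · simp
  have a := sq_sum_le_card_mul_sum_sq (s := range q) (f := fun i => x (i + 1))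
  have b := sum_nonneg fun i (_ : i ∈ range q) => sq_nonneg (x 0 + x (q + 1) - 2 * x (i + 1))
  simp only [sub_sq, sum_add_distrib, sum_sub_distrib, sum_const, mul_pow, ← mul_sum, card_range,
    nsmul_eq_mul] at a b
  rw [sum_range_succ x, sum_range_succ (x · ^ 2), sum_range_succ' x, sum_range_succ' (x · ^ 2)]
  push_cast
  nlinarith

theorem dp_three (hp : 0 < p) (h : z ^ p = 0) :
    p * (finrank K (ker z) - finrank K (range (z ^ (p - 1)))) ^ 2 + 2 * finrank K V ^ 2 ≤
      2 * p * finrank K (ker (mulLeft K z - mulRight K z)) := by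
  obtain ⟨p, rfl⟩ := Nat.exists_eq_add_one_of_ne_zero hp.ne'
  have a := dp_num (fun i => finrank K (dpQ z i)) p
  have b : finrank K (range (z ^ p)) ≤ finrank K (ker z) :=
    Submodule.finrank_mono (dp_last h ▸ inf_le_left)
  refine le_trans ?_ (Nat.mul_le_mul_left _ (dp_sq z (p + 1)))
  rw [← dp_tot h, Nat.add_sub_cancel]
  rw [dp_zero, dp_last h] at a
  exact_mod_cast (Nat.cast_sub (R := ℤ) b).symm ▸ a

end Pool.Agent.Lib.MP_1ae3da_al.CT
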