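import Pool.Agent.Lib.MP_1ae3da_al.C.TE

/-! The canonical lift of an elementary abelian group of automorphisms of a block. -/

namespace Pool.Agent.Lib.MP_1ae3da_al.CT

open Submodule

variable {k B : Type} [Field k] [Ring B] [Algebra k B] {S : Set B} {e w v : B}
  {a a' : RingAut B} {p : ℕ}

theorem bio_one (he : e ∈ Irr k S) : e ∈ Ln k S e 1 := ⟨he.1.1, he.2.1, he.2.2.1, he.1.2⟩

theorem bio_root (hp : p.Prime) [CharP k p] {c : k} (h : c ^ p = 1) : c = 1 := by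
  have := Fact.mk hp
  exact frobenius_inj k p (by simpa [frobenius_def] using h)

theorem bio_lin (ha : Lin k a) (n : ℕ) : Lin k (a ^ n) := by
  induction n with
  | zero => exact Lin.one
  | succ n i => exact pow_succ a n ▸ i.mul ha

theorem bio_pow [IsAlgClosed k] (hS : Nice k S) (he : e ∈ Irr k S) (ha : Lin k a)
    (h1 : a ∈ Stb S) (hw : w ∈ Ln k S e a) (n : ℕ) : w ^ (n + 1) ∈ Ln k S e (a ^ (n + 1)) := by
  induction n with
  | zero => simpa using hw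
  | succ n i =>
    rw [pow_succ w, pow_succ a]
    exact Ln_mul hS he (bio_lin ha _) (pow_mem h1 _) h1 i hw

theorem bio_exists [IsAlgClosed k] (hp : 0 < p) (hS : Nice k S) (he : e ∈ Irr k S) (ha : Lin k a)
    (h1 : a ∈ Stb S) (h2 : a e = e) (h3 : a ^ p = 1) : ∃ w ∈ Ln k S e a, w ^ p = e := by
  obtain ⟨w, hw⟩ := Ln_exists hS he ha h1 h2
  obtain ⟨n, rfl⟩ : ∃ n, p = n + 1 := ⟨p - 1, by omega⟩
  obtain ⟨c, hc, h⟩ := Ln_unique hS he Lin.one (one_mem _) (h3 ▸ bio_pow hS he ha h1 hw n)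
    (bio_one he)
  obtain ⟨d, rfl⟩ := IsAlgClosed.exists_pow_nat_eq c hp
  exact ⟨d • w, Ln_smul hw fun z => hc (by simp [z]), by rw [smul_pow, ← h]⟩

theorem bio_unique [IsAlgClosed k] (hp : p.Prime) [CharP k p] (hS : Nice k S) (he : e ∈ Irr k S)
    (ha : Lin k a) (h1 : a ∈ Stb S) (hw : w ∈ Ln k S e a) (hv : v ∈ Ln k S e a) (pw : w ^ p = e)
    (pv : v ^ p = e) : v = w := by
  obtain ⟨c, -, rfl⟩ := Ln_unique hS he ha h1 hw hv
  rw [smul_pow, pw] at pv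
  rw [bio_root hp (smul_left_injective k he.2.2.1 (pv.trans (one_smul k e).symm)), one_smul]

theorem bio_comm [IsAlgClosed k] (hp : p.Prime) [CharP k p] (hS : Nice k S) (he : e ∈ Irr k S)
    (ha : Lin k a) (ha' : Lin k a') (h1 : a ∈ Stb S) (h1' : a' ∈ Stb S) (hc : a * a' = a' * a)
    (hw : w ∈ Ln k S e a) (hv : v ∈ Ln k S e a') (pw : w ^ p = e) : w * v = v * w := by
  obtain ⟨c, -, h⟩ := Ln_unique hS he (ha.mul ha') (mul_mem h1 h1')
    (hc ▸ Ln_mul hS he ha' h1' h1 hv hw) (Ln_mul hS he ha h1 h1' hw hv)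
  have q : ∀ n : ℕ, w ^ n * v = c ^ n • (v * w ^ n) := fun n => by
    induction n with
    | zero => simp
    | succ n i =>
      rw [pow_succ' w, mul_assoc, i, mul_smul_comm, ← mul_assoc, h, smul_mul_assoc, smul_smul,
        mul_assoc, pow_succ c]
  have q1 := q p
  rw [pw, Cen_comm he.1 hv.1, hv.2.1] at q1
  rw [h, bio_root hp (smul_left_injective k hv.2.2.1 (q1.symm.trans (one_smul k v).symm)), one_smul]

/-- the lift `ι`: unique, multiplicative and natural. -/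
theorem exists_iota [IsAlgClosed k] (hp : p.Prime) [CharP k p] (hS : Nice k S) (he : e ∈ Irr k S)
    (E : Subgroup (RingAut B)) (hl : ∀ g ∈ E, Lin k g) (hs : E ≤ Stb S) (hf : E ≤ Fx e)
    (hE : ∀ g ∈ E, g ^ p = 1) (hc : ∀ g ∈ E, ∀ h ∈ E, g * h = h * g) :
    ∃ ι : E → B, (∀ g : E, ι g ∈ Ln k S e g ∧ ι g ^ p = e) ∧ ι 1 = e ∧
      (∀ g h, ι (g * h) = ι g * ι h) ∧
      (∀ g : E, ∀ w ∈ Ln k S e g, w ^ p = e → w = ι g) ∧
      ∀ (σ : RingAut k) (γ : RingAut B), SL k σ γ → γ ∈ Stb S → γ e = e → ∀ g g' : E,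
        (g' : RingAut B) = γ * g * γ⁻¹ → γ (ι g) = ι g' := by
  choose ι h1 h2 using fun g : E =>
    bio_exists hp.pos hS he (hl g g.2) (hs g.2) (hf g.2) (hE g g.2)
  have u : ∀ g : E, ∀ w ∈ Ln k S e g, w ^ p = e → w = ι g := fun g w hw pw =>
    bio_unique hp hS he (hl g g.2) (hs g.2) (h1 g) hw (h2 g) pw
  refine ⟨ι, fun g => ⟨h1 g, h2 g⟩,
    (u 1 e (bio_one he) (IsIdempotentElem.pow_eq he.2.1 hp.ne_zero)).symm, fun g h => ?_, u,
    fun σ γ s t f g g' q => u g' _ ?_ (by rw [← map_pow, h2, f])⟩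
  · refine (u (g * h) _ (Ln_mul hS he (hl g g.2) (hs g.2) (hs h.2) (h1 g) (h1 h)) ?_).symm
    rw [Commute.mul_pow (bio_comm hp hS he (hl g g.2) (hl h h.2) (hs g.2) (hs h.2)
      (hc g g.2 h h.2) (h1 g) (h1 h) (h2 g)), h2, h2, he.2.1]
  · have := s.ln (h1 g)
    rwa [stb_image.1 t, f, ← q] at this

/-- the lift in a matrix model. -/
theorem iota_mat {n : ℕ} {ρ : B →ₗ[k] Matrix (Fin n) (Fin n) k} (h : MM k S e ρ)
    {E : Subgroup (RingAut B)} (hl : ∀ g ∈ E, Lin k g) (hs : E ≤ Stb S) {ι : E → B}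
    (h1 : ∀ g : E, ι g ∈ Ln k S e g) (h2 : ι 1 = e) (h3 : ∀ g h, ι (g * h) = ι g * ι h) :
    ∃ R : E →* Matrix (Fin n) (Fin n) k, (∀ g, R g = ρ (ι g)) ∧
      ∀ g : E, ∀ b ∈ span k S, R g * ρ b = ρ (g.1 b) * R g :=
  ⟨⟨⟨fun g => ρ (ι g), by rw [h2, h.one]⟩, fun g g' =>
    (congrArg ρ (h3 g g')).trans (h.mul _ (h1 g).1 _ (h1 g').1)⟩,
    fun _ => rfl, fun g b hb => by
      change ρ (ι g) * ρ b = ρ (g.1 b) * ρ (ι g)
      rw [← h.mul _ (h1 g).1 _ hb, Ln_span (hl g g.2) (h1 g) hb, h.mul _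
        ((span_stb (GG := ⊤) (hl g g.2).mem_SG (hs g.2)).2 hb) _ (h1 g).1]⟩

end Pool.Agent.Lib.MP_1ae3da_al.CT
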