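import Pool.Agent.Lib.MP_1ae3da_al.C.BPD

/-! Twisting the generic element by commuting unipotent operators does not raise its rank. -/

namespace Pool.Agent.Lib.MP_1ae3da_al.CT

open Module LinearMap MvPolynomial TensorProduct

variable {p : ℕ} {k E : Type} [Field k]

/-- the variable `Y g` in the field of rational functions. -/
noncomputable abbrev YY (k : Type) [Field k] (g : E) : KY k E :=
  algebraMap (MvPolynomial E k) (KY k E) (X g)

theorem yy_ind : LinearIndependent k (YY k : E → KY k E) :=
  (linearIndependent_X E k).map' (IsScalarTower.toAlgHom k (MvPolynomial E k) (KY k E)).toLinearMap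
    (ker_eq_bot.2 (IsFractionRing.injective (MvPolynomial E k) (KY k E)))

theorem bp4_gen (hp : p.Prime) (L : Subfield (KY k E)) (h1 : ∀ c, algebraMap k _ c ∈ L)
    (h2 : ∀ x, x ^ p ∈ L) : Algebra.adjoin L (Set.range (YY k : E → KY k E)) = ⊤ := by
  have a (f : MvPolynomial E k) : algebraMap _ (KY k E) f ∈
      Algebra.adjoin L (Set.range (YY k : E → KY k E)) := by
    induction f using MvPolynomial.induction_on with
    | C c => exact Subalgebra.algebraMap_mem _ (⟨_, h1 c⟩ : L)
    | add f g a b => rw [map_add]; exact add_mem a b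
    | mul_X f g a => rw [map_mul]; exact mul_mem a (Algebra.subset_adjoin ⟨g, rfl⟩)
  refine eq_top_iff.2 fun x _ => ?_
  obtain ⟨f, g, -, rfl⟩ := IsFractionRing.div_surjective (A := MvPolynomial E k) x
  rw [div_eq_mul_inv]
  refine mul_mem (a f) ?_
  have := mul_mem (pow_mem (a g) (p - 1)) (Subalgebra.algebraMap_mem _
    (⟨_, h2 (algebraMap _ (KY k E) g)⁻¹⟩ : L))
  have e (y : KY k E) : y⁻¹ = y ^ (p - 1) * y⁻¹ ^ p := by
    obtain ⟨q, rfl⟩ := Nat.exists_eq_add_one_of_ne_zero hp.ne_zero
    rcases eq_or_ne y 0 with h | h <;> simp [pow_succ, h]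
  exact e _ ▸ this

theorem bp4_sig (hp : p.Prime) [CharP k p] [CommGroup E] (hE : ∀ g : E, g ^ p = 1) :
    ∃ σ : KY k E →ₐ[k] MonoidAlgebra (KY k E) E, (∀ g, σ (YY k g) = .single g (YY k g)) ∧
      ∀ x, σ (x ^ p) = algebraMap _ _ (x ^ p) := by
  have := Fact.mk hp
  have : CharP (KY k E) p := charP_of_injective_algebraMap' k p
  have : CharP (MonoidAlgebra (KY k E) E) p := charP_of_injective_algebraMap' k p
  let s : MvPolynomial E k →ₐ[k] MonoidAlgebra (KY k E) E := aeval fun g => .single g (YY k g)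
  have a (f) : s f ^ p = algebraMap (KY k E) _ (algebraMap _ _ f ^ p) := by
    induction f using MvPolynomial.induction_on with
    | C c => rw [map_pow, algHom_C, IsScalarTower.algebraMap_apply k (KY k E)]; rfl
    | add f g a b => simp only [map_add, add_pow_char, a, b]
    | mul_X f g a =>
      rw [map_mul, map_mul, mul_pow, mul_pow, map_mul, a]
      simp [s, MonoidAlgebra.single_pow, hE]
  have u (y : nonZeroDivisors (MvPolynomial E k)) : IsUnit (s y) :=
    (isUnit_pow_iff hp.ne_zero).1 (a y ▸ ((IsLocalization.map_units (KY k E) y).pow p).map _)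
  refine ⟨IsLocalization.liftAlgHom u, fun g => by simp [s], fun x => ?_⟩
  obtain ⟨⟨f, g⟩, e⟩ := IsLocalization.surj (nonZeroDivisors (MvPolynomial E k)) x
  refine ((u g).pow p).mul_right_cancel ?_
  conv_rhs => rw [a, ← map_mul, ← mul_pow, e, ← a]
  rw [map_pow, ← mul_pow]
  congr 1
  simpa using congrArg (IsLocalization.liftAlgHom (S := KY k E) u) e

theorem bp4_dim {K W : Type} [Field K] [AddCommGroup W] [Module K W] (L : Subfield K)
    (T : Submodule K W) : finrank L K * finrank K T = finrank L (T.restrictScalars L) :=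
  finrank_mul_finrank L K T

variable [Fintype E]

theorem bp4_aux (hp : p.Prime) [CommGroup E] {K : Type} [Field K] [Algebra k K] (Y : E → K)
    (σ : K →ₐ[k] MonoidAlgebra K E) (h1 : ∀ g, σ (Y g) = .single g (Y g))
    (h2 : ∀ x, σ (x ^ p) = algebraMap _ _ (x ^ p)) (h3 : ∀ L : Subfield K,
      (∀ c, algebraMap k _ c ∈ L) → (∀ x, x ^ p ∈ L) → Algebra.adjoin L (Set.range Y) = ⊤)
    {M : Type} [AddCommGroup M] [Module k M] [FiniteDimensional k M] (R : E →* End k M)
    (N : E → End k M) (h : ∀ g x, R g * N x = N x * R g) :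
    finrank K (range (∑ g, Y g • (R g * N g).baseChange K)) ≤
      finrank K (range (∑ g, Y g • (N g).baseChange K)) := by
  let A := MonoidAlgebra.lift K (End K (K ⊗[k] M)) E
    ((End.baseChangeHom k K M : _ →* _).comp R)
  have a (g c) : A (.single g c) = c • (R g).baseChange K := MonoidAlgebra.lift_single _ _ _
  let L : Subfield K := σ.toRingHom.eqLocusField (algebraMap K _)
  have t := h3 L (fun c => (σ.commutes c).trans (IsScalarTower.algebraMap_apply _ _ _ _)) h2
  have l (x : L) (v) : A (σ x) v = x • v := by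
    rw [show σ x = algebraMap K _ x from x.2, A.commutes]; rfl
  have : Module.Finite L K := by
    have := Algebra.finite_adjoin_of_finite_of_isIntegral (R := L) (Set.finite_range Y)
      fun x _ => IsIntegral.of_pow hp.pos (isIntegral_algebraMap (x := (⟨_, h2 x⟩ : L)))
    rw [t] at this
    exact .of_surjective (⊤ : Subalgebra L K).val.toLinearMap fun x => ⟨⟨x, trivial⟩, rfl⟩
  let Φ₀ : K ⊗[k] M →ₗ[k] K ⊗[k] M := TensorProduct.lift (mk₂ k (fun x m => A (σ x) (1 ⊗ₜ m))
    (by simp) (fun c m n => by
      rw [map_smul, ← algebraMap_smul K c (σ m), map_smul, LinearMap.smul_apply, algebraMap_smul])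
    (by simp [tmul_add]) (by simp))
  have f (x m) : Φ₀ (x ⊗ₜ m) = A (σ x) (1 ⊗ₜ m) := rfl
  have b (x v) : Φ₀ (x • v) = A (σ x) (Φ₀ v) := by
    induction v with
    | zero => simp
    | add v w a b => simp [a, b]
    | tmul y m => simp [smul_tmul', f]
  have c (n : End k M) (h : ∀ g, R g * n = n * R g) (v) :
      Φ₀ (n.baseChange K v) = n.baseChange K (Φ₀ v) := by
    have c (y) : A y * n.baseChange K = n.baseChange K * A y := by
      induction y using MonoidAlgebra.induction_linear with
      | zero => simp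
      | add v w a b => simp [add_mul, mul_add, a, b]
      | single g c => rw [a, smul_mul_assoc, mul_smul_comm, ← baseChange_mul, h, baseChange_mul]
    induction v with
    | zero => simp
    | add v w a b => simp [a, b]
    | tmul y m => simpa [f] using LinearMap.congr_fun (c (σ y)) (1 ⊗ₜ m)
  let Φ : K ⊗[k] M →ₗ[L] K ⊗[k] M :=
    { toFun := Φ₀, map_add' := map_add _, map_smul' x v := (b x v).trans (l x _) }
  have s (x : K) : ∀ v ∈ range Φ, x • v ∈ range Φ := by
    have : x ∈ Algebra.adjoin L (Set.range Y) := t ▸ trivial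
    induction this using Algebra.adjoin_induction with
    | algebraMap x => exact fun v h => Submodule.smul_mem _ x h
    | add x y _ _ a b => exact fun v h => add_smul x y v ▸ add_mem (a v h) (b v h)
    | mul x y _ _ a b => exact fun v h => mul_smul x y v ▸ a _ (b v h)
    | mem x hx =>
      obtain ⟨g, rfl⟩ := hx
      rintro _ ⟨v, rfl⟩
      refine ⟨Y g • (R g⁻¹).baseChange K v, (b _ _).trans ?_⟩
      rw [c _ fun x => (Commute.map (mul_comm x g⁻¹) R).eq, h1, a, LinearMap.smul_apply, ← End.mul_apply,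
        ← baseChange_mul, ← map_mul, mul_inv_cancel, map_one, baseChange_one]
      rfl
  have o (v) : v ∈ range Φ := by
    induction v with
    | zero => exact zero_mem _
    | add v w a b => exact add_mem a b
    | tmul y m => simpa [smul_tmul'] using s y (1 ⊗ₜ m) ⟨1 ⊗ₜ m, by simp [Φ, f]⟩
  have := Module.Finite.trans (R := L) K (K ⊗[k] M)
  refine Nat.le_of_mul_le_mul_left ?_ (finrank_pos (R := L) (M := K))
  rw [bp4_dim, bp4_dim]
  refine le_trans (Submodule.finrank_mono ?_) (Submodule.finrank_map_le Φ _)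
  rintro _ ⟨v, rfl⟩
  obtain ⟨v, rfl⟩ := o v
  refine ⟨_, ⟨v, rfl⟩, ?_⟩
  change Φ₀ _ = (∑ g, Y g • (R g * N g).baseChange K) (Φ₀ v)
  simp only [LinearMap.sum_apply, LinearMap.smul_apply, map_sum, b, h1, a, c _ (h · _),
    baseChange_mul, End.mul_apply]

theorem bp4 (hp : p.Prime) [CharP k p] [Group E] (hE : ∀ g : E, g ^ p = 1)
    (hc : ∀ g h : E, g * h = h * g) {M : Type} [AddCommGroup M] [Module k M]
    [FiniteDimensional k M] (R : E →* End k M) (N : E → End k M)
    (h : ∀ g x, R g * N x = N x * R g) :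
    finrank (KY k E) (range (∑ g, YY k g • (R g * N g).baseChange (KY k E))) ≤
      finrank (KY k E) (range (∑ g, YY k g • (N g).baseChange (KY k E))) := by
  let : CommGroup E := { mul_comm := hc }
  obtain ⟨σ, h1, h2⟩ := bp4_sig (k := k) hp hE
  exact bp4_aux hp _ σ h1 h2 (bp4_gen hp) R N h

end Pool.Agent.Lib.MP_1ae3da_al.CT
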