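import Pool.Agent.Lib.MP_1ae3da_al.C.BP1
import Pool.Agent.Lib.MP_1ae3da_al.C.BP4
import Pool.Agent.Lib.MP_1ae3da_al.C.BDp

/-! The dimension of the Tate quotient of the generic element. -/

namespace Pool.Agent.Lib.MP_1ae3da_al.CT

open Module LinearMap TensorProduct

variable {p : ℕ} {k E : Type} [Field k]

theorem bp_mu {K H n : Type} [Field K] [AddCommGroup H] [Module K H] [FiniteDimensional K H]
    [Fintype n] [DecidableEq n] (a : Matrix n n k →+* End K H) : Fintype.card n ∣ finrank K H := by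
  have s (v) : ∑ i, a (.single i i 1) v = v := by
    rw [← LinearMap.sum_apply, ← map_sum, Matrix.sum_single_one, map_one, End.one_apply]
  rcases isEmpty_or_nonempty n with h | ⟨⟨o⟩⟩
  · simpa [finrank_zero_iff] using ⟨fun v w => by rw [← s v, ← s w]; simp⟩
  have m (i j l v) : a (.single i j 1) (a (.single j l 1) v) = a (.single i l 1) v := by
    rw [← End.mul_apply, ← map_mul, Matrix.single_mul_single_same, mul_one]
  refine ⟨finrank K (range (a (.single o o 1))), ?_⟩
  rw [← smul_eq_mul, ← Finset.card_univ, ← Finset.sum_const, ← finrank_pi_fintype]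
  refine (LinearEquiv.ofLinearMap
    (pi fun i => codRestrict _ (a (.single o i 1)) fun v => mem_range.2 ⟨_, m o o i v⟩)
    (∑ i, a (.single i o 1) ∘ₗ Submodule.subtype _ ∘ₗ proj i) ?_ ?_).finrank_eq
  · refine LinearMap.ext fun w => funext fun i => Subtype.ext ?_
    obtain ⟨v, e⟩ := (w i).2
    change a (.single o i 1) ((∑ i, a (.single i o 1) ∘ₗ Submodule.subtype _ ∘ₗ proj i) w) = w i
    simp only [comp_apply, LinearMap.sum_apply, map_sum, proj_apply, Submodule.subtype_apply]
    rw [Finset.sum_eq_single i (fun j _ h => by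
      rw [← End.mul_apply, ← map_mul, Matrix.single_mul_single_of_ne _ _ _ _ h.symm, map_zero,
        LinearMap.zero_apply]) (by simp), m, ← e, m]
  · ext v
    simp [m, s]

theorem bp_dvd {K W S n : Type} [Field K] [AddCommGroup W] [Module K W] [FiniteDimensional K W]
    [Ring S] [Fintype n] [DecidableEq n] (j : S →+* End K W) (C : Subring S)
    (Br : S →+ Matrix n n k) (h1 : Br 1 = 1) (hm : ∀ c ∈ C, ∀ c' ∈ C, Br (c * c') = Br c * Br c')
    (hs : ∀ b, ∃ c ∈ C, Br c = b) {I T : Submodule K W} (hI : I ≤ T)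
    (h2 : ∀ c ∈ C, ∀ v ∈ T, j c v ∈ T) (h3 : ∀ c ∈ C, ∀ v ∈ I, j c v ∈ I)
    (h4 : ∀ c ∈ C, Br c = 0 → ∀ v ∈ T, j c v ∈ I) :
    Fintype.card n ∣ finrank K T - finrank K I := by
  choose s s1 s2 using hs
  let a (b) : End K (T ⧸ I.submoduleOf T) :=
    Submodule.mapQ _ _ ((j (s b)).restrict (h2 _ (s1 b))) fun v h => h3 _ (s1 b) _ h
  have e (c) (h : c ∈ C) (v : T) : a (Br c) (Submodule.mkQ _ v) =
      Submodule.mkQ _ ⟨j c v, h2 c h _ v.2⟩ := (Submodule.Quotient.eq _).2 (show j (s (Br c)) v - j c v ∈ I by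
      simpa using h4 _ (sub_mem (s1 (Br c)) h) (by simp [s2]) _ v.2)
  have := bp_mu (k := k) (RingHom.mk' (α := Matrix n n k) ⟨⟨a, ?_⟩, fun b c => ?_⟩ fun b c => ?_)
  · rwa [← (Submodule.comapSubtypeEquivOfLe hI).finrank_eq,
      ← Submodule.finrank_quotient_add_finrank (I.comap T.subtype), Nat.add_sub_cancel]
  all_goals
    refine Submodule.linearMap_qext _ (LinearMap.ext fun v => ?_)
  · simp only [comp_apply, ← h1, e _ C.one_mem, map_one, End.one_apply]
  · simp only [comp_apply, End.mul_apply]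
    rw [← s2 b, ← s2 c, ← hm _ (s1 b) _ (s1 c), e _ (mul_mem (s1 b) (s1 c)), e _ (s1 c), e _ (s1 b)]
    simp
  · simp only [comp_apply, LinearMap.add_apply, MonoidHom.coe_mk, OneHom.coe_mk]
    rw [← s2 b, ← s2 c, ← map_add, e _ (add_mem (s1 b) (s1 c)), e _ (s1 c), e _ (s1 b), ← map_add]
    simp

variable [Fintype E] {K : Type} [Field K] [Algebra k K] {Y : E → K}

theorem bp_abs (hp : p.Prime) [CharP k p] [Group E] (hE : ∀ g : E, g ^ p = 1)
    (hc : ∀ g h : E, g * h = h * g) (hY : LinearIndependent k Y) {S W : Type} [Ring S] [Algebra k S] [FiniteDimensional k S]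
    [AddCommGroup W] [Module K W] [Module k W] [IsScalarTower k K W]
    [FiniteDimensional K W] (j : S →ₐ[k] End K W)
    (h4 : ∀ (R : E →* End k S) (N : E → End k S), (∀ g x, R g * N x = N x * R g) →
      finrank K (range (∑ g, Y g • (R g * N g).baseChange K)) ≤
        finrank K (range (∑ g, Y g • (N g).baseChange K)))
    (hj : Submodule.span K (range j.toLinearMap : Set (End K W)) = ⊤)
    (hd : finrank k S = finrank K W * finrank K W) (ρ : E →* S) (π : End k S)
    (hπ : 1 - π ∈ RT (AdR k ρ)) {z : End K W} (hz : z = zz Y ((j : S →* End K W).comp ρ)) :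
    p * (finrank K (ker z) - finrank K (range (z ^ (p - 1)))) ^ 2 ≤
      2 * (p - 1) * finrank k (range π) := by
  have : CharP K p := charP_of_injective_algebraMap' k p
  let b := End.baseChangeHom k K S
  have a1 := dp_three hp.pos (hz ▸ zz_pow hp hE hc _ _ : z ^ p = 0)
  have a2 := dp_two hp.pos (zz_pow hp hE hc Y ((b : _ →* End K (K ⊗[k] S)).comp (AdR k ρ)))
  have a3 : ker (zz Y ((b : _ →* End K (K ⊗[k] S)).comp (AdR k ρ))) ≤
      range (zz Y ((b : _ →* End K (K ⊗[k] S)).comp (AdR k ρ)) ^ (p - 1)) ⊔ range (b π) := fun v h => by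
    simpa using Submodule.add_mem_sup (bp1 hp hE hc hY _ (rta_map b _ hπ) h) (mem_range_self (b π) v)
  have a4 : finrank K (range (b π)) ≤ finrank k (range π) := by
    have e : b π = (range π).subtype.baseChange _ ∘ₗ π.rangeRestrict.baseChange _ :=
      baseChange_comp π.rangeRestrict (range π).subtype
    exact (Submodule.finrank_mono (e ▸ range_comp_le_range _ _)).trans
      ((finrank_range_le _).trans_eq finrank_baseChange)
  have a5 := ((Submodule.finrank_mono a3).trans (Submodule.finrank_add_le_finrank_add_finrank _ _))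
  have a6 := h4
    { toFun g := mulRight k (ρ g⁻¹), map_one' := by ext; simp, map_mul' g h := by ext; simp [mul_assoc] }
    (fun g => mulLeft k (ρ g) - mulRight k (ρ g)) fun g x => by
      ext
      simp [sub_mul, mul_assoc, ← map_mul, hc x]
  have e : ∑ g, Y g • ((mulRight k (ρ g⁻¹)) * (mulLeft k (ρ g) - mulRight k (ρ g))).baseChange
      K = zz Y ((b : _ →* End K (K ⊗[k] S)).comp (AdR k ρ)) := Finset.sum_congr rfl fun g _ => by
    congr 1
    refine Eq.trans (congrArg b ?_) ((map_sub b (AdR k ρ g) 1).trans (by simp))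
    ext
    simp [sub_mul, mul_assoc, ← map_mul, adR_apply]
  replace a6 := (congrArg (fun f => finrank K (range f)) e).ge.trans a6
  set N := ∑ g, Y g • (mulLeft k (ρ g) - mulRight k (ρ g)).baseChange K with hN
  have s : Function.Surjective (j.toLinearMap.liftBaseChange K) :=
    range_eq_top.1 ((range_liftBaseChange _ _).trans hj)
  have i := (injective_iff_surjective_of_finrank_eq_finrank
    (finrank_baseChange.trans (hd.trans (finrank_linearMap _ _ _ _).symm))).2 s
  have a7 : ker (mulLeft K z - mulRight K z) ≤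
      (ker N).map (j.toLinearMap.liftBaseChange K) := fun x h => by
    obtain ⟨v, rfl⟩ := s x
    refine ⟨v, i ((Eq.trans ?_ h).trans (map_zero _).symm), rfl⟩
    clear h
    induction v with
    | zero => simp
    | add v w a b => simp only [map_add, a, b]
    | tmul y m => simp [hN, hz, zz, Finset.sum_mul, Finset.mul_sum, sub_mul, mul_sub, smul_sub,
        Finset.smul_sum, smul_comm y]
  have a8 := (Submodule.finrank_mono a7).trans (Submodule.finrank_map_le _ _)
  have a9 := finrank_range_add_finrank_ker N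
  have a0 := finrank_range_add_finrank_ker (zz Y ((b : _ →* End K (K ⊗[k] S)).comp (AdR k ρ)))
  rw [finrank_baseChange, hd] at a2
  obtain ⟨q, rfl⟩ := Nat.exists_eq_add_one_of_ne_zero hp.ne_zero
  rw [Nat.add_sub_cancel] at *
  nlinarith [Nat.mul_le_mul_left q (a5.trans (Nat.add_le_add_left a4 _)),
    Nat.mul_le_mul_left (q + 1) (a8.trans (by omega : _ ≤ finrank K (ker
      (zz Y ((b : _ →* End K (K ⊗[k] S)).comp (AdR k ρ))))))]

open Matrix in
theorem bp_gen {d n : Type} [Fintype d] [DecidableEq d] [Fintype n] [DecidableEq n] {p : ℕ}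
    (hp : p.Prime) [CharP k p] [Group E] (hE : ∀ g : E, g ^ p = 1)
    (hc : ∀ g h : E, g * h = h * g) (hY : LinearIndependent k Y) (ρ : E →* Matrix d d k) (hd : ¬ p ∣ Fintype.card d)
    (Br : Matrix d d k →ₗ[k] Matrix n n k) (h1 : Br 1 = 1)
    (hm : ∀ c c', Cm ρ c → Cm ρ c' → Br (c * c') = Br c * Br c')
    (hs : ∀ b, ∃ c, Cm ρ c ∧ Br c = b) (π : End k (Matrix d d k))
    (hπ : 1 - π ∈ RT (AdR k ρ)) (h0 : ∀ c, Br c = 0 → π c = 0)
    (h4 : ∀ (R : E →* End k (Matrix d d k)) (N : E → End k (Matrix d d k)), (∀ g x, R g * N x = N x * R g) →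
      finrank K (range (∑ g, Y g • (R g * N g).baseChange K)) ≤
        finrank K (range (∑ g, Y g • (N g).baseChange K)))
    {z : Matrix d d K} (e0 : z = ∑ g, Y g • (ρ g - 1).map (algebraMap k K)) :
    z ^ (p - 1 + 1) = 0 ∧
      (∀ c, Cm ρ c → Br c = 0 → ∀ v, z *ᵥ v = 0 →
        ∃ w, c.map (algebraMap k K) *ᵥ v = z ^ (p - 1) *ᵥ w) ∧
      finrank K (LinearMap.ker z.mulVecLin) =
        finrank K (LinearMap.range (z ^ (p - 1)).mulVecLin) + Fintype.card n := by
  have : CharP K p := charP_of_injective_algebraMap' k p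
  let t := toLinAlgEquiv' (R := K) (n := d)
  let j := (t.toAlgHom.restrictScalars k).comp (Algebra.ofId k K).mapMatrix
  have hj (c) : j c = t (c.map (algebraMap k K)) := rfl
  have hz : t z = zz Y ((j : _ →* End K (d → K)).comp ρ) := by
    simp only [e0, zz, map_sum, _root_.map_smul, ← hj, map_sub, map_one]; rfl
  have z0 : t z ^ p = 0 := hz ▸ zz_pow hp hE hc _ _
  have A (c) (h : Cm ρ c) (b : Br c = 0) (v) (e : v ∈ ker (t z)) :
      j c v ∈ range (t z ^ (p - 1)) := by
    rw [hz] at e ⊢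
    exact bp1 hp hE hc hY _ (rta_map j _ (by simpa [h0 c b] using rta_ad ρ hπ h)) e
  refine ⟨t.injective (by rw [Nat.sub_add_cancel hp.pos, map_pow, z0, map_zero]), fun c h b v e => ?_, ?_⟩
  · obtain ⟨w, e⟩ := A c h b v e
    exact ⟨w, by rw [← map_pow] at e; exact e.symm⟩
  rw [show z.mulVecLin = t z from rfl,
    show (z ^ (p - 1)).mulVecLin = t z ^ (p - 1) from map_pow t z _]
  have m (c) (h : Cm ρ c) : Commute (j c) (t z) :=
    hz ▸ zz_comm _ _ fun g => by simpa using congrArg j (h g)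
  have a1 := dp_nz hp.pos z0 (by simpa using hd)
  have a2 := bp_abs hp hE hc hY j h4 (eq_top_iff.2 fun f _ => by
    obtain ⟨f, rfl⟩ := t.surjective f
    rw [matrix_eq_sum_single f]
    simp only [map_sum]
    refine sum_mem fun a _ => sum_mem fun b _ => ?_
    rw [show t (single a b (f a b)) = f a b • j (single a b 1) by simp [hj, ← _root_.map_smul]]
    exact Submodule.smul_mem _ _ (Submodule.subset_span ⟨_, rfl⟩)) (by simp [Module.finrank_matrix]) ρ π hπ hz
  have a3 : finrank k (range π) ≤ Fintype.card n * Fintype.card n := by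
    have := finrank_range_add_finrank_ker π
    have := finrank_range_add_finrank_ker Br
    have := Submodule.finrank_mono (show ker Br ≤ ker π from h0)
    have := (range Br).finrank_le.trans_eq (Module.finrank_matrix k k n n)
    rw [finrank_self, mul_one] at this
    omega
  obtain ⟨x, e⟩ := bp_dvd j.toRingHom (Subring.centralizer (Set.range ρ)) Br.toAddMonoidHom h1
    (fun c a c' b => hm c c' (fun g => (a _ ⟨g, rfl⟩).symm) fun g => (b _ ⟨g, rfl⟩).symm)
    (fun b => (hs b).imp fun c h => ⟨fun _ ⟨g, e⟩ => e ▸ (h.1 g).symm, h.2⟩)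
    (I := range (t z ^ (p - 1))) (T := ker (t z))
    (by
      rintro _ ⟨v, rfl⟩
      rw [mem_ker, ← End.mul_apply, ← pow_succ', Nat.sub_add_cancel hp.pos, z0, LinearMap.zero_apply])
    (fun c a v h => (LinearMap.congr_fun (m c fun g => (a _ ⟨g, rfl⟩).symm).eq v).symm.trans
      ((congrArg (j c) h).trans (map_zero _)))
    (fun c a _ ⟨v, h⟩ => ⟨j c v, h ▸ (LinearMap.congr_fun
      ((m c fun g => (a _ ⟨g, rfl⟩).symm).pow_right _).eq v).symm⟩)
    fun c a => A c fun g => (a _ ⟨g, rfl⟩).symm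
  rw [e] at a2
  have x1 : Fintype.card n * x ≠ 0 := by omega
  have x2 := Nat.pos_of_ne_zero (left_ne_zero_of_mul x1)
  have x3 := hp.pos
  obtain rfl : x = 1 := by
    by_contra h
    have : 2 ≤ x := by have := right_ne_zero_of_mul x1; omega
    have := Nat.pow_le_pow_left (Nat.mul_le_mul_left (Fintype.card n) this) 2
    have := Nat.mul_le_mul (Nat.mul_le_mul_left 2 (Nat.sub_le p 1)) a3
    nlinarith [Nat.mul_pos x3 (Nat.mul_pos x2 x2)]
  omega

open Matrix in
theorem bp_core {d n : Type} [Fintype d] [DecidableEq d] [Fintype n] [DecidableEq n] {p : ℕ}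
    (hp : p.Prime) [CharP k p] [Group E] (hE : ∀ g : E, g ^ p = 1)
    (hc : ∀ g h : E, g * h = h * g) (ρ : E →* Matrix d d k) (hd : ¬ p ∣ Fintype.card d)
    (Br : Matrix d d k →ₗ[k] Matrix n n k) (h1 : Br 1 = 1)
    (hm : ∀ c c', Cm ρ c → Cm ρ c' → Br (c * c') = Br c * Br c')
    (hs : ∀ b, ∃ c, Cm ρ c ∧ Br c = b) (π : End k (Matrix d d k))
    (hπ : 1 - π ∈ RT (AdR k ρ)) (h0 : ∀ c, Br c = 0 → π c = 0) :
    zY ρ ^ (p - 1 + 1) = 0 ∧
      (∀ c, Cm ρ c → Br c = 0 → ∀ v, zY ρ *ᵥ v = 0 →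
        ∃ w, c.map (algebraMap k (KY k E)) *ᵥ v = zY ρ ^ (p - 1) *ᵥ w) ∧
      finrank (KY k E) (LinearMap.ker (zY ρ).mulVecLin) =
        finrank (KY k E) (LinearMap.range (zY ρ ^ (p - 1)).mulVecLin) + Fintype.card n :=
  bp_gen (z := zY ρ) (Y := YY k) hp hE hc yy_ind ρ hd Br h1 hm hs π hπ h0
    (fun R N h => bp4 hp hE hc R N h) (by unfold zY; with_reducible rfl)

end Pool.Agent.Lib.MP_1ae3da_al.CT
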