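import Pool.Agent.Lib.MP_1ae3da_al.C.BP5a

/-! The canonical line of the generic Jordan type and the crossed homomorphism on it. -/

namespace Pool.Agent.Lib.MP_1ae3da_al.CT

open Matrix Module IsLocalization

variable {k E d n : Type} [Field k]

theorem bp5_C (c : k) :
    algebraMap k (KY k E) c = algebraMap (MvPolynomial E k) (KY k E) (MvPolynomial.C c) :=
  IsScalarTower.algebraMap_apply k (MvPolynomial E k) (KY k E) c

theorem bp5_ext {f g : KY k E →+* KY k E}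
    (h1 : ∀ c, f (algebraMap k _ c) = g (algebraMap k _ c))
    (h2 : ∀ x, f (algebraMap (MvPolynomial E k) _ (MvPolynomial.X x)) =
      g (algebraMap (MvPolynomial E k) _ (MvPolynomial.X x))) : f = g :=
  IsFractionRing.ringHom_ext (A := MvPolynomial E k) fun x => RingHom.congr_fun
    (MvPolynomial.ringHom_ext (f := f.comp (algebraMap _ _)) (g := g.comp (algebraMap _ _))
      (fun c => by simpa only [bp5_C, RingHom.comp_apply] using h1 c) h2) x

/-- the automorphisms of the field of rational functions. -/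
structure bp5T (T : RingAut k → Equiv.Perm E → KY k E →+* KY k E) : Prop where
  c : ∀ τ s c, T τ s (algebraMap k _ c) = algebraMap k _ (τ c)
  x : ∀ τ s g, T τ s (algebraMap (MvPolynomial E k) _ (MvPolynomial.X g)) =
    algebraMap (MvPolynomial E k) _ (MvPolynomial.X (s g))
  int : ∀ τ s a, IsInteger (MvPolynomial E k) a → IsInteger (MvPolynomial E k) (T τ s a)

theorem bp5_T : ∃ T, bp5T (k := k) (E := E) T := by
  refine ⟨fun τ s => (IsFractionRing.ringEquivOfRingEquiv ((MvPolynomial.mapEquiv E τ).trans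
    (MvPolynomial.renameEquiv k s).toRingEquiv)).toRingHom, fun τ s c => ?_, fun τ s g => ?_, ?_⟩
  · rw [bp5_C, bp5_C]
    exact (IsFractionRing.ringEquivOfRingEquiv_algebraMap _ _).trans (by simp)
  · exact (IsFractionRing.ringEquivOfRingEquiv_algebraMap _ _).trans (by simp)
  · rintro τ s _ ⟨r, rfl⟩
    exact ⟨_, (IsFractionRing.ringEquivOfRingEquiv_algebraMap _ r).symm⟩

variable {T : RingAut k → Equiv.Perm E → KY k E →+* KY k E}

theorem bp5T.mul (h : bp5T T) (τ τ₂ : RingAut k) (s s₂ : Equiv.Perm E) :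
    T (τ * τ₂) (s * s₂) = (T τ s).comp (T τ₂ s₂) :=
  bp5_ext (fun c => by simp [h.c]) fun g => by simp [h.x]

theorem bp5T.one (h : bp5T T) : T 1 1 = RingHom.id _ :=
  bp5_ext (fun c => by simp [h.c]) fun g => by simp [h.x]

theorem bp5T.map (h : bp5T T) (τ : RingAut k) (s : Equiv.Perm E) (c : Matrix d n k) :
    (c.map (algebraMap k (KY k E))).map (T τ s) = (c.map τ).map (algebraMap k (KY k E)) := by
  ext i j; exact h.c τ s _

variable [Fintype d] [DecidableEq d] [Fintype n] [DecidableEq n]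

theorem bp5_inv {m : Matrix d d k} (h : IsUnit m) : m * m⁻¹ = 1 ∧ m⁻¹ * m = 1 :=
  ⟨mul_nonsing_inv _ ((isUnit_iff_isUnit_det _).1 h),
    nonsing_inv_mul _ ((isUnit_iff_isUnit_det _).1 h)⟩

theorem bp5_swap {m a b : Matrix d d k} (h : IsUnit m) (e : m * a = b * m) :
    m⁻¹ * b = a * m⁻¹ := by
  rw [← mul_one (m⁻¹ * b), ← (bp5_inv h).1, ← mul_assoc, mul_assoc _ b, ← e, ← mul_assoc,
    (bp5_inv h).2, one_mul]

theorem bp5_minv {m : Matrix d d k} (h : IsUnit m) (τ : RingAut k) :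
    (m.map τ)⁻¹ = m⁻¹.map τ :=
  inv_eq_right_inv (by rw [← Matrix.map_mul, (bp5_inv h).1]; simp)

omit [Fintype d] [DecidableEq d] [Fintype n] [DecidableEq n] in
theorem bp5_mm (τ : RingAut k) (c : Matrix d n k) :
    (c.map τ).map ⇑τ⁻¹ = c ∧ (c.map ⇑τ⁻¹).map τ = c :=
  ⟨by ext i j; exact τ.symm_apply_apply _, by ext i j; exact τ.apply_symm_apply _⟩

variable {ρ : E → Matrix d d k} {Br : Matrix d d k →ₗ[k] Matrix n n k} {τ : RingAut k}
  {s : Equiv.Perm E} {m : Matrix d d k} {m' : Matrix n n k}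

theorem bp5_unit (h : IsUnit m) (τ : RingAut k) : IsUnit (m⁻¹.map τ) :=
  (isUnit_nonsing_inv_iff.2 h).map τ.mapMatrix

theorem Dat.inv (h : Dat ρ Br τ s m m') :
    Dat ρ Br τ⁻¹ s⁻¹ (m⁻¹.map ⇑τ⁻¹) (m'⁻¹.map ⇑τ⁻¹) where
  um := bp5_unit h.um _
  um' := bp5_unit h.um' _
  rho g := by
    have := bp5_swap h.um (h.rho (s⁻¹ g))
    rw [show s (s⁻¹ g) = g from s.apply_symm_apply g] at this
    rw [← Matrix.map_mul, this, Matrix.map_mul, (bp5_mm τ _).1]
  br c c' hc hc' e := by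
    have a := congrArg (Matrix.map · τ) e
    simp only [Matrix.map_mul, (bp5_mm τ _).2] at a
    have b := bp5_swap (isUnit_nonsing_inv_iff.2 h.um) a
    rw [nonsing_inv_nonsing_inv _ ((isUnit_iff_isUnit_det _).1 h.um)] at b
    rw [← Matrix.map_mul, bp5_swap h.um' (h.br c' c hc' hc b), Matrix.map_mul, (bp5_mm τ _).1]

theorem Dat.pull (h : Dat ρ Br τ s m m') {c' : Matrix d d k} (hc : Cm ρ c') :
    ∃ c, Cm ρ c ∧ m * c.map τ = c' * m := by
  refine ⟨(m⁻¹ * c' * m).map ⇑τ⁻¹, fun g => ?_, by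
    rw [(bp5_mm τ _).2, ← mul_assoc, ← mul_assoc, (bp5_inv h.um).1, one_mul]⟩
  rw [← (bp5_mm τ (ρ g)).1, ← Matrix.map_mul, ← Matrix.map_mul, mul_assoc, h.rho, ← mul_assoc,
    mul_assoc _ c', hc, ← mul_assoc, bp5_swap h.um (h.rho g)]
  simp only [mul_assoc]

/-- the action of a datum on matrices. -/
noncomputable def bp5A (t : KY k E →+* KY k E) (m : Matrix d d k) (m' : Matrix n n k)
    (X : Matrix d n (KY k E)) : Matrix d n (KY k E) :=
  m.map (algebraMap k (KY k E)) * X.map t * m'⁻¹.map (algebraMap k (KY k E))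

theorem bp5A_add (t : KY k E →+* KY k E) (a : KY k E) (X Y : Matrix d n (KY k E)) :
    bp5A t m m' (a • X + Y) = t a • bp5A t m m' X + bp5A t m m' Y := by
  have : (a • X + Y).map t = t a • X.map t + Y.map t := by ext i j; simp
  simp only [bp5A, this, Matrix.mul_add, Matrix.add_mul, Matrix.mul_smul, Matrix.smul_mul]

theorem bp5A_mul (hT : bp5T T) (τ₂ : RingAut k) (s₂ : Equiv.Perm E) (m₂ : Matrix d d k)
    {m₂' : Matrix n n k} (h : IsUnit m₂') (X : Matrix d n (KY k E)) :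
    bp5A (T (τ * τ₂) (s * s₂)) (m * m₂.map τ) (m' * m₂'.map τ) X =
      bp5A (T τ s) m m' (bp5A (T τ₂ s₂) m₂ m₂' X) := by
  simp only [bp5A, Matrix.mul_inv_rev, bp5_minv h, Matrix.map_mul, hT.map, hT.mul,
    Matrix.mul_assoc]
  rfl

theorem bp5_int {a b c : Type} [Fintype b] {X : Matrix a b (KY k E)} {Y : Matrix b c (KY k E)}
    (hX : ∀ i j, IsInteger (MvPolynomial E k) (X i j))
    (hY : ∀ i j, IsInteger (MvPolynomial E k) (Y i j)) (i : a) (j : c) :
    IsInteger (MvPolynomial E k) ((X * Y) i j) :=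
  sum_mem (S := (algebraMap (MvPolynomial E k) (KY k E)).rangeS) fun l _ =>
    isInteger_mul (hX i l) (hY l j)

theorem bp5A_int (hT : bp5T T) {X : Matrix d n (KY k E)}
    (hX : ∀ i j, IsInteger (MvPolynomial E k) (X i j)) :
    ∀ i j, IsInteger (MvPolynomial E k) (bp5A (T τ s) m m' X i j) :=
  bp5_int (X := m.map (algebraMap k (KY k E)) * X.map (T τ s))
    (bp5_int (fun _ _ => ⟨_, (bp5_C _).symm⟩) fun i j => hT.int τ s _ (hX i j))
    fun _ _ => ⟨_, (bp5_C _).symm⟩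

variable [Fintype E]

theorem bp5_cz {c : Matrix d d k} (hc : Cm ρ c) :
    c.map (algebraMap k (KY k E)) * zY ρ = zY ρ * c.map (algebraMap k (KY k E)) := by
  simp only [zY, Finset.mul_sum, Finset.sum_mul, Matrix.mul_smul, Matrix.smul_mul,
    ← Matrix.map_mul, mul_sub, sub_mul, hc _, mul_one, one_mul]

theorem Dat.z (hT : bp5T T) (h : Dat ρ Br τ s m m') (q : ℕ) :
    m.map (algebraMap k (KY k E)) * (zY ρ ^ q).map (T τ s) =
      zY ρ ^ q * m.map (algebraMap k (KY k E)) := by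
  have e : (zY ρ).map (T τ s) = ∑ g, algebraMap (MvPolynomial E k) (KY k E)
      (MvPolynomial.X (s g)) • ((ρ g).map τ - 1).map (algebraMap k (KY k E)) := by
    ext i j
    simp only [zY, map_apply, Matrix.sum_apply, Matrix.smul_apply, smul_eq_mul, map_sum, map_mul,
      hT.x, hT.c, Matrix.sub_apply, map_sub, one_apply, apply_ite τ, map_one, map_zero]
  have a : SemiconjBy (m.map (algebraMap k (KY k E))) ((zY ρ).map (T τ s)) (zY ρ) := by
    rw [SemiconjBy, e, zY, ← Equiv.sum_comp s (fun g => algebraMap (MvPolynomial E k) (KY k E)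
      (MvPolynomial.X g) • (ρ g - 1).map (algebraMap k (KY k E)))]
    simp only [Finset.mul_sum, Finset.sum_mul, Matrix.mul_smul, Matrix.smul_mul,
      ← Matrix.map_mul, mul_sub, sub_mul, h.rho, mul_one, one_mul]
  have b : (zY ρ ^ q).map (T τ s) = (zY ρ).map (T τ s) ^ q := map_pow (T τ s).mapMatrix _ q
  rw [b]
  exact a.pow_right q

theorem Dat.zero (hT : bp5T T) (h : Dat ρ Br τ s m m') (q : ℕ) (Y : Matrix d n (KY k E)) :
    bp5A (T τ s) m m' (zY ρ ^ q * Y) = zY ρ ^ q * bp5A (T τ s) m m' Y := by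
  simp only [bp5A, Matrix.map_mul, ← Matrix.mul_assoc, h.z hT]

theorem Dat.mem (hT : bp5T T) (h : Dat ρ Br τ s m m') (q : ℕ) {X : Matrix d n (KY k E)}
    (hX : X ∈ NN ρ Br (zY ρ) (zY ρ ^ q)) : bp5A (T τ s) m m' X ∈ NN ρ Br (zY ρ) (zY ρ ^ q) := by
  refine ⟨?_, fun c' hc' => ?_⟩
  · have := h.zero hT 1 X
    rw [pow_one] at this
    rw [← this, hX.1]
    simp [bp5A]
  · obtain ⟨c, hc, e⟩ := h.pull hc'
    obtain ⟨Y, hY⟩ := hX.2 c hc
    refine ⟨bp5A (T τ s) m m' Y, ?_⟩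
    have a := congrArg (Matrix.map · (algebraMap k (KY k E))) e
    have b := congrArg (Matrix.map · (algebraMap k (KY k E))) (bp5_swap h.um' (h.br c c' hc hc' e))
    simp only [Matrix.map_mul] at a b
    rw [← h.zero hT, ← hY]
    simp only [bp5A, Matrix.map_sub _ (map_sub (T τ s)), Matrix.map_mul, hT.map, Matrix.mul_sub,
      Matrix.sub_mul, ← Matrix.mul_assoc, a]
    simp only [Matrix.mul_assoc, b]

theorem p5 [Nonempty n] (ρ : E → Matrix d d k) (Br : Matrix d d k →ₗ[k] Matrix n n k) (q : ℕ)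
    (h1 : Br 1 = 1) (hm : ∀ c c', Cm ρ c → Cm ρ c' → Br (c * c') = Br c * Br c')
    (hs : ∀ b, ∃ c, Cm ρ c ∧ Br c = b) (hz : zY ρ ^ (q + 1) = 0)
    (hA : ∀ c, Cm ρ c → Br c = 0 → ∀ v, zY ρ *ᵥ v = 0 →
      ∃ w, c.map (algebraMap k (KY k E)) *ᵥ v = zY ρ ^ q *ᵥ w)
    (hB : finrank (KY k E) (LinearMap.ker (zY ρ).mulVecLin) =
      finrank (KY k E) (LinearMap.range (zY ρ ^ q).mulVecLin) + Fintype.card n) :
    ∃ χ : RingAut k → Equiv.Perm E → Matrix d d k → Matrix n n k → k,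
      (∀ τ s m m', Dat ρ Br τ s m m' → χ τ s m m' ≠ 0) ∧
      (∀ τ s m m' τ₂ s₂ m₂ m₂', Dat ρ Br τ s m m' → Dat ρ Br τ₂ s₂ m₂ m₂' →
        χ (τ * τ₂) (s * s₂) (m * m₂.map τ) (m' * m₂'.map τ) = χ τ s m m' * τ (χ τ₂ s₂ m₂ m₂')) ∧
      (∀ τ s m m' (a a' : k), Dat ρ Br τ s m m' → a ≠ 0 → a' ≠ 0 →
        χ τ s (a • m) (a' • m') = a / a' * χ τ s m m') ∧
      ∀ c, Cm ρ c → IsUnit c → χ 1 1 c (Br c) = 1 := by
  obtain ⟨T, hT⟩ := bp5_T (k := k) (E := E)
  obtain ⟨l0, a1, a2, X1, a3, a4⟩ := bp5a_fun h1 hm hs (pow_succ' (zY ρ) q ▸ hz)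
    (fun c hc => bp5_cz hc) (fun c hc => Commute.pow_right (bp5_cz hc) q) hA hB
  obtain ⟨b, hb⟩ := exist_integer_multiples_of_finite (nonZeroDivisors (MvPolynomial E k))
    fun p : d × n => l0 (single p.1 p.2 1)
  obtain ⟨b1, hb1⟩ := exist_integer_multiples_of_finite (nonZeroDivisors (MvPolynomial E k))
    fun p : d × n => X1 p.1 p.2
  obtain ⟨g, g0, g1, g2⟩ := bp5a_hull (l0 '' {X | X ∈ NN ρ Br (zY ρ) (zY ρ ^ q) ∧
      ∀ i j, IsInteger (MvPolynomial E k) (X i j)}) (nonZeroDivisors.coe_ne_zero b)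
    (by
      rintro _ ⟨X, hX, rfl⟩
      rw [matrix_eq_sum_single X]
      simp only [map_sum, Finset.smul_sum]
      refine sum_mem (S := (algebraMap (MvPolynomial E k) (KY k E)).rangeS) fun i _ =>
        sum_mem fun j _ => ?_
      rw [← mul_one (X i j), ← smul_eq_mul, ← smul_single, map_smul, smul_comm, smul_eq_mul]
      exact isInteger_mul (hX.2 i j) (hb (i, j)))
    ⟨algebraMap (MvPolynomial E k) (KY k E) b1 • X1, ⟨Submodule.smul_mem _ _ a3, fun i j => by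
      rw [Matrix.smul_apply, smul_eq_mul, ← Algebra.smul_def]; exact hb1 (i, j)⟩, rfl⟩
    (by
      rw [map_smul]
      exact smul_ne_zero ((map_ne_zero_iff _ (IsFractionRing.injective _ _)).2
        (nonZeroDivisors.coe_ne_zero b1)) a4)
  obtain ⟨X0, x1, x2⟩ : ∃ X0 ∈ NN ρ Br (zY ρ) (zY ρ ^ q), l0 X0 = g :=
    ⟨(g / l0 X1) • X1, Submodule.smul_mem _ _ a3, by rw [map_smul, smul_eq_mul]; field_simp⟩
  have inj := (algebraMap k (KY k E)).injective
  have key : ∀ {τ s m m'}, Dat ρ Br τ s m m' → ∀ X ∈ NN ρ Br (zY ρ) (zY ρ ^ q),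
      l0 (bp5A (T τ s) m m' X) / g = l0 (bp5A (T τ s) m m' X0) / g * T τ s (l0 X / g) := by
    intro τ s m m' h X hX
    obtain ⟨Y, hY⟩ := a2 (X - (l0 X / g) • X0) (sub_mem hX (Submodule.smul_mem _ _ x1))
      (by rw [map_sub, map_smul, x2, smul_eq_mul, div_mul_cancel₀ _ g0, sub_self])
    generalize l0 X / g = t at hY ⊢
    rw [eq_add_of_sub_eq' hY, bp5A_add, h.zero hT, map_add, a1, map_smul, smul_eq_mul]
    ring
  have one : ∀ X : Matrix d n (KY k E), bp5A (T 1 1) 1 1 X = X := fun X => by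
    simp [bp5A, hT.one]
  have back : ∀ {τ s m m'}, Dat ρ Br τ s m m' → ∀ X, bp5A (T τ s) m m'
      (bp5A (T τ⁻¹ s⁻¹) (m⁻¹.map ⇑τ⁻¹) (m'⁻¹.map ⇑τ⁻¹) X) = X := fun h X => by
    rw [← bp5A_mul hT _ _ _ h.inv.um', mul_inv_cancel, mul_inv_cancel, (bp5_mm _ _).2,
      (bp5_mm _ _).2, (bp5_inv h.um).1, (bp5_inv h.um').1, one]
  have coc : ∀ {τ s m m'}, Dat ρ Br τ s m m' → l0 (bp5A (T τ s) m m' X0) / g *
      T τ s (l0 (bp5A (T τ⁻¹ s⁻¹) (m⁻¹.map ⇑τ⁻¹) (m'⁻¹.map ⇑τ⁻¹) X0) / g) = 1 := fun h => by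
    rw [← key h _ (h.inv.mem hT q x1), back h, x2, div_self g0]
  have int : ∀ {τ s m m'}, Dat ρ Br τ s m m' →
      IsInteger (MvPolynomial E k) (l0 (bp5A (T τ s) m m' X0) / g)⁻¹ := fun h => by
    have n := left_ne_zero_of_mul_eq_one (coc h)
    rw [inv_div]
    refine g2 _ (div_ne_zero_iff.1 n).1 ?_
    rintro _ ⟨X, hX, rfl⟩
    have m1 := h.inv.mem hT q hX.1
    have e := key h _ m1
    rw [back h] at e
    rw [← div_div_div_cancel_right₀ g0, e, mul_div_cancel_left₀ _ n]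
    exact hT.int _ _ _ (g1 _ ⟨_, ⟨m1, bp5A_int hT hX.2⟩, rfl⟩)
  have val : ∀ {τ s m m'}, Dat ρ Br τ s m m' →
      ∃ c, algebraMap k (KY k E) c = l0 (bp5A (T τ s) m m' X0) / g := fun h => by
    obtain ⟨u, hu⟩ := int h
    obtain ⟨v, hv⟩ := hT.int _ _ _ (int h.inv)
    rw [map_inv₀, ← eq_inv_of_mul_eq_one_left (coc h)] at hv
    obtain ⟨c, -, rfl⟩ := MvPolynomial.isUnit_iff_eq_C_of_isReduced.1
      (IsUnit.of_mul_eq_one (a := v) u (IsFractionRing.injective _ (KY k E) (by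
        rw [map_mul, hu, hv, map_one, mul_inv_cancel₀ (left_ne_zero_of_mul_eq_one (coc h))])))
    exact ⟨c, (bp5_C c).trans hv⟩
  refine ⟨fun τ s m m' => Function.invFun (algebraMap k _) (l0 (bp5A (T τ s) m m' X0) / g),
    fun τ s m m' h z => ?_, fun τ s m m' τ₂ s₂ m₂ m₂' h h₂ => ?_, fun τ s m m' a a' h a0 a0' => ?_,
    fun c hc u => ?_⟩
  · obtain ⟨c, hc⟩ := val h
    have := left_ne_zero_of_mul_eq_one (coc h)
    simp only [← hc, Function.leftInverse_invFun inj _] at z this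
    exact this (by rw [z, map_zero])
  · obtain ⟨c, hc⟩ := val h
    obtain ⟨c₂, hc₂⟩ := val h₂
    simp only [bp5A_mul hT _ _ _ h₂.um', key h _ (h₂.mem hT q x1), ← hc, ← hc₂, hT.c, ← map_mul,
      Function.leftInverse_invFun inj _]
  · obtain ⟨c, hc⟩ := val h
    have e : bp5A (T τ s) (a • m) (a' • m') X0 =
        algebraMap k (KY k E) (a / a') • bp5A (T τ s) m m' X0 := by
      have i : (a' • m')⁻¹ = a'⁻¹ • m'⁻¹ := inv_eq_right_inv (by
        rw [Matrix.smul_mul, Matrix.mul_smul, smul_smul, mul_inv_cancel₀ a0', one_smul,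
          (bp5_inv h.um').1])
      simp only [bp5A, i, Matrix.map_smul' _ _ _ (map_mul (algebraMap k (KY k E))),
        Matrix.smul_mul, Matrix.mul_smul, smul_smul, ← map_mul, div_eq_inv_mul]
    simp only [e, map_smul, smul_eq_mul, mul_div_assoc, ← hc, ← map_mul,
      Function.leftInverse_invFun inj _]
  · obtain ⟨Y, hY⟩ := x1.2 c hc
    have u' : Br c * Br c⁻¹ = 1 := by
      rw [← hm _ _ hc fun g => bp5_swap u (hc g), (bp5_inv u).1, h1]
    have e : bp5A (T 1 1) c (Br c) X0 =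
        X0 + zY ρ ^ q * (Y * (Br c)⁻¹.map (algebraMap k (KY k E))) := by
      rw [bp5A, hT.one, ← Matrix.mul_assoc, ← hY, Matrix.sub_mul, Matrix.mul_assoc X0,
        ← Matrix.map_mul, inv_eq_right_inv u', u']
      simp
    simp only [e, map_add, a1, add_zero, x2, div_self g0]
    rw [← map_one (algebraMap k (KY k E)), Function.leftInverse_invFun inj]

end Pool.Agent.Lib.MP_1ae3da_al.CT
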