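import Pool.Agent.Lib.MP_1ae3da_al.C.Defs

/-! The trace form of a twisted group algebra and the dimensions of blocks. -/

namespace Pool.Agent.Lib.MP_1ae3da_al.CT

open Submodule

variable {F A G : Type} [Field F] [Ring A] [Algebra F A] [Group G] {u : G → A}

theorem tdg_ne (hu : TG F u) (x : G) : u x ≠ 0 := hu.ind.ne_zero x

theorem tdg_one (hu : TG F u) (x : G) : u 1 * u x = u x ∧ u x * u 1 = u x := by
  constructor
  · obtain ⟨c, hc, h⟩ := hu.mul 1 x
    rw [one_mul] at h
    have h2 : u 1 * (u 1 * u x) = u 1 * u x := by rw [← mul_assoc, hu.one]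
    rw [h, mul_smul_comm, h] at h2
    exact h.trans (smul_right_injective A hc h2)
  · obtain ⟨c, hc, h⟩ := hu.mul x 1
    rw [mul_one] at h
    have h2 : u x * u 1 * u 1 = u x * u 1 := by rw [mul_assoc, hu.one]
    rw [h, smul_mul_assoc, h] at h2
    exact h.trans (smul_right_injective A hc h2)

theorem tdg_mem (u : G → A) {H : Subgroup G} {x : G} (hx : x ∈ H) : u x ∈ Hm F u H :=
  ⟨1, one_ne_zero, x, hx, (one_smul _ _).symm⟩

theorem tdg_span (u : G → A) (H : Subgroup G) :
    span F (Hm F u H) = span F (Set.range fun x : H => u x) := by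
  refine le_antisymm (span_le.2 ?_) (span_mono ?_)
  · rintro _ ⟨c, -, x, hx, rfl⟩
    exact smul_mem _ _ (subset_span ⟨⟨x, hx⟩, rfl⟩)
  · rintro _ ⟨x, rfl⟩
    exact tdg_mem u x.2

/-- two linear maps that agree on the basis agree on the span -/
theorem tdg_ext {V : Type} [AddCommGroup V] [Module F V] {H : Subgroup G} {f g : A →ₗ[F] V}
    (h : ∀ x ∈ H, f (u x) = g (u x)) {a : A} (ha : a ∈ span F (Hm F u H)) : f a = g a := by
  rw [tdg_span] at ha
  exact LinearMap.eqOn_span' (by rintro _ ⟨x, rfl⟩; exact h x x.2) ha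

theorem tdg_mono (u : G → A) {H K : Subgroup G} (h : H ≤ K) :
    span F (Hm F u H) ≤ span F (Hm F u K) :=
  span_mono fun _ ⟨c, hc, x, hx, e⟩ => ⟨c, hc, x, h hx, e⟩

theorem tdg_mul (hu : TG F u) {H : Subgroup G} {a b : A} (ha : a ∈ span F (Hm F u H))
    (hb : b ∈ span F (Hm F u H)) : a * b ∈ span F (Hm F u H) := by
  have h : span F (Hm F u H) * span F (Hm F u H) ≤ span F (Hm F u H) := by
    rw [span_mul_span]
    refine span_le.2 ?_
    rintro _ ⟨_, ⟨c, -, x, hx, rfl⟩, _, ⟨d, -, y, hy, rfl⟩, rfl⟩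
    obtain ⟨k, -, e⟩ := hu.mul x y
    simp only [smul_mul_assoc, mul_smul_comm, e]
    exact smul_mem _ _ (smul_mem _ _ (smul_mem _ _ (subset_span (tdg_mem u (mul_mem hx hy)))))
  exact h (mul_mem_mul ha hb)

theorem tdg_unit (hu : TG F u) {H : Subgroup G} {a : A} (ha : a ∈ span F (Hm F u H)) :
    u 1 * a = a ∧ a * u 1 = a :=
  ⟨tdg_ext (f := LinearMap.mulLeft F (u 1)) (g := LinearMap.id) (fun x _ => (tdg_one hu x).1) ha,
    tdg_ext (f := LinearMap.mulRight F (u 1)) (g := LinearMap.id)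
      (fun x _ => (tdg_one hu x).2) ha⟩

/-- the inverse of a basis element -/
theorem tdg_inv (hu : TG F u) (x : G) :
    ∃ c : F, c ≠ 0 ∧ u x * (c • u x⁻¹) = u 1 ∧ (c • u x⁻¹) * u x = u 1 := by
  obtain ⟨c, hc, h⟩ := hu.mul x x⁻¹
  obtain ⟨d, hd, h'⟩ := hu.mul x⁻¹ x
  rw [mul_inv_cancel] at h
  rw [inv_mul_cancel] at h'
  have e : c • u x = d • u x := by
    have : u x * u x⁻¹ * u x = u x * (u x⁻¹ * u x) := mul_assoc _ _ _
    rwa [h, h', smul_mul_assoc, mul_smul_comm, (tdg_one hu x).1, (tdg_one hu x).2] at this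
  obtain rfl : c = d := smul_left_injective F (tdg_ne hu x) e
  refine ⟨c⁻¹, inv_ne_zero hc, ?_, ?_⟩
  · rw [mul_smul_comm, h, inv_smul_smul₀ hc]
  · rw [smul_mul_assoc, h', inv_smul_smul₀ hc]

/-- coefficient functionals -/
theorem tdg_co [DecidableEq G] (hu : TG F u) (y : G) :
    ∃ t : A →ₗ[F] F, ∀ x, t (u x) = if x = y then 1 else 0 := by
  obtain ⟨g, hg⟩ := LinearMap.exists_extend ((Finsupp.lapply y).comp hu.ind.repr)
  refine ⟨g, fun x => ?_⟩
  have := LinearMap.congr_fun hg ⟨u x, subset_span ⟨x, rfl⟩⟩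
  simp only [LinearMap.comp_apply, subtype_apply, Finsupp.lapply_apply] at this
  rw [this, hu.ind.repr_eq_single x _ rfl, Finsupp.single_apply]

theorem exists_tf (hu : TG F u) : ∃ t : A →ₗ[F] F, Tf F u t := by
  classical
  obtain ⟨t, ht⟩ := tdg_co hu 1
  exact ⟨t, by rw [ht, if_pos rfl], fun x hx => by rw [ht, if_neg hx]⟩

theorem tf_comm (hu : TG F u) {t : A →ₗ[F] F} (ht : Tf F u t) {H : Subgroup G} {a b : A}
    (ha : a ∈ span F (Hm F u H)) (hb : b ∈ span F (Hm F u H)) : t (a * b) = t (b * a) := by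
  refine tdg_ext (f := t ∘ₗ LinearMap.mulRight F b) (g := t ∘ₗ LinearMap.mulLeft F b)
    (fun x _ => ?_) ha
  refine tdg_ext (f := t ∘ₗ LinearMap.mulLeft F (u x)) (g := t ∘ₗ LinearMap.mulRight F (u x))
    (fun y _ => ?_) hb
  change t (u x * u y) = t (u y * u x)
  by_cases h : y = x⁻¹
  · obtain ⟨c, hc, h1, h2⟩ := tdg_inv hu x
    rw [mul_smul_comm, ← h2, smul_mul_assoc] at h1
    rw [h, smul_right_injective A hc h1]
  · obtain ⟨c, -, h1⟩ := hu.mul x y
    obtain ⟨d, -, h2⟩ := hu.mul y x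
    rw [h1, h2, map_smul, map_smul, ht.2 _ fun e => h (eq_inv_of_mul_eq_one_right e),
      ht.2 _ fun e => h (eq_inv_of_mul_eq_one_left e), smul_zero, smul_zero]

theorem tdg_tr {V : Type} [AddCommGroup V] [Module F V] [Module.Finite F V] {R : V →ₗ[F] V}
    (h : IsIdempotentElem R) : LinearMap.trace F V R = Module.finrank F (LinearMap.range R) :=
  (LinearMap.IsIdempotentElem.isProj_range R h).trace

/-- the dimension of `span * e` is `card H * t e` -/
theorem dg_tf [Finite G] (hu : TG F u) {t : A →ₗ[F] F} (ht : Tf F u t) {H : Subgroup G} {e : A}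
    (he : e ∈ span F (Hm F u H)) (h2 : e * e = e) :
    (Dg F (Hm F u H) e : F) = Nat.card H * t e := by
  classical
  have := Fintype.ofFinite H
  choose τ hτ using tdg_co hu
  have li : LinearIndependent F fun x : H => u x := hu.ind.comp _ Subtype.val_injective
  let b := (Module.Basis.span li).map (LinearEquiv.ofEq _ _ (tdg_span (F := F) u H).symm)
  have hb : ∀ x, (b x : A) = u x := fun x => by simp [b, Module.Basis.span_apply]
  have fin : Module.Finite F (span F (Hm F u H)) := Module.Finite.of_basis b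
  let R : span F (Hm F u H) →ₗ[F] span F (Hm F u H) :=
    (LinearMap.mulRight F e).restrict fun a ha => tdg_mul hu ha he
  have hR : ∀ a, (R a : A) = a * e := fun a => rfl
  have idem : IsIdempotentElem R := LinearMap.ext fun a => Subtype.ext (by
    change (a : A) * e * e = a * e
    rw [mul_assoc, h2])
  have tr : LinearMap.trace F _ R = Module.finrank F (LinearMap.range R) :=
    tdg_tr idem
  have rk : Module.finrank F (LinearMap.range R) = Dg F (Hm F u H) e := by
    rw [Dg, ← finrank_map_subtype_eq]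
    refine congrArg (fun p : Submodule F A => Module.finrank F p) (Submodule.ext fun a => ?_)
    simp only [mem_map, LinearMap.mem_range, subtype_apply, LinearMap.mulRight_apply]
    exact ⟨fun ⟨_, ⟨w, h⟩, h'⟩ => ⟨w, w.2, by rw [← h', ← h, hR]⟩,
      fun ⟨w, h, h'⟩ => ⟨_, ⟨⟨w, h⟩, rfl⟩, h'⟩⟩
  have rp : ∀ (y : H) (w : span F (Hm F u H)), b.repr w y = τ y w := fun y w => by
    have : b.coord y = τ y ∘ₗ (span F (Hm F u H)).subtype := b.ext fun x => by
      simp only [Module.Basis.coord_apply, Module.Basis.repr_self, Finsupp.single_apply,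
        LinearMap.comp_apply, subtype_apply, hb, hτ, Subtype.ext_iff]
    exact LinearMap.congr_fun this w
  rw [← rk, ← tr, LinearMap.trace_eq_matrix_trace F b, Matrix.trace]
  simp only [Matrix.diag_apply, LinearMap.toMatrix_apply, rp, hR, hb]
  have := tdg_ext (f := ∑ y : H, τ y ∘ₗ LinearMap.mulLeft F (u y)) (g := (Nat.card H : F) • t)
    (fun x _ => by
      simp only [LinearMap.sum_apply, LinearMap.comp_apply, LinearMap.mulLeft_apply,
        LinearMap.smul_apply, smul_eq_mul]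
      by_cases hx : x = 1
      · simp [hx, (tdg_one hu _).2, hτ, ht.1]
      · rw [ht.2 x hx, mul_zero]
        refine Finset.sum_eq_zero fun y _ => ?_
        obtain ⟨c, -, h⟩ := hu.mul y x
        rw [h, map_smul, hτ, if_neg (by simpa using hx), smul_zero]) he
  simpa using this

/-- conjugation preserves the span of a normal subgroup -/
theorem tdg_conj (hu : TG F u) {L : Subgroup G} {x y : G} (h : ∀ l ∈ L, x * l * y ∈ L) {a : A}
    (ha : a ∈ span F (Hm F u L)) : u x * a * u y ∈ span F (Hm F u L) := by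
  rw [tdg_span] at ha
  refine (span_le (p := (span F (Hm F u L)).comap
    (LinearMap.mulRight F (u y) ∘ₗ LinearMap.mulLeft F (u x)))).2 ?_ ha
  rintro _ ⟨l, rfl⟩
  obtain ⟨c, -, h1⟩ := hu.mul x l
  obtain ⟨d, -, h2⟩ := hu.mul (x * l) y
  change u x * u l * u y ∈ span F (Hm F u L)
  rw [h1, smul_mul_assoc, h2]
  exact smul_mem _ _ (smul_mem _ _ (subset_span (tdg_mem u (h l l.2))))

theorem tdg_cen {S : Set A} {z a : A} (hz : z ∈ Cen F S) (ha : a ∈ span F S) : z * a = a * z :=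
  LinearMap.eqOn_span' (f := LinearMap.mulLeft F z) (g := LinearMap.mulRight F z) hz.2 ha

theorem tdg_idem {e : A} (h0 : e ≠ 0) {c : F} (h : c • c • e = c • e) : c = 0 ∨ c = 1 := by
  rw [smul_smul] at h
  have := smul_left_injective F h0 h
  rcases eq_or_ne c 0 with h | h
  · exact .inl h
  · exact .inr (mul_right_cancel₀ h (this.trans (one_mul c).symm))

/-- `t` of a block and of its cut by a block of a normal subgroup -/
theorem tdg_cut [Finite G] (hu : TG F u) {t : A →ₗ[F] F} (ht : Tf F u t) {H T L : Subgroup G}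
    (hLH : L ≤ H) (hn : ∀ x ∈ H, ∀ y ∈ L, x * y * x⁻¹ ∈ L) {e f : A} (he : e ∈ Irr F (Hm F u L))
    (hf : f ∈ Irr F (Hm F u H)) (hfe : f * e ≠ 0)
    (hT : ∀ x, x ∈ T ↔ x ∈ H ∧ u x * e = e * u x) :
    Nat.card T * t f = Nat.card H * t (f * e) := by
  classical
  have := Fintype.ofFinite H
  choose c c0 h1 h2 using tdg_inv hu
  obtain ⟨v, hv⟩ : ∃ v : G → A, ∀ x, v x = c x • u x⁻¹ := ⟨_, fun _ => rfl⟩
  have top : ∀ x, u x ∈ span F (Hm F u ⊤) := fun x => subset_span (tdg_mem u trivial)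
  have vt : ∀ x, v x ∈ span F (Hm F u ⊤) := fun x => hv x ▸ smul_mem _ _ (top _)
  have et : e ∈ span F (Hm F u ⊤) := tdg_mono u le_top he.1.1
  have h1' : ∀ x, u x * v x = u 1 := fun x => hv x ▸ h1 x
  have h2' : ∀ x, v x * u x = u 1 := fun x => hv x ▸ h2 x
  have vm : ∀ x y, ∃ k : F, k ≠ 0 ∧ u x * u y = k • u (x * y) ∧ v y * v x = k⁻¹ • v (x * y) :=
    fun x y => by
    obtain ⟨k, k0, hk⟩ := hu.mul x y
    refine ⟨k, k0, hk, ?_⟩
    have a : v y * v x * u (x * y) = k⁻¹ • u 1 := by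
      rw [eq_inv_smul_iff₀ k0, ← mul_smul_comm, ← hk, mul_assoc, ← mul_assoc (v x), h2',
        (tdg_one hu y).1, h2']
    rw [← (tdg_unit hu (tdg_mul hu (vt y) (vt x))).2, ← h1' (x * y), ← mul_assoc, a,
      smul_mul_assoc, (tdg_unit hu (vt _)).1]
  let E (x : G) : A := u x * e * v x
  have cj : ∀ x y, u x * E y * v x = E (x * y) := fun x y => by
    obtain ⟨k, k0, a, b⟩ := vm x y
    calc _ = u x * u y * e * (v y * v x) := by simp only [E, mul_assoc]
      _ = _ := by
        rw [a, b, smul_mul_assoc, smul_mul_assoc, mul_smul_comm, smul_inv_smul₀ k0]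
  have E1 : E 1 = e := by
    have : v 1 = u 1 := by rw [← h1' 1, (tdg_unit hu (vt 1)).1]
    simp only [E, this, (tdg_unit hu et).1, (tdg_unit hu et).2]
  have cm : ∀ x ∈ H, ∀ a ∈ span F (Hm F u L), u x * a * v x ∈ span F (Hm F u L) ∧
      v x * a * u x ∈ span F (Hm F u L) := fun x hx a ha => by
    simp only [hv, mul_smul_comm, smul_mul_assoc]
    exact ⟨smul_mem _ _ (tdg_conj hu (hn x hx) ha), smul_mem _ _
      (tdg_conj hu (fun l hl => by simpa using hn _ (inv_mem hx) l hl) ha)⟩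
  have Ec : ∀ x ∈ H, E x ∈ Cen F (Hm F u L) := fun x hx => ⟨(cm x hx e he.1.1).1, fun s hs => by
    have hs' := subset_span (R := F) hs
    have st := tdg_mono u le_top hs'
    have k := tdg_cen he.1 (cm x hx s hs').2
    calc u x * e * v x * s = u x * e * v x * (s * (u x * v x)) := by
          rw [h1', (tdg_unit hu st).2]
      _ = u x * (e * (v x * s * u x)) * v x := by simp only [mul_assoc]
      _ = u x * v x * s * (u x * e * v x) := by rw [k]; simp only [mul_assoc]
      _ = _ := by rw [h1', (tdg_unit hu st).1]⟩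
  have mulc : ∀ x, ∀ a b, b ∈ span F (Hm F u ⊤) →
      u x * a * v x * (u x * b * v x) = u x * (a * b) * v x := fun x a b hb => by
    calc _ = u x * a * (v x * u x * b) * v x := by simp only [mul_assoc]
      _ = _ := by rw [h2', (tdg_unit hu hb).1, mul_assoc (u x)]
  have Ei : ∀ x, E x * E x = E x := fun x => by
    simp only [E]
    rw [mulc x e e et, he.2.1]
  have Ee : ∀ x ∈ H, E x * e = if x ∈ T then e else 0 := fun x hx => by
    split_ifs with hx'
    · simp only [E]
      rw [((hT x).1 hx').2, mul_assoc e, h1', (tdg_unit hu et).2, he.2.1]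
    obtain ⟨k, hk⟩ := he.2.2.2 _ (Ec x hx)
    have kk : k • k • e = k • e := by rw [← hk, ← mul_smul_comm, ← hk, ← mul_assoc, Ei]
    rcases tdg_idem he.2.2.1 kk with rfl | rfl
    · rw [hk, zero_smul]
    obtain ⟨d, hd⟩ := he.2.2.2 _ (Ec _ (inv_mem hx))
    have a : e * E x = d • E x := by
      have := mulc x (E x⁻¹) e et
      rwa [cj, mul_inv_cancel, E1, hd, mul_smul_comm, smul_mul_assoc] at this
    rw [← tdg_cen (Ec x hx) he.1.1, hk, one_smul] at a
    have dd : d • d • E x = d • E x := by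
      rw [← a, ← he.2.1]
      nth_rewrite 1 [he.2.1]
      nth_rewrite 3 [a]
      rw [mul_smul_comm, ← tdg_cen (Ec x hx) he.1.1, hk, one_smul]
    have E0 : E x ≠ 0 := fun h => he.2.2.1 (by rw [a, h, smul_zero])
    rcases tdg_idem E0 dd with rfl | rfl
    · exact absurd (a.trans (zero_smul _ _)) he.2.2.1
    refine absurd ((hT x).2 ⟨hx, ?_⟩) hx'
    rw [one_smul] at a
    nth_rewrite 2 [a]
    simp only [E]
    rw [mul_assoc, h2', (tdg_unit hu (tdg_mul hu (top x) et)).2]
  have Et : ∀ x, E x ∈ span F (Hm F u ⊤) := fun x => tdg_mul hu (tdg_mul hu (top x) et) (vt x)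
  have sc : ∑ x : H, E x ∈ Cen F (Hm F u H) := by
    refine ⟨sum_mem fun x _ => tdg_mono u hLH (Ec x x.2).1, ?_⟩
    rintro _ ⟨k, -, y, hy, rfl⟩
    rw [mul_smul_comm, smul_mul_assoc, Finset.mul_sum,
      ← Equiv.sum_comp (Equiv.mulLeft (⟨y, hy⟩ : H)) fun x : H => E x, Finset.sum_mul]
    refine congrArg _ (Finset.sum_congr rfl fun x _ => ?_)
    change E (y * x) * u y = _
    rw [← cj, mul_assoc, h2', (tdg_unit hu (tdg_mul hu (top y) (Et x))).2]
  obtain ⟨k, hk⟩ := hf.2.2.2 _ sc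
  have se : (∑ x : H, E x) * e = (Nat.card T : F) • e := by
    rw [Finset.sum_mul, Finset.sum_congr rfl fun (x : H) _ => Ee x x.2, ← Finset.sum_filter,
      Finset.sum_const, ← Nat.cast_smul_eq_nsmul F, ← Fintype.card_subtype,
      ← Nat.card_eq_fintype_card]
    congr 2
    exact Nat.card_congr (Subgroup.subgroupOfEquivOfLe fun x hx => ((hT x).1 hx).1).toEquiv
  have ft := tdg_mono u le_top hf.1.1
  have k' : k = Nat.card T := by
    refine smul_left_injective F hfe ?_
    simp only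
    rw [← smul_mul_assoc, ← hk, ← tdg_cen hf.1 sc.1, mul_assoc, se, mul_smul_comm]
  rw [← k', ← smul_eq_mul, ← map_smul, ← hk, Finset.sum_mul, map_sum, Nat.card_eq_fintype_card,
    ← nsmul_eq_mul, ← Finset.card_univ, ← Finset.sum_const]
  refine Finset.sum_congr rfl fun x _ => ?_
  have xm : u x ∈ span F (Hm F u H) := subset_span (tdg_mem u x.2)
  simp only [E]
  rw [mul_assoc, tf_comm hu ht (tdg_mul hu (top x) et) (tdg_mul hu (vt x) ft), mul_assoc,
    ← mul_assoc f, tdg_cen hf.1 xm, mul_assoc, ← mul_assoc, h2',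
    (tdg_unit hu (tdg_mul hu ft et)).1]

/-- Clifford theory: the dimension of a block over a block of a normal subgroup -/
theorem tdg_cl [CharZero F] [Finite G] (hu : TG F u) {H T L : Subgroup G} (hLH : L ≤ H)
    (hn : ∀ x ∈ H, ∀ y ∈ L, x * y * x⁻¹ ∈ L) {e f : A} (he : e ∈ Irr F (Hm F u L))
    (hf : f ∈ Irr F (Hm F u H)) (hfe : f * e ≠ 0)
    (hT : ∀ x, x ∈ T ↔ x ∈ H ∧ u x * e = e * u x) {Q : Type} [Group Q] [Finite Q] {z : Q → A}
    (hz : TG F z) (hc : Nat.card Q * Nat.card L = Nat.card T)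
    (hZ : Cz F (Hm F u T) (Hm F u L) e = Hm F z ⊤) (hm : f * e ∈ span F (Hm F z ⊤)) :
    Dg F (Hm F u H) f = T.relIndex H ^ 2 * Dg F (Hm F u L) e * Dg F (Hm F z ⊤) (f * e) := by
  obtain ⟨t, ht⟩ := exists_tf hu
  obtain ⟨s, hs⟩ := exists_tf hz
  have TH : T ≤ H := fun x hx => ((hT x).1 hx).1
  have zq : ∀ q, z q ∈ Cz F (Hm F u T) (Hm F u L) e := fun q => hZ ▸ tdg_mem z trivial
  have ze : ∀ q, z q * e = z q := fun q => by
    obtain ⟨-, ⟨_, ⟨c, -, x, hx, rfl⟩, w, -, h⟩, -⟩ := zq q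
    rw [h, mul_smul_comm, smul_mul_assoc, mul_assoc, ((hT x).1 hx).2, mul_assoc, ← mul_assoc e,
      he.2.1, mul_assoc]
  have e1 := tdg_unit hu he.1.1
  have eZ : e ∈ Hm F z ⊤ := hZ ▸ ⟨he.2.2.1, ⟨u 1, tdg_mem u (one_mem T), u 1,
    subset_span (tdg_mem u (one_mem L)), by rw [e1.1, e1.2]⟩, he.1.2⟩
  have z1 : z 1 = e := (ze 1).symm.trans (tdg_unit hz (subset_span eZ)).1
  have tz : ∀ q, q ≠ 1 → t (z q) = 0 := fun q hq => by
    obtain ⟨-, ⟨_, ⟨c, -, x, hx, rfl⟩, w, hw, h⟩, hc⟩ := zq q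
    have we := tdg_mul hu hw he.1.1
    by_cases hx' : x ∈ L
    · obtain ⟨k, hk⟩ := he.2.2.2 (z q)
        ⟨h ▸ tdg_mul hu we (smul_mem _ _ (subset_span (tdg_mem u hx'))), hc⟩
      rw [ze, ← z1] at hk
      classical
      obtain ⟨τ, hτ⟩ := tdg_co hz q
      have := congrArg τ hk
      rw [map_smul, hτ, hτ, if_pos rfl, if_neg hq.symm, smul_zero] at this
      exact absurd this one_ne_zero
    · rw [h, mul_smul_comm, map_smul]
      rw [show t (w * e * u x) = 0 from tdg_ext (f := t ∘ₗ LinearMap.mulRight F (u x)) (g := 0)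
        (fun y hy => by
          obtain ⟨k, -, hk⟩ := hu.mul y x
          change t (u y * u x) = 0
          rw [hk, map_smul, ht.2 _ fun h1 => hx' (by
            rw [eq_inv_of_mul_eq_one_right h1]; exact inv_mem hy), smul_zero]) we, smul_zero]
  have ts : t (f * e) = t e * s (f * e) := tdg_ext (u := z) (f := t) (g := t e • s)
    (fun q _ => by
      by_cases hq : q = 1
      · rw [hq, LinearMap.smul_apply, hs.1, z1, smul_eq_mul, mul_one]
      · rw [tz q hq, LinearMap.smul_apply, hs.2 q hq, smul_zero]) hm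
  have fe : f * e * (f * e) = f * e := by
    rw [mul_assoc, ← mul_assoc e, ← tdg_cen hf.1 (tdg_mono u hLH he.1.1), mul_assoc, he.2.1,
      ← mul_assoc, hf.2.1]
  have d1 := dg_tf hu ht hf.1.1 hf.2.1
  have d2 := dg_tf hu ht he.1.1 he.2.1
  have d3 := dg_tf hz hs hm fe
  have d4 := tdg_cut hu ht hLH hn he hf hfe hT
  have i1 : (Nat.card T : F) * T.relIndex H = Nat.card H := by
    rw [← Nat.cast_mul, Subgroup.relIndex, ← Subgroup.card_mul_index (T.subgroupOf H),
      Nat.card_congr (Subgroup.subgroupOfEquivOfLe TH).toEquiv]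
  have i2 : (Nat.card Q : F) * Nat.card L = Nat.card T := by exact_mod_cast hc
  have T0 : (Nat.card T : F) ≠ 0 := Nat.cast_ne_zero.2 Nat.card_pos.ne'
  rw [Subgroup.card_top] at d3
  refine Nat.cast_injective (R := F) (mul_left_cancel₀ T0 ?_)
  push_cast
  rw [d1, d2, d3, mul_left_comm, d4, ts, ← i1]
  linear_combination (-(Nat.card T : F) * (T.relIndex H : F) ^ 2 * t e * s (f * e)) * i2

end Pool.Agent.Lib.MP_1ae3da_al.CT
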