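import Pool.Agent.Lib.MP_1ae3da_al.C.TC
import Pool.Agent.Lib.MP_1ae3da_al.C.TNd
import Pool.Agent.Lib.MP_1ae3da_al.C.TWed
import Pool.Agent.Lib.MP_1ae3da_al.C.TDg

/-! Matrix models, degrees and traces. -/

namespace Pool.Agent.Lib.MP_1ae3da_al.CT

open Submodule

variable {F A G : Type} [Field F] [Ring A] [Algebra F A] [Group G] {u : G → A}
  {S : Set A} {e b : A} {H : Subgroup G} {n : ℕ} {ρ : A →ₗ[F] Matrix (Fin n) (Fin n) F}

theorem td_mul (hS : Nice F S) {a : A} (ha : a ∈ span F S) (hb : b ∈ span F S) :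
    a * b ∈ span F S := by
  obtain ⟨G, _, _, u, hu, -, rfl⟩ := hS
  exact tdg_mul hu ha hb

theorem exists_MM [IsAlgClosed F] (hS : Nice F S) (he : e ∈ Irr F S) :
    ∃ (n : ℕ) (ρ : A →ₗ[F] Matrix (Fin n) (Fin n) F), MM F S e ρ := hS.exists_MM he

theorem td_sum [IsAlgClosed F] (hS : Nice F S) : ∃ (s : Finset A) (o : A),
    (s : Set A) = Irr F S ∧ ∑ e ∈ s, e = o ∧ o ∈ S ∧ UA (span F S) o := by
  classical
  obtain ⟨o, n, d, ρ, ε, ho, hU, -, -, h1, h2, -, h3⟩ := hS.wed
  exact ⟨Finset.univ.image ε, o, by simp [h1], by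
    rw [Finset.sum_image fun i _ j _ h => h2 h, h3], ho, hU⟩

theorem Irr_sum [IsAlgClosed F] [Finite G] (hu : TG F u) (hH : (Nat.card H : F) ≠ 0) :
    ∃ s : Finset A, (s : Set A) = Irr F (Hm F u H) ∧ ∑ e ∈ s, e = u 1 := by
  obtain ⟨s, o, h1, h2, -, hU⟩ := td_sum (twed_nice hu H hH)
  exact ⟨s, h1, h2.trans ((tdg_unit hu hU.mem).2.symm.trans
    (hU.one_mul _ (subset_span (tdg_mem u (one_mem H)))))⟩

theorem Nice.irr_sum [IsAlgClosed F] (hS : Nice F S) :
    ∃ s : Finset A, (s : Set A) = Irr F S ∧ ∀ a ∈ span F S, ∑ e ∈ s, a * e = a := by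
  obtain ⟨s, o, h1, h2, -, hU⟩ := td_sum hS
  exact ⟨s, h1, fun a ha => by rw [← Finset.mul_sum, h2, hU.mul_one a ha]⟩

theorem Nice.exists_irr [IsAlgClosed F] (hS : Nice F S) {f : A}
    (hf : ∃ ε ∈ S, f * ε = f ∧ ε * ε = ε) (h0 : f ≠ 0) : ∃ e ∈ Irr F S, f * e ≠ 0 := by
  obtain ⟨ε, hε, h1, -⟩ := hf
  obtain ⟨s, h2, h3⟩ := hS.irr_sum
  by_contra hn
  push Not at hn
  refine h0 ?_
  rw [← h1, ← h3 ε (subset_span hε), Finset.mul_sum]
  refine Finset.sum_eq_zero fun e he => ?_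
  have he' : e ∈ Irr F S := h2 ▸ he
  rw [← he'.1.2 ε hε, ← mul_assoc, hn e he', zero_mul]

theorem td_cut (he : e ∈ span F S) (h : MM F S e ρ) {a : A} (ha : a ∈ span F S) :
    ρ (a * e) = ρ a := by rw [h.mul a ha e he, h.one, mul_one]

theorem td_eq (he : e ∈ span F S) (h : MM F S e ρ) {a : A}
    (ha : a ∈ span F S) (hb : b ∈ span F S) : ρ a = ρ b ↔ a * e = b * e :=
  ⟨fun k => by
    rw [← sub_eq_zero, ← sub_mul]
    exact h.inj _ (sub_mem ha hb) (by rw [map_sub, k, sub_self]),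
    fun k => by rw [← td_cut he h ha, k, td_cut he h hb]⟩

/-- left ideals of the block and of the model -/
theorem td_dim (hS : Nice F S) (he : e ∈ Irr F S) (h : MM F S e ρ) (hb : b ∈ span F S) :
    Dg F S (b * e) = Module.finrank F (LinearMap.range (LinearMap.mulRight F (ρ b))) := by
  have i : ∀ a ∈ span F S, ρ (a * (b * e)) = ρ a * ρ b := fun a ha => by
    rw [h.mul a ha _ (td_mul hS hb he.1.1), td_cut he.1.1 h hb]
  have e1 : LinearMap.range (LinearMap.mulRight F (ρ b)) =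
      LinearMap.range (ρ.domRestrict ((span F S).map (LinearMap.mulRight F (b * e)))) := by
    ext m
    constructor
    · rintro ⟨y, rfl⟩
      obtain ⟨a, ha, rfl⟩ := h.surj y
      exact ⟨⟨_, a, ha, rfl⟩, i a ha⟩
    · rintro ⟨⟨_, a, ha, rfl⟩, rfl⟩
      exact ⟨ρ a, (i a ha).symm⟩
  rw [e1, LinearMap.finrank_range_of_inj, Dg]
  rintro ⟨_, a, ha, rfl⟩ ⟨_, a', ha', rfl⟩ k
  have := (td_eq he.1.1 h (td_mul hS ha (td_mul hS hb he.1.1))
    (td_mul hS ha' (td_mul hS hb he.1.1))).1 k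
  simp only [mul_assoc, he.2.1] at this
  exact Subtype.ext this

theorem td_rank (M : Matrix (Fin n) (Fin n) F) :
    Module.finrank F (LinearMap.range (LinearMap.mulRight F M)) = n * M.rank := by
  have e1 : LinearMap.range (LinearMap.mulRight F M) =
      Submodule.pi Set.univ fun _ : Fin n => LinearMap.range M.vecMulLinear := by
    ext m
    constructor
    · rintro ⟨y, rfl⟩ i -
      exact ⟨y i, rfl⟩
    · intro k
      choose y hy using fun i => k i trivial
      exact ⟨Matrix.of y, Matrix.ext fun i j => congrFun (hy i) j⟩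
  have e2 : (Submodule.pi Set.univ fun _ : Fin n => LinearMap.range M.vecMulLinear) ≃ₗ[F]
      (Fin n → LinearMap.range M.vecMulLinear) :=
    { toFun := fun m i => ⟨m.1 i, m.2 i trivial⟩
      invFun := fun y => ⟨fun i => (y i).1, fun i _ => (y i).2⟩
      map_add' := fun _ _ => rfl
      map_smul' := fun _ _ => rfl
      left_inv := fun _ => rfl
      right_inv := fun _ => rfl }
  rw [e1]
  refine e2.finrank_eq.trans ?_
  rw [Module.finrank_pi_fintype, Finset.sum_const, Finset.card_univ, Fintype.card_fin,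
    smul_eq_mul, ← Matrix.rank_transpose, Matrix.rank, Matrix.mulVecLin_transpose]

theorem MM.dimsq (hS : Nice F S) (he : e ∈ Irr F S) (h : MM F S e ρ) : Dg F S e = n ^ 2 := by
  have := td_dim hS he h he.1.1
  rwa [he.2.1, td_rank, h.one, Matrix.rank_one, Fintype.card_fin, ← sq] at this

theorem MM.size (hS : Nice F S) (he : e ∈ Irr F S) (h : MM F S e ρ) : dg F S e = n := by
  rw [dg, h.dimsq hS he, Nat.sqrt_eq']

theorem Dg_sq [IsAlgClosed F] (hS : Nice F S) (he : e ∈ Irr F S) :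
    Dg F S e = dg F S e ^ 2 ∧ 0 < dg F S e := by
  obtain ⟨n, ρ, h⟩ := exists_MM hS he
  rw [h.size hS he]
  exact ⟨h.dimsq hS he, h.pos⟩

/-- hint: trace of right multiplication by `b` on the span, in the basis `u x`. -/
theorem Dg_eq [Finite G] (hu : TG F u) {t : A →ₗ[F] F} (ht : Tf F u t)
    (hb : b ∈ span F (Hm F u H)) (h : b * b = b) :
    (Dg F (Hm F u H) b : F) = Nat.card H * t b := dg_tf hu ht hb h

theorem td_tracial (hn : 0 < n) (f : Matrix (Fin n) (Fin n) F →ₗ[F] F)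
    (h : ∀ a b, f (a * b) = f (b * a)) : ∃ s : F, ∀ a, f a = s * a.trace := by
  let o : Fin n := ⟨0, hn⟩
  refine ⟨f (Matrix.single o o 1), fun a => ?_⟩
  have k : ∀ i j, f (Matrix.single i j 1) = f (Matrix.single o o 1) * if i = j then 1 else 0 :=
    fun i j => by
    have := h (Matrix.single i o 1) (Matrix.single o j 1)
    rw [Matrix.single_mul_single_same, one_mul] at this
    rw [this]
    split_ifs with e
    · rw [e, Matrix.single_mul_single_same, one_mul, mul_one]
    · rw [Matrix.single_mul_single_of_ne (h := Ne.symm e), map_zero, mul_zero]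
  conv_lhs => rw [Matrix.matrix_eq_sum_single a]
  have q : ∀ i j, Matrix.single i j (a i j) = a i j • Matrix.single i j (1 : F) := fun i j => by
    rw [Matrix.smul_single, smul_eq_mul, mul_one]
  simp only [map_sum, q, map_smul, smul_eq_mul]
  rw [Matrix.trace, Finset.mul_sum]
  refine Finset.sum_congr rfl fun i _ => ?_
  rw [Finset.sum_eq_single i (fun j _ hj => by rw [k, if_neg hj.symm, mul_zero, mul_zero])
    (by simp), k, if_pos rfl, mul_one, mul_comm, Matrix.diag_apply]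

/-- a tracial functional on a block is a multiple of the trace. -/
theorem MM.tracial (hS : Nice F S) (he : e ∈ Irr F S) (h : MM F S e ρ) (τ : A →ₗ[F] F)
    (hτ : ∀ a ∈ span F S, ∀ b ∈ span F S, τ (a * b) = τ (b * a)) :
    ∃ s : F, ∀ b ∈ span F S, τ (b * e) = s * (ρ b).trace := by
  choose g g1 g2 using h.surj
  have k : ∀ {a m}, a ∈ span F S → ρ a = m → g m * e = a * e := fun ha hm =>
    (td_eq he.1.1 h (g1 _) ha).1 ((g2 _).trans hm.symm)
  let f : Matrix (Fin n) (Fin n) F →ₗ[F] F :=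
    { toFun := fun m => τ (g m * e)
      map_add' := fun x y => by
        rw [k (add_mem (g1 x) (g1 y)) (by rw [map_add, g2, g2]), add_mul, map_add]
      map_smul' := fun c x => by
        rw [k (smul_mem _ c (g1 x)) (by rw [map_smul, g2]), smul_mul_assoc, map_smul]
        rfl }
  obtain ⟨s, hs⟩ := td_tracial h.pos f fun x y => by
    change τ (g _ * e) = τ (g _ * e)
    rw [k (td_mul hS (g1 x) (g1 y)) (by rw [h.mul _ (g1 x) _ (g1 y), g2, g2]),
      k (td_mul hS (g1 y) (g1 x)) (by rw [h.mul _ (g1 y) _ (g1 x), g2, g2]), mul_assoc,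
      hτ _ (g1 x) _ (td_mul hS (g1 y) he.1.1), mul_assoc, mul_assoc, tdg_cen he.1 (g1 x)]
  exact ⟨s, fun b hb => by rw [← hs, ← k hb rfl]; rfl⟩

theorem td_s [Finite G] (hu : TG F u) {t : A →ₗ[F] F} (ht : Tf F u t)
    (hH : (Nat.card H : F) ≠ 0) (he : e ∈ Irr F (Hm F u H)) (h : MM F (Hm F u H) e ρ) :
    ∃ s : F, Nat.card H * s = n ∧ ∀ b ∈ span F (Hm F u H), t (b * e) = s * (ρ b).trace := by
  have hS := twed_nice hu H hH
  obtain ⟨s, hs⟩ := h.tracial hS he t fun a ha b hb => tf_comm hu ht ha hb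
  refine ⟨s, ?_, hs⟩
  let o : Fin n := ⟨0, h.pos⟩
  obtain ⟨j, hj, k⟩ := h.surj (Matrix.diagonal (Pi.single o 1))
  have j2 : j * e * (j * e) = j * e := by
    rw [mul_assoc, ← mul_assoc e, tdg_cen he.1 hj, mul_assoc, he.2.1, ← mul_assoc]
    refine (td_eq he.1.1 h (tdg_mul hu hj hj) hj).1 ?_
    rw [h.mul j hj j hj, k, Matrix.diagonal_mul_diagonal]
    congr 1
    funext i
    by_cases hi : i = o <;> simp [hi]
  have d := dg_tf hu ht (tdg_mul hu hj he.1.1) j2
  have r : (Matrix.diagonal (Pi.single o (1 : F))).rank = 1 := by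
    classical
    rw [Matrix.rank_diagonal, Fintype.card_eq_one_iff]
    refine ⟨⟨o, by simp⟩, fun i => Subtype.ext ?_⟩
    by_contra hi
    exact i.2 (Pi.single_eq_of_ne hi _)
  rw [td_dim hS he h hj, td_rank, hs j hj, k, r, mul_one, Matrix.trace_diagonal] at d
  simpa using d.symm

/-- hint: both sides are the trace of right multiplication by `b * e` on the span. -/
theorem MM.t_eq [Finite G] (hu : TG F u) {t : A →ₗ[F] F} (ht : Tf F u t)
    (hH : (Nat.card H : F) ≠ 0) (he : e ∈ Irr F (Hm F u H)) (h : MM F (Hm F u H) e ρ)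
    (hb : b ∈ span F (Hm F u H)) : (Nat.card H : F) * t (b * e) = n * (ρ b).trace := by
  obtain ⟨s, h1, h2⟩ := td_s hu ht hH he h
  rw [h2 b hb, ← mul_assoc, h1]

theorem Dg_ne [IsAlgClosed F] (hS : Nice F S) (he : e ∈ Irr F S) : (Dg F S e : F) ≠ 0 := by
  obtain ⟨n, ρ, h⟩ := exists_MM hS he
  rw [h.dimsq hS he, Nat.cast_pow]
  obtain ⟨G, _, _, u, hu, hG, rfl⟩ := hS
  obtain ⟨t, ht⟩ := exists_tf hu
  obtain ⟨s, h1, h2⟩ := td_s hu ht (by rwa [Subgroup.card_top]) he h
  refine pow_ne_zero _ fun h0 => he.2.2.1 (twed_nd hu ht (twed_span (F := F) u ▸ he.1.1) fun y => ?_)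
  rw [h0, Subgroup.card_top, mul_eq_zero] at h1
  rw [h2 _ (subset_span (tdg_mem u trivial)), h1.resolve_left hG, zero_mul]

/-- the rank of an idempotent of the block. -/
theorem MM.dg_idem (hS : Nice F S) (he : e ∈ Irr F S) (h : MM F S e ρ) (hb : b ∈ span F S)
    (h2 : b * b = b) : Dg F S (b * e) = n * (ρ b).rank := by
  rw [td_dim hS he h hb, td_rank]

/-- a commutative twisted group algebra has `|G|` blocks, all of dimension one. -/
theorem irr_comm [IsAlgClosed F] [Finite G] (hu : TG F u) (hG : (Nat.card G : F) ≠ 0)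
    (hc : ∀ x y, u x * u y = u y * u x) :
    (Irr F (Hm F u ⊤)).ncard = Nat.card G ∧ ∀ e ∈ Irr F (Hm F u ⊤), Dg F (Hm F u ⊤) e = 1 := by
  have cen : ∀ a ∈ span F (Hm F u ⊤), a ∈ Cen F (Hm F u ⊤) := fun a ha => ⟨ha, by
    rintro _ ⟨c, -, y, -, rfl⟩
    rw [mul_smul_comm, smul_mul_assoc]
    exact congrArg _ (tdg_ext (f := LinearMap.mulRight F (u y)) (g := LinearMap.mulLeft F (u y))
      (fun x _ => hc x y) ha)⟩
  refine ⟨?_, fun e he => ?_⟩
  · obtain ⟨o, n, d, ρ, ε, -, hU, -, -, h1, h2, h3, h4⟩ :=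
      (twed_nice hu ⊤ (by rwa [Subgroup.card_top])).wed
    have m : ∀ i, ε i ∈ Irr F (Hm F u ⊤) := fun i => h1 ▸ Set.mem_range_self i
    have li : LinearIndependent F ε := Fintype.linearIndependent_iff.2 fun c hc i => by
      have := congrArg (· * ε i) hc
      simp only [Finset.sum_mul, smul_mul_assoc, zero_mul] at this
      rw [Finset.sum_eq_single i (fun j _ hj => by rw [h3 j i hj, smul_zero]) (by simp),
        (m i).2.1] at this
      exact (smul_eq_zero.1 this).resolve_right (m i).2.2.1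
    have sp : span F (Set.range ε) = span F (Set.range u) := by
      rw [← twed_span u]
      refine le_antisymm (span_le.2 ?_) fun a ha => ?_
      · rintro _ ⟨i, rfl⟩
        exact (m i).1.1
      · rw [← hU.mul_one a ha, ← h4, Finset.mul_sum]
        refine sum_mem fun i _ => ?_
        obtain ⟨c, hc⟩ := (m i).2.2.2 a (cen a ha)
        rw [hc]
        exact smul_mem _ _ (subset_span ⟨i, rfl⟩)
    have := Fintype.ofFinite G
    rw [h1, Set.ncard_range_of_injective h2, Nat.card_eq_fintype_card, Nat.card_eq_fintype_card,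
      ← finrank_span_eq_card li, sp, finrank_span_eq_card hu.ind]
  · have : (span F (Hm F u ⊤)).map (LinearMap.mulRight F e) = span F {e} := by
      refine le_antisymm ?_ ((span_singleton_le_iff_mem _ _).2 ⟨e, he.1.1, he.2.1⟩)
      rintro _ ⟨a, ha, rfl⟩
      obtain ⟨c, hc⟩ := he.2.2.2 a (cen a ha)
      exact mem_span_singleton.2 ⟨c, hc.symm⟩
    rw [Dg, this, finrank_span_singleton he.2.2.1]

end Pool.Agent.Lib.MP_1ae3da_al.CT
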