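import Pool.Agent.Lib.MP_1ae3da_al.C.BMod
import Pool.Agent.Lib.MP_1ae3da_al.C.BP
import Pool.Agent.Lib.MP_1ae3da_al.C.BP5
import Pool.Agent.Lib.MP_1ae3da_al.C.TD

/-! The link of a coprime action over the residue field. -/

namespace Pool.Agent.Lib.MP_1ae3da_al.CT

open Submodule

variable {k B L : Type} [Field k] [Ring B] [Algebra k B] [Group L] {p : ℕ} {v : L → B}
  {E : Subgroup (RingAut B)} {M : Subgroup L} {Br : B →ₗ[k] B}

theorem blk_nice (h : CA k p v E M) (H : Subgroup L) : Nice k (Hm k v H) := by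
  have := h.finL
  have := h.char
  exact nice_Hm h.tg fun e => h.cop
    (((CharP.cast_eq_zero_iff k p _).1 e).trans H.card_subgroup_dvd_card)

theorem blk_one {d : ℕ} (m : Matrix (Fin d) (Fin d) k) : m.map (1 : RingAut k) = m := rfl

/-- an implementer in a matrix model. -/
theorem blk_ln [IsAlgClosed k] {S : Set B} (hS : Nice k S) {e w : B} (he : e ∈ Irr k S) {d : ℕ}
    {ρ : B →ₗ[k] Matrix (Fin d) (Fin d) k} (hρ : MM k S e ρ) {a : RingAut B} (hl : Lin k a)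
    (h1 : a ∈ Stb S) (hw : w ∈ Ln k S e a) :
    IsUnit (ρ w) ∧ ∀ b ∈ span k S, ρ (a b) * ρ w = ρ w * (ρ b).map (1 : RingAut k) := by
  obtain ⟨w', hw', e1, e2⟩ := Ln_unit hS he hl h1 hw
  refine ⟨⟨⟨ρ w, ρ w', ?_, ?_⟩, rfl⟩, fun b hb => ?_⟩
  · rw [← hρ.mul _ hw.1 _ hw'.1, e1, hρ.one]
  · rw [← hρ.mul _ hw'.1 _ hw.1, e2, hρ.one]
  · rw [blk_one, ← hρ.mul _ hw.1 _ hb, Ln_span hl hw hb,
      hρ.mul _ ((span_stb (GG := ⊤) hl.mem_SG h1).2 hb) _ hw.1]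

theorem blk_perm {γ : RingAut B} (h : γ ∈ Subgroup.normalizer (E : Set (RingAut B))) :
    ∃ s : Equiv.Perm E, ∀ g : E, (s g).1 = γ * g.1 * γ⁻¹ :=
  ⟨(E.normalizerMonoidHom ⟨γ, h⟩).toEquiv, fun _ => rfl⟩

section model
variable {e : B} {d n : ℕ} {ρ : B →ₗ[k] Matrix (Fin d) (Fin d) k}
  {ρ' : B →ₗ[k] Matrix (Fin n) (Fin n) k} {ι : E →* Matrix (Fin d) (Fin d) k}
  {Bq : Matrix (Fin d) (Fin d) k →ₗ[k] Matrix (Fin n) (Fin n) k}

theorem blk_dat (h : CA k p v E M) (hB : IsBr v M Br) (he : e ∈ Irr k (Hm k v ⊤))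
    (hρ : MM k (Hm k v ⊤) e ρ) (hι : ∀ (g : E) (b : B), ι g * ρ b = ρ (g.1 b) * ι g)
    (hq : ∀ b, b * e = b → Bq (ρ b) = ρ' (Br b)) {τ : RingAut k} {γ : RingAut B}
    (hs : SL k τ γ) (h1 : γ ∈ Stb (Hm k v ⊤)) (h2 : γ ∈ Stb (Hm k v M)) (h3 : γ e = e)
    {s : Equiv.Perm E} (h4 : ∀ g : E, (s g).1 = γ * g.1 * γ⁻¹)
    {m : Matrix (Fin d) (Fin d) k} {m' : Matrix (Fin n) (Fin n) k} (um : IsUnit m)
    (um' : IsUnit m') (hm : ∀ b ∈ span k (Hm k v ⊤), ρ (γ b) * m = m * (ρ b).map τ)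
    (hm' : ∀ b ∈ span k (Hm k v M), ρ' (γ b) * m' = m' * (ρ' b).map τ) :
    Dat ι Bq τ s m m' := by
  have := h.char
  have pw (g : E) : ι g ^ p = 1 := by
    rw [← map_pow, show g ^ p = 1 from Subtype.ext (h.pw _ g.2), map_one]
  have mp (x y : Matrix (Fin d) (Fin d) k) : (x * y).map τ = x.map τ * y.map τ :=
    Matrix.map_mul (f := τ.toRingHom)
  obtain ⟨U, rfl⟩ := um
  refine ⟨U.isUnit, um', fun g => ?_, fun c c' _ _ hc => ?_⟩
  · rw [← Units.mul_inv_eq_iff_eq_mul]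
    refine bm_uniq h.prime ?_ (pw _) fun a => ?_
    · rw [Units.conj_pow, show (ι g).map τ = τ.toRingHom.mapMatrix (ι g) from rfl, ← map_pow, pw,
        map_one, mul_one, U.mul_inv]
    · obtain ⟨b, -, rfl⟩ := hρ.surj a
      obtain ⟨b, rfl⟩ := γ.surjective b
      refine ⟨ρ (γ (g.1 b)), ?_, ?_⟩
      · have e1 : (U⁻¹).val * ρ (γ b) = (ρ b).map τ * (U⁻¹).val := by
          rw [Units.inv_mul_eq_iff_eq_mul, ← mul_assoc, ← hm b (br_top h b),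
            Units.mul_inv_cancel_right]
        rw [mul_assoc, e1, ← mul_assoc, mul_assoc U.val, ← mp, hι, mp, ← mul_assoc,
          ← hm _ (br_top h _)]
        simp only [mul_assoc]
      · rw [hι, h4]
        exact congrArg (fun y => ρ (γ (g.1 y)) * _) (γ.symm_apply_apply b)
  · obtain ⟨b, hb, rfl⟩ := hρ.surj c
    have e1 : ρ (b * e) = ρ b := by rw [hρ.mul _ hb _ he.1.1, hρ.one, mul_one]
    have e2 : b * e * e = b * e := by rw [mul_assoc, he.2.1]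
    rw [← e1] at hc ⊢
    rw [← hm _ (br_top h _), U.mul_left_inj] at hc
    rw [← hc, hq _ e2, hq _ (by rw [← h3, ← map_mul, h3, e2]), br_nat h hB hs h1 h2,
      hm' _ (br_mem h hB _)]

end model

theorem blk_link (h : CA k p v E M) (hB : IsBr v M Br) {e : B} (he : e ∈ Irr k (Hm k v ⊤))
    (hf : ∀ g ∈ E, g e = e) : ∃ U, Link k
      (SG (⊤ : Subgroup (RingAut k)) B ⊓ Stb (Hm k v ⊤) ⊓
        Subgroup.normalizer (E : Set (RingAut B)) ⊓ Fx e) (Hm k v ⊤) (Hm k v M) e (Br e) U := by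
  have := h.char
  have := h.alg
  have := h.finE
  have := Fintype.ofFinite E
  have N1 := blk_nice h ⊤
  have N2 := blk_nice h M
  have he' : Br e ∈ Irr k (Hm k v M) := (br_bij h hB).1 ⟨he, hf⟩
  obtain ⟨d, ρ, hρ⟩ := exists_MM N1 he
  obtain ⟨n, ρ', hρ'⟩ := exists_MM N2 he'
  obtain ⟨ι, Bq, π, hι, hq, q1, q2, q3, q4, q5⟩ := bm_model h hB he hf hρ hρ'
  have hd : ¬ p ∣ Fintype.card (Fin d) := fun a => Dg_ne N1 he (by
    rw [hρ.dimsq N1 he, CharP.cast_eq_zero_iff k p]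
    exact (Fintype.card_fin d ▸ a).trans (dvd_pow_self d two_ne_zero))
  obtain ⟨z1, z2, z3⟩ := bp_core h.prime (fun g : E => Subtype.ext (h.pw _ g.2))
    (fun g g' => Subtype.ext (h.com _ g.2 _ g'.2)) ι hd Bq q1 q2 q3 π q4 q5
  have : Nonempty (Fin n) := ⟨⟨0, hρ'.pos⟩⟩
  obtain ⟨χ, c0, c1, c2, c3⟩ := p5 ι Bq (p - 1) q1 q2 q3 z1 z2 z3
  set Γ := SG (⊤ : Subgroup (RingAut k)) B ⊓ Stb (Hm k v ⊤) ⊓
    Subgroup.normalizer (E : Set (RingAut B)) ⊓ Fx e with hΓ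
  have st {γ} (g : γ ∈ Γ) : γ ∈ Stb (Hm k v M) :=
    g.1.1.1.elim fun _ t => br_stb h t.2 g.1.1.2 g.1.2
  have fx {γ} (g : γ ∈ Γ) : γ (Br e) = Br e :=
    g.1.1.1.elim fun _ t => by rw [← br_nat h hB t.2 g.1.1.2 (st g), show γ e = e from g.2]
  have dat {a w w'} {s : Equiv.Perm E} (g : a ∈ Γ) (l : Lin k a) (hw : w ∈ Ln k (Hm k v ⊤) e a)
      (hw' : w' ∈ Ln k (Hm k v M) (Br e) a) (hs : ∀ g : E, (s g).1 = a * g.1 * a⁻¹) :
      Dat ι Bq 1 s (ρ w) (ρ' w') :=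
    blk_dat h hB he hρ hι hq (show SL k 1 a from l) g.1.1.2 (st g) g.2 hs
      (blk_ln N1 he hρ l g.1.1.2 hw).1 (blk_ln N2 he' hρ' l (st g) hw').1
      (blk_ln N1 he hρ l g.1.1.2 hw).2 (blk_ln N2 he' hρ' l (st g) hw').2
  refine ⟨fun a w w' => a ∈ Γ ∧ Lin k a ∧ w ∈ Ln k (Hm k v ⊤) e a ∧
    w' ∈ Ln k (Hm k v M) (Br e) a ∧ ∃ s : Equiv.Perm E, (∀ g : E, (s g).1 = a * g.1 * a⁻¹) ∧
      χ 1 s (ρ w) (ρ' w') = 1, fun a w w' u => ⟨u.1, u.2.1, u.2.2.1, u.2.2.2.1⟩, ?_, ?_, ?_, ?_,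
    ?_, ?_⟩
  · intro a g l
    obtain ⟨w, hw⟩ := Ln_exists N1 he l g.1.1.2 g.2
    obtain ⟨w', hw'⟩ := Ln_exists N2 he' l (st g) (fx g)
    obtain ⟨s, hs⟩ := blk_perm g.1.2
    have D := dat g l hw hw' hs
    refine ⟨w, χ 1 s (ρ w) (ρ' w') • w', g, l, hw, Ln_smul hw' (c0 _ _ _ _ D), s, hs, ?_⟩
    have := c2 _ _ _ _ 1 _ D one_ne_zero (c0 _ _ _ _ D)
    rw [one_smul] at this
    rw [map_smul, this, one_div, inv_mul_cancel₀ (c0 _ _ _ _ D)]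
  · rintro a w w' b x x' ⟨g, l, hw, hw', s, hs, u⟩ ⟨g', l', hx, hx', s', hs', u'⟩
    refine ⟨mul_mem g g', l.mul l', Ln_mul N1 he l g.1.1.2 g'.1.1.2 hw hx,
      Ln_mul N2 he' l (st g) (st g') hw' hx', s * s', fun y => ?_, ?_⟩
    · rw [Equiv.Perm.mul_apply, hs, hs']; group
    · have := c1 _ _ _ _ _ _ _ _ (dat g l hw hw' hs) (dat g' l' hx hx' hs')
      rw [u, u', map_one, mul_one, mul_one, blk_one, blk_one] at this
      rw [hρ.mul _ hw.1 _ hx.1, hρ'.mul _ hw'.1 _ hx'.1, this]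
  · rintro a w w' c hc ⟨g, l, hw, hw', s, hs, u⟩
    refine ⟨g, l, Ln_smul hw hc, Ln_smul hw' hc, s, hs, ?_⟩
    rw [map_smul, map_smul, c2 _ _ _ _ _ _ (dat g l hw hw' hs) hc hc, u, div_self hc, one_mul]
  · rintro a w w₁ w₂ ⟨g, l, hw, h1, s, hs, u⟩ ⟨-, -, -, h2, s', hs', u'⟩
    obtain ⟨c, hc, rfl⟩ := Ln_unique N2 he' l (st g) h1 h2
    obtain rfl : s = s' := Equiv.ext fun y => Subtype.ext ((hs y).trans (hs' y).symm)
    have := c2 _ _ _ _ 1 _ (dat g l hw h1 hs) one_ne_zero hc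
    rw [one_smul, ← map_smul, u, u', mul_one, one_div, eq_comm, inv_eq_one] at this
    rw [this, one_smul]
  · intro a g l m hm hx
    have mo {x} (hx : x ∈ Hm k v M) : x ∈ Hm k v ⊤ :=
      hx.imp fun _ a => ⟨a.1, a.2.imp fun _ b => ⟨trivial, b.2⟩⟩
    have m1 := mo hm
    have fm := br_fix h (subset_span hm)
    have hw := Ln_hm N1 he m1 hx
    refine ⟨g, l, hw, Ln_hm N2 he' hm fun x y => hx x (mo y), 1, fun y => ?_, ?_⟩
    · have sp (b : B) : m * b = a b * m := by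
        have hb := br_top h b
        induction hb using span_induction with
        | mem x k => exact hx x k
        | zero => simp
        | add x y _ _ p q => rw [mul_add, p, q, map_add, add_mul]
        | smul c x _ p => rw [mul_smul_comm, p, l, smul_mul_assoc]
      obtain ⟨ε, -, -, i0, i2, -⟩ := N1.unit
      obtain ⟨m', -, i1, -⟩ := i2 m m1
      rw [eq_mul_inv_iff_mul_eq]
      refine RingEquiv.ext fun b => ?_
      have e1 : y.1 (a b) * m = a (y.1 b) * m := by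
        rw [← sp, ← fm _ y.2, ← map_mul, ← sp, map_mul]
      have e2 := congrArg (· * m') e1
      simp only [mul_assoc, i1, (i0 _ (br_top h _)).2] at e2
      exact e2
    · have := c3 (ρ (m * e)) (fun y => by rw [hι, map_mul y.1, fm _ y.2, hf _ y.2])
        (blk_ln N1 he hρ l g.1.1.2 hw).1
      rwa [hq _ hw.2.1, br_left h hB (subset_span hm)] at this
  · rintro γ g a w w' ⟨g', l, hw, hw', s, hs, u⟩
    obtain ⟨τ, -, t⟩ := id g.1.1.1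
    obtain ⟨s', hs'⟩ := blk_perm g.1.2
    obtain ⟨U, hU⟩ := hρ.impl N1 he t (ρ' := ρ) (by
      rwa [stb_image.1 g.1.1.2, show γ e = e from g.2])
    obtain ⟨U', hU'⟩ := hρ'.impl N2 he' t (ρ' := ρ') (by rwa [stb_image.1 (st g), fx g])
    have D := blk_dat h hB he hρ hι hq t g.1.1.2 (st g) g.2 hs' U.isUnit U'.isUnit hU hU'
    have g2 : γ * a * γ⁻¹ ∈ Γ := mul_mem (mul_mem g g') (inv_mem g)
    have w1 := ln_stb g.1.1.1 g.1.1.2 hw
    have w2 := ln_stb g.1.1.1 (st g) hw'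
    rw [show γ e = e from g.2] at w1
    rw [fx g] at w2
    have s2 (y : E) : ((s' * s * s'⁻¹) y).1 = γ * a * γ⁻¹ * y.1 * (γ * a * γ⁻¹)⁻¹ := by
      obtain ⟨y, rfl⟩ := s'.surjective y
      rw [Equiv.Perm.mul_apply, Equiv.Perm.mul_apply, Equiv.Perm.inv_def, s'.symm_apply_apply,
        hs', hs, hs']
      group
    refine ⟨g2, t.lin l, w1, w2, _, s2, ?_⟩
    have e1 := c1 _ _ _ _ _ _ _ _ D (dat g' l hw hw' hs)
    have e2 := c1 _ _ _ _ _ _ _ _ (dat g2 (t.lin l) w1 w2 s2) D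
    rw [u, map_one, mul_one, mul_one, ← hU _ hw.1, ← hU' _ hw'.1] at e1
    rw [one_mul, inv_mul_cancel_right, blk_one, blk_one, e1] at e2
    exact (mul_eq_right₀ (c0 _ _ _ _ D)).1 e2.symm

theorem b1k (h : CA k p v E M) :
    LK k (SG (⊤ : Subgroup (RingAut k)) B ⊓ Stb (Hm k v ⊤) ⊓
      Subgroup.normalizer (E : Set (RingAut B))) (Hm k v ⊤) (Hm k v M)
      {e | e ∈ Irr k (Hm k v ⊤) ∧ ∀ g ∈ E, g e = e} (Irr k (Hm k v M)) := by
  obtain ⟨Br, hB⟩ := br_ex h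
  refine ⟨Br, ⟨br_bij h hB, fun γ g e he => ⟨⟨(irr_stb g.1.1 g.1.2).2 he.1, fun y hy => ?_⟩, ?_⟩⟩,
    fun e he => blk_link h hB he.1 he.2⟩
  · have := he.2 _ ((Subgroup.mem_normalizer_iff''.1 g.2 y).1 hy)
    exact (γ.apply_symm_apply _).symm.trans (congrArg γ this)
  · obtain ⟨τ, -, t⟩ := id g.1.1
    exact br_nat h hB t g.1.2 (br_stb h t g.1.2 g.2) e

end Pool.Agent.Lib.MP_1ae3da_al.CT
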