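import Pool.Agent.Lib.MP_1ae3da_al.C.Defs
import Pool.Agent.Lib.MP_1ae3da_al.C.BY

/-! Relative traces in an algebra and the conjugation action. -/

namespace Pool.Agent.Lib.MP_1ae3da_al.CT

open Module

/-- the span of the relative traces from proper subgroups, inside an algebra. -/
def RTa (K : Type) {S E : Type} [Field K] [Ring S] [Algebra K S] [Group E] (ρ : E →* S) :
    Submodule K S :=
  Submodule.span K {f | ∃ U : Subgroup E, U ≠ ⊤ ∧ ∃ y : S,
    (∀ g ∈ U, ρ g * y = y * ρ g) ∧ f = ∑ᶠ q : E ⧸ U, ρ q.out * y * ρ q.out⁻¹}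

theorem rt_eq {K V E : Type} [Field K] [AddCommGroup V] [Module K V] [Group E]
    (ρ : E →* End K V) : RT ρ = RTa K ρ := rfl

/-- conjugation by `ρ g`. -/
def AdR (K : Type) {S E : Type} [Field K] [Ring S] [Algebra K S] [Group E] (ρ : E →* S) :
    E →* End K S where
  toFun g := LinearMap.mulLeft K (ρ g) * LinearMap.mulRight K (ρ g⁻¹)
  map_one' := by ext; simp
  map_mul' g h := by ext; simp [mul_assoc]

theorem adR_apply {K S E : Type} [Field K] [Ring S] [Algebra K S] [Group E] (ρ : E →* S) (g : E)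
    (a : S) : AdR K ρ g a = ρ g * a * ρ g⁻¹ := (mul_assoc _ _ _).symm

end Pool.Agent.Lib.MP_1ae3da_al.CT
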