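import Pool.Agent.Lib.MP_1ae3da_al.C.BBr
import Pool.Agent.Lib.MP_1ae3da_al.C.BPD
import Pool.Agent.Lib.MP_1ae3da_al.C.BIo

/-! The Brauer homomorphism in a pair of matrix models. -/

namespace Pool.Agent.Lib.MP_1ae3da_al.CT

open Submodule

variable {k B L : Type} [Field k] [Ring B] [Algebra k B] [Group L] {p : ℕ} {v : L → B}
  {E : Subgroup (RingAut B)} {M : Subgroup L} {Br : B →ₗ[k] B}

theorem bm_uniq {F : Type} [Field F] {p : ℕ} (hp : p.Prime) [CharP F p] {n : ℕ}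
    {x y : Matrix (Fin n) (Fin n) F} (hx : x ^ p = 1) (hy : y ^ p = 1)
    (h : ∀ a, ∃ b, x * a = b * x ∧ y * a = b * y) : x = y := by
  obtain ⟨q, rfl⟩ : ∃ q, p = q + 1 := ⟨p - 1, by have := hp.pos; omega⟩
  have x1 : x ^ q * x = 1 := by rw [← pow_succ, hx]
  have x2 : x * x ^ q = 1 := by rw [← pow_succ', hx]
  obtain ⟨c, hc⟩ : x ^ q * y ∈ Set.range (Matrix.scalar (Fin n)) :=
    Matrix.mem_range_scalar_iff_commute_single'.2 fun i j => by
      obtain ⟨b, h1, h2⟩ := h (Matrix.single i j 1)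
      change _ * _ = _ * _
      rw [mul_assoc (x ^ q), h2, ← one_mul (Matrix.single i j 1 * _), ← x1, mul_assoc _ x,
        ← mul_assoc x, h1, mul_assoc b, ← mul_assoc x, x2, one_mul]
  have e : y = c • x := by
    rw [← one_mul y, ← x2, mul_assoc, ← hc, Matrix.scalar_apply, ← Matrix.smul_eq_mul_diagonal]
  rcases n.eq_zero_or_pos with rfl | hn
  · exact Subsingleton.elim _ _
  · have : Nonempty (Fin n) := ⟨⟨0, hn⟩⟩
    rw [e, smul_pow, hx] at hy
    rw [e, bio_root hp (smul_left_injective F one_ne_zero (hy.trans (one_smul F _).symm)), one_smul]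

/-- relative traces pass along equivariant maps -/
theorem bmod_map {G V W : Type} [Group G] [Finite G] [AddCommGroup V] [Module k V]
    [AddCommGroup W] [Module k W] {ρ : G →* Module.End k V} {ρ' : G →* Module.End k W}
    (i : W →ₗ[k] V) (r : V →ₗ[k] W) (hi : ∀ g a, i (ρ' g a) = ρ g (i a))
    (hr : ∀ g a, r (ρ g a) = ρ' g (r a)) {f : Module.End k V} (hf : f ∈ RT ρ) :
    r ∘ₗ f ∘ₗ i ∈ RT ρ' := by
  induction hf using span_induction with
  | mem f h =>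
    obtain ⟨U, hU, y, hy, rfl⟩ := h
    have := Fintype.ofFinite (G ⧸ U)
    refine subset_span ⟨U, hU, r ∘ₗ y ∘ₗ i, fun g hg => LinearMap.ext fun a => ?_,
      LinearMap.ext fun a => ?_⟩
    · change ρ' g (r (y (i a))) = r (y (i (ρ' g a)))
      rw [hi, ← hr]
      exact congrArg r (LinearMap.congr_fun (hy g hg) (i a))
    · simp only [finsum_eq_sum_of_fintype, LinearMap.sum_apply, Module.End.mul_apply, map_sum,
        LinearMap.comp_apply, hi, hr]
  | zero => rw [LinearMap.zero_comp, LinearMap.comp_zero]; exact zero_mem _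
  | add f g _ _ a b => rw [LinearMap.add_comp, LinearMap.comp_add]; exact add_mem a b
  | smul c f _ a => rw [LinearMap.smul_comp, LinearMap.comp_smul]; exact smul_mem _ c a

/-- the linear action -/
def bmodAct (hl : ∀ g ∈ E, Lin k g) : E →* Module.End k B where
  toFun g := ⟨⟨g.1, map_add g.1⟩, hl g g.2⟩
  map_one' := rfl
  map_mul' _ _ := rfl

theorem bm_model (h : CA k p v E M) (hB : IsBr v M Br) {e : B} (he : e ∈ Irr k (Hm k v ⊤))
    (hf : ∀ g ∈ E, g e = e) {d n : ℕ} {ρ : B →ₗ[k] Matrix (Fin d) (Fin d) k}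
    {ρ' : B →ₗ[k] Matrix (Fin n) (Fin n) k} (hρ : MM k (Hm k v ⊤) e ρ)
    (hρ' : MM k (Hm k v M) (Br e) ρ') :
    ∃ (ι : E →* Matrix (Fin d) (Fin d) k)
      (Bq : Matrix (Fin d) (Fin d) k →ₗ[k] Matrix (Fin n) (Fin n) k)
      (π : Module.End k (Matrix (Fin d) (Fin d) k)),
      (∀ (g : E) (b : B), ι g * ρ b = ρ (g.1 b) * ι g) ∧
      (∀ b, b * e = b → Bq (ρ b) = ρ' (Br b)) ∧ Bq 1 = 1 ∧
      (∀ c c', Cm ι c → Cm ι c' → Bq (c * c') = Bq c * Bq c') ∧
      (∀ b, ∃ c, Cm ι c ∧ Bq c = b) ∧ 1 - π ∈ RT (AdR k ι) ∧ ∀ c, Bq c = 0 → π c = 0 := by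
  have := h.char
  have := h.alg
  have := h.finL
  have := h.finE
  have T := br_top h
  have hS : Nice k (Hm k v ⊤) := ⟨L, _, inferInstance, v, h.tg,
    fun z => h.cop ((CharP.cast_eq_zero_iff k p _).1 z), rfl⟩
  obtain ⟨j, j1, j2, j3, -⟩ := exists_iota h.prime hS he E h.lin h.stb hf h.pw h.com
  obtain ⟨ι, -, i1⟩ := iota_mat hρ h.lin h.stb (fun g => (j1 g).1) j2 j3
  replace i1 := fun g b => i1 g b (T b)
  have m : ∀ a b, ρ (a * b) = ρ a * ρ b := fun a b => hρ.mul a (T a) b (T b)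
  have me : ∀ a, ρ (a * e) = ρ a := fun a => by rw [m, hρ.one, mul_one]
  have q : ∀ a b, ρ a = ρ b → a * e = b * e := fun a b z => by
    rw [← sub_eq_zero, ← sub_mul]
    exact hρ.inj _ (T _) (by rw [map_sub, z, sub_self])
  obtain ⟨s0, h0⟩ := ρ.exists_rightInverse_of_surjective
    (LinearMap.range_eq_top.2 fun c => (hρ.surj c).imp fun _ z => z.2)
  let s := LinearMap.mulRight k e ∘ₗ s0
  have s1 : ∀ c, ρ (s c) = c := fun c => (me _).trans (LinearMap.congr_fun h0 c)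
  have s2 : ∀ b, s (ρ b) = b * e := fun b => q _ _ (LinearMap.congr_fun h0 _)
  have s3 : ∀ c, s c * e = s c := fun c => by rw [← s2, s1]
  have u : ∀ g : E, ι g * ι g⁻¹ = 1 := fun g => by rw [← map_mul, mul_inv_cancel, map_one]
  have a1 : ∀ (g : E) b, ρ (g.1 b) = AdR k ι g (ρ b) := fun g b => by
    rw [adR_apply, i1, mul_assoc, u, mul_one]
  have ge : ∀ (g : E) b, g.1 (b * e) = g.1 b * e := fun g b => by rw [map_mul, hf g g.2]
  have a2 : ∀ (g : E) c, s (AdR k ι g c) = g.1 (s c) := fun g c => by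
    rw [← s1 c, ← a1, s2, ← ge, s3, s1]
  have fx : ∀ c, Cm ι c → ∀ g ∈ E, g (s c) = s c := fun c z g hg => by
    rw [← a2 ⟨g, hg⟩, adR_apply, ← z, mul_assoc, u, mul_one]
  have rt := br_rt h hB (bmodAct h.lin) fun _ _ => rfl
  have p2 : ∀ c, ρ (Br (s (ρ (Br (s c))))) = ρ (Br (s c) * Br e) := fun c => by
    rw [s2, br_left h hB (br_mem h hB _)]
  refine ⟨ι, ρ' ∘ₗ Br ∘ₗ s, (ρ ∘ₗ Br ∘ₗ s) * (ρ ∘ₗ Br ∘ₗ s), i1, fun b z => ?_, ?_,
    fun c c' z z' => ?_, fun b => ?_, ?_, fun c z => ?_⟩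
  · change ρ' (Br (s (ρ b))) = _
    rw [s2, z]
  · change ρ' (Br (s 1)) = _
    rw [← hρ.one, s2, he.2.1, hρ'.one]
  · change ρ' (Br (s (c * c'))) = ρ' (Br (s c)) * ρ' (Br (s c'))
    rw [← hρ'.mul _ (br_mem h hB _) _ (br_mem h hB _), ← br_mul h hB (fx c z) (fx c' z'),
      ← s3 c', ← mul_assoc, ← s2, m, s1, s1]
  · obtain ⟨a, ha, rfl⟩ := hρ'.surj b
    refine ⟨ρ a, fun g => by rw [i1, br_fix h ha g g.2], ?_⟩
    change ρ' (Br (s (ρ a))) = _
    rw [s2, br_left h hB ha, hρ'.mul _ ha _ (br_mem h hB _), hρ'.one, mul_one]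
  · have r1 := bmod_map s ρ a2 a1 rt
    have r2 := bmod_map (s ∘ₗ ρ ∘ₗ Br ∘ₗ s) ρ (fun g c => by
      change s (ρ (Br (s (AdR k ι g c)))) = g.1 (s (ρ (Br (s c))))
      rw [a2, br_inv h hB _ g g.2, s2, ge, br_fix h (br_mem h hB _) g g.2]) a1 rt
    refine Eq.subst (motive := (· ∈ RT (AdR k ι))) (LinearMap.ext fun c => ?_) (add_mem r1 r2)
    change ρ (s c - Br (s c)) + ρ (s (ρ (Br (s c))) - Br (s (ρ (Br (s c))))) =
      c - ρ (Br (s (ρ (Br (s c)))))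
    rw [map_sub, map_sub, s1, s1, sub_add_sub_cancel]
  · change ρ (Br (s (ρ (Br (s c))))) = 0
    rw [p2, hρ'.inj _ (br_mem h hB _) z, map_zero]

end Pool.Agent.Lib.MP_1ae3da_al.CT
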