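import Pool.Agent.Lib.MP_1ae3da_al.C.BPD

/-! Relative traces send the kernel of the generic element into the image of its top power. -/

namespace Pool.Agent.Lib.MP_1ae3da_al.CT

open Module LinearMap

variable {p : ℕ} {k K E : Type} [Field k] [Field K] [Group E]

theorem bp1_dual [Fact p.Prime] {M : Type} [AddCommGroup M] [Module (ZMod p) M] {U : AddSubgroup M}
    (hU : U ≠ ⊤) : ∃ f : M →+ ZMod p, (∀ u ∈ U, f u = 0) ∧ ∃ g, f g ≠ 0 := by
  obtain ⟨f, a, b⟩ := Submodule.exists_le_ker_of_lt_top (AddSubgroup.toZModSubmodule p U)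
    (Ne.lt_top fun h => hU (eq_top_iff.2 fun x _ => Submodule.eq_top_iff'.1 (by exact h) x))
  exact ⟨f.toAddMonoidHom, b, not_forall.1 fun c => a (LinearMap.ext c)⟩

theorem bp1_chr (hp : p.Prime) (k : Type) [Field k] [CharP k p] (hE : ∀ g : E, g ^ p = 1)
    (hc : ∀ g h : E, g * h = h * g) {U : Subgroup E} (hU : U ≠ ⊤) :
    ∃ φ : E → k, (∀ g h, φ (g * h) = φ g + φ h) ∧ (∀ u ∈ U, φ u = 0) ∧ ∃ g, φ g ≠ 0 := by
  have := Fact.mk hp
  let : CommGroup E := { mul_comm := hc }
  obtain ⟨f, b, g, c⟩ := @bp1_dual p _ (Additive E) _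
    (AddCommGroup.zmodModule fun x => hE x.toMul) U.toAddSubgroup
    fun h => hU (eq_top_iff.2 fun x _ => (AddSubgroup.eq_top_iff' _).1 h (Additive.ofMul x))
  exact ⟨fun g => ZMod.castHom dvd_rfl k (f (.ofMul g)), fun g h => by simp,
    fun u h => by simp [b (.ofMul u) h], g.toMul, (map_ne_zero _).2 c⟩

theorem bp1_weyl {R : Type} [Ring R] {D T : R} (h : D * T = T * D + 1) (j : ℕ) :
    D * T ^ (j + 1) = T ^ (j + 1) * D + (j + 1) • T ^ j := by
  induction j with
  | zero => simpa using h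
  | succ j ih =>
    rw [pow_succ T (j + 1), ← mul_assoc, ih, add_mul, mul_assoc, h, smul_mul_assoc, ← pow_succ,
      mul_add, mul_one, mul_assoc, succ_nsmul _ (j + 1)]
    abel

theorem bp1_fac {W : Type} [AddCommGroup W] [Module K W] {D T : End K W} (h : D * T = T * D + 1)
    {v : W} (hv : D v = 0) (j : ℕ) : (D ^ j) ((T ^ j) v) = j.factorial • v := by
  induction j with
  | zero => simp
  | succ j ih =>
    rw [pow_succ D, End.mul_apply, ← End.mul_apply D, bp1_weyl h, LinearMap.add_apply, End.mul_apply,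
      hv, map_zero, zero_add, LinearMap.smul_apply, map_nsmul, ih, smul_smul, Nat.factorial_succ]

variable [Fintype E]

/-- the generic element. -/
noncomputable def zz {R : Type} [Ring R] [Algebra K R] (Y : E → K) (ρ : E →* R) : R :=
  ∑ g, Y g • (ρ g - 1)

theorem bp1_pow (hp : p.Prime) [CharP K p] (hE : ∀ g : E, g ^ p = 1)
    (hc : ∀ g h : E, g * h = h * g) {R : Type} [Ring R] [Algebra K R] (ρ : E →* R) (c : E → K)
    (a : K) : (∑ g, c g • ρ g - a • 1) ^ p = (∑ g, c g - a) ^ p • 1 := by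
  have := Fact.mk hp
  let : CommGroup E := { mul_comm := hc }
  have : CharP (MonoidAlgebra K E) p := charP_of_injective_algebraMap' K p
  have := congrArg (MonoidAlgebra.lift K R E ρ) (sub_pow_char (p := p)
    (∑ g, MonoidAlgebra.single g (c g)) (MonoidAlgebra.single 1 a))
  rw [map_pow, sum_pow_char] at this
  simpa [sum_pow_char, sub_pow_char, MonoidAlgebra.single_pow, hE, sub_smul, Finset.sum_smul]
    using this

theorem zz_eq {R : Type} [Ring R] [Algebra K R] (Y : E → K) (ρ : E →* R) :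
    zz Y ρ = ∑ g, Y g • ρ g - (∑ g, Y g) • 1 := by
  simp [zz, smul_sub, Finset.sum_smul]

theorem zz_pow (hp : p.Prime) [CharP K p] (hE : ∀ g : E, g ^ p = 1)
    (hc : ∀ g h : E, g * h = h * g) {R : Type} [Ring R] [Algebra K R] (Y : E → K) (ρ : E →* R) :
    zz Y ρ ^ p = 0 := by
  rw [zz_eq, bp1_pow hp hE hc, sub_self, zero_pow hp.ne_zero, zero_smul]

theorem zz_comm {R : Type} [Ring R] [Algebra K R] (Y : E → K) (ρ : E →* R) {c : R}
    (h : ∀ g, c * ρ g = ρ g * c) : Commute c (zz Y ρ) :=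
  Commute.sum_right _ _ _ fun g _ => ((Commute.sub_right (h g) (.one_right c))).smul_right _

variable {W : Type} [AddCommGroup W] [Module K W]

theorem zz_semi {W' : Type} [AddCommGroup W'] [Module K W'] (Y : E → K) {ρ : E →* End K W}
    {ρ' : E →* End K W'} (f : W →ₗ[K] W') (h : ∀ g v, f (ρ g v) = ρ' g (f v)) (n : ℕ) (v : W) :
    f ((zz Y ρ ^ n) v) = (zz Y ρ' ^ n) (f v) :=
  (LinearMap.congr_fun (End.commute_pow_left_of_commute (f := f) (by
    ext v; simp [zz, h]) n) v).symm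

theorem bp1_free (hp : p.Prime) [CharP K p] (hE : ∀ g : E, g ^ p = 1)
    (hc : ∀ g h : E, g * h = h * g) (Y φ : E → K) (hY : ∑ g, Y g * φ g ≠ 0) (ρ : E →* End K W)
    (θ : End K W) (h : ∀ g, ρ g * θ = θ * ρ g + φ g • ρ g) {v : W} (hv : zz Y ρ v = 0) :
    v ∈ range (zz Y ρ ^ (p - 1)) := by
  have a := bp1_pow hp hE hc ρ (fun g => Y g * φ g) 0
  rw [zero_smul, sub_zero, sub_zero] at a
  set w := ∑ g, (Y g * φ g) • ρ g with hw
  have b : Commute w (zz Y ρ) := zz_comm Y ρ fun g => (Commute.sum_left _ _ _ fun x _ =>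
    (Commute.map (hc x g) ρ).smul_left _).eq
  have c : zz Y ρ * θ = θ * zz Y ρ + w := by
    simp [zz, hw, Finset.sum_mul, Finset.mul_sum, sub_mul, mul_sub, h, Finset.sum_add_distrib,
      smul_sub, mul_smul, add_sub_right_comm]
  have e : zz Y ρ * (((∑ g, Y g * φ g) ^ p)⁻¹ • w ^ (p - 1) * θ) =
      ((∑ g, Y g * φ g) ^ p)⁻¹ • w ^ (p - 1) * θ * zz Y ρ + 1 := by
    rw [← mul_assoc, ← ((b.pow_left _).smul_left _).eq, mul_assoc, c, mul_add, ← mul_assoc,
      smul_mul_assoc _ _ w, ← pow_succ, Nat.sub_add_cancel hp.pos, a, smul_smul,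
      inv_mul_cancel₀ (pow_ne_zero _ hY), one_smul]
  have n : ((p - 1).factorial : K) ≠ 0 := fun n => by
    have := (hp.dvd_factorial).1 ((CharP.cast_eq_zero_iff K p _).1 n)
    have := hp.pos
    omega
  exact ⟨((p - 1).factorial : K)⁻¹ • _, by
    rw [map_smul, bp1_fac e hv, ← Nat.cast_smul_eq_nsmul K, smul_smul, inv_mul_cancel₀ n, one_smul]⟩

omit [Fintype E] in
theorem bp1_out {X : Type} {U : Subgroup E} (F : E → X) (h : ∀ x, ∀ u ∈ U, F (x * u) = F x) (g : E)
    (q : E ⧸ U) : F (g • q).out = F (g * q.out) := by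
  obtain ⟨u, e⟩ := QuotientGroup.mk_out_eq_mul U (g * q.out)
  rw [← h (g * q.out) _ u.2, ← e, ← MulAction.Quotient.mk_smul_out, smul_eq_mul]

theorem bp1 (hp : p.Prime) [CharP k p] [Algebra k K] (hE : ∀ g : E, g ^ p = 1)
    (hc : ∀ g h : E, g * h = h * g) {Y : E → K} (hY : LinearIndependent k Y) (ρ : E →* End K W)
    {f : End K W} (hf : f ∈ RTa K ρ) {v : W} (hv : zz Y ρ v = 0) :
    f v ∈ range (zz Y ρ ^ (p - 1)) := by
  classical
  have : CharP K p := charP_of_injective_algebraMap' k p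
  induction hf using Submodule.span_induction with
  | zero => exact zero_mem _
  | add _ _ _ _ a b => exact add_mem a b
  | smul c _ _ a => exact Submodule.smul_mem _ c a
  | mem f hf =>
  obtain ⟨U, hU, y, hy, rfl⟩ := hf
  obtain ⟨φ, h1, h2, x, h3⟩ := bp1_chr hp k hE hc hU
  have := Fintype.ofFinite (E ⧸ U)
  let ρ' : E →* End K (E ⧸ U → W) :=
    { toFun g := pi fun q => ρ g ∘ₗ proj (g⁻¹ • q)
      map_one' := by ext; simp
      map_mul' g h := by ext; simp [mul_smul] }
  have r (g : E) (F) (q : E ⧸ U) : ρ' g F q = ρ g (F (g⁻¹ • q)) := rfl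
  have m (a b : E) (v : W) : ρ a (ρ b v) = ρ (a * b) v := by rw [map_mul, End.mul_apply]
  let ι : W →ₗ[K] (E ⧸ U → W) := pi fun q => ρ q.out * y * ρ q.out⁻¹
  have a (g v) : ι (ρ g v) = ρ' g (ι v) := funext fun q => by
    have := bp1_out (U := U) (fun x => ρ x * y * ρ x⁻¹) (fun x u h => by
      rw [map_mul, mul_assoc (ρ x), hy u h, mul_inv_rev, map_mul, ← mul_assoc, ← mul_assoc,
        mul_assoc _ (ρ u), ← map_mul, mul_inv_cancel, map_one, mul_one]) g⁻¹ q
    simp only [r, ι, pi_apply, this, End.mul_apply, m]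
    simp
  obtain ⟨w, e⟩ := bp1_free hp hE hc Y (fun g => algebraMap k K (φ g)) (fun e => h3
    (Fintype.linearIndependent_iff.1 hY φ (by simpa [Algebra.smul_def, mul_comm] using e) x)) ρ'
    (pi fun q => (-algebraMap k K (φ q.out)) • proj q) (fun g => by
      refine LinearMap.ext fun F => funext fun q => ?_
      have := bp1_out φ (fun x u h => by rw [h1, h2 u h, add_zero]) g (g⁻¹ • q)
      rw [smul_inv_smul, h1] at this
      simp [r, this, add_smul]) (v := ι v)
    (by rw [← pow_one (zz Y ρ'), ← zz_semi Y ι a, pow_one, hv, map_zero])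
  refine ⟨_, (zz_semi Y (ρ := ρ') (∑ q, proj q) (fun g F => ?_) _ w).symm.trans ?_⟩
  · simp only [LinearMap.sum_apply, proj_apply, r, map_sum]
    exact Equiv.sum_comp (MulAction.toPerm g⁻¹) fun q => ρ g (F q)
  · simp [e, ι, finsum_eq_sum_of_fintype, LinearMap.sum_apply]

theorem rta_map [Algebra k K] {S R : Type} [Ring S] [Algebra k S] [Ring R] [Algebra k R]
    [Algebra K R] [IsScalarTower k K R] (j : S →ₐ[k] R) (ρ : E →* S) {f : S} (hf : f ∈ RTa k ρ) :
    j f ∈ RTa K ((j : S →* R).comp ρ) := by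
  induction hf using Submodule.span_induction with
  | zero => simp
  | add _ _ _ _ a b => simpa using add_mem a b
  | smul c _ _ a => simpa using Submodule.smul_of_tower_mem _ c a
  | mem f hf =>
  obtain ⟨U, hU, y, hy, rfl⟩ := hf
  have := Fintype.ofFinite (E ⧸ U)
  exact Submodule.subset_span ⟨U, hU, j y, fun g h => by simpa using congrArg j (hy g h),
    by simp [finsum_eq_sum_of_fintype]⟩

theorem rta_ad {S : Type} [Ring S] [Algebra k S] (ρ : E →* S) {f : End k S}
    (hf : f ∈ RT (AdR k ρ)) {c : S} (h : ∀ g, c * ρ g = ρ g * c) : f c ∈ RTa k ρ := by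
  have a (g) : AdR k ρ g c = c := by
    rw [adR_apply, ← h, mul_assoc, ← map_mul, mul_inv_cancel, map_one, mul_one]
  induction hf using Submodule.span_induction with
  | zero => exact zero_mem _
  | add _ _ _ _ a b => exact add_mem a b
  | smul c _ _ a => exact Submodule.smul_mem _ c a
  | mem f hf =>
  obtain ⟨U, hU, y, hy, rfl⟩ := hf
  have := Fintype.ofFinite (E ⧸ U)
  refine Submodule.subset_span ⟨U, hU, y c, fun g h => ?_, ?_⟩
  · have := LinearMap.congr_fun (hy g h) c
    rw [End.mul_apply, End.mul_apply, a, adR_apply] at this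
    rw [← congrArg (· * ρ g) this, mul_assoc, ← map_mul, inv_mul_cancel, map_one, mul_one]
  · simp only [finsum_eq_sum_of_fintype, LinearMap.sum_apply, End.mul_apply, a, adR_apply ρ _ (y c)]

end Pool.Agent.Lib.MP_1ae3da_al.CT
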