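import Pool.Agent.Lib.MP_1ae3da_al.C.BY

/-! Tools for the canonical line: matrix units, greatest common divisors, the functional. -/

namespace Pool.Agent.Lib.MP_1ae3da_al.CT

open Matrix Module

theorem bp5a_line {K U n : Type} [Field K] [AddCommGroup U] [Module K U] [FiniteDimensional K U]
    [Fintype n] [DecidableEq n] (o : n) (Q : Submodule K U) (hQ : finrank K Q = Fintype.card n)
    (e : n → n → End K U) (h1 : ∀ a b, ∀ x ∈ Q, e a b x ∈ Q)
    (h2 : ∀ a b c d, ∀ x ∈ Q, e a b (e c d x) = if b = c then e a d x else 0)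
    (h3 : ∀ x ∈ Q, ∑ a, e a a x = x) :
    ∃ q ∈ Q, q ≠ 0 ∧ e o o q = q ∧ ∀ x ∈ Q, ∃ t : K, e o o x = t • q := by
  obtain ⟨x, hx, x0⟩ : ∃ x ∈ Q, e o o x ≠ 0 := by
    by_contra h
    push Not at h
    have : Q = ⊥ := (Submodule.eq_bot_iff _).2 fun x hx => by
      rw [← h3 x hx]
      refine Finset.sum_eq_zero fun a _ => ?_
      have a1 := h2 a o o a x hx
      have a2 := h2 o o o a x hx
      rw [if_pos rfl] at a1 a2
      rw [← a1, ← a2, h _ (h1 o a x hx), map_zero]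
    rw [this, finrank_bot] at hQ
    exact (Fintype.card_pos_iff.2 ⟨o⟩).ne hQ
  have q1 : e o o (e o o x) = e o o x := by rw [h2 o o o o x hx, if_pos rfl]
  have qm := h1 o o x hx
  generalize e o o x = q at x0 q1 qm
  have key : ∀ (b : n) (t : n → K), e o b (∑ a, t a • e a o q) = t b • q := fun b t => by
    simp only [map_sum, map_smul, h2 o b _ o q qm, q1, smul_ite, smul_zero]
    simp
  have li : LinearIndependent K fun a => e a o q :=
    Fintype.linearIndependent_iff.2 fun t ht b => by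
      have := key b t
      rw [ht, map_zero] at this
      exact (smul_eq_zero.1 this.symm).resolve_right x0
  have sp : Submodule.span K (Set.range fun a => e a o q) = Q :=
    Submodule.eq_of_le_of_finrank_eq
      (Submodule.span_le.2 (Set.range_subset_iff.2 fun a => h1 a o q qm))
      (by rw [finrank_span_eq_card li, hQ])
  refine ⟨q, qm, x0, q1, fun y hy => ?_⟩
  obtain ⟨t, rfl⟩ := (Submodule.mem_span_range_iff_exists_fun K).1 (sp ▸ hy)
  exact ⟨t o, key o t⟩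

theorem bp5a_gcd {R : Type} [CommRing R] [IsDomain R] [UniqueFactorizationMonoid R] (S : Set R)
    {y : R} (hy : y ∈ S) (y0 : y ≠ 0) : ∃ g, g ≠ 0 ∧ ∀ x, (∀ y ∈ S, x ∣ y) ↔ x ∣ g := by
  classical
  let := UniqueFactorizationMonoid.toGCDMonoid R
  obtain ⟨g, ⟨g0, g1⟩, g2⟩ := (wellFounded_dvdNotUnit (α := R)).has_min
    {g | g ≠ 0 ∧ ∀ x, (∀ y ∈ S, x ∣ y) → x ∣ g} ⟨y, y0, fun x h => h y hy⟩
  refine ⟨g, g0, fun x => ⟨g1 x, fun h w hw => h.trans ?_⟩⟩
  have n : gcd g w ≠ 0 := fun z => g0 ((gcd_eq_zero_iff _ _).1 z).1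
  obtain ⟨u, hu⟩ := gcd_dvd_left g w
  have := g2 (gcd g w) ⟨n, fun x h => dvd_gcd (g1 x h) (h w hw)⟩
  have un : IsUnit u := by
    by_contra c
    exact this ⟨n, u, c, hu⟩
  have d : gcd g w * u ∣ gcd g w := un.mul_right_dvd.2 dvd_rfl
  rw [← hu] at d
  exact d.trans (gcd_dvd_right g w)

open IsLocalization in
theorem bp5a_hull {R K : Type} [CommRing R] [IsDomain R] [UniqueFactorizationMonoid R] [Field K]
    [Algebra R K] [IsFractionRing R K] (J : Set K) {b : R} (hb : b ≠ 0)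
    (hJ : ∀ x ∈ J, IsInteger R (b • x)) {x : K} (hx : x ∈ J) (x0 : x ≠ 0) :
    ∃ g : K, g ≠ 0 ∧ (∀ x ∈ J, IsInteger R (x / g)) ∧
      ∀ a : K, a ≠ 0 → (∀ x ∈ J, IsInteger R (x / a)) → IsInteger R (g / a) := by
  have inj := IsFractionRing.injective R K
  have ne : ∀ {r : R}, r ≠ 0 → algebraMap R K r ≠ 0 := fun h => (map_ne_zero_iff _ inj).2 h
  have b0 := ne hb
  obtain ⟨y, hy⟩ := hJ x hx
  obtain ⟨g, g0, hg⟩ := bp5a_gcd {r | ∃ x ∈ J, algebraMap R K r = b • x} (y := y) ⟨x, hx, hy⟩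
    fun z => by
      rw [z, map_zero, Algebra.smul_def] at hy
      exact mul_ne_zero b0 x0 hy.symm
  have g1 := ne g0
  refine ⟨algebraMap R K g / algebraMap R K b, div_ne_zero g1 b0, fun w hw => ?_,
    fun a a0 ha => ?_⟩
  · obtain ⟨r, hr⟩ := hJ w hw
    obtain ⟨t, rfl⟩ := (hg g).2 dvd_rfl r ⟨w, hw, hr⟩
    rw [map_mul, Algebra.smul_def] at hr
    refine ⟨t, ?_⟩
    field_simp
    linear_combination hr
  · obtain ⟨u, v, cop, huv⟩ := IsFractionRing.exists_reduced_fraction R (a * algebraMap R K b)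
    have v0 := ne (nonZeroDivisors.coe_ne_zero v)
    rw [IsFractionRing.mk'_eq_div, div_eq_iff v0] at huv
    obtain ⟨s, rfl⟩ := (hg u).1 fun r ⟨w, hw, hr⟩ => by
      obtain ⟨t, ht⟩ := ha w hw
      rw [eq_div_iff a0] at ht
      refine cop.dvd_of_dvd_mul_left ⟨t, inj ?_⟩
      rw [map_mul, map_mul, hr, huv, Algebra.smul_def, ← ht]
      ring
    refine ⟨s * v, ?_⟩
    rw [map_mul, map_mul, huv]
    field_simp

variable {k E d n K : Type} [Field k] [Fintype d] [DecidableEq d] [Fintype n] [DecidableEq n]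
  [Field K] [Algebra k K]

theorem cm_iff {ρ : E → Matrix d d k} {c : Matrix d d k} :
    Cm ρ c ↔ c ∈ Subalgebra.centralizer k (Set.range ρ) := by
  simp [Cm, Subalgebra.mem_centralizer_iff, eq_comm]

/-- the matrices that induce a homomorphism into the homology of `z`. -/
def NN (ρ : E → Matrix d d k) (Br : Matrix d d k →ₗ[k] Matrix n n k) (z y : Matrix d d K) :
    Submodule K (Matrix d n K) where
  carrier := {X | z * X = 0 ∧ ∀ c, Cm ρ c →
    ∃ Y : Matrix d n K, c.map (algebraMap k K) * X - X * (Br c).map (algebraMap k K) = y * Y}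
  add_mem' := fun {X X'} h h' => ⟨by rw [Matrix.mul_add, h.1, h'.1, add_zero], fun c hc => by
    obtain ⟨Y, hY⟩ := h.2 c hc
    obtain ⟨Y', hY'⟩ := h'.2 c hc
    exact ⟨Y + Y', by rw [Matrix.mul_add y, ← hY, ← hY', Matrix.mul_add, Matrix.add_mul]; abel⟩⟩
  zero_mem' := ⟨Matrix.mul_zero _, fun c _ => ⟨0, by simp⟩⟩
  smul_mem' := fun a X h => ⟨by rw [Matrix.mul_smul, h.1, smul_zero], fun c hc => by
    obtain ⟨Y, hY⟩ := h.2 c hc
    exact ⟨a • Y, by rw [Matrix.mul_smul y, ← hY, Matrix.mul_smul, Matrix.smul_mul, smul_sub]⟩⟩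

omit [DecidableEq d] [Fintype n] [DecidableEq n] in
theorem bp5a_col {y : Matrix d d K} {X : Matrix d n K} :
    (∃ Y : Matrix d n K, X = y * Y) ↔ ∀ j, ∃ w, y *ᵥ w = fun i => X i j := by
  refine ⟨fun ⟨Y, h⟩ j => ⟨fun i => Y i j, by rw [h]; rfl⟩, fun h => ?_⟩
  choose w hw using h
  exact ⟨of fun i j => w j i, by ext i j; exact (congrFun (hw j) i).symm⟩

theorem bp5a_fun [Nonempty n] {ρ : E → Matrix d d k} {Br : Matrix d d k →ₗ[k] Matrix n n k}
    {z y : Matrix d d K} (h1 : Br 1 = 1)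
    (hm : ∀ c c', Cm ρ c → Cm ρ c' → Br (c * c') = Br c * Br c')
    (hs : ∀ b, ∃ c, Cm ρ c ∧ Br c = b) (hz : z * y = 0)
    (cz : ∀ c, Cm ρ c → c.map (algebraMap k K) * z = z * c.map (algebraMap k K))
    (cy : ∀ c, Cm ρ c → c.map (algebraMap k K) * y = y * c.map (algebraMap k K))
    (hA : ∀ c, Cm ρ c → Br c = 0 → ∀ v, z *ᵥ v = 0 → ∃ w, c.map (algebraMap k K) *ᵥ v = y *ᵥ w)
    (hB : finrank K (LinearMap.ker z.mulVecLin) =
      finrank K (LinearMap.range y.mulVecLin) + Fintype.card n) :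
    ∃ l : Matrix d n K →ₗ[K] K, (∀ Y : Matrix d n K, l (y * Y) = 0) ∧
      (∀ X ∈ NN ρ Br z y, l X = 0 → ∃ Y : Matrix d n K, X = y * Y) ∧
      ∃ X ∈ NN ρ Br z y, l X ≠ 0 := by
  obtain ⟨o⟩ := ‹Nonempty n›
  choose cc c1 c2 using fun a b : n => hs (single a b 1)
  obtain ⟨ι, hι⟩ : ∃ ι : Matrix d d k →ₐ[k] Matrix d d K, ∀ c, c.map (algebraMap k K) = ι c :=
    ⟨(Algebra.ofId k K).mapMatrix, fun _ => rfl⟩
  simp only [hι] at cz cy hA
  set W := LinearMap.range y.mulVecLin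
  have le : W ≤ LinearMap.ker z.mulVecLin := by
    rintro _ ⟨w, rfl⟩
    simp [hz]
  have st : ∀ a b, W ≤ W.comap (ι (cc a b)).mulVecLin := by
    rintro a b _ ⟨w, rfl⟩
    exact ⟨ι (cc a b) *ᵥ w, by simp [cy _ (c1 a b)]⟩
  have A : ∀ c c', Cm ρ c → Cm ρ c' → Br c = Br c' → ∀ v, z *ᵥ v = 0 →
      W.mkQ (ι c *ᵥ v) = W.mkQ (ι c' *ᵥ v) := fun c c' h h' e v hv => by
    obtain ⟨w, hw⟩ := hA (c - c') (cm_iff.2 (sub_mem (cm_iff.1 h) (cm_iff.1 h')))
      (by rw [map_sub, e, sub_self]) v hv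
    rw [map_sub, sub_mulVec] at hw
    exact (Submodule.Quotient.eq W).2 ⟨w, hw.symm⟩
  have Z : ∀ a b v, z *ᵥ v = 0 → z *ᵥ (ι (cc a b) *ᵥ v) = 0 := fun a b v hv => by
    rw [mulVec_mulVec, ← cz _ (c1 a b), ← mulVec_mulVec, hv, mulVec_zero]
  have C := fun a b => cm_iff.1 (c1 a b)
  obtain ⟨e, he⟩ : ∃ e : n → n → End K ((d → K) ⧸ W),
      ∀ a b v, e a b (W.mkQ v) = W.mkQ (ι (cc a b) *ᵥ v) :=
    ⟨fun a b => W.mapQ W _ (st a b), fun _ _ _ => rfl⟩
  obtain ⟨_, ⟨v, hv, rfl⟩, q0, q1, q2⟩ := bp5a_line o ((LinearMap.ker z.mulVecLin).map W.mkQ)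
    (by
      have := LinearMap.finrank_range_add_finrank_ker
        (W.mkQ.domRestrict (LinearMap.ker z.mulVecLin))
      rw [LinearMap.range_domRestrict, LinearMap.ker_domRestrict, Submodule.ker_mkQ,
        (Submodule.comapSubtypeEquivOfLe le).finrank_eq] at this
      omega) e
    (by
      rintro a b _ ⟨v, hv, rfl⟩
      exact ⟨_, Z a b v hv, (he a b v).symm⟩)
    (by
      rintro a b c d _ ⟨v, hv, rfl⟩
      rw [he, he, he, mulVec_mulVec, ← map_mul]
      have m := cm_iff.2 (mul_mem (C a b) (C c d))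
      have e := hm _ _ (c1 a b) (c1 c d)
      rw [c2, c2] at e
      split_ifs with h
      · exact A _ _ m (c1 a d) (by rw [e, c2, h, single_mul_single_same, one_mul]) v hv
      · rw [A _ 0 m (cm_iff.2 (zero_mem _)) (by rw [e, map_zero, single_mul_single_of_ne _ _ _ _ h])
          v hv, map_zero, zero_mulVec, map_zero])
    (by
      rintro _ ⟨v, hv, rfl⟩
      simp only [he]
      rw [← map_sum, ← sum_mulVec, ← map_sum, A _ 1 (cm_iff.2 (sum_mem fun a _ => C a a))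
        (cm_iff.2 (one_mem _)) (by simp only [map_sum, c2, h1, sum_single_one]) v hv, map_one,
        one_mulVec])
  obtain ⟨f, hf⟩ := Module.Projective.exists_dual_eq_one K q0
  let col : Matrix d n K →ₗ[K] d → K :=
    { toFun := fun X i => X i o, map_add' := fun _ _ => rfl, map_smul' := fun _ _ => rfl }
  refine ⟨f ∘ₗ W.mkQ ∘ₗ col, fun Y => ?_, fun X hX h0 => ?_,
    of fun i a => (ι (cc a o) *ᵥ v) i, ⟨?_, fun c hc => ?_⟩, ?_⟩
  · have : W.mkQ (col (y * Y)) = 0 :=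
      (Submodule.Quotient.mk_eq_zero W).2 ⟨fun i => Y i o, rfl⟩
    simp only [LinearMap.comp_apply, this, map_zero]
  · have R : ∀ a, e a o (W.mkQ (col X)) = W.mkQ fun i => X i a := fun a => by
      obtain ⟨w, hw⟩ := bp5a_col.1 (hX.2 _ (c1 a o)) o
      rw [he]
      refine (Submodule.Quotient.eq W).2 ⟨w, hw.trans (funext fun i => ?_)⟩
      rw [hι, c2, Matrix.map_single, map_one, Matrix.sub_apply, mul_single_apply_same, mul_one]
      rfl
    obtain ⟨t, ht⟩ := q2 (W.mkQ (col X)) ⟨_, funext fun i => congrFun (congrFun hX.1 i) o, rfl⟩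
    have t1 : W.mkQ (col X) = t • W.mkQ v := (R o).symm.trans ht
    simp only [LinearMap.comp_apply, t1, map_smul, hf, smul_eq_mul, mul_one] at h0
    rw [h0, zero_smul] at t1
    refine bp5a_col.2 fun a => (Submodule.Quotient.mk_eq_zero W).1 ?_
    exact (R a).symm.trans (by rw [t1, map_zero])
  · ext i a
    exact congrFun (Z a o v hv) i
  · refine bp5a_col.2 fun j => (Submodule.Quotient.eq W).1
      (?_ : W.mkQ (ι c *ᵥ (ι (cc j o) *ᵥ v)) = W.mkQ (ι (∑ a, Br c a j • cc a o) *ᵥ v)) |>.imp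
        fun w hw => hw.trans (funext fun i => ?_)
    · rw [mulVec_mulVec, ← map_mul]
      refine A _ _ (cm_iff.2 (mul_mem (cm_iff.1 hc) (C j o)))
        (cm_iff.2 (sum_mem fun a _ => Subalgebra.smul_mem _ (C a o) _)) ?_ v hv
      rw [hm _ _ hc (c1 j o)]
      simp only [map_sum, map_smul, c2]
      ext a b
      by_cases h : b = o
      · simp [h, Matrix.sum_apply, single_apply]
      · simp [h, Ne.symm h, Matrix.sum_apply]
    · rw [hι, Pi.sub_apply, Matrix.sub_apply, map_sum, sum_mulVec, Finset.sum_apply]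
      congr 1
      refine Finset.sum_congr rfl fun a _ => ?_
      rw [map_smul, smul_mulVec, Pi.smul_apply, Algebra.smul_def, mul_comm]
      rfl
  · have : W.mkQ (col (of fun i a => (ι (cc a o) *ᵥ v) i)) = W.mkQ v := (he o o v).symm.trans q1
    simp only [LinearMap.comp_apply, this, hf]
    exact one_ne_zero

end Pool.Agent.Lib.MP_1ae3da_al.CT
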