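import Pool.Agent.Lib.MP_1ae3da_al.C.RCg1

/-! Links from a jump of the multiplicity by one. -/

namespace Pool.Agent.Lib.MP_1ae3da_al.CT

open Submodule

variable {F A : Type} [Field F] [Ring A] [Algebra F A] [IsAlgClosed F] {S K L M : Set A}
  {f e e' θ i i' δ δ₁ δ₂ δ₃ y w x v z : A} {p : ℕ} {GG : Subgroup (RingAut F)}
  {Γ : Subgroup (RingAut A)} {a b γ : RingAut A} {σ : RingAut F}

variable (F) in
/-- a block `f` of `S`, a block `θ` of `K`, and an idempotent `δ` commuting with `K`. -/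
structure Ctx (S K : Set A) (f θ i δ : A) : Prop where
  nS : Nice F S
  nK : Nice F K
  irr : f ∈ Irr F S
  irK : θ ∈ Irr F K
  prim : Prim F K θ i
  le : K ⊆ S
  one : (1 : A) ∈ span F K
  mem : δ ∈ span F S
  idem : δ * δ = δ
  comm : ∀ b ∈ span F K, δ * b = b * δ

variable (F) in
/-- the automorphisms that respect the data. -/
def Oka (S K : Set A) (δ : A) (a : RingAut A) : Prop :=
  Lin F a ∧ a ∈ Stb S ∧ a ∈ Stb K ∧ a δ = δ

namespace Ctx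

omit [IsAlgClosed F] in
theorem sub (c : Ctx F S K f θ i δ) (h : x ∈ span F K) : x ∈ span F S := span_mono c.le h

omit [IsAlgClosed F] in
theorem jm (c : Ctx F S K f θ i δ) : i * δ ∈ span F S := c.nS.span_mul (c.sub c.prim.1) c.mem

omit [IsAlgClosed F] in
theorem jj (c : Ctx F S K f θ i δ) : i * δ * (i * δ) = i * δ := by
  rw [mul_assoc, ← mul_assoc δ, c.comm i c.prim.1, mul_assoc, c.idem, ← mul_assoc,
    c.prim.2.2.1]

omit [IsAlgClosed F] in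
theorem th (c : Ctx F S K f θ i δ) : θ * i = i := by
  rw [Cen_comm c.irK.1 c.prim.1, c.prim.2.1]

omit [IsAlgClosed F] in
theorem zc (c : Ctx F S K f θ i δ) (o : Oka F S K δ a) (hy : y ∈ Ln F K θ a⁻¹)
    (hw : w ∈ Ln F S f a) : (∀ b ∈ span F K, b * (y * w) = y * w * b) ∧
      i * δ * (y * w) = y * w * (i * δ) := by
  have h1 : ∀ b ∈ span F K, b * (y * w) = y * w * b := fun b hb => by
    have hb' : a b ∈ span F K := (span_stb (GG := ⊤) ⟨1, trivial, lin_iff_sl.1 o.1⟩ o.2.2.1).2 hb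
    rw [mul_assoc, Ln_span o.1 hw (c.sub hb), ← mul_assoc y, Ln_span o.1.inv hy hb', tc_ia,
      mul_assoc]
  have h2 : δ * (y * w) = y * w * δ := by
    rw [mul_assoc, Ln_span o.1 hw c.mem, o.2.2.2, ← mul_assoc, ← mul_assoc, c.comm y hy.1]
  exact ⟨h1, by rw [mul_assoc, h2, ← mul_assoc, h1 i c.prim.1, mul_assoc]⟩

theorem mul (c : Ctx F S K f θ i δ) (o : Oka F S K δ a) (o' : Oka F S K δ b)
    (hy : y ∈ Ln F K θ a⁻¹) (hw : w ∈ Ln F S f a) (hx : x ∈ Ln F K θ b⁻¹) (hv : v ∈ Ln F S f b) :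
    Dj F S f (x * y * (w * v)) (i * δ) = Dj F S f (y * w) (i * δ) * Dj F S f (x * v) (i * δ) := by
  rw [← Dj_mul c.nS c.irr (c.sub c.one) (c.nS.span_mul (c.sub hy.1) hw.1)
    (c.nS.span_mul (c.sub hx.1) hv.1) c.jm c.jj (c.zc o' hx hv).2, ← mul_assoc (y * w),
    ← (c.zc o hy hw).1 x hx.1]
  simp only [mul_assoc]

theorem smul (c : Ctx F S K f θ i δ) : ∃ r : ℕ, Chv F S f (i * δ) = r ∧
    (∀ z ∈ span F S, i * δ * z = z * (i * δ) → ∀ s : F,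
      Dj F S f (s • z) (i * δ) = s ^ r * Dj F S f z (i * δ)) ∧
    ∀ z ∈ span F S, ∀ s : F, z * (i * δ) * f = s • (i * δ * f) →
      Dj F S f z (i * δ) = s ^ r := by
  have h1 := c.sub c.one
  obtain ⟨r, h2, h3⟩ := Dj_scal c.nS c.irr h1 c.jm c.jj
  refine ⟨r, h2, fun z hz h s => ?_, fun z hz s h => ?_⟩
  · rw [← h3, ← Dj_mul c.nS c.irr h1 (smul_mem _ s h1) hz c.jm c.jj h, smul_mul_assoc, one_mul]
  · rw [← h3]
    exact Dj_congr c.nS c.irr h1 hz (smul_mem _ s h1) c.jm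
      (by rw [h, smul_mul_assoc, one_mul, smul_mul_assoc])

theorem base (c : Ctx F S K f θ i δ) : Dj F S f (θ * f) (i * δ) = 1 := by
  obtain ⟨r, -, -, h⟩ := c.smul
  rw [h _ (c.nS.span_mul (c.sub c.irK.1.1) c.irr.1.1) 1 (by
    rw [one_smul, mul_assoc θ, Cen_comm c.irr.1 c.jm, mul_assoc θ, mul_assoc _ f, c.irr.2.1,
      ← mul_assoc, ← mul_assoc, c.th]), one_pow]

theorem ne (c : Ctx F S K f θ i δ) (o : Oka F S K δ a) (hy : y ∈ Ln F K θ a⁻¹)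
    (hw : w ∈ Ln F S f a) : Dj F S f (y * w) (i * δ) ≠ 0 := by
  obtain ⟨x, hx, -, h1⟩ := Ln_unit c.nK c.irK o.1.inv (inv_mem o.2.2.1) hy
  obtain ⟨v, hv, h2, -⟩ := Ln_unit c.nS c.irr o.1 o.2.1 hw
  have := c.mul o ⟨o.1.inv, inv_mem o.2.1, inv_mem o.2.2.1, (Fx δ).inv_mem o.2.2.2⟩ hy hw hx hv
  rw [h1, h2, c.base] at this
  exact left_ne_zero_of_mul_eq_one this.symm

theorem indep (c : Ctx F S K f θ i δ) (h : Prim F K θ i') (hz : z ∈ span F S)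
    (k : ∀ b ∈ span F K, b * z = z * b) : Dj F S f z (i' * δ) = Dj F S f z (i * δ) := by
  obtain ⟨y, hy, x, hx, h1, h2, h3, -, h4⟩ := Prim.conj c.nK c.irK c.prim h
  have t := c.irK.1.1
  have m1 := add_mem hy (sub_mem c.one t)
  have m2 := add_mem hx (sub_mem c.one t)
  have h5 : θ * x = x := by rw [Cen_comm c.irK.1 hx, h2]
  rw [← Dj_conj c.nS c.irr (c.sub c.one) hz c.jm (c.sub m1) (c.sub m2) (by
    simp only [add_mul, mul_add, mul_sub, sub_mul, mul_one, one_mul, h1, h3, h5, c.irK.2.1]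
    abel) (k _ m1)]
  congr 1
  rw [mul_assoc, mul_assoc, c.comm _ m2, ← mul_assoc, ← mul_assoc, ← h4]
  congr 1
  simp only [add_mul, mul_add, mul_sub, sub_mul, mul_one, one_mul, c.th, sub_self, add_zero,
    mul_assoc, c.prim.2.1]

theorem nat (c : Ctx F S K f θ i δ) (o : Oka F S K δ a) (hy : y ∈ Ln F K θ a⁻¹)
    (hw : w ∈ Ln F S f a) (hγ : SL F σ γ) (h1 : γ ∈ Stb S) (h2 : γ ∈ Stb K) (h3 : γ f = f)
    (h4 : γ θ = θ) (h5 : γ δ = δ) :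
    Dj F S f (γ y * γ w) (i * δ) = σ (Dj F S f (y * w) (i * δ)) := by
  have g : γ ∈ SG ⊤ A := ⟨σ, trivial, hγ⟩
  have m := c.nS.span_mul (c.sub hy.1) hw.1
  have pr := hγ.prim c.prim
  rw [stb_image.1 h2, h4] at pr
  rw [← Dj_nat c.nS c.irr (c.sub c.one) m c.jm hγ h1 h3, map_mul γ i, h5, ← map_mul,
    c.indep pr ((span_stb g h1).2 m) fun b hb => ?_]
  have := (c.zc o hy hw).1 (γ⁻¹ b) ((span_stb (inv_mem g) (inv_mem h2)).2 hb)
  rw [← tc_ai γ b, ← map_mul, this, map_mul]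

omit [IsAlgClosed F] in
theorem loc (c : Ctx F S K f θ i δ) {k q : A} (h : y * (k * θ) = θ) (h1 : q * y = y * q)
    {s ζ : F} (h2 : q * i = i * q) (h3 : q * δ = ζ • δ) :
    y * (s • (q * k) * f) * (i * δ) * f = (s * ζ) • (i * δ * f) := by
  have e1 : y * (k * i) = i := by rw [← c.th, ← mul_assoc k, ← mul_assoc, h, c.th]
  have e2 : f * (i * δ) * f = i * δ * f := by
    rw [Cen_comm c.irr.1 c.jm, mul_assoc, c.irr.2.1]
  calc _ = s • (y * q * k * (f * (i * δ) * f)) := by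
        simp only [mul_assoc, smul_mul_assoc, mul_smul_comm]
    _ = s • (q * (y * (k * i)) * δ * f) := by rw [e2, ← h1]; simp only [mul_assoc]
    _ = _ := by rw [e1, h2, mul_assoc i, h3, mul_smul_comm, smul_mul_assoc, smul_smul]

end Ctx

theorem link_of_ctx [CharZero F] (hp : p.Prime) (c1 : Ctx F L K e θ i δ₁) (c2 : Ctx F L K e θ i δ₂)
    (c3 : Ctx F M K e' θ i δ₃) (he : e ∈ IrrP F p L) (he' : e' ∈ IrrP F p M) (hML : M ⊆ L)
    (hΓ : Γ ≤ SG GG A ⊓ Stb L ⊓ Stb M ⊓ Fx e ⊓ Fx e')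
    (hK : ∀ γ ∈ Γ, γ ∈ Stb K ∧ γ θ = θ ∧ γ δ₁ = δ₁ ∧ γ δ₂ = δ₂ ∧ γ δ₃ = δ₃)
    (r2 : Chv F L e (i * δ₂) = Chv F L e (i * δ₁) + 1) (r3 : Chv F M e' (i * δ₃) = 1)
    (fin : ∀ a ∈ Γ, Lin F a → ∃ n : ℕ, a ^ (n + 1) = 1)
    (loc : ∀ a ∈ Γ, Lin F a → ∀ m ∈ M, (∀ x ∈ L, m * x = a x * m) →
      (∃ c : F, c ≠ 0 ∧ Mup p (Nd F L e (c • (m * e))) ∧ Mup p (Nd F M e' (c • (m * e')))) ∧
        ∃ s : F, s ≠ 0 ∧ ∃ k ∈ K, ∃ q, m = s • (q * k) ∧ (∀ x ∈ span F K, q * x = x * q) ∧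
          (∀ x ∈ K, k * x = a x * k) ∧ (∃ ζ : F, ζ ^ p = 1 ∧ q * δ₁ = ζ • δ₁) ∧
          (∃ ζ : F, ζ ^ p = 1 ∧ q * δ₂ = ζ • δ₂) ∧ ∃ ζ : F, ζ ^ p = 1 ∧ q * δ₃ = ζ • δ₃) :
    ∃ U, Link F Γ L M e e' U := by
  have o : ∀ a ∈ Γ, Lin F a → Oka F L K δ₁ a ∧ Oka F L K δ₂ a ∧ Oka F M K δ₃ a := fun a h l =>
    ⟨⟨l, (hΓ h).1.1.1.2, (hK a h).1, (hK a h).2.2.1⟩,
      ⟨l, (hΓ h).1.1.1.2, (hK a h).1, (hK a h).2.2.2.1⟩,
      l, (hΓ h).1.1.2, (hK a h).1, (hK a h).2.2.2.2⟩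
  have ex : ∀ a, ∃ y, a ∈ Γ → Lin F a → y ∈ Ln F K θ a⁻¹ := fun a => by
    by_cases h : a ∈ Γ ∧ Lin F a
    · obtain ⟨y, hy⟩ := Ln_exists c1.nK c1.irK h.2.inv (hK _ (inv_mem h.1)).1
        (hK _ (inv_mem h.1)).2.1
      exact ⟨y, fun _ _ => hy⟩
    · exact ⟨0, fun h1 h2 => (h ⟨h1, h2⟩).elim⟩
  choose Y hY using ex
  obtain ⟨n1, a1, b1, d1⟩ := c1.smul
  obtain ⟨n2, a2, b2, d2⟩ := c2.smul
  obtain ⟨n3, a3, b3, d3⟩ := c3.smul
  obtain rfl : n2 = n1 + 1 := by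
    rw [a1, a2] at r2
    exact_mod_cast r2
  obtain rfl : n3 = 1 := by
    rw [a3] at r3
    exact_mod_cast r3
  let D : A → A → A → F := fun y w w' =>
    Dj F L e (y * w) (i * δ₁) * Dj F M e' (y * w') (i * δ₃) / Dj F L e (y * w) (i * δ₂)
  have sc : ∀ a ∈ Γ, Lin F a → ∀ y ∈ Ln F K θ a⁻¹, ∀ w ∈ Ln F L e a, ∀ w' ∈ Ln F M e' a,
      ∀ s c c' : F, s ≠ 0 → c ≠ 0 → D (s • y) (c • w) (c' • w') = c' / c * D y w w' := by
    intro a h l y hy w hw w' hw' s c c' s0 c0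
    obtain ⟨o1, o2, o3⟩ := o a h l
    have m := c1.nS.span_mul (c1.sub hy.1) hw.1
    have := c2.ne o2 hy hw
    simp only [D, smul_mul_smul_comm]
    rw [b1 _ m (c1.zc o1 hy hw).2, b2 _ m (c2.zc o2 hy hw).2,
      b3 _ (c3.nS.span_mul (c3.sub hy.1) hw'.1) (c3.zc o3 hy hw').2]
    field_simp
    ring
  have ch : ∀ a ∈ Γ, Lin F a → ∀ y ∈ Ln F K θ a⁻¹, ∀ w ∈ Ln F L e a, ∀ w' ∈ Ln F M e' a,
      D (Y a) w w' = D y w w' := by
    intro a h l y hy w hw w' hw'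
    obtain ⟨s, s0, es⟩ := Ln_unique c1.nK c1.irK l.inv (hK _ (inv_mem h)).1 hy (hY a h l)
    have := sc a h l y hy w hw w' hw' s 1 1 s0 one_ne_zero
    rwa [one_smul, one_smul, div_one, one_mul, ← es] at this
  refine link_of_delta hp c1.nS c3.nS he he' hΓ (fun a => D (Y a)) fin ?_ ?_ ?_ ?_ ?_ hML
  · intro a ha b hb la lb w hw w' hw' v hv v' hv'
    obtain ⟨o1, o2, o3⟩ := o a ha la
    obtain ⟨u1, u2, u3⟩ := o b hb lb
    have y1 := hY a ha la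
    have y2 := hY b hb lb
    have y3 := Ln_mul c1.nK c1.irK lb.inv (inv_mem u1.2.2.1) (inv_mem o1.2.2.1) y2 y1
    rw [← mul_inv_rev] at y3
    rw [ch _ (mul_mem ha hb) (la.mul lb) _ y3 _ (Ln_mul c1.nS he.1 la o1.2.1 u1.2.1 hw hv) _
      (Ln_mul c3.nS he'.1 la o3.2.1 u3.2.1 hw' hv')]
    simp only [D]
    rw [c1.mul o1 u1 y1 hw y2 hv, c2.mul o2 u2 y1 hw y2 hv, c3.mul o3 u3 y1 hw' y2 hv',
      div_mul_div_comm, mul_mul_mul_comm]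
  · intro a ha la w hw w' hw' c c' c0 _
    have := sc a ha la _ (hY a ha la) w hw w' hw' 1 c c' one_ne_zero c0
    rwa [one_smul] at this
  · rw [ch 1 (one_mem _) Lin.one θ (by rw [inv_one]; exact rcg_ln_one c1.irK) _ (rcg_ln_one he.1) _
      (rcg_ln_one he'.1)]
    simp only [D]
    rw [c1.base, c2.base, c3.base, mul_one, div_one]
  · intro γ hγ σ h a ha la w hw w' hw'
    obtain ⟨o1, o2, o3⟩ := o a ha la
    obtain ⟨⟨⟨⟨g, sL⟩, sM⟩, f1⟩, f2⟩ := hΓ hγ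
    obtain ⟨k1, k2, k3, k4, k5⟩ := hK γ hγ
    have y1 := hY a ha la
    have l0 := ln_stb g k1 y1
    have l1 := ln_stb g sL hw
    have l2 := ln_stb g sM hw'
    rw [k2, ← conj_inv] at l0
    rw [show γ e = e from f1] at l1
    rw [show γ e' = e' from f2] at l2
    rw [ch _ (mul_mem (mul_mem hγ ha) (inv_mem hγ)) (h.lin la) _ l0 _ l1 _ l2]
    simp only [D]
    rw [c1.nat o1 y1 hw h sL k1 f1 k2 k3, c2.nat o2 y1 hw h sL k1 f1 k2 k4,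
      c3.nat o3 y1 hw' h sM k1 f2 k2 k5, map_div₀, map_mul]
  · intro a ha la m hm h
    obtain ⟨h1, s, s0, k, hk, q, rfl, qc, kc, ⟨x1, p1, e1⟩, ⟨x2, p2, e2⟩, x3, p3, e3⟩ :=
      loc a ha la m hm h
    refine ⟨h1, ?_⟩
    obtain ⟨y, hy, -, yk⟩ := Ln_unit c1.nK c1.irK la (hK a ha).1 (Ln_hm c1.nK c1.irK hk kc)
    have l1 := Ln_hm c1.nS he.1 (hML hm) h
    have l2 := Ln_hm c3.nS he'.1 hm fun x hx => h x (hML hx)
    have m := c1.nS.span_mul (c1.sub hy.1) l1.1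
    rw [ch a ha la y hy _ l1 _ l2]
    simp only [D]
    rw [d1 _ m _ (c1.loc yk (qc y hy.1) (qc i c1.prim.1) e1),
      d2 _ m _ (c2.loc yk (qc y hy.1) (qc i c1.prim.1) e2),
      d3 _ (c3.nS.span_mul (c3.sub hy.1) l2.1) _
        (c3.loc yk (qc y hy.1) (qc i c1.prim.1) e3),
      div_pow, mul_pow, pow_one, pow_right_comm _ n1 p, pow_right_comm _ (n1 + 1) p,
      mul_pow s x1, mul_pow s x2, mul_pow s x3, p1, p2, p3, mul_one, ← pow_succ,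
      div_self (pow_ne_zero _ (pow_ne_zero _ s0))]

end Pool.Agent.Lib.MP_1ae3da_al.CT
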