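import Pool.Agent.Lib.MP_1ae3da_al.C.RCe
import Pool.Agent.Lib.MP_1ae3da_al.C.RCg2

/-! The link at the root. -/

namespace Pool.Agent.Lib.MP_1ae3da_al.CT

open Submodule

variable {p : ℕ} {F X : Type} [Field F] [CharZero F] [IsAlgClosed F] [Group X] [Finite X]
  [Fact p.Prime] {Q : Subgroup X} {e e' ε ε' θ θ' i i' ψ ψ' η η' x y a b : MonoidAlgebra F X}

variable {k : Type} [Field k] {O R : Subring F} {r : F → k} {GG : Subgroup (RingAut F)}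
  {γ : RingAut (MonoidAlgebra F X)} {σ : RingAut F}

omit [CharZero F] [IsAlgClosed F] [Finite X] [Fact p.Prime] in
theorem rcg_sub {H K : Subgroup X} (h : K ≤ H) : HX F K ⊆ HX F H :=
  fun _ ⟨c, h0, x, hx, e⟩ => ⟨c, h0, x, h hx, e⟩

omit [CharZero F] [IsAlgClosed F] [Finite X] [Fact p.Prime] in
theorem rcg_gu {H : Subgroup X} {g : X} (h : g ∈ H) : gu F X g ∈ span F (HX F H) :=
  subset_span (aga_mem.2 h)

omit [IsAlgClosed F] [Fact p.Prime] in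
theorem rcg_ctx {H : Subgroup X} (hN : NQ Q ≤ H) (he : e ∈ Irr F (HX F H))
    (hθ : θ ∈ Irr F (HX F (Kp p Q))) (hi : Prim F (HX F (Kp p Q)) θ i)
    (hε : ε ∈ Irr F (HX F Q)) : Ctx F (HX F H) (HX F (Kp p Q)) e θ i ε :=
  ⟨nice_Hm0 gu_tg _, nice_Hm0 gu_tg _, he, hθ, hi, rcg_sub (rcc_KN.trans hN),
    gu_one (F := F) (X := X) ▸ rcg_gu (one_mem _),
    span_mono (rcg_sub (Subgroup.le_normalizer.trans hN)) hε.1.1, hε.2.1,
    fun _ hb => rca_comm hε.1.1 (rcc_KC hb)⟩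

/-- the determinant is a character of the group. -/
theorem rcg_det {H : Subgroup X} (he : e ∈ Irr F (HX F H)) :
    ∃ ν : H →* Fˣ, ∀ g : H, Nd F (HX F H) e (gu F X g) = ν g := by
  have n := nice_Hm0 (gu_tg (F := F) (X := X)) H
  let ν : H →* F :=
    { toFun := fun g => Nd F (HX F H) e (gu F X g)
      map_one' := by
        rw [OneMemClass.coe_one, gu_one]
        exact nd_one n he (gu_one (F := F) (X := X) ▸ rcg_gu (one_mem _))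
      map_mul' := fun g g' => by
        rw [Subgroup.coe_mul, ← gu_mul, Nd_mul n he (rcg_gu g.2) (rcg_gu g'.2)] }
  exact ⟨ν.toHomUnits, fun _ => rfl⟩

theorem rcg_detX (hX : commutator X = ⊤) (he : e ∈ Irr F (HX F (⊤ : Subgroup X))) (g : X) :
    Nd F (HX F ⊤) e (gu F X g) = 1 := by
  obtain ⟨ν, hν⟩ := rcg_det he
  have h := Abelianization.commutator_subset_ker (ν.comp Subgroup.topEquiv.symm.toMonoidHom)
    (hX.ge (Subgroup.mem_top g))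
  rw [hν ⟨g, trivial⟩]
  exact Units.ext_iff.1 h

theorem rcg_detN (hX : commutator X = ⊤) (hQ : Nat.card Q = p) (h2 : ¬ p ^ 2 ∣ Nat.card X)
    (he : η ∈ Irr F (HX F (NQ Q))) {q g : X} (hq : q ∈ Q) (hg : g ∈ Kp p Q) :
    Mup p (Nd F (HX F (NQ Q)) η (gu F X (q * g))) := by
  obtain ⟨ν, hν⟩ := rcg_det he
  obtain ⟨n, hn, hc⟩ := rg_burnside hQ h2 hX
  obtain ⟨t, ht, rfl⟩ := rg_comm hQ hn hc hq
  let n' : NQ Q := ⟨n, hn⟩
  let t' : NQ Q := ⟨t, Subgroup.le_normalizer ht⟩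
  let g' : NQ Q := ⟨g, rcc_KN hg⟩
  have h := hν (n' * t' * n'⁻¹ * t'⁻¹ * g')
  rw [map_mul, map_mul, map_mul, map_mul, map_inv, map_inv, mul_inv_cancel_comm, mul_inv_cancel,
    one_mul] at h
  refine h ▸ ⟨orderOf g, ((mem_kp hQ h2).1 hg).2, ?_⟩
  rw [← Units.val_pow_eq_pow_val, ← map_pow, show g' ^ orderOf g = 1 from
    Subtype.ext (pow_orderOf_eq_one g), map_one, Units.val_one]

theorem rcg_fin (hX : commutator X = ⊤) (hQ : Nat.card Q = p) (h2 : ¬ p ^ 2 ∣ Nat.card X)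
    (h : γ ∈ Gm GG Q) (l : Lin F γ) : ∃ n : ℕ, γ ^ (n + 1) = 1 := by
  obtain ⟨-, -, α, -, hα, -⟩ := gm_aut hX hQ h2 h
  have pw : ∀ n : ℕ, Lin F (γ ^ n) ∧ ∀ x, (γ ^ n) (gu F X x) = gu F X ((α ^ n) x) := fun n => by
    induction n with
    | zero => exact ⟨Lin.one, fun _ => rfl⟩
    | succ n ih =>
      rw [pow_succ, pow_succ]
      exact ⟨ih.1.mul l, fun x => (congrArg (γ ^ n) (hα x)).trans (ih.2 _)⟩
  refine ⟨orderOf α - 1, ga_ext (σ := 1) (pw _).1 Lin.one fun x => ?_⟩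
  rw [(pw _).2, Nat.sub_add_cancel (orderOf_pos α), pow_orderOf_eq_one]
  rfl

theorem rcg_hs (hX : commutator X = ⊤) (hQ : Nat.card Q = p) (h2 : ¬ p ^ 2 ∣ Nat.card X)
    (he : e ∈ Irr F (HX F (⊤ : Subgroup X))) (hη : η ∈ Irr F (HX F (NQ Q)))
    (t : Tri F p Q η θ i ε) (h : γ ∈ Gm GG Q ⊓ Fx e ⊓ Fx η) :
    ∃ s ∈ Gm GG Q ⊓ Fx e ⊓ Fx η, Lin F s ∧
      (∃ m ∈ HX F (NQ Q), ∀ x ∈ HX F (⊤ : Subgroup X), m * x = s x * m) ∧
      s⁻¹ * γ ∈ Gm GG Q ⊓ Fx e ⊓ Fx η ⊓ Fx θ ⊓ Fx ε := by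
  obtain ⟨σ, hσ, α, hs, -, -, sQ, sK, -, h0⟩ := gm_aut hX hQ h2 h.1.1
  have pr := hs.prim t.prim
  rw [stb_image.1 sK] at pr
  have t' : Tri F p Q η (γ θ) (γ i) (γ ε) :=
    ⟨(irr_stb h.1.1.1.1 sK).2 t.irrK, pr, (irr_stb h.1.1.1.1 sQ).2 t.irrQ,
      fun k => t.ne (γ.injective (k.trans h0.symm)), fun k => t.ov (γ.injective (by
        rw [map_mul, map_mul, show γ η = η from h.2, k, map_zero]))⟩
  obtain ⟨n, hn, e1, e2⟩ := eta_conj hQ h2 hη t t'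
  obtain ⟨s, hs, l, es, -⟩ := gm_ad (p := p) (F := F) (GG := GG) hn
  have m : ∀ x ∈ HX F (⊤ : Subgroup X), gu F X n * x = s x * gu F X n := fun x _ => by
    rw [es, mul_assoc, (rcc_inv n).2, mul_one]
  obtain ⟨f1, f2⟩ := inner_fix (nice_Hm0 gu_tg ⊤) (nice_Hm0 gu_tg (NQ Q)) (rcg_sub le_top) l
    hs.1.2 (aga_mem.2 hn) m
  have g : s ∈ Gm GG Q ⊓ Fx e ⊓ Fx η := ⟨⟨hs, f1 e he.1⟩, f2 η hη.1⟩
  have g' := mul_mem (inv_mem g) h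
  refine ⟨s, g, l, ⟨_, aga_mem.2 hn, m⟩, ⟨g', ?_⟩, ?_⟩
  · change s⁻¹ (γ θ) = θ
    rw [e1, ← es, tc_ia]
  · change s⁻¹ (γ ε) = ε
    rw [e2, ← es, tc_ia]

theorem rcg_loc (hQ : Nat.card Q = p) (h2 : ¬ p ^ 2 ∣ Nat.card X) (hε : ε ∈ Irr F (HX F Q))
    (h0 : ε ≠ e0 F Q) (l : Lin F γ) (h1 : γ ε = ε) {m : MonoidAlgebra F X}
    (hm : m ∈ HX F (NQ Q)) (h : ∀ x ∈ HX F (⊤ : Subgroup X), m * x = γ x * m) :
    ∃ s : F, s ≠ 0 ∧ ∃ q ∈ Q, ∃ g ∈ Kp p Q, m = s • (gu F X q * gu F X g) ∧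
      ∀ x ∈ HX F (Kp p Q), gu F X g * x = γ x * gu F X g := by
  obtain ⟨s, s0, n, hn, rfl⟩ := hm
  have h3 : ∀ x, gu F X n * x = γ x * gu F X n := fun x =>
    span_ind (f := fun x => gu F X n * x) (g := fun x => γ x * gu F X n)
      ⟨LinearMap.mulLeft F _, fun _ => rfl⟩
      ⟨LinearMap.mulRight F _ ∘ₗ ⟨⟨γ, map_add γ⟩, l⟩, fun _ => rfl⟩
      (fun x hx => smul_right_injective _ s0 (by
        have := h x hx
        rwa [smul_mul_assoc, mul_smul_comm] at this)) (rcc_top x)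
  have hc : n ∈ CQ Q := by
    by_contra hc
    have := irrQ_free hQ hε h0 hn hc
    rw [mul_assoc, h3, h1, ← mul_assoc, hε.2.1] at this
    exact hε.2.2.1 (by rw [← mul_one ε, ← (rcc_inv n).1, ← mul_assoc, this, zero_mul])
  obtain ⟨q, hq, g, hg, rfl⟩ := kp_split hQ h2 hc
  refine ⟨s, s0, q, hq, g, hg, by rw [gu_mul], fun x hx => ?_⟩
  have c : ∀ b ∈ span F (HX F (Kp p Q)), gu F X q * b = b * gu F X q := fun b hb =>
    rca_comm (rcg_gu hq) (rcc_KC hb)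
  have := h3 x
  rw [← gu_mul, mul_assoc, c _ (gu_span_mul _ _ (rcg_gu hg) _ (subset_span hx)), c _ (rcg_gu hg),
    ← mul_assoc] at this
  rw [← mul_one (gu F X g * x), ← (rcc_inv q).1, ← mul_assoc, this, mul_assoc, (rcc_inv q).1,
    mul_one]

theorem rcg_main (hX : commutator X = ⊤) (hQ : Nat.card Q = p) (h2 : ¬ p ^ 2 ∣ Nat.card X)
    (he : e ∈ IrrP F p (HX F (⊤ : Subgroup X))) (hη : η ∈ Irr F (HX F (NQ Q)))
    (t : Tri F p Q η θ i ε) (ha : a = ε ∨ a = e0 F Q) (hb : b = ε ∨ b = e0 F Q)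
    (h : Chv F (HX F ⊤) e (i * b) = Chv F (HX F ⊤) e (i * a) + 1) :
    ∃ U, Link F (Gm GG Q ⊓ Fx e ⊓ Fx η ⊓ Fx θ ⊓ Fx ε) (HX F ⊤) (HX F (NQ Q)) e η U := by
  have hp : p.Prime := Fact.out
  have ir : ∀ x, x = ε ∨ x = e0 F Q → x ∈ Irr F (HX F Q) := fun x hx =>
    hx.elim (· ▸ t.irrQ) (· ▸ e0_irr)
  refine link_of_ctx (GG := GG) hp (rcg_ctx le_top he.1 t.irrK t.prim (ir a ha))
    (rcg_ctx le_top he.1 t.irrK t.prim (ir b hb)) (rcg_ctx le_rfl hη t.irrK t.prim t.irrQ) he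
    ⟨hη, irrN_ndvd hQ h2 hη⟩ (rcg_sub le_top) (inf_le_left.trans inf_le_left) (fun γ hγ => ?_) h
    ((chv_eta hQ h2 hη t hη).1 rfl) (fun γ hγ => rcg_fin hX hQ h2 hγ.1.1.1.1)
    fun γ hγ l m hm hh => ?_
  · obtain ⟨-, -, -, -, -, -, -, sK, -, h0⟩ := gm_aut hX hQ h2 hγ.1.1.1.1
    exact ⟨sK, hγ.1.2, ha.elim (· ▸ hγ.2) (· ▸ h0), hb.elim (· ▸ hγ.2) (· ▸ h0), hγ.2⟩
  · obtain ⟨s, s0, q, hq, g, hg, rfl, hk⟩ := rcg_loc hQ h2 t.irrQ t.ne l hγ.2 hm hh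
    refine ⟨⟨s⁻¹, inv_ne_zero s0, ?_, ?_⟩, s, s0, _, aga_mem.2 hg, _, rfl,
      fun b hb => rca_comm (rcg_gu hq) (rcc_KC hb), hk, irrQ_eig hQ (ir a ha) hq,
      irrQ_eig hQ (ir b hb) hq, irrQ_eig hQ t.irrQ hq⟩
    · rw [smul_mul_assoc, inv_smul_smul₀ s0, gu_mul, Nd_mul_e (nice_Hm0 gu_tg _) he.1 (rcc_top _),
        rcg_detX hX he.1]
      exact Mup.one hp
    · rw [smul_mul_assoc, inv_smul_smul₀ s0, gu_mul, Nd_mul_e (nice_Hm0 gu_tg _) hη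
        (rcg_gu (mul_mem (Subgroup.le_normalizer hq) (rcc_KN hg)))]
      exact rcg_detN hX hQ h2 hη hq hg

theorem root_link (hX : commutator X = ⊤) (hQ : Nat.card Q = p) (h2 : ¬ p ^ 2 ∣ Nat.card X)
    (he : e ∈ IrrP F p (HX F (⊤ : Subgroup X))) (hη : η ∈ Eta F Q)
    (hm : mz F p Q e η = 1 ∨ mz F p Q e η = -1) :
    ∃ U, Link F (Gm GG Q ⊓ Fx e ⊓ Fx η) (HX F ⊤) (HX F (NQ Q)) e η U := by
  obtain ⟨θ, hθ, h1, -⟩ := bk_refl (p := p) (Q := Q) hη.1.2.2.1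
  obtain ⟨i, hi⟩ := exists_Prim (nice_Hm0 gu_tg _) hθ
  obtain ⟨ε, t⟩ := eta_tri hQ hη hθ h1 hi
  have sp := mz_spec hQ h2 he.1 hη.1 t
  obtain ⟨l, hl⟩ := Chv_lin (F := F) (HX F (⊤ : Subgroup X)) e
  rw [← hl, mul_sub, map_sub, hl, hl] at sp
  obtain ⟨U, hU⟩ : ∃ U, Link F (Gm GG Q ⊓ Fx e ⊓ Fx η ⊓ Fx θ ⊓ Fx ε) (HX F ⊤) (HX F (NQ Q))
      e η U := by
    rcases hm with hm | hm <;> rw [hm] at sp <;> push_cast at sp
    · exact rcg_main hX hQ h2 he hη.1 t (.inl rfl) (.inr rfl) (by linear_combination -sp)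
    · exact rcg_main hX hQ h2 he hη.1 t (.inr rfl) (.inl rfl) (by linear_combination sp)
  exact Link.ext (GG := GG) le_rfl (inf_le_left.trans inf_le_left) (nice_Hm0 gu_tg _)
    (nice_Hm0 gu_tg _) (rcg_sub le_top) he.1 hη.1 (fun γ h => rcg_hs hX hQ h2 he.1 hη.1 t h) hU

end Pool.Agent.Lib.MP_1ae3da_al.CT
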