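import Mathlib

/-! Connected graphs with one vertex more than edges: unique matching and fixed roots. -/

namespace Pool.Agent.Lib.MP_1ae3da_al.CT.RTree

open Function Set

section one
variable {P V : Type*} (a b : P → V) (SP : Set P)

/-- two vertices are the two ends of an edge in `SP`. -/
def Adj (x y : V) : Prop := ∃ q ∈ SP, (a q = x ∧ b q = y) ∨ (a q = y ∧ b q = x)

/-- walks of length `n` from `r`. -/
def Wk (r : V) : ℕ → V → Prop
  | 0, v => v = r
  | n + 1, v => ∃ u, Wk r n u ∧ Adj a b SP u v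

/-- a matching of the edges with vertices different from the root. -/
def IsM (r : V) (m : P → V) : Prop :=
  (∀ q ∈ SP, (m q = a q ∨ m q = b q) ∧ m q ≠ r) ∧ InjOn m SP

theorem wk_of {r v : V} (h : Relation.ReflTransGen (Adj a b SP) r v) : ∃ n, Wk a b SP r n v := by
  induction h with
  | refl => exact ⟨0, rfl⟩
  | tail _ h2 ih =>
    obtain ⟨n, hn⟩ := ih
    exact ⟨n + 1, _, hn, h2⟩

theorem tree_match (hf : SP.Finite) (hc : (a '' SP ∪ b '' SP).ncard = SP.ncard + 1) {r : V}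
    (hr : r ∈ a '' SP ∪ b '' SP)
    (conn : ∀ v ∈ a '' SP ∪ b '' SP, Relation.ReflTransGen (Adj a b SP) r v) :
    ∃ m, IsM a b SP r m ∧ (∀ v ∈ a '' SP ∪ b '' SP, v ≠ r → ∃ q ∈ SP, m q = v) ∧
      ∀ m', IsM a b SP r m' → EqOn m' m SP := by
  classical
  set SV := a '' SP ∪ b '' SP with hSV
  let d : V → ℕ := fun v => sInf {n | Wk a b SP r n v}
  have par : ∀ v, ∃ q u, v ∈ SV \ {r} → q ∈ SP ∧ d u < d v ∧
      ((a q = u ∧ b q = v) ∨ (a q = v ∧ b q = u)) := by
    intro v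
    by_cases hv : v ∈ SV \ {r}
    · have h1 : Wk a b SP r (d v) v := Nat.sInf_mem (s := {n | Wk a b SP r n v})
        (wk_of a b SP (conn v hv.1))
      cases hd : d v with
      | zero => rw [hd] at h1; exact absurd h1 hv.2
      | succ n =>
        rw [hd] at h1
        obtain ⟨u, h2, q, h3, h4⟩ := h1
        exact ⟨q, u, fun _ => ⟨h3, Nat.lt_succ_of_le (Nat.sInf_le h2), h4⟩⟩
    · obtain ⟨q, -⟩ : SP.Nonempty := by
        rcases hr with ⟨q, h, -⟩ | ⟨q, h, -⟩ <;> exact ⟨q, h⟩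
      exact ⟨q, v, fun h => absurd h hv⟩
  choose e u he using par
  have hinj : InjOn e (SV \ {r}) := by
    intro v hv w hw h
    obtain ⟨-, h1, h2⟩ := he v hv
    obtain ⟨-, h3, h4⟩ := he w hw
    rw [← h] at h4
    rcases h2 with ⟨h5, h6⟩ | ⟨h5, h6⟩ <;> rcases h4 with ⟨h7, h8⟩ | ⟨h7, h8⟩
    · exact h6.symm.trans h8
    · rw [← h5, h7] at h1; rw [← h8, h6] at h3; omega
    · rw [← h6, h8] at h1; rw [← h7, h5] at h3; omega
    · exact h5.symm.trans h7
  have hcard : (SV \ {r}).ncard = SP.ncard := by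
    rw [Set.ncard_sdiff_singleton_of_mem hr, hc]; rfl
  have himg : e '' (SV \ {r}) = SP := by
    refine Set.eq_of_subset_of_ncard_le ?_ ?_ hf
    · rintro _ ⟨v, hv, rfl⟩; exact (he v hv).1
    · rw [hinj.ncard_image, hcard]
  have hsur : ∀ q, ∃ v, q ∈ SP → v ∈ SV \ {r} ∧ e v = q := by
    intro q
    by_cases hq : q ∈ SP
    · rw [← himg] at hq
      obtain ⟨v, h1, h2⟩ := hq
      exact ⟨v, fun _ => ⟨h1, h2⟩⟩
    · exact ⟨r, fun h => absurd h hq⟩
  choose m hm using hsur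
  have hme : ∀ v ∈ SV \ {r}, m (e v) = v := fun v hv =>
    hinj (hm _ (he v hv).1).1 hv (hm _ (he v hv).1).2
  refine ⟨m, ⟨fun q hq => ⟨?_, (hm q hq).1.2⟩, fun q hq q' hq' h => ?_⟩,
    fun v hv hvr => ⟨e v, (he v ⟨hv, hvr⟩).1, hme v ⟨hv, hvr⟩⟩, fun m' hm' => ?_⟩
  · obtain ⟨-, -, h⟩ := he _ (hm q hq).1
    rw [(hm q hq).2] at h
    rcases h with ⟨-, h⟩ | ⟨h, -⟩
    · exact Or.inr h.symm
    · exact Or.inl h.symm
  · rw [← (hm q hq).2, h, (hm q' hq').2]
  · have key : ∀ n, ∀ q ∈ SP, d (m q) = n → m' q = m q := by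
      intro n
      induction n using Nat.strong_induction_on with
      | _ n ih =>
        intro q hq hn
        by_contra hne
        obtain ⟨-, h1, h⟩ := he _ (hm q hq).1
        rw [(hm q hq).2] at h
        obtain ⟨h2, h3⟩ := hm'.1 q hq
        have h4 : m' q = u (m q) := by
          rcases h with ⟨h5, h6⟩ | ⟨h5, h6⟩ <;> rcases h2 with h2 | h2
          · exact h2.trans h5
          · exact absurd (h2.trans h6) hne
          · exact absurd (h2.trans h5) hne
          · exact h2.trans h6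
        have h7 : m' q ∈ SV \ {r} := by
          refine ⟨?_, h3⟩
          rcases h2 with h2 | h2
          · exact Or.inl ⟨q, hq, h2.symm⟩
          · exact Or.inr ⟨q, hq, h2.symm⟩
        have h8 := hme _ h7
        have h9 := ih (d (m' q)) (by rw [h4, ← hn]; exact h1) _ (he _ h7).1 (by rw [h8])
        have h10 := hm'.2 (he _ h7).1 hq (h9.trans h8)
        rw [h10] at h8
        exact hne h8.symm
    exact fun q hq => key _ q hq rfl

end one

section many
variable {G P V : Type*} [Group G] [MulAction G P] [MulAction G V]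

/-- the data of the walks: `a q`, `b q` are the vertices of the two types over `q`. -/
structure Wlk (G : Type*) {P V : Type*} [Group G] [MulAction G P] [MulAction G V]
    (a b : P → V) (tw : Equiv.Perm P) : Prop where
  ha : ∀ (g : G) q, a (g • q) = g • a q
  hb : ∀ (g : G) q, b (g • q) = g • b q
  ht : ∀ (g : G) q, tw (g • q) = g • tw q
  step : ∀ q, ∃ q', a q' = a q ∧ b q' = b (tw q)
  blk : ∀ q q', a q = a q' ∨ a q = b q' ∨ b q = b q' → tw.SameCycle q q'
  cnt : ∀ q, (a '' {q' | tw.SameCycle q q'} ∪ b '' {q' | tw.SameCycle q q'}).ncard =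
    {q' | tw.SameCycle q q'}.ncard + 1

variable {a b : P → V} {tw : Equiv.Perm P}

/-- the vertices of the block of `q`. -/
def Vx (a b : P → V) (tw : Equiv.Perm P) (q : P) : Set V :=
  a '' {q' | tw.SameCycle q q'} ∪ b '' {q' | tw.SameCycle q q'}

theorem Wlk.zpow (h : Wlk G a b tw) (g : G) (j : ℤ) (q : P) :
    (tw ^ j) (g • q) = g • (tw ^ j) q := by
  have h1 : Commute tw (MulAction.toPerm g) := Equiv.ext fun q => h.ht g q
  exact congrArg (fun f : Equiv.Perm P => f q) (h1.zpow_left j).eq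

theorem Wlk.sc (h : Wlk G a b tw) (g : G) {q q' : P} (h1 : tw.SameCycle q q') :
    tw.SameCycle (g • q) (g • q') := by
  obtain ⟨j, rfl⟩ := h1
  exact ⟨j, h.zpow g j q⟩

theorem Wlk.vx (h : Wlk G a b tw) (g : G) {q : P} {v : V} (h1 : v ∈ Vx a b tw q) :
    g • v ∈ Vx a b tw (g • q) := by
  rcases h1 with ⟨x, h2, rfl⟩ | ⟨x, h2, rfl⟩
  · exact Or.inl ⟨g • x, h.sc g h2, h.ha g x⟩
  · exact Or.inr ⟨g • x, h.sc g h2, h.hb g x⟩

theorem blk_eq {q q' : P} (h : tw.SameCycle q q') :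
    {x | tw.SameCycle q x} = {x | tw.SameCycle q' x} :=
  Set.ext fun _ => ⟨fun h1 => h.symm.trans h1, fun h1 => h.trans h1⟩

theorem vx_eq {q q' : P} (h : tw.SameCycle q q') : Vx a b tw q = Vx a b tw q' := by
  rw [Vx, Vx, blk_eq h]

theorem Wlk.of_vx (h : Wlk G a b tw) {q q' : P} {v : V} (h1 : v ∈ Vx a b tw q)
    (h2 : v ∈ Vx a b tw q') : tw.SameCycle q q' := by
  rcases h1 with ⟨x, h3, h4⟩ | ⟨x, h3, h4⟩ <;> rcases h2 with ⟨y, h5, h6⟩ | ⟨y, h5, h6⟩
  · exact (h3.trans (h.blk x y (Or.inl (h4.trans h6.symm)))).trans h5.symm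
  · exact (h3.trans (h.blk x y (Or.inr (Or.inl (h4.trans h6.symm))))).trans h5.symm
  · exact (h3.trans (h.blk y x (Or.inr (Or.inl (h6.trans h4.symm)))).symm).trans h5.symm
  · exact (h3.trans (h.blk x y (Or.inr (Or.inr (h4.trans h6.symm))))).trans h5.symm

theorem Wlk.conn [Finite P] (h : Wlk G a b tw) (q : P) {r v : V} (hr : r ∈ Vx a b tw q)
    (hv : v ∈ Vx a b tw q) :
    Relation.ReflTransGen (Adj a b {q' | tw.SameCycle q q'}) r v := by
  set R := Adj a b {q' | tw.SameCycle q q'} with hR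
  have hs : ∀ {x y}, R x y → R y x := fun ⟨q, h1, h2⟩ => ⟨q, h1, h2.symm⟩
  have hab : ∀ x, tw.SameCycle q x → R (a x) (b x) := fun x hx => ⟨x, hx, Or.inl ⟨rfl, rfl⟩⟩
  have h1 : ∀ x, tw.SameCycle q x → Relation.ReflTransGen R (a x) (a (tw x)) := by
    intro x hx
    obtain ⟨y, h2, h3⟩ := h.step x
    have h4 := hab y (hx.trans (h.blk x y (Or.inl h2.symm)))
    rw [h2, h3] at h4
    exact (Relation.ReflTransGen.single h4).tail
      (hs (hab _ (Equiv.Perm.sameCycle_apply_right.2 hx)))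
  have h2 : ∀ (n : ℕ) x, tw.SameCycle q x → Relation.ReflTransGen R (a x) (a ((tw ^ n) x)) := by
    intro n x hx
    induction n with
    | zero => exact .refl
    | succ n ih =>
      rw [pow_succ', Equiv.Perm.mul_apply]
      exact ih.trans (h1 _ (Equiv.Perm.sameCycle_pow_right.2 hx))
  have h3 : ∀ x y, tw.SameCycle q x → tw.SameCycle q y → Relation.ReflTransGen R (a x) (a y) := by
    intro x y hx hy
    obtain ⟨n, rfl⟩ := (hx.symm.trans hy).exists_nat_pow_eq
    exact h2 n x hx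
  rcases hr with ⟨x, hx, rfl⟩ | ⟨x, hx, rfl⟩ <;> rcases hv with ⟨y, hy, rfl⟩ | ⟨y, hy, rfl⟩
  · exact h3 x y hx hy
  · exact (h3 x y hx hy).tail (hab y hy)
  · exact (h3 x y hx hy).head (hs (hab x hx))
  · exact ((h3 x y hx hy).tail (hab y hy)).head (hs (hab x hx))

theorem Wlk.mt [Finite P] (h : Wlk G a b tw) (q : P) {r : V} (hr : r ∈ Vx a b tw q) :
    ∃ m, IsM a b {q' | tw.SameCycle q q'} r m ∧
      (∀ v ∈ Vx a b tw q, v ≠ r → ∃ x, tw.SameCycle q x ∧ m x = v) ∧
      ∀ m', IsM a b {q' | tw.SameCycle q q'} r m' → EqOn m' m {q' | tw.SameCycle q q'} :=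
  tree_match a b _ (Set.toFinite _) (h.cnt q) hr fun _ hv => h.conn q hr hv

theorem Wlk.isM (h : Wlk G a b tw) (g : G) {q : P} {r : V} {m : P → V}
    (hm : IsM a b {q' | tw.SameCycle (g • q) q'} (g • r) m) :
    IsM a b {q' | tw.SameCycle q q'} r fun x => g⁻¹ • m (g • x) := by
  refine ⟨fun x hx => ?_, fun x hx y hy hxy => ?_⟩
  · obtain ⟨h1, h2⟩ := hm.1 _ (h.sc g hx)
    refine ⟨?_, fun h3 => h2 (by rw [← h3, smul_inv_smul])⟩
    rcases h1 with h1 | h1
    · exact Or.inl (by simp only [h1, h.ha, inv_smul_smul])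
    · exact Or.inr (by simp only [h1, h.hb, inv_smul_smul])
  · exact MulAction.injective g (hm.2 (h.sc g hx) (h.sc g hy) (MulAction.injective g⁻¹ hxy))

theorem Wlk.fixP (h : Wlk G a b tw) {g : G} {q x : P} (hg : g • q = q) (hx : tw.SameCycle q x) :
    g • x = x := by
  obtain ⟨j, rfl⟩ := hx
  rw [← h.zpow, hg]

theorem Wlk.fixV (h : Wlk G a b tw) {g : G} {q : P} {v : V} (hg : g • q = q)
    (hv : v ∈ Vx a b tw q) : g • v = v := by
  rcases hv with ⟨x, hx, rfl⟩ | ⟨x, hx, rfl⟩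
  · rw [← h.ha, h.fixP hg hx]
  · rw [← h.hb, h.fixP hg hx]

theorem fix_mod {X : Type*} [MulAction G X] {S : Set X} (hS : S.Finite) (z : G) {l : ℕ}
    (hl : l.Prime) (h1 : ∀ x ∈ S, z • x ∈ S) (h2 : ∀ x ∈ S, z ^ l • x = x)
    (h3 : ∀ x ∈ S, z • x ≠ x) : l ∣ S.ncard := by
  classical
  have := hS.fintype
  have := Fact.mk hl
  let f : Function.End S := fun x => ⟨z • x.1, h1 _ x.2⟩
  have hf : ∀ (n : ℕ) (x : S), ((f ^ n) x).1 = z ^ n • x.1 := by
    intro n x
    induction n with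
    | zero => rw [pow_zero, pow_zero, one_smul]; rfl
    | succ n ih => rw [pow_succ', pow_succ', mul_smul, ← ih]; rfl
  have h4 : f ^ l ^ 1 = 1 := funext fun x => Subtype.ext (by rw [pow_one, hf, h2 _ x.2]; rfl)
  have h5 := Equiv.Perm.card_fixedPoints_modEq h4
  have h6 : IsEmpty (Function.fixedPoints f) :=
    ⟨fun x => h3 _ x.1.2 (congrArg Subtype.val x.2)⟩
  rw [Fintype.card_eq_zero (α := Function.fixedPoints f)] at h5
  rw [← Nat.card_coe_set_eq, Nat.card_eq_fintype_card]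
  exact (Nat.modEq_zero_iff_dvd).1 h5

/-- in every block some vertex is fixed by the stabiliser of the block. -/
theorem Wlk.root [Finite P] (h : Wlk G a b tw) (q : P) :
    ∃ r ∈ Vx a b tw q, ∀ g : G, tw.SameCycle q (g • q) → g • r = r := by
  classical
  by_cases h0 : ∀ g : G, tw.SameCycle q (g • q) → g • q = q
  · exact ⟨a q, Or.inl ⟨q, Equiv.Perm.SameCycle.refl _ _, rfl⟩,
      fun g hg => by rw [← h.ha, h0 g hg]⟩
  push Not at h0
  obtain ⟨g, hg, hne⟩ := h0
  have hpow : ∀ n : ℕ, tw.SameCycle q (g ^ n • q) := by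
    intro n
    induction n with
    | zero => rw [pow_zero, one_smul]
    | succ n ih => rw [pow_succ', mul_smul]; exact hg.trans (h.sc g ih)
  have hn : 0 < MulAction.period g q := by
    refine MulAction.period_pos_of_fixed (orderOf_pos (MulAction.toPermHom G P g)) ?_
    have := pow_orderOf_eq_one (MulAction.toPermHom G P g)
    rw [← map_pow] at this
    exact congrArg (fun f : Equiv.Perm P => f q) this
  have hn1 : MulAction.period g q ≠ 1 := fun h1 => hne (MulAction.period_eq_one_iff.1 h1)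
  obtain ⟨l, hl, k, hk⟩ := Nat.exists_prime_and_dvd hn1
  have hk0 : 0 < k := Nat.pos_of_ne_zero fun h1 => by rw [hk, h1] at hn; simp at hn
  set z := g ^ k with hz
  have hzq : tw.SameCycle q (z • q) := hpow k
  have hz1 : z • q ≠ q := MulAction.pow_smul_ne_of_lt_period hk0
    (by rw [hk]; have := hl.two_le; nlinarith)
  have hz2 : z ^ l • q = q := by
    rw [hz, ← pow_mul, mul_comm, ← hk]; exact MulAction.pow_period_smul g q
  have hfree : ∀ x, tw.SameCycle q x → z • x ≠ x := fun x hx h1 => hz1 (h.fixP h1 hx.symm)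
  have hst : ∀ {g : G}, tw.SameCycle q (g • q) → ∀ v ∈ Vx a b tw q, g • v ∈ Vx a b tw q :=
    fun {g} hg v hv => by rw [vx_eq hg]; exact h.vx g hv
  have hd := fix_mod (Set.toFinite {x | tw.SameCycle q x}) z hl
    (fun x hx => hzq.trans (h.sc z hx)) (fun x hx => h.fixP hz2 hx) hfree
  have hfin : (Vx a b tw q).Finite := ((Set.toFinite _).image a).union ((Set.toFinite _).image b)
  obtain ⟨r, hr, hzr⟩ : ∃ r ∈ Vx a b tw q, z • r = r := by
    by_contra hc
    push Not at hc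
    have h1 := fix_mod hfin z hl (hst hzq) (fun v hv => h.fixV hz2 hv) hc
    rw [Vx, h.cnt q] at h1
    exact hl.one_lt.ne' (Nat.dvd_one.1 ((Nat.dvd_add_right hd).1 h1))
  obtain ⟨m, hm, hs, hu⟩ := h.mt q hr
  have huniq : ∀ v ∈ Vx a b tw q, z • v = v → v = r := by
    intro v hv hzv
    by_contra hc
    obtain ⟨x, hx, rfl⟩ := hs v hv hc
    have h1 : IsM a b {q' | tw.SameCycle (z • q) q'} (z • r) m := by rwa [← blk_eq hzq, hzr]
    have h2 : z⁻¹ • m (z • x) = m x := hu _ (h.isM z h1) hx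
    rw [inv_smul_eq_iff, hzv] at h2
    exact hfree x hx (hm.2 (hzq.trans (h.sc z hx)) hx h2)
  refine ⟨r, hr, fun u hu => huniq _ (hst hu r hr) ?_⟩
  have h1 : ((u * z)⁻¹ * (z * u)) • q = q := by
    obtain ⟨i, hi⟩ := hu
    obtain ⟨j, hj⟩ := hzq
    rw [mul_smul, inv_smul_eq_iff, mul_smul, mul_smul]
    conv_lhs => rw [← hi, ← h.zpow, ← hj]
    conv_rhs => rw [← hj, ← h.zpow, ← hi]
    rw [← Equiv.Perm.mul_apply, ← Equiv.Perm.mul_apply, ← zpow_add, ← zpow_add, add_comm]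
  have h2 := h.fixV h1 hr
  rwa [mul_smul, inv_smul_eq_iff, mul_smul, mul_smul, hzr] at h2

/-- equivariant choice over the blocks. -/
theorem Wlk.choice (h : Wlk G a b tw) (R : P → V → Prop)
    (h1 : ∀ (g : G) q r, R q r → R (g • q) (g • r))
    (h2 : ∀ q q' r, tw.SameCycle q q' → R q r → R q' r)
    (h3 : ∀ q, ∃ r, R q r ∧ ∀ g : G, tw.SameCycle q (g • q) → g • r = r) :
    ∃ ρ : P → V, (∀ q, R q (ρ q)) ∧ (∀ (g : G) q, ρ (g • q) = g • ρ q) ∧
      ∀ q q', tw.SameCycle q q' → ρ q = ρ q' := by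
  classical
  let s : Setoid P := ⟨fun x y => ∃ g : G, tw.SameCycle (g • x) y,
    fun x => ⟨1, by rw [one_smul]⟩,
    fun ⟨g, hg⟩ => ⟨g⁻¹, by have := (h.sc g⁻¹ hg).symm; rwa [inv_smul_smul] at this⟩,
    fun ⟨g, hg⟩ ⟨u, hu⟩ => ⟨u * g, by rw [mul_smul]; exact (h.sc u hg).trans hu⟩⟩
  choose r hr hfix using h3
  have hex : ∀ q, ∃ g : G, tw.SameCycle (g • (Quotient.mk s q).out) q :=
    fun q => Quotient.mk_out (s := s) q
  choose c hc using hex
  have key : ∀ q (g : G), tw.SameCycle (g • (Quotient.mk s q).out) q →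
      c q • r (Quotient.mk s q).out = g • r (Quotient.mk s q).out := by
    intro q g hg
    have h4 := h.sc g⁻¹ (hg.trans (hc q).symm)
    rw [inv_smul_smul, ← mul_smul] at h4
    have h5 := hfix _ _ h4
    rwa [mul_smul, inv_smul_eq_iff] at h5
  refine ⟨fun q => c q • r (Quotient.mk s q).out, fun q => h2 _ _ _ (hc q) (h1 _ _ _ (hr _)),
    fun g q => ?_, fun q q' hq => ?_⟩
  · have h4 : Quotient.mk s (g • q) = Quotient.mk s q :=
      (Quotient.sound ⟨g, Equiv.Perm.SameCycle.refl _ _⟩ : Quotient.mk s q = _).symm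
    have h5 := key (g • q) (g * c q) (by rw [h4, mul_smul]; exact h.sc g (hc q))
    show c (g • q) • _ = g • c q • _
    rw [h5, h4, mul_smul]
  · have h4 : Quotient.mk s q = Quotient.mk s q' := Quotient.sound ⟨1, by rwa [one_smul]⟩
    have h5 := key q' (c q) (by rw [← h4]; exact (hc q).trans hq)
    show c q • _ = c q' • _
    rw [h5, h4]

/-- equivariant roots (the exceptional vertex where there is one) and the matching. -/
theorem Wlk.main [Finite P] (h : Wlk G a b tw) (Ex : V → Prop)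
    (h1 : ∀ (g : G) v, Ex v → Ex (g • v))
    (h2 : ∀ q, ∀ v ∈ Vx a b tw q, ∀ w ∈ Vx a b tw q, Ex v → Ex w → v = w) :
    ∃ ρ m : P → V, (∀ (g : G) q, ρ (g • q) = g • ρ q) ∧ (∀ (g : G) q, m (g • q) = g • m q) ∧
      (∀ q q', tw.SameCycle q q' → ρ q = ρ q') ∧ (∀ q, ρ q ∈ Vx a b tw q) ∧
      (∀ q, ∀ v ∈ Vx a b tw q, Ex v → ρ q = v) ∧ Injective m ∧
      (∀ q, m q = a q ∨ m q = b q) ∧ (∀ q q', m q ≠ ρ q') ∧
      ∀ q, ∀ v ∈ Vx a b tw q, v = ρ q ∨ ∃ x, m x = v := by
  classical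
  obtain ⟨ρ, r1, r2, r3⟩ := h.choice
    (fun q r => r ∈ Vx a b tw q ∧ ∀ v ∈ Vx a b tw q, Ex v → r = v)
    (fun g q r hr => ⟨h.vx g hr.1, fun v hv he => by
      have h3 := h.vx g⁻¹ hv
      rw [inv_smul_smul] at h3
      rw [hr.2 _ h3 (h1 _ _ he), smul_inv_smul]⟩)
    (fun q q' r hq hr => by rwa [← vx_eq hq])
    (fun q => by
      by_cases he : ∃ v ∈ Vx a b tw q, Ex v
      · obtain ⟨v, hv, he⟩ := he
        exact ⟨v, ⟨hv, fun w hw he' => h2 q v hv w hw he he'⟩, fun g hg =>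
          h2 q _ (by rw [vx_eq hg]; exact h.vx g hv) v hv (h1 g v he) he⟩
      · obtain ⟨r, hr, hf⟩ := h.root q
        exact ⟨r, ⟨hr, fun v hv h3 => absurd ⟨v, hv, h3⟩ he⟩, hf⟩)
  choose M hM hs hu using fun q => h.mt q (r1 q).1
  have rf : ∀ q, tw.SameCycle q q := fun q => Equiv.Perm.SameCycle.refl _ _
  have hMM : ∀ q x, tw.SameCycle q x → M x x = M q x := fun q x hx =>
    hu q _ (by rw [blk_eq hx, r3 q x hx]; exact hM x) hx
  have hab : ∀ q, M q q = a q ∨ M q q = b q := fun q => ((hM q).1 q (rf q)).1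
  have hmem : ∀ q, M q q ∈ Vx a b tw q := fun q => by
    rcases hab q with h3 | h3
    · exact Or.inl ⟨q, rf q, h3.symm⟩
    · exact Or.inr ⟨q, rf q, h3.symm⟩
  refine ⟨ρ, fun q => M q q, r2, fun g q => ?_, r3, fun q => (r1 q).1, fun q => (r1 q).2,
    fun x y hxy => ?_, hab, fun q q' h3 => ?_, fun q v hv => ?_⟩
  · have h3 : g⁻¹ • M (g • q) (g • q) = M q q :=
      hu q _ (h.isM g (by rw [← r2]; exact hM _)) (rf q)
    exact inv_smul_eq_iff.1 h3
  · have h3 : M x x = M y y := hxy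
    have h4 := h.of_vx (hmem x) (h3 ▸ hmem y)
    exact (hM x).2 (rf x) h4 (h3.trans (hMM x y h4))
  · have h4 : M q q = ρ q' := h3
    have h5 := h.of_vx (hmem q) (h4 ▸ (r1 q').1)
    exact ((hM q).1 q (rf q)).2 (h4.trans (r3 q q' h5).symm)
  · by_cases h3 : v = ρ q
    · exact Or.inl h3
    · obtain ⟨x, hx, h4⟩ := hs q v hv h3
      exact Or.inr ⟨x, (hMM q x hx).trans h4⟩

end many

end Pool.Agent.Lib.MP_1ae3da_al.CT.RTree
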