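import Pool.Agent.Lib.MP_1ae3da_al.C.Defs
import Pool.Agent.Lib.MP_1ae3da_al.C.RWlk

/-! Roots and matching for typed vertices; bijections with links from a relation. -/

namespace Pool.Agent.Lib.MP_1ae3da_al.CT

open Set

theorem rcha_rm {A : Type} [Ring A] (Γ : Subgroup (RingAut A)) {Ps : Set A} (fin : Ps.Finite)
    {B : A → A → Prop} {T : A → A} {Ty : Set A → A → Bool → Prop}
    (hΓ : ∀ γ ∈ Γ, ∀ x ∈ Ps, γ x ∈ Ps) (hT : ∀ x ∈ Ps, T x ∈ Ps) (hi : InjOn T Ps)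
    (hc : ∀ γ ∈ Γ, ∀ x ∈ Ps, T (γ x) = γ (T x))
    (hB : ∀ x ∈ Ps, ∀ y ∈ Ps, B x y ↔ ∃ n : ℕ, T^[n] x = y)
    (dom : ∀ v x i, Ty v x i → x ∈ Ps) (ex : ∀ x ∈ Ps, ∀ i, ∃ v, Ty v x i)
    (uniq : ∀ v v' x i, Ty v x i → Ty v' x i → v = v')
    (w2 : ∀ v x, Ty v x false → ∃ v' x', Ty v' (T x) true ∧ Ty v' x' true ∧ Ty v x' false)
    (eqv : ∀ γ ∈ Γ, ∀ v x i, Ty v x i → Ty (γ '' v) (γ x) i)
    (blk : ∀ v x i y j, Ty v x i → Ty v y j → B x y)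
    (cnt : ∀ x ∈ Ps, {v | ∃ y i, Ty v y i ∧ B x y}.ncard = {y | y ∈ Ps ∧ B x y}.ncard + 1)
    (one : ∀ x ∈ Ps, ∀ v y i w z j, Ty v y i → B x y → Ty w z j → B x z → v.Nontrivial →
      w.Nontrivial → v = w) :
    ∃ ρ m : A → Set A, (∀ γ ∈ Γ, ∀ x ∈ Ps, ρ (γ x) = γ '' ρ x) ∧
      (∀ γ ∈ Γ, ∀ x ∈ Ps, m (γ x) = γ '' m x) ∧ (∀ x ∈ Ps, ∀ y ∈ Ps, B x y → ρ x = ρ y) ∧
      (∀ x ∈ Ps, ∃ y i, Ty (ρ x) y i ∧ B x y) ∧
      (∀ x ∈ Ps, ∀ v y i, Ty v y i → B x y → v.Nontrivial → ρ x = v) ∧ InjOn m Ps ∧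
      (∀ x ∈ Ps, ∃ i, Ty (m x) x i) ∧ (∀ x ∈ Ps, ∀ y ∈ Ps, m x ≠ ρ y) ∧
      ∀ v x i, Ty v x i → v = ρ x ∨ ∃ y ∈ Ps, m y = v := by
  classical
  have := fin.to_subtype
  let _ : MulAction Γ Ps :=
    { smul := fun g x => ⟨g.1 x.1, hΓ _ g.2 _ x.2⟩
      one_smul := fun _ => rfl
      mul_smul := fun _ _ _ => rfl }
  let _ : MulAction Γ (Set A) :=
    { smul := fun g v => g.1 '' v
      one_smul := fun v => Set.image_id v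
      mul_smul := fun g h v => (Set.image_image g.1 h.1 v).symm }
  let t : Ps → Ps := fun x => ⟨T x, hT _ x.2⟩
  have ht : Function.Injective t := fun x y h => Subtype.ext (hi x.2 y.2 (congrArg Subtype.val h))
  let tw : Equiv.Perm Ps := Equiv.ofBijective t (Finite.injective_iff_bijective.1 ht)
  have hp : ∀ (n : ℕ) (x : Ps), ((tw ^ n) x).1 = T^[n] x := by
    intro n x
    induction n with
    | zero => rfl
    | succ n ih => rw [pow_succ', Function.iterate_succ_apply', ← ih]; rfl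
  have hs : ∀ x y : Ps, tw.SameCycle x y ↔ B x y := by
    intro x y
    rw [hB _ x.2 _ y.2]
    refine ⟨fun h => ?_, fun ⟨n, h⟩ => ?_⟩
    · obtain ⟨n, h⟩ := h.exists_nat_pow_eq
      exact ⟨n, by rw [← hp, h]⟩
    · exact ⟨n, Subtype.ext (by rw [zpow_natCast, hp, h])⟩
  choose a ha using fun x : Ps => ex x x.2 false
  choose b hb using fun x : Ps => ex x x.2 true
  have hV : ∀ (x : Ps) v, v ∈ RTree.Vx a b tw x ↔ ∃ y i, Ty v y i ∧ B x y := by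
    intro x v
    constructor
    · rintro (⟨y, h, rfl⟩ | ⟨y, h, rfl⟩)
      · exact ⟨y, _, ha y, (hs _ _).1 h⟩
      · exact ⟨y, _, hb y, (hs _ _).1 h⟩
    · rintro ⟨y, i, h, h'⟩
      have hy := dom _ _ _ h
      cases i
      · exact Or.inl ⟨⟨y, hy⟩, (hs _ _).2 h', uniq _ _ _ _ (ha _) h⟩
      · exact Or.inr ⟨⟨y, hy⟩, (hs _ _).2 h', uniq _ _ _ _ (hb _) h⟩
  have W : RTree.Wlk Γ a b tw := by
    refine ⟨fun g q => uniq _ _ _ _ (ha _) (eqv _ g.2 _ _ _ (ha q)),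
      fun g q => uniq _ _ _ _ (hb _) (eqv _ g.2 _ _ _ (hb q)),
      fun g q => Subtype.ext (hc _ g.2 _ q.2), fun q => ?_, fun q q' h => (hs _ _).2 ?_,
      fun q => ?_⟩
    · obtain ⟨v, x, h1, h2, h3⟩ := w2 _ _ (ha q)
      exact ⟨⟨x, dom _ _ _ h2⟩, uniq _ _ _ _ (ha _) h3,
        (uniq _ _ _ _ (hb _) h2).trans (uniq _ _ _ _ h1 (hb (tw q)))⟩
    · rcases h with h | h | h
      · exact blk _ _ _ _ _ (ha q) (h ▸ ha q')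
      · exact blk _ _ _ _ _ (ha q) (h ▸ hb q')
      · exact blk _ _ _ _ _ (hb q) (h ▸ hb q')
    · have h1 : RTree.Vx a b tw q = {v | ∃ y i, Ty v y i ∧ B q y} := Set.ext (hV q)
      have h2 : Subtype.val '' {q' | tw.SameCycle q q'} = {y | y ∈ Ps ∧ B q y} := by
        ext y
        exact ⟨fun ⟨z, h, h'⟩ => h' ▸ ⟨z.2, (hs _ _).1 h⟩,
          fun h => ⟨⟨y, h.1⟩, (hs _ _).2 h.2, rfl⟩⟩
      have h3 := cnt q q.2
      rw [← h1, ← h2, Set.ncard_image_of_injective _ Subtype.val_injective] at h3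
      exact h3
  obtain ⟨ρ, m, r1, r2, r3, r4, r5, r6, r7, r8, r9⟩ := W.main Set.Nontrivial
    (fun g v h => h.image g.1.injective)
    (fun q v hv w hw h h' => by
      obtain ⟨y, i, h1, h2⟩ := (hV q v).1 hv
      obtain ⟨z, j, h3, h4⟩ := (hV q w).1 hw
      exact one q q.2 _ _ _ _ _ _ h1 h2 h3 h4 h h')
  refine ⟨fun x => if h : x ∈ Ps then ρ ⟨x, h⟩ else ∅, fun x => if h : x ∈ Ps then m ⟨x, h⟩ else ∅,
    fun γ hγ x hx => ?_, fun γ hγ x hx => ?_, fun x hx y hy h => ?_, fun x hx => ?_,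
    fun x hx v y i h1 h2 h3 => ?_, fun x hx y hy h => ?_, fun x hx => ?_, fun x hx y hy => ?_,
    fun v x i h => ?_⟩
  · simp only [dif_pos hx, dif_pos (hΓ γ hγ x hx)]
    exact r1 ⟨γ, hγ⟩ ⟨x, hx⟩
  · simp only [dif_pos hx, dif_pos (hΓ γ hγ x hx)]
    exact r2 ⟨γ, hγ⟩ ⟨x, hx⟩
  · simp only [dif_pos hx, dif_pos hy]
    exact r3 _ _ ((hs ⟨x, hx⟩ ⟨y, hy⟩).2 h)
  · simp only [dif_pos hx]
    exact (hV ⟨x, hx⟩ _).1 (r4 _)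
  · simp only [dif_pos hx]
    exact r5 _ v ((hV ⟨x, hx⟩ _).2 ⟨y, i, h1, h2⟩) h3
  · simp only [dif_pos hx, dif_pos hy] at h
    exact congrArg Subtype.val (r6 h)
  · simp only [dif_pos hx]
    rcases r7 ⟨x, hx⟩ with h | h
    · exact ⟨_, h ▸ ha ⟨x, hx⟩⟩
    · exact ⟨_, h ▸ hb ⟨x, hx⟩⟩
  · simp only [dif_pos hx, dif_pos hy]
    exact r8 _ _
  · have hx := dom _ _ _ h
    simp only [dif_pos hx]
    rcases r9 ⟨x, hx⟩ v ((hV _ _).2 ⟨x, i, h, blk _ _ _ _ _ h h⟩) with h1 | ⟨y, h1⟩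
    · exact Or.inl h1
    · exact Or.inr ⟨y, y.2, by rw [dif_pos y.2]; exact h1⟩

theorem rcha_lk {F A : Type} [Field F] [Ring A] [Algebra F A] {Γ : Subgroup (RingAut A)}
    {L M X Y : Set A} (Rel : A → A → Prop) (hX : ∀ γ ∈ Γ, ∀ x ∈ X, γ x ∈ X)
    (h0 : ∀ e x, Rel e x → e ∈ X ∧ x ∈ Y) (h1 : ∀ e ∈ X, ∃! x, Rel e x)
    (h2 : ∀ x ∈ Y, ∃! e, Rel e x) (h3 : ∀ γ ∈ Γ, ∀ e x, Rel e x → Rel (γ e) (γ x))
    (h4 : ∀ e x, Rel e x → ∃ U, Link F (Γ ⊓ Fx e ⊓ Fx x) L M e x U) : LK F Γ L M X Y := by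
  classical
  have h5 : ∀ e, ∃ x, e ∈ X → Rel e x := fun e => by
    by_cases he : e ∈ X
    · exact (h1 e he).exists.imp fun _ h _ => h
    · exact ⟨e, fun h => absurd h he⟩
  choose Ω hΩ using h5
  have h6 : ∀ γ ∈ Γ, ∀ e ∈ X, Ω (γ e) = γ (Ω e) := fun γ hγ e he =>
    (h1 _ (hX γ hγ e he)).unique (hΩ _ (hX γ hγ e he)) (h3 γ hγ _ _ (hΩ e he))
  refine ⟨Ω, ⟨⟨fun e he => (h0 _ _ (hΩ e he)).2, fun e he e' he' h => ?_, fun x hx => ?_⟩,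
    fun γ hγ e he => ⟨hX γ hγ e he, h6 γ hγ e he⟩⟩, fun e he => ?_⟩
  · exact (h2 _ (h0 _ _ (hΩ e he)).2).unique (hΩ e he) (h ▸ hΩ e' he')
  · obtain ⟨e, h⟩ := (h2 x hx).exists
    have he := (h0 _ _ h).1
    exact ⟨e, he, (h1 e he).unique (hΩ e he) h⟩
  · have h7 : Γ ⊓ Fx e ⊓ Fx (Ω e) = Γ ⊓ Fx e := inf_eq_left.2 fun γ hγ =>
      (h6 γ hγ.1 e he).symm.trans (congrArg Ω hγ.2)
    exact h7 ▸ h4 _ _ (hΩ e he)

end Pool.Agent.Lib.MP_1ae3da_al.CT
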