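import Pool.Agent.Lib.MP_1ae3da_al.C.RCc

/-! The twist, and multiplicity one. -/

namespace Pool.Agent.Lib.MP_1ae3da_al.CT

open Submodule

variable {p : ℕ} {F X : Type} [Field F] [CharZero F] [IsAlgClosed F] [Group X] [Finite X]
  [Fact p.Prime] {Q : Subgroup X} {e e' ε ε' θ θ' i i' ψ ψ' η η' x y a b : MonoidAlgebra F X}

variable {k : Type} [Field k] {O R : Subring F} {r : F → k} {GG : Subgroup (RingAut F)}
  {γ : RingAut (MonoidAlgebra F X)} {σ : RingAut F}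

variable {om : X → F} {T : MonoidAlgebra F X →ₗ[F] MonoidAlgebra F X}

section aux
omit [CharZero F] [IsAlgClosed F] [Fact p.Prime]

omit [Finite X] in
theorem rcd_le : CQ Q ≤ NQ Q := Subgroup.centralizer_le_normalizer _

omit [Finite X] in
theorem rcd_pow (h : Om GG Q om T) {g : X} (hg : g ∈ NQ Q) (n : ℕ) : om (g ^ n) = om g ^ n := by
  induction n with
  | zero => simpa using (h.ker 1 (one_mem _)).2 (one_mem _)
  | succ n ih => rw [pow_succ, pow_succ, h.mul _ (pow_mem hg n) _ hg, ih]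

omit [Finite X] in
theorem rcd_tpow (h : Om GG Q om T) (g : X) (n : ℕ) :
    (T ^ n) (gu F X g) = om g ^ n • gu F X g := by
  induction n with
  | zero => simp
  | succ n ih => rw [pow_succ', Module.End.mul_apply, ih, map_smul, h.tw, smul_smul, pow_succ]

omit [Finite X] in
theorem rcd_ord (h : Om GG Q om T) (ha : a ∈ span F (HX F (NQ Q))) : (T ^ Nat.card X) a = a :=
  ta_ext (g := LinearMap.id) (fun g hg => by
    rw [rcd_tpow h, ← rcd_pow h hg, pow_card_eq_one', (h.ker 1 (one_mem _)).2 (one_mem _),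
      one_smul, LinearMap.id_apply]) ha

omit [Finite X] in
theorem rcd_fix (h : Om GG Q om T) (ha : a ∈ span F (HX F (CQ Q))) : T a = a :=
  ta_ext (g := LinearMap.id) (fun g hg => by
    rw [h.tw, (h.ker g (rcd_le hg)).2 hg, one_smul, LinearMap.id_apply]) ha

omit [Finite X] in
theorem rcd_mem (h : Om GG Q om T) (ha : a ∈ span F (HX F (NQ Q))) :
    T a ∈ span F (HX F (NQ Q)) := by
  refine (span_le (p := (span F (HX F (NQ Q))).comap T)).2 ?_ ha
  rintro _ ⟨c, -, g, hg, rfl⟩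
  change T (c • _) ∈ span F (HX F (NQ Q))
  rw [map_smul, h.tw]
  exact smul_mem _ _ (smul_mem _ _ (subset_span (mem_Hm hg)))

omit [Finite X] in
theorem rcd_mul (h : Om GG Q om T) (ha : a ∈ span F (HX F (NQ Q)))
    (hb : b ∈ span F (HX F (NQ Q))) : T (a * b) = T a * T b :=
  ta_ext (f := T ∘ₗ LinearMap.mulRight F b) (g := LinearMap.mulRight F (T b) ∘ₗ T) (fun g hg =>
    ta_ext (f := T ∘ₗ LinearMap.mulLeft F (gu F X g)) (g := LinearMap.mulLeft F (T (gu F X g)) ∘ₗ T)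
      (fun g' hg' => by
        change T (gu F X g * gu F X g') = T (gu F X g) * T (gu F X g')
        rw [gu_mul, h.tw, h.tw, h.tw, smul_mul_smul_comm, gu_mul, h.mul g hg g' hg']) hb) ha

/-- every invariant set of elements of the span is mapped onto itself. -/
theorem rcd_onto (h : Om GG Q om T) (P : Set (MonoidAlgebra F X)) (hP : ∀ a ∈ P, T a ∈ P)
    (ha : a ∈ span F (HX F (NQ Q))) (k : a ∈ P) : ∃ b ∈ P, T b = a := by
  have i (n : ℕ) : (T ^ n) a ∈ P := by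
    induction n with
    | zero => exact k
    | succ n ih => rw [pow_succ', Module.End.mul_apply]; exact hP _ ih
  obtain ⟨m, hm⟩ := Nat.exists_eq_succ_of_ne_zero (Nat.card_pos (α := X)).ne'
  refine ⟨_, i m, ?_⟩
  rw [← Module.End.mul_apply, ← pow_succ', ← Nat.succ_eq_add_one, ← hm, rcd_ord h ha]

theorem rcd_cen (h : Om GG Q om T) (ha : a ∈ Cen F (HX F (NQ Q))) : T a ∈ Cen F (HX F (NQ Q)) := by
  refine ⟨rcd_mem h ha.1, fun s hs => ?_⟩
  obtain ⟨b, hb, rfl⟩ := rcd_onto h (span F (HX F (NQ Q))) (fun _ => rcd_mem h) (subset_span hs)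
    (subset_span hs)
  rw [← rcd_mul h ha.1 hb, ← rcd_mul h hb ha.1, Cen_comm ha hb]

theorem rcd_of_fix (h : Om GG Q om T) (ha : a ∈ span F (HX F (NQ Q))) (e : T a = a) :
    a ∈ span F (HX F (CQ Q)) := by
  have := Fintype.ofFinite X
  obtain ⟨c, h0, rfl⟩ := exists_coord ha
  have z := Fintype.linearIndependent_iff.1 (gu_tg (F := F) (X := X)).ind
    (fun g => c g * om g - c g) (by
      simp only [map_sum, map_smul, h.tw, smul_smul] at e
      simp only [sub_smul, Finset.sum_sub_distrib, e, sub_self])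
  refine sum_mem fun g _ => ?_
  by_cases c0 : c g = 0
  · rw [c0, zero_smul]
    exact zero_mem _
  · have hg : g ∈ NQ Q := by_contra fun k => c0 (h0 g k)
    exact smul_mem _ _ (subset_span (mem_Hm ((h.ker g hg).1
      (mul_left_cancel₀ c0 ((sub_eq_zero.1 (z g)).trans (mul_one _).symm)))))

theorem rcd_zero (h : Om GG Q om T) (ha : a ∈ span F (HX F (NQ Q))) (e : T a = 0) : a = 0 := by
  obtain ⟨m, hm⟩ := Nat.exists_eq_succ_of_ne_zero (Nat.card_pos (α := X)).ne'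
  rw [← rcd_ord h ha, hm, pow_succ, Module.End.mul_apply, e, map_zero]

theorem rcd_irr (h : Om GG Q om T) (ha : a ∈ Irr F (HX F (NQ Q))) :
    T a ∈ Irr F (HX F (NQ Q)) := by
  refine ⟨rcd_cen h ha.1, by rw [← rcd_mul h ha.1.1 ha.1.1, ha.2.1],
    fun e => ha.2.2.1 (rcd_zero h ha.1.1 e), fun z hz => ?_⟩
  obtain ⟨b, hb, rfl⟩ := rcd_onto h _ (fun _ => rcd_cen h) hz.1 hz
  obtain ⟨c, e⟩ := ha.2.2.2 b hb
  exact ⟨c, by rw [← rcd_mul h hb.1 ha.1.1, e, map_smul]⟩

end aux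

/-- hint: `T` is multiplicative on the span of `N`, fixes the span of `C`, `T ^ |X| = 1` there. -/
theorem tw_psi (hQ : Nat.card Q = p) (h : Om GG Q om T) (hψ : ψ ∈ Psi F Q) :
    T ψ ∈ Psi F Q ∧ Bk F p Q ψ (T ψ) := by
  have m := hψ.1.1.1
  have c : e0 F Q ∈ span F (HX F (CQ Q)) := span_Hm_mono (rg_le hQ) e0_irr.1.1
  refine ⟨⟨rcd_irr h hψ.1, ?_⟩, ?_⟩
  · rw [← rcd_fix h c, ← rcd_mul h m (span_Hm_mono rcd_le c), hψ.2]
  · obtain ⟨θ, hθ, k, -⟩ := bk_refl (p := p) (Q := Q) hψ.1.2.2.1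
    have d : θ ∈ span F (HX F (CQ Q)) := span_Hm_mono (kp_le Q) hθ.1.1
    have d' : θ ∈ span F (HX F (NQ Q)) := span_Hm_mono rcd_le d
    refine ⟨θ, hθ, k, fun z => k (rcd_zero h (gu_span_mul _ _ m _ d') ?_)⟩
    rw [rcd_mul h m d', rcd_fix h d, z]

theorem tw_inj (h : Om GG Q om T) (ha : a ∈ span F (HX F (NQ Q)))
    (hb : b ∈ span F (HX F (NQ Q))) (e : T a = T b) : a = b :=
  sub_eq_zero.1 (rcd_zero h (sub_mem ha hb) (by rw [map_sub, e, sub_self]))

/-- hint: the sum `s` over the orbit is fixed by `T`, so it lies in the span of `C`; it is a central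
idempotent there and `s (θ e0) = θ e0` (`irrC`, `Irr_idem`). -/
theorem tw_trans (hQ : Nat.card Q = p) (h2 : ¬ p ^ 2 ∣ Nat.card X) (h : Om GG Q om T)
    (hψ : ψ ∈ Psi F Q) (hψ' : ψ' ∈ Psi F Q) (hb : Bk F p Q ψ ψ') : ∃ n : ℕ, (T ^ n) ψ = ψ' := by
  classical
  by_contra hn
  have i (n : ℕ) : (T ^ n) ψ ∈ Irr F (HX F (NQ Q)) := by
    induction n with
    | zero => exact hψ.1
    | succ n ih => rw [pow_succ', Module.End.mul_apply]; exact rcd_irr h ih
  obtain ⟨θ, hθ, k, k'⟩ := hb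
  have c : e0 F Q * θ = θ * e0 F Q := irrQ_comm e0_irr.1.1 (span_Hm_mono (kp_le Q) hθ.1.1)
  obtain ⟨z, hz⟩ : ∃ z, z = ∑ n ∈ Finset.range (Nat.card X), (T ^ n) ψ := ⟨_, rfl⟩
  have z1 : z ∈ span F (HX F (NQ Q)) := hz ▸ sum_mem fun n _ => (i n).1.1
  have z2 : T z = z := by
    have := (Finset.sum_range_succ' (fun n => (T ^ n) ψ) (Nat.card X)).symm.trans
      (Finset.sum_range_succ (fun n => (T ^ n) ψ) (Nat.card X))
    rw [rcd_ord h hψ.1.1.1, pow_zero, Module.End.one_apply, add_left_inj] at this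
    rw [hz, map_sum, ← this]
    exact Finset.sum_congr rfl fun n _ => by rw [pow_succ', Module.End.mul_apply]
  have z3 : z ∈ Cen F (HX F (CQ Q)) := ⟨rcd_of_fix h z1 z2, fun s hs => by
    rw [hz, Finset.sum_mul, Finset.mul_sum]
    exact Finset.sum_congr rfl fun n _ => (i n).1.2 s (Hm_mono rcd_le hs)⟩
  obtain ⟨d, hd⟩ := (irrC hQ h2 e0_irr hθ).2.2.2 z z3
  have z4 : ψ' * z = 0 := by
    rw [hz, Finset.mul_sum]
    exact Finset.sum_eq_zero fun n _ => Irr_orth hψ'.1 (i n) fun e => hn ⟨n, e.symm⟩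
  have d0 : d = 0 := by
    have := congrArg (ψ' * ·) hd
    simp only [← mul_assoc, z4, zero_mul, mul_smul_comm] at this
    rw [mul_assoc, ← c, ← mul_assoc, hψ'.2] at this
    exact (smul_eq_zero.1 this.symm).resolve_right k'
  have z5 : ψ * z = (((Finset.range (Nat.card X)).filter fun n => (T ^ n) ψ = ψ).card : F) • ψ := by
    rw [hz, Finset.mul_sum, ← Finset.sum_boole, Finset.sum_smul]
    refine Finset.sum_congr rfl fun n _ => ?_
    split_ifs with e
    · rw [e, hψ.1.2.1, one_smul]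
    · rw [Irr_orth hψ.1 (i n) (Ne.symm e), zero_smul]
  have := congrArg (ψ * ·) hd
  simp only [← mul_assoc, z5, d0, zero_smul, mul_zero, smul_mul_assoc] at this
  rw [mul_assoc, ← c, ← mul_assoc, hψ.2] at this
  refine (smul_eq_zero.1 this).elim (Nat.cast_ne_zero.2 (Finset.card_ne_zero.2 ⟨0, ?_⟩)) k
  exact Finset.mem_filter.2 ⟨Finset.mem_range.2 Nat.card_pos, rfl⟩

theorem tw_gm (hX : commutator X = ⊤) (hQ : Nat.card Q = p) (h2 : ¬ p ^ 2 ∣ Nat.card X)
    (h : Om GG Q om T) (hγ : γ ∈ Gm GG Q) (ha : a ∈ span F (HX F (NQ Q))) :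
    T (γ a) = γ (T a) := by
  obtain ⟨σ, hσ, α, s, e, q, -⟩ := gm_aut hX hQ h2 hγ
  refine gu_ext σ (NQ Q) (T.toAddMonoidHom.comp γ.toAddMonoidHom)
    (γ.toAddMonoidHom.comp T.toAddMonoidHom) (fun c a => ?_) (fun c a => ?_) (fun g hg => ?_) a ha
  · change T (γ (c • a)) = σ c • T (γ a)
    rw [s, map_smul]
  · change γ (T (c • a)) = σ c • γ (T a)
    rw [map_smul, s]
  · change T (γ _) = γ (T _)
    rw [e, h.tw, h.tw, s, e, h.aut α q g hg, h.gal σ hσ g hg]

end Pool.Agent.Lib.MP_1ae3da_al.CT
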