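import Pool.Agent.Lib.MP_1ae3da_al.C.RCf
import Pool.Agent.Lib.MP_1ae3da_al.C.RCg
import Pool.Agent.Lib.MP_1ae3da_al.C.RCtw
import Pool.Agent.Lib.MP_1ae3da_al.C.RWlk
import Pool.Agent.Lib.MP_1ae3da_al.C.RCha

/-! The bijection with links, from the types. -/

namespace Pool.Agent.Lib.MP_1ae3da_al.CT

open Submodule

variable {p : ℕ} {F X : Type} [Field F] [CharZero F] [IsAlgClosed F] [Group X] [Finite X]
  [Fact p.Prime] {Q : Subgroup X} {e e' ε ε' θ θ' i i' ψ ψ' η η' x y a b : MonoidAlgebra F X}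

variable {k : Type} [Field k] {O R : Subring F} {r : F → k} {GG : Subgroup (RingAut F)}
  {γ : RingAut (MonoidAlgebra F X)} {σ : RingAut F}

variable {om : X → F} {T : MonoidAlgebra F X →ₗ[F] MonoidAlgebra F X}
  {Ty : Set (MonoidAlgebra F X) → MonoidAlgebra F X → Bool → Prop}

omit [CharZero F] [IsAlgClosed F] [Finite X] [Fact p.Prime] in
theorem rch_symm (h : Bk F p Q x y) : Bk F p Q y x := h.imp fun _ h => ⟨h.1, h.2.2, h.2.1⟩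

theorem rch_trans (hy : y ∈ Irr F (HX F (NQ Q))) (ha : a ∈ Irr F (HX F (NQ Q)))
    (h : Bk F p Q x y) (h' : Bk F p Q y a) : Bk F p Q x a := by
  obtain ⟨θ, h1, h2, h3⟩ := h
  exact ⟨θ, h1, h2, bk_over hy ha h' h1 h3⟩

theorem rch_eta (hQ : Nat.card Q = p) (h2 : ¬ p ^ 2 ∣ Nat.card X) (hx : x ≠ 0) :
    ∃ η ∈ Eta F Q, Bk F p Q x η := by
  obtain ⟨θ, h1, h3, -⟩ := bk_refl (p := p) (Q := Q) hx
  obtain ⟨ε, h4, h5⟩ := irrQ_ne (F := F) hQ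
  obtain ⟨η, h6, h7, -⟩ := eta_ex hQ h2 h1 h4 h5
  refine ⟨η, h6, θ, h1, h3, fun h8 => (irrC hQ h2 h4 h1).2.2.1 ?_⟩
  rw [← h7, ← mul_assoc, h8, zero_mul]

omit [CharZero F] [IsAlgClosed F] [Finite X] in
theorem rch_self : e ∈ Orb O GG e := ⟨1, one_mem _, rfl⟩

omit [CharZero F] [IsAlgClosed F] [Finite X] in
theorem rch_orb (h : e' ∈ Orb O GG e) : Orb O GG e = Orb O GG e' := by
  obtain ⟨δ, hδ, rfl⟩ := h
  ext z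
  exact ⟨fun ⟨g, hg, h⟩ => ⟨g * δ⁻¹, mul_mem hg (inv_mem hδ), h.trans (congrArg g (tc_ia δ e).symm)⟩,
    fun ⟨g, hg, h⟩ => ⟨g * δ, mul_mem hg hδ, h⟩⟩

theorem rch_mem (hQ : Nat.card Q = p) (h2 : ¬ p ^ 2 ∣ Nat.card X) (hT : TyS O GG p Q T Ty)
    {v : Set (MonoidAlgebra F X)} {s : Bool} (ht : Ty v ψ s) (he : e ∈ v) :
    v = Orb O GG e ∧ e ∈ IrrP F p (HX F (⊤ : Subgroup X)) := by
  obtain ⟨⟨e₀, h0, rfl⟩, -⟩ := hT.dom _ _ _ ht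
  have h1 : e ∈ Irr F (HX F (⊤ : Subgroup X)) := by
    obtain ⟨δ, hδ, rfl⟩ := he
    have h3 := g0_le (Q := Q) hδ
    exact (irr_stb h3.1.1 h3.1.2).2 h0
  exact ⟨rch_orb he, h1, (irrP_iff hQ h2 hT h1).2 ⟨ψ, s, rch_orb he ▸ ht⟩⟩

theorem rch_blk (hQ : Nat.card Q = p) (h2 : ¬ p ^ 2 ∣ Nat.card X) (hO : Om GG Q om T)
    (hT : TyS O GG p Q T Ty) {v : Set (MonoidAlgebra F X)} {s s' : Bool} (ht : Ty v ψ s)
    (ht' : Ty v ψ' s') : Bk F p Q ψ ψ' := by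
  obtain ⟨η, hη, hb⟩ := rch_eta hQ h2 (hT.dom _ _ _ ht).2.1.2.2.1
  refine rch_trans hη.1 (hT.dom _ _ _ ht').2.1 hb (rch_symm ?_)
  by_contra hc
  have h1 := (orb_ty hQ h2 hO hT ht hη).1 hb
  rw [(orb_ty hQ h2 hO hT ht' hη).2 hc] at h1
  cases s <;> simp at h1

theorem rch_fin : (Psi F Q).Finite := by
  obtain ⟨s, hs, -⟩ := (nice_Hm0 (gu_tg (F := F) (X := X)) (NQ Q)).irr_sum
  exact s.finite_toSet.subset fun x hx => hs ▸ hx.1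

theorem rch_pow (hQ : Nat.card Q = p) (hO : Om GG Q om T) (hψ : ψ ∈ Psi F Q) (n : ℕ) :
    T^[n] ψ ∈ Psi F Q ∧ Bk F p Q ψ (T^[n] ψ) := by
  induction n with
  | zero => exact ⟨hψ, bk_refl hψ.1.2.2.1⟩
  | succ n ih =>
    rw [Function.iterate_succ_apply']
    have h1 := tw_psi hQ hO ih.1
    exact ⟨h1.1, rch_trans ih.1.1 h1.1.1 ih.2 h1.2⟩

theorem rch_some (h : PM p O R r GG) (hX : commutator X = ⊤) (hQ : Nat.card Q = p)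
    (h2 : ¬ p ^ 2 ∣ Nat.card X) (hO : Om GG Q om T) (hT : TyS O GG p Q T Ty)
    (hη : η ∈ Eta F Q) : ∃ v ψ s, Ty v ψ s ∧ Bk F p Q ψ η := by
  have h1 := (blk_count h hX hQ h2 hO hT hη {v | ∃ ψ s, Ty v ψ s ∧ Bk F p Q ψ η}
    fun _ => Iff.rfl).1
  exact Set.nonempty_of_ncard_ne_zero (h1 ▸ Nat.succ_ne_zero _)

theorem rch_ex (h : PM p O R r GG) (hX : commutator X = ⊤) (hQ : Nat.card Q = p)
    (h2 : ¬ p ^ 2 ∣ Nat.card X) (hO : Om GG Q om T) (hT : TyS O GG p Q T Ty)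
    (hψ : ψ ∈ Psi F Q) (s : Bool) : ∃ v, Ty v ψ s := by
  have h0 : ∀ ψ ∈ Psi F Q, ∃ v, Ty v ψ false := by
    intro ψ hψ
    obtain ⟨η, hη, hb⟩ := rch_eta hQ h2 hψ.1.2.2.1
    obtain ⟨v, x, s, h1, h3⟩ := rch_some h hX hQ h2 hO hT hη
    obtain ⟨n, rfl⟩ := tw_trans hQ h2 hO (hT.dom _ _ _ h1).2 hψ
      (rch_trans hη.1 hψ.1 h3 (rch_symm hb))
    rw [Module.End.pow_apply]
    clear hb hψ
    induction n with
    | zero =>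
      cases s
      · exact ⟨v, h1⟩
      · exact hT.w1 _ _ h1
    | succ n ih =>
      obtain ⟨w, hw⟩ := ih
      obtain ⟨w', -, h4, -⟩ := hT.w2 _ _ hw
      rw [Function.iterate_succ_apply']
      exact hT.w1 _ _ h4
  cases s
  · exact h0 ψ hψ
  · obtain ⟨x, hx, rfl⟩ := (rch_fin.injOn_iff_bijOn_of_mapsTo
      (fun x hx => (tw_psi hQ hO hx).1)).1 (fun x hx y hy => tw_inj hO hx.1.1.1 hy.1.1.1) |>.2.2 hψ
    obtain ⟨v, hv⟩ := h0 x hx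
    obtain ⟨w, -, h1, -⟩ := hT.w2 _ _ hv
    exact ⟨w, h1⟩

theorem r5_of_ty (h : PM p O R r GG) (hX : commutator X = ⊤) (hQ : Nat.card Q = p)
    (h2 : ¬ p ^ 2 ∣ Nat.card X) (hO : Om GG Q om T) (hT : TyS O GG p Q T Ty) :
    ML F p GG (HX F ⊤) (HX F (NQ Q)) := by
  have he0 : ∀ γ ∈ Gm GG Q, γ (e0 F Q) = e0 F Q := fun γ hγ => by
    obtain ⟨-, -, -, -, -, -, -, -, -, h1⟩ := gm_aut hX hQ h2 hγ
    exact h1
  have hP : ∀ γ ∈ Gm GG Q, ∀ x ∈ Psi F Q, γ x ∈ Psi F Q := fun γ hγ x hx =>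
    ⟨(irr_stb hγ.1.1 hγ.2).2 hx.1, by rw [← he0 γ hγ, ← map_mul, hx.2]⟩
  have hE : ∀ γ ∈ Gm GG Q, ∀ x ∈ Eta F Q, γ x ∈ Eta F Q := fun γ hγ x hx =>
    ⟨(irr_stb hγ.1.1 hγ.2).2 hx.1, by rw [← he0 γ hγ, ← map_mul, hx.2, map_zero]⟩
  have hd : ∀ x ∈ Psi F Q, x ∉ Eta F Q := fun x hx hx' => hx.1.2.2.1 (hx.2.symm.trans hx'.2)
  have hW : ∀ x ∈ Psi F Q, ∀ η ∈ Eta F Q, Bk F p Q x η → ∀ v,
      v ∈ {v | ∃ y s, Ty v y s ∧ Bk F p Q x y} ↔ ∃ y s, Ty v y s ∧ Bk F p Q y η :=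
    fun x hx η hη hb v => exists₂_congr fun y s => and_congr_right fun ht =>
      ⟨fun h1 => rch_trans hx.1 hη.1 (rch_symm h1) hb,
        fun h1 => rch_trans hη.1 (hT.dom _ _ _ ht).2.1 hb (rch_symm h1)⟩
  obtain ⟨ρ, m, r1, r2, r3, r4, r5, r6, r7, r8, r9⟩ := rcha_rm (Gm GG Q) rch_fin
    (B := Bk F p Q) (T := T) (Ty := Ty) hP (fun x hx => (tw_psi hQ hO hx).1)
    (fun x hx y hy => tw_inj hO hx.1.1.1 hy.1.1.1)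
    (fun γ hγ x hx => tw_gm hX hQ h2 hO hγ hx.1.1.1)
    (fun x hx y hy => ⟨fun hb => (tw_trans hQ h2 hO hx hy hb).imp fun n hn => by
      rwa [Module.End.pow_apply] at hn, fun ⟨n, hn⟩ => hn ▸ (rch_pow hQ hO hx n).2⟩)
    (fun v x s ht => (hT.dom v x s ht).2) (fun x hx s => rch_ex h hX hQ h2 hO hT hx s)
    hT.uniq hT.w2 hT.eqv (fun v x s y s' ht ht' => rch_blk hQ h2 hO hT ht ht')
    (fun x hx => by
      obtain ⟨η, hη, hb⟩ := rch_eta hQ h2 hx.1.2.2.1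
      rw [(blk_count h hX hQ h2 hO hT hη _ (hW x hx η hη hb)).1]
      congr 2
      ext y
      exact and_congr_right fun hy => ⟨fun h1 => rch_trans hη.1 hy.1 hb (rch_symm h1),
        fun h1 => rch_trans hx.1 hη.1 (rch_symm h1) hb⟩)
    (fun x hx v y s w z s' h1 h3 h4 h5 => by
      obtain ⟨η, hη, hb⟩ := rch_eta hQ h2 hx.1.2.2.1
      exact (blk_count h hX hQ h2 hO hT hη _ (hW x hx η hη hb)).2.2.1 v ⟨y, s, h1, h3⟩ w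
        ⟨z, s', h4, h5⟩)
  have hm : ∀ x ∈ Psi F Q, ∀ e ∈ m x, m x = Orb O GG e ∧ e ∈ IrrP F p (HX F (⊤ : Subgroup X)) :=
    fun x hx e he => (r7 x hx).elim fun s ht => rch_mem hQ h2 hT ht he
  have hρ : ∀ x ∈ Psi F Q, ∀ e ∈ ρ x, ρ x = Orb O GG e ∧ e ∈ IrrP F p (HX F (⊤ : Subgroup X)) :=
    fun x hx e he => by
      obtain ⟨y, s, ht, -⟩ := r4 x hx
      exact rch_mem hQ h2 hT ht he
  have hs : ∀ x ∈ Psi F Q, (m x).Subsingleton := fun x hx => by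
    obtain ⟨s, ht⟩ := r7 x hx
    exact Set.not_nontrivial_iff.1 fun hn =>
      r8 x hx x hx (r5 x hx _ x s ht (bk_refl hx.1.2.2.1) hn).symm
  have hb1 : ∀ x ∈ Psi F Q, ∀ e ∈ ρ x, ∀ η ∈ Eta F Q, mz F p Q e η ≠ 0 → Bk F p Q x η ∧
      (mz F p Q e η = 1 ∨ mz F p Q e η = -1) := fun x hx e he η hη hz => by
    obtain ⟨⟨y, s, h1, h3⟩, h4⟩ := (blk_count h hX hQ h2 hO hT hη
      {v | ∃ ψ s, Ty v ψ s ∧ Bk F p Q ψ η} fun _ => Iff.rfl).2.1 e (hρ x hx e he).2.1 hz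
    obtain ⟨z, s', h5, h6⟩ := r4 x hx
    rw [← (hρ x hx e he).1] at h1
    exact ⟨rch_trans (hT.dom _ _ _ h1).2.1 hη.1 (rch_trans (hT.dom _ _ _ h5).2.1
      (hT.dom _ _ _ h1).2.1 h6 (rch_blk hQ h2 hO hT h5 h1)) h3, h4⟩
  have hb2 := fun x (hx : x ∈ Psi F Q) η (hη : η ∈ Eta F Q) (hb : Bk F p Q x η) =>
    (blk_count h hX hQ h2 hO hT hη _ (hW x hx η hη hb)).2.2.2 (ρ x) (r4 x hx)
      fun v ⟨y, s, h1, h3⟩ hn => (r5 x hx v y s h1 h3 hn).symm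
  refine rcha_lk (fun e x => (x ∈ Psi F Q ∧ e ∈ m x) ∨
      (x ∈ Eta F Q ∧ (∃ y ∈ Psi F Q, e ∈ ρ y) ∧ mz F p Q e x ≠ 0))
    (fun γ hγ e he => (irrP_stb hγ.1.1 hγ.1.2).2 he) (fun e x hr => ?_) (fun e he => ?_)
    (fun x hx => ?_) (fun γ hγ e x hr => ?_) (fun e x hr => ?_)
  · rcases hr with ⟨hx, he⟩ | ⟨hx, ⟨y, hy, he⟩, -⟩
    · exact ⟨(hm x hx e he).2, hx.1, irrN_ndvd hQ h2 hx.1⟩
    · exact ⟨(hρ y hy e he).2, hx.1, irrN_ndvd hQ h2 hx.1⟩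
  · obtain ⟨y, s, ht⟩ := (irrP_iff hQ h2 hT he.1).1 he.2
    have hy := (hT.dom _ _ _ ht).2
    rcases r9 _ y s ht with h1 | ⟨x, hx, h1⟩
    · have h3 : e ∈ ρ y := h1 ▸ rch_self
      obtain ⟨η, hη, hb⟩ := rch_eta hQ h2 hy.1.2.2.1
      obtain ⟨x, ⟨h4, h5, h6⟩, h7⟩ := (hb2 y hy η hη hb).1 e h3
      refine ⟨x, Or.inr ⟨h4, ⟨y, hy, h3⟩, h6⟩, ?_⟩
      rintro z (⟨hz, h8⟩ | ⟨hz, -, h8⟩)
      · exact absurd ((hm z hz e h8).1.trans h1) (r8 z hz y hy)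
      · exact h7 z ⟨hz, rch_trans hy.1 hz.1 (rch_symm hb) (hb1 y hy e h3 z hz h8).1, h8⟩
    · refine ⟨x, Or.inl ⟨hx, h1 ▸ rch_self⟩, ?_⟩
      rintro z (⟨hz, h8⟩ | ⟨-, ⟨w, hw, h8⟩, -⟩)
      · exact r6 hz hx ((hm z hz e h8).1.trans h1.symm)
      · exact absurd (h1.trans (hρ w hw e h8).1.symm) (r8 x hx w hw)
  · rcases psi_or_eta hx.1 with hx | hx
    · obtain ⟨s, ht⟩ := r7 x hx
      obtain ⟨⟨e, -, h1⟩, -⟩ := hT.dom _ _ _ ht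
      have h3 : e ∈ m x := h1 ▸ rch_self
      refine ⟨e, Or.inl ⟨hx, h3⟩, ?_⟩
      rintro z (⟨-, h4⟩ | ⟨h4, -⟩)
      · exact hs x hx h4 h3
      · exact absurd h4 (hd x hx)
    · obtain ⟨v, y, s, ht, hb⟩ := rch_some h hX hQ h2 hO hT hx
      have hy := (hT.dom _ _ _ ht).2
      obtain ⟨e, ⟨h1, h3⟩, h4⟩ := (hb2 y hy x hx hb).2 x hx (bk_refl hx.1.2.2.1)
      refine ⟨e, Or.inr ⟨hx, ⟨y, hy, h1⟩, h3⟩, ?_⟩
      rintro z (⟨h5, -⟩ | ⟨-, ⟨w, hw, h5⟩, h6⟩)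
      · exact absurd hx (hd x h5)
      · exact h4 z ⟨r3 w hw y hy (rch_trans hx.1 hy.1 (hb1 w hw z h5 x hx h6).1 (rch_symm hb)) ▸ h5,
          h6⟩
  · rcases hr with ⟨hx, he⟩ | ⟨hx, ⟨y, hy, he⟩, hz⟩
    · exact Or.inl ⟨hP γ hγ x hx, r2 γ hγ x hx ▸ Set.mem_image_of_mem γ he⟩
    · exact Or.inr ⟨hE γ hγ x hx, ⟨γ y, hP γ hγ y hy, r1 γ hγ y hy ▸ Set.mem_image_of_mem γ he⟩,
        by rwa [mz_gm hX hQ h2 hγ (hρ y hy e he).2.1 hx]⟩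
  · rcases hr with ⟨hx, he⟩ | ⟨hx, ⟨y, hy, he⟩, hz⟩
    · obtain ⟨s, ht⟩ := r7 x hx
      rw [(hs x hx).eq_singleton_of_mem he] at ht
      exact hT.ln e x s ht (hm x hx e he).2 ⟨hx.1, irrN_ndvd hQ h2 hx.1⟩
    · exact root_link hX hQ h2 (hρ y hy e he).2 hx (hb1 y hy e he x hx hz).2

end Pool.Agent.Lib.MP_1ae3da_al.CT
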