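import Pool.Agent.Lib.MP_1ae3da_al.C.RTy
import Pool.Agent.Lib.MP_1ae3da_al.C.RCh

/-! Perfect groups with a Sylow subgroup of prime order. -/

namespace Pool.Agent.Lib.MP_1ae3da_al.CT

open Submodule R5

variable {p : ℕ} {F k A : Type} [Field F] [Field k] [Ring A] [Algebra F A] {O R : Subring F}
  {r : F → k} {GG : Subgroup (RingAut F)}

theorem r5 (h : PM p O R r GG) (X : Type) [Group X] [Finite X] (hX : commutator X = ⊤)
    (h1 : p ∣ Nat.card X) (h2 : ¬ p ^ 2 ∣ Nat.card X) (Q : Sylow p X) :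
    ML F p GG (Hm F (gu F X) ⊤) (Hm F (gu F X) (Subgroup.normalizer (Q : Set X))) := by
  have := h.charF
  have := h.algF
  have := Fact.mk h.prime
  have hQ : Nat.card (Q : Subgroup X) = p := rg_card h1 h2 Q
  obtain ⟨om, T, Ty, hO, hT⟩ := r5_ty h X hX (Q : Subgroup X) hQ h2
  exact r5_of_ty h hX hQ h2 hO hT

end Pool.Agent.Lib.MP_1ae3da_al.CT
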