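import Pool.Agent.Lib.MP_1ae3da_al.C.SerJ

/-! A class of finite groups closed under isomorphism and extension that contains the alternating
groups and the groups of order not divisible by `p ^ 2` contains every subgroup of index prime to
`p` of a symmetric group (`p` odd). -/

namespace Pool.Agent.Lib.MP_1ae3da_al.CT

open Equiv Equiv.Perm MulAction
open scoped Pointwise

/-- the closure properties of a class `C` of groups -/
structure Cls (p : ℕ) (C : ∀ (G : Type) [Group G], Prop) : Prop where
  small : ∀ (G : Type) [Group G], ¬ p ^ 2 ∣ Nat.card G → C G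
  alt : ∀ n : ℕ, C (alternatingGroup (Fin n))
  iso : ∀ (G K : Type) [Group G] [Group K], (G ≃* K) → C G → C K
  ext : ∀ (G : Type) [Group G] [Finite G] (N : Subgroup G) [N.Normal], C N → C (G ⧸ N) → C G

/-- all subgroups of index prime to `p` lie in `C` -/
def Good (p : ℕ) (C : ∀ (G : Type) [Group G], Prop) (G : Type) [Group G] : Prop :=
  ∀ H : Subgroup G, ¬ p ∣ H.index → C H

variable {p : ℕ} {C : ∀ (G : Type) [Group G], Prop}

theorem Cls.hom (hC : Cls p C) {G K : Type} [Group G] [Finite G] [Group K] (f : G →* K)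
    (h1 : C f.ker) (h2 : C f.range) : C G :=
  hC.ext G f.ker h1 (hC.iso _ _ (QuotientGroup.quotientKerEquivRange f).symm h2)

theorem clsi_rel {G : Type} [Group G] [Finite G] (H N : Subgroup G) [N.Normal] :
    H.relIndex N ∣ H.index := by
  have h1 : (H ⊓ N).relIndex H * H.index = (H ⊓ N).index :=
    Subgroup.relIndex_mul_index inf_le_left
  have h2 : (H ⊓ N).relIndex N * N.index = (H ⊓ N).index :=
    Subgroup.relIndex_mul_index inf_le_right
  have h3 : N.relIndex (H ⊔ N) * (H ⊔ N).index = N.index :=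
    Subgroup.relIndex_mul_index le_sup_right
  rw [Subgroup.relIndex_sup_right] at h3
  rw [Subgroup.inf_relIndex_left] at h1
  rw [Subgroup.inf_relIndex_right, ← h3, ← h1] at h2
  have h4 : N.relIndex H ≠ 0 := Subgroup.index_ne_zero_of_finite
  refine ⟨(H ⊔ N).index, Nat.eq_of_mul_eq_mul_left (Nat.pos_of_ne_zero h4) ?_⟩
  rw [← h2]; ring

theorem Good.iso (hC : Cls p C) {G K : Type} [Group G] [Group K] (e : G ≃* K)
    (h : Good p C G) : Good p C K := by
  intro H hH
  have h1 : (H.comap e.toMonoidHom).index = H.index :=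
    Subgroup.index_comap_of_surjective _ e.surjective
  refine hC.iso _ _ ?_ (h (H.comap e.toMonoidHom) (by rwa [h1]))
  exact (e.subgroupMap _).trans
    (MulEquiv.subgroupCongr (Subgroup.map_comap_eq_self_of_surjective e.surjective H))

/-- a subgroup of `G` that lies in a good subgroup -/
theorem Good.of_le (hC : Cls p C) {G : Type} [Group G] {H W : Subgroup G} (hW : Good p C W)
    (hle : H ≤ W) (hH : ¬ p ∣ H.index) : C H :=
  hC.iso _ _ (Subgroup.subgroupOfEquivOfLe hle)
    (hW _ fun h => hH (h.trans (Subgroup.relIndex_dvd_index_of_le hle)))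

/-- `Good` is closed under extension -/
theorem Good.hom (hC : Cls p C) {G K : Type} [Group G] [Finite G] [Group K] (f : G →* K)
    (hf : Function.Surjective f) (h1 : Good p C f.ker) (h2 : Good p C K) : Good p C G := by
  intro H hH
  refine hC.hom (f.domRestrict H) ?_ ?_
  · have h3 := h1 (H.subgroupOf f.ker) fun h => hH (h.trans (clsi_rel H f.ker))
    refine hC.iso _ _ ?_ h3
    rw [MonoidHom.ker_domRestrict, ← Subgroup.inf_subgroupOf_left H f.ker,
      ← Subgroup.inf_subgroupOf_right f.ker H]
    exact (Subgroup.subgroupOfEquivOfLe inf_le_left).trans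
      (Subgroup.subgroupOfEquivOfLe inf_le_right).symm
  · rw [MonoidHom.domRestrict_range]
    exact h2 _ fun h => hH (h.trans (H.index_map_dvd hf))

theorem Good.ext (hC : Cls p C) {G : Type} [Group G] [Finite G] (N : Subgroup G) [N.Normal]
    (h1 : Good p C N) (h2 : Good p C (G ⧸ N)) : Good p C G :=
  Good.hom hC (QuotientGroup.mk' N) (QuotientGroup.mk'_surjective N)
    (Good.iso hC (MulEquiv.subgroupCongr (QuotientGroup.ker_mk' N).symm) h1) h2

theorem Good.small (hC : Cls p C) {G : Type} [Group G] (h : ¬ p ^ 2 ∣ Nat.card G) :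
    Good p C G := fun H _ =>
  hC.small _ fun h1 => h (h1.trans H.card_subgroup_dvd_card)

/-- permutations that keep the colour and move only points with colour in `s` -/
def Yg {α Q : Type} (q : α → Q) (s : Set Q) : Subgroup (Perm α) where
  carrier := {g | (∀ a, q (g a) = q a) ∧ ∀ a, q a ∉ s → g a = a}
  mul_mem' := fun {g h} hg hh =>
    ⟨fun a => by rw [Perm.mul_apply, hg.1, hh.1],
      fun a ha => by rw [Perm.mul_apply, hh.2 a ha, hg.2 a ha]⟩
  one_mem' := ⟨fun _ => rfl, fun _ _ => rfl⟩
  inv_mem' := fun {g} hg =>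
    ⟨fun a => by rw [← hg.1 (g⁻¹ a)]; simp,
      fun a ha => by rw [Perm.inv_eq_iff_eq, hg.2 a ha]⟩

/-- restriction to one colour -/
def Yg.res {α Q : Type} (q : α → Q) (s : Set Q) (c : Q) : Yg q s →* Perm {a // q a = c} :=
  MonoidHom.mk' (fun g => g.1.subtypePerm fun a => by rw [g.2.1]) fun _ _ => by
    ext a; rfl

theorem Yg.good (hp : p.Prime) (hC : Cls p C) {α Q : Type} [Finite α] (q : α → Q)
    (hq : ∀ c, Good p C (Perm {a // q a = c})) (s : Set Q) (hs : s.Finite) :
    Good p C (Yg q s) := by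
  classical
  induction s, hs using Set.Finite.induction_on with
  | empty =>
    apply Good.small hC
    have : Yg q ∅ = ⊥ := by
      rw [eq_bot_iff]
      intro g hg
      rw [Subgroup.mem_bot]
      ext a
      exact hg.2 a (by simp)
    rw [this, Subgroup.card_bot, Nat.dvd_one]
    have := hp.two_le
    nlinarith
  | @insert c s hc _ ih =>
    refine Good.hom hC (Yg.res q (insert c s) c) (fun τ => ?_) ?_ (hq c)
    · refine ⟨⟨ofSubtype τ, fun a => ?_, fun a ha => ?_⟩, ?_⟩
      · by_cases h : q a = c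
        · rw [ofSubtype_apply_of_mem τ h, h]; exact (τ ⟨a, h⟩).2
        · rw [ofSubtype_apply_of_not_mem τ h]
      · exact ofSubtype_apply_of_not_mem τ fun h => ha (by simp [h])
      · ext a
        exact ofSubtype_apply_of_mem τ a.2
    · have hle : Yg q s ≤ Yg q (insert c s) := fun g hg =>
        ⟨hg.1, fun a ha => hg.2 a fun h => ha (Set.mem_insert_of_mem _ h)⟩
      have hk : (Yg q s).subgroupOf (Yg q (insert c s)) = (Yg.res q (insert c s) c).ker := by
        ext g
        rw [Subgroup.mem_subgroupOf, MonoidHom.mem_ker]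
        constructor
        · intro hg
          ext a
          exact hg.2 a (by rw [a.2]; exact hc)
        · intro hg
          refine ⟨g.2.1, fun a ha => ?_⟩
          by_cases h : q a = c
          · exact congrArg Subtype.val (Perm.congr_fun hg ⟨a, h⟩)
          · exact g.2.2 a (by simp [h, ha])
      rw [← hk]
      exact Good.iso hC (Subgroup.subgroupOfEquivOfLe hle).symm ih

/-- pairs of a permutation and the permutation of the colours it induces -/
def Wr {α Q : Type} (q : α → Q) : Subgroup (Perm α × Perm Q) where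
  carrier := {x | ∀ a, q (x.1 a) = x.2 (q a)}
  mul_mem' := fun {g h} hg hh a => by
    simp only [Prod.fst_mul, Prod.snd_mul, Perm.mul_apply]
    rw [hg, hh]
  one_mem' := fun _ => rfl
  inv_mem' := fun {g} hg a => by
    simp only [Prod.fst_inv, Prod.snd_inv]
    rw [Perm.eq_inv_iff_eq, ← hg]; simp

theorem Wr.good (hp : p.Prime) (hC : Cls p C) {α Q : Type} [Finite α] [Finite Q] (q : α → Q)
    (hq : ∀ c, Good p C (Perm {a // q a = c})) (hQ : Good p C (Perm Q))
    (he : ∀ c d, Nonempty ({a // q a = c} ≃ {a // q a = d})) : Good p C (Wr q) := by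
  refine Good.hom hC ((MonoidHom.snd _ _).domRestrict (Wr q)) (fun σ => ?_) ?_ hQ
  · let e : ∀ c, {a // σ (q a) = c} ≃ {b // q b = c} := fun c =>
      (Equiv.subtypeEquivRight fun a => σ.eq_symm_apply.symm).trans (he _ _).some
    exact ⟨⟨(Equiv.ofFiberEquiv e, σ), fun a => Equiv.ofFiberEquiv_map e a⟩, rfl⟩
  · refine Good.iso hC ?_ (Yg.good hp hC q hq Set.univ Set.finite_univ)
    exact
      { toFun := fun g => ⟨⟨(g.1, 1), g.2.1⟩, rfl⟩
        invFun := fun x => ⟨x.1.1.1, fun a => by
          have h1 : x.1.1.2 = 1 := x.2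
          rw [x.1.2 a, h1]; rfl, fun a ha => absurd (Set.mem_univ _) ha⟩
        left_inv := fun g => rfl
        right_inv := fun x => by
          have h1 : x.1.1.2 = 1 := x.2
          exact Subtype.ext (Subtype.ext (Prod.ext rfl h1.symm))
        map_mul' := fun g h => Subtype.ext (Subtype.ext (Prod.ext rfl (mul_one (1 : Perm Q)).symm)) }

/-- a subgroup that permutes the colours -/
theorem Wr.sub (hC : Cls p C) {α Q : Type} (q : α → Q) (hs : Function.Surjective q)
    (hW : Good p C (Wr q)) (H : Subgroup (Perm α)) (hH : ¬ p ∣ H.index)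
    (hq : ∀ g ∈ H, ∃ σ : Perm Q, ∀ a, q (g a) = σ (q a)) : C H := by
  let f : Wr q →* Perm α := (MonoidHom.fst _ _).domRestrict (Wr q)
  have hf : Function.Injective f := by
    rw [injective_iff_map_eq_one]
    intro x hx
    have h1 : x.1.1 = 1 := hx
    refine Subtype.ext (Prod.ext h1 ?_)
    ext c
    obtain ⟨a, rfl⟩ := hs c
    rw [← x.2 a, h1]; rfl
  refine Good.of_le hC (Good.iso hC (MonoidHom.ofInjective hf) hW) (fun g hg => ?_) hH
  obtain ⟨σ, hσ⟩ := hq g hg
  exact ⟨⟨(g, σ), hσ⟩, rfl⟩

theorem cls_fact (hp : p.Prime) {n : ℕ} (hn : n < 2 * p) : ¬ p ^ 2 ∣ n.factorial := by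
  have h2 := hp.two_le
  have hl : Nat.log p n < 2 := Nat.log_lt_of_lt_pow' (by norm_num) (by nlinarith)
  rw [hp.pow_dvd_factorial_iff hl]
  have : n / p < 2 := (Nat.div_lt_iff_lt_mul hp.pos).mpr hn
  simpa using this

theorem Cls.alt' (hC : Cls p C) (α : Type) [Fintype α] [DecidableEq α] :
    C (alternatingGroup α) :=
  hC.iso _ _ (Fintype.equivFin α).symm.altCongrHom (hC.alt _)

theorem Cls.of_alt_le (hp : p.Prime) (hC : Cls p C) {α : Type} [Fintype α] [DecidableEq α]
    (H : Subgroup (Perm α)) (h : alternatingGroup α ≤ H) : C H := by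
  refine hC.hom (Perm.sign.domRestrict H) ?_ (hC.small _ fun h1 => ?_)
  · rw [MonoidHom.ker_domRestrict]
    exact hC.iso _ _ (Subgroup.subgroupOfEquivOfLe h).symm (hC.alt' α)
  · have h2 := h1.trans (Subgroup.card_subgroup_dvd_card _)
    rw [Nat.card_eq_fintype_card, Fintype.card_units_int] at h2
    have h3 := Nat.le_of_dvd (by norm_num) h2
    have := hp.two_le
    nlinarith

theorem cls_good (hp : p.Prime) (hC : Cls p C) (n : ℕ) :
    ∀ (α : Type) [Finite α], Nat.card α = n → Good p C (Perm α) := by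
  induction n using Nat.strong_induction_on with
  | _ n ih =>
  intro α _ hn H hH
  classical
  have := Fintype.ofFinite α
  by_cases h2 : n < 2 * p
  · exact Good.small hC (by rw [Nat.card_perm, hn]; exact cls_fact hp h2) H hH
  have fib : ∀ {Q : Type} (q : α → Q), (∀ c, ∃ a, q a ≠ c) →
      ∀ c, Good p C (Perm {a // q a = c}) := fun q hq c => by
    obtain ⟨a, ha⟩ := hq c
    refine ih _ ?_ _ rfl
    rw [← hn, Nat.card_eq_fintype_card, Nat.card_eq_fintype_card]
    exact Fintype.card_subtype_lt (x := a) ha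
  by_cases ht : IsPretransitive H α
  swap
  · let q : α → orbitRel.Quotient H α := Quotient.mk''
    have hq : ∀ c, ∃ a, q a ≠ c := fun c => by
      by_contra hc
      push Not at hc
      refine ht ⟨fun x y => ?_⟩
      exact Quotient.exact' ((hc y).trans (hc x).symm)
    refine Good.of_le hC (Yg.good hp hC q (fib q hq) Set.univ Set.finite_univ)
      (fun g hg => ⟨fun a => ?_, fun a ha => absurd (Set.mem_univ _) ha⟩) hH
    exact Quotient.sound' ⟨⟨g, hg⟩, rfl⟩
  by_cases hb : ∀ {B : Set α}, IsBlock H B → IsTrivialBlock B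
  · refine hC.of_alt_le hp H (cls_jordan hp ?_ H ⟨hb⟩ hH)
    rw [← Nat.card_eq_fintype_card, hn]; omega
  push Not at hb
  obtain ⟨B, hB, hB'⟩ := hb
  have hB1 : ¬ B.Subsingleton := fun h => hB' (Or.inl h)
  have hB2 : B ≠ Set.univ := fun h => hB' (Or.inr h)
  obtain ⟨x, hx, y, hy, hxy⟩ := Set.not_subsingleton_iff.mp hB1
  have hsys := (hB.isBlockSystem ⟨x, hx⟩).1.2
  choose q0 hq0 hq1 using hsys
  let q : α → orbit H B := fun a => ⟨q0 a, (hq0 a).1⟩
  have key : ∀ (a : α) (c : orbit H B), q a = c ↔ a ∈ c.1 := fun a c =>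
    ⟨fun h => h ▸ (hq0 a).2, fun h => Subtype.ext (hq1 a c.1 ⟨c.2, h⟩).symm⟩
  have eqv : ∀ (g : H) (a : α), q (g • a) = g • q a := fun g a => by
    rw [key]
    exact Set.smul_mem_smul_set ((key a _).mp rfl)
  let c0 : orbit H B := ⟨B, mem_orbit_self B⟩
  have tr : ∀ c : orbit H B, ∃ g : H, g • c0 = c := fun c => by
    obtain ⟨g, hg⟩ := c.2
    exact ⟨g, Subtype.ext hg⟩
  have hx0 : q x = c0 := (key _ _).mpr hx
  have hy0 : q y = c0 := (key _ _).mpr hy
  have hs : Function.Surjective q := fun c => by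
    obtain ⟨g, rfl⟩ := tr c
    exact ⟨g • x, by rw [eqv, hx0]⟩
  have hq : ∀ c, ∃ a, q a ≠ c := fun c => by
    obtain ⟨g, rfl⟩ := tr c
    obtain ⟨z, hz⟩ := (Set.ne_univ_iff_exists_notMem B).mp hB2
    refine ⟨g • z, fun h => hz ?_⟩
    rw [eqv, smul_left_cancel_iff] at h
    exact (key _ _).mp h
  have he : ∀ c, Nonempty ({a // q a = c0} ≃ {a // q a = c}) := fun c => by
    obtain ⟨g, rfl⟩ := tr c
    exact ⟨(MulAction.toPerm g).subtypeEquiv fun a => by
      rw [MulAction.toPerm_apply, eqv, smul_left_cancel_iff]⟩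
  have : Finite (orbit H B) := Finite.of_surjective q hs
  have hlt : Nat.card (orbit H B) < n := by
    have := Fintype.ofFinite (orbit H B)
    rw [← hn, Nat.card_eq_fintype_card, Nat.card_eq_fintype_card]
    exact Fintype.card_lt_of_surjective_not_injective q hs
      fun h => hxy (h (hx0.trans hy0.symm))
  refine Wr.sub hC q hs (Wr.good hp hC q (fib q hq) (ih _ hlt _ rfl)
    fun c d => ⟨(he c).some.symm.trans (he d).some⟩) H hH fun g hg => ?_
  exact ⟨MulAction.toPerm (⟨g, hg⟩ : H), fun a => eqv ⟨g, hg⟩ a⟩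

/-- subgroups of index prime to `p` of a symmetric group lie in the class -/
theorem cls_index (hp : p.Prime) (hC : Cls p C) {α : Type} [Finite α] (H : Subgroup (Perm α))
    (hH : ¬ p ∣ H.index) : C H :=
  cls_good hp hC _ α rfl H hH

theorem Good.alt (hp : p.Prime) (hp2 : p ≠ 2) (hC : Cls p C) (α : Type) [Fintype α]
    [DecidableEq α] : Good p C (alternatingGroup α) := by
  intro H hH
  refine hC.iso _ _ (H.equivMapOfInjective _ (Subgroup.subtype_injective _)).symm
    (cls_index hp hC _ fun h => ?_)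
  rw [Subgroup.index_map_subtype] at h
  refine hH ((hp.dvd_mul.mp h).resolve_right fun h1 => hp2 ?_)
  have h2 : (alternatingGroup α).index ∣ 2 := by
    rw [alternatingGroup, Subgroup.index_ker, ← Fintype.card_units_int, ← Nat.card_eq_fintype_card]
    exact Subgroup.card_subgroup_dvd_card _
  exact (Nat.prime_dvd_prime_iff_eq hp Nat.prime_two).mp (h1.trans h2)

/-- `Good p C` has the closure properties again; so the smallest class is closed under
subgroups of index prime to `p` -/
theorem Cls.good (hp : p.Prime) (hp2 : p ≠ 2) (hC : Cls p C) : Cls p (Good p C) where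
  small := fun _ _ h => Good.small hC h
  alt := fun _ => Good.alt hp hp2 hC _
  iso := fun _ _ _ _ e h => Good.iso hC e h
  ext := fun _ _ _ N _ h1 h2 => Good.ext hC N h1 h2

end Pool.Agent.Lib.MP_1ae3da_al.CT
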