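import Pool.Agent.Lib.MP_1ae3da_al.C.SerA
import Pool.Agent.Lib.MP_1ae3da_al.C.SerI

/-! The class `Ser p`: subgroups of index prime to `p`, simple members, subnormal chains. -/

namespace Pool.Agent.Lib.MP_1ae3da_al.CT

open Pool.Agent.Lib.McK

theorem serb_cls (p : ℕ) : Cls p (Ser p) where
  small := fun G _ h => .small G h
  alt := fun n => .alt _ n (MulEquiv.refl _)
  iso := fun _ _ _ _ e h => h.congr e
  ext := fun G _ _ N _ h1 h2 => .ext G N h1 h2

theorem serb_good {p : ℕ} (hp : p.Prime) (h2 : p ≠ 2) {G : Type} [Group G] (h : Ser p G) :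
    Good p (Ser p) G := by
  induction h with
  | small G h => exact Good.small (serb_cls p) h
  | alt G n e => exact Good.iso (serb_cls p) e.symm (Good.alt hp h2 (serb_cls p) _)
  | ext G N h1 h3 i1 i2 =>
    have := (Ser.ext G N h1 h3).finite
    exact Good.ext (serb_cls p) N i1 i2

theorem ser_sub {p : ℕ} (hp : p.Prime) (h5 : 5 ≤ p) {G : Type} [Group G] (h : Ser p G)
    (H : Subgroup G) (hH : ¬ p ∣ H.index) : Ser p H :=
  serb_good hp (by omega) h H hH

theorem ser_simple {p : ℕ} (hp : p.Prime) (h5 : 5 ≤ p) {G : Type} [Group G] (h : Ser p G)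
    (hs : IsSimpleGroup G) :
    ¬ p ^ 2 ∣ Nat.card G ∨ ∃ n, 8 ≤ n ∧ Nonempty (G ≃* alternatingGroup (Fin n)) := by
  rcases h.simple hp (by omega) hs with h1 | ⟨n, _, ⟨e⟩⟩
  · exact Or.inl h1
  · by_cases hn : 8 ≤ n
    · exact Or.inr ⟨n, hn, ⟨e⟩⟩
    · refine Or.inl fun h2 => cls_fact hp (n := n) (by omega) ?_
      rw [Nat.card_congr e.toEquiv] at h2
      have h3 := h2.trans (Subgroup.card_subgroup_dvd_card _)
      rwa [Nat.card_perm, Nat.card_eq_fintype_card, Fintype.card_fin] at h3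

theorem ser_chain {p : ℕ} {G : Type} [Group G] (hp : p.Prime) (n : ℕ) (s : ℕ → Subgroup G)
    (h0 : s 0 = ⊥) (hn : s n = ⊤)
    (h : ∀ i < n, s i ≤ s (i + 1) ∧ ((s i).subgroupOf (s (i + 1))).Normal ∧
      (¬ p ^ 2 ∣ (s i).relIndex (s (i + 1)) ∨
        ∃ (m : ℕ) (f : s (i + 1) →* alternatingGroup (Fin m)), Function.Surjective f ∧
          f.ker = (s i).subgroupOf (s (i + 1)))) : Ser p G := by
  have key : ∀ i ≤ n, Ser p (s i) := by
    intro i
    induction i with
    | zero =>
      intro _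
      refine .small _ ?_
      rw [h0, Subgroup.card_bot, Nat.dvd_one]
      have := hp.two_le
      nlinarith
    | succ i ih =>
      intro hi
      obtain ⟨h1, h2, h3⟩ := h i hi
      refine .ext _ ((s i).subgroupOf (s (i + 1)))
        ((ih (by omega)).congr (Subgroup.subgroupOfEquivOfLe h1).symm) ?_
      rcases h3 with h3 | ⟨m, f, hf, hk⟩
      · exact .small _ h3
      · exact .alt _ m ((QuotientGroup.quotientMulEquivOfEq hk.symm).trans
          (QuotientGroup.quotientKerEquivOfSurjective f hf))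
  have h1 := key n le_rfl
  rw [hn] at h1
  exact h1.congr Subgroup.topEquiv

end Pool.Agent.Lib.MP_1ae3da_al.CT
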