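import Pool.Agent.Lib.MP_1ae3da_al.C.ALf2
import Pool.Agent.Lib.MP_1ae3da_al.C.ACov
import Pool.Agent.Lib.MP_1ae3da_al.C.SerB
import Pool.Agent.Lib.MP_1ae3da_al.C.R5
import Pool.Agent.Lib.MP_1ae3da_al.C.Alt
import Pool.Agent.Lib.MP_1ae3da_al.GAll

/-! The linked McKay bijection for a component. -/

namespace Pool.Agent.Lib.MP_1ae3da_al.CT

open Submodule Pool.Agent.Lib.McK

variable {p : ℕ} {F k A : Type} [Field F] [Field k] [Ring A] [Algebra F A] {O R : Subring F}
  {r : F → k} {GG : Subgroup (RingAut F)}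

theorem comp (h : PM p O R r GG) (h5 : 5 ≤ p) (j : NSV.Qbar →+* F)
    (hj : ∀ σ ∈ GG, ∃ s ∈ NSV.H p, ∀ x, σ (j x) = j (s x)) (S : Type) [Group S] [Finite S]
    (hs : IsSimpleGroup S) (hperf : commutator S = ⊤) (h1 : p ∣ Nat.card S) (hS : Ser p S)
    {u : S → A} (hu : TG F u) (Q : Sylow p S) :
    ML F p GG (Hm F u ⊤) (Hm F u (Subgroup.normalizer (Q : Set S))) := by
  have hp := h.prime
  have : Fact p.Prime := ⟨hp⟩
  have := h.charF
  have := h.algF
  obtain ⟨X, _, _, π, hπ⟩ := exists_uce S hperf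
  obtain ⟨T, hT, -⟩ := uce_syl π hπ.surj hπ.cent Q
  have hN : (Subgroup.normalizer (Q : Set S)).comap π = Subgroup.normalizer (T : Set X) := by
    ext g
    rw [uce_norm π hπ.cent T g, hT]; rfl
  apply lf_ml hπ hu
  rw [hN]
  rcases ser_simple hp h5 hS hs with h2 | ⟨n, hn, ⟨e⟩⟩
  · exact r5 h X hπ.perf (h1.trans (Subgroup.card_dvd_of_surjective π hπ.surj))
      (uce_small hπ.perf π hπ.cent h2) T
  · have hk : (e.toMonoidHom.comp π).ker = π.ker := by
      ext x
      simp [MonoidHom.mem_ker]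
    obtain ⟨Y, _, _, f, f1, f2, f3, f4, -⟩ := cover_lift_of GM.A_hmod GM.A_haut n (by omega)
    have hf : (e.symm.toMonoidHom.comp f).ker = f.ker := by
      ext x
      simp [MonoidHom.mem_ker]
    have hne : π.ker ≠ ⊥ := hπ.ker_ne_bot' f1 (e.symm.toMonoidHom.comp f)
      (e.symm.surjective.comp f2) (hf ▸ f3) (hf ▸ f4)
    have hpn : p ≤ n := by
      rw [Nat.card_congr e.toEquiv] at h1
      have h3 := h1.trans (Subgroup.card_subgroup_dvd_card _)
      rw [Nat.card_perm, Nat.card_eq_fintype_card, Fintype.card_fin] at h3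
      exact hp.dvd_factorial.mp h3
    exact alt_link j hj X hπ.perf T (GM.thm1 n p hn hp (by omega) hpn X (e.toMonoidHom.comp π)
      hπ.perf (e.surjective.comp hπ.surj) (hk ▸ hπ.cent) (hk ▸ hne) T)

end Pool.Agent.Lib.MP_1ae3da_al.CT
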