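import Pool.Agent.Lib.MP_1ae3da_al.C.TC

/-! Reduction modulo `p`: scalars, Lam, red -/

namespace Pool.Agent.Lib.MP_1ae3da_al.CT

open Submodule

variable {p : ℕ} {F k A B G : Type} [Field F] [Field k] [Ring A] [Algebra F A] [Ring B]
  [Algebra k B] [Group G] [Fintype G] {O R : Subring F} {r : F → k}
  {GG : Subgroup (RingAut F)} {u : G → A} {v : G → B} {red : A → B}

theorem PM.r_zero (h : PM p O R r GG) : r 0 = 0 := by
  have := h.add 0 R.zero_mem 0 R.zero_mem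
  rw [add_zero] at this
  exact left_eq_add.1 this

/-- the residue map as a ring homomorphism. -/
def PM.rh (h : PM p O R r GG) : R →+* k where
  toFun x := r x
  map_one' := h.one
  map_mul' x y := h.mul _ x.2 _ y.2
  map_zero' := h.r_zero
  map_add' x y := h.add _ x.2 _ y.2

theorem PM.r_sum (h : PM p O R r GG) {I : Type*} (s : Finset I) (f : I → F)
    (hf : ∀ i ∈ s, f i ∈ R) : r (∑ i ∈ s, f i) = ∑ i ∈ s, r (f i) := by
  classical
  induction s using Finset.induction_on with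
  | empty => simpa using h.r_zero
  | insert a s ha ih =>
    have h1 : ∀ i ∈ s, f i ∈ R := fun i hi => hf i (Finset.mem_insert_of_mem hi)
    rw [Finset.sum_insert ha, Finset.sum_insert ha,
      h.add _ (hf a (Finset.mem_insert_self a s)) _ (R.sum_mem h1), ih h1]

theorem PM.r_pow (h : PM p O R r GG) {x : F} (hx : x ∈ R) (n : ℕ) : r (x ^ n) = r x ^ n :=
  map_pow h.rh ⟨x, hx⟩ n

theorem PM.r_nat (h : PM p O R r GG) (n : ℕ) : r (n : F) = n := by
  have := map_natCast h.rh n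
  rw [← this]
  exact congrArg r (SubringClass.coe_natCast R n).symm

theorem PM.mupR (h : PM p O R r GG) {c : F} (hc : Mup p c) : c ∈ R := h.le (h.mup c hc)

theorem Mup.ne {K : Type} [Field K] {c : K} (hc : Mup p c) : c ≠ 0 := by
  obtain ⟨n, hn, h1⟩ := hc
  rintro rfl
  rw [zero_pow (fun h0 : n = 0 => hn (h0 ▸ dvd_zero p))] at h1
  exact zero_ne_one h1

theorem PM.r_ne (h : PM p O R r GG) {c : F} (hc : Mup p c) : r c ≠ 0 := by
  have h1 := h.mupR hc
  obtain ⟨n, hn, h2⟩ := hc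
  exact Mup.ne ⟨n, hn, by rw [← h.r_pow h1, h2, h.one]⟩

theorem PM.r_inj (h : PM p O R r GG) {c : F} (hc : Mup p c) (h1 : r c = 1) : c = 1 := by
  have h0 := h.mupR hc
  obtain ⟨n, hn, h2⟩ := hc
  by_contra hne
  have h3 : ∑ i ∈ Finset.range n, c ^ i = 0 := by
    have := mul_geom_sum c n
    rw [h2, sub_self] at this
    exact (mul_eq_zero.1 this).resolve_left (sub_ne_zero.2 hne)
  have h4 := h.r_sum (Finset.range n) (fun i => c ^ i) fun i _ => R.pow_mem h0 i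
  rw [h3, h.r_zero] at h4
  simp only [h.r_pow h0, h1, one_pow, Finset.sum_const, Finset.card_range, nsmul_eq_mul,
    mul_one] at h4
  have := h.chark
  exact hn ((CharP.cast_eq_zero_iff k p n).1 h4.symm)

theorem PM.r_surj (h : PM p O R r GG) (c : k) : ∃ x ∈ R, r x = c := by
  by_cases hc : c = 0
  · exact ⟨0, R.zero_mem, hc ▸ h.r_zero⟩
  · obtain ⟨x, h1, h2⟩ := h.teich c hc
    exact ⟨x, h.mupR h1, h2⟩

theorem Mup.mul (hp : p.Prime) {K : Type} [CommMonoid K] {c d : K} (hc : Mup p c) (hd : Mup p d) :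
    Mup p (c * d) := by
  obtain ⟨n, hn, h1⟩ := hc
  obtain ⟨m, hm, h2⟩ := hd
  refine ⟨n * m, fun h => ((Nat.Prime.dvd_mul hp).1 h).elim hn hm, ?_⟩
  rw [mul_pow, pow_mul, h1, one_pow, mul_comm n, pow_mul, h2, one_pow, one_mul]

theorem Mup.inv {K : Type} [Field K] {c : K} (hc : Mup p c) : Mup p c⁻¹ := by
  obtain ⟨n, hn, h1⟩ := hc
  exact ⟨n, hn, by rw [inv_pow, h1, inv_one]⟩

theorem Mup.of_pow (hp : p.Prime) {K : Type} [Monoid K] {c : K} {n : ℕ} (hn : ¬ p ∣ n)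
    (hc : Mup p (c ^ n)) : Mup p c := by
  obtain ⟨m, hm, h1⟩ := hc
  exact ⟨n * m, fun h => ((Nat.Prime.dvd_mul hp).1 h).elim hn hm, by rw [pow_mul, h1]⟩

theorem Mup.one (hp : p.Prime) {K : Type} [Monoid K] : Mup p (1 : K) :=
  ⟨1, hp.not_dvd_one, one_pow 1⟩

theorem Mup.pow {K : Type} [Monoid K] {c : K} (hc : Mup p c) (n : ℕ) : Mup p (c ^ n) := by
  obtain ⟨m, hm, h1⟩ := hc
  exact ⟨m, hm, by rw [← pow_mul, mul_comm, pow_mul, h1, one_pow]⟩

theorem RD.cardF (h : PM p O R r GG) (hr : RD p R r u v red) (H : Subgroup G) :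
    (Nat.card H : F) ≠ 0 := by
  have := h.charF
  have := hr.cop
  exact Nat.cast_ne_zero.2 Nat.card_pos.ne'

theorem RD.cardk (h : PM p O R r GG) (hr : RD p R r u v red) (H : Subgroup G) :
    (Nat.card H : k) ≠ 0 := by
  have := h.chark
  exact fun h0 => hr.cop
    (((CharP.cast_eq_zero_iff k p _).1 h0).trans (Subgroup.card_subgroup_dvd_card H))

theorem da_single {K M : Type} [Semiring K] [AddCommMonoid M] [Module K M] [DecidableEq G]
    (w : G → M) (x : G) : ∑ y, (if y = x then (1 : K) else 0) • w y = w x := by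
  simp [ite_smul]

theorem lam_u (x : G) : u x ∈ Lam R u := by
  classical
  exact ⟨fun y => if y = x then 1 else 0, fun y => by
    by_cases h : y = x <;> simp [h, R.one_mem, R.zero_mem], (da_single u x).symm⟩

theorem lam_zero : (0 : A) ∈ Lam R u := ⟨0, fun _ => R.zero_mem, by simp⟩

theorem lam_add {a b : A} (ha : a ∈ Lam R u) (hb : b ∈ Lam R u) : a + b ∈ Lam R u := by
  obtain ⟨c, h1, rfl⟩ := ha
  obtain ⟨d, h2, rfl⟩ := hb
  exact ⟨fun x => c x + d x, fun x => R.add_mem (h1 x) (h2 x), by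
    simp only [add_smul, Finset.sum_add_distrib]⟩

theorem lam_smul {c : F} {a : A} (hc : c ∈ R) (ha : a ∈ Lam R u) : c • a ∈ Lam R u := by
  obtain ⟨d, h2, rfl⟩ := ha
  exact ⟨fun x => c * d x, fun x => R.mul_mem hc (h2 x), by
    simp only [Finset.smul_sum, mul_smul]⟩

theorem lam_sum {I : Type*} (s : Finset I) (f : I → A) (hf : ∀ i ∈ s, f i ∈ Lam R u) :
    ∑ i ∈ s, f i ∈ Lam R u :=
  Finset.sum_induction f (· ∈ Lam R u) (fun _ _ => lam_add) lam_zero hf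

theorem lam_span {a : A} (ha : a ∈ Lam R u) : a ∈ span F (Hm F u ⊤) := by
  obtain ⟨c, -, rfl⟩ := ha
  exact sum_mem fun x _ => smul_mem _ _ (subset_span (u_mem_Hm (Subgroup.mem_top x)))

theorem RD.lam_mul (h : PM p O R r GG) (hr : RD p R r u v red) {a b : A} (ha : a ∈ Lam R u)
    (hb : b ∈ Lam R u) : a * b ∈ Lam R u := by
  obtain ⟨c, h1, rfl⟩ := ha
  obtain ⟨d, h2, rfl⟩ := hb
  rw [Finset.sum_mul_sum]
  refine lam_sum _ _ fun x _ => lam_sum _ _ fun y _ => ?_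
  obtain ⟨z, h3, h4⟩ := hr.nrm x y
  rw [smul_mul_smul_comm, h4]
  exact lam_smul (R.mul_mem (h1 x) (h2 y)) (lam_smul (h.mupR h3) (lam_u _))

theorem RD.red_u (h : PM p O R r GG) (hr : RD p R r u v red) (x : G) : red (u x) = v x := by
  classical
  have h1 := hr.val (fun y => if y = x then 1 else 0) fun y => by
    by_cases h : y = x <;> simp [h, R.one_mem, R.zero_mem]
  rw [da_single, ← da_single (K := k) v x] at *
  rw [h1]
  refine Finset.sum_congr rfl fun y _ => ?_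
  by_cases h2 : y = x <;> simp [h2, h.one, h.r_zero]

theorem RD.red_zero (h : PM p O R r GG) (hr : RD p R r u v red) : red 0 = 0 := by
  have h1 := hr.val 0 fun _ => R.zero_mem
  simpa [h.r_zero] using h1

theorem RD.red_add (h : PM p O R r GG) (hr : RD p R r u v red) {a b : A} (ha : a ∈ Lam R u)
    (hb : b ∈ Lam R u) : red (a + b) = red a + red b := by
  obtain ⟨c, h1, rfl⟩ := ha
  obtain ⟨d, h2, rfl⟩ := hb
  have h3 := hr.val (fun x => c x + d x) fun x => R.add_mem (h1 x) (h2 x)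
  simp only [add_smul, Finset.sum_add_distrib, h.add _ (h1 _) _ (h2 _)] at h3
  rw [h3, hr.val c h1, hr.val d h2]

theorem RD.red_smul (h : PM p O R r GG) (hr : RD p R r u v red) {c : F} {a : A} (hc : c ∈ R)
    (ha : a ∈ Lam R u) : red (c • a) = r c • red a := by
  obtain ⟨d, h2, rfl⟩ := ha
  have h3 := hr.val (fun x => c * d x) fun x => R.mul_mem hc (h2 x)
  simp only [mul_smul, ← Finset.smul_sum, h.mul _ hc _ (h2 _)] at h3
  rw [h3, hr.val d h2]

theorem RD.red_sum (h : PM p O R r GG) (hr : RD p R r u v red) {I : Type*} (s : Finset I)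
    (f : I → A) (hf : ∀ i ∈ s, f i ∈ Lam R u) : red (∑ i ∈ s, f i) = ∑ i ∈ s, red (f i) := by
  classical
  induction s using Finset.induction_on with
  | empty => simpa using hr.red_zero h
  | insert a s ha ih =>
    have h1 : ∀ i ∈ s, f i ∈ Lam R u := fun i hi => hf i (Finset.mem_insert_of_mem hi)
    rw [Finset.sum_insert ha, Finset.sum_insert ha,
      hr.red_add h (hf a (Finset.mem_insert_self a s)) (lam_sum _ _ h1), ih h1]

theorem RD.lamH (hr : RD p R r u v red) {H : Subgroup G} {a : A} :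
    (a ∈ Lam R u ∧ a ∈ span F (Hm F u H)) ↔
      ∃ c : G → F, (∀ x, c x ∈ R) ∧ (∀ x, x ∉ H → c x = 0) ∧ a = ∑ x, c x • u x := by
  constructor
  · rintro ⟨⟨c, h1, h2⟩, h3⟩
    obtain ⟨d, h4, h5⟩ := exists_coord h3
    have h6 : c = d := funext (Fintype.linearIndependent_iffₛ.1 hr.tg.ind c d (h2.symm.trans h5))
    exact ⟨c, h1, h6 ▸ h4, h2⟩
  · rintro ⟨c, h1, h2, rfl⟩
    refine ⟨⟨c, h1, rfl⟩, sum_mem fun x _ => ?_⟩
    by_cases hx : x ∈ H
    · exact smul_mem _ _ (subset_span (u_mem_Hm hx))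
    · rw [h2 x hx, zero_smul]; exact zero_mem _

theorem RD.red_mem (h : PM p O R r GG) (hr : RD p R r u v red) {H : Subgroup G} {a : A}
    (ha : a ∈ Lam R u) (hH : a ∈ span F (Hm F u H)) : red a ∈ span k (Hm k v H) := by
  obtain ⟨c, h1, h2, rfl⟩ := hr.lamH.1 ⟨ha, hH⟩
  rw [hr.val c h1]
  refine sum_mem fun x _ => ?_
  by_cases hx : x ∈ H
  · exact smul_mem _ _ (subset_span (u_mem_Hm hx))
  · rw [h2 x hx, h.r_zero, zero_smul]; exact zero_mem _

theorem RD.red_surj (h : PM p O R r GG) (hr : RD p R r u v red) {H : Subgroup G} {b : B}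
    (hb : b ∈ span k (Hm k v H)) : ∃ a ∈ Lam R u, a ∈ span F (Hm F u H) ∧ red a = b := by
  classical
  obtain ⟨d, h1, rfl⟩ := exists_coord hb
  choose l h2 h3 using h.r_surj
  have h4 : ∀ x, (if x ∈ H then l (d x) else 0) ∈ R := fun x => by
    by_cases hx : x ∈ H <;> simp [hx, h2, R.zero_mem]
  obtain ⟨h5, h6⟩ := (hr.lamH (H := H)).2 ⟨_, h4, fun x hx => if_neg hx, rfl⟩
  refine ⟨_, h5, h6, ?_⟩
  rw [hr.val _ h4]
  refine Finset.sum_congr rfl fun x _ => ?_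
  by_cases hx : x ∈ H
  · rw [if_pos hx, h3]
  · rw [if_neg hx, h.r_zero, h1 x hx]

theorem RD.red_surj' (h : PM p O R r GG) (hr : RD p R r u v red) (b : B) :
    ∃ a ∈ Lam R u, red a = b := by
  have hb : b ∈ span k (Hm k v ⊤) := by
    rw [span_Hm, Subgroup.coe_top, Set.image_univ, hr.top]; trivial
  obtain ⟨a, h1, -, h2⟩ := hr.red_surj h hb
  exact ⟨a, h1, h2⟩

theorem RD.u_pow (h : PM p O R r GG) (hr : RD p R r u v red) :
    ∃ N : ℕ, ¬ p ∣ N ∧ ∀ x, u x ^ N = u 1 := by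
  have hp := h.prime
  have h1 : ∀ (x : G) (n : ℕ), ∃ c : F, Mup p c ∧ u x ^ (n + 1) = c • u (x ^ (n + 1)) := by
    intro x n
    induction n with
    | zero => exact ⟨1, Mup.one hp, by simp⟩
    | succ n ih =>
      obtain ⟨c, h2, h3⟩ := ih
      obtain ⟨d, h4, h5⟩ := hr.nrm (x ^ (n + 1)) x
      exact ⟨c * d, h2.mul hp h4, by rw [pow_succ, h3, smul_mul_assoc, h5, smul_smul, ← pow_succ]⟩
  have h0 : ∀ n : ℕ, n ≠ 0 → u 1 ^ n = u 1 := fun n hn =>
    IsIdempotentElem.pow_eq (show IsIdempotentElem (u 1) from hr.tg.one) hn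
  have h2 : ∀ x : G, ∃ N : ℕ, ¬ p ∣ N ∧ u x ^ N = u 1 := by
    intro x
    obtain ⟨n, hn⟩ := Nat.exists_eq_succ_of_ne_zero (Nat.card_pos (α := G)).ne'
    obtain ⟨c, ⟨m, hm, h3⟩, h4⟩ := h1 x n
    rw [← Nat.succ_eq_add_one, ← hn, pow_card_eq_one'] at h4
    refine ⟨Nat.card G * m, fun h5 => ((Nat.Prime.dvd_mul hp).1 h5).elim hr.cop hm, ?_⟩
    rw [pow_mul, h4, smul_pow, h3, one_smul, h0 m fun h5 => hm (h5 ▸ dvd_zero p)]
  choose N h3 h4 using h2
  have h5 : ¬ p ∣ ∏ x, N x := fun h5 => by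
    obtain ⟨x, -, hx⟩ := (Prime.dvd_finsetProd_iff hp.prime _).1 h5
    exact h3 x hx
  refine ⟨∏ x, N x, h5, fun x => ?_⟩
  obtain ⟨m, hm⟩ := Finset.dvd_prod_of_mem N (Finset.mem_univ x)
  rw [hm, pow_mul, h4, h0 m fun h6 => h5 (by rw [hm, h6, mul_zero]; exact dvd_zero p)]

theorem RD.stb_mup (h : PM p O R r GG) (hr : RD p R r u v red) {H : Subgroup G} {γ : RingAut A}
    (hγ : γ ∈ Stb (Hm F u H)) : γ (u 1) = u 1 ∧ ∃ N : ℕ, ¬ p ∣ N ∧
      ∀ x ∈ H, ∃ y ∈ H, ∃ c : F, c ^ N = 1 ∧ γ (u x) = c • u y := by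
  have hu := hr.tg
  have h1 : γ (u 1) = u 1 := by
    obtain ⟨c, hc, y, -, h2⟩ := (hγ (u 1)).2 (u_mem_Hm H.one_mem)
    have h3 : γ (u 1) * γ (u 1) = γ (u 1) := by rw [← map_mul, hu.one]
    obtain ⟨d, hd, h4⟩ := hu.mul y y
    rw [h2, smul_mul_smul_comm, h4, smul_smul] at h3
    obtain ⟨h5, -⟩ := hu.eq_of_smul (mul_ne_zero (mul_ne_zero hc hc) hd) h3
    have h6 : y = 1 := mul_eq_left.1 h5
    have h7 : γ (u 1) * γ (u 1) = γ (u 1) := by rw [← map_mul, hu.one]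
    rw [h2, h6, smul_mul_smul_comm, hu.one] at h7
    have h8 := (hu.eq_of_smul (mul_ne_zero hc hc) h7).2
    rw [h2, h6, (mul_eq_left₀ hc).1 h8, one_smul]
  obtain ⟨N, hN, h2⟩ := hr.u_pow h
  refine ⟨h1, N, hN, fun x hx => ?_⟩
  obtain ⟨c, hc, y, hy, h3⟩ := (hγ (u x)).2 (u_mem_Hm hx)
  refine ⟨y, hy, c, ?_, h3⟩
  have h4 : γ (u x) ^ N = u 1 := by rw [← map_pow, h2, h1]
  rw [h3, smul_pow, h2] at h4
  exact (hu.eq_of_smul (pow_ne_zero N hc) (h4.trans (one_smul F _).symm)).2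

end Pool.Agent.Lib.MP_1ae3da_al.CT
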