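import Pool.Agent.Lib.MP_1ae3da_al.C.DA

/-! Reduction modulo `p`: ranks of idempotents are kept.
rank can only drop (X (jP) Y = 1 of size rank, lift X Y, det <> 0); use P and 1 - P. -/

namespace Pool.Agent.Lib.MP_1ae3da_al.CT

open Submodule

variable {p : ℕ} {F k A B G : Type} [Field F] [Field k] [Ring A] [Algebra F A] [Ring B]
  [Algebra k B] [Group G] [Fintype G] {O R : Subring F} {r : F → k}
  {GG : Subgroup (RingAut F)} {u : G → A} {v : G → B} {red : A → B}

theorem dc_unit {k n : Type} [Field k] [Fintype n] [DecidableEq n] (M : Matrix n n k) :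
    ∃ (m : ℕ) (X : Matrix (Fin m) n k) (Y : Matrix n (Fin m) k), m = M.rank ∧ X * M * Y = 1 := by
  let b := Module.finBasis k (LinearMap.range M.mulVecLin)
  choose y hy using fun a => (b a).2
  obtain ⟨g, hg⟩ := LinearMap.exists_extend b.equivFun.toLinearMap
  refine ⟨_, LinearMap.toMatrix' g, Matrix.of fun i a => y a i, rfl, ?_⟩
  ext a' a
  have e : g (M.mulVec (y a)) = b.equivFun (b a) :=
    (congrArg g (hy a)).trans (LinearMap.congr_fun hg (b a))
  have e' : (LinearMap.toMatrix' g * M * Matrix.of fun i a => y a i) a' a =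
      g (M.mulVec (y a)) a' := by
    rw [← LinearMap.toMatrix'_mulVec, Matrix.mulVec_mulVec]
    rfl
  rw [e', e, Module.Basis.equivFun_self, Matrix.one_apply]
  simp only [eq_comm]

theorem dc_le {R F k n : Type} [CommRing R] [Field F] [Field k] [Fintype n] [DecidableEq n]
    (i : R →+* F) (hi : Function.Injective i) (j : R →+* k) (hj : Function.Surjective j)
    (P : Matrix n n R) : (P.map j).rank ≤ (P.map i).rank := by
  obtain ⟨m, X, Y, hm, h⟩ := dc_unit (P.map j)
  rw [← hm]
  choose s hs using hj
  have e : ∀ {a b : Type} (Z : Matrix a b k), (Z.map s).map j = Z := fun Z => by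
    ext a b
    exact hs _
  have d : j (X.map s * P * Y.map s).det = 1 := by
    rw [RingHom.map_det, RingHom.mapMatrix_apply, Matrix.map_mul, Matrix.map_mul, e, e, h,
      Matrix.det_one]
  have d' : ((X.map s).map i * P.map i * (Y.map s).map i).det ≠ 0 := by
    rw [← Matrix.map_mul, ← Matrix.map_mul, ← RingHom.mapMatrix_apply, ← RingHom.map_det,
      map_ne_zero_iff i hi]
    intro z
    rw [z, map_zero] at d
    exact zero_ne_one d
  have := Matrix.rank_of_det_ne_zero d'
  rw [Fintype.card_fin] at this
  exact this.symm.le.trans ((Matrix.rank_mul_le_left _ _).trans (Matrix.rank_mul_le_right _ _))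

theorem dc_ge {k n : Type} [Field k] [Fintype n] [DecidableEq n] (M : Matrix n n k) :
    Fintype.card n ≤ M.rank + (1 - M).rank := by
  have e : LinearMap.range M.mulVecLin ⊔ LinearMap.range (1 - M).mulVecLin = ⊤ :=
    eq_top_iff.2 fun x _ => mem_sup.2 ⟨_, ⟨x, rfl⟩, _, ⟨x, rfl⟩, by simp⟩
  have := finrank_add_le_finrank_add_finrank (LinearMap.range M.mulVecLin)
    (LinearMap.range (1 - M).mulVecLin)
  rwa [e, finrank_top, Module.finrank_fintype_fun_eq_card] at this

theorem rank_red {R F k n : Type} [CommRing R] [Field F] [Field k] [Fintype n] [DecidableEq n]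
    (i : R →+* F) (hi : Function.Injective i) (j : R →+* k) (hj : Function.Surjective j)
    (P : Matrix n n R) (hP : P * P = P) :
    (P.map j).rank = (P.map i).rank := by
  have h1 := dc_le i hi j hj P
  have h2 := dc_le i hi j hj (1 - P)
  have h3 := dc_ge (P.map j)
  have h4 := Matrix.rank_add_rank_le_card_of_mul_eq_zero (A := P.map i) (B := (1 - P).map i) (by
    rw [← Matrix.map_mul, mul_sub, mul_one, hP, sub_self, Matrix.map_zero _ (map_zero i)])
  rw [show 1 - P.map j = (1 - P).map j by
    rw [Matrix.map_sub _ (map_sub j), Matrix.map_one _ (map_zero j) (map_one j)]] at h3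
  omega

theorem dc_comm {K V n : Type} [Field K] [AddCommGroup V] [Module K V] [Fintype n] {b : n → V}
    {f : V →ₗ[K] V} {M : Matrix n n K} (h : ∀ x, f (b x) = ∑ y, M y x • b y) (c : n → K) :
    f (Fintype.linearCombination K b c) = Fintype.linearCombination K b (M.mulVec c) := by
  simp only [Fintype.linearCombination_apply, map_sum, map_smul, h, Finset.smul_sum,
    Matrix.mulVec, dotProduct, Finset.sum_smul, smul_smul]
  rw [Finset.sum_comm]
  simp only [mul_comm]

theorem dc_rank {K V n : Type} [Field K] [AddCommGroup V] [Module K V] [Fintype n] {b : n → V}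
    (hb : LinearIndependent K b) {f : V →ₗ[K] V} {M : Matrix n n K}
    (h : ∀ x, f (b x) = ∑ y, M y x • b y) :
    Module.finrank K ((span K (Set.range b)).map f) = M.rank := by
  have e : f ∘ₗ Fintype.linearCombination K b = Fintype.linearCombination K b ∘ₗ M.mulVecLin :=
    LinearMap.ext (dc_comm h)
  rw [← Fintype.range_linearCombination, ← LinearMap.range_comp, e, LinearMap.range_comp]
  exact (equivMapOfInjective _ hb.fintypeLinearCombination_injective _).finrank_eq.symm

theorem dc_sum {K V : Type} [Field K] [AddCommGroup V] [Module K V] (H : Subgroup G) [Fintype H]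
    (b : G → V) {c : G → K} (h : ∀ x, x ∉ H → c x = 0) :
    ∑ x, c x • b x = ∑ x : H, c x • b x := by
  classical
  rw [← Finset.sum_subtype (Finset.univ.filter (· ∈ H)) (by simp) fun x => c x • b x,
    Finset.sum_filter]
  refine Finset.sum_congr rfl fun x _ => ?_
  split_ifs with m
  · rfl
  · rw [h x m, zero_smul]

theorem RD.red_rank (h : PM p O R r GG) (hr : RD p R r u v red) (H : Subgroup G)
    (f : A →ₗ[F] A) (f' : B →ₗ[k] B)
    (h1 : ∀ x ∈ H, f (u x) ∈ Lam R u ∧ f (u x) ∈ span F (Hm F u H) ∧ red (f (u x)) = f' (v x))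
    (h2 : ∀ x ∈ H, f (f (u x)) = f (u x)) :
    Module.finrank k ((span k (Hm k v H)).map f') =
      Module.finrank F ((span F (Hm F u H)).map f) := by
  classical
  choose c c1 c2 c3 using fun x : H => hr.lamH.1 ⟨(h1 x x.2).1, (h1 x x.2).2.1⟩
  let P : Matrix H H R := fun y x => ⟨c x y, c1 x y⟩
  have iu : LinearIndependent F fun x : H => u x := hr.tg.ind.comp _ Subtype.val_injective
  have iv : LinearIndependent k fun x : H => v x := hr.tgk.ind.comp _ Subtype.val_injective
  have eu : ∀ x : H, f (u x) = ∑ y : H, P.map R.subtype y x • u y := fun x =>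
    (c3 x).trans (dc_sum H u (c2 x))
  have ev : ∀ x : H, f' (v x) = ∑ y : H, P.map h.rh y x • v y := fun x => by
    rw [← (h1 x x.2).2.2, c3 x, hr.val _ (c1 x)]
    exact dc_sum H v (c := fun y => r (c x y)) fun y hy => by rw [c2 x y hy, h.r_zero]
  have hP : P * P = P := by
    refine Matrix.map_injective R.subtype_injective ?_
    change (P * P).map R.subtype = P.map R.subtype
    rw [Matrix.map_mul]
    ext y x
    have e := dc_comm eu fun y => P.map R.subtype y x
    have e' : Fintype.linearCombination F (fun x : H => u x) (fun y => P.map R.subtype y x) =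
        f (u x) := (eu x).symm
    rw [e', h2 x x.2, ← e'] at e
    exact (congrFun (iu.fintypeLinearCombination_injective e) y).symm
  rw [span_Hm, span_Hm, Set.image_eq_range, Set.image_eq_range]
  refine (dc_rank iv ev).trans (Eq.trans ?_ (dc_rank iu eu).symm)
  exact rank_red R.subtype R.subtype_injective h.rh
    (fun z => (h.r_surj z).elim fun x hx => ⟨⟨x, hx.1⟩, hx.2⟩) P hP

theorem RD.dg_red (h : PM p O R r GG) (hr : RD p R r u v red) {H : Subgroup G} {e : A}
    (he : e ∈ Lam R u) (hH : e ∈ span F (Hm F u H)) (hi : e * e = e) :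
    Dg k (Hm k v H) (red e) = Dg F (Hm F u H) e :=
  hr.red_rank h H (LinearMap.mulRight F e) (LinearMap.mulRight k (red e))
    (fun x hx => ⟨hr.lam_mul h (lam_u x) he, span_mul hr.tg ((mem_span_Hm hr.tg).2 hx) hH,
      (hr.mul _ (lam_u x) _ he).trans (congrArg (· * red e) (hr.red_u h x))⟩)
    fun x _ => (mul_assoc (u x) e e).trans (congrArg (u x * ·) hi)

end Pool.Agent.Lib.MP_1ae3da_al.CT
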