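import Pool.Agent.Lib.MP_1ae3da_al.C.TD
import Pool.Agent.Lib.MP_1ae3da_al.C.TNd

/-! Skolem-Noether, implementers, determinants. -/

namespace Pool.Agent.Lib.MP_1ae3da_al.CT

open Submodule

variable {F A : Type} [Field F] [Ring A] [Algebra F A] {S : Set A} {e b w v : A}
  {σ : RingAut F} {γ a : RingAut A} {n : ℕ} {ρ : A →ₗ[F] Matrix (Fin n) (Fin n) F}

theorem te_sn (φ : Matrix (Fin n) (Fin n) F ≃ₐ[F] Matrix (Fin n) (Fin n) F) :
    ∃ U : (Matrix (Fin n) (Fin n) F)ˣ, ∀ m, φ m * U.val = U.val * m := by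
  obtain ⟨T, h⟩ := ((Matrix.toLinAlgEquiv'.symm.trans φ).trans
    Matrix.toLinAlgEquiv').eq_linearEquivConjAlgEquiv
  refine ⟨⟨LinearMap.toMatrix' T.toLinearMap, LinearMap.toMatrix' T.symm.toLinearMap,
    by rw [← LinearMap.toMatrix'_comp]; simp, by rw [← LinearMap.toMatrix'_comp]; simp⟩,
    fun m => Matrix.toLin'.injective ?_⟩
  have k : Matrix.toLin' (φ m) = T.conjAlgEquiv F (Matrix.toLin' m) := by
    rw [← h]
    exact congrArg (fun x => Matrix.toLin' (φ x)) (LinearMap.toMatrix'_toLin' m).symm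
  rw [Matrix.toLin'_mul, Matrix.toLin'_mul, k]
  ext
  simp

theorem te_tr (h : SL F σ γ) (S : Set A) : TR σ γ S (γ '' S) := .of_image h rfl

theorem te_cen (he : e ∈ Irr F S) (hb : b ∈ span F S) : b * e = e * b := (Cen_comm he.1 hb).symm

/-- hint: `m ↦ ρ' (γ (ρ⁻¹ (σ⁻¹ m)))` is an algebra automorphism of the matrix algebra; use
`AlgEquiv.eq_linearEquivConjAlgEquiv`. -/
theorem MM.impl (hS : Nice F S) (he : e ∈ Irr F S) (h : MM F S e ρ) (hγ : SL F σ γ)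
    {ρ' : A →ₗ[F] Matrix (Fin n) (Fin n) F} (h' : MM F (γ '' S) (γ e) ρ') :
    ∃ U : (Matrix (Fin n) (Fin n) F)ˣ, ∀ b ∈ span F S,
      ρ' (γ b) * U.val = U.val * (ρ b).map σ := by
  have t := te_tr hγ S
  obtain ⟨r, r1, r2⟩ := t.mm h
  obtain ⟨φ, p⟩ := r1.equiv h' (t.mcl hS.mcl) (t.span_to he.1.1)
  obtain ⟨U, k⟩ := te_sn φ
  exact ⟨U, fun b hb => by rw [← p _ (t.span_to hb), k, r2]⟩
theorem Nd_eq (hS : Nice F S) (he : e ∈ Irr F S) (h : MM F S e ρ) (hb : b ∈ span F S) :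
    Nd F S e b = (ρ b).det := h.nd hS.mcl he.1.1 hb
theorem Chv_eq (hS : Nice F S) (he : e ∈ Irr F S) (h : MM F S e ρ) (hb : b ∈ span F S) :
    Chv F S e b = (ρ b).trace := h.chv hS.mcl he.1.1 hb
theorem Nd_nat [IsAlgClosed F] (hS : Nice F S) (he : e ∈ Irr F S) (hγ : SL F σ γ)
    (hb : b ∈ span F S) : Nd F (γ '' S) (γ e) (γ b) = σ (Nd F S e b) :=
  (te_tr hγ S).nd hS.mcl he.1.1 hb
theorem Chv_nat [IsAlgClosed F] (hS : Nice F S) (he : e ∈ Irr F S) (hγ : SL F σ γ)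
    (hb : b ∈ span F S) : Chv F (γ '' S) (γ e) (γ b) = σ (Chv F S e b) :=
  (te_tr hγ S).chv hS.mcl he.1.1 hb
theorem Nd_mul [IsAlgClosed F] (hS : Nice F S) (he : e ∈ Irr F S) (hw : w ∈ span F S)
    (hv : v ∈ span F S) : Nd F S e (w * v) = Nd F S e w * Nd F S e v := nd_mul hS.mcl he.1.1 hw hv
theorem Nd_smul [IsAlgClosed F] (hS : Nice F S) (he : e ∈ Irr F S) (c : F) (w : A) :
    Nd F S e (c • w) = c ^ dg F S e * Nd F S e w := by
  have k := exists_MM hS he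
  rw [Nd, Nd, dif_pos k, dif_pos k, map_smul, Matrix.det_smul, Fintype.card_fin,
    k.choose_spec.choose_spec.dg_eq hS.mcl he.1.1]
theorem Nd_self [IsAlgClosed F] (hS : Nice F S) (he : e ∈ Irr F S) : Nd F S e e = 1 := by
  obtain ⟨n, ρ, h⟩ := exists_MM hS he
  exact h.nd_one hS.mcl he.1.1
theorem Nd_mul_e [IsAlgClosed F] (hS : Nice F S) (he : e ∈ Irr F S) (hw : w ∈ span F S) :
    Nd F S e (w * e) = Nd F S e w := nd_mul_e hS.mcl he.1.1 hw
theorem Chv_lin (S : Set A) (e : A) : ∃ l : A →ₗ[F] F, ∀ b, l b = Chv F S e b :=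
  ⟨⟨⟨Chv F S e, chv_add e⟩, fun c x => chv_smul e x c⟩, fun _ => rfl⟩
theorem Ln_span (ha : Lin F a) (hw : w ∈ Ln F S e a) (hb : b ∈ span F S) : w * b = a b * w := by
  induction hb using span_induction with
  | mem x hx => exact hw.2.2.2 x hx
  | zero => simp
  | add x y _ _ p q => rw [mul_add, map_add, add_mul, p, q]
  | smul c x _ p => rw [mul_smul_comm, ha, smul_mul_assoc, p]
theorem Ln_smul (hw : w ∈ Ln F S e a) {c : F} (hc : c ≠ 0) : c • w ∈ Ln F S e a :=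
  ⟨smul_mem _ c hw.1, by rw [smul_mul_assoc, hw.2.1], smul_ne_zero hc hw.2.2.1, fun x hx => by
    rw [smul_mul_assoc, mul_smul_comm, hw.2.2.2 x hx]⟩

/-- An element of the block is determined by its matrix. -/
theorem te_ext (h : MM F S e ρ) (he : e ∈ Irr F S) (hw : w ∈ span F S) (hv : v ∈ span F S)
    (w1 : w * e = w) (v1 : v * e = v) (k : ρ w = ρ v) : w = v :=
  w1.symm.trans (((h.eq_e he.1.1 hw hv).1 k).trans v1)

theorem te_lift (hS : Nice F S) (h : MM F S e ρ) (he : e ∈ Irr F S)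
    (m : Matrix (Fin n) (Fin n) F) : ∃ w ∈ span F S, w * e = w ∧ ρ w = m := by
  obtain ⟨w, hw, rfl⟩ := h.surj m
  exact ⟨w * e, hS.mcl _ hw _ he.1.1, by rw [mul_assoc, he.2.1], by
    rw [h.mul _ hw _ he.1.1, h.one, mul_one]⟩

theorem Ln_exists [IsAlgClosed F] (hS : Nice F S) (he : e ∈ Irr F S) (ha : Lin F a)
    (h1 : a ∈ Stb S) (h2 : a e = e) : ∃ w, w ∈ Ln F S e a := by
  obtain ⟨n, ρ, h⟩ := exists_MM hS he
  have t := TR.of_lin ha h1
  obtain ⟨U, k⟩ := h.impl hS he (σ := 1) ha (ρ' := ρ) (by rwa [t.image, h2])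
  obtain ⟨w, hw, w1, w2⟩ := te_lift hS h he U.val
  have : NeZero n := ⟨h.pos.ne'⟩
  refine ⟨w, hw, w1, fun c => U.ne_zero (by rw [← w2, c, map_zero]), fun x hx => ?_⟩
  have p := subset_span (R := F) hx
  refine te_ext h he (hS.mcl _ hw _ p) (hS.mcl _ (t.span_to p) _ hw) ?_ ?_ ?_
  · rw [mul_assoc, te_cen he p, ← mul_assoc, w1]
  · rw [mul_assoc, w1]
  · rw [h.mul _ hw _ p, h.mul _ (t.span_to p) _ hw, w2, k x p]
    rfl

/-- An implementer is invertible in the block. -/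
theorem te_inv [IsAlgClosed F] (hS : Nice F S) (he : e ∈ Irr F S) (ha : Lin F a)
    (h1 : a ∈ Stb S) (hw : w ∈ Ln F S e a) :
    ∃ w' ∈ span F S, w' * e = w' ∧ w * w' = e ∧ w' * w = e := by
  obtain ⟨n, ρ, h⟩ := exists_MM hS he
  have t := TR.of_lin ha h1
  have w0 : ρ w ≠ 0 := fun c => hw.2.2.1 (hw.2.1.symm.trans (h.inj w hw.1 c))
  have i : Function.Injective (ρ w).mulVecLin := (injective_iff_map_eq_zero _).2 fun x hx => by
    by_contra c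
    obtain ⟨j, c⟩ := Function.ne_iff.1 c
    refine w0 (Matrix.ext fun i l => ?_)
    obtain ⟨b, hb, k⟩ := h.surj (Matrix.single l j 1)
    have q := congrArg (fun m => (ρ m).mulVec x i) (Ln_span ha hw hb)
    simp only [h.mul _ hw.1 _ hb, h.mul _ (t.span_to hb) _ hw.1, ← Matrix.mulVec_mulVec, k,
      show (ρ w).mulVec x = 0 from hx, Matrix.mulVec_zero, Matrix.single_mulVec] at q
    simpa [Matrix.mulVec, dotProduct, Function.update_apply, show x j ≠ 0 from c] using q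
  obtain ⟨U, k⟩ := Matrix.mulVec_injective_iff_isUnit.1 i
  obtain ⟨w', hw', w1, w2⟩ := te_lift hS h he U⁻¹.val
  refine ⟨w', hw', w1, te_ext h he (hS.mcl _ hw.1 _ hw') he.1.1 ?_ he.2.1 ?_,
    te_ext h he (hS.mcl _ hw' _ hw.1) he.1.1 ?_ he.2.1 ?_⟩
  · rw [mul_assoc, w1]
  · rw [h.mul _ hw.1 _ hw', w2, ← k, h.one, U.mul_inv]
  · rw [mul_assoc, hw.2.1]
  · rw [h.mul _ hw' _ hw.1, w2, ← k, h.one, U.inv_mul]

theorem Ln_unit [IsAlgClosed F] (hS : Nice F S) (he : e ∈ Irr F S) (ha : Lin F a)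
    (h1 : a ∈ Stb S) (hw : w ∈ Ln F S e a) :
    ∃ w' ∈ Ln F S e a⁻¹, w * w' = e ∧ w' * w = e := by
  obtain ⟨w', hw', w1, p, q⟩ := te_inv hS he ha h1 hw
  refine ⟨w', ⟨hw', w1, fun c => he.2.2.1 (by rw [← p, c, mul_zero]), fun x hx => ?_⟩, p, q⟩
  have m : a⁻¹ x ∈ S := Stb S |>.inv_mem h1 x |>.2 hx
  have k := hw.2.2.2 _ m
  rw [show a (a⁻¹ x) = x from a.apply_symm_apply x] at k
  calc w' * x = w' * (x * w) * w' := by
        rw [mul_assoc, mul_assoc, p, te_cen he (subset_span hx), ← mul_assoc, w1]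
    _ = a⁻¹ x * w' := by
        rw [← k, ← mul_assoc, q, ← te_cen he (subset_span m), mul_assoc, ← te_cen he hw', w1]
theorem te_mul (hS : Nice F S) {a' : RingAut A} (h2 : a' ∈ Stb S) (hw : w ∈ Ln F S e a)
    (hv : v ∈ Ln F S e a') (h0 : w * v ≠ 0) : w * v ∈ Ln F S e (a * a') :=
  ⟨hS.mcl _ hw.1 _ hv.1, by rw [mul_assoc, hv.2.1], h0, fun x hx => by
    rw [mul_assoc, hv.2.2.2 x hx, ← mul_assoc, hw.2.2.2 _ ((h2 x).2 hx), mul_assoc]
    rfl⟩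
theorem Ln_unique [IsAlgClosed F] (hS : Nice F S) (he : e ∈ Irr F S) (ha : Lin F a)
    (h1 : a ∈ Stb S) (hw : w ∈ Ln F S e a) (hv : v ∈ Ln F S e a) :
    ∃ c : F, c ≠ 0 ∧ v = c • w := by
  obtain ⟨w', hw', p, q⟩ := Ln_unit hS he ha h1 hw
  have k : w * (w' * v) = v := by rw [← mul_assoc, p, ← te_cen he hv.1, hv.2.1]
  have m := te_mul hS h1 hw' hv fun c => hv.2.2.1 (by rw [← k, c, mul_zero])
  rw [inv_mul_cancel] at m
  obtain ⟨c, r⟩ := he.2.2.2 (w' * v) ⟨m.1, m.2.2.2⟩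
  have s : v = c • w := by rw [← k, ← m.2.1, r, mul_smul_comm, hw.2.1]
  exact ⟨c, fun z => hv.2.2.1 (by rw [s, z, zero_smul]), s⟩
theorem Ln_mul [IsAlgClosed F] (hS : Nice F S) (he : e ∈ Irr F S) {a' : RingAut A} (ha : Lin F a)
    (h1 : a ∈ Stb S) (h2 : a' ∈ Stb S) (hw : w ∈ Ln F S e a) (hv : v ∈ Ln F S e a') :
    w * v ∈ Ln F S e (a * a') := by
  obtain ⟨w', -, -, -, q⟩ := te_inv hS he ha h1 hw
  exact te_mul hS h2 hw hv fun c => hv.2.2.1 (by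
    rw [← hv.2.1, te_cen he hv.1, ← q, mul_assoc, c, mul_zero])
theorem Ln_hm (hS : Nice F S) (he : e ∈ Irr F S) {m : A} (hm : m ∈ S)
    (h : ∀ x ∈ S, m * x = a x * m) : m * e ∈ Ln F S e a := by
  obtain ⟨ε, -, -, p, q, -⟩ := hS.unit
  obtain ⟨m', -, -, r⟩ := q m hm
  refine ⟨hS.mcl _ (subset_span hm) _ he.1.1, by rw [mul_assoc, he.2.1], fun c => he.2.2.1 ?_,
    fun x hx => ?_⟩
  · rw [← (p e he.1.1).1, ← r, mul_assoc, c, mul_zero]
  · rw [mul_assoc, he.1.2 x hx, ← mul_assoc, h x hx, mul_assoc]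
theorem Nd_ne [IsAlgClosed F] (hS : Nice F S) (he : e ∈ Irr F S) (ha : Lin F a)
    (h1 : a ∈ Stb S) (hw : w ∈ Ln F S e a) : Nd F S e w ≠ 0 := by
  obtain ⟨w', hw', -, p, -⟩ := te_inv hS he ha h1 hw
  exact left_ne_zero_of_mul_eq_one ((Nd_mul hS he hw.1 hw').symm.trans (by rw [p, Nd_self hS he]))

end Pool.Agent.Lib.MP_1ae3da_al.CT
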