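import Pool.Agent.Lib.MP_1ae3da_al.C.TA

/-! Wedderburn decomposition of a twisted group algebra. -/

namespace Pool.Agent.Lib.MP_1ae3da_al.CT

open Submodule

variable {F A G : Type} [Field F] [Ring A] [Algebra F A] [Group G] {u : G → A}

theorem tw_ne (hu : TG F u) (x : G) : u x ≠ 0 := hu.ind.ne_zero x

theorem tw_one_mul (hu : TG F u) (x : G) : u 1 * u x = u x := by
  obtain ⟨c, hc, e⟩ := hu.mul 1 x
  rw [one_mul] at e
  have h : c • c • u x = c • u x := by
    rw [← e, ← mul_smul_comm, ← e, ← mul_assoc, hu.one]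
  have h2 := smul_right_injective A hc h
  rw [e]; exact h2

theorem tw_mul_one (hu : TG F u) (x : G) : u x * u 1 = u x := by
  obtain ⟨c, hc, e⟩ := hu.mul x 1
  rw [mul_one] at e
  have h : c • c • u x = c • u x := by
    rw [← e, ← smul_mul_assoc, ← e, mul_assoc, hu.one]
  have h2 := smul_right_injective A hc h
  rw [e]; exact h2

theorem tw_mul_mem (hu : TG F u) {a b : A} (ha : a ∈ span F (Set.range u))
    (hb : b ∈ span F (Set.range u)) : a * b ∈ span F (Set.range u) := by
  have := Submodule.mul_mem_mul ha hb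
  rw [span_mul_span] at this
  refine span_le.2 ?_ this
  rintro _ ⟨_, ⟨x, rfl⟩, _, ⟨y, rfl⟩, rfl⟩
  obtain ⟨c, -, e⟩ := hu.mul x y
  show u x * u y ∈ _
  rw [e]
  exact smul_mem _ _ (subset_span ⟨_, rfl⟩)

theorem tw_one_mul' (hu : TG F u) {a : A} (ha : a ∈ span F (Set.range u)) : u 1 * a = a := by
  induction ha using span_induction with
  | mem x h => obtain ⟨x, rfl⟩ := h; exact tw_one_mul hu x
  | zero => simp
  | add x y _ _ a b => rw [mul_add, a, b]
  | smul c x _ a => rw [mul_smul_comm, a]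

theorem tw_mul_one' (hu : TG F u) {a : A} (ha : a ∈ span F (Set.range u)) : a * u 1 = a := by
  induction ha using span_induction with
  | mem x h => obtain ⟨x, rfl⟩ := h; exact tw_mul_one hu x
  | zero => simp
  | add x y _ _ a b => rw [add_mul, a, b]
  | smul c x _ a => rw [smul_mul_assoc, a]

/-- left multiplication on the span. -/
def twL (hu : TG F u) : span F (Set.range u) →ₗ[F] Module.End F (span F (Set.range u)) :=
  LinearMap.mk₂ F (fun a b => ⟨a * b, tw_mul_mem hu a.2 b.2⟩)
    (fun _ _ _ => Subtype.ext (add_mul _ _ _)) (fun _ _ _ => Subtype.ext (smul_mul_assoc _ _ _))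
    (fun _ _ _ => Subtype.ext (mul_add _ _ _)) (fun _ _ _ => Subtype.ext (mul_smul_comm _ _ _))

theorem twL_apply (hu : TG F u) (a b : span F (Set.range u)) : (twL hu a b : A) = a * b := rfl

/-- the regular representation as a unital algebra. -/
def twB (hu : TG F u) : Subalgebra F (Module.End F (span F (Set.range u))) :=
  (LinearMap.range (twL hu)).toSubalgebra
    ⟨⟨u 1, subset_span ⟨1, rfl⟩⟩, LinearMap.ext fun b => Subtype.ext (tw_one_mul' hu b.2)⟩ (by
      rintro _ _ ⟨a, rfl⟩ ⟨b, rfl⟩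
      exact ⟨⟨a * b, tw_mul_mem hu a.2 b.2⟩, LinearMap.ext fun c => Subtype.ext (mul_assoc _ _ _)⟩)

instance twRing (hu : TG F u) : Ring (twB hu) :=
  @Subalgebra.toRing F (Module.End F (span F (Set.range u))) _ _ _ (twB hu)

theorem tw_fin [Finite G] (hu : TG F u) : Module.Finite F (twB hu) := by
  have : Module.Finite F (span F (Set.range u)) :=
    Module.Finite.of_basis (Module.Basis.span hu.ind)
  exact Module.Finite.of_injective (twB hu).val.toLinearMap Subtype.val_injective

theorem tw_trace [Finite G] (hu : TG F u) (a : span F (Set.range u)) :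
    LinearMap.trace F _ (twL hu a) = Nat.card G * (Module.Basis.span hu.ind).repr a 1 := by
  classical
  have := Fintype.ofFinite G
  set b := Module.Basis.span hu.ind with hb
  have key : LinearMap.trace F _ ∘ₗ twL hu = (Nat.card G : F) • b.coord 1 := by
    refine b.ext fun x => ?_
    rw [LinearMap.comp_apply, LinearMap.trace_eq_matrix_trace F b, Matrix.trace]
    simp only [Matrix.diag, LinearMap.toMatrix_apply]
    have e : ∀ y, b.repr (twL hu (b x) (b y)) y = if x = 1 then 1 else 0 := fun y => by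
      split_ifs with h
      · subst h
        have : twL hu (b 1) (b y) = b y := Subtype.ext (by
          rw [twL_apply, hb, Module.Basis.span_apply, Module.Basis.span_apply]
          exact tw_one_mul hu y)
        rw [this]; simp
      · obtain ⟨c, -, e⟩ := hu.mul x y
        have : twL hu (b x) (b y) = c • b (x * y) := Subtype.ext (by
          rw [twL_apply, hb, Module.Basis.span_apply, Module.Basis.span_apply, e,
            Submodule.coe_smul, Module.Basis.span_apply])
        rw [this, map_smul, b.repr_self, Finsupp.smul_apply, Finsupp.single_eq_of_ne, smul_zero]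
        intro k
        exact h (by simpa using k.symm)
    simp only [e, Finset.sum_const, Finset.card_univ, LinearMap.smul_apply,
      Module.Basis.coord_apply, b.repr_self, Finsupp.single_apply, nsmul_eq_mul, smul_eq_mul,
      Nat.card_eq_fintype_card]
  simpa using LinearMap.congr_fun key a

theorem tw_ss [Finite G] (hu : TG F u) (hG : (Nat.card G : F) ≠ 0) : IsSemisimpleRing (twB hu) := by
  classical
  set b := Module.Basis.span hu.ind with hb
  have : Module.Finite F (span F (Set.range u)) := Module.Finite.of_basis b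
  have := tw_fin hu
  have : IsArtinianRing (twB hu) := IsArtinianRing.of_finite F _
  rw [IsArtinianRing.isSemisimpleRing_iff_jacobson, eq_bot_iff]
  rintro ⟨_, a, rfl⟩ hf
  obtain ⟨n, hn⟩ : IsNilpotent (Ring.jacobson (twB hu)) := IsSemiprimaryRing.isNilpotent
  have h0 : a = 0 := by
    refine b.ext_elem fun x => ?_
    have m := Ideal.mul_mem_left _ (⟨twL hu (b x⁻¹), _, rfl⟩ : twB hu) hf
    have nil := Ideal.pow_mem_pow m n
    rw [hn, Ideal.zero_eq_bot, Ideal.mem_bot] at nil
    have nil' : IsNilpotent (twL hu (b x⁻¹) * twL hu a) := ⟨n, congrArg Subtype.val nil⟩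
    have t0 := (LinearMap.isNilpotent_trace_of_isNilpotent nil').eq_zero
    have e1 : twL hu (b x⁻¹) * twL hu a = twL hu (twL hu (b x⁻¹) a) :=
      LinearMap.ext fun c => Subtype.ext (mul_assoc _ _ _).symm
    rw [e1, tw_trace, ← hb] at t0
    have t1 := (mul_eq_zero.1 t0).resolve_left hG
    obtain ⟨c, hc, e⟩ := hu.mul x⁻¹ x
    have key : b.coord 1 ∘ₗ twL hu (b x⁻¹) = c • b.coord x := by
      refine b.ext fun y => ?_
      obtain ⟨d, -, e'⟩ := hu.mul x⁻¹ y
      have : twL hu (b x⁻¹) (b y) = d • b (x⁻¹ * y) := Subtype.ext (by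
        rw [twL_apply, hb, Module.Basis.span_apply, Module.Basis.span_apply, e',
          Submodule.coe_smul, Module.Basis.span_apply])
      simp only [LinearMap.comp_apply, this, map_smul, Module.Basis.coord_apply, b.repr_self,
        LinearMap.smul_apply, Finsupp.single_apply, inv_mul_eq_one]
      split_ifs with h h' h'
      · subst h
        rw [e] at e'
        rw [smul_left_injective F (tw_ne hu _) e']
      · exact absurd h.symm h'
      · exact absurd h'.symm h
      · simp
    have t2 := LinearMap.congr_fun key a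
    simp only [LinearMap.comp_apply, Module.Basis.coord_apply, t1, LinearMap.smul_apply,
      smul_eq_mul] at t2
    simpa [hc] using t2
  subst h0
  exact Subtype.ext (map_zero _)

theorem tw_wed [IsAlgClosed F] [Finite G] (hu : TG F u) (hG : (Nat.card G : F) ≠ 0) :
    ∃ (n : ℕ) (d : Fin n → ℕ) (φ : (∀ i, Matrix (Fin (d i)) (Fin (d i)) F) →ₗ[F] A),
      (∀ i, 0 < d i) ∧ Function.Injective φ ∧ LinearMap.range φ = span F (Set.range u) ∧
        φ 1 = u 1 ∧ ∀ a b, φ (a * b) = φ a * φ b := by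
  have := tw_ss hu hG
  have := tw_fin hu
  obtain ⟨n, d, hd, ⟨e⟩⟩ := IsSemisimpleRing.exists_algEquiv_pi_matrix_of_isAlgClosed F (twB hu)
  let o : span F (Set.range u) := ⟨u 1, subset_span ⟨1, rfl⟩⟩
  let ev : twB hu →ₗ[F] A := (span F (Set.range u)).subtype ∘ₗ LinearMap.applyₗ o ∘ₗ
    (twB hu).val.toLinearMap
  have ev1 : ∀ a, ev ⟨twL hu a, a, rfl⟩ = a := fun a => tw_mul_one' hu a.2
  refine ⟨n, d, ev ∘ₗ e.symm.toLinearMap, fun i => Nat.pos_of_ne_zero (hd i).1, ?_, ?_, ?_, ?_⟩
  · refine Function.Injective.comp (g := ev) ?_ e.symm.injective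
    rintro ⟨_, a, rfl⟩ ⟨_, b, rfl⟩ h
    rw [ev1, ev1] at h
    exact Subtype.ext (congrArg (twL hu) (Subtype.ext h))
  · ext a
    constructor
    · rintro ⟨m, rfl⟩
      exact Subtype.prop _
    · intro ha
      exact ⟨e ⟨twL hu ⟨a, ha⟩, _, rfl⟩, by simpa using ev1 ⟨a, ha⟩⟩
  · show ev (e.symm 1) = u 1
    rw [map_one]; rfl
  · intro a b
    show ev (e.symm (a * b)) = ev (e.symm a) * ev (e.symm b)
    rw [map_mul]
    obtain ⟨_, x, rfl⟩ := e.symm a
    obtain ⟨_, y, rfl⟩ := e.symm b
    rw [ev1, ev1]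
    show (x : A) * (y * u 1) = x * y
    rw [tw_mul_one' hu y.2]

theorem tw_span : span F (Hm F u ⊤) = span F (Set.range u) := by
  refine le_antisymm (span_le.2 ?_) (span_mono ?_)
  · rintro _ ⟨c, -, x, -, rfl⟩
    exact smul_mem _ _ (subset_span ⟨x, rfl⟩)
  · rintro _ ⟨x, rfl⟩
    exact ⟨1, one_ne_zero, x, trivial, (one_smul _ _).symm⟩

theorem wed [IsAlgClosed F] [Finite G] (hu : TG F u) (hG : (Nat.card G : F) ≠ 0) :
    ∃ (m : ℕ) (d : Fin m → ℕ) (Φ : A →ₗ[F] Π i, Matrix (Fin (d i)) (Fin (d i)) F),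
      (∀ i, 0 < d i) ∧ Φ (u 1) = 1 ∧
      (∀ a ∈ span F (Hm F u ⊤), ∀ b ∈ span F (Hm F u ⊤), Φ (a * b) = Φ a * Φ b) ∧
      (∀ a ∈ span F (Hm F u ⊤), Φ a = 0 → a = 0) ∧ ∀ y, ∃ a ∈ span F (Hm F u ⊤), Φ a = y := by
  obtain ⟨m, d, φ, hd, hi, hr, h1, hm⟩ := tw_wed hu hG
  obtain ⟨Φ, hΦ⟩ := φ.exists_leftInverse_of_injective (LinearMap.ker_eq_bot.2 hi)
  have e : ∀ y, Φ (φ y) = y := fun y => LinearMap.congr_fun hΦ y
  rw [tw_span, ← hr]
  refine ⟨m, d, Φ, hd, by rw [← h1, e], ?_, ?_, fun y => ⟨φ y, ⟨y, rfl⟩, e y⟩⟩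
  · rintro _ ⟨a, rfl⟩ _ ⟨b, rfl⟩
    rw [← hm, e, e, e]
  · rintro _ ⟨a, rfl⟩ h
    rw [e] at h
    rw [h, map_zero]

end Pool.Agent.Lib.MP_1ae3da_al.CT
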