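import Pool.Agent.Lib.MP_1ae3da_al.C.DA
import Pool.Agent.Lib.MP_1ae3da_al.C.TE
import Pool.Agent.Lib.MP_1ae3da_al.C.TW

/-! Reduction modulo `p`: elements of finite order have integral coefficients. -/

namespace Pool.Agent.Lib.MP_1ae3da_al.CT

open Submodule

variable {p : ℕ} {F k A B G : Type} [Field F] [Field k] [Ring A] [Algebra F A] [Ring B]
  [Algebra k B] [Group G] [Fintype G] {O R : Subring F} {r : F → k}
  {GG : Subgroup (RingAut F)} {u : G → A} {v : G → B} {red : A → B}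

theorem dd_trace (h : PM p O R r GG) {V : Type} [AddCommGroup V] [Module F V] [Module.Finite F V]
    (f : Module.End F V) {j : ℕ} (hj : 0 < j) (hf : f ^ (j + 1) = f) :
    LinearMap.trace F V f ∈ R := by
  have := h.algF
  rw [Module.End.trace_eq_sum_roots_charpoly_of_splits (IsAlgClosed.splits _)]
  refine R.multiset_sum_mem _ fun c hc => ?_
  obtain ⟨x, hx⟩ := ((f.hasEigenvalue_iff_isRoot_charpoly c).2
    (Polynomial.isRoot_of_mem_roots hc)).exists_hasEigenvector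
  have e := hx.pow_apply (j + 1)
  rw [hf, hx.apply_eq_smul] at e
  have e2 := smul_left_injective F hx.2 e
  by_cases c0 : c = 0
  · exact c0 ▸ R.zero_mem
  · exact h.mu c j hj (mul_right_cancel₀ c0 (by rw [one_mul, ← pow_succ]; exact e2.symm))

theorem dd_t (h : PM p O R r GG) (hr : RD p R r u v red) {t : A →ₗ[F] F} (ht : Tf F u t) {b : A}
    (hb : b ∈ span F (Hm F u ⊤)) {j : ℕ} (hj : 0 < j) (hf : b ^ (j + 1) = b) : t b ∈ R := by
  classical
  have := h.charF
  rw [tw_span] at hb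
  have : Module.Finite F (span F (Set.range u)) := .span_of_finite F (Set.finite_range u)
  have e : ∀ (n : ℕ) (c : span F (Set.range u)), ((twL hr.tg ⟨b, hb⟩ ^ n) c : A) = b ^ n * c := by
    intro n
    induction n with
    | zero => simp
    | succ n ih => intro c; rw [pow_succ', Module.End.mul_apply, twL_apply, ih, pow_succ', mul_assoc]
  have k1 := dd_trace h (twL hr.tg ⟨b, hb⟩) hj (LinearMap.ext fun c => Subtype.ext (by
    rw [e, hf, twL_apply]))
  have k2 : t ∘ₗ (span F (Set.range u)).subtype = (Module.Basis.span hr.tg.ind).coord 1 :=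
    (Module.Basis.span hr.tg.ind).ext fun x => by
      rw [LinearMap.comp_apply, Module.Basis.coord_apply, Module.Basis.repr_self, subtype_apply,
        Module.Basis.span_apply, Finsupp.single_apply]
      split_ifs with o
      exacts [o ▸ ht.1, ht.2 x o]
  have k3 : t b = (Module.Basis.span hr.tg.ind).repr ⟨b, hb⟩ 1 := LinearMap.congr_fun k2 ⟨b, hb⟩
  rw [tw_trace, ← k3] at k1
  have := R.mul_mem (h.le (h.inv _ hr.cop)) k1
  rwa [inv_mul_cancel_left₀ (Nat.cast_ne_zero.2 Nat.card_pos.ne')] at this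

theorem RD.lam_of_fin (h : PM p O R r GG) (hr : RD p R r u v red) {H : Subgroup G} {a : A}
    (ha : a ∈ span F (Hm F u H))
    (hf : ∀ x ∈ H, ∃ j : ℕ, 0 < j ∧ (a * u x) ^ (j + 1) = a * u x) : a ∈ Lam R u := by
  obtain ⟨c, c0, e⟩ := exists_coord ha
  obtain ⟨t, ht⟩ := exists_Tf hr.tg
  refine ⟨c, fun x => ?_, e⟩
  by_cases hx : x ∈ H
  · obtain ⟨j, hj, k⟩ := hf _ (H.inv_mem hx)
    have k1 := dd_t h hr ht (span_mul hr.tg (span_mono (Hm_mono le_top) ha)
      (subset_span (u_mem_Hm (Subgroup.mem_top _)))) hj k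
    obtain ⟨d, d1, d2⟩ := hr.nrm x x⁻¹
    have k2 : t (a * u x⁻¹) = c x * d := by
      rw [e, Finset.sum_mul, map_sum, Finset.sum_eq_single x]
      · rw [smul_mul_assoc, d2, mul_inv_cancel, map_smul, map_smul, ht.1, smul_eq_mul, smul_eq_mul,
          mul_one]
      · intro y _ o
        obtain ⟨d', -, d3⟩ := hr.nrm y x⁻¹
        rw [smul_mul_assoc, d3, map_smul, map_smul, ht.2 _ (mt mul_inv_eq_one.1 o), smul_zero,
          smul_zero]
      · exact fun o => (o (Finset.mem_univ x)).elim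
    have := R.mul_mem (k2 ▸ k1) (h.mupR d1.inv)
    rwa [mul_inv_cancel_right₀ d1.ne] at this
  · exact c0 x hx ▸ R.zero_mem

theorem RD.irr_lam (h : PM p O R r GG) (hr : RD p R r u v red) {H : Subgroup G} {e : A}
    (he : e ∈ Cen F (Hm F u H)) (hi : e * e = e) : e ∈ Lam R u := by
  obtain ⟨N, hN, k⟩ := hr.u_pow h
  refine hr.lam_of_fin h he.1 fun x hx => ⟨N, Nat.pos_of_ne_zero fun o => hN (o ▸ dvd_zero p), ?_⟩
  rw [Commute.mul_pow (he.2 _ (u_mem_Hm hx)), IsIdempotentElem.pow_succ_eq N hi, pow_succ, k,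
    hr.tg.one_mul]

theorem dd_pow [IsAlgClosed F] {S : Set A} {e w : A} (hS : Nice F S) (he : e ∈ Irr F S)
    (hw : w ∈ span F S) {n : ℕ} (hn : 0 < n) :
    w ^ n ∈ span F S ∧ Nd F S e (w ^ n) = Nd F S e w ^ n := by
  induction n, hn using Nat.le_induction with
  | base => simpa using hw
  | succ n _ ih => exact ⟨pow_succ w n ▸ hS.span_mul ih.1 hw, by
      rw [pow_succ, Nd_mul hS he ih.1 hw, ih.2, pow_succ]⟩

theorem dd_ord {X : Set A} (hX : X.Finite) {a : RingAut A} (ha : Set.MapsTo a X X) :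
    ∃ m : ℕ, 0 < m ∧ ∀ x ∈ X, (a ^ m) x = x := by
  have := hX.to_subtype
  let σ : Equiv.Perm X := .ofBijective (ha.restrict _ _ _) (Finite.injective_iff_bijective.1
    fun x y o => Subtype.ext (a.injective (congrArg Subtype.val o)))
  have e : ∀ (n : ℕ) (x : X), ((σ ^ n) x : A) = (a ^ n) x := by
    intro n
    induction n with
    | zero => exact fun _ => rfl
    | succ n ih =>
      intro x
      rw [pow_succ', pow_succ']
      exact congrArg a (ih x)
  exact ⟨orderOf σ, orderOf_pos σ, fun x hx => (e _ ⟨x, hx⟩).symm.trans (by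
    rw [pow_orderOf_eq_one]; rfl)⟩

theorem RD.ln_fin (h : PM p O R r GG) (hr : RD p R r u v red) {H : Subgroup G} {e w : A}
    {a : RingAut A} (he : e ∈ Irr F (Hm F u H)) (ha : Lin F a) (hs : a ∈ Stb (Hm F u H))
    (hw : w ∈ Ln F (Hm F u H) e a) (hn : Mup p (Nd F (Hm F u H) e w)) :
    ∃ j : ℕ, 0 < j ∧ w ^ j = e := by
  have := h.algF
  have hS := nice_Hm hr.tg (hr.cardF h H)
  obtain ⟨-, N, hN, k⟩ := hr.stb_mup h hs
  obtain ⟨n, n1, n2⟩ := hn
  have pos : ∀ {m : ℕ}, ¬ p ∣ m → 0 < m := fun o => Nat.pos_of_ne_zero fun z => o (z ▸ dvd_zero p)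
  have fin : {c : F | c ^ N = 1}.Finite := (Polynomial.nthRoots N (1 : F)).finite_toSet.subset
    fun c o => (Polynomial.mem_nthRoots (pos hN)).2 o
  obtain ⟨m, m0, hm⟩ := dd_ord (a := a) (fin.image2 (fun c x => c • u x) (Set.toFinite (H : Set G)))
    (by
      rintro _ ⟨c, hc, x, hx, rfl⟩
      obtain ⟨y, hy, d, hd, o⟩ := k x hx
      exact ⟨c * d, by rw [Set.mem_ofPred, mul_pow, hd, mul_one]; exact hc, y, hy, by
        beta_reduce
        rw [ha, o, smul_smul]⟩)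
  have e1 : ∀ i : ℕ, ∀ x ∈ Hm F u H, w ^ i * x = (a ^ i) x * w ^ i := by
    intro i
    induction i with
    | zero => intro x _; rw [pow_zero, pow_zero, one_mul, mul_one]; rfl
    | succ i ih =>
      intro x hx
      rw [pow_succ' w, mul_assoc, ih x hx, ← mul_assoc,
        hw.2.2.2 _ (((Stb _).pow_mem hs i x).2 hx), mul_assoc, pow_succ' a]
      rfl
  have p1 := dd_pow hS he hw.1 m0
  obtain ⟨c, hc⟩ := he.2.2.2 (w ^ m) ⟨p1.1, by
    rintro _ ⟨d, -, x, hx, rfl⟩
    rw [mul_smul_comm, smul_mul_assoc, e1 m _ (u_mem_Hm hx),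
      hm _ ⟨1, one_pow N, x, hx, one_smul F _⟩]⟩
  obtain ⟨m, rfl⟩ := Nat.exists_eq_succ_of_ne_zero m0.ne'
  rw [pow_succ, mul_assoc, hw.2.1, ← pow_succ] at hc
  have p2 := p1.2
  rw [hc, Nd_smul hS he, Nd_self hS he, mul_one] at p2
  have d0 := Nat.mul_pos (Dg_sq hS he).2 (pos n1)
  refine ⟨(m + 1) * (dg F (Hm F u H) e * n), Nat.mul_pos m0 d0, ?_⟩
  rw [pow_mul, hc, smul_pow, pow_mul c, p2, ← pow_mul, mul_comm _ n, pow_mul, n2, one_pow, one_smul]
  exact IsIdempotentElem.pow_eq he.2.1 d0.ne'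

theorem RD.ln_lam (h : PM p O R r GG) (hr : RD p R r u v red) {H : Subgroup G} {e w : A}
    {a : RingAut A} (he : e ∈ Irr F (Hm F u H)) (ha : Lin F a) (hs : a ∈ Stb (Hm F u H))
    (hw : w ∈ Ln F (Hm F u H) e a) (hn : Mup p (Nd F (Hm F u H) e w)) : w ∈ Lam R u := by
  have := h.algF
  have hS := nice_Hm hr.tg (hr.cardF h H)
  obtain ⟨N, hN, k⟩ := hr.u_pow h
  refine hr.lam_of_fin h hw.1 fun x hx => ?_
  obtain ⟨b, hb⟩ := exists_ad hr.tg x
  have m1 : u x ∈ Hm F u H := u_mem_Hm hx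
  have s1 := hb.stb hr.tg (H.le_normalizer hx)
  have l := Ln_mul hS he ha hs s1 hw (Ln_hm hS he m1 fun y hy =>
    hb.2.2 y (subset_span (Hm_mono le_top hy)))
  rw [← he.1.2 _ m1, ← mul_assoc, hw.2.1] at l
  have n1 : Mup p (Nd F (Hm F u H) e (u x)) := ⟨N, hN, by
    rw [← (dd_pow hS he (subset_span m1) (Nat.pos_of_ne_zero fun o : N = 0 => hN (o ▸ dvd_zero p))).2,
      k,
      ← Nd_mul_e hS he (subset_span (u_mem_Hm H.one_mem)), (one_span hr.tg he.1.1).1,
      Nd_self hS he]⟩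
  obtain ⟨j, j0, hj⟩ := hr.ln_fin h he (ha.mul hb.1) ((Stb _).mul_mem hs s1) l (by
    rw [Nd_mul hS he hw.1 (subset_span m1)]
    exact Mup.mul h.prime hn n1)
  exact ⟨j, j0, by rw [pow_succ', hj, l.2.1]⟩

end Pool.Agent.Lib.MP_1ae3da_al.CT
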