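import Pool.Agent.Lib.MP_1ae3da_al.C.DC
import Pool.Agent.Lib.MP_1ae3da_al.C.DD

/-! Reduction modulo `p`: blocks correspond. Central elements lift to central elements by
averaging. -/

namespace Pool.Agent.Lib.MP_1ae3da_al.CT

open Submodule

variable {p : ℕ} {F k A B G : Type} [Field F] [Field k] [Ring A] [Algebra F A] [Ring B]
  [Algebra k B] [Group G] [Fintype G] {O R : Subring F} {r : F → k}
  {GG : Subgroup (RingAut F)} {u : G → A} {v : G → B} {red : A → B}

theorem de_inv (h : PM p O R r GG) (hr : RD p R r u v red) (H : Subgroup G) (y : H) :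
    ∃ w ∈ Lam R u, w ∈ span F (Hm F u H) ∧ u y * w = u 1 := by
  obtain ⟨c, hc, e⟩ := hr.nrm y (y : G)⁻¹
  refine ⟨c⁻¹ • u (y : G)⁻¹, lam_smul (h.mupR hc.inv) (lam_u _),
    smul_mem _ _ (subset_span (u_mem_Hm (inv_mem y.2))), ?_⟩
  rw [mul_smul_comm, e, smul_smul, inv_mul_cancel₀ hc.ne, one_smul, mul_inv_cancel]

theorem de_lift (h : PM p O R r GG) (hr : RD p R r u v red) {H : Subgroup G} {z : B}
    (hz : z ∈ Cen k (Hm k v H)) : ∃ a ∈ Lam R u, a ∈ Cen F (Hm F u H) ∧ red a = z := by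
  classical
  obtain ⟨a, la, sa, ea⟩ := hr.red_surj h hz.1
  choose w lw sw ew using de_inv h hr H
  have su (y : H) : u y ∈ span F (Hm F u H) := subset_span (u_mem_Hm y.2)
  have lt (y : H) : u y * a * w y ∈ Lam R u :=
    hr.lam_mul h (hr.lam_mul h (lam_u _) la) (lw y)
  have ls := lam_sum Finset.univ _ fun y _ => lt y
  have n : ((Nat.card H : ℕ) : F)⁻¹ ∈ R :=
    h.le (h.inv _ fun d => hr.cop (d.trans H.card_subgroup_dvd_card))
  have ew' (y : H) : w y * u y = u 1 := by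
    obtain ⟨b, hb, -, e⟩ := Hm_inv hr.tg (u_mem_Hm (F := F) (u := u) y.2)
    have : b = w y := by
      rw [← (one_span hr.tg (subset_span hb)).2, ← ew y, ← mul_assoc, e,
        (one_span hr.tg (sw y)).1]
    rwa [← this]
  have key (g y : H) : u (g * y : H) * a * w (g * y) * u g = u g * (u y * a * w y) := by
    obtain ⟨c, -, e⟩ := hr.tg.mul g y
    have : w (g * y) * u g = c • w y := by
      rw [← hr.tg.mul_one g, ← ew y, ← mul_assoc (u g), e, ← mul_assoc, mul_smul_comm,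
        ← Subgroup.coe_mul, ew', smul_mul_assoc, (one_span hr.tg (sw y)).1]
    rw [mul_assoc, this, ← mul_assoc, ← mul_assoc, e, mul_smul_comm, smul_mul_assoc,
      smul_mul_assoc, Subgroup.coe_mul]
  refine ⟨((Nat.card H : ℕ) : F)⁻¹ • ∑ y : H, u y * a * w y, lam_smul n ls, ⟨smul_mem _ _
    (sum_mem fun y _ => span_mul hr.tg (span_mul hr.tg (su y) sa) (sw y)), ?_⟩, ?_⟩
  · rintro _ ⟨c, -, g, hg, rfl⟩
    rw [smul_mul_assoc, mul_smul_comm, mul_smul_comm, smul_mul_assoc, Finset.mul_sum,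
      ← Equiv.sum_comp (Equiv.mulLeft (⟨g, hg⟩ : H)), Finset.sum_mul]
    congr 2
    exact Finset.sum_congr rfl fun y _ => key ⟨g, hg⟩ y
  · have e (y : H) : red (u y * a * w y) = z := by
      rw [hr.mul _ (hr.lam_mul h (lam_u _) la) _ (lw y), hr.mul _ (lam_u _) _ la, ea, hr.red_u h,
        ← hz.2 _ (u_mem_Hm y.2), mul_assoc, ← hr.red_u h, ← hr.mul _ (lam_u _) _ (lw y), ew,
        hr.red_u h, (one_span hr.tgk hz.1).2]
    have i := h.mul _ n _ (natCast_mem R (Nat.card H))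
    rw [inv_mul_cancel₀ (hr.cardF h H), h.one, h.r_nat] at i
    rw [hr.red_smul h n ls, hr.red_sum h _ _ fun y _ => lt y]
    simp only [e]
    rw [Finset.sum_const, Finset.card_univ, ← Nat.card_eq_fintype_card,
      ← Nat.cast_smul_eq_nsmul k, smul_smul, ← i, one_smul]

theorem de_map (h : PM p O R r GG) (hr : RD p R r u v red) {H : Subgroup G} {e : A}
    (he : e ∈ Irr F (Hm F u H)) : red e ∈ Irr k (Hm k v H) := by
  have := h.algF
  have le := hr.irr_lam h he.1 he.2.1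
  have n0 : red e ≠ 0 := fun z => Dg_ne (nice_Hm hr.tg (hr.cardF h H)) he (by
    rw [← hr.dg_red h le he.1.1 he.2.1, z, Dg, LinearMap.mulRight_zero_eq_zero,
      Submodule.map_zero, finrank_bot, Nat.cast_zero])
  refine ⟨⟨hr.red_mem h le he.1.1, ?_⟩, by rw [← hr.mul _ le _ le, he.2.1], n0, fun z hz => ?_⟩
  · rintro _ ⟨c, -, x, hx, rfl⟩
    rw [mul_smul_comm, smul_mul_assoc, ← hr.red_u h, ← hr.mul _ le _ (lam_u _),
      ← hr.mul _ (lam_u _) _ le, he.1.2 _ (u_mem_Hm hx)]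
  · obtain ⟨a, la, ca, rfl⟩ := de_lift h hr hz
    obtain ⟨c, hc⟩ := he.2.2.2 a ca
    have lm := hr.lam_mul h la le
    obtain ⟨d, dR, ed⟩ := id lm
    obtain ⟨b, bR, eb⟩ := id le
    obtain ⟨x, hx⟩ : ∃ x, r (b x) ≠ 0 := by
      by_contra! n
      exact n0 (by rw [eb, hr.val b bR]; simp [n])
    have dx : d x = c * b x := by
      refine (Fintype.linearIndependent_iffₛ.1 hr.tg.ind d (fun x => c * b x) ?_ x)
      rw [← ed, hc, eb, Finset.smul_sum]
      simp only [smul_smul]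
    have q : red (b x • (a * e)) = red (d x • e) := by rw [hc, smul_smul, dx, mul_comm]
    rw [hr.red_smul h (bR x) lm, hr.red_smul h (dR x) le, hr.mul _ la _ le] at q
    exact ⟨(r (b x))⁻¹ * r (d x), by rw [mul_smul, ← q, inv_smul_smul₀ hx]⟩

theorem RD.irr_bij (h : PM p O R r GG) (hr : RD p R r u v red) (H : Subgroup G) :
    Set.BijOn red (Irr F (Hm F u H)) (Irr k (Hm k v H)) := by
  have := h.algF
  refine ⟨fun e he => de_map h hr he, fun e he e' he' q => ?_, fun f hf => ?_⟩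
  · by_contra n
    refine (de_map h hr he).2.2.1 ?_
    rw [← (de_map h hr he).2.1]
    conv_lhs => rw [q]; lhs; rw [← q]
    rw [← hr.mul _ (hr.irr_lam h he.1 he.2.1) _ (hr.irr_lam h he'.1 he'.2.1), Irr_orth he he' n,
      hr.red_zero h]
  · obtain ⟨s, hs, e⟩ := Irr_sum hr.tg (hr.cardF h H)
    have m : ∀ e ∈ s, e ∈ Irr F (Hm F u H) := fun e he => hs ▸ Finset.mem_coe.2 he
    by_contra n
    refine hf.2.2.1 ?_
    rw [← (one_span hr.tgk hf.1.1).2, ← hr.red_u h, ← e,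
      hr.red_sum h s (fun e => e) fun e he => hr.irr_lam h (m e he).1 (m e he).2.1,
      Finset.mul_sum]
    exact Finset.sum_eq_zero fun e he =>
      Irr_orth hf (de_map h hr (m e he)) fun q => n ⟨e, m e he, q.symm⟩

theorem RD.not_dvd_k (h : PM p O R r GG) (hr : RD p R r u v red) {H : Subgroup G} {e : B}
    (he : e ∈ Irr k (Hm k v H)) : ¬ p ∣ Dg k (Hm k v H) e := by
  have := h.algk
  have := h.chark
  exact fun d => Dg_ne (nice_Hm hr.tgk (hr.cardk h H)) he ((CharP.cast_eq_zero_iff k p _).2 d)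

theorem RD.not_dvd (h : PM p O R r GG) (hr : RD p R r u v red) {H : Subgroup G} {e : A}
    (he : e ∈ Irr F (Hm F u H)) : ¬ p ∣ Dg F (Hm F u H) e := by
  rw [← hr.dg_red h (hr.irr_lam h he.1 he.2.1) he.1.1 he.2.1]
  exact hr.not_dvd_k h (de_map h hr he)

end Pool.Agent.Lib.MP_1ae3da_al.CT
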