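import Pool.Agent.Lib.MP_1ae3da_al.C.DA

/-! Reduction modulo `p`: reduction of automorphisms: delta (red a) = red (gamma a). -/

namespace Pool.Agent.Lib.MP_1ae3da_al.CT

open Submodule

variable {p : ℕ} {F k A B G : Type} [Field F] [Field k] [Ring A] [Algebra F A] [Ring B]
  [Algebra k B] [Group G] [Fintype G] {O R : Subring F} {r : F → k}
  {GG : Subgroup (RingAut F)} {u : G → A} {v : G → B} {red : A → B}

theorem df_surj (h : PM p O R r GG) (hr : RD p R r u v red) (z : B) :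
    ∃ a ∈ Lam R u, red a = z := by
  have : z ∈ span k (Hm k v ⊤) := by
    refine span_mono (s := Set.range v) ?_ (hr.top ▸ mem_top)
    rintro _ ⟨x, rfl⟩
    exact ⟨1, one_ne_zero, x, trivial, (one_smul _ _).symm⟩
  obtain ⟨a, ha, -, e⟩ := hr.red_surj h this
  exact ⟨a, ha, e⟩

theorem df_u (h : PM p O R r GG) (hr : RD p R r u v red) {γ : RingAut A}
    (h2 : γ ∈ Stb (Hm F u ⊤)) (x : G) : γ (u x) ∈ Lam R u := by
  obtain ⟨-, N, hN, hx⟩ := hr.stb_mup h h2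
  obtain ⟨y, -, c, hc, e⟩ := hx x trivial
  rw [e]
  exact lam_smul (h.mupR ⟨N, hN, hc⟩) (lam_u y)

theorem df_fun (h : PM p O R r GG) (hr : RD p R r u v red) {γ : RingAut A} {σ : RingAut F}
    {τ : RingAut k} (h1 : SL F σ γ) (hR : ∀ x ∈ R, σ x ∈ R ∧ r (σ x) = τ (r x))
    (h2 : γ ∈ Stb (Hm F u ⊤)) : ∃ d : B → B, ∀ a ∈ Lam R u, γ a ∈ Lam R u ∧ red (γ a) = d (red a) := by
  have m : ∀ c : G → F, (∀ x, c x ∈ R) → γ (∑ x, c x • u x) ∈ Lam R u ∧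
      red (γ (∑ x, c x • u x)) = ∑ x, τ (r (c x)) • red (γ (u x)) := fun c hc => by
    have q : ∀ x ∈ Finset.univ, σ (c x) • γ (u x) ∈ Lam R u := fun x _ =>
      lam_smul (hR _ (hc x)).1 (df_u h hr h2 x)
    rw [map_sum]
    simp only [h1 _ _]
    refine ⟨lam_sum _ _ q, ?_⟩
    rw [hr.red_sum h _ _ q]
    exact Finset.sum_congr rfl fun x _ => by
      rw [hr.red_smul h (hR _ (hc x)).1 (df_u h hr h2 x), (hR _ (hc x)).2]
  choose s hs es using df_surj h hr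
  refine ⟨fun z => red (γ (s z)), ?_⟩
  rintro _ ⟨c, hc, rfl⟩
  obtain ⟨c', hc', e'⟩ := hs (red (∑ x, c x • u x))
  have e := es (red (∑ x, c x • u x))
  refine ⟨(m c hc).1, ?_⟩
  beta_reduce
  rw [e'] at e ⊢
  rw [hr.val c hc, hr.val c' hc'] at e
  have q := Fintype.linearIndependent_iffₛ.1 hr.tgk.ind _ _ e
  rw [(m c hc).2, (m c' hc').2]
  simp only [q]

theorem df_core (h : PM p O R r GG) (hr : RD p R r u v red) {γ : RingAut A} {σ : RingAut F}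
    {τ : RingAut k} (h1 : SL F σ γ) (hR : ∀ x, σ x ∈ R ↔ x ∈ R) (hτ : ∀ x ∈ R, r (σ x) = τ (r x))
    (h2 : γ ∈ Stb (Hm F u ⊤)) : ∃ δ : RingAut B, Bar R u red γ δ ∧ SL k τ δ := by
  obtain ⟨d, hd⟩ := df_fun h hr h1 (fun x hx => ⟨(hR x).2 hx, hτ x hx⟩) h2
  obtain ⟨d', hd'⟩ := df_fun h hr (γ := γ.symm) (σ := σ.symm) (τ := τ.symm)
    (fun c a => γ.injective (by rw [h1]; simp))
    (fun x hx => by
      have a : σ.symm x ∈ R := (hR _).1 (by simpa using hx)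
      exact ⟨a, τ.injective (by rw [← hτ _ a]; simp)⟩) (inv_mem h2)
  refine ⟨⟨⟨d, d', fun z => ?_, fun z => ?_⟩, fun y z => ?_, fun y z => ?_⟩, hd, fun c z => ?_⟩
  · obtain ⟨a, ha, rfl⟩ := df_surj h hr z
    rw [← (hd a ha).2, ← (hd' _ (hd a ha).1).2, γ.symm_apply_apply]
  · obtain ⟨a, ha, rfl⟩ := df_surj h hr z
    rw [← (hd' a ha).2, ← (hd _ (hd' a ha).1).2, γ.apply_symm_apply]
  · obtain ⟨a, ha, rfl⟩ := df_surj h hr y
    obtain ⟨b, hb, rfl⟩ := df_surj h hr z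
    change d _ = d _ * d _
    rw [← hr.mul a ha b hb, ← (hd _ (hr.lam_mul h ha hb)).2, map_mul,
      hr.mul _ (hd a ha).1 _ (hd b hb).1, (hd a ha).2, (hd b hb).2]
  · obtain ⟨a, ha, rfl⟩ := df_surj h hr y
    obtain ⟨b, hb, rfl⟩ := df_surj h hr z
    change d _ = d _ + d _
    rw [← hr.red_add h ha hb, ← (hd _ (lam_add ha hb)).2, map_add,
      hr.red_add h (hd a ha).1 (hd b hb).1, (hd a ha).2, (hd b hb).2]
  · obtain ⟨a, ha, rfl⟩ := df_surj h hr z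
    obtain ⟨x, hx, rfl⟩ := h.r_surj c
    change d _ = _ • d _
    rw [← hr.red_smul h hx ha, ← (hd _ (lam_smul hx ha)).2, h1,
      hr.red_smul h ((hR x).2 hx) (hd a ha).1, hτ x hx, (hd a ha).2]

theorem RD.exists_bar (h : PM p O R r GG) (hr : RD p R r u v red) {γ : RingAut A}
    (h1 : γ ∈ SG GG A) (h2 : γ ∈ Stb (Hm F u ⊤)) :
    ∃ δ : RingAut B, Bar R u red γ δ ∧ δ ∈ SG (⊤ : Subgroup (RingAut k)) B := by
  obtain ⟨σ, hσ, hs⟩ := h1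
  obtain ⟨-, hR, τ, hτ⟩ := h.gal σ hσ
  obtain ⟨δ, a, b⟩ := df_core h hr hs hR hτ h2
  exact ⟨δ, a, τ, trivial, b⟩

theorem RD.exists_bar_lin (h : PM p O R r GG) (hr : RD p R r u v red) {γ : RingAut A}
    (h1 : Lin F γ) (h2 : γ ∈ Stb (Hm F u ⊤)) : ∃ δ : RingAut B, Bar R u red γ δ :=   (hr.exists_bar h ⟨1, one_mem _, h1⟩ h2).imp fun _ a => a.1

theorem RD.bar_unique (h : PM p O R r GG) (hr : RD p R r u v red) {γ γ' : RingAut A}
    {δ δ' : RingAut B} (h1 : Bar R u red γ δ) (h2 : Bar R u red γ' δ')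
    (h3 : ∀ a ∈ Lam R u, γ a = γ' a) : δ = δ' := by
  ext z
  obtain ⟨a, ha, rfl⟩ := df_surj h hr z
  rw [← (h1 a ha).2, ← (h2 a ha).2, h3 a ha]

theorem Bar.one : Bar R u red 1 1 := fun _ ha => ⟨ha, rfl⟩

theorem Bar.mul {γ γ' : RingAut A} {δ δ' : RingAut B} (h1 : Bar R u red γ δ)
    (h2 : Bar R u red γ' δ') : Bar R u red (γ * γ') (δ * δ') := fun a ha =>
  ⟨(h1 _ (h2 a ha).1).1, (h1 _ (h2 a ha).1).2.trans (congrArg δ (h2 a ha).2)⟩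

theorem RD.bar_inv (h : PM p O R r GG) (hr : RD p R r u v red) {γ : RingAut A} {δ : RingAut B}
    (h1 : γ ∈ SG GG A) (h2 : γ ∈ Stb (Hm F u ⊤)) (h3 : Bar R u red γ δ) :
    Bar R u red γ⁻¹ δ⁻¹ := by
  obtain ⟨δ', a, -⟩ := hr.exists_bar h (inv_mem h1) (inv_mem h2)
  have e := hr.bar_unique h (h3.mul a) Bar.one fun b _ => by rw [mul_inv_cancel]
  rwa [← eq_inv_of_mul_eq_one_right e]

theorem RD.bar_lin (h : PM p O R r GG) (hr : RD p R r u v red) {γ : RingAut A} {δ : RingAut B}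
    (h1 : Bar R u red γ δ) (h2 : Lin F γ) : Lin k δ := fun c z => by
  obtain ⟨a, ha, rfl⟩ := df_surj h hr z
  obtain ⟨x, hx, rfl⟩ := h.r_surj c
  rw [← hr.red_smul h hx ha, ← (h1 _ (lam_smul hx ha)).2, h2, hr.red_smul h hx (h1 a ha).1,
    (h1 a ha).2]

theorem df_sg (h : PM p O R r GG) (hr : RD p R r u v red) {γ : RingAut A} {δ : RingAut B}
    (h1 : Bar R u red γ δ) (h2 : γ ∈ SG GG A) (h3 : γ ∈ Stb (Hm F u ⊤)) :
    δ ∈ SG (⊤ : Subgroup (RingAut k)) B := by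
  obtain ⟨δ', a, b⟩ := hr.exists_bar h h2 h3
  rwa [hr.bar_unique h h1 a fun _ _ => rfl]

theorem df_map (h : PM p O R r GG) (hr : RD p R r u v red) {γ : RingAut A} {δ : RingAut B}
    (h1 : Bar R u red γ δ) (h2 : δ ∈ SG (⊤ : Subgroup (RingAut k)) B) {H : Subgroup G}
    (hH : γ ∈ Stb (Hm F u H)) {z : B} (hz : z ∈ Hm k v H) : δ z ∈ Hm k v H := by
  obtain ⟨τ, -, hτ⟩ := h2
  obtain ⟨c, hc, x, hx, rfl⟩ := hz
  obtain ⟨-, N, hN, hy⟩ := hr.stb_mup h hH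
  obtain ⟨y, hy, c', hc', e⟩ := hy x hx
  have m : Mup p c' := ⟨N, hN, hc'⟩
  refine ⟨τ c * r c', mul_ne_zero ((map_ne_zero τ).2 hc) (h.r_ne m), y, hy, ?_⟩
  rw [hτ, ← hr.red_u h x, ← (h1 _ (lam_u x)).2, e, hr.red_smul h (h.mupR m) (lam_u y),
    hr.red_u h, smul_smul]

theorem RD.bar_stb (h : PM p O R r GG) (hr : RD p R r u v red) {γ : RingAut A} {δ : RingAut B}
    (h1 : Bar R u red γ δ) (h2 : γ ∈ SG GG A) (h3 : γ ∈ Stb (Hm F u ⊤)) :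
    δ ∈ SG (⊤ : Subgroup (RingAut k)) B ∧
      ∀ H : Subgroup G, γ ∈ Stb (Hm F u H) → δ ∈ Stb (Hm k v H) := by
  have s := df_sg h hr h1 h2 h3
  refine ⟨s, fun H hH z => ⟨fun hz => ?_, df_map h hr h1 s hH⟩⟩
  have := df_map h hr (hr.bar_inv h h2 h3 h1) (inv_mem s) (inv_mem hH) hz
  rwa [← RingAut.mul_apply, inv_mul_cancel] at this

end Pool.Agent.Lib.MP_1ae3da_al.CT
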