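import Pool.Agent.Lib.MP_1ae3da_al.C.DE
import Pool.Agent.Lib.MP_1ae3da_al.C.DF

/-! Reduction modulo `p`: normalised lines -/

namespace Pool.Agent.Lib.MP_1ae3da_al.CT

open Submodule

variable {p : ℕ} {F k A B G : Type} [Field F] [Field k] [Ring A] [Algebra F A] [Ring B]
  [Algebra k B] [Group G] [Fintype G] {O R : Subring F} {r : F → k}
  {GG : Subgroup (RingAut F)} {u : G → A} {v : G → B} {red : A → B}

theorem RD.dg_pow (h : PM p O R r GG) (hr : RD p R r u v red) {w : A} (hw : w ∈ Lam R u) (j : ℕ) :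
    w ^ (j + 1) ∈ Lam R u ∧ red (w ^ (j + 1)) = red w ^ (j + 1) := by
  induction j with
  | zero => simpa using hw
  | succ j ih =>
    rw [pow_succ w, pow_succ (red w), hr.mul _ ih.1 _ hw, ih.2]
    exact ⟨hr.lam_mul h ih.1 hw, rfl⟩

theorem RD.ln_bij (h : PM p O R r GG) (hr : RD p R r u v red) {H : Subgroup G} {e : A}
    {a : RingAut A} {δ : RingAut B} (he : e ∈ Irr F (Hm F u H)) (ha : Lin F a)
    (hs : a ∈ Stb (Hm F u H)) (hf : a e = e) (hb : Bar R u red a δ) (hd : δ ∈ Stb (Hm k v H)) :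
    Set.BijOn red {w | w ∈ Ln F (Hm F u H) e a ∧ Mup p (Nd F (Hm F u H) e w)}
      (Ln k (Hm k v H) (red e) δ) := by
  have := h.algF
  have := h.algk
  have hS := nice_Hm hr.tg (hr.cardF h H)
  have hT := nice_Hm hr.tgk (hr.cardk h H)
  have he' := (hr.irr_bij h H).mapsTo he
  have hδ := hr.bar_lin h hb ha
  have eL := hr.irr_lam h he.1 he.2.1
  have nd : ¬ p ∣ dg F (Hm F u H) e := fun k =>
    hr.not_dvd h he ((Dg_sq hS he).1 ▸ k.trans (dvd_pow_self _ two_ne_zero))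
  have m : Set.MapsTo red {w | w ∈ Ln F (Hm F u H) e a ∧ Mup p (Nd F (Hm F u H) e w)}
      (Ln k (Hm k v H) (red e) δ) := by
    rintro w ⟨hw, hn⟩
    have wL := hr.ln_lam h he ha hs hw hn
    refine ⟨hr.red_mem h wL hw.1, by rw [← hr.mul _ wL _ eL, hw.2.1], fun z => ?_, ?_⟩
    · obtain ⟨j, p0, hj⟩ := hr.ln_fin h he ha hs hw hn
      obtain ⟨j, rfl⟩ := Nat.exists_eq_succ_of_ne_zero p0.ne'
      have := (hr.dg_pow h wL j).2
      rw [hj, z, zero_pow j.succ_ne_zero] at this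
      exact he'.2.2.1 this
    · rintro _ ⟨c, -, y, hy, rfl⟩
      have k := congrArg red (hw.2.2.2 _ (u_mem_Hm hy))
      rw [hr.mul _ wL _ (lam_u y), hr.mul _ (hb _ (lam_u y)).1 _ wL, (hb _ (lam_u y)).2,
        hr.red_u h] at k
      rw [mul_smul_comm, hδ, smul_mul_assoc, k]
  refine ⟨m, fun w hw w' hw' q => ?_, fun t ht => ?_⟩
  · obtain ⟨c, -, rfl⟩ := Ln_unique hS he ha hs hw.1 hw'.1
    have c1 : Mup p c := by
      refine Mup.of_pow h.prime nd ?_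
      have := hw'.2.mul h.prime hw.2.inv
      rwa [Nd_smul hS he, mul_inv_cancel_right₀ hw.2.ne] at this
    rw [hr.red_smul h (h.mupR c1) (hr.ln_lam h he ha hs hw.1 hw.2)] at q
    have c2 : r c = 1 := by
      have z : (r c - 1) • red w = 0 := by rw [sub_smul, one_smul, ← q, sub_self]
      exact sub_eq_zero.1 ((smul_eq_zero.1 z).resolve_right (m hw).2.2.1)
    rw [h.r_inj c1 c2, one_smul]
  · obtain ⟨w, hw⟩ := Ln_exists hS he ha hs hf
    have n0 := Nd_ne hS he ha hs hw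
    have d0 : 0 < dg F (Hm F u H) e := (Dg_sq hS he).2
    obtain ⟨c, hc⟩ := IsAlgClosed.exists_pow_nat_eq (Nd F (Hm F u H) e w)⁻¹ d0
    have c0 : c ≠ 0 := fun z => inv_ne_zero n0 (by rw [← hc, z, zero_pow d0.ne'])
    have n1 : Nd F (Hm F u H) e (c • w) = 1 := by rw [Nd_smul hS he, hc, inv_mul_cancel₀ n0]
    have w1 : c • w ∈ {w | w ∈ Ln F (Hm F u H) e a ∧ Mup p (Nd F (Hm F u H) e w)} :=
      ⟨Ln_smul hw c0, 1, h.prime.not_dvd_one, by rw [n1, one_pow]⟩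
    obtain ⟨c', c1, rfl⟩ := Ln_unique hT he' hδ hd (m w1) ht
    obtain ⟨ξ, x1, rfl⟩ := h.teich c' c1
    refine ⟨ξ • c • w, ⟨Ln_smul w1.1 x1.ne, ?_⟩,
      hr.red_smul h (h.mupR x1) (hr.ln_lam h he ha hs w1.1 w1.2)⟩
    obtain ⟨n, a1, a2⟩ := x1
    exact ⟨n, a1, by rw [Nd_smul hS he, n1, mul_one, ← pow_mul, mul_comm, pow_mul, a2, one_pow]⟩

end Pool.Agent.Lib.MP_1ae3da_al.CT
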