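import Mathlib

/-! Twisted group algebras inside one ambient algebra: definitions. -/

namespace Pool.Agent.Lib.MP_1ae3da_al.CT

open Submodule

section defs
variable (F : Type) {A : Type} [Field F] [Ring A] [Algebra F A]

/-- `u` is the basis of a twisted group algebra of `G` inside `A` (with unit `u 1`). -/
structure TG {G : Type} [Group G] (u : G → A) : Prop where
  mul : ∀ x y, ∃ c : F, c ≠ 0 ∧ u x * u y = c • u (x * y)
  ind : LinearIndependent F u
  one : u 1 * u 1 = u 1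

/-- the nonzero homogeneous elements over `H`. -/
def Hm {G : Type} [Group G] (u : G → A) (H : Subgroup G) : Set A :=
  {a | ∃ c : F, c ≠ 0 ∧ ∃ x ∈ H, a = c • u x}

/-- the sets of homogeneous elements of semisimple twisted group algebras. -/
def Nice (S : Set A) : Prop :=
  ∃ (G : Type) (_ : Group G) (_ : Finite G) (u : G → A),
    TG F u ∧ (Nat.card G : F) ≠ 0 ∧ S = Hm F u ⊤

/-- `t` is the coefficient of `u 1`. -/
def Tf {G : Type} [Group G] (u : G → A) (t : A →ₗ[F] F) : Prop :=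
  t (u 1) = 1 ∧ ∀ x, x ≠ 1 → t (u x) = 0

/-- the centre of the span of `S`. -/
def Cen (S : Set A) : Set A := {z | z ∈ span F S ∧ ∀ s ∈ S, z * s = s * z}

/-- the primitive central idempotents of the span of `S`. -/
def Irr (S : Set A) : Set A :=
  {e | e ∈ Cen F S ∧ e * e = e ∧ e ≠ 0 ∧ ∀ z ∈ Cen F S, ∃ c : F, z * e = c • e}

/-- the dimension of the block of `e` (the square of the degree). -/
noncomputable def Dg (S : Set A) (e : A) : ℕ :=
  Module.finrank F ((span F S).map (LinearMap.mulRight F e))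

/-- the blocks of dimension prime to `p`. -/
def IrrP (p : ℕ) (S : Set A) : Set A := {e | e ∈ Irr F S ∧ ¬ p ∣ Dg F S e}

/-- `γ` is `σ`-semilinear. -/
def SL (σ : RingAut F) (γ : RingAut A) : Prop := ∀ (c : F) (a : A), γ (c • a) = σ c • γ a

/-- `γ` is linear. -/
def Lin (γ : RingAut A) : Prop := ∀ (c : F) (a : A), γ (c • a) = c • γ a

variable {F} in
/-- the automorphisms of `A` that are semilinear over a member of `GG`. -/
def SG (GG : Subgroup (RingAut F)) (A : Type) [Ring A] [Algebra F A] : Subgroup (RingAut A) where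
  carrier := {γ | ∃ σ ∈ GG, SL F σ γ}
  one_mem' := ⟨1, one_mem _, fun _ _ => rfl⟩
  mul_mem' := by
    rintro a b ⟨σ, hσ, h1⟩ ⟨τ, hτ, h2⟩
    exact ⟨σ * τ, mul_mem hσ hτ, fun c x => by
      change a (b (c • x)) = σ (τ c) • a (b x)
      rw [h2, h1]⟩
  inv_mem' := by
    rintro a ⟨σ, hσ, h⟩
    refine ⟨σ⁻¹, inv_mem hσ, fun c x => ?_⟩
    change a.symm (c • x) = σ.symm c • a.symm x
    apply a.injective
    rw [h]; simp

end defs

section groups
variable {A : Type} [Ring A]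

/-- the stabiliser of a set. -/
def Stb (S : Set A) : Subgroup (RingAut A) where
  carrier := {γ | ∀ a, γ a ∈ S ↔ a ∈ S}
  one_mem' := fun _ => Iff.rfl
  mul_mem' := fun {a b} ha hb x => (ha (b x)).trans (hb x)
  inv_mem' := fun {a} ha x => by
    have := ha (a.symm x)
    rw [a.apply_symm_apply] at this
    exact this.symm

/-- the stabiliser of an element. -/
def Fx (e : A) : Subgroup (RingAut A) where
  carrier := {γ | γ e = e}
  one_mem' := rfl
  mul_mem' := fun {a b} ha hb => by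
    change a (b e) = e
    rw [show b e = e from hb]; exact ha
  inv_mem' := fun {a} ha => by
    change a.symm e = e
    rw [RingEquiv.symm_apply_eq]; exact (show a e = e from ha).symm

/-- `Ω` is a `Γ`-equivariant bijection from `X` to `Y`. -/
def EqB (Γ : Subgroup (RingAut A)) (X Y : Set A) (Ω : A → A) : Prop :=
  Set.BijOn Ω X Y ∧ ∀ γ ∈ Γ, ∀ x ∈ X, γ x ∈ X ∧ Ω (γ x) = γ (Ω x)

/-- there is a `Γ`-equivariant bijection from `X` to `Y`. -/
def EB (Γ : Subgroup (RingAut A)) (X Y : Set A) : Prop := ∃ Ω, EqB Γ X Y Ω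

/-- the stabiliser of `e` in `G`. -/
def St {G : Type} [Group G] (u : G → A) (e : A) : Subgroup G :=
  Subgroup.closure {x | u x * e = e * u x}

end groups

section blocks
variable (F : Type) {A : Type} [Field F] [Ring A] [Algebra F A]

/-- `a` is conjugation by `u x` on the span of `u`. -/
def IsAd {G : Type} [Group G] (u : G → A) (x : G) (a : RingAut A) : Prop :=
  Lin F a ∧ a ∈ Stb (Hm F u ⊤) ∧ ∀ b ∈ span F (Hm F u ⊤), u x * b = a b * u x

/-- the homogeneous elements of the centraliser of `L` in the block of `e`. -/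
def Cz (H L : Set A) (e : A) : Set A :=
  {z | z ≠ 0 ∧ (∃ t ∈ H, ∃ w ∈ span F L, z = w * e * t) ∧ ∀ x ∈ L, z * x = x * z}

/-- the nonzero elements of the block of `e` that implement `a`. -/
def Ln (S : Set A) (e : A) (a : RingAut A) : Set A :=
  {w | w ∈ span F S ∧ w * e = w ∧ w ≠ 0 ∧ ∀ x ∈ S, w * x = a x * w}

/-- a matrix model of the block of `e`. -/
structure MM (S : Set A) (e : A) {n : ℕ} (ρ : A →ₗ[F] Matrix (Fin n) (Fin n) F) : Prop where
  mul : ∀ a ∈ span F S, ∀ b ∈ span F S, ρ (a * b) = ρ a * ρ b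
  one : ρ e = 1
  inj : ∀ a ∈ span F S, ρ a = 0 → a * e = 0
  surj : ∀ m, ∃ a ∈ span F S, ρ a = m
  pos : 0 < n

open Classical in
/-- the determinant in the block of `e`. -/
noncomputable def Nd (S : Set A) (e w : A) : F :=
  if h : ∃ (n : ℕ) (ρ : A →ₗ[F] Matrix (Fin n) (Fin n) F), MM F S e ρ then
    (h.choose_spec.choose w).det else 0

open Classical in
/-- the trace in the block of `e` (the irreducible character). -/
noncomputable def Chv (S : Set A) (e w : A) : F :=
  if h : ∃ (n : ℕ) (ρ : A →ₗ[F] Matrix (Fin n) (Fin n) F), MM F S e ρ then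
    (h.choose_spec.choose w).trace else 0

/-- the degree of the block of `e`. -/
noncomputable def dg (S : Set A) (e : A) : ℕ := Nat.sqrt (Dg F S e)

/-- `j` is a primitive idempotent in the block of `e`. -/
def Prim (S : Set A) (e j : A) : Prop :=
  j ∈ span F S ∧ j * e = j ∧ j * j = j ∧ j ≠ 0 ∧ ∀ b ∈ span F S, ∃ c : F, j * b * j = c • j

/-- a link between the block `e` of `L` and the block `e'` of `M`. -/
structure Link (Γ : Subgroup (RingAut A)) (L M : Set A) (e e' : A)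
    (U : RingAut A → A → A → Prop) : Prop where
  int : ∀ a w w', U a w w' → a ∈ Γ ∧ Lin F a ∧ w ∈ Ln F L e a ∧ w' ∈ Ln F M e' a
  tot : ∀ a ∈ Γ, Lin F a → ∃ w w', U a w w'
  mul : ∀ a w w' b v v', U a w w' → U b v v' → U (a * b) (w * v) (w' * v')
  smul : ∀ a w w' (c : F), c ≠ 0 → U a w w' → U a (c • w) (c • w')
  fn : ∀ a w w₁ w₂, U a w w₁ → U a w w₂ → w₁ = w₂
  loc : ∀ a ∈ Γ, Lin F a → ∀ m ∈ M, (∀ x ∈ L, m * x = a x * m) → U a (m * e) (m * e')
  nat : ∀ γ ∈ Γ, ∀ a w w', U a w w' → U (γ * a * γ⁻¹) (γ w) (γ w')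

/-- an equivariant bijection of blocks together with links. -/
def LK (Γ : Subgroup (RingAut A)) (L M X Y : Set A) : Prop :=
  ∃ Ω, EqB Γ X Y Ω ∧ ∀ e ∈ X, ∃ U, Link F (Γ ⊓ Fx e) L M e (Ω e) U

/-- the McKay bijection for the twisted group algebra `u`. -/
def MN (p : ℕ) (GG : Subgroup (RingAut F)) {G : Type} [Group G] (u : G → A) (P : Subgroup G) :
    Prop :=
  EB (SG GG A ⊓ Stb (Hm F u ⊤) ⊓ Stb (Hm F u P)) (IrrP F p (Hm F u ⊤))
    (IrrP F p (Hm F u (Subgroup.normalizer (P : Set G))))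

/-- the McKay bijection with links. -/
def ML (p : ℕ) (GG : Subgroup (RingAut F)) (L M : Set A) : Prop :=
  LK F (SG GG A ⊓ Stb L ⊓ Stb M) L M (IrrP F p L) (IrrP F p M)

end blocks

/-- `c` is a root of unity of order prime to `p`. -/
def Mup (p : ℕ) {K : Type} [Monoid K] (c : K) : Prop := ∃ n : ℕ, ¬ p ∣ n ∧ c ^ n = 1

/-- a `p`-modular system with a group `GG` of automorphisms. -/
structure PM (p : ℕ) {F k : Type} [Field F] [Field k] (O R : Subring F) (r : F → k)
    (GG : Subgroup (RingAut F)) : Prop where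
  prime : p.Prime
  charF : CharZero F
  algF : IsAlgClosed F
  chark : CharP k p
  algk : IsAlgClosed k
  le : O ≤ R
  add : ∀ x ∈ R, ∀ y ∈ R, r (x + y) = r x + r y
  mul : ∀ x ∈ R, ∀ y ∈ R, r (x * y) = r x * r y
  one : r 1 = 1
  mu : ∀ (ξ : F) (n : ℕ), 0 < n → ξ ^ n = 1 → ξ ∈ R
  mup : ∀ ξ : F, Mup p ξ → ξ ∈ O
  inv : ∀ n : ℕ, ¬ p ∣ n → (n : F)⁻¹ ∈ O
  teich : ∀ c : k, c ≠ 0 → ∃ ξ : F, Mup p ξ ∧ r ξ = c
  ker : ∀ x ∈ O, r x = 0 ↔ ∃ y ∈ O, x = p * y
  dvr : IsDiscreteValuationRing O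
  cpl : IsAdicComplete (Ideal.span {(p : O)}) O
  gal : ∀ σ ∈ GG, (∀ x, σ x ∈ O ↔ x ∈ O) ∧ (∀ x, σ x ∈ R ↔ x ∈ R) ∧
    ∃ τ : RingAut k, ∀ x ∈ R, r (σ x) = τ (r x)
  fix : ∀ x : F, (∀ σ ∈ GG, (∀ y ∈ O, σ y = y) → σ x = x) → ∃ a : ℕ, (p : F) ^ a * x ∈ O
  cyc : ∀ ξ ξ' : F, IsPrimitiveRoot ξ p → IsPrimitiveRoot ξ' p →
    ∃ σ ∈ GG, (∀ y ∈ O, σ y = y) ∧ σ ξ = ξ'

/-- the standard basis of the group algebra. -/
noncomputable def gu (F X : Type) [Field F] [Group X] (x : X) : MonoidAlgebra F X :=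
  MonoidAlgebra.single x 1

/-- the product of a finite family in a fixed order. -/
noncomputable def Pr {A I : Type} [Monoid A] [Fintype I] (y : I → A) : A :=
  (Finset.univ.toList.map y).prod

section red
variable {F A G : Type} [Field F] [Ring A] [Algebra F A] [Group G]

variable (F) in
/-- the cocycle of `u` takes values in the roots of unity of order prime to `p`. -/
def Nrm (p : ℕ) (u : G → A) : Prop :=
  ∀ x y, ∃ c : F, Mup p c ∧ u x * u y = c • u (x * y)

/-- the elements with coefficients in `R`. -/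
def Lam [Fintype G] (R : Subring F) (u : G → A) : Set A :=
  {a | ∃ c : G → F, (∀ x, c x ∈ R) ∧ a = ∑ x, c x • u x}

/-- reduction modulo `p` of a normalised twisted group algebra. -/
structure RD [Fintype G] {k B : Type} [Field k] [Ring B] [Algebra k B] (p : ℕ) (R : Subring F)
    (r : F → k) (u : G → A) (v : G → B) (red : A → B) : Prop where
  tg : TG F u
  nrm : Nrm F p u
  cop : ¬ p ∣ Nat.card G
  tgk : TG k v
  top : span k (Set.range v) = ⊤
  val : ∀ c : G → F, (∀ x, c x ∈ R) → red (∑ x, c x • u x) = ∑ x, r (c x) • v x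
  mul : ∀ a ∈ Lam R u, ∀ b ∈ Lam R u, red (a * b) = red a * red b

/-- `δ` is the reduction of `γ`. -/
def Bar [Fintype G] {B : Type} [Ring B] (R : Subring F) (u : G → A) (red : A → B)
    (γ : RingAut A) (δ : RingAut B) : Prop :=
  ∀ a ∈ Lam R u, γ a ∈ Lam R u ∧ red (γ a) = δ (red a)

end red

/-- the span of the relative traces from proper subgroups. -/
def RT {K V E : Type} [Field K] [AddCommGroup V] [Module K V] [Group E]
    (ρ : E →* Module.End K V) : Submodule K (Module.End K V) :=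
  span K {f | ∃ U : Subgroup E, U ≠ ⊤ ∧ ∃ y : Module.End K V,
    (∀ g ∈ U, ρ g * y = y * ρ g) ∧ f = ∑ᶠ q : E ⧸ U, ρ q.out * y * ρ q.out⁻¹}

end Pool.Agent.Lib.MP_1ae3da_al.CT
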