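import Pool.Agent.Lib.MP_1ae3da_al.C.SysA

set_option autoImplicit false

/-! The group of automorphisms of `F` acting on the residue field by powers of Frobenius, and its
comparison with the group of Navarro. -/

namespace Pool.Agent.Lib.MP_1ae3da_al.Sys

open Polynomial

variable {p : ℕ} [hp : Fact p.Prime]

/-- functoriality of Witt vectors -/
noncomputable def wm : RingAut (kk p) →* RingAut (O p) where
  toFun t := RingEquiv.ofBijective (WittVector.map t.toRingHom)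
    ⟨WittVector.map_injective _ t.injective, WittVector.map_surjective _ t.surjective⟩
  map_one' := RingEquiv.ext fun _ => WittVector.ext fun _ => rfl
  map_mul' _ _ := RingEquiv.ext fun _ => WittVector.ext fun _ => rfl

theorem red_wm (t : RingAut (kk p)) (x : O p) : red p (wm t x) = t (red p x) := rfl

theorem wm_teich (t : RingAut (kk p)) (x : kk p) :
    wm t (WittVector.teichmuller p x) = WittVector.teichmuller p (t x) :=
  WittVector.map_teichmuller p t.toRingHom x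

/-- `σ` preserves `O` and acts on the residue field by `t` -/
def Lifts (t : RingAut (kk p)) (σ : RingAut (F p)) : Prop :=
  ∀ x : O p, σ (algebraMap (O p) (F p) x) = algebraMap (O p) (F p) (wm t x)

theorem Lifts.one : Lifts (1 : RingAut (kk p)) 1 := fun x => by
  rw [map_one]
  rfl

theorem Lifts.mul {t t' : RingAut (kk p)} {σ σ' : RingAut (F p)} (h : Lifts t σ)
    (h' : Lifts t' σ') : Lifts (t * t') (σ * σ') := fun x => by
  rw [map_mul]
  exact (congrArg σ (h' x)).trans (h _)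

theorem Lifts.inv {t : RingAut (kk p)} {σ : RingAut (F p)} (h : Lifts t σ) :
    Lifts t⁻¹ σ⁻¹ := fun x => by
  apply σ.injective
  rw [h, map_inv]
  exact (σ.apply_symm_apply _).trans (congrArg _ ((wm t).apply_symm_apply x).symm)

theorem Lifts.unique {t t' : RingAut (kk p)} {σ : RingAut (F p)} (h : Lifts t σ)
    (h' : Lifts t' σ) : t = t' := RingEquiv.ext fun x => by
  have := congrArg (red p) (inj_OF p ((h (WittVector.teichmuller p x)).symm.trans (h' _)))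
  rwa [red_wm, red_wm, red_teich] at this

theorem Lifts.tm {t : RingAut (kk p)} {σ : RingAut (F p)} (h : Lifts t σ) (x : kk p) :
    σ (tm p x) = tm p (t x) := by
  rw [tm_apply, h, wm_teich, tm_apply]

theorem exists_lifts (t : RingAut (kk p)) : ∃ σ, Lifts t σ :=
  ⟨IsAlgClosure.equivOfEquiv (F p) (F p)
    (IsFractionRing.ringEquivOfRingEquiv (K := K0 p) (L := K0 p) (wm t)), fun x => by
    rw [IsScalarTower.algebraMap_apply (O p) (K0 p) (F p), IsAlgClosure.equivOfEquiv_algebraMap,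
      IsFractionRing.ringEquivOfRingEquiv_algebraMap, ← IsScalarTower.algebraMap_apply]⟩

theorem lifts_alg (ρ : F p ≃ₐ[K0 p] F p) : Lifts (1 : RingAut (kk p)) ρ.toRingEquiv := fun x => by
  rw [map_one, IsScalarTower.algebraMap_apply (O p) (K0 p) (F p)]
  exact ρ.commutes _

theorem Lifts.mem_R {t : RingAut (kk p)} {σ : RingAut (F p)} (h : Lifts t σ) {x : F p}
    (hx : x ∈ R p) : σ x ∈ R p := by
  induction hx using Algebra.adjoin_induction with
  | mem x hx =>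
    obtain ⟨n, hn, e⟩ := hx
    exact root_mem hn (by rw [← map_pow, e, map_one])
  | algebraMap a =>
    rw [h]
    exact Subalgebra.algebraMap_mem _ _
  | add x y _ _ h1 h2 =>
    rw [map_add]
    exact add_mem h1 h2
  | mul x y _ _ h1 h2 =>
    rw [map_mul]
    exact mul_mem h1 h2

theorem Lifts.r_eq {t : RingAut (kk p)} {σ : RingAut (F p)} (h : Lifts t σ) {x : F p}
    (hx : x ∈ R p) (hx' : σ x ∈ R p) : r p ⟨σ x, hx'⟩ = t (r p ⟨x, hx⟩) := by
  have mul : ∀ x y (hx : x ∈ R p) (hy : y ∈ R p),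
      r p ⟨σ x, h.mem_R hx⟩ = t (r p ⟨x, hx⟩) → r p ⟨σ y, h.mem_R hy⟩ = t (r p ⟨y, hy⟩) →
      r p ⟨σ (x * y), h.mem_R (mul_mem hx hy)⟩ = t (r p ⟨x * y, mul_mem hx hy⟩) := by
    intro x y hx hy h1 h2
    have e1 : (⟨σ (x * y), h.mem_R (mul_mem hx hy)⟩ : R p) =
        ⟨σ x, h.mem_R hx⟩ * ⟨σ y, h.mem_R hy⟩ := Subtype.ext (map_mul σ x y)
    have e2 : (⟨x * y, mul_mem hx hy⟩ : R p) = ⟨x, hx⟩ * ⟨y, hy⟩ := rfl
    rw [e1, e2, map_mul, map_mul, map_mul, h1, h2]
  induction hx using Algebra.adjoin_induction with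
  | mem x hx =>
    obtain ⟨n, hn, e⟩ := hx
    obtain ⟨a, m, y, z, hm, hy, hz, rfl⟩ := split_root hp.out hn e
    obtain ⟨w, -, rfl⟩ := exists_tm hm hz
    have hyR : y ∈ R p := root_mem (pow_pos hp.out.pos a) hy
    refine mul _ _ hyR (tm_mem w) ?_ ?_
    · rw [r_ppow (a := a) (ξ := ⟨y, hyR⟩) (Subtype.ext hy), map_one]
      exact r_ppow (a := a) (Subtype.ext (show σ y ^ p ^ a = 1 by rw [← map_pow, hy, map_one]))
    · rw [r_tm, ← r_tm (t w) (tm_mem _)]
      exact congrArg (r p) (Subtype.ext (h.tm w))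
  | algebraMap a =>
    exact (congrArg (r p) (Subtype.ext (h a))).trans
      ((r_alg (wm t a)).trans (congrArg t (r_alg a).symm))
  | add x y hx hy h1 h2 =>
    have e1 : (⟨σ (x + y), hx'⟩ : R p) = ⟨σ x, h.mem_R hx⟩ + ⟨σ y, h.mem_R hy⟩ :=
      Subtype.ext (map_add σ x y)
    rw [e1, map_add, h1, h2, ← map_add]
    exact congrArg t (map_add (r p) ⟨x, hx⟩ ⟨y, hy⟩).symm
  | mul x y hx hy h1 h2 => exact mul x y hx hy (h1 _) (h2 _)

variable (p)

/-- Frobenius of the residue field -/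
noncomputable def frob : RingAut (kk p) := frobeniusEquiv (kk p) p

/-- the automorphisms of `F` that preserve `O` and act on the residue field by a power of
Frobenius -/
noncomputable def GG : Subgroup (RingAut (F p)) where
  carrier := {σ | ∃ e : ℤ, Lifts (frob p ^ e) σ}
  one_mem' := ⟨0, by rw [zpow_zero]; exact Lifts.one⟩
  mul_mem' := fun ⟨e, h⟩ ⟨e', h'⟩ => ⟨e + e', by rw [zpow_add]; exact h.mul h'⟩
  inv_mem' := fun ⟨e, h⟩ => ⟨-e, by rw [zpow_neg]; exact h.inv⟩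

variable {p}

theorem frob_pow (e : ℕ) (x : kk p) : (frob p ^ e) x = x ^ p ^ e := by
  induction e generalizing x with
  | zero => simp
  | succ e ih =>
    rw [pow_succ, pow_succ', pow_mul, ← ih]
    rfl

/-- the action on the residue field -/
noncomputable def tau : GG p →* RingAut (kk p) where
  toFun σ := frob p ^ σ.2.choose
  map_one' := (1 : GG p).2.choose_spec.unique Lifts.one
  map_mul' σ σ' := (σ * σ').2.choose_spec.unique (σ.2.choose_spec.mul σ'.2.choose_spec)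

theorem lifts_tau (σ : GG p) : Lifts (tau σ) σ.1 := σ.2.choose_spec

theorem GG_mem_R (σ : GG p) {x : F p} (hx : x ∈ R p) : σ.1 x ∈ R p := (lifts_tau σ).mem_R hx

theorem r_GG (σ : GG p) {x : F p} (hx : x ∈ R p) (hx' : σ.1 x ∈ R p) :
    r p ⟨σ.1 x, hx'⟩ = tau σ (r p ⟨x, hx⟩) := (lifts_tau σ).r_eq hx hx'

instance algQbar : Algebra.IsAlgebraic ℚ NSV.Qbar := AlgebraicClosure.isAlgebraic ℚ

instance closQbar : IsAlgClosure ℚ NSV.Qbar := ⟨inferInstance, algQbar⟩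

instance normQbar : Normal ℚ NSV.Qbar := IsAlgClosure.normal ℚ NSV.Qbar

variable (p)

/-- an embedding of the algebraic numbers -/
noncomputable def j : NSV.Qbar →ₐ[ℚ] F p := IsAlgClosed.lift

variable {p}

theorem j_inj : Function.Injective (j p) := (j p).toRingHom.injective

theorem exists_res (σ : RingAut (F p)) :
    ∃ s : NSV.Qbar ≃ₐ[ℚ] NSV.Qbar, ∀ x, j p (s x) = σ (j p x) := by
  let _ : Algebra NSV.Qbar (F p) := (j p).toRingHom.toAlgebra
  have : IsScalarTower ℚ NSV.Qbar (F p) :=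
    IsScalarTower.of_algebraMap_eq fun x => ((j p).commutes x).symm
  let σ' : F p ≃ₐ[ℚ] F p := { σ with commutes' := fun q => map_ratCast σ q }
  exact ⟨σ'.restrictNormal NSV.Qbar, fun x => σ'.restrictNormal_commutes NSV.Qbar x⟩

/-- restriction to the algebraic numbers -/
noncomputable def res : RingAut (F p) →* (NSV.Qbar ≃ₐ[ℚ] NSV.Qbar) where
  toFun σ := (exists_res σ).choose
  map_one' := AlgEquiv.ext fun x => j_inj ((exists_res (1 : RingAut (F p))).choose_spec x)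
  map_mul' σ σ' := AlgEquiv.ext fun x => j_inj (by
    rw [(exists_res (σ * σ')).choose_spec, AlgEquiv.mul_apply, (exists_res σ).choose_spec,
      (exists_res σ').choose_spec]
    rfl)

theorem j_res (σ : RingAut (F p)) (x : NSV.Qbar) : j p (res σ x) = σ (j p x) :=
  (exists_res σ).choose_spec x

theorem Lifts.root {e : ℕ} {σ : RingAut (F p)} (h : Lifts (frob p ^ e) σ) {m : ℕ}
    (hm : m.Coprime p) {ξ : F p} (hξ : ξ ^ m = 1) : σ ξ = ξ ^ p ^ e := by
  obtain ⟨x, -, rfl⟩ := exists_tm hm hξ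
  rw [h.tm, frob_pow, map_pow]

theorem Lifts.res_mem {e : ℕ} {σ : RingAut (F p)} (h : Lifts (frob p ^ e) σ) :
    res σ ∈ NSV.H0 p :=
  ⟨e, fun n ξ hn hξ => j_inj (p := p) (by
    rw [j_res, map_pow, h.root hn (by rw [← map_pow, hξ, map_one])])⟩

theorem res_mem_H {σ : RingAut (F p)} (h : σ ∈ GG p) : res σ ∈ NSV.H p := by
  obtain ⟨e, h⟩ := h
  obtain ⟨n, rfl | rfl⟩ := e.eq_nat_or_neg
  · rw [zpow_natCast] at h
    exact Subgroup.subset_closure h.res_mem
  · have h' := h.inv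
    rw [zpow_neg, inv_inv, zpow_natCast] at h'
    have := inv_mem (Subgroup.subset_closure (k := NSV.H0 p) h'.res_mem)
    rwa [map_inv, inv_inv] at this

/-- every root of unity of `F` is an algebraic number -/
theorem exists_j {n : ℕ} (hn : 0 < n) {ξ : F p} (h : ξ ^ n = 1) :
    ∃ x : NSV.Qbar, x ^ n = 1 ∧ j p x = ξ := by
  have : NeZero n := ⟨hn.ne'⟩
  obtain ⟨x, hx⟩ := HasEnoughRootsOfUnity.exists_primitiveRoot NSV.Qbar n
  obtain ⟨i, -, rfl⟩ := (hx.map_of_injective (j_inj (p := p))).eq_pow_of_pow_eq_one h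
  exact ⟨x ^ i, by rw [← pow_mul, mul_comm, pow_mul, hx.pow_eq_one, one_pow], map_pow _ _ _⟩

theorem exists_alg (σ : RingAut (F p)) (s : NSV.Qbar ≃ₐ[ℚ] NSV.Qbar) (a : ℕ) :
    ∃ ρ : F p ≃ₐ[K0 p] F p, ∀ ξ : NSV.Qbar, ξ ^ p ^ (a + 1) = 1 →
      ρ (σ (j p ξ)) = j p (s ξ) := by
  have hpos : 0 < p ^ (a + 1) := pow_pos hp.out.pos _
  have : NeZero (p ^ (a + 1)) := ⟨hpos.ne'⟩
  obtain ⟨ζ, hζ⟩ := HasEnoughRootsOfUnity.exists_primitiveRoot NSV.Qbar (p ^ (a + 1))
  have h1 : IsPrimitiveRoot (σ (j p ζ)) (p ^ (a + 1)) :=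
    (hζ.map_of_injective j_inj).map_of_injective σ.injective
  have h2 : IsPrimitiveRoot (j p (s ζ)) (p ^ (a + 1)) :=
    (hζ.map_of_injective s.injective).map_of_injective j_inj
  have hc : IsConjRoot (K0 p) (j p (s ζ)) (σ (j p ζ)) := by
    rw [isConjRoot_def, ← h1.minpoly_eq_cyclotomic_of_irreducible (cyc_irr a),
      ← h2.minpoly_eq_cyclotomic_of_irreducible (cyc_irr a)]
  obtain ⟨ρ, hρ⟩ := hc.exists_algEquiv
  refine ⟨ρ, fun ξ hξ => ?_⟩
  obtain ⟨i, -, rfl⟩ := hζ.eq_pow_of_pow_eq_one hξ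
  simp only [map_pow, hρ]

theorem closed_eq (x y : F p) : IsClosed {ρ : F p ≃ₐ[K0 p] F p | ρ x = y} := by
  rw [← isOpen_compl_iff, isOpen_iff_forall_mem_open]
  intro ρ hρ
  refine ⟨(fun g => ρ⁻¹ * g) ⁻¹' (MulAction.stabilizer (F p ≃ₐ[K0 p] F p) x : Set _),
    fun g hg e => hρ ?_, (stabilizer_isOpen_of_isIntegral x).preimage (by fun_prop), by simp⟩
  have h1 : ρ.symm (g x) = x := hg
  rw [AlgEquiv.symm_apply_eq] at h1
  exact h1.symm.trans e

theorem exists_alg_all (σ : RingAut (F p)) (s : NSV.Qbar ≃ₐ[ℚ] NSV.Qbar) :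
    ∃ ρ : F p ≃ₐ[K0 p] F p, ∀ (a : ℕ) (ξ : NSV.Qbar), ξ ^ p ^ a = 1 →
      ρ (σ (j p ξ)) = j p (s ξ) := by
  let C : ℕ → Set (F p ≃ₐ[K0 p] F p) := fun a =>
    {ρ | ∀ ξ : NSV.Qbar, ξ ^ p ^ (a + 1) = 1 → ρ (σ (j p ξ)) = j p (s ξ)}
  have hc : ∀ a, IsClosed (C a) := fun a => by
    simp only [C, Set.ofPred_forall]
    exact isClosed_iInter fun ξ => isClosed_iInter fun _ => closed_eq _ _
  have up : ∀ (a : ℕ) (ξ : NSV.Qbar), ξ ^ p ^ a = 1 → ξ ^ p ^ (a + 1) = 1 := fun a ξ h => by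
    rw [pow_succ, pow_mul, h, one_pow]
  obtain ⟨ρ, hρ⟩ := IsCompact.nonempty_iInter_of_sequence_nonempty_isCompact_isClosed C
    (fun a ρ h ξ hξ => h ξ (up _ ξ hξ)) (fun a => exists_alg σ s a) (hc 0).isCompact hc
  exact ⟨ρ, fun a ξ h => Set.mem_iInter.1 hρ a ξ (up a ξ h)⟩

/-- an element of `H0` agrees on all roots of unity with an element of `GG` -/
theorem exists_GG_H0 {s : NSV.Qbar ≃ₐ[ℚ] NSV.Qbar} (hs : s ∈ NSV.H0 p) :
    ∃ σ ∈ GG p, ∀ (n : ℕ) (ξ : NSV.Qbar), 0 < n → ξ ^ n = 1 → res σ ξ = s ξ := by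
  obtain ⟨e, he⟩ := hs
  obtain ⟨σ, hσ⟩ := exists_lifts (frob p ^ e)
  obtain ⟨ρ, hρ⟩ := exists_alg_all σ s
  have hl := (lifts_alg ρ).mul hσ
  rw [one_mul] at hl
  refine ⟨_, ⟨e, by rwa [zpow_natCast]⟩, fun n ξ hn hξ => ?_⟩
  obtain ⟨a, m, x, y, hm, hx, hy, rfl⟩ := split_root hp.out hn hξ
  rw [map_mul (res _), map_mul s, he m y hm hy]
  congr 1
  · exact j_inj (p := p) ((j_res _ x).trans (hρ a x hx))
  · apply j_inj (p := p)
    rw [j_res, map_pow, hl.root hm (by rw [← map_pow, hy, map_one])]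

/-- an element of `H` agrees on all roots of unity with an element of `GG` -/
theorem exists_GG {s : NSV.Qbar ≃ₐ[ℚ] NSV.Qbar} (hs : s ∈ NSV.H p) :
    ∃ σ ∈ GG p, ∀ (n : ℕ) (ξ : NSV.Qbar), 0 < n → ξ ^ n = 1 → res σ ξ = s ξ := by
  induction hs using Subgroup.closure_induction with
  | mem s hs => exact exists_GG_H0 hs
  | one => exact ⟨1, one_mem _, fun n ξ _ _ => by rw [map_one]⟩
  | mul s t _ _ h1 h2 =>
    obtain ⟨σ, a1, a2⟩ := h1
    obtain ⟨τ, b1, b2⟩ := h2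
    refine ⟨σ * τ, mul_mem a1 b1, fun n ξ hn h => ?_⟩
    rw [map_mul, AlgEquiv.mul_apply, AlgEquiv.mul_apply, b2 n ξ hn h,
      a2 n _ hn (by rw [← map_pow, h, map_one])]
  | inv s _ h1 =>
    obtain ⟨σ, a1, a2⟩ := h1
    refine ⟨σ⁻¹, inv_mem a1, fun n ξ hn h => ?_⟩
    have := a2 n (s.symm ξ) hn (by rw [← map_pow, h, map_one])
    rw [AlgEquiv.apply_symm_apply] at this
    rw [map_inv]
    exact (res σ).symm_apply_eq.2 this.symm

/-- the same on the maximal abelian extension -/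
theorem exists_GG_ab {s : NSV.Qbar ≃ₐ[ℚ] NSV.Qbar} (hs : s ∈ NSV.H p) :
    ∃ σ ∈ GG p, ∀ x ∈ NSV.Qab, σ (j p x) = j p (s x) := by
  obtain ⟨σ, h1, h2⟩ := exists_GG hs
  refine ⟨σ, h1, fun x hx => ?_⟩
  rw [← j_res]
  congr 1
  refine RingHom.eqOn_field_closure (f := (res σ).toRingEquiv.toRingHom)
    (g := s.toRingEquiv.toRingHom) (fun ξ hξ => ?_) hx
  obtain ⟨n, hn, h⟩ := hξ
  exact h2 n ξ hn h

end Pool.Agent.Lib.MP_1ae3da_al.Sys
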