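import Pool.Agent.Lib.MP_1ae3da_al.C.Defs
import Pool.Agent.Lib.MP_1ae3da_al.C.SysB

set_option autoImplicit false

namespace Pool.Agent.Lib.MP_1ae3da_al.Sys

open Polynomial

variable (p : ℕ) [hp : Fact p.Prime]

/-- the image of `O` in `F` -/
noncomputable def OO : Subring (F p) := (algebraMap (O p) (F p)).range

/-- `O` is isomorphic to its image -/
noncomputable def eO : O p ≃+* OO p :=
  RingEquiv.ofBijective (algebraMap (O p) (F p)).rangeRestrict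
    ⟨fun _ _ h => inj_OF p (congrArg Subtype.val h), RingHom.rangeRestrict_surjective _⟩

open Classical in
/-- the reduction map, extended by zero -/
noncomputable def rr (x : F p) : kk p := if h : x ∈ R p then r p ⟨x, h⟩ else 0

variable {p}

theorem rr_eq {x : F p} (h : x ∈ R p) : rr p x = r p ⟨x, h⟩ := dif_pos h

theorem rr_alg (a : O p) : rr p (algebraMap (O p) (F p) a) = red p a :=
  (rr_eq (Subalgebra.algebraMap_mem _ a)).trans (r_alg a)

theorem cop {n : ℕ} (h : ¬ p ∣ n) : n.Coprime p :=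
  ((Nat.Prime.coprime_iff_not_dvd hp.out).2 h).symm

theorem cplO : IsAdicComplete (Ideal.span {(p : OO p)}) (OO p) := by
  have h := (IsAdicComplete.congr_ringEquiv (Ideal.span {(p : O p)}) (eO p)).2 inferInstance
  rwa [Ideal.map_span, Set.image_singleton, map_natCast] at h

theorem Lifts.mem_OO {t : RingAut (kk p)} {σ : RingAut (F p)} (h : Lifts t σ) {x : F p}
    (hx : x ∈ OO p) : σ x ∈ OO p := by
  obtain ⟨a, rfl⟩ := hx
  exact ⟨_, (h a).symm⟩

theorem alg_mem (ρ : F p ≃ₐ[K0 p] F p) :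
    ρ.toRingEquiv ∈ GG p ∧ ∀ y ∈ OO p, ρ.toRingEquiv y = y := by
  refine ⟨⟨0, by rw [zpow_zero]; exact lifts_alg ρ⟩, ?_⟩
  rintro _ ⟨a, rfl⟩
  rw [lifts_alg ρ a, map_one]
  rfl

theorem fix_K0 {x : F p} (h : ∀ ρ : F p ≃ₐ[K0 p] F p, ρ x = x) :
    ∃ a : ℕ, (p : F p) ^ a * x ∈ OO p := by
  have h1 : x ∈ IntermediateField.fixedField (⊤ : Subgroup (F p ≃ₐ[K0 p] F p)) :=
    fun ρ => h ρ.1
  rw [InfiniteGalois.fixedField_bot, IntermediateField.mem_bot] at h1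
  obtain ⟨y, rfl⟩ := h1
  obtain ⟨a, b, hb, rfl⟩ := IsFractionRing.div_surjective (A := O p) y
  have hb0 : b ≠ 0 := nonZeroDivisors.ne_zero hb
  obtain ⟨m, u, rfl⟩ := WittVector.exists_eq_pow_p_mul' b hb0
  refine ⟨m, a * (u⁻¹ : (O p)ˣ), ?_⟩
  have h0 : algebraMap (O p) (F p) ((p : O p) ^ m * u) ≠ 0 :=
    (map_ne_zero_iff _ (inj_OF p)).2 hb0
  rw [map_div₀, ← IsScalarTower.algebraMap_apply, ← IsScalarTower.algebraMap_apply,
    ← mul_div_assoc, eq_div_iff h0, ← map_mul, ← map_natCast (algebraMap (O p) (F p)), ← map_pow,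
    ← map_mul]
  congr 1
  rw [mul_assoc, mul_left_comm (u⁻¹ : (O p)ˣ).val, Units.inv_mul, mul_one, mul_comm]

theorem pm : CT.PM p (OO p) (R p).toSubring (rr p) (GG p) where
  prime := hp.out
  charF := inferInstance
  algF := inferInstance
  chark := inferInstance
  algk := inferInstance
  le := by
    rintro _ ⟨a, rfl⟩
    exact Subalgebra.algebraMap_mem (R p) a
  add x hx y hy := by
    rw [rr_eq (add_mem hx hy : x + y ∈ R p), rr_eq hx, rr_eq hy]
    exact map_add (r p) ⟨x, hx⟩ ⟨y, hy⟩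
  mul x hx y hy := by
    rw [rr_eq (mul_mem hx hy : x * y ∈ R p), rr_eq hx, rr_eq hy]
    exact map_mul (r p) ⟨x, hx⟩ ⟨y, hy⟩
  one := (rr_eq (one_mem _)).trans (map_one (r p))
  mu ξ n hn h := root_mem hn h
  mup := by
    rintro ξ ⟨n, hn, h⟩
    obtain ⟨x, -, rfl⟩ := exists_tm (cop hn) h
    exact ⟨_, rfl⟩
  inv n hn := by
    have : IsUnit (n : O p) := (isUnit_iff_red p).2 (by
      rwa [map_natCast, Ne, CharP.cast_eq_zero_iff (kk p) p])
    obtain ⟨v, hv⟩ := this.exists_right_inv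
    have h1 := congrArg (algebraMap (O p) (F p)) hv
    rw [map_mul, map_natCast, map_one] at h1
    exact ⟨v, eq_inv_of_mul_eq_one_right h1⟩
  teich c hc := by
    obtain ⟨m, hm, h⟩ := kk_root hc
    exact ⟨tm p c, ⟨m, (Nat.Prime.coprime_iff_not_dvd hp.out).1 hm.symm,
      by rw [← map_pow, h, map_one]⟩, rr_alg _⟩
  ker := by
    rintro _ ⟨a, rfl⟩
    rw [rr_alg, ← RingHom.mem_ker, ker_red, Ideal.mem_span_singleton]
    constructor
    · rintro ⟨b, rfl⟩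
      exact ⟨_, ⟨b, rfl⟩, by rw [map_mul, map_natCast]⟩
    · rintro ⟨_, ⟨b, rfl⟩, e⟩
      exact ⟨b, inj_OF p (by rw [e, map_mul, map_natCast])⟩
  dvr := IsDiscreteValuationRing.RingEquivClass.isDiscreteValuationRing (eO p)
  cpl := cplO
  gal σ hσ := by
    obtain ⟨e, h⟩ := hσ
    refine ⟨fun x => ⟨fun a => ?_, h.mem_OO⟩, fun x => ⟨fun a => ?_, h.mem_R⟩, frob p ^ e,
      fun x hx => ?_⟩
    · exact σ.symm_apply_apply x ▸ h.inv.mem_OO a
    · exact σ.symm_apply_apply x ▸ h.inv.mem_R a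
    · rw [rr_eq hx, rr_eq (h.mem_R hx)]
      exact h.r_eq hx _
  fix x h := fix_K0 fun ρ => h _ (alg_mem ρ).1 (alg_mem ρ).2
  cyc ξ ξ' h h' := by
    have hi : Irreducible (cyclotomic p (K0 p)) := by simpa using cyc_irr (p := p) 0
    have hc : IsConjRoot (K0 p) ξ' ξ := by
      rw [isConjRoot_def, ← h.minpoly_eq_cyclotomic_of_irreducible hi,
        ← h'.minpoly_eq_cyclotomic_of_irreducible hi]
    obtain ⟨ρ, hρ⟩ := hc.exists_algEquiv
    exact ⟨ρ.toRingEquiv, (alg_mem ρ).1, (alg_mem ρ).2, hρ⟩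

end Pool.Agent.Lib.MP_1ae3da_al.Sys

namespace Pool.Agent.Lib.MP_1ae3da_al.CT

/-- the strong form: agreement on the whole maximal abelian extension, for all of `H` -/
theorem exists_sys' (p : ℕ) (hp : p.Prime) :
    ∃ (F k : Type) (_ : Field F) (_ : Field k) (O R : Subring F) (r : F → k)
      (GG : Subgroup (RingAut F)) (j : NSV.Qbar →+* F), PM p O R r GG ∧
      (∀ σ ∈ GG, ∃ s ∈ NSV.H p, ∀ x, σ (j x) = j (s x)) ∧
      ∀ s ∈ NSV.H p, ∃ σ ∈ GG, ∀ x ∈ NSV.Qab, σ (j x) = j (s x) := by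
  have := Fact.mk hp
  exact ⟨Sys.F p, Sys.kk p, inferInstance, inferInstance, _, _, _, _, (Sys.j p).toRingHom, Sys.pm,
    fun σ hσ => ⟨_, Sys.res_mem_H hσ, fun x => (Sys.j_res σ x).symm⟩,
    fun _ hs => Sys.exists_GG_ab hs⟩

theorem exists_sys (p : ℕ) (hp : p.Prime) :
    ∃ (F k : Type) (_ : Field F) (_ : Field k) (O R : Subring F) (r : F → k)
      (GG : Subgroup (RingAut F)) (j : NSV.Qbar →+* F), PM p O R r GG ∧
      (∀ σ ∈ GG, ∃ s ∈ NSV.H p, ∀ x, σ (j x) = j (s x)) ∧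
      ∀ s ∈ NSV.H0 p, ∀ n : ℕ, 0 < n → ∃ σ ∈ GG, ∀ ξ : NSV.Qbar, ξ ^ n = 1 →
        σ (j ξ) = j (s ξ) := by
  obtain ⟨F, k, i1, i2, O, R, r, GG, j, h1, h2, h3⟩ := exists_sys' p hp
  refine ⟨F, k, i1, i2, O, R, r, GG, j, h1, h2, fun s hs n hn => ?_⟩
  obtain ⟨σ, a, b⟩ := h3 s (Subgroup.subset_closure hs)
  exact ⟨σ, a, fun ξ h => b ξ (Subfield.subset_closure ⟨n, hn, h⟩)⟩

end Pool.Agent.Lib.MP_1ae3da_al.CT
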