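import Pool.Agent.Lib.MP_1ae3da_al.C.MainT
import Pool.Agent.Lib.MP_1ae3da_al.C.AFin
import Pool.Agent.Lib.MP_1ae3da_al.C.Sys
import Pool.Agent.Lib.MP_1ae3da_al.C.SerB

/-! The Galois-McKay bijection for the class `Ser p`. -/

namespace Pool.Agent.Lib.MP_1ae3da_al.CT

open Pool.Agent.Lib.McK

theorem final (p : ℕ) (hp : p.Prime) (h5 : 5 ≤ p) (G : Type) [Group G] [Finite G] (hG : Ser p G)
    (P : Sylow p G) :
    ∃ f : NSV.IrrP p G ≃ NSV.IrrP p (Subgroup.normalizer (P : Set G)),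
      ∀ γ : MulAut G, (∀ x, γ x ∈ P ↔ x ∈ P) → ∀ σ ∈ NSV.H0 p, ∀ θ θ' : NSV.IrrP p G,
        (∀ x, θ'.1 x = σ (θ.1 (γ x))) → ∀ m m' : Subgroup.normalizer (P : Set G),
          (m' : G) = γ m → (f θ').1 m = σ ((f θ).1 m') := by
  obtain ⟨F, k, _, _, O, R, r, GG, j, h, h1, h2⟩ := exists_sys p hp
  have _ := Fact.mk hp
  exact fin_of j h1 h2 G P (main h h5 j h1 G hG gu_tg P)

end Pool.Agent.Lib.MP_1ae3da_al.CT
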