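import Pool.Agent.Lib.MP_1ae3da_al.C.GrT

namespace Pool.Agent.Lib.MP_1ae3da_al.CT

open Submodule Pool.Agent.Lib.McK

theorem gr_op {p : ℕ} [Fact p.Prime] {G : Type} [Group G] [Finite G] (P : Sylow p G)
    (hP : Subgroup.normalizer (P : Set G) ≠ ⊤)
    (h : ∀ L : Subgroup G, L.Characteristic → L ≠ ⊥ → Subgroup.normalizer (P : Set G) ⊔ L = ⊤)
    (N : Subgroup G) [N.Normal] (hN : IsPGroup p N) : N = ⊥ := by
  by_contra h0
  obtain ⟨L, h1, h2, h3⟩ := exists_char_p P hN h0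
  exact hP ((sup_of_le_left
    (h3.trans (Subgroup.le_normalizer (H := (P : Subgroup G))))).symm.trans (h L h1 h2))

theorem gr_opp {p : ℕ} (hp : p.Prime) {G : Type} [Group G] [Finite G] (N : Subgroup G)
    [N.Normal] (h1 : N ≠ ⊥) (hN : ¬ p ∣ Nat.card N) :
    ∃ L : Subgroup G, L.Characteristic ∧ L ≠ ⊥ ∧ ¬ p ∣ Nat.card L :=
  exists_char_p' hp hN h1

theorem gra_fix {p : ℕ} [Fact p.Prime] {G : Type} [Group G] {E H : Subgroup G}
    (hE : IsPGroup p E) (hH : ¬ p ∣ H.index) : ∃ x : G, ∀ e ∈ E, x⁻¹ * e * x ∈ H := by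
  obtain ⟨q, hq⟩ := hE.nonempty_fixed_point_of_prime_not_dvd_card (G ⧸ H) hH
  obtain ⟨x, rfl⟩ := QuotientGroup.mk_surjective q
  refine ⟨x, fun e he => ?_⟩
  have h1 : ((e * x : G) : G ⧸ H) = x := hq ⟨e, he⟩
  have h2 := QuotientGroup.eq.1 h1.symm
  rwa [← mul_assoc] at h2

theorem gr_E {p : ℕ} [Fact p.Prime] {G : Type} [Group G] [Finite G] (P : Sylow p G)
    (hP : (P : Subgroup G) ≠ ⊥) (L : Subgroup G) [L.Normal] (hL : ¬ p ∣ Nat.card L)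
    (hT : Subgroup.normalizer (P : Set G) ⊔ L = ⊤) :
    ∃ E : Subgroup G, E ≠ ⊥ ∧ E ≤ P ∧ (∀ x ∈ E, x ^ p = 1) ∧ (∀ x ∈ E, ∀ y ∈ E, x * y = y * x) ∧
      (∀ φ : MulAut G, (P : Subgroup G).map φ.toMonoidHom = P → E.map φ.toMonoidHom = E) ∧
      Subgroup.normalizer (P : Set G) ≤ Subgroup.normalizer (E : Set G) ∧
      Subgroup.normalizer (E : Set G) ⊓ L = L ⊓ Subgroup.centralizer (E : Set G) ∧
      ∀ H : Subgroup G, L ≤ H → ¬ p ∣ H.index → E ≤ H := by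
  refine ⟨Om p (P : Subgroup G), om_ne_bot P.isPGroup' hP, om_le _, fun x hx => om_pow hx,
    fun x hx y hy => (om_comm hx hy).eq, fun φ hφ => ?_, normalizer_le_om (P : Subgroup G), ?_,
    fun H hLH hH => ?_⟩
  · refine Subgroup.eq_of_le_of_card_ge ?_
      (Nat.card_congr (φ.subgroupMap (Om p (P : Subgroup G))).toEquiv).le
    rintro _ ⟨x, hx, rfl⟩
    refine ⟨hφ.le ⟨x, hx.1, rfl⟩, fun y hy => ?_, by rw [← map_pow, hx.2.2, map_one]⟩
    obtain ⟨z, hz, rfl⟩ := hφ.ge hy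
    exact (hx.2.1 z hz).map _
  · rw [normalizer_inf_eq Fact.out (om_isPGroup _) hL, inf_comm]
  · obtain ⟨x, hx⟩ := gra_fix (om_isPGroup (p := p) (P : Subgroup G)) hH
    have hx' : x ∈ ((Subgroup.normalizer (P : Set G) ⊔ L : Subgroup G) : Set G) :=
      hT ▸ Subgroup.mem_top x
    rw [Subgroup.mul_normal] at hx'
    obtain ⟨n, hn, l, hl, rfl⟩ := hx'
    intro e he
    have h1 := hx _ ((Subgroup.mem_normalizer_iff.1 (normalizer_le_om (P : Subgroup G) hn) e).1 he)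
    have h2 := H.mul_mem (H.mul_mem (hLH hl) h1) (H.inv_mem (hLH hl))
    rwa [show l * ((n * l)⁻¹ * (n * e * n⁻¹) * (n * l)) * l⁻¹ = e by group] at h2

end Pool.Agent.Lib.MP_1ae3da_al.CT
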