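import Pool.Agent.Lib.MP_1ae3da_al.C.GrV

namespace Pool.Agent.Lib.MP_1ae3da_al.CT

open Submodule Pool.Agent.Lib.McK

theorem gr_soc {p : ℕ} [Fact p.Prime] {G : Type} [Group G] [Finite G] [Nontrivial G]
    (h1 : ∀ N : Subgroup G, N.Normal → IsPGroup p N → N = ⊥)
    (h2 : ∀ N : Subgroup G, N.Normal → ¬ p ∣ Nat.card N → N = ⊥) :
    ∃ (I : Type) (_ : Fintype I) (_ : Nonempty I) (S : I → Subgroup G), Function.Injective S ∧
      (∀ (φ : MulAut G) (i : I), ∃ j, (S i).map φ.toMonoidHom = S j) ∧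
      (⨆ i, S i).Characteristic ∧
      (∀ i, IsSimpleGroup (S i) ∧ commutator (S i) = ⊤ ∧ p ∣ Nat.card (S i) ∧
        ((S i).subgroupOf (⨆ i, S i)).Normal) ∧
      (∀ i j, i ≠ j → ∀ x ∈ S i, ∀ y ∈ S j, x * y = y * x) ∧ iSupIndep S := by
  obtain ⟨S, hS⟩ := exists_cp (G := G)
  exact ⟨Cps G, Fintype.ofFinite _, ⟨⟨S, hS⟩⟩, fun S => S.1, Subtype.val_injective,
    fun φ i => ⟨⟨_, i.2.map φ⟩, rfl⟩, soc_char,
    fun i => ⟨i.2.simple, Group.isPerfect_def.1 (i.2.perfect Fact.out h1 h2),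
      i.2.dvd Fact.out h2, i.2.normal_soc⟩,
    fun i j h x hx y hy => (cp_pairwise h x y hx hy).eq, cp_indep Fact.out h1 h2⟩

theorem grb_normal {G I : Type} [Group G] (S : I → Subgroup G)
    (hc : ∀ i j, i ≠ j → ∀ x ∈ S i, ∀ y ∈ S j, x * y = y * x) (i : I) :
    ((S i).subgroupOf (⨆ i, S i)).Normal := by
  refine ⟨fun k hk g => Subgroup.le_normalizer_iff.1
    (iSup_le fun j => Subgroup.le_normalizer_iff.2 fun t ht k hk => ?_) g.1 g.2 k.1 hk⟩
  by_cases h : j = i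
  · rw [h] at ht; exact (S i).mul_mem ((S i).mul_mem ht hk) ((S i).inv_mem ht)
  · rwa [hc j i h t ht k hk, mul_inv_cancel_right]

theorem grb_sylow {p : ℕ} [Fact p.Prime] {G I : Type} [Group G] [Finite G]
    (S : I → Subgroup G) (hc : ∀ i j, i ≠ j → ∀ x ∈ S i, ∀ y ∈ S j, x * y = y * x)
    [(⨆ i, S i).Normal] (P : Sylow p G) (i : I) :
    ∃ Q : Sylow p (S i), (Q : Subgroup (S i)) = (P : Subgroup G).subgroupOf (S i) := by
  have := grb_normal S hc i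
  have h1 := relIndex_dvd_index ((P : Subgroup G).subgroupOf (⨆ i, S i))
    ((S i).subgroupOf (⨆ i, S i))
  rw [Subgroup.relIndex_subgroupOf (le_iSup S i)] at h1
  exact ⟨(P.isPGroup'.comap_subtype (K := S i)).toSylow fun h' =>
    P.not_dvd_index (h'.trans (h1.trans (relIndex_dvd_index (P : Subgroup G) _))), rfl⟩

theorem grb_inf {p : ℕ} [Fact p.Prime] {G I : Type} [Group G] [Finite G] [Fintype I]
    (S : I → Subgroup G) (hc : ∀ i j, i ≠ j → ∀ x ∈ S i, ∀ y ∈ S j, x * y = y * x)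
    (hi : iSupIndep S) [(⨆ i, S i).Normal] (P : Sylow p G) :
    (P : Subgroup G) ⊓ ⨆ i, S i = ⨆ i, (P : Subgroup G) ⊓ S i := by
  refine inf_iSup_eq (hc := fun i j h x y hx hy => hc i j h x hx y hy) hi P.isPGroup'
    fun i R hR hle => ?_
  obtain ⟨Q, hQ⟩ := grb_sylow S hc P i
  rw [← hQ] at hle ⊢
  exact Q.is_maximal' hR hle

theorem gr_syl {p : ℕ} [Fact p.Prime] {G I : Type} [Group G] [Finite G] [Fintype I]
    (S : I → Subgroup G) (hc : ∀ i j, i ≠ j → ∀ x ∈ S i, ∀ y ∈ S j, x * y = y * x)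
    (hi : iSupIndep S) [(⨆ i, S i).Normal] (P : Sylow p G) :
    (∀ i, ∃ Q : Sylow p (S i), (Q : Subgroup (S i)).map (S i).subtype = (P : Subgroup G) ⊓ S i) ∧
      Subgroup.normalizer (((P : Subgroup G) ⊓ ⨆ i, S i : Subgroup G) : Set G) ⊓ (⨆ i, S i) =
        ⨆ i, Subgroup.normalizer (((P : Subgroup G) ⊓ S i : Subgroup G) : Set G) ⊓ S i := by
  refine ⟨fun i => ?_, ?_⟩
  · obtain ⟨Q, hQ⟩ := grb_sylow S hc P i
    exact ⟨Q, by rw [hQ, Subgroup.subgroupOf_map_subtype]⟩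
  · have h := grb_inf S hc hi P
    rw [h]
    refine normalizer_iSup_eq (hc := fun i j h x y hx hy => hc i j h x hx y hy)
      (fun i => inf_le_right) fun i => ?_
    rw [← h, inf_assoc, inf_of_le_right (le_iSup S i)]

end Pool.Agent.Lib.MP_1ae3da_al.CT
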