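import Mathlib

namespace Pool.Agent.Lib.McK

open Subgroup

variable {p : ℕ} {G : Type} [Group G]

theorem exists_char_p (P : Sylow p G) {N : Subgroup G} [hn : N.Normal] (hN : IsPGroup p N)
    (h0 : N ≠ ⊥) : ∃ L : Subgroup G, L.Characteristic ∧ L ≠ ⊥ ∧ L ≤ P := by
  refine ⟨⨆ K : {K : Subgroup G // K.Normal ∧ IsPGroup p K}, K.1, ?_, ?_, ?_⟩
  · refine characteristic_iff_map_le.2 fun φ => ?_
    rw [Subgroup.map_iSup]
    exact iSup_le fun K => le_iSup_of_le (f := fun K : {K : Subgroup G // K.Normal ∧ IsPGroup p K} => K.1)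
      ⟨K.1.map φ.toMonoidHom, K.2.1.map _ φ.surjective, K.2.2.map _⟩ le_rfl
  · intro h
    exact h0 (le_bot_iff.1 (h ▸ le_iSup
      (fun K : {K : Subgroup G // K.Normal ∧ IsPGroup p K} => K.1) ⟨N, hn, hN⟩))
  · refine iSup_le fun K => ?_
    have := K.2.1
    exact K.2.2.le_sylow_of_normal P

theorem card_sup_dvd (K L : Subgroup G) [K.Normal] :
    Nat.card (K ⊔ L : Subgroup G) ∣ Nat.card K * Nat.card L := by
  have h1 := (K.subgroupOf (K ⊔ L)).card_mul_index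
  rw [Nat.card_congr (subgroupOfEquivOfLe (le_sup_left : K ≤ K ⊔ L)).toEquiv] at h1
  have h2 : (K.subgroupOf (K ⊔ L)).index = K.relIndex L := relIndex_sup_left L K
  rw [← h1, h2]
  exact Nat.mul_dvd_mul_left _ (relIndex_dvd_card K L)

theorem exists_char_p' [Finite G] (hp : p.Prime) {N : Subgroup G} [hn : N.Normal]
    (hN : ¬ p ∣ Nat.card N) (h0 : N ≠ ⊥) :
    ∃ L : Subgroup G, L.Characteristic ∧ L ≠ ⊥ ∧ ¬ p ∣ Nat.card L := by
  obtain ⟨L, hNL, hL⟩ := exists_maximal_ge_of_wellFoundedGT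
    (fun K : Subgroup G => K.Normal ∧ ¬ p ∣ Nat.card K) N ⟨hn, hN⟩
  refine ⟨L, characteristic_iff_map_le.2 fun φ => ?_, fun h => h0 (le_bot_iff.1 (h ▸ hNL)), hL.1.2⟩
  have := hL.1.1
  have : (L.map φ.toMonoidHom).Normal := hL.1.1.map _ φ.surjective
  refine le_sup_left.trans (hL.2 (y := L.map φ.toMonoidHom ⊔ L) ⟨inferInstance, fun h => ?_⟩
    le_sup_right)
  rcases (Nat.Prime.dvd_mul hp).1 (h.trans (card_sup_dvd _ _)) with h | h
  · exact hL.1.2 (h.trans (card_map_dvd L _))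
  · exact hL.1.2 h

theorem relIndex_dvd_index [Finite G] (H N : Subgroup G) [N.Normal] : H.relIndex N ∣ H.index := by
  have h1 := relIndex_mul_relIndex (H ⊓ N) N (H ⊔ N) inf_le_right le_sup_right
  have h2 := relIndex_mul_relIndex (H ⊓ N) H (H ⊔ N) inf_le_left le_sup_left
  rw [relIndex_sup_right, inf_relIndex_right] at h1
  rw [inf_relIndex_left, ← h1, mul_comm] at h2
  have h3 : N.relIndex H ≠ 0 := index_ne_zero_of_finite
  rw [← Nat.eq_of_mul_eq_mul_right (Nat.pos_of_ne_zero h3) h2]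
  exact relIndex_dvd_index_of_le le_sup_left

/-- `P ⊓ N` as a Sylow subgroup of the normal subgroup `N`. -/
def sylowOf [Fact p.Prime] [Finite G] (P : Sylow p G) (N : Subgroup G) [N.Normal] : Sylow p N :=
  (P.isPGroup'.comap_subtype (K := N)).toSylow
    fun h => P.not_dvd_index (h.trans (relIndex_dvd_index (P : Subgroup G) N))

theorem sylowOf_coe [Fact p.Prime] [Finite G] (P : Sylow p G) (N : Subgroup G) [N.Normal] :
    (sylowOf P N : Subgroup N) = (P : Subgroup G).subgroupOf N := rfl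

theorem frattini [Fact p.Prime] [Finite G] (P : Sylow p G) (L : Subgroup G) [L.Normal] :
    normalizer (((P : Subgroup G) ⊓ L : Subgroup G) : Set G) ⊔ L = ⊤ := by
  have h := Sylow.normalizer_sup_eq_top (sylowOf P L)
  rwa [sylowOf_coe, subgroupOf_map_subtype] at h

theorem normalizer_le_inf (P L : Subgroup G) [hL : L.Normal] :
    normalizer (P : Set G) ≤ normalizer ((P ⊓ L : Subgroup G) : Set G) :=
  le_normalizer_iff.2 fun g hg k hk =>
    ⟨(mem_normalizer_iff.1 hg k).1 hk.1, hL.conj_mem k hk.2 g⟩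

theorem normalizer_ne_top (hO : ∀ N : Subgroup G, N.Normal → IsPGroup p N → N = ⊥)
    {Q : Subgroup G} (hQ : IsPGroup p Q) (h0 : Q ≠ ⊥) : normalizer (Q : Set G) ≠ ⊤ :=
  fun h => h0 (hO Q (normalizer_eq_top_iff.1 h) hQ)

theorem inf_ne_bot [Fact p.Prime] [Finite G] (P : Sylow p G) (L : Subgroup G) [L.Normal]
    (h : p ∣ Nat.card L) : (P : Subgroup G) ⊓ L ≠ ⊥ := by
  intro h0
  have h1 := (sylowOf P L).ne_bot_of_dvd_card h
  rw [sylowOf_coe] at h1
  exact h1 (subgroupOf_eq_bot.2 (disjoint_iff.2 h0))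

/-- The elements of order dividing `p` in the centre of `P`. -/
def Om (p : ℕ) (P : Subgroup G) : Subgroup G where
  carrier := {x | x ∈ P ∧ (∀ y ∈ P, Commute x y) ∧ x ^ p = 1}
  one_mem' := ⟨P.one_mem, fun y _ => Commute.one_left y, one_pow p⟩
  mul_mem' := fun {a b} ha hb => ⟨P.mul_mem ha.1 hb.1,
    fun y hy => (ha.2.1 y hy).mul_left (hb.2.1 y hy),
    by rw [(ha.2.1 b hb.1).mul_pow, ha.2.2, hb.2.2, one_mul]⟩
  inv_mem' := fun {a} ha => ⟨P.inv_mem ha.1, fun y hy => (ha.2.1 y hy).inv_left,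
    by rw [inv_pow, ha.2.2, inv_one]⟩

theorem mem_om {P : Subgroup G} {x : G} :
    x ∈ Om p P ↔ x ∈ P ∧ (∀ y ∈ P, Commute x y) ∧ x ^ p = 1 := Iff.rfl

theorem om_le (P : Subgroup G) : Om p P ≤ P := fun _ h => h.1

theorem om_comm {P : Subgroup G} {x y : G} (hx : x ∈ Om p P) (hy : y ∈ Om p P) : Commute x y :=
  hx.2.1 y hy.1

theorem om_pow {P : Subgroup G} {x : G} (hx : x ∈ Om p P) : x ^ p = 1 := hx.2.2

theorem om_isPGroup (P : Subgroup G) : IsPGroup p (Om p P) :=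
  fun x => ⟨1, Subtype.ext (by simpa using om_pow x.2)⟩

theorem om_ne_bot [hp : Fact p.Prime] [Finite G] {P : Subgroup G} (hP : IsPGroup p P)
    (h0 : P ≠ ⊥) : Om p P ≠ ⊥ := by
  have := (nontrivial_iff_ne_bot P).2 h0
  have := hP.center_nontrivial
  have hc : IsPGroup p (center P) := hP.to_subgroup _
  obtain ⟨k, hk0, hk⟩ := hc.nontrivial_iff_card.1 inferInstance
  obtain ⟨x, hx⟩ := exists_prime_orderOf_dvd_card' (G := center P) p
    (hk ▸ dvd_pow_self p hk0.ne')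
  intro h
  have hm : ((x : P) : G) ∈ Om p P := by
    refine ⟨x.1.2, fun y hy => ?_, ?_⟩
    · exact (congrArg Subtype.val (mem_center_iff.1 x.2 ⟨y, hy⟩)).symm
    · have h1 : x ^ p = 1 := hx ▸ pow_orderOf_eq_one x
      simpa using congrArg (fun z : center P => ((z : P) : G)) h1
  rw [h, mem_bot] at hm
  have : x = 1 := Subtype.ext (Subtype.ext hm)
  rw [this, orderOf_one] at hx
  exact hp.out.one_lt.ne hx

theorem normalizer_le_om (P : Subgroup G) :
    normalizer (P : Set G) ≤ normalizer (Om p P : Set G) := by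
  refine le_normalizer_iff.2 fun g hg k hk => ⟨(mem_normalizer_iff.1 hg k).1 hk.1, fun y hy => ?_, ?_⟩
  · have h := hk.2.1 _ ((mem_normalizer_iff''.1 hg y).1 hy)
    have h2 : g * k * g⁻¹ * y = g * (k * (g⁻¹ * y * g)) * g⁻¹ := by group
    have h3 : y * (g * k * g⁻¹) = g * (g⁻¹ * y * g * k) * g⁻¹ := by group
    exact h2.trans (by rw [h.eq, h3])
  · rw [conj_pow, hk.2.2]; simp

theorem normalizer_inf_eq [Finite G] (hp : p.Prime) {E L : Subgroup G} [hn : L.Normal]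
    (hE : IsPGroup p E) (hL : ¬ p ∣ Nat.card L) :
    normalizer (E : Set G) ⊓ L = centralizer (E : Set G) ⊓ L := by
  have := Fact.mk hp
  refine le_antisymm (fun x hx => ⟨mem_centralizer_iff.2 fun e he => ?_, hx.2⟩)
    (inf_le_inf_right _ (centralizer_le_normalizer _))
  obtain ⟨k, hk⟩ := hE.exists_card_eq
  have hd : Disjoint E L := disjoint_of_coprime_natCard
    (hk ▸ (Nat.Coprime.pow_left k ((Nat.Prime.coprime_iff_not_dvd hp).2 hL)))
  have h1 : e⁻¹ * (x * e * x⁻¹) ∈ E :=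
    E.mul_mem (E.inv_mem he) ((mem_normalizer_iff.1 hx.1 e).1 he)
  have h2 : e⁻¹ * (x * e * x⁻¹) ∈ L := by
    have := L.mul_mem (hn.conj_mem x hx.2 e⁻¹) (L.inv_mem hx.2)
    rwa [show e⁻¹ * x * e⁻¹⁻¹ * x⁻¹ = e⁻¹ * (x * e * x⁻¹) by group] at this
  have h3 := disjoint_def.1 hd h1 h2
  calc e * x = e * (e⁻¹ * (x * e * x⁻¹)) * x := by rw [h3, mul_one]
    _ = x * e := by group

end Pool.Agent.Lib.McK
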