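import Pool.Agent.Lib.MP_1ae3da_al.C.GrT

namespace Pool.Agent.Lib.McK

open Subgroup

variable {p : ℕ} {G : Type} [Group G]

/-- `K` is a nontrivial subgroup of `H` normalised by `H`. -/
def Nn (H K : Subgroup G) : Prop :=
  K ≤ H ∧ K ≠ ⊥ ∧ ∀ h ∈ H, ∀ k ∈ K, h * k * h⁻¹ ∈ K

/-- `K` is a minimal normal subgroup of `H`. -/
def MinN (H K : Subgroup G) : Prop := Minimal (Nn H) K

/-- `S` is a minimal normal subgroup of a minimal normal subgroup of `G`. -/
def Cp (S : Subgroup G) : Prop := ∃ N : Subgroup G, MinN ⊤ N ∧ MinN N S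

theorem Nn.normal {N : Subgroup G} (h : Nn ⊤ N) : N.Normal :=
  ⟨fun k hk g => h.2.2 g (mem_top g) k hk⟩

theorem nn_top {N : Subgroup G} (h : N.Normal) (h0 : N ≠ ⊥) : Nn ⊤ N :=
  ⟨le_top, h0, fun g _ k hk => h.conj_mem k hk g⟩

theorem Nn.map {H K : Subgroup G} (h : Nn H K) (φ : G ≃* G) :
    Nn (H.map φ.toMonoidHom) (K.map φ.toMonoidHom) := by
  refine ⟨map_mono h.1, fun h0 => h.2.1 ((map_eq_bot_iff_of_injective K φ.injective).1 h0), ?_⟩
  rintro _ ⟨a, ha, rfl⟩ _ ⟨k, hk, rfl⟩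
  exact ⟨a * k * a⁻¹, h.2.2 a ha k hk, by simp⟩

theorem map_map_symm (K : Subgroup G) (φ : G ≃* G) :
    (K.map φ.toMonoidHom).map φ.symm.toMonoidHom = K := by
  rw [map_map]; ext x; simp

theorem MinN.map {H K : Subgroup G} (h : MinN H K) (φ : G ≃* G) :
    MinN (H.map φ.toMonoidHom) (K.map φ.toMonoidHom) := by
  refine ⟨h.1.map φ, fun J hJ hle => ?_⟩
  have h1 := hJ.map φ.symm
  rw [map_map_symm] at h1
  have h2 : J.map φ.symm.toMonoidHom ≤ K := by
    have := map_mono (f := φ.symm.toMonoidHom) hle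
    rwa [map_map_symm] at this
  have h3 := map_mono (f := φ.toMonoidHom) (h.2 h1 h2)
  rwa [show (J.map φ.symm.toMonoidHom).map φ.toMonoidHom = J from map_map_symm J φ.symm] at h3

theorem Cp.map {S : Subgroup G} (h : Cp S) (φ : G ≃* G) : Cp (S.map φ.toMonoidHom) := by
  obtain ⟨N, h1, h2⟩ := h
  refine ⟨N.map φ.toMonoidHom, ?_, h2.map φ⟩
  have := h1.map φ
  rwa [map_top_of_surjective _ φ.surjective] at this

theorem MinN.comm {H K J : Subgroup G} (hK : MinN H K) (hJ : MinN H J) (hne : K ≠ J)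
    {x y : G} (hx : x ∈ K) (hy : y ∈ J) : Commute x y := by
  have h0 : K ⊓ J = ⊥ := by
    by_contra h0
    have hn : Nn H (K ⊓ J) := ⟨inf_le_left.trans hK.1.1, h0, fun h hh k hk =>
      ⟨hK.1.2.2 h hh k hk.1, hJ.1.2.2 h hh k hk.2⟩⟩
    exact hne (le_antisymm ((hK.2 hn inf_le_left).trans inf_le_right)
      ((hJ.2 hn inf_le_right).trans inf_le_left))
  have h1 : x * y * x⁻¹ * y⁻¹ ∈ K ⊓ J := by
    refine ⟨?_, J.mul_mem (hJ.1.2.2 x (hK.1.1 hx) y hy) (J.inv_mem hy)⟩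
    have := K.mul_mem hx (hK.1.2.2 y (hJ.1.1 hy) _ (K.inv_mem hx))
    rwa [show x * (y * x⁻¹ * y⁻¹) = x * y * x⁻¹ * y⁻¹ by group] at this
  rw [h0, mem_bot] at h1
  calc x * y = x * y * x⁻¹ * y⁻¹ * (y * x) := by group
    _ = y * x := by rw [h1, one_mul]

theorem exists_minN [Finite G] {H K : Subgroup G} (h : Nn H K) : ∃ J, J ≤ K ∧ MinN H J :=
  exists_minimal_le_of_wellFoundedLT (Nn H) K h

theorem Cp.comm {S T : Subgroup G} (hS : Cp S) (hT : Cp T) (hne : S ≠ T)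
    {x y : G} (hx : x ∈ S) (hy : y ∈ T) : Commute x y := by
  obtain ⟨N, h1, h2⟩ := hS
  obtain ⟨M, h3, h4⟩ := hT
  by_cases h : N = M
  · subst h; exact h2.comm h4 hne hx hy
  · exact h1.comm h3 h (h2.1.1 hx) (h4.1.1 hy)

theorem Cp.ne_bot {S : Subgroup G} (h : Cp S) : S ≠ ⊥ := h.choose_spec.2.1.2.1

/-- A minimal normal subgroup of `G` is generated by its minimal normal subgroups conjugate to a
given one. -/
theorem MinN.induction {N S : Subgroup G} (hN : MinN ⊤ N) (hS : MinN N S) {K : Subgroup G}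
    (hK : ∀ T, MinN N T → Nat.card T = Nat.card S → T ≤ K) : N ≤ K := by
  have hn := hN.1.normal
  let J : Subgroup G := ⨆ g : G, S.map (MulAut.conj g).toMonoidHom
  have hc : ∀ g : G, MinN N (S.map (MulAut.conj g).toMonoidHom) := fun g => by
    have := hS.map (MulAut.conj g)
    rwa [show N.map (MulAut.conj g).toMonoidHom = N from
      mem_normalizer_iff_map_conj_eq.1 (le_normalizer_of_normal (mem_top g))] at this
  have hSJ : S ≤ J := fun x hx => mem_iSup_of_mem (1 : G) ⟨x, hx, by simp⟩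
  have hJ : J.Normal := ⟨fun x hx g => by
    refine iSup_induction _ (C := fun x => g * x * g⁻¹ ∈ J) hx ?_ (by simp) ?_
    · rintro a _ ⟨s, hs, rfl⟩
      exact mem_iSup_of_mem (g * a) ⟨s, hs, by simp [mul_assoc]⟩
    · intro a b ha hb
      have := J.mul_mem ha hb
      rwa [show g * a * g⁻¹ * (g * b * g⁻¹) = g * (a * b) * g⁻¹ by group] at this⟩
  refine (hN.2 (nn_top hJ fun h0 => hS.1.2.1 (le_bot_iff.1 (h0 ▸ hSJ)))
    (iSup_le fun g => (hc g).1.1)).trans (iSup_le fun g => hK _ (hc g) ?_)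
  exact (Nat.card_congr ((MulAut.conj g).subgroupMap S).toEquiv).symm

theorem Cp.simple {S : Subgroup G} (h : Cp S) : IsSimpleGroup S := by
  obtain ⟨N, hN, hS⟩ := h
  have := (nontrivial_iff_ne_bot S).2 hS.1.2.1
  refine ⟨fun K hK => ?_⟩
  by_cases h0 : K = ⊥
  · exact .inl h0
  refine .inr ?_
  have hn : Nn N (K.map S.subtype) := by
    refine ⟨(map_subtype_le K).trans hS.1.1,
      fun h => h0 ((map_eq_bot_iff_of_injective K S.subtype_injective).1 h), ?_⟩
    refine le_normalizer_iff.1 (hN.induction hS fun T hT _ => le_normalizer_iff.2 ?_)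
    rintro t ht _ ⟨k, hk, rfl⟩
    by_cases hTS : T = S
    · subst hTS
      exact ⟨_, hK.conj_mem k hk ⟨t, ht⟩, rfl⟩
    · refine ⟨k, hk, ?_⟩
      rw [(hT.comm hS hTS ht k.2 : Commute t (S.subtype k)).eq, mul_inv_cancel_right]
  refine top_le_iff.1 fun x _ => ?_
  obtain ⟨k, hk, hx⟩ := hS.2 hn (map_subtype_le K) x.2
  exact (Subtype.ext hx : k = x) ▸ hk

theorem Cp.subnormal {S : Subgroup G} (h : Cp S) :
    ∃ N : Subgroup G, N.Normal ∧ S ≤ N ∧ (S.subgroupOf N).Normal := by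
  obtain ⟨N, hN, hS⟩ := h
  exact ⟨N, hN.1.normal, hS.1.1, ⟨fun k hk g => hS.1.2.2 g g.2 k hk⟩⟩

section

variable [Finite G]

theorem Cp.dvd (hp : p.Prime)
    (hO' : ∀ N : Subgroup G, N.Normal → ¬ p ∣ Nat.card N → N = ⊥) {S : Subgroup G} (h : Cp S) :
    p ∣ Nat.card S := by
  obtain ⟨N, hN, hS⟩ := h
  by_contra hd
  have hn := hN.1.normal
  have h1 : (S.subgroupOf N).Normal := ⟨fun k hk g => hS.1.2.2 g g.2 k hk⟩
  have h2 : ¬ p ∣ Nat.card (S.subgroupOf N) := by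
    rwa [Nat.card_congr (subgroupOfEquivOfLe hS.1.1).toEquiv]
  have h3 : S.subgroupOf N ≠ ⊥ := fun h0 => hS.1.2.1 (by
    have := disjoint_iff.1 (subgroupOf_eq_bot.1 h0)
    rwa [inf_of_le_left hS.1.1] at this)
  obtain ⟨L, hL, h4, h5⟩ := exists_char_p' hp h2 h3
  refine h4 ((map_eq_bot_iff_of_injective L N.subtype_injective).1 (hO' _ inferInstance ?_))
  rwa [← Nat.card_congr (L.equivMapOfInjective _ N.subtype_injective).toEquiv]

theorem Cp.center (hp : p.Prime) (hO : ∀ N : Subgroup G, N.Normal → IsPGroup p N → N = ⊥)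
    (hO' : ∀ N : Subgroup G, N.Normal → ¬ p ∣ Nat.card N → N = ⊥) {S : Subgroup G} (h : Cp S)
    {x : G} (hx : x ∈ S) (hc : ∀ y ∈ S, Commute x y) : x = 1 := by
  have := Fact.mk hp
  have hs := h.simple
  rcases (inferInstance : (Subgroup.center S).Normal).eq_bot_or_eq_top with h0 | h0
  · have : (⟨x, hx⟩ : S) ∈ Subgroup.center S :=
      mem_center_iff.2 fun y => Subtype.ext (hc y y.2).eq.symm
    rw [h0, mem_bot] at this
    exact congrArg Subtype.val this
  exfalso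
  have hcm : ∀ a b : S, b * a = a * b := fun a b => mem_center_iff.1 (h0 ▸ mem_top a) b
  obtain ⟨P⟩ : Nonempty (Sylow p S) := inferInstance
  have hP : (P : Subgroup S).Normal := ⟨fun k hk g => by rwa [hcm k g, mul_inv_cancel_right]⟩
  have hPt := hP.eq_bot_or_eq_top.resolve_left (P.ne_bot_of_dvd_card (h.dvd hp hO'))
  have hSp : IsPGroup p S := fun g => by
    obtain ⟨k, hk⟩ := P.isPGroup' ⟨g, hPt ▸ mem_top g⟩
    exact ⟨k, congrArg Subtype.val hk⟩
  obtain ⟨N, hN, hSN, h1⟩ := h.subnormal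
  have h3 : S.subgroupOf N ≠ ⊥ := fun h0 => h.ne_bot (by
    have := disjoint_iff.1 (subgroupOf_eq_bot.1 h0)
    rwa [inf_of_le_left hSN] at this)
  obtain ⟨Q⟩ : Nonempty (Sylow p N) := inferInstance
  obtain ⟨L, hL, h4, h5⟩ := exists_char_p Q (N := S.subgroupOf N) hSp.comap_subtype h3
  exact h4 ((map_eq_bot_iff_of_injective L N.subtype_injective).1
    (hO _ inferInstance ((Q.isPGroup'.to_le h5).map _)))

theorem Cp.perfect (hp : p.Prime) (hO : ∀ N : Subgroup G, N.Normal → IsPGroup p N → N = ⊥)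
    (hO' : ∀ N : Subgroup G, N.Normal → ¬ p ∣ Nat.card N → N = ⊥) {S : Subgroup G} (h : Cp S) :
    Group.IsPerfect S := by
  have hs := h.simple
  refine Group.isPerfect_def.2
    ((inferInstance : (commutator S).Normal).eq_bot_or_eq_top.resolve_left fun h0 => h.ne_bot ?_)
  refine (eq_bot_iff_forall S).2 fun x hx => h.center hp hO hO' hx fun y hy => ?_
  have h1 := commutator_mem_commutator (mem_top (⟨x, hx⟩ : S)) (mem_top (⟨y, hy⟩ : S))
  rw [← commutator_def, h0, mem_bot, commutatorElement_eq_one_iff_mul_comm] at h1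
  exact congrArg Subtype.val h1

end

/-- The product of all `S` with `Cp S`. -/
def Soc (G : Type) [Group G] : Subgroup G := ⨆ S : {S : Subgroup G // Cp S}, S.1

theorem Cp.le_soc {S : Subgroup G} (h : Cp S) : S ≤ Soc G :=
  le_iSup (fun S : {S : Subgroup G // Cp S} => S.1) ⟨S, h⟩

instance soc_char : (Soc G).Characteristic := by
  refine characteristic_iff_map_le.2 fun φ => ?_
  rw [Soc, Subgroup.map_iSup]
  exact iSup_le fun S => (S.2.map φ).le_soc

theorem exists_cp [Finite G] [Nontrivial G] : ∃ S : Subgroup G, Cp S := by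
  obtain ⟨N, -, hN⟩ := exists_minN (nn_top (G := G) (N := ⊤) inferInstance top_ne_bot)
  obtain ⟨S, -, hS⟩ := exists_minN (H := N) (K := N)
    ⟨le_rfl, hN.1.2.1, fun h hh k hk => N.mul_mem (N.mul_mem hh hk) (N.inv_mem hh)⟩
  exact ⟨S, N, hN, hS⟩

theorem soc_ne_bot [Finite G] [Nontrivial G] : Soc G ≠ ⊥ := by
  obtain ⟨S, hS⟩ := exists_cp (G := G)
  exact fun h => hS.ne_bot (le_bot_iff.1 (h ▸ hS.le_soc))

theorem Cp.conj_mem {S : Subgroup G} (h : Cp S) {g : G} (hg : g ∈ Soc G) {x : G} (hx : x ∈ S) :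
    g * x * g⁻¹ ∈ S := by
  refine le_normalizer_iff.1 (iSup_le fun T => le_normalizer_iff.2 fun t ht k hk => ?_) g hg x hx
  by_cases hT : T.1 = S
  · rw [hT] at ht; exact S.mul_mem (S.mul_mem ht hk) (S.inv_mem ht)
  · rwa [(T.2.comm h hT ht hk).eq, mul_inv_cancel_right]

theorem Cp.normal_soc {S : Subgroup G} (h : Cp S) : (S.subgroupOf (Soc G)).Normal :=
  ⟨fun _ hk g => h.conj_mem g.2 hk⟩

end Pool.Agent.Lib.McK
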