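import Pool.Agent.Lib.MP_1ae3da_al.C.GrU

namespace Pool.Agent.Lib.McK

open Subgroup

variable {p : ℕ} {G : Type} [Group G]

section Prod

variable {ι : Type} {S : ι → Subgroup G}

theorem commute_iSup {x : G} (h : ∀ i, ∀ y ∈ S i, Commute x y) {y : G} (hy : y ∈ ⨆ i, S i) :
    Commute x y :=
  iSup_induction S (C := fun y => Commute x y) hy h (Commute.one_right x)
    fun _ _ ha hb => ha.mul_right hb

theorem indep_of_center
    (hc : Pairwise fun i j : ι => ∀ x y : G, x ∈ S i → y ∈ S j → Commute x y)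
    (hz : ∀ i, ∀ x ∈ S i, (∀ y ∈ S i, Commute x y) → x = 1) : iSupIndep S := by
  intro i
  refine disjoint_def.2 fun {x} hx hx' => hz i x hx fun y hy => Commute.symm ?_
  refine commute_iSup (fun j z hz => ?_) hx'
  by_cases h : j = i
  · rw [iSup_neg (not_not.2 h), mem_bot] at hz
    rw [hz]; exact Commute.one_right y
  · rw [iSup_pos h] at hz
    exact hc (Ne.symm h) y z hy hz

variable [Fintype ι] {hc : Pairwise fun i j : ι => ∀ x y : G, x ∈ S i → y ∈ S j → Commute x y}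

theorem prod_mem {K : Subgroup G} (y : ∀ i, S i) (h : ∀ i, (y i : G) ∈ K) :
    noncommPiCoprod hc y ∈ K := by
  rw [Subgroup.noncommPiCoprod_apply]
  exact K.noncommProd_mem _ fun i _ => h i

theorem exists_prod {x : G} (hx : x ∈ ⨆ i, S i) : ∃ y, noncommPiCoprod hc y = x := by
  rw [← Subgroup.noncommPiCoprod_range (hcomm := hc)] at hx
  exact hx

theorem prod_conj (y : ∀ i, S i) (i : ι) {k : G} (hk : k ∈ S i) :
    noncommPiCoprod hc y * k * (noncommPiCoprod hc y)⁻¹ = y i * k * (y i : G)⁻¹ := by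
  classical
  have h : y * Pi.mulSingle i (⟨k, hk⟩ : S i) * y⁻¹ =
      Pi.mulSingle i (y i * ⟨k, hk⟩ * (y i)⁻¹) := by
    funext j
    by_cases hj : j = i
    · subst hj; simp
    · simp [Pi.mulSingle_eq_of_ne hj]
  have h1 := congrArg (noncommPiCoprod hc) h
  rw [map_mul, map_mul, map_inv, noncommPiCoprod_mulSingle, noncommPiCoprod_mulSingle] at h1
  exact h1

theorem prod_mem_iff (hi : iSupIndep S) {K : ι → Subgroup G} (hK : ∀ i, K i ≤ S i)
    (y : ∀ i, S i) : noncommPiCoprod hc y ∈ ⨆ i, K i ↔ ∀ i, (y i : G) ∈ K i := by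
  classical
  refine ⟨fun h => ?_, fun h => prod_mem y fun i => mem_iSup_of_mem i (h i)⟩
  have key : ∀ x ∈ ⨆ i, K i, ∃ z : ∀ i, S i, noncommPiCoprod hc z = x ∧ ∀ i, (z i : G) ∈ K i := by
    intro x hx
    refine iSup_induction K (C := fun x => ∃ z : ∀ i, S i, noncommPiCoprod hc z = x ∧
      ∀ i, (z i : G) ∈ K i) hx (fun i x hx => ?_) ⟨1, map_one _, fun i => (K i).one_mem⟩ ?_
    · refine ⟨Pi.mulSingle i ⟨x, hK i hx⟩, noncommPiCoprod_mulSingle i _, fun j => ?_⟩
      by_cases hj : j = i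
      · subst hj; simpa using hx
      · rw [Pi.mulSingle_eq_of_ne hj]; exact (K j).one_mem
    · rintro _ _ ⟨a, rfl, ha⟩ ⟨b, rfl, hb⟩
      exact ⟨a * b, map_mul _ _ _, fun i => (K i).mul_mem (ha i) (hb i)⟩
  obtain ⟨z, hz, h2⟩ := key _ h
  rw [← injective_noncommPiCoprod_of_iSupIndep hi hz]
  exact h2

include hc in
theorem inf_iSup_eq (hi : iSupIndep S) {P : Subgroup G} (hP : IsPGroup p P)
    (hm : ∀ i, ∀ R : Subgroup (S i), IsPGroup p R → P.subgroupOf (S i) ≤ R →
      R = P.subgroupOf (S i)) : P ⊓ ⨆ i, S i = ⨆ i, P ⊓ S i := by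
  classical
  refine le_antisymm (fun x hx => ?_) (iSup_le fun i => inf_le_inf_left _ (le_iSup S i))
  obtain ⟨y, rfl⟩ := exists_prod (hc := hc) hx.2
  refine prod_mem y fun i => mem_iSup_of_mem i ⟨?_, (y i).2⟩
  have h1 : IsPGroup p ((P.comap (noncommPiCoprod hc)).map (Pi.evalMonoidHom (fun j => S j) i)) :=
    (hP.comap_of_injective _ (injective_noncommPiCoprod_of_iSupIndep hi)).map _
  have h2 := hm i _ h1 fun k hk => ⟨Pi.mulSingle i k, by
    rw [SetLike.mem_coe, mem_comap, noncommPiCoprod_mulSingle]; exact hk, by simp⟩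
  have h3 : y i ∈ P.subgroupOf (S i) := h2 ▸ ⟨y, hx.1, rfl⟩
  exact h3

include hc in
theorem normalizer_iSup_eq {K : ι → Subgroup G} (hK : ∀ i, K i ≤ S i)
    (hi : ∀ i, (⨆ j, K j) ⊓ S i = K i) :
    normalizer ((⨆ i, K i : Subgroup G) : Set G) ⊓ ⨆ i, S i =
      ⨆ i, normalizer (K i : Set G) ⊓ S i := by
  refine le_antisymm (fun x hx => ?_) (iSup_le fun i => le_inf ?_ (inf_le_right.trans (le_iSup S i)))
  · obtain ⟨y, rfl⟩ := exists_prod (hc := hc) hx.2
    refine prod_mem y fun i => mem_iSup_of_mem i ⟨?_, (y i).2⟩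
    have h1 : (((normalizer ((⨆ i, K i : Subgroup G) : Set G)).comap (noncommPiCoprod hc)).map
        ((S i).subtype.comp (Pi.evalMonoidHom (fun j => S j) i))) ≤ normalizer (K i : Set G) := by
      refine le_normalizer_iff.2 ?_
      rintro _ ⟨z, hz, rfl⟩ k hk
      have h2 := (mem_normalizer_iff.1 (mem_comap.1 hz) k).1 (mem_iSup_of_mem i hk)
      rw [prod_conj z i (hK i hk)] at h2
      rw [← hi i]
      exact ⟨h2, (S i).mul_mem ((S i).mul_mem (z i).2 (hK i hk)) ((S i).inv_mem (z i).2)⟩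
    exact h1 ⟨y, hx.1, rfl⟩
  · refine le_normalizer_iff.2 fun g hg k hk => ?_
    refine iSup_induction K (C := fun k => g * k * g⁻¹ ∈ ⨆ i, K i) hk (fun j k hk => ?_)
      (by simp) fun a b ha hb => ?_
    · by_cases hj : i = j
      · subst hj; exact mem_iSup_of_mem i ((mem_normalizer_iff.1 hg.1 k).1 hk)
      · rw [(hc hj g k hg.2 (hK j hk)).eq, mul_inv_cancel_right]
        exact mem_iSup_of_mem j hk
    · have := Subgroup.mul_mem _ ha hb
      rwa [show g * a * g⁻¹ * (g * b * g⁻¹) = g * (a * b) * g⁻¹ by group] at this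

end Prod

/-- The index type of the components. -/
abbrev Cps (G : Type) [Group G] : Type := {S : Subgroup G // Cp S}

theorem cp_pairwise :
    Pairwise fun S T : Cps G => ∀ x y : G, x ∈ S.1 → y ∈ T.1 → Commute x y :=
  fun S T h _ _ hx hy => S.2.comm T.2 (fun h' => h (Subtype.ext h')) hx hy

variable [Finite G]

theorem cp_indep (hp : p.Prime) (hO : ∀ N : Subgroup G, N.Normal → IsPGroup p N → N = ⊥)
    (hO' : ∀ N : Subgroup G, N.Normal → ¬ p ∣ Nat.card N → N = ⊥) :
    iSupIndep fun S : Cps G => S.1 :=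
  indep_of_center cp_pairwise fun S _ hx hc => S.2.center hp hO hO' hx hc

theorem Cp.relIndex_dvd {S : Subgroup G} (h : Cp S) (H : Subgroup G) :
    H.relIndex S ∣ H.index := by
  have := h.normal_soc
  have h1 := relIndex_dvd_index (H.subgroupOf (Soc G)) (S.subgroupOf (Soc G))
  rw [relIndex_subgroupOf h.le_soc] at h1
  exact h1.trans (relIndex_dvd_index H (Soc G))

/-- `P ⊓ S` as a Sylow subgroup of the component `S`. -/
def Cp.sylow [Fact p.Prime] {S : Subgroup G} (h : Cp S) (P : Sylow p G) : Sylow p S :=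
  (P.isPGroup'.comap_subtype (K := S)).toSylow
    fun h' => P.not_dvd_index (h'.trans (h.relIndex_dvd (P : Subgroup G)))

theorem Cp.sylow_coe [Fact p.Prime] {S : Subgroup G} (h : Cp S) (P : Sylow p G) :
    (h.sylow P : Subgroup S) = (P : Subgroup G).subgroupOf S := rfl

theorem inf_soc [hp : Fact p.Prime] (hO : ∀ N : Subgroup G, N.Normal → IsPGroup p N → N = ⊥)
    (hO' : ∀ N : Subgroup G, N.Normal → ¬ p ∣ Nat.card N → N = ⊥) (P : Sylow p G) :
    (P : Subgroup G) ⊓ Soc G = ⨆ S : Cps G, (P : Subgroup G) ⊓ S.1 := by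
  have := Fintype.ofFinite (Cps G)
  exact inf_iSup_eq (hc := cp_pairwise) (cp_indep hp.out hO hO') P.isPGroup'
    fun S R hR hle => (S.2.sylow P).is_maximal' hR hle

theorem normalizer_soc [hp : Fact p.Prime]
    (hO : ∀ N : Subgroup G, N.Normal → IsPGroup p N → N = ⊥)
    (hO' : ∀ N : Subgroup G, N.Normal → ¬ p ∣ Nat.card N → N = ⊥) (P : Sylow p G) :
    normalizer (((P : Subgroup G) ⊓ Soc G : Subgroup G) : Set G) ⊓ Soc G =
      ⨆ S : Cps G, normalizer (((P : Subgroup G) ⊓ S.1 : Subgroup G) : Set G) ⊓ S.1 := by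
  have := Fintype.ofFinite (Cps G)
  have h := inf_soc hO hO' P
  rw [h]
  refine normalizer_iSup_eq (hc := cp_pairwise) (fun S => inf_le_right) fun S => ?_
  rw [← h, inf_assoc, inf_of_le_right S.2.le_soc]

theorem inf_soc_ne_bot [hp : Fact p.Prime] [Nontrivial G]
    (hO' : ∀ N : Subgroup G, N.Normal → ¬ p ∣ Nat.card N → N = ⊥) (P : Sylow p G) :
    (P : Subgroup G) ⊓ Soc G ≠ ⊥ := by
  obtain ⟨S, hS⟩ := exists_cp (G := G)
  exact inf_ne_bot P _ ((hS.dvd hp.out hO').trans (card_dvd_of_le hS.le_soc))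

omit [Finite G] in
theorem Cp.map_inf {S Q : Subgroup G} (φ : G ≃* G) (hQ : Q.map φ.toMonoidHom = Q) :
    (Q ⊓ S).map φ.toMonoidHom = Q ⊓ S.map φ.toMonoidHom := by
  rw [map_inf_eq _ _ _ φ.injective, hQ]

end Pool.Agent.Lib.McK
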