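import Pool.Agent.Lib.MP_1ae3da_al.C.Defs

/-! A link identifies the centraliser algebras over the two blocks. -/

namespace Pool.Agent.Lib.MP_1ae3da_al.CT

open Submodule

variable {F A G : Type} [Field F] [Ring A] [Algebra F A] [Group G] {u : G → A}
  {H L M T : Subgroup G} {Γ : Subgroup (RingAut A)}

theorem tco_u (H : Subgroup G) {x : G} (h : x ∈ H) : u x ∈ Hm F u H :=
  ⟨1, one_ne_zero, x, h, (one_smul _ _).symm⟩

theorem tco_mono (h : M ≤ L) : Hm F u M ⊆ Hm F u L := fun _ ⟨c, a, x, b, e⟩ => ⟨c, a, x, h b, e⟩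

theorem tco_mul (hu : TG F u) {a b : A} (ha : a ∈ Hm F u H) (hb : b ∈ Hm F u H) :
    a * b ∈ Hm F u H := by
  obtain ⟨c, hc, x, hx, rfl⟩ := ha
  obtain ⟨d, hd, y, hy, rfl⟩ := hb
  obtain ⟨k, hk, e⟩ := hu.mul x y
  exact ⟨c * d * k, by simp [hc, hd, hk], x * y, H.mul_mem hx hy, by
    rw [smul_mul_smul_comm, e, smul_smul]⟩

theorem tco_span (hu : TG F u) {a b : A} (ha : a ∈ span F (Hm F u H))
    (hb : b ∈ span F (Hm F u H)) : a * b ∈ span F (Hm F u H) := by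
  have := Submodule.mul_mem_mul ha hb
  rw [span_mul_span] at this
  refine span_mono ?_ this
  rintro _ ⟨x, hx, y, hy, rfl⟩
  exact tco_mul hu hx hy

theorem tco_one (hu : TG F u) {a : A} (ha : a ∈ span F (Hm F u H)) :
    a * u 1 = a ∧ u 1 * a = a := by
  induction ha using span_induction with
  | mem x h =>
    obtain ⟨c, -, x, -, rfl⟩ := h
    have k (d : F) (hd : d ≠ 0) (h : d • d • u x = d • u x) : d • u x = u x := by
      simpa [smul_smul, hd] using congrArg (d⁻¹ • ·) h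
    obtain ⟨d, hd, e⟩ := hu.mul x 1
    obtain ⟨d', hd', e'⟩ := hu.mul 1 x
    rw [mul_one] at e
    rw [one_mul] at e'
    rw [smul_mul_assoc, mul_smul_comm, e, e', k d hd (by
      rw [← e, ← smul_mul_assoc, ← e, mul_assoc, hu.one]), k d' hd' (by
      rw [← e', ← mul_smul_comm, ← e', ← mul_assoc, hu.one])]
    exact ⟨rfl, rfl⟩
  | zero => simp
  | add x y _ _ a b => rw [add_mul, mul_add, a.1, a.2, b.1, b.2]; exact ⟨rfl, rfl⟩
  | smul c x _ a => rw [smul_mul_assoc, mul_smul_comm, a.1, a.2]; exact ⟨rfl, rfl⟩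

theorem tco_cancel (hu : TG F u) {t a b : A} (ht : t ∈ Hm F u T) (ha : a ∈ span F (Hm F u H))
    (hb : b ∈ span F (Hm F u H)) (h : a * t = b * t) : a = b := by
  obtain ⟨c, hc, x, -, rfl⟩ := ht
  obtain ⟨d, hd, e⟩ := hu.mul x x⁻¹
  have := congrArg (fun z => (c * d)⁻¹ • (z * u x⁻¹)) h
  simpa [mul_assoc, e, smul_smul, (tco_one hu ha).1, (tco_one hu hb).1, hc, hd] using this

theorem tco_lin {a : RingAut A} (h : Lin F a) : Lin F a⁻¹ := fun c x => a.injective (by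
  rw [h]
  exact (a.apply_symm_apply _).trans (congrArg _ (a.apply_symm_apply _).symm))

theorem tco_cen {S : Set A} {z b : A} (h : ∀ s ∈ S, z * s = s * z) (hb : b ∈ span F S) :
    z * b = b * z := by
  induction hb using span_induction with
  | mem x k => exact h x k
  | zero => simp
  | add x y _ _ a b => rw [add_mul, mul_add, a, b]
  | smul c x _ a => rw [smul_mul_assoc, mul_smul_comm, a]

/-- two elements implementing inverse automorphisms. -/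
theorem tco_scal (hu : TG F u) {e w s : A} {a : RingAut A} (he : e ∈ Irr F (Hm F u H))
    (ha : a ∈ Stb (Hm F u H)) (hw : w ∈ Ln F (Hm F u H) e a) (hs : s ∈ Ln F (Hm F u H) e a⁻¹) :
    ∃ c : F, w * s = c • e := by
  obtain ⟨c, hc⟩ := he.2.2.2 (w * s) ⟨tco_span hu hw.1 hs.1, fun x hx => by
    rw [mul_assoc, hs.2.2.2 x hx, ← mul_assoc, hw.2.2.2 _ (((Stb _).inv_mem ha x).2 hx), ← mul_assoc]
    exact congrArg (· * w * s) (a.apply_symm_apply x)⟩
  exact ⟨c, by rw [← hc, mul_assoc, hs.2.1]⟩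

theorem tco_line (hu : TG F u) {e w v s : A} {a : RingAut A} {d : F} (he : e ∈ Irr F (Hm F u H))
    (ha : a ∈ Stb (Hm F u H)) (hw : w ∈ Ln F (Hm F u H) e a) (hv : v ∈ Ln F (Hm F u H) e a)
    (hs : s ∈ Ln F (Hm F u H) e a⁻¹) (hd : d ≠ 0) (h : s * v = d • e) :
    ∃ c : F, c ≠ 0 ∧ w = c • v := by
  obtain ⟨c, hc⟩ := tco_scal hu he ha hw hs
  have k : d • w = c • v := by
    rw [← hw.2.1, ← mul_smul_comm, ← h, ← mul_assoc, hc, smul_mul_assoc,
      tco_cen he.1.2 hv.1, hv.2.1]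
  have k' : w = (d⁻¹ * c) • v := by rw [mul_smul, ← k, inv_smul_smul₀ hd]
  exact ⟨_, fun z => hw.2.2.1 (by rw [k', z, zero_smul]), k'⟩

variable (F u T L) in
/-- the correspondence defined by a link. -/
def TcoR (U : RingAut A → A → A → Prop) (z z' : A) : Prop :=
  ∃ t ∈ Hm F u T, ∃ a v v', U a v v' ∧ (∀ x ∈ Hm F u L, t * a x = x * t) ∧ z = v * t ∧ z' = v' * t

variable (F u T L M Γ) in
/-- the data of the comparison. -/
structure Tco (e e' : A) (U : RingAut A → A → A → Prop) : Prop where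
  tg : TG F u
  eq : M = T ⊓ L
  he : e ∈ Irr F (Hm F u L)
  he' : e' ∈ Irr F (Hm F u M)
  lk : Link F Γ (Hm F u L) (Hm F u M) e e' U
  ad : ∀ t ∈ T, ∃ a ∈ Γ, IsAd F u t a
  st : ∀ γ ∈ Γ, γ ∈ Stb (Hm F u T) ∧ γ ∈ Stb (Hm F u L) ∧ γ ∈ Stb (Hm F u M)

namespace Tco

variable {e e' : A} {U : RingAut A → A → A → Prop} (h : Tco F u L M T Γ e e' U)
include h

theorem le : M ≤ L := h.eq.le.trans inf_le_right

theorem loc {a : RingAut A} (ha : a ∈ Γ) (hl : Lin F a) {m : A} (hm : m ∈ Hm F u M)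
    (k : ∀ x ∈ Hm F u L, m * x = a x * m) {b : RingAut A} {v v' : A} (hv : U b v v') :
    U (b * a) (v * m) (v' * m) := by
  have := h.lk.mul _ _ _ _ _ _ hv (h.lk.loc a ha hl m hm k)
  obtain ⟨-, -, p, q⟩ := h.lk.int _ _ _ hv
  rwa [← h.he.1.2 m (tco_mono h.le hm), ← h.he'.1.2 m hm, ← mul_assoc, ← mul_assoc, p.2.1,
    q.2.1] at this

theorem inv {a : RingAut A} {v v' : A} (hv : U a v v') :
    ∃ (s s' : A) (d : F), U a⁻¹ s s' ∧ d ≠ 0 ∧ s * v = d • e ∧ s' * v' = d • e' := by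
  obtain ⟨ha, hl, p, -⟩ := h.lk.int _ _ _ hv
  obtain ⟨s, s', hs⟩ := h.lk.tot a⁻¹ (Γ.inv_mem ha) (tco_lin hl)
  have k := h.lk.mul _ _ _ _ _ _ hs hv
  rw [inv_mul_cancel] at k
  obtain ⟨d, hd⟩ := tco_scal h.tg h.he (h.st _ (Γ.inv_mem ha)).2.1 (h.lk.int _ _ _ hs).2.2.1
    (by rwa [inv_inv])
  have d0 : d ≠ 0 := fun z => (h.lk.int _ _ _ k).2.2.1.2.2.1 (by rw [hd, z, zero_smul])
  have o := h.lk.loc 1 Γ.one_mem (fun _ _ => rfl) (u 1) (tco_u M M.one_mem) fun x hx =>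
    (tco_one h.tg (subset_span hx)).2.trans (tco_one h.tg (subset_span hx)).1.symm
  rw [(tco_one h.tg h.he.1.1).2, (tco_one h.tg h.he'.1.1).2] at o
  exact ⟨s, s', d, hs, d0, hd, h.lk.fn _ _ _ _ k (hd ▸ h.lk.smul _ _ _ d d0 o)⟩

theorem left {a : RingAut A} {v v' w : A} (hv : U a v v') (hw : w ∈ Ln F (Hm F u L) e a) :
    ∃ c : F, c ≠ 0 ∧ w = c • v := by
  obtain ⟨s, s', d, hs, d0, k, -⟩ := h.inv hv
  obtain ⟨ha, -, p, -⟩ := h.lk.int _ _ _ hv
  exact tco_line h.tg h.he (h.st a ha).2.1 hw p (h.lk.int _ _ _ hs).2.2.1 d0 k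

theorem right {a : RingAut A} {v v' w : A} (hv : U a v v') (hw : w ∈ Ln F (Hm F u M) e' a) :
    ∃ c : F, c ≠ 0 ∧ w = c • v' := by
  obtain ⟨s, s', d, hs, d0, -, k⟩ := h.inv hv
  obtain ⟨ha, -, -, p⟩ := h.lk.int _ _ _ hv
  exact tco_line h.tg h.he' (h.st a ha).2.2 hw p (h.lk.int _ _ _ hs).2.2.2 d0 k

theorem smul {z z' : A} (r : TcoR F u L T U z z') {c : F} (hc : c ≠ 0) :
    TcoR F u L T U (c • z) (c • z') := by
  obtain ⟨t, ht, a, v, v', hv, k, rfl, rfl⟩ := r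
  exact ⟨t, ht, a, _, _, h.lk.smul _ _ _ c hc hv, k, (smul_mul_assoc ..).symm,
    (smul_mul_assoc ..).symm⟩

theorem nat {z z' : A} (r : TcoR F u L T U z z') {γ : RingAut A} (hγ : γ ∈ Γ) :
    TcoR F u L T U (γ z) (γ z') := by
  obtain ⟨t, ht, a, v, v', hv, k, rfl, rfl⟩ := r
  refine ⟨γ t, ((h.st γ hγ).1 t).2 ht, _, _, _, h.lk.nat γ hγ _ _ _ hv, fun x hx => ?_,
    map_mul .., map_mul ..⟩
  have := congrArg γ (k _ (((h.st _ (Γ.inv_mem hγ)).2.1 x).2 hx))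
  rw [map_mul, map_mul] at this
  exact this.trans (congrArg (· * γ t) (γ.apply_symm_apply x))

theorem mul {z z' y y' : A} (r : TcoR F u L T U z z') (r' : TcoR F u L T U y y') :
    TcoR F u L T U (z * y) (z' * y') := by
  obtain ⟨t, ht, a, v, v', hv, k, rfl, rfl⟩ := r
  obtain ⟨t', ht', b, s, s', hs, k', rfl, rfl⟩ := r'
  obtain ⟨ha, hl, -⟩ := h.lk.int _ _ _ hv
  obtain ⟨-, -, p, q⟩ := h.lk.int _ _ _ hs
  have c {x : A} (hx : x ∈ span F (Hm F u L)) : t * x = a⁻¹ x * t := by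
    induction hx using span_induction with
    | mem x hx =>
      exact (congrArg (t * ·) (a.apply_symm_apply x).symm).trans
        (k _ (((h.st _ (Γ.inv_mem ha)).2.1 x).2 hx))
    | zero => simp
    | add x y _ _ a b => rw [map_add, add_mul, mul_add, a, b]
    | smul c x _ b => rw [tco_lin hl, smul_mul_assoc, mul_smul_comm, b]
  have n := h.lk.mul _ _ _ _ _ _ hv (h.lk.nat a⁻¹ (Γ.inv_mem ha) _ _ _ hs)
  rw [inv_inv, mul_assoc, mul_inv_cancel_left] at n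
  refine ⟨t * t', tco_mul h.tg ht ht', b * a, _, _, n, fun x hx => ?_, ?_, ?_⟩
  · rw [mul_assoc, ← mul_assoc x, ← k x hx, mul_assoc, ← k' _ (((h.st a ha).2.1 x).2 hx)]
    rfl
  · rw [mul_assoc, ← mul_assoc t, c p.1, mul_assoc, mul_assoc]
  · rw [mul_assoc, ← mul_assoc t, c (span_mono (tco_mono h.le) q.1), mul_assoc, mul_assoc]

theorem mem (hT : T ≤ H) {z z' : A} (r : TcoR F u L T U z z') :
    z ∈ Cz F (Hm F u H) (Hm F u L) e ∧ z' ∈ Cz F (Hm F u T) (Hm F u M) e' := by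
  obtain ⟨t, ht, a, v, v', hv, k, rfl, rfl⟩ := r
  obtain ⟨ha, -, p, q⟩ := h.lk.int _ _ _ hv
  have g {K N : Subgroup G} {f w : A} (hK : T ≤ K) (hN : N ≤ L) (s : a⁻¹ ∈ Stb (Hm F u N))
      (p : w ∈ Ln F (Hm F u N) f a) : w * t ∈ Cz F (Hm F u K) (Hm F u N) f := by
    refine ⟨fun z => p.2.2.1 (tco_cancel h.tg ht p.1 (zero_mem _) (by rw [z, zero_mul])),
      ⟨t, tco_mono hK ht, w, p.1, by rw [p.2.1]⟩, fun x hx => ?_⟩
    obtain ⟨y, rfl⟩ := a.surjective x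
    have hy : y ∈ Hm F u N := a.symm_apply_apply y ▸ (s (a y)).2 hx
    rw [mul_assoc, k y (tco_mono hN hy), ← mul_assoc, p.2.2.2 y hy, mul_assoc]
  exact ⟨g hT le_rfl (h.st _ (Γ.inv_mem ha)).2.1 p, g le_rfl h.le (h.st _ (Γ.inv_mem ha)).2.2 q⟩

theorem ex {x : G} (hx : x ∈ T) :
    ∃ a v v', U a v v' ∧ ∀ y ∈ Hm F u L, u x * a y = y * u x := by
  obtain ⟨b, hb, hl, -, k⟩ := h.ad x hx
  obtain ⟨v, v', hv⟩ := h.lk.tot b⁻¹ (Γ.inv_mem hb) (tco_lin hl)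
  refine ⟨_, v, v', hv, fun y hy => (k _ (subset_span (tco_mono le_top
    (((h.st _ (Γ.inv_mem hb)).2.1 y).2 hy)))).trans (congrArg (· * u x) (b.apply_symm_apply y))⟩

theorem ln {N : Subgroup G} (hN : N ≤ L) {a : RingAut A} (s : a ∈ Stb (Hm F u N)) {x : G}
    (k : ∀ y ∈ Hm F u L, u x * a y = y * u x) {f w : A} (hw : w ∈ span F (Hm F u N))
    (hf : w * f = w) (h0 : w * u x ≠ 0) (c : ∀ y ∈ Hm F u N, w * u x * y = y * (w * u x)) :
    w ∈ Ln F (Hm F u N) f a :=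
  ⟨hw, hf, fun z => h0 (by rw [z, zero_mul]), fun y hy =>
    tco_cancel h.tg (tco_u ⊤ trivial) (tco_span h.tg hw (subset_span hy))
      (tco_span h.tg (subset_span ((s y).2 hy)) hw) (by
        rw [mul_assoc, ← k y (tco_mono hN hy), ← mul_assoc, c _ ((s y).2 hy), mul_assoc])⟩

theorem onto [L.Normal] {z : A} (hz : z ∈ Cz F (Hm F u (T ⊔ L)) (Hm F u L) e) :
    ∃ z', TcoR F u L T U z z' := by
  obtain ⟨h0, ⟨_, ⟨c, hc, g, hg, rfl⟩, w, hw, rfl⟩, cm⟩ := hz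
  rw [sup_comm, ← SetLike.mem_coe, Subgroup.normal_mul] at hg
  obtain ⟨l, hl, x, hx, rfl⟩ := hg
  obtain ⟨d, hd, k⟩ := h.tg.mul l x
  obtain ⟨a, v, v', hv, k'⟩ := h.ex hx
  have e1 : w * e * c • u (l * x) = (c * d⁻¹) • (w * e * u l) * u x := by
    rw [smul_mul_assoc, mul_assoc _ (u l), k, mul_smul_comm, mul_smul_comm, smul_smul,
      inv_mul_cancel_right₀ hd]
  dsimp only at h0 cm ⊢
  rw [e1] at h0 cm ⊢
  obtain ⟨c', hc', e2⟩ := h.left hv (h.ln le_rfl (h.st a (h.lk.int _ _ _ hv).1).2.1 k'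
    (smul_mem _ _ (tco_span h.tg (tco_span h.tg hw h.he.1.1) (subset_span (tco_u L hl))))
    (by rw [smul_mul_assoc, mul_assoc _ (u l), ← h.he.1.2 _ (tco_u L hl), ← mul_assoc,
      mul_assoc w, h.he.2.1]) h0 cm)
  exact ⟨_, u x, tco_u T hx, a, _, _, h.lk.smul _ _ _ c' hc' hv, k', by rw [e2], rfl⟩

theorem onto' {z' : A} (hz : z' ∈ Cz F (Hm F u T) (Hm F u M) e') : ∃ z, TcoR F u L T U z z' := by
  obtain ⟨h0, ⟨_, ⟨c, hc, x, hx, rfl⟩, w, hw, rfl⟩, cm⟩ := hz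
  obtain ⟨a, v, v', hv, k'⟩ := h.ex hx
  have e1 : w * e' * c • u x = c • (w * e') * u x := by rw [smul_mul_assoc, mul_smul_comm]
  rw [e1] at h0 cm ⊢
  obtain ⟨c', hc', e2⟩ := h.right hv (h.ln h.le (h.st a (h.lk.int _ _ _ hv).1).2.2 k'
    (smul_mem _ _ (tco_span h.tg hw h.he'.1.1))
    (by rw [smul_mul_assoc, mul_assoc w, h.he'.2.1]) h0 cm)
  exact ⟨_, u x, tco_u T hx, a, _, _, h.lk.smul _ _ _ c' hc' hv, k', rfl, by rw [e2]⟩

/-- pairs over the same coset are proportional. -/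
theorem prop {m r v v' s s' : A} {a b : RingAut A} (hm : m ∈ Hm F u M) (hr : r ∈ Hm F u T)
    (hv : U a v v') (hs : U b s s') (k : ∀ x ∈ Hm F u L, m * r * a x = x * (m * r))
    (k' : ∀ x ∈ Hm F u L, r * b x = x * r) :
    ∃ c : F, v * (m * r) = c • (s * r) ∧ v' * (m * r) = c • (s' * r) := by
  obtain ⟨ha, la, -⟩ := h.lk.int _ _ _ hv
  obtain ⟨hb, lb, -⟩ := h.lk.int _ _ _ hs
  have g := Γ.mul_mem (Γ.inv_mem ha) hb
  have n := h.loc g (fun c x => (congrArg (a⁻¹ : RingAut A) (lb c x)).trans (tco_lin la c _)) hm (fun x hx => by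
    have hy := ((h.st _ g).2.1 x).2 hx
    refine tco_cancel h.tg hr (subset_span (tco_mul h.tg (tco_mono h.le hm) hx))
      (subset_span (tco_mul h.tg hy (tco_mono h.le hm))) ?_
    rw [mul_assoc, ← k' x hx, mul_assoc, ← k _ hy, ← mul_assoc]
    exact congrArg (m * r * ·) (a.apply_symm_apply (b x)).symm) hv
  rw [mul_inv_cancel_left] at n
  obtain ⟨c, hc, e1⟩ := h.left hs (h.lk.int _ _ _ n).2.2.1
  have e2 := h.lk.fn _ _ _ _ n (e1 ▸ h.lk.smul _ _ _ c hc hs)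
  exact ⟨c, by rw [← mul_assoc, e1, smul_mul_assoc], by rw [← mul_assoc, e2, smul_mul_assoc]⟩

end Tco

theorem tco_ext {ι : Type} {z : ι → A} (h : LinearIndependent F z) (z' : ι → A) :
    ∃ φ : A →ₗ[F] A, ∀ i, φ (z i) = z' i := by
  obtain ⟨φ, k⟩ := LinearMap.exists_extend ((Finsupp.linearCombination F z').comp h.repr)
  refine ⟨φ, fun i => (LinearMap.congr_fun k ⟨z i, subset_span ⟨i, rfl⟩⟩).trans ?_⟩
  rw [LinearMap.comp_apply, h.repr_eq_single i _ rfl]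
  simp

theorem tco_ind (hu : TG F u) [L.Normal] {ι : Type} {x : ι → G} {w : ι → A}
    (hx : ∀ i j, (x i : G ⧸ L) = x j → i = j) (hw : ∀ i, w i ∈ span F (Hm F u L))
    (h0 : ∀ i, w i ≠ 0) : LinearIndependent F fun i => w i * u (x i) := by
  have k (i) : w i * u (x i) ∈ span F (u '' {g | (g : G ⧸ L) = x i}) := by
    have := hw i
    generalize w i = y at this
    induction this using span_induction with
    | mem y hy =>
      obtain ⟨c, -, l, hl, rfl⟩ := hy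
      obtain ⟨d, -, e⟩ := hu.mul l (x i)
      rw [smul_mul_assoc, e]
      refine smul_mem _ _ (smul_mem _ _ (subset_span ⟨_, ?_, rfl⟩))
      rw [Set.mem_ofPred_eq, QuotientGroup.mk_mul, (QuotientGroup.eq_one_iff l).2 hl, one_mul]
    | zero => simp
    | add a b _ _ p q => rw [add_mul]; exact add_mem p q
    | smul c a _ p => rw [smul_mul_assoc]; exact smul_mem _ _ p
  refine linearIndependent_iff_notMem_span.2 fun i hi => h0 i ?_
  refine tco_cancel hu (tco_u ⊤ (Subgroup.mem_top (x i))) (hw i) (zero_mem _) ?_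
  rw [zero_mul]
  refine (Submodule.disjoint_def.1 (hu.ind.disjoint_span_image
    (disjoint_compl_right (a := {g : G | (g : G ⧸ L) = x i})))) _ (k i) (span_le.2 ?_ hi)
  rintro _ ⟨j, hj, rfl⟩
  exact span_mono (Set.image_mono fun g (hg : _ = _) (e : _ = _) =>
    hj.2 (hx j i (hg.symm.trans e))) (k j)

/-- the correspondence is the graph of a linear map in both directions. -/
theorem Tco.lin {e e' : A} {U : RingAut A → A → A → Prop} (h : Tco F u L M T Γ e e' U)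
    [L.Normal] : ∃ φ ψ : A →ₗ[F] A, ∀ z z', TcoR F u L T U z z' → φ z = z' ∧ ψ z' = z := by
  let ι := {q : G ⧸ L // ∃ x ∈ T, (x : G ⧸ L) = q}
  choose x hx ex using fun i : ι => i.2
  choose a v v' hv k using fun i : ι => h.ex (hx i)
  have inj (i j) (e : (x i : G ⧸ L) = x j) : i = j :=
    Subtype.ext ((ex i).symm.trans (e.trans (ex j)))
  have p (i) := (h.lk.int _ _ _ (hv i)).2.2
  obtain ⟨φ, hφ⟩ := tco_ext (tco_ind h.tg inj (fun i => (p i).1.1) fun i => (p i).1.2.2.1)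
    fun i => v' i * u (x i)
  obtain ⟨ψ, hψ⟩ := tco_ext (tco_ind h.tg inj (fun i => span_mono (tco_mono h.le) (p i).2.1)
    fun i => (p i).2.2.2.1) fun i => v i * u (x i)
  refine ⟨φ, ψ, ?_⟩
  rintro _ _ ⟨_, ⟨c, hc, y, hy, rfl⟩, b, s, s', hs, k', rfl, rfl⟩
  let i : ι := ⟨y, y, hy, rfl⟩
  have hm : y * (x i)⁻¹ ∈ M := h.eq.ge ⟨T.mul_mem hy (T.inv_mem (hx i)), by
    rw [← div_eq_mul_inv]
    exact QuotientGroup.eq_iff_div_mem.1 (ex i).symm⟩
  obtain ⟨d, hd, e1⟩ := h.tg.mul (y * (x i)⁻¹) (x i)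
  have e2 : c • u y = (c * d⁻¹) • u (y * (x i)⁻¹) * u (x i) := by
    rw [smul_mul_assoc, e1, smul_smul, inv_mul_cancel_right₀ hd, inv_mul_cancel_right]
  rw [e2] at k' ⊢
  obtain ⟨c', e3, e4⟩ := h.prop ⟨_, by simp [hc, hd], _, hm, rfl⟩ (tco_u T (hx i)) hs (hv i) k' (k i)
  rw [e3, e4, map_smul, map_smul, hφ, hψ]
  exact ⟨rfl, rfl⟩

end Pool.Agent.Lib.MP_1ae3da_al.CT
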