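import Pool.Agent.Lib.MP_1ae3da_al.C.TI
import Pool.Agent.Lib.MP_1ae3da_al.C.TE

/-! Links: restriction, transport, extension, gluing. -/

namespace Pool.Agent.Lib.MP_1ae3da_al.CT

open Submodule

variable {F A : Type} [Field F] [Ring A] [Algebra F A] {GG : Subgroup (RingAut F)}
  {Γ Γ' : Subgroup (RingAut A)} {L M X Y : Set A} {e e' : A} {U : RingAut A → A → A → Prop}

theorem tl_ai (γ : RingAut A) (x : A) : γ (γ⁻¹ x) = x := γ.apply_symm_apply x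

theorem tl_ia (γ : RingAut A) (x : A) : γ⁻¹ (γ x) = x := γ.symm_apply_apply x

theorem tl_unit (hL : Nice F L) (hM : Nice F M) (hML : M ⊆ L) : ∃ ε ∈ M,
    (∀ a ∈ span F L, ε * a = a ∧ a * ε = a) ∧ ∀ s ∈ M, ∃ s' ∈ M, s * s' = ε ∧ s' * s = ε := by
  obtain ⟨ε, m, -, u1, u2, -⟩ := hM.unit
  obtain ⟨ε', -, -, v1, -, v3⟩ := hL.unit
  obtain rfl := v3 ε (hML m) (u1 ε (subset_span m)).1
  exact ⟨ε, m, v1, u2⟩

theorem tl_span {s : RingAut A} (l : Lin F s) {m z : A} (h : ∀ x ∈ L, m * x = s x * m)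
    (hz : z ∈ span F L) : m * z = s z * m := by
  induction hz using span_induction with
  | mem x k => exact h x k
  | zero => simp
  | add x y _ _ p q => rw [mul_add, p, q, map_add, add_mul]
  | smul c x _ p => rw [mul_smul_comm, p, l, smul_mul_assoc]

theorem Link.mono (h : Link F Γ L M e e' U) (h' : Γ' ≤ Γ) :
    Link F Γ' L M e e' (fun a w w' => a ∈ Γ' ∧ U a w w') :=
  ⟨fun a w w' k => ⟨k.1, (h.int a w w' k.2).2⟩,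
    fun a ha hl => (h.tot a (h' ha) hl).imp fun _ k => k.imp fun _ k => ⟨ha, k⟩,
    fun a w w' b v v' k k' => ⟨mul_mem k.1 k'.1, h.mul a w w' b v v' k.2 k'.2⟩,
    fun a w w' c hc k => ⟨k.1, h.smul a w w' c hc k.2⟩,
    fun a w w₁ w₂ k k' => h.fn a w w₁ w₂ k.2 k'.2,
    fun a ha hl m hm k => ⟨ha, h.loc a (h' ha) hl m hm k⟩,
    fun γ hγ a w w' k => ⟨mul_mem (mul_mem hγ k.1) (inv_mem hγ), h.nat γ (h' hγ) a w w' k.2⟩⟩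

theorem LK.mono (h : LK F Γ L M X Y) (h' : Γ' ≤ Γ) : LK F Γ' L M X Y := by
  obtain ⟨Ω, q, l⟩ := h
  refine ⟨Ω, q.mono h', fun e he => ?_⟩
  obtain ⟨U, k⟩ := l e he
  exact ⟨_, k.mono (inf_le_inf_right _ h')⟩

theorem LK.eb (h : LK F Γ L M X Y) : EB Γ X Y := h.imp fun _ k => k.1

theorem Link.fn' [IsAlgClosed F] (h : Link F Γ L M e e' U) (hL : Nice F L) (he : e ∈ Irr F L)
    (hΓ : Γ ≤ Stb L) {a : RingAut A} {w₁ w₂ w' : A} (h1 : U a w₁ w') (h2 : U a w₂ w') :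
    w₁ = w₂ := by
  obtain ⟨ha, hl, i1, i2⟩ := h.int a w₁ w' h1
  obtain ⟨c, hc, rfl⟩ := Ln_unique hL he hl (hΓ ha) i1 (h.int a w₂ w' h2).2.2.1
  have k := h.fn a _ _ _ (h.smul a w₁ w' c hc h1) h2
  have c1 : c = 1 := smul_left_injective F i2.2.2.1 (k.trans (one_smul F w').symm)
  rw [c1, one_smul]

theorem Link.tot' [IsAlgClosed F] (h : Link F Γ L M e e' U) (hL : Nice F L) (he : e ∈ Irr F L)
    (hΓ : Γ ≤ Stb L) {a : RingAut A} (ha : a ∈ Γ) (hl : Lin F a) {w : A} (hw : w ∈ Ln F L e a) :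
    ∃ w', U a w w' := by
  obtain ⟨v, v', k⟩ := h.tot a ha hl
  obtain ⟨c, hc, rfl⟩ := Ln_unique hL he hl (hΓ ha) (h.int a v v' k).2.2.1 hw
  exact ⟨_, h.smul a v v' c hc k⟩

/-- automorphisms that are trivial on `L` have the trivial link. -/
theorem Link.triv (h : Link F Γ L M e e' U) (hL : Nice F L) (hM : Nice F M) (hML : M ⊆ L)
    (he : e ∈ Irr F L) (he' : e' ∈ Irr F M) {a : RingAut A} (ha : a ∈ Γ) (hl : Lin F a)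
    (h1 : ∀ x ∈ L, a x = x) : U a e e' := by
  obtain ⟨ε, m, u1, -⟩ := tl_unit hL hM hML
  have k := h.loc a ha hl ε m fun x hx => by
    rw [h1 x hx, (u1 x (subset_span hx)).1, (u1 x (subset_span hx)).2]
  rwa [(u1 e he.1.1).1, (u1 e' (span_mono hML he'.1.1)).1] at k

theorem Link.inv [IsAlgClosed F] (h : Link F Γ L M e e' U) (hL : Nice F L) (hM : Nice F M)
    (hML : M ⊆ L) (he : e ∈ Irr F L) (he' : e' ∈ Irr F M) (hΓ : Γ ≤ Stb L ⊓ Stb M)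
    {a : RingAut A} {w w' : A} (h1 : U a w w') :
    ∃ v v', U a⁻¹ v v' ∧ w * v = e ∧ v * w = e ∧ w' * v' = e' ∧ v' * w' = e' := by
  obtain ⟨ha, hl, i1, -⟩ := h.int a w w' h1
  have hΓ' : Γ ≤ Stb L := hΓ.trans inf_le_left
  obtain ⟨v, hv, e1, e2⟩ := Ln_unit hL he hl (hΓ' ha) i1
  obtain ⟨v', k⟩ := h.tot' hL he hΓ' (inv_mem ha) hl.inv hv
  have t := h.triv hL hM hML he he' (one_mem Γ) Lin.one fun _ _ => rfl
  have m1 := h.mul _ _ _ _ _ _ h1 k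
  have m2 := h.mul _ _ _ _ _ _ k h1
  rw [mul_inv_cancel, e1] at m1
  rw [inv_mul_cancel, e2] at m2
  exact ⟨v, v', k, e1, e2, h.fn _ _ _ _ m1 t, h.fn _ _ _ _ m2 t⟩

/-- transport of a link along `γ`. -/
theorem Link.map (hΓ : Γ ≤ SG GG A ⊓ Stb L ⊓ Stb M) {γ : RingAut A} (hγ : γ ∈ Γ)
    (h : Link F (Γ ⊓ Fx e) L M e e' U) :
    Link F (Γ ⊓ Fx (γ e)) L M (γ e) (γ e')
      (fun a w w' => U (γ⁻¹ * a * γ) (γ⁻¹ w) (γ⁻¹ w')) := by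
  obtain ⟨⟨hS, hL⟩, hM⟩ := hΓ hγ
  obtain ⟨σ, -, s⟩ := id hS
  have c1 : ∀ a : RingAut A, γ * (γ⁻¹ * a * γ) * γ⁻¹ = a := fun a => by group
  have mem : ∀ a : RingAut A, γ⁻¹ * a * γ ∈ Γ ⊓ Fx e ↔ a ∈ Γ ⊓ Fx (γ e) := fun a => by
    refine ⟨fun k => ⟨?_, ?_⟩, fun k => ⟨Γ.mul_mem (Γ.mul_mem (Γ.inv_mem hγ) k.1) hγ, ?_⟩⟩
    · rw [← c1 a]
      exact Γ.mul_mem (Γ.mul_mem hγ k.1) (Γ.inv_mem hγ)
    · have : γ⁻¹ (a (γ e)) = e := k.2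
      exact (tl_ai γ _).symm.trans (congrArg γ this)
    · have : a (γ e) = γ e := k.2
      show γ⁻¹ (a (γ e)) = e
      rw [this, tl_ia]
  have lin : ∀ a : RingAut A, Lin F a → Lin F (γ⁻¹ * a * γ) := fun a k => by
    simpa only [inv_inv] using s.inv.lin k
  refine ⟨fun a w w' k => ?_, fun a ha hl => ?_, fun a w w' b v v' k k' => ?_,
    fun a w w' c hc k => ?_, fun a w w₁ w₂ k k' => γ⁻¹.injective (h.fn _ _ _ _ k k'),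
    fun a ha hl m hm k => ?_, fun δ hδ a w w' k => ?_⟩
  · obtain ⟨i1, i2, i3, i4⟩ := h.int _ _ _ k
    have j2 := s.lin i2
    have j3 := ln_stb hS hL i3
    have j4 := ln_stb hS hM i4
    rw [c1] at j2 j3 j4
    rw [tl_ai] at j3 j4
    exact ⟨(mem a).1 i1, j2, j3, j4⟩
  · obtain ⟨w, w', k⟩ := h.tot _ ((mem a).2 ha) (lin a hl)
    exact ⟨γ w, γ w', by rwa [tl_ia, tl_ia]⟩
  · have := h.mul _ _ _ _ _ _ k k'
    rwa [← map_mul, ← map_mul,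
      show γ⁻¹ * a * γ * (γ⁻¹ * b * γ) = γ⁻¹ * (a * b) * γ by group] at this
  · show U _ _ _
    rw [s.inv, s.inv]
    exact h.smul _ _ _ _ (by simpa using hc) k
  · show U _ _ _
    rw [map_mul, map_mul, tl_ia, tl_ia]
    refine h.loc _ ((mem a).2 ha) (lin a hl) _ (((Stb M).inv_mem hM m).2 hm) fun x hx => ?_
    have := congrArg (γ⁻¹ : RingAut A) (k (γ x) ((hL x).2 hx))
    rwa [map_mul, map_mul, tl_ia] at this
  · have := h.nat _ ((mem δ).2 hδ) _ _ _ k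
    rw [show γ⁻¹ * δ * γ * (γ⁻¹ * a * γ) * (γ⁻¹ * δ * γ)⁻¹ = γ⁻¹ * (δ * a * δ⁻¹) * γ by group]
      at this
    have e : ∀ x, (γ⁻¹ * δ * γ) (γ⁻¹ x) = γ⁻¹ (δ x) := fun x => by
      show γ⁻¹ (δ (γ (γ⁻¹ x))) = _
      rw [tl_ai]
    rwa [e, e] at this

/-- hint: `U a w w'` iff `a ∈ Γ` and `w = m * w₁`, `w' = m * w₁'` with `m ∈ M` implementing a
linear `s ∈ Γ` on `L` and `U' (s⁻¹ * a) w₁ w₁'`. -/
theorem Link.ext [IsAlgClosed F] (hΓ : Γ ≤ SG GG A ⊓ Stb L ⊓ Stb M ⊓ Fx e ⊓ Fx e') (h' : Γ' ≤ Γ)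
    (hL : Nice F L) (hM : Nice F M) (hML : M ⊆ L) (he : e ∈ Irr F L) (he' : e' ∈ Irr F M)
    (hs : ∀ γ ∈ Γ, ∃ s ∈ Γ, Lin F s ∧ (∃ m ∈ M, ∀ x ∈ L, m * x = s x * m) ∧ s⁻¹ * γ ∈ Γ')
    (h : Link F Γ' L M e e' U) : ∃ U', Link F Γ L M e e' U' := by
  obtain ⟨ε, -, u1, u2⟩ := tl_unit hL hM hML
  have gS : ∀ {γ}, γ ∈ Γ → γ ∈ SG GG A := fun k => (hΓ k).1.1.1.1
  have gL : ∀ {γ}, γ ∈ Γ → γ ∈ Stb L := fun k => (hΓ k).1.1.1.2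
  have gM : ∀ {γ}, γ ∈ Γ → γ ∈ Stb M := fun k => (hΓ k).1.1.2
  have ew : ∀ {a w w'}, U a w w' → e * w = w ∧ e' * w' = w' := fun k => by
    obtain ⟨-, -, i3, i4⟩ := h.int _ _ _ k
    exact ⟨(Cen_comm he.1 i3.1).trans i3.2.1, (Cen_comm he'.1 i4.1).trans i4.2.1⟩
  let V : RingAut A → A → A → Prop := fun a w w' => ∃ s ∈ Γ, Lin F s ∧ ∃ m ∈ M,
    (∀ x ∈ L, m * x = s x * m) ∧ ∃ v v', U (s⁻¹ * a) v v' ∧ w = m * v ∧ w' = m * v'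
  have int : ∀ a w w', V a w w' → a ∈ Γ ∧ Lin F a ∧ w ∈ Ln F L e a ∧ w' ∈ Ln F M e' a := by
    rintro a _ _ ⟨s, g, l, m, hm, k, v, v', t, rfl, rfl⟩
    obtain ⟨i1, i2, i3, i4⟩ := h.int _ _ _ t
    have j1 := mul_mem g (h' i1)
    have j2 := l.mul i2
    have j3 := Ln_mul hL he l (gL g) (gL (h' i1)) (Ln_hm hL he (hML hm) k) i3
    have j4 := Ln_mul hM he' l (gM g) (gM (h' i1)) (Ln_hm hM he' hm fun x hx => k x (hML hx)) i4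
    rw [mul_inv_cancel_left] at j1 j2 j3 j4
    rw [mul_assoc, (ew t).1] at j3
    rw [mul_assoc, (ew t).2] at j4
    exact ⟨j1, j2, j3, j4⟩
  have mul : ∀ a w w' b v v', V a w w' → V b v v' → V (a * b) (w * v) (w' * v') := by
    rintro a _ _ b _ _ ⟨s, g, l, m, hm, k, w, w', t, rfl, rfl⟩
      ⟨s', g', l', n, hn, k', v, v', t', rfl, rfl⟩
    obtain ⟨i1, i2, i3, i4⟩ := h.int _ _ _ t
    set c := s⁻¹ * a with hc
    have gc := h' i1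
    refine ⟨s * (c * s' * c⁻¹), mul_mem g (mul_mem (mul_mem gc g') (inv_mem gc)),
      l.mul ((i2.mul l').mul i2.inv), m * c n, hM.mul hm ((gM gc n).2 hn), fun x hx => ?_,
      w * v, w' * v', ?_, ?_, ?_⟩
    · have x1 : c⁻¹ x ∈ L := (gL (inv_mem gc) x).2 hx
      have x2 := congrArg c (k' _ x1)
      rw [map_mul, map_mul, tl_ai] at x2
      rw [mul_assoc, x2, ← mul_assoc, k _ ((gL gc _).2 ((gL g' _).2 x1)), mul_assoc]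
      rfl
    · rw [show (s * (c * s' * c⁻¹))⁻¹ * (a * b) = c * (s'⁻¹ * b) by rw [hc]; group]
      exact h.mul _ _ _ _ _ _ t t'
    · rw [mul_assoc, ← mul_assoc w, i3.2.2.2 n (hML hn)]
      simp only [mul_assoc]
    · rw [mul_assoc, ← mul_assoc w', i4.2.2.2 n hn]
      simp only [mul_assoc]
  have loc : ∀ a ∈ Γ, Lin F a → ∀ m ∈ M, (∀ x ∈ L, m * x = a x * m) → V a (m * e) (m * e') :=
    fun a ha hl m hm k => ⟨a, ha, hl, m, hm, k, e, e', by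
      rw [inv_mul_cancel]
      exact h.triv hL hM hML he he' (one_mem _) Lin.one fun _ _ => rfl, rfl, rfl⟩
  have inv : ∀ s ∈ Γ, ∀ m ∈ M, (∀ x ∈ L, m * x = s x * m) → ∀ n, m * n = ε → n * m = ε → n ∈ M →
      ∀ x ∈ L, n * x = s⁻¹ x * n := fun s g m hm k n e1 e2 hn x hx => by
    have x1 : s⁻¹ x ∈ L := (gL (inv_mem g) x).2 hx
    have x2 := k _ x1
    rw [tl_ai] at x2
    calc n * x = n * (x * m) * n := by
          rw [mul_assoc, mul_assoc, e1, (u1 x (subset_span hx)).2]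
      _ = s⁻¹ x * n := by rw [← x2, ← mul_assoc, e2, (u1 _ (subset_span x1)).1]
  refine ⟨V, int, fun a ha hl => ?_, mul, ?_, ?_, loc, fun γ hγ a w w' k => ?_⟩
  · obtain ⟨s, g, l, ⟨m, hm, k⟩, t⟩ := hs a ha
    obtain ⟨v, v', t'⟩ := h.tot _ t (l.inv.mul hl)
    exact ⟨_, _, s, g, l, m, hm, k, v, v', t', rfl, rfl⟩
  · rintro a _ _ c hc ⟨s, g, l, m, hm, k, v, v', t, rfl, rfl⟩
    exact ⟨s, g, l, m, hm, k, _, _, h.smul _ _ _ c hc t, (mul_smul_comm _ _ _).symm,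
      (mul_smul_comm _ _ _).symm⟩
  · rintro a _ _ _ ⟨s, g, l, m, hm, k, w, w', t, rfl, rfl⟩
      ⟨s', g', l', n, hn, k', v, v', t', q, rfl⟩
    obtain ⟨n', hn', e1, e2⟩ := u2 n hn
    have r : s'⁻¹ * s ∈ Γ' := by
      rw [show s'⁻¹ * s = s'⁻¹ * a * (s⁻¹ * a)⁻¹ by group]
      exact mul_mem (h.int _ _ _ t').1 (inv_mem (h.int _ _ _ t).1)
    have a1 := h.loc _ r (l'.inv.mul l) _ (hM.mul hn' hm) fun x hx => by
      rw [mul_assoc, k x hx, ← mul_assoc, inv s' g' n hn k' n' e1 e2 hn' _ ((gL g x).2 hx),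
        mul_assoc]
      rfl
    have a2 := h.mul _ _ _ _ _ _ a1 t
    rw [show s'⁻¹ * s * (s⁻¹ * a) = s'⁻¹ * a by group, mul_assoc, (ew t).1, mul_assoc _ e',
      (ew t).2, mul_assoc, q, ← mul_assoc, e2, (u1 _ (h.int _ _ _ t').2.2.1.1).1] at a2
    rw [← h.fn _ _ _ _ a2 t', ← mul_assoc, ← mul_assoc, e1, (u1 _ (subset_span (hML hm))).1]
  · obtain ⟨s₀, g₀, l₀, ⟨m₀, hm₀, k₀⟩, t₀⟩ := hs γ hγ
    set δ := s₀⁻¹ * γ with hδ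
    have gd := h' t₀
    have a1 : V (δ * a * δ⁻¹) (δ w) (δ w') := by
      obtain ⟨s, g, l, m, hm, k, v, v', t, rfl, rfl⟩ := k
      obtain ⟨σ, -, sl⟩ := gS gd
      refine ⟨δ * s * δ⁻¹, mul_mem (mul_mem gd g) (inv_mem gd), sl.lin l, δ m, (gM gd m).2 hm,
        fun x hx => ?_, δ v, δ v', ?_, map_mul _ _ _, map_mul _ _ _⟩
      · have x2 := congrArg δ (k _ ((gL (inv_mem gd) x).2 hx))
        rwa [map_mul, map_mul, tl_ai] at x2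
      · rw [show (δ * s * δ⁻¹)⁻¹ * (δ * a * δ⁻¹) = δ * (s⁻¹ * a) * δ⁻¹ by group]
        exact h.nat _ t₀ _ _ _ t
    obtain ⟨n, hn, e1, e2⟩ := u2 m₀ hm₀
    have a2 := mul _ _ _ _ _ _ (mul _ _ _ _ _ _ (loc s₀ g₀ l₀ m₀ hm₀ k₀) a1)
      (loc s₀⁻¹ (inv_mem g₀) l₀.inv n hn (inv s₀ g₀ m₀ hm₀ k₀ n e1 e2 hn))
    obtain ⟨-, -, i3, i4⟩ := int _ _ _ a1
    have key : ∀ {S : Set A} {f z : A}, S ⊆ L → n ∈ S → f ∈ Irr F S → z ∈ span F S → z * f = z →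
        m₀ * f * z * (n * f) = s₀ z := fun {S f z} sub nS hf hz zf => by
      have zL := span_mono sub hz
      rw [mul_assoc m₀, Cen_comm hf.1 hz, zf, ← hf.1.2 n nS, mul_assoc, ← mul_assoc z, zf,
        ← mul_assoc, tl_span l₀ k₀ zL, mul_assoc, e1,
        (u1 _ ((span_stb (gS g₀) (gL g₀)).2 zL)).2]
    rw [key subset_rfl (hML hn) he i3.1 i3.2.1, key hML hn he' i4.1 i4.2.1,
      show s₀ * (δ * a * δ⁻¹) * s₀⁻¹ = γ * a * γ⁻¹ by rw [hδ]; group] at a2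
    have e : ∀ x, s₀ (δ x) = γ x := fun x => tl_ai s₀ (γ x)
    rwa [e, e] at a2

/-- a linear automorphism implemented on `L` by `m ∈ M` fixes both centres. -/
theorem inner_fix (hL : Nice F L) (hM : Nice F M) (hML : M ⊆ L) {s : RingAut A} (hs : Lin F s)
    (h1 : s ∈ Stb L) {m : A} (hm : m ∈ M) (h : ∀ x ∈ L, m * x = s x * m) :
    (∀ z ∈ Cen F L, s z = z) ∧ ∀ z ∈ Cen F M, s z = z := by
  obtain ⟨ε, -, u1, u2⟩ := tl_unit hL hM hML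
  obtain ⟨n, -, e1, -⟩ := u2 m hm
  have key : ∀ z ∈ span F L, z * m = m * z → s z = z := fun z hz k => by
    have sz : s z ∈ span F L := (span_stb (GG := ⊤) hs.mem_SG h1).2 hz
    rw [← (u1 _ sz).2, ← e1, ← mul_assoc, ← tl_span hs h hz, ← k, mul_assoc, e1, (u1 z hz).2]
  exact ⟨fun z hz => key z hz.1 (hz.2 m (hML hm)),
    fun z hz => key z (span_mono hML hz.1) (hz.2 m hm)⟩

/-- hint: as `glue`, with `family`, `Link.map` and `Link.ext`. -/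
theorem glueLK [IsAlgClosed F] (hΓ : Γ ≤ SG GG A ⊓ Stb L ⊓ Stb M) (hL : Nice F L)
    (hM : Nice F M) (hML : M ⊆ L) (P Q X : Set A) (hPL : P ⊆ Irr F L) (hQM : Q ⊆ Irr F M)
    (rP rQ : A → A → Prop)
    (hP : ∀ γ ∈ Γ, ∀ a ∈ P, γ a ∈ P) (hQ : ∀ γ ∈ Γ, ∀ a ∈ Q, γ a ∈ Q)
    (hX : ∀ γ ∈ Γ, ∀ e ∈ X, γ e ∈ X)
    (nP : ∀ γ ∈ Γ, ∀ a ∈ P, ∀ e ∈ X, rP a e → rP (γ a) (γ e))
    (nQ : ∀ γ ∈ Γ, ∀ a ∈ Q, ∀ e ∈ X, rQ a e → rQ (γ a) (γ e))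
    (eP : ∀ a ∈ P, ∃ e ∈ X, rP a e) (eQ : ∀ a ∈ Q, ∃ e ∈ X, rQ a e)
    (tP : ∀ a ∈ P, ∀ e ∈ X, ∀ e' ∈ X, rP a e → rP a e' →
      ∃ s ∈ Γ, s e = e' ∧ Lin F s ∧ ∃ m ∈ M, ∀ x ∈ L, m * x = s x * m)
    (tQ : ∀ a ∈ Q, ∀ e ∈ X, ∀ e' ∈ X, rQ a e → rQ a e' →
      ∃ s ∈ Γ, s e = e' ∧ Lin F s ∧ ∃ m ∈ M, ∀ x ∈ L, m * x = s x * m)
    (h : ∀ e ∈ X, LK F (Γ ⊓ Fx e) L M {a | a ∈ P ∧ rP a e} {b | b ∈ Q ∧ rQ b e}) :
    LK F Γ L M P Q := by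
  classical
  obtain ⟨Θ, b, eq, rep⟩ := family (Γ := Γ) X (fun e => {a | a ∈ P ∧ rP a e})
    (fun e => {b | b ∈ Q ∧ rQ b e}) hX
    (fun γ g e he a ha => ⟨hP γ g a ha.1, nP γ g a ha.1 e he ha.2⟩)
    (fun γ g e he a ha => ⟨hQ γ g a ha.1, nQ γ g a ha.1 e he ha.2⟩)
    (fun e Ω => ∀ a ∈ {a | a ∈ P ∧ rP a e}, ∃ U, Link F (Γ ⊓ Fx e ⊓ Fx a) L M a (Ω a) U) h
  have fix : ∀ s ∈ Γ, Lin F s → (∃ m ∈ M, ∀ x ∈ L, m * x = s x * m) →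
      (∀ a ∈ P, s a = a) ∧ ∀ a ∈ Q, s a = a := fun s g l ⟨m, hm, k⟩ =>
    have i := inner_fix hL hM hML l (hΓ g).1.2 hm k
    ⟨fun a ha => i.1 a (hPL ha).1, fun a ha => i.2 a (hQM ha).1⟩
  have ind : ∀ a ∈ P, ∀ e ∈ X, ∀ e' ∈ X, rP a e → rP a e' → Θ e' a = Θ e a :=
    fun a ha e he e' he' r r' => by
      obtain ⟨s, g, rfl, l, k⟩ := tP a ha e he e' he' r r'
      have := eq s g e he a ⟨ha, r⟩
      rwa [(fix s g l k).1 a ha, (fix s g l k).2 _ ((b e he).1 ⟨ha, r⟩).1] at this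
  choose! ch cX cr using eP
  have val : ∀ a ∈ P, ∀ e ∈ X, rP a e → Θ (ch a) a = Θ e a :=
    fun a ha e he r => ind a ha e he _ (cX a ha) r (cr a ha)
  have eqv : ∀ γ ∈ Γ, ∀ a ∈ P, Θ (ch (γ a)) (γ a) = γ (Θ (ch a) a) := fun γ g a ha => by
    rw [val _ (hP γ g a ha) _ (hX γ g _ (cX a ha)) (nP γ g a ha _ (cX a ha) (cr a ha)),
      eq γ g _ (cX a ha) a ⟨ha, cr a ha⟩]
  have mq : ∀ a ∈ P, Θ (ch a) a ∈ Q ∧ rQ (Θ (ch a) a) (ch a) :=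
    fun a ha => (b _ (cX a ha)).1 ⟨ha, cr a ha⟩
  refine ⟨fun a => Θ (ch a) a, ⟨⟨fun a ha => (mq a ha).1, fun a ha a' ha' q => ?_, fun y hy => ?_⟩,
    fun γ g a ha => ⟨hP γ g a ha, eqv γ g a ha⟩⟩, fun a ha => ?_⟩
  · have q' : Θ (ch a) a = Θ (ch a') a' := q
    obtain ⟨s, g, e, l, k⟩ := tQ _ (mq a ha).1 _ (cX a ha) _ (cX a' ha') (mq a ha).2
      (q' ▸ (mq a' ha').2)
    have r := nP s g a ha _ (cX a ha) (cr a ha)
    rw [(fix s g l k).1 a ha, e] at r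
    exact (b _ (cX a' ha')).2.1 ⟨ha, r⟩ ⟨ha', cr a' ha'⟩
      ((val a ha _ (cX a' ha') r).symm.trans q')
  · obtain ⟨e, he, r⟩ := eQ y hy
    obtain ⟨a, ha, rfl⟩ := (b e he).2.2 ⟨hy, r⟩
    exact ⟨a, ha.1, val a ha.1 e he ha.2⟩
  · obtain ⟨γ, g, Ω, R, q⟩ := rep _ (cX a ha)
    have pa := hP γ g a ha
    have xe := hX γ g _ (cX a ha)
    have r := nP γ g a ha _ (cX a ha) (cr a ha)
    obtain ⟨U, k⟩ := R (γ a) ⟨pa, r⟩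
    rw [← q _ ⟨pa, r⟩, ← val _ pa _ xe r] at k
    obtain ⟨U', k'⟩ := Link.ext (GG := GG) (Γ := Γ ⊓ Fx (γ a))
      (fun δ d => ⟨⟨hΓ d.1, d.2⟩, by
        have d2 : δ (γ a) = γ a := d.2
        show δ _ = _
        rw [← eqv δ d.1 _ pa, d2]⟩)
      (inf_le_inf_right _ inf_le_left) hL hM hML (hPL pa) (hQM (mq _ pa).1) (fun δ d => by
        have d2 : δ (γ a) = γ a := d.2
        have r' := nP δ d.1 _ pa _ xe r
        rw [d2] at r'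
        obtain ⟨s, gs, e, l, m⟩ := tP _ pa _ xe _ (hX δ d.1 _ xe) r r'
        have sa : s ∈ Fx (γ a) := (fix s gs l m).1 _ pa
        refine ⟨s, ⟨gs, sa⟩, l, m, ⟨Γ.mul_mem (Γ.inv_mem gs) d.1, ?_⟩,
          (Fx _).mul_mem ((Fx _).inv_mem sa) d.2⟩
        show s⁻¹ (δ _) = _
        rw [← e, tl_ia]) k
    have k'' := Link.map hΓ (inv_mem g) k'
    rw [eqv γ g a ha, tl_ia, tl_ia] at k''
    exact ⟨_, k''⟩


end Pool.Agent.Lib.MP_1ae3da_al.CT
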