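import Pool.Agent.Lib.MP_1ae3da_al.C.Defs

/-! Equivariant choice and gluing of bijections. -/

namespace Pool.Agent.Lib.MP_1ae3da_al.CT

open Submodule

theorem tia_rep (Γ X : Type) [Group Γ] [MulAction Γ X] :
    ∃ (rep : X → X) (g : X → Γ), (∀ x, g x • x = rep x) ∧ ∀ (γ : Γ) x, rep (γ • x) = rep x := by
  have h : ∀ x : X, ∃ g : Γ, g • x = (Quotient.mk (MulAction.orbitRel Γ X) x).out := fun x =>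
    (Quotient.mk_out (s := MulAction.orbitRel Γ X) x : _)
  choose g hg using h
  refine ⟨_, g, hg, fun γ x => ?_⟩
  have : Quotient.mk (MulAction.orbitRel Γ X) (γ • x) = Quotient.mk _ x :=
    Quotient.sound (⟨γ, rfl⟩ : γ • x ∈ MulAction.orbit Γ x)
  rw [this]

theorem eqv {Γ X D : Type} [Group Γ] [MulAction Γ X] [MulAction Γ D] (Q : X → D → Prop)
    (hQ : ∀ (γ : Γ) x d, Q x d → Q (γ • x) (γ • d))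
    (h : ∀ x, ∃ d, Q x d ∧ ∀ γ : Γ, γ • x = x → γ • d = d) :
    ∃ f : X → D, (∀ x, Q x (f x)) ∧ ∀ (γ : Γ) x, f (γ • x) = γ • f x := by
  obtain ⟨rep, g, hg, hr⟩ := tia_rep Γ X
  choose d hd hs using h
  refine ⟨fun x => (g x)⁻¹ • d (rep x), fun x => ?_, fun γ x => ?_⟩
  · have := hQ (g x)⁻¹ _ _ (hd (rep x))
    rwa [← hg x, inv_smul_smul, hg x] at this
  · have h1 : (g (γ • x) * γ * (g x)⁻¹) • rep x = rep x := by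
      rw [mul_smul, mul_smul, ← hg x, inv_smul_smul, hg, hr, hg]
    have h2 := hs _ _ h1
    change (g (γ • x))⁻¹ • d (rep (γ • x)) = γ • (g x)⁻¹ • d (rep x)
    rw [hr, inv_smul_eq_iff, ← mul_smul, ← mul_smul, h2]

variable {A : Type} [Ring A] {Γ Γ' : Subgroup (RingAut A)} {X Y Z : Set A} {Ω : A → A}

theorem EqB.mono (h : EqB Γ X Y Ω) (h' : Γ' ≤ Γ) : EqB Γ' X Y Ω :=
  ⟨h.1, fun γ hγ => h.2 γ (h' hγ)⟩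

theorem EqB.right (h : EqB Γ X Y Ω) {γ : RingAut A} (hγ : γ ∈ Γ) {y : A} (hy : y ∈ Y) :
    γ y ∈ Y := by
  obtain ⟨x, hx, rfl⟩ := h.1.surjOn hy
  obtain ⟨h1, h2⟩ := h.2 γ hγ x hx
  rw [← h2]
  exact h.1.mapsTo h1

theorem EqB.fix (h : EqB Γ X Y Ω) {γ : RingAut A} (hγ : γ ∈ Γ) {x : A} (hx : x ∈ X) :
    γ (Ω x) = Ω x ↔ γ x = x := by
  obtain ⟨h1, h2⟩ := h.2 γ hγ x hx
  rw [← h2]
  exact h.1.injOn.eq_iff h1 hx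

theorem EB.mono (h : EB Γ X Y) (h' : Γ' ≤ Γ) : EB Γ' X Y := by
  obtain ⟨Ω, h⟩ := h
  exact ⟨Ω, h.mono h'⟩

theorem EB.refl (h : ∀ γ ∈ Γ, ∀ x ∈ X, γ x ∈ X) : EB Γ X X :=
  ⟨id, Set.bijOn_id X, fun γ hγ x hx => ⟨h γ hγ x hx, rfl⟩⟩

theorem EB.symm (h : EB Γ X Y) : EB Γ Y X := by
  obtain ⟨Ω, h⟩ := h
  have hi := h.1.invOn_invFunOn
  refine ⟨Function.invFunOn Ω X, Set.BijOn.symm hi.symm h.1, fun γ hγ y hy => ?_⟩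
  refine ⟨h.right hγ hy, ?_⟩
  obtain ⟨x, hx, rfl⟩ := h.1.surjOn hy
  obtain ⟨h1, h2⟩ := h.2 γ hγ x hx
  rw [← h2, hi.1 h1, hi.1 hx]

theorem EB.trans (h : EB Γ X Y) (h' : EB Γ Y Z) : EB Γ X Z := by
  obtain ⟨Ω, h⟩ := h
  obtain ⟨Θ, h'⟩ := h'
  refine ⟨Θ ∘ Ω, h'.1.comp h.1, fun γ hγ x hx => ?_⟩
  obtain ⟨h1, h2⟩ := h.2 γ hγ x hx
  refine ⟨h1, ?_⟩
  change Θ (Ω (γ x)) = γ (Θ (Ω x))
  rw [h2, (h'.2 γ hγ _ (h.1.mapsTo hx)).2]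

theorem tia_bij {X : Set A} {P : A → Set A} (hX : ∀ γ ∈ Γ, ∀ e ∈ X, γ e ∈ X)
    (hP : ∀ γ ∈ Γ, ∀ e ∈ X, ∀ a ∈ P e, γ a ∈ P (γ e)) {γ : RingAut A} (hγ : γ ∈ Γ) {e : A}
    (he : e ∈ X) : Set.BijOn γ (P e) (P (γ e)) := by
  refine ⟨fun a ha => hP γ hγ e he a ha, γ.injective.injOn, fun b hb => ?_⟩
  refine ⟨γ.symm b, ?_, γ.apply_symm_apply b⟩
  have : γ.symm b ∈ P (γ.symm (γ e)) := hP γ⁻¹ (inv_mem hγ) _ (hX γ hγ e he) b hb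
  rwa [γ.symm_apply_apply] at this

/-- an equivariant family of bijections over a `Γ`-set `X`.  hint: `eqv` with graphs,
`D = Set (A × A)`. -/
theorem family (X : Set A) (P Q : A → Set A) (hX : ∀ γ ∈ Γ, ∀ e ∈ X, γ e ∈ X)
    (hP : ∀ γ ∈ Γ, ∀ e ∈ X, ∀ a ∈ P e, γ a ∈ P (γ e))
    (hQ : ∀ γ ∈ Γ, ∀ e ∈ X, ∀ a ∈ Q e, γ a ∈ Q (γ e))
    (R : A → (A → A) → Prop)
    (h : ∀ e ∈ X, ∃ Ω, EqB (Γ ⊓ Fx e) (P e) (Q e) Ω ∧ R e Ω) :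
    ∃ Θ : A → A → A, (∀ e ∈ X, Set.BijOn (Θ e) (P e) (Q e)) ∧
      (∀ γ ∈ Γ, ∀ e ∈ X, ∀ a ∈ P e, Θ (γ e) (γ a) = γ (Θ e a)) ∧
      ∀ e ∈ X, ∃ γ ∈ Γ, ∃ Ω, R (γ e) Ω ∧ ∀ a ∈ P (γ e), Θ (γ e) a = Ω a := by
  obtain ⟨rep, g', hg', hr'⟩ := tia_rep Γ A
  obtain ⟨g, hΓ, hg⟩ : ∃ g : A → RingAut A, (∀ e, g e ∈ Γ) ∧ ∀ e, g e e = rep e :=
    ⟨fun e => (g' e).1, fun e => (g' e).2, hg'⟩
  have hr : ∀ γ ∈ Γ, ∀ e, rep (γ e) = rep e := fun γ hγ e => hr' ⟨γ, hγ⟩ e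
  choose! W hW hR using h
  have hrX : ∀ e ∈ X, rep e ∈ X := fun e he => hg e ▸ hX _ (hΓ e) e he
  have hb : ∀ e ∈ X, Set.BijOn (g e) (P e) (P (rep e)) := fun e he =>
    hg e ▸ tia_bij hX hP (hΓ e) he
  refine ⟨fun e a => (g e).symm (W (rep e) (g e a)), fun e he => ?_, fun γ hγ e he a ha => ?_,
    fun e he => ⟨g e, hΓ e, W (rep e), ?_, fun a ha => ?_⟩⟩
  · have h3 : Set.BijOn (g e).symm (Q (rep e)) (Q ((g e).symm (rep e))) :=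
      tia_bij hX hQ (inv_mem (hΓ e)) (hrX e he)
    rw [show (g e).symm (rep e) = e by rw [← hg e, RingEquiv.symm_apply_apply]] at h3
    exact h3.comp ((hW _ (hrX e he)).1.comp (hb e he))
  · have hs : g (γ e) * γ * (g e)⁻¹ ∈ Γ ⊓ Fx (rep e) := by
      refine ⟨Γ.mul_mem (Γ.mul_mem (hΓ _) hγ) (Γ.inv_mem (hΓ e)), ?_⟩
      change g (γ e) (γ ((g e).symm (rep e))) = rep e
      rw [← hg e, RingEquiv.symm_apply_apply, hg, hr γ hγ, hg]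
    have h2 : W (rep e) (g (γ e) (γ ((g e).symm (g e a)))) =
        g (γ e) (γ ((g e).symm (W (rep e) (g e a)))) :=
      ((hW _ (hrX e he)).2 _ hs _ ((hb e he).mapsTo ha)).2
    rw [RingEquiv.symm_apply_apply] at h2
    change (g (γ e)).symm (W (rep (γ e)) (g (γ e) (γ a))) = γ ((g e).symm (W (rep e) (g e a)))
    rw [hr γ hγ, h2, RingEquiv.symm_apply_apply]
  · rw [hg]
    exact hR _ (hrX e he)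
  · have hrr : rep (rep e) = rep e := by
      have := hr _ (hΓ e) e
      rwa [hg] at this
    rw [hg] at ha ⊢
    have hs : g (rep e) ∈ Γ ⊓ Fx (rep e) := ⟨hΓ _, (hg (rep e)).trans hrr⟩
    have h2 := ((hW _ (hrX e he)).2 _ hs a ha).2
    change (g (rep e)).symm (W (rep (rep e)) (g (rep e) a)) = W (rep e) a
    rw [hrr, h2, RingEquiv.symm_apply_apply]

theorem glue (P Q X : Set A) (rP rQ : A → A → Prop)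
    (hP : ∀ γ ∈ Γ, ∀ a ∈ P, γ a ∈ P) (hQ : ∀ γ ∈ Γ, ∀ a ∈ Q, γ a ∈ Q)
    (hX : ∀ γ ∈ Γ, ∀ e ∈ X, γ e ∈ X)
    (nP : ∀ γ ∈ Γ, ∀ a ∈ P, ∀ e ∈ X, rP a e → rP (γ a) (γ e))
    (nQ : ∀ γ ∈ Γ, ∀ a ∈ Q, ∀ e ∈ X, rQ a e → rQ (γ a) (γ e))
    (eP : ∀ a ∈ P, ∃ e ∈ X, rP a e) (eQ : ∀ a ∈ Q, ∃ e ∈ X, rQ a e)
    (tP : ∀ a ∈ P, ∀ e ∈ X, ∀ e' ∈ X, rP a e → rP a e' →
      ∃ s ∈ Γ, s e = e' ∧ (∀ a ∈ P, s a = a) ∧ ∀ b ∈ Q, s b = b)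
    (tQ : ∀ a ∈ Q, ∀ e ∈ X, ∀ e' ∈ X, rQ a e → rQ a e' →
      ∃ s ∈ Γ, s e = e' ∧ (∀ a ∈ P, s a = a) ∧ ∀ b ∈ Q, s b = b)
    (h : ∀ e ∈ X, EB (Γ ⊓ Fx e) {a | a ∈ P ∧ rP a e} {b | b ∈ Q ∧ rQ b e}) : EB Γ P Q := by
  obtain ⟨Θ, hb, hn, -⟩ := family (Γ := Γ) X (fun e => {a | a ∈ P ∧ rP a e})
    (fun e => {b | b ∈ Q ∧ rQ b e}) hX
    (fun γ hγ e he a ha => ⟨hP γ hγ a ha.1, nP γ hγ a ha.1 e he ha.2⟩)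
    (fun γ hγ e he a ha => ⟨hQ γ hγ a ha.1, nQ γ hγ a ha.1 e he ha.2⟩) (fun _ _ => True)
    (fun e he => (h e he).imp fun _ hΩ => ⟨hΩ, trivial⟩)
  choose! c hc hcr using eP
  have key : ∀ a ∈ P, ∀ e ∈ X, rP a e → Θ (c a) a = Θ e a := by
    intro a ha e he hr
    obtain ⟨s, hs, h1, h2, h3⟩ := tP a ha e he (c a) (hc a ha) hr (hcr a ha)
    have := hn s hs e he a ⟨ha, hr⟩
    rw [h1, h2 a ha, h3 _ ((hb e he).mapsTo ⟨ha, hr⟩).1] at this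
    exact this
  have hm : ∀ a ∈ P, Θ (c a) a ∈ Q ∧ rQ (Θ (c a) a) (c a) := fun a ha =>
    (hb _ (hc a ha)).mapsTo ⟨ha, hcr a ha⟩
  refine ⟨fun a => Θ (c a) a, ⟨fun a ha => (hm a ha).1, fun a ha a' ha' hh => ?_,
    fun b hb' => ?_⟩, fun γ hγ a ha => ⟨hP γ hγ a ha, ?_⟩⟩
  · have hh' : Θ (c a) a = Θ (c a') a' := hh
    obtain ⟨s, hs, h1, h2, -⟩ := tQ _ (hm a ha).1 _ (hc a ha) _ (hc a' ha') (hm a ha).2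
      (hh' ▸ (hm a' ha').2)
    have h4 := nP s hs a ha _ (hc a ha) (hcr a ha)
    rw [h1, h2 a ha] at h4
    refine (hb _ (hc a' ha')).injOn ⟨ha, h4⟩ ⟨ha', hcr a' ha'⟩ ?_
    rw [← key a ha _ (hc a' ha') h4, hh']
  · obtain ⟨e, he, hr⟩ := eQ b hb'
    obtain ⟨a, ha, h1⟩ := (hb e he).surjOn ⟨hb', hr⟩
    exact ⟨a, ha.1, (key a ha.1 e he ha.2).trans h1⟩
  · change Θ (c (γ a)) (γ a) = γ (Θ (c a) a)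
    rw [key _ (hP γ hγ a ha) _ (hX γ hγ _ (hc a ha)) (nP γ hγ a ha _ (hc a ha) (hcr a ha))]
    exact hn γ hγ _ (hc a ha) a ⟨ha, hcr a ha⟩

end Pool.Agent.Lib.MP_1ae3da_al.CT
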