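import Pool.Agent.Lib.MP_1ae3da_al.C.TC
import Pool.Agent.Lib.MP_1ae3da_al.C.TIa

/-! Equivariant choice and gluing of bijections: the theorems are in the file `TIa`. -/
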