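import Pool.Agent.Lib.MP_1ae3da_al.C.Defs

/-! Transport of blocks along semilinear ring isomorphisms. -/

namespace Pool.Agent.Lib.MP_1ae3da_al.CT

open Submodule

variable {F K A B : Type} [Field F] [Field K] [Ring A] [Ring B] [Algebra F A] [Algebra K B]
  {σ : F ≃+* K} {γ : A ≃+* B} {S H L : Set A} {S' H' L' : Set B}

/-- `γ` is `σ`-semilinear and takes `S` onto `S'`. -/
structure TR (σ : F ≃+* K) (γ : A ≃+* B) (S : Set A) (S' : Set B) : Prop where
  sl : ∀ (c : F) (a : A), γ (c • a) = σ c • γ a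
  mem : ∀ a, γ a ∈ S' ↔ a ∈ S

theorem ttr_im : γ '' S = S' ↔ ∀ a, γ a ∈ S' ↔ a ∈ S :=
  ⟨fun h _ => h ▸ γ.injective.mem_set_image, fun h => Set.ext fun b =>
    ⟨fun ⟨a, ha, e⟩ => e ▸ (h a).2 ha, fun hb =>
      ⟨γ.symm b, (h _).1 ((γ.apply_symm_apply b).symm ▸ hb), γ.apply_symm_apply b⟩⟩⟩

theorem TR.of_image (h : ∀ (c : F) (a : A), γ (c • a) = σ c • γ a) (e : γ '' S = S') :
    TR σ γ S S' := ⟨h, ttr_im.1 e⟩

theorem TR.image (h : TR σ γ S S') : γ '' S = S' := ttr_im.2 h.mem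

theorem TR.of_stb {σ : RingAut F} {γ : RingAut A} (h : SL F σ γ) (k : γ ∈ Stb S) : TR σ γ S S :=
  ⟨h, k⟩

theorem TR.of_lin {γ : RingAut A} (h : Lin F γ) (k : γ ∈ Stb S) : TR (1 : RingAut F) γ S S :=
  ⟨h, k⟩

namespace TR

theorem symm (h : TR σ γ S S') : TR σ.symm γ.symm S' S :=
  ⟨fun c b => γ.injective (by rw [h.sl]; simp), fun b => by rw [← h.mem, γ.apply_symm_apply]⟩

theorem span_to (h : TR σ γ S S') {a : A} (ha : a ∈ span F S) : γ a ∈ span K S' := by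
  induction ha using span_induction with
  | mem x hx => exact subset_span ((h.mem x).2 hx)
  | zero => rw [map_zero]; exact zero_mem _
  | add x y _ _ a b => rw [map_add]; exact add_mem a b
  | smul c x _ a => rw [h.sl]; exact smul_mem _ _ a

theorem span_iff (h : TR σ γ S S') {a : A} : γ a ∈ span K S' ↔ a ∈ span F S :=
  ⟨fun k => γ.symm_apply_apply a ▸ h.symm.span_to k, h.span_to⟩

theorem span (h : TR σ γ S S') : TR σ γ (span F S) (span K S') := ⟨h.sl, fun _ => h.span_iff⟩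

theorem all (h : TR σ γ S S') {P : B → Prop} : (∀ b ∈ S', P b) ↔ ∀ a ∈ S, P (γ a) :=
  ⟨fun k a ha => k _ ((h.mem a).2 ha), fun k b hb =>
    γ.apply_symm_apply b ▸ k _ ((h.symm.mem b).2 hb)⟩

theorem ex (h : TR σ γ S S') {P : B → Prop} : (∃ b ∈ S', P b) ↔ ∃ a ∈ S, P (γ a) :=
  ⟨fun ⟨b, hb, k⟩ => ⟨_, (h.symm.mem b).2 hb, (γ.apply_symm_apply b).symm ▸ k⟩,
    fun ⟨a, ha, k⟩ => ⟨_, (h.mem a).2 ha, k⟩⟩

theorem cen (h : TR σ γ S S') : TR σ γ (Cen F S) (Cen K S') :=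
  ⟨h.sl, fun z => and_congr h.span_iff (h.all.trans (by
    simp only [← map_mul, EmbeddingLike.apply_eq_iff_eq]))⟩

theorem smul_iff (h : TR σ γ S S') {a b : A} : (∃ c : K, γ a = c • γ b) ↔ ∃ c : F, a = c • b :=
  ⟨fun ⟨c, e⟩ => ⟨σ.symm c, γ.injective (by rw [h.sl, σ.apply_symm_apply, e])⟩,
    fun ⟨c, e⟩ => ⟨σ c, by rw [e, h.sl]⟩⟩

theorem irr (h : TR σ γ S S') : TR σ γ (Irr F S) (Irr K S') :=
  ⟨h.sl, fun e => and_congr (h.cen.mem e) (and_congr
    (by rw [← map_mul, EmbeddingLike.apply_eq_iff_eq]) (and_congr (by simp)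
      (h.cen.all.trans (by simp only [← map_mul, h.smul_iff]))))⟩

theorem finrank {U : Submodule F A} {U' : Submodule K B} (h : TR σ γ U U') :
    Module.finrank K U' = Module.finrank F U :=
  congrArg Cardinal.toNat (rank_eq_of_equiv_equiv σ
    { toFun := fun a : U => (⟨γ a, (h.mem a).2 a.2⟩ : U')
      invFun := fun b => ⟨γ.symm b, (h.symm.mem b).2 b.2⟩
      left_inv := fun a => Subtype.ext (γ.symm_apply_apply a)
      right_inv := fun b => Subtype.ext (γ.apply_symm_apply b)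
      map_add' := fun a b => Subtype.ext (map_add γ a.1 b.1) }
    σ.bijective fun c a => Subtype.ext (h.sl c a)).symm

theorem Dg (h : TR σ γ S S') (e : A) : Dg K S' (γ e) = Dg F S e :=
  finrank ⟨h.sl, fun a => h.span.ex.trans (by
    simp only [LinearMap.mulRight_apply, ← map_mul, EmbeddingLike.apply_eq_iff_eq]
    rfl)⟩

theorem dg (h : TR σ γ S S') (e : A) : dg K S' (γ e) = dg F S e := congrArg Nat.sqrt (h.Dg e)

theorem irrP (h : TR σ γ S S') (p : ℕ) : TR σ γ (IrrP F p S) (IrrP K p S') :=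
  ⟨h.sl, fun e => and_congr (h.irr.mem e) (by rw [h.Dg])⟩

theorem prim (h : TR σ γ S S') {e j : A} : Prim K S' (γ e) (γ j) ↔ Prim F S e j :=
  and_congr h.span_iff (and_congr (by rw [← map_mul, EmbeddingLike.apply_eq_iff_eq]) (and_congr
    (by rw [← map_mul, EmbeddingLike.apply_eq_iff_eq]) (and_congr (by simp)
      (h.span.all.trans (by simp only [← map_mul, h.smul_iff]; rfl)))))

theorem ln (h : TR σ γ S S') (e : A) {a : RingAut A} {a' : RingAut B}
    (k : ∀ x ∈ S, a' (γ x) = γ (a x)) : TR σ γ (Ln F S e a) (Ln K S' (γ e) a') :=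
  ⟨h.sl, fun w => and_congr h.span_iff (and_congr
    (by rw [← map_mul, EmbeddingLike.apply_eq_iff_eq]) (and_congr (by simp)
      (h.all.trans (forall₂_congr fun x hx => by
        rw [k x hx, ← map_mul, ← map_mul, EmbeddingLike.apply_eq_iff_eq]))))⟩

theorem ln_conj {σ : RingAut F} {γ : RingAut A} {S' : Set A} (h : TR σ γ S S') (e : A)
    (a : RingAut A) : TR σ γ (Ln F S e a) (Ln F S' (γ e) (γ * a * γ⁻¹)) :=
  h.ln e fun x _ => congrArg (fun y => γ (a y)) (γ.symm_apply_apply x)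

theorem cz (h : TR σ γ H H') (k : TR σ γ L L') (e : A) :
    TR σ γ (Cz F H L e) (Cz K H' L' (γ e)) :=
  ⟨h.sl, fun z => and_congr (by simp) (and_congr (h.ex.trans (exists_congr fun t =>
    and_congr_right fun _ => k.span.ex.trans (by
      simp only [← map_mul, EmbeddingLike.apply_eq_iff_eq]
      rfl))) (k.all.trans (by simp only [← map_mul, EmbeddingLike.apply_eq_iff_eq])))⟩

theorem inter (h : TR σ γ S S') (k : TR σ γ H H') : TR σ γ (S ∩ H) (S' ∩ H') :=
  ⟨h.sl, fun a => and_congr (h.mem a) (k.mem a)⟩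

theorem trans {E C : Type} [Field E] [Ring C] [Algebra E C] {τ : K ≃+* E} {δ : B ≃+* C}
    {S'' : Set C} (h : TR σ γ S S') (k : TR τ δ S' S'') : TR (σ.trans τ) (γ.trans δ) S S'' :=
  ⟨fun c a => (congrArg δ (h.sl c a)).trans (k.sl _ _), fun a => (k.mem _).trans (h.mem a)⟩

theorem stb {σ : RingAut F} {γ : RingAut A} (h : TR σ γ S S) : γ ∈ Stb S := h.mem

end TR

section
variable {G : Type} [Group G] {u : G → A}

theorem ttr_hm (h : ∀ (c : F) (a : A), γ (c • a) = σ c • γ a) (u : G → A) (T : Subgroup G) :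
    TR σ γ (Hm F u T) (Hm K (fun x => γ (u x)) T) :=
  ⟨h, fun a => ⟨fun ⟨c, c0, x, hx, e⟩ => ⟨σ.symm c, by simpa using c0, x, hx,
    γ.injective (by rw [h, σ.apply_symm_apply, e])⟩,
    fun ⟨c, c0, x, hx, e⟩ => ⟨σ c, by simpa using c0, x, hx, by rw [e, h]⟩⟩⟩

theorem TG.map (hu : TG F u) (h : ∀ (c : F) (a : A), γ (c • a) = σ c • γ a) :
    TG K fun x => γ (u x) where
  mul x y := (hu.mul x y).elim fun c ⟨c0, e⟩ => ⟨σ c, by simpa using c0, by
    rw [← map_mul, e, h]⟩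
  ind := (hu.ind.map_of_surjective_injective σ γ.toAddMonoidHom σ.surjective
    (fun m e => by simpa using e) h :)
  one := by rw [← map_mul, hu.one]

theorem TR.nice (h : TR σ γ S S') (n : Nice F S) : Nice K S' := by
  obtain ⟨G, _, _, u, hu, c, rfl⟩ := n
  refine ⟨G, _, ‹_›, _, hu.map h.sl, fun e => c (σ.injective (by simpa using e)), ?_⟩
  exact h.image.symm.trans (ttr_hm h.sl u ⊤).image

theorem ttr_st (γ : A ≃+* B) (u : G → A) (e : A) : St (fun x => γ (u x)) (γ e) = St u e := by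
  simp only [St, ← map_mul, EmbeddingLike.apply_eq_iff_eq]

theorem TG.hm_mul (hu : TG F u) {T : Subgroup G} {a b : A} (ha : a ∈ Hm F u T)
    (hb : b ∈ Hm F u T) : a * b ∈ Hm F u T := by
  obtain ⟨c, c0, x, hx, rfl⟩ := ha
  obtain ⟨d, d0, y, hy, rfl⟩ := hb
  obtain ⟨k, k0, e⟩ := hu.mul x y
  exact ⟨c * d * k, by positivity, x * y, mul_mem hx hy, by
    rw [smul_mul_smul_comm, e, smul_smul]⟩

end

end Pool.Agent.Lib.MP_1ae3da_al.CT
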