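import Pool.Agent.Lib.MP_1ae3da_al.C.TC
import Pool.Agent.Lib.MP_1ae3da_al.C.TI
import Pool.Agent.Lib.MP_1ae3da_al.C.TTr

/-! A multiplicative bijection of homogeneous elements gives a bijection of blocks. -/

namespace Pool.Agent.Lib.MP_1ae3da_al.CT

open Submodule

variable {F A B : Type} [Field F] [Ring A] [Algebra F A] [Ring B] [Algebra F B]

theorem to_span {G : Type} [Group G] (u : G → A) :
    span F (Hm F u ⊤) = span F (Set.range u) := by
  apply le_antisymm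
  · rw [span_le]
    rintro _ ⟨c, -, x, -, rfl⟩
    exact smul_mem _ _ (subset_span ⟨x, rfl⟩)
  · rw [span_le]
    rintro _ ⟨x, rfl⟩
    exact subset_span ⟨1, one_ne_zero, x, Subgroup.mem_top x, (one_smul _ _).symm⟩

theorem to_mul {Z : Set A} (hZ : Nice F Z) {a b : A} (ha : a ∈ Z) (hb : b ∈ Z) : a * b ∈ Z := by
  obtain ⟨G, _, _, u, hu, -, rfl⟩ := hZ
  obtain ⟨c, hc, x, -, rfl⟩ := ha
  obtain ⟨d, hd, y, -, rfl⟩ := hb
  obtain ⟨s, hs, h⟩ := hu.mul x y
  refine ⟨c * d * s, mul_ne_zero (mul_ne_zero hc hd) hs, x * y, Subgroup.mem_top _, ?_⟩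
  rw [smul_mul_smul_comm, h, smul_smul]

theorem to_span_mul {Z : Set A} (hZ : Nice F Z) {a b : A} (ha : a ∈ span F Z)
    (hb : b ∈ span F Z) : a * b ∈ span F Z := by
  induction ha using span_induction with
  | mem x hx =>
    induction hb using span_induction with
    | mem y hy => exact subset_span (to_mul hZ hx hy)
    | zero => rw [mul_zero]; exact zero_mem _
    | add y z _ _ h1 h2 => rw [mul_add]; exact add_mem h1 h2
    | smul c y _ h1 => rw [mul_smul_comm]; exact smul_mem _ _ h1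
  | zero => rw [zero_mul]; exact zero_mem _
  | add y z _ _ h1 h2 => rw [add_mul]; exact add_mem h1 h2
  | smul c y _ h1 => rw [smul_mul_assoc]; exact smul_mem _ _ h1

theorem to_cen {S : Set A} {z a : A} (hz : z ∈ Cen F S) (ha : a ∈ span F S) :
    z * a = a * z := by
  induction ha using span_induction with
  | mem x hx => exact hz.2 x hx
  | zero => rw [mul_zero, zero_mul]
  | add x y _ _ h1 h2 => rw [mul_add, add_mul, h1, h2]
  | smul c x _ h1 => rw [mul_smul_comm, smul_mul_assoc, h1]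

theorem to_ind {G : Type} [Group G] {u : G → A} (hu : TG F u) {Z' : Set B} (hZ' : Nice F Z')
    (Θ : A → B) (hb : Set.BijOn Θ (Hm F u ⊤) Z')
    (hs : ∀ x ∈ Hm F u ⊤, ∀ c : F, c ≠ 0 → Θ (c • x) = c • Θ x) :
    LinearIndependent F (fun x => Θ (u x)) := by
  obtain ⟨G', _, _, v, hv, -, rfl⟩ := hZ'
  have hm : ∀ (c : F) (x : G), c ≠ 0 → c • u x ∈ Hm F u ⊤ := fun c x hc =>
    ⟨c, hc, x, Subgroup.mem_top x, rfl⟩
  have hm1 : ∀ x : G, u x ∈ Hm F u ⊤ := fun x => by simpa using hm 1 x one_ne_zero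
  have h1 : ∀ x : G, ∃ c : F, c ≠ 0 ∧ ∃ y : G', Θ (u x) = c • v y := fun x => by
    obtain ⟨c, hc, y, -, h⟩ := hb.mapsTo (hm1 x)
    exact ⟨c, hc, y, h⟩
  choose c hc φ hφ using h1
  have hinj : Function.Injective φ := by
    intro x y hxy
    by_contra hne
    have hd : c y * (c x)⁻¹ ≠ 0 := mul_ne_zero (hc y) (inv_ne_zero (hc x))
    have h2 : Θ ((c y * (c x)⁻¹) • u x) = Θ (u y) := by
      rw [hs _ (hm1 x) _ hd, hφ x, hφ y, smul_smul, hxy, mul_assoc, inv_mul_cancel₀ (hc x),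
        mul_one]
    have h3 := hb.injOn (hm _ x hd) (hm1 y) h2
    have h4 : Finsupp.single x (c y * (c x)⁻¹) = Finsupp.single y (1 : F) := by
      apply hu.ind
      rw [Finsupp.linearCombination_single, Finsupp.linearCombination_single, one_smul, h3]
    have h5 := congrArg (fun f : G →₀ F => f x) h4
    simp only [Finsupp.single_eq_same, Finsupp.single_eq_of_ne hne] at h5
    exact hd h5
  have h6 := (hv.ind.comp φ hinj).units_smul (fun x => Units.mk0 (c x) (hc x))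
  have h7 : (fun x => Θ (u x)) = (fun x => Units.mk0 (c x) (hc x)) • (v ∘ φ) := by
    funext x
    rw [hφ x]; rfl
  rw [h7]; exact h6

/-- `Θ` induces a bijection of the lines, so it extends to a linear map that is a
multiplicative bijection of the spans. -/
theorem iso_ext {Z : Set A} {Z' : Set B} (hZ : Nice F Z) (hZ' : Nice F Z') (Θ : A → B)
    (hb : Set.BijOn Θ Z Z') (hm : ∀ x ∈ Z, ∀ y ∈ Z, Θ (x * y) = Θ x * Θ y)
    (hs : ∀ x ∈ Z, ∀ c : F, c ≠ 0 → Θ (c • x) = c • Θ x) :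
    ∃ l : A →ₗ[F] B, (∀ x ∈ Z, l x = Θ x) ∧ Set.BijOn l (span F Z) (span F Z') ∧
      ∀ x ∈ span F Z, ∀ y ∈ span F Z, l (x * y) = l x * l y := by
  have hZ0 := hZ
  obtain ⟨G, _, _, u, hu, -, rfl⟩ := hZ
  have hi := to_ind hu hZ' Θ hb hs
  obtain ⟨l, hl⟩ := LinearMap.exists_extend
    ((Module.Basis.span hu.ind).constr F (fun x => Θ (u x)))
  have hl1 : ∀ x, l (u x) = Θ (u x) := fun x => by
    have h := LinearMap.congr_fun hl (Module.Basis.span hu.ind x)
    rw [Module.Basis.constr_basis] at h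
    simpa using h
  have hl2 : ∀ x ∈ Hm F u ⊤, l x = Θ x := by
    rintro _ ⟨c, hc, x, -, rfl⟩
    rw [map_smul, hl1, hs _ ⟨1, one_ne_zero, x, Subgroup.mem_top x, (one_smul _ _).symm⟩ c hc]
  have hmap : (span F (Hm F u ⊤)).map l = span F Z' := by
    rw [Submodule.map_span, Set.image_congr hl2, hb.image_eq]
  refine ⟨l, hl2, ⟨fun a ha => ?_, fun a ha b hb' hab => ?_, fun b hb' => ?_⟩,
    fun a ha b hb' => ?_⟩
  · have : l a ∈ (span F (Hm F u ⊤)).map l := ⟨a, ha, rfl⟩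
    rwa [hmap] at this
  · rw [SetLike.mem_coe, to_span, Finsupp.mem_span_range_iff_exists_finsupp] at ha hb'
    obtain ⟨c, rfl⟩ := ha
    obtain ⟨d, rfl⟩ := hb'
    have : c = d := by
      apply hi
      simpa [Finsupp.linearCombination_apply, map_finsuppSum, hl1] using hab
    rw [this]
  · rw [SetLike.mem_coe, ← hmap] at hb'
    exact hb'
  · induction ha using span_induction with
    | mem x hx =>
      induction hb' using span_induction with
      | mem y hy => rw [hl2 _ (to_mul hZ0 hx hy), hl2 _ hx, hl2 _ hy, hm _ hx _ hy]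
      | zero => simp
      | add y z _ _ h1 h2 => rw [mul_add, map_add, map_add, mul_add, h1, h2]
      | smul c y _ h1 => rw [mul_smul_comm, map_smul, map_smul, mul_smul_comm, h1]
    | zero => simp
    | add y z _ _ h1 h2 => rw [add_mul, map_add, map_add, add_mul, h1, h2]
    | smul c y _ h1 => rw [smul_mul_assoc, map_smul, map_smul, smul_mul_assoc, h1]

theorem to_cen_iff {Z : Set A} {Z' : Set B} (hZ : Nice F Z) (l : A →ₗ[F] B)
    (hb : Set.BijOn l (span F Z) (span F Z'))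
    (hm : ∀ x ∈ span F Z, ∀ y ∈ span F Z, l (x * y) = l x * l y) {z : A} (hz : z ∈ span F Z) :
    l z ∈ Cen F Z' ↔ z ∈ Cen F Z := by
  constructor
  · intro h
    refine ⟨hz, fun s hs => ?_⟩
    have hs' : s ∈ span F Z := subset_span hs
    apply hb.injOn (to_span_mul hZ hz hs') (to_span_mul hZ hs' hz)
    rw [hm _ hz _ hs', hm _ hs' _ hz, to_cen h (hb.mapsTo hs')]
  · intro h
    refine ⟨hb.mapsTo hz, fun s hs => ?_⟩
    obtain ⟨t, ht, rfl⟩ := hb.surjOn (subset_span hs : s ∈ span F Z')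
    rw [← hm _ hz _ ht, ← hm _ ht _ hz, to_cen h ht]

theorem to_irr_iff {Z : Set A} {Z' : Set B} (hZ : Nice F Z) (l : A →ₗ[F] B)
    (hb : Set.BijOn l (span F Z) (span F Z'))
    (hm : ∀ x ∈ span F Z, ∀ y ∈ span F Z, l (x * y) = l x * l y) {e : A} (he : e ∈ span F Z) :
    l e ∈ Irr F Z' ↔ e ∈ Irr F Z := by
  constructor
  · rintro ⟨h1, h2, h3, h4⟩
    refine ⟨(to_cen_iff hZ l hb hm he).1 h1, ?_, ?_, fun z hz => ?_⟩
    · apply hb.injOn (to_span_mul hZ he he) he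
      rw [hm _ he _ he, h2]
    · rintro rfl
      exact h3 (map_zero l)
    · obtain ⟨c, hc⟩ := h4 _ ((to_cen_iff hZ l hb hm hz.1).2 hz)
      refine ⟨c, hb.injOn (to_span_mul hZ hz.1 he) (smul_mem _ c he) ?_⟩
      rw [hm _ hz.1 _ he, hc, map_smul]
  · rintro ⟨h1, h2, h3, h4⟩
    refine ⟨(to_cen_iff hZ l hb hm he).2 h1, ?_, ?_, fun z hz => ?_⟩
    · rw [← hm _ he _ he, h2]
    · intro h
      exact h3 (hb.injOn he (zero_mem _) (h.trans (map_zero l).symm))
    · obtain ⟨y, hy, rfl⟩ := hb.surjOn hz.1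
      obtain ⟨c, hc⟩ := h4 _ ((to_cen_iff hZ l hb hm hy).1 hz)
      exact ⟨c, by rw [← hm _ hy _ he, hc, map_smul]⟩

/-- blocks and their dimensions correspond under a multiplicative bijection of spans. -/
theorem iso_irr {Z : Set A} {Z' : Set B} (hZ : Nice F Z) (l : A →ₗ[F] B)
    (hb : Set.BijOn l (span F Z) (span F Z'))
    (hm : ∀ x ∈ span F Z, ∀ y ∈ span F Z, l (x * y) = l x * l y) :
    Set.BijOn l (Irr F Z) (Irr F Z') ∧ ∀ e ∈ span F Z, Dg F Z' (l e) = Dg F Z e := by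
  refine ⟨⟨fun e he => (to_irr_iff hZ l hb hm he.1.1).2 he,
    fun a ha b hb' h => hb.injOn ha.1.1 hb'.1.1 h, fun e he => ?_⟩, fun e he => ?_⟩
  · obtain ⟨y, hy, rfl⟩ := hb.surjOn he.1.1
    exact ⟨y, (to_irr_iff hZ l hb hm hy).1 he, rfl⟩
  · have hle : ∀ a ∈ (span F Z).map (LinearMap.mulRight F e), a ∈ span F Z := by
      rintro _ ⟨x, hx, rfl⟩
      exact to_span_mul hZ hx he
    have hinj : Function.Injective (l.domRestrict ((span F Z).map (LinearMap.mulRight F e))) :=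
      fun a b h => Subtype.ext (hb.injOn (hle _ a.2) (hle _ b.2) h)
    have hr : (span F Z').map (LinearMap.mulRight F (l e)) =
        LinearMap.range (l.domRestrict ((span F Z).map (LinearMap.mulRight F e))) := by
      rw [LinearMap.range_domRestrict]
      apply le_antisymm
      · rintro _ ⟨y, hy, rfl⟩
        obtain ⟨x, hx, rfl⟩ := hb.surjOn hy
        exact ⟨x * e, ⟨x, hx, rfl⟩, hm _ hx _ he⟩
      · rintro _ ⟨_, ⟨x, hx, rfl⟩, rfl⟩
        exact ⟨l x, hb.mapsTo hx, (hm _ hx _ he).symm⟩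
    unfold Dg
    rw [hr, LinearMap.finrank_range_of_inj hinj]

theorem iso_eb {GG : Subgroup (RingAut F)} {Γ : Subgroup (RingAut A)} {Z Z' : Set A}
    (hZ : Nice F Z) (hZ' : Nice F Z') (hΓ : Γ ≤ SG GG A ⊓ Stb Z) (Θ : A → A)
    (hb : Set.BijOn Θ Z Z') (hm : ∀ x ∈ Z, ∀ y ∈ Z, Θ (x * y) = Θ x * Θ y)
    (hs : ∀ x ∈ Z, ∀ c : F, c ≠ 0 → Θ (c • x) = c • Θ x)
    (hn : ∀ γ ∈ Γ, ∀ x ∈ Z, Θ (γ x) = γ (Θ x)) (p : ℕ) : EB Γ (IrrP F p Z) (IrrP F p Z') := by
  obtain ⟨l, h1, h2, h3⟩ := iso_ext hZ hZ' Θ hb hm hs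
  obtain ⟨h4, h5⟩ := iso_irr hZ l h2 h3
  refine ⟨l, ⟨fun e he => ⟨h4.mapsTo he.1, ?_⟩, fun a ha b hb' h => h4.injOn ha.1 hb'.1 h,
    fun e he => ?_⟩, fun γ hγ e he => ⟨?_, ?_⟩⟩
  · rw [h5 e he.1.1.1]; exact he.2
  · obtain ⟨y, hy, rfl⟩ := h4.surjOn he.1
    refine ⟨y, ⟨hy, ?_⟩, rfl⟩
    rw [← h5 y hy.1.1]; exact he.2
  · obtain ⟨σ, -, hσ⟩ := (hΓ hγ).1
    exact (((TR.of_stb hσ (hΓ hγ).2).irrP p).mem e).2 he
  · obtain ⟨σ, -, hσ⟩ := (hΓ hγ).1
    have hst : ∀ a, γ a ∈ Z ↔ a ∈ Z := (hΓ hγ).2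
    have key : ∀ a ∈ span F Z, l (γ a) = γ (l a) := by
      intro a ha
      induction ha using span_induction with
      | mem x hx => rw [h1 _ ((hst x).2 hx), h1 _ hx, hn γ hγ x hx]
      | zero => simp
      | add x y _ _ g1 g2 => rw [map_add, map_add, map_add, map_add, g1, g2]
      | smul c x _ g1 => rw [hσ, map_smul, map_smul, hσ, g1]
    exact key e he.1.1.1

end Pool.Agent.Lib.MP_1ae3da_al.CT
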