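import Pool.Agent.Lib.MP_1ae3da_al.C.TK
import Pool.Agent.Lib.MP_1ae3da_al.C.TL
import Pool.Agent.Lib.MP_1ae3da_al.C.TO
import Pool.Agent.Lib.MP_1ae3da_al.C.TCo

/-! From links to the McKay bijection. -/

namespace Pool.Agent.Lib.MP_1ae3da_al.CT

open Submodule

variable {F A G : Type} [Field F] [Ring A] [Algebra F A] [Group G] {u : G → A}
  {L T : Subgroup G} {p : ℕ} {GG : Subgroup (RingAut F)} {Γ : Subgroup (RingAut A)}

theorem ts_dec [L.Normal] (hT : T ⊔ L = ⊤) (g : G) : ∃ t ∈ T, ∃ l ∈ L, t * l = g := by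
  have : g ∈ ((T ⊔ L : Subgroup G) : Set G) := hT ▸ Subgroup.mem_top g
  rwa [Subgroup.mul_normal] at this

theorem ts_sup [L.Normal] (hT : T ⊔ L = ⊤) {S : Subgroup G} (h : L ≤ S) : T ⊓ S ⊔ L = S := by
  refine le_antisymm (sup_le inf_le_right h) fun g hg => ?_
  obtain ⟨t, ht, l, hl, rfl⟩ := ts_dec hT g
  exact mul_mem (Subgroup.mem_sup_left ⟨ht, (S.mul_mem_cancel_right (h hl)).1 hg⟩)
    (Subgroup.mem_sup_right hl)

theorem ts_norm [hn : L.Normal] : T ≤ Subgroup.normalizer ((T ⊓ L : Subgroup G) : Set G) :=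
  fun t ht => Subgroup.mem_normalizer_iff.2 fun x =>
    ⟨fun h => ⟨T.mul_mem (T.mul_mem ht h.1) (T.inv_mem ht), hn.conj_mem x h.2 t⟩, fun h => ⟨by
      simpa [mul_assoc] using T.mul_mem (T.mul_mem (T.inv_mem ht) h.1) ht, by
      simpa [mul_assoc] using hn.conj_mem _ h.2 t⁻¹⟩⟩

theorem ts_top [L.Normal] (H : Subgroup G) : H ≤ Subgroup.normalizer (L : Set G) :=
  le_top.trans (Subgroup.normalizer_eq_top L).ge

theorem ts_index [Finite G] [L.Normal] (hT : T ⊔ L = ⊤) {S : Subgroup G} (h : L ≤ S) :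
    S.relIndex T = S.relIndex ⊤ := by
  have a := Subgroup.relIndex_inf_mul_relIndex L S T
  rw [inf_eq_left.2 h, ← Subgroup.relIndex_sup_right T L, hT,
    ← Subgroup.relIndex_sup_right (S ⊓ T) L, inf_comm, ts_sup hT h,
    ← Subgroup.relIndex_mul_relIndex L S ⊤ h le_top] at a
  exact Nat.eq_of_mul_eq_mul_left (Nat.pos_of_ne_zero Subgroup.index_ne_zero_of_finite) a

theorem ts_eq (hu : TG F u) {x : G} {s : RingAut A} (hs : IsAd F u x s) (g : s ∈ SG GG A)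
    {b b' : A} (hb : b ∈ span F (Hm F u ⊤)) (hb' : b' ∈ span F (Hm F u ⊤))
    (h : u x * b = b' * u x) : s b = b' :=
  tco_cancel hu (tco_u ⊤ (Subgroup.mem_top x)) ((span_stb g hs.2.1).2 hb) hb'
    ((hs.2.2 b hb).symm.trans h)

/-- hint: `z ↦ z'` where `w * z = t * e`, `w' * z' = t * e'`, `t ∈ Hm (T ⊓ St u e)`, `a ∈ Γ`
linear with `t * b = a b * t` on the span, `U a w w'`; then `iso_eb`. -/
theorem cons_cz [IsAlgClosed F] [CharZero F] [Finite G] (hu : TG F u) [L.Normal]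
    (hT : T ⊔ L = ⊤) {e e' : A} (he : e ∈ Irr F (Hm F u L)) (he' : e' ∈ Irr F (Hm F u (T ⊓ L)))
    (hΓ : Γ ≤ SG GG A ⊓ Stb (Hm F u ⊤) ⊓ Stb (Hm F u T) ⊓ Stb (Hm F u L) ⊓ Fx e ⊓ Fx e')
    (hst : T ⊓ St u e = T ⊓ St u e') (had : ∀ x ∈ T ⊓ St u e, ∃ a ∈ Γ, IsAd F u x a)
    {U : RingAut A → A → A → Prop} (hU : Link F Γ (Hm F u L) (Hm F u (T ⊓ L)) e e' U) :
    EB Γ (IrrP F p (Cz F (Hm F u (⊤ ⊓ St u e)) (Hm F u L) e))
      (IrrP F p (Cz F (Hm F u (T ⊓ St u e')) (Hm F u (T ⊓ L)) e')) := by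
  have hL : L ≤ St u e := le_St hu he.1
  have s (γ) (k : γ ∈ Γ) : γ ∈ Stb (Hm F u (St u e)) := stb_St hu (hΓ k).1.1.1.1.1
    (hΓ k).1.1.1.1.2 (span_mono (tco_mono le_top) he.1.1) (hΓ k).1.2
  have h : Tco F u L (T ⊓ L) (T ⊓ St u e) Γ e e' U := ⟨hu, by
    rw [inf_assoc, inf_eq_right.2 hL], he, he', hU, had, fun γ k =>
      ⟨stb_inf hu (hΓ k).1.1.1.2 (s γ k), (hΓ k).1.1.2, stb_inf hu (hΓ k).1.1.1.2 (hΓ k).1.1.2⟩⟩
  have n1 := cz_nice hu hL (ts_top _) he le_rfl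
  have n2 := cz_nice hu (le_inf_St hu inf_le_left he') (inf_le_left.trans ts_norm) he' inf_le_right
  rw [← hst] at n2 ⊢
  rw [top_inf_eq]
  obtain ⟨φ, ψ, k⟩ := h.lin
  have on {z} (hz : z ∈ Cz F (Hm F u (St u e)) (Hm F u L) e) :
      TcoR F u L (T ⊓ St u e) U z (φ z) := by
    obtain ⟨z', r⟩ := h.onto (z := z) (by rwa [ts_sup hT hL])
    rwa [(k _ _ r).1]
  refine iso_eb (GG := GG) n1 n2 (fun γ g => ⟨(hΓ g).1.1.1.1.1,
    cz_stb (hΓ g).1.1.1.1.1 (s γ g) (hΓ g).1.1.2 (hΓ g).1.2⟩) φ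
    ⟨fun z hz => (h.mem le_rfl (on hz)).2, fun y hy z hz e =>
      (k _ _ (on hy)).2.symm.trans ((congrArg ψ e).trans (k _ _ (on hz)).2), fun z' hz => ?_⟩
    (fun y hy z hz => (k _ _ (h.mul (on hy) (on hz))).1) (fun x _ c _ => map_smul φ c x)
    (fun γ g z hz => (k _ _ (h.nat (on hz) g)).1) p
  obtain ⟨z, r⟩ := h.onto' hz
  exact ⟨z, (h.mem inf_le_right r).1, (k _ _ r).1⟩

/-- hint: `glue` over `X` with `rP f e := f * e ≠ 0`, `rQ f e := f * Ω e ≠ 0`; the indices of the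
stabilisers in `G` and in `T` agree; if `p` divides them both fibres are empty (`cl_under`). -/
theorem cons [IsAlgClosed F] [CharZero F] [Finite G] (hp : p.Prime) (hu : TG F u) [L.Normal]
    (hT : T ⊔ L = ⊤) (hΓ : Γ ≤ SG GG A ⊓ Stb (Hm F u ⊤) ⊓ Stb (Hm F u T) ⊓ Stb (Hm F u L))
    (had : ∀ x ∈ T, ∃ a ∈ Γ, IsAd F u x a) {X : Set A} (hX : X ⊆ IrrP F p (Hm F u L))
    (hcov : ∀ f ∈ IrrP F p (Hm F u ⊤), ∀ e ∈ IrrP F p (Hm F u L), f * e ≠ 0 → e ∈ X)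
    (h : LK F Γ (Hm F u L) (Hm F u (T ⊓ L)) X (IrrP F p (Hm F u (T ⊓ L)))) :
    EB Γ (IrrP F p (Hm F u ⊤)) (IrrP F p (Hm F u T)) := by
  obtain ⟨Ω, hΩ, hl⟩ := h
  have up {H : Subgroup G} {e} (he : e ∈ IrrP F p (Hm F u H)) : e ∈ span F (Hm F u ⊤) :=
    span_mono (tco_mono le_top) he.1.1.1
  have c0 (H : Subgroup G) : (Nat.card H : F) ≠ 0 := Nat.cast_ne_zero.2 Nat.card_pos.ne'
  have fx {x : G} (hx : x ∈ T) {s} (hs : IsAd F u x s) :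
      (∀ a ∈ IrrP F p (Hm F u ⊤), s a = a) ∧ ∀ b ∈ IrrP F p (Hm F u T), s b = b :=
    ⟨fun a k => hs.cen hu (Subgroup.mem_top x) k.1.1, fun a k => hs.cen hu hx k.1.1⟩
  refine glue _ _ X (fun f e => f * e ≠ 0) (fun f e => f * Ω e ≠ 0)
    (fun γ g a k => (irrP_stb (hΓ g).1.1.1 (hΓ g).1.1.2).2 k)
    (fun γ g a k => (irrP_stb (hΓ g).1.1.1 (hΓ g).1.2).2 k) (fun γ g e k => (hΩ.2 γ g e k).1)
    (fun γ _ a _ e _ k => ?_) (fun γ g a _ e he k => ?_) (fun f hf => ?_) (fun f hf => ?_)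
    (fun f hf e he e₁ he₁ k k₁ => ?_) (fun f hf e he e₁ he₁ k k₁ => ?_) fun e he => ?_
  · rwa [← map_mul, EmbeddingLike.map_ne_zero_iff]
  · rwa [(hΩ.2 γ g e he).2, ← map_mul, EmbeddingLike.map_ne_zero_iff]
  · obtain ⟨e, he, k⟩ := exists_under hu (c0 L) hf.1.1.1 hf.1.2.2.1
    exact ⟨e, hcov f hf e (cl_under hu le_top (ts_top _) he hf k).1 k, k⟩
  · obtain ⟨e', he, k⟩ := exists_under hu (c0 (T ⊓ L)) hf.1.1.1 hf.1.2.2.1
    obtain ⟨e, a, rfl⟩ := hΩ.1.surjOn (cl_under hu inf_le_left ts_norm he hf k).1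
    exact ⟨e, a, k⟩
  · obtain ⟨x, -, hx⟩ := clifford hu le_top (ts_top _) hf.1 (hX he).1 (hX he₁).1 k k₁
    obtain ⟨t, ht, l, hl, rfl⟩ := ts_dec hT x
    obtain ⟨s, g, hs⟩ := had t ht
    obtain ⟨c, -, hc⟩ := hu.mul t l
    have ut := subset_span (R := F) (tco_u (F := F) (u := u) ⊤ (Subgroup.mem_top t))
    refine ⟨s, g, ts_eq hu hs (hΓ g).1.1.1 (up (hX he)) (up (hX he₁)) (tco_cancel hu (tco_u L hl)
      (tco_span hu ut (up (hX he))) (tco_span hu (up (hX he₁)) ut) ?_), fx ht hs⟩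
    rw [mul_assoc, (hX he).1.1.2 _ (tco_u L hl), ← mul_assoc, mul_assoc e₁, hc, smul_mul_assoc,
      hx, mul_smul_comm]
  · obtain ⟨x, ht, hx⟩ := clifford hu inf_le_left ts_norm hf.1 (hΩ.1.mapsTo he).1
      (hΩ.1.mapsTo he₁).1 k k₁
    obtain ⟨s, g, hs⟩ := had x ht
    exact ⟨s, g, hΩ.1.injOn (hΩ.2 s g e he).1 he₁ ((hΩ.2 s g e he).2.trans
      (ts_eq hu hs (hΓ g).1.1.1 (up (hΩ.1.mapsTo he)) (up (hΩ.1.mapsTo he₁)) hx)), fx ht hs⟩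
  · have he' := hΩ.1.mapsTo he
    obtain ⟨U, hU⟩ := hl e he
    have st {x : G} (hx : x ∈ T) : x ∈ St u e ↔ x ∈ St u (Ω e) := by
      obtain ⟨s, g, hs⟩ := had x hx
      rw [mem_St hu (up (hX he)), mem_St hu (up he'), ← hs.fix hu (up (hX he)),
        ← hs.fix hu (up he'), hΩ.fix g he]
    have hst : T ⊓ St u e = T ⊓ St u (Ω e) :=
      Subgroup.ext fun x => and_congr_right fun hx => st hx
    have hi : (St u (Ω e)).relIndex T = (St u e).relIndex ⊤ := by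
      rw [← Subgroup.inf_relIndex_right, inf_comm, ← hst, inf_comm, Subgroup.inf_relIndex_right,
        ts_index hT (le_St hu (hX he).1.1)]
    have f' {γ} (g : γ ∈ Γ ⊓ Fx e) : γ ∈ Fx (Ω e) := (hΩ.fix g.1 he).2 g.2
    by_cases d : p ∣ (St u e).relIndex ⊤
    · refine ⟨id, ⟨fun f k => ?_, Set.injOn_id _, fun f k => ?_⟩, fun _ _ f k => ?_⟩
      · exact ((cl_under hu le_top (ts_top _) (hX he).1 k.1 k.2).2 d).elim
      · exact ((cl_under hu inf_le_left ts_norm he'.1 k.1 k.2).2 (hi ▸ d)).elim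
      · exact ((cl_under hu le_top (ts_top _) (hX he).1 k.1 k.2).2 d).elim
    refine ((cl_eb (GG := GG) (Γ := Γ ⊓ Fx e) hp hu le_top (ts_top _) (hX he) d fun γ g =>
      ⟨(hΓ g.1).1.1, g.2⟩).trans (cons_cz (GG := GG) (Γ := Γ ⊓ Fx e) hu hT (hX he).1 he'.1
        (fun γ g => ⟨⟨hΓ g.1, g.2⟩, f' g⟩) hst (fun x hx => ?_) hU)).trans
      (cl_eb (GG := GG) (Γ := Γ ⊓ Fx e) hp hu inf_le_left ts_norm he' (hi ▸ d) fun γ g =>
        ⟨⟨(hΓ g.1).1.1.1, (hΓ g.1).1.2⟩, f' g⟩).symm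
    obtain ⟨s, g, hs⟩ := had x hx.1
    exact ⟨s, ⟨g, (hs.fix hu (up (hX he))).2 ((mem_St hu (up (hX he))).1 hx.2)⟩, hs⟩

end Pool.Agent.Lib.MP_1ae3da_al.CT
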