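import Pool.Agent.Lib.MP_1ae3da_al.C.TR
import Pool.Agent.Lib.MP_1ae3da_al.C.TS
import Pool.Agent.Lib.MP_1ae3da_al.C.GrA
import Pool.Agent.Lib.MP_1ae3da_al.C.GrB
import Pool.Agent.Lib.MP_1ae3da_al.C.SerB

/-! The induction on the group order, from the three local inputs. -/

namespace Pool.Agent.Lib.MP_1ae3da_al.CT

open Submodule Pool.Agent.Lib.McK

variable {p : ℕ} {F A : Type} [Field F] [Ring A] [Algebra F A] {GG : Subgroup (RingAut F)}

variable (F A p GG) in
/-- the coprime input. -/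
def InB1 : Prop := ∀ (G : Type) [Group G] [Finite G] (u : G → A), TG F u →
  ∀ (L E : Subgroup G) [L.Normal], ¬ p ∣ Nat.card L → (∀ x ∈ E, x ^ p = 1) →
    (∀ x ∈ E, ∀ y ∈ E, x * y = y * x) →
    LK F (SG GG A ⊓ Stb (Hm F u ⊤) ⊓ Stb (Hm F u L) ⊓ Stb (Hm F u E)) (Hm F u L)
      (Hm F u (L ⊓ Subgroup.centralizer (E : Set G)))
      {e | e ∈ IrrP F p (Hm F u L) ∧ E ≤ St u e}
      (IrrP F p (Hm F u (L ⊓ Subgroup.centralizer (E : Set G))))

variable (F A p GG) in
/-- the product input. -/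
def InB2 : Prop := ∀ (G I : Type) [Group G] [Finite G] [Fintype I] [Nonempty I] (u : G → A),
  TG F u → ∀ (S M : I → Subgroup G), (∀ i, M i ≤ S i) → Function.Injective S →
    (∀ i, commutator (S i) = ⊤) → (∀ i j, i ≠ j → ∀ x ∈ S i, ∀ y ∈ S j, x * y = y * x) →
    iSupIndep S → ∀ Γ : Subgroup (RingAut A), Γ ≤ SG GG A →
    (∀ γ ∈ Γ, ∀ i, ∃ j, γ '' Hm F u (S i) = Hm F u (S j) ∧ γ '' Hm F u (M i) = Hm F u (M j)) →
    (∀ i, ML F p GG (Hm F u (S i)) (Hm F u (M i))) →
    LK F Γ (Hm F u (⨆ i, S i)) (Hm F u (⨆ i, M i)) (IrrP F p (Hm F u (⨆ i, S i)))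
      (IrrP F p (Hm F u (⨆ i, M i)))

variable (F A p GG) in
/-- the input for simple groups. -/
def InS : Prop := ∀ (S : Type) [Group S] [Finite S], IsSimpleGroup S → commutator S = ⊤ →
  p ∣ Nat.card S → Ser p S → ∀ u : S → A, TG F u → ∀ Q : Sylow p S,
    ML F p GG (Hm F u ⊤) (Hm F u (Subgroup.normalizer (Q : Set S)))

section
variable {G : Type} [Group G] [Finite G] {u : G → A}

theorem main_norm (T P : Subgroup G) (hP : P ≤ T) :
    (Subgroup.normalizer ((P.subgroupOf T : Subgroup T) : Set T)).map T.subtype =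
      Subgroup.normalizer (P : Set G) ⊓ T := by
  ext x
  constructor
  · rintro ⟨y, hy, rfl⟩
    refine ⟨?_, y.2⟩
    have hy' := Subgroup.mem_normalizer_iff.1 hy
    refine Subgroup.mem_normalizer_iff.2 fun h => ⟨fun hh => ?_, fun hh => ?_⟩
    · exact (hy' ⟨h, hP hh⟩).1 hh
    · have hT : h ∈ T := by
        have := T.mul_mem (T.mul_mem (T.inv_mem y.2) (hP hh)) y.2
        simpa [mul_assoc] using this
      exact (hy' ⟨h, hT⟩).2 hh
  · rintro ⟨hx, hT⟩
    refine ⟨⟨x, hT⟩, Subgroup.mem_normalizer_iff.2 fun h => ?_, rfl⟩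
    exact Subgroup.mem_normalizer_iff.1 hx h

/-- descent to a proper subgroup containing the normaliser. -/
theorem main_down [Fact p.Prime] (h5 : 5 ≤ p) (hG : Ser p G) (ih : IH F A p GG (Nat.card G))
    (hu : TG F u) (P : Sylow p G) (T : Subgroup G) (hT : T ≠ ⊤)
    (hN : Subgroup.normalizer (P : Set G) ≤ T) :
    EB (SG GG A ⊓ Stb (Hm F u T) ⊓ Stb (Hm F u P)) (IrrP F p (Hm F u T))
      (IrrP F p (Hm F u (Subgroup.normalizer (P : Set G)))) := by
  have hPT : (P : Subgroup G) ≤ T := le_trans Subgroup.le_normalizer hN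
  have hi : ¬ p ∣ T.index := fun h =>
    P.not_dvd_index (h.trans (Subgroup.index_dvd_of_le hPT))
  have hc : Nat.card T < Nat.card G := by
    have h1 := T.card_mul_index
    have h2 : T.index ≠ 1 := fun h => hT (Subgroup.index_eq_one.1 h)
    have h3 : T.index ≠ 0 := Subgroup.index_ne_zero_of_finite
    have h4 : 0 < Nat.card T := Nat.card_pos
    have h5 : 2 ≤ T.index := by omega
    nlinarith
  have := ih T hc (ser_sub Fact.out h5 hG T hi) (u ∘ T.subtype)
    (hu.comp T.subtype T.subtype_injective) (P.subtype hPT)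
  unfold MN at this
  rw [Hm_comp, Hm_comp, Hm_comp] at this
  have e1 : (⊤ : Subgroup T).map T.subtype = T := by
    rw [← MonoidHom.range_eq_map, Subgroup.range_subtype]
  have e2 : ((P.subtype hPT : Sylow p T) : Subgroup T).map T.subtype = P := by
    rw [Sylow.coe_subtype, Subgroup.subgroupOf_map_subtype, inf_eq_left.2 hPT]
  have e3 : (Subgroup.normalizer (((P.subtype hPT : Sylow p T) : Subgroup T) : Set T)).map
      T.subtype = Subgroup.normalizer (P : Set G) := by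
    rw [Sylow.coe_subtype, main_norm T P hPT]
    exact inf_eq_left.2 hN
  rw [e1, e2, e3] at this
  exact this

theorem main_map_norm (φ : MulAut G) (H : Subgroup G) (h : H.map φ.toMonoidHom = H) :
    (Subgroup.normalizer (H : Set G)).map φ.toMonoidHom = Subgroup.normalizer (H : Set G) := by
  have := Subgroup.map_equiv_normalizer_eq H φ
  rw [h] at this
  exact this

theorem main_map_inf (φ : MulAut G) (H K : Subgroup G) :
    (H ⊓ K).map φ.toMonoidHom = H.map φ.toMonoidHom ⊓ K.map φ.toMonoidHom :=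
  Subgroup.map_inf H K _ φ.injective

theorem main_char (φ : MulAut G) (L : Subgroup G) [h : L.Characteristic] :
    L.map φ.toMonoidHom = L :=
  Subgroup.characteristic_iff_map_eq.1 h φ

/-- the step through a subgroup `T = N(D)` supplementing `L`. -/
theorem main_step [IsAlgClosed F] [CharZero F] [Fact p.Prime] (h5 : 5 ≤ p) (hG : Ser p G)
    (ih : IH F A p GG (Nat.card G)) (hu : TG F u) (P : Sylow p G) (L D : Subgroup G)
    [L.Characteristic] (hD : Subgroup.normalizer (D : Set G) ≠ ⊤)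
    (hinv : ∀ φ : MulAut G, (P : Subgroup G).map φ.toMonoidHom = P → D.map φ.toMonoidHom = D)
    (hN : Subgroup.normalizer (P : Set G) ≤ Subgroup.normalizer (D : Set G))
    (hT : Subgroup.normalizer (P : Set G) ⊔ L = ⊤) {X : Set A} (hX : X ⊆ IrrP F p (Hm F u L))
    (hcov : ∀ f ∈ IrrP F p (Hm F u ⊤), ∀ e ∈ IrrP F p (Hm F u L), f * e ≠ 0 → e ∈ X)
    (h : LK F (SG GG A ⊓ Stb (Hm F u ⊤) ⊓ Stb (Hm F u D)) (Hm F u L)
      (Hm F u (Subgroup.normalizer (D : Set G) ⊓ L)) X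
      (IrrP F p (Hm F u (Subgroup.normalizer (D : Set G) ⊓ L)))) : MN F p GG u P := by
  have hTL : Subgroup.normalizer (D : Set G) ⊔ L = ⊤ :=
    eq_top_iff.2 (hT ▸ sup_le_sup_right hN L)
  have s1 : SG GG A ⊓ Stb (Hm F u ⊤) ⊓ Stb (Hm F u D) ≤
      Stb (Hm F u (Subgroup.normalizer (D : Set G))) :=
    stb_of_inv hu fun φ hφ => main_map_norm φ D hφ
  have s2 : SG GG A ⊓ Stb (Hm F u ⊤) ⊓ Stb (Hm F u P) ≤ Stb (Hm F u D) := stb_of_inv hu hinv
  have s3 : SG GG A ⊓ Stb (Hm F u ⊤) ⊓ Stb (Hm F u P) ≤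
      SG GG A ⊓ Stb (Hm F u ⊤) ⊓ Stb (Hm F u D) := le_inf inf_le_left s2
  have c := cons (GG := GG) (Fact.out : p.Prime) hu hTL
    (le_inf (le_inf inf_le_left s1) (inf_le_left.trans (stb_char hu L)))
    (fun x hx => by
      obtain ⟨a, ha⟩ := exists_ad hu x
      exact ⟨a, ⟨⟨ha.1.mem_SG, ha.2.1⟩, ha.stb hu hx⟩, ha⟩) hX hcov h
  exact (c.mono s3).trans ((main_down h5 hG ih hu P _ hD hN).mono
    (le_inf (le_inf (inf_le_left.trans inf_le_left) (s3.trans s1)) inf_le_right))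

end

theorem main_ind [IsAlgClosed F] [CharZero F] [Fact p.Prime] (h5 : 5 ≤ p) (h1 : InB1 p F A GG)
    (h2 : InB2 p F A GG) (h3 : InS p F A GG) (n : ℕ) : IH F A p GG n := by
  induction n with
  | zero => intro G _ _ h; omega
  | succ n ihn =>
  intro G _ _ hn hG u hu P
  have ih : IH F A p GG (Nat.card G) := fun G' _ _ h => ihn G' (by omega)
  by_cases hP : Subgroup.normalizer (P : Set G) = ⊤
  · unfold MN
    rw [show Subgroup.normalizer ((P : Subgroup G) : Set G) = ⊤ from hP]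
    exact EB.refl fun γ hγ x hx => (irrP_stb hγ.1.1 hγ.1.2).2 hx
  by_cases hL : ∃ L : Subgroup G, L.Characteristic ∧ L ≠ ⊥ ∧
      Subgroup.normalizer (P : Set G) ⊔ L ≠ ⊤
  · obtain ⟨L, hc, hb, hT⟩ := hL
    have a1 := r1 (GG := GG) h5 (fun H hH => ser_sub Fact.out h5 hG H hH) ih hu P L hb
    have a2 := main_down h5 hG ih hu P _ hT le_sup_left
    have s1 : SG GG A ⊓ Stb (Hm F u ⊤) ⊓ Stb (Hm F u P) ≤
        Stb (Hm F u (Subgroup.normalizer (P : Set G) ⊔ L)) :=
      stb_of_inv hu fun φ hφ => by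
        rw [Subgroup.map_sup, main_char φ L]
        exact congrArg (· ⊔ L) (main_map_norm φ P hφ)
    exact (a1.mono (le_inf le_rfl (inf_le_left.trans (stb_char hu L)))).trans
      (a2.mono (le_inf (le_inf (inf_le_left.trans inf_le_left) s1) inf_le_right))
  have hL' : ∀ L : Subgroup G, L.Characteristic → L ≠ ⊥ →
      Subgroup.normalizer (P : Set G) ⊔ L = ⊤ := fun L a b => by
    by_contra c; exact hL ⟨L, a, b, c⟩
  have hop : ∀ N : Subgroup G, N.Normal → IsPGroup p N → N = ⊥ := fun N _ hN => gr_op P hP hL' N hN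
  have hPb : (P : Subgroup G) ≠ ⊥ := fun h => hP (by
    change Subgroup.normalizer ((P : Subgroup G) : Set G) = ⊤
    rw [h]; exact Subgroup.normalizer_eq_top _)
  by_cases hq : ∃ N : Subgroup G, N.Normal ∧ ¬ p ∣ Nat.card N ∧ N ≠ ⊥
  · obtain ⟨N, hN, hN1, hN2⟩ := hq
    obtain ⟨L, hc, hb, hp'⟩ := gr_opp Fact.out N hN2 hN1
    obtain ⟨E, e0, e1, e2, e3, e4, e5, e6, e7⟩ := gr_E P hPb L hp' (hL' L hc hb)
    have hE : Subgroup.normalizer (E : Set G) ≠ ⊤ := fun h =>
      e0 (hop E (Subgroup.normalizer_eq_top_iff.1 h) (P.isPGroup'.to_le e1))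
    refine main_step h5 hG ih hu P L E hE e4 e5 (hL' L hc hb)
      (X := {e | e ∈ IrrP F p (Hm F u L) ∧ E ≤ St u e}) (fun _ h => h.1) ?_ ?_
    · intro f hf e he h
      refine ⟨he, e7 _ ((le_inf_St hu le_top he.1).trans inf_le_right) ?_⟩
      have := (cl_under hu le_top (by rw [Subgroup.normalizer_eq_top]) he.1 hf h).2
      rwa [Subgroup.relIndex_top_right] at this
    · rw [e6]
      exact (h1 G u hu L E hp' e2 e3).mono
        (le_inf (le_inf inf_le_left (inf_le_left.trans (stb_char hu L))) inf_le_right)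
  have hq' : ∀ N : Subgroup G, N.Normal → ¬ p ∣ Nat.card N → N = ⊥ := fun N a b => by
    by_contra c; exact hq ⟨N, a, b, c⟩
  haveI : Nontrivial G := by
    by_contra hc
    rw [not_nontrivial_iff_subsingleton] at hc
    exact hPb (Subsingleton.elim _ _)
  obtain ⟨I, _, _, S, s1, s2, s3, s4, s5, s6⟩ := gr_soc hop hq'
  obtain ⟨q1, q2⟩ := gr_syl S s5 s6 P
  obtain ⟨i0⟩ := ‹Nonempty I›
  have hLb : (⨆ i, S i) ≠ ⊥ := fun h => by
    have : S i0 = ⊥ := eq_bot_iff.2 (h ▸ le_iSup S i0)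
    have h0 := (s4 i0).2.2.1
    rw [this, Subgroup.card_bot, Nat.dvd_one] at h0
    omega
  have hQb : (P : Subgroup G) ⊓ (⨆ i, S i) ≠ ⊥ := fun h => by
    obtain ⟨Q, hQ⟩ := q1 i0
    have : (P : Subgroup G) ⊓ S i0 = ⊥ := eq_bot_iff.2 (h ▸ inf_le_inf_left _ (le_iSup S i0))
    rw [this, Subgroup.map_eq_bot_iff_of_injective _ (S i0).subtype_injective] at hQ
    have := Q.not_dvd_index
    rw [hQ, Subgroup.index_bot] at this
    exact this (s4 i0).2.2.1
  have hinv : ∀ φ : MulAut G, (P : Subgroup G).map φ.toMonoidHom = P →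
      ((P : Subgroup G) ⊓ ⨆ i, S i).map φ.toMonoidHom = (P : Subgroup G) ⊓ ⨆ i, S i :=
    fun φ h => by rw [main_map_inf, h, main_char]
  refine main_step h5 hG ih hu P (⨆ i, S i) ((P : Subgroup G) ⊓ ⨆ i, S i)
    (fun h => hQb (hop _ (Subgroup.normalizer_eq_top_iff.1 h) (P.isPGroup'.to_le inf_le_left)))
    hinv ?_ (hL' _ s3 hLb) le_rfl (fun _ _ _ h _ => h) ?_
  · refine le_trans (le_inf le_rfl ?_) Subgroup.inf_normalizer_le_normalizer_inf
    rw [Subgroup.normalizer_eq_top]; exact le_top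
  rw [q2]
  refine h2 G I u hu S _ (fun i => inf_le_right) s1 (fun i => (s4 i).2.1) s5 s6 _
    (inf_le_left.trans inf_le_left) ?_ fun i => ?_
  · rintro γ ⟨⟨⟨σ, -, hσ⟩, g1⟩, g2⟩ i
    obtain ⟨φ, hφ⟩ := exists_aut hu hσ g1
    obtain ⟨j, hj⟩ := s2 φ i
    have g3 := (stb_Hm hu hσ hφ _).1 g2
    have e : ∀ i, (P : Subgroup G) ⊓ S i = ((P : Subgroup G) ⊓ ⨆ i, S i) ⊓ S i := fun i => by
      rw [inf_assoc, inf_eq_right.2 (le_iSup S i)]
    refine ⟨j, by rw [image_Hm hσ hφ, hj], ?_⟩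
    rw [image_Hm hσ hφ, main_map_inf, hj, Subgroup.map_equiv_normalizer_eq, e i, main_map_inf,
      g3, hj, ← e j]
  · obtain ⟨Q, hQ⟩ := q1 i
    have hn := (s4 i).2.2.2
    have hS : Ser p (S i) :=
      ((hG.normal Fact.out (by omega) (⨆ i, S i)).normal Fact.out (by omega)
        ((S i).subgroupOf (⨆ i, S i))).congr (Subgroup.subgroupOfEquivOfLe (le_iSup S i))
    have := h3 (S i) (s4 i).1 (s4 i).2.1 (s4 i).2.2.1 hS (u ∘ (S i).subtype)
      (hu.comp _ (S i).subtype_injective) Q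
    rw [Hm_comp, Hm_comp, ← MonoidHom.range_eq_map, Subgroup.range_subtype] at this
    have e : (Q : Subgroup (S i)) = ((P : Subgroup G) ⊓ S i).subgroupOf (S i) := by
      rw [← hQ, Subgroup.subgroupOf, Subgroup.comap_map_eq_self_of_injective (S i).subtype_injective]
    have e2 : (Subgroup.normalizer (Q : Set (S i))).map (S i).subtype =
        Subgroup.normalizer (((P : Subgroup G) ⊓ S i : Subgroup G) : Set G) ⊓ S i := by
      rw [← main_norm (S i) _ inf_le_right, ← e]; rfl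
    rw [e2] at this
    exact this

end Pool.Agent.Lib.MP_1ae3da_al.CT
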