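import Pool.Agent.Lib.MP_1ae3da_al.C.Main
import Pool.Agent.Lib.MP_1ae3da_al.C.B1
import Pool.Agent.Lib.MP_1ae3da_al.C.B2
import Pool.Agent.Lib.MP_1ae3da_al.C.Comp

/-! The McKay bijection for all twisted group algebras of groups in the class. -/

namespace Pool.Agent.Lib.MP_1ae3da_al.CT

open Pool.Agent.Lib.McK

variable {p : ℕ} {F k A : Type} [Field F] [Field k] [Ring A] [Algebra F A] {O R : Subring F}
  {r : F → k} {GG : Subgroup (RingAut F)}

theorem main (h : PM p O R r GG) (h5 : 5 ≤ p) (j : NSV.Qbar →+* F)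
    (hj : ∀ σ ∈ GG, ∃ s ∈ NSV.H p, ∀ x, σ (j x) = j (s x)) (G : Type) [Group G] [Finite G]
    (hG : Ser p G) {u : G → A} (hu : TG F u) (P : Sylow p G) : MN F p GG u P := by
  have := h.charF
  have := h.algF
  have : Fact p.Prime := ⟨h.prime⟩
  exact main_ind h5 (fun G _ _ u hu L E _ a b c => b1 h hu L E a b c)
    (fun G I _ _ _ _ u hu S M a b c d e Γ f g i => b2 h.prime hu S M a b c d e Γ f g i)
    (fun S _ _ a b c d u hu Q => comp h h5 j hj S a b c d hu Q) (Nat.card G + 1) G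
    (Nat.lt_succ_self _) hG u hu P

end Pool.Agent.Lib.MP_1ae3da_al.CT
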