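import Pool.Agent.Lib.MP_1ae3da_al.C.Defs

/-! Tensor products of links: definitions. -/

namespace Pool.Agent.Lib.MP_1ae3da_al.CT.Q

variable {F A : Type} [Field F] [Ring A] [Algebra F A]

/-- `w` is a nonzero element of `B` implementing `a` on `B`. -/
def Im (B : Submodule F A) (a : RingAut A) (w : A) : Prop :=
  w ∈ B ∧ w ≠ 0 ∧ ∀ x ∈ B, w * x = a x * w

/-- `B` is an algebra with identity `e` and a full idempotent `j` with `j B j = F j`. -/
structure Mor (B : Submodule F A) (e j : A) : Prop where
  mul : ∀ x ∈ B, ∀ y ∈ B, x * y ∈ B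
  he : e ∈ B
  el : ∀ x ∈ B, e * x = x
  er : ∀ x ∈ B, x * e = x
  hj : j ∈ B
  jj : j * j = j
  j0 : j ≠ 0
  prim : ∀ x ∈ B, ∃ c : F, j * x * j = c • j
  full : e ∈ Submodule.span F {z | ∃ x ∈ B, ∃ y ∈ B, z = x * j * y}

/-- `y` is a nonzero element of `k B j`. -/
def Tw (B : Submodule F A) (k j y : A) : Prop := y ∈ B ∧ y ≠ 0 ∧ k * y = y ∧ y * j = y

variable {I : Type} [Fintype I]

open Classical in
/-- the product of a family of pairwise commuting elements. -/
noncomputable def pr (v : I → A) : A :=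
  if h : ((Finset.univ : Finset I) : Set I).Pairwise (Function.onFun Commute v) then
    Finset.univ.noncommProd v h else 0

/-- the span of the products. -/
def BB (B : I → Submodule F A) : Submodule F A :=
  Submodule.span F {z | ∃ b : I → A, (∀ i, b i ∈ B i) ∧ z = pr b}

/-- the submodules `B i` commute elementwise. -/
def Cm (B : I → Submodule F A) : Prop :=
  ∀ i k, i ≠ k → ∀ x ∈ B i, ∀ y ∈ B k, Commute x y

/-- A family of commuting simple algebras permuted by a group of semilinear automorphisms. -/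
structure Fam (Γ : Subgroup (RingAut A)) [MulAction Γ I] (B : I → Submodule F A)
    (e j : I → A) : Prop where
  mor : ∀ i, Mor (B i) (e i) (j i)
  cm : Cm B
  map : ∀ (g : Γ) (i : I), ∀ x ∈ B i, g.1 x ∈ B (g • i)
  semi : ∀ g : Γ, ∃ σ : RingAut F, SL F σ g.1
  ne : pr e ≠ 0

/-- A multiplicative matching of implementing elements. -/
structure PL (B B' : Submodule F A) (U : RingAut A → A → A → Prop) : Prop where
  int : ∀ a w w', U a w w' → Im B a w ∧ Im B' a w'
  mul : ∀ a w w' b v v', U a w w' → U b v v' → U (a * b) (w * v) (w' * v')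
  smul : ∀ a w w' (c : F), c ≠ 0 → U a w w' → U a (c • w) (c • w')
  fn : ∀ a w w₁ w₂, U a w w₁ → U a w w₂ → w₁ = w₂

variable (F) in
/-- the block of `e` in the span of `S`. -/
def blk (S : Set A) (e : A) : Submodule F A :=
  (Submodule.span F S).map (LinearMap.mulRight F e)

/-- the twisted group algebras of the subgroups `K i` commute and are independent. -/
structure Dp (F : Type) [Field F] [Algebra F A] {G : Type} [Group G] (u : G → A)
    (K : I → Subgroup G) : Prop where
  tg : TG F u
  cm : ∀ i k, i ≠ k → ∀ x ∈ K i, ∀ y ∈ K k, u x * u y = u y * u x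
  cg : ∀ i k, i ≠ k → ∀ x ∈ K i, ∀ y ∈ K k, x * y = y * x
  ind : iSupIndep K

end Pool.Agent.Lib.MP_1ae3da_al.CT.Q
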