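import Pool.Agent.Lib.MP_1ae3da_al.C.QDf

/-! Products of commuting families. -/

namespace Pool.Agent.Lib.MP_1ae3da_al.CT.Q

variable {F A : Type} [Field F] [Ring A] [Algebra F A] {I : Type} [Fintype I]

theorem qpr_pw {v : I → A} :
    ((Finset.univ : Finset I) : Set I).Pairwise (Function.onFun Commute v) ↔
      ∀ i k, i ≠ k → Commute (v i) (v k) :=
  ⟨fun h i k n => h (Finset.mem_univ i) (Finset.mem_univ k) n, fun h i _ k _ n => h i k n⟩

theorem qpr_eq {v : I → A} (hv : ∀ i k, i ≠ k → Commute (v i) (v k)) :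
    pr v = Finset.univ.noncommProd v (qpr_pw.2 hv) := dif_pos _

theorem qpr_zero {v : I → A} (hv : ¬∀ i k, i ≠ k → Commute (v i) (v k)) : pr v = 0 :=
  dif_neg (mt qpr_pw.1 hv)

theorem pr_mul {v w : I → A} (hv : ∀ i k, i ≠ k → Commute (v i) (v k))
    (hw : ∀ i k, i ≠ k → Commute (w i) (w k)) (h : ∀ i k, i ≠ k → Commute (v i) (w k)) :
    pr (fun i => v i * w i) = pr v * pr w := by
  rw [qpr_eq hv, qpr_eq hw, qpr_eq fun i k n => ((hv i k n).mul_right (h i k n)).mul_left
    (((h k i n.symm).symm).mul_right (hw i k n))]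
  exact Finset.noncommProd_mul_distrib v w _ _ fun i _ k _ n => (h k i n.symm).symm

theorem pr_map (g : RingAut A) (v : I → A) : g (pr v) = pr fun i => g (v i) := by
  by_cases hv : ∀ i k, i ≠ k → Commute (v i) (v k)
  · rw [qpr_eq hv, qpr_eq fun i k n => (hv i k n).map g]
    exact Finset.map_noncommProd _ _ _ g
  · rw [qpr_zero hv, map_zero, qpr_zero fun h => hv fun i k n =>
      g.injective (by rw [map_mul, map_mul]; exact h i k n)]

theorem pr_perm (π : Equiv.Perm I) (v : I → A) : pr (fun i => v (π i)) = pr v := by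
  by_cases hv : ∀ i k, i ≠ k → Commute (v i) (v k)
  · rw [qpr_eq hv, qpr_eq fun i k n => hv _ _ (π.injective.ne n)]
    unfold Finset.noncommProd
    congr 1
    exact (Multiset.map_map v π _).symm.trans (congrArg _ (Multiset.map_univ_val_equiv π))
  · rw [qpr_zero hv, qpr_zero fun h => hv fun i k n => by
      simpa using h (π.symm i) (π.symm k) (π.symm.injective.ne n)]

theorem pr_smul (c : I → F) {v : I → A} (hv : ∀ i k, i ≠ k → Commute (v i) (v k)) :
    pr (fun i => c i • v i) = (∏ i, c i) • pr v := by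
  have k : ∀ i k, i ≠ k → Commute (algebraMap F A (c i)) (algebraMap F A (c k)) :=
    fun i k _ => Algebra.commutes _ _
  simp only [Algebra.smul_def]
  rw [pr_mul k hv fun i k _ => Algebra.commutes _ _, qpr_eq k, ← Finset.noncommProd_eq_prod]
  congr 1
  exact (Finset.map_noncommProd _ c _ (algebraMap F A)).symm

theorem pr_update [DecidableEq I] {v : I → A} (hv : ∀ i k, i ≠ k → Commute (v i) (v k)) (k : I)
    {b : A} (hb : ∀ i, i ≠ k → Commute b (v i)) :
    pr (Function.update v k b) = b * pr (Function.update v k 1) := by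
  have c {b : A} (hb : ∀ i, i ≠ k → Commute b (v i)) : ∀ i l, i ≠ l →
      Commute (Function.update v k b i) (Function.update v k b l) := fun i l n => by
    by_cases p : i = k
    · subst p; rw [Function.update_self, Function.update_of_ne n.symm]; exact hb l n.symm
    · rw [Function.update_of_ne p]
      by_cases q : l = k
      · subst q; rw [Function.update_self]; exact (hb i p).symm
      · rw [Function.update_of_ne q]; exact hv i l n
  rw [qpr_eq (c hb), qpr_eq (c fun i _ => Commute.one_left _),
    ← Finset.mul_noncommProd_erase _ (Finset.mem_univ k),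
    ← Finset.mul_noncommProd_erase _ (Finset.mem_univ k), Function.update_self,
    Function.update_self, one_mul]
  congr 1
  exact Finset.noncommProd_congr rfl (fun i hi => by
    simp only [Function.update_of_ne (Finset.ne_of_mem_erase hi)]) _

variable {B : I → Submodule F A} {e j : I → A}

theorem pr_mem {π : Equiv.Perm I} {v : I → A} (hv : ∀ i, v i ∈ B (π i)) : pr v ∈ BB B :=
  Submodule.subset_span ⟨fun i => v (π.symm i), fun i => by simpa using hv (π.symm i),
    (pr_perm π.symm v).symm⟩

theorem Cm.pr_mul (h : Cm B) (π : Equiv.Perm I) {v w : I → A} (hv : ∀ i, v i ∈ B (π i))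
    (hw : ∀ i, w i ∈ B (π i)) : pr (fun i => v i * w i) = pr v * pr w :=
  Q.pr_mul (fun i k n => h _ _ (π.injective.ne n) _ (hv i) _ (hv k))
    (fun i k n => h _ _ (π.injective.ne n) _ (hw i) _ (hw k))
    fun i k n => h _ _ (π.injective.ne n) _ (hv i) _ (hw k)

theorem qpr_le {N : Submodule F A} (h : ∀ b : I → A, (∀ i, b i ∈ B i) → pr b ∈ N) : BB B ≤ N :=
  Submodule.span_le.2 (by rintro _ ⟨b, hb, rfl⟩; exact h b hb)

theorem qpr_mem {v : I → A} (hv : ∀ i, v i ∈ B i) : pr v ∈ BB B :=
  Submodule.subset_span ⟨v, hv, rfl⟩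

/-- the product is multilinear -/
theorem qpr_span (hc : Cm B) {T : I → Set A} (hT : ∀ i, T i ⊆ B i) {N : Submodule F A}
    (h : ∀ t : I → A, (∀ i, t i ∈ T i) → pr t ∈ N) {v : I → A}
    (hv : ∀ i, v i ∈ Submodule.span F (T i)) : pr v ∈ N := by
  classical
  have le (i : I) : Submodule.span F (T i) ≤ B i := Submodule.span_le.2 (hT i)
  have k (s : Finset I) : ∀ v : I → A, (∀ i, v i ∈ Submodule.span F (T i)) →
      (∀ i ∉ s, v i ∈ T i) → pr v ∈ N := by
    induction s using Finset.induction_on with
    | empty => exact fun v _ hv => h v fun i => hv i (Finset.notMem_empty i)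
    | insert a s _ ih =>
      intro v hv hs
      have c : ∀ i k, i ≠ k → Commute (v i) (v k) :=
        fun i k n => hc i k n _ (le i (hv i)) _ (le k (hv k))
      have u {b : A} (hb : b ∈ B a) := pr_update c a (b := b)
        fun i n => hc a i n.symm _ hb _ (le i (hv i))
      have : Submodule.span F (T a) ≤
          N.comap (LinearMap.mulRight F (pr (Function.update v a 1))) :=
        Submodule.span_le.2 fun t ht => by
          change t * pr (Function.update v a 1) ∈ N
          rw [← u (hT a ht)]
          refine ih _ (fun i => ?_) fun i hi => ?_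
          · by_cases p : i = a
            · subst p; rw [Function.update_self]; exact Submodule.subset_span ht
            · rw [Function.update_of_ne p]; exact hv i
          · by_cases p : i = a
            · subst p; rwa [Function.update_self]
            · rw [Function.update_of_ne p]; exact hs i (by simp [p, hi])
      have q : v a * pr (Function.update v a 1) ∈ N := this (hv a)
      rwa [← u (le a (hv a)), Function.update_eq_self] at q
  exact k Finset.univ v hv fun i hi => absurd (Finset.mem_univ i) hi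

theorem mor_BB (hm : ∀ i, Mor (B i) (e i) (j i)) (hc : Cm B) (h0 : pr e ≠ 0) :
    Mor (BB B) (pr e) (pr j) := by
  have mu {v w : I → A} (hv : ∀ i, v i ∈ B i) (hw : ∀ i, w i ∈ B i) :
      pr v * pr w = pr fun i => v i * w i := (hc.pr_mul 1 hv hw).symm
  have he (i : I) := (hm i).he
  have hj (i : I) := (hm i).hj
  have full : pr e ∈ Submodule.span F {z | ∃ x ∈ BB B, ∃ y ∈ BB B, z = x * pr j * y} := by
    refine qpr_span hc (T := fun i => {z | ∃ x ∈ B i, ∃ y ∈ B i, z = x * j i * y}) ?_
      (fun t ht => ?_) fun i => (hm i).full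
    · rintro i _ ⟨x, hx, y, hy, rfl⟩
      exact (hm i).mul _ ((hm i).mul _ hx _ (hj i)) _ hy
    · choose x hx y hy q using ht
      refine Submodule.subset_span ⟨_, qpr_mem hx, _, qpr_mem hy, ?_⟩
      rw [mu hx hj, mu (fun i => (hm i).mul _ (hx i) _ (hj i)) hy]
      exact congrArg pr (funext q)
  have m1 (v : I → A) (hv : ∀ i, v i ∈ B i) : BB B ≤ (BB B).comap (LinearMap.mulLeft F (pr v)) :=
    qpr_le fun w hw => by
      rw [Submodule.mem_comap, LinearMap.mulLeft_apply, mu hv hw]
      exact qpr_mem fun i => (hm i).mul _ (hv i) _ (hw i)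
  have m2 (y : A) (hy : y ∈ BB B) : BB B ≤ (BB B).comap (LinearMap.mulRight F y) :=
    qpr_le fun v hv => m1 v hv hy
  have m3 : BB B ≤ LinearMap.eqLocus (LinearMap.mulLeft F (pr e)) LinearMap.id :=
    qpr_le fun v hv => by
      rw [LinearMap.mem_eqLocus, LinearMap.mulLeft_apply, LinearMap.id_apply, mu he hv]
      exact congrArg pr (funext fun i => (hm i).el _ (hv i))
  have m4 : BB B ≤ LinearMap.eqLocus (LinearMap.mulRight F (pr e)) LinearMap.id :=
    qpr_le fun v hv => by
      rw [LinearMap.mem_eqLocus, LinearMap.mulRight_apply, LinearMap.id_apply, mu hv he]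
      exact congrArg pr (funext fun i => (hm i).er _ (hv i))
  refine ⟨fun x hx y hy => m2 y hy hx, qpr_mem he, fun x hx => m3 hx, fun x hx => m4 hx,
    qpr_mem hj, ?_, fun z => h0 ?_, fun x hx => ?_, full⟩
  · rw [mu hj hj]; exact congrArg pr (funext fun i => (hm i).jj)
  · have : Submodule.span F {z | ∃ x ∈ BB B, ∃ y ∈ BB B, z = x * pr j * y} ≤ ⊥ :=
      Submodule.span_le.2 (by
        rintro _ ⟨x, -, y, -, rfl⟩
        rw [z, mul_zero, zero_mul]; exact zero_mem _)
    exact this full
  · have := qpr_le (N := (Submodule.span F {pr j}).comap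
      (LinearMap.mulRight F (pr j) ∘ₗ LinearMap.mulLeft F (pr j))) (fun v hv => by
        choose c q using fun i => (hm i).prim _ (hv i)
        rw [Submodule.mem_comap, LinearMap.comp_apply, LinearMap.mulLeft_apply,
          LinearMap.mulRight_apply, mu hj hv, mu (fun i => (hm i).mul _ (hj i) _ (hv i)) hj, funext q,
          pr_smul c fun i k n => hc i k n _ (hj i) _ (hj k)]
        exact Submodule.smul_mem _ _ (Submodule.mem_span_singleton_self _)) hx
    obtain ⟨c, q⟩ := Submodule.mem_span_singleton.1 this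
    exact ⟨c, q.symm⟩

theorem Fam.map_BB {Γ : Subgroup (RingAut A)} [MulAction Γ I] (H : Fam Γ B e j) (g : Γ) :
    ∀ x ∈ BB B, g.1 x ∈ BB B := by
  obtain ⟨σ, hσ⟩ := H.semi g
  intro x hx
  induction hx using Submodule.span_induction with
  | mem x hx =>
    obtain ⟨b, hb, rfl⟩ := hx
    rw [pr_map]
    exact pr_mem (π := MulAction.toPerm g) fun i => H.map g i _ (hb i)
  | zero => rw [map_zero]; exact zero_mem _
  | add x y _ _ a b => rw [map_add]; exact add_mem a b
  | smul c x _ a => rw [hσ]; exact Submodule.smul_mem _ _ a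

theorem im_pr (hm : ∀ i, Mor (B i) (e i) (j i)) (hc : Cm B) (h0 : pr e ≠ 0) {a : RingAut A}
    (ha : Lin F a) (h1 : ∀ i, ∀ x ∈ B i, a x ∈ B i) {w : I → A} (hw : ∀ i, Im (B i) a (w i))
    (hn : pr w ≠ 0) : Im (BB B) a (pr w) := by
  refine ⟨qpr_mem fun i => (hw i).1, hn, fun x hx => ?_⟩
  induction hx using Submodule.span_induction with
  | mem x hx =>
    obtain ⟨b, hb, rfl⟩ := hx
    rw [pr_map, ← hc.pr_mul 1 (fun i => (hw i).1) hb,
      ← hc.pr_mul 1 (fun i => h1 i _ (hb i)) fun i => (hw i).1]
    exact congrArg pr (funext fun i => (hw i).2.2 _ (hb i))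
  | zero => simp
  | add x y _ _ p q => rw [map_add, mul_add, add_mul, p, q]
  | smul c x _ p => rw [ha, mul_smul_comm, smul_mul_assoc, p]

end Pool.Agent.Lib.MP_1ae3da_al.CT.Q
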