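import Pool.Agent.Lib.MP_1ae3da_al.C.QMo
import Pool.Agent.Lib.MP_1ae3da_al.C.QPr

/-! The group of pairs: an automorphism together with compatible maps of the simple modules. -/

namespace Pool.Agent.Lib.MP_1ae3da_al.CT.Q

variable {F A I : Type} [Field F] [Ring A] [Algebra F A] [Fintype I] {Γ : Subgroup (RingAut A)}
  [MulAction Γ I] {B : I → Submodule F A} {e j : I → A}

theorem Fam.inv_map (H : Fam Γ B e j) (g : Γ) (i : I) : ∀ x ∈ B (g • i), g.1⁻¹ x ∈ B i := by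
  intro x hx
  have := H.map g⁻¹ (g • i) x hx
  rwa [inv_smul_smul] at this

theorem Fam.mor' (H : Fam Γ B e j) (g : Γ) (i : I) :
    Mor (B (g • i)) (e (g • i)) (g.1 (j i)) := by
  obtain ⟨σ, hσ⟩ := H.semi g
  have := (H.mor i).map g.1 σ hσ (H.map g i) (H.inv_map g i)
  rw [← this.one_eq (H.mor (g • i))]
  exact this

theorem Fam.morB (H : Fam Γ B e j) : Mor (BB B) (pr e) (pr j) := mor_BB H.mor H.cm H.ne

theorem Fam.inv_BB (H : Fam Γ B e j) (g : Γ) : ∀ x ∈ BB B, g.1⁻¹ x ∈ BB B := H.map_BB g⁻¹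

/-- an automorphism `g` with elements `y i` of the lines `g (j i) B (j (g i))`. -/
@[ext] structure Ex (H : Fam Γ B e j) where
  g : Γ
  y : I → A
  hy : ∀ i, Tw (B (g • i)) (g.1 (j i)) (j (g • i)) (y i)

namespace Ex

variable {H : Fam Γ B e j}

theorem inv_ex (a : Ex H) (i : I) : ∃ x, Tw (B (a.g • i)) (j (a.g • i)) (a.g.1 (j i)) x ∧
    x * a.y i = j (a.g • i) ∧ a.y i * x = a.g.1 (j i) :=
  (H.mor _).tw_inv (H.mor' a.g i) (a.hy i)

instance : Mul (Ex H) where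
  mul a b := ⟨a.g * b.g, fun i => a.g.1 (b.y i) * a.y (b.g • i), fun i => by
    obtain ⟨h1, h2, h3, h4⟩ := a.hy (b.g • i)
    obtain ⟨k1, k2, k3, k4⟩ := b.hy i
    obtain ⟨x, -, hx, -⟩ := b.inv_ex i
    rw [mul_smul]
    refine ⟨(H.mor _).mul _ (H.map _ _ _ k1) _ h1, fun h0 => h2 ?_, ?_, ?_⟩
    · rw [← h3, ← hx, map_mul, mul_assoc, h0, mul_zero]
    · change a.g.1 (b.g.1 (j i)) * _ = _
      rw [← mul_assoc, ← map_mul, k3]
    · rw [mul_assoc, h4]⟩

instance : One (Ex H) where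
  one := ⟨1, j, fun i => by
    rw [one_smul]
    exact ⟨(H.mor i).hj, (H.mor i).j0, (H.mor i).jj, (H.mor i).jj⟩⟩

theorem mul_g (a b : Ex H) : (a * b).g = a.g * b.g := rfl
theorem mul_y (a b : Ex H) (i : I) : (a * b).y i = a.g.1 (b.y i) * a.y (b.g • i) := rfl
theorem one_g : (1 : Ex H).g = 1 := rfl
theorem one_y : (1 : Ex H).y = j := rfl

theorem left_inv (a : Ex H) : ∃ b : Ex H, b * a = 1 := by
  choose x hx using a.inv_ex
  refine ⟨⟨a.g⁻¹, fun k => a.g.1⁻¹ (x (a.g⁻¹ • k)), fun k => ?_⟩, ?_⟩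
  · obtain ⟨⟨h1, h2, h3, h4⟩, -, -⟩ := hx (a.g⁻¹ • k)
    refine ⟨H.inv_map _ _ _ h1, fun h0 => h2 ((map_eq_zero_iff _ (RingEquiv.injective _)).1 h0),
      ?_, ?_⟩
    · rw [smul_inv_smul] at h3
      change a.g.1⁻¹ (j k) * _ = _
      rw [← map_mul, h3]
    · conv_rhs => rw [← h4, map_mul]
      congr 1
      exact (a.g.1.symm_apply_apply _).symm
  · refine Ex.ext (inv_mul_cancel _) (funext fun i => ?_)
    change a.g.1⁻¹ (a.y i) * a.g.1⁻¹ (x (a.g⁻¹ • a.g • i)) = j i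
    rw [inv_smul_smul, ← map_mul, (hx i).2.2]
    exact a.g.1.symm_apply_apply _

noncomputable instance : Inv (Ex H) where
  inv a := a.left_inv.choose

noncomputable instance : Group (Ex H) :=
  Group.ofLeftAxioms
    (fun a b c => Ex.ext (mul_assoc _ _ _) (funext fun i => by
      simp only [mul_y, mul_g, map_mul, mul_smul, mul_assoc]
      rfl))
    (fun a => Ex.ext (one_mul _) (funext fun i => (a.hy i).2.2.2))
    fun a => a.left_inv.choose_spec

variable (H) in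
/-- the projection to the automorphism. -/
def π : Ex H →* Γ where
  toFun := Ex.g
  map_one' := rfl
  map_mul' _ _ := rfl

theorem inv_g (a : Ex H) : a⁻¹.g = a.g⁻¹ := map_inv (π H) a

variable (H) in
theorem surj (g : Γ) : ∃ a : Ex H, a.g = g := by
  choose y hy using fun i => (H.mor (g • i)).tw_ex (H.mor' g i)
  exact ⟨⟨g, y, hy⟩, rfl⟩

variable (H) in
/-- the scalar elements. -/
def sc (c : I → Fˣ) : Ex H :=
  ⟨1, fun i => (c i : F) • j i, fun i => by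
    rw [one_smul]
    refine ⟨Submodule.smul_mem _ _ (H.mor i).hj, smul_ne_zero (c i).ne_zero (H.mor i).j0, ?_, ?_⟩
    · change j i * _ = _
      rw [mul_smul_comm, (H.mor i).jj]
    · rw [smul_mul_assoc, (H.mor i).jj]⟩

theorem eq_sc (a : Ex H) (h : a.g = 1) : ∃ c, a = sc H c := by
  have : ∀ i, ∃ c : Fˣ, a.y i = (c : F) • j i := by
    intro i
    have h1 := a.hy i
    rw [h, one_smul] at h1
    obtain ⟨c, hc, h2⟩ := (H.mor i).tw_line (H.mor i)
      ⟨(H.mor i).hj, (H.mor i).j0, (H.mor i).jj, (H.mor i).jj⟩ h1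
    exact ⟨Units.mk0 c hc, h2⟩
  choose c hc using this
  exact ⟨c, Ex.ext h (funext hc)⟩

theorem pr_mul (a b : Ex H) : pr (a * b).y = a.g.1 (pr b.y) * pr a.y := by
  rw [pr_map, ← pr_perm (MulAction.toPerm b.g) a.y,
    ← H.cm.pr_mul (MulAction.toPerm (a.g * b.g))]
  · rfl
  · intro i
    have := H.map a.g _ _ (b.hy i).1
    rwa [← mul_smul] at this
  · intro i
    have := (a.hy (b.g • i)).1
    rwa [← mul_smul] at this

theorem pr_tw (a : Ex H) : Tw (BB B) (a.g.1 (pr j)) (pr j) (pr a.y) := by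
  refine ⟨pr_mem (π := MulAction.toPerm a.g) fun i => (a.hy i).1, fun h0 => H.morB.j0 ?_, ?_, ?_⟩
  · have := pr_mul a a⁻¹
    rw [mul_inv_cancel, h0, mul_zero] at this
    exact this
  · have := pr_mul a 1
    rw [mul_one] at this
    exact this.symm
  · have := pr_mul 1 a
    rw [one_mul] at this
    exact this.symm

theorem pr_sc (c : I → Fˣ) : pr (sc H c).y = ((∏ i, c i : Fˣ) : F) • pr j := by
  rw [Units.coe_prod]
  exact pr_smul _ fun i k h => H.cm i k h _ (H.mor i).hj _ (H.mor k).hj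

theorem pr_mul_sc (a : Ex H) (ha : Lin F a.g.1) (c : I → Fˣ) :
    pr (a * sc H c).y = ((∏ i, c i : Fˣ) : F) • pr a.y := by
  rw [pr_mul, pr_sc, ha, smul_mul_assoc, a.pr_tw.2.2.1]

theorem big_ex (a : Ex H) (ha : Lin F a.g.1) : ∃ w, Im (BB B) a.g.1 w ∧ w * pr j = pr a.y :=
  H.morB.im_ex ha (H.map_BB _) (H.inv_BB _) a.pr_tw

theorem conj_g (d a : Ex H) : (d * a * d⁻¹).g.1 = d.g.1 * a.g.1 * d.g.1⁻¹ := by
  rw [mul_g, mul_g, inv_g]; rfl

theorem big_nat (d a : Ex H) (hl : Lin F (d * a * d⁻¹).g.1) {w : A} (hw : Im (BB B) a.g.1 w)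
    (h : w * pr j = pr a.y) : d.g.1 w * pr j = pr (d * a * d⁻¹).y := by
  obtain ⟨v, hv, h1⟩ := (d * a * d⁻¹).big_ex hl
  rw [conj_g] at hv
  rw [← h1, H.morB.im_nat hw d.g.1 (H.map_BB _) (H.inv_BB _) d.pr_tw hv]
  rw [h1, h, ← pr_mul, ← conj_g, ← pr_mul, inv_mul_cancel_right]

theorem loc_nat (d a : Ex H) (hl : Lin F (d * a * d⁻¹).g.1) {i : I} (hi : a.g • i = i) {w : A}
    (hw : Im (B i) a.g.1 w) (h : w * j i = a.y i) :
    d.g.1 w * j (d.g • i) = (d * a * d⁻¹).y (d.g • i) := by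
  have hf : (d * a * d⁻¹).g • d.g • i = d.g • i := by
    rw [mul_g, mul_g, inv_g, mul_smul, inv_smul_smul, mul_smul, hi]
  have ht := (d * a * d⁻¹).hy (d.g • i)
  have m1 := H.map (d * a * d⁻¹).g (d.g • i)
  have m2 := H.inv_map (d * a * d⁻¹).g (d.g • i)
  rw [hf] at ht m1 m2
  obtain ⟨v, hv, h1⟩ := (H.mor _).im_ex hl m1 m2 ht
  rw [conj_g] at hv
  rw [← h1, (H.mor _).im_nat hw d.g.1 (H.map _ _) (H.inv_map _ _) (d.hy i) hv]
  rw [h1, h, ← conj_g, ← mul_y, inv_mul_cancel_right, mul_y, hi]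

end Ex

end Pool.Agent.Lib.MP_1ae3da_al.CT.Q
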