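import Mathlib

/-! An abstract transfer lemma: equivariant characters of point stabilisers multiply to a
natural character of the acting group. -/

namespace Pool.Agent.Lib.MP_1ae3da_al.CT.Q

section
variable {D I C : Type*} [Group D] [MulAction D I] [CommGroup C]

/-- `c` is a cocycle of the action groupoid of `D0` extending the characters `χ i`. -/
def TrGood (D0 : Subgroup D) (χ : I → D → C) (c : D → I → C) : Prop :=
  (∀ x ∈ D0, ∀ y ∈ D0, ∀ i, c (x * y) i = c x (y • i) * c y i) ∧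
    ∀ x ∈ D0, ∀ i, x • i = i → c x i = χ i x

theorem tr_base (D0 : Subgroup D) : ∃ (b : I → I) (t : I → D), (∀ i, t i ∈ D0) ∧
    (∀ i, t i • b i = i) ∧ ∀ x ∈ D0, ∀ i, b (x • i) = b i := by
  have h : ∀ i : I, ∃ t ∈ D0,
      t • (Quotient.mk (MulAction.orbitRel D0 I) i).out = i := by
    intro i
    have := Quotient.mk_out (s := MulAction.orbitRel D0 I) i
    obtain ⟨g, hg⟩ := (MulAction.orbitRel D0 I).symm this
    exact ⟨g, g.2, hg⟩
  choose t ht0 ht using h
  refine ⟨_, t, ht0, ht, fun x hx i => ?_⟩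
  congr 1
  exact Quotient.sound ⟨⟨x, hx⟩, rfl⟩

theorem tr_good (D0 : Subgroup D) (χ : I → D → C)
    (hmul : ∀ i, ∀ x ∈ D0, ∀ y ∈ D0, x • i = i → y • i = i → χ i (x * y) = χ i x * χ i y)
    (hnat : ∀ d ∈ D0, ∀ i, ∀ x ∈ D0, x • i = i → χ (d • i) (d * x * d⁻¹) = χ i x) :
    ∃ c, TrGood D0 χ c := by
  obtain ⟨b, t, ht0, ht, hb⟩ := tr_base (I := I) D0
  have hl : ∀ x ∈ D0, ∀ i, ((t (x • i))⁻¹ * x * t i) • b i = b i := by
    intro x hx i
    rw [mul_smul, mul_smul, ht, inv_smul_eq_iff, ← hb x hx i, ht]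
  have hm : ∀ x ∈ D0, ∀ i, (t (x • i))⁻¹ * x * t i ∈ D0 := fun x hx i =>
    mul_mem (mul_mem (inv_mem (ht0 _)) hx) (ht0 _)
  refine ⟨fun x i => χ (b i) ((t (x • i))⁻¹ * x * t i), fun x hx y hy i => ?_,
    fun x hx i hi => ?_⟩
  · have h1 := hl x hx (y • i)
    rw [hb y hy] at h1
    simp only [hb y hy]
    rw [← hmul _ _ (hm x hx _) _ (hm y hy _) h1 (hl y hy i), mul_smul]
    congr 1
    group
  · have h1 := hnat (t i) (ht0 i) (b i) _ (hm x hx i) (hl x hx i)
    rw [ht, hi] at h1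
    simp only [hi]
    rw [← h1]
    congr 1
    group

theorem tr_uniq [Fintype I] (D0 : Subgroup D) (χ : I → D → C) {c c' : D → I → C}
    (h : TrGood D0 χ c) (h' : TrGood D0 χ c') (x : D) (hx : x ∈ D0) :
    ∏ i, c x i = ∏ i, c' x i := by
  obtain ⟨b, t, ht0, ht, hb⟩ := tr_base (I := I) D0
  have key : ∀ i, c x i / c' x i
      = (c (t (x • i)) (b (x • i)) / c' (t (x • i)) (b (x • i)))
        / (c (t i) (b i) / c' (t i) (b i)) := by
    intro i
    have hl : ((t (x • i))⁻¹ * x * t i) • b i = b i := by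
      rw [mul_smul, mul_smul, ht, inv_smul_eq_iff, ← hb x hx i, ht]
    have hm : (t (x • i))⁻¹ * x * t i ∈ D0 := mul_mem (mul_mem (inv_mem (ht0 _)) hx) (ht0 _)
    have e : x * t i = t (x • i) * ((t (x • i))⁻¹ * x * t i) := by group
    have a1 := h.1 x hx _ (ht0 i) (b i)
    have a2 := h'.1 x hx _ (ht0 i) (b i)
    have a3 := h.1 _ (ht0 (x • i)) _ hm (b i)
    have a4 := h'.1 _ (ht0 (x • i)) _ hm (b i)
    rw [← e, hl, h.2 _ hm _ hl, a1, ht] at a3
    rw [← e, hl, h'.2 _ hm _ hl, a2, ht] at a4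
    rw [hb x hx, eq_div_iff_mul_eq', div_mul_div_comm, a3, a4, mul_div_mul_right_eq_div]
  rw [← div_eq_one, ← Finset.prod_div_distrib, Finset.prod_congr rfl fun i _ => key i,
    Finset.prod_div_distrib, div_eq_one]
  exact Equiv.prod_comp (MulAction.toPerm x) fun i => c (t i) (b i) / c' (t i) (b i)

/-- The transfer of an equivariant family of characters of the point stabilisers. -/
theorem tr_exists [Fintype I] (D0 : Subgroup D) [hn : D0.Normal] (σ : D → MulAut C)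
    (hσ : ∀ d ∈ D0, σ d = 1) (χ : I → D → C)
    (hmul : ∀ i, ∀ x ∈ D0, ∀ y ∈ D0, x • i = i → y • i = i → χ i (x * y) = χ i x * χ i y)
    (hnat : ∀ d i, ∀ x ∈ D0, x • i = i → χ (d • i) (d * x * d⁻¹) = σ d (χ i x)) :
    ∃ T : D → C, (∀ x ∈ D0, ∀ y ∈ D0, T (x * y) = T x * T y) ∧
      (∀ x ∈ D0, (∀ i : I, x • i = i) → T x = ∏ i, χ i x) ∧
      ∀ d, ∀ x ∈ D0, T (d * x * d⁻¹) = σ d (T x) := by
  obtain ⟨c, hc⟩ := tr_good D0 χ hmul fun d hd i x hx hi => by
    rw [hnat d i x hx hi, hσ d hd]; rfl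
  refine ⟨fun x => ∏ i, c x i, fun x hx y hy => ?_, fun x hx hi => ?_, fun d x hx => ?_⟩
  · simp only [hc.1 x hx y hy, Finset.prod_mul_distrib]
    congr 1
    exact Equiv.prod_comp (MulAction.toPerm y) fun i => c x i
  · exact Finset.prod_congr rfl fun i _ => hc.2 x hx i (hi i)
  · have hg : TrGood D0 χ fun x i => (σ d)⁻¹ (c (d * x * d⁻¹) (d • i)) := by
      refine ⟨fun x hx y hy i => ?_, fun x hx i hi => ?_⟩
      · have e : d * (x * y) * d⁻¹ = d * x * d⁻¹ * (d * y * d⁻¹) := by group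
        simp only
        rw [e, hc.1 _ (hn.conj_mem x hx d) _ (hn.conj_mem y hy d), map_mul]
        simp [mul_smul]
      · simp only
        rw [hc.2 _ (hn.conj_mem x hx d) _ (by simp [mul_smul, hi]), hnat d i x hx hi]
        simp
    simp only
    rw [tr_uniq D0 χ hc hg x hx, ← map_prod]
    simp only [MulAut.apply_inv_self]
    exact (Equiv.prod_comp (MulAction.toPerm d) fun i => c (d * x * d⁻¹) i).symm

end

end Pool.Agent.Lib.MP_1ae3da_al.CT.Q
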