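import Pool.Agent.Lib.MP_1ae3da_al.C.QE
import Pool.Agent.Lib.MP_1ae3da_al.C.QTr

/-! The tensor product of an equivariant family of links. -/

namespace Pool.Agent.Lib.MP_1ae3da_al.CT.Q

variable {F A I : Type} [Field F] [Ring A] [Algebra F A] [Fintype I] {Γ : Subgroup (RingAut A)}
  [MulAction Γ I] {B B' : I → Submodule F A} {e j e' j' : I → A}

theorem qlk_lin_conj {g a : RingAut A} {σ : RingAut F} (hg : SL F σ g) (ha : Lin F a) :
    Lin F (g * a * g⁻¹) := by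
  intro c x
  obtain ⟨x, rfl⟩ := g.surjective x
  obtain ⟨c, rfl⟩ := σ.surjective c
  rw [← hg]
  change g (a (g.symm _)) = σ c • g (a (g.symm _))
  rw [g.symm_apply_apply, g.symm_apply_apply, ha, hg]

theorem qlk_lin_inv {a : RingAut A} (ha : Lin F a) : Lin F a⁻¹ := by
  intro c x
  apply a.injective
  rw [ha]
  change a (a.symm _) = c • a (a.symm _)
  rw [a.apply_symm_apply, a.apply_symm_apply]

/-- pairs of elements over the same automorphism. -/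
noncomputable def DD (H : Fam Γ B e j) (H' : Fam Γ B' e' j') : Subgroup (Ex H × Ex H') :=
  ((Ex.π H).comp (MonoidHom.fst _ _)).eqLocus ((Ex.π H').comp (MonoidHom.snd _ _))

variable {H : Fam Γ B e j} {H' : Fam Γ B' e' j'}

theorem DD.eq (x : DD H H') : x.1.2.g = x.1.1.g := (show x.1.1.g = x.1.2.g from x.2).symm

noncomputable instance : MulAction (DD H H') I :=
  MulAction.compHom I (((Ex.π H).comp (MonoidHom.fst _ _)).comp (DD H H').subtype)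

theorem DD.smul (x : DD H H') (i : I) : x • i = x.1.1.g • i := rfl

variable (H H') in
/-- the linear pairs. -/
noncomputable def D0 : Subgroup (DD H H') where
  carrier := {x | Lin F x.1.1.g.1}
  one_mem' := fun _ _ => rfl
  mul_mem' := fun {a b} ha hb c x => by
    change a.1.1.g.1 (b.1.1.g.1 _) = c • a.1.1.g.1 (b.1.1.g.1 _)
    rw [hb, ha]
  inv_mem' := fun {a} ha => by
    change Lin F (a.1.1⁻¹).g.1
    rw [Ex.inv_g]
    exact qlk_lin_inv ha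

instance : (D0 H H').Normal where
  conj_mem x hx d := by
    obtain ⟨σ, hσ⟩ := H.semi d.1.1.g
    change Lin F (d.1.1 * x.1.1 * d.1.1⁻¹).g.1
    rw [Ex.conj_g]
    exact qlk_lin_conj hσ hx

variable (H H') in
/-- the scalar pairs. -/
noncomputable def scc (c c' : I → Fˣ) : DD H H' := ⟨(Ex.sc H c, Ex.sc H' c'), rfl⟩

theorem scc_mem (c c' : I → Fˣ) : scc H H' c c' ∈ D0 H H' := fun _ _ => rfl

/-- the discrepancy of `x` at the fixed point `i` is `c`. -/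
def Rel (U : I → RingAut A → A → A → Prop) (i : I) (x : DD H H') (c : Fˣ) : Prop :=
  ∃ w w', U i x.1.1.g.1 w w' ∧ w * j i = x.1.1.y i ∧ w' * j' i = (c : F) • x.1.2.y i

variable {U : I → RingAut A → A → A → Prop}

theorem rel_ex (hU : ∀ i, PL (B i) (B' i) (U i))
    (tot : ∀ (a : Γ) (i : I), Lin F a.1 → a • i = i → ∃ w w', U i a.1 w w') (i : I)
    {x : DD H H'} (hx : x ∈ D0 H H') (hi : x • i = i) : ∃ c, Rel U i x c := by
  obtain ⟨w, w', h⟩ := tot x.1.1.g i hx hi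
  have t1 := x.1.1.hy i
  have t2 := x.1.2.hy i
  have m1 := H.mor' x.1.1.g i
  have m2 := H'.mor' x.1.1.g i
  rw [DD.eq] at t2
  rw [DD.smul] at hi
  rw [hi] at t1 t2 m1 m2
  obtain ⟨s, hs, h1⟩ := (H.mor i).tw_line m1 ((H.mor i).im_tw ((hU i).int _ _ _ h).1) t1
  have h' := (hU i).smul _ _ _ s hs h
  obtain ⟨c, hc, h2⟩ := (H'.mor i).tw_line m2 t2 ((H'.mor i).im_tw ((hU i).int _ _ _ h').2)
  exact ⟨Units.mk0 c hc, _, _, h', by rw [smul_mul_assoc, h1], h2⟩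

theorem rel_eq (hU : ∀ i, PL (B i) (B' i) (U i)) {i : I} {x : DD H H'} {c c' : Fˣ}
    (h : Rel U i x c) (h' : Rel U i x c') : c = c' := by
  obtain ⟨w, w', h1, h2, h3⟩ := h
  obtain ⟨v, v', k1, k2, k3⟩ := h'
  obtain rfl : w = v := (H.mor i).im_eq ((hU i).int _ _ _ h1).1 ((hU i).int _ _ _ k1).1
    (H.mor i).hj (H.mor i).j0 (h2.trans k2.symm)
  obtain rfl := (hU i).fn _ _ _ _ h1 k1
  exact Units.ext (smul_left_injective F (x.1.2.hy i).2.1 (h3.symm.trans k3))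

theorem rel_mul (hU : ∀ i, PL (B i) (B' i) (U i)) {i : I} {x y : DD H H'} (hx : x ∈ D0 H H')
    (hy : y • i = i) {c c' : Fˣ} (h : Rel U i x c) (h' : Rel U i y c') :
    Rel U i (x * y) (c * c') := by
  obtain ⟨w, w', h1, h2, h3⟩ := h
  obtain ⟨v, v', k1, k2, k3⟩ := h'
  rw [DD.smul] at hy
  have m1 := H.map y.1.1.g i
  have m2 := H'.map y.1.1.g i
  rw [hy] at m1 m2
  refine ⟨_, _, (hU i).mul _ _ _ _ _ _ h1 k1, ?_, ?_⟩
  · rw [((H.mor i).im_mul ((hU i).int _ _ _ h1).1 ((hU i).int _ _ _ k1).1 m1).2, h2, k2]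
    change _ = x.1.1.g.1 (y.1.1.y i) * x.1.1.y (y.1.1.g • i)
    rw [hy]
  · rw [((H'.mor i).im_mul ((hU i).int _ _ _ h1).2 ((hU i).int _ _ _ k1).2 m2).2, h3, k3, hx]
    change _ = _ • (x.1.2.g.1 (y.1.2.y i) * x.1.2.y (y.1.2.g • i))
    rw [DD.eq, DD.eq, hy, smul_mul_smul_comm, Units.val_mul, mul_comm]

theorem rel_nat (hU : ∀ i, PL (B i) (B' i) (U i))
    (nat : ∀ (g : Γ) (i : I) a w w', U i a w w' →
      U (g • i) (g.1 * a * g.1⁻¹) (g.1 w) (g.1 w'))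
    {i : I} {x : DD H H'} (hx : x ∈ D0 H H') (hi : x • i = i) {c : Fˣ} (h : Rel U i x c)
    (d : DD H H') {σ : RingAut F} (hσ : SL F σ d.1.1.g.1) :
    Rel U (d • i) (d * x * d⁻¹) (Units.mapEquiv σ.toMulEquiv c) := by
  obtain ⟨w, w', h1, h2, h3⟩ := h
  have hl : Lin F (d.1.1 * x.1.1 * d.1.1⁻¹).g.1 :=
    (inferInstance : (D0 H H').Normal).conj_mem x hx d
  have hl' : Lin F (d.1.2 * x.1.2 * d.1.2⁻¹).g.1 := by
    rw [Ex.conj_g, DD.eq, DD.eq, ← Ex.conj_g]; exact hl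
  refine ⟨d.1.1.g.1 w, d.1.1.g.1 w', ?_, ?_, ?_⟩
  · have := nat d.1.1.g i _ _ _ h1
    rwa [← Ex.conj_g] at this
  · exact Ex.loc_nat d.1.1 x.1.1 hl hi ((hU i).int _ _ _ h1).1 h2
  · have i2 := ((hU i).int _ _ _ h1).2.smul (c⁻¹).ne_zero
    rw [← DD.eq] at i2
    have := Ex.loc_nat d.1.2 x.1.2 hl' (by rw [DD.eq]; exact hi) i2
      (by rw [smul_mul_assoc, h3, smul_smul, Units.inv_mul, one_smul])
    rw [DD.eq, hσ, smul_mul_assoc] at this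
    change _ = σ c • (d.1.2 * x.1.2 * d.1.2⁻¹).y (d.1.1.g • i)
    rw [← this, smul_smul, ← map_mul, Units.mul_inv, map_one, one_smul]
    rfl

theorem rel_scc (hU : ∀ i, PL (B i) (B' i) (U i)) (one : ∀ i, U i 1 (e i) (e' i))
    (c c' : I → Fˣ) (i : I) : Rel U i (scc H H' c c') (c i / c' i) := by
  refine ⟨_, _, (hU i).smul _ _ _ _ (c i).ne_zero (one i), ?_, ?_⟩
  · rw [smul_mul_assoc, (H.mor i).el _ (H.mor i).hj]; rfl
  · rw [smul_mul_assoc, (H'.mor i).el _ (H'.mor i).hj]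
    change _ = _ • (c' i : F) • j' i
    rw [smul_smul, ← Units.val_mul, div_mul_cancel]

variable (H H') in
theorem exists_T (hU : ∀ i, PL (B i) (B' i) (U i))
    (tot : ∀ (a : Γ) (i : I), Lin F a.1 → a • i = i → ∃ w w', U i a.1 w w')
    (nat : ∀ (g : Γ) (i : I) a w w', U i a w w' →
      U (g • i) (g.1 * a * g.1⁻¹) (g.1 w) (g.1 w')) :
    ∃ T : DD H H' → Fˣ, (∀ x ∈ D0 H H', ∀ y ∈ D0 H H', T (x * y) = T x * T y) ∧
      (∀ x ∈ D0 H H', (∀ i : I, x • i = i) → ∀ c : I → Fˣ, (∀ i, Rel U i x (c i)) →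
        T x = ∏ i, c i) ∧
      ∀ d, ∀ x ∈ D0 H H', T x = 1 → T (d * x * d⁻¹) = 1 := by
  classical
  have hs : ∀ g : Γ, ∃ σ : RingAut F, SL F σ g.1 ∧ (Lin F g.1 → σ = 1) := by
    intro g
    by_cases h : Lin F g.1
    · exact ⟨1, h, fun _ => rfl⟩
    · obtain ⟨σ, hσ⟩ := H.semi g
      exact ⟨σ, hσ, fun h' => absurd h' h⟩
  choose s hs1 hs2 using hs
  have hχ : ∀ (i : I) (x : DD H H'), ∃ c : Fˣ, x ∈ D0 H H' → x • i = i → Rel U i x c := by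
    intro i x
    by_cases h : x ∈ D0 H H' ∧ x • i = i
    · obtain ⟨c, hc⟩ := rel_ex hU tot i h.1 h.2
      exact ⟨c, fun _ _ => hc⟩
    · exact ⟨1, fun h1 h2 => absurd ⟨h1, h2⟩ h⟩
  choose χ hχ using hχ
  obtain ⟨T, T1, T2, T3⟩ := tr_exists (D0 H H')
    (fun d => Units.mapEquiv (s d.1.1.g).toMulEquiv)
    (fun d hd => by rw [hs2 _ hd]; ext c; rfl) χ
    (fun i x hx y hy h1 h2 => rel_eq hU
      (hχ i _ (mul_mem hx hy) (by rw [mul_smul, h2, h1]))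
      (rel_mul hU hx h2 (hχ i x hx h1) (hχ i y hy h2)))
    (fun d i x hx h1 => rel_eq hU
      (hχ _ _ ((inferInstance : (D0 H H').Normal).conj_mem x hx d)
        (by rw [mul_smul, inv_smul_smul, mul_smul, h1]))
      (rel_nat hU nat hx h1 (hχ i x hx h1) d (hs1 _)))
  refine ⟨T, T1, fun x hx hi c hc => ?_, fun d x hx h => ?_⟩
  · rw [T2 x hx hi]
    exact Finset.prod_congr rfl fun i _ => rel_eq hU (hχ i x hx (hi i)) (hc i)
  · rw [T3 d x hx, h, map_one]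

theorem DD.surj (g : Γ) : ∃ x : DD H H', x.1.1.g = g := by
  obtain ⟨a, ha⟩ := Ex.surj H g
  obtain ⟨b, hb⟩ := Ex.surj H' g
  exact ⟨⟨(a, b), ha.trans hb.symm⟩, ha⟩

theorem tensor_link [Nonempty I] (H : Fam Γ B e j) (H' : Fam Γ B' e' j')
    (hU : ∀ i, PL (B i) (B' i) (U i))
    (tot : ∀ (a : Γ) (i : I), Lin F a.1 → a • i = i → ∃ w w', U i a.1 w w')
    (one : ∀ i, U i 1 (e i) (e' i))
    (nat : ∀ (g : Γ) (i : I) a w w', U i a w w' →
      U (g • i) (g.1 * a * g.1⁻¹) (g.1 w) (g.1 w')) :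
    ∃ V : RingAut A → A → A → Prop, PL (BB B) (BB B') V ∧
      (∀ a w w', V a w w' → a ∈ Γ ∧ Lin F a) ∧ (∀ a ∈ Γ, Lin F a → ∃ w w', V a w w') ∧
      (∀ g ∈ Γ, ∀ a w w', V a w w' → V (g * a * g⁻¹) (g w) (g w')) ∧
      ∀ a : Γ, Lin F a.1 → (∀ i : I, a • i = i) → ∀ w w' : I → A,
        (∀ i, U i a.1 (w i) (w' i)) → V a.1 (pr w) (pr w') := by
  classical
  obtain ⟨T, T1, T2, T3⟩ := exists_T H H' hU tot nat
  have Ts : ∀ c c', T (scc H H' c c') = (∏ i, c i) / ∏ i, c' i := fun c c' => by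
    rw [T2 _ (scc_mem c c') (fun i => one_smul Γ i) _ (rel_scc hU one c c'),
      Finset.prod_div_distrib]
  obtain ⟨i₀⟩ := (inferInstance : Nonempty I)
  have hp : ∀ c : Fˣ, ∏ i, (Pi.mulSingle i₀ c : I → Fˣ) i = c := fun c => by simp
  have lin2 : ∀ x ∈ D0 H H', Lin F x.1.2.g.1 := fun x hx => by rw [DD.eq]; exact hx
  refine ⟨fun a w w' => ∃ x ∈ D0 H H', x.1.1.g.1 = a ∧ T x = 1 ∧ Im (BB B) a w ∧
    w * pr j = pr x.1.1.y ∧ Im (BB B') a w' ∧ w' * pr j' = pr x.1.2.y,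
    ⟨?_, ?_, ?_, ?_⟩, ?_, ?_, ?_, ?_⟩
  · rintro a w w' ⟨x, -, -, -, h1, -, h2, -⟩
    exact ⟨h1, h2⟩
  · rintro _ w w' _ v v' ⟨x, hx, rfl, h0, h1, h2, h3, h4⟩ ⟨y, hy, rfl, k0, k1, k2, k3, k4⟩
    have a1 := H.morB.im_mul h1 k1 (H.map_BB _)
    have a2 := H'.morB.im_mul h3 k3 (H'.map_BB _)
    refine ⟨x * y, mul_mem hx hy, rfl, by rw [T1 x hx y hy, h0, k0, mul_one], a1.1, ?_, a2.1, ?_⟩
    · rw [a1.2, h2, k2]; exact (Ex.pr_mul _ _).symm
    · rw [a2.2, h4, k4, ← DD.eq]; exact (Ex.pr_mul _ _).symm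
  · rintro _ w w' c hc ⟨x, hx, rfl, h0, h1, h2, h3, h4⟩
    refine ⟨x * scc H H' (Pi.mulSingle i₀ (Units.mk0 c hc)) (Pi.mulSingle i₀ (Units.mk0 c hc)),
      mul_mem hx (scc_mem _ _), mul_one _, ?_, h1.smul hc, ?_, h3.smul hc, ?_⟩
    · rw [T1 x hx _ (scc_mem _ _), h0, Ts, div_self', mul_one]
    · rw [smul_mul_assoc, h2]
      exact ((Ex.pr_mul_sc _ hx _).trans (by rw [hp]; rfl)).symm
    · rw [smul_mul_assoc, h4]
      exact ((Ex.pr_mul_sc _ (lin2 x hx) _).trans (by rw [hp]; rfl)).symm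
  · rintro _ w w₁ w₂ ⟨x, hx, rfl, h0, -, h2, h3, h4⟩ ⟨y, hy, hxy, k0, -, k2, k3, k4⟩
    have g1 : (x⁻¹ * y).1.1.g = 1 := by
      change (x.1.1⁻¹ * y.1.1).g = 1
      rw [Ex.mul_g, Ex.inv_g, Subtype.ext hxy, inv_mul_cancel]
    obtain ⟨c, hc⟩ := Ex.eq_sc _ g1
    obtain ⟨c', hc'⟩ := Ex.eq_sc _ ((DD.eq _).trans g1)
    have hz : x⁻¹ * y = scc H H' c c' := Subtype.ext (Prod.ext hc hc')
    obtain rfl : y = x * scc H H' c c' := by rw [← hz, mul_inv_cancel_left]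
    rw [T1 x hx _ (scc_mem _ _), h0, one_mul, Ts, div_eq_one] at k0
    have e1 : pr (x * scc H H' c c').1.1.y = _ := Ex.pr_mul_sc _ hx c
    have e2 : pr (x * scc H H' c c').1.2.y = _ := Ex.pr_mul_sc _ (lin2 x hx) c'
    have e3 : ((∏ i, c i : Fˣ) : F) = 1 := smul_left_injective F x.1.1.pr_tw.2.1
      (by simp only [one_smul]; rw [← e1, ← k2, h2])
    rw [← k0, e3, one_smul] at e2
    exact H'.morB.im_eq h3 k3 H'.morB.hj H'.morB.j0 (by rw [h4, k4, e2])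
  · rintro _ w w' ⟨x, hx, rfl, -⟩
    exact ⟨x.1.1.g.2, hx⟩
  · intro a ha hl
    obtain ⟨x, hx⟩ := DD.surj (H := H) (H' := H') ⟨a, ha⟩
    have hx0 : x ∈ D0 H H' := by
      change Lin F x.1.1.g.1
      rw [hx]; exact hl
    have hy := mul_mem hx0 (scc_mem (H := H) (H' := H') 1 (Pi.mulSingle i₀ (T x)))
    have hg : (x * scc H H' 1 (Pi.mulSingle i₀ (T x))).1.1.g.1 = a :=
      (mul_one _).trans (congrArg Subtype.val hx)
    obtain ⟨w, h1, h2⟩ := Ex.big_ex _ hy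
    obtain ⟨w', h3, h4⟩ := Ex.big_ex _ (lin2 _ hy)
    rw [DD.eq] at h3
    rw [hg] at h1 h3
    refine ⟨w, w', _, hy, hg, ?_, h1, h2, h3, h4⟩
    rw [T1 x hx0 _ (scc_mem _ _), Ts, hp]
    simp
  · rintro g hg _ w w' ⟨x, hx, rfl, h0, h1, h2, h3, h4⟩
    obtain ⟨d, hd⟩ := DD.surj (H := H) (H' := H') ⟨g, hg⟩
    obtain rfl : d.1.1.g.1 = g := congrArg Subtype.val hd
    have hn := (inferInstance : (D0 H H').Normal).conj_mem x hx d
    refine ⟨d * x * d⁻¹, hn, Ex.conj_g _ _, T3 d x hx h0,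
      h1.map _ (H.map_BB _) (H.inv_BB _), Ex.big_nat _ _ hn h1 h2,
      h3.map _ (H'.map_BB _) (H'.inv_BB _), ?_⟩
    rw [← DD.eq] at h3
    rw [← DD.eq]
    exact Ex.big_nat _ _ (lin2 _ hn) h3 h4
  · intro a hl hi w w' hw
    let x1 : Ex H := ⟨a, fun i => w i * j i, fun i => by
      rw [hi]; exact (H.mor i).im_tw ((hU i).int _ _ _ (hw i)).1⟩
    let x2 : Ex H' := ⟨a, fun i => w' i * j' i, fun i => by
      rw [hi]; exact (H'.mor i).im_tw ((hU i).int _ _ _ (hw i)).2⟩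
    have e1 : pr w * pr j = pr x1.y := (H.cm.pr_mul 1
      (fun i => ((hU i).int _ _ _ (hw i)).1.1) fun i => (H.mor i).hj).symm
    have e2 : pr w' * pr j' = pr x2.y := (H'.cm.pr_mul 1
      (fun i => ((hU i).int _ _ _ (hw i)).2.1) fun i => (H'.mor i).hj).symm
    refine ⟨⟨(x1, x2), rfl⟩, hl, rfl, ?_, ?_, e1, ?_, e2⟩
    · rw [T2 _ hl hi 1 fun i => ⟨_, _, hw i, rfl, (one_smul _ _).symm⟩]
      simp
    · refine im_pr H.mor H.cm H.ne hl (fun i x hx => hi i ▸ H.map a i x hx)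
        (fun i => ((hU i).int _ _ _ (hw i)).1) fun h0 => x1.pr_tw.2.1 ?_
      rw [← e1, h0, zero_mul]
    · refine im_pr H'.mor H'.cm H'.ne hl (fun i x hx => hi i ▸ H'.map a i x hx)
        (fun i => ((hU i).int _ _ _ (hw i)).2) fun h0 => x2.pr_tw.2.1 ?_
      rw [← e2, h0, zero_mul]

end Pool.Agent.Lib.MP_1ae3da_al.CT.Q
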