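import Pool.Agent.Lib.MP_1ae3da_al.C.QDf

/-! Algebras with a full primitive idempotent: lines and implementing elements. -/

namespace Pool.Agent.Lib.MP_1ae3da_al.CT.Q

variable {F A : Type} [Field F] [Ring A] [Algebra F A] {B B₂ : Submodule F A} {e j k e₂ : A}

theorem Mor.qmo_sum (h : Mor B e j) : ∃ (n : ℕ) (p q : Fin n → A), (∀ i, p i ∈ B) ∧
    (∀ i, q i ∈ B) ∧ ∑ i, p i * j * q i = e := by
  obtain ⟨n, c, g, k⟩ := Submodule.mem_span_set'.1 h.full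
  choose p hp q hq e using fun i => (g i).2
  refine ⟨n, fun i => c i • p i, q, fun i => B.smul_mem _ (hp i), hq, ?_⟩
  rw [← k]
  exact Finset.sum_congr rfl fun i _ => by rw [e i, smul_mul_assoc, smul_mul_assoc]

theorem Mor.canl (h : Mor B e j) {x : A} (hx : x ∈ B) (h0 : ∀ b ∈ B, j * b * x = 0) :
    x = 0 := by
  obtain ⟨n, p, q, -, hq, k⟩ := h.qmo_sum
  rw [← h.el x hx, ← k, Finset.sum_mul]
  exact Finset.sum_eq_zero fun i _ => by
    rw [mul_assoc (p i), mul_assoc (p i), h0 _ (hq i), mul_zero]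

theorem Mor.canr (h : Mor B e j) {x : A} (hx : x ∈ B) (h0 : ∀ b ∈ B, x * b * j = 0) :
    x = 0 := by
  obtain ⟨n, p, q, hp, -, k⟩ := h.qmo_sum
  rw [← h.er x hx, ← k, Finset.mul_sum]
  exact Finset.sum_eq_zero fun i _ => by
    rw [← mul_assoc, ← mul_assoc, h0 _ (hp i), zero_mul]

/-- simplicity. -/
theorem Mor.can (h : Mor B e j) {x y : A} (hx : x ∈ B) (hy : y ∈ B) (hy0 : y ≠ 0)
    (h0 : ∀ b ∈ B, x * b * y = 0) : x = 0 := by
  have key : ∀ z ∈ B, z ≠ 0 → ∃ b ∈ B, ∃ b' ∈ B, ∃ c : F, c ≠ 0 ∧ j * b * z * b' * j = c • j := by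
    intro z hz z0
    obtain ⟨b, hb, k⟩ : ∃ b ∈ B, j * b * z ≠ 0 := by
      by_contra! k
      exact z0 (h.canl hz k)
    obtain ⟨b', hb', k'⟩ : ∃ b' ∈ B, j * b * z * b' * j ≠ 0 := by
      by_contra! k'
      exact k (h.canr (h.mul _ (h.mul _ h.hj _ hb) _ hz) k')
    obtain ⟨c, hc⟩ := h.prim _ (h.mul _ (h.mul _ hb _ hz) _ hb')
    rw [← mul_assoc, ← mul_assoc] at hc
    exact ⟨b, hb, b', hb', c, fun c0 => k' (by rw [hc, c0, zero_smul]), hc⟩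
  by_contra x0
  obtain ⟨b, -, b', hb', c, hc, k⟩ := key x hx x0
  obtain ⟨d, hd, d', -, c', hc', k'⟩ := key y hy hy0
  have z := h0 _ (h.mul _ (h.mul _ (h.mul _ hb' _ h.hj) _ h.hj) _ hd)
  have e1 : (j * b * x * b' * j) * (j * d * y * d' * j) =
      j * b * (x * (b' * j * j * d) * y) * (d' * j) := by simp only [mul_assoc]
  rw [z, mul_zero, zero_mul, k, k', smul_mul_assoc, mul_smul_comm, h.jj] at e1
  exact smul_ne_zero hc (smul_ne_zero hc' h.j0) e1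

theorem Mor.tw_ex (h : Mor B e j) (h' : Mor B e k) : ∃ y, Tw B k j y := by
  obtain ⟨b, hb, n⟩ : ∃ b ∈ B, k * b * j ≠ 0 := by
    by_contra! n
    exact h'.j0 (h.canr h'.hj n)
  exact ⟨k * b * j, h.mul _ (h.mul _ h'.hj _ hb) _ h.hj, n,
    by rw [← mul_assoc, ← mul_assoc, h'.jj], by rw [mul_assoc, h.jj]⟩

theorem Mor.tw_inv (h : Mor B e j) (h' : Mor B e k) {y : A} (hy : Tw B k j y) :
    ∃ x, Tw B j k x ∧ x * y = j ∧ y * x = k := by
  obtain ⟨m, y0, ky, yj⟩ := hy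
  obtain ⟨b, hb, n⟩ : ∃ b ∈ B, j * b * y ≠ 0 := by
    by_contra! n
    exact y0 (h.canl m n)
  obtain ⟨c, hc⟩ := h.prim _ (h.mul _ hb _ m)
  rw [mul_assoc, mul_assoc, yj, ← mul_assoc] at hc
  have c0 : c ≠ 0 := fun c0 => n (by rw [hc, c0, zero_smul])
  have mx : c⁻¹ • (j * b * k) ∈ B := B.smul_mem _ (h.mul _ (h.mul _ h.hj _ hb) _ h'.hj)
  have xy : c⁻¹ • (j * b * k) * y = j := by
    rw [smul_mul_assoc, mul_assoc, ky, hc, inv_smul_smul₀ c0]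
  have xk : c⁻¹ • (j * b * k) * k = c⁻¹ • (j * b * k) := by rw [smul_mul_assoc, mul_assoc, h'.jj]
  have jx : j * c⁻¹ • (j * b * k) = c⁻¹ • (j * b * k) := by
    rw [mul_smul_comm, ← mul_assoc, ← mul_assoc, h.jj]
  generalize c⁻¹ • (j * b * k) = x at mx xy xk jx
  obtain ⟨d, hd⟩ := h'.prim _ (h.mul _ m _ mx)
  rw [← mul_assoc, ky, mul_assoc, xk] at hd
  have d1 : d = 1 := smul_left_injective F y0 (show d • y = (1 : F) • y by
    rw [one_smul, ← ky, ← smul_mul_assoc, ← hd, ky, mul_assoc, xy, yj])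
  exact ⟨x, ⟨mx, fun x0 => h.j0 (by rw [← xy, x0, zero_mul]), jx, xk⟩, xy,
    by rw [hd, d1, one_smul]⟩

theorem Mor.tw_line (h : Mor B e j) (h' : Mor B e k) {y z : A} (hy : Tw B k j y)
    (hz : Tw B k j z) : ∃ c : F, c ≠ 0 ∧ z = c • y := by
  obtain ⟨x, hx, -, yx⟩ := h.tw_inv h' hy
  obtain ⟨c, hc⟩ := h.prim _ (h.mul _ hx.1 _ hz.1)
  rw [← mul_assoc, hx.2.2.1, mul_assoc, hz.2.2.2] at hc
  have e1 : z = c • y := by
    rw [← hz.2.2.1, ← yx, mul_assoc, hc, mul_smul_comm, hy.2.2.2]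
  exact ⟨c, fun c0 => hz.2.1 (by rw [e1, c0, zero_smul]), e1⟩

theorem Mor.one_eq (h : Mor B e j) (h' : Mor B e₂ k) : e = e₂ := by
  exact (h'.er e h.he).symm.trans (h.el e₂ h'.he)

theorem Mor.map (h : Mor B e j) (g : RingAut A) (σ : RingAut F)
    (hg : SL F σ g) (h1 : ∀ x ∈ B, g x ∈ B₂)
    (h2 : ∀ x ∈ B₂, g⁻¹ x ∈ B) : Mor B₂ (g e) (g j) := by
  have s : ∀ x ∈ B₂, ∃ y ∈ B, g y = x := fun x hx => ⟨_, h2 x hx, g.apply_symm_apply x⟩
  refine ⟨fun x hx y hy => ?_, h1 _ h.he, fun x hx => ?_, fun x hx => ?_, h1 _ h.hj,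
    by rw [← map_mul, h.jj], by simpa using h.j0, fun x hx => ?_, ?_⟩
  · obtain ⟨z, hz, rfl⟩ := s x hx
    obtain ⟨t, ht, rfl⟩ := s y hy
    rw [← map_mul]
    exact h1 _ (h.mul _ hz _ ht)
  · obtain ⟨z, hz, rfl⟩ := s x hx
    rw [← map_mul, h.el z hz]
  · obtain ⟨z, hz, rfl⟩ := s x hx
    rw [← map_mul, h.er z hz]
  · obtain ⟨z, hz, rfl⟩ := s x hx
    obtain ⟨c, hc⟩ := h.prim z hz
    exact ⟨σ c, by rw [← map_mul, ← map_mul, hc, hg]⟩
  · obtain ⟨n, p, q, hp, hq, k⟩ := h.qmo_sum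
    rw [← k, map_sum]
    exact Submodule.sum_mem _ fun i _ => Submodule.subset_span
      ⟨_, h1 _ (hp i), _, h1 _ (hq i), by rw [map_mul, map_mul]⟩

/-- Skolem-Noether. -/
theorem Mor.im_ex (h : Mor B e j) {a : RingAut A} (ha : Lin F a) (h1 : ∀ x ∈ B, a x ∈ B)
    (h2 : ∀ x ∈ B, a⁻¹ x ∈ B) {y : A} (hy : Tw B (a j) j y) : ∃ w, Im B a w ∧ w * j = y := by
  obtain ⟨m, y0, ky, yj⟩ := hy
  obtain ⟨n, p, q, hp, hq, k⟩ := h.qmo_sum
  have k1 : ∀ b ∈ B, y * b * j = a (j * b * j) * y := fun b hb => by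
    obtain ⟨c, hc⟩ := h.prim b hb
    rw [hc, ha, smul_mul_assoc, ky, ← yj, ← mul_smul_comm, ← hc]
    simp only [mul_assoc]
  have mw : ∑ i, a (p i) * y * q i ∈ B :=
    B.sum_mem fun i _ => h.mul _ (h.mul _ (h1 _ (hp i)) _ m) _ (hq i)
  have k2 : ∀ b ∈ B, (∑ i, a (p i) * y * q i) * b * j = a b * y := fun b hb => by
    have : ∀ i, a (p i) * y * q i * b * j = a (p i * j * q i * (b * j)) * y := fun i => by
      calc a (p i) * y * q i * b * j = a (p i) * (y * (q i * b) * j) := by simp only [mul_assoc]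
        _ = _ := by
          rw [k1 _ (h.mul _ (hq i) _ hb), ← mul_assoc, ← map_mul]
          simp only [mul_assoc]
    rw [Finset.sum_mul, Finset.sum_mul]
    simp only [this]
    rw [← Finset.sum_mul, ← map_sum, ← Finset.sum_mul, k, h.el _ (h.mul _ hb _ h.hj), map_mul,
      mul_assoc, ky]
  generalize ∑ i, a (p i) * y * q i = w at mw k2
  have wj : w * j = y := by
    have := k2 j h.hj
    rwa [mul_assoc, h.jj, ky] at this
  refine ⟨w, ⟨mw, fun w0 => y0 (by rw [← wj, w0, zero_mul]), fun x hx => ?_⟩, wj⟩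
  refine sub_eq_zero.1 (h.canr (B.sub_mem (h.mul _ mw _ hx) (h.mul _ (h1 x hx) _ mw))
    fun b hb => ?_)
  rw [sub_mul, sub_mul, mul_assoc w x, k2 _ (h.mul _ hx _ hb), mul_assoc (a x), mul_assoc (a x),
    k2 b hb, map_mul, mul_assoc, sub_self]

theorem Mor.im_eq (h : Mor B e j) {a : RingAut A} {w v y : A} (hw : Im B a w) (hv : Im B a v)
    (hy : y ∈ B) (hy0 : y ≠ 0) (hh : w * y = v * y) : w = v := by
  refine sub_eq_zero.1 (h.can (B.sub_mem hw.1 hv.1) hy hy0 fun b hb => ?_)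
  rw [sub_mul, sub_mul, hw.2.2 b hb, hv.2.2 b hb, mul_assoc, mul_assoc, hh, sub_self]

theorem Mor.im_tw (h : Mor B e j) {a : RingAut A} {w : A} (hw : Im B a w) :
    Tw B (a j) j (w * j) := by
  refine ⟨h.mul _ hw.1 _ h.hj, fun n => hw.2.1 (h.canr hw.1 fun b hb => ?_), ?_,
    by rw [mul_assoc, h.jj]⟩
  · rw [hw.2.2 b hb, mul_assoc, n, mul_zero]
  · rw [← mul_assoc, ← hw.2.2 j h.hj, mul_assoc, h.jj]

theorem Mor.im_mul (h : Mor B e j) {a b : RingAut A} {w v : A} (hw : Im B a w)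
    (hv : Im B b v) (hb : ∀ x ∈ B, b x ∈ B) :
    Im B (a * b) (w * v) ∧ w * v * j = a (v * j) * (w * j) := by
  refine ⟨⟨h.mul _ hw.1 _ hv.1, fun n => hw.2.1 (h.can hw.1 hv.1 hv.2.1 fun x hx => ?_),
    fun x hx => ?_⟩, ?_⟩
  · rw [hw.2.2 x hx, mul_assoc, n, mul_zero]
  · rw [mul_assoc, hv.2.2 x hx, ← mul_assoc, hw.2.2 _ (hb x hx), mul_assoc]
    rfl
  · rw [← mul_assoc (a _), ← hw.2.2 _ (h.mul _ hv.1 _ h.hj), mul_assoc w (v * j), mul_assoc v,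
      h.jj, mul_assoc]

theorem Im.smul {a : RingAut A} {w : A} (hw : Im B a w) {c : F} (hc : c ≠ 0) :
    Im B a (c • w) := by
  exact ⟨B.smul_mem c hw.1, smul_ne_zero hc hw.2.1,
    fun x hx => by rw [smul_mul_assoc, hw.2.2 x hx, mul_smul_comm]⟩

theorem Im.map {a : RingAut A} {w : A} (hw : Im B a w) (g : RingAut A)
    (h1 : ∀ x ∈ B, g x ∈ B₂) (h2 : ∀ x ∈ B₂, g⁻¹ x ∈ B) : Im B₂ (g * a * g⁻¹) (g w) := by
  refine ⟨h1 w hw.1, by simpa using hw.2.1, fun x hx => ?_⟩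
  have k := congrArg g (hw.2.2 _ (h2 x hx))
  rwa [map_mul, map_mul, show g (g⁻¹ x) = x from g.apply_symm_apply x] at k

/-- naturality of the implementing element with prescribed value on the idempotent. -/
theorem Mor.im_nat (h₂ : Mor B₂ e₂ k) {a : RingAut A} {w v t : A} (hw : Im B a w)
    (g : RingAut A) (h1 : ∀ x ∈ B, g x ∈ B₂) (h2 : ∀ x ∈ B₂, g⁻¹ x ∈ B)
    (ht : Tw B₂ (g j) k t) (hv : Im B₂ (g * a * g⁻¹) v)
    (hh : (g * a * g⁻¹) t * (v * k) = g (w * j) * t) : v = g w := by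
  refine h₂.im_eq hv (hw.map g h1 h2) ht.1 ht.2.1 ?_
  rwa [← mul_assoc, ← hv.2.2 t ht.1, mul_assoc, ht.2.2.2, map_mul, mul_assoc, ht.2.2.1] at hh

end Pool.Agent.Lib.MP_1ae3da_al.CT.Q
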