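import Pool.Agent.Lib.MP_1ae3da_al.C.TClA
import Pool.Agent.Lib.MP_1ae3da_al.C.THm
import Pool.Agent.Lib.MP_1ae3da_al.C.TDg
import Pool.Agent.Lib.MP_1ae3da_al.C.TWed

/-! Tensor products: two commuting factors. -/

namespace Pool.Agent.Lib.MP_1ae3da_al.CT

open Submodule

variable {F A G : Type} [Field F] [Ring A] [Algebra F A] [Group G] {u : G → A}
  {H K : Subgroup G}

/-- a perfect subgroup commutes with its centraliser also in the twisted algebra -/
theorem ten_comm (hu : TG F u) (hH : commutator H = ⊤) {y : G} (hy : ∀ x ∈ H, x * y = y * x) :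
    ∀ x ∈ H, u x * u y = u y * u x := by
  have ex (x : H) : ∃ c : Fˣ, u x * u y = (c : F) • (u y * u x) := by
    obtain ⟨a, a0, ha⟩ := hu.mul x y
    obtain ⟨b, b0, hb⟩ := hu.mul y x
    refine ⟨Units.mk0 (a / b) (div_ne_zero a0 b0), ?_⟩
    rw [ha, hb, smul_smul, hy x x.2, Units.val_mk0, div_mul_cancel₀ _ b0]
  choose c hc using ex
  have ne (x : G) : u y * u x ≠ 0 := hu.Hm_ne (hu.Hm_mul (H := ⊤) (mem_Hm trivial) (mem_Hm trivial))
  have mul (x x' : H) : c (x * x') = c x * c x' := by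
    obtain ⟨a, a0, ha⟩ := hu.mul x x'
    have e : a • (u (x * x' : H) * u y) =
        a • (((c x * c x' : Fˣ) : F) • (u y * u (x * x' : H))) := by
      rw [← smul_mul_assoc, Subgroup.coe_mul, ← ha, mul_assoc, hc x', mul_smul_comm, ← mul_assoc,
        hc x, smul_mul_assoc, smul_smul, mul_assoc, ha, mul_smul_comm, smul_comm, mul_comm,
        Units.val_mul]
    have e' := smul_right_injective A a0 e
    rw [hc] at e'
    exact Units.ext (smul_left_injective F (ne _) e')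
  intro x hx
  have k : commutator H ≤ (MonoidHom.mk' c mul).ker := Abelianization.commutator_subset_ker _
  have : c ⟨x, hx⟩ = 1 := k (hH ▸ Subgroup.mem_top _)
  rw [hc ⟨x, hx⟩, this, Units.val_one, one_smul]

variable (F) in
/-- two independent subgroups that commute in the twisted algebra -/
structure Ten (u : G → A) (H K : Subgroup G) : Prop where
  tg : TG F u
  dis : Disjoint H K
  com : ∀ x ∈ H, ∀ y ∈ K, u x * u y = u y * u x

theorem Ten.symm (h : Ten F u H K) : Ten F u K H :=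
  ⟨h.tg, h.dis.symm, fun y hy x hx => (h.com x hx y hy).symm⟩

theorem Ten.comm (h : Ten F u H K) {a b : A} (ha : a ∈ span F (Hm F u H))
    (hb : b ∈ span F (Hm F u K)) : a * b = b * a :=
  tcl_comm (tcl_commH fun y hy =>
    (tcl_comm (tcl_commH fun x hx => (h.com x hx y hy).symm) ha).symm) hb

theorem Ten.gcomm (h : Ten F u H K) (x : H) (y : K) : Commute (H.subtype x) (K.subtype y) := by
  obtain ⟨a, a0, ha⟩ := h.tg.mul x y
  obtain ⟨b, -, hb⟩ := h.tg.mul y x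
  exact (h.tg.eq_of a0 (ha.symm.trans ((h.com x x.2 y y.2).trans hb))).1

/-- the multiplication map -/
def Ten.hom (h : Ten F u H K) : H × K →* G := H.subtype.noncommCoprod K.subtype h.gcomm

theorem Ten.hom_inj (h : Ten F u H K) : Function.Injective h.hom :=
  (MonoidHom.noncommCoprod_injective _ _ _).2
    ⟨H.subtype_injective, K.subtype_injective, by simpa using h.dis⟩

theorem Ten.hom_range (h : Ten F u H K) : h.hom.range = H ⊔ K := by
  rw [Ten.hom, MonoidHom.noncommCoprod_range]; simp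

theorem Ten.card (h : Ten F u H K) : Nat.card ↥(H ⊔ K) = Nat.card H * Nat.card K := by
  rw [← h.hom_range, ← Nat.card_prod]
  exact (Nat.card_congr (MonoidHom.ofInjective h.hom_inj).toEquiv).symm

theorem Ten.mul_mem (h : Ten F u H K) {a b : A} (ha : a ∈ span F (Hm F u H))
    (hb : b ∈ span F (Hm F u K)) : a * b ∈ span F (Hm F u (H ⊔ K)) :=
  tcl_mul h.tg (tcl_mono le_sup_left ha) (tcl_mono le_sup_right hb)

theorem Ten.le (h : Ten F u H K) {N : Submodule F A} (k : ∀ x ∈ H, ∀ y ∈ K, u x * u y ∈ N) :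
    span F (Hm F u (H ⊔ K)) ≤ N := tcl_le fun g hg => by
  obtain ⟨⟨x, y⟩, rfl⟩ : g ∈ h.hom.range := h.hom_range ▸ hg
  obtain ⟨c, c0, hc⟩ := h.tg.mul x y
  have := N.smul_mem c⁻¹ (k x x.2 y y.2)
  rwa [hc, inv_smul_smul₀ c0] at this

theorem Ten.ext (h : Ten F u H K) {M : Type} [AddCommGroup M] [Module F M] (f g : A →ₗ[F] M)
    (k : ∀ x ∈ H, ∀ y ∈ K, f (u x * u y) = g (u x * u y)) {w : A}
    (hw : w ∈ span F (Hm F u (H ⊔ K))) : f w = g w :=
  h.le (N := LinearMap.eqLocus f g) k hw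

theorem ten_bil {M : Type} [AddCommGroup M] [Module F M] (β β' : A →ₗ[F] A →ₗ[F] M)
    (k : ∀ x ∈ H, ∀ y ∈ K, β (u x) (u y) = β' (u x) (u y)) {a b : A}
    (ha : a ∈ span F (Hm F u H)) (hb : b ∈ span F (Hm F u K)) : β a b = β' a b :=
  tcl_eq (β.flip b) (β'.flip b) (fun x hx => tcl_eq (β (u x)) (β' (u x)) (k x hx) hb) ha

/-- the universal property of the tensor product -/
theorem Ten.lift (h : Ten F u H K) {M : Type} [AddCommGroup M] [Module F M]
    (β : A →ₗ[F] A →ₗ[F] M) : ∃ π : A →ₗ[F] M, ∀ a ∈ span F (Hm F u H),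
      ∀ b ∈ span F (Hm F u K), π (a * b) = β a b := by
  choose c c0 hc using h.tg.mul
  have li : LinearIndependent F (u ∘ h.hom) := h.tg.ind.comp _ h.hom_inj
  obtain ⟨π, hπ⟩ := ((Module.Basis.span li).constr F
    fun p : H × K => (c p.1 p.2)⁻¹ • β (u p.1) (u p.2)).exists_extend
  refine ⟨π, fun a ha b hb => ten_bil ((LinearMap.mul F A).compr₂ π) β (fun x hx y hy => ?_) ha hb⟩
  have e := LinearMap.congr_fun hπ (Module.Basis.span li (⟨x, hx⟩, ⟨y, hy⟩))
  rw [Module.Basis.constr_basis, LinearMap.comp_apply, subtype_apply,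
    Module.Basis.span_apply] at e
  change π (u (x * y)) = (c x y)⁻¹ • β (u x) (u y) at e
  change π (u x * u y) = _
  rw [hc, map_smul, e, smul_inv_smul₀ (c0 x y)]

/-- slices -/
theorem Ten.slice (h : Ten F u H K) (φ : A →ₗ[F] F) : ∃ π : A →ₗ[F] A,
    (∀ a ∈ span F (Hm F u H), ∀ b ∈ span F (Hm F u K), π (a * b) = φ b • a) ∧
    ∀ w ∈ span F (Hm F u (H ⊔ K)), π w ∈ span F (Hm F u H) ∧ ∀ a ∈ span F (Hm F u H),
      π (a * w) = a * π w ∧ π (w * a) = π w * a := by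
  obtain ⟨π, hπ⟩ := h.lift (((LinearMap.lsmul F A) ∘ₗ φ).flip)
  have e : ∀ a ∈ span F (Hm F u H), ∀ b ∈ span F (Hm F u K), π (a * b) = φ b • a := hπ
  refine ⟨π, e, fun w hw => ⟨h.le (N := (span F (Hm F u H)).comap π) (fun x hx y hy => ?_) hw,
    fun a ha => ⟨h.ext (π ∘ₗ LinearMap.mulLeft F a) (LinearMap.mulLeft F a ∘ₗ π)
      (fun x hx y hy => ?_) hw, h.ext (π ∘ₗ LinearMap.mulRight F a) (LinearMap.mulRight F a ∘ₗ π)
      (fun x hx y hy => ?_) hw⟩⟩⟩
  · rw [mem_comap, e _ (tcl_mem hx) _ (tcl_mem hy)]; exact smul_mem _ _ (tcl_mem hx)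
  · change π (a * (u x * u y)) = a * π (u x * u y)
    rw [← mul_assoc, e _ (tcl_mul h.tg ha (tcl_mem hx)) _ (tcl_mem hy),
      e _ (tcl_mem hx) _ (tcl_mem hy), mul_smul_comm]
  · change π (u x * u y * a) = π (u x * u y) * a
    rw [mul_assoc, ← h.comm ha (tcl_mem hy), ← mul_assoc,
      e _ (tcl_mul h.tg (tcl_mem hx) ha) _ (tcl_mem hy), e _ (tcl_mem hx) _ (tcl_mem hy),
      smul_mul_assoc]

theorem ten_dual {b : A} (hb : b ≠ 0) : ∃ φ : A →ₗ[F] F, φ b = 1 :=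
  Module.Projective.exists_dual_eq_one F hb

theorem Ten.ne (h : Ten F u H K) {a b : A} (ha : a ∈ span F (Hm F u H))
    (hb : b ∈ span F (Hm F u K)) (a0 : a ≠ 0) (b0 : b ≠ 0) : a * b ≠ 0 := fun e => by
  obtain ⟨φ, hφ⟩ := ten_dual (F := F) b0
  obtain ⟨π, hπ, -⟩ := h.slice φ
  have := hπ a ha b hb
  rw [e, map_zero, hφ, one_smul] at this
  exact a0 this.symm

/-- pure tensors determine their factors up to scalars -/
theorem Ten.pure (h : Ten F u H K) {a b a' b' : A} (ha : a ∈ span F (Hm F u H))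
    (hb : b ∈ span F (Hm F u K)) (ha' : a' ∈ span F (Hm F u H)) (hb' : b' ∈ span F (Hm F u K))
    (a0 : a ≠ 0) (b0 : b ≠ 0) (e : a' * b' = a * b) :
    ∃ c : F, c ≠ 0 ∧ a' = c • a ∧ b' = c⁻¹ • b := by
  have ne := h.ne ha hb a0 b0
  obtain ⟨φ, hφ⟩ := ten_dual (F := F) (right_ne_zero_of_mul (e ▸ ne : a' * b' ≠ 0))
  obtain ⟨π, hπ, -⟩ := h.slice φ
  have k : a' = φ b • a := by rw [← hπ a ha b hb, ← e, hπ a' ha' b' hb', hφ, one_smul]
  have c0 : φ b ≠ 0 := fun z => ne (by rw [← e, k, z, zero_smul, zero_mul])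
  refine ⟨φ b, c0, k, ?_⟩
  by_contra n
  refine h.ne ha (sub_mem hb' (smul_mem _ (φ b)⁻¹ hb)) a0 (sub_ne_zero.2 n) ?_
  rw [mul_sub, mul_smul_comm, ← e, k, smul_mul_assoc, inv_smul_smul₀ c0, sub_self]

theorem Ten.mul_mul (h : Ten F u H K) (a : A) {a' b : A} (b' : A) (ha : a' ∈ span F (Hm F u H))
    (hb : b ∈ span F (Hm F u K)) : a * b * (a' * b') = a * a' * (b * b') := by
  rw [mul_assoc, ← mul_assoc b, ← h.comm ha hb, mul_assoc, mul_assoc]

theorem Ten.cen (h : Ten F u H K) {e f : A} (he : e ∈ Cen F (Hm F u H))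
    (hf : f ∈ Cen F (Hm F u K)) : e * f ∈ Cen F (Hm F u (H ⊔ K)) :=
  ⟨h.mul_mem he.1 hf.1, fun s hs =>
    h.ext (LinearMap.mulLeft F (e * f)) (LinearMap.mulRight F (e * f)) (fun x hx y hy => by
      change e * f * (u x * u y) = u x * u y * (e * f)
      rw [h.mul_mul _ _ (tcl_mem hx) hf.1, h.mul_mul _ _ he.1 (tcl_mem hy), he.2 _ (tcl_hm hx),
        hf.2 _ (tcl_hm hy)]) (subset_span hs)⟩

theorem Ten.slice_cen (h : Ten F u H K) {π : A →ₗ[F] A}
    (k : ∀ w ∈ span F (Hm F u (H ⊔ K)), π w ∈ span F (Hm F u H) ∧ ∀ a ∈ span F (Hm F u H),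
      π (a * w) = a * π w ∧ π (w * a) = π w * a) {z : A} (hz : z ∈ span F (Hm F u (H ⊔ K)))
    (hc : ∀ s ∈ Hm F u H, z * s = s * z) : π z ∈ Cen F (Hm F u H) :=
  ⟨(k z hz).1, fun s hs => by
    rw [← ((k z hz).2 s (subset_span hs)).1, ← ((k z hz).2 s (subset_span hs)).2, hc s hs]⟩

/-- products of blocks are blocks -/
theorem Ten.irr [Finite G] (h : Ten F u H K) {e f : A} (he : e ∈ Irr F (Hm F u H))
    (hf : f ∈ Irr F (Hm F u K)) : e * f ∈ Irr F (Hm F u (H ⊔ K)) := by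
  classical
  refine ⟨h.cen he.1 hf.1, by rw [h.mul_mul _ _ he.1.1 hf.1.1, he.2.1, hf.2.1],
    h.ne he.1.1 hf.1.1 he.2.2.1 hf.2.2.1, fun z hz => ?_⟩
  have := Fintype.ofFinite K
  choose t ht using tdg_co h.tg
  choose π p1 p2 using fun y : K => h.slice (t y)
  have ex : z = ∑ y : K, π y z * u y := by
    refine (h.ext LinearMap.id (∑ y : K, LinearMap.mulRight F (u y) ∘ₗ π y)
      (fun x hx y hy => ?_) hz.1).trans (by simp)
    simp only [LinearMap.id_apply, LinearMap.sum_apply, LinearMap.comp_apply,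
      LinearMap.mulRight_apply, p1 _ _ (tcl_mem hx) _ (tcl_mem hy), ht]
    rw [Finset.sum_eq_single ⟨y, hy⟩ (fun b _ hb => by
      rw [if_neg fun e => hb (Subtype.ext e.symm), zero_smul, zero_mul]) (by simp)]
    simp
  choose c hc using fun y : K => he.2.2.2 _ (h.slice_cen (p2 y) hz.1
    fun s hs => hz.2 s (Hm_mono le_sup_left hs))
  have hb : ∑ y : K, c y • u y ∈ span F (Hm F u K) :=
    sum_mem fun y _ => smul_mem _ _ (tcl_mem y.2)
  have e1 : z * e = (∑ y : K, c y • u y) * e := by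
    rw [ex, Finset.sum_mul, Finset.sum_mul]
    refine Finset.sum_congr rfl fun y _ => ?_
    rw [mul_assoc, ← h.comm he.1.1 (tcl_mem y.2), ← mul_assoc, hc, smul_mul_assoc, smul_mul_assoc,
      h.comm he.1.1 (tcl_mem y.2)]
  obtain ⟨φ, hφ⟩ := ten_dual (F := F) he.2.2.1
  obtain ⟨π', q1, q2⟩ := h.symm.slice φ
  have m : z * e ∈ span F (Hm F u (K ⊔ H)) := e1 ▸ h.symm.mul_mem hb he.1.1
  have k := h.symm.slice_cen q2 m fun s hs => by
    rw [mul_assoc, h.comm he.1.1 (subset_span hs), ← mul_assoc,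
      hz.2 s (Hm_mono le_sup_right hs), mul_assoc]
  rw [e1, q1 _ hb _ he.1.1, hφ, one_smul] at k
  obtain ⟨d, hd⟩ := hf.2.2.2 _ k
  exact ⟨d, by rw [← mul_assoc, e1, ← h.comm he.1.1 hb, mul_assoc, hd, mul_smul_comm]⟩

/-- two blocks are equal or orthogonal -/
theorem ten_eq {S : Set A} {e f : A} (he : e ∈ Irr F S) (hf : f ∈ Irr F S) (h : e * f ≠ 0) :
    e = f := by
  obtain ⟨c, hc⟩ := hf.2.2.2 e he.1
  obtain ⟨d, hd⟩ := he.2.2.2 f hf.1
  have m : e * f = f * e := tcl_comm he.1.2 hf.1.1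
  have c1 : c = 1 := tcl_idem hf.2.2.1 (fun z => h (by rw [hc, z, zero_smul])) (by
    rw [← hc, ← mul_smul_comm, ← hc, ← mul_assoc, he.2.1])
  have d1 : d = 1 := tcl_idem he.2.2.1 (fun z => h (by rw [m, hd, z, zero_smul])) (by
    rw [← hd, ← mul_smul_comm, ← hd, ← mul_assoc, hf.2.1])
  rw [c1, one_smul] at hc
  rw [d1, one_smul] at hd
  rw [← hd, ← m, hc]

theorem ten_cover [IsAlgClosed F] [Finite G] (hu : TG F u) (hH : (Nat.card H : F) ≠ 0) {a : A}
    (h1 : a * u 1 = a) (a0 : a ≠ 0) : ∃ e ∈ Irr F (Hm F u H), a * e ≠ 0 := by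
  obtain ⟨o, n, d, ρ, ε, -, ua, -, -, hI, -, -, hs⟩ := (hu.nice H hH).wed
  have : o = u 1 := (tcl_mul_one hu ua.mem).symm.trans (ua.one_mul _ (tcl_mem H.one_mem))
  by_contra! k
  refine a0 ?_
  rw [← h1, ← this, ← hs, Finset.mul_sum]
  exact Finset.sum_eq_zero fun i _ => k _ (hI ▸ Set.mem_range_self i)

/-- every block is a product of blocks -/
theorem Ten.irr_surj [IsAlgClosed F] [Finite G] (h : Ten F u H K) (hH : (Nat.card H : F) ≠ 0)
    (hK : (Nat.card K : F) ≠ 0) {g : A} (hg : g ∈ Irr F (Hm F u (H ⊔ K))) :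
    ∃ e ∈ Irr F (Hm F u H), ∃ f ∈ Irr F (Hm F u K), g = e * f := by
  obtain ⟨e, he, h1⟩ := ten_cover h.tg hH (tcl_mul_one h.tg hg.1.1) hg.2.2.1
  obtain ⟨f, hf, h2⟩ := ten_cover h.tg hK (a := g * e)
    (by rw [mul_assoc, tcl_mul_one h.tg he.1.1]) h1
  exact ⟨e, he, f, hf, ten_eq hg (h.irr he hf) (mul_assoc g e f ▸ h2)⟩

theorem Ten.dg [CharZero F] [Finite G] (h : Ten F u H K) {e f : A} (he : e ∈ span F (Hm F u H))
    (hf : f ∈ span F (Hm F u K)) (e2 : e * e = e) (f2 : f * f = f) :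
    Dg F (Hm F u (H ⊔ K)) (e * f) = Dg F (Hm F u H) e * Dg F (Hm F u K) f := by
  obtain ⟨t, ht⟩ := exists_tf h.tg
  have k : t (e * f) = t e * t f :=
    ten_bil ((LinearMap.mul F A).compr₂ t) ((LinearMap.mul F F).compl₁₂ t t)
      (fun x hx y hy => by
        change t (u x * u y) = t (u x) * t (u y)
        by_cases x1 : x = 1
        · rw [x1, h.tg.one_mul, ht.1, one_mul]
        · obtain ⟨c, -, hc⟩ := h.tg.mul x y
          rw [hc, map_smul, ht.2 x x1, zero_mul, ht.2, smul_zero]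
          intro z
          exact x1 (Subgroup.disjoint_def.1 h.dis hx
            (eq_inv_of_mul_eq_one_left z ▸ K.inv_mem hy))) he hf
  apply Nat.cast_injective (R := F)
  rw [Nat.cast_mul, dg_tf h.tg ht he e2, dg_tf h.tg ht hf f2, dg_tf h.tg ht (h.mul_mem he hf)
    (by rw [h.mul_mul _ _ he hf, e2, f2]), h.card, k]
  push_cast; ring

theorem Ten.prim (h : Ten F u H K) {e f i j : A} (he : e ∈ span F (Hm F u H))
    (hi : Prim F (Hm F u H) e i) (hj : Prim F (Hm F u K) f j) :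
    Prim F (Hm F u (H ⊔ K)) (e * f) (i * j) := by
  refine ⟨h.mul_mem hi.1 hj.1, by rw [h.mul_mul _ _ he hj.1, hi.2.1, hj.2.1],
    by rw [h.mul_mul _ _ hi.1 hj.1, hi.2.2.1, hj.2.2.1], h.ne hi.1 hj.1 hi.2.2.2.1 hj.2.2.2.1,
    fun b hb => ?_⟩
  have := h.le (N := (span F {i * j}).comap
    (LinearMap.mulRight F (i * j) ∘ₗ LinearMap.mulLeft F (i * j))) (fun x hx y hy => by
      obtain ⟨c, hc⟩ := hi.2.2.2.2 _ (tcl_mem hx)
      obtain ⟨d, hd⟩ := hj.2.2.2.2 _ (tcl_mem hy)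
      change i * j * (u x * u y) * (i * j) ∈ span F {i * j}
      rw [h.mul_mul _ _ (tcl_mem hx) hj.1, h.mul_mul _ _ hi.1 (tcl_mul h.tg hj.1 (tcl_mem hy)),
        hc, hd, smul_mul_smul_comm]
      exact smul_mem _ _ (mem_span_singleton_self _)) hb
  obtain ⟨c, hc⟩ := mem_span_singleton.1 this
  exact ⟨c, hc.symm⟩

end Pool.Agent.Lib.MP_1ae3da_al.CT
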