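import Pool.Agent.Lib.MP_1ae3da_al.C.QMo
import Pool.Agent.Lib.MP_1ae3da_al.C.QPr
import Pool.Agent.Lib.MP_1ae3da_al.C.QTa

/-! Twisted group algebras of direct products: homogeneous elements and blocks. -/

namespace Pool.Agent.Lib.MP_1ae3da_al.CT.Q

open Submodule

variable {F A G I : Type} [Field F] [Ring A] [Algebra F A] [Group G] [Fintype I] {u : G → A}
  {K : I → Subgroup G}

/-- a perfect subgroup commutes in the twisted group algebra with its centraliser. -/
theorem q_comm (hu : TG F u) {S : Subgroup G} (hS : commutator S = ⊤) {y : G}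
    (hy : ∀ x ∈ S, x * y = y * x) : ∀ x ∈ S, u x * u y = u y * u x :=
  ten_comm hu hS hy

theorem q_hm_inj (hu : TG F u) {S T : Subgroup G} (h : Hm F u S = Hm F u T) : S = T :=
  hu.Hm_inj h

theorem Dp.mono (h : Dp F u K) {M : I → Subgroup G} (hM : ∀ i, M i ≤ K i) : Dp F u M :=
  ⟨h.tg, fun i k n x hx y hy => h.cm i k n x (hM i hx) y (hM k hy),
    fun i k n x hx y hy => h.cg i k n x (hM i hx) y (hM k hy), h.ind.mono hM⟩

theorem Dp.cm_span (h : Dp F u K) : Cm fun i => span F (Hm F u (K i)) :=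
  fun i k n _ ha _ hb => tcl_comm (tcl_commH fun y hy =>
    (tcl_comm (tcl_commH fun x hx => (h.cm i k n x hx y hy).symm) ha).symm) hb

theorem qten_blk (hu : TG F u) {H : Subgroup G} {e x : A} (he : e ∈ span F (Hm F u H))
    (hx : x ∈ blk F (Hm F u H) e) : x ∈ span F (Hm F u H) := by
  obtain ⟨b, hb, rfl⟩ := hx
  exact tcl_mul hu hb he

theorem Dp.cm_blk (h : Dp F u K) {ε : I → A} (hε : ∀ i, ε i ∈ span F (Hm F u (K i))) :
    Cm fun i => blk F (Hm F u (K i)) (ε i) :=
  fun i k n x hx y hy => h.cm_span i k n x (qten_blk h.tg (hε i) hx) y (qten_blk h.tg (hε k) hy)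

open Classical in
/-- the product over a finite set -/
noncomputable def ps (s : Finset I) (v : I → A) : A :=
  if h : (s : Set I).Pairwise (Function.onFun Commute v) then s.noncommProd v h else 0

theorem ps_univ (v : I → A) : pr v = ps Finset.univ v := rfl

omit [Fintype I] in
theorem ps_single (a : I) (v : I → A) : ps {a} v = v a := by
  rw [ps, dif_pos (by simp), Finset.noncommProd_singleton]

omit [Fintype I] in
theorem ps_cons {v : I → A} (hv : ∀ i k, i ≠ k → Commute (v i) (v k)) {a : I} {s : Finset I}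
    (ha : a ∉ s) : ps (s.cons a ha) v = v a * ps s v := by
  have k (t : Finset I) : (t : Set I).Pairwise (Function.onFun Commute v) :=
    fun i _ k _ n => hv i k n
  rw [ps, ps, dif_pos (k _), dif_pos (k _), Finset.noncommProd_cons]

omit [Fintype I] in
theorem ps_update [DecidableEq I] (v : I → A) {a : I} {s : Finset I} (ha : a ∉ s) (y : A) :
    ps s (Function.update v a y) = ps s v := by
  have e : ∀ i ∈ s, Function.update v a y i = v i := fun i hi =>
    Function.update_of_ne (ne_of_mem_of_not_mem hi ha) _ _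
  have k : (s : Set I).Pairwise (Function.onFun Commute (Function.update v a y)) ↔
      (s : Set I).Pairwise (Function.onFun Commute v) :=
    forall₂_congr fun i hi => forall₂_congr fun k hk => by
      simp only [Function.onFun, e i hi, e k hk]
  unfold ps
  by_cases h : (s : Set I).Pairwise (Function.onFun Commute v)
  · rw [dif_pos h, dif_pos (k.2 h)]; exact Finset.noncommProd_congr rfl e _
  · rw [dif_neg h, dif_neg (mt k.1 h)]

/-- one factor comes out of the product -/
theorem pr_out {v : I → A} (hv : ∀ i k, i ≠ k → Commute (v i) (v k)) (i : I) :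
    ∃ r, pr v = v i * r ∧ ∀ x, (∀ k, k ≠ i → Commute x (v k)) → Commute x r := by
  classical
  have k (t : Finset I) : (t : Set I).Pairwise (Function.onFun Commute v) :=
    fun i _ k _ n => hv i k n
  refine ⟨(Finset.univ.erase i).noncommProd v (k _), ?_, fun x hx =>
    Finset.noncommProd_commute _ _ _ _ fun k hk => hx k (Finset.ne_of_mem_erase hk)⟩
  rw [pr, dif_pos (k _)]
  exact (Finset.mul_noncommProd_erase _ (Finset.mem_univ i) _ _ _).symm

/-- the subgroup generated by a part of the family -/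
def KS (K : I → Subgroup G) (s : Finset I) : Subgroup G := ⨆ i ∈ s, K i

theorem ks_univ : KS K Finset.univ = ⨆ i, K i := by simp [KS]

omit [Fintype I] in
theorem ks_single (a : I) : KS K {a} = K a := by simp [KS]

omit [Fintype I] in
theorem ks_cons {a : I} {s : Finset I} (ha : a ∉ s) : KS K (s.cons a ha) = K a ⊔ KS K s := by
  simp [KS, iSup_or, iSup_sup_eq]

theorem Dp.ten (h : Dp F u K) {a : I} {s : Finset I} (ha : a ∉ s) : Ten F u (K a) (KS K s) := by
  refine ⟨h.tg, h.ind.disjoint_biSup (y := (s : Set I)) ha, fun x hx y hy => ?_⟩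
  have m : u x ∈ span F (Hm F u ⊤) := tcl_mem trivial
  have : KS K s ≤ St u (u x) := iSup₂_le fun i hi z hz =>
    (tcl_st h.tg m).2 (h.cm i a (fun n => ha (n ▸ hi)) z hz x hx)
  exact ((tcl_st h.tg m).1 (this hy)).symm

theorem Dp.cmv (h : Dp F u K) {b : I → A} (hb : ∀ i, b i ∈ span F (Hm F u (K i))) :
    ∀ i k, i ≠ k → Commute (b i) (b k) := fun i k n => h.cm_span i k n _ (hb i) _ (hb k)

theorem Dp.ps_hm (h : Dp F u K) {m : I → A} (hm : ∀ i, m i ∈ Hm F u (K i)) {s : Finset I}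
    (hs : s.Nonempty) : ps s m ∈ Hm F u (KS K s) := by
  induction hs using Finset.Nonempty.cons_induction with
  | singleton a => rw [ps_single, ks_single]; exact hm a
  | cons a s ha _ ih =>
    rw [ps_cons (h.cmv fun i => subset_span (hm i)), ks_cons]
    exact h.tg.Hm_mul (Hm_mono le_sup_left (hm a)) (Hm_mono le_sup_right ih)

theorem Dp.ps_span (h : Dp F u K) {b : I → A} (hb : ∀ i, b i ∈ span F (Hm F u (K i)))
    {s : Finset I} (hs : s.Nonempty) : ps s b ∈ span F (Hm F u (KS K s)) := by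
  induction hs using Finset.Nonempty.cons_induction with
  | singleton a => rw [ps_single, ks_single]; exact hb a
  | cons a s ha _ ih => rw [ps_cons (h.cmv hb), ks_cons]; exact (h.ten ha).mul_mem (hb a) ih

/-- decomposition by induction on the set of factors -/
theorem Dp.dec (h : Dp F u K) (P : Subgroup G → Set A) (h0 : ∀ H, P H ⊆ span F (Hm F u H))
    (h1 : ∀ H, (P H).Nonempty)
    (h2 : ∀ H L, Ten F u H L → ∀ x ∈ P (H ⊔ L), ∃ y ∈ P H, ∃ z ∈ P L, x = y * z) {s : Finset I}
    (hs : s.Nonempty) : ∀ x ∈ P (KS K s), ∃ m : I → A, (∀ i, m i ∈ P (K i)) ∧ x = ps s m := by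
  classical
  have up {m : I → A} (hm : ∀ i, m i ∈ P (K i)) {a : I} {y : A} (hy : y ∈ P (K a)) (i : I) :
      Function.update m a y i ∈ P (K i) := by
    by_cases n : i = a
    · subst n; rwa [Function.update_self]
    · rw [Function.update_of_ne n]; exact hm i
  induction hs using Finset.Nonempty.cons_induction with
  | singleton a =>
    intro x hx
    rw [ks_single] at hx
    exact ⟨_, up (fun i => (h1 (K i)).some_mem) hx, by rw [ps_single, Function.update_self]⟩
  | cons a s ha _ ih =>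
    intro x hx
    rw [ks_cons] at hx
    obtain ⟨y, hy, z, hz, rfl⟩ := h2 _ _ (h.ten ha) x hx
    obtain ⟨m, hm, rfl⟩ := ih z hz
    exact ⟨_, up hm hy, by
      rw [ps_cons (h.cmv fun i => h0 _ (up hm hy i)), Function.update_self, ps_update _ ha]⟩

theorem Dp.pr_hm [Nonempty I] (h : Dp F u K) {m : I → A} (hm : ∀ i, m i ∈ Hm F u (K i)) :
    pr m ∈ Hm F u (⨆ i, K i) :=
  ks_univ (K := K) ▸ h.ps_hm hm Finset.univ_nonempty

theorem Dp.hm_pr [Nonempty I] (h : Dp F u K) {x : A} (hx : x ∈ Hm F u (⨆ i, K i)) :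
    ∃ m : I → A, (∀ i, m i ∈ Hm F u (K i)) ∧ x = pr m := by
  refine h.dec (Hm F u) (fun _ => subset_span) (fun H => ⟨_, mem_Hm H.one_mem⟩) ?_
    Finset.univ_nonempty x (ks_univ (K := K) ▸ hx)
  rintro H L t _ ⟨c, c0, g, hg, rfl⟩
  obtain ⟨⟨x, y⟩, rfl⟩ : g ∈ t.hom.range := t.hom_range ▸ hg
  obtain ⟨d, d0, hd⟩ := h.tg.mul x y
  refine ⟨_, Hm_smul (div_ne_zero c0 d0) (mem_Hm x.2), _, mem_Hm y.2, ?_⟩
  rw [smul_mul_assoc, hd, smul_smul, div_mul_cancel₀ _ d0]; rfl

theorem Dp.span_eq [Nonempty I] (h : Dp F u K) :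
    BB (fun i => span F (Hm F u (K i))) = span F (Hm F u (⨆ i, K i)) := by
  refine le_antisymm (span_le.2 ?_) (span_le.2 fun x hx => ?_)
  · rintro _ ⟨b, hb, rfl⟩
    exact ks_univ (K := K) ▸ h.ps_span hb Finset.univ_nonempty
  · obtain ⟨m, hm, rfl⟩ := h.hm_pr hx
    exact subset_span ⟨m, fun i => subset_span (hm i), rfl⟩

theorem Dp.blk_eq [Nonempty I] (h : Dp F u K) {ε : I → A}
    (hε : ∀ i, ε i ∈ span F (Hm F u (K i))) :
    BB (fun i => blk F (Hm F u (K i)) (ε i)) = blk F (Hm F u (⨆ i, K i)) (pr ε) := by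
  have k {c : I → A} (hc : ∀ i, c i ∈ span F (Hm F u (K i))) :
      pr (fun i => c i * ε i) = pr c * pr ε :=
    pr_mul (h.cmv hc) (h.cmv hε) fun i k n => h.cm_span i k n _ (hc i) _ (hε k)
  refine le_antisymm (span_le.2 ?_) (map_le_iff_le_comap.2 (span_le.2 fun x hx => ?_))
  · rintro _ ⟨b, hb, rfl⟩
    choose c hc e using hb
    refine ⟨pr c, h.span_eq ▸ subset_span ⟨c, hc, rfl⟩, ?_⟩
    rw [LinearMap.mulRight_apply, ← k hc]
    exact congrArg pr (funext e)
  · obtain ⟨m, hm, rfl⟩ := h.hm_pr hx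
    exact subset_span ⟨fun i => m i * ε i, fun i => ⟨m i, subset_span (hm i), rfl⟩,
      (k fun i => subset_span (hm i)).symm⟩

/-- conjugation by a product acts on the factor `i` as conjugation by the factor `i`. -/
theorem Dp.loc [Nonempty I] (h : Dp F u K) {m : I → A} (hm : ∀ i, m i ∈ Hm F u (K i))
    {a : RingAut A} (ha : ∀ i, ∃ k, a '' Hm F u (K i) = Hm F u (K k))
    (hh : ∀ x ∈ Hm F u (⨆ i, K i), pr m * x = a x * pr m) (i : I) :
    a '' Hm F u (K i) = Hm F u (K i) ∧ ∀ x ∈ Hm F u (K i), m i * x = a x * m i := by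
  obtain ⟨r, hr, hc⟩ := pr_out (h.cmv fun i => subset_span (hm i)) i
  obtain ⟨n, -, n1, -⟩ := h.tg.Hm_inv (h.pr_hm hm)
  obtain ⟨b, hb, b1, b2⟩ := h.tg.Hm_inv (hm i)
  obtain ⟨k, hk⟩ := ha i
  have o {H : Subgroup G} {x : A} (hx : x ∈ Hm F u H) : x * u 1 = x ∧ u 1 * x = x :=
    ⟨tcl_mul_one h.tg (subset_span hx), tcl_one_mul h.tg (subset_span hx)⟩
  have key (x : A) (hx : x ∈ Hm F u (K i)) : a x = m i * x * b := by
    have c := hc x fun l n => h.cm_span i l n.symm _ (subset_span hx) _ (subset_span (hm l))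
    have e : m i * x * b * pr m = a x * pr m := by
      rw [← hh x (Hm_mono (le_iSup K i) hx), hr, ← mul_assoc, mul_assoc _ b, b2, mul_assoc (m i),
        (o hx).1, mul_assoc, c.eq, mul_assoc]
    have := congrArg (· * n) e
    simp only [mul_assoc _ (pr m), n1] at this
    have ax : a x ∈ Hm F u (K k) := hk ▸ Set.mem_image_of_mem a hx
    rw [(o ax).1, (o (h.tg.Hm_mul (h.tg.Hm_mul (hm i) hx) hb)).1] at this
    exact this.symm
  refine ⟨Set.Subset.antisymm ?_ fun z hz => ?_, fun x hx => ?_⟩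
  · rintro _ ⟨x, hx, rfl⟩
    rw [key x hx]; exact h.tg.Hm_mul (h.tg.Hm_mul (hm i) hx) hb
  · have hx := h.tg.Hm_mul (h.tg.Hm_mul hb hz) (hm i)
    refine ⟨_, hx, ?_⟩
    rw [key _ hx, ← mul_assoc, ← mul_assoc, b1, (o hz).2, mul_assoc, b1, (o hz).1]
  · rw [key x hx, mul_assoc _ b, b2, mul_assoc, (o hx).1]

end Pool.Agent.Lib.MP_1ae3da_al.CT.Q
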