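import Mathlib

/-! Groups with a Sylow subgroup of prime order. -/

namespace Pool.Agent.Lib.MP_1ae3da_al.CT

open Subgroup

variable {p : ℕ} {X : Type} [Group X]

theorem rg_card [hp : Fact p.Prime] [Finite X] (h1 : p ∣ Nat.card X) (h2 : ¬ p ^ 2 ∣ Nat.card X)
    (Q : Sylow p X) : Nat.card Q = p := by
  have h0 : Nat.card X ≠ 0 := Nat.card_pos.ne'
  have a1 := (hp.out.dvd_iff_one_le_factorization h0).1 h1
  have a2 := mt (hp.out.pow_dvd_iff_le_factorization h0).2 h2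
  rw [Q.card_eq_multiplicity, show (Nat.card X).factorization p = 1 by omega, pow_one]

/-- the subgroup generated by the elements of order prime to `p` centralising `Q`. -/
def Kp (p : ℕ) (Q : Subgroup X) : Subgroup X :=
  closure {x | x ∈ centralizer (Q : Set X) ∧ ¬ p ∣ orderOf x}

theorem kp_le (Q : Subgroup X) : Kp p Q ≤ centralizer (Q : Set X) :=
  (closure_le _).2 fun _ h => h.1

theorem kp_comm {Q : Subgroup X} {q k : X} (hq : q ∈ Q) (hk : k ∈ Kp p Q) : q * k = k * q :=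
  mem_centralizer_iff.1 (kp_le Q hk) q hq

theorem kp_aut {Q : Subgroup X} (φ : X ≃* X) (hφ : ∀ x, φ x ∈ Q ↔ x ∈ Q) {k : X}
    (hk : k ∈ Kp p Q) : φ k ∈ Kp p Q := by
  refine (show Kp p Q ≤ (Kp p Q).comap φ.toMonoidHom from (closure_le _).2 fun x hx => ?_) hk
  refine subset_closure ⟨mem_centralizer_iff.2 fun q hq => ?_, ?_⟩
  · obtain ⟨q, rfl⟩ := φ.surjective q
    exact (map_mul φ q x).symm.trans
      ((congrArg φ (mem_centralizer_iff.1 hx.1 q ((hφ q).1 hq))).trans (map_mul φ x q))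
  · rw [show orderOf (φ.toMonoidHom x) = orderOf x from φ.orderOf_eq x]; exact hx.2

theorem kp_conj {Q : Subgroup X} {n k : X} (hn : n ∈ normalizer (Q : Set X)) (hk : k ∈ Kp p Q) :
    n * k * n⁻¹ ∈ Kp p Q :=
  kp_aut (MulAut.conj n) (fun x => (mem_normalizer_iff.1 hn x).symm) hk

section prime

variable [hp : Fact p.Prime] {Q : Subgroup X} (hQ : Nat.card Q = p)
include hQ

theorem rg_fin : Finite Q := Nat.finite_of_card_ne_zero (hQ ▸ hp.out.ne_zero)

omit hp in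
theorem rg_pow {q : X} (hq : q ∈ Q) : q ^ p = 1 := by
  have h : (⟨q, hq⟩ : Q) ^ Nat.card Q = 1 := pow_card_eq_one'
  rw [hQ] at h
  exact congrArg Subtype.val h

theorem rg_order {q : X} (hq : q ∈ Q) (h1 : q ≠ 1) : orderOf q = p :=
  orderOf_eq_prime (rg_pow hQ hq) h1

theorem rg_zpowers {q : X} (hq : q ∈ Q) (h1 : q ≠ 1) : zpowers q = Q := by
  have := rg_fin hQ
  exact eq_of_le_of_card_ge (zpowers_le.2 hq) (by rw [Nat.card_zpowers, rg_order hQ hq h1, hQ])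

theorem rg_exists : ∃ g ∈ Q, g ≠ 1 := by
  by_contra h
  have h0 : Q = ⊥ := (eq_bot_iff_forall Q).2 fun x hx => by
    by_contra h1; exact h ⟨x, hx, h1⟩
  rw [h0, card_bot] at hQ
  exact hp.out.one_lt.ne hQ

theorem rg_gen {g q : X} (hg : g ∈ Q) (h1 : g ≠ 1) (hq : q ∈ Q) : ∃ j < p, q = g ^ j := by
  rw [← rg_zpowers hQ hg h1] at hq
  obtain ⟨z, rfl⟩ := mem_zpowers_iff.1 hq
  have h0 : (0 : ℤ) < p := Int.natCast_pos.2 hp.out.pos
  refine ⟨(z % p).toNat, ?_, ?_⟩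
  · have := Int.emod_lt_of_pos z h0
    have := Int.emod_nonneg z h0.ne'
    omega
  · rw [← zpow_natCast, Int.toNat_of_nonneg (Int.emod_nonneg z h0.ne'), ← rg_order hQ hg h1,
      zpow_mod_orderOf]

theorem rg_le : Q ≤ centralizer (Q : Set X) := by
  obtain ⟨g, hg, h1⟩ := rg_exists hQ
  intro x hx
  refine mem_centralizer_iff.2 fun y hy => ?_
  obtain ⟨i, -, rfl⟩ := rg_gen hQ hg h1 hx
  obtain ⟨j, -, rfl⟩ := rg_gen hQ hg h1 hy
  exact (Commute.pow_pow_self g j i).eq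

theorem rg_eq_one {q : X} {m : ℕ} (hq : q ∈ Q) (hm : ¬ p ∣ m) (h : q ^ m = 1) : q = 1 := by
  by_contra h1
  exact hm (rg_order hQ hq h1 ▸ orderOf_dvd_of_pow_eq_one h)

theorem rg_nu : ∃ ν : normalizer (Q : Set X) →* (ZMod p)ˣ,
    (∀ (n : normalizer (Q : Set X)), ∀ q ∈ Q, (n : X) * q * (n : X)⁻¹ = q ^ (ν n : ZMod p).val) ∧
      ∀ n, ν n = 1 ↔ (n : X) ∈ centralizer (Q : Set X) := by
  obtain ⟨g, hg, h1⟩ := rg_exists hQ
  have ho := rg_order hQ hg h1
  have hex : ∀ n : normalizer (Q : Set X), ∃ j < p, (n : X) * g * (n : X)⁻¹ = g ^ j :=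
    fun n => rg_gen hQ hg h1 ((mem_normalizer_iff.1 n.2 g).1 hg)
  choose j hj1 hj2 using hex
  have hinj : ∀ a b : ℕ, g ^ a = g ^ b → (a : ZMod p) = b := fun a b h => by
    rw [pow_eq_pow_iff_modEq, ho] at h
    exact (ZMod.natCast_eq_natCast_iff a b p).2 h
  have hall : ∀ (n : normalizer (Q : Set X)), ∀ q ∈ Q, (n : X) * q * (n : X)⁻¹ = q ^ j n := by
    intro n q hq
    obtain ⟨i, -, rfl⟩ := rg_gen hQ hg h1 hq
    rw [← conj_pow, hj2, ← pow_mul, ← pow_mul, mul_comm]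
  let f : normalizer (Q : Set X) →* ZMod p :=
    { toFun := fun n => j n
      map_one' := by
        have := hinj (j 1) 1 (by rw [← hj2]; simp)
        simpa using this
      map_mul' := fun a b => by
        have := hinj (j (a * b)) (j a * j b) (by
          rw [← hj2, mul_comm (j a), pow_mul, ← hall a _ (Q.pow_mem hg _), ← hj2 b,
            Subgroup.coe_mul]
          group)
        simpa using this }
  have hv : ∀ n, ((f.toHomUnits n : (ZMod p)ˣ) : ZMod p).val = j n := fun n =>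
    ZMod.val_cast_of_lt (hj1 n)
  refine ⟨f.toHomUnits, fun n q hq => by rw [hv, hall n q hq], fun n => ⟨fun h => ?_, fun h => ?_⟩⟩
  · refine mem_centralizer_iff.2 fun q hq => ?_
    have h2 := hall n q hq
    rw [← hv, h, Units.val_one, ZMod.val_one, pow_one] at h2
    exact (mul_inv_eq_iff_eq_mul.1 h2).symm
  · refine Units.ext ?_
    have := hinj (j n) 1 (by
      rw [← hj2, ← mem_centralizer_iff.1 h g hg, mul_inv_cancel_right, pow_one])
    exact this.trans Nat.cast_one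

theorem rg_comm {n : X} (hn : n ∈ normalizer (Q : Set X)) (hc : n ∉ centralizer (Q : Set X))
    {q : X} (hq : q ∈ Q) : ∃ g ∈ Q, q = n * g * n⁻¹ * g⁻¹ := by
  obtain ⟨g, hg, h1⟩ : ∃ g ∈ Q, n * g * n⁻¹ * g⁻¹ ≠ 1 := by
    by_contra h
    refine hc (mem_centralizer_iff.2 fun g hg => ?_)
    have h2 : n * g * n⁻¹ * g⁻¹ = 1 := by
      by_contra h3; exact h ⟨g, hg, h3⟩
    exact (mul_inv_eq_iff_eq_mul.1 (mul_inv_eq_one.1 h2)).symm
  have h2 := (mem_normalizer_iff.1 hn g).1 hg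
  obtain ⟨i, -, rfl⟩ := rg_gen hQ (Q.mul_mem h2 (Q.inv_mem hg)) h1 hq
  refine ⟨g ^ i, Q.pow_mem hg i, ?_⟩
  have h3 : Commute (n * g * n⁻¹) g⁻¹ := mem_centralizer_iff.1 (rg_le hQ (Q.inv_mem hg)) _ h2
  rw [h3.mul_pow, conj_pow, inv_pow]

variable [Finite X] (h2 : ¬ p ^ 2 ∣ Nat.card X)
include h2

omit hp [Finite X] in
theorem rg_index : ¬ p ∣ Q.index := fun h => h2 (by
  rw [← Q.card_mul_index, hQ, sq]; exact Nat.mul_dvd_mul_left p h)

omit hp [Finite X] in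
theorem rg_index_le {H : Subgroup X} (h : Q ≤ H) : ¬ p ∣ H.index :=
  fun h' => rg_index hQ h2 (h'.trans (index_dvd_of_le h))

theorem rg_kp_aux : ∃ K : Subgroup X, K = Kp p Q ∧ ¬ p ∣ Nat.card K ∧
    ∀ c ∈ centralizer (Q : Set X), ∃ q ∈ Q, ∃ k ∈ K, c = q * k := by
  set C := centralizer (Q : Set X) with hC
  have hn : (Q.subgroupOf C).Normal := ⟨fun q hq c => by
    have := mem_centralizer_iff.1 c.2 q hq
    change (c : X) * q * (c : X)⁻¹ ∈ Q
    rw [← this, mul_inv_cancel_right]; exact hq⟩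
  have hi : ¬ p ∣ (Q.subgroupOf C).index :=
    fun h => rg_index hQ h2 (h.trans (relIndex_dvd_index_of_le (rg_le hQ)))
  have hc : Nat.card (Q.subgroupOf C) = p := by
    rw [Nat.card_congr (subgroupOfEquivOfLe (rg_le hQ)).toEquiv, hQ]
  obtain ⟨K, hK⟩ := exists_right_complement'_of_coprime (N := Q.subgroupOf C)
    (by rw [hc]; exact (Nat.Prime.coprime_iff_not_dvd hp.out).2 hi)
  have hk : ¬ p ∣ Nat.card (K.map C.subtype) := by
    rw [← Nat.card_congr (K.equivMapOfInjective _ C.subtype_injective).toEquiv,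
      ← hK.symm.index_eq_card]
    exact hi
  have hd : ∀ c ∈ C, ∃ q ∈ Q, ∃ k ∈ K.map C.subtype, c = q * k := fun c hc => by
    obtain ⟨⟨q, k⟩, h⟩ := hK.2 ⟨c, hc⟩
    exact ⟨q.1.1, q.2, k.1.1, ⟨k.1, k.2, rfl⟩, (congrArg Subtype.val h).symm⟩
  have hle : K.map C.subtype ≤ Kp p Q := fun k h => by
    unfold Kp
    exact Subgroup.subset_closure
      ⟨map_subtype_le K h, fun h' => hk (h'.trans (orderOf_dvd_natCard _ h))⟩
  refine ⟨K.map C.subtype, le_antisymm hle ((closure_le _).2 fun x hx => ?_), hk, hd⟩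
  obtain ⟨q, hq, k, h, rfl⟩ := hd x hx.1
  have hqk : Commute q k := mem_centralizer_iff.1 (map_subtype_le K h) q hq
  have h3 : (q * k) ^ (orderOf (q * k) * orderOf k) = 1 := by rw [pow_mul, pow_orderOf_eq_one, one_pow]
  rw [hqk.mul_pow, mul_comm (orderOf (q * k)), pow_mul k, pow_orderOf_eq_one, one_pow, mul_one] at h3
  have h4 := rg_eq_one hQ hq (fun h5 => ((Nat.Prime.dvd_mul hp.out).1 h5).elim
    (fun h6 => hk (h6.trans (orderOf_dvd_natCard _ h))) hx.2) h3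
  rw [h4, one_mul]; exact h

theorem kp_card : ¬ p ∣ Nat.card (Kp p Q) := by
  obtain ⟨K, rfl, h, -⟩ := rg_kp_aux hQ h2
  exact h

theorem kp_split {c : X} (hc : c ∈ centralizer (Q : Set X)) :
    ∃ q ∈ Q, ∃ k ∈ Kp p Q, c = q * k := by
  obtain ⟨K, rfl, -, h⟩ := rg_kp_aux hQ h2
  exact h c hc

theorem mem_kp {x : X} : x ∈ Kp p Q ↔ x ∈ centralizer (Q : Set X) ∧ ¬ p ∣ orderOf x :=
  ⟨fun h => ⟨kp_le Q h, fun h' => kp_card hQ h2 (h'.trans (orderOf_dvd_natCard _ h))⟩,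
    fun h => subset_closure h⟩

theorem kp_inf : Q ⊓ Kp p Q = ⊥ :=
  (eq_bot_iff_forall _).2 fun _ h =>
    rg_eq_one hQ h.1 ((mem_kp hQ h2).1 h.2).2 (pow_orderOf_eq_one _)

theorem kp_sup : Q ⊔ Kp p Q = centralizer (Q : Set X) :=
  le_antisymm (sup_le (rg_le hQ) (kp_le Q)) fun c hc => by
    obtain ⟨q, hq, k, hk, rfl⟩ := kp_split hQ h2 hc
    exact mul_mem_sup hq hk

theorem kp_unique {q q' k k' : X} (hq : q ∈ Q) (hq' : q' ∈ Q) (hk : k ∈ Kp p Q)
    (hk' : k' ∈ Kp p Q) (h : q * k = q' * k') : q = q' ∧ k = k' := by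
  have h3 : q'⁻¹ * q = k' * k⁻¹ := by
    rw [inv_mul_eq_iff_eq_mul, ← mul_assoc, ← h, mul_inv_cancel_right]
  have h4 : q'⁻¹ * q ∈ Q ⊓ Kp p Q :=
    ⟨Q.mul_mem (Q.inv_mem hq') hq, h3 ▸ (Kp p Q).mul_mem hk' ((Kp p Q).inv_mem hk)⟩
  rw [kp_inf hQ h2, mem_bot, inv_mul_eq_one] at h4
  subst h4
  exact ⟨rfl, mul_left_cancel h⟩

theorem kp_card_mul : p * Nat.card (Kp p Q) = Nat.card (centralizer (Q : Set X)) := by
  refine (congrArg (· * Nat.card (Kp p Q)) hQ.symm).trans ((Nat.card_prod _ _).symm.trans ?_)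
  refine Nat.card_eq_of_bijective (fun x => ⟨x.1.1 * x.2.1,
    Subgroup.mul_mem _ (rg_le hQ x.1.2) (kp_le Q x.2.2)⟩) ⟨fun a b h => ?_, fun c => ?_⟩
  · have := kp_unique hQ h2 a.1.2 b.1.2 a.2.2 b.2.2 (congrArg Subtype.val h)
    exact Prod.ext (Subtype.ext this.1) (Subtype.ext this.2)
  · obtain ⟨q, hq, k, hk, h⟩ := kp_split hQ h2 c.2
    exact ⟨(⟨q, hq⟩, ⟨k, hk⟩), Subtype.ext h.symm⟩

theorem rg_ti {x q q' k k' : X} (hq : q ∈ Q) (hq' : q' ∈ Q) (hk : k ∈ Kp p Q)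
    (hk' : k' ∈ Kp p Q) (h1 : q ≠ 1) (h : x * (q * k) * x⁻¹ = q' * k') :
    x ∈ normalizer (Q : Set X) ∧ x * q * x⁻¹ = q' ∧ x * k * x⁻¹ = k' := by
  have hm := kp_card hQ h2
  have hp1 : ∀ y ∈ Kp p Q, y ^ Nat.card (Kp p Q) = 1 := fun y hy =>
    orderOf_dvd_iff_pow_eq_one.1 (orderOf_dvd_natCard _ hy)
  have h3 := congrArg (· ^ Nat.card (Kp p Q)) h
  simp only [conj_pow] at h3
  rw [(show Commute q k from kp_comm hq hk).mul_pow,
    (show Commute q' k' from kp_comm hq' hk').mul_pow, hp1 k hk, hp1 k' hk', mul_one, mul_one] at h3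
  have h4 : q ^ Nat.card (Kp p Q) ≠ 1 := fun h => h1 (rg_eq_one hQ hq hm h)
  have h5 : x ∈ normalizer (Q : Set X) := by
    refine mem_normalizer_fintype fun y hy => ?_
    obtain ⟨i, -, rfl⟩ := rg_gen hQ (Q.pow_mem hq _) h4 hy
    rw [← conj_pow, h3]
    exact Q.pow_mem (Q.pow_mem hq' _) _
  refine ⟨h5, kp_unique hQ h2 ((mem_normalizer_iff.1 h5 q).1 hq) hq' (kp_conj h5 hk) hk' ?_⟩
  rw [← h]; group

theorem rg_burnside (hX : commutator X = ⊤) :
    ∃ n ∈ normalizer (Q : Set X), n ∉ centralizer (Q : Set X) := by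
  by_contra h
  have hN : normalizer (Q : Set X) ≤ centralizer (Q : Set X) := fun n hn => by
    by_contra h'; exact h ⟨n, hn, h'⟩
  let P : Sylow p X := (IsPGroup.of_card (n := 1) (by rw [hQ, pow_one])).toSylow (rg_index hQ h2)
  have h3 := (MonoidHom.ker_transferSylow_isComplement' P hN).symm.index_eq_card
  have h4 : (MonoidHom.transferSylow P hN).ker = ⊤ := by
    refine top_le_iff.1 (hX ▸ commutator_le.2 fun a _ b _ => MonoidHom.mem_ker.2 ?_)
    rw [map_commutatorElement, commutatorElement_eq_one_iff_mul_comm]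
    exact Subtype.ext (mem_centralizer_iff.1 (rg_le hQ (MonoidHom.transferSylow P hN b).2) _
      (MonoidHom.transferSylow P hN a).2)
  rw [h4, index_top] at h3
  exact hp.out.one_lt.ne (h3.trans hQ)

end prime

end Pool.Agent.Lib.MP_1ae3da_al.CT
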