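import Pool.Agent.Lib.MP_1ae3da_al.C.Defs
import Pool.Agent.Lib.MP_1ae3da_al.C.RGrp

/-! Sylow subgroups of prime order, character side: definitions. -/

namespace Pool.Agent.Lib.MP_1ae3da_al.CT

open Submodule

/-- the normaliser. -/
abbrev NQ {X : Type} [Group X] (Q : Subgroup X) : Subgroup X := Subgroup.normalizer (Q : Set X)

/-- the centraliser. -/
abbrev CQ {X : Type} [Group X] (Q : Subgroup X) : Subgroup X := Subgroup.centralizer (Q : Set X)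

section
variable (F : Type) {X : Type} [Field F] [Group X]

/-- the homogeneous elements of the group algebra over `H`. -/
abbrev HX (H : Subgroup X) : Set (MonoidAlgebra F X) := Hm F (gu F X) H

/-- the idempotent of the trivial character of `Q`. -/
noncomputable def e0 (Q : Subgroup X) : MonoidAlgebra F X :=
  (Nat.card Q : F)⁻¹ • ∑ᶠ q : Q, gu F X q

/-- the blocks of the normaliser with `Q` in the kernel. -/
def Psi (Q : Subgroup X) : Set (MonoidAlgebra F X) :=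
  {ψ | ψ ∈ Irr F (HX F (NQ Q)) ∧ ψ * e0 F Q = ψ}

/-- the blocks of the normaliser that are faithful on `Q`. -/
def Eta (Q : Subgroup X) : Set (MonoidAlgebra F X) :=
  {η | η ∈ Irr F (HX F (NQ Q)) ∧ η * e0 F Q = 0}

/-- `x` and `y` lie over a common block of the complement. -/
def Bk (p : ℕ) (Q : Subgroup X) (x y : MonoidAlgebra F X) : Prop :=
  ∃ θ ∈ Irr F (HX F (Kp p Q)), x * θ ≠ 0 ∧ y * θ ≠ 0

/-- `η` lies over `θ * ε`, and `i` is a primitive idempotent in the block `θ`. -/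
structure Tri (p : ℕ) (Q : Subgroup X) (η θ i ε : MonoidAlgebra F X) : Prop where
  irrK : θ ∈ Irr F (HX F (Kp p Q))
  prim : Prim F (HX F (Kp p Q)) θ i
  irrQ : ε ∈ Irr F (HX F Q)
  ne : ε ≠ e0 F Q
  ov : η * (θ * ε) ≠ 0

/-- the span of the `p`-singular elements of the centraliser. -/
noncomputable def Sing (p : ℕ) (Q : Subgroup X) : Submodule F (MonoidAlgebra F X) :=
  span F {a | ∃ k ∈ Kp p Q, ∃ q ∈ Q, q ≠ 1 ∧ a = gu F X (k * q)}

open Classical in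
/-- the difference of the multiplicities of `θ × 1` and `θ × λ` in the block `e` of `X`. -/
noncomputable def mz (p : ℕ) (Q : Subgroup X) (e η : MonoidAlgebra F X) : ℤ :=
  if h : ∃ z : ℤ, ∃ θ i ε, Tri F p Q η θ i ε ∧
    Chv F (HX F ⊤) e (i * (e0 F Q - ε)) = z then h.choose else 0

end

section
variable {F : Type} [Field F] (O : Subring F) (GG : Subgroup (RingAut F))

/-- the Galois automorphisms of the group algebra that fix `O`. -/
noncomputable def G0 (X : Type) [Group X] : Subgroup (RingAut (MonoidAlgebra F X)) where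
  carrier := {γ | ∃ σ ∈ GG, (∀ y ∈ O, σ y = y) ∧ SL F σ γ ∧ ∀ x, γ (gu F X x) = gu F X x}
  one_mem' := ⟨1, one_mem _, fun _ _ => rfl, fun _ _ => rfl, fun _ => rfl⟩
  mul_mem' := by
    rintro a b ⟨σ, hσ, h1, h2, h3⟩ ⟨τ, hτ, h4, h5, h6⟩
    refine ⟨σ * τ, mul_mem hσ hτ, fun y hy => ?_, fun c x => ?_, fun x => ?_⟩
    · change σ (τ y) = y
      rw [h4 y hy, h1 y hy]
    · change a (b (c • x)) = σ (τ c) • a (b x)
      rw [h5, h2]
    · change a (b _) = _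
      rw [h6, h3]
  inv_mem' := by
    rintro a ⟨σ, hσ, h1, h2, h3⟩
    refine ⟨σ⁻¹, inv_mem hσ, fun y hy => σ.symm_apply_eq.2 (h1 y hy).symm, fun c x => ?_,
      fun x => a.symm_apply_eq.2 (h3 x).symm⟩
    change a.symm (c • x) = σ.symm c • a.symm x
    apply a.injective
    rw [h2]; simp

variable {X : Type} [Group X]

/-- the Galois orbit. -/
def Orb (e : MonoidAlgebra F X) : Set (MonoidAlgebra F X) := {e' | ∃ γ ∈ G0 O GG X, e' = γ e}

/-- the group of the inductive condition. -/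
noncomputable abbrev Gm (Q : Subgroup X) : Subgroup (RingAut (MonoidAlgebra F X)) :=
  SG GG (MonoidAlgebra F X) ⊓ Stb (HX F ⊤) ⊓ Stb (HX F (NQ Q))

/-- a faithful linear character of `N / C` and the twist by it. -/
structure Om (Q : Subgroup X) (om : X → F)
    (T : MonoidAlgebra F X →ₗ[F] MonoidAlgebra F X) : Prop where
  mul : ∀ x ∈ NQ Q, ∀ y ∈ NQ Q, om (x * y) = om x * om y
  ker : ∀ x ∈ NQ Q, om x = 1 ↔ x ∈ CQ Q
  aut : ∀ α : MulAut X, (∀ x, α x ∈ Q ↔ x ∈ Q) → ∀ x ∈ NQ Q, om (α x) = om x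
  gal : ∀ σ ∈ GG, ∀ x ∈ NQ Q, σ (om x) = om x
  tw : ∀ x, T (gu F X x) = om x • gu F X x

/-- what the lattice side delivers: the types of the vertices (`false` = degree 0). -/
structure TyS (p : ℕ) (Q : Subgroup X) (T : MonoidAlgebra F X →ₗ[F] MonoidAlgebra F X)
    (Ty : Set (MonoidAlgebra F X) → MonoidAlgebra F X → Bool → Prop) : Prop where
  dom : ∀ v ψ i, Ty v ψ i → (∃ e ∈ Irr F (HX F (⊤ : Subgroup X)), v = Orb O GG e) ∧ ψ ∈ Psi F Q
  val : ∀ v ψ i, Ty v ψ i → ∃ s : ℕ, 0 < s ∧ ∀ k ∈ Kp p Q, ∀ q ∈ Q, q ≠ 1 →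
    (s : F) * ∑ᶠ e ∈ v, Chv F (HX F ⊤) e (gu F X (k * q)) =
      (if i then -1 else 1) * Chv F (HX F (NQ Q)) ψ (gu F X k)
  tot : ∀ e ∈ Irr F (HX F (⊤ : Subgroup X)), (∃ ψ i, Ty (Orb O GG e) ψ i) ∨
    ∀ k ∈ Kp p Q, ∀ q ∈ Q, q ≠ 1 →
      ∑ᶠ e' ∈ Orb O GG e, Chv F (HX F ⊤) e' (gu F X (k * q)) = 0
  uniq : ∀ v v' ψ i, Ty v ψ i → Ty v' ψ i → v = v'
  w1 : ∀ v ψ, Ty v ψ true → ∃ v', Ty v' ψ false
  w2 : ∀ v ψ, Ty v ψ false → ∃ v' ψ', Ty v' (T ψ) true ∧ Ty v' ψ' true ∧ Ty v ψ' false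
  eqv : ∀ γ ∈ Gm GG Q, ∀ v ψ i, Ty v ψ i → Ty (γ '' v) (γ ψ) i
  ln : ∀ e ψ i, Ty {e} ψ i → e ∈ IrrP F p (HX F (⊤ : Subgroup X)) →
    ψ ∈ IrrP F p (HX F (NQ Q)) →
    ∃ U, Link F (Gm GG Q ⊓ Fx e ⊓ Fx ψ) (HX F ⊤) (HX F (NQ Q)) e ψ U

end

end Pool.Agent.Lib.MP_1ae3da_al.CT
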