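import Mathlib

/-! Rank one idempotent matrices and multiplicative maps between matrix algebras. -/

namespace Pool.Agent.Lib.MP_1ae3da_al.CT

open Matrix

variable {F : Type} [Field F] {n d : ℕ} {q q' : Matrix (Fin n) (Fin n) F} {x y x' y' : Fin n → F}

theorem tpa_mul (x y x' y' : Fin n → F) :
    vecMulVec x y * vecMulVec x' y' = (y ⬝ᵥ x') • vecMulVec x y' := by
  rw [vecMulVec_mul_vecMulVec, vecMulVec_smul]

theorem tpa_mid (x y x' y' : Fin n → F) (m : Matrix (Fin n) (Fin n) F) :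
    vecMulVec x y * m * vecMulVec x' y' = ((y ᵥ* m) ⬝ᵥ x') • vecMulVec x y' := by
  rw [vecMulVec_mul, tpa_mul]

theorem tpa_ne (h : y ⬝ᵥ x = 1) (h' : y' ⬝ᵥ x' = 1) : vecMulVec x y' ≠ 0 :=
  vecMulVec_ne_zero (fun e => by simp [e] at h) fun e => by simp [e] at h'

theorem tpa_rank0 (h : q.rank = 0) : q = 0 := by
  rw [rank_eq_finrank_span_cols, Submodule.finrank_eq_zero, Submodule.span_eq_bot] at h
  ext i j
  exact congrFun (h _ ⟨j, rfl⟩) i

theorem tpa_norm (h : q * q = q) (h0 : q ≠ 0) (e : q = vecMulVec x y) : y ⬝ᵥ x = 1 := by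
  have k : (y ⬝ᵥ x) • q = (1 : F) • q := by rw [one_smul, e, ← tpa_mul, ← e, h]
  exact smul_left_injective F h0 k

theorem tpa_rank (h : q * q = q) : q.rank = 1 ↔ ∃ x y, y ⬝ᵥ x = 1 ∧ q = vecMulVec x y := by
  constructor
  · intro k
    have h0 : q ≠ 0 := fun e => by simp [e] at k
    rw [rank_eq_finrank_span_cols, finrank_eq_one_iff'] at k
    obtain ⟨v, -, hv⟩ := k
    choose c hc using fun j => hv ⟨q.col j, Submodule.subset_span ⟨j, rfl⟩⟩
    have e : q = vecMulVec v.1 c := by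
      ext i j
      have := congrFun (congrArg Subtype.val (hc j)) i
      rw [vecMulVec_apply, mul_comm]
      exact this.symm
    exact ⟨_, _, tpa_norm h h0 e, e⟩
  · rintro ⟨x, y, k, rfl⟩
    exact le_antisymm (rank_vecMulVec_le x y)
      (Nat.pos_of_ne_zero fun z => tpa_ne k k (tpa_rank0 z))

theorem tpa_single (p : Matrix (Fin n) (Fin n) F) (i j : Fin n) :
    p * single j i 1 * p = vecMulVec (p.col j) (p.row i) := by
  rw [single_eq_single_vecMulVec_single, mul_vecMulVec, vecMulVec_mul]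
  simp

theorem tpa_prim (h : q * q = q) (h0 : q ≠ 0) (k : ∀ m, ∃ c : F, q * m * q = c • q) :
    ∃ x y, y ⬝ᵥ x = 1 ∧ q = vecMulVec x y := by
  obtain ⟨i, j, p⟩ : ∃ i j, q i j ≠ 0 := by
    by_contra! z
    exact h0 (Matrix.ext z)
  obtain ⟨c, hc⟩ := k (single j i 1)
  rw [tpa_single] at hc
  have c0 : c ≠ 0 := fun z => mul_ne_zero p p (by
    simpa [z, vecMulVec_apply] using congrFun (congrFun hc i) j)
  have e : q = vecMulVec (c⁻¹ • q.col j) (q.row i) := by
    rw [smul_vecMulVec, hc, inv_smul_smul₀ c0]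
  exact ⟨_, _, tpa_norm h h0 e, e⟩

theorem tpa_cj₁ {R : Type} [Ring R] {a b : R} (h : a * b = b) (k : b * a = a) : IsConj a b := by
  have aa : a * a = a := (congrArg (a * ·) k).symm.trans (by rw [← mul_assoc, h, k])
  have bb : b * b = b := (congrArg (b * ·) h).symm.trans (by rw [← mul_assoc, k, h])
  refine ⟨⟨1 + (a - b), 1 - (a - b), ?_, ?_⟩, ?_⟩
  · simp only [mul_sub, add_mul, sub_mul, one_mul, mul_one, h, k, aa, bb]
    abel
  · simp only [mul_sub, mul_add, sub_mul, one_mul, mul_one, h, k, aa, bb]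
    abel
  · change (1 + (a - b)) * a = b * (1 + (a - b))
    simp only [mul_sub, mul_add, add_mul, sub_mul, one_mul, mul_one, k, aa, bb]
    abel

theorem tpa_cj₂ {R : Type} [Ring R] {a b : R} (h : a * b = a) (k : b * a = b) : IsConj a b := by
  have aa : a * a = a := (congrArg (· * a) h).symm.trans (by rw [mul_assoc, k, h])
  have bb : b * b = b := (congrArg (· * b) k).symm.trans (by rw [mul_assoc, h, k])
  refine ⟨⟨1 - (a - b), 1 + (a - b), ?_, ?_⟩, ?_⟩
  · simp only [mul_sub, mul_add, sub_mul, one_mul, mul_one, h, k, aa, bb]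
    abel
  · simp only [mul_sub, add_mul, sub_mul, one_mul, mul_one, h, k, aa, bb]
    abel
  · change (1 - (a - b)) * a = b * (1 - (a - b))
    simp only [mul_sub, sub_mul, one_mul, mul_one, k, aa, bb]
    abel

theorem tpa_conj (h : y ⬝ᵥ x = 1) (h' : y' ⬝ᵥ x' = 1) :
    IsConj (vecMulVec x y) (vecMulVec x' y') := by
  obtain ⟨z, a, b⟩ : ∃ z : Fin n → F, z ⬝ᵥ x ≠ 0 ∧ z ⬝ᵥ x' ≠ 0 := by
    by_cases p : y ⬝ᵥ x' = 0
    · by_cases r : y' ⬝ᵥ x = 0
      · exact ⟨y + y', by simp [h, r], by simp [h', p]⟩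
      · exact ⟨y', r, by simp [h']⟩
    · exact ⟨y, by simp [h], p⟩
  have s : ∀ {x y : Fin n → F}, y ⬝ᵥ x = 1 → z ⬝ᵥ x ≠ 0 →
      IsConj (vecMulVec x y) ((z ⬝ᵥ x)⁻¹ • vecMulVec x z) := fun h a => tpa_cj₁
    (by rw [Matrix.mul_smul, tpa_mul, h, one_smul])
    (by rw [Matrix.smul_mul, tpa_mul, inv_smul_smul₀ a])
  refine ((s h a).trans (tpa_cj₂ ?_ ?_)).trans (s h' b).symm
  · rw [Matrix.mul_smul, Matrix.smul_mul, tpa_mul, smul_comm _ (z ⬝ᵥ x'), inv_smul_smul₀ b]
  · rw [Matrix.mul_smul, Matrix.smul_mul, tpa_mul, smul_comm _ (z ⬝ᵥ x), inv_smul_smul₀ a]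

theorem tpa_below (h : q * q = q) (h0 : q ≠ 0) :
    ∃ r : Matrix (Fin n) (Fin n) F, r * r = r ∧ r.rank = 1 ∧ q * r = r ∧ r * q = r := by
  obtain ⟨i, j, p⟩ : ∃ i j, q i j ≠ 0 := by
    by_contra! z
    exact h0 (Matrix.ext z)
  have e : q.row i ⬝ᵥ ((q i j)⁻¹ • q.col j) = 1 := by
    rw [dotProduct_smul, show q.row i ⬝ᵥ q.col j = (q * q) i j from rfl, h]
    exact inv_mul_cancel₀ p
  have k : vecMulVec ((q i j)⁻¹ • q.col j) (q.row i) * vecMulVec ((q i j)⁻¹ • q.col j) (q.row i) =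
      vecMulVec ((q i j)⁻¹ • q.col j) (q.row i) := by rw [tpa_mul, e, one_smul]
  refine ⟨_, k, (tpa_rank k).2 ⟨_, _, e, rfl⟩, ?_, ?_⟩
  · rw [smul_vecMulVec, ← tpa_single, Matrix.mul_smul, ← mul_assoc, ← mul_assoc, h]
  · rw [smul_vecMulVec, ← tpa_single, Matrix.smul_mul, mul_assoc, h]

theorem tpa_trace (h : q * q = q) : q.trace = q.rank := by
  have k : IsIdempotentElem (toLin' q) := by
    change toLin' q ∘ₗ toLin' q = _
    rw [← toLin'_mul, h]
  rw [← trace_toLin'_eq, (LinearMap.IsIdempotentElem.isProj_range _ k).trace]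
  rfl

theorem tpa_cen (h : q * q = q) (h0 : q ≠ 0) (k : ∀ m, q * m = m * q) : q = 1 := by
  obtain ⟨i, j, p⟩ : ∃ i j, q i j ≠ 0 := by
    by_contra! z
    exact h0 (Matrix.ext z)
  have z : 1 - q = 0 := by
    ext a b
    have e : q * single j a 1 * (1 - q) = 0 := by
      rw [k, mul_assoc, mul_sub, mul_one, h, sub_self, mul_zero]
    rw [single_eq_single_vecMulVec_single, mul_vecMulVec, vecMulVec_mul] at e
    have := congrFun (congrFun e i) b
    simpa [vecMulVec_apply, p] using this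
  exact (sub_eq_zero.1 z).symm

section hom
variable {ψ : Matrix (Fin d) (Fin d) F →ₗ[F] Matrix (Fin n) (Fin n) F}
  (hψ : ∀ a b, ψ (a * b) = ψ a * ψ b)
include hψ

theorem tpa_EE (a b c e : Fin d) :
    ψ (single a b 1) * ψ (single c e 1) = if b = c then ψ (single a e 1) else 0 := by
  rw [← hψ]
  split_ifs with h
  · rw [h, single_mul_single_same, mul_one]
  · rw [single_mul_single_of_ne _ _ _ _ h, map_zero]

theorem tpa_one (o : Fin d) : ψ 1 = ∑ a, ψ (single a o 1) * ψ (single o a 1) := by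
  simp only [tpa_EE hψ, if_true]
  rw [← map_sum, sum_single_one]

theorem tpa_rk (o : Fin d) : (ψ 1).rank = (ψ (single o o 1)).rank * d := by
  let f : LinearMap.range (ψ 1).mulVecLin →ₗ[F]
      (Fin d → LinearMap.range (ψ (single o o 1)).mulVecLin) :=
    LinearMap.pi fun a => LinearMap.codRestrict _
      ((ψ (single o a 1)).mulVecLin ∘ₗ Submodule.subtype _) fun v =>
        ⟨ψ (single o a 1) *ᵥ v.1, by simp [tpa_EE hψ]⟩
  have hf : ∀ v a, (f v a).1 = ψ (single o a 1) *ᵥ v.1 := fun _ _ => rfl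
  have b : Function.Bijective f := by
    refine ⟨(injective_iff_map_eq_zero f).2 ?_, fun w => ?_⟩
    · rintro ⟨_, v, rfl⟩ z
      refine Subtype.ext ?_
      have k : ∀ a, ψ (single o a 1) *ᵥ ψ 1 *ᵥ v = 0 := fun a =>
        (hf ⟨_, v, rfl⟩ a).symm.trans (by rw [z]; rfl)
      change ψ 1 *ᵥ v = 0
      rw [← mul_one (1 : Matrix (Fin d) (Fin d) F), hψ, ← mulVec_mulVec]
      conv_lhs => arg 1; rw [tpa_one hψ o]
      simp only [sum_mulVec, ← mulVec_mulVec, k, mulVec_zero, Finset.sum_const_zero]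
    · choose v hv using fun a => (w a).2
      refine ⟨⟨∑ a, ψ (single a o 1) *ᵥ v a, ∑ a, ψ (single a o 1) *ᵥ v a, ?_⟩, ?_⟩
      · simp only [mulVecLin_apply, mulVec_sum, mulVec_mulVec, ← hψ, one_mul]
      · ext1 a
        refine Subtype.ext ?_
        rw [hf, ← hv]
        simp only [mulVec_sum, mulVec_mulVec, tpa_EE hψ, mulVecLin_apply]
        rw [Finset.sum_eq_single a (fun b _ c => by simp [c.symm]) (by simp), if_pos rfl]
  have := (LinearEquiv.ofBijective f b).finrank_eq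
  rw [Module.finrank_pi_fintype] at this
  simpa [rank, mul_comm] using this

theorem tpa_tr (o : Fin d) (m : Matrix (Fin d) (Fin d) F) :
    (ψ m).trace = (ψ (single o o 1)).rank * m.trace := by
  have k : ∀ a b, (ψ (single a b 1)).trace =
      (ψ (single o o 1)).rank * (single a b (1 : F)).trace := fun a b => by
    have e : ψ (single a b 1) = ψ (single a o 1) * ψ (single o b 1) := by simp [tpa_EE hψ]
    rw [e, trace_mul_comm, tpa_EE hψ]
    by_cases h : b = a
    · rw [if_pos h, h, trace_single_eq_same, mul_one, tpa_trace (by simp [tpa_EE hψ])]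
    · rw [if_neg h, trace_single_eq_of_ne _ _ _ (Ne.symm h), trace_zero, mul_zero]
  induction m using Matrix.induction_on' with
  | h_zero => simp
  | h_add a b p r => rw [map_add, trace_add, trace_add, p, r, mul_add]
  | h_std_basis a b c =>
    rw [show single a b c = c • single a b (1 : F) by simp, map_smul, trace_smul, trace_smul, k,
      mul_smul_comm]

theorem tpa_inj (h1 : ψ 1 = 1) (hn : 0 < n) (hd : 0 < d) : Function.Injective ψ := by
  have : Nonempty (Fin n) := ⟨⟨0, hn⟩⟩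
  have : Nonempty (Fin d) := ⟨⟨0, hd⟩⟩
  exact (AlgHom.ofLinearMap ψ h1 hψ).toRingHom.injective

theorem tpa_indec (h1 : ψ 1 = 1) (hn : 0 < n) (hd : 0 < d)
    (h : ∀ q : Matrix (Fin n) (Fin n) F, q * q = q → (∀ m, q * ψ m = ψ m * q) → q = 0 ∨ q = 1) :
    n = d := by
  let o : Fin d := ⟨0, hd⟩
  have p0 : ψ (single o o 1) ≠ 0 := fun z => by
    have := congrFun (congrFun (tpa_inj hψ h1 hn hd (z.trans (map_zero ψ).symm)) o) o
    simp at this
  obtain ⟨r, rr, rk, pr, rp⟩ := tpa_below (q := ψ (single o o 1)) (by simp [tpa_EE hψ]) p0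
  let Q := ∑ a, ψ (single a o 1) * r * ψ (single o a 1)
  have l : ∀ b c, ψ (single b c 1) * Q = ψ (single b o 1) * r * ψ (single o c 1) := fun b c => by
    simp [Q, Finset.mul_sum, ← mul_assoc, tpa_EE hψ]
  have l' : ∀ b c, Q * ψ (single b c 1) = ψ (single b o 1) * r * ψ (single o c 1) := fun b c => by
    simp [Q, Finset.sum_mul, mul_assoc, tpa_EE hψ]
  have qq : Q * Q = Q := by
    conv_lhs => arg 2; unfold Q
    rw [Finset.mul_sum]
    refine Finset.sum_congr rfl fun a _ => ?_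
    rw [← mul_assoc, ← mul_assoc, l', mul_assoc _ _ r, pr, mul_assoc _ r r, rr]
  have qc : ∀ m, Q * ψ m = ψ m * Q := fun m => by
    induction m using Matrix.induction_on' with
    | h_zero => simp
    | h_add a b p r => rw [map_add, mul_add, add_mul, p, r]
    | h_std_basis a b c =>
      rw [show single a b c = c • single a b (1 : F) by simp, map_smul, mul_smul_comm,
        smul_mul_assoc, l, l']
  have e := l o o
  rw [pr, rp] at e
  rcases h Q qq qc with z | z
  · rw [z, mul_zero] at e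
    simp [← e] at rk
  · have := tpa_rk hψ o
    rw [z, mul_one] at e
    simpa [h1, e, rk] using this

end hom

end Pool.Agent.Lib.MP_1ae3da_al.CT
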