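import Pool.Agent.Lib.MP_1ae3da_al.C.TE
import Pool.Agent.Lib.MP_1ae3da_al.C.TPa

/-! Primitive idempotents and recognition of matrix models. -/

namespace Pool.Agent.Lib.MP_1ae3da_al.CT

open Submodule

variable {F A : Type} [Field F] [Ring A] [Algebra F A] {S : Set A} {e j j' : A} {n : ℕ}
  {ρ : A →ₗ[F] Matrix (Fin n) (Fin n) F}

/-- the inverse of a matrix model. -/
structure TpS (S : Set A) (e : A) (ρ : A →ₗ[F] Matrix (Fin n) (Fin n) F)
    (s : Matrix (Fin n) (Fin n) F →ₗ[F] A) : Prop where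
  mem : ∀ m, s m ∈ span F S
  fix : ∀ m, s m * e = s m
  sec : ∀ m, ρ (s m) = m
  mul : ∀ m m', s (m * m') = s m * s m'
  ret : ∀ a ∈ span F S, s (ρ a) = a * e

theorem tp_sec (hS : Nice F S) (he : e ∈ Irr F S) (h : MM F S e ρ) : ∃ s, TpS S e ρ s := by
  obtain ⟨g, hg⟩ := (ρ ∘ₗ (span F S).subtype).exists_rightInverse_of_surjective
    (LinearMap.range_eq_top.2 fun m => (h.surj m).elim fun a k => ⟨⟨a, k.1⟩, k.2⟩)
  have g1 : ∀ m, ρ (g m).1 = m := fun m => LinearMap.congr_fun hg m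
  let s := LinearMap.mulRight F e ∘ₗ (span F S).subtype ∘ₗ g
  have hs : ∀ m, s m = (g m).1 * e := fun _ => rfl
  have mem : ∀ m, s m ∈ span F S := fun m => hS.span_mul (g m).2 he.1.1
  have fix : ∀ m, s m * e = s m := fun m => by rw [hs, mul_assoc, he.2.1]
  have sec : ∀ m, ρ (s m) = m := fun m => by rw [hs, h.mul _ (g m).2 _ he.1.1, h.one, mul_one, g1]
  have ret : ∀ a ∈ span F S, s (ρ a) = a * e := fun a ha =>
    (fix _).symm.trans ((h.eq_e he.1.1 (mem _) ha).1 (sec _))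
  refine ⟨s, mem, fix, sec, fun m m' => ?_, ret⟩
  have := ret _ (hS.span_mul (mem m) (mem m'))
  rwa [h.mul _ (mem _) _ (mem _), sec, sec, mul_assoc, fix] at this

variable {s : Matrix (Fin n) (Fin n) F →ₗ[F] A}

theorem TpS.self (k : TpS S e ρ s) {a : A} (ha : a ∈ span F S) (h : a * e = a) : s (ρ a) = a :=
  (k.ret a ha).trans h

theorem TpS.one (k : TpS S e ρ s) (he : e ∈ Irr F S) (h : MM F S e ρ) : s 1 = e :=
  h.one ▸ k.self he.1.1 he.2.1

theorem TpS.mid (k : TpS S e ρ s) (he : e ∈ Irr F S) {b : A} (hb : b ∈ span F S) (m m') :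
    s m * b * s m' = s (m * ρ b * m') := by
  rw [k.mul, k.mul, k.ret b hb, ← Cen_comm he.1 hb, ← mul_assoc, k.fix]

theorem TpS.inj (k : TpS S e ρ s) : Function.Injective s := Function.LeftInverse.injective k.sec

theorem TpS.prim (k : TpS S e ρ s) (he : e ∈ Irr F S) {x y : Fin n → F} (h : y ⬝ᵥ x = 1) :
    Prim F S e (s (Matrix.vecMulVec x y)) :=
  ⟨k.mem _, k.fix _, by rw [← k.mul, tpa_mul, h, one_smul],
    fun z => tpa_ne h h (k.inj (z.trans (map_zero s).symm)),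
    fun b hb => ⟨_, by rw [k.mid he hb, tpa_mid, map_smul]⟩⟩

theorem TpS.of_prim (k : TpS S e ρ s) (h : Prim F S e j) :
    ∃ x y, y ⬝ᵥ x = 1 ∧ j = s (Matrix.vecMulVec x y) := by
  obtain ⟨a, b, c, d, f⟩ := h
  have e1 := k.self a b
  obtain ⟨x, y, p, q⟩ := tpa_prim (q := ρ j) (k.inj (by rw [k.mul, e1, c]))
    (fun z => d (by rw [← e1, z, map_zero])) fun m => (f _ (k.mem m)).imp fun t ht => k.inj (by
      rw [k.mul, k.mul, e1, ht, map_smul, e1])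
  exact ⟨x, y, p, by rw [← q, e1]⟩

theorem exists_Prim [IsAlgClosed F] (hS : Nice F S) (he : e ∈ Irr F S) : ∃ j, Prim F S e j := by
  obtain ⟨n, ρ, h⟩ := exists_MM hS he
  obtain ⟨s, k⟩ := tp_sec hS he h
  exact ⟨_, k.prim he (x := Pi.single ⟨0, h.pos⟩ 1) (y := Pi.single ⟨0, h.pos⟩ 1) (by simp)⟩

theorem MM.prim_iff (hS : Nice F S) (he : e ∈ Irr F S) (h : MM F S e ρ) (hj : j ∈ span F S)
    (h1 : j * e = j) (h2 : j * j = j) : Prim F S e j ↔ (ρ j).rank = 1 := by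
  obtain ⟨s, k⟩ := tp_sec hS he h
  rw [tpa_rank (by rw [← h.mul _ hj _ hj, h2])]
  constructor
  · intro p
    obtain ⟨x, y, a, rfl⟩ := k.of_prim p
    exact ⟨x, y, a, k.sec _⟩
  · rintro ⟨x, y, a, b⟩
    rw [← k.self hj h1, b]
    exact k.prim he a

theorem Prim.equiv [IsAlgClosed F] (hS : Nice F S) (he : e ∈ Irr F S) (h : Prim F S e j)
    (h' : Prim F S e j') : ∃ y ∈ span F S, ∃ y' ∈ span F S,
      j * y * j' = y ∧ j' * y' * j = y' ∧ y * y' = j ∧ y' * y = j' := by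
  obtain ⟨n, ρ, m⟩ := exists_MM hS he
  obtain ⟨s, k⟩ := tp_sec hS he m
  obtain ⟨x, y, a, rfl⟩ := k.of_prim h
  obtain ⟨x', y', a', rfl⟩ := k.of_prim h'
  refine ⟨_, k.mem (Matrix.vecMulVec x y'), _, k.mem (Matrix.vecMulVec x' y), ?_, ?_, ?_, ?_⟩ <;>
    simp only [← k.mul, tpa_mul, a, a', one_smul]

theorem Prim.conj [IsAlgClosed F] (hS : Nice F S) (he : e ∈ Irr F S) (h : Prim F S e j)
    (h' : Prim F S e j') : ∃ y ∈ span F S, ∃ y' ∈ span F S,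
      y * e = y ∧ y' * e = y' ∧ y * y' = e ∧ y' * y = e ∧ y * j * y' = j' := by
  obtain ⟨n, ρ, m⟩ := exists_MM hS he
  obtain ⟨s, k⟩ := tp_sec hS he m
  obtain ⟨x, y, a, rfl⟩ := k.of_prim h
  obtain ⟨x', y', a', rfl⟩ := k.of_prim h'
  obtain ⟨U, hU⟩ := tpa_conj a a'
  refine ⟨_, k.mem U.val, _, k.mem U.inv, k.fix _, k.fix _, ?_, ?_, ?_⟩
  · rw [← k.mul, U.val_inv, k.one he m]
  · rw [← k.mul, U.inv_val, k.one he m]
  · rw [← k.mul, ← k.mul, hU.eq, mul_assoc, U.val_inv, mul_one]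

/-- a nonzero element between two primitive idempotents is invertible and spans the corner. -/
theorem Prim.line [IsAlgClosed F] (hS : Nice F S) (he : e ∈ Irr F S) (h : Prim F S e j)
    (h' : Prim F S e j') {y : A} (hy : y ∈ span F S) (h1 : j * y * j' = y) (h0 : y ≠ 0) :
    (∃ y' ∈ span F S, j' * y' * j = y' ∧ y * y' = j ∧ y' * y = j') ∧
      ∀ b ∈ span F S, ∃ c : F, j * b * j' = c • y := by
  obtain ⟨n, ρ, m⟩ := exists_MM hS he
  obtain ⟨s, k⟩ := tp_sec hS he m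
  obtain ⟨x, z, a, rfl⟩ := k.of_prim h
  obtain ⟨x', z', a', rfl⟩ := k.of_prim h'
  rw [k.mid he hy, tpa_mid, map_smul] at h1
  generalize Matrix.vecMul z (ρ y) ⬝ᵥ x' = c at h1
  subst h1
  have c0 : c ≠ 0 := fun t => h0 (by rw [t, zero_smul])
  refine ⟨⟨c⁻¹ • s (Matrix.vecMulVec x' z), smul_mem _ _ (k.mem _), ?_, ?_, ?_⟩, fun b hb =>
    ⟨(Matrix.vecMul z (ρ b) ⬝ᵥ x') * c⁻¹, ?_⟩⟩
  · simp only [mul_smul_comm, smul_mul_assoc, ← k.mul, tpa_mul, a, a', one_smul]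
  · rw [mul_smul_comm, smul_mul_assoc, inv_smul_smul₀ c0, ← k.mul, tpa_mul, a', one_smul]
  · rw [mul_smul_comm, smul_mul_assoc, smul_inv_smul₀ c0, ← k.mul, tpa_mul, a, one_smul]
  · rw [k.mid he hb, tpa_mid, map_smul, mul_smul, inv_smul_smul₀ c0]

theorem Prim.chv [IsAlgClosed F] (hS : Nice F S) (he : e ∈ Irr F S) (h : Prim F S e j) :
    Chv F S e j = 1 := by
  obtain ⟨n, ρ, m⟩ := exists_MM hS he
  obtain ⟨s, k⟩ := tp_sec hS he m
  obtain ⟨x, y, a, rfl⟩ := k.of_prim h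
  rw [Chv_eq hS he m (k.mem _), k.sec, Matrix.trace_vecMulVec, dotProduct_comm, a]

section rep
variable {d : ℕ} {ρ₀ : A →ₗ[F] Matrix (Fin d) (Fin d) F} {t : Matrix (Fin d) (Fin d) F →ₗ[F] A}

theorem TpS.hom (k : TpS S e ρ₀ t)
    (hm : ∀ a ∈ span F S, ∀ b ∈ span F S, ρ (a * b) = ρ a * ρ b) (a b) :
    (ρ ∘ₗ t) (a * b) = (ρ ∘ₗ t) a * (ρ ∘ₗ t) b :=
  (congrArg ρ (k.mul a b)).trans (hm _ (k.mem a) _ (k.mem b))

theorem tp_mm [IsAlgClosed F] (hS : Nice F S) (he : e ∈ Irr F S)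
    (hm : ∀ a ∈ span F S, ∀ b ∈ span F S, ρ (a * b) = ρ a * ρ b) (h1 : ρ e = 1) (hn : 0 < n)
    (hs : n = dg F S e ∨ ∀ m, ∃ a ∈ span F S, ρ a = m) : MM F S e ρ := by
  obtain ⟨d, ρ₀, m⟩ := exists_MM hS he
  obtain ⟨t, k⟩ := tp_sec hS he m
  have i := tpa_inj (k.hom hm) ((congrArg ρ (k.one he m)).trans h1) hn m.pos
  refine ⟨hm, h1, fun a ha z => m.inj a ha (i ?_), hs.elim (fun c y => ?_) id, hn⟩
  · rw [map_zero, LinearMap.comp_apply, k.ret a ha, hm _ ha _ he.1.1, z, zero_mul]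
  · obtain rfl : n = d := c.trans (m.size hS he)
    obtain ⟨x, rfl⟩ := LinearMap.injective_iff_surjective.1 i y
    exact ⟨_, k.mem x, rfl⟩

end rep

/-- a unital representation of the block of the right size is a matrix model. -/
theorem MM.of_size [IsAlgClosed F] (hS : Nice F S) (he : e ∈ Irr F S)
    (hm : ∀ a ∈ span F S, ∀ b ∈ span F S, ρ (a * b) = ρ a * ρ b) (h1 : ρ e = 1)
    (hn : n = dg F S e) : MM F S e ρ :=
  tp_mm hS he hm h1 (hn ▸ (Dg_sq hS he).2) (.inl hn)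

/-- a unital representation whose commutant has no proper idempotent is a matrix model. -/
theorem MM.of_indec [IsAlgClosed F] (hS : Nice F S) (he : e ∈ Irr F S)
    (hm : ∀ a ∈ span F S, ∀ b ∈ span F S, ρ (a * b) = ρ a * ρ b) (h1 : ρ e = 1) (hn : 0 < n)
    (h : ∀ q : Matrix (Fin n) (Fin n) F, q * q = q → (∀ x ∈ S, q * ρ x = ρ x * q) →
      q = 0 ∨ q = 1) : MM F S e ρ := by
  obtain ⟨d, ρ₀, m⟩ := exists_MM hS he
  obtain ⟨t, k⟩ := tp_sec hS he m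
  refine MM.of_size hS he hm h1 ((tpa_indec (k.hom hm) ((congrArg ρ (k.one he m)).trans h1) hn
    m.pos fun q a b => h q a fun x hx => ?_).trans (m.size hS he).symm)
  have := b (ρ₀ x)
  rwa [LinearMap.comp_apply, k.ret x (subset_span hx), hm _ (subset_span hx) _ he.1.1, h1,
    mul_one] at this

/-- an onto representation is the matrix model of exactly one block. -/
theorem MM.of_surj [IsAlgClosed F] (hS : Nice F S)
    (hm : ∀ a ∈ span F S, ∀ b ∈ span F S, ρ (a * b) = ρ a * ρ b)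
    (hs : ∀ m, ∃ a ∈ span F S, ρ a = m) (hn : 0 < n) : ∃ e ∈ Irr F S, MM F S e ρ := by
  have : Nonempty (Fin n) := ⟨⟨0, hn⟩⟩
  obtain ⟨I, hI, sum⟩ := hS.irr_sum
  obtain ⟨a, ha, e1⟩ := hs 1
  have k := congrArg ρ (sum a ha)
  rw [map_sum, e1] at k
  obtain ⟨e, he, z⟩ := Finset.exists_ne_zero_of_sum_ne_zero (k.trans_ne one_ne_zero)
  have he' : e ∈ Irr F S := hI ▸ Finset.mem_coe.2 he
  rw [hm _ ha _ he'.1.1, e1, one_mul] at z
  refine ⟨e, he', tp_mm hS he' hm (tpa_cen ?_ z fun m => ?_) hn (.inr hs)⟩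
  · rw [← hm _ he'.1.1 _ he'.1.1, he'.2.1]
  · obtain ⟨b, hb, rfl⟩ := hs m
    rw [← hm _ he'.1.1 _ hb, ← hm _ hb _ he'.1.1, Cen_comm he'.1 hb]

/-- the trace of a representation is a combination of irreducible characters with natural
coefficients (characteristic zero is not needed). -/
theorem trace_decomp [IsAlgClosed F] (hS : Nice F S)
    (hm : ∀ a ∈ span F S, ∀ b ∈ span F S, ρ (a * b) = ρ a * ρ b) (he : e ∈ Irr F S) :
    ∃ s : ℕ, (ρ e).rank = s * dg F S e ∧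
      ∀ b ∈ span F S, (ρ (b * e)).trace = s * Chv F S e b := by
  obtain ⟨d, ρ₀, m⟩ := exists_MM hS he
  obtain ⟨t, k⟩ := tp_sec hS he m
  refine ⟨((ρ ∘ₗ t) (Matrix.single ⟨0, m.pos⟩ ⟨0, m.pos⟩ 1)).rank, ?_, fun b hb => ?_⟩
  · rw [m.size hS he, ← tpa_rk (k.hom hm), LinearMap.comp_apply, k.one he m]
  · rw [Chv_eq hS he m hb, ← tpa_tr (k.hom hm), LinearMap.comp_apply, k.ret b hb]

end Pool.Agent.Lib.MP_1ae3da_al.CT
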