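import Pool.Agent.Lib.MP_1ae3da_al.C.RCD
import Pool.Agent.Lib.MP_1ae3da_al.C.AGa
import Pool.Agent.Lib.MP_1ae3da_al.C.TP

/-! The idempotents of the group of order `p`. -/

namespace Pool.Agent.Lib.MP_1ae3da_al.CT

open Submodule

section
variable {F X : Type} [Field F] [Group X] {Q : Subgroup X} {x ε : MonoidAlgebra F X}

/-- the idempotent of a linear character. -/
noncomputable def rcaE (χ : Q →* Fˣ) : MonoidAlgebra F X :=
  (Nat.card Q : F)⁻¹ • ∑ᶠ q : Q, (χ q⁻¹ : F) • gu F X q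

theorem rca_one : rcaE (1 : Q →* Fˣ) = e0 F Q := by simp [rcaE, e0]

theorem rca_pow {g : X} {ζ : F} (h : gu F X g * x = ζ • x) (j : ℕ) :
    gu F X (g ^ j) * x = ζ ^ j • x := by
  induction j with
  | zero => rw [pow_zero, pow_zero, gu_one, one_mul, one_smul]
  | succ j ih => rw [pow_succ, ← gu_mul, mul_assoc, h, mul_smul_comm, ih, smul_smul, pow_succ']

theorem rca_comm {a : MonoidAlgebra F X} (h : ε ∈ span F (HX F Q)) (ha : a ∈ span F (HX F (CQ Q))) :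
    ε * a = a * ε := by
  refine span_comm' (fun s hs => (span_comm' (fun t ht => ?_) h).symm) ha
  obtain ⟨c, -, y, hy, rfl⟩ := hs
  obtain ⟨d, -, z, hz, rfl⟩ := ht
  rw [smul_mul_smul_comm, smul_mul_smul_comm, gu_mul, gu_mul, mul_comm c,
    Subgroup.mem_centralizer_iff.1 hy z hz]

variable [Finite X]

theorem rca_sum {α : MulAut X} (hQ : ∀ x, α x ∈ Q ↔ x ∈ Q) :
    ∑ᶠ q : Q, gu F X (α q) = ∑ᶠ q : Q, gu F X q :=
  finsum_comp_equiv (f := fun q : Q => gu F X q)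
    (Equiv.subtypeEquiv α.toEquiv fun x => (hQ x).symm)

theorem rca_mul (χ : Q →* Fˣ) (q : Q) :
    gu F X q * rcaE χ = (χ q : F) • rcaE χ ∧ rcaE χ * gu F X q = (χ q : F) • rcaE χ := by
  have := Fintype.ofFinite Q
  simp only [rcaE, finsum_eq_sum_of_fintype, mul_smul_comm, smul_mul_assoc, smul_comm (χ q : F),
    Finset.mul_sum, Finset.sum_mul, Finset.smul_sum, gu_mul]
  constructor
  · rw [← Equiv.sum_comp (Equiv.mulLeft q) fun y : Q => _ • _ • (χ q : F) • gu F X y]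
    refine Finset.sum_congr rfl fun y _ => ?_
    simp [smul_smul]
  · rw [← Equiv.sum_comp (Equiv.mulRight q) fun y : Q => _ • _ • (χ q : F) • gu F X y]
    refine Finset.sum_congr rfl fun y _ => ?_
    simp [smul_smul, mul_assoc, mul_comm (χ y : F)⁻¹]

theorem rca_mem (χ : Q →* Fˣ) : rcaE χ ∈ span F (HX F Q) := by
  have := Fintype.ofFinite Q
  rw [rcaE, finsum_eq_sum_of_fintype]
  exact smul_mem _ _ (sum_mem fun q _ => smul_mem _ _ (subset_span (aga_mem.2 q.2)))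

variable [CharZero F]

theorem rca_fix (χ : Q →* Fˣ) (h : ∀ q : Q, gu F X q * x = (χ q : F) • x) : rcaE χ * x = x := by
  have := Fintype.ofFinite Q
  rw [rcaE, finsum_eq_sum_of_fintype, smul_mul_assoc, Finset.sum_mul,
    Finset.sum_congr rfl fun (q : Q) _ => show ((χ q⁻¹ : F) • gu F X q) * x = x by
      rw [smul_mul_assoc, h, smul_smul, ← Units.val_mul, ← map_mul, inv_mul_cancel, map_one,
        Units.val_one, one_smul],
    Finset.sum_const, Finset.card_univ, ← Nat.card_eq_fintype_card, ← Nat.cast_smul_eq_nsmul F,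
    inv_smul_smul₀ (Nat.cast_ne_zero.2 Nat.card_pos.ne')]

theorem rca_irr (χ : Q →* Fˣ) : rcaE χ ∈ Irr F (HX F Q) := by
  refine ⟨⟨rca_mem χ, ?_⟩, rca_fix χ fun q => (rca_mul χ q).1, fun h => ?_, fun z hz => ?_⟩
  · rintro _ ⟨c, -, y, hy, rfl⟩
    rw [mul_smul_comm, smul_mul_assoc, (rca_mul χ ⟨y, hy⟩).1, (rca_mul χ ⟨y, hy⟩).2]
  · have := Fintype.ofFinite Q
    rw [rcaE, finsum_eq_sum_of_fintype, smul_eq_zero] at h
    exact (χ (1 : Q)⁻¹).ne_zero (Fintype.linearIndependent_iff.1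
      (gu_tg.ind.comp ((↑) : Q → X) Subtype.val_injective) (fun q => (χ q⁻¹ : F))
      (h.resolve_left (inv_ne_zero (Nat.cast_ne_zero.2 Nat.card_pos.ne'))) 1)
  · have k : span F (HX F Q) ≤ (span F {rcaE χ}).comap (LinearMap.mulRight F (rcaE χ)) := by
      refine span_le.2 ?_
      rintro _ ⟨c, -, y, hy, rfl⟩
      exact smul_mem _ _ (mem_span_singleton.2 ⟨_, (rca_mul χ ⟨y, hy⟩).1.symm⟩)
    obtain ⟨c, hc⟩ := mem_span_singleton.1 (k hz.1)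
    exact ⟨c, hc.symm⟩

theorem rca_eq (h : ε ∈ Irr F (HX F Q)) (χ : Q →* Fˣ)
    (k : ∀ q : Q, gu F X q * ε = (χ q : F) • ε) : ε = rcaE χ := by
  by_contra n
  exact h.2.2.1 ((rca_fix χ k).symm.trans (Irr_orth (rca_irr χ) h (Ne.symm n)))

end

variable {p : ℕ} {F X : Type} [Field F] [CharZero F] [IsAlgClosed F] [Group X] [Finite X]
  [Fact p.Prime] {Q : Subgroup X} {e e' ε ε' θ θ' i i' ψ ψ' η η' x y a b : MonoidAlgebra F X}

variable {k : Type} [Field k] {O R : Subring F} {r : F → k} {GG : Subgroup (RingAut F)}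
  {γ : RingAut (MonoidAlgebra F X)} {σ : RingAut F}

omit [CharZero F] [IsAlgClosed F] in
theorem rca_chi (hQ : Nat.card Q = p) {g : X} (hg : g ∈ Q) (h1 : g ≠ 1) {ζ : F}
    (hζ : ζ ^ p = 1) : ∃ χ : Q →* Fˣ, (χ ⟨g, hg⟩ : F) = ζ := by
  have h0 : ζ ≠ 0 := fun h => by
    rw [h, zero_pow (Fact.out : p.Prime).ne_zero] at hζ
    exact zero_ne_one hζ
  have a : ∀ x : Q, x ∈ Subgroup.zpowers (⟨g, hg⟩ : Q) := fun x => by
    obtain ⟨j, -, e⟩ := rg_gen hQ hg h1 x.2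
    exact ⟨j, Subtype.ext (by simp [e])⟩
  have b : orderOf (Units.mk0 ζ h0) ∣ orderOf (⟨g, hg⟩ : Q) := by
    rw [Subgroup.orderOf_mk, rg_order hQ hg h1]
    exact orderOf_dvd_of_pow_eq_one (Units.ext (by simpa using hζ))
  exact ⟨monoidHomOfForallMemZpowers a b, by rw [monoidHomOfForallMemZpowers_apply_gen]; rfl⟩

omit [CharZero F] [IsAlgClosed F] [Finite X] [Fact p.Prime] in
theorem rca_root (hQ : Nat.card Q = p) (h : ε ≠ 0) {q : X} (hq : q ∈ Q) {ζ : F}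
    (e : gu F X q * ε = ζ • ε) : ζ ^ p = 1 := by
  have k := rca_pow e p
  rw [rg_pow hQ hq, gu_one, one_mul] at k
  exact smul_left_injective F h (k.symm.trans (one_smul F _).symm)

theorem gu_e0 {q : X} (hq : q ∈ Q) : gu F X q * e0 F Q = e0 F Q ∧ e0 F Q * gu F X q = e0 F Q := by
  simpa [rca_one] using rca_mul (1 : Q →* Fˣ) ⟨q, hq⟩

theorem e0_irr : e0 F Q ∈ Irr F (HX F Q) := rca_one (F := F) (Q := Q) ▸ rca_irr 1

theorem e0_cen : e0 F Q ∈ Cen F (HX F (NQ Q)) := by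
  refine ⟨span_Hm_mono Subgroup.le_normalizer e0_irr.1.1, ?_⟩
  rintro _ ⟨c, -, n, hn, rfl⟩
  have := Fintype.ofFinite Q
  rw [mul_smul_comm, smul_mul_assoc, e0, mul_smul_comm, smul_mul_assoc]
  congr 2
  nth_rw 1 [← rca_sum (α := MulAut.conj n) fun x => (Subgroup.mem_normalizer_iff.1 hn x).symm]
  simp [finsum_eq_sum_of_fintype, Finset.mul_sum, Finset.sum_mul, gu_mul]

theorem e0_aut (h : SL F σ γ) {α : MulAut X} (hα : ∀ x, γ (gu F X x) = gu F X (α x))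
    (hQ : ∀ x, α x ∈ Q ↔ x ∈ Q) : γ (e0 F Q) = e0 F Q := by
  have := Fintype.ofFinite Q
  rw [e0, h, map_inv₀, map_natCast, finsum_eq_sum_of_fintype, map_sum]
  simp only [hα]
  rw [← finsum_eq_sum_of_fintype, rca_sum hQ, finsum_eq_sum_of_fintype]

theorem irrQ_eig (hQ : Nat.card Q = p) (h : ε ∈ Irr F (HX F Q)) {q : X} (hq : q ∈ Q) :
    ∃ ζ : F, ζ ^ p = 1 ∧ gu F X q * ε = ζ • ε := by
  have m : gu F X q ∈ span F (HX F Q) := subset_span (aga_mem.2 hq)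
  obtain ⟨ζ, e⟩ := h.2.2.2 _
    ⟨m, fun s hs => rca_comm m (span_Hm_mono (rg_le hQ) (subset_span hs))⟩
  exact ⟨ζ, rca_root hQ h.2.2.1 hq e, e⟩

theorem irrQ_ext (hQ : Nat.card Q = p) (h : ε ∈ Irr F (HX F Q)) (h' : ε' ∈ Irr F (HX F Q))
    {g : X} (hg : g ∈ Q) (h1 : g ≠ 1) {ζ : F} (e1 : gu F X g * ε = ζ • ε)
    (e2 : gu F X g * ε' = ζ • ε') : ε = ε' := by
  obtain ⟨χ, hχ⟩ := rca_chi hQ hg h1 (rca_root hQ h.2.2.1 hg e1)
  have key : ∀ x ∈ Irr F (HX F Q), gu F X g * x = ζ • x → x = rcaE χ := fun x hx e =>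
    rca_eq hx χ fun q => by
      obtain ⟨j, -, l⟩ := rg_gen hQ hg h1 q.2
      obtain rfl : q = ⟨g, hg⟩ ^ j := Subtype.ext l
      rw [map_pow, Units.val_pow_eq_pow_val, hχ]
      exact rca_pow e j
  rw [key ε h e1, key ε' h' e2]

theorem irrQ_ex (hQ : Nat.card Q = p) {g : X} (hg : g ∈ Q) (h1 : g ≠ 1) {ζ : F}
    (hζ : ζ ^ p = 1) : ∃ ε ∈ Irr F (HX F Q), gu F X g * ε = ζ • ε := by
  obtain ⟨χ, hχ⟩ := rca_chi hQ hg h1 hζ
  exact ⟨_, rca_irr χ, hχ ▸ (rca_mul χ ⟨g, hg⟩).1⟩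

theorem irrQ_ne (hQ : Nat.card Q = p) : ∃ ε ∈ Irr F (HX F Q), ε ≠ e0 F Q := by
  have hp : p.Prime := Fact.out
  have : NeZero (p : F) := ⟨Nat.cast_ne_zero.2 hp.ne_zero⟩
  obtain ⟨ζ, hζ⟩ := HasEnoughRootsOfUnity.exists_primitiveRoot F p
  obtain ⟨g, hg, h1⟩ := rg_exists hQ
  obtain ⟨ε, h, e⟩ := irrQ_ex hQ hg h1 hζ.pow_eq_one
  refine ⟨ε, h, fun k => hζ.ne_one hp.one_lt (smul_left_injective F h.2.2.1 ?_)⟩
  change ζ • ε = 1 • ε
  rw [← e, k, (gu_e0 hg).1, one_smul]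

theorem irrQ_comm (h : ε ∈ span F (HX F Q)) (ha : a ∈ span F (HX F (CQ Q))) : ε * a = a * ε :=
  rca_comm h ha

theorem rca_prim (hQ : Nat.card Q = p) (h : ε ∈ Irr F (HX F Q)) (h0 : ε ≠ e0 F Q) {g : X}
    (hg : g ∈ Q) (h1 : g ≠ 1) : ∃ ζ : F, IsPrimitiveRoot ζ p ∧ gu F X g * ε = ζ • ε := by
  obtain ⟨ζ, hζ, e⟩ := irrQ_eig hQ h hg
  have n : ζ ≠ 1 := fun k => h0 (irrQ_ext hQ h e0_irr hg h1 e (by rw [k, one_smul, (gu_e0 hg).1]))
  exact ⟨ζ, orderOf_eq_prime hζ n ▸ IsPrimitiveRoot.orderOf ζ, e⟩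

theorem irrQ_free (hQ : Nat.card Q = p) (h : ε ∈ Irr F (HX F Q)) (h0 : ε ≠ e0 F Q) {n : X}
    (hn : n ∈ NQ Q) (hc : n ∉ CQ Q) : ε * gu F X n * ε = 0 := by
  obtain ⟨g, hg, h1⟩ := rg_exists hQ
  obtain ⟨ζ, hζ, e⟩ := rca_prim hQ h h0 hg h1
  have m := (Subgroup.mem_normalizer_iff.1 hn g).1 hg
  obtain ⟨j, hj, l⟩ := rg_gen hQ hg h1 m
  have k : ζ ^ j • (ε * gu F X n * ε) = ζ ^ 1 • (ε * gu F X n * ε) := by
    rw [← smul_mul_assoc, ← smul_mul_assoc, ← rca_pow e j, ← l, ← h.1.2 _ (aga_mem.2 m),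
      mul_assoc ε, gu_mul, inv_mul_cancel_right, ← gu_mul, mul_assoc, mul_assoc, e, pow_one]
    simp only [mul_smul_comm, mul_assoc]
  by_contra n0
  obtain rfl := hζ.pow_inj hj (Fact.out : p.Prime).one_lt (smul_left_injective F n0 k)
  refine hc (Subgroup.mem_centralizer_iff.2 fun q hq => ?_)
  obtain ⟨i, -, rfl⟩ := rg_gen hQ hg h1 hq
  rw [pow_one, mul_inv_eq_iff_eq_mul] at l
  exact (Commute.pow_left (l.symm : Commute g n) i).eq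

theorem irrQ_gal (h : PM p O R r GG) (hQ : Nat.card Q = p) (h1 : ε ∈ Irr F (HX F Q))
    (h1' : ε' ∈ Irr F (HX F Q)) (h0 : ε ≠ e0 F Q) (h0' : ε' ≠ e0 F Q) :
    ∃ γ ∈ G0 O GG X, γ ε = ε' := by
  obtain ⟨g, hg, n⟩ := rg_exists hQ
  obtain ⟨ζ, hζ, e⟩ := rca_prim hQ h1 h0 hg n
  obtain ⟨ζ', hζ', e'⟩ := rca_prim hQ h1' h0' hg n
  obtain ⟨σ, hσ, f, k⟩ := h.cyc ζ ζ' hζ hζ'
  obtain ⟨γ, s, t⟩ := ga_aut σ (1 : MulAut X)
  refine ⟨γ, ⟨σ, hσ, f, s, t⟩, irrQ_ext hQ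
    (((TR.of_stb s ((ga_stb s t Q).2 fun _ => Iff.rfl)).irr.mem ε).2 h1) h1' hg n ?_ e'⟩
  rw [← k, ← s, ← e, map_mul, t]
  rfl

end Pool.Agent.Lib.MP_1ae3da_al.CT
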