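import Pool.Agent.Lib.MP_1ae3da_al.C.RCD
import Pool.Agent.Lib.MP_1ae3da_al.C.AGa
import Pool.Agent.Lib.MP_1ae3da_al.C.TP
import Pool.Agent.Lib.MP_1ae3da_al.C.TPa

/-! Characters: ranks, rationality, divisibility of the degrees. -/

namespace Pool.Agent.Lib.MP_1ae3da_al.CT

open Submodule

theorem rcb_le {F : Type} [Field F] [CharZero F] {n : ℕ} {q : Matrix (Fin n) (Fin n) F}
    (h : q * q = q) (k : ∀ a b, q * a * q * b * q = q * b * q * a * q) : q.rank ≤ 1 := by
  have s (a b c d x y) : (q * Matrix.single a b (1 : F) * q * Matrix.single c d (1 : F) * q) x y =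
      q x a * q b c * q d y := by
    simp [Matrix.mul_apply, Matrix.single_apply, ite_and]
  have t : q.trace * q.trace * q.trace = (q * q * q).trace := by
    simp only [Matrix.trace, Matrix.diag, Matrix.mul_apply, Finset.sum_mul, Finset.mul_sum]
    rw [Finset.sum_comm]
    refine Finset.sum_congr rfl fun x _ => Finset.sum_congr rfl fun y _ =>
      Finset.sum_congr rfl fun z _ => ?_
    have := congrFun (congrFun (k (Matrix.single x z 1) (Matrix.single z y 1)) x) y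
    rw [s, s] at this
    linear_combination this
  rw [h, h, tpa_trace h] at t
  have u : q.rank * q.rank * q.rank = q.rank := by exact_mod_cast t
  by_contra c
  have : 2 * 2 * q.rank ≤ q.rank * q.rank * q.rank := by gcongr <;> omega
  omega

section gen
variable {F A : Type} [Field F] [CharZero F] [IsAlgClosed F] [Ring A] [Algebra F A] {S : Set A}
  {e j b : A}

theorem chv_idem (hS : Nice F S) (he : e ∈ Irr F S) (hj : j ∈ span F S) (h : j * j = j) :
    ∃ n : ℕ, Chv F S e j = n ∧ (n = 0 ↔ j * e = 0) ∧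
      ((∀ a ∈ span F S, ∀ b ∈ span F S, j * a * j * b * j = j * b * j * a * j) → n ≤ 1) := by
  obtain ⟨n, ρ, m⟩ := exists_MM hS he
  have q : ρ j * ρ j = ρ j := by rw [← m.mul j hj j hj, h]
  refine ⟨(ρ j).rank, (Chv_eq hS he m hj).trans (tpa_trace q), ⟨fun c => m.inj j hj (tpa_rank0 c),
    fun c => by rw [(m.ker he.1.1 hj).2 c, Matrix.rank_zero]⟩, fun k => rcb_le q fun x y => ?_⟩
  obtain ⟨a, ha, rfl⟩ := m.surj x
  obtain ⟨b, hb, rfl⟩ := m.surj y
  have c := hS.mcl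
  have s : ∀ a ∈ span F S, ∀ b ∈ span F S,
      ρ (j * a * j * b * j) = ρ j * ρ a * ρ j * ρ b * ρ j := fun a ha b hb => by
    rw [m.mul _ (c _ (c _ (c _ hj _ ha) _ hj) _ hb) _ hj, m.mul _ (c _ (c _ hj _ ha) _ hj) _ hb,
      m.mul _ (c _ hj _ ha) _ hj, m.mul _ hj _ ha]
  rw [← s a ha b hb, ← s b hb a ha, k a ha b hb]
theorem chv_mul_e (hS : Nice F S) (he : e ∈ Irr F S) (hb : b ∈ span F S) :
    Chv F S e (b * e) = Chv F S e b := by
  obtain ⟨n, ρ, m⟩ := exists_MM hS he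
  rw [Chv_eq hS he m (hS.mcl _ hb _ he.1.1), Chv_eq hS he m hb, m.mul _ hb _ he.1.1, m.one, mul_one]
theorem chv_self (hS : Nice F S) (he : e ∈ Irr F S) : Chv F S e e = dg F S e := by
  obtain ⟨n, ρ, m⟩ := exists_MM hS he
  rw [m.chv_one hS.mcl he.1.1, m.dg_eq hS.mcl he.1.1]
theorem dvd_Dg_iff (hS : Nice F S) (he : e ∈ Irr F S) {p : ℕ} (hp : p.Prime) :
    p ∣ Dg F S e ↔ p ∣ dg F S e := by
  rw [(Dg_sq hS he).1, hp.prime.dvd_pow_iff_dvd two_ne_zero]

end gen

variable {p : ℕ} {F X : Type} [Field F] [CharZero F] [IsAlgClosed F] [Group X] [Finite X]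
  [Fact p.Prime] {Q : Subgroup X} {e e' ε ε' θ θ' i i' ψ ψ' η η' x y a b : MonoidAlgebra F X}

variable {k : Type} [Field k] {O R : Subring F} {r : F → k} {GG : Subgroup (RingAut F)}
  {γ : RingAut (MonoidAlgebra F X)} {σ : RingAut F}

/-- hint: `Prim.conj` and the trace property. -/
theorem chv_prim {H K : Subgroup X} (hK : K ≤ H) (he : e ∈ Irr F (HX F H))
    (hθ : θ ∈ Irr F (HX F K)) (h : Prim F (HX F K) θ i) (h' : Prim F (HX F K) θ i')
    (hx : x ∈ span F (HX F H)) (hc : ∀ s ∈ span F (HX F K), x * s = s * x) :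
    Chv F (HX F H) e (i * x) = Chv F (HX F H) e (i' * x) := by
  obtain ⟨y, hy, y', hy', -, -, -, q, rfl⟩ := Prim.conj (nice_Hm0 gu_tg K) hθ h h'
  have u : span F (HX F K) ≤ span F (HX F H) := span_mono (Hm_mono hK)
  have c : Mcl F (HX F H) := gu_tg.mcl H
  rw [mul_assoc y, mul_assoc y, chv_comm c he.1.1 (u hy) (c _ (c _ (u h.1) _ (u hy')) _ hx),
    mul_assoc, hc y hy, ← mul_assoc, mul_assoc i, q, h.2.1]

end Pool.Agent.Lib.MP_1ae3da_al.CT
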