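import Pool.Agent.Lib.MP_1ae3da_al.C.RCb

/-! Rationality and divisibility of the degrees. -/

namespace Pool.Agent.Lib.MP_1ae3da_al.CT

open Submodule

section mat
variable {F Y : Type} [Field F] [Group Y] [Fintype Y] {n : ℕ}

theorem rcj_avg (π : Y →* Matrix (Fin n) (Fin n) F) (hs : span F (Set.range π) = ⊤)
    (hn : (n : F) ≠ 0) (b : Matrix (Fin n) (Fin n) F) :
    ∑ g, π g * b * π g⁻¹ = ((Fintype.card Y : F) / n * b.trace) • (1 : Matrix _ _ F) := by
  have hc : ∀ m, m * ∑ g, π g * b * π g⁻¹ = (∑ g, π g * b * π g⁻¹) * m := by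
    intro m
    have hm : m ∈ span F (Set.range π) := hs.ge trivial
    induction hm using span_induction with
    | mem m k =>
      obtain ⟨y, rfl⟩ := k
      rw [Finset.mul_sum, Finset.sum_mul]
      refine Fintype.sum_equiv (Equiv.mulLeft y) _ _ fun g => ?_
      simp only [Equiv.coe_mulLeft, mul_inv_rev, map_mul, mul_assoc]
      rw [← map_mul π y⁻¹, inv_mul_cancel, map_one, mul_one]
    | zero => rw [zero_mul, mul_zero]
    | add a c _ _ p q => rw [add_mul, mul_add, p, q]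
    | smul c a _ p => rw [smul_mul_assoc, mul_smul_comm, p]
  obtain ⟨μ, hμ⟩ := Matrix.mem_range_scalar_of_commute_single
    (M := ∑ g, π g * b * π g⁻¹) fun i j _ => hc _
  have h1 : ∑ g, π g * b * π g⁻¹ = μ • (1 : Matrix _ _ F) := by
    rw [← hμ, Matrix.scalar_apply, Matrix.smul_one_eq_diagonal]
  have h2 := congrArg Matrix.trace h1
  rw [Matrix.trace_sum, Matrix.trace_smul, Matrix.trace_one, Fintype.card_fin] at h2
  have h3 : ∀ g, (π g * b * π g⁻¹).trace = b.trace := fun g => by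
    rw [Matrix.trace_mul_comm, ← mul_assoc, ← map_mul, inv_mul_cancel, map_one, one_mul]
  simp only [h3, Finset.sum_const, Finset.card_univ, nsmul_eq_mul, smul_eq_mul] at h2
  rw [h1]
  congr 1
  field_simp
  rw [h2]

theorem rcj_orth (π : Y →* Matrix (Fin n) (Fin n) F) (hs : span F (Set.range π) = ⊤)
    (hn : (n : F) ≠ 0) :
    ∑ g, (π g).trace • π g⁻¹ = ((Fintype.card Y : F) / n) • (1 : Matrix _ _ F) := by
  ext j l
  have h : ∀ i, ∑ g, π g i i * π g⁻¹ j l =
      (Fintype.card Y : F) / n * ((if i = j then 1 else 0) * if i = l then 1 else 0) := by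
    intro i
    have := congrFun (congrFun (rcj_avg π hs hn (Matrix.single i j 1)) i) l
    rw [Matrix.sum_apply, Matrix.smul_apply, Matrix.one_apply, smul_eq_mul] at this
    rw [← mul_assoc]
    convert this using 2 with g
    · rw [Matrix.mul_apply, Finset.sum_eq_single j]
      · simp
      · intro c _ hc
        rw [Matrix.mul_single_apply_of_ne _ _ _ _ _ hc, zero_mul]
      · simp
    · split_ifs with k
      · subst k; simp
      · rw [Matrix.trace_single_eq_of_ne _ _ _ k]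
  rw [Matrix.sum_apply]
  simp only [Matrix.smul_apply, smul_eq_mul, Matrix.trace, Matrix.diag_apply, Finset.sum_mul]
  rw [Finset.sum_comm]
  simp only [h]
  rw [← Finset.mul_sum, Finset.sum_eq_single j]
  · simp [Matrix.one_apply]
  · intro c _ hc
    simp [hc]
  · simp

theorem rcj_dvd [CharZero F] (π : Y →* Matrix (Fin n) (Fin n) F)
    (hs : span F (Set.range π) = ⊤) (hn : 0 < n) : n ^ 2 ∣ Fintype.card Y ^ 2 := by
  have hn' : (n : F) ≠ 0 := Nat.cast_ne_zero.2 hn.ne'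
  haveI : Nonempty (Fin n) := ⟨⟨0, hn⟩⟩
  have h1 : ∑ h, ∑ g, π (g * h * g⁻¹ * h⁻¹) =
      algebraMap F (Matrix _ _ F) (((Fintype.card Y : F) / n) ^ 2) := by
    have : ∀ h, ∑ g, π (g * h * g⁻¹ * h⁻¹) =
        ((Fintype.card Y : F) / n) • ((π h).trace • π h⁻¹) := fun h => by
      simp only [map_mul]
      rw [← Finset.sum_mul, rcj_avg π hs hn', smul_mul_assoc, one_mul, mul_smul]
    simp only [this]
    rw [← Finset.smul_sum, rcj_orth π hs hn', smul_smul, Algebra.algebraMap_eq_smul_one, sq]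
  have h2 : IsIntegral ℤ (∑ h, ∑ g, π (g * h * g⁻¹ * h⁻¹)) := by
    have k := (Algebra.IsIntegral.isIntegral (R := ℤ) (∑ h : Y, ∑ g : Y,
      MonoidAlgebra.of ℤ Y (g * h * g⁻¹ * h⁻¹))).map (MonoidAlgebra.lift ℤ _ Y π)
    simpa only [map_sum, MonoidAlgebra.lift_of] using k
  rw [h1, isIntegral_algebraMap_iff (algebraMap F _).injective] at h2
  have h3 : ((Fintype.card Y : F) / n) ^ 2 = algebraMap ℚ F (((Fintype.card Y : ℚ) / n) ^ 2) := by
    simp
  rw [h3, isIntegral_algebraMap_iff (algebraMap ℚ F).injective,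
    IsIntegrallyClosed.isIntegral_iff] at h2
  obtain ⟨z, hz⟩ := h2
  have hq : (n : ℚ) ≠ 0 := Nat.cast_ne_zero.2 hn.ne'
  have h4 : ((Fintype.card Y : ℤ) ^ 2 : ℤ) = (n : ℤ) ^ 2 * z := by
    have : ((Fintype.card Y : ℚ)) ^ 2 = (n : ℚ) ^ 2 * z := by
      rw [show (z : ℚ) = _ from hz]
      field_simp
    exact_mod_cast this
  exact_mod_cast (Dvd.intro _ h4.symm : ((n : ℤ)) ^ 2 ∣ _)

theorem rcj_tr [IsAlgClosed F] (O : Subring F) {m : ℕ} (hO : ∀ ξ : F, ξ ^ m = 1 → ξ ∈ O)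
    (M : Matrix (Fin n) (Fin n) F) (h : M ^ m = 1) : M.trace ∈ O := by
  rw [Matrix.trace_eq_sum_roots_charpoly]
  refine O.multiset_sum_mem _ fun ξ hξ => hO ξ ?_
  have h1 : ξ ∈ spectrum F M :=
    Matrix.mem_spectrum_iff_isRoot_charpoly.2 (Polynomial.isRoot_of_mem_roots hξ)
  have h2 := spectrum.pow_mem_pow M m h1
  rw [h] at h2
  rcases subsingleton_or_nontrivial (Matrix (Fin n) (Fin n) F) with k | k
  · simp at h2
  · rwa [spectrum.one_eq] at h2

end mat

variable {p : ℕ} {F X : Type} [Field F] [CharZero F] [IsAlgClosed F] [Group X] [Finite X]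
  [Fact p.Prime] {Q : Subgroup X} {e e' ε ε' θ θ' i i' ψ ψ' η η' x y a b : MonoidAlgebra F X}

variable {k : Type} [Field k] {O R : Subring F} {r : F → k} {GG : Subgroup (RingAut F)}
  {γ : RingAut (MonoidAlgebra F X)} {σ : RingAut F}

omit [CharZero F] [IsAlgClosed F] [Finite X] in
theorem rcj_hom {H : Subgroup X} (he : e ∈ Irr F (HX F H)) {n : ℕ}
    {ρ : MonoidAlgebra F X →ₗ[F] Matrix (Fin n) (Fin n) F} (h : MM F (HX F H) e ρ) :
    ∃ π : H →* Matrix (Fin n) (Fin n) F, (∀ g, π g = ρ (gu F X g)) ∧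
      ∀ g : H, gu F X g * e = e → π g = 1 := by
  have s : ∀ g ∈ H, gu F X g ∈ span F (HX F H) := fun g hg => subset_span (aga_mem.2 hg)
  have o : ∀ g ∈ H, gu F X g * e = e → ρ (gu F X g) = 1 := fun g hg k => by
    have := h.mul _ (s g hg) _ he.1.1
    rw [k, h.one, mul_one] at this
    exact this.symm
  exact ⟨⟨⟨fun g => ρ (gu F X g), o 1 (one_mem H) (one_mul e)⟩, fun g g' => by
    rw [← h.mul _ (s _ g.2) _ (s _ g'.2), gu_mul]; rfl⟩, fun _ => rfl, fun g => o g g.2⟩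

/-- hint: the eigenvalues of `ρ (gu x)` are `m`-th roots of unity, so `Chv e (gu x) ∈ O`
(`PM.mup`); hence `Chv (γ e) = Chv e` on the span (`Chv_nat`), and `Chv (γ e) e ≠ 0`. -/
theorem fix_g0 (h : PM p O R r GG) {H : Subgroup X} (he : e ∈ Irr F (HX F H)) {m : ℕ}
    (hm : ¬ p ∣ m) (h1 : ∀ g ∈ H, gu F X (g ^ m) * e = e) (hγ : γ ∈ G0 O GG X) : γ e = e := by
  obtain ⟨σ, -, hO, hσ, hx⟩ := hγ
  have hS : Nice F (HX F H) := nice_Hm0 gu_tg H
  have him : γ '' HX F H = HX F H :=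
    stb_image.1 ((ga_stb (δ := 1) hσ hx H).2 fun _ => Iff.rfl)
  have he' : γ e ∈ Irr F (HX F H) := him ▸ tc_irr hσ he
  obtain ⟨n, ρ, hρ⟩ := exists_MM hS he
  obtain ⟨π, hπ, hk⟩ := rcj_hom he hρ
  obtain ⟨l, hl⟩ := Chv_lin (F := F) (HX F H) e
  obtain ⟨l', hl'⟩ := Chv_lin (F := F) (HX F H) (γ e)
  have key : l' (γ e) = l (γ e) := by
    refine ta_ext (fun g hg => ?_) he'.1.1
    have s : gu F X g ∈ span F (HX F H) := subset_span (aga_mem.2 hg)
    have := Chv_nat hS he hσ s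
    rw [him, hx] at this
    rw [hl, hl', this]
    refine hO _ ?_
    rw [Chv_eq hS he hρ s, ← hπ ⟨g, hg⟩]
    refine rcj_tr O (m := m) (fun ξ k => h.mup ξ ⟨m, hm, k⟩) _ ?_
    rw [← map_pow]
    exact hk _ (h1 g hg)
  by_contra k
  rw [hl, hl', chv_self hS he', ← chv_mul_e hS he he'.1.1, Irr_orth he' he k, ← hl, map_zero]
    at key
  exact (Dg_sq hS he').2.ne' (Nat.cast_eq_zero.1 key)
/-- hint: `c = ∑ [s, t]` over representatives `s, t` of `H / L` is integral over the integers and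
`|L|² c e = ∑_{g, h ∈ H} [g, h] e = (|H|² / Dg) e` (`∑_g g b g⁻¹ e = |H| / n * Chv e b • e`,
`MM.t_eq`); a rational algebraic integer is an integer. -/
theorem Dg_dvd {H L : Subgroup X} (hL : L ≤ H) (hn : H ≤ NQ L) (he : e ∈ Irr F (HX F H))
    (h1 : ∀ g ∈ L, gu F X g * e = e) : Dg F (HX F H) e ∣ L.relIndex H ^ 2 := by
  have hS : Nice F (HX F H) := nice_Hm0 gu_tg H
  obtain ⟨n, ρ, hρ⟩ := exists_MM hS he
  obtain ⟨π, hπ, hk⟩ := rcj_hom he hρ
  haveI : (L.subgroupOf H).Normal := (Subgroup.normal_subgroupOf_iff_le_normalizer hL).2 hn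
  haveI := Fintype.ofFinite (H ⧸ L.subgroupOf H)
  have := rcj_dvd (QuotientGroup.lift (L.subgroupOf H) π fun g hg => hk g (h1 g hg)) ?_ hρ.pos
  · rw [hρ.dimsq hS he]
    rwa [← Nat.card_eq_fintype_card] at this
  refine eq_top_iff.2 fun m _ => ?_
  obtain ⟨a, ha, rfl⟩ := hρ.surj m
  induction ha using span_induction with
  | mem a k =>
    obtain ⟨c, -, g, hg, rfl⟩ := k
    rw [map_smul]
    exact smul_mem _ c (subset_span ⟨(⟨g, hg⟩ : H), hπ ⟨g, hg⟩⟩)
  | zero => rw [map_zero]; exact zero_mem _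
  | add a b _ _ p q => rw [map_add]; exact add_mem (p trivial) (q trivial)
  | smul c a _ p => rw [map_smul]; exact smul_mem _ c (p trivial)

end Pool.Agent.Lib.MP_1ae3da_al.CT
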