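import Pool.Agent.Lib.MP_1ae3da_al.C.TD

/-! Clifford correspondence. -/

namespace Pool.Agent.Lib.MP_1ae3da_al.CT

open Submodule

variable {F A G : Type} [Field F] [Ring A] [Algebra F A] [Group G] {u : G → A}
  {L H : Subgroup G} {e e' f : A}

theorem th_mono (h : L ≤ H) : span F (Hm F u L) ≤ span F (Hm F u H) := span_mono (Hm_mono h)

theorem th_hm {x : G} (h : x ∈ H) : u x ∈ Hm F u H := ⟨1, one_ne_zero, x, h, (one_smul F _).symm⟩

theorem th_u {x : G} (h : x ∈ H) : u x ∈ span F (Hm F u H) := subset_span (th_hm h)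

theorem th_cen {z : A} (hz : z ∈ span F (Hm F u H)) (h : ∀ x ∈ H, u x * z = z * u x) :
    z ∈ Cen F (Hm F u H) := ⟨hz, by
  rintro _ ⟨c, -, x, hx, rfl⟩
  rw [mul_smul_comm, smul_mul_assoc, h x hx]⟩

theorem IsAd.th_irr (hu : TG F u) {x : G} {a : RingAut A} (ha : IsAd F u x a)
    (hx : x ∈ Subgroup.normalizer (L : Set G)) (he : e ∈ Irr F (Hm F u L)) :
    a e ∈ Irr F (Hm F u L) := (irr_stb (ha.1.mem_SG (GG := ⊥)) (ha.stb hu hx)).2 he

theorem IsAd.th_span (hu : TG F u) {x : G} {a : RingAut A} (ha : IsAd F u x a) (hx : x ∈ H) {b : A}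
    (hb : b ∈ span F (Hm F u H)) : a b ∈ span F (Hm F u H) :=
  (span_stb (ha.1.mem_SG (GG := ⊥)) (ha.stb hu (Subgroup.le_normalizer hx))).2 hb

theorem IsAd.th_mul (hu : TG F u) {x y : G} {a a' a'' : RingAut A} (ha : IsAd F u x a)
    (ha' : IsAd F u y a') (ha'' : IsAd F u (x * y) a'') {b : A} (hb : b ∈ span F (Hm F u ⊤)) :
    a'' b = a (a' b) := by
  have k := ha'.th_span hu (H := ⊤) trivial hb
  obtain ⟨c, hc, h⟩ := hu.mul x y
  obtain ⟨v, -, hv, -⟩ := Hm_inv hu (th_hm (H := ⊤) (x := x * y) trivial)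
  have : a'' b * u (x * y) = a (a' b) * u (x * y) := smul_right_injective A hc (by
    dsimp only
    rw [← ha''.2.2 b hb, ← smul_mul_assoc, ← mul_smul_comm, ← h, mul_assoc, ha'.2.2 b hb,
      ← mul_assoc, ha.2.2 _ k, mul_assoc])
  rw [← (one_span hu (ha''.th_span hu (H := ⊤) trivial hb)).2, ← hv, ← mul_assoc, this, mul_assoc,
    hv, (one_span hu (ha.th_span hu (H := ⊤) trivial k)).2]

theorem IsAd.th_orth (hu : TG F u) {x : G} {a : RingAut A} (ha : IsAd F u x a)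
    (he : e ∈ Irr F (Hm F u L)) (hx : x ∈ Subgroup.normalizer (L : Set G)) (h : x ∉ St u e) :
    a e * e = 0 ∧ e * a e = 0 := by
  have k := th_mono le_top he.1.1
  have n : a e ≠ e := fun c => h ((mem_St hu k).2 ((ha.fix hu k).1 c))
  exact ⟨Irr_orth (ha.th_irr hu hx he) he n, Irr_orth he (ha.th_irr hu hx he) n.symm⟩

theorem le_inf_St (hu : TG F u) (hLH : L ≤ H) (he : e ∈ Irr F (Hm F u L)) : L ≤ H ⊓ St u e :=
  le_inf hLH (le_St hu he.1)

/-- outside the stabiliser `e * u x * e = 0`. -/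
theorem corner_zero (hu : TG F u) (he : e ∈ Irr F (Hm F u L)) {x : G}
    (hx : x ∈ Subgroup.normalizer (L : Set G)) (h : x ∉ St u e) : e * u x * e = 0 := by
  obtain ⟨a, ha⟩ := exists_ad hu x
  rw [mul_assoc, ha.2.2 e (th_mono le_top he.1.1), ← mul_assoc, (ha.th_orth hu he hx h).2, zero_mul]

theorem exists_under [IsAlgClosed F] [Finite G] (hu : TG F u) (hL : (Nat.card L : F) ≠ 0)
    (hf : f ∈ span F (Hm F u H)) (h0 : f ≠ 0) : ∃ e ∈ Irr F (Hm F u L), f * e ≠ 0 := by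
  obtain ⟨s, hs, k⟩ := Irr_sum hu hL
  rw [← (one_span hu hf).2, ← k, Finset.mul_sum] at h0
  obtain ⟨e, he, h⟩ := Finset.exists_ne_zero_of_sum_ne_zero h0
  exact ⟨e, hs ▸ he, h⟩

theorem exists_over [IsAlgClosed F] [Finite G] (hu : TG F u) (hH : (Nat.card H : F) ≠ 0)
    (he : e ∈ span F (Hm F u L)) (h0 : e ≠ 0) : ∃ f ∈ Irr F (Hm F u H), f * e ≠ 0 := by
  obtain ⟨s, hs, k⟩ := Irr_sum hu hH
  rw [← (one_span hu he).1, ← k, Finset.sum_mul] at h0
  obtain ⟨e, he, h⟩ := Finset.exists_ne_zero_of_sum_ne_zero h0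
  exact ⟨e, hs ▸ he, h⟩

/-- the relative trace from `T` to `H`. -/
noncomputable def thTr (a : G → RingAut A) (T H : Subgroup G) [Fintype (H ⧸ T.subgroupOf H)]
    (b : A) : A := ∑ q : H ⧸ T.subgroupOf H, a q.out b

section Tr
variable {a : G → RingAut A} {T : Subgroup G} [Fintype (H ⧸ T.subgroupOf H)] {b z : A}

omit [Fintype (H ⧸ T.subgroupOf H)] in
theorem th_out (hu : TG F u) (ha : ∀ x, IsAd F u x (a x)) (hb : b ∈ Cen F (Hm F u (H ⊓ T)))
    (x : H) : a (x : H ⧸ T.subgroupOf H).out b = a x b := by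
  obtain ⟨t, ht⟩ := QuotientGroup.mk_out_eq_mul (T.subgroupOf H) x
  rw [ht, Subgroup.coe_mul, (ha _).th_mul hu (ha _) (ha _) (th_mono le_top hb.1),
    (ha _).cen hu (H := H ⊓ T) ⟨t.1.2, t.2⟩ hb]

theorem thTr_cen (hu : TG F u) (ha : ∀ x, IsAd F u x (a x)) (hb : b ∈ Cen F (Hm F u (H ⊓ T))) :
    thTr a T H b ∈ Cen F (Hm F u H) := by
  have m : thTr a T H b ∈ span F (Hm F u H) :=
    sum_mem fun q _ => (ha _).th_span hu q.out.2 (th_mono inf_le_left hb.1)
  refine th_cen m fun x hx => ((ha x).fix hu (th_mono le_top m)).1 ?_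
  rw [thTr, map_sum, ← Equiv.sum_comp (MulAction.toPerm (⟨x, hx⟩ : H))
    fun q : H ⧸ T.subgroupOf H => a q.out b]
  refine Finset.sum_congr rfl fun q _ => ?_
  rw [← (ha _).th_mul hu (ha _) (ha _) (th_mono le_top hb.1), MulAction.toPerm_apply,
    ← MulAction.Quotient.coe_smul_out, th_out hu ha hb]
  rfl

theorem thTr_mul (hu : TG F u) (ha : ∀ x, IsAd F u x (a x)) (hz : z ∈ Cen F (Hm F u H)) (b : A) :
    thTr a T H (z * b) = z * thTr a T H b := by
  rw [thTr, thTr, Finset.mul_sum]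
  exact Finset.sum_congr rfl fun q _ => by rw [map_mul, (ha _).cen hu q.out.2 hz]

theorem thTr_smul (ha : ∀ x, IsAd F u x (a x)) (c : F) (b : A) :
    thTr a T H (c • b) = c • thTr a T H b := by
  rw [thTr, thTr, Finset.smul_sum]
  exact Finset.sum_congr rfl fun q _ => (ha _).1 c b

end Tr

section Cut
variable {a : G → RingAut A} [Fintype (H ⧸ (St u e).subgroupOf H)] {b z : A}

theorem thTr_cut (hu : TG F u) (ha : ∀ x, IsAd F u x (a x))
    (hn : H ≤ Subgroup.normalizer (L : Set G)) (he : e ∈ Irr F (Hm F u L))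
    (hb : b ∈ Cen F (Hm F u (H ⊓ St u e))) (h : b * e = b) : thTr a (St u e) H b * e = b := by
  rw [thTr, Finset.sum_mul, Finset.sum_eq_single ((1 : H) : H ⧸ (St u e).subgroupOf H)
    (fun q _ n => ?_) (by simp), th_out hu ha hb, (ha (1 : H)).cen hu (one_mem _) hb, h]
  rw [← h, map_mul, mul_assoc, ((ha _).th_orth hu he (hn q.out.2) fun c => n ?_).1, mul_zero]
  rw [← q.out_eq, eq_comm]
  exact QuotientGroup.eq.2 (by simpa [Subgroup.mem_subgroupOf] using c)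

omit [Fintype (H ⧸ (St u e).subgroupOf H)] in
theorem th_cut (hu : TG F u) (hLH : L ≤ H) (hn : H ≤ Subgroup.normalizer (L : Set G))
    (he : e ∈ Irr F (Hm F u L)) (hz : z ∈ Cen F (Hm F u H)) :
    z * e ∈ Cen F (Hm F u (H ⊓ St u e)) := by
  have m := th_mono (le_inf_St hu hLH he) he.1.1
  refine th_cen ?_ fun x hx => ?_
  · have : span F (Hm F u H) ≤ (span F (Hm F u (H ⊓ St u e))).comap
        (LinearMap.mulRight F e ∘ₗ LinearMap.mulLeft F e) := by
      rw [span_Hm, span_le]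
      rintro _ ⟨x, hx, rfl⟩
      change e * u x * e ∈ span F (Hm F u (H ⊓ St u e))
      by_cases c : x ∈ St u e
      · exact span_mul hu (span_mul hu m (th_u ⟨hx, c⟩)) m
      · rw [corner_zero hu he (hn hx) c]
        exact zero_mem _
    have k : e * z * e ∈ span F (Hm F u (H ⊓ St u e)) := this hz.1
    rwa [← Cen_comm hz (th_mono hLH he.1.1), mul_assoc, he.2.1] at k
  · rw [← mul_assoc, ← Cen_comm hz (th_u hx.1), mul_assoc, mul_assoc,
      (mem_St hu (th_mono le_top he.1.1)).1 hx.2]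

omit [Fintype (H ⧸ (St u e).subgroupOf H)] in
theorem th_e (hu : TG F u) (hLH : L ≤ H) (he : e ∈ Irr F (Hm F u L)) :
    e ∈ Cen F (Hm F u (H ⊓ St u e)) :=
  th_cen (th_mono (le_inf_St hu hLH he) he.1.1) fun _ hx =>
    (mem_St hu (th_mono le_top he.1.1)).1 hx.2

theorem thTr_irr (hu : TG F u) (ha : ∀ x, IsAd F u x (a x)) (hLH : L ≤ H)
    (hn : H ≤ Subgroup.normalizer (L : Set G)) (he : e ∈ Irr F (Hm F u L))
    (hf : f ∈ Irr F (Hm F u H)) (h : f * e ≠ 0) : thTr a (St u e) H (f * e) = f := by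
  have m := thTr_cen hu ha (th_e hu hLH he)
  obtain ⟨c, k⟩ := hf.2.2.2 _ m
  rw [← Cen_comm hf.1 m.1] at k
  have : (1 : F) • (f * e) = c • (f * e) := by
    rw [← smul_mul_assoc c, ← k, mul_assoc, thTr_cut hu ha hn he (th_e hu hLH he) he.2.1, one_smul]
  rw [thTr_mul hu ha hf.1, k, ← smul_left_injective F h this, one_smul]

end Cut

/-- Clifford's theorem.  hint: the sum of the `H`-orbit of `e` is a central idempotent. -/
theorem clifford [Finite G] (hu : TG F u) (hLH : L ≤ H)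
    (hn : H ≤ Subgroup.normalizer (L : Set G)) (hf : f ∈ Irr F (Hm F u H))
    (he : e ∈ Irr F (Hm F u L)) (he' : e' ∈ Irr F (Hm F u L)) (h : f * e ≠ 0) (h' : f * e' ≠ 0) :
    ∃ x ∈ H, u x * e = e' * u x := by
  choose a ha using exists_ad hu
  have := Fintype.ofFinite (H ⧸ (St u e).subgroupOf H)
  rw [← thTr_irr hu ha hLH hn he hf h, thTr_mul hu ha hf.1, mul_assoc, thTr, Finset.sum_mul] at h'
  obtain ⟨q, -, k⟩ := Finset.exists_ne_zero_of_sum_ne_zero (right_ne_zero_of_mul h')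
  refine ⟨q.out, q.out.2, ?_⟩
  rw [(ha _).2.2 e (th_mono le_top he.1.1),
    not_not.1 (mt (Irr_orth ((ha _).th_irr hu (hn q.out.2) he) he') k)]

/-- hint: the inverse sends `g` to the sum of its conjugates over `H / (H ⊓ St u e)`. -/
theorem c1_bij [Finite G] (hu : TG F u) (hLH : L ≤ H)
    (hn : H ≤ Subgroup.normalizer (L : Set G)) (he : e ∈ Irr F (Hm F u L)) :
    Set.BijOn (fun f => f * e) {f | f ∈ Irr F (Hm F u H) ∧ f * e ≠ 0}
      {g | g ∈ Irr F (Hm F u (H ⊓ St u e)) ∧ g * e = g} := by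
  choose a ha using exists_ad hu
  have := Fintype.ofFinite (H ⧸ (St u e).subgroupOf H)
  have eH := th_mono hLH he.1.1
  have eT := th_e hu hLH he
  refine ⟨fun f hf => ⟨⟨th_cut hu hLH hn he hf.1.1, ?_, hf.2, fun z hz => ?_⟩, ?_⟩,
    fun f hf f' hf' (k : f * e = f' * e) => ?_, fun g hg => ?_⟩
  · rw [mul_assoc, ← mul_assoc e, ← Cen_comm hf.1.1 eH, mul_assoc, he.2.1, ← mul_assoc, hf.1.2.1]
  · have m : z * e ∈ Cen F (Hm F u (H ⊓ St u e)) := ⟨span_mul hu hz.1 eT.1, fun s hs => by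
      rw [mul_assoc, eT.2 s hs, ← mul_assoc, hz.2 s hs, mul_assoc]⟩
    obtain ⟨c, k⟩ := hf.1.2.2.2 _ (thTr_cen hu ha m)
    refine ⟨c, ?_⟩
    dsimp only
    rw [← smul_mul_assoc, ← k, mul_assoc (thTr _ _ _ _), Cen_comm hf.1.1 eH, ← mul_assoc,
      ← mul_assoc, thTr_cut hu ha hn he m (by rw [mul_assoc, he.2.1])]
  · rw [mul_assoc, he.2.1]
  · rw [← thTr_irr hu ha hLH hn he hf.1 hf.2, k, thTr_irr hu ha hLH hn he hf'.1 hf'.2]
  · have m := thTr_cen hu ha hg.1.1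
    have k := thTr_cut hu ha hn he hg.1.1 hg.2
    have eg : e * g = g := (Cen_comm hg.1.1 eT.1).symm.trans hg.2
    refine ⟨_, ⟨⟨m, ?_, fun c => hg.1.2.2.1 (by rw [← k, c, zero_mul]), fun z hz => ?_⟩,
      k.symm ▸ hg.1.2.2.1⟩, k⟩
    · rw [← thTr_mul hu ha m, ← eg, ← mul_assoc, eg, k, hg.1.2.1]
    · obtain ⟨c, h⟩ := hg.1.2.2.2 _ (th_cut hu hLH hn he hz)
      exact ⟨c, by rw [← thTr_mul hu ha hz, ← thTr_smul ha, ← h, mul_assoc, eg]⟩

theorem c1_t [Finite G] (hu : TG F u) {t : A →ₗ[F] F} (ht : Tf F u t) (hLH : L ≤ H)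
    (hn : H ≤ Subgroup.normalizer (L : Set G)) (he : e ∈ Irr F (Hm F u L))
    (hf : f ∈ Irr F (Hm F u H)) (h : f * e ≠ 0) :
    t f = ((St u e).relIndex H : F) * t (f * e) := by
  choose a ha using exists_ad hu
  have := Fintype.ofFinite (H ⧸ (St u e).subgroupOf H)
  conv_lhs => rw [← thTr_irr hu ha hLH hn he hf h, thTr, map_sum]
  rw [Finset.sum_congr rfl fun q _ => ht.nat hu (σ := 1) (ha _).1 (ha _).2.1
    (th_mono le_top (th_cut hu hLH hn he hf.1).1), Finset.sum_const, nsmul_eq_mul,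
    Finset.card_univ, ← Nat.card_eq_fintype_card]
  rfl

theorem c1_dg [CharZero F] [Finite G] (hu : TG F u) (hLH : L ≤ H)
    (hn : H ≤ Subgroup.normalizer (L : Set G)) (he : e ∈ Irr F (Hm F u L))
    (hf : f ∈ Irr F (Hm F u H)) (h : f * e ≠ 0) :
    Dg F (Hm F u H) f = (St u e).relIndex H ^ 2 * Dg F (Hm F u (H ⊓ St u e)) (f * e) := by
  obtain ⟨t, ht⟩ := exists_Tf hu
  have k := ((c1_bij hu hLH hn he).1 ⟨hf, h⟩).1
  have c : Nat.card (H ⊓ St u e : Subgroup G) * (St u e).relIndex H = Nat.card H := by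
    rw [← ((St u e).subgroupOf H).card_mul_index, ← Subgroup.inf_subgroupOf_left,
      Nat.card_congr (Subgroup.subgroupOfEquivOfLe inf_le_left).toEquiv,
      Subgroup.inf_subgroupOf_left]
    rfl
  apply Nat.cast_injective (R := F)
  push_cast
  rw [Dg_eq hu ht hf.1.1 hf.2.1, Dg_eq hu ht k.1.1 k.2.1, c1_t hu ht hLH hn he hf h, ← c]
  push_cast
  ring

end Pool.Agent.Lib.MP_1ae3da_al.CT
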