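import Pool.Agent.Lib.MP_1ae3da_al.C.RCi
import Pool.Agent.Lib.MP_1ae3da_al.C.RCj
import Pool.Agent.Lib.MP_1ae3da_al.C.TH

/-! The blocks of the normaliser. -/

namespace Pool.Agent.Lib.MP_1ae3da_al.CT

open Submodule

variable {p : ℕ} {F X : Type} [Field F] [CharZero F] [IsAlgClosed F] [Group X] [Finite X]
  [Fact p.Prime] {Q : Subgroup X} {e e' ε ε' θ θ' i i' ψ ψ' η η' x y a b : MonoidAlgebra F X}

section
omit [CharZero F] [IsAlgClosed F] [Finite X] [Fact p.Prime]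

theorem rcc_inv (n : X) : gu F X n * gu F X n⁻¹ = 1 ∧ gu F X n⁻¹ * gu F X n = 1 := by
  rw [gu_mul, gu_mul, mul_inv_cancel, inv_mul_cancel]; exact ⟨gu_one, gu_one⟩

theorem rcc_CN : CQ Q ≤ NQ Q := Subgroup.centralizer_le_normalizer _

theorem rcc_KN : Kp p Q ≤ NQ Q := (kp_le Q).trans rcc_CN

theorem rcc_nK : NQ Q ≤ NQ (Kp p Q) := fun n hn =>
  Subgroup.mem_normalizer_iff.2 fun k => ⟨kp_conj hn, fun h => by
    simpa [mul_assoc] using kp_conj (inv_mem hn) h⟩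

theorem rcc_nC : NQ Q ≤ NQ (CQ Q) := by
  have key : ∀ n ∈ NQ Q, ∀ c ∈ CQ Q, n * c * n⁻¹ ∈ CQ Q := fun n hn c hc =>
    Subgroup.mem_centralizer_iff.2 fun q hq => by
      have h1 : n⁻¹ * q * n⁻¹⁻¹ ∈ Q := (Subgroup.mem_normalizer_iff.1 (inv_mem hn) q).1 hq
      have h2 := Subgroup.mem_centralizer_iff.1 hc _ h1
      calc q * (n * c * n⁻¹) = n * (n⁻¹ * q * n⁻¹⁻¹ * c) * n⁻¹ := by group
        _ = _ := by rw [h2]; group
  exact fun n hn => Subgroup.mem_normalizer_iff.2 fun k => ⟨key n hn k, fun h => by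
    simpa [mul_assoc] using key _ (inv_mem hn) _ h⟩

theorem rcc_KC (h : a ∈ span F (HX F (Kp p Q))) : a ∈ span F (HX F (CQ Q)) :=
  span_Hm_mono (kp_le Q) h

theorem rcc_top (a : MonoidAlgebra F X) : a ∈ span F (HX F (⊤ : Subgroup X)) := by
  rw [gu_span]; exact mem_top

theorem rcc_move {n : X} (h : gu F X n * a = b * gu F X n) : b = gu F X n * a * gu F X n⁻¹ := by
  rw [h, mul_assoc, (rcc_inv n).1, mul_one]

end

omit [IsAlgClosed F] [Fact p.Prime] in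
theorem rcc_card (H : Subgroup X) : (Nat.card H : F) ≠ 0 :=
  Nat.cast_ne_zero.2 Nat.card_pos.ne'

theorem psi_or_eta (h : x ∈ Irr F (HX F (NQ Q))) : x ∈ Psi F Q ∨ x ∈ Eta F Q := by
  have h1 := Cen_comm (e0_cen (F := F) (Q := Q)) h.1.1
  rcases Irr_idem h e0_cen e0_irr.2.1 with h2 | h2
  · exact .inr ⟨h, h1 ▸ h2⟩
  · exact .inl ⟨h, h1 ▸ h2⟩
theorem psi_gu (h : ψ ∈ Psi F Q) {q : X} (hq : q ∈ Q) : gu F X q * ψ = ψ := by
  have h1 := Cen_comm (e0_cen (F := F) (Q := Q)) h.1.1.1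
  rw [← h.2, ← h1, ← mul_assoc, (gu_e0 hq).1]
theorem bk_refl (h : x ≠ 0) : Bk F p Q x x := by
  obtain ⟨θ, h1, h2⟩ := exists_under gu_tg (rcc_card (Kp p Q)) (rcc_top x) h
  exact ⟨θ, h1, h2, h2⟩
/-- Clifford: the blocks of `K` under a block of `N` are conjugate. -/
theorem under_conj (h : x ∈ Irr F (HX F (NQ Q))) (hθ : θ ∈ Irr F (HX F (Kp p Q)))
    (hθ' : θ' ∈ Irr F (HX F (Kp p Q))) (h1 : x * θ ≠ 0) (h2 : x * θ' ≠ 0) :
    ∃ n ∈ NQ Q, θ' = gu F X n * θ * gu F X n⁻¹ := by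
  obtain ⟨n, hn, h3⟩ := clifford gu_tg rcc_KN rcc_nK h hθ hθ' h1 h2
  exact ⟨n, hn, rcc_move h3⟩
theorem bk_over (hx : x ∈ Irr F (HX F (NQ Q))) (hy : y ∈ Irr F (HX F (NQ Q))) (h : Bk F p Q x y)
    (hθ : θ ∈ Irr F (HX F (Kp p Q))) (h1 : x * θ ≠ 0) : y * θ ≠ 0 := by
  obtain ⟨θ0, h0, h2, h3⟩ := h
  obtain ⟨n, hn, rfl⟩ := under_conj hx h0 hθ h2 h1
  intro h4
  apply h3
  rw [← mul_assoc, ← mul_assoc, hy.1.2 _ (mem_Hm hn)] at h4
  have := congrArg (fun z => gu F X n⁻¹ * z * gu F X n) h4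
  simp only [← mul_assoc, (rcc_inv n).2, one_mul, mul_zero, zero_mul] at this
  rwa [mul_assoc _ _ (gu F X n), (rcc_inv n).2, mul_one] at this

theorem rcc_St (hQ : Nat.card Q = p) (h2 : ¬ p ^ 2 ∣ Nat.card X)
    (hθ : θ ∈ Irr F (HX F (Kp p Q))) (hε : ε ∈ Irr F (HX F Q)) (h0 : ε ≠ e0 F Q) :
    NQ Q ⊓ St (gu F X) (θ * ε) = CQ Q := by
  have hf := irrC hQ h2 hε hθ
  refine le_antisymm (fun n hn => ?_) (le_inf_St gu_tg rcc_CN hf)
  by_contra hc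
  have h1 := (gu_tg.mem_St_span hf.1.1).1 hn.2
  have h3 := irrQ_comm hε.1.1 (rcc_KC hθ.1.1)
  have h4 : θ * ε * gu F X n * (θ * ε) = 0 := by
    calc _ = θ * (ε * gu F X n * ε) * θ := by rw [← h3, ← mul_assoc, h3]; simp only [mul_assoc]
      _ = 0 := by rw [irrQ_free hQ hε h0 hn.1 hc, mul_zero, zero_mul]
  rw [mul_assoc, h1, ← mul_assoc, hf.2.1] at h4
  apply hf.2.2.1
  rw [← mul_one (θ * ε), ← (rcc_inv n).1, ← mul_assoc, h4, zero_mul]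

/-- hint: `f = θ ε` has `f n f = 0` off `C` (`irrQ_free`); `η = |C|⁻¹ ∑_{n ∈ N} n f n⁻¹`. -/
theorem eta_ex (hQ : Nat.card Q = p) (h2 : ¬ p ^ 2 ∣ Nat.card X)
    (hθ : θ ∈ Irr F (HX F (Kp p Q))) (hε : ε ∈ Irr F (HX F Q)) (h0 : ε ≠ e0 F Q) :
    ∃ η ∈ Eta F Q, η * (θ * ε) = θ * ε ∧
      ∀ y ∈ Irr F (HX F (NQ Q)), y * (θ * ε) ≠ 0 → y = η := by
  have hf := irrC hQ h2 hε hθ
  have hb := c1_bij gu_tg rcc_CN rcc_nC hf
  rw [rcc_St hQ h2 hθ hε h0] at hb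
  have key : ∀ y ∈ Irr F (HX F (NQ Q)), y * (θ * ε) ≠ 0 → y * (θ * ε) = θ * ε := by
    intro y hy h1
    obtain ⟨h3, h4⟩ := hb.mapsTo ⟨hy, h1⟩
    by_contra h5
    exact h1 (h4.symm.trans (Irr_orth h3 hf h5))
  obtain ⟨η, ⟨h3, h4⟩, -⟩ := hb.surjOn ⟨hf, hf.2.1⟩
  refine ⟨η, (psi_or_eta h3).resolve_left fun h5 => h4 ?_, key η h3 h4, fun y hy h1 =>
    hb.injOn ⟨hy, h1⟩ ⟨h3, h4⟩ ((key y hy h1).trans (key η h3 h4).symm)⟩
  rw [← h5.2, mul_assoc, ← mul_assoc (e0 F Q), irrQ_comm e0_irr.1.1 (rcc_KC hθ.1.1), mul_assoc,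
    Irr_orth e0_irr hε h0.symm, mul_zero, mul_zero]

theorem rcc_eps (h : η ∈ Eta F Q) (hθ : θ ∈ Irr F (HX F (Kp p Q))) (h1 : η * θ ≠ 0) :
    ∃ ε ∈ Irr F (HX F Q), ε ≠ e0 F Q ∧ η * (θ * ε) ≠ 0 := by
  obtain ⟨ε, h2, h3⟩ := exists_under gu_tg (rcc_card Q) (rcc_top _) h1
  refine ⟨ε, h2, ?_, mul_assoc η θ ε ▸ h3⟩
  rintro rfl
  apply h3
  rw [mul_assoc, ← irrQ_comm e0_irr.1.1 (rcc_KC hθ.1.1), ← mul_assoc, h.2, zero_mul]

theorem eta_tri (hQ : Nat.card Q = p) (h : η ∈ Eta F Q) (hθ : θ ∈ Irr F (HX F (Kp p Q)))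
    (h1 : η * θ ≠ 0) (hi : Prim F (HX F (Kp p Q)) θ i) : ∃ ε, Tri F p Q η θ i ε := by
  obtain ⟨ε, h2, h3, h4⟩ := rcc_eps h hθ h1
  exact ⟨ε, hθ, hi, h2, h3, h4⟩
theorem eta_conj (hQ : Nat.card Q = p) (h2 : ¬ p ^ 2 ∣ Nat.card X)
    (h : η ∈ Irr F (HX F (NQ Q))) (h1 : Tri F p Q η θ i ε) (h1' : Tri F p Q η θ' i' ε') :
    ∃ n ∈ NQ Q, θ' = gu F X n * θ * gu F X n⁻¹ ∧ ε' = gu F X n * ε * gu F X n⁻¹ := by
  have hf' := irrC hQ h2 h1'.irrQ h1'.irrK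
  obtain ⟨n, hn, h3⟩ := clifford gu_tg rcc_CN rcc_nC h (irrC hQ h2 h1.irrQ h1.irrK) hf'
    h1.ov h1'.ov
  obtain ⟨a, ha, -, h4, h5, h6, -⟩ := gm_ad (F := F) (p := p) (GG := ⊤) hn
  have h7 : θ' * ε' = a θ * a ε := by rw [← map_mul, h4]; exact rcc_move h3
  have i1 := (irr_stb ha.1.1 h6).2 h1.irrK
  have i2 := (irr_stb ha.1.1 h5).2 h1.irrQ
  refine ⟨n, hn, ?_, ?_⟩
  · rw [← h4]
    by_contra h8
    apply hf'.2.2.1
    rw [← h1'.irrK.2.1, mul_assoc, h7, ← mul_assoc, Irr_orth h1'.irrK i1 h8, zero_mul]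
  · rw [← h4]
    by_contra h8
    apply hf'.2.2.1
    rw [← h1'.irrQ.2.1, ← mul_assoc, h7, mul_assoc, Irr_orth i2 h1'.irrQ (Ne.symm h8), mul_zero]

theorem rcc_dg (hQ : Nat.card Q = p) (h2 : ¬ p ^ 2 ∣ Nat.card X)
    (hθ : θ ∈ Irr F (HX F (Kp p Q))) (hε : ε ∈ Irr F (HX F Q)) :
    Dg F (HX F (CQ Q)) (θ * ε) = Dg F (HX F (Kp p Q)) θ := by
  have h3 := irrQ_comm hε.1.1 (rcc_KC hθ.1.1)
  have e1 : (span F (HX F (CQ Q))).map (LinearMap.mulRight F (θ * ε)) =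
      ((span F (HX F (Kp p Q))).map (LinearMap.mulRight F θ)).map (LinearMap.mulRight F ε) := by
    apply le_antisymm
    · rintro _ ⟨a, ha, rfl⟩
      obtain ⟨b, hb, h4⟩ := irrQ_cut hQ h2 hε ha
      refine ⟨_, ⟨b, hb, rfl⟩, ?_⟩
      simp only [LinearMap.mulRight_apply]
      rw [← h3, ← mul_assoc, h4, mul_assoc, mul_assoc, h3]
    · rintro _ ⟨_, ⟨b, hb, rfl⟩, rfl⟩
      exact ⟨b, rcc_KC hb, by simp only [LinearMap.mulRight_apply, mul_assoc]⟩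
  unfold Dg
  rw [e1, ← LinearMap.range_domRestrict]
  refine LinearMap.finrank_range_of_inj ((injective_iff_map_eq_zero _).2 ?_)
  rintro ⟨_, b, hb, rfl⟩ h4
  exact Subtype.ext (irrQ_inj hQ h2 hε (gu_span_mul _ _ hb _ hθ.1.1) h4)

/-- hint: `Dg_dvd` for `ψ` (with `L = Q`) and for `θ` (with `L = ⊥`); `Dg η = [N:C]² Dg θ` by
`Dg_eq`. -/
theorem irrN_ndvd (hQ : Nat.card Q = p) (h2 : ¬ p ^ 2 ∣ Nat.card X)
    (h : x ∈ Irr F (HX F (NQ Q))) : ¬ p ∣ Dg F (HX F (NQ Q)) x := by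
  have hp : p.Prime := Fact.out
  intro hd
  rcases psi_or_eta h with h1 | h1
  · have h3 := hd.trans (Dg_dvd Subgroup.le_normalizer le_rfl h fun g hg => psi_gu h1 hg)
    exact rg_index hQ h2 ((hp.dvd_of_dvd_pow h3).trans
      (Subgroup.relIndex_dvd_index_of_le Subgroup.le_normalizer))
  · obtain ⟨θ, hθ, h3, -⟩ := bk_refl (p := p) (Q := Q) h.2.2.1
    obtain ⟨ε, hε, h4, h5⟩ := rcc_eps h1 hθ h3
    obtain ⟨η, -, h6, h7⟩ := eta_ex hQ h2 hθ hε h4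
    obtain rfl := h7 x h h5
    rw [c1_dg gu_tg rcc_CN rcc_nC (irrC hQ h2 hε hθ) h h5, ← Subgroup.inf_relIndex_right,
      inf_comm, rcc_St hQ h2 hθ hε h4, h6, rcc_dg hQ h2 hθ hε] at hd
    rcases hp.dvd_mul.1 hd with h8 | h8
    · exact rg_index_le hQ h2 (rg_le hQ) ((hp.dvd_of_dvd_pow h8).trans
        (Subgroup.relIndex_dvd_index_of_le rcc_CN))
    · have h9 := h8.trans (Dg_dvd (L := ⊥) bot_le (fun n _ => Subgroup.mem_normalizer_iff.2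
        fun k => by simp [mul_inv_eq_one]) hθ fun g hg => by
          rw [Subgroup.mem_bot.1 hg, gu_one, one_mul])
      rw [Subgroup.relIndex_bot_left] at h9
      exact kp_card hQ h2 (hp.dvd_of_dvd_pow h9)

theorem rcc_line (hQ : Nat.card Q = p) (h2 : ¬ p ^ 2 ∣ Nat.card X) (h1 : Tri F p Q η θ i ε)
    (ha : a ∈ span F (HX F (NQ Q))) : ∃ c : F, i * ε * a * (i * ε) = c • (i * ε) := by
  have h3 := irrQ_comm h1.irrQ.1.1 (rcc_KC h1.prim.1)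
  induction ha using span_induction with
  | mem s hs =>
    obtain ⟨d, -, n, hn, rfl⟩ := hs
    by_cases hc : n ∈ CQ Q
    · have h4 : gu F X n ∈ span F (HX F (CQ Q)) := subset_span (mem_Hm hc)
      obtain ⟨b, hb, h5⟩ := irrQ_cut hQ h2 h1.irrQ h4
      obtain ⟨c, h6⟩ := h1.prim.2.2.2.2 b hb
      refine ⟨d * c, ?_⟩
      have h7 : i * ε * gu F X n * (i * ε) = c • (i * ε) := by
        calc _ = i * (ε * gu F X n) * (i * ε) := by simp only [mul_assoc]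
          _ = i * b * (ε * i) * ε := by
            rw [irrQ_comm h1.irrQ.1.1 h4, h5]; simp only [mul_assoc]
          _ = i * b * i * (ε * ε) := by rw [h3]; simp only [mul_assoc]
          _ = _ := by rw [h6, h1.irrQ.2.1, smul_mul_assoc]
      rw [mul_smul_comm, smul_mul_assoc, h7, smul_smul]
    · refine ⟨0, ?_⟩
      have h7 : i * ε * gu F X n * (i * ε) = 0 := by
        calc _ = i * (ε * gu F X n * ε) * i := by
              rw [← h3, ← mul_assoc, h3]; simp only [mul_assoc]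
          _ = 0 := by rw [irrQ_free hQ h1.irrQ h1.ne hn hc, mul_zero, zero_mul]
      rw [mul_smul_comm, smul_mul_assoc, h7, smul_zero, zero_smul]
  | zero => exact ⟨0, by simp⟩
  | add a b _ _ ha hb =>
    obtain ⟨c, hc⟩ := ha
    obtain ⟨d, hd⟩ := hb
    exact ⟨c + d, by rw [mul_add, add_mul, hc, hd, add_smul]⟩
  | smul d a _ ha =>
    obtain ⟨c, hc⟩ := ha
    exact ⟨d * c, by rw [mul_smul_comm, smul_mul_assoc, hc, smul_smul]⟩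

/-- hint: `i ε F[N] i ε = F i ε`; `chv_idem`. -/
theorem chv_eta (hQ : Nat.card Q = p) (h2 : ¬ p ^ 2 ∣ Nat.card X)
    (h : η ∈ Irr F (HX F (NQ Q))) (h1 : Tri F p Q η θ i ε) (hy : y ∈ Irr F (HX F (NQ Q))) :
    (y = η → Chv F (HX F (NQ Q)) y (i * ε) = 1) ∧
      (y ≠ η → Chv F (HX F (NQ Q)) y (i * ε) = 0) := by
  have h3 := irrQ_comm h1.irrQ.1.1 (rcc_KC h1.prim.1)
  have hj : i * ε ∈ span F (HX F (NQ Q)) := gu_span_mul _ _ (span_Hm_mono rcc_KN h1.prim.1) _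
    (span_Hm_mono Subgroup.le_normalizer h1.irrQ.1.1)
  have hjj : i * ε * (i * ε) = i * ε := by
    calc _ = i * (ε * i) * ε := by simp only [mul_assoc]
      _ = i * i * (ε * ε) := by rw [h3]; simp only [mul_assoc]
      _ = _ := by rw [h1.prim.2.2.1, h1.irrQ.2.1]
  obtain ⟨η0, -, h4, h5⟩ := eta_ex hQ h2 h1.irrK h1.irrQ h1.ne
  obtain rfl := h5 η h h1.ov
  have h6 : i * ε * y = i * (y * (θ * ε)) := by
    have hf := span_Hm_mono rcc_CN (irrC hQ h2 h1.irrQ h1.irrK).1.1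
    rw [Cen_comm hy.1 hf, ← mul_assoc, ← mul_assoc, h1.prim.2.1]
  obtain ⟨n, h7, h8, h9⟩ := chv_idem (nice_Hm0 gu_tg _) hy hj hjj
  constructor
  · rintro rfl
    have k1 : n ≠ 0 := fun k => by
      have k2 := h8.1 k
      rw [h6, h4, ← mul_assoc, h1.prim.2.1] at k2
      exact h1.prim.2.2.2.1 (irrQ_inj hQ h2 h1.irrQ h1.prim.1 k2)
    have k2 : n ≤ 1 := h9 fun a ha b hb => by
      obtain ⟨c, hc⟩ := rcc_line hQ h2 h1 ha
      obtain ⟨d, hd⟩ := rcc_line hQ h2 h1 hb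
      rw [hc, hd, smul_mul_assoc, smul_mul_assoc, smul_mul_assoc, smul_mul_assoc, hc, hd,
        smul_comm]
    rw [h7, show n = 1 by omega, Nat.cast_one]
  · intro k
    have k1 : y * (θ * ε) = 0 := by
      by_contra k2
      exact k (h5 y hy k2)
    rw [h7, h8.2 (by rw [h6, k1, mul_zero]), Nat.cast_zero]

end Pool.Agent.Lib.MP_1ae3da_al.CT
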