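import Pool.Agent.Lib.MP_1ae3da_al.C.RCk

/-! The integers `mz`: values, Gram matrix, orbit sums. -/

namespace Pool.Agent.Lib.MP_1ae3da_al.CT

open Submodule

variable {p : ℕ} {F X : Type} [Field F] [CharZero F] [IsAlgClosed F] [Group X] [Finite X]
  [Fact p.Prime] {Q : Subgroup X} {e e' ε ε' θ θ' i i' ψ ψ' η η' x y a b : MonoidAlgebra F X}

variable {k : Type} [Field k] {O R : Subring F} {r : F → k} {GG : Subgroup (RingAut F)}
  {γ : RingAut (MonoidAlgebra F X)} {σ : RingAut F}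

variable {om : X → F} {T : MonoidAlgebra F X →ₗ[F] MonoidAlgebra F X}
  {Ty : Set (MonoidAlgebra F X) → MonoidAlgebra F X → Bool → Prop}

omit [CharZero F] [IsAlgClosed F] [Finite X] in
theorem rce_top (a : MonoidAlgebra F X) : a ∈ span F (HX F (⊤ : Subgroup X)) := by
  rw [gu_span]; trivial

omit [IsAlgClosed F] in
theorem rce_nice (H : Subgroup X) : Nice F (HX F H) := nice_Hm0 gu_tg H

omit [CharZero F] [IsAlgClosed F] [Finite X] in
theorem rce_gu {H : Subgroup X} {g : X} (hg : g ∈ H) : gu F X g ∈ span F (HX F H) :=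
  subset_span (aga_mem.2 hg)

omit [IsAlgClosed F] in
theorem rce_conj {H : Subgroup X} (he : e ∈ span F (HX F H)) (ha : a ∈ span F (HX F H)) {g : X}
    (hg : g ∈ H) : Chv F (HX F H) e (gu F X g * a * gu F X g⁻¹) = Chv F (HX F H) e a := by
  rw [chv_comm (rce_nice H).mcl he (gu_span_mul H _ (rce_gu hg) _ ha) (rce_gu (H.inv_mem hg)),
    ← mul_assoc, gu_mul, inv_mul_cancel, gu_one, one_mul]

omit [CharZero F] [IsAlgClosed F] [Finite X] in
theorem rce_sub (S : Set (MonoidAlgebra F X)) (e a b : MonoidAlgebra F X) :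
    Chv F S e (a - b) = Chv F S e a - Chv F S e b := by
  obtain ⟨l, hl⟩ := Chv_lin (F := F) S e
  rw [← hl, ← hl, ← hl, map_sub]

omit [Fact p.Prime] in
theorem rce_comm (hε : ε ∈ span F (HX F Q)) (ha : a ∈ span F (HX F (Kp p Q))) : ε * a = a * ε :=
  irrQ_comm hε (span_Hm_mono (kp_le Q) ha)

theorem rce_nat (he : e ∈ Irr F (HX F (⊤ : Subgroup X))) (hi : Prim F (HX F (Kp p Q)) θ i)
    (hε : ε ∈ Irr F (HX F Q)) : ∃ n : ℕ, Chv F (HX F ⊤) e (i * ε) = n := by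
  obtain ⟨n, hn, -⟩ := chv_idem (rce_nice ⊤) he (rce_top (i * ε)) (by
    rw [mul_assoc, ← mul_assoc ε, rce_comm hε.1.1 hi.1, mul_assoc, hε.2.1, ← mul_assoc, hi.2.2.1])
  exact ⟨n, hn⟩

/-- hint: `chv_idem` twice, `eta_conj`, `chv_prim`. -/
theorem mz_spec (hQ : Nat.card Q = p) (h2 : ¬ p ^ 2 ∣ Nat.card X)
    (he : e ∈ Irr F (HX F (⊤ : Subgroup X))) (hη : η ∈ Irr F (HX F (NQ Q)))
    (h : Tri F p Q η θ i ε) : (mz F p Q e η : F) = Chv F (HX F ⊤) e (i * (e0 F Q - ε)) := by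
  have hex : ∃ z : ℤ, ∃ θ i ε, Tri F p Q η θ i ε ∧
      Chv F (HX F ⊤) e (i * (e0 F Q - ε)) = z := by
    obtain ⟨n, hn⟩ := rce_nat he h.prim e0_irr
    obtain ⟨m, hm⟩ := rce_nat he h.prim h.irrQ
    exact ⟨n - m, θ, i, ε, h, by rw [mul_sub, rce_sub, hn, hm]; push_cast; rfl⟩
  rw [mz, dif_pos hex]
  obtain ⟨θ', i', ε', h', hz⟩ := hex.choose_spec
  rw [← hz]
  obtain ⟨n, hn, h3, h4⟩ := eta_conj hQ h2 hη h h'
  obtain ⟨a, -, hl, ha, -, hK, -, h0⟩ := gm_ad (p := p) (F := F) (GG := ⊤) hn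
  have hp : Prim F (HX F (Kp p Q)) θ' (a i) := by
    rw [h3, ← ha]; exact (TR.of_lin hl hK).prim.2 h.prim
  rw [chv_prim le_top he h'.irrK h'.prim hp (rce_top _) fun s hs =>
      rce_comm (sub_mem e0_irr.1.1 h'.irrQ.1.1) hs,
    ← rce_conj he.1.1 (rce_top (i * (e0 F Q - ε))) (Subgroup.mem_top n), ← ha, map_mul, map_sub,
    h0, h4, ← ha]

theorem rce_tri (hQ : Nat.card Q = p) (hη : η ∈ Eta F Q) : ∃ θ i ε, Tri F p Q η θ i ε := by
  obtain ⟨θ, hθ, h⟩ := (rce_nice (F := F) (Kp p Q)).exists_irr (f := η)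
    ⟨gu F X 1, aga_mem.2 (one_mem _), by rw [gu_one, mul_one], by rw [gu_one, mul_one]⟩ hη.1.2.2.1
  obtain ⟨i, hi⟩ := exists_Prim (rce_nice _) hθ
  obtain ⟨ε, hε⟩ := eta_tri hQ hη hθ h hi
  exact ⟨θ, i, ε, hε⟩

theorem mz_gm (hX : commutator X = ⊤) (hQ : Nat.card Q = p) (h2 : ¬ p ^ 2 ∣ Nat.card X)
    (hγ : γ ∈ Gm GG Q) (he : e ∈ Irr F (HX F (⊤ : Subgroup X))) (hη : η ∈ Eta F Q) :
    mz F p Q (γ e) (γ η) = mz F p Q e η := by
  obtain ⟨θ, i, ε, h⟩ := rce_tri hQ hη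
  obtain ⟨σ, -, α, hs, -, -, h3, h4, -, h0⟩ := gm_aut hX hQ h2 hγ
  have t1 := TR.of_stb hs hγ.1.2
  have t2 := TR.of_stb hs hγ.2
  have t3 := TR.of_stb hs h3
  have t4 := TR.of_stb hs h4
  have h' : Tri F p Q (γ η) (γ θ) (γ i) (γ ε) :=
    ⟨(t4.irr.mem _).2 h.irrK, t4.prim.2 h.prim, (t3.irr.mem _).2 h.irrQ,
      fun k => h.ne (γ.injective (k.trans h0.symm)),
      fun k => h.ov (γ.injective (by rw [map_mul, map_mul, k, map_zero]))⟩
  refine Int.cast_injective (α := F) ?_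
  rw [mz_spec hQ h2 ((t1.irr.mem _).2 he) ((t2.irr.mem _).2 hη.1) h', ← h0, ← map_sub, ← map_mul,
    t1.chv (rce_nice ⊤).mcl he.1.1 (rce_top _), ← mz_spec hQ h2 he hη.1 h, map_intCast]

omit [CharZero F] [IsAlgClosed F] [Finite X] in
open Classical in
theorem rce_cen [Fintype X] {H : Subgroup X} (ha : a ∈ span F (HX F H)) :
    ∑ g with g ∈ H, gu F X g * a * gu F X g⁻¹ ∈ Cen F (HX F H) := by
  refine ⟨sum_mem fun g hg => ?_, ?_⟩
  · have hg := (Finset.mem_filter.1 hg).2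
    exact gu_span_mul H _ (gu_span_mul H _ (rce_gu hg) _ ha) _ (rce_gu (H.inv_mem hg))
  · rintro _ ⟨c, -, x, hx, rfl⟩
    rw [mul_smul_comm, smul_mul_assoc, Finset.sum_mul, Finset.mul_sum]
    refine congrArg _ (Finset.sum_equiv (Equiv.mulLeft x) (fun g => ?_) fun g _ => ?_).symm
    · simp [H.mul_mem_cancel_left hx]
    · rw [Equiv.coe_mulLeft, mul_assoc _ (gu F X _), gu_mul, mul_inv_rev, inv_mul_cancel_right,
        ← gu_mul]
      simp only [mul_assoc]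

open Classical in
theorem rce_one [Fintype X] {H : Subgroup X} {t : MonoidAlgebra F X →ₗ[F] F}
    (ht : Tf F (gu F X) t) (he : e ∈ Irr F (HX F H)) (ha : a ∈ span F (HX F H))
    (hb : b ∈ span F (HX F H)) : t ((∑ g with g ∈ H, gu F X g * a * gu F X g⁻¹) * b * e) =
      Chv F (HX F H) e a * Chv F (HX F H) e b := by
  have hS := rce_nice (F := F) H
  obtain ⟨n, ρ, h⟩ := exists_MM hS he
  obtain ⟨c, hc⟩ := he.2.2.2 _ (rce_cen ha)
  have hH : (Nat.card H : F) ≠ 0 := Nat.cast_ne_zero.2 Nat.card_pos.ne'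
  have h1 := MM.t_eq gu_tg ht hH he h hb
  have h2 : c * n = Nat.card H * Chv F (HX F H) e a := by
    have := congrArg (Chv F (HX F H) e) hc
    rw [chv_mul_e hS he (rce_cen ha).1, chv_smul, h.chv_one hS.mcl he.1.1] at this
    obtain ⟨l, hl⟩ := Chv_lin (F := F) (HX F H) e
    rw [← this, ← hl, map_sum, Finset.sum_congr rfl fun g hg =>
      (hl _).trans (rce_conj he.1.1 ha (Finset.mem_filter.1 hg).2), Finset.sum_const, nsmul_eq_mul,
      Nat.card_eq_fintype_card, Fintype.card_subtype]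
  refine mul_left_cancel₀ hH ?_
  rw [mul_assoc _ b, te_cen he hb, ← mul_assoc _ e, hc, smul_mul_assoc, ← te_cen he hb, map_smul,
    smul_eq_mul, mul_left_comm, h1, ← mul_assoc, h2, Chv_eq hS he h hb, mul_assoc]

open Classical in
theorem rce_gram [Fintype X] {H : Subgroup X} {t : MonoidAlgebra F X →ₗ[F] F}
    (ht : Tf F (gu F X) t) (ha : a ∈ span F (HX F H)) (hb : b ∈ span F (HX F H)) :
    ∃ s : Finset (MonoidAlgebra F X), (s : Set _) = Irr F (HX F H) ∧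
      ∑ e ∈ s, Chv F (HX F H) e a * Chv F (HX F H) e b =
        ∑ g with g ∈ H, t (gu F X g * a * gu F X g⁻¹ * b) := by
  obtain ⟨s, hs, h⟩ := (rce_nice (F := F) H).irr_sum
  refine ⟨s, hs, ?_⟩
  rw [← map_sum, ← Finset.sum_mul, ← h _ (gu_span_mul H _ (rce_cen ha).1 _ hb), map_sum]
  exact Finset.sum_congr rfl fun e he => (rce_one ht (hs ▸ Finset.mem_coe.2 he) ha hb).symm

omit [CharZero F] [IsAlgClosed F] in
theorem rce_ti (hQ : Nat.card Q = p) (h2 : ¬ p ^ 2 ∣ Nat.card X)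
    {t : MonoidAlgebra F X →ₗ[F] F} (ht : Tf F (gu F X) t) (ha : a ∈ Sing F p Q)
    (hb : b ∈ Sing F p Q) {g : X} (hg : g ∉ NQ Q) : t (gu F X g * a * gu F X g⁻¹ * b) = 0 := by
  unfold Sing at ha hb
  induction ha using span_induction with
  | mem x hx =>
    induction hb using span_induction with
    | mem y hy =>
      obtain ⟨k, hk, q, hq, h1, rfl⟩ := hx
      obtain ⟨k', hk', q', hq', -, rfl⟩ := hy
      rw [gu_mul, gu_mul, gu_mul]
      refine ht.2 _ fun h => hg (rg_ti hQ h2 hq (Q.inv_mem hq') hk (inv_mem hk') h1 ?_).1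
      rw [kp_comm hq hk, ← mul_inv_rev]
      exact eq_inv_of_mul_eq_one_left h
    | zero => rw [mul_zero, map_zero]
    | add y z _ _ a b => rw [mul_add, map_add, a, b, add_zero]
    | smul c y _ a => rw [mul_smul_comm, map_smul, a, smul_zero]
  | zero => rw [mul_zero, zero_mul, zero_mul, map_zero]
  | add y z _ _ a b => rw [mul_add, add_mul, add_mul, map_add, a, b, add_zero]
  | smul c y _ a => rw [mul_smul_comm, smul_mul_assoc, smul_mul_assoc, map_smul, a, smul_zero]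

omit [CharZero F] [IsAlgClosed F] [Finite X] [Fact p.Prime] in
theorem rce_N (ha : a ∈ span F (HX F (Kp p Q))) (hε : ε ∈ span F (HX F Q)) :
    a ∈ span F (HX F (NQ Q)) ∧ a * ε ∈ span F (HX F (NQ Q)) :=
  have h := span_Hm_mono ((kp_le Q).trans (Subgroup.centralizer_le_normalizer _)) ha
  ⟨h, gu_span_mul _ _ h _ (span_Hm_mono Subgroup.le_normalizer hε)⟩

omit [Fact p.Prime] in
theorem rce_psi (hψ : ψ ∈ Psi F Q) (h : Tri F p Q η θ i ε) :
    Chv F (HX F (NQ Q)) ψ (i * (e0 F Q - ε)) = Chv F (HX F (NQ Q)) ψ i := by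
  have h0 := rce_N h.prim.1 (sub_mem e0_irr.1.1 h.irrQ.1.1)
  have h1 : e0 F Q * ψ = ψ := (Cen_comm e0_cen hψ.1.1.1).trans hψ.2
  have h3 : ε * ψ = 0 := by rw [← h1, ← mul_assoc, Irr_orth h.irrQ e0_irr h.ne, zero_mul]
  rw [← chv_mul_e (rce_nice _) hψ.1 h0.2, mul_assoc, sub_mul, h1, h3, sub_zero,
    chv_mul_e (rce_nice _) hψ.1 h0.1]

omit [Fact p.Prime] in
theorem rce_eta (hy : y ∈ Eta F Q) (h : Tri F p Q η θ i ε) :
    Chv F (HX F (NQ Q)) y (i * (e0 F Q - ε)) = - Chv F (HX F (NQ Q)) y (i * ε) := by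
  have h1 : e0 F Q * y = 0 := (Cen_comm e0_cen hy.1.1.1).trans hy.2
  have h3 := chv_smul (S := HX F (NQ Q)) y y (0 : F)
  rw [mul_sub, rce_sub, ← chv_mul_e (rce_nice _) hy.1 (rce_N h.prim.1 e0_irr.1.1).2, mul_assoc, h1,
    mul_zero, ← zero_smul F y, h3, zero_mul, zero_sub]

open Classical in
/-- hint: column orthogonality for `X` and for `N` (import C.RGram of helper26), `rg_ti` on `Sing`, then `chv_psi`,
`chv_eta`; take the same `θ`, `i` for both. -/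
theorem mz_gram (hQ : Nat.card Q = p) (h2 : ¬ p ^ 2 ∣ Nat.card X) (h : Om GG Q om T)
    (hη : η ∈ Eta F Q) (hη' : η' ∈ Eta F Q) (hb : Bk F p Q η η') :
    ∑ᶠ e ∈ Irr F (HX F (⊤ : Subgroup X)), mz F p Q e η * mz F p Q e η' =
      ({ψ | ψ ∈ Psi F Q ∧ Bk F p Q ψ η}.ncard : ℤ) + if η = η' then 1 else 0 := by
  have := Fintype.ofFinite X
  obtain ⟨θ, hθ, h3, h3'⟩ := hb
  obtain ⟨i, hi⟩ := exists_Prim (rce_nice _) hθ
  obtain ⟨ε, hε⟩ := eta_tri hQ hη hθ h3 hi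
  obtain ⟨ε', hε'⟩ := eta_tri hQ hη' hθ h3' hi
  obtain ⟨t, ht⟩ := exists_Tf (gu_tg (F := F) (X := X))
  obtain ⟨s, hs, h4⟩ := rce_gram ht (rce_top (i * (e0 F Q - ε))) (rce_top (i * (e0 F Q - ε')))
  obtain ⟨u, hu, h5⟩ := rce_gram ht (rce_N hi.1 (sub_mem e0_irr.1.1 hε.irrQ.1.1)).2
    (rce_N hi.1 (sub_mem e0_irr.1.1 hε'.irrQ.1.1)).2
  have hP : {ψ | ψ ∈ Psi F Q ∧ Bk F p Q ψ η} = ↑(u.filter fun ψ => ψ ∈ Psi F Q ∧ ψ * θ ≠ 0) := by
    ext ψ
    rw [Finset.coe_filter, Set.mem_ofPred_eq, Set.mem_ofPred_eq, ← Finset.mem_coe, hu]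
    exact ⟨fun ⟨a, θ', b, c, d⟩ => ⟨a.1, a, bk_over hη.1 a.1 ⟨θ', b, d, c⟩ hθ h3⟩,
      fun ⟨_, a, b⟩ => ⟨a, θ, hθ, b, h3⟩⟩
  have h6 : ∀ y ∈ u, Chv F (HX F (NQ Q)) y (i * (e0 F Q - ε)) *
      Chv F (HX F (NQ Q)) y (i * (e0 F Q - ε')) = (if y ∈ Psi F Q ∧ y * θ ≠ 0 then 1 else 0) +
        if y = η then (if η = η' then 1 else 0) else 0 := fun y hy => by
    have hy : y ∈ Irr F (HX F (NQ Q)) := hu ▸ Finset.mem_coe.2 hy
    have hd : y ∈ Psi F Q → y ∉ Eta F Q := fun a b => hy.2.2.1 (a.2.symm.trans b.2)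
    rcases psi_or_eta hy with a | a
    · rw [rce_psi a hε, rce_psi a hε', if_neg (fun k : y = η => hd a (k ▸ hη)), add_zero]
      by_cases k : y * θ = 0
      · rw [(chv_psi hQ h2 h hθ hi a).2 k, if_neg fun l => l.2 k, mul_zero]
      · rw [(chv_psi hQ h2 h hθ hi a).1 k, if_pos ⟨a, k⟩, mul_one]
    · rw [rce_eta a hε, rce_eta a hε', neg_mul_neg, if_neg fun l => hd l.1 a, zero_add]
      by_cases k : y = η
      · rw [if_pos k, (chv_eta hQ h2 hη.1 hε hy).1 k, one_mul]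
        by_cases l : η = η'
        · rw [if_pos l, (chv_eta hQ h2 hη'.1 hε' hy).1 (k.trans l)]
        · rw [if_neg l, (chv_eta hQ h2 hη'.1 hε' hy).2 fun m => l (k.symm.trans m)]
      · rw [if_neg k, (chv_eta hQ h2 hη.1 hε hy).2 k, zero_mul]
  refine Int.cast_injective (α := F) ?_
  rw [← hs, finsum_mem_coe_finset, hP, Set.ncard_coe_finset]
  push_cast
  rw [Finset.sum_congr rfl fun e he => congrArg₂ (· * ·)
      (mz_spec hQ h2 (hs ▸ Finset.mem_coe.2 he) hη.1 hε)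
      (mz_spec hQ h2 (hs ▸ Finset.mem_coe.2 he) hη'.1 hε'), h4,
    ← Finset.sum_subset (s₁ := Finset.univ.filter (· ∈ NQ Q)) (fun g _ => by simp) fun g _ hg =>
      rce_ti hQ h2 ht (sing_mem hQ hε.irrQ hi.1) (sing_mem hQ hε'.irrQ hi.1) (by simpa using hg),
    ← h5, Finset.sum_congr rfl h6, Finset.sum_add_distrib, Finset.sum_boole, Finset.sum_ite_eq',
    if_pos (Finset.mem_coe.1 (hu ▸ hη.1))]

end Pool.Agent.Lib.MP_1ae3da_al.CT
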