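import Mathlib

/-! The count of the vertices: integer vectors with a given Gram matrix. -/

namespace Pool.Agent.Lib.MP_1ae3da_al.CT

open Finset MulAction

section
variable {Γ X : Type} [Group Γ] [MulAction Γ X] [Fintype X]

open Classical in
/-- the orbit of `x` as a finite set. -/
noncomputable def rcntO (Γ : Type) {X : Type} [Group Γ] [MulAction Γ X] [Fintype X] (x : X) :
    Finset X := univ.filter fun y => y ∈ orbit Γ x

theorem rcnt_mem {x y : X} : y ∈ rcntO Γ x ↔ ∃ σ : Γ, σ • x = y := by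
  simp [rcntO, mem_orbit_iff]

theorem rcnt_self (x : X) : x ∈ rcntO Γ x := rcnt_mem.2 ⟨1, one_smul _ _⟩

theorem rcnt_smul {x y : X} (σ : Γ) : σ • y ∈ rcntO Γ x ↔ y ∈ rcntO Γ x := by
  simp only [rcnt_mem]
  exact ⟨fun ⟨τ, h⟩ => ⟨σ⁻¹ * τ, by rw [mul_smul, h, inv_smul_smul]⟩,
    fun ⟨τ, h⟩ => ⟨σ * τ, by rw [mul_smul, h]⟩⟩

theorem rcnt_eq {x y : X} (h : y ∈ rcntO Γ x) : rcntO Γ y = rcntO Γ x := by
  obtain ⟨σ, rfl⟩ := rcnt_mem.1 h
  ext z
  simp only [rcnt_mem]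
  exact ⟨fun ⟨τ, h⟩ => ⟨τ * σ, by rw [mul_smul, h]⟩,
    fun ⟨τ, h⟩ => ⟨τ * σ⁻¹, by rw [mul_smul, inv_smul_smul, h]⟩⟩

theorem rcnt_sum (x : X) (σ : Γ) (f : X → ℤ) :
    ∑ y ∈ rcntO Γ x, f (σ • y) = ∑ y ∈ rcntO Γ x, f y :=
  Finset.sum_equiv (MulAction.toPerm σ) (fun _ => (rcnt_smul σ).symm) fun _ _ => rfl

theorem rcnt_two (d : X → ℤ) (h2 : ∑ x, d x * d x = 2) (h0 : ∀ x, ∑ y ∈ rcntO Γ x, d y = 0)
    {a : X} (ha : d a ≠ 0) :
    (∃ b ∈ rcntO Γ a, b ≠ a) ∧ ∀ c, d c ≠ 0 → c ∈ rcntO Γ a := by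
  classical
  have sq : ∀ z : ℤ, z ≠ 0 → 1 ≤ z * z := fun z hz => by
    have := mul_self_pos.2 hz
    omega
  obtain ⟨b, hb, hba, hb0⟩ : ∃ b ∈ rcntO Γ a, b ≠ a ∧ d b ≠ 0 := by
    by_contra h
    refine ha ((Finset.sum_eq_single_of_mem a (rcnt_self (Γ := Γ) a) fun b hb hba => ?_).symm.trans
      (h0 a))
    by_contra h1
    exact h ⟨b, hb, hba, h1⟩
  refine ⟨⟨b, hb, hba⟩, fun c hc => ?_⟩
  by_contra hn
  have hca : c ≠ a := fun e => hn (by rw [e]; exact rcnt_self a)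
  have hcb : c ≠ b := fun e => hn (by rw [e]; exact hb)
  have le : ∑ x ∈ ({c, b, a} : Finset X), d x * d x ≤ ∑ x, d x * d x :=
    Finset.sum_le_sum_of_subset_of_nonneg (subset_univ _) fun x _ _ => mul_self_nonneg _
  rw [Finset.sum_insert (by simp [hca, hcb]), Finset.sum_pair hba, h2] at le
  linarith [sq _ ha, sq _ hb0, sq _ hc]

omit [Fintype X] in
theorem rcnt_card (s : Finset X) (f : X → ℤ) (h : ∀ x ∈ s, f x ≠ 0 → f x = 1 ∨ f x = -1) :
    ∑ x ∈ s, f x * f x = ({x | x ∈ s ∧ f x ≠ 0} : Set X).ncard := by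
  classical
  have e : ({x | x ∈ s ∧ f x ≠ 0} : Set X) = ↑(s.filter fun x => f x ≠ 0) := by ext; simp
  rw [e, Set.ncard_coe_finset, Finset.card_filter]
  push_cast
  refine Finset.sum_congr rfl fun x hx => ?_
  by_cases h0 : f x = 0
  · simp [h0]
  · rcases h x hx h0 with h1 | h1 <;> simp [h1]

variable {C : Type} [MulAction Γ C] {m : C → X → ℤ}

theorem rcnt_const (hm : ∀ (σ : Γ) i x, m (σ • i) (σ • x) = m i x)
    (orb : ∀ i x, |∑ y ∈ rcntO Γ x, m i y| ≤ 1) {x : X} (hx : ∀ i j, m i x = m j x) (i : C)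
    (h0 : m i x ≠ 0) : (m i x = 1 ∨ m i x = -1) ∧ ∀ σ : Γ, σ • x = x := by
  have e : ∑ y ∈ rcntO Γ x, m i y = (rcntO Γ x).card * m i x := by
    rw [Finset.sum_congr rfl (g := fun _ => m i x), Finset.sum_const, nsmul_eq_mul]
    intro y hy
    obtain ⟨σ, rfl⟩ := rcnt_mem.1 hy
    rw [hx i (σ⁻¹ • i), ← hm σ (σ⁻¹ • i) x, smul_inv_smul]
  have h1 := orb i x
  rw [e, abs_mul, Nat.abs_cast] at h1
  have h2 : 1 ≤ |m i x| := Int.one_le_abs h0
  have h3 : (1 : ℤ) ≤ (rcntO Γ x).card := by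
    exact_mod_cast Finset.card_pos.2 ⟨x, rcnt_self x⟩
  have h4 : |m i x| = 1 := by nlinarith
  have h5 : (rcntO Γ x).card ≤ 1 := by
    rw [h4, mul_one] at h1; exact_mod_cast h1
  exact ⟨abs_eq (by norm_num) |>.1 h4, fun σ =>
    Finset.card_le_one.1 h5 _ (rcnt_mem.2 ⟨σ, rfl⟩) _ (rcnt_self x)⟩

/-- the count, one class. -/
theorem rcnt_one (hm : ∀ (σ : Γ) i x, m (σ • i) (σ • x) = m i x)
    (orb : ∀ i x, |∑ y ∈ rcntO Γ x, m i y| ≤ 1) (hc : ∀ i j x, m i x = m j x) {e : ℕ} (i : C)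
    (gram : ∑ x, m i x * m i x = e + 1) :
    (∀ x, m i x ≠ 0 → (m i x = 1 ∨ m i x = -1) ∧ ∀ σ : Γ, σ • x = x) ∧
      {x | m i x ≠ 0}.ncard = e + 1 := by
  have h := fun x => rcnt_const hm orb (fun i j => hc i j x) i
  refine ⟨h, ?_⟩
  rw [rcnt_card univ _ fun x _ h0 => (h x h0).1] at gram
  simp only [mem_univ, true_and] at gram
  exact_mod_cast gram

/-- the count, at least two classes. -/
theorem rcnt_many [Fintype C] [DecidableEq C] [Nontrivial C] [IsPretransitive Γ C] {e : ℕ}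
    (hm : ∀ (σ : Γ) i x, m (σ • i) (σ • x) = m i x)
    (orb : ∀ i x, |∑ y ∈ rcntO Γ x, m i y| ≤ 1)
    (gram : ∀ i j, ∑ x, m i x * m j x = e + if i = j then 1 else 0) :
    ∃ (κ : C → X) (ε : ℤ), (ε = 1 ∨ ε = -1) ∧ (∀ (σ : Γ) i, κ (σ • i) = σ • κ i) ∧
      (∀ i j, m i (κ j) = if i = j then ε else 0) ∧
      (∀ x ∉ Set.range κ, (∀ i j, m i x = m j x) ∧
        ∀ i, m i x ≠ 0 → (m i x = 1 ∨ m i x = -1) ∧ ∀ σ : Γ, σ • x = x) ∧
      ∀ i, {x | x ∉ Set.range κ ∧ m i x ≠ 0}.ncard = e := by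
  classical
  have hS : ∀ i j x, ∑ y ∈ rcntO Γ x, m i y = ∑ y ∈ rcntO Γ x, m j y := fun i j x => by
    obtain ⟨σ, rfl⟩ := exists_smul_eq Γ i j
    rw [← rcnt_sum x σ (m (σ • i))]
    exact Finset.sum_congr rfl fun y _ => (hm σ i y).symm
  obtain ⟨i0, j0, h0⟩ := exists_pair_ne C
  have ip : ∀ j k, j ≠ i0 → k ≠ i0 →
      ∑ x, (m i0 x - m j x) * (m i0 x - m k x) = 1 + if j = k then 1 else 0 := fun j k hj hk => by
    have e1 : ∀ x, (m i0 x - m j x) * (m i0 x - m k x) =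
        m i0 x * m i0 x - m i0 x * m k x - m j x * m i0 x + m j x * m k x := fun x => by ring
    simp only [e1, Finset.sum_add_distrib, Finset.sum_sub_distrib, gram]
    rw [if_pos trivial, if_neg hk.symm, if_neg hj]; ring
  have ex : ∀ j k, j ≠ i0 → k ≠ i0 → ∃ x, m i0 x - m j x ≠ 0 ∧ m i0 x - m k x ≠ 0 :=
    fun j k hj hk => by
      have h := ip j k hj hk
      obtain ⟨x, -, hx⟩ := Finset.exists_ne_zero_of_sum_ne_zero
        (s := univ) (f := fun x => (m i0 x - m j x) * (m i0 x - m k x))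
        (by rw [h]; split_ifs <;> norm_num)
      exact ⟨x, mul_ne_zero_iff.1 hx⟩
  have two := fun j (hj : j ≠ i0) => @rcnt_two Γ X _ _ _ (fun x => m i0 x - m j x)
    (by rw [ip j j hj hj, if_pos rfl]; norm_num)
    (fun x => by rw [Finset.sum_sub_distrib, hS i0 j x, sub_self])
  obtain ⟨a, ha, -⟩ := ex j0 j0 h0.symm h0.symm
  set v := rcntO Γ a with hv
  have cst : ∀ x ∉ v, ∀ j, m j x = m i0 x := fun x hx j => by
    by_contra hn
    have hj : j ≠ i0 := fun e => hn (e ▸ rfl)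
    obtain ⟨y, h1, h2⟩ := ex j0 j h0.symm hj
    have k1 := (two j0 h0.symm ha).2 y h1
    have k2 := (two j hj h2).2 x (sub_ne_zero.2 (Ne.symm hn))
    rw [rcnt_eq k1] at k2
    exact hx k2
  set B := ∑ x ∈ vᶜ, m i0 x * m i0 x with hB
  have sv : ∀ i j, ∑ x ∈ v, m i x * m j x = (e - B) + if i = j then 1 else 0 := fun i j => by
    have h := gram i j
    rw [← Finset.sum_add_sum_compl v, Finset.sum_congr rfl (s₂ := vᶜ)
      (g := fun x => m i0 x * m i0 x) fun x hx => by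
        rw [cst x (mem_compl.1 hx) i, cst x (mem_compl.1 hx) j]] at h
    linarith
  set w := ∑ i, m i a with hw
  have wv : ∀ x ∈ v, ∑ i, m i x = w := fun x hx => by
    obtain ⟨σ, rfl⟩ := rcnt_mem.1 hx
    exact (Finset.sum_equiv (MulAction.toPerm σ) (by simp) fun i _ => (hm σ i a).symm).symm
  set δ := ∑ x ∈ v, m i0 x with hδ
  obtain ⟨c, hc⟩ : ∃ c : ℤ, c = ((Fintype.card C : ℕ) : ℤ) := ⟨_, rfl⟩
  obtain ⟨n, hn⟩ : ∃ n : ℤ, n = ((v.card : ℕ) : ℤ) := ⟨_, rfl⟩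
  have c2 : 2 ≤ c := by rw [hc]; exact_mod_cast Fintype.one_lt_card
  have n2 : 2 ≤ n := by
    obtain ⟨b, hb, hba⟩ := (two j0 h0.symm ha).1
    rw [hn]; exact_mod_cast Finset.one_lt_card.2 ⟨b, hb, a, rcnt_self a, hba⟩
  have e1 : n * w = c * δ := by
    have h : ∑ x ∈ v, ∑ i, m i x = ∑ i, ∑ x ∈ v, m i x := Finset.sum_comm
    rw [Finset.sum_congr rfl wv, Finset.sum_congr rfl fun i _ => hS i i0 a] at h
    rw [hn, hc]; simpa using h
  have e2 : n * (w * w) = c * (c * (e - B) + 1) := by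
    have h : ∑ x ∈ v, (∑ i, m i x) * ∑ j, m j x = ∑ i, ∑ j, ∑ x ∈ v, m i x * m j x := by
      simp only [Finset.sum_mul_sum]
      rw [Finset.sum_comm]
      exact Finset.sum_congr rfl fun i _ => Finset.sum_comm
    rw [Finset.sum_congr rfl fun x hx => by rw [wv x hx]] at h
    simp only [sv, Finset.sum_add_distrib, Finset.sum_ite_eq, mem_univ, if_true,
      Finset.sum_const, nsmul_eq_mul, Finset.card_univ, mul_one] at h
    rw [hn, hc, h]; ring
  have e3 : δ * w = c * (e - B) + 1 := mul_left_cancel₀ (a := c) (by omega)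
    (by linear_combination e2 - w * e1)
  have hδ1 : |δ| ≤ 1 := orb i0 a
  have t0 : 0 ≤ (e : ℤ) - B := by
    have h : 0 ≤ c * (c * (e - B) + 1) := e2 ▸ mul_nonneg (by omega) (mul_self_nonneg w)
    have h' : 0 ≤ c * (e - B) + 1 := nonneg_of_mul_nonneg_right h (by omega) |> fun h => h
    nlinarith
  have δ1 : δ = 1 ∨ δ = -1 := by
    have : δ ≠ 0 := fun h => by rw [h] at e3; nlinarith
    have := abs_le.1 hδ1
    omega
  have δ2 : δ * δ = 1 := by rcases δ1 with h | h <;> simp [h]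
  have e4 : n * (c * (e - B) + 1) = c := by linear_combination δ * e1 + c * δ2 - n * e3
  have t1 : (e : ℤ) - B = 0 := by
    by_contra h
    have h1 : 1 ≤ (e : ℤ) - B := by omega
    have h2 : c ≤ c * (e - B) := by nlinarith
    nlinarith
  have nc : n = c := by rw [t1] at e4; linarith
  have one : ∀ i, ∃ x ∈ v, m i x ≠ 0 ∧ ∀ y ∈ v, y ≠ x → m i y = 0 := fun i => by
    have h := sv i i
    rw [t1, if_pos rfl, zero_add] at h
    obtain ⟨x, hx, h1⟩ := Finset.exists_ne_zero_of_sum_ne_zero (h.trans_ne one_ne_zero)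
    refine ⟨x, hx, (mul_ne_zero_iff.1 h1).1, fun y hy hyx => ?_⟩
    have le : ∑ z ∈ ({y, x} : Finset X), m i z * m i z ≤ ∑ z ∈ v, m i z * m i z :=
      Finset.sum_le_sum_of_subset_of_nonneg (by simp [Finset.insert_subset_iff, hx, hy])
        fun z _ _ => mul_self_nonneg _
    rw [Finset.sum_pair hyx, h] at le
    have p0 := mul_self_pos.2 (mul_ne_zero_iff.1 h1).1
    have p1 : 1 ≤ m i x * m i x := by omega
    exact mul_self_eq_zero.1 (le_antisymm (by linarith) (mul_self_nonneg _))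
  choose κ k1 k2 k3 using one
  have kd : ∀ i, m i (κ i) = δ := fun i =>
    (Finset.sum_eq_single_of_mem (κ i) (k1 i) (k3 i)).symm.trans (hS i i0 a)
  have ko : ∀ i j, i ≠ j → m i (κ j) = 0 := fun i j hij => by
    have h := sv i j
    rw [t1, if_neg hij, zero_add, Finset.sum_eq_single_of_mem (κ j) (k1 j)
      fun y hy hyx => by rw [k3 j y hy hyx, mul_zero]] at h
    exact (mul_eq_zero.1 h).resolve_right (k2 j)
  have inj : Function.Injective κ := fun i j h => by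
    by_contra hij
    exact k2 i (h ▸ ko i j hij)
  have rg : ∀ x, x ∈ Set.range κ ↔ x ∈ v := by
    have h : univ.image κ = v := Finset.eq_of_subset_of_card_le
      (fun x hx => by obtain ⟨i, -, rfl⟩ := mem_image.1 hx; exact k1 i)
      (by rw [Finset.card_image_of_injective _ inj, Finset.card_univ]
          exact_mod_cast (hn.symm.trans (nc.trans hc)).le)
    intro x
    rw [← h]; simp
  have out : ∀ x ∉ v, ∀ i j, m i x = m j x := fun x hx i j => (cst x hx i).trans (cst x hx j).symm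
  refine ⟨κ, δ, δ1, fun σ i => ?_, fun i j => ?_, fun x hx => ?_, fun i => ?_⟩
  · by_contra h
    exact k2 i ((hm σ i (κ i)).symm.trans (k3 _ _ ((rcnt_smul σ).2 (k1 i)) (Ne.symm h)))
  · split_ifs with h
    · rw [← h, kd]
    · exact ko i j h
  · exact ⟨out x (mt (rg x).2 hx), rcnt_const hm orb (out x (mt (rg x).2 hx))⟩
  · have h := rcnt_card vᶜ (m i) fun x hx h0 =>
      (rcnt_const hm orb (out x (mem_compl.1 hx)) i h0).1
    rw [Finset.sum_congr rfl (g := fun x => m i0 x * m i0 x)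
      fun x hx => by rw [cst x (mem_compl.1 hx) i]] at h
    simp only [rg, ← mem_compl]
    have : (e : ℤ) = B := by linarith
    exact_mod_cast (this.trans h).symm

theorem rcnt_rel {r : C → C → Prop} [DecidableRel r] (hr : ∀ i, r i i) {e : ℕ}
    (gram : ∀ i j, ∑ x, m i x * m j x = e + if r i j then 1 else 0) (i j : C) :
    r i j ↔ m i = m j := by
  constructor
  · intro h
    have e1 : ∀ x, (m i x - m j x) * (m i x - m j x) =
        m i x * m i x - 2 * (m i x * m j x) + m j x * m j x := fun x => by ring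
    have h0 : ∑ x, (m i x - m j x) * (m i x - m j x) = 0 := by
      simp only [e1, Finset.sum_add_distrib, Finset.sum_sub_distrib, ← Finset.mul_sum, gram]
      rw [if_pos (hr i), if_pos (hr j), if_pos h]; ring
    funext x
    exact sub_eq_zero.1 (mul_self_eq_zero.1 ((Finset.sum_eq_zero_iff_of_nonneg
      fun x _ => mul_self_nonneg _).1 h0 x (mem_univ x)))
  · intro h
    have h1 := gram i j
    rw [← h, gram i i, if_pos (hr i)] at h1
    by_contra hn
    rw [if_neg hn] at h1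
    omega

/-- the count with a relation on the index set, at least two classes. -/
theorem rcnt_many' [Finite C] [IsPretransitive Γ C] {r : C → C → Prop} [DecidableRel r]
    (hr : ∀ i, r i i) (h2 : ∃ i j, ¬r i j) {e : ℕ}
    (hm : ∀ (σ : Γ) i x, m (σ • i) (σ • x) = m i x)
    (orb : ∀ i x, |∑ y ∈ rcntO Γ x, m i y| ≤ 1)
    (gram : ∀ i j, ∑ x, m i x * m j x = e + if r i j then 1 else 0) :
    ∃ (κ : C → X) (ε : ℤ), (ε = 1 ∨ ε = -1) ∧ (∀ (σ : Γ) i, κ (σ • i) = σ • κ i) ∧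
      (∀ i j, κ i = κ j ↔ r i j) ∧ (∀ i j, m i (κ j) = if r i j then ε else 0) ∧
      (∀ x ∉ Set.range κ, (∀ i j, m i x = m j x) ∧
        ∀ i, m i x ≠ 0 → (m i x = 1 ∨ m i x = -1) ∧ ∀ σ : Γ, σ • x = x) ∧
      ∀ i, {x | x ∉ Set.range κ ∧ m i x ≠ 0}.ncard = e := by
  classical
  have rel := rcnt_rel hr gram
  let D := {f : X → ℤ // f ∈ Set.range m}
  let act : MulAction Γ D :=
    { smul := fun σ f => ⟨fun x => f.1 (σ⁻¹ • x), by
        obtain ⟨l, hl⟩ := f.2
        exact ⟨σ • l, funext fun x => by rw [← hl, ← hm σ l (σ⁻¹ • x), smul_inv_smul]⟩⟩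
      one_smul := fun f => Subtype.ext (funext fun x => by
        change f.1 ((1 : Γ)⁻¹ • x) = f.1 x
        rw [inv_one, one_smul])
      mul_smul := fun σ τ f => Subtype.ext (funext fun x => by
        change f.1 ((σ * τ)⁻¹ • x) = f.1 (τ⁻¹ • σ⁻¹ • x)
        rw [mul_inv_rev, mul_smul]) }
  let q : C → D := fun i => ⟨m i, i, rfl⟩
  have qs : ∀ f : D, ∃ i, q i = f := fun f => f.2.imp fun _ h => Subtype.ext h
  have qe : ∀ (σ : Γ) i, q (σ • i) = σ • q i := fun σ i => Subtype.ext (funext fun x => by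
    change m (σ • i) x = m i (σ⁻¹ • x)
    rw [← hm σ i (σ⁻¹ • x), smul_inv_smul])
  have qr : ∀ i j, q i = q j ↔ r i j := fun i j => by rw [rel, Subtype.ext_iff]
  have : Finite D := Finite.of_surjective q qs
  let := Fintype.ofFinite D
  have : Nontrivial D := by
    obtain ⟨i, j, h⟩ := h2
    exact ⟨q i, q j, mt (qr i j).1 h⟩
  have : IsPretransitive Γ D := ⟨fun f g => by
    obtain ⟨i, rfl⟩ := qs f
    obtain ⟨j, rfl⟩ := qs g
    obtain ⟨σ, rfl⟩ := exists_smul_eq Γ i j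
    exact ⟨σ, (qe σ i).symm⟩⟩
  obtain ⟨κ, ε, h1, h3, h4, h5, h6⟩ := rcnt_many (Γ := Γ) (C := D) (m := fun f => f.1) (e := e)
    (fun σ f x => by change f.1 (σ⁻¹ • σ • x) = f.1 x; rw [inv_smul_smul])
    (fun f x => by obtain ⟨i, rfl⟩ := qs f; exact orb i x)
    (fun f g => by
      obtain ⟨i, rfl⟩ := qs f
      obtain ⟨j, rfl⟩ := qs g
      simp only [qr]
      exact gram i j)
  have rg : Set.range (fun i => κ (q i)) = Set.range κ :=
    Function.Surjective.range_comp (f := q) qs κ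
  have h7 : ∀ i j, m i (κ (q j)) = if r i j then ε else 0 := fun i j => by
    have := h4 (q i) (q j)
    simp only [qr] at this
    exact this
  have e0 : ε ≠ 0 := by rcases h1 with h | h <;> simp [h]
  refine ⟨fun i => κ (q i), ε, h1, fun σ i => (congrArg κ (qe σ i)).trans (h3 σ _),
    fun i j => ⟨fun h => ?_,
    fun h => congrArg κ ((qr i j).2 h)⟩, h7, fun x hx => ?_, fun i => ?_⟩
  · by_contra hn
    have := h7 i j
    rw [← show κ (q i) = κ (q j) from h, h7, if_pos (hr i), if_neg hn] at this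
    exact e0 this
  · rw [rg] at hx
    exact ⟨fun i j => (h5 x hx).1 (q i) (q j), fun i => (h5 x hx).2 (q i)⟩
  · rw [rg]; exact h6 (q i)

end

end Pool.Agent.Lib.MP_1ae3da_al.CT
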