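import Pool.Agent.Lib.MP_1ae3da_al.C.RCl
import Pool.Agent.Lib.MP_1ae3da_al.C.RCnt

/-! The count: the vertices of a block. -/

namespace Pool.Agent.Lib.MP_1ae3da_al.CT

section abs
open MulAction

theorem rcf_abs {Γ Y C : Type} [Group Γ] [MulAction Γ Y] [Fintype Y] [MulAction Γ C] [Finite C]
    [DecidableEq C] [IsPretransitive Γ C] {m : C → Y → ℤ} {n : ℕ}
    (hm : ∀ (σ : Γ) i x, m (σ • i) (σ • x) = m i x)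
    (orb : ∀ i x, |∑ y ∈ rcntO Γ x, m i y| ≤ 1)
    (gram : ∀ i j, ∑ x, m i x * m j x = n + if i = j then 1 else 0) (i0 : C) :
    {x | m i0 x ≠ 0}.ncard = n + 1 ∧ (∀ x, m i0 x ≠ 0 → m i0 x = 1 ∨ m i0 x = -1) ∧
    (∀ x, m i0 x ≠ 0 → ∀ σ : Γ, m i0 (σ • x) ≠ 0 → σ • x = x) ∧
    (∀ x y, m i0 x ≠ 0 → m i0 y ≠ 0 → (∃ σ : Γ, σ • x ≠ x) → (∃ σ : Γ, σ • y ≠ y) → x = y) ∧
    ∀ x, m i0 x ≠ 0 → (∀ y, m i0 y ≠ 0 → (∃ σ : Γ, σ • y ≠ y) → ∃ σ : Γ, σ • y = x) →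
      (∀ σ : Γ, ∃! i, m i (σ • x) ≠ 0) ∧ ∀ i, ∃! z, (∃ σ : Γ, σ • x = z) ∧ m i z ≠ 0 := by
  rcases subsingleton_or_nontrivial C with hC | hC
  · obtain ⟨h1, h2⟩ := rcnt_one hm orb (fun i j x => by rw [Subsingleton.elim i j]) (e := n) i0
      (by rw [gram, if_pos rfl])
    refine ⟨h2, fun x hx => (h1 x hx).1, fun x hx σ _ => (h1 x hx).2 σ,
      fun x y hx _ ⟨σ, h⟩ _ => (h ((h1 x hx).2 σ)).elim, fun x hx _ => ⟨fun σ => ?_, fun i => ?_⟩⟩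
    · exact ⟨i0, by rw [(h1 x hx).2 σ]; exact hx, fun _ _ => Subsingleton.elim _ _⟩
    · refine ⟨x, ⟨⟨1, one_smul _ _⟩, by rw [Subsingleton.elim i i0]; exact hx⟩, ?_⟩
      rintro _ ⟨⟨σ, rfl⟩, -⟩
      exact (h1 x hx).2 σ
  · let := Fintype.ofFinite C
    obtain ⟨κ, ε, h1, h3, h4, h5, h6⟩ := rcnt_many hm orb gram
    have e0 : ε ≠ 0 := by rcases h1 with h | h <;> simp [h]
    have k1 : ∀ i j, m i (κ j) ≠ 0 ↔ i = j := fun i j => by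
      rw [h4]; split_ifs with h <;> simp [h, e0]
    have k2 : ∀ x, m i0 x ≠ 0 → (∃ σ : Γ, σ • x ≠ x) → x = κ i0 := fun x hx ⟨σ, h⟩ => by
      by_cases hr : x ∈ Set.range κ
      · obtain ⟨j, rfl⟩ := hr
        rw [(k1 _ _).1 hx]
      · exact (h (((h5 x hr).2 i0 hx).2 σ)).elim
    have pm : ∀ x, m i0 x ≠ 0 → m i0 x = 1 ∨ m i0 x = -1 := fun x hx => by
      by_cases hr : x ∈ Set.range κ
      · obtain ⟨j, rfl⟩ := hr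
        rw [h4, if_pos ((k1 _ _).1 hx)]; exact h1
      · exact ((h5 x hr).2 i0 hx).1
    refine ⟨?_, pm, fun x hx σ hσ => ?_, fun x y hx hy a b => (k2 x hx a).trans (k2 y hy b).symm,
      fun x hx h => ?_⟩
    · have g := gram i0 i0
      rw [if_pos rfl, rcnt_card Finset.univ _ fun x _ h0 => pm x h0] at g
      simp only [Finset.mem_univ, true_and] at g
      exact_mod_cast g
    · by_contra hn
      have e1 := k2 x hx ⟨σ, hn⟩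
      rw [e1, ← h3] at hσ hn
      exact hn (congrArg κ ((k1 _ _).1 hσ).symm)
    · obtain ⟨j, hj⟩ := exists_ne i0
      obtain ⟨τ, rfl⟩ := exists_smul_eq Γ i0 j
      obtain ⟨ρ, rfl⟩ := h (κ i0) ((k1 _ _).2 rfl) ⟨τ, fun e => hj (by
        rw [← h3] at e
        exact ((k1 _ _).1 (by rw [e]; exact (k1 _ _).2 rfl)).symm)⟩
      simp only [← h3]
      refine ⟨fun σ => ⟨_, (k1 _ _).2 rfl, fun i hi => (k1 _ _).1 hi⟩, fun i => ?_⟩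
      obtain ⟨σ, hσ⟩ := exists_smul_eq Γ (ρ • i0) i
      refine ⟨κ i, ⟨⟨σ, by rw [hσ]⟩, (k1 _ _).2 rfl⟩, ?_⟩
      rintro _ ⟨⟨σ', rfl⟩, hz⟩
      rw [← (k1 _ _).1 hz]

end abs

open Classical in
theorem rcf_set {A : Type} [Ring A] (Γ : Subgroup (RingAut A)) {Xs Cs : Set A} (fX : Xs.Finite)
    (fC : Cs.Finite) (sX : ∀ γ ∈ Γ, ∀ x ∈ Xs, γ x ∈ Xs) (sC : ∀ γ ∈ Γ, ∀ i ∈ Cs, γ i ∈ Cs)
    (tr : ∀ i ∈ Cs, ∀ j ∈ Cs, ∃ γ ∈ Γ, γ i = j) {m : A → A → ℤ}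
    (hm : ∀ γ ∈ Γ, ∀ x ∈ Xs, ∀ i ∈ Cs, m (γ x) (γ i) = m x i) {Ob : A → Set A}
    (hO : ∀ x y, y ∈ Ob x ↔ ∃ γ ∈ Γ, y = γ x)
    (orb : ∀ x ∈ Xs, ∀ i ∈ Cs, |∑ᶠ y ∈ Ob x, m y i| ≤ 1) {n : ℕ}
    (gram : ∀ i ∈ Cs, ∀ j ∈ Cs, ∑ᶠ x ∈ Xs, m x i * m x j = n + if i = j then 1 else 0)
    {i0 : A} (h0 : i0 ∈ Cs) {W : Set (Set A)}
    (hW : ∀ v, v ∈ W ↔ ∃ x ∈ Xs, v = Ob x ∧ ∑ᶠ y ∈ Ob x, m y i0 ≠ 0) :
    W.ncard = n + 1 ∧ (∀ x ∈ Xs, m x i0 ≠ 0 → Ob x ∈ W ∧ (m x i0 = 1 ∨ m x i0 = -1)) ∧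
    (∀ v ∈ W, ∀ v' ∈ W, v.Nontrivial → v'.Nontrivial → v = v') ∧
    ∀ v ∈ W, (∀ v' ∈ W, v'.Nontrivial → v' = v) →
      (∀ x ∈ v, ∃! i, i ∈ Cs ∧ m x i ≠ 0) ∧ ∀ i ∈ Cs, ∃! x, x ∈ v ∧ m x i ≠ 0 := by
  let aX : MulAction Γ Xs :=
    { smul := fun γ x => ⟨γ.1 x.1, sX _ γ.2 _ x.2⟩
      one_smul := fun _ => rfl
      mul_smul := fun _ _ _ => rfl }
  let aC : MulAction Γ Cs :=
    { smul := fun γ x => ⟨γ.1 x.1, sC _ γ.2 _ x.2⟩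
      one_smul := fun _ => rfl
      mul_smul := fun _ _ _ => rfl }
  have := fC.to_subtype
  let := fX.fintype
  have : MulAction.IsPretransitive Γ Cs := ⟨fun i j => by
    obtain ⟨γ, g, e⟩ := tr _ i.2 _ j.2
    exact ⟨⟨γ, g⟩, Subtype.ext e⟩⟩
  have oe : ∀ x : Xs, Ob x.1 = Subtype.val '' (rcntO Γ x : Set Xs) := fun x => by
    ext y
    rw [hO]
    constructor
    · rintro ⟨γ, g, rfl⟩
      exact ⟨(⟨γ, g⟩ : Γ) • x, Finset.mem_coe.2 (rcnt_mem.2 ⟨_, rfl⟩), rfl⟩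
    · rintro ⟨z, hz, rfl⟩
      obtain ⟨γ, rfl⟩ := rcnt_mem.1 (Finset.mem_coe.1 hz)
      exact ⟨γ.1, γ.2, rfl⟩
  have os : ∀ (x : Xs) (f : A → ℤ), ∑ᶠ y ∈ Ob x.1, f y = ∑ y ∈ rcntO Γ x, f y.1 := fun x f => by
    rw [oe, finsum_mem_image Subtype.val_injective.injOn, finsum_mem_coe_finset]
  obtain ⟨c1, c2, c3, c4, c5⟩ := rcf_abs (Γ := Γ) (Y := Xs) (C := Cs)
    (m := fun i x => m x.1 i.1) (n := n) (fun σ i x => hm _ σ.2 _ x.2 _ i.2)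
    (fun i x => by rw [← os x fun y => m y i.1]; exact orb _ x.2 _ i.2)
    (fun i j => by
      rw [← finsum_eq_sum_of_fintype, finsum_set_coe_eq_finsum_mem (f := fun x => m x i.1 * m x j.1),
        gram _ i.2 _ j.2]
      simp only [Subtype.ext_iff]) ⟨i0, h0⟩
  have self : ∀ x, x ∈ Ob x := fun x => (hO _ _).2 ⟨1, one_mem _, rfl⟩
  have oo : ∀ x y : Xs, Ob x.1 = Ob y.1 → ∃ σ : Γ, σ • x = y := fun x y h => by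
    obtain ⟨γ, g, e⟩ := (hO _ _).1 (h ▸ self y.1)
    exact ⟨⟨γ, g⟩, Subtype.ext e.symm⟩
  have eW : W = (fun x : Xs => Ob x.1) '' {x | m x.1 i0 ≠ 0} := by
    ext v
    rw [hW]
    constructor
    · rintro ⟨x, hx, rfl, h⟩
      rw [os ⟨x, hx⟩ fun y => m y i0] at h
      obtain ⟨y, hy, h1⟩ := Finset.exists_ne_zero_of_sum_ne_zero h
      exact ⟨y, h1, by change Ob y.1 = Ob (⟨x, hx⟩ : Xs).1; rw [oe, oe, rcnt_eq hy]⟩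
    · rintro ⟨x, hx, rfl⟩
      refine ⟨x.1, x.2, rfl, ?_⟩
      rw [os x fun y => m y i0, Finset.sum_eq_single_of_mem x (rcnt_self x)]
      · exact hx
      · intro y hy hyx
        obtain ⟨σ, rfl⟩ := rcnt_mem.1 hy
        by_contra hn
        exact hyx (c3 x hx σ hn)
  have nt : ∀ x : Xs, (Ob x.1).Nontrivial ↔ ∃ σ : Γ, σ • x ≠ x := fun x => by
    constructor
    · intro h
      obtain ⟨y, hy, hne⟩ := h.exists_ne x.1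
      obtain ⟨γ, g, rfl⟩ := (hO _ _).1 hy
      exact ⟨⟨γ, g⟩, fun e => hne (congrArg Subtype.val e)⟩
    · rintro ⟨σ, h⟩
      exact ⟨_, (hO _ _).2 ⟨σ.1, σ.2, rfl⟩, _, self _, fun e => h (Subtype.ext e)⟩
  subst eW
  refine ⟨?_, fun x hx h => ⟨⟨⟨x, hx⟩, h, rfl⟩, c2 ⟨x, hx⟩ h⟩, ?_, ?_⟩
  · rw [Set.InjOn.ncard_image, c1]
    intro x hx y hy h
    obtain ⟨σ, rfl⟩ := oo x y h
    exact (c3 x hx σ hy).symm
  · rintro _ ⟨x, hx, rfl⟩ _ ⟨y, hy, rfl⟩ a b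
    rw [c4 x y hx hy ((nt x).1 a) ((nt y).1 b)]
  · rintro _ ⟨x, hx, rfl⟩ h
    obtain ⟨d1, d2⟩ := c5 x hx fun y hy a => oo y x (h _ ⟨y, hy, rfl⟩ ((nt y).2 a))
    refine ⟨fun y hy => ?_, fun i hi => ?_⟩
    · obtain ⟨γ, g, rfl⟩ := (hO _ _).1 hy
      obtain ⟨i, h1, h2⟩ := d1 ⟨γ, g⟩
      exact ⟨i.1, ⟨i.2, h1⟩, fun j hj => congrArg Subtype.val (h2 ⟨j, hj.1⟩ hj.2)⟩
    · obtain ⟨_, ⟨⟨σ, rfl⟩, h1⟩, h2⟩ := d2 ⟨i, hi⟩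
      refine ⟨_, ⟨(hO _ _).2 ⟨σ.1, σ.2, rfl⟩, h1⟩, fun y hy => ?_⟩
      obtain ⟨γ, g, rfl⟩ := (hO _ _).1 hy.1
      exact congrArg Subtype.val (h2 ((⟨γ, g⟩ : Γ) • x) ⟨⟨_, rfl⟩, hy.2⟩)

open Submodule

variable {p : ℕ} {F X : Type} [Field F] [CharZero F] [IsAlgClosed F] [Group X] [Finite X]
  [Fact p.Prime] {Q : Subgroup X} {e e' ε ε' θ θ' i i' ψ ψ' η η' x y a b : MonoidAlgebra F X}

variable {k : Type} [Field k] {O R : Subring F} {r : F → k} {GG : Subgroup (RingAut F)}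
  {γ : RingAut (MonoidAlgebra F X)} {σ : RingAut F}

variable {om : X → F} {T : MonoidAlgebra F X →ₗ[F] MonoidAlgebra F X}
  {Ty : Set (MonoidAlgebra F X) → MonoidAlgebra F X → Bool → Prop}

theorem rcf_fin (H : Subgroup X) : (Irr F (HX F H)).Finite := by
  obtain ⟨s, hs, -⟩ := (nice_Hm0 (gu_tg (F := F) (X := X)) H).irr_sum
  rw [← hs]; exact s.finite_toSet

omit [CharZero F] [IsAlgClosed F] [Finite X] [Fact p.Prime] in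
theorem rcf_symm (h : Bk F p Q x y) : Bk F p Q y x := h.imp fun _ k => ⟨k.1, k.2.2, k.2.1⟩

theorem rcf_trans (hy : y ∈ Irr F (HX F (NQ Q))) (ha : a ∈ Irr F (HX F (NQ Q)))
    (h : Bk F p Q x y) (h' : Bk F p Q y a) : Bk F p Q x a :=
  h.imp fun _ k => ⟨k.1, k.2.1, bk_over hy ha h' k.1 k.2.2⟩

theorem rcf_fix (h : PM p O R r GG) (hQ : Nat.card Q = p) (h2 : ¬ p ^ 2 ∣ Nat.card X)
    (hθ : θ ∈ Irr F (HX F (Kp p Q))) (hγ : γ ∈ G0 O GG X) : γ θ = θ :=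
  fix_g0 h hθ (kp_card hQ h2) (fun g hg => by
    have e1 : g ^ Nat.card (Kp p Q) = 1 :=
      congrArg Subtype.val (pow_card_eq_one' (x := (⟨g, hg⟩ : Kp p Q)))
    rw [e1, gu_one, one_mul]) hγ

theorem rcf_eta (hX : commutator X = ⊤) (hQ : Nat.card Q = p) (h2 : ¬ p ^ 2 ∣ Nat.card X)
    (hγ : γ ∈ Gm GG Q) (hη : η ∈ Eta F Q) : γ η ∈ Eta F Q := by
  obtain ⟨σ, -, α, -, -, -, -, -, -, h0⟩ := gm_aut hX hQ h2 hγ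
  exact ⟨(irr_stb hγ.1.1 hγ.2).2 hη.1, by rw [← h0, ← map_mul, hη.2, map_zero]⟩

theorem rcf_tr (h : PM p O R r GG) (hX : commutator X = ⊤) (hQ : Nat.card Q = p)
    (h2 : ¬ p ^ 2 ∣ Nat.card X) (hη : η ∈ Eta F Q) (hη' : η' ∈ Eta F Q) (hb : Bk F p Q η η') :
    ∃ γ ∈ G0 O GG X, γ η = η' := by
  obtain ⟨θ, hθ, h1, h1'⟩ := hb
  obtain ⟨i, hi⟩ := exists_Prim (nice_Hm0 (gu_tg (F := F) (X := X)) _) hθ
  obtain ⟨ε, t⟩ := eta_tri hQ hη hθ h1 hi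
  obtain ⟨ε', t'⟩ := eta_tri hQ hη' hθ h1' hi
  obtain ⟨γ, g, e1⟩ := irrQ_gal h hQ t.irrQ t'.irrQ t.ne t'.ne
  obtain ⟨z, -, -, u⟩ := eta_ex hQ h2 hθ t'.irrQ t'.ne
  refine ⟨γ, g, (u _ (rcf_eta hX hQ h2 (g0_le g) hη).1 ?_).trans (u _ hη'.1 t'.ov).symm⟩
  rw [← e1, ← rcf_fix h hQ h2 hθ g, ← map_mul, ← map_mul]
  exact fun e2 => t.ov (γ.injective (e2.trans (map_zero γ).symm))

/-- hint: `G0` acts on `Irr X` and, transitively, on the `η'` in the block of `η` (`fix_g0` for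
`θ`, `irrQ_gal`, `eta_ex`); `rcnt_one` if that set is a point, else `rcnt_many`.  `W` is the set
of orbits on which `mz` does not vanish. -/
theorem blk_count (h : PM p O R r GG) (hX : commutator X = ⊤) (hQ : Nat.card Q = p)
    (h2 : ¬ p ^ 2 ∣ Nat.card X) (hO : Om GG Q om T) (hT : TyS O GG p Q T Ty)
    (hη : η ∈ Eta F Q) (W : Set (Set (MonoidAlgebra F X)))
    (hW : ∀ v, v ∈ W ↔ ∃ ψ s, Ty v ψ s ∧ Bk F p Q ψ η) :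
    W.ncard = {ψ | ψ ∈ Psi F Q ∧ Bk F p Q ψ η}.ncard + 1 ∧
    (∀ e ∈ Irr F (HX F (⊤ : Subgroup X)), mz F p Q e η ≠ 0 →
      Orb O GG e ∈ W ∧ (mz F p Q e η = 1 ∨ mz F p Q e η = -1)) ∧
    (∀ v ∈ W, ∀ v' ∈ W, v.Nontrivial → v'.Nontrivial → v = v') ∧
    ∀ v ∈ W, (∀ v' ∈ W, v'.Nontrivial → v' = v) →
      (∀ e ∈ v, ∃! η', η' ∈ Eta F Q ∧ Bk F p Q η η' ∧ mz F p Q e η' ≠ 0) ∧
      ∀ η' ∈ Eta F Q, Bk F p Q η η' → ∃! e, e ∈ v ∧ mz F p Q e η' ≠ 0 := by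
  classical
  have key : ∀ e ∈ Irr F (HX F (⊤ : Subgroup X)), ∀ η' ∈ Eta F Q,
      |∑ᶠ y ∈ Orb O GG e, mz F p Q y η'| ≤ 1 ∧ (∑ᶠ y ∈ Orb O GG e, mz F p Q y η' ≠ 0 ↔
        ∃ ψ s, Ty (Orb O GG e) ψ s ∧ Bk F p Q ψ η') := fun e he η' hη' => by
    by_cases hb : ∃ ψ s, Ty (Orb O GG e) ψ s ∧ Bk F p Q ψ η'
    · obtain ⟨ψ, s, ht, hb'⟩ := id hb
      rw [(orb_ty hQ h2 hO hT ht hη').1 hb']
      exact ⟨by cases s <;> simp, iff_of_true (by cases s <;> simp) hb⟩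
    · have e1 : ∑ᶠ y ∈ Orb O GG e, mz F p Q y η' = 0 := by
        by_cases hn : ∃ ψ s, Ty (Orb O GG e) ψ s
        · obtain ⟨ψ, s, ht⟩ := hn
          exact (orb_ty hQ h2 hO hT ht hη').2 fun hb' => hb ⟨ψ, s, ht, hb'⟩
        · exact orb_none hQ h2 hT he hn hη'
      rw [e1]
      exact ⟨by simp, iff_of_false (by simp) hb⟩
  obtain ⟨c1, c2, c3, c4⟩ := rcf_set (G0 O GG X) (Xs := Irr F (HX F (⊤ : Subgroup X)))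
    (Cs := {η' | η' ∈ Eta F Q ∧ Bk F p Q η η'}) (rcf_fin _)
    ((rcf_fin (NQ Q)).subset fun _ k => k.1.1)
    (fun γ g x hx => (irr_stb (g0_le (Q := Q) g).1.1 (g0_le (Q := Q) g).1.2).2 hx)
    (fun γ g x hx => ⟨rcf_eta hX hQ h2 (g0_le g) hx.1, hx.2.imp fun θ k => ⟨k.1, k.2.1, by
      rw [← rcf_fix h hQ h2 k.1 g, ← map_mul]
      exact fun e2 => k.2.2 (γ.injective (e2.trans (map_zero γ).symm))⟩⟩)
    (fun i hi j hj => rcf_tr h hX hQ h2 hi.1 hj.1 (rcf_trans hη.1 hj.1.1 (rcf_symm hi.2) hj.2))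
    (m := mz F p Q) (fun γ g x hx i hi => mz_gm hX hQ h2 (g0_le g) hx hi.1)
    (Ob := Orb O GG) (fun _ _ => Iff.rfl) (fun x hx i hi => (key x hx i hi.1).1)
    (n := {ψ | ψ ∈ Psi F Q ∧ Bk F p Q ψ η}.ncard)
    (fun i hi j hj => by
      rw [mz_gram hQ h2 hO hi.1 hj.1 (rcf_trans hη.1 hj.1.1 (rcf_symm hi.2) hj.2)]
      congr 3
      ext ψ
      exact and_congr_right fun _ => ⟨fun k => rcf_trans hi.1.1 hη.1 k (rcf_symm hi.2),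
        fun k => rcf_trans hη.1 hi.1.1 k hi.2⟩)
    (i0 := η) ⟨hη, bk_refl hη.1.2.2.1⟩ (W := W) (fun v => by
      rw [hW]
      constructor
      · rintro ⟨ψ, s, ht, hb⟩
        obtain ⟨e, he, rfl⟩ := (hT.dom _ _ _ ht).1
        exact ⟨e, he, rfl, (key e he η hη).2.2 ⟨ψ, s, ht, hb⟩⟩
      · rintro ⟨e, he, rfl, k⟩
        exact (key e he η hη).2.1 k)
  refine ⟨c1, c2, c3, fun v hv k => ⟨fun e he => ?_, fun η' h1 h3 => (c4 v hv k).2 η' ⟨h1, h3⟩⟩⟩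
  simpa only [Set.mem_ofPred_eq, and_assoc] using (c4 v hv k).1 e he

end Pool.Agent.Lib.MP_1ae3da_al.CT
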