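import Pool.Agent.Lib.MP_1ae3da_al.GS

set_option autoImplicit false

/-! The modular system: Witt vectors over the algebraic closure of the prime field. -/

namespace Pool.Agent.Lib.MP_1ae3da_al.Sys

open Polynomial

theorem ext_hom {A B k : Type} [CommRing A] [CommRing B] [Algebra A B] [Algebra.IsIntegral A B]
    [Field k] [IsAlgClosed k] (hi : Function.Injective (algebraMap A B)) (φ : A →+* k)
    (hφ : Function.Surjective φ) : ∃ ψ : B →+* k, ∀ a, ψ (algebraMap A B a) = φ a := by
  have := RingHom.ker_isMaximal_of_surjective φ hφ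
  obtain ⟨Q, hQ, hQ'⟩ := Ideal.exists_ideal_over_maximal_of_isIntegral (S := B) (RingHom.ker φ)
    (by rw [(RingHom.injective_iff_ker_eq_bot _).1 hi]; exact bot_le)
  let χ : (A ⧸ Q.comap (algebraMap A B)) →+* k :=
    Ideal.Quotient.lift _ φ fun a ha => by rwa [hQ'] at ha
  have hχ : Function.Injective χ := by
    rw [injective_iff_map_eq_zero]
    intro x hx
    obtain ⟨a, rfl⟩ := Ideal.Quotient.mk_surjective x
    rw [Ideal.Quotient.eq_zero_iff_mem, hQ']
    exact hx
  let _ : Algebra (A ⧸ Q.comap (algebraMap A B)) k := χ.toAlgebra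
  have : Module.IsTorsionFree (A ⧸ Q.comap (algebraMap A B)) k :=
    Module.isTorsionFree_iff_algebraMap_injective.2 hχ
  have : Module.IsTorsionFree (A ⧸ Q.comap (algebraMap A B)) (B ⧸ Q) :=
    Module.isTorsionFree_iff_algebraMap_injective.2 Ideal.algebraMap_quotient_injective
  let l : (B ⧸ Q) →ₐ[A ⧸ Q.comap (algebraMap A B)] k := IsAlgClosed.lift
  exact ⟨l.toRingHom.comp (Ideal.Quotient.mk Q), fun a => l.commutes (Ideal.Quotient.mk _ a)⟩

theorem split_root {K : Type} [Field K] {p : ℕ} (hp : p.Prime) {n : ℕ} (hn : 0 < n) {ξ : K}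
    (h : ξ ^ n = 1) : ∃ (a m : ℕ) (x y : K), m.Coprime p ∧ x ^ p ^ a = 1 ∧ y ^ m = 1 ∧
      ξ = x * y := by
  obtain ⟨a, m, hm, rfl⟩ := Nat.exists_eq_pow_mul_and_not_dvd hn.ne' p hp.ne_one
  have hc : m.Coprime p := ((Nat.Prime.coprime_iff_not_dvd hp).2 hm).symm
  have h0 : ξ ≠ 0 := fun e => by
    rw [e, zero_pow hn.ne'] at h
    exact zero_ne_one h
  have hz : ∀ u : ℤ, ξ ^ (((p ^ a * m : ℕ) : ℤ) * u) = 1 := fun u => by
    rw [zpow_mul, zpow_natCast, h, one_zpow]
  have hb := Nat.gcd_eq_gcd_ab m (p ^ a)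
  rw [(hc.pow_right a).gcd_eq_one] at hb
  refine ⟨a, m, ξ ^ (m * Nat.gcdA m (p ^ a)), ξ ^ ((p ^ a : ℕ) * Nat.gcdB m (p ^ a)), hc,
    ?_, ?_, ?_⟩
  · rw [← zpow_natCast, ← zpow_mul, ← hz (Nat.gcdA m (p ^ a))]
    congr 1
    push_cast
    ring
  · rw [← zpow_natCast, ← zpow_mul, ← hz (Nat.gcdB m (p ^ a))]
    congr 1
    push_cast
    ring
  · rw [← zpow_add₀ h0, ← hb, Nat.cast_one, zpow_one]

variable (p : ℕ) [hp : Fact p.Prime]

/-- the residue field -/
abbrev kk : Type := AlgebraicClosure (ZMod p)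

/-- the complete discrete valuation ring -/
abbrev O : Type := WittVector p (kk p)

/-- its fraction field -/
abbrev K0 : Type := FractionRing (O p)

/-- the ambient algebraically closed field -/
abbrev F : Type := AlgebraicClosure (K0 p)

/-- reduction modulo `p` -/
noncomputable abbrev red : O p →+* kk p := WittVector.constantCoeff

theorem red_surj : Function.Surjective (red p) := WittVector.constantCoeff_surjective p

theorem ker_red : RingHom.ker (red p) = Ideal.span {(p : O p)} := WittVector.ker_constantCoeff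

theorem p_irr : Irreducible (p : O p) := WittVector.irreducible p

instance charZeroO : CharZero (O p) := by
  obtain ⟨q, hq⟩ := CharP.exists (O p)
  have h0 : q = 0 := by
    rcases CharP.char_is_prime_or_zero (O p) q with h | h
    · have h1 : (q : kk p) = 0 := by
        rw [← map_natCast (red p), CharP.cast_eq_zero, map_zero]
      rw [CharP.cast_eq_zero_iff (kk p) p, Nat.prime_dvd_prime_iff_eq hp.out h] at h1
      exact absurd (h1 ▸ CharP.cast_eq_zero (O p) q) (p_irr p).ne_zero
    · exact h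
  subst h0
  exact CharP.charP_to_charZero _

theorem inj_OF : Function.Injective (algebraMap (O p) (F p)) := by
  rw [IsScalarTower.algebraMap_eq (O p) (K0 p) (F p)]
  exact (algebraMap (K0 p) (F p)).injective.comp (IsFractionRing.injective (O p) (K0 p))

theorem isUnit_iff_red {x : O p} : IsUnit x ↔ red p x ≠ 0 :=
  ⟨fun h => (h.map (red p)).ne_zero, WittVector.isUnit_of_coeff_zero_ne_zero x⟩

theorem maximalIdeal_eq : IsLocalRing.maximalIdeal (O p) = Ideal.span {(p : O p)} :=
  (p_irr p).maximalIdeal_eq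

/-- the Teichmueller lift into `F` -/
noncomputable def tm : kk p →* F p :=
  (algebraMap (O p) (F p)).toMonoidHom.comp (WittVector.teichmuller p)

theorem tm_apply (x : kk p) :
    tm p x = algebraMap (O p) (F p) (WittVector.teichmuller p x) := rfl

theorem red_teich (x : kk p) : red p (WittVector.teichmuller p x) = x := rfl

theorem tm_inj : Function.Injective (tm p) := fun x y h => by
  have := congrArg (red p) (inj_OF p h)
  rwa [red_teich, red_teich] at this

variable {p}

theorem exists_tm {m : ℕ} (hm : m.Coprime p) {ξ : F p} (h : ξ ^ m = 1) :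
    ∃ x : kk p, x ^ m = 1 ∧ tm p x = ξ := by
  have : NeZero (m : kk p) := ⟨fun e => by
    rw [CharP.cast_eq_zero_iff (kk p) p] at e
    exact (Nat.Prime.coprime_iff_not_dvd hp.out).1 hm.symm e⟩
  have : NeZero m := NeZero.of_neZero_natCast (kk p)
  obtain ⟨x, hx⟩ := HasEnoughRootsOfUnity.exists_primitiveRoot (kk p) m
  obtain ⟨i, -, rfl⟩ := (hx.map_of_injective (tm_inj p)).eq_pow_of_pow_eq_one h
  exact ⟨x ^ i, by rw [← pow_mul, mul_comm, pow_mul, hx.pow_eq_one, one_pow], map_pow _ _ _⟩

/-- every nonzero element of the residue field is a root of unity of order prime to `p` -/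
theorem kk_root {x : kk p} (hx : x ≠ 0) : ∃ m : ℕ, m.Coprime p ∧ x ^ m = 1 := by
  have : FiniteDimensional (ZMod p) (IntermediateField.adjoin (ZMod p) {x}) :=
    IntermediateField.adjoin.finiteDimensional (Algebra.IsIntegral.isIntegral x)
  have : Finite (IntermediateField.adjoin (ZMod p) {x}) := Module.finite_of_finite (ZMod p)
  have := Fintype.ofFinite (IntermediateField.adjoin (ZMod p) {x})
  have h1 := FiniteField.pow_card_sub_one_eq_one
    (⟨x, IntermediateField.mem_adjoin_simple_self _ x⟩ : IntermediateField.adjoin (ZMod p) {x})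
    (fun e => hx (congrArg Subtype.val e))
  have h2 : x ^ (Fintype.card (IntermediateField.adjoin (ZMod p) {x}) - 1) = 1 :=
    congrArg Subtype.val h1
  refine ⟨_, ((Nat.Prime.coprime_iff_not_dvd hp.out).2 fun hd => ?_).symm, h2⟩
  have : CharP (IntermediateField.adjoin (ZMod p) {x}) p :=
    charP_of_injective_algebraMap (algebraMap (ZMod p) _).injective p
  rw [← CharP.cast_eq_zero_iff (IntermediateField.adjoin (ZMod p) {x}) p,
    Nat.cast_sub Fintype.card_pos, FiniteField.cast_card_eq_zero] at hd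
  simp at hd

variable (p)

/-- `O` with all roots of unity adjoined -/
noncomputable def R : Subalgebra (O p) (F p) :=
  Algebra.adjoin (O p) {ξ | ∃ n : ℕ, 0 < n ∧ ξ ^ n = 1}

instance isIntegralR : Algebra.IsIntegral (O p) (R p) :=
  Algebra.IsIntegral.adjoin fun _ ⟨n, hn, h⟩ =>
    IsIntegral.of_pow hn (by rw [h]; exact isIntegral_one)

theorem exists_r : ∃ r : R p →+* kk p, ∀ a, r (algebraMap (O p) (R p) a) = red p a :=
  ext_hom (fun _ _ h => inj_OF p (congrArg Subtype.val h)) (red p) (red_surj p)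

/-- the reduction map on `R` -/
noncomputable def r : R p →+* kk p := (exists_r p).choose

variable {p}

theorem r_alg (a : O p) : r p (algebraMap (O p) (R p) a) = red p a := (exists_r p).choose_spec a

theorem r_alg' (a : O p) (h : algebraMap (O p) (F p) a ∈ R p) :
    r p ⟨algebraMap (O p) (F p) a, h⟩ = red p a := r_alg a

theorem root_mem {n : ℕ} (hn : 0 < n) {ξ : F p} (h : ξ ^ n = 1) : ξ ∈ R p :=
  Algebra.subset_adjoin ⟨n, hn, h⟩

theorem tm_mem (x : kk p) : tm p x ∈ R p := Subalgebra.algebraMap_mem _ _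

theorem r_tm (x : kk p) (h : tm p x ∈ R p) : r p ⟨tm p x, h⟩ = x := r_alg' _ h

theorem r_surj : Function.Surjective (r p) := fun x => ⟨_, r_tm x (tm_mem x)⟩

theorem r_ppow {a : ℕ} {ξ : R p} (h : ξ ^ p ^ a = 1) : r p ξ = 1 := by
  have h1 : (r p ξ - 1) ^ p ^ a = 0 := by
    rw [sub_pow_char_pow, ← map_pow, h, map_one, one_pow, sub_self]
  exact sub_eq_zero.1 (pow_eq_zero_iff (pow_pos hp.out.pos a).ne' |>.1 h1)

theorem tm_r {m : ℕ} (hm : m.Coprime p) {ξ : R p} (h : ξ ^ m = 1) : tm p (r p ξ) = ξ := by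
  obtain ⟨x, -, e⟩ := exists_tm hm (ξ := ξ) (congrArg Subtype.val h)
  have : ξ = ⟨tm p x, tm_mem x⟩ := Subtype.ext e.symm
  rw [this, r_tm]

/-- reduction is injective on roots of unity of order prime to `p` -/
theorem r_inj {m n : ℕ} (hm : m.Coprime p) (hn : n.Coprime p) {ξ η : R p} (h : ξ ^ m = 1)
    (h' : η ^ n = 1) (e : r p ξ = r p η) : ξ = η :=
  Subtype.ext (by rw [← tm_r hm h, ← tm_r hn h', e])

theorem inv_nat_mem {m : ℕ} (hm : m.Coprime p) : (m : F p)⁻¹ ∈ R p := by
  have : IsUnit (m : O p) := (isUnit_iff_red p).2 (by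
    rw [map_natCast, Ne, CharP.cast_eq_zero_iff (kk p) p]
    exact (Nat.Prime.coprime_iff_not_dvd hp.out).1 hm.symm)
  obtain ⟨v, hv⟩ := this.exists_right_inv
  have h1 := congrArg (algebraMap (O p) (F p)) hv
  rw [map_mul, map_natCast, map_one] at h1
  rw [← eq_inv_of_mul_eq_one_right h1]
  exact Subalgebra.algebraMap_mem _ _

/-- Eisenstein -/
theorem cyc_irr (a : ℕ) : Irreducible (cyclotomic (p ^ (a + 1)) (K0 p)) := by
  have hm : ((cyclotomic (p ^ (a + 1)) (O p)).comp (X + 1)).Monic := by
    have := (cyclotomic.monic (p ^ (a + 1)) (O p)).comp_X_add_C 1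
    rwa [C_1] at this
  have hw := (cyclotomic_prime_pow_comp_X_add_one_isEisensteinAt (p := p) a).isWeaklyEisensteinAt.map
    (Int.castRingHom (O p))
  rw [Polynomial.map_comp, map_cyclotomic, Polynomial.map_add, map_X, Polynomial.map_one,
    Ideal.submodule_span_eq, Ideal.map_span, Set.image_singleton, map_natCast] at hw
  have hP : (Ideal.span {(p : O p)}).IsPrime :=
    (Ideal.span_singleton_prime (p_irr p).ne_zero).2 (p_irr p).prime
  have he : ((cyclotomic (p ^ (a + 1)) (O p)).comp (X + 1)).IsEisensteinAt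
      (Ideal.span {(p : O p)}) := by
    refine hm.isEisensteinAt_of_mem_of_notMem hP.ne_top hw.mem fun h => ?_
    rw [coeff_zero_eq_eval_zero, eval_comp, eval_add, eval_X, eval_one, zero_add,
      eval_one_cyclotomic_prime_pow, Ideal.span_singleton_pow, Ideal.mem_span_singleton,
      pow_two] at h
    exact (p_irr p).not_isUnit ((p_irr p).squarefree _ h)
  have hd : 0 < ((cyclotomic (p ^ (a + 1)) (O p)).comp (X + 1)).natDegree := by
    rw [natDegree_comp, natDegree_cyclotomic, ← C_1, natDegree_X_add_C, mul_one]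
    exact Nat.totient_pos.2 (pow_pos hp.out.pos _)
  have h1 := he.irreducible hP hm.isPrimitive hd
  have h2 : Irreducible (cyclotomic (p ^ (a + 1)) (O p)) := by
    rw [← C_1, ← taylor_apply] at h1
    exact (MulEquiv.irreducible_iff (taylorEquiv (1 : O p))).1 h1
  have h3 := ((cyclotomic.monic _ _).irreducible_iff_irreducible_map_fraction_map
    (K := K0 p)).1 h2
  rwa [map_cyclotomic] at h3

end Pool.Agent.Lib.MP_1ae3da_al.Sys
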