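import Pool.Agent.Lib.MP_1ae3da_al.C.TL
import Pool.Agent.Lib.MP_1ae3da_al.C.TP
import Pool.Agent.Lib.MP_1ae3da_al.C.DA
import Pool.Agent.Lib.MP_1ae3da_al.C.SysA

/-! Links from a natural character, and determinants on the image of an idempotent. -/

namespace Pool.Agent.Lib.MP_1ae3da_al.CT

open Submodule

theorem rcg_idem {F : Type} [Field F] {n : ℕ} (P : Matrix (Fin n) (Fin n) F) (h : P * P = P) :
    ∃ r : ℕ, P.trace = r ∧ ∀ c : F, (c • P + (1 - P)).det = c ^ r := by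
  let f := Matrix.toLin' P
  have hf : IsIdempotentElem f := by
    change Matrix.toLin' P ∘ₗ Matrix.toLin' P = Matrix.toLin' P
    rw [← Matrix.toLin'_mul, h]
  have hp := (LinearMap.isProj_range_iff_isIdempotentElem f).2 hf
  refine ⟨Module.finrank F (LinearMap.range f), ?_, fun c => ?_⟩
  · rw [← hp.trace, Matrix.trace_toLin'_eq]
  · let E := Submodule.prodEquivOfIsCompl _ _ hp.isCompl
    have e1 : Matrix.toLin' (c • P + (1 - P)) =
        E.toLinearMap ∘ₗ (LinearMap.prodMap (c • LinearMap.id) LinearMap.id) ∘ₗ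
          E.symm.toLinearMap := by
      refine LinearMap.ext fun v => ?_
      obtain ⟨⟨x, y⟩, rfl⟩ := E.surjective v
      have hx : f x = x := hp.map_id x x.2
      have hy : f y = 0 := y.2
      simp only [LinearMap.comp_apply, LinearEquiv.coe_coe, LinearEquiv.symm_apply_apply,
        LinearMap.prodMap_apply, map_add, map_smul, map_sub, Matrix.toLin'_one,
        LinearMap.add_apply, LinearMap.sub_apply, LinearMap.smul_apply, LinearMap.id_apply, E,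
        Submodule.coe_prodEquivOfIsCompl', Submodule.coe_smul]
      change c • f x + (x - f x) + (c • f y + (y - f y)) = _
      rw [hx, hy]
      simp
    rw [← LinearMap.det_toLin', e1, LinearMap.det_conj, LinearMap.det_prodMap, LinearMap.det_smul,
      LinearMap.det_id, LinearMap.det_id, mul_one, mul_one]

variable {F A : Type} [Field F] [Ring A] [Algebra F A] [IsAlgClosed F] {S L M : Set A}
  {e e' z z' j : A} {p : ℕ} {GG : Subgroup (RingAut F)} {Γ : Subgroup (RingAut A)}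

variable (F) in
/-- the determinant of `z` on the image of the idempotent `j`. -/
noncomputable def Dj (S : Set A) (e z j : A) : F := Nd F S e (z * j + (1 - j))

omit [IsAlgClosed F] in
theorem rcg_mem (hS : Nice F S) (h1 : (1 : A) ∈ span F S) (hz : z ∈ span F S)
    (hj : j ∈ span F S) : z * j + (1 - j) ∈ span F S :=
  add_mem (hS.span_mul hz hj) (sub_mem h1 hj)

theorem nd_one (hS : Nice F S) (he : e ∈ Irr F S) (h1 : (1 : A) ∈ span F S) :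
    Nd F S e 1 = 1 := by
  rw [← Nd_mul_e hS he h1, one_mul, Nd_self hS he]

theorem Dj_mul (hS : Nice F S) (he : e ∈ Irr F S) (h1 : (1 : A) ∈ span F S) (hz : z ∈ span F S)
    (hz' : z' ∈ span F S) (hj : j ∈ span F S) (h : j * j = j)
    (c' : j * z' = z' * j) : Dj F S e (z * z') j = Dj F S e z j * Dj F S e z' j := by
  rw [Dj, Dj, Dj, ← Nd_mul hS he (rcg_mem hS h1 hz hj) (rcg_mem hS h1 hz' hj)]
  congr 1
  have a1 : j * (z' * j) = z' * j := by rw [← mul_assoc, c', mul_assoc, h]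
  simp only [add_mul, mul_add, mul_sub, sub_mul, mul_one, one_mul, mul_assoc, a1, h]
  abel

theorem Dj_congr (hS : Nice F S) (he : e ∈ Irr F S) (h1 : (1 : A) ∈ span F S)
    (hz : z ∈ span F S) (hz' : z' ∈ span F S) (hj : j ∈ span F S)
    (h : z * j * e = z' * j * e) : Dj F S e z j = Dj F S e z' j := by
  rw [Dj, Dj, ← Nd_mul_e hS he (rcg_mem hS h1 hz hj), ← Nd_mul_e hS he (rcg_mem hS h1 hz' hj),
    add_mul, add_mul, h]

theorem Dj_scal (hS : Nice F S) (he : e ∈ Irr F S) (h1 : (1 : A) ∈ span F S)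
    (hj : j ∈ span F S) (h : j * j = j) :
    ∃ r : ℕ, Chv F S e j = r ∧ ∀ c : F, Dj F S e (c • (1 : A)) j = c ^ r := by
  obtain ⟨n, ρ, hρ⟩ := exists_MM hS he
  obtain ⟨r, h2, h3⟩ := rcg_idem (ρ j) (by rw [← hρ.mul j hj j hj, h])
  have o : ρ 1 = 1 := by
    have := hρ.mul 1 h1 e he.1.1
    rw [one_mul, hρ.one, mul_one] at this
    exact this.symm
  refine ⟨r, by rw [Chv_eq hS he hρ hj, h2], fun c => ?_⟩
  rw [Dj, Nd_eq hS he hρ (rcg_mem hS h1 (smul_mem _ c h1) hj), smul_mul_assoc, one_mul, map_add,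
    map_smul, map_sub, o, h3]

theorem Dj_conj (hS : Nice F S) (he : e ∈ Irr F S) (h1 : (1 : A) ∈ span F S) (hz : z ∈ span F S)
    (hj : j ∈ span F S) {s s' : A} (hs : s ∈ span F S) (hs' : s' ∈ span F S) (h : s * s' = 1)
    (c : s * z = z * s) : Dj F S e z (s * j * s') = Dj F S e z j := by
  have a1 : z * (s * j * s') + (1 - s * j * s') = s * (z * j + (1 - j)) * s' := by
    rw [mul_add, add_mul, mul_sub, sub_mul, mul_one, h, ← mul_assoc s z, c]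
    simp only [mul_assoc]
  have m := rcg_mem hS h1 hz hj
  rw [Dj, a1, Nd_mul hS he (hS.span_mul hs m) hs', Nd_mul hS he hs m, mul_right_comm,
    ← Nd_mul hS he hs hs', h, nd_one hS he h1, one_mul, Dj]

theorem Dj_nat (hS : Nice F S) (he : e ∈ Irr F S) (h1 : (1 : A) ∈ span F S) (hz : z ∈ span F S)
    (hj : j ∈ span F S) {σ : RingAut F} {γ : RingAut A} (hγ : SL F σ γ) (h2 : γ ∈ Stb S)
    (h3 : γ e = e) : Dj F S e (γ z) (γ j) = σ (Dj F S e z j) := by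
  have := Nd_nat hS he hγ (rcg_mem hS h1 hz hj)
  rwa [stb_image.1 h2, h3, map_add, map_mul, map_sub, map_one] at this

theorem rcg_ndvd (hS : Nice F S) (he : e ∈ IrrP F p S) : ¬ p ∣ dg F S e :=
  fun h => he.2 (by rw [(Dg_sq hS he.1).1]; exact dvd_pow h two_ne_zero)

omit [IsAlgClosed F] in
theorem rcg_ln_one (he : e ∈ Irr F S) : e ∈ Ln F S e 1 :=
  ⟨he.1.1, he.2.1, he.2.2.1, he.1.2⟩

theorem rcg_norm (hS : Nice F S) (he : e ∈ Irr F S) {a : RingAut A} (ha : Lin F a)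
    (h1 : a ∈ Stb S) (h2 : a e = e) : ∃ w ∈ Ln F S e a, Nd F S e w = 1 := by
  obtain ⟨w, hw⟩ := Ln_exists hS he ha h1 h2
  have h0 := Nd_ne hS he ha h1 hw
  obtain ⟨c, hc⟩ := IsAlgClosed.exists_pow_nat_eq (Nd F S e w)⁻¹ (Dg_sq hS he).2
  have c0 : c ≠ 0 := fun k => by
    rw [k, zero_pow (Dg_sq hS he).2.ne'] at hc
    exact inv_ne_zero h0 hc.symm
  exact ⟨c • w, Ln_smul hw c0, by rw [Nd_smul hS he, hc, inv_mul_cancel₀ h0]⟩

omit [IsAlgClosed F] in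
theorem rcg_mup_map {σ : RingAut F} {c : F} (h : Mup p c) : Mup p (σ c) :=
  h.imp fun _ k => ⟨k.1, by rw [← map_pow, k.2, map_one]⟩

omit [IsAlgClosed F] in
theorem rcg_mup_one (hp : p.Prime) {c : F} (h : Mup p c) {t : ℕ} (h1 : c ^ p ^ t = 1) :
    c = 1 := by
  obtain ⟨n, hn, h2⟩ := h
  have := pow_gcd_eq_one.2 ⟨h1, h2⟩
  rwa [(((Nat.Prime.coprime_iff_not_dvd hp).2 hn).pow_left t).gcd_eq_one, pow_one] at this

theorem link_of_delta (hp : p.Prime) (hL : Nice F L) (hM : Nice F M) (he : e ∈ IrrP F p L)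
    (he' : e' ∈ IrrP F p M) (hΓ : Γ ≤ SG GG A ⊓ Stb L ⊓ Stb M ⊓ Fx e ⊓ Fx e')
    (Δ : RingAut A → A → A → F) (fin : ∀ a ∈ Γ, Lin F a → ∃ n : ℕ, a ^ (n + 1) = 1)
    (mul : ∀ a ∈ Γ, ∀ b ∈ Γ, Lin F a → Lin F b → ∀ w ∈ Ln F L e a, ∀ w' ∈ Ln F M e' a,
      ∀ v ∈ Ln F L e b, ∀ v' ∈ Ln F M e' b,
        Δ (a * b) (w * v) (w' * v') = Δ a w w' * Δ b v v')
    (smul : ∀ a ∈ Γ, Lin F a → ∀ w ∈ Ln F L e a, ∀ w' ∈ Ln F M e' a, ∀ c c' : F, c ≠ 0 → c' ≠ 0 →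
      Δ a (c • w) (c' • w') = c' / c * Δ a w w')
    (one : Δ 1 e e' = 1)
    (nat : ∀ γ ∈ Γ, ∀ σ, SL F σ γ → ∀ a ∈ Γ, Lin F a → ∀ w ∈ Ln F L e a, ∀ w' ∈ Ln F M e' a,
      Δ (γ * a * γ⁻¹) (γ w) (γ w') = σ (Δ a w w'))
    (loc : ∀ a ∈ Γ, Lin F a → ∀ m ∈ M, (∀ x ∈ L, m * x = a x * m) →
      (∃ c : F, c ≠ 0 ∧ Mup p (Nd F L e (c • (m * e))) ∧ Mup p (Nd F M e' (c • (m * e')))) ∧
        Δ a (m * e) (m * e') ^ p = 1) (hML : M ⊆ L) : ∃ U, Link F Γ L M e e' U := by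
  have dL := rcg_ndvd hL he
  have dM := rcg_ndvd hM he'
  have sL : ∀ a ∈ Γ, a ∈ Stb L := fun a h => (hΓ h).1.1.1.2
  have sM : ∀ a ∈ Γ, a ∈ Stb M := fun a h => (hΓ h).1.1.2
  refine ⟨fun a w w' => (a ∈ Γ ∧ Lin F a ∧ w ∈ Ln F L e a ∧ w' ∈ Ln F M e' a) ∧
    (∃ c : F, c ≠ 0 ∧ Mup p (Nd F L e (c • w)) ∧ Mup p (Nd F M e' (c • w'))) ∧
      ∃ t : ℕ, Δ a w w' ^ p ^ t = 1, fun _ _ _ h => h.1, fun a ha hl => ?_, ?_, ?_, ?_, ?_, ?_⟩
  · obtain ⟨w, hw, n1⟩ := rcg_norm hL he.1 hl (sL a ha) (hΓ ha).1.2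
    obtain ⟨w', hw', n2⟩ := rcg_norm hM he'.1 hl (sM a ha) (hΓ ha).2
    have pw : ∀ n : ℕ, Lin F (a ^ (n + 1)) ∧ w ^ (n + 1) ∈ Ln F L e (a ^ (n + 1)) ∧
        w' ^ (n + 1) ∈ Ln F M e' (a ^ (n + 1)) ∧ Nd F L e (w ^ (n + 1)) = 1 ∧
        Nd F M e' (w' ^ (n + 1)) = 1 ∧
        Δ (a ^ (n + 1)) (w ^ (n + 1)) (w' ^ (n + 1)) = Δ a w w' ^ (n + 1) := fun n => by
      induction n with
      | zero => simpa using ⟨hl, hw, hw', n1, n2⟩
      | succ n ih =>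
        obtain ⟨i1, i2, i3, i4, i5, i6⟩ := ih
        have m := pow_mem ha (n + 1)
        rw [pow_succ a, pow_succ w, pow_succ w', pow_succ (Δ a w w')]
        exact ⟨i1.mul hl, Ln_mul hL he.1 i1 (sL _ m) (sL a ha) i2 hw,
          Ln_mul hM he'.1 i1 (sM _ m) (sM a ha) i3 hw',
          by rw [Nd_mul hL he.1 i2.1 hw.1, i4, n1, mul_one],
          by rw [Nd_mul hM he'.1 i3.1 hw'.1, i5, n2, mul_one],
          by rw [mul _ m a ha i1 hl _ i2 _ i3 _ hw _ hw', i6]⟩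
    obtain ⟨n, hn⟩ := fin a ha hl
    obtain ⟨-, i2, i3, i4, i5, i6⟩ := pw n
    rw [hn] at i2 i3 i6
    obtain ⟨s, s0, es⟩ := Ln_unique hL he.1 Lin.one (one_mem _) (rcg_ln_one he.1) i2
    obtain ⟨s', s0', es'⟩ := Ln_unique hM he'.1 Lin.one (one_mem _) (rcg_ln_one he'.1) i3
    rw [es, Nd_smul hL he.1, Nd_self hL he.1, mul_one] at i4
    rw [es', Nd_smul hM he'.1, Nd_self hM he'.1, mul_one] at i5
    rw [es, es', smul 1 (one_mem _) Lin.one _ (rcg_ln_one he.1) _ (rcg_ln_one he'.1) _ _ s0 s0',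
      one, mul_one] at i6
    have root : Δ a w w' ^ ((n + 1) * (dg F L e * dg F M e')) = 1 := by
      rw [pow_mul, ← i6, div_pow, pow_mul s, i4, mul_comm, pow_mul s', i5, one_pow, one_pow,
        div_one]
    obtain ⟨t, m, x, y, hm, hx, hy, exy⟩ := Sys.split_root hp
      (Nat.mul_pos n.succ_pos (Nat.mul_pos (Dg_sq hL he.1).2 (Dg_sq hM he'.1).2)) root
    have my : Mup p y := ⟨m, (Nat.Prime.coprime_iff_not_dvd hp).1 hm.symm, hy⟩
    refine ⟨y • w, w', ⟨ha, hl, Ln_smul hw my.ne, hw'⟩, ⟨1, one_ne_zero, ?_, ?_⟩, t, ?_⟩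
    · rw [one_smul, Nd_smul hL he.1, n1, mul_one]
      exact my.pow _
    · rw [one_smul, n2]
      exact Mup.one hp
    · have := smul a ha hl w hw w' hw' y 1 my.ne one_ne_zero
      rw [one_smul, exy, mul_comm x, ← mul_assoc, one_div, inv_mul_cancel₀ my.ne, one_mul] at this
      rw [this, hx]
  · rintro a w w' b v v' ⟨⟨a1, a2, a3, a4⟩, ⟨c, c0, c1, c2⟩, t, ht⟩
      ⟨⟨b1, b2, b3, b4⟩, ⟨d, d0, d1, d2⟩, s, hs⟩
    refine ⟨⟨mul_mem a1 b1, a2.mul b2, Ln_mul hL he.1 a2 (sL a a1) (sL b b1) a3 b3,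
      Ln_mul hM he'.1 a2 (sM a a1) (sM b b1) a4 b4⟩, ⟨c * d, mul_ne_zero c0 d0, ?_, ?_⟩,
      t + s, ?_⟩
    · rw [← smul_mul_smul_comm, Nd_mul hL he.1 (smul_mem _ c a3.1) (smul_mem _ d b3.1)]
      exact c1.mul hp d1
    · rw [← smul_mul_smul_comm, Nd_mul hM he'.1 (smul_mem _ c a4.1) (smul_mem _ d b4.1)]
      exact c2.mul hp d2
    · rw [mul a a1 b b1 a2 b2 _ a3 _ a4 _ b3 _ b4, mul_pow, pow_add, pow_mul, ht, mul_comm (p ^ t),
        pow_mul, hs, one_pow, one_pow, mul_one]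
  · rintro a w w' c c0 ⟨⟨a1, a2, a3, a4⟩, ⟨d, d0, d1, d2⟩, t, ht⟩
    refine ⟨⟨a1, a2, Ln_smul a3 c0, Ln_smul a4 c0⟩, ⟨d / c, div_ne_zero d0 c0, ?_, ?_⟩, t, ?_⟩
    · rwa [smul_smul, div_mul_cancel₀ _ c0]
    · rwa [smul_smul, div_mul_cancel₀ _ c0]
    · rwa [smul a a1 a2 _ a3 _ a4 c c c0 c0, div_self c0, one_mul]
  · rintro a w w₁ w₂ ⟨⟨a1, a2, a3, a4⟩, ⟨c, c0, c1, c2⟩, t, ht⟩
      ⟨⟨-, -, -, b4⟩, ⟨d, d0, d1, d2⟩, s, hs⟩
    obtain ⟨x, x0, rfl⟩ := Ln_unique hM he'.1 a2 (sM a a1) a4 b4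
    have n1 := Nd_ne hL he.1 a2 (sL a a1) a3
    have n2 := Nd_ne hM he'.1 a2 (sM a a1) a4
    rw [Nd_smul hL he.1] at c1 d1
    rw [smul_smul] at d2
    rw [Nd_smul hM he'.1] at c2 d2
    have m1 : Mup p (c / d) := Mup.of_pow hp dL (by
      have := c1.mul hp d1.inv
      rwa [← div_eq_mul_inv, mul_div_mul_right _ _ n1, ← div_pow] at this)
    have m2 : Mup p (d * x / c) := Mup.of_pow hp dM (by
      have := d2.mul hp c2.inv
      rwa [← div_eq_mul_inv, mul_div_mul_right _ _ n2, ← div_pow] at this)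
    have m3 : Mup p x := by
      have := m1.mul hp m2
      rwa [show c / d * (d * x / c) = x by field_simp] at this
    have h1 := smul a a1 a2 _ a3 _ a4 1 x one_ne_zero x0
    rw [one_smul, div_one] at h1
    have h2 : x ^ p ^ (t + s) = 1 := by
      have h3 : (x * Δ a w w₁) ^ p ^ (t + s) = 1 := by
        rw [← h1, pow_add, mul_comm, pow_mul, hs, one_pow]
      rwa [mul_pow, pow_add, pow_mul (Δ a w w₁), ht, one_pow, mul_one, ← pow_add] at h3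
    rw [rcg_mup_one hp m3 h2, one_smul]
  · intro a a1 a2 m hm h
    obtain ⟨h1, h2⟩ := loc a a1 a2 m hm h
    exact ⟨⟨a1, a2, Ln_hm hL he.1 (hML hm) h, Ln_hm hM he'.1 hm fun x hx => h x (hML hx)⟩, h1, 1,
      by rwa [pow_one]⟩
  · rintro γ hγ a w w' ⟨⟨a1, a2, a3, a4⟩, ⟨c, c0, c1, c2⟩, t, ht⟩
    obtain ⟨σ, hσ, h⟩ := (hΓ hγ).1.1.1.1
    have f1 : γ e = e := (hΓ hγ).1.2
    have f2 : γ e' = e' := (hΓ hγ).2
    have l1 := ln_stb (hΓ hγ).1.1.1.1 (sL γ hγ) a3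
    have l2 := ln_stb (hΓ hγ).1.1.1.1 (sM γ hγ) a4
    rw [f1] at l1
    rw [f2] at l2
    have n1 := Nd_nat hL he.1 h (smul_mem _ c a3.1)
    have n2 := Nd_nat hM he'.1 h (smul_mem _ c a4.1)
    rw [stb_image.1 (sL γ hγ), f1, h] at n1
    rw [stb_image.1 (sM γ hγ), f2, h] at n2
    refine ⟨⟨mul_mem (mul_mem hγ a1) (inv_mem hγ), h.lin a2, l1, l2⟩,
      ⟨σ c, (map_ne_zero_iff σ σ.injective).2 c0, n1 ▸ rcg_mup_map c1, n2 ▸ rcg_mup_map c2⟩, t, ?_⟩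
    rw [nat γ hγ σ h a a1 a2 _ a3 _ a4, ← map_pow, ht, map_one]

end Pool.Agent.Lib.MP_1ae3da_al.CT
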