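import Pool.Agent.Lib.MP_1ae3da_al.C.RCa

/-! The centraliser as a product, and the group `Gm`. -/

namespace Pool.Agent.Lib.MP_1ae3da_al.CT

open Submodule

variable {p : ℕ} {F X : Type} [Field F] [CharZero F] [IsAlgClosed F] [Group X] [Finite X]
  [Fact p.Prime] {Q : Subgroup X} {e e' ε ε' θ θ' i i' ψ ψ' η η' x y a b : MonoidAlgebra F X}

variable {k : Type} [Field k] {O R : Subring F} {r : F → k} {GG : Subgroup (RingAut F)}
  {γ : RingAut (MonoidAlgebra F X)} {σ : RingAut F}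

theorem rci_coord [Fintype Q] {t : MonoidAlgebra F X →ₗ[F] F} (ht : Tf F (gu F X) t)
    (ha : a ∈ span F (HX F Q)) : ∑ q : Q, t (gu F X (q : X)⁻¹ * a) • gu F X q = a := by
  classical
  have := ta_ext (u := gu F X) (H := Q)
    (f := ∑ q : Q, (t ∘ₗ LinearMap.mulLeft F (gu F X (q : X)⁻¹)).smulRight (gu F X q))
    (g := LinearMap.id) (fun x hx => by
      simp only [LinearMap.sum_apply, LinearMap.smulRight_apply, LinearMap.comp_apply,
        LinearMap.mulLeft_apply, LinearMap.id_apply, gu_mul]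
      rw [Finset.sum_eq_single (⟨x, hx⟩ : Q)]
      · rw [inv_mul_cancel, ht.1, one_smul]
      · intro q _ hq
        rw [ht.2 _ fun h => hq (Subtype.ext (inv_mul_eq_one.1 h)), zero_smul]
      · exact fun h => (h (Finset.mem_univ _)).elim) ha
  simpa only [LinearMap.sum_apply, LinearMap.smulRight_apply, LinearMap.comp_apply,
    LinearMap.mulLeft_apply, LinearMap.id_apply] using this

theorem rci_t (hQ : Nat.card Q = p) {t : MonoidAlgebra F X →ₗ[F] F} (ht : Tf F (gu F X) t)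
    (h : ε ∈ Irr F (HX F Q)) : (p : F) * t ε = 1 := by
  have : Fintype Q := Fintype.ofFinite Q
  have h1 : ∀ q : Q, (t (gu F X (q : X)⁻¹ * ε) • gu F X q) * ε = t ε • ε := fun q => by
    obtain ⟨ζ, -, e⟩ := irrQ_eig hQ h (Q.inv_mem q.2)
    rw [e, map_smul, smul_mul_assoc, smul_eq_mul, mul_comm ζ, mul_smul, ← mul_smul_comm, ← e,
      ← mul_assoc, gu_mul, mul_inv_cancel, gu_one, one_mul]
  have h2 := congrArg (· * ε) (rci_coord ht h.1.1)
  simp only [Finset.sum_mul, h1, Finset.sum_const, Finset.card_univ, h.2.1] at h2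
  rw [← Nat.card_eq_fintype_card, hQ, ← Nat.cast_smul_eq_nsmul F, smul_smul] at h2
  exact smul_left_injective F h.2.2.1 (h2.trans (one_smul F ε).symm)

theorem rci_sing {t : MonoidAlgebra F X →ₗ[F] F} (ht : Tf F (gu F X) t)
    (hb : b ∈ span F (HX F (Kp p Q))) (ha : a ∈ span F (HX F Q)) :
    b * (a - t a • 1) ∈ Sing F p Q := by
  induction ha using span_induction with
  | mem a m =>
    obtain ⟨c, -, q, hq, rfl⟩ := m
    by_cases h1 : q = 1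
    · subst h1
      rw [map_smul, ht.1, smul_eq_mul, mul_one, gu_one, sub_self, mul_zero]
      exact zero_mem _
    · rw [map_smul, ht.2 q h1, smul_zero, zero_smul, sub_zero, mul_smul_comm]
      refine smul_mem _ _ ?_
      induction hb using span_induction with
      | mem b m =>
        obtain ⟨d, -, k, hk, rfl⟩ := m
        rw [smul_mul_assoc, gu_mul]
        exact smul_mem _ _ (subset_span ⟨k, hk, q, hq, h1, rfl⟩)
      | zero => rw [zero_mul]; exact zero_mem _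
      | add x y _ _ hx hy => rw [add_mul]; exact add_mem hx hy
      | smul d x _ hx => rw [smul_mul_assoc]; exact smul_mem _ _ hx
  | zero => rw [map_zero, zero_smul, sub_self, mul_zero]; exact zero_mem _
  | add x y _ _ hx hy =>
    rw [map_add, add_smul, add_sub_add_comm, mul_add]; exact add_mem hx hy
  | smul d x _ hx =>
    rw [map_smul, smul_eq_mul, mul_smul, ← smul_sub, mul_smul_comm]; exact smul_mem _ _ hx

theorem rci_tsing (hQ : Nat.card Q = p) (h2 : ¬ p ^ 2 ∣ Nat.card X)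
    {t : MonoidAlgebra F X →ₗ[F] F} (ht : Tf F (gu F X) t) (ha : a ∈ Sing F p Q) : t a = 0 := by
  refine LinearMap.eqOn_span' (f := t) (g := 0) ?_ ha
  rintro _ ⟨k, hk, q, hq, h1, rfl⟩
  refine ht.2 _ fun h => h1 (kp_unique hQ h2 hq Q.one_mem hk (Kp p Q).one_mem ?_).1
  rw [kp_comm hq hk, h, one_mul]

theorem rci_tmul (hQ : Nat.card Q = p) (h2 : ¬ p ^ 2 ∣ Nat.card X)
    {t : MonoidAlgebra F X →ₗ[F] F} (ht : Tf F (gu F X) t)
    (hb : b ∈ span F (HX F (Kp p Q))) (ha : a ∈ span F (HX F Q)) : t (b * a) = t a * t b := by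
  have := rci_tsing hQ h2 ht (rci_sing ht hb ha)
  rwa [mul_sub, map_sub, mul_smul_comm, mul_one, map_smul, smul_eq_mul, sub_eq_zero] at this

theorem rci_kc (hb : b ∈ span F (HX F (Kp p Q))) : b ∈ span F (HX F (CQ Q)) :=
  span_Hm_mono (kp_le Q) hb

theorem rci_stb (h : SL F σ γ) {α : MulAut X} (hα : ∀ x, γ (gu F X x) = gu F X (α x))
    (hQ : ∀ x, α x ∈ Q ↔ x ∈ Q) : γ ∈ Stb (HX F Q) ∧ γ ∈ Stb (HX F (Kp p Q)) ∧
      γ ∈ Stb (HX F (CQ Q)) ∧ γ (e0 F Q) = e0 F Q := by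
  have h0 : γ ∈ Stb (HX F (⊤ : Subgroup X)) := (ga_stb h hα ⊤).2 fun _ => Iff.rfl
  have h1 := (ga_stb h hα Q).2 hQ
  refine ⟨h1, (ga_stb h hα _).2 fun x => ⟨fun hx => ?_, kp_aut α hQ⟩,
    gu_tg.stb_centralizer h h0 h1, e0_aut h hα hQ⟩
  have := kp_aut α.symm (fun y => by rw [← hQ, α.apply_symm_apply]) hx
  rwa [α.symm_apply_apply] at this

/-- the coefficient of one in a block idempotent of `Q` is `p⁻¹`. -/
theorem sing_mem (hQ : Nat.card Q = p) (h : ε ∈ Irr F (HX F Q))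
    (hb : b ∈ span F (HX F (Kp p Q))) : b * (e0 F Q - ε) ∈ Sing F p Q := by
  obtain ⟨t, ht⟩ := exists_Tf (gu_tg (F := F) (X := X))
  have h0 : (p : F) ≠ 0 := Nat.cast_ne_zero.2 (Fact.out : p.Prime).ne_zero
  have h1 : t (e0 F Q - ε) = 0 := by
    rw [map_sub, sub_eq_zero]
    exact mul_left_cancel₀ h0 ((rci_t hQ ht e0_irr).trans (rci_t hQ ht h).symm)
  have := rci_sing ht hb (sub_mem (e0_irr (F := F) (Q := Q)).1.1 h.1.1)
  rwa [h1, zero_smul, sub_zero] at this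
theorem irrQ_inj (hQ : Nat.card Q = p) (h2 : ¬ p ^ 2 ∣ Nat.card X) (h : ε ∈ Irr F (HX F Q))
    (hb : b ∈ span F (HX F (Kp p Q))) (h0 : b * ε = 0) : b = 0 := by
  obtain ⟨t, ht⟩ := exists_Tf (gu_tg (F := F) (X := X))
  have h1 : t ε ≠ 0 := right_ne_zero_of_mul_eq_one (rci_t hQ ht h)
  refine Tf.nondeg gu_tg ht hb fun k hk => ?_
  have hk' : gu F X k ∈ span F (HX F (Kp p Q)) := subset_span (mem_Hm hk)
  have := rci_tmul hQ h2 ht (span_mul gu_tg hb hk') h.1.1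
  rw [mul_assoc, ← irrQ_comm h.1.1 (rci_kc hk'), ← mul_assoc, h0, zero_mul, map_zero] at this
  exact (mul_eq_zero.1 this.symm).resolve_left h1
theorem irrQ_cut (hQ : Nat.card Q = p) (h2 : ¬ p ^ 2 ∣ Nat.card X) (h : ε ∈ Irr F (HX F Q))
    (ha : a ∈ span F (HX F (CQ Q))) : ∃ b ∈ span F (HX F (Kp p Q)), a * ε = b * ε := by
  induction ha using span_induction with
  | mem a m =>
    obtain ⟨c, -, x, hx, rfl⟩ := m
    obtain ⟨q, hq, k, hk, rfl⟩ := kp_split hQ h2 hx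
    obtain ⟨ζ, -, e⟩ := irrQ_eig hQ h hq
    refine ⟨c • ζ • gu F X k, smul_mem _ _ (smul_mem _ _ (subset_span (mem_Hm hk))), ?_⟩
    rw [kp_comm hq hk, ← gu_mul, smul_mul_assoc, smul_mul_assoc, smul_mul_assoc, mul_assoc, e,
      mul_smul_comm]
  | zero => exact ⟨0, zero_mem _, rfl⟩
  | add x y _ _ hx hy =>
    obtain ⟨b, hb, e⟩ := hx
    obtain ⟨b', hb', e'⟩ := hy
    exact ⟨b + b', add_mem hb hb', by rw [add_mul, add_mul, e, e']⟩
  | smul d x _ hx =>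
    obtain ⟨b, hb, e⟩ := hx
    exact ⟨d • b, smul_mem _ _ hb, by rw [smul_mul_assoc, smul_mul_assoc, e]⟩
theorem irrC (hQ : Nat.card Q = p) (h2 : ¬ p ^ 2 ∣ Nat.card X) (h : ε ∈ Irr F (HX F Q))
    (hθ : θ ∈ Irr F (HX F (Kp p Q))) : θ * ε ∈ Irr F (HX F (CQ Q)) := by
  have hc : ε * θ = θ * ε := irrQ_comm h.1.1 (rci_kc hθ.1.1)
  refine ⟨⟨span_mul gu_tg (rci_kc hθ.1.1) (span_Hm_mono (rg_le hQ) h.1.1), ?_⟩, ?_,
    fun h0 => hθ.2.2.1 (irrQ_inj hQ h2 h hθ.1.1 h0), fun z hz => ?_⟩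
  · intro s hs
    have h3 : θ * s = s * θ := by
      obtain ⟨c, -, x, hx, rfl⟩ := hs
      obtain ⟨q, hq, k, hk, rfl⟩ := kp_split hQ h2 hx
      rw [mul_smul_comm, smul_mul_assoc, ← gu_mul, ← mul_assoc,
        ← irrQ_comm (subset_span (mem_Hm hq)) (rci_kc hθ.1.1), mul_assoc, hθ.1.2 _ (mem_Hm hk),
        mul_assoc]
    rw [mul_assoc, irrQ_comm h.1.1 (subset_span hs), ← mul_assoc, h3, mul_assoc]
  · rw [mul_assoc, ← mul_assoc ε, hc, mul_assoc, h.2.1, ← mul_assoc, hθ.2.1]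
  · obtain ⟨b, hb, e⟩ := irrQ_cut hQ h2 h hz.1
    have h3 : b ∈ Cen F (HX F (Kp p Q)) := ⟨hb, fun s hs => by
      have hs' : s ∈ span F (HX F (Kp p Q)) := subset_span hs
      refine sub_eq_zero.1 (irrQ_inj hQ h2 h
        (sub_mem (span_mul gu_tg hb hs') (span_mul gu_tg hs' hb)) ?_)
      rw [sub_mul, mul_assoc, ← irrQ_comm h.1.1 (rci_kc hs'), ← mul_assoc, ← e, mul_assoc s, ← e,
        mul_assoc, irrQ_comm h.1.1 (rci_kc hs'), ← mul_assoc, ← mul_assoc,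
        Cen_comm hz (rci_kc hs'), sub_self]⟩
    obtain ⟨c, hc'⟩ := hθ.2.2.2 b h3
    exact ⟨c, by rw [← hc, ← mul_assoc, e, mul_assoc, hc, ← mul_assoc, hc', smul_mul_assoc]⟩
theorem g0_le : G0 O GG X ≤ Gm GG Q := by
  rintro γ ⟨σ, hσ, -, h, e⟩
  exact ⟨⟨⟨σ, hσ, h⟩, (ga_stb (δ := 1) h e _).2 fun _ => Iff.rfl⟩,
    (ga_stb (δ := 1) h e _).2 fun _ => Iff.rfl⟩
/-- the members of `Gm` (`ga_perf`, `ga_stb`; `Q` is the set of elements of `N` killed by `p`). -/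
theorem gm_aut (hX : commutator X = ⊤) (hQ : Nat.card Q = p) (h2 : ¬ p ^ 2 ∣ Nat.card X)
    (h : γ ∈ Gm GG Q) : ∃ σ ∈ GG, ∃ α : MulAut X, SL F σ γ ∧
      (∀ x, γ (gu F X x) = gu F X (α x)) ∧ (∀ x, α x ∈ Q ↔ x ∈ Q) ∧
      γ ∈ Stb (HX F Q) ∧ γ ∈ Stb (HX F (Kp p Q)) ∧ γ ∈ Stb (HX F (CQ Q)) ∧
      γ (e0 F Q) = e0 F Q := by
  obtain ⟨⟨⟨σ, hσ, hs⟩, h0⟩, hN⟩ := h
  obtain ⟨α, hα⟩ := ga_perf hX hs h0
  let P : Sylow p X := (IsPGroup.of_card (n := 1) (by rw [hQ, pow_one])).toSylow (rg_index hQ h2)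
  have h1 : ∀ x, α x ∈ Q ↔ x ∈ Q := (norm_stb P α).1 ((ga_stb hs hα (NQ Q)).1 hN)
  exact ⟨σ, hσ, α, hs, hα, h1, rci_stb hs hα h1⟩
/-- conjugation by an element of the normaliser. -/
theorem gm_ad {n : X} (hn : n ∈ NQ Q) : ∃ a ∈ Gm GG Q, Lin F a ∧
    (∀ b, a b = gu F X n * b * gu F X n⁻¹) ∧ a ∈ Stb (HX F Q) ∧ a ∈ Stb (HX F (Kp p Q)) ∧
      a ∈ Stb (HX F (CQ Q)) ∧ a (e0 F Q) = e0 F Q := by
  obtain ⟨a, hs, hα⟩ := ga_aut (1 : RingAut F) (MulAut.conj n)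
  have h1 : ∀ x, MulAut.conj n x ∈ Q ↔ x ∈ Q := fun x =>
    (Subgroup.mem_normalizer_iff.1 hn x).symm
  refine ⟨a, ⟨⟨⟨1, one_mem _, hs⟩, (ga_stb hs hα ⊤).2 fun _ => Iff.rfl⟩,
    (ga_stb hs hα _).2 fun x => ?_⟩, hs, fun b => ?_, rci_stb hs hα h1⟩
  · rw [MulAut.conj_apply, (NQ Q).mul_mem_cancel_right ((NQ Q).inv_mem hn),
      (NQ Q).mul_mem_cancel_left hn]
  · exact gu_ext 1 ⊤ a.toAddMonoidHom
      (LinearMap.mulRight F (gu F X n⁻¹) ∘ₗ LinearMap.mulLeft F (gu F X n)).toAddMonoidHom hs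
      (fun c x => map_smul
        (LinearMap.mulRight F (gu F X n⁻¹) ∘ₗ LinearMap.mulLeft F (gu F X n)) c x)
      (fun x _ => (hα x).trans (by
        change _ = gu F X n * gu F X x * gu F X n⁻¹
        rw [gu_mul, gu_mul, MulAut.conj_apply])) b (gu_span.ge trivial)

end Pool.Agent.Lib.MP_1ae3da_al.CT
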