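import Pool.Agent.Lib.MP_1ae3da_al.C.TE

/-! The centraliser of a block as a twisted group algebra of the quotient. -/

namespace Pool.Agent.Lib.MP_1ae3da_al.CT

open Submodule

variable {F A G : Type} [Field F] [Ring A] [Algebra F A] [Group G] {u : G → A}
  {L H : Subgroup G} {e : A}

variable (F) in
/-- the elements of the centraliser over the coset of `x`. -/
def tfZ (u : G → A) (L : Subgroup G) (e : A) (x : G) (z : A) : Prop :=
  z ≠ 0 ∧ (∃ w ∈ span F (Hm F u L), z = w * e * u x) ∧ ∀ s ∈ Hm F u L, z * s = s * z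

theorem tf_mem {x : G} (hx : x ∈ H) : u x ∈ Hm F u H :=
  ⟨1, one_ne_zero, x, hx, (one_smul _ _).symm⟩

theorem tf_top {b : A} (hb : b ∈ span F (Hm F u L)) : b ∈ span F (Hm F u ⊤) :=
  span_mono (Hm_mono le_top) hb

theorem tf_u (x : G) : u x ∈ span F (Hm F u ⊤) := subset_span (tf_mem (Subgroup.mem_top x))

theorem tf_cancel (hu : TG F u) (x : G) {b b' : A} (hb : b ∈ span F (Hm F u ⊤))
    (hb' : b' ∈ span F (Hm F u ⊤)) (h : b * u x = b' * u x) : b = b' := by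
  obtain ⟨y, -, h1, -⟩ := Hm_inv hu (tf_mem (F := F) (u := u) (Subgroup.mem_top x))
  have := congrArg (· * y) h
  simp only [mul_assoc, h1] at this
  rwa [(one_span hu hb).2, (one_span hu hb').2] at this

theorem tfZ.top (hu : TG F u) (he : e ∈ Irr F (Hm F u L)) {x : G} {z : A} (h : tfZ F u L e x z) :
    z ∈ span F (Hm F u ⊤) := by
  obtain ⟨-, ⟨w, hw, rfl⟩, -⟩ := h
  exact span_mul hu (span_mul hu (tf_top hw) (tf_top he.1.1)) (tf_u x)

theorem tfZ.left (he : e ∈ Irr F (Hm F u L)) {x : G} {z : A} (h : tfZ F u L e x z) :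
    e * z = z := by
  obtain ⟨-, ⟨w, hw, rfl⟩, -⟩ := h
  rw [← mul_assoc, ← mul_assoc, Cen_comm he.1 hw, mul_assoc w e e, he.2.1]

theorem tfZ.smul {x : G} {z : A} (h : tfZ F u L e x z) {c : F} (hc : c ≠ 0) :
    tfZ F u L e x (c • z) := by
  obtain ⟨h0, ⟨w, hw, h1⟩, h2⟩ := h
  refine ⟨smul_ne_zero hc h0, ⟨c • w, smul_mem _ c hw, ?_⟩, fun s hs => ?_⟩
  · rw [h1, smul_mul_assoc, smul_mul_assoc]
  · rw [smul_mul_assoc, mul_smul_comm, h2 s hs]

theorem tfZ.shift (hu : TG F u) (he : e ∈ Irr F (Hm F u L)) {x y : G} {z : A}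
    (h : tfZ F u L e x z) (hxy : x * y⁻¹ ∈ L) : tfZ F u L e y z := by
  obtain ⟨h0, ⟨w, hw, h1⟩, h2⟩ := h
  obtain ⟨c, hc, h3⟩ := hu.mul (x * y⁻¹) y
  rw [inv_mul_cancel_right] at h3
  have h4 : u (x * y⁻¹) ∈ Hm F u L := tf_mem hxy
  refine ⟨h0, ⟨c⁻¹ • (w * u (x * y⁻¹)), smul_mem _ _ (span_mul hu hw (subset_span h4)), ?_⟩, h2⟩
  rw [h1, smul_mul_assoc, smul_mul_assoc, mul_assoc w (u _) e, ← he.1.2 _ h4, ← mul_assoc,
    mul_assoc (w * e), h3, mul_smul_comm, inv_smul_smul₀ hc]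

theorem tf_one (hu : TG F u) (he : e ∈ Irr F (Hm F u L)) : tfZ F u L e 1 e :=
  ⟨he.2.2.1, ⟨e, he.1.1, by rw [he.2.1, (one_span hu he.1.1).2]⟩, he.1.2⟩

theorem tf_exists [IsAlgClosed F] [Finite G] (hu : TG F u) (hL : (Nat.card L : F) ≠ 0)
    (he : e ∈ Irr F (Hm F u L)) {x : G} (hn : x ∈ Subgroup.normalizer (L : Set G))
    (hx : x ∈ St u e) : ∃ z, tfZ F u L e x z ∧ ∃ w ∈ span F (Hm F u L), w * z = e * u x := by
  obtain ⟨a, ha⟩ := exists_ad hu x
  have h1 := ha.stb hu hn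
  have h2 : a e = e := (ha.fix hu (tf_top he.1.1)).2 ((mem_St hu (tf_top he.1.1)).1 hx)
  obtain ⟨w, hw⟩ := Ln_exists (nice_Hm hu hL) he ha.1 h1 h2
  obtain ⟨w', hw', h3, -⟩ := Ln_unit (nice_Hm hu hL) he ha.1 h1 hw
  have h4 : w * (w' * u x) = e * u x := by rw [← mul_assoc, h3]
  refine ⟨w' * u x, ⟨fun h0 => he.2.2.1 ?_, ⟨w', hw'.1, by rw [hw'.2.1]⟩, fun s hs => ?_⟩,
    w, hw.1, h4⟩
  · refine tf_cancel hu x (tf_top he.1.1) (zero_mem _) ?_
    rw [← h4, h0, mul_zero, zero_mul]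
  · rw [mul_assoc, ha.2.2 s (tf_top (subset_span hs)), ← mul_assoc,
      hw'.2.2.2 _ ((h1 s).2 hs), ← mul_assoc]
    congr 2
    exact a.symm_apply_apply s

theorem tf_unique [IsAlgClosed F] [Finite G] (hu : TG F u) (hL : (Nat.card L : F) ≠ 0)
    (he : e ∈ Irr F (Hm F u L)) {x : G} (hn : x ∈ Subgroup.normalizer (L : Set G)) {z z' : A}
    (h : tfZ F u L e x z) (h' : tfZ F u L e x z') : ∃ c : F, c ≠ 0 ∧ z' = c • z := by
  obtain ⟨a, ha⟩ := exists_ad hu x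
  have h1 : a⁻¹ ∈ Stb (Hm F u L) := inv_mem (ha.stb hu hn)
  have key : ∀ {w : A}, w ∈ span F (Hm F u L) → tfZ F u L e x (w * e * u x) →
      w * e ∈ Ln F (Hm F u L) e a⁻¹ := by
    intro w hw hz
    have h2 := span_mul hu hw he.1.1
    refine ⟨h2, by rw [mul_assoc, he.2.1], fun h0 => hz.1 (by rw [h0, zero_mul]), fun s hs => ?_⟩
    have h3 : a⁻¹ s ∈ Hm F u L := (h1 s).2 hs
    refine tf_cancel hu x (tf_top (span_mul hu h2 (subset_span hs)))
      (tf_top (span_mul hu (subset_span h3) h2)) ?_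
    have h4 := ha.2.2 _ (tf_top (subset_span h3))
    rw [show a (a⁻¹ s) = s from a.apply_symm_apply s] at h4
    rw [mul_assoc (w * e), ← h4, ← mul_assoc, hz.2.2 _ h3, ← mul_assoc]
  obtain ⟨w, hw, rfl⟩ := h.2.1
  obtain ⟨w', hw', rfl⟩ := h'.2.1
  obtain ⟨c, hc, h2⟩ := Ln_unique (nice_Hm hu hL) he ha.1.inv h1 (key hw h) (key hw' h')
  exact ⟨c, hc, by rw [h2, smul_mul_assoc]⟩

theorem tfZ.inv [IsAlgClosed F] [Finite G] (hu : TG F u) (hL : (Nat.card L : F) ≠ 0)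
    (he : e ∈ Irr F (Hm F u L)) {x : G} (hn : x ∈ Subgroup.normalizer (L : Set G))
    (hx : x ∈ St u e) {z : A} (h : tfZ F u L e x z) :
    ∃ w ∈ span F (Hm F u L), w * z = e * u x := by
  obtain ⟨z', h', w, hw, h1⟩ := tf_exists hu hL he hn hx
  obtain ⟨c, -, rfl⟩ := tf_unique hu hL he hn h h'
  exact ⟨c • w, smul_mem _ c hw, by rw [← h1, smul_mul_assoc, mul_smul_comm]⟩

theorem tfZ.mul [IsAlgClosed F] [Finite G] (hu : TG F u) (hL : (Nat.card L : F) ≠ 0)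
    (he : e ∈ Irr F (Hm F u L)) {x y : G} (hn : x ∈ Subgroup.normalizer (L : Set G))
    (hx : x ∈ St u e) {z z' : A} (h : tfZ F u L e x z) (h' : tfZ F u L e y z') :
    tfZ F u L e (x * y) (z * z') := by
  have hxe := (mem_St hu (tf_top he.1.1)).1 hx
  refine ⟨fun h0 => h'.1 ?_, ?_, fun s hs => by
    rw [mul_assoc, h'.2.2 s hs, ← mul_assoc, h.2.2 s hs, mul_assoc]⟩
  · obtain ⟨w, -, h1⟩ := h.inv hu hL he hn hx
    obtain ⟨b, -, -, h2⟩ := Hm_inv hu (tf_mem (F := F) (u := u) (Subgroup.mem_top x))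
    have h3 : u x * z' = 0 := by
      rw [← h'.left he, ← mul_assoc, hxe, ← h1, mul_assoc, h0, mul_zero]
    rw [← (one_span hu (h'.top hu he)).1, ← h2, mul_assoc, h3, mul_zero]
  · obtain ⟨a, ha⟩ := exists_ad hu x
    obtain ⟨c, -, hc⟩ := hu.mul x y
    obtain ⟨-, ⟨w, hw, rfl⟩, -⟩ := h
    obtain ⟨-, ⟨w', hw', rfl⟩, -⟩ := h'
    have h1 : a w' ∈ span F (Hm F u L) :=
      (span_stb (GG := ⊤) ha.1.mem_SG (ha.stb hu hn)).2 hw'
    refine ⟨c • (w * e * a w'), smul_mem _ c (span_mul hu (span_mul hu hw he.1.1) h1), ?_⟩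
    calc w * e * u x * (w' * e * u y) = w * e * (u x * w') * e * u y := by
          simp only [mul_assoc]
      _ = w * e * a w' * (u x * e) * u y := by
          rw [ha.2.2 _ (tf_top hw')]; simp only [mul_assoc]
      _ = w * e * a w' * e * (u x * u y) := by rw [hxe]; simp only [mul_assoc]
      _ = _ := by rw [hc, mul_smul_comm, smul_mul_assoc, smul_mul_assoc]

theorem tf_t (hu : TG F u) {t : A →ₗ[F] F} (ht : Tf F u t) {x y : G} {z : A}
    (he : e ∈ Irr F (Hm F u L)) (h : tfZ F u L e x z) (hxy : x * y ∉ L) : t (z * u y) = 0 := by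
  have key : ∀ w ∈ span F (Hm F u L), t (w * u (x * y)) = 0 := by
    intro w hw
    induction hw using span_induction with
    | mem s hs =>
      obtain ⟨c, -, l, hl, rfl⟩ := hs
      obtain ⟨d, -, hd⟩ := hu.mul l (x * y)
      rw [smul_mul_assoc, hd, map_smul, map_smul, ht.2 _ fun h1 => hxy ?_, smul_zero, smul_zero]
      rw [eq_inv_of_mul_eq_one_right h1]
      exact inv_mem hl
    | zero => rw [zero_mul, map_zero]
    | add a b _ _ ha hb => rw [add_mul, map_add, ha, hb, add_zero]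
    | smul c a _ ha => rw [smul_mul_assoc, map_smul, ha, smul_zero]
  obtain ⟨-, ⟨w, hw, rfl⟩, -⟩ := h
  obtain ⟨c, -, hc⟩ := hu.mul x y
  rw [mul_assoc, hc, mul_smul_comm, map_smul, key _ (span_mul hu hw he.1.1), smul_zero]

/-- hint: for `q` take `x = q.out` (and `x = 1` for `q = 1`), `a` with `IsAd u x a`,
`w ∈ Ln (Hm L) e a`, its inverse `w'` in the block and `v q = w' * u x`.  Elements of `Cz` over the
same coset are proportional (`Ln_unique`); independence by the grading (`Tf.nondeg` or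
coordinates). -/
theorem cz_family [IsAlgClosed F] [Finite G] (hu : TG F u) (hL : (Nat.card L : F) ≠ 0)
    (hLH : L ≤ H) [(L.subgroupOf H).Normal] (he : e ∈ Irr F (Hm F u L)) (hH : H ≤ St u e) :
    ∃ v : H ⧸ L.subgroupOf H → A, TG F v ∧ v 1 = e ∧
      (∀ x : H, ∃ w ∈ span F (Hm F u L), ∃ w' ∈ span F (Hm F u L),
        w * v x = e * u x ∧ v x = w' * e * u x) ∧
      ∀ S : Subgroup G, L ≤ S → S ≤ H → Cz F (Hm F u S) (Hm F u L) e =
        Hm F v ((S.subgroupOf H).map (QuotientGroup.mk' (L.subgroupOf H))) := by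
  classical
  have hn : H ≤ Subgroup.normalizer (L : Set G) :=
    (Subgroup.normal_subgroupOf_iff_le_normalizer hLH).1 inferInstance
  have eq : ∀ x y : H, (x : H ⧸ L.subgroupOf H) = y ↔ (x : G) * (y : G)⁻¹ ∈ L := fun x y => by
    rw [QuotientGroup.eq_iff_div_mem, div_eq_mul_inv, Subgroup.mem_subgroupOf]
    rfl
  have ex : ∀ q : H ⧸ L.subgroupOf H, ∃ z, (∀ x : H, (x : H ⧸ L.subgroupOf H) = q →
      tfZ F u L e x z) ∧ (q = 1 → z = e) := by
    intro q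
    by_cases h1 : q = 1
    · refine ⟨e, fun x hx => (tf_one hu he).shift hu he ?_, fun _ => rfl⟩
      exact (eq 1 x).1 (hx.trans h1).symm
    · obtain ⟨y, rfl⟩ := QuotientGroup.mk_surjective q
      obtain ⟨z, hz, -⟩ := tf_exists hu hL he (hn y.2) (hH y.2)
      exact ⟨z, fun x hx => hz.shift hu he ((eq y x).1 hx.symm), fun h => absurd h h1⟩
  choose v hv hv1 using ex
  refine ⟨v, ⟨fun q q' => ?_, ?_, by rw [hv1 1 rfl, he.2.1]⟩, hv1 1 rfl, fun x => ?_,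
    fun S _ hSH => ?_⟩
  · obtain ⟨x, rfl⟩ := QuotientGroup.mk_surjective q
    obtain ⟨y, rfl⟩ := QuotientGroup.mk_surjective q'
    exact tf_unique hu hL he (hn (x * y).2) (hv _ (x * y) rfl)
      ((hv _ x rfl).mul hu hL he (hn x.2) (hH x.2) (hv _ y rfl))
  · obtain ⟨t, ht⟩ := exists_Tf hu
    refine linearIndependent_iff'.2 fun s g hg q hq => ?_
    obtain ⟨x, rfl⟩ := QuotientGroup.mk_surjective q
    have hx := hv _ x rfl
    obtain ⟨y, hy⟩ : ∃ y, t (v x * u y) ≠ 0 := by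
      by_contra h
      push Not at h
      exact hx.1 (ht.nondeg hu (hx.top hu he) fun y _ => h y)
    have hxy : (x : G) * y ∈ L := by
      by_contra h
      exact hy (tf_t hu ht he hx h)
    have h1 := congrArg (fun b => t (b * u y)) hg
    simp only [Finset.sum_mul, map_sum, smul_mul_assoc, map_smul, zero_mul, map_zero] at h1
    rw [Finset.sum_eq_single_of_mem _ hq] at h1
    · exact (smul_eq_zero.1 h1).resolve_right hy
    · intro q' _ hne
      obtain ⟨x', rfl⟩ := QuotientGroup.mk_surjective q'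
      rw [tf_t hu ht he (hv _ x' rfl) fun h => hne ((eq x' x).2 ?_), smul_zero]
      simpa using mul_mem h (inv_mem hxy)
  · obtain ⟨w, hw, h1⟩ := (hv _ x rfl).inv hu hL he (hn x.2) (hH x.2)
    obtain ⟨w', hw', h2⟩ := (hv _ x rfl).2.1
    exact ⟨w, hw, w', hw', h1, h2⟩
  · ext z
    constructor
    · rintro ⟨h0, ⟨_, ⟨c, -, x, hx, rfl⟩, w, hw, h1⟩, h2⟩
      have h3 : tfZ F u L e x z := ⟨h0, ⟨c • w, smul_mem _ c hw, by
        rw [h1, mul_smul_comm, smul_mul_assoc, smul_mul_assoc]⟩, h2⟩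
      obtain ⟨d, hd, h4⟩ := tf_unique hu hL he (hn (hSH hx)) (hv _ ⟨x, hSH hx⟩ rfl) h3
      exact ⟨d, hd, _, ⟨⟨x, hSH hx⟩, hx, rfl⟩, h4⟩
    · rintro ⟨c, hc, _, ⟨x, hx, rfl⟩, rfl⟩
      obtain ⟨h0, ⟨w, hw, h1⟩, h2⟩ := (hv _ x rfl).smul hc
      exact ⟨h0, ⟨u x, tf_mem hx, w, hw, h1⟩, h2⟩

end Pool.Agent.Lib.MP_1ae3da_al.CT
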