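import Pool.Agent.Lib.MP_1ae3da_al.C.RCc
import Pool.Agent.Lib.MP_1ae3da_al.C.TF

/-! Multiplicity one. -/

namespace Pool.Agent.Lib.MP_1ae3da_al.CT

open Submodule

variable {p : ℕ} {F X : Type} [Field F] [CharZero F] [IsAlgClosed F] [Group X] [Finite X]
  [Fact p.Prime] {Q : Subgroup X} {e e' ε ε' θ θ' i i' ψ ψ' η η' x y a b : MonoidAlgebra F X}

variable {k : Type} [Field k] {O R : Subring F} {r : F → k} {GG : Subgroup (RingAut F)}
  {γ : RingAut (MonoidAlgebra F X)} {σ : RingAut F}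

variable {om : X → F} {T : MonoidAlgebra F X →ₗ[F] MonoidAlgebra F X}

theorem rck_cyc {G M : Type} [Group G] [Group M] [Finite M] [IsCyclic M] (f : G →* M)
    (H : Subgroup G) : ∃ n ∈ H, ∀ x ∈ H, ∃ a : ℕ, f x = f (n ^ a) := by
  obtain ⟨⟨_, n, hn, rfl⟩, hg⟩ := IsCyclic.exists_monoid_generator (α := H.map f)
  refine ⟨n, hn, fun x hx => ?_⟩
  obtain ⟨a, ha⟩ := hg ⟨f x, x, hx, rfl⟩
  exact ⟨a, by rw [map_pow]; exact (congrArg Subtype.val ha).symm⟩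

omit [Finite X] [Fact p.Prime] in
theorem rck_norm : NQ Q ≤ Subgroup.normalizer (Kp p Q : Set X) := fun n hn =>
  Subgroup.mem_normalizer_iff.2 fun x => ⟨kp_conj hn, fun h => by
    simpa [mul_assoc] using kp_conj (inv_mem hn) h⟩

omit [Finite X] [Fact p.Prime] in
theorem rck_le : Kp p Q ≤ NQ Q := (kp_le Q).trans (Subgroup.centralizer_le_normalizer _)

/-- a subgroup of the normaliser is cyclic modulo the centraliser. -/
theorem rck_gen (hQ : Nat.card Q = p) (h2 : ¬ p ^ 2 ∣ Nat.card X) (S : Subgroup X) :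
    ∃ n ∈ NQ Q, n ∈ S ∧ ∀ x ∈ NQ Q, x ∈ S →
      ∃ a : ℕ, ∃ q ∈ Q, ∃ k ∈ Kp p Q, x = n ^ a * (q * k) := by
  obtain ⟨ν, -, hν⟩ := rg_nu hQ
  obtain ⟨n, hn, h⟩ := rck_cyc ν (S.subgroupOf (NQ Q))
  refine ⟨n, n.2, hn, fun x hx hs => ?_⟩
  obtain ⟨a, ha⟩ := h ⟨x, hx⟩ hs
  obtain ⟨q, hq, k, hk, e⟩ := kp_split hQ h2 ((hν ((n ^ a)⁻¹ * ⟨x, hx⟩)).1 (by
    rw [map_mul, map_inv, ha, inv_mul_cancel]))
  exact ⟨a, q, hq, k, hk, by rw [← e]; simp⟩

/-- the corner of `i e0` is spanned by the powers of one element. -/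
theorem rck_corner (hQ : Nat.card Q = p) (h2 : ¬ p ^ 2 ∣ Nat.card X)
    (hθ : θ ∈ Irr F (HX F (Kp p Q))) (hi : Prim F (HX F (Kp p Q)) θ i) :
    ∃ z : MonoidAlgebra F X, z * (i * e0 F Q) = i * e0 F Q * z ∧ ∀ a ∈ span F (HX F (NQ Q)),
      i * e0 F Q * a * (i * e0 F Q) ∈ span F (Set.range fun m : ℕ => i * e0 F Q * z ^ m) := by
  have hu := gu_tg (F := F) (X := X)
  obtain ⟨n, hn, hs, gen⟩ := rck_gen hQ h2 (St (gu F X) θ)
  obtain ⟨z, ⟨-, ⟨w', hw', hz⟩, zc⟩, w, hw, hwz⟩ := tf_exists hu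
    (Nat.cast_ne_zero.2 Nat.card_pos.ne') hθ (rck_norm hn) hs
  have KN := span_Hm_mono (F := F) (u := gu F X) (rck_le (p := p) (Q := Q))
  have uN : ∀ x ∈ NQ Q, gu F X x ∈ span F (HX F (NQ Q)) := fun x hx => subset_span (mem_Hm hx)
  have ec : ∀ a ∈ span F (HX F (NQ Q)), Commute (e0 F Q) a := fun a ha => Cen_comm e0_cen ha
  have zK : ∀ a ∈ span F (HX F (Kp p Q)), Commute z a := fun a ha => span_comm' zc ha
  have zN : z ∈ span F (HX F (NQ Q)) :=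
    hz ▸ hu.span_mul (hu.span_mul (KN hw') (KN hθ.1.1)) (uN n hn)
  have tn : gu F X n * θ = θ * gu F X n := (hu.mem_St_span hθ.1.1).1 hs
  have pw : ∀ m : ℕ, ∃ v ∈ span F (HX F (Kp p Q)), θ * gu F X (n ^ m) = v * z ^ m := fun m => by
    induction m with
    | zero => exact ⟨θ, hθ.1.1, by rw [pow_zero, pow_zero, gu_one]⟩
    | succ m ih =>
      obtain ⟨v, hv, e⟩ := ih
      refine ⟨w * v, hu.span_mul hw hv, ?_⟩
      rw [pow_succ', ← gu_mul, ← hθ.2.1, mul_assoc θ, ← mul_assoc θ (gu F X n), ← tn,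
        mul_assoc, ← mul_assoc θ, ← hwz, e, pow_succ', mul_assoc, ← mul_assoc z, (zK v hv).eq]
      simp only [mul_assoc]
  have ti : θ * i = i := by rw [Cen_comm hθ.1 hi.1, hi.2.1]
  refine ⟨z, ((zK i hi.1).mul_right (ec z zN).symm).eq, fun a ha => ?_⟩
  induction ha using span_induction with
  | zero => simp
  | add x y _ _ h1 h2 => rw [mul_add, add_mul]; exact add_mem h1 h2
  | smul c x _ h1 => rw [mul_smul_comm, smul_mul_assoc]; exact smul_mem _ c h1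
  | mem x hx =>
    obtain ⟨c, -, x, hx, rfl⟩ := hx
    rw [mul_smul_comm, smul_mul_assoc]
    refine smul_mem _ c ?_
    have e1 : i * e0 F Q * gu F X x * (i * e0 F Q) = i * (θ * gu F X x * θ) * i * e0 F Q := by
      rw [mul_assoc i, (ec _ (uN x hx)).eq, ← (ec i (KN hi.1)).eq, mul_assoc i, mul_assoc,
        ← mul_assoc (e0 F Q), e0_irr.2.1, (ec i (KN hi.1)).eq]
      conv_lhs => rw [← hi.2.1]
      conv_lhs => rhs; rhs; rw [hi.2.1, ← ti]
      simp only [mul_assoc]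
    by_cases hxs : x ∈ St (gu F X) θ
    · obtain ⟨m, q, hq, k, hk, rfl⟩ := gen x hx hxs
      obtain ⟨v, hv, e⟩ := pw m
      have uk : gu F X k ∈ span F (HX F (Kp p Q)) := subset_span (mem_Hm hk)
      obtain ⟨d, hd⟩ := hi.2.2.2.2 (v * gu F X k) (hu.span_mul hv uk)
      have qi : gu F X q * i = i * gu F X q := span_comm' (S := HX F (Kp p Q)) (by
        rintro _ ⟨c, -, y, hy, rfl⟩
        rw [mul_smul_comm, smul_mul_assoc, gu_mul, gu_mul, kp_comm hq hy]) hi.1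
      have e2 : i * (θ * gu F X (n ^ m * (q * k)) * θ) * i * e0 F Q =
          d • (i * e0 F Q * z ^ m) := by
        rw [kp_comm hq hk, ← gu_mul, ← gu_mul, ← mul_assoc θ, e, ← smul_mul_assoc,
          ← smul_mul_assoc, ← hd]
        simp only [mul_assoc]
        rw [← mul_assoc θ, ti, ← mul_assoc (gu F X q), qi, mul_assoc, (gu_e0 hq).1,
          (((zK _ uk).mul_right ((zK i hi.1).mul_right (ec z zN).symm)).pow_left m).eq]
        simp only [mul_assoc]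
      rw [e1, e2]
      exact smul_mem _ d (subset_span ⟨m, rfl⟩)
    · rw [e1, corner_zero hu hθ (rck_norm hx) hxs]
      simp

theorem chv_psi (hQ : Nat.card Q = p) (h2 : ¬ p ^ 2 ∣ Nat.card X) (h : Om GG Q om T)
    (hθ : θ ∈ Irr F (HX F (Kp p Q))) (hi : Prim F (HX F (Kp p Q)) θ i) (hψ : ψ ∈ Psi F Q) :
    (ψ * θ ≠ 0 → Chv F (HX F (NQ Q)) ψ i = 1) ∧ (ψ * θ = 0 → Chv F (HX F (NQ Q)) ψ i = 0) := by
  have hu := gu_tg (F := F) (X := X)
  have KN := span_Hm_mono (F := F) (u := gu F X) (rck_le (p := p) (Q := Q))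
  have nN := nice_Hm0 hu (NQ Q)
  have nK := nice_Hm0 hu (Kp p Q)
  obtain ⟨n, ρ, hρ⟩ := nN.exists_MM hψ.1
  have mψ := hψ.1.1.1
  have r0 : ψ * θ = 0 ↔ ρ θ = 0 := by
    rw [hρ.ker mψ (KN hθ.1.1), Cen_comm hψ.1.1 (KN hθ.1.1)]
  rw [hρ.chv nN.mcl mψ (KN hi.1)]
  refine ⟨fun k => ?_, fun k => by
    rw [← hi.2.1, hρ.mul _ (KN hi.1) _ (KN hθ.1.1), r0.1 k, mul_zero, Matrix.trace_zero]⟩
  obtain ⟨s, s1, s2⟩ := trace_decomp nK (ρ := ρ) (fun a ha b hb => hρ.mul a (KN ha) b (KN hb)) hθ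
  have s3 := s2 i hi.1
  rw [hi.2.1, hi.chv nK hθ, mul_one] at s3
  have me : e0 F Q ∈ span F (HX F (NQ Q)) := e0_cen.1
  have mj := hu.span_mul (KN hi.1) me
  have ie : e0 F Q * i = i * e0 F Q := Cen_comm e0_cen (KN hi.1)
  have jj : i * e0 F Q * (i * e0 F Q) = i * e0 F Q := by
    rw [mul_assoc, ← mul_assoc (e0 F Q), ie, mul_assoc, e0_irr.2.1, ← mul_assoc, hi.2.2.1]
  obtain ⟨m, m1, -, m3⟩ := chv_idem nN hψ.1 mj jj
  have re : ρ (e0 F Q) = 1 := by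
    rw [← hρ.one, ← hψ.2, hρ.mul _ mψ _ me, hρ.one, one_mul]
  rw [hρ.chv nN.mcl mψ mj, hρ.mul _ (KN hi.1) _ me, re, mul_one, s3, Nat.cast_inj] at m1
  obtain ⟨z, zj, hz⟩ := rck_corner hQ h2 hθ hi
  generalize i * e0 F Q = j at jj zj hz m3
  have cm : ∀ a ∈ span F (Set.range fun m : ℕ => j * z ^ m),
      ∀ b ∈ span F (Set.range fun m : ℕ => j * z ^ m), a * b = b * a := fun a ha b hb =>
    (span_comm' (fun x hx => (span_comm' (by
      rintro _ ⟨l, rfl⟩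
      obtain ⟨l', rfl⟩ := hx
      have c : Commute z j := zj
      exact (((Commute.refl j).mul_right (c.symm.pow_right l)).mul_left
        ((c.pow_left l').mul_right ((Commute.refl z).pow_pow l' l))).eq) hb).symm) ha).symm
  have le : m ≤ 1 := m3 fun a ha b hb => by
    have := cm _ (hz a ha) _ (hz b hb)
    simp only [mul_assoc] at this ⊢
    rwa [← mul_assoc j j, ← mul_assoc j j, jj] at this
  have ne : s ≠ 0 := fun q => k (r0.2 (by
    rw [q, zero_mul] at s1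
    exact Matrix.toLin'.map_eq_zero_iff.1 (LinearMap.range_eq_bot.1 (finrank_eq_zero.1 s1))))
  rw [s3, show s = 1 by omega, Nat.cast_one]

end Pool.Agent.Lib.MP_1ae3da_al.CT
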