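import Pool.Agent.Lib.MP_1ae3da_al.C.RCe

/-! Orbit sums and degrees prime to `p`. -/

namespace Pool.Agent.Lib.MP_1ae3da_al.CT

open Submodule

variable {p : ℕ} {F X : Type} [Field F] [CharZero F] [IsAlgClosed F] [Group X] [Finite X]
  [Fact p.Prime] {Q : Subgroup X} {e e' ε ε' θ θ' i i' ψ ψ' η η' x y a b : MonoidAlgebra F X}

variable {k : Type} [Field k] {O R : Subring F} {r : F → k} {GG : Subgroup (RingAut F)}
  {γ : RingAut (MonoidAlgebra F X)} {σ : RingAut F}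

variable {om : X → F} {T : MonoidAlgebra F X →ₗ[F] MonoidAlgebra F X}
  {Ty : Set (MonoidAlgebra F X) → MonoidAlgebra F X → Bool → Prop}

omit [Fact p.Prime] in
theorem rcl_orb (he : e ∈ Irr F (HX F (⊤ : Subgroup X))) :
    ∃ s : Finset (MonoidAlgebra F X), (s : Set _) = Orb O GG e ∧ e ∈ s ∧
      ∀ e' ∈ s, e' ∈ Irr F (HX F (⊤ : Subgroup X)) ∧ dg F (HX F ⊤) e' = dg F (HX F ⊤) e ∧
        ∀ n : ℕ, Chv F (HX F ⊤) e (e0 F Q) = n → Chv F (HX F ⊤) e' (e0 F Q) = n := by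
  have h : ∀ e' ∈ Orb O GG e, e' ∈ Irr F (HX F (⊤ : Subgroup X)) ∧
      dg F (HX F ⊤) e' = dg F (HX F ⊤) e ∧
        ∀ n : ℕ, Chv F (HX F ⊤) e (e0 F Q) = n → Chv F (HX F ⊤) e' (e0 F Q) = n := by
    rintro _ ⟨γ, hγ, rfl⟩
    have g := g0_le (Q := Q) hγ
    obtain ⟨σ, -, -, h1, h3⟩ := hγ
    refine ⟨(irr_stb g.1.1 g.1.2).2 he, congrArg Nat.sqrt (dg_stb g.1.1 g.1.2), fun n hn => ?_⟩
    have c := Chv_nat (rce_nice ⊤) he h1 (rce_top (e0 F Q))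
    rwa [stb_image.1 g.1.2, e0_aut h1 (α := 1) h3 fun _ => Iff.rfl, hn, map_natCast] at c
  obtain ⟨u, hu, -⟩ := (rce_nice (F := F) (⊤ : Subgroup X)).irr_sum
  have f : (Orb O GG e).Finite := u.finite_toSet.subset fun x hx => hu ▸ (h x hx).1
  exact ⟨f.toFinset, f.coe_toFinset, f.mem_toFinset.2 ⟨1, one_mem _, rfl⟩,
    fun x hx => h x (f.mem_toFinset.1 hx)⟩

omit [CharZero F] [IsAlgClosed F] [Finite X] [Fact p.Prime] in
theorem rcl_ext {s : Finset (MonoidAlgebra F X)} {c d : F}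
    (h : ∀ k ∈ Kp p Q, ∀ q ∈ Q, q ≠ 1 → c * ∑ e ∈ s, Chv F (HX F ⊤) e (gu F X (k * q)) =
      d * Chv F (HX F (NQ Q)) ψ (gu F X (k * q))) (ha : a ∈ Sing F p Q) :
    c * ∑ e ∈ s, Chv F (HX F ⊤) e a = d * Chv F (HX F (NQ Q)) ψ a := by
  induction ha using span_induction with
  | mem y hy =>
    obtain ⟨k, hk, q, hq, h1, rfl⟩ := hy
    exact h k hk q hq h1
  | zero =>
    rw [← zero_smul F (0 : MonoidAlgebra F X)]
    simp only [chv_smul, zero_mul, Finset.sum_const_zero, mul_zero]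
  | add y z _ _ a b => simp only [chv_add, Finset.sum_add_distrib, mul_add, a, b]
  | smul t y _ a =>
    simp only [chv_smul, ← Finset.mul_sum]
    rw [mul_left_comm, a, mul_left_comm]

omit [Fact p.Prime] in
theorem rcl_psi (hψ : ψ ∈ Psi F Q) {k q : X} (hk : k ∈ Kp p Q) (hq : q ∈ Q) :
    Chv F (HX F (NQ Q)) ψ (gu F X (k * q)) = Chv F (HX F (NQ Q)) ψ (gu F X k) := by
  rw [← chv_mul_e (rce_nice _) hψ.1 (rce_gu (mul_mem (rcc_KN hk) (Subgroup.le_normalizer hq))),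
    ← gu_mul, mul_assoc, psi_gu hψ hq, chv_mul_e (rce_nice _) hψ.1 (rce_gu (rcc_KN hk))]

omit [Fact p.Prime] in
theorem rcl_val (hT : TyS O GG p Q T Ty) {v : Set (MonoidAlgebra F X)} {s : Bool} (ht : Ty v ψ s)
    {u : Finset (MonoidAlgebra F X)} (hu : (u : Set _) = v) : ∃ m : ℕ, 0 < m ∧ ∀ a ∈ Sing F p Q,
      (m : F) * ∑ e ∈ u, Chv F (HX F ⊤) e a =
        (if s then -1 else 1) * Chv F (HX F (NQ Q)) ψ a := by
  obtain ⟨m, hm, h⟩ := hT.val v ψ s ht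
  refine ⟨m, hm, fun a ha => rcl_ext (fun k hk q hq h1 => ?_) ha⟩
  rw [rcl_psi (hT.dom v ψ s ht).2 hk hq, ← h k hk q hq h1, ← hu, finsum_mem_coe_finset]

omit [CharZero F] [IsAlgClosed F] [Finite X] [Fact p.Prime] in
theorem rcl_none (hT : TyS O GG p Q T Ty) (he : e ∈ Irr F (HX F (⊤ : Subgroup X)))
    (hn : ¬ ∃ ψ s, Ty (Orb O GG e) ψ s) {u : Finset (MonoidAlgebra F X)}
    (hu : (u : Set _) = Orb O GG e) (ha : a ∈ Sing F p Q) :
    ∑ e ∈ u, Chv F (HX F ⊤) e a = 0 := by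
  have := rcl_ext (c := 1) (d := 0) (ψ := 0) (s := u) (fun k hk q hq h1 => by
    rw [zero_mul, one_mul, ← ((hT.tot e he).resolve_left hn) k hk q hq h1, ← hu,
      finsum_mem_coe_finset]) ha
  rwa [one_mul, zero_mul] at this

theorem rcl_mz (hQ : Nat.card Q = p) (h2 : ¬ p ^ 2 ∣ Nat.card X) (hη : η ∈ Eta F Q)
    (h : Tri F p Q η θ i ε) {u : Finset (MonoidAlgebra F X)}
    (hu : ∀ e ∈ u, e ∈ Irr F (HX F (⊤ : Subgroup X))) :
    ((∑ e ∈ u, mz F p Q e η : ℤ) : F) = ∑ e ∈ u, Chv F (HX F ⊤) e (i * (e0 F Q - ε)) := by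
  push_cast
  exact Finset.sum_congr rfl fun e he => mz_spec hQ h2 (hu e he) hη.1 h

/-- hint: extend `val` linearly to `Sing` (there `Chv ψ (k q) = Chv ψ k`), `sing_mem`, `chv_psi`. -/
theorem orb_ty (hQ : Nat.card Q = p) (h2 : ¬ p ^ 2 ∣ Nat.card X) (h : Om GG Q om T)
    (hT : TyS O GG p Q T Ty) {v : Set (MonoidAlgebra F X)} {s : Bool} (ht : Ty v ψ s)
    (hη : η ∈ Eta F Q) :
    (Bk F p Q ψ η → ∑ᶠ e ∈ v, mz F p Q e η = if s then -1 else 1) ∧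
      (¬ Bk F p Q ψ η → ∑ᶠ e ∈ v, mz F p Q e η = 0) := by
  obtain ⟨⟨e, he, rfl⟩, hψ⟩ := hT.dom v ψ s ht
  obtain ⟨u, hu, -, h3⟩ := rcl_orb (O := O) (GG := GG) (Q := Q) he
  obtain ⟨θ, i, ε, t⟩ := rce_tri hQ hη
  obtain ⟨m, hm, h4⟩ := rcl_val hT ht hu
  have h5 := h4 _ (sing_mem hQ t.irrQ t.prim.1)
  have h6 : η * θ ≠ 0 := fun c => t.ov (by rw [← mul_assoc, c, zero_mul])
  rw [← rcl_mz hQ h2 hη t fun e he => (h3 e he).1, rce_psi hψ t] at h5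
  rw [← hu, finsum_mem_coe_finset]
  refine ⟨fun ⟨θ', b, c, d⟩ => ?_, fun b => ?_⟩
  · rw [(chv_psi hQ h2 h t.irrK t.prim hψ).1 (bk_over hη.1 hψ.1 ⟨θ', b, d, c⟩ t.irrK h6),
      mul_one] at h5
    have h7 : (m : ℤ) * ∑ e ∈ u, mz F p Q e η = if s then -1 else 1 :=
      Int.cast_injective (α := F) (by rw [Int.cast_mul, Int.cast_natCast, h5]; cases s <;> simp)
    have h8 : (m : ℤ) = 1 := Int.eq_one_of_dvd_one (by positivity)
      (by cases s <;> [exact ⟨_, h7.symm⟩; exact Int.dvd_neg.1 ⟨_, h7.symm⟩])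
    rwa [h8, one_mul] at h7
  · rw [(chv_psi hQ h2 h t.irrK t.prim hψ).2 (by_contra fun c => b ⟨θ, t.irrK, c, h6⟩),
      mul_zero, mul_eq_zero, Int.cast_eq_zero] at h5
    exact h5.resolve_left (Nat.cast_ne_zero.2 hm.ne')

theorem orb_none (hQ : Nat.card Q = p) (h2 : ¬ p ^ 2 ∣ Nat.card X) (hT : TyS O GG p Q T Ty)
    (he : e ∈ Irr F (HX F (⊤ : Subgroup X))) (hn : ¬ ∃ ψ s, Ty (Orb O GG e) ψ s)
    (hη : η ∈ Eta F Q) : ∑ᶠ e' ∈ Orb O GG e, mz F p Q e' η = 0 := by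
  obtain ⟨u, hu, -, h3⟩ := rcl_orb (O := O) (GG := GG) (Q := Q) he
  obtain ⟨θ, i, ε, t⟩ := rce_tri hQ hη
  have h5 := rcl_none hT he hn hu (sing_mem hQ t.irrQ t.prim.1)
  rw [← rcl_mz hQ h2 hη t fun e he => (h3 e he).1, Int.cast_eq_zero] at h5
  rw [← hu, finsum_mem_coe_finset, h5]

omit [Fact p.Prime] in
theorem rcl_one {H : Subgroup X} (he : e ∈ Irr F (HX F H)) (c : F) :
    Chv F (HX F H) e (1 * (a - c • 1)) = Chv F (HX F H) e a - c * dg F (HX F H) e := by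
  rw [one_mul, rce_sub, chv_smul, ← chv_self (rce_nice H) he,
    ← chv_mul_e (b := 1) (rce_nice H) he (rce_gu (one_mem H)), one_mul]

/-- hint: sum `val` (or the other case of `tot`) over `q ≠ 1` with `k = 1`:
`∑_{q ≠ 1} Chv e q = p n₀ - n`, where `n₀ = Chv e e0` and `n = dg e` are constant on the orbit. -/
theorem irrP_iff (hQ : Nat.card Q = p) (h2 : ¬ p ^ 2 ∣ Nat.card X) (hT : TyS O GG p Q T Ty)
    (he : e ∈ Irr F (HX F (⊤ : Subgroup X))) :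
    ¬ p ∣ Dg F (HX F ⊤) e ↔ ∃ ψ s, Ty (Orb O GG e) ψ s := by
  have hp : p.Prime := Fact.out
  obtain ⟨u, hu, h0, h3⟩ := rcl_orb (O := O) (GG := GG) (Q := Q) he
  obtain ⟨t, ht⟩ := exists_Tf (gu_tg (F := F) (X := X))
  obtain ⟨n, hn, -⟩ := chv_idem (rce_nice ⊤) he (rce_top (e0 F Q)) e0_irr.2.1
  have h4 := rci_t hQ ht e0_irr
  have h5 := rci_sing (p := p) ht (gu_one (F := F) (X := X) ▸ rce_gu (one_mem (Kp p Q)))
    (e0_irr (Q := Q)).1.1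
  have h6 : (p : F) * ∑ e ∈ u, Chv F (HX F ⊤) e (1 * (e0 F Q - t (e0 F Q) • 1)) =
      (u.card : F) * (p * n - dg F (HX F ⊤) e) := by
    rw [Finset.sum_congr rfl fun x hx => (rcl_one (h3 x hx).1 _).trans
      (by rw [(h3 x hx).2.1, (h3 x hx).2.2 n hn]), Finset.sum_const, nsmul_eq_mul]
    linear_combination (-(u.card : F) * dg F (HX F ⊤) e) * h4
  rw [dvd_Dg_iff (rce_nice ⊤) he hp]
  refine ⟨fun h => by_contra fun c => h ⟨n, Nat.cast_injective (R := F) ?_⟩, ?_⟩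
  · rw [rcl_none hT he c hu h5, mul_zero, eq_comm, mul_eq_zero, sub_eq_zero] at h6
    rw [Nat.cast_mul]
    exact (h6.resolve_left (Nat.cast_ne_zero.2 (Finset.card_ne_zero_of_mem h0))).symm
  · rintro ⟨ψ, s, hs⟩ ⟨d, hd⟩
    have hψ := (hT.dom _ ψ s hs).2
    obtain ⟨m, -, h7⟩ := rcl_val hT hs hu
    have h8 := h7 _ h5
    rw [rcl_one hψ.1, ← chv_mul_e (rce_nice _) hψ.1 e0_cen.1, Cen_comm e0_cen hψ.1.1.1, hψ.2,
      chv_self (rce_nice _) hψ.1] at h8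
    refine irrN_ndvd hQ h2 hψ.1 ((dvd_Dg_iff (rce_nice _) hψ.1 hp).2 (Int.natCast_dvd_natCast.1
      ⟨dg F (HX F (NQ Q)) ψ - (if s then -1 else 1) * (m * (u.card * (n - d))),
        Int.cast_injective (α := F) ?_⟩))
    rw [hd] at h6
    cases s
    · simp only [Bool.false_eq_true, if_false] at h8 ⊢
      push_cast at h6 ⊢
      linear_combination (p : F) * h8 - (m : F) * h6 - (dg F (HX F (NQ Q)) ψ : F) * h4
    · simp only [if_true] at h8 ⊢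
      push_cast at h6 ⊢
      linear_combination (m : F) * h6 - (p : F) * h8 - (dg F (HX F (NQ Q)) ψ : F) * h4

end Pool.Agent.Lib.MP_1ae3da_al.CT
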