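import Pool.Agent.Lib.MP_1ae3da_al.C.RLSemi
import Pool.Agent.Lib.MP_1ae3da_al.C.RCi

/-! The types of the vertices are equivariant. -/

namespace Pool.Agent.Lib.MP_1ae3da_al.CT.R5

variable {p : ℕ} {F k X Y : Type} [Field F] [Field k] [Group X] [Group Y] {O R : Subring F}
  {r : F → k} {GG : Subgroup (RingAut F)} {Q : Subgroup X} {σ : RingAut F}
  {γ : RingAut (MonoidAlgebra F X)}

theorem req_cf {α : MulAut X} (h : SL F σ γ) (hα : ∀ x, γ (gu F X x) = gu F X (α x))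
    (e : MonoidAlgebra F X) (x : X) : (γ e).coeff (α x) = σ (e.coeff x) := by
  classical
  induction e using MonoidAlgebra.induction_linear with
  | zero => simp
  | add a b ha hb => simp [ha, hb]
  | single y c =>
    rw [← aga_smul, h, hα, aga_smul, aga_smul, MonoidAlgebra.coeff_single_apply,
      MonoidAlgebra.coeff_single_apply]
    simp [apply_ite σ]

theorem req_res (h : PM p O R r GG) (hσ : σ ∈ GG) : ∃ s : O ≃+* O, ∀ x, (s x : F) = σ x := by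
  have h1 := (h.gal σ hσ).1
  refine ⟨RingEquiv.ofBijective ((σ : F →+* F).restrict O O fun x hx => (h1 x).2 hx)
    ⟨fun x y e => Subtype.ext (σ.injective (congrArg Subtype.val e)), fun y => ?_⟩, fun _ => rfl⟩
  exact ⟨⟨σ.symm y, (h1 _).1 (by simp)⟩, Subtype.ext (σ.apply_symm_apply y)⟩

theorem req_b (α : MulAut X) (hQ : ∀ x, α x ∈ Q ↔ x ∈ Q) :
    ∃ b : Nz Q ≃* Nz Q, Res Q α b := by
  have h1 : ∀ x, α x ∈ Nz Q ↔ x ∈ Nz Q := fun x => by
    simp only [Subgroup.mem_normalizer_iff]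
    refine ⟨fun h y => ?_, fun h y => ?_⟩
    · rw [← hQ, h, ← hQ (x * y * x⁻¹)]; simp
    · obtain ⟨y, rfl⟩ := α.surjective y
      rw [hQ, h, ← hQ]; simp
  refine ⟨MulEquiv.ofBijective ((α.toMonoidHom.comp (Nz Q).subtype).codRestrict (Nz Q)
    fun x => (h1 x).2 x.2) ⟨fun x y e => Subtype.ext (α.injective (congrArg Subtype.val e)),
      fun y => ?_⟩, hQ, fun _ => rfl⟩
  exact ⟨⟨α.symm y, (h1 _).1 (by simp)⟩, Subtype.ext (α.apply_symm_apply y)⟩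

/-- the data of a member of `Gm`. -/
theorem req_gm [Finite X] (h : PM p O R r GG) (hX : commutator X = ⊤) (hQ : Nat.card Q = p)
    (h2 : ¬ p ^ 2 ∣ Nat.card X) (hγ : γ ∈ Gm GG Q) :
    ∃ σ ∈ GG, ∃ (s : O ≃+* O) (a : X ≃* X) (b : Nz Q ≃* Nz Q), SL F σ γ ∧
      (∀ x, (s x : F) = σ x) ∧ Res Q a b ∧ (∀ x, γ (gu F X x) = gu F X (a x)) ∧
      (∀ e x, cf (MonoidHom.id X) (γ e) (a x) = σ (cf (MonoidHom.id X) e x)) ∧
      ∀ e n, cf (Nz Q).subtype (γ e) (b n) = σ (cf (Nz Q).subtype e n) := by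
  have := h.charF
  have := h.algF
  have : Fact p.Prime := ⟨h.prime⟩
  obtain ⟨σ, hσ, a, h1, h3, h4, -⟩ := gm_aut hX hQ h2 hγ
  obtain ⟨s, hs⟩ := req_res h hσ
  obtain ⟨b, hb⟩ := req_b a h4
  refine ⟨σ, hσ, s, a, b, h1, hs, hb, h3, fun e x => req_cf h1 h3 e x, fun e n => ?_⟩
  change (γ e).coeff (b n : X) = _
  rw [hb.coe]
  exact req_cf h1 h3 e n

section
variable [IsDiscreteValuationRing O] [CharZero F] [Finite Y] {s : O ≃+* O} {a : Y ≃* Y}
  {V W : Lat O Y} {G : V.V ≃+ W.V} {f f' : Y → F}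

theorem req_chF (hs : ∀ x, (s x : F) = σ x) (h : Semi s a V W G) (hf : ∀ y, f' (a y) = σ (f y)) :
    W.chF F f' = σ (V.chF F f) := by
  have : Fintype Y := Fintype.ofFinite Y
  unfold Lat.chF
  rw [finsum_eq_sum_of_fintype, finsum_eq_sum_of_fintype, map_sum, ← a.toEquiv.sum_comp]
  refine Finset.sum_congr rfl fun y _ => ?_
  change f' (a y) * (W.ch (a y) : F) = σ (f y * (V.ch y : F))
  rw [hf, h.ch, hs, map_mul]

theorem req_idem (hs : ∀ x, (s x : F) = σ x) (h : Semi s a V W G) (hf : ∀ y, f' (a y) = σ (f y))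
    (hV : V.Idem F f) : W.Idem F f' := fun y => by
  obtain ⟨y, rfl⟩ := a.surjective y
  have h1 := congrArg σ (hV y)
  rw [map_mul, map_mul, map_natCast, map_natCast] at h1
  rw [hf, h1, h.rk, ← map_inv, h.ch]
  exact congrArg _ (hs _).symm

end

theorem req_sup [IsDiscreteValuationRing O] [CharZero F] [Finite X] {s : O ≃+* O} {a : X ≃* X}
    {V W : Lat O X} {G : V.V ≃+ W.V} (hs : ∀ x, (s x : F) = σ x) (h : Semi s a V W G)
    (h1 : γ ∈ SG GG (MonoidAlgebra F X)) (h2 : γ ∈ Stb (HX F (⊤ : Subgroup X)))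
    (hf : ∀ e x, cf (MonoidHom.id X) (γ e) (a x) = σ (cf (MonoidHom.id X) e x)) :
    γ '' Sup V = Sup W := by
  ext e
  obtain ⟨e, rfl⟩ := γ.surjective e
  rw [γ.injective.mem_set_image]
  exact and_congr (irr_stb h1 h2).symm (by rw [req_chF hs h (hf e), map_ne_zero])

theorem req_eqv [Finite X] (h : PM p O R r GG) (hX : commutator X = ⊤) (hQ : Nat.card Q = p)
    (h2 : ¬ p ^ 2 ∣ Nat.card X) :
    ∀ γ ∈ Gm GG Q, ∀ v ψ i, Ty p O Q v ψ i → Ty p O Q (γ '' v) (γ ψ) i := by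
  rintro γ hγ v ψ i ⟨V, M, Φ, ht, h3, h4, rfl⟩
  have := h.charF
  have := h.dvr
  obtain ⟨σ, -, s, a, b, -, hs, hr, -, c1, c2⟩ := req_gm h hX hQ h2 hγ
  obtain ⟨V', G, hG⟩ := exists_semi s a V
  obtain ⟨M', G', hG'⟩ := exists_semi s b M
  obtain ⟨Φ', ht', -⟩ := Semi.typ hr hG hG' ht
  exact ⟨V', M', Φ', ht', (irr_stb hγ.1.1 hγ.2).2 h3, req_idem hs hG' (c2 ψ) h4,
    req_sup hs hG hγ.1.1 hγ.1.2 c1⟩

end Pool.Agent.Lib.MP_1ae3da_al.CT.R5
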