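import Pool.Agent.Lib.MP_1ae3da_al.C.TD
import Pool.Agent.Lib.MP_1ae3da_al.C.AGa

/-! Column orthogonality. -/

namespace Pool.Agent.Lib.MP_1ae3da_al.CT

open Submodule

variable {F A G : Type} [Field F] [Ring A] [Algebra F A] [Group G] {u : G → A}
  {H : Subgroup G} {a b e : A}

theorem rgram_inv (hu : TG F u) {x : G} (hx : x ∈ H) {w : A} (hw : w ∈ span F (Hm F u H))
    (h : u x * w = u 1) : w * u x = u 1 := by
  obtain ⟨v, hv, -, h2⟩ := Hm_inv hu (u_mem_Hm (F := F) (u := u) hx)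
  have : w = v := by
    rw [← (one_span hu hw).1, ← h2, mul_assoc, h, (one_span hu (subset_span hv)).2]
  rw [this, h2]

theorem rgram_cen [Fintype H] (hu : TG F u) (ha : a ∈ span F (Hm F u H)) {w : H → A}
    (hw : ∀ x, w x ∈ span F (Hm F u H)) (h : ∀ x : H, u x * w x = u 1) :
    ∑ x : H, u x * a * w x ∈ Cen F (Hm F u H) := by
  have m : ∀ x : H, u x ∈ span F (Hm F u H) := fun x => subset_span (u_mem_Hm x.2)
  refine ⟨sum_mem fun x _ => span_mul hu (span_mul hu (m x) ha) (hw x), ?_⟩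
  rintro _ ⟨d, -, y, hy, rfl⟩
  rw [mul_smul_comm, smul_mul_assoc, Finset.sum_mul, Finset.mul_sum,
    ← Equiv.sum_comp (Equiv.mulLeft (⟨y, hy⟩ : H))]
  refine congrArg _ (Finset.sum_congr rfl fun x _ => ?_)
  obtain ⟨c, -, hc⟩ := hu.mul y x
  have h1 : w (⟨y, hy⟩ * x) * u y = c • w x := by
    have h2 := rgram_inv hu (⟨y, hy⟩ * x : H).2 (hw _) (h _)
    calc w (⟨y, hy⟩ * x) * u y = w (⟨y, hy⟩ * x) * (u y * u x * w x) := by
          rw [mul_assoc (u y), h, hu.mul_one]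
      _ = c • w x := by
          rw [hc, smul_mul_assoc, mul_smul_comm, ← mul_assoc]
          exact congrArg _ ((congrArg (· * w x) h2).trans (one_span hu (hw x)).1)
  change u (y * x) * a * w (⟨y, hy⟩ * x) * u y = u y * (u x * a * w x)
  rw [mul_assoc _ (w _), h1, ← mul_assoc, ← mul_assoc, hc, mul_smul_comm, smul_mul_assoc,
    smul_mul_assoc]

theorem rgram_block [IsAlgClosed F] [Finite G] [Fintype H] (hu : TG F u) {t : A →ₗ[F] F}
    (ht : Tf F u t) (hH : (Nat.card H : F) ≠ 0) (he : e ∈ Irr F (Hm F u H))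
    (ha : a ∈ span F (Hm F u H)) (hb : b ∈ span F (Hm F u H)) {w : H → A}
    (hw : ∀ x, w x ∈ span F (Hm F u H)) (h : ∀ x : H, u x * w x = u 1) :
    t ((∑ x : H, u x * a * w x) * b * e) = Chv F (Hm F u H) e a * Chv F (Hm F u H) e b := by
  have m : ∀ x : H, u x ∈ span F (Hm F u H) := fun x => subset_span (u_mem_Hm x.2)
  have hz := rgram_cen hu ha hw h
  obtain ⟨n, ρ, hρ⟩ := exists_MM (nice_Hm hu hH) he
  obtain ⟨c, hc⟩ := he.2.2.2 _ hz
  have e1 : ρ (u 1) = 1 := by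
    have := hρ.mul _ (m 1) _ he.1.1
    rw [hρ.one, mul_one, Subgroup.coe_one, (one_span hu he.1.1).1, hρ.one] at this
    exact this.symm
  have e2 : c * n = Nat.card H * (ρ a).trace := by
    have h1 := congrArg (fun x => (ρ x).trace) hc
    simp only [map_smul, hρ.one, Matrix.trace_smul, Matrix.trace_one, Fintype.card_fin,
      smul_eq_mul] at h1
    rw [← h1, hρ.mul _ hz.1 _ he.1.1, hρ.one, mul_one, map_sum, Matrix.trace_sum,
      Finset.sum_congr rfl (g := fun _ => (ρ a).trace) fun x _ => by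
        rw [hρ.mul _ (span_mul hu (m x) ha) _ (hw x), Matrix.trace_mul_comm,
          hρ.mul _ (m x) _ ha, ← mul_assoc, ← hρ.mul _ (hw x) _ (m x),
          rgram_inv hu x.2 (hw x) (h x), e1, one_mul],
      Finset.sum_const, Finset.card_univ, nsmul_eq_mul, Nat.card_eq_fintype_card]
  have e3 := MM.t_eq hu ht hH he hρ hb
  rw [hρ.chv (hu.mcl H) he.1.1 ha, hρ.chv (hu.mcl H) he.1.1 hb, mul_assoc,
    ← Cen_comm he.1 hb, ← mul_assoc, hc, smul_mul_assoc, map_smul, smul_eq_mul, Cen_comm he.1 hb]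
  refine mul_left_cancel₀ hH ?_
  rw [mul_left_comm, e3, ← mul_assoc, e2, mul_assoc]

theorem rgram [IsAlgClosed F] [Finite G] [Fintype H] (hu : TG F u) {t : A →ₗ[F] F}
    (ht : Tf F u t) (hH : (Nat.card H : F) ≠ 0) {s : Finset A}
    (hs : (s : Set A) = Irr F (Hm F u H))
    (ha : a ∈ span F (Hm F u H)) (hb : b ∈ span F (Hm F u H)) {w : H → A}
    (hw : ∀ x, w x ∈ span F (Hm F u H)) (h : ∀ x : H, u x * w x = u 1) :
    ∑ e ∈ s, Chv F (Hm F u H) e a * Chv F (Hm F u H) e b = ∑ x : H, t (u x * a * w x * b) := by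
  obtain ⟨s', hs', h1⟩ := (nice_Hm hu hH).irr_sum
  obtain rfl : s = s' := Finset.coe_injective (hs.trans hs'.symm)
  rw [← map_sum, ← Finset.sum_mul, ← h1 _ (span_mul hu (rgram_cen hu ha hw h).1 hb), map_sum]
  exact Finset.sum_congr rfl fun e he => (rgram_block hu ht hH (hs.le he) ha hb hw h).symm

variable {X : Type} [Group X] [Finite X] {K : Subgroup X}

theorem rgram_gu [IsAlgClosed F] [Fintype K] {t : MonoidAlgebra F X →ₗ[F] F}
    (ht : Tf F (gu F X) t) (hK : (Nat.card K : F) ≠ 0) {s : Finset (MonoidAlgebra F X)}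
    (hs : (s : Set (MonoidAlgebra F X)) = Irr F (Hm F (gu F X) K)) {a b : MonoidAlgebra F X}
    (ha : a ∈ span F (Hm F (gu F X) K)) (hb : b ∈ span F (Hm F (gu F X) K)) :
    ∑ e ∈ s, Chv F (Hm F (gu F X) K) e a * Chv F (Hm F (gu F X) K) e b =
      ∑ x : K, t (gu F X x * a * gu F X (x : X)⁻¹ * b) :=
  rgram gu_tg ht hK hs ha hb (w := fun x => gu F X (x : X)⁻¹)
    (fun x => subset_span (u_mem_Hm (K.inv_mem x.2))) fun x => by rw [gu_mul, mul_inv_cancel]

open Classical in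
/-- the second orthogonality relation. -/
theorem rgram_col [IsAlgClosed F] [Fintype K] (hK : (Nat.card K : F) ≠ 0)
    {s : Finset (MonoidAlgebra F X)}
    (hs : (s : Set (MonoidAlgebra F X)) = Irr F (Hm F (gu F X) K)) {g h : X} (hg : g ∈ K)
    (hh : h ∈ K) :
    ∑ e ∈ s, Chv F (Hm F (gu F X) K) e (gu F X g) * Chv F (Hm F (gu F X) K) e (gu F X h) =
      (Finset.univ.filter fun x : K => (x : X) * g * (x : X)⁻¹ * h = 1).card := by
  obtain ⟨t, ht⟩ := exists_Tf (gu_tg (F := F) (X := X))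
  rw [rgram_gu ht hK hs (subset_span (u_mem_Hm hg)) (subset_span (u_mem_Hm hh)),
    Finset.card_filter, Nat.cast_sum]
  refine Finset.sum_congr rfl fun x _ => ?_
  rw [gu_mul, gu_mul, gu_mul]
  split_ifs with k
  · rw [k, ht.1, Nat.cast_one]
  · rw [ht.2 _ k, Nat.cast_zero]

end Pool.Agent.Lib.MP_1ae3da_al.CT
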