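import Pool.Agent.Lib.MP_1ae3da_al.C.RLBas
import Pool.Agent.Lib.MP_1ae3da_al.C.RFit

set_option autoImplicit false
set_option linter.unusedSectionVars false

namespace Pool.Agent.Lib.MP_1ae3da_al.CT.R5

open Function

variable {O X Y : Type} [CommRing O] [IsDomain O] [IsDiscreteValuationRing O] [CharZero O]
  [Group X] [Finite X] [Group Y] [Finite Y] {p : ℕ} {Q : Subgroup X}

theorem rlsub_tf (V : Lat O X) {c : O} {v : V.V} (hc : c ≠ 0) (h : c • v = 0) : v = 0 :=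
  (smul_eq_zero.1 h).resolve_left hc

theorem exists_sub (V : Lat O X) {U : Submodule O V.V} (hU : V.St U) :
    ∃ (W : Lat O X) (j : W.V →ₗ[O] V.V), W.Hom V j ∧ Injective j ∧ LinearMap.range j = U := by
  refine ⟨{ V := U
            ρ := { toFun := fun x => (V.ρ x).restrict (hU x)
                   map_one' := ?_
                   map_mul' := fun x y => ?_ } }, U.subtype, fun x v => rfl, U.injective_subtype,
    U.range_subtype⟩
  · ext v; simp
  · ext v; simp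

theorem rlsub_quo_free {M : Type} [AddCommGroup M] [Module O M] [Module.Finite O M]
    {U : Submodule O M} (hp : Pure U) : Module.Free O (M ⧸ U) := by
  have : Module.IsTorsionFree O (M ⧸ U) := by
    refine Module.IsTorsionFree.of_smul_eq_zero fun c v h => ?_
    obtain ⟨v, rfl⟩ := U.mkQ_surjective v
    by_cases hc : c = 0
    · exact Or.inl hc
    · refine Or.inr ?_
      rw [← map_smul, Submodule.mkQ_apply, Submodule.Quotient.mk_eq_zero] at h
      rw [Submodule.mkQ_apply, Submodule.Quotient.mk_eq_zero]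
      exact hp c v hc h
  infer_instance

theorem exists_quo (V : Lat O X) {U : Submodule O V.V} (hU : V.St U) (hp : Pure U) :
    ∃ (E : Lat O X) (q : V.V →ₗ[O] E.V), V.Hom E q ∧ Surjective q ∧ LinearMap.ker q = U := by
  have := rlsub_quo_free hp
  refine ⟨{ V := V.V ⧸ U
            ρ := { toFun := fun x => U.mapQ U (V.ρ x) (hU x)
                   map_one' := ?_
                   map_mul' := fun x y => ?_ } }, U.mkQ, fun x v => rfl, U.mkQ_surjective,
    U.ker_mkQ⟩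
  · refine LinearMap.ext fun v => ?_
    obtain ⟨v, rfl⟩ := U.mkQ_surjective v
    simp
  · refine LinearMap.ext fun v => ?_
    obtain ⟨v, rfl⟩ := U.mkQ_surjective v
    simp

theorem exists_sat (V : Lat O X) {U : Submodule O V.V} (hU : V.St U) :
    ∃ S : Submodule O V.V, V.St S ∧ Pure S ∧ U ≤ S ∧ ∀ v ∈ S, ∃ c : O, c ≠ 0 ∧ c • v ∈ U := by
  refine ⟨{ carrier := {v | ∃ c : O, c ≠ 0 ∧ c • v ∈ U}
            add_mem' := ?_
            zero_mem' := ⟨1, one_ne_zero, by simp⟩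
            smul_mem' := ?_ }, ?_, ?_, fun v hv => ⟨1, one_ne_zero, by simpa using hv⟩,
    fun v hv => hv⟩
  · rintro a b ⟨c, hc, ha⟩ ⟨d, hd, hb⟩
    refine ⟨c * d, mul_ne_zero hc hd, ?_⟩
    rw [smul_add]
    refine U.add_mem ?_ ?_
    · rw [mul_comm, mul_smul]; exact U.smul_mem _ ha
    · rw [mul_smul]; exact U.smul_mem _ hb
  · rintro r a ⟨c, hc, ha⟩
    exact ⟨c, hc, by rw [smul_comm]; exact U.smul_mem _ ha⟩
  · rintro x v ⟨c, hc, hv⟩
    exact ⟨c, hc, by rw [← map_smul]; exact hU x _ hv⟩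
  · rintro d v hd ⟨c, hc, hv⟩
    exact ⟨c * d, mul_ne_zero hc hd, by rwa [mul_smul]⟩

theorem Lat.Hom.ker_st {V W : Lat O X} {f : V.V →ₗ[O] W.V} (h : V.Hom W f) :
    V.St (LinearMap.ker f) ∧ Pure (LinearMap.ker f) := by
  refine ⟨fun x v hv => ?_, fun c v hc hv => ?_⟩
  · rw [LinearMap.mem_ker] at hv ⊢
    rw [h, hv, map_zero]
  · rw [LinearMap.mem_ker, map_smul] at hv
    exact rlsub_tf W hc hv

theorem Lat.Hom.range_st {V W : Lat O X} {f : V.V →ₗ[O] W.V} (h : V.Hom W f) :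
    W.St (LinearMap.range f) := by
  rintro x _ ⟨v, rfl⟩
  exact ⟨V.ρ x v, h x v⟩

theorem Lat.Hom.inv {V W : Lat O X} {f : V.V →ₗ[O] W.V} (h : V.Hom W f) (hb : Bijective f) :
    ∃ g : W.V →ₗ[O] V.V, W.Hom V g ∧ (∀ v, g (f v) = v) ∧ ∀ w, f (g w) = w := by
  let e := LinearEquiv.ofBijective f hb
  have h1 : ∀ v, e.symm (f v) = v := e.symm_apply_apply
  have h2 : ∀ w, f (e.symm w) = w := e.apply_symm_apply
  refine ⟨e.symm.toLinearMap, fun x w => hb.1 ?_, h1, h2⟩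
  change f (e.symm _) = f (V.ρ x (e.symm w))
  rw [h2, h, h2]

theorem exists_ses {P V : Lat O X} {q : P.V →ₗ[O] V.V} (h : P.Hom V q) (hs : Surjective q) :
    ∃ (W : Lat O X) (j : W.V →ₗ[O] P.V), Ses W P V j q := by
  obtain ⟨W, j, h1, h2, h3⟩ := exists_sub P h.ker_st.1
  exact ⟨W, j, h1, h, h2, hs, h3⟩

theorem Lat.ch_one (V : Lat O X) : V.ch 1 = (V.rk : O) := by
  rw [Lat.ch, map_one, LinearMap.trace_one]

theorem rlsub_split {W P V : Lat O X} {j : W.V →ₗ[O] P.V} {q : P.V →ₗ[O] V.V}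
    (h : Ses W P V j q) : ∃ (r : P.V →ₗ[O] W.V) (s : V.V →ₗ[O] P.V),
      (∀ w, r (j w) = w) ∧ (∀ v, q (s v) = v) ∧ ∀ y, j (r y) + s (q y) = y := by
  obtain ⟨s, hs⟩ := Module.projective_lifting_property q LinearMap.id h.sur
  have hs' : ∀ v, q (s v) = v := fun v => LinearMap.congr_fun hs v
  have hm : ∀ y, (LinearMap.id - s ∘ₗ q : P.V →ₗ[O] P.V) y ∈ LinearMap.range j := fun y => by
    rw [h.ex, LinearMap.mem_ker]
    simp [hs']
  let e := LinearEquiv.ofInjective j h.inj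
  let r : P.V →ₗ[O] W.V :=
    e.symm.toLinearMap ∘ₗ LinearMap.codRestrict _ (LinearMap.id - s ∘ₗ q) hm
  have hr : ∀ y, j (r y) = y - s (q y) := fun y =>
    congrArg Subtype.val (e.apply_symm_apply (LinearMap.codRestrict _ _ hm y))
  refine ⟨r, s, fun w => h.inj ?_, hs', fun y => by rw [hr, sub_add_cancel]⟩
  have : q (j w) = 0 := by
    rw [← LinearMap.mem_ker, ← h.ex]; exact ⟨w, rfl⟩
  rw [hr, this, map_zero, sub_zero]

theorem Ses.ch {W P V : Lat O X} {j : W.V →ₗ[O] P.V} {q : P.V →ₗ[O] V.V} (h : Ses W P V j q)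
    (x : X) : P.ch x = W.ch x + V.ch x := by
  obtain ⟨r, s, h1, h2, h3⟩ := rlsub_split h
  have e0 : P.ρ x = (P.ρ x ∘ₗ j) ∘ₗ r + s ∘ₗ (q ∘ₗ P.ρ x) +
      ((P.ρ x ∘ₗ s) ∘ₗ q - s ∘ₗ (q ∘ₗ P.ρ x)) := by
    refine LinearMap.ext fun y => ?_
    conv_lhs => rw [← h3 y]
    simp
  have e1 : r ∘ₗ (P.ρ x ∘ₗ j) = W.ρ x := by
    refine LinearMap.ext fun w => ?_
    simp only [LinearMap.comp_apply]
    rw [← h.hj, h1]
  have e2 : (q ∘ₗ P.ρ x) ∘ₗ s = V.ρ x := by
    refine LinearMap.ext fun w => ?_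
    simp only [LinearMap.comp_apply]
    rw [h.hq, h2]
  have e3 : q ∘ₗ (P.ρ x ∘ₗ s) = V.ρ x := e2
  unfold Lat.ch
  rw [e0, map_add, map_add, map_sub, LinearMap.trace_comp_comm' r, e1,
    LinearMap.trace_comp_comm' (q ∘ₗ P.ρ x) s, e2, LinearMap.trace_comp_comm' q, e3, sub_self,
    add_zero]

theorem Ses.rk {W P V : Lat O X} {j : W.V →ₗ[O] P.V} {q : P.V →ₗ[O] V.V} (h : Ses W P V j q) :
    P.rk = W.rk + V.rk := by
  have := h.ch 1
  rw [Lat.ch_one, Lat.ch_one, Lat.ch_one] at this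
  exact_mod_cast this

theorem rlsub_unif {M : Type} [AddCommGroup M] [Module O M] [Module.Finite O M]
    (U : Submodule O M) (hs : ∀ w, ∃ c : O, c ≠ 0 ∧ c • w ∈ U) :
    ∃ c : O, c ≠ 0 ∧ ∀ w, c • w ∈ U := by
  classical
  obtain ⟨s, hs'⟩ := Module.Finite.fg_top (R := O) (M := M)
  choose c hc hm using hs
  refine ⟨∏ w ∈ s, c w, Finset.prod_ne_zero_iff.2 fun w _ => hc w, fun w => ?_⟩
  have hw : w ∈ Submodule.span O (s : Set M) := hs' ▸ Submodule.mem_top
  induction hw using Submodule.span_induction with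
  | mem w hw =>
    obtain ⟨d, hd⟩ := Finset.dvd_prod_of_mem c (Finset.mem_coe.1 hw)
    rw [hd, mul_comm, mul_smul]
    exact U.smul_mem _ (hm w)
  | zero => simp
  | add a b _ _ ha hb => rw [smul_add]; exact U.add_mem ha hb
  | smul r a _ ha => rw [smul_comm]; exact U.smul_mem _ ha

theorem rlsub_back {V W : Lat O X} {j : V.V →ₗ[O] W.V} (hj : V.Hom W j) (hi : Injective j)
    (hs : ∀ w, ∃ c : O, c ≠ 0 ∧ c • w ∈ LinearMap.range j) :
    ∃ (c : O) (k : W.V →ₗ[O] V.V), c ≠ 0 ∧ W.Hom V k ∧ (∀ w, j (k w) = c • w) ∧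
      ∀ v, k (j v) = c • v := by
  obtain ⟨c, hc, hm⟩ := rlsub_unif _ hs
  let e := LinearEquiv.ofInjective j hi
  let k : W.V →ₗ[O] V.V :=
    e.symm.toLinearMap ∘ₗ LinearMap.codRestrict _ (c • LinearMap.id) hm
  have hk : ∀ w, j (k w) = c • w := fun w =>
    congrArg Subtype.val (e.apply_symm_apply (LinearMap.codRestrict _ (c • LinearMap.id) hm w))
  refine ⟨c, k, hc, fun x w => hi ?_, hk, fun v => hi ?_⟩
  · rw [hk, hj, hk, map_smul]
  · rw [hk, map_smul]

theorem isog_ch {V W : Lat O X} {j : V.V →ₗ[O] W.V} (hj : V.Hom W j) (hi : Injective j)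
    (hs : ∀ w, ∃ c : O, c ≠ 0 ∧ c • w ∈ LinearMap.range j) (x : X) : V.ch x = W.ch x := by
  obtain ⟨c, k, hc, -, h1, h2⟩ := rlsub_back hj hi hs
  have e1 : k ∘ₗ (W.ρ x ∘ₗ j) = c • V.ρ x := by
    refine LinearMap.ext fun v => ?_
    simp only [LinearMap.comp_apply, LinearMap.smul_apply]
    rw [← hj, h2]
  have e2 : (W.ρ x ∘ₗ j) ∘ₗ k = c • W.ρ x := by
    refine LinearMap.ext fun w => ?_
    simp only [LinearMap.comp_apply, LinearMap.smul_apply]
    rw [h1, map_smul]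
  have := LinearMap.trace_comp_comm' (W.ρ x ∘ₗ j) k
  rw [e1, e2, map_smul, map_smul, smul_eq_mul, smul_eq_mul] at this
  exact mul_left_cancel₀ hc this

theorem rlsub_ir {V W : Lat O X} {j : V.V →ₗ[O] W.V} (hj : V.Hom W j) (hi : Injective j)
    (hs : ∀ w, ∃ c : O, c ≠ 0 ∧ c • w ∈ LinearMap.range j) (h : V.Ir) : W.Ir := by
  have := h.1
  refine ⟨hi.nontrivial, fun U hU hp => ?_⟩
  rcases h.2 (U.comap j) (fun x v hv => by
      rw [Submodule.mem_comap] at hv ⊢
      rw [hj]; exact hU x _ hv) (fun c v hc hv => by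
      rw [Submodule.mem_comap, map_smul] at hv
      exact hp c _ hc hv) with h0 | h0
  · refine Or.inl (eq_bot_iff.2 fun w hw => ?_)
    obtain ⟨c, hc, v, hv⟩ := hs w
    have : v ∈ U.comap j := by
      rw [Submodule.mem_comap, hv]; exact U.smul_mem _ hw
    rw [h0, Submodule.mem_bot] at this
    rw [this, map_zero] at hv
    exact rlsub_tf W hc hv.symm
  · refine Or.inr (eq_top_iff.2 fun w _ => ?_)
    obtain ⟨c, hc, v, hv⟩ := hs w
    have : v ∈ U.comap j := h0 ▸ Submodule.mem_top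
    rw [Submodule.mem_comap, hv] at this
    exact hp c w hc this

theorem isog_ir {V W : Lat O X} {j : V.V →ₗ[O] W.V} (hj : V.Hom W j) (hi : Injective j)
    (hs : ∀ w, ∃ c : O, c ≠ 0 ∧ c • w ∈ LinearMap.range j) : V.Ir ↔ W.Ir := by
  refine ⟨rlsub_ir hj hi hs, ?_⟩
  obtain ⟨c, k, hc, hk, h1, h2⟩ := rlsub_back hj hi hs
  refine rlsub_ir hk ?_ fun v => ⟨c, hc, j v, h2 v⟩
  rw [injective_iff_map_eq_zero]
  intro w hw
  have := h1 w
  rw [hw, map_zero] at this
  exact rlsub_tf W hc this.symm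

theorem Lat.Ir.inj {V W : Lat O X} (hV : V.Ir) {f : V.V →ₗ[O] W.V} (hf : V.Hom W f)
    (h0 : f ≠ 0) : Injective f := by
  rcases hV.2 _ hf.ker_st.1 hf.ker_st.2 with h | h
  · exact LinearMap.ker_eq_bot.1 h
  · exact absurd (LinearMap.ker_eq_top.1 h) h0

theorem exists_ir_quo (V : Lat O X) (h : Nontrivial V.V) :
    ∃ (U : Lat O X) (q : V.V →ₗ[O] U.V), U.Ir ∧ V.Hom U q ∧ Surjective q := by
  obtain ⟨S, ⟨h1, h2, h3⟩, hmax⟩ := set_has_maximal_iff_noetherian.2
    (inferInstance : IsNoetherian O V.V) {S : Submodule O V.V | V.St S ∧ Pure S ∧ S ≠ ⊤}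
    ⟨⊥, fun x v hv => by rw [Submodule.mem_bot] at hv ⊢; rw [hv, map_zero],
      fun c v hc hv => rlsub_tf V hc hv, bot_ne_top⟩
  obtain ⟨E, q, hq, hs, hk⟩ := exists_quo V h1 h2
  refine ⟨E, q, ⟨?_, fun T hT hp => ?_⟩, hq, hs⟩
  · by_contra hn
    have := not_nontrivial_iff_subsingleton.1 hn
    exact h3 (hk ▸ LinearMap.ker_eq_top.2 (LinearMap.ext fun v => Subsingleton.elim _ _))
  · by_cases ht : T.comap q = ⊤
    · refine Or.inr (eq_top_iff.2 fun w _ => ?_)
      obtain ⟨v, rfl⟩ := hs w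
      exact (ht ▸ Submodule.mem_top : v ∈ T.comap q)
    · refine Or.inl (eq_bot_iff.2 fun w hw => ?_)
      obtain ⟨v, rfl⟩ := hs w
      have hle : S ≤ T.comap q := fun y hy => by
        rw [← hk, LinearMap.mem_ker] at hy
        rw [Submodule.mem_comap, hy]; exact T.zero_mem
      have he : S = T.comap q := by
        by_contra hne
        refine hmax (T.comap q) ⟨fun x y hy => ?_, fun c y hc hy => ?_, ht⟩
          (lt_of_le_of_ne hle hne)
        · rw [Submodule.mem_comap] at hy ⊢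
          rw [hq]; exact hT x _ hy
        · rw [Submodule.mem_comap, map_smul] at hy
          exact hp c _ hc hy
      have : v ∈ LinearMap.ker q := by rw [hk, he]; exact hw
      exact this

theorem Wt.fit_ir (hW : Wt p O) {V : Lat O X} (hV : V.Ir) {f : Module.End O V.V}
    (hf : V.Hom V f) :
    Bijective f ∨ ∃ (n : ℕ) (h : Module.End O V.V), f ^ n = (p : O) • h := by
  have := hW.cpl
  obtain ⟨e, g, y, n, h1, h2, h3, -, -, h6, he, -, -⟩ :=
    rfit (p : O) (PrincipalIdealRing.isMaximal_of_irreducible hW.irr) f (IsIntegral.of_finite O f)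
  have hc : V.Hom V e := fun x v => by
    have : Commute (V.ρ x) e := rfit_commute he (LinearMap.ext fun w => (hf x w).symm)
    exact (LinearMap.congr_fun this.eq v).symm
  by_cases h0 : e = 0
  · exact Or.inr ⟨n, y, by rw [← h6, h0, sub_zero, mul_one]⟩
  · have hi := hV.inj hc h0
    have e1 : e = 1 := LinearMap.ext fun v => hi (LinearMap.congr_fun h1 v)
    rw [e1] at h2 h3
    exact Or.inl ((Module.End.isUnit_iff f).1 ⟨⟨f, g, h3, h2⟩, rfl⟩)

end Pool.Agent.Lib.MP_1ae3da_al.CT.R5
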