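import Pool.Agent.Lib.MP_1ae3da_al.C.RLBas

set_option autoImplicit false
set_option linter.unusedSectionVars false

namespace Pool.Agent.Lib.MP_1ae3da_al.CT.R5

open Function

variable {O X Y : Type} [CommRing O] [IsDomain O] [IsDiscreteValuationRing O] [CharZero O]
  [Group X] [Finite X] [Group Y] [Finite Y] {p : ℕ} {Q : Subgroup X}

open Finset in
/-- a sum over free orbits of an element of prime order -/
theorem rltr_orb {T M : Type} [MulAction X T] [AddCommMonoid M] (S : AddSubmonoid M)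
    (pp : p.Prime) {g : X} (hg : g ^ p = 1) (φ : T → M) (s : Finset T) (st : ∀ y ∈ s, g • y ∈ s)
    (fr : ∀ y ∈ s, g • y ≠ y) (h : ∀ y ∈ s, ∑ i ∈ range p, φ (g ^ i • y) ∈ S) :
    ∑ y ∈ s, φ y ∈ S := by
  classical
  have := Fact.mk pp
  induction s using Finset.strongInduction with | H s ih => ?_
  obtain rfl | ⟨y, hy⟩ := s.eq_empty_or_nonempty
  · exact S.zero_mem
  have sub : (range p).image (g ^ · • y) ⊆ s := image_subset_iff.2 fun i _ => by
    induction i with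
    | zero => simpa using hy
    | succ i k => exact (pow_succ' g i).symm ▸ (mul_smul g _ y).symm ▸ st _ (k (by simp_all; omega))
  have mp : Function.minimalPeriod (g • ·) y = p := Function.minimalPeriod_eq_prime
    (by rw [Function.IsPeriodicPt, Function.IsFixedPt, smul_iterate_apply, hg, one_smul]) (fr y hy)
  rw [← sum_sdiff sub, sum_image fun i a j b e => Function.iterate_injOn_Iio_minimalPeriod
    (f := (g • ·)) (x := y) (by simpa [mp] using a) (by simpa [mp] using b)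
    (by simpa [smul_iterate_apply] using e)]
  refine S.add_mem (ih _ (sdiff_ssubset sub ⟨_, mem_image_of_mem _ (mem_range.2 pp.pos)⟩)
    (fun z m => mem_sdiff.2 ⟨st _ (mem_sdiff.1 m).1, fun c => (mem_sdiff.1 m).2 ?_⟩)
    (fun z m => fr z (mem_sdiff.1 m).1) fun z m => h z (mem_sdiff.1 m).1) (h y hy)
  obtain ⟨i, -, e⟩ := mem_image.1 c
  refine mem_image.2 ⟨(p - 1 + i) % p, mem_range.2 (Nat.mod_lt _ pp.pos), ?_⟩
  rw [← pow_eq_pow_mod _ hg, pow_add, mul_smul, e, ← mul_smul, ← pow_succ,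
    Nat.sub_add_cancel pp.pos, hg, one_smul]

/-- a sum over `Q` as a sum over the powers of a generator -/
theorem rltr_sum {M : Type} [AddCommMonoid M] (pp : p.Prime) (hQ : Nat.card Q = p) {g : X}
    (hg : g ∈ Q) (h1 : g ≠ 1) (φ : X → M) :
    ∑ᶠ q : Q, φ q = ∑ i ∈ Finset.range p, φ (g ^ i) := by
  have := Fact.mk pp
  have := Fintype.ofFinite Q
  rw [finsum_eq_sum_of_fintype]
  refine (Finset.sum_bij (fun i _ => (⟨g ^ i, Q.pow_mem hg i⟩ : Q)) (fun _ _ => Finset.mem_univ _)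
    (fun i a j b e => ?_) (fun q _ => ?_) fun _ _ => rfl).symm
  · exact pow_injOn_Iio_orderOf (x := g) (by simpa [rg_order hQ hg h1] using a)
      (by simpa [rg_order hQ hg h1] using b) (congrArg Subtype.val e)
  · obtain ⟨j, hj, e⟩ := rg_gen hQ hg h1 q.2
    exact ⟨j, Finset.mem_range.2 hj, Subtype.ext e.symm⟩

/-- the conjugate of a linear map -/
def rltrC (V W : Lat O X) (x : X) (f : V.V →ₗ[O] W.V) : V.V →ₗ[O] W.V := W.ρ x ∘ₗ f ∘ₗ V.ρ x⁻¹

theorem rltr_ap (V W : Lat O X) (x : X) (f : V.V →ₗ[O] W.V) (v : V.V) :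
    rltrC V W x f v = W.ρ x (f (V.ρ x⁻¹ v)) := rfl

theorem rltr_mul (V W : Lat O X) (x y : X) (f : V.V →ₗ[O] W.V) :
    rltrC V W (x * y) f = rltrC V W x (rltrC V W y f) :=
  LinearMap.ext fun v => by simp [rltr_ap]

theorem rltr_inv (V : Lat O X) (x : X) (v : V.V) : V.ρ x (V.ρ x⁻¹ v) = v := by
  rw [← Module.End.mul_apply, ← map_mul, mul_inv_cancel, map_one, Module.End.one_apply]

theorem rltr_fix {V W : Lat O X} {x : X} {f : V.V →ₗ[O] W.V} :
    rltrC V W x f = f ↔ ∀ v, f (V.ρ x v) = W.ρ x (f v) :=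
  ⟨fun h v => by
    have := rltr_inv V x⁻¹ v
    rw [inv_inv] at this
    rw [← h, rltr_ap, this, h],
    fun h => LinearMap.ext fun v => by rw [rltr_ap, ← h, rltr_inv]⟩

theorem free_orbit {V W : Lat O X} (i : Bool) (h : V.V →ₗ[O] W.V) {v : V.V}
    (hv : v ∈ V.A Q i) : ∑ᶠ g : Q, W.ρ (g : X) (h (V.ρ (g : X)⁻¹ v)) ∈ W.B Q i := by
  have := Fintype.ofFinite Q
  rw [finsum_eq_sum_of_fintype]
  cases i with
  | false =>
    refine ⟨h v, ?_⟩
    rw [Lat.Nm, finsum_eq_sum_of_fintype, LinearMap.sum_apply]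
    exact Finset.sum_congr rfl fun g _ => by rw [V.mem_A0.1 hv _ (Q.inv_mem g.2)]
  | true =>
    have z : ∑ g : Q, h (V.ρ (g : X)⁻¹ v) = 0 := by
      have e : V.Nm Q v = 0 := hv
      rw [Lat.Nm, finsum_eq_sum_of_fintype, LinearMap.sum_apply,
        ← Equiv.sum_comp (Equiv.inv Q)] at e
      rw [← map_sum]
      exact (congrArg h e).trans (map_zero h)
    rw [← sub_zero (∑ _, _), ← z, ← Finset.sum_sub_distrib]
    exact Submodule.sum_mem _ fun g _ => Submodule.mem_iSup_of_mem g ⟨_, rfl⟩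

theorem Wt.tr (hW : Wt p O) (hQ : Syl p Q) {V W : Lat O X} (f0 : V.V →ₗ[O] W.V)
    (h0 : ∀ g ∈ Q, ∀ v, f0 (V.ρ g v) = W.ρ g (f0 v)) :
    ∃ f : V.V →ₗ[O] W.V, V.Hom W f ∧
      ∀ (D : Submodule O V.V) (Φ : Submodule O (V.V × W.V)),
        (∀ n ∈ Nz Q, ∀ v ∈ D, V.ρ n v ∈ D) →
        (∀ n ∈ Nz Q, ∀ v w, (v, w) ∈ Φ → (V.ρ n v, W.ρ n w) ∈ Φ) →
        (∀ v ∈ D, (v, f0 v) ∈ Φ) →
        (Nz Q = ⊤ ∨ ∀ h : V.V →ₗ[O] W.V, ∀ v ∈ D,
          ((0 : V.V), ∑ᶠ g : Q, W.ρ (g : X) (h (V.ρ (g : X)⁻¹ v))) ∈ Φ) →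
        ∀ v ∈ D, (v, f v) ∈ Φ := by
  classical
  have pp := hW.prime
  have := Fact.mk pp
  have := Fintype.ofFinite (X ⧸ Q)
  obtain ⟨g, hg, h1⟩ := rg_exists hQ.card
  have gp : g ^ p = 1 := rg_pow hQ.card hg
  let φ (y : X ⧸ Q) : V.V →ₗ[O] W.V := rltrC V W y.out f0
  have e (x : X) (y : X ⧸ Q) : φ (x • y) = rltrC V W x (φ y) := by
    obtain ⟨q, k⟩ := QuotientGroup.mk_out_eq_mul Q (x * y.out)
    have : (x • y).out = x * y.out * q := by rw [← k, ← MulAction.Quotient.mk_smul_out]; rfl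
    simp only [φ, this, rltr_mul, rltr_fix.2 (h0 _ q.2)]
  have fx (y : X ⧸ Q) : g • y = y ↔ y.out⁻¹ * g⁻¹ * y.out ∈ Q := by
    conv_lhs => rw [← y.out_eq', MulAction.Quotient.smul_mk, QuotientGroup.eq]
    simp
  let A := Finset.univ.filter fun y : X ⧸ Q => g • y = y
  let B := Finset.univ.filter fun y : X ⧸ Q => ¬ g • y = y
  have orb {M : Type} [AddCommMonoid M] (S : AddSubmonoid M) (ψ : X ⧸ Q → M)
      (h : ∀ y, ∑ i ∈ Finset.range p, ψ (g ^ i • y) ∈ S) : ∑ y ∈ B, ψ y ∈ S :=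
    rltr_orb S pp gp ψ B (fun y m => by simpa [B] using m) (fun y m => by simpa [B] using m)
      fun y _ => h y
  have u : IsUnit (A.card : O) := hW.unit fun d => hQ.ind (by
    obtain ⟨k, e⟩ := orb (AddSubmonoid.multiples p) (fun _ => 1) fun y => ⟨1, by simp⟩
    rw [Subgroup.index_eq_card, Nat.card_eq_fintype_card, ← Finset.card_univ,
      ← Finset.card_filter_add_card_filter_not fun y : X ⧸ Q => g • y = y]
    exact d.add ⟨k, by simpa [mul_comm] using e.symm⟩)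
  obtain ⟨c, hc⟩ := u.exists_left_inv
  have nz (y : X ⧸ Q) (m : g • y = y) : y.out ∈ Nz Q := by
    refine inv_mem_iff.1 (Subgroup.mem_normalizer_fintype fun q hq => ?_)
    obtain ⟨j, -, rfl⟩ := rg_gen hQ.card (Q.inv_mem hg) (inv_ne_one.2 h1) hq
    rw [← conj_pow, inv_inv]
    exact Q.pow_mem ((fx y).1 m) j
  refine ⟨c • ∑ y, φ y, fun x => rltr_fix.1 ?_, fun D Φ hD hΦ hf hB v hv => ?_⟩
  · conv_rhs => rw [← Equiv.sum_comp (MulAction.toPerm x) φ]
    ext v
    simp only [MulAction.toPerm_apply, e, rltr_ap, LinearMap.smul_apply, LinearMap.sum_apply,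
      map_smul, map_sum]
  · have sA : ∑ y ∈ A, (v, φ y v) ∈ Φ := Φ.sum_mem fun y m => by
      have n := nz y (Finset.mem_filter.1 m).2
      have := hΦ _ n _ _ (hf _ (hD _ ((Nz Q).inv_mem n) v hv))
      rwa [rltr_inv] at this
    have sB : ∑ y ∈ B, ((0 : V.V), φ y v) ∈ Φ := by
      obtain hN | hB := hB
      · refine Φ.sum_mem fun y m => ((Finset.mem_filter.1 m).2 ((fx y).2 ?_)).elim
        have n : y.out⁻¹ ∈ Nz Q := hN.ge trivial
        have := (Subgroup.mem_normalizer_iff.1 n g⁻¹).1 (Q.inv_mem hg)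
        rwa [inv_inv] at this
      · refine orb Φ.toAddSubmonoid (fun y => ((0 : V.V), φ y v)) fun y => ?_
        have := hB (φ y) v hv
        rw [rltr_sum pp hQ.card hg h1 fun x => W.ρ x (φ y (V.ρ x⁻¹ v))] at this
        simpa only [← prod_mk_sum, Finset.sum_const_zero, e, rltr_ap,
          Submodule.mem_toAddSubmonoid] using this
    have := Φ.smul_mem c (Φ.add_mem sA sB)
    rw [← prod_mk_sum, ← prod_mk_sum, Prod.mk_add_mk, Finset.sum_const_zero, add_zero,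
      Finset.sum_filter_add_sum_filter_not, Finset.sum_const, ← Nat.cast_smul_eq_nsmul O,
      Prod.smul_mk, smul_smul, hc, one_smul] at this
    simpa only [LinearMap.smul_apply, LinearMap.sum_apply] using this

end Pool.Agent.Lib.MP_1ae3da_al.CT.R5
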