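import Pool.Agent.Lib.MP_1ae3da_al.C.RLLift
import Pool.Agent.Lib.MP_1ae3da_al.C.RLTr
import Pool.Agent.Lib.MP_1ae3da_al.C.RLSub

set_option autoImplicit false
set_option linter.unusedSectionVars false

namespace Pool.Agent.Lib.MP_1ae3da_al.CT.R5

open Function

variable {O X Y : Type} [CommRing O] [IsDomain O] [IsDiscreteValuationRing O] [CharZero O]
  [Group X] [Finite X] [Group Y] [Finite Y] {p : ℕ} {Q : Subgroup X}

/-- lift for the subgroup only -/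
theorem rl1_lift (hW : Wt p O) (hQ : Syl p Q) {V W : Lat O X} (i : Bool)
    (Φ : Submodule O (V.V × W.V)) (h1 : ∀ v ∈ V.A Q i, ∃ w ∈ W.A Q i, (v, w) ∈ Φ)
    (h2 : ∀ w ∈ W.B Q i, ((0 : V.V), w) ∈ Φ) (h3 : ∀ v ∈ V.B Q i, (v, (0 : W.V)) ∈ Φ) :
    ∃ f : V.V →ₗ[O] W.V, (∀ g ∈ Q, ∀ v, f (V.ρ g v) = W.ρ g (f v)) ∧
      (∀ v ∈ V.A Q i, (v, f v) ∈ Φ) ∧ ∀ v ∈ V.A Q (!i), f v = 0 := by
  obtain ⟨g, hg, g1⟩ := exists_gen hW.prime hQ.card
  simp only [Lat.A_eq _ hW.prime hQ.card hg g1, Lat.B_eq _ hW.prime hQ.card hg g1] at h1 h2 h3 ⊢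
  obtain ⟨f, a, b, c⟩ := hW.lift (V.ρ g) (W.ρ g) (V.pow_p hQ.card hg) (W.pow_p hQ.card hg) i Φ
    h1 h2 h3
  refine ⟨f, fun x hx v => ?_, b, c⟩
  obtain ⟨j, -, rfl⟩ := gen_pow hW.prime hQ.card hg g1 hx
  induction j with
  | zero => simp
  | succ j k =>
    rw [pow_succ', map_mul, map_mul, Module.End.mul_apply, Module.End.mul_apply, a,
      k (pow_mem hg j)]

theorem Wt.l1 (hW : Wt p O) (hQ : Syl p Q) {V W : Lat O X} (i : Bool)
    (Φ : Submodule O (V.V × W.V))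
    (hs : ∀ n ∈ Nz Q, ∀ v w, (v, w) ∈ Φ → (V.ρ n v, W.ρ n w) ∈ Φ)
    (h1 : ∀ v ∈ V.A Q i, ∃ w ∈ W.A Q i, (v, w) ∈ Φ)
    (h2 : ∀ w ∈ W.B Q i, ((0 : V.V), w) ∈ Φ) (h3 : ∀ v ∈ V.B Q i, (v, (0 : W.V)) ∈ Φ) :
    ∃ f : V.V →ₗ[O] W.V, V.Hom W f ∧ (∀ v ∈ V.A Q i, (v, f v) ∈ Φ) ∧
      ∀ v ∈ V.A Q (!i), f v ∈ W.B Q (!i) := by
  obtain ⟨f0, a, b, c⟩ := rl1_lift hW hQ i Φ h1 h2 h3
  obtain ⟨f, hf, t⟩ := hW.tr hQ f0 a
  exact ⟨f, hf, t _ Φ (fun n hn v hv => V.A_st hn i hv) hs b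
    (.inr fun h v hv => h2 _ (free_orbit i h hv)),
    t _ ((W.B Q (!i)).comap (LinearMap.snd O _ _)) (fun n hn v hv => V.A_st hn _ hv)
      (fun n hn v w k => W.B_st hn _ k) (fun v hv => by
        change f0 v ∈ W.B Q (!i)
        rw [c v hv]
        exact zero_mem _) (.inr fun h v hv => free_orbit (!i) h hv)⟩

/-- a map that is nilpotent modulo `p` fixes no nonzero class -/
theorem rl1_nil (hW : Wt p O) (hQ : Syl p Q) {V : Lat O X} {f h : Module.End O V.V}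
    (hf : V.Hom V f) {n : ℕ} (e : f ^ n = (p : O) • h) (i : Bool) {v : V.V} (hv : v ∈ V.A Q i)
    (k : f v - v ∈ V.B Q i) : v ∈ V.B Q i := by
  have a : ∀ m : ℕ, (f ^ m) v - v ∈ V.B Q i := fun m => by
    induction m with
    | zero => simp
    | succ m c =>
      have := add_mem (hf.mapB i c) k
      rwa [map_sub, sub_add_sub_cancel, ← Module.End.mul_apply, ← pow_succ'] at this
  have b := a n
  rw [e, LinearMap.smul_apply] at b
  have c : h v ∈ V.A Q i := V.A_pure i _ _ hW.irr.ne_zero (by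
    simpa using add_mem (V.B_le i b) hv)
  simpa using sub_mem (V.psmul hQ.card i c) b

theorem Wt.bij_of_id (hW : Wt p O) (hQ : Syl p Q) {V : Lat O X} (hV : V.Ir)
    {f : Module.End O V.V} (hf : V.Hom V f) (i : Bool) (hne : ¬ V.Z Q i)
    (h : ∀ v ∈ V.A Q i, f v - v ∈ V.B Q i) : Bijective f :=
  (hW.fit_ir hV hf).resolve_right fun ⟨_, _, e⟩ =>
    hne fun v hv => rl1_nil hW hQ hf e i hv (h v hv)

/-- complements in a module killed by `p` -/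
theorem rl1_compl (hW : Wt p O) {M : Type} [AddCommGroup M] [Module O M] [Module.Finite O M]
    {A B : Submodule O M} (U : Submodule O M) (h : ∀ a ∈ A, (p : O) • a ∈ B) :
    ∃ C : Submodule O M, B ≤ C ∧ C ⊓ U ≤ B ∧ A ≤ C ⊔ U := by
  obtain ⟨C, ⟨c1, c2⟩, m⟩ := set_has_maximal_iff_noetherian.2 (inferInstance : IsNoetherian O M)
    {C | B ≤ C ∧ C ⊓ U ≤ B} ⟨B, le_rfl, inf_le_left⟩
  refine ⟨C, c1, c2, fun a ha => by_contra fun n => ?_⟩
  refine m (C ⊔ O ∙ a) ⟨le_sup_of_le_left c1, fun x ⟨hx, hu⟩ => ?_⟩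
    (lt_of_le_of_ne le_sup_left fun e => n (Submodule.mem_sup_left
      (e ▸ Submodule.mem_sup_right (Submodule.mem_span_singleton_self a))))
  obtain ⟨c, hc, _, ht, rfl⟩ := Submodule.mem_sup.1 hx
  obtain ⟨t, rfl⟩ := Submodule.mem_span_singleton.1 ht
  by_cases d : (p : O) ∣ t
  · obtain ⟨s, rfl⟩ := d
    refine c2 ⟨add_mem hc (c1 ?_), hu⟩
    rw [mul_comm, mul_smul]
    exact B.smul_mem s (h a ha)
  · obtain ⟨u, rfl⟩ := (hW.unit_iff t).2 d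
    refine (n ?_).elim
    have := (C ⊔ U).smul_mem (↑u⁻¹ : O)
      (sub_mem (Submodule.mem_sup_right hu) (Submodule.mem_sup_left hc))
    rwa [add_sub_cancel_left, smul_smul, Units.inv_mul, one_smul] at this

theorem Wt.simple (hW : Wt p O) (hQ : Syl p Q) {V : Lat O X} (hV : V.Ir) (i : Bool)
    (U : Submodule O V.V) (hU : ∀ n ∈ Nz Q, ∀ v ∈ U, V.ρ n v ∈ U) (h1 : V.B Q i ≤ U)
    (h2 : U ≤ V.A Q i) : U = V.B Q i ∨ U = V.A Q i := by
  obtain ⟨C, c1, c2, c3⟩ := rl1_compl hW U fun a ha => V.psmul hQ.card i ha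
  obtain ⟨f0, a, b, -⟩ := rl1_lift hW hQ (V := V) (W := V) i
    (U.comap (LinearMap.snd O _ _) ⊓ C.comap (LinearMap.fst O _ _ - LinearMap.snd O _ _))
    (fun v hv => by
      obtain ⟨c, hc, u, hu, rfl⟩ := Submodule.mem_sup.1 (c3 hv)
      exact ⟨u, h2 hu, hu, by simpa using hc⟩)
    (fun w hw => ⟨h1 hw, by simpa using c1 hw⟩) fun v hv => ⟨U.zero_mem, by simpa using c1 hv⟩
  obtain ⟨f, hf, t⟩ := hW.tr hQ f0 a
  have t1 : ∀ v ∈ V.A Q i, f v ∈ U := t _ (U.comap (LinearMap.snd O _ _))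
    (fun n hn v hv => V.A_st hn i hv) (fun n hn v w k => hU n hn w k) (fun v hv => (b v hv).1)
    (.inr fun h v hv => h1 (free_orbit i h hv))
  have t2 : ∀ v ∈ U, f v - v ∈ V.B Q i :=
    t U ((V.B Q i).comap (LinearMap.snd O V.V V.V - LinearMap.fst O V.V V.V)) hU
      (fun n hn v w k => by simpa using V.B_st hn i k) (fun v hv => by
        have : v - f0 v ∈ V.B Q i := c2 ⟨(b v (h2 hv)).2, sub_mem hv (b v (h2 hv)).1⟩
        simpa using neg_mem this)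
      (.inr fun h v hv => by simpa using free_orbit i h (h2 hv))
  rcases hW.fit_ir hV hf with k | ⟨n, h, e⟩
  · obtain ⟨g, hg, -, g2⟩ := hf.inv k
    exact .inr (le_antisymm h2 fun v hv => g2 v ▸ t1 _ (hg.mapA i hv))
  · exact .inl (le_antisymm (fun v hv => rl1_nil hW hQ hf e i (h2 hv) (t2 v hv)) h1)

theorem Wt.one_deg (hW : Wt p O) (hQ : Syl p Q) {V : Lat O X} (hV : V.Ir) :
    V.Z Q false ∨ V.Z Q true := by
  refine or_iff_not_imp_left.2 fun n v hv => ?_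
  obtain ⟨f, hf, a, b⟩ := hW.l1 hQ (V := V) (W := V) false
    ((V.B Q false).comap (LinearMap.snd O _ _ - LinearMap.fst O _ _))
    (fun n hn v w k => by simpa using V.B_st hn false k) (fun v hv => ⟨v, hv, by simp⟩)
    (fun w hw => by simpa using hw) fun v hv => by simpa using hv
  obtain ⟨g, hg, g1, -⟩ := hf.inv (hW.bij_of_id hQ hV hf false n a)
  exact g1 v ▸ hg.mapB true (b v hv)

end Pool.Agent.Lib.MP_1ae3da_al.CT.R5
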