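import Pool.Agent.Lib.MP_1ae3da_al.C.RLZeta

set_option autoImplicit false
set_option linter.unusedSectionVars false

namespace Pool.Agent.Lib.MP_1ae3da_al.CT.R5

open Function

variable {O X Y : Type} [CommRing O] [IsDomain O] [IsDiscreteValuationRing O] [CharZero O]
  [Group X] [Finite X] [Group Y] [Finite Y] {p : ℕ} {Q : Subgroup X}
variable {U W M : Type} [AddCommGroup U] [Module O U] [Module.Free O U] [Module.Finite O U]
  [AddCommGroup W] [Module O W] [Module.Free O W] [Module.Finite O W]
  [AddCommGroup M] [Module O M] [Module.Free O M] [Module.Finite O M]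

section len
variable {R V V' : Type} [CommRing R] [AddCommGroup V] [Module R V] [AddCommGroup V'] [Module R V']

/-- the length of the image of `T` in `V / S` -/
noncomputable def rl3L (T S : Submodule R V) : ℕ∞ := Module.length R (T.map S.mkQ)

theorem rl3_map (f : V →ₗ[R] V') (T : Submodule R V) (S : Submodule R V') :
    rl3L T (S.comap f) = rl3L (T.map f) S := by
  have i : Injective ((S.comap f).mapQ S f le_rfl) := by
    rw [← LinearMap.ker_eq_bot, Submodule.ker_mapQ, Submodule.mkQ_map_self]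
  have e : (T.map (S.comap f).mkQ).map ((S.comap f).mapQ S f le_rfl) = (T.map f).map S.mkQ := by
    rw [← Submodule.map_comp, ← Submodule.map_comp, Submodule.mapQ_mkQ]
  unfold rl3L
  rw [← e]
  exact (Submodule.equivMapOfInjective _ i _).length_eq

theorem rl3_congr {T S S' : Submodule R V} (h : ∀ v ∈ T, v ∈ S ↔ v ∈ S') :
    rl3L T S = rl3L T S' := by
  have e : S.comap T.subtype = S'.comap T.subtype := Submodule.ext fun v => h v v.2
  have a := rl3_map T.subtype ⊤ S
  have b := rl3_map T.subtype ⊤ S'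
  rw [Submodule.map_subtype_top] at a b
  rw [← a, ← b, e]

theorem rl3_sup (T S : Submodule R V) : rl3L (T ⊔ S) S = rl3L T S := by
  unfold rl3L
  rw [Submodule.map_sup, Submodule.mkQ_map_self, sup_bot_eq]

theorem rl3_zero {T S : Submodule R V} (h : T ≤ S) : rl3L T S = 0 := by
  unfold rl3L
  rw [eq_bot_iff.2 ((Submodule.map_mono h).trans (Submodule.mkQ_map_self S).le)]
  exact Module.length_bot

theorem rl3_add {S T Z : Submodule R V} (h : S ≤ T) (k : T ≤ Z) :
    rl3L Z S = rl3L T S + rl3L Z T := by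
  let q : Z.map S.mkQ →ₗ[R] Z.map T.mkQ := (Submodule.factor h).restrict (by
    rintro _ ⟨v, hv, rfl⟩
    exact ⟨v, hv, rfl⟩)
  refine Module.length_eq_add_of_exact (Submodule.inclusion (Submodule.map_mono k)) q
    (Submodule.inclusion_injective _) ?_ ?_
  · rintro ⟨_, v, hv, rfl⟩
    exact ⟨⟨_, v, hv, rfl⟩, rfl⟩
  · rintro ⟨_, v, hv, rfl⟩
    constructor
    · intro e
      have m : v ∈ T := (Submodule.Quotient.mk_eq_zero T).1 (congrArg Subtype.val e)
      exact ⟨⟨_, v, m, rfl⟩, rfl⟩
    · rintro ⟨⟨_, w, hw, rfl⟩, e⟩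
      have e' : S.mkQ w = S.mkQ v := congrArg Subtype.val e
      have m : v ∈ T := by
        have := h ((Submodule.Quotient.eq S).1 e')
        simpa using T.sub_mem hw this
      exact Subtype.ext ((Submodule.Quotient.mk_eq_zero T).2 m)

end len

theorem rl3_coord (hW : Wt p O) {V : Type} [AddCommGroup V] [Module O V] {r : ℕ}
    (ψ : (Fin r → O) →ₗ[O] V) (S : Submodule O V) (h : ∀ c, ψ c ∈ S ↔ ∀ s, (p : O) ∣ c s) :
    rl3L (LinearMap.range ψ) S = r := by
  let I : Ideal O := Ideal.span {(p : O)}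
  have mx : I.IsMaximal := PrincipalIdealRing.isMaximal_of_irreducible hW.irr
  have : IsSimpleModule O (O ⧸ I) := isSimpleModule_iff_isCoatom.2 mx.out
  let φ : (Fin r → O) →ₗ[O] (Fin r → O ⧸ I) := (Submodule.mkQ I).compLeft (Fin r)
  have e : S.comap ψ = (⊥ : Submodule O (Fin r → O ⧸ I)).comap φ := by
    ext c
    rw [Submodule.mem_comap, h, Submodule.mem_comap, Submodule.mem_bot, funext_iff]
    exact forall_congr' fun s =>
      (Ideal.mem_span_singleton.symm.trans (Submodule.Quotient.mk_eq_zero I).symm)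
  have t : (⊤ : Submodule O (Fin r → O)).map φ = ⊤ := by
    refine eq_top_iff.2 fun y _ => ?_
    choose c hc using fun s => Submodule.mkQ_surjective I (y s)
    exact ⟨c, trivial, funext hc⟩
  rw [LinearMap.range_eq_map, ← rl3_map, e, rl3_map, t]
  unfold rl3L
  rw [Submodule.map_top, Submodule.range_mkQ, Module.length_top,
    (Submodule.quotEquivOfEqBot _ rfl).length_eq, Module.length_pi_of_fintype]
  simp

theorem rl3_free (hW : Wt p O) (S : Submodule O M) (h : ∀ m, m ∈ S ↔ ∃ m', m = (p : O) • m') :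
    rl3L ⊤ S = Module.finrank O M := by
  let b := Module.finBasis O M
  rw [← rl3_coord hW b.equivFun.symm.toLinearMap S fun c => ?_, LinearEquiv.range]
  rw [h]
  constructor
  · rintro ⟨m, e⟩ s
    have e' : c = (p : O) • b.equivFun m := by
      rw [← map_smul, ← e]
      exact (b.equivFun.apply_symm_apply c).symm
    exact ⟨b.equivFun m s, by rw [e']; rfl⟩
  · intro k
    choose d hd using k
    exact ⟨b.equivFun.symm d, by rw [← map_smul]; exact congrArg _ (funext hd)⟩

theorem rl3_gr (hW : Wt p O) {A B : Submodule O U} {Φ : Submodule O (U × M)} (h : Gr p A B Φ) :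
    rl3L A B = Module.finrank O M := by
  let S : Submodule O M := LinearMap.range (LinearMap.lsmul O M (p : O))
  have e1 : Φ.map (LinearMap.fst O U M) = A := by
    ext v
    rw [h.dom]
    exact ⟨fun ⟨x, hx, e⟩ => ⟨x.2, by rw [← e]; exact hx⟩, fun ⟨m, k⟩ => ⟨_, k, rfl⟩⟩
  have e2 : Φ.map (LinearMap.snd O U M) = ⊤ :=
    eq_top_iff.2 fun m _ => (h.ran m).elim fun v k => ⟨_, k, rfl⟩
  have mS : ∀ m, m ∈ S ↔ ∃ m', m = (p : O) • m' :=
    fun m => exists_congr fun m' => eq_comm
  rw [← e1, ← rl3_map, ← rl3_free hW S mS, ← e2, ← rl3_map]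
  refine rl3_congr fun x hx => ?_
  show x.1 ∈ B ↔ x.2 ∈ S
  rw [← h.kl, mS, ← h.kr]
  refine ⟨fun k => ?_, fun k => ?_⟩
  · rw [show ((0 : U), x.2) = x - (x.1, 0) by ext <;> simp]
    exact Φ.sub_mem hx k
  · rw [show (x.1, (0 : M)) = x - (0, x.2) by ext <;> simp]
    exact Φ.sub_mem hx k

theorem rl3_core (hW : Wt p O) (g : Module.End O U) (hg : g ^ p = 1) : ∃ (a r : ℕ) (c : ℕ∞),
    LinearMap.trace O U g = (a : O) - r ∧ rl3L (zA p g false) (zB p g false) + c = a ∧
      rl3L (zA p g true) (zB p g true) + c = r := by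
  set N : Module.End O U := ∑ j ∈ Finset.range p, g ^ j with hN
  have n1 : N * (g - 1) = 0 := by rw [hN, geom_sum_mul, hg, sub_self]
  have n2 : (g - 1) * N = 0 := by rw [hN, mul_geom_sum, hg, sub_self]
  have p0 : (p : O) ≠ 0 := hW.irr.ne_zero
  have nA : ∀ v ∈ LinearMap.ker (g - 1), N v = (p : O) • v := fun v hv => by
    have e : g v = v := sub_eq_zero.1 hv
    have e' : ∀ j : ℕ, (g ^ j) v = v := fun j => by
      induction j with
      | zero => rfl
      | succ j ih => rw [pow_succ, Module.End.mul_apply, e, ih]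
    rw [hN, LinearMap.sum_apply]
    simp only [e', Finset.sum_const, Finset.card_range, Nat.cast_smul_eq_nsmul]
  set A := LinearMap.ker (g - 1) with hA
  set E := LinearMap.range (g - 1) with hE
  have st : ∀ v ∈ E, g v ∈ E := by
    rintro _ ⟨v, rfl⟩
    exact ⟨g v, by simp⟩
  let g' : Module.End O E := g.restrict st
  have pw : ∀ (j : ℕ) (v : E), ((g' ^ j) v : U) = (g ^ j) v := fun j v => by
    induction j with
    | zero => rfl
    | succ j ih => rw [pow_succ', pow_succ', Module.End.mul_apply, Module.End.mul_apply, ← ih]; rfl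
  have z : ∑ j ∈ Finset.range p, g' ^ j = 0 := by
    ext ⟨_, v, rfl⟩
    have := LinearMap.congr_fun n1 v
    rw [Module.End.mul_apply, hN, LinearMap.sum_apply] at this
    simp only [LinearMap.sum_apply, AddSubmonoidClass.coe_finsetSum, pw]
    exact this
  obtain ⟨r, b, v, hb⟩ := hW.zeta g' z
  let π : U →ₗ[O] E := (g - 1).rangeRestrict
  refine ⟨Module.finrank O A, r, rl3L ⊤ (A ⊔ LinearMap.ker N), ?_, ?_, ?_⟩
  · have t1 : LinearMap.trace O U (g - 1) = LinearMap.trace O E (g' - 1) := by
      rw [show g - 1 = E.subtype ∘ₗ π from rfl, LinearMap.trace_comp_comm']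
      rfl
    have t2 : Module.finrank O E + Module.finrank O A = Module.finrank O U := by
      rw [← (LinearMap.quotKerEquivRange (g - 1)).finrank_eq]
      exact Submodule.finrank_quotient_add_finrank _
    rw [map_sub, map_sub, zeta_trace hW.prime g' z b v hb, LinearMap.trace_one,
      LinearMap.trace_one, ← t2, Nat.cast_add] at t1
    linear_combination t1
  · let S : Submodule O U := A.map (LinearMap.lsmul O U (p : O))
    have s1 : S ≤ LinearMap.range N := by
      rintro _ ⟨w, hw, rfl⟩
      exact ⟨w, nA w hw⟩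
    have s2 : LinearMap.range N ≤ A := by
      rintro _ ⟨w, rfl⟩
      exact LinearMap.congr_fun n2 w
    have s3 : S.comap N = A ⊔ LinearMap.ker N := by
      refine le_antisymm ?_ (sup_le (fun w hw => ⟨w, hw, (nA w hw).symm⟩) fun w hw => ?_)
      · rintro u ⟨w, hw, e⟩
        rw [← add_sub_cancel w u]
        refine Submodule.add_mem_sup hw ?_
        rw [LinearMap.mem_ker, map_sub, nA w hw]
        exact sub_eq_zero.2 e.symm
      · show N w ∈ S
        rw [LinearMap.mem_ker.1 hw]
        exact S.zero_mem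
    have s4 : rl3L A S = Module.finrank O A := by
      rw [← rl3_free hW (S.comap A.subtype), rl3_map, Submodule.map_subtype_top]
      exact fun m => ⟨fun ⟨w, hw, e⟩ => ⟨⟨w, hw⟩, Subtype.ext e.symm⟩,
        fun ⟨w, e⟩ => ⟨w, w.2, (congrArg Subtype.val e).symm⟩⟩
    rw [← s4, rl3_add s1 s2, ← s3, rl3_map, Submodule.map_top, add_comm]
    rfl
  · let ψ : (Fin r → O) →ₗ[O] E := Fintype.linearCombination O v
    have s1 : rl3L (LinearMap.range ψ) (LinearMap.range (g' - 1)) = r :=
      rl3_coord hW ψ _ (zeta_ind hW.prime g' z b v hb)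
    have s2 : LinearMap.range ψ ⊔ LinearMap.range (g' - 1) = ⊤ := by
      refine eq_top_iff.2 fun u _ => ?_
      obtain ⟨c, k⟩ := zeta_span g' b v hb u
      rw [← add_sub_cancel (ψ c) u]
      exact Submodule.add_mem_sup ⟨c, rfl⟩ k
    have s3 : (LinearMap.range (g' - 1)).comap π = A ⊔ E := by
      refine le_antisymm ?_ (sup_le (fun w hw => ⟨0, Subtype.ext ?_⟩)
        fun w hw => ⟨⟨w, hw⟩, rfl⟩)
      · rintro u ⟨w, e⟩
        have e' : (g - 1) w = (g - 1) u := congrArg Subtype.val e
        rw [← sub_add_cancel u w]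
        refine Submodule.add_mem_sup ?_ w.2
        rw [hA, LinearMap.mem_ker, map_sub, e', sub_self]
      · rw [map_zero]
        exact (LinearMap.mem_ker.1 hw).symm
    have s4 : E ≤ LinearMap.ker N := by
      rintro _ ⟨w, rfl⟩
      exact LinearMap.congr_fun n1 w
    have s5 : rl3L (A ⊔ LinearMap.ker N) (A ⊔ E) = rl3L (LinearMap.ker N) E := by
      rw [← rl3_sup, sup_eq_left.2 (sup_le_sup_left s4 _), show A ⊔ LinearMap.ker N =
        LinearMap.ker N ⊔ (A ⊔ E) by rw [← sup_assoc, sup_comm _ A, sup_assoc, sup_eq_left.2 s4],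
        rl3_sup]
      refine rl3_congr fun u hu => ⟨fun k => ?_, fun k => Submodule.mem_sup_right k⟩
      obtain ⟨x, hx, y, hy, rfl⟩ := Submodule.mem_sup.1 k
      have x0 : (p : O) • x = 0 := by
        rw [← nA x hx]
        simpa [LinearMap.mem_ker.1 (s4 hy)] using LinearMap.mem_ker.1 hu
      rwa [(smul_eq_zero.1 x0).resolve_left p0, zero_add]
    rw [← s1, ← rl3_sup (LinearMap.range ψ), s2, ← LinearMap.range_rangeRestrict (g - 1),
      LinearMap.range_eq_map (g - 1).rangeRestrict, ← rl3_map, s3,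
      rl3_add (sup_le_sup_left s4 A) le_top, s5]
    rfl

theorem Wt.l3 (hW : Wt p O) (g : Module.End O U) (hg : g ^ p = 1) (i : Bool)
    (Φ : Submodule O (U × M)) (h : Gr p (zA p g i) (zB p g i) Φ)
    (h0 : zA p g (!i) ≤ zB p g (!i)) :
    LinearMap.trace O U g = sg O i * (Module.finrank O M : O) := by
  obtain ⟨a, r, c, t, k0, k1⟩ := rl3_core hW g hg
  cases i
  · rw [rl3_zero (T := zA p g true) (S := zB p g true) h0, zero_add] at k1
    rw [rl3_gr hW h, k1] at k0
    have e : Module.finrank O M + r = a := by exact_mod_cast k0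
    rw [t, ← e, sg]
    push_cast
    ring
  · rw [rl3_zero (T := zA p g false) (S := zB p g false) h0, zero_add] at k0
    rw [rl3_gr hW h, k0] at k1
    have e : Module.finrank O M + a = r := by exact_mod_cast k1
    rw [t, ← e, sg]
    push_cast
    ring

theorem Wt.l3z (hW : Wt p O) (g : Module.End O U) (hg : g ^ p = 1)
    (h0 : ∀ i, zA p g i ≤ zB p g i) : LinearMap.trace O U g = 0 := by
  obtain ⟨a, r, c, t, k0, k1⟩ := rl3_core hW g hg
  rw [rl3_zero (h0 _), zero_add] at k0 k1
  have e : a = r := by exact_mod_cast k0.symm.trans k1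
  rw [t, e, sub_self]

end Pool.Agent.Lib.MP_1ae3da_al.CT.R5
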