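import Pool.Agent.Lib.MP_1ae3da_al.C.RLDef

set_option autoImplicit false
set_option linter.unusedSectionVars false

namespace Pool.Agent.Lib.MP_1ae3da_al.CT.R5

open Function

variable {O X Y : Type} [CommRing O] [IsDomain O] [IsDiscreteValuationRing O] [CharZero O]
  [Group X] [Finite X] [Group Y] [Finite Y] {p : ℕ} {Q : Subgroup X}

theorem Wt.unit_iff (hW : Wt p O) (c : O) : IsUnit c ↔ ¬ (p : O) ∣ c := by
  rw [← Ideal.mem_span_singleton, ← hW.irr.maximalIdeal_eq, IsLocalRing.mem_maximalIdeal,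
    mem_nonunits_iff, not_not]

theorem Wt.unit (hW : Wt p O) {n : ℕ} (h : ¬ p ∣ n) : IsUnit (n : O) := by
  refine (hW.unit_iff _).2 fun d => hW.irr.not_isUnit ?_
  obtain ⟨a, b, e⟩ : IsCoprime (p : O) (n : O) :=
    Nat.Coprime.cast ((hW.prime.coprime_iff_not_dvd).2 h)
  exact isUnit_of_dvd_one (e ▸ dvd_add (dvd_mul_left _ _) (d.mul_left _))

theorem Wt.dvd_nat (hW : Wt p O) {n : ℕ} (h : (p : O) ∣ (n : O)) : p ∣ n := by
  by_contra k
  exact (hW.unit_iff _).1 (hW.unit k) h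

theorem Wt.nak (hW : Wt p O) {U : Type} [AddCommGroup U] [Module O U] [Module.Finite O U]
    (S T : Submodule O U) (h : ∀ v ∈ S, ∃ t ∈ T, ∃ s ∈ S, v = t + (p : O) • s) : S ≤ T := by
  refine Submodule.le_of_le_smul_of_le_jacobson_bot (I := Ideal.span {(p : O)})
    (IsNoetherian.noetherian S) ?_ fun v hv => ?_
  · rw [← hW.irr.maximalIdeal_eq, IsLocalRing.jacobson_eq_maximalIdeal ⊥ bot_ne_top]
  · obtain ⟨t, ht, s, hs, rfl⟩ := h v hv
    exact Submodule.add_mem_sup ht (Submodule.smul_mem_smul (Ideal.mem_span_singleton_self _) hs)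

theorem Wt.bij_of_cong (hW : Wt p O) {U : Type} [AddCommGroup U] [Module O U] [Module.Finite O U]
    (f : Module.End O U) (h : ∀ v, ∃ u, f v - v = (p : O) • u) : Bijective f := by
  have s : Surjective f := fun v => hW.nak ⊤ (LinearMap.range f) (fun v _ => by
    obtain ⟨u, e⟩ := h v
    exact ⟨f v, ⟨v, rfl⟩, -u, trivial, by rw [smul_neg, ← e]; abel⟩) (Submodule.mem_top (x := v))
  exact ⟨OrzechProperty.injective_of_surjective_endomorphism f s, s⟩

theorem exists_gen (hp : p.Prime) (h : Nat.card Q = p) : ∃ g ∈ Q, g ≠ 1 := by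
  by_contra k
  have : Q = ⊥ := (Subgroup.eq_bot_iff_forall Q).2 fun g hg => by
    by_contra c
    exact k ⟨g, hg, c⟩
  rw [this, Subgroup.card_bot] at h
  exact hp.one_lt.ne h

theorem rlbas_ord (hp : p.Prime) (h : Nat.card Q = p) {g : X} (hg : g ∈ Q) (h1 : g ≠ 1) :
    orderOf g = p :=
  ((Nat.dvd_prime hp).1 (h ▸ Subgroup.orderOf_dvd_natCard Q hg)).resolve_left
    fun e => h1 (orderOf_eq_one_iff.1 e)

theorem gen_pow (hp : p.Prime) (h : Nat.card Q = p) {g x : X} (hg : g ∈ Q) (h1 : g ≠ 1)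
    (hx : x ∈ Q) : ∃ j : ℕ, j < p ∧ x = g ^ j := by
  have o := rlbas_ord hp h hg h1
  have e : Subgroup.zpowers g = Q := Subgroup.eq_of_le_of_card_ge
    (Subgroup.zpowers_le_of_mem hg) (by rw [Nat.card_zpowers, o, h])
  obtain ⟨j, rfl⟩ := (Submonoid.mem_powers_iff _ _).1 (mem_powers_iff_mem_zpowers.2 (e ▸ hx))
  exact ⟨j % p, Nat.mod_lt _ hp.pos, by rw [← o, pow_mod_orderOf]⟩

theorem Syl.sub (h : Syl p Q) : Syl p (Q.subgroupOf (Nz Q)) :=
  ⟨(Nat.card_congr (Subgroup.subgroupOfEquivOfLe Subgroup.le_normalizer).toEquiv).trans h.card,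
    fun d => h.ind (d.trans (Subgroup.relIndex_dvd_index_of_le Subgroup.le_normalizer))⟩

theorem Lat.pow_p (V : Lat O X) (h : Nat.card Q = p) {g : X} (hg : g ∈ Q) : V.ρ g ^ p = 1 := by
  have e : g ^ p = 1 := by
    rw [← h]
    exact congrArg Subtype.val (pow_card_eq_one' (x := (⟨g, hg⟩ : Q)))
  rw [← map_pow, e, map_one]

theorem Lat.Nm_eq (V : Lat O X) (hp : p.Prime) (h : Nat.card Q = p) {g : X} (hg : g ∈ Q)
    (h1 : g ≠ 1) : V.Nm Q = ∑ j ∈ Finset.range p, V.ρ g ^ j := by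
  have := Fintype.ofFinite Q
  have o := rlbas_ord hp h hg h1
  rw [Lat.Nm, finsum_eq_sum_of_fintype]
  refine (Finset.sum_bij (fun j _ => (⟨g ^ j, Q.pow_mem hg j⟩ : Q)) (fun _ _ => Finset.mem_univ _)
    (fun a ha b hb e => pow_injOn_Iio_orderOf (x := g) (by simpa [o] using ha)
      (by simpa [o] using hb) (congrArg Subtype.val e)) (fun x _ => ?_)
    fun j _ => (map_pow _ _ _).symm).symm
  obtain ⟨j, hj, e⟩ := gen_pow hp h hg h1 x.2
  exact ⟨j, Finset.mem_range.2 hj, Subtype.ext e.symm⟩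

theorem rlbas_A0 (V : Lat O X) {v : V.V} : v ∈ V.A Q false ↔ ∀ g ∈ Q, V.ρ g v = v :=
  (Submodule.mem_iInf _).trans ⟨fun k g hg => sub_eq_zero.1 (k ⟨g, hg⟩),
    fun k g => sub_eq_zero.2 (k g g.2)⟩

theorem rlbas_fix {U : Type} [AddCommGroup U] [Module O U] {g : Module.End O U} {v : U}
    (h : g v = v) (j : ℕ) : (g ^ j) v = v := by
  induction j with
  | zero => rfl
  | succ j ih => rw [pow_succ, Module.End.mul_apply, h, ih]

theorem Lat.A_eq (V : Lat O X) (hp : p.Prime) (h : Nat.card Q = p) {g : X} (hg : g ∈ Q)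
    (h1 : g ≠ 1) (i : Bool) : V.A Q i = zA p (V.ρ g) i := by
  cases i
  · ext v
    rw [rlbas_A0, zA, LinearMap.mem_ker, LinearMap.sub_apply, sub_eq_zero]
    refine ⟨fun k => k g hg, fun k x hx => ?_⟩
    obtain ⟨j, -, rfl⟩ := gen_pow hp h hg h1 hx
    rw [map_pow]
    exact rlbas_fix k j
  · rw [Lat.A, zA, V.Nm_eq hp h hg h1]

theorem Lat.B_eq (V : Lat O X) (hp : p.Prime) (h : Nat.card Q = p) {g : X} (hg : g ∈ Q)
    (h1 : g ≠ 1) (i : Bool) : V.B Q i = zB p (V.ρ g) i := by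
  cases i
  · rw [Lat.B, zB, V.Nm_eq hp h hg h1]
  · refine le_antisymm (iSup_le fun x => ?_) (le_iSup
      (fun g : Q => LinearMap.range (V.ρ (g : X) - 1)) ⟨g, hg⟩)
    obtain ⟨j, -, e⟩ := gen_pow hp h hg h1 x.2
    rw [e, map_pow, ← mul_geom_sum]
    exact LinearMap.range_comp_le_range _ _

theorem zB_le {U : Type} [AddCommGroup U] [Module O U] {g : Module.End O U} (hg : g ^ p = 1)
    (i : Bool) : zB p g i ≤ zA p g i := by
  cases i
  · rintro _ ⟨v, rfl⟩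
    change ((g - 1) * ∑ j ∈ Finset.range p, g ^ j) v = 0
    rw [mul_geom_sum, hg, sub_self, LinearMap.zero_apply]
  · rintro _ ⟨v, rfl⟩
    change ((∑ j ∈ Finset.range p, g ^ j) * (g - 1)) v = 0
    rw [geom_sum_mul, hg, sub_self, LinearMap.zero_apply]

theorem z_psmul {U : Type} [AddCommGroup U] [Module O U] (g : Module.End O U)
    (i : Bool) {v : U} (hv : v ∈ zA p g i) : (p : O) • v ∈ zB p g i := by
  have c : (p : O) • v = ∑ _j ∈ Finset.range p, v := by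
    rw [Finset.sum_const, Finset.card_range, Nat.cast_smul_eq_nsmul]
  cases i
  · refine ⟨v, ?_⟩
    rw [c, LinearMap.sum_apply]
    exact Finset.sum_congr rfl fun j _ => rlbas_fix (sub_eq_zero.1 hv) j
  · have e : ∑ j ∈ Finset.range p, (g ^ j) v = 0 := (LinearMap.sum_apply _ _ _).symm.trans hv
    rw [c, ← sub_zero (∑ _j ∈ Finset.range p, v), ← e, ← Finset.sum_sub_distrib]
    refine Submodule.sum_mem _ fun j _ => ?_
    rw [← neg_sub]
    exact Submodule.neg_mem _ ⟨(∑ i ∈ Finset.range j, g ^ i) v,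
      LinearMap.congr_fun (mul_geom_sum g j) v⟩

theorem rlbas_ker {U : Type} [AddCommGroup U] [Module O U] [Module.Free O U]
    (f : Module.End O U) : Pure (LinearMap.ker f) := fun c v hc k => by
  rw [LinearMap.mem_ker, map_smul] at k
  exact (smul_eq_zero.1 k).resolve_left hc

theorem zA_pure {U : Type} [AddCommGroup U] [Module O U] [Module.Free O U] (g : Module.End O U)
    (i : Bool) : Pure (zA p g i) := by
  cases i <;> exact rlbas_ker _

theorem Lat.mem_A0 (V : Lat O X) {v : V.V} : v ∈ V.A Q false ↔ ∀ g ∈ Q, V.ρ g v = v :=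
  rlbas_A0 V

theorem rlbas_nm [Fintype Q] (V : Lat O X) (v : V.V) : V.Nm Q v = ∑ g : Q, V.ρ g v := by
  rw [Lat.Nm, finsum_eq_sum_of_fintype, LinearMap.sum_apply]

theorem rlbas_l (V : Lat O X) {g : X} (hg : g ∈ Q) (v : V.V) : V.ρ g (V.Nm Q v) = V.Nm Q v := by
  have := Fintype.ofFinite Q
  rw [rlbas_nm, map_sum]
  refine Eq.trans ?_ (Equiv.sum_comp (Equiv.mulLeft (⟨g, hg⟩ : Q)) fun x : Q => V.ρ x v)
  exact Finset.sum_congr rfl fun x _ => (LinearMap.congr_fun (V.ρ.map_mul g x) v).symm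

theorem rlbas_r (V : Lat O X) {g : X} (hg : g ∈ Q) (v : V.V) : V.Nm Q (V.ρ g v) = V.Nm Q v := by
  have := Fintype.ofFinite Q
  rw [rlbas_nm, rlbas_nm]
  refine Eq.trans ?_ (Equiv.sum_comp (Equiv.mulRight (⟨g, hg⟩ : Q)) fun x : Q => V.ρ x v)
  exact Finset.sum_congr rfl fun x _ => (LinearMap.congr_fun (V.ρ.map_mul x g) v).symm

theorem rlbas_B1 (V : Lat O X) {g : X} (hg : g ∈ Q) (v : V.V) : V.ρ g v - v ∈ V.B Q true :=
  Submodule.mem_iSup_of_mem (⟨g, hg⟩ : Q) ⟨v, rfl⟩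

theorem Lat.B_le (V : Lat O X) (i : Bool) : V.B Q i ≤ V.A Q i := by
  cases i
  · rintro _ ⟨v, rfl⟩
    exact V.mem_A0.2 fun g hg => rlbas_l V hg v
  · refine iSup_le ?_
    rintro g _ ⟨v, rfl⟩
    change V.Nm Q (V.ρ g v - v) = 0
    rw [map_sub, rlbas_r V g.2, sub_self]

theorem Lat.psmul (V : Lat O X) (h : Nat.card Q = p) (i : Bool) {v : V.V} (hv : v ∈ V.A Q i) :
    (p : O) • v ∈ V.B Q i := by
  have := Fintype.ofFinite Q
  have c : (p : O) • v = ∑ _g : Q, v := by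
    rw [Finset.sum_const, Finset.card_univ, Nat.cast_smul_eq_nsmul, ← h, Nat.card_eq_fintype_card]
  cases i
  · refine ⟨v, ?_⟩
    rw [c, rlbas_nm]
    exact Finset.sum_congr rfl fun g _ => V.mem_A0.1 hv g g.2
  · have e : ∑ g : Q, V.ρ g v = 0 := (rlbas_nm V v).symm.trans hv
    rw [c, ← sub_zero (∑ _g : Q, v), ← e, ← Finset.sum_sub_distrib]
    refine Submodule.sum_mem _ fun g _ => ?_
    rw [← neg_sub]
    exact Submodule.neg_mem _ (rlbas_B1 V g.2 v)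

theorem Lat.A_pure (V : Lat O X) (i : Bool) : Pure (V.A Q i) := by
  cases i
  · intro c v hc k
    exact (Submodule.mem_iInf _).2 fun g => rlbas_ker _ c v hc ((Submodule.mem_iInf _).1 k g)
  · exact rlbas_ker _

theorem Cmp.nm {V W : Lat O X} {G : V.V →+ W.V} (h : Cmp Q V W G) (v : V.V) :
    G (V.Nm Q v) = W.Nm Q (G v) := by
  have := Fintype.ofFinite Q
  obtain ⟨a, e⟩ := h
  rw [rlbas_nm, rlbas_nm, map_sum]
  refine Eq.trans ?_ (Equiv.sum_comp a fun x : Q => W.ρ x (G v))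
  exact Finset.sum_congr rfl fun g _ => e g v

theorem Cmp.mapA {V W : Lat O X} {G : V.V →+ W.V} (h : Cmp Q V W G) (i : Bool) {v : V.V}
    (hv : v ∈ V.A Q i) : G v ∈ W.A Q i := by
  cases i
  · obtain ⟨a, e⟩ := h
    refine W.mem_A0.2 fun g hg => ?_
    have k := e (a.symm ⟨g, hg⟩) v
    rw [a.apply_symm_apply, V.mem_A0.1 hv _ (a.symm _).2] at k
    exact k.symm
  · change W.Nm Q (G v) = 0
    rw [← h.nm, show V.Nm Q v = 0 from hv, map_zero]

theorem Cmp.mapB {V W : Lat O X} {G : V.V →+ W.V} (h : Cmp Q V W G) (i : Bool) {v : V.V}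
    (hv : v ∈ V.B Q i) : G v ∈ W.B Q i := by
  cases i
  · obtain ⟨u, rfl⟩ := hv
    exact ⟨G u, (h.nm u).symm⟩
  · obtain ⟨a, e⟩ := h
    refine Submodule.iSup_induction _ (motive := fun v => G v ∈ W.B Q true) hv ?_ ?_ ?_
    · rintro g _ ⟨u, rfl⟩
      change G (V.ρ g u - u) ∈ _
      rw [map_sub, e]
      exact rlbas_B1 W (a g).2 _
    · rw [map_zero]
      exact Submodule.zero_mem _
    · intro x y k l
      rw [map_add]
      exact Submodule.add_mem _ k l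

theorem rlbas_hom {V W : Lat O X} {f : V.V →ₗ[O] W.V} (h : V.Hom W f) :
    Cmp Q V W f.toAddMonoidHom := ⟨Equiv.refl _, fun g v => h g v⟩

theorem Lat.Hom.nm {V W : Lat O X} {f : V.V →ₗ[O] W.V} (h : V.Hom W f) (v : V.V) :
    f (V.Nm Q v) = W.Nm Q (f v) :=
  (rlbas_hom h).nm v

theorem Lat.Hom.mapA {V W : Lat O X} {f : V.V →ₗ[O] W.V} (h : V.Hom W f) (i : Bool) {v : V.V}
    (hv : v ∈ V.A Q i) : f v ∈ W.A Q i :=
  (rlbas_hom h).mapA i hv

theorem Lat.Hom.mapB {V W : Lat O X} {f : V.V →ₗ[O] W.V} (h : V.Hom W f) (i : Bool) {v : V.V}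
    (hv : v ∈ V.B Q i) : f v ∈ W.B Q i :=
  (rlbas_hom h).mapB i hv

theorem rlbas_N (V : Lat O X) {n : X} (hn : n ∈ Nz Q) : Cmp Q V V (V.ρ n).toAddMonoidHom :=
  ⟨(Subgroup.normalizerMonoidHom Q ⟨n, hn⟩).toEquiv, fun g v => by
    change (V.ρ n * V.ρ g) v = (V.ρ (n * g * n⁻¹) * V.ρ n) v
    rw [← map_mul, ← map_mul, inv_mul_cancel_right]⟩

theorem Lat.nm_N (V : Lat O X) {n : X} (hn : n ∈ Nz Q) (v : V.V) :
    V.ρ n (V.Nm Q v) = V.Nm Q (V.ρ n v) :=
  (rlbas_N V hn).nm v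

theorem Lat.A_st (V : Lat O X) {n : X} (hn : n ∈ Nz Q) (i : Bool) {v : V.V}
    (hv : v ∈ V.A Q i) : V.ρ n v ∈ V.A Q i :=
  (rlbas_N V hn).mapA i hv

theorem Lat.B_st (V : Lat O X) {n : X} (hn : n ∈ Nz Q) (i : Bool) {v : V.V}
    (hv : v ∈ V.B Q i) : V.ρ n v ∈ V.B Q i :=
  (rlbas_N V hn).mapB i hv

theorem Lat.sub_mem_B (V : Lat O X) (i : Bool) {g : X} (hg : g ∈ Q) {v : V.V}
    (hv : v ∈ V.A Q i) : V.ρ g v - v ∈ V.B Q i := by
  cases i
  · rw [V.mem_A0.1 hv g hg, sub_self]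
    exact Submodule.zero_mem _
  · exact rlbas_B1 V hg v

end Pool.Agent.Lib.MP_1ae3da_al.CT.R5
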