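import Pool.Agent.Lib.MP_1ae3da_al.C.RCD

set_option autoImplicit false

/-! Lattices over a complete discrete valuation ring for a group with a Sylow subgroup of
prime order: definitions. -/

namespace Pool.Agent.Lib.MP_1ae3da_al.CT.R5

/-- hypotheses on the coefficient ring -/
structure Wt (p : ℕ) (O : Type) [CommRing O] : Prop where
  prime : p.Prime
  irr : Irreducible (p : O)
  cpl : IsAdicComplete (Ideal.span {(p : O)}) O
  alg : ∀ f : Polynomial O, f.Monic → 0 < f.natDegree → ∃ c : O, (p : O) ∣ f.eval c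
  tor : ∀ u : O, IsUnit u → ∃ m : ℕ, ¬ p ∣ m ∧ (p : O) ∣ u ^ m - 1

/-- a subgroup of order `p` and index prime to `p` -/
structure Syl (p : ℕ) {X : Type} [Group X] (Q : Subgroup X) : Prop where
  card : Nat.card Q = p
  ind : ¬ p ∣ Q.index

/-- the normaliser -/
abbrev Nz {X : Type} [Group X] (Q : Subgroup X) : Subgroup X := NQ Q

/-- a representation on a free module of finite rank -/
structure Lat (O X : Type) [CommRing O] [Group X] where
  V : Type
  [ag : AddCommGroup V]
  [md : Module O V]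
  [fr : Module.Free O V]
  [fn : Module.Finite O V]
  ρ : X →* Module.End O V

attribute [instance] Lat.ag Lat.md Lat.fr Lat.fn

variable {O X Y : Type} [CommRing O] [Group X] [Group Y]

/-- rank -/
noncomputable abbrev Lat.rk (V : Lat O X) : ℕ := Module.finrank O V.V

/-- character -/
noncomputable def Lat.ch (V : Lat O X) (x : X) : O := LinearMap.trace O V.V (V.ρ x)

/-- stable submodule -/
def Lat.St (V : Lat O X) (U : Submodule O V.V) : Prop := ∀ x, ∀ v ∈ U, V.ρ x v ∈ U

/-- pure submodule -/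
def Pure {U : Type} [AddCommGroup U] [Module O U] (S : Submodule O U) : Prop :=
  ∀ (c : O) (v : U), c ≠ 0 → c • v ∈ S → v ∈ S

/-- irreducible lattice -/
def Lat.Ir (V : Lat O X) : Prop :=
  Nontrivial V.V ∧ ∀ U : Submodule O V.V, V.St U → Pure U → U = ⊥ ∨ U = ⊤

/-- equivariant linear map -/
def Lat.Hom (V W : Lat O X) (f : V.V →ₗ[O] W.V) : Prop :=
  ∀ x v, f (V.ρ x v) = W.ρ x (f v)

/-- pull back along a group homomorphism -/
abbrev Lat.tw (V : Lat O X) (a : Y →* X) : Lat O Y := { V := V.V, ρ := V.ρ.comp a }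

/-- twist by a linear character -/
abbrev Lat.sc (V : Lat O X) (ω : X →* Oˣ) : Lat O X :=
  { V := V.V
    ρ := { toFun := fun x => (ω x : O) • V.ρ x
           map_one' := by simp
           map_mul' := fun x y => by
             rw [map_mul, map_mul, Units.val_mul, smul_mul_smul_comm] } }

/-- the subgroup acts trivially -/
def Lat.Triv (V : Lat O X) (Q : Subgroup X) : Prop := ∀ g ∈ Q, V.ρ g = 1

/-- norm -/
noncomputable def Lat.Nm (V : Lat O X) (Q : Subgroup X) : Module.End O V.V :=
  ∑ᶠ g : Q, V.ρ (g : X)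

/-- cycles: `false` invariants, `true` kernel of the norm -/
noncomputable def Lat.A (V : Lat O X) (Q : Subgroup X) : Bool → Submodule O V.V
  | false => ⨅ g : Q, LinearMap.ker (V.ρ (g : X) - 1)
  | true => LinearMap.ker (V.Nm Q)

/-- boundaries: `false` norms, `true` the augmentation submodule -/
noncomputable def Lat.B (V : Lat O X) (Q : Subgroup X) : Bool → Submodule O V.V
  | false => LinearMap.range (V.Nm Q)
  | true => ⨆ g : Q, LinearMap.range (V.ρ (g : X) - 1)

/-- the Tate group of degree `i` vanishes -/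
def Lat.Z (V : Lat O X) (Q : Subgroup X) (i : Bool) : Prop := V.A Q i ≤ V.B Q i

/-- cycles of one endomorphism -/
noncomputable def zA {U : Type} [AddCommGroup U] [Module O U] (p : ℕ) (g : Module.End O U) :
    Bool → Submodule O U
  | false => LinearMap.ker (g - 1)
  | true => LinearMap.ker (∑ j ∈ Finset.range p, g ^ j)

/-- boundaries of one endomorphism -/
noncomputable def zB {U : Type} [AddCommGroup U] [Module O U] (p : ℕ) (g : Module.End O U) :
    Bool → Submodule O U
  | false => LinearMap.range (∑ j ∈ Finset.range p, g ^ j)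
  | true => LinearMap.range (g - 1)

/-- an additive map compatible with `Q` up to a permutation of `Q` -/
def Cmp (Q : Subgroup X) (V W : Lat O X) (G : V.V →+ W.V) : Prop :=
  ∃ a : Q ≃ Q, ∀ (g : Q) v, G (V.ρ (g : X) v) = W.ρ (a g : X) (G v)

/-- `Φ` is the graph of an isomorphism `A / B ≃ M / p M` -/
structure Gr (p : ℕ) {U M : Type} [AddCommGroup U] [Module O U] [AddCommGroup M] [Module O M]
    (A B : Submodule O U) (Φ : Submodule O (U × M)) : Prop where
  dom : ∀ v, v ∈ A ↔ ∃ m, (v, m) ∈ Φ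
  ran : ∀ m, ∃ v, (v, m) ∈ Φ
  kl : ∀ v, (v, (0 : M)) ∈ Φ ↔ v ∈ B
  kr : ∀ m, ((0 : U), m) ∈ Φ ↔ ∃ m', m = (p : O) • m'

/-- the Tate group of degree `i` of `V` is `M / p M` as a module for the normaliser -/
structure Tie (p : ℕ) (Q : Subgroup X) (V : Lat O X) (M : Lat O (Nz Q)) (i : Bool)
    (Φ : Submodule O (V.V × M.V)) : Prop where
  gr : Gr p (V.A Q i) (V.B Q i) Φ
  st : ∀ (n : Nz Q) v m, (v, m) ∈ Φ → (V.ρ (n : X) v, M.ρ n m) ∈ Φ

/-- `V` is irreducible of type `(M, i)` -/
structure Typ (p : ℕ) (Q : Subgroup X) (V : Lat O X) (M : Lat O (Nz Q)) (i : Bool)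
    (Φ : Submodule O (V.V × M.V)) : Prop where
  irr : V.Ir
  mirr : M.Ir
  triv : M.Triv (Q.subgroupOf (Nz Q))
  tie : Tie p Q V M i Φ
  zero : V.Z Q (!i)

/-- the sign of a degree -/
def sg (R : Type) [Ring R] : Bool → R
  | false => 1
  | true => -1

/-- Higman's criterion, taken as the definition of a projective lattice -/
def Lat.Hig (P : Lat O X) : Prop :=
  ∃ h : Module.End O P.V, ∑ᶠ x : X, P.ρ x * h * P.ρ x⁻¹ = 1

/-- short exact sequence of lattices -/
structure Ses (W P V : Lat O X) (j : W.V →ₗ[O] P.V) (q : P.V →ₗ[O] V.V) : Prop where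
  hj : W.Hom P j
  hq : P.Hom V q
  inj : Function.Injective j
  sur : Function.Surjective q
  ex : LinearMap.range j = LinearMap.ker q

/-- minimal surjection -/
def Mini (P V : Lat O X) (q : P.V →ₗ[O] V.V) : Prop :=
  ∀ f : Module.End O P.V, P.Hom P f → (∀ v, q (f v) = q v) → Function.Bijective f

/-- the lift of the action of the normaliser on `Q` -/
structure Omg (p : ℕ) (Q : Subgroup X) (ω : Nz Q →* Oˣ) : Prop where
  cong : ∀ (n : Nz Q) (g : X) (j : ℕ), g ∈ Q → g ≠ 1 → (n : X) * g * (n : X)⁻¹ = g ^ j →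
    (p : O) ∣ (ω n : O) - j
  pow : ∀ n, ω n ^ (p - 1) = 1

/-- semilinear isomorphism over an automorphism of the group -/
structure Semi (σ : O ≃+* O) (a : X ≃* X) (V W : Lat O X) (G : V.V ≃+ W.V) : Prop where
  smul : ∀ (c : O) v, G (c • v) = σ c • G v
  act : ∀ x v, G (V.ρ x v) = W.ρ (a x) (G v)

/-- `b` is the restriction of `a` to the normaliser and `a` preserves `Q` -/
structure Res (Q : Subgroup X) (a : X ≃* X) (b : Nz Q ≃* Nz Q) : Prop where
  mem : ∀ x, a x ∈ Q ↔ x ∈ Q
  coe : ∀ n : Nz Q, (b n : X) = a (n : X)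

/-- normalised intertwiner -/
structure NL (p : ℕ) (V : Lat O X) (a : X ≃* X) (w : Module.End O V.V) : Prop where
  act : ∀ x v, w (V.ρ x v) = V.ρ (a x) (w v)
  det : Mup p (LinearMap.det w)

/-- linked pair of normalised intertwiners -/
structure U0 (p : ℕ) (Q : Subgroup X) (V : Lat O X) (M : Lat O (Nz Q))
    (Φ : Submodule O (V.V × M.V)) (a : X ≃* X) (b : Nz Q ≃* Nz Q)
    (w : Module.End O V.V) (w' : Module.End O M.V) : Prop where
  l : NL p V a w
  r : NL p M b w'
  st : ∀ v m, (v, m) ∈ Φ → (w v, w' m) ∈ Φ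

/-- all equivariant endomorphisms are scalars -/
def Lat.Sca (V : Lat O X) : Prop :=
  ∀ f : Module.End O V.V, V.Hom V f → ∃ c : O, f = c • (1 : Module.End O V.V)

section
variable (F : Type) [Field F] [Algebra O F]

/-- the character on coefficient functions -/
noncomputable def Lat.chF (V : Lat O X) (a : X → F) : F :=
  ∑ᶠ x : X, a x * algebraMap O F (V.ch x)

/-- the coefficient function `a` acts on the lattice as the endomorphism `w` -/
def Lat.Acts (V : Lat O X) (a : X → F) (w : Module.End O V.V) : Prop :=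
  ∀ (l : V.V →ₗ[O] O) (v : V.V),
    ∑ᶠ x : X, a x * algebraMap O F (l (V.ρ x v)) = algebraMap O F (l (w v))

/-- `e` has the coefficients of the idempotent of the character of `V` -/
def Lat.Idem (V : Lat O X) (e : X → F) : Prop :=
  ∀ x, (Nat.card X : F) * e x = (V.rk : F) * algebraMap O F (V.ch x⁻¹)

end

/-- the coefficients along a homomorphism -/
def cf {F : Type} [Field F] (ι : Y →* X) (a : MonoidAlgebra F X) : Y → F :=
  fun y => a.coeff (ι y)

section
variable {F : Type} [Field F]

/-- the blocks that are alive on a lattice -/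
def Sup {O : Subring F} (V : Lat O X) : Set (MonoidAlgebra F X) :=
  {e | e ∈ Irr F (HX F (⊤ : Subgroup X)) ∧ V.chF F (cf (MonoidHom.id X) e) ≠ 0}

/-- the set `v` of blocks is the support of an irreducible lattice of type `(e', i)` -/
def Ty (p : ℕ) (O : Subring F) (Q : Subgroup X) (v : Set (MonoidAlgebra F X))
    (e' : MonoidAlgebra F X) (i : Bool) : Prop :=
  ∃ (V : Lat O X) (M : Lat O (Nz Q)) (Φ : Submodule O (V.V × M.V)), Typ p Q V M i Φ ∧
    e' ∈ Irr F (HX F (Nz Q)) ∧ M.Idem F (cf (Nz Q).subtype e') ∧ v = Sup V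

end

end Pool.Agent.Lib.MP_1ae3da_al.CT.R5
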