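import Pool.Agent.Lib.MP_1ae3da_al.C.RLDef

set_option autoImplicit false

/-! Matrix models of lattices inside the group algebra over the big field: definitions. -/

namespace Pool.Agent.Lib.MP_1ae3da_al.CT.R5

variable {F X Y : Type} [Field F] [Group X] [Group Y] {O : Subring F}

/-- the matrix over the big field -/
noncomputable def mF {U : Type} [AddCommGroup U] [Module O U] {n : ℕ}
    (b : Module.Basis (Fin n) O U) (w : Module.End O U) : Matrix (Fin n) (Fin n) F :=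
  (LinearMap.toMatrix b b w).map fun c => (c : F)

/-- `ρ` is the matrix representation of the group algebra of `H` given by the lattice `V` -/
structure MR (H : Subgroup X) (ι : Y →* X) (V : Lat O Y) {n : ℕ}
    (b : Module.Basis (Fin n) O V.V)
    (ρ : MonoidAlgebra F X →ₗ[F] Matrix (Fin n) (Fin n) F) : Prop where
  inj : Function.Injective ι
  ran : ι.range = H
  val : ∀ y, ρ (gu F X (ι y)) = mF b (V.ρ y)

/-- the data for a link -/
structure LC (p : ℕ) (Q : Subgroup X) (e ψ : MonoidAlgebra F X) (V : Lat O X)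
    (M : Lat O (Nz Q)) (i : Bool) (Φ : Submodule O (V.V × M.V)) {n n' : ℕ}
    (b : Module.Basis (Fin n) O V.V) (b' : Module.Basis (Fin n') O M.V)
    (ρ : MonoidAlgebra F X →ₗ[F] Matrix (Fin n) (Fin n) F)
    (ρ' : MonoidAlgebra F X →ₗ[F] Matrix (Fin n') (Fin n') F) : Prop where
  typ : Typ p Q V M i Φ
  sca : V.Sca
  nrk : ¬ p ∣ V.rk
  ie : e ∈ Irr F (HX F (⊤ : Subgroup X))
  ip : ψ ∈ Irr F (HX F (Nz Q))
  idm : M.Idem F (cf (Nz Q).subtype ψ)
  mr : MR ⊤ (MonoidHom.id X) V b ρ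
  mr' : MR (Nz Q) (Nz Q).subtype M b' ρ'
  mm : MM F (HX F (⊤ : Subgroup X)) e ρ
  mm' : MM F (HX F (Nz Q)) ψ ρ'

/-- the link -/
def UL (p : ℕ) (GG : Subgroup (RingAut F)) (Q : Subgroup X) (e ψ : MonoidAlgebra F X)
    (V : Lat O X) (M : Lat O (Nz Q)) (Φ : Submodule O (V.V × M.V)) {n n' : ℕ}
    (b : Module.Basis (Fin n) O V.V) (b' : Module.Basis (Fin n') O M.V)
    (ρ : MonoidAlgebra F X →ₗ[F] Matrix (Fin n) (Fin n) F)
    (ρ' : MonoidAlgebra F X →ₗ[F] Matrix (Fin n') (Fin n') F)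
    (a : RingAut (MonoidAlgebra F X)) (w w' : MonoidAlgebra F X) : Prop :=
  a ∈ Gm GG Q ⊓ Fx e ⊓ Fx ψ ∧ Lin F a ∧ w * e = w ∧
    w' ∈ Submodule.span F (HX F (Nz Q)) ∧ w' * ψ = w' ∧
    ∃ (α : X ≃* X) (β : Nz Q ≃* Nz Q), Res Q α β ∧ (∀ x, a (gu F X x) = gu F X (α x)) ∧
      ∃ (c : F) (w0 : Module.End O V.V) (w0' : Module.End O M.V), c ≠ 0 ∧
        U0 p Q V M Φ α β w0 w0' ∧ ρ w = c • mF b w0 ∧ ρ' w' = c • mF b' w0'

end Pool.Agent.Lib.MP_1ae3da_al.CT.R5
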