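import Pool.Agent.Lib.MP_1ae3da_al.C.RLBas

set_option autoImplicit false
set_option linter.unusedSectionVars false

namespace Pool.Agent.Lib.MP_1ae3da_al.CT.R5

open Function

variable {O X Y : Type} [CommRing O] [IsDomain O] [IsDiscreteValuationRing O] [CharZero O]
  [Group X] [Finite X] [Group Y] [Finite Y] {p : ℕ} {Q : Subgroup X}

theorem rlh_nd (hp : p.Prime) {a b : ℕ} (ha : ¬ p ∣ a) (hb : ¬ p ∣ b) : ¬ p ∣ a * b :=
  fun h => (hp.dvd_mul.1 h).elim ha hb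

theorem rlh_ne {m : ℕ} (hm : ¬ p ∣ m) : m ≠ 0 := fun h => hm (h ▸ dvd_zero p)

theorem rlh_pred (hp : p.Prime) : ¬ p ∣ p - 1 :=
  Nat.not_dvd_of_pos_of_lt (Nat.sub_pos_of_lt hp.one_lt) (Nat.sub_lt hp.pos one_pos)

theorem rlh_mod {a b : ℕ} (h : a ≡ b [MOD p]) : (p : O) ∣ (a : O) - b := by
  simpa using map_dvd (Int.castRingHom O) (Nat.modEq_iff_dvd.1 h.symm)

theorem mup_mul {R : Type} [CommMonoid R] (hp : p.Prime) {u v : R} (hu : Mup p u)
    (hv : Mup p v) : Mup p (u * v) := by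
  obtain ⟨a, ha, h⟩ := hu
  obtain ⟨b, hb, k⟩ := hv
  exact ⟨a * b, rlh_nd hp ha hb, by rw [mul_pow, pow_mul, h, pow_mul' v, k, one_pow, one_pow, mul_one]⟩

theorem mup_of_pow {R : Type} [Monoid R] (hp : p.Prime) {u : R} {n : ℕ} (hn : ¬ p ∣ n)
    (h : Mup p (u ^ n)) : Mup p u := by
  obtain ⟨a, ha, h⟩ := h
  exact ⟨n * a, rlh_nd hp hn ha, by rw [pow_mul, h]⟩

theorem mup_unit {R : Type} [Monoid R] {u : R} (h : Mup p u) : IsUnit u := by
  obtain ⟨a, ha, h⟩ := h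
  exact IsUnit.of_pow_eq_one h (rlh_ne ha)

theorem mup_cancel {R : Type} [CommMonoid R] (hp : p.Prime) {u v : R} (hv : Mup p v)
    (h : Mup p (u * v)) : Mup p u := by
  obtain ⟨a, ha, h⟩ := h
  obtain ⟨b, hb, k⟩ := hv
  refine ⟨a * b, rlh_nd hp ha hb, ?_⟩
  have l : (u * v) ^ (a * b) = 1 := by rw [pow_mul, h, one_pow]
  rwa [mul_pow, pow_mul' v, k, one_pow, mul_one] at l

theorem mup_map {R S : Type} [Monoid R] [Monoid S] (f : R →* S) {u : R} (h : Mup p u) :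
    Mup p (f u) := by
  obtain ⟨a, ha, h⟩ := h
  exact ⟨a, ha, by rw [← map_pow, h, map_one]⟩

theorem Wt.rlh_hen (hW : Wt p O) {m : ℕ} (hm : ¬ p ∣ m) {u a : O} (ha : IsUnit a)
    (h : (p : O) ∣ a ^ m - u) : ∃ c : O, (p : O) ∣ c - a ∧ c ^ m = u := by
  have := hW.cpl
  obtain ⟨c, h1, h2⟩ := HenselianRing.is_henselian (I := Ideal.span {(p : O)})
    (Polynomial.X ^ m - Polynomial.C u) (Polynomial.monic_X_pow_sub_C u (rlh_ne hm)) a
    (Ideal.mem_span_singleton.2 (by simpa using h))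
    (IsUnit.map _ (by simpa [Polynomial.derivative_X_pow] using (hW.unit hm).mul (ha.pow (m - 1))))
  exact ⟨c, Ideal.mem_span_singleton.1 h2, by simpa [sub_eq_zero] using h1⟩

theorem Wt.root (hW : Wt p O) {m : ℕ} (hm : ¬ p ∣ m) {u : O} (hu : (p : O) ∣ u - 1) :
    ∃ c : O, (p : O) ∣ c - 1 ∧ c ^ m = u :=
  hW.rlh_hen hm isUnit_one (by rw [one_pow]; exact dvd_sub_comm.1 hu)

theorem Wt.mu_inj (hW : Wt p O) {u v : O} (hu : Mup p u) (hv : Mup p v)
    (h : (p : O) ∣ u - v) : u = v := by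
  have hv' := mup_unit hv
  obtain ⟨a, ha, h1⟩ := hu
  obtain ⟨b, hb, h2⟩ := hv
  have k := geom_sum₂_mul u v (a * b)
  rw [pow_mul, h1, pow_mul' v, h2, one_pow, one_pow, sub_self] at k
  refine sub_eq_zero.1 ((mul_eq_zero.1 k).resolve_left fun l => ?_)
  exact (hW.unit_iff _).1 ((hW.unit (rlh_nd hW.prime ha hb)).mul (hv'.pow _))
    ((dvd_geom_sum₂_iff_of_dvd_sub h).1 (l ▸ dvd_zero _))

theorem Wt.prim (hW : Wt p O) {m : ℕ} (hm : ¬ p ∣ m) : ∃ ζ : O, IsPrimitiveRoot ζ m := by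
  have : (Ideal.span {(p : O)}).IsPrime :=
    (Ideal.span_singleton_prime hW.irr.ne_zero).2 hW.irr.prime
  have : NeZero (m : O ⧸ Ideal.span {(p : O)}) := ⟨by
    simpa using ((hW.unit hm).map (Ideal.Quotient.mk (Ideal.span {(p : O)}))).ne_zero⟩
  obtain ⟨c, hc⟩ := hW.alg (Polynomial.cyclotomic m O) (Polynomial.cyclotomic.monic m O) (by
    rw [Polynomial.natDegree_cyclotomic]
    exact Nat.totient_pos.2 (Nat.pos_of_ne_zero (rlh_ne hm)))
  have k : IsPrimitiveRoot (Ideal.Quotient.mk (Ideal.span {(p : O)}) c) m := by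
    rw [← Polynomial.isRoot_cyclotomic_iff, ← Polynomial.map_cyclotomic m (Ideal.Quotient.mk _),
      Polynomial.IsRoot, Polynomial.eval_map, Polynomial.eval₂_hom, Ideal.Quotient.eq_zero_iff_mem]
    exact Ideal.mem_span_singleton.2 hc
  have l : (p : O) ∣ c ^ m - 1 := Ideal.mem_span_singleton.1
    (Ideal.Quotient.eq.1 (by rw [map_pow, k.pow_eq_one, map_one]))
  obtain ⟨ζ, h1, h2⟩ := hW.rlh_hen hm ((hW.unit_iff c).2 fun d => hW.irr.not_isUnit
    (isUnit_of_dvd_one (by simpa using dvd_sub (dvd_pow d (rlh_ne hm)) l))) l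
  refine ⟨ζ, h2, fun n hn => k.dvd_of_pow_eq_one n ?_⟩
  rw [← Ideal.Quotient.eq.2 (Ideal.mem_span_singleton.2 h1), ← map_pow, hn, map_one]

theorem Wt.normalise (hW : Wt p O) {n : ℕ} (hn : ¬ p ∣ n) {d : O} (hd : IsUnit d) :
    ∃ c : O, (p : O) ∣ c - 1 ∧ Mup p (c ^ n * d) := by
  obtain ⟨m, hm, h⟩ := hW.tor d hd
  obtain ⟨d', e⟩ := hd.exists_left_inv
  have k : d' ^ m * d ^ m = 1 := by rw [← mul_pow, e, one_pow]
  obtain ⟨c, h1, h2⟩ := hW.root (rlh_nd hW.prime hn hm) (u := d' ^ m) (by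
    rw [← k, ← mul_one_sub]
    exact (dvd_sub_comm.1 h).mul_left _)
  exact ⟨c, h1, m, hm, by rw [mul_pow, ← pow_mul, h2, k]⟩

theorem exists_om (hW : Wt p O) (h : Nat.card Q = p) : ∃ ω : Nz Q →* Oˣ, Omg p Q ω := by
  have : Fact p.Prime := ⟨hW.prime⟩
  obtain ⟨ν, hν, -⟩ := rg_nu h
  have key : ∀ t : (ZMod p)ˣ, ∃ c : O, (p : O) ∣ c - ((t : ZMod p).val : O) ∧ c ^ (p - 1) = 1 :=
    fun t => hW.rlh_hen (rlh_pred hW.prime)
      (hW.unit (hW.prime.coprime_iff_not_dvd.1 (ZMod.val_coe_unit_coprime t).symm)) (by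
        have := rlh_mod (O := O) ((ZMod.natCast_eq_natCast_iff ((t : ZMod p).val ^ (p - 1)) 1 p).1 (by
          rw [Nat.cast_pow, ZMod.natCast_zmod_val, ← Units.val_pow_eq_pow_val,
            ZMod.units_pow_card_sub_one_eq_one, Units.val_one, Nat.cast_one]))
        simpa using this)
  choose c h1 h2 using key
  have m : ∀ t, Mup p (c t) := fun t => ⟨_, rlh_pred hW.prime, h2 t⟩
  let f : (ZMod p)ˣ →* Oˣ := MonoidHom.mk' (fun t => (mup_unit (m t)).unit) fun s t =>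
    Units.ext (hW.mu_inj (m _) (mup_mul hW.prime (m s) (m t)) (by
      have a := rlh_mod (O := O) (a := ((s * t : (ZMod p)ˣ) : ZMod p).val)
        (b := (s : ZMod p).val * (t : ZMod p).val) (by
          rw [Units.val_mul, ZMod.val_mul]; exact Nat.mod_modEq _ _)
      have b := dvd_sub (dvd_sub (dvd_add (h1 (s * t)) a) ((h1 s).mul_right (c t)))
        ((h1 t).mul_left ((s : ZMod p).val : O))
      change (p : O) ∣ c (s * t) - c s * c t
      convert b using 1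
      push_cast
      ring))
  refine ⟨f.comp ν, fun n g j hg g1 e => ?_, fun n => Units.ext (h2 _)⟩
  rw [hν n g hg, pow_eq_pow_iff_modEq, rg_order h hg g1] at e
  change (p : O) ∣ c (ν n) - j
  simpa using dvd_add (h1 (ν n)) (rlh_mod (O := O) e)

theorem Omg.rlh_mup (hW : Wt p O) {ω : Nz Q →* Oˣ} (hω : Omg p Q ω) (n : Nz Q) :
    Mup p (ω n : O) := ⟨_, rlh_pred hW.prime, congrArg Units.val (hω.pow n)⟩

theorem Omg.eq_one_iff (hW : Wt p O) (h : Nat.card Q = p) {ω : Nz Q →* Oˣ} (hω : Omg p Q ω)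
    (n : Nz Q) : ω n = 1 ↔ ∀ g ∈ Q, (n : X) * g = g * n := by
  have : Fact p.Prime := ⟨hW.prime⟩
  refine ⟨fun e g hg => ?_, fun k => ?_⟩
  · by_cases g1 : g = 1
    · rw [g1, mul_one, one_mul]
    obtain ⟨j, hj, l⟩ := rg_gen h hg g1 ((Subgroup.mem_normalizer_iff.1 n.2 g).1 hg)
    have k := hω.cong n g j hg g1 l
    rw [e] at k
    rcases j with _ | j
    · exact (hW.irr.not_isUnit (isUnit_of_dvd_one (by simpa using k))).elim
    · obtain rfl := Nat.eq_zero_of_dvd_of_lt (hW.dvd_nat (n := j) (by simpa using k)) (by omega)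
      rwa [zero_add, pow_one, mul_inv_eq_iff_eq_mul] at l
  · obtain ⟨g, hg, g1⟩ := rg_exists h
    exact Units.ext (hW.mu_inj (hω.rlh_mup hW n) ⟨_, rlh_pred hW.prime, one_pow _⟩ (by
      simpa using hω.cong n g 1 hg g1 (by rw [k g hg, mul_inv_cancel_right, pow_one])))

theorem Omg.on_Q (hW : Wt p O) (h : Nat.card Q = p) {ω : Nz Q →* Oˣ} (hω : Omg p Q ω)
    (n : Nz Q) (hn : (n : X) ∈ Q) : ω n = 1 :=
  have : Fact p.Prime := ⟨hW.prime⟩
  (hω.eq_one_iff hW h n).2 fun g hg => (Subgroup.mem_centralizer_iff.1 (rg_le h hn) g hg).symm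

theorem Omg.aut (hW : Wt p O) (h : Nat.card Q = p) {ω : Nz Q →* Oˣ} (hω : Omg p Q ω)
    {a : X ≃* X} {b : Nz Q ≃* Nz Q} (hr : Res Q a b) (n : Nz Q) : ω (b n) = ω n := by
  have : Fact p.Prime := ⟨hW.prime⟩
  obtain ⟨g, hg, g1⟩ := rg_exists h
  obtain ⟨j, -, l⟩ := rg_gen h hg g1 ((Subgroup.mem_normalizer_iff.1 n.2 g).1 hg)
  have k := hω.cong (b n) (a g) j ((hr.mem g).2 hg) (by simpa using g1) (by
    rw [hr.coe, ← map_inv, ← map_mul, ← map_mul, l, map_pow])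
  exact Units.ext (hW.mu_inj (hω.rlh_mup hW _) (hω.rlh_mup hW _) (by
    simpa using dvd_sub k (hω.cong n g j hg g1 l)))

theorem Omg.fix (hW : Wt p O) (h : Nat.card Q = p) {ω : Nz Q →* Oˣ} (hω : Omg p Q ω)
    (σ : O ≃+* O) (n : Nz Q) : σ (ω n : O) = ω n := by
  have : Fact p.Prime := ⟨hW.prime⟩
  obtain ⟨g, hg, g1⟩ := rg_exists h
  obtain ⟨j, -, l⟩ := rg_gen h hg g1 ((Subgroup.mem_normalizer_iff.1 n.2 g).1 hg)
  have k := hω.cong n g j hg g1 l
  have k' := map_dvd σ k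
  rw [map_sub, map_natCast, map_natCast] at k'
  exact hW.mu_inj (mup_map (σ : O →* O) (hω.rlh_mup hW n)) (hω.rlh_mup hW n) (by
    simpa using dvd_sub k' k)

theorem exists_res (a : X ≃* X) (ha : ∀ x, a x ∈ Q ↔ x ∈ Q) : ∃ b, Res Q a b := by
  have k : ∀ x, x ∈ Nz Q ↔ a x ∈ Nz Q := fun x => by
    refine (a.surjective.forall.trans (forall_congr' fun y => iff_congr (ha y) ?_)).symm
    rw [← map_inv, ← map_mul, ← map_mul]
    exact ha _
  exact ⟨{ Equiv.subtypeEquiv a.toEquiv k with map_mul' := fun x y => Subtype.ext (map_mul a _ _) },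
    ha, fun _ => rfl⟩

end Pool.Agent.Lib.MP_1ae3da_al.CT.R5
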