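import Pool.Agent.Lib.MP_1ae3da_al.C.RLDef

set_option autoImplicit false
set_option linter.unusedSectionVars false

namespace Pool.Agent.Lib.MP_1ae3da_al.CT.R5

open Function

variable {O X Y : Type} [CommRing O] [IsDomain O] [IsDiscreteValuationRing O] [CharZero O]
  [Group X] [Finite X] [Group Y] [Finite Y] {p : ℕ} {Q : Subgroup X}

/-- the averaging operator on linear maps -/
noncomputable def rlnP [Fintype X] (V W : Lat O X) : Module.End O (V.V →ₗ[O] W.V) :=
  ∑ x : X, (dualTensorHomEquiv O V.V W.V).conj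
    (TensorProduct.map (Module.Dual.transpose (V.ρ x⁻¹)) (W.ρ x))

theorem rln_app [Fintype X] (V W : Lat O X) (f : V.V →ₗ[O] W.V) (v : V.V) :
    rlnP V W f v = ∑ x : X, W.ρ x (f (V.ρ x⁻¹ v)) := by
  obtain ⟨t, rfl⟩ := (dualTensorHomEquiv O V.V W.V).surjective f
  simp only [rlnP, LinearMap.sum_apply, LinearEquiv.conj_apply_apply, LinearEquiv.symm_apply_apply]
  refine Finset.sum_congr rfl fun x _ => ?_
  induction t with
  | zero => simp
  | tmul l w => simp [Module.Dual.transpose_apply]
  | add a b h k => simp only [map_add, LinearMap.add_apply, h, k]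

theorem rln_tr [Fintype X] (V W : Lat O X) :
    LinearMap.trace O _ (rlnP V W) = ∑ x : X, V.ch x⁻¹ * W.ch x := by
  rw [rlnP, map_sum]
  refine Finset.sum_congr rfl fun x _ => (LinearMap.trace_conj' (R := O)
    (M := TensorProduct O (Module.Dual O V.V) W.V) (N := V.V →ₗ[O] W.V) _ _).trans ?_
  rw [LinearMap.trace_tensorProduct', LinearMap.trace_transpose']
  rfl

theorem rln_hom [Fintype X] (V W : Lat O X) (f : V.V →ₗ[O] W.V) : V.Hom W (rlnP V W f) :=
  fun y v => by
    rw [rln_app, rln_app, map_sum, ← Equiv.sum_comp (Equiv.mulLeft y)]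
    refine Finset.sum_congr rfl fun x _ => ?_
    simp only [Equiv.coe_mulLeft, mul_inv_rev, ← Module.End.mul_apply, ← map_mul,
      inv_mul_cancel_right]

theorem rln_fix [Fintype X] {V W : Lat O X} {f : V.V →ₗ[O] W.V} (h : V.Hom W f) :
    rlnP V W f = (Nat.card X : O) • f := LinearMap.ext fun v => by
  rw [rln_app]
  simp [← h _ _, ← Module.End.mul_apply, ← map_mul, Nat.cast_smul_eq_nsmul]

theorem rln_sca [Fintype X] {V : Lat O X} (h : V.Sca) (f : Module.End O V.V) :
    (V.rk : O) • rlnP V V f = ((Nat.card X : O) * LinearMap.trace O V.V f) • 1 := by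
  obtain ⟨c, e⟩ := h _ (rln_hom V V f)
  have k : rlnP V V f = ∑ x : X, V.ρ x * (f * V.ρ x⁻¹) :=
    LinearMap.ext fun v => by rw [rln_app, LinearMap.sum_apply]; rfl
  have t := congrArg (LinearMap.trace O V.V) (e.symm.trans k)
  simp only [map_smul, map_sum, LinearMap.trace_one, LinearMap.trace_mul_comm O (V.ρ _), mul_assoc,
    ← map_mul, inv_mul_cancel, map_one, mul_one, Finset.sum_const, Finset.card_univ,
    smul_eq_mul, nsmul_eq_mul] at t
  rw [e, smul_smul, mul_comm, t, Nat.card_eq_fintype_card]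

theorem Lat.Sca.fi {V : Lat O X} (h : V.Sca) (w : Module.End O V.V) :
    (V.rk : O) • ∑ᶠ x : X, LinearMap.trace O V.V (w * V.ρ x⁻¹) • V.ρ x =
      (Nat.card X : O) • w := by
  have := Fintype.ofFinite X
  rw [finsum_eq_sum_of_fintype]
  obtain ⟨t, rfl⟩ := (dualTensorHomEquiv O V.V V.V).surjective w
  induction t with
  | zero => simp
  | add a b k l => simp only [map_add, add_mul, add_smul, Finset.sum_add_distrib, smul_add, k, l]
  | tmul l u =>
    refine LinearMap.ext fun v => ?_
    have := LinearMap.congr_fun (rln_sca h (l.smulRight v)) u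
    rw [LinearMap.smul_apply, rln_app, LinearMap.trace_smulRight] at this
    have e (x : X) : dualTensorHomEquiv O V.V V.V (l ⊗ₜ u) * V.ρ x⁻¹ =
        (l ∘ₗ V.ρ x⁻¹).smulRight u := LinearMap.ext fun _ => by simp
    simp only [e, LinearMap.trace_smulRight]
    simpa [LinearMap.sum_apply, mul_smul] using this

theorem Lat.Sca.norm {V : Lat O X} (h : V.Sca) (hn : Nontrivial V.V) :
    ∑ᶠ x : X, V.ch x * V.ch x⁻¹ = (Nat.card X : O) := by
  have := Fintype.ofFinite X
  have t := congrArg (LinearMap.trace O V.V) (h.fi 1)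
  rw [finsum_eq_sum_of_fintype] at t ⊢
  simp only [map_smul, map_sum, one_mul, smul_eq_mul, LinearMap.trace_one] at t
  refine mul_left_cancel₀ (Nat.cast_ne_zero.2 (Module.finrank_pos (R := O) (M := V.V)).ne') ?_
  rw [mul_comm _ (Nat.card X : O), ← t]
  simp only [Lat.ch, mul_comm]

theorem sca_of_norm {V : Lat O X} (h : ∑ᶠ x : X, V.ch x * V.ch x⁻¹ = (Nat.card X : O)) :
    V.Sca := by
  have := Fintype.ofFinite X
  let E : Submodule O (Module.End O V.V) :=
    { carrier := {f | V.Hom V f}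
      add_mem' := fun a b x v => by simp [a x v, b x v]
      zero_mem' := fun x v => by simp
      smul_mem' := fun c _ a x v => by simp [a x v] }
  have t := rln_tr V V
  rw [← LinearMap.subtype_comp_codRestrict (rlnP V V) E (rln_hom V V), LinearMap.trace_comp_comm',
    show (rlnP V V).codRestrict E (rln_hom V V) ∘ₗ E.subtype = (Nat.card X : O) • LinearMap.id from
      LinearMap.ext fun f => Subtype.ext (rln_fix f.2), map_smul, LinearMap.trace_id,
    smul_eq_mul] at t
  rw [finsum_eq_sum_of_fintype] at h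
  simp only [mul_comm (V.ch _⁻¹), h] at t
  have r : Module.finrank O E = 1 := Nat.cast_eq_one.1
    ((mul_eq_left₀ (Nat.cast_ne_zero.2 Nat.card_pos.ne')).1 t)
  obtain ⟨e, e0, he⟩ := finrank_eq_one_iff'.1 r
  obtain ⟨c, hc⟩ := he ⟨1, fun _ _ => rfl⟩
  have : Nontrivial V.V := by
    by_contra n
    rw [not_nontrivial_iff_subsingleton] at n
    exact e0 (Subsingleton.elim _ _)
  let b := Module.Free.chooseBasis O V.V
  obtain ⟨i⟩ := b.index_nonempty
  have u : c * b.repr (e.1 (b i)) i = 1 := by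
    simpa using congrArg (fun f : E => b.repr (f.1 (b i)) i) hc
  intro f hf
  obtain ⟨d, hd⟩ := he ⟨f, hf⟩
  refine ⟨d * b.repr (e.1 (b i)) i, ?_⟩
  rw [← show c • e.1 = 1 from congrArg Subtype.val hc, smul_smul, mul_assoc, mul_comm _ c, u,
    mul_one]
  exact (congrArg Subtype.val hd).symm

theorem hom_of_pair {V W : Lat O X} (h : ∑ᶠ x : X, V.ch x⁻¹ * W.ch x ≠ 0) :
    ∃ f : V.V →ₗ[O] W.V, V.Hom W f ∧ f ≠ 0 := by
  have := Fintype.ofFinite X
  rw [finsum_eq_sum_of_fintype, ← rln_tr] at h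
  by_contra c
  refine h (by rw [show rlnP V W = 0 from LinearMap.ext fun f => by_contra fun z =>
    c ⟨_, rln_hom V W f, z⟩, map_zero])

end Pool.Agent.Lib.MP_1ae3da_al.CT.R5
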