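import Pool.Agent.Lib.MP_1ae3da_al.C.RLMR
import Pool.Agent.Lib.MP_1ae3da_al.C.RLNorm
import Pool.Agent.Lib.MP_1ae3da_al.C.RLSub
import Pool.Agent.Lib.MP_1ae3da_al.C.TE

set_option autoImplicit false
set_option linter.unusedSectionVars false

namespace Pool.Agent.Lib.MP_1ae3da_al.CT.R5

open Function Submodule

variable {F k X Y : Type} [Field F] [CharZero F] [IsAlgClosed F] [Field k] [Group X] [Finite X]
  [Group Y] [Finite Y] {p : ℕ} {O R : Subring F} [IsDiscreteValuationRing O] {r : F → k}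
  {GG : Subgroup (RingAut F)} {Q H : Subgroup X} {ι : Y →* X} {n n' : ℕ}
  {ρ : MonoidAlgebra F X →ₗ[F] Matrix (Fin n) (Fin n) F}
  {ρ' : MonoidAlgebra F X →ₗ[F] Matrix (Fin n') (Fin n') F}
  {σ : RingAut F} {γ : RingAut (MonoidAlgebra F X)} {a a' e ψ : MonoidAlgebra F X}

variable {V : Lat O Y} {b : Module.Basis (Fin n) O V.V}

theorem rlmm_mem (hH : ι.range = H) (y : Y) : gu F X (ι y) ∈ span F (HX F H) :=
  subset_span (aga_mem.2 (hH ▸ ⟨y, rfl⟩))

theorem rlmm_one : (1 : MonoidAlgebra F X) ∈ span F (HX F H) :=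
  subset_span (gu_one (F := F) (X := X) ▸ aga_mem.2 H.one_mem)

theorem rlmm_card (Y : Type) [Group Y] [Finite Y] : (Nat.card Y : F) ≠ 0 :=
  Nat.cast_ne_zero.2 Nat.card_pos.ne'

theorem rlmm_l (x y : X) (a : MonoidAlgebra F X) : (gu F X x * a).coeff y = a.coeff (x⁻¹ * y) := by
  rw [gu, MonoidAlgebra.coeff_single_mul_apply, one_mul]

theorem rlmm_r (x y : X) (a : MonoidAlgebra F X) : (a * gu F X x).coeff y = a.coeff (y * x⁻¹) := by
  rw [gu, MonoidAlgebra.coeff_mul_single_apply, mul_one]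

theorem rlmm_fi [Fintype Y] (hS : V.Sca) (w : Module.End O V.V) :
    (V.rk : F) • ∑ y : Y, ((LinearMap.trace O V.V (w * V.ρ y⁻¹) : O) : F) • mF b (V.ρ y) =
      (Nat.card Y : F) • mF b w := by
  have k := congrArg (mF b) (hS.fi w)
  rw [finsum_eq_sum_of_fintype, mF_smul, mF_smul, mF_sum] at k
  simpa only [mF_smul, SubringClass.coe_natCast] using k

theorem rlmm_co (h : MR H ι V b ρ) (hi : V.Idem F (cf ι e)) (ha : a ∈ span F (HX F H)) (y : Y) :
    (Nat.card Y : F) * (a * e).coeff (ι y) = V.rk * (mF b (V.ρ y⁻¹) * ρ a).trace := by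
  let f : MonoidAlgebra F X →ₗ[F] F :=
    { toFun := fun a => (Nat.card Y : F) * (a * e).coeff (ι y)
      map_add' := fun a b => by simp [add_mul, mul_add]
      map_smul' := fun c a => by simp [mul_left_comm] }
  let g : MonoidAlgebra F X →ₗ[F] F :=
    { toFun := fun a => V.rk * (mF b (V.ρ y⁻¹) * ρ a).trace
      map_add' := fun a b => by simp [mul_add]
      map_smul' := fun c a => by simp [mul_left_comm] }
  refine ta_ext (f := f) (g := g) (fun x hx => ?_) ha
  obtain ⟨z, rfl⟩ : x ∈ ι.range := h.ran ▸ hx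
  change (Nat.card Y : F) * (gu F X (ι z) * e).coeff (ι y) =
    V.rk * (mF b (V.ρ y⁻¹) * ρ (gu F X (ι z))).trace
  rw [rlmm_l, ← map_inv, ← map_mul, h.val, ← mF_mul, ← map_mul, mF_trace]
  refine (hi (z⁻¹ * y)).trans ?_
  rw [mul_inv_rev, inv_inv]
  rfl

theorem MR.mm (h : MR H ι V b ρ) (hS : V.Sca) (hn : Nontrivial V.V) (he : e ∈ span F (HX F H))
    (hi : V.Idem F (cf ι e)) : e ∈ Irr F (HX F H) ∧ MM F (HX F H) e ρ := by
  have := Fintype.ofFinite Y
  have N := rlmm_card (F := F) Y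
  have pos : 0 < n := h.rk ▸ Module.finrank_pos
  have sur (m) : ∃ a ∈ span F (HX F H), ρ a = m := by
    have k : span F (Set.range (mF b)) ≤ (span F (HX F H)).map ρ := span_le.2 (by
      rintro _ ⟨w, rfl⟩
      rw [← inv_smul_smul₀ N (mF b w), ← rlmm_fi hS]
      exact smul_mem _ _ (smul_mem _ _ (sum_mem fun y _ => smul_mem _ _
        ⟨_, rlmm_mem h.ran y, h.val y⟩)))
    exact k (by rw [mF_span]; trivial)
  have one : ρ e = 1 := by
    refine smul_right_injective _ N ?_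
    have k := rlmm_fi (b := b) hS 1
    rw [mF_one] at k
    refine Eq.trans ?_ k
    simp only [h.sum he, finsum_eq_sum_of_fintype, Finset.smul_sum, smul_smul, one_mul]
    exact Finset.sum_congr rfl fun y _ => congrArg (· • _) (hi y)
  have inj (a) (ha : a ∈ span F (HX F H)) (k : ρ a = 0) : a * e = 0 :=
    cf_ext h.inj h.ran (gu_span_mul H _ ha _ he) (zero_mem _) (funext fun y => by
      have := rlmm_co h hi ha y
      rw [k, mul_zero, Matrix.trace_zero, mul_zero] at this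
      exact (mul_eq_zero.1 this).resolve_left N)
  have cen : e ∈ Cen F (HX F H) := ⟨he, by
    rintro _ ⟨c, -, x, hx, rfl⟩
    obtain ⟨z, rfl⟩ : x ∈ ι.range := h.ran ▸ hx
    rw [mul_smul_comm, smul_mul_assoc]
    refine congrArg _ (cf_ext h.inj h.ran (gu_span_mul H _ he _ (rlmm_mem h.ran z))
      (gu_span_mul H _ (rlmm_mem h.ran z) _ he) (funext fun y => mul_left_cancel₀ N ?_))
    simp only [cf, rlmm_l, rlmm_r, ← map_inv, ← map_mul]
    refine (hi _).trans (Eq.trans ?_ (hi _).symm)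
    simp only [Lat.ch, mul_inv_rev, inv_inv, map_mul]
    rw [LinearMap.trace_mul_comm]⟩
  refine ⟨⟨cen, ?_, fun k => ?_, fun z hz => ?_⟩, fun _ ha _ hb => h.mul ha hb, one, inj, sur, pos⟩
  · have k := inj (e - 1) (sub_mem he rlmm_one) (by rw [map_sub, one, h.one, sub_self])
    rwa [sub_mul, one_mul, sub_eq_zero] at k
  · have : Nonempty (Fin n) := ⟨⟨0, pos⟩⟩
    rw [k, map_zero] at one
    exact zero_ne_one one
  · obtain ⟨c, k⟩ := twed_scalar (m := ρ z) fun x => by
      obtain ⟨a, ha, rfl⟩ := sur x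
      rw [← h.mul hz.1 ha, ← h.mul ha hz.1, Cen_comm hz ha]
    have l := inj (z - c • 1) (sub_mem hz.1 (smul_mem _ _ rlmm_one))
      (by rw [map_sub, map_smul, k, h.one, sub_self])
    rw [sub_mul, smul_mul_assoc, one_mul, sub_eq_zero] at l
    exact ⟨c, l⟩

theorem idem_irr (hi : Injective ι) (hH : ι.range = H) (hS : V.Sca) (hn : Nontrivial V.V)
    (he : e ∈ span F (HX F H)) (h : V.Idem F (cf ι e)) :
    e ∈ Irr F (HX F H) ∧ ∀ y, Chv F (HX F H) e (gu F X (ι y)) = ((V.ch y : O) : F) := by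
  obtain ⟨b, ρ, m⟩ := exists_MR (F := F) hi hH V
  obtain ⟨k, l⟩ := m.mm hS hn he h
  exact ⟨k, fun y => (Chv_eq (nice_Hm0 gu_tg H) k l (rlmm_mem hH y)).trans (m.ch y)⟩

theorem idem_ex (hi : Injective ι) (hH : ι.range = H) (V : Lat O Y) :
    ∃ e ∈ span F (HX F H), V.Idem F (cf ι e) := by
  obtain ⟨e, he, k⟩ := exists_cf hi hH fun y =>
    (Nat.card Y : F)⁻¹ * ((V.rk : F) * algebraMap O F (V.ch y⁻¹))
  exact ⟨e, he, fun y => by rw [k, mul_inv_cancel_left₀ (rlmm_card Y)]⟩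

theorem irr_idem {V : Lat O X} (he : e ∈ Irr F (HX F (⊤ : Subgroup X)))
    (h : ∀ x, ((V.ch x : O) : F) = Chv F (HX F ⊤) e (gu F X x)) :
    V.Sca ∧ Nontrivial V.V ∧ V.Idem F (cf (MonoidHom.id X) e) := by
  have := Fintype.ofFinite X
  have S := nice_Hm0 (F := F) (gu_tg (X := X)) ⊤
  have hH : (MonoidHom.id X).range = ⊤ := MonoidHom.range_eq_top.2 surjective_id
  obtain ⟨n, ρ, m⟩ := exists_MM S he
  have c (x : X) : ((V.ch x : O) : F) = (ρ (gu F X x)).trace :=
    (h x).trans (Chv_eq S he m (rlmm_mem hH x))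
  have rk : (V.rk : F) = n := by
    have k := c 1
    rw [gu_one, ← td_cut he.1.1 m rlmm_one, one_mul, m.one, Lat.ch, map_one,
      LinearMap.trace_one] at k
    simpa using k
  let t : MonoidAlgebra F X →ₗ[F] F :=
    { toFun := fun a => a.coeff 1, map_add' := fun _ _ => rfl, map_smul' := fun _ _ => rfl }
  have ht : Tf F (gu F X) t := ⟨Finsupp.single_eq_same, fun x hx => Finsupp.single_eq_of_ne' hx⟩
  have id (x : X) : (Nat.card X : F) * e.coeff x = n * ((V.ch x⁻¹ : O) : F) := by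
    have k := m.t_eq gu_tg ht (rlmm_card _) he (rlmm_mem hH x⁻¹)
    rw [Subgroup.card_top] at k
    rw [c]
    refine Eq.trans ?_ k
    change _ = _ * (gu F X x⁻¹ * e).coeff 1
    rw [rlmm_l, inv_inv, mul_one]
  have n0 : (n : F) ≠ 0 := Nat.cast_ne_zero.2 m.pos.ne'
  refine ⟨sca_of_norm (Subtype.ext (mul_left_cancel₀ n0 ?_)), Module.nontrivial_of_finrank_pos
    (R := O) ((Nat.cast_injective (R := F) rk).symm ▸ m.pos : 0 < V.rk), fun x => ?_⟩
  · have k := congrArg (fun a => (Nat.card X : F) * (ρ a).trace) (span_cf injective_id hH he.1.1)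
    simp only [m.one, Matrix.trace_one, Fintype.card_fin, finsum_eq_sum_of_fintype, map_sum,
      map_smul, Matrix.trace_sum, Matrix.trace_smul, smul_eq_mul, Finset.mul_sum,
      MonoidHom.id_apply, cf, ← mul_assoc, id, ← c] at k
    rw [finsum_eq_sum_of_fintype, SubringClass.coe_natCast, mul_comm _ (Nat.card X : F), k,
      AddSubmonoidClass.coe_finsetSum, Finset.mul_sum]
    exact Finset.sum_congr rfl fun x _ => by push_cast; ring
  · rw [rk]
    exact id x

theorem idem_psi {M : Lat O (Nz Q)} (hS : M.Sca) (hn : Nontrivial M.V)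
    (ht : M.Triv (Q.subgroupOf (Nz Q))) (he : ψ ∈ span F (HX F (Nz Q)))
    (h : M.Idem F (cf (Nz Q).subtype ψ)) : ψ ∈ Psi F Q := by
  have := Fintype.ofFinite Q
  obtain ⟨b, ρ, m⟩ := exists_MR (F := F) (Nz Q).subtype_injective (Nz Q).range_subtype M
  obtain ⟨k, l⟩ := m.mm hS hn he h
  have s : e0 F Q ∈ span F (HX F (Nz Q)) := by
    rw [e0, finsum_eq_sum_of_fintype]
    exact smul_mem _ _ (sum_mem fun q _ => subset_span (aga_mem.2 (Subgroup.le_normalizer q.2)))
  have v (q : Q) : ρ (gu F X q) = 1 :=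
    (m.val ⟨q, Subgroup.le_normalizer q.2⟩).trans (by rw [ht _ q.2, mF_one])
  have o : ρ (e0 F Q) = 1 := by
    rw [e0, finsum_eq_sum_of_fintype, map_smul, map_sum, Finset.sum_congr rfl fun q _ => v q,
      Finset.sum_const, Finset.card_univ, ← Nat.card_eq_fintype_card, ← Nat.cast_smul_eq_nsmul F,
      inv_smul_smul₀ (rlmm_card Q)]
  have z := l.inj _ (sub_mem s rlmm_one) (by rw [map_sub, o, m.one, sub_self])
  rw [sub_mul, one_mul, sub_eq_zero] at z
  exact ⟨k, (Cen_comm k.1 s).trans z⟩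

end Pool.Agent.Lib.MP_1ae3da_al.CT.R5
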