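import Pool.Agent.Lib.MP_1ae3da_al.C.RLBas

set_option autoImplicit false
set_option linter.unusedSectionVars false

namespace Pool.Agent.Lib.MP_1ae3da_al.CT.R5

open Function

variable {O X Y : Type} [CommRing O] [IsDomain O] [IsDiscreteValuationRing O] [CharZero O]
  [Group X] [Finite X] [Group Y] [Finite Y] {p : ℕ} {Q : Subgroup X}

theorem sem_inv {U W : Type} [AddCommGroup U] [Module O U] [AddCommGroup W] [Module O W]
    {σ : O ≃+* O} {G : U ≃+ W} (hG : ∀ (c : O) v, G (c • v) = σ c • G v) (c : O) (u : W) :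
    G.symm (c • u) = σ.symm c • G.symm u := by
  apply G.injective
  rw [hG, AddEquiv.apply_symm_apply, AddEquiv.apply_symm_apply, RingEquiv.apply_symm_apply]

/-- conjugate of an endomorphism by a semilinear bijection -/
def semCj {U W : Type} [AddCommGroup U] [Module O U] [AddCommGroup W] [Module O W]
    {σ : O ≃+* O} {G : U ≃+ W} (hG : ∀ (c : O) v, G (c • v) = σ c • G v)
    (w : Module.End O U) : Module.End O W where
  toFun u := G (w (G.symm u))
  map_add' u u' := by rw [map_add, map_add, map_add]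
  map_smul' c u := by
    rw [sem_inv hG, map_smul, hG, RingEquiv.apply_symm_apply, RingHom.id_apply]

theorem semCj_apply {U W : Type} [AddCommGroup U] [Module O U] [AddCommGroup W] [Module O W]
    {σ : O ≃+* O} {G : U ≃+ W} (hG : ∀ (c : O) v, G (c • v) = σ c • G v)
    (w : Module.End O U) (u : W) : semCj hG w u = G (w (G.symm u)) := rfl

theorem sem_bas {U W ι : Type} [AddCommGroup U] [Module O U] [AddCommGroup W] [Module O W]
    [Fintype ι] {σ : O ≃+* O} {G : U ≃+ W} (hG : ∀ (c : O) v, G (c • v) = σ c • G v)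
    (b : Module.Basis ι O U) :
    ∃ b' : Module.Basis ι O W, (∀ v i, b'.repr (G v) i = σ (b.repr v i)) ∧
      ∀ j, b' j = G (b j) := by
  classical
  let e : W ≃ₗ[O] (ι → O) :=
    { toFun := fun u i => σ (b.equivFun (G.symm u) i)
      map_add' := fun u u' => by
        funext i
        rw [map_add, map_add, Pi.add_apply, map_add, Pi.add_apply]
      map_smul' := fun c u => by
        funext i
        rw [sem_inv hG, map_smul, Pi.smul_apply, smul_eq_mul, map_mul,
          RingEquiv.apply_symm_apply, RingHom.id_apply, Pi.smul_apply, smul_eq_mul]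
      invFun := fun t => G (b.equivFun.symm fun i => σ.symm (t i))
      left_inv := fun u => by
        simp only [RingEquiv.symm_apply_apply]
        show G (b.equivFun.symm (b.equivFun (G.symm u))) = u
        rw [LinearEquiv.symm_apply_apply, AddEquiv.apply_symm_apply]
      right_inv := fun t => by
        funext i
        simp only [AddEquiv.symm_apply_apply, LinearEquiv.apply_symm_apply,
          RingEquiv.apply_symm_apply] }
  have h1 : ∀ v i, (Module.Basis.ofEquivFun e).repr (G v) i = σ (b.repr v i) := fun v i => by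
    rw [Module.Basis.ofEquivFun_repr_apply]
    show σ (b.equivFun (G.symm (G v)) i) = _
    rw [AddEquiv.symm_apply_apply, Module.Basis.equivFun_apply]
  refine ⟨Module.Basis.ofEquivFun e, h1, fun j => ?_⟩
  refine (Module.Basis.ofEquivFun e).ext_elem fun i => ?_
  rw [h1, Module.Basis.repr_self_apply, Module.Basis.repr_self_apply]
  split_ifs <;> simp

theorem exists_semi (σ : O ≃+* O) (a : X ≃* X) (V : Lat O X) :
    ∃ (W : Lat O X) (G : V.V ≃+ W.V), Semi σ a V W G := by
  let b := Module.finBasis O V.V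
  let G : V.V ≃+ (Fin (Module.finrank O V.V) → O) :=
    b.equivFun.toAddEquiv.trans (AddEquiv.piCongrRight fun _ => σ.toAddEquiv)
  have hG : ∀ (c : O) v, G (c • v) = σ c • G v := fun c v => by
    funext i
    show σ (b.equivFun (c • v) i) = σ c * σ (b.equivFun v i)
    rw [map_smul, Pi.smul_apply, smul_eq_mul, map_mul]
  let ρ : X →* Module.End O (Fin (Module.finrank O V.V) → O) :=
    { toFun := fun y => semCj hG (V.ρ (a.symm y))
      map_one' := LinearMap.ext fun u => by
        rw [semCj_apply, map_one, map_one, Module.End.one_apply, Module.End.one_apply,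
          AddEquiv.apply_symm_apply]
      map_mul' := fun y z => LinearMap.ext fun u => by
        rw [Module.End.mul_apply, semCj_apply, semCj_apply, semCj_apply, map_mul, map_mul,
          Module.End.mul_apply, AddEquiv.symm_apply_apply] }
  refine ⟨{ V := Fin (Module.finrank O V.V) → O, ρ := ρ }, G, hG, fun x v => ?_⟩
  show _ = G (V.ρ (a.symm (a x)) (G.symm (G v)))
  rw [MulEquiv.symm_apply_apply, AddEquiv.symm_apply_apply]

theorem Semi.symm {σ : O ≃+* O} {a : X ≃* X} {V W : Lat O X} {G : V.V ≃+ W.V}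
    (h : Semi σ a V W G) : Semi σ.symm a.symm W V G.symm := by
  refine ⟨sem_inv h.smul, fun x v => G.injective ?_⟩
  rw [h.act, AddEquiv.apply_symm_apply, AddEquiv.apply_symm_apply, MulEquiv.apply_symm_apply]

theorem Semi.conj {σ : O ≃+* O} {a : X ≃* X} {V W : Lat O X} {G : V.V ≃+ W.V}
    (h : Semi σ a V W G) (w : Module.End O V.V) :
    ∃ w' : Module.End O W.V, (∀ v, w' (G v) = G (w v)) ∧
      LinearMap.det w' = σ (LinearMap.det w) ∧
      LinearMap.trace O W.V w' = σ (LinearMap.trace O V.V w) := by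
  classical
  let b := Module.finBasis O V.V
  obtain ⟨b', h1, h2⟩ := sem_bas h.smul b
  have hw : ∀ v, semCj h.smul w (G v) = G (w v) := fun v => by
    rw [semCj_apply, AddEquiv.symm_apply_apply]
  have hm : LinearMap.toMatrix b' b' (semCj h.smul w) =
      (LinearMap.toMatrix b b w).map σ := by
    ext i j
    rw [Matrix.map_apply, LinearMap.toMatrix_apply, LinearMap.toMatrix_apply, h2, hw, h1]
  refine ⟨semCj h.smul w, hw, ?_, ?_⟩
  · rw [← LinearMap.det_toMatrix b', ← LinearMap.det_toMatrix b, hm]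
    exact ((σ : O →+* O).map_det _).symm
  · rw [LinearMap.trace_eq_matrix_trace O b', LinearMap.trace_eq_matrix_trace O b, hm]
    exact (AddMonoidHom.map_trace σ _).symm

theorem Semi.ch {σ : O ≃+* O} {a : X ≃* X} {V W : Lat O X} {G : V.V ≃+ W.V}
    (h : Semi σ a V W G) (x : X) : W.ch (a x) = σ (V.ch x) := by
  obtain ⟨w', h1, -, h3⟩ := h.conj (V.ρ x)
  have e : w' = W.ρ (a x) := LinearMap.ext fun u => by
    obtain ⟨v, rfl⟩ := G.surjective u
    rw [h1, h.act]
  rw [Lat.ch, Lat.ch, ← e, h3]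

theorem Semi.rk {σ : O ≃+* O} {a : X ≃* X} {V W : Lat O X} {G : V.V ≃+ W.V}
    (h : Semi σ a V W G) : W.rk = V.rk := by
  obtain ⟨b', -, -⟩ := sem_bas h.smul (Module.finBasis O V.V)
  rw [Lat.rk, Module.finrank_eq_card_basis b', Fintype.card_fin]

theorem Semi.ir {σ : O ≃+* O} {a : X ≃* X} {V W : Lat O X} {G : V.V ≃+ W.V}
    (h : Semi σ a V W G) (hV : V.Ir) : W.Ir := by
  have := hV.1
  refine ⟨G.injective.nontrivial, fun U hU hP => ?_⟩
  let U0 : Submodule O V.V :=
    { carrier := {v | G v ∈ U}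
      add_mem' := fun {x y} hx hy => by
        show G (x + y) ∈ U
        rw [map_add]
        exact U.add_mem hx hy
      zero_mem' := by
        show G 0 ∈ U
        rw [map_zero]
        exact U.zero_mem
      smul_mem' := fun c x hx => by
        show G (c • x) ∈ U
        rw [h.smul]
        exact U.smul_mem _ hx }
  have m : ∀ v, v ∈ U0 ↔ G v ∈ U := fun v => Iff.rfl
  have s : V.St U0 := fun x v hv => by
    rw [m, h.act]
    exact hU _ _ hv
  have q : Pure U0 := fun c v hc hv => by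
    rw [m, h.smul] at hv
    exact hP _ _ (fun e => hc (σ.injective (e.trans (map_zero σ).symm))) hv
  rcases hV.2 U0 s q with e | e
  · refine Or.inl ((Submodule.eq_bot_iff _).2 fun u hu => ?_)
    obtain ⟨v, rfl⟩ := G.surjective u
    have : v ∈ U0 := hu
    rw [e, Submodule.mem_bot] at this
    rw [this, map_zero]
  · refine Or.inr (Submodule.eq_top_iff'.2 fun u => ?_)
    obtain ⟨v, rfl⟩ := G.surjective u
    rw [← m, e]
    exact Submodule.mem_top

theorem sem_cmp {σ : O ≃+* O} {a : X ≃* X} (hm : ∀ x, a x ∈ Q ↔ x ∈ Q) {V W : Lat O X}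
    {G : V.V ≃+ W.V} (h : Semi σ a V W G) : Cmp Q V W (G : V.V →+ W.V) :=
  ⟨Equiv.subtypeEquiv a.toEquiv fun x => (hm x).symm, fun g v => h.act g v⟩

theorem sem_A {σ : O ≃+* O} {a : X ≃* X} (hm : ∀ x, a x ∈ Q ↔ x ∈ Q) {V W : Lat O X}
    {G : V.V ≃+ W.V} (h : Semi σ a V W G) (i : Bool) (v : V.V) :
    (G v ∈ W.A Q i ↔ v ∈ V.A Q i) ∧ (G v ∈ W.B Q i ↔ v ∈ V.B Q i) := by
  have hm' : ∀ x, a.symm x ∈ Q ↔ x ∈ Q := fun x => by
    rw [← hm, MulEquiv.apply_symm_apply]
  have c := sem_cmp hm h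
  have c' := sem_cmp hm' h.symm
  refine ⟨⟨fun hv => ?_, fun hv => c.mapA i hv⟩, ⟨fun hv => ?_, fun hv => c.mapB i hv⟩⟩
  · have : G.symm (G v) ∈ V.A Q i := c'.mapA i hv
    rwa [AddEquiv.symm_apply_apply] at this
  · have : G.symm (G v) ∈ V.B Q i := c'.mapB i hv
    rwa [AddEquiv.symm_apply_apply] at this

theorem Semi.typ {σ : O ≃+* O} {a : X ≃* X} {b : Nz Q ≃* Nz Q} (hr : Res Q a b)
    {V V' : Lat O X} {G : V.V ≃+ V'.V} (h : Semi σ a V V' G) {M M' : Lat O (Nz Q)}
    {G' : M.V ≃+ M'.V} (h' : Semi σ b M M' G') {i : Bool} {Φ : Submodule O (V.V × M.V)}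
    (ht : Typ p Q V M i Φ) :
    ∃ Φ' : Submodule O (V'.V × M'.V), Typ p Q V' M' i Φ' ∧
      ∀ v m, (v, m) ∈ Φ ↔ (G v, G' m) ∈ Φ' := by
  let Φ' : Submodule O (V'.V × M'.V) :=
    { carrier := {z | (G.symm z.1, G'.symm z.2) ∈ Φ}
      add_mem' := fun {x y} hx hy => by
        show (G.symm (x.1 + y.1), G'.symm (x.2 + y.2)) ∈ Φ
        rw [map_add, map_add]
        exact Φ.add_mem hx hy
      zero_mem' := by
        show (G.symm 0, G'.symm 0) ∈ Φ
        rw [map_zero, map_zero]
        exact Φ.zero_mem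
      smul_mem' := fun c x hx => by
        show (G.symm (c • x.1), G'.symm (c • x.2)) ∈ Φ
        rw [sem_inv h.smul, sem_inv h'.smul]
        exact Φ.smul_mem (σ.symm c) hx }
  have m : ∀ v m, (v, m) ∈ Φ ↔ (G v, G' m) ∈ Φ' := fun v m => by
    show _ ↔ (G.symm (G v), G'.symm (G' m)) ∈ Φ
    rw [AddEquiv.symm_apply_apply, AddEquiv.symm_apply_apply]
  have g := ht.tie.gr
  have hp : ∀ m : M.V, G' ((p : O) • m) = (p : O) • G' m := fun m => by
    rw [h'.smul, map_natCast]
  refine ⟨Φ', ⟨h.ir ht.irr, h'.ir ht.mirr, fun n hn => ?_, ⟨⟨fun v => ?_, fun u => ?_,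
    fun v => ?_, fun u => ?_⟩, fun n v u hv => ?_⟩, fun v hv => ?_⟩, m⟩
  · obtain ⟨n, rfl⟩ := b.surjective n
    have hn' : n ∈ Q.subgroupOf (Nz Q) := by
      rw [Subgroup.mem_subgroupOf] at hn ⊢
      rwa [hr.coe, hr.mem] at hn
    refine LinearMap.ext fun u => ?_
    obtain ⟨u, rfl⟩ := G'.surjective u
    rw [← h'.act, ht.triv n hn', Module.End.one_apply, Module.End.one_apply]
  · obtain ⟨v, rfl⟩ := G.surjective v
    rw [(sem_A hr.mem h i v).1, g.dom]
    refine ⟨fun ⟨u, hu⟩ => ⟨G' u, (m v u).1 hu⟩, fun ⟨u, hu⟩ => ?_⟩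
    obtain ⟨u, rfl⟩ := G'.surjective u
    exact ⟨u, (m v u).2 hu⟩
  · obtain ⟨u, rfl⟩ := G'.surjective u
    obtain ⟨v, hv⟩ := g.ran u
    exact ⟨G v, (m v u).1 hv⟩
  · obtain ⟨v, rfl⟩ := G.surjective v
    rw [(sem_A hr.mem h i v).2, ← g.kl, m, map_zero]
  · obtain ⟨u, rfl⟩ := G'.surjective u
    rw [← map_zero G, ← m, g.kr]
    refine ⟨fun ⟨t, e⟩ => ⟨G' t, by rw [e, hp]⟩, fun ⟨t, e⟩ => ?_⟩
    obtain ⟨t, rfl⟩ := G'.surjective t
    exact ⟨t, G'.injective (by rw [e, hp])⟩
  · obtain ⟨n, rfl⟩ := b.surjective n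
    obtain ⟨v, rfl⟩ := G.surjective v
    obtain ⟨u, rfl⟩ := G'.surjective u
    rw [hr.coe, ← h.act, ← h'.act, ← m]
    exact ht.tie.st n v u ((m v u).2 hv)
  · obtain ⟨v, rfl⟩ := G.surjective v
    exact (sem_A hr.mem h (!i) v).2.2 (ht.zero ((sem_A hr.mem h (!i) v).1.1 hv))

end Pool.Agent.Lib.MP_1ae3da_al.CT.R5
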