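import Pool.Agent.Lib.MP_1ae3da_al.C.RLHen

set_option autoImplicit false
set_option linter.unusedSectionVars false

/-! Dimension shifting for the Tate groups of a subgroup of prime order. -/

namespace Pool.Agent.Lib.MP_1ae3da_al.CT.R5

open Function

section abstract
variable {O W P V M : Type} [CommRing O] [AddCommGroup W] [Module O W] [AddCommGroup P]
  [Module O P] [AddCommGroup V] [Module O V] [AddCommGroup M] [Module O M]

/-- a short exact sequence of periodic complexes with acyclic middle term -/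
structure RlsD (j : W →ₗ[O] P) (q : P →ₗ[O] V) (aW bW : Module.End O W)
    (aP bP : Module.End O P) (aV bV : Module.End O V) : Prop where
  inj : Injective j
  sur : Surjective q
  ex : LinearMap.range j = LinearMap.ker q
  ja : ∀ w, j (aW w) = aP (j w)
  jb : ∀ w, j (bW w) = bP (j w)
  qa : ∀ y, q (aP y) = aV (q y)
  qb : ∀ y, q (bP y) = bV (q y)
  ab : ∀ y, aP (bP y) = 0
  ba : ∀ y, bP (aP y) = 0
  za : LinearMap.ker aP ≤ LinearMap.range bP
  zb : LinearMap.ker bP ≤ LinearMap.range aP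

variable {j : W →ₗ[O] P} {q : P →ₗ[O] V} {aW bW : Module.End O W} {aP bP : Module.End O P}
  {aV bV : Module.End O V}

theorem RlsD.qj (h : RlsD j q aW bW aP bP aV bV) (w : W) : q (j w) = 0 := by
  have : j w ∈ LinearMap.ker q := h.ex ▸ LinearMap.mem_range_self j w
  exact this

theorem RlsD.lift (h : RlsD j q aW bW aP bP aV bV) {y : P} (hy : q y = 0) : ∃ w, j w = y := by
  have : y ∈ LinearMap.range j := h.ex ▸ (LinearMap.mem_ker.2 hy)
  exact this

theorem RlsD.dom (h : RlsD j q aW bW aP bP aV bV) {v : V} (hv : v ∈ LinearMap.ker aV) :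
    ∃ y w, q y = v ∧ aP y = j w := by
  obtain ⟨y, rfl⟩ := h.sur v
  obtain ⟨w, hw⟩ := h.lift (y := aP y) (by rw [h.qa]; exact hv)
  exact ⟨y, w, rfl, hw.symm⟩

theorem RlsD.dom' (h : RlsD j q aW bW aP bP aV bV) {y : P} {w : W} (e : aP y = j w) :
    q y ∈ LinearMap.ker aV := by
  rw [LinearMap.mem_ker, ← h.qa, e, h.qj]

theorem RlsD.ran (h : RlsD j q aW bW aP bP aV bV) {w : W} (hw : w ∈ LinearMap.ker bW) :
    ∃ y, aP y = j w :=
  h.zb (by rw [LinearMap.mem_ker, ← h.jb, LinearMap.mem_ker.1 hw, map_zero])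

theorem RlsD.ran' (h : RlsD j q aW bW aP bP aV bV) {y : P} {w : W} (e : aP y = j w) :
    w ∈ LinearMap.ker bW :=
  h.inj (by rw [h.jb, ← e, h.ba, map_zero])

theorem RlsD.bd (h : RlsD j q aW bW aP bP aV bV) {y : P} {w : W} (e : aP y = j w) :
    q y ∈ LinearMap.range bV ↔ w ∈ LinearMap.range aW := by
  constructor
  · rintro ⟨v, hv⟩
    obtain ⟨z, rfl⟩ := h.sur v
    obtain ⟨u, hu⟩ := h.lift (y := y - bP z) (by rw [map_sub, h.qb, hv, sub_self])
    exact ⟨u, h.inj (by rw [h.ja, hu, map_sub, h.ab, sub_zero, e])⟩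
  · rintro ⟨u, rfl⟩
    obtain ⟨z, hz⟩ := h.za (x := y - j u)
      (by rw [LinearMap.mem_ker, map_sub, e, h.ja, sub_self])
    exact ⟨q z, by rw [← h.qb, hz, map_sub, h.qj, sub_zero]⟩

theorem RlsD.z (h : RlsD j q aW bW aP bP aV bV) :
    LinearMap.ker aV ≤ LinearMap.range bV ↔ LinearMap.ker bW ≤ LinearMap.range aW := by
  constructor
  · intro k w hw
    obtain ⟨y, e⟩ := h.ran hw
    exact (h.bd e).1 (k (h.dom' e))
  · intro k v hv
    obtain ⟨y, w, rfl, e⟩ := h.dom hv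
    exact (h.bd e).2 (k (h.ran' e))

/-- the graph composed with the connecting relation -/
def rlsG (j : W →ₗ[O] P) (q : P →ₗ[O] V) (aP : Module.End O P) (Φ : Submodule O (V × M)) :
    Submodule O (W × M) where
  carrier := {x | ∃ y, aP y = j x.1 ∧ (q y, x.2) ∈ Φ}
  zero_mem' := ⟨0, by simp, by rw [map_zero]; exact Φ.zero_mem⟩
  add_mem' := by
    rintro a b ⟨y, h1, h2⟩ ⟨z, h3, h4⟩
    exact ⟨y + z, by simp [h1, h3], by simpa using Φ.add_mem h2 h4⟩
  smul_mem' := by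
    rintro c a ⟨y, h1, h2⟩
    exact ⟨c • y, by simp [h1], by simpa using Φ.smul_mem c h2⟩

theorem RlsD.gr (h : RlsD j q aW bW aP bP aV bV) {p : ℕ} {Φ : Submodule O (V × M)}
    (g : Gr p (LinearMap.ker aV) (LinearMap.range bV) Φ) :
    Gr p (LinearMap.ker bW) (LinearMap.range aW) (rlsG j q aP Φ) where
  dom w := by
    constructor
    · intro hw
      obtain ⟨y, e⟩ := h.ran hw
      obtain ⟨m, hm⟩ := (g.dom _).1 (h.dom' e)
      exact ⟨m, y, e, hm⟩
    · rintro ⟨m, y, e, -⟩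
      exact h.ran' e
  ran m := by
    obtain ⟨v, hv⟩ := g.ran m
    obtain ⟨y, w, rfl, e⟩ := h.dom ((g.dom v).2 ⟨m, hv⟩)
    exact ⟨w, y, e, hv⟩
  kl w := by
    constructor
    · rintro ⟨y, e, k⟩
      exact (h.bd e).1 ((g.kl _).1 k)
    · rintro ⟨u, rfl⟩
      exact ⟨j u, (h.ja u).symm, by rw [h.qj]; exact Φ.zero_mem⟩
  kr m := by
    rw [← g.kr]
    constructor
    · rintro ⟨y, e, k⟩
      have k0 := (g.kl _).2 ((h.bd e).2 (Submodule.zero_mem _))
      simpa using Φ.sub_mem k k0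
    · intro k
      exact ⟨0, by simp, by simpa using k⟩

/-- the operator whose kernel is the module of cycles -/
noncomputable def rlsOp (p : ℕ) (g : Module.End O V) : Bool → Module.End O V
  | false => g - 1
  | true => ∑ t ∈ Finset.range p, g ^ t

theorem rls_A (p : ℕ) (g : Module.End O V) (i : Bool) : zA p g i = LinearMap.ker (rlsOp p g i) := by
  cases i <;> rfl

theorem rls_B (p : ℕ) (g : Module.End O V) (i : Bool) :
    zB p g i = LinearMap.range (rlsOp p g (!i)) := by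
  cases i <;> rfl

theorem rls_zero {p : ℕ} {g : Module.End O V} (hg : g ^ p = 1) (i : Bool) (v : V) :
    rlsOp p g i (rlsOp p g (!i) v) = 0 := by
  rw [← Module.End.mul_apply]
  cases i
  · change ((g - 1) * ∑ t ∈ Finset.range p, g ^ t) v = 0
    rw [mul_geom_sum, hg, sub_self, LinearMap.zero_apply]
  · change ((∑ t ∈ Finset.range p, g ^ t) * (g - 1)) v = 0
    rw [geom_sum_mul, hg, sub_self, LinearMap.zero_apply]

theorem rls_fix {g : Module.End O V} {v : V} (h : g v = v) (k : ℕ) :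
    (∑ t ∈ Finset.range k, g ^ t) v = (k : O) • v := by
  have : ∀ t : ℕ, (g ^ t) v = v := fun t => by
    induction t with
    | zero => rfl
    | succ t ih => rw [pow_succ, Module.End.mul_apply, h, ih]
  rw [LinearMap.sum_apply, Finset.sum_congr rfl fun t _ => this t, Finset.sum_const,
    Finset.card_range, Nat.cast_smul_eq_nsmul]

end abstract

variable {O X Y : Type} [CommRing O] [IsDomain O] [IsDiscreteValuationRing O] [CharZero O]
  [Group X] [Finite X] [Group Y] [Finite Y] {p : ℕ} {Q : Subgroup X}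

theorem rls_sum {V W : Lat O X} {f : V.V →ₗ[O] W.V} (h : V.Hom W f) (g : X) (k : ℕ) (v : V.V) :
    f ((∑ t ∈ Finset.range k, V.ρ g ^ t) v) = (∑ t ∈ Finset.range k, W.ρ g ^ t) (f v) := by
  rw [LinearMap.sum_apply, LinearMap.sum_apply, map_sum]
  exact Finset.sum_congr rfl fun t _ => by rw [← map_pow, ← map_pow, h]

theorem rls_hom {V W : Lat O X} {f : V.V →ₗ[O] W.V} (h : V.Hom W f) (g : X) (i : Bool)
    (v : V.V) : f (rlsOp p (V.ρ g) i v) = rlsOp p (W.ρ g) i (f v) := by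
  cases i
  · change f ((V.ρ g - 1) v) = (W.ρ g - 1) (f v)
    rw [LinearMap.sub_apply, LinearMap.sub_apply, map_sub, h, Module.End.one_apply,
      Module.End.one_apply]
  · exact rls_sum h g p v

theorem rls_AB (V : Lat O X) (hp : p.Prime) (hQ : Nat.card Q = p) {g : X} (hg : g ∈ Q)
    (h1 : g ≠ 1) (i : Bool) : V.A Q i = LinearMap.ker (rlsOp p (V.ρ g) i) ∧
      V.B Q i = LinearMap.range (rlsOp p (V.ρ g) (!i)) :=
  ⟨by rw [V.A_eq hp hQ hg h1, rls_A], by rw [V.B_eq hp hQ hg h1, rls_B]⟩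

theorem rls_D (hp : p.Prime) (hQ : Nat.card Q = p) {W P V : Lat O X} {j : W.V →ₗ[O] P.V}
    {q : P.V →ₗ[O] V.V} (h : Ses W P V j q) (hP : ∀ i, P.Z Q i) {g : X} (hg : g ∈ Q)
    (h1 : g ≠ 1) (i : Bool) :
    RlsD j q (rlsOp p (W.ρ g) i) (rlsOp p (W.ρ g) (!i)) (rlsOp p (P.ρ g) i)
      (rlsOp p (P.ρ g) (!i)) (rlsOp p (V.ρ g) i) (rlsOp p (V.ρ g) (!i)) where
  inj := h.inj
  sur := h.sur
  ex := h.ex
  ja := rls_hom h.hj g i
  jb := rls_hom h.hj g (!i)
  qa := rls_hom h.hq g i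
  qb := rls_hom h.hq g (!i)
  ab := rls_zero (P.pow_p hQ hg) i
  ba y := by simpa using rls_zero (P.pow_p hQ hg) (!i) y
  za := by
    rw [← (rls_AB P hp hQ hg h1 i).1, ← (rls_AB P hp hQ hg h1 i).2]
    exact hP i
  zb := by
    have k := rls_AB P hp hQ hg h1 (!i)
    rw [Bool.not_not] at k
    rw [← k.1, ← k.2]
    exact hP (!i)

theorem Ses.z (hp : p.Prime) (hQ : Nat.card Q = p) {W P V : Lat O X} {j : W.V →ₗ[O] P.V}
    {q : P.V →ₗ[O] V.V} (h : Ses W P V j q) (hP : ∀ i, P.Z Q i) (i : Bool) :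
    V.Z Q i ↔ W.Z Q (!i) := by
  obtain ⟨g, hg, h1⟩ := exists_gen hp hQ
  have k := rls_AB W hp hQ hg h1 (!i)
  rw [Bool.not_not] at k
  unfold Lat.Z
  rw [(rls_AB V hp hQ hg h1 i).1, (rls_AB V hp hQ hg h1 i).2, k.1, k.2]
  exact (rls_D hp hQ h hP hg h1 i).z

theorem rls_gr (hp : p.Prime) (hQ : Nat.card Q = p) {W P V : Lat O X} {j : W.V →ₗ[O] P.V}
    {q : P.V →ₗ[O] V.V} (h : Ses W P V j q) (hP : ∀ i, P.Z Q i) {g : X} (hg : g ∈ Q)
    (h1 : g ≠ 1) (i : Bool) {M : Type} [AddCommGroup M] [Module O M]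
    {Φ : Submodule O (V.V × M)} (ht : Gr p (V.A Q i) (V.B Q i) Φ) :
    Gr p (W.A Q (!i)) (W.B Q (!i)) (rlsG j q (rlsOp p (P.ρ g) i) Φ) := by
  have k := rls_AB W hp hQ hg h1 (!i)
  rw [Bool.not_not] at k
  rw [(rls_AB V hp hQ hg h1 i).1, (rls_AB V hp hQ hg h1 i).2] at ht
  rw [k.1, k.2]
  exact (rls_D hp hQ h hP hg h1 i).gr ht

theorem Ses.shift1 (hp : p.Prime) (hQ : Nat.card Q = p) {W P V : Lat O X} {j : W.V →ₗ[O] P.V}
    {q : P.V →ₗ[O] V.V} (h : Ses W P V j q) (hP : ∀ i, P.Z Q i) {M : Lat O (Nz Q)}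
    {Φ : Submodule O (V.V × M.V)} (ht : Tie p Q V M true Φ) :
    ∃ Φ' : Submodule O (W.V × M.V), Tie p Q W M false Φ' := by
  obtain ⟨g, hg, h1⟩ := exists_gen hp hQ
  refine ⟨_, rls_gr hp hQ h hP hg h1 true ht.gr, ?_⟩
  rintro n w m ⟨y, e, k⟩
  refine ⟨P.ρ (n : X) y, ?_, ?_⟩
  · change (∑ t ∈ Finset.range p, P.ρ g ^ t) _ = j (W.ρ (n : X) w)
    change (∑ t ∈ Finset.range p, P.ρ g ^ t) y = j w at e
    rw [← P.Nm_eq hp hQ hg h1] at e ⊢
    rw [← P.nm_N n.2, e, h.hj]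
  · rw [h.hq]
    exact ht.st n _ _ k

theorem Ses.shift0 (hp : p.Prime) (hQ : Nat.card Q = p) {W P V : Lat O X} {j : W.V →ₗ[O] P.V}
    {q : P.V →ₗ[O] V.V} (h : Ses W P V j q) (hP : ∀ i, P.Z Q i) {ω : Nz Q →* Oˣ}
    (hω : Omg p Q ω) {M : Lat O (Nz Q)} {Φ : Submodule O (V.V × M.V)}
    (ht : Tie p Q V M false Φ) :
    ∃ Φ' : Submodule O (W.V × (M.sc ω).V), Tie p Q W (M.sc ω) true Φ' := by
  obtain ⟨g, hg, h1⟩ := exists_gen hp hQ
  refine ⟨_, rls_gr hp hQ h hP hg h1 false ht.gr, ?_⟩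
  rintro n w m ⟨y, e, k⟩
  have hn : (n : X) * g * (n : X)⁻¹ ∈ Q := (Subgroup.mem_normalizer_iff.1 n.2 g).1 hg
  obtain ⟨t, -, e1⟩ := gen_pow hp hQ hg h1 hn
  obtain ⟨c, hc⟩ := hω.cong n g t hg h1 e1
  have e2 : (n : X) * g = g ^ t * n := by rw [← e1, inv_mul_cancel_right]
  refine ⟨(∑ s ∈ Finset.range t, P.ρ g ^ s) (P.ρ (n : X) y), ?_, ?_⟩
  · change (P.ρ g - 1) _ = j (W.ρ (n : X) w)
    change (P.ρ g - 1) y = j w at e
    rw [← Module.End.mul_apply, mul_geom_sum, h.hj, ← e, ← Module.End.mul_apply,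
      ← Module.End.mul_apply, sub_mul, mul_sub, one_mul, mul_one, ← map_pow, ← map_mul,
      ← map_mul, e2]
  · have k1 := ht.st n _ _ k
    have k2 : V.ρ g (V.ρ (n : X) (q y)) = V.ρ (n : X) (q y) :=
      V.mem_A0.1 ((ht.gr.dom _).2 ⟨_, k1⟩) g hg
    have k3 := (ht.gr.kr ((p : O) • c • M.ρ n m)).2 ⟨_, rfl⟩
    have k4 := Φ.add_mem (Φ.smul_mem (t : O) k1) k3
    rw [rls_sum h.hq, h.hq, rls_fix k2]
    have e3 : ((M.sc ω).ρ n) m = (t : O) • M.ρ n m + (p : O) • c • M.ρ n m := by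
      change (ω n : O) • M.ρ n m = _
      rw [smul_smul, ← hc, ← add_smul, add_sub_cancel]
    change (_, ((M.sc ω).ρ n) m) ∈ Φ
    rw [e3]
    simpa using k4

theorem Lat.Ir.sc {M : Lat O X} (h : M.Ir) (ω : X →* Oˣ) : (M.sc ω).Ir := by
  refine ⟨h.1, fun U hU hp => h.2 U (fun x v hv => ?_) hp⟩
  have k : (((ω x)⁻¹ : Oˣ) : O) • ((ω x : O) • M.ρ x v) ∈ U := U.smul_mem _ (hU x v hv)
  rwa [smul_smul, Units.inv_mul, one_smul] at k

theorem Lat.sc_ch (M : Lat O X) (ω : X →* Oˣ) (x : X) : (M.sc ω).ch x = ω x * M.ch x := by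
  change LinearMap.trace O M.V ((ω x : O) • M.ρ x) = ω x * LinearMap.trace O M.V (M.ρ x)
  rw [map_smul, smul_eq_mul]

theorem Omg.triv (hW : Wt p O) (hQ : Nat.card Q = p) {ω : Nz Q →* Oˣ} (hω : Omg p Q ω)
    {M : Lat O (Nz Q)} (h : M.Triv (Q.subgroupOf (Nz Q))) :
    (M.sc ω).Triv (Q.subgroupOf (Nz Q)) := by
  intro g hg
  change (ω g : O) • M.ρ g = 1
  rw [hω.on_Q hW hQ g (Subgroup.mem_subgroupOf.1 hg), h g hg, Units.val_one, one_smul]

end Pool.Agent.Lib.MP_1ae3da_al.CT.R5
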