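import Pool.Agent.Lib.MP_1ae3da_al.C.RL3
import Pool.Agent.Lib.MP_1ae3da_al.C.RLHen

set_option autoImplicit false
set_option linter.unusedSectionVars false

namespace Pool.Agent.Lib.MP_1ae3da_al.CT.R5

open Function

variable {O X Y : Type} [CommRing O] [IsDomain O] [IsDiscreteValuationRing O] [CharZero O]
  [Group X] [Finite X] [Group Y] [Finite Y] {p : ℕ} {Q : Subgroup X}

section
variable {U W M : Type} [AddCommGroup U] [Module O U] [Module.Free O U] [Module.Finite O U]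
  [AddCommGroup W] [Module O W] [Module.Free O W] [Module.Finite O W]
  [AddCommGroup M] [Module O M] [Module.Free O M] [Module.Finite O M]

theorem rlval_pow {f : U →ₗ[O] W} {g : Module.End O U} {g' : Module.End O W}
    (h : ∀ v, f (g v) = g' (f v)) (n : ℕ) (v : U) : f ((g ^ n) v) = (g' ^ n) (f v) := by
  induction n with
  | zero => rfl
  | succ n ih => rw [pow_succ', pow_succ', Module.End.mul_apply, Module.End.mul_apply, h, ih]

theorem rlval_sum {f : U →ₗ[O] W} {g : Module.End O U} {g' : Module.End O W}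
    (h : ∀ v, f (g v) = g' (f v)) (n : ℕ) (v : U) :
    f ((∑ j ∈ Finset.range n, g ^ j) v) = (∑ j ∈ Finset.range n, g' ^ j) (f v) := by
  simp only [LinearMap.sum_apply, map_sum, rlval_pow h]

theorem rlval_sub {f : U →ₗ[O] W} {g : Module.End O U} {g' : Module.End O W}
    (h : ∀ v, f (g v) = g' (f v)) (v : U) : f ((g - 1) v) = (g' - 1) (f v) := by
  simp only [LinearMap.sub_apply, map_sub, h, Module.End.one_apply]

theorem rlval_A {f : U →ₗ[O] W} {g : Module.End O U} {g' : Module.End O W}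
    (h : ∀ v, f (g v) = g' (f v)) (i : Bool) {v : U} (hv : v ∈ zA p g i) : f v ∈ zA p g' i := by
  cases i
  · exact LinearMap.mem_ker.2 (by rw [← rlval_sub h, LinearMap.mem_ker.1 hv, map_zero])
  · exact LinearMap.mem_ker.2 (by rw [← rlval_sum h, LinearMap.mem_ker.1 hv, map_zero])

theorem rlval_B {f : U →ₗ[O] W} {g : Module.End O U} {g' : Module.End O W}
    (h : ∀ v, f (g v) = g' (f v)) (i : Bool) {v : U} (hv : v ∈ zB p g i) : f v ∈ zB p g' i := by
  cases i
  · obtain ⟨y, rfl⟩ := hv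
    exact ⟨f y, (rlval_sum h p y).symm⟩
  · obtain ⟨y, rfl⟩ := hv
    exact ⟨f y, (rlval_sub h y).symm⟩

theorem rlval_idem (hW : Wt p O) (g : Module.End O U) (hg : g ^ p = 1) (i : Bool)
    (Φ : Submodule O (U × M)) (h : Gr p (zA p g i) (zB p g i) Φ)
    (h0 : zA p g (!i) ≤ zB p g (!i)) (e : Module.End O U) (e' : Module.End O M)
    (he : ∀ v, e (e v) = e v) (he' : ∀ v, e' (e' v) = e' v) (hc : ∀ v, e (g v) = g (e v))
    (hs : ∀ v m, (v, m) ∈ Φ → (e v, e' m) ∈ Φ) :
    LinearMap.trace O U (e * g) = sg O i * LinearMap.trace O M e' := by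
  let j := (LinearMap.range e).subtype
  let r := e.rangeRestrict
  let j' := (LinearMap.range e').subtype
  let r' := e'.rangeRestrict
  have ej : ∀ v, e (j v) = j v := by rintro ⟨_, v, rfl⟩; exact he v
  have ej' : ∀ v, e' (j' v) = j' v := by rintro ⟨_, v, rfl⟩; exact he' v
  have rj : ∀ v, r (j v) = v := fun v => Subtype.ext (ej v)
  have rj' : ∀ v, r' (j' v) = v := fun v => Subtype.ext (ej' v)
  let g' : Module.End O (LinearMap.range e) := r ∘ₗ g ∘ₗ j
  have hj : ∀ v, j (g' v) = g (j v) := fun v => by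
    change e (g (j v)) = _
    rw [hc, ej]
  have hr : ∀ v, r (g v) = g' (r v) := fun v => Subtype.ext (by
    change e (g v) = e (g (e v))
    rw [← hc, he])
  have hg' : g' ^ p = 1 := LinearMap.ext fun v => Subtype.ext (by
    change j _ = j v
    rw [rlval_pow hj, hg, Module.End.one_apply])
  have iA : ∀ i v, v ∈ zA p g' i ↔ j v ∈ zA p g i := fun i v =>
    ⟨rlval_A hj i, fun k => rj v ▸ rlval_A hr i k⟩
  have iB : ∀ i v, v ∈ zB p g' i ↔ j v ∈ zB p g i := fun i v =>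
    ⟨rlval_B hj i, fun k => rj v ▸ rlval_B hr i k⟩
  have G : Gr p (zA p g' i) (zB p g' i) (Φ.comap (j.prodMap j')) := by
    refine ⟨fun v => ?_, fun m => ?_, fun v => ?_, fun m => ?_⟩
    · rw [iA, h.dom]
      refine ⟨fun ⟨m, k⟩ => ⟨r' m, ?_⟩, fun ⟨m, k⟩ => ⟨j' m, k⟩⟩
      have := hs _ _ k
      rwa [ej] at this
    · obtain ⟨v, k⟩ := h.ran (j' m)
      have := hs _ _ k
      rw [ej'] at this
      exact ⟨r v, this⟩
    · rw [iB, ← h.kl]
      rfl
    · refine (h.kr (j' m)).trans ⟨fun ⟨y, k⟩ => ⟨r' y, ?_⟩, fun ⟨y, k⟩ => ⟨j' y, ?_⟩⟩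
      · rw [← map_smul, ← k, rj']
      · rw [k, map_smul]
  have t := hW.l3 g' hg' i _ G fun v hv => (iB _ v).2 (h0 ((iA _ v).1 hv))
  have t1 : LinearMap.trace O U (e * g) = LinearMap.trace O _ g' := by
    have := LinearMap.trace_comp_comm' (r ∘ₗ g) j
    exact this
  have t2 : LinearMap.trace O M e' = (Module.finrank O (LinearMap.range e') : O) := by
    have := LinearMap.trace_comp_comm' r' j'
    rw [show r' ∘ₗ j' = LinearMap.id from LinearMap.ext rj', LinearMap.trace_id] at this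
    exact this
  rw [t1, t2, t]

/-- the averaging idempotent. -/
noncomputable def rlvalE (u c : O) (m : ℕ) (κ : Module.End O U) : Module.End O U :=
  u • ∑ j ∈ Finset.range m, (c • κ) ^ j

theorem rlval_fix {u c : O} {m : ℕ} {κ : Module.End O U} (hc : c ^ m = 1) (hκ : κ ^ m = 1) :
    (c • κ) * rlvalE u c m κ = rlvalE u c m κ := by
  have := mul_geom_sum (c • κ) m
  rw [smul_pow, hc, hκ, one_smul, sub_self, sub_mul, one_mul, sub_eq_zero] at this
  rw [rlvalE, mul_smul_comm, this]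

theorem rlval_sq {u c : O} {m : ℕ} {κ : Module.End O U} (hu : u * m = 1) (hc : c ^ m = 1)
    (hκ : κ ^ m = 1) (v : U) : rlvalE u c m κ (rlvalE u c m κ v) = rlvalE u c m κ v := by
  have k : ∀ j : ℕ, (c • κ) ^ j * rlvalE u c m κ = rlvalE u c m κ := fun j => by
    induction j with
    | zero => rw [pow_zero, one_mul]
    | succ j ih => rw [pow_succ, mul_assoc, rlval_fix hc hκ, ih]
  have : rlvalE u c m κ * rlvalE u c m κ = rlvalE u c m κ := by
    conv_lhs => arg 1; rw [rlvalE]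
    rw [smul_mul_assoc, Finset.sum_mul]
    simp only [k, Finset.sum_const, Finset.card_range]
    rw [← Nat.cast_smul_eq_nsmul O, smul_smul, hu, one_smul]
  exact LinearMap.congr_fun this v

theorem rlval_tot {u ζ : O} {m : ℕ} (hu : u * m = 1) (hζ : IsPrimitiveRoot ζ m)
    (κ : Module.End O U) : ∑ t ∈ Finset.range m, rlvalE u (ζ ^ t) m κ = 1 := by
  have m0 : 0 < m := Nat.pos_of_ne_zero (by rintro rfl; simp at hu)
  simp only [rlvalE, smul_pow, ← Finset.smul_sum]
  rw [Finset.sum_comm]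
  simp only [← Finset.sum_smul]
  rw [Finset.sum_eq_single 0]
  · simp only [pow_zero, Finset.sum_const, Finset.card_range, nsmul_eq_mul, mul_one, smul_smul, hu,
      one_smul]
  · intro j hj j0
    have n : ζ ^ j - 1 ≠ 0 := sub_ne_zero.2 (hζ.pow_ne_one_of_pos_of_lt j0 (Finset.mem_range.1 hj))
    have := mul_geom_sum (ζ ^ j) m
    rw [← pow_mul, mul_comm j, pow_mul, hζ.pow_eq_one, one_pow, sub_self] at this
    have z := (mul_eq_zero.1 this).resolve_left n
    simp only [← pow_mul] at z ⊢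
    simp only [mul_comm _ j, z, zero_smul]
  · exact fun k => absurd (Finset.mem_range.2 m0) k

theorem rlval_dec {u ζ : O} {m : ℕ} (hu : u * m = 1) (hζ : IsPrimitiveRoot ζ m)
    {κ : Module.End O U} (hκ : κ ^ m = 1) (g : Module.End O U) :
    LinearMap.trace O U (κ * g) = ∑ t ∈ Finset.range m,
      (ζ ^ t) ^ (m - 1) * LinearMap.trace O U (rlvalE u (ζ ^ t) m κ * g) := by
  have m0 : 0 < m := Nat.pos_of_ne_zero (by rintro rfl; simp at hu)
  conv_lhs => rw [← mul_one κ, ← rlval_tot hu hζ κ, Finset.mul_sum, Finset.sum_mul, map_sum]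
  refine Finset.sum_congr rfl fun t _ => ?_
  have hc : (ζ ^ t) ^ m = 1 := by rw [← pow_mul, mul_comm, pow_mul, hζ.pow_eq_one, one_pow]
  conv_rhs => rw [← smul_eq_mul, ← map_smul, ← smul_mul_assoc, ← rlval_fix hc hκ,
    smul_mul_assoc (ζ ^ t), smul_smul, ← pow_succ, Nat.sub_add_cancel m0, hc, one_smul]

theorem rlval_main (hW : Wt p O) (g : Module.End O U) (hg : g ^ p = 1) (i : Bool)
    (Φ : Submodule O (U × M)) (h : Gr p (zA p g i) (zB p g i) Φ)
    (h0 : zA p g (!i) ≤ zB p g (!i)) {m : ℕ} (hm : ¬ p ∣ m) (κ : Module.End O U)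
    (μ : Module.End O M) (hκ : κ ^ m = 1) (hμ : μ ^ m = 1) (hc : κ * g = g * κ)
    (hs : ∀ v w, (v, w) ∈ Φ → (κ v, μ w) ∈ Φ) :
    LinearMap.trace O U (κ * g) = sg O i * LinearMap.trace O M μ := by
  obtain ⟨ζ, hζ⟩ := hW.prim hm
  obtain ⟨u, hu⟩ := (hW.unit hm).exists_left_inv
  rw [rlval_dec hu hζ hκ, ← mul_one μ, rlval_dec hu hζ hμ, Finset.mul_sum]
  refine Finset.sum_congr rfl fun t _ => ?_
  have hz : (ζ ^ t) ^ m = 1 := by rw [← pow_mul, mul_comm, pow_mul, hζ.pow_eq_one, one_pow]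
  rw [mul_one, mul_left_comm, rlval_idem hW g hg i Φ h h0 _ _ (rlval_sq hu hz hκ)
    (rlval_sq hu hz hμ) (fun v => ?_) fun v w k => ?_]
  · have : Commute (rlvalE u (ζ ^ t) m κ) g :=
      (Commute.sum_left _ _ _ fun j _ => (Commute.smul_left hc _).pow_left j).smul_left u
    exact LinearMap.congr_fun this v
  · have k' : ∀ j : ℕ, (((ζ ^ t • κ) ^ j) v, ((ζ ^ t • μ) ^ j) w) ∈ Φ := fun j => by
      induction j with
      | zero => exact k
      | succ j ih =>
        rw [pow_succ', pow_succ']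
        exact Φ.smul_mem (ζ ^ t) (hs _ _ ih)
    have := Φ.smul_mem u (Φ.sum_mem fun j (_ : j ∈ Finset.range m) => k' j)
    rw [← prod_mk_sum] at this
    simpa only [rlvalE, LinearMap.smul_apply, LinearMap.sum_apply, Prod.smul_mk] using this

end

theorem Wt.val (hW : Wt p O) (hQ : Nat.card Q = p) {V : Lat O X} {M : Lat O (Nz Q)} {i : Bool}
    {Φ : Submodule O (V.V × M.V)} (h : Tie p Q V M i Φ) (h0 : V.Z Q (!i)) (k : Nz Q)
    (hk : ∀ g ∈ Q, (k : X) * g = g * k) (ho : ¬ p ∣ orderOf k) {g : X} (hg : g ∈ Q)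
    (h1 : g ≠ 1) : V.ch (k * g) = sg O i * M.ch k := by
  have G := h.gr
  rw [Lat.Z] at h0
  rw [V.A_eq hW.prime hQ hg h1, V.B_eq hW.prime hQ hg h1] at G h0
  rw [Lat.ch, map_mul]
  refine rlval_main hW _ (V.pow_p hQ hg) i Φ G h0 ho _ _ ?_ ?_ ?_ (h.st k)
  · rw [← map_pow, ← Subgroup.coe_pow, pow_orderOf_eq_one, Subgroup.coe_one, map_one]
  · rw [← map_pow, pow_orderOf_eq_one, map_one]
  · rw [← map_mul, hk g hg, map_mul]

theorem Wt.val0 (hW : Wt p O) (hQ : Nat.card Q = p) {V : Lat O X} (h0 : ∀ i, V.Z Q i) (k : X)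
    (hk : ∀ g ∈ Q, k * g = g * k) (ho : ¬ p ∣ orderOf k) {g : X} (hg : g ∈ Q)
    (h1 : g ≠ 1) : V.ch (k * g) = 0 := by
  have z : ∀ i, zA p (V.ρ g) i ≤ zB p (V.ρ g) i := fun i => by
    rw [← V.A_eq hW.prime hQ hg h1, ← V.B_eq hW.prime hQ hg h1]; exact h0 i
  have c : V.ρ k * V.ρ g = V.ρ g * V.ρ k := by rw [← map_mul, hk g hg, map_mul]
  have G : Gr p (zA p (V.ρ g) false) (zB p (V.ρ g) false)
      ((zA p (V.ρ g) false).prod (⊤ : Submodule O PUnit)) :=
    ⟨fun v => ⟨fun h => ⟨0, h, trivial⟩, fun ⟨_, h⟩ => h.1⟩, fun m => ⟨0, zero_mem _, trivial⟩,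
      fun v => ⟨fun h => z _ h.1, fun h => ⟨zB_le (V.pow_p hQ hg) _ h, trivial⟩⟩,
      fun m => iff_of_true ⟨zero_mem _, trivial⟩ ⟨0, rfl⟩⟩
  rw [Lat.ch, map_mul, rlval_main hW _ (V.pow_p hQ hg) false _ G (z _) ho _ 0
    (by rw [← map_pow, pow_orderOf_eq_one, map_one]) (Subsingleton.elim _ _) c
    fun v w h => ⟨rlval_A (LinearMap.congr_fun c) _ h.1, trivial⟩, map_zero, mul_zero]

end Pool.Agent.Lib.MP_1ae3da_al.CT.R5
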