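import Pool.Agent.Lib.MP_1ae3da_al.C.RLKer
import Pool.Agent.Lib.MP_1ae3da_al.C.RLShift
import Pool.Agent.Lib.MP_1ae3da_al.C.RLVal

set_option autoImplicit false
set_option linter.unusedSectionVars false

namespace Pool.Agent.Lib.MP_1ae3da_al.CT.R5

open Function

variable {O X Y : Type} [CommRing O] [IsDomain O] [IsDiscreteValuationRing O] [CharZero O]
  [Group X] [Finite X] [Group Y] [Finite Y] {p : ℕ} {Q : Subgroup X}

theorem Wt.walk1 (hW : Wt p O) (hQ : Syl p Q) {V : Lat O X} {M : Lat O (Nz Q)}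
    {Φ : Submodule O (V.V × M.V)} (h : Typ p Q V M true Φ) :
    ∃ (W : Lat O X) (Φ' : Submodule O (W.V × M.V)), Typ p Q W M false Φ' := by
  obtain ⟨P, q, hP, hq, hs, hm⟩ := hW.cover V
  obtain ⟨W, j, S⟩ := exists_ses hq hs
  obtain ⟨Φ', ht⟩ := S.shift1 hW.prime hQ.card (hP.z Q) h.tie
  exact ⟨W, Φ', hW.ker_ir hQ S hP hm h.irr true (h.tie.ne hW h.mirr.1) ht h.mirr h.triv, h.mirr,
    h.triv, ht, (S.z hW.prime hQ.card (hP.z Q) false).1 h.zero⟩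

theorem Wt.walk0 (hW : Wt p O) (hQ : Syl p Q) {ω : Nz Q →* Oˣ} (hω : Omg p Q ω) {V : Lat O X}
    {M : Lat O (Nz Q)} {Φ : Submodule O (V.V × M.V)} (h : Typ p Q V M false Φ) :
    ∃ (W : Lat O X) (Φ' : Submodule O (W.V × (M.sc ω).V)) (V2 W2 : Lat O X)
      (M2 : Lat O (Nz Q)) (Φ2 : Submodule O (V2.V × M2.V)) (Φ3 : Submodule O (W2.V × M2.V)),
      Typ p Q W (M.sc ω) true Φ' ∧ Typ p Q V2 M2 true Φ2 ∧ Typ p Q W2 M2 false Φ3 ∧
        (∀ x, V2.ch x = W.ch x) ∧ ∀ x, W2.ch x = V.ch x := by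
  obtain ⟨P, q, hP, hq, hs, hm⟩ := hW.cover V
  obtain ⟨W, j, S⟩ := exists_ses hq hs
  obtain ⟨Φ', ht⟩ := S.shift0 hW.prime hQ.card (hP.z Q) hω h.tie
  have tW : Typ p Q W (M.sc ω) true Φ' :=
    ⟨hW.ker_ir hQ S hP hm h.irr false (h.tie.ne hW h.mirr.1) ht (h.mirr.sc ω)
      (hω.triv hW hQ.card h.triv), h.mirr.sc ω, hω.triv hW hQ.card h.triv, ht,
      (S.z hW.prime hQ.card (hP.z Q) true).1 h.zero⟩
  obtain ⟨s, s1, s2⟩ := exists_sec hq hs
  obtain ⟨T, t1, t2, t3, t4⟩ := exists_sat P s1.range_st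
  obtain ⟨V2, q2, hq2, hs2, k2⟩ := exists_quo P t1 t2
  obtain ⟨W2, j2, S2⟩ := exists_ses hq2 hs2
  have n0 : (Nat.card X : O) ≠ 0 := Nat.cast_ne_zero.2 Nat.card_pos.ne'
  have dis : ∀ y, q y = 0 → q2 y = 0 → y = 0 := fun y a b => by
    obtain ⟨c, c0, v, hv⟩ := t4 y (k2 ▸ b)
    have e := congrArg q hv
    rw [s2, map_smul, a, smul_zero] at e
    rw [(smul_eq_zero.1 e).resolve_left n0, map_zero] at hv
    exact (smul_eq_zero.1 hv.symm).resolve_left c0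
  have z1 : ∀ w, q (j w) = 0 := fun w => (S.ex ▸ LinearMap.mem_range_self j w :
    j w ∈ LinearMap.ker q)
  have z2 : ∀ w, q2 (j2 w) = 0 := fun w => (S2.ex ▸ LinearMap.mem_range_self j2 w :
    j2 w ∈ LinearMap.ker q2)
  have z3 : ∀ v, s v ∈ LinearMap.ker q2 := fun v => k2 ▸ t3 (LinearMap.mem_range_self s v)
  have a1 : W2.Hom V (q ∘ₗ j2) := fun x v => by
    rw [LinearMap.comp_apply, S2.hj, hq, LinearMap.comp_apply]
  have a2 : Injective (q ∘ₗ j2) := (injective_iff_map_eq_zero _).2 fun w hw =>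
    S2.inj ((dis _ hw (z2 w)).trans (map_zero j2).symm)
  have a3 : ∀ v, ∃ c : O, c ≠ 0 ∧ c • v ∈ LinearMap.range (q ∘ₗ j2) := fun v => by
    obtain ⟨w, hw⟩ : s v ∈ LinearMap.range j2 := S2.ex ▸ z3 v
    exact ⟨_, n0, w, by rw [LinearMap.comp_apply, hw, s2]⟩
  have b1 : W.Hom V2 (q2 ∘ₗ j) := fun x v => by
    rw [LinearMap.comp_apply, S.hj, hq2, LinearMap.comp_apply]
  have b2 : Injective (q2 ∘ₗ j) := (injective_iff_map_eq_zero _).2 fun w hw =>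
    S.inj ((dis _ (z1 w) hw).trans (map_zero j).symm)
  have b3 : ∀ v, ∃ c : O, c ≠ 0 ∧ c • v ∈ LinearMap.range (q2 ∘ₗ j) := fun v => by
    obtain ⟨y, rfl⟩ := hs2 v
    obtain ⟨w, hw⟩ : (Nat.card X : O) • y - s (q y) ∈ LinearMap.range j := by
      rw [S.ex, LinearMap.mem_ker, map_sub, map_smul, s2, sub_self]
    exact ⟨_, n0, w, by
      rw [LinearMap.comp_apply, hw, map_sub, map_smul, LinearMap.mem_ker.1 (z3 _), sub_zero]⟩
  have c1 := isog_ch b1 b2 b3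
  obtain ⟨g, hg, g1⟩ := exists_gen hW.prime hQ.card
  have val : ∀ {U : Lat O X} {N : Lat O (Nz Q)} {i : Bool} {Ψ : Submodule O (U.V × N.V)},
      Typ p Q U N i Ψ → U.ch g = sg O i * N.rk ∧ 0 < N.rk := fun h => by
    have := hW.val hQ.card h.tie h.zero 1 (fun g _ => by simp)
      (by rw [orderOf_one, Nat.dvd_one]; exact hW.prime.ne_one) hg g1
    rw [OneMemClass.coe_one, one_mul, Lat.ch_one] at this
    have := h.mirr.1
    exact ⟨‹_›, Module.finrank_pos⟩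
  obtain ⟨v1, v2⟩ := val tW
  rcases hW.typ_ex hQ ((isog_ir b1 b2 b3).1 tW.irr) with h0 | ⟨M2, i, Φ2, t⟩
  · have := hW.val0 hQ.card h0 1 (fun g _ => by simp)
      (by rw [orderOf_one, Nat.dvd_one]; exact hW.prime.ne_one) hg g1
    rw [one_mul, ← c1, v1, sg, neg_one_mul, neg_eq_zero, Nat.cast_eq_zero] at this
    omega
  · obtain ⟨v3, v4⟩ := val t
    cases i
    · rw [← c1, v1, sg, sg, neg_one_mul, one_mul, neg_eq_iff_add_eq_zero, ← Nat.cast_add,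
        Nat.cast_eq_zero] at v3
      omega
    · obtain ⟨Φ3, t3⟩ := S2.shift1 hW.prime hQ.card (hP.z Q) t.tie
      exact ⟨W, Φ', V2, W2, M2, Φ2, Φ3, tW, t, ⟨(isog_ir a1 a2 a3).2 h.irr, t.mirr, t.triv, t3,
        (S2.z hW.prime hQ.card (hP.z Q) false).1 t.zero⟩, fun x => (c1 x).symm, isog_ch a1 a2 a3⟩

end Pool.Agent.Lib.MP_1ae3da_al.CT.R5
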