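import Pool.Agent.Lib.MP_1ae3da_al.C.RLSch
import Pool.Agent.Lib.MP_1ae3da_al.C.RLMM
import Pool.Agent.Lib.MP_1ae3da_al.C.RLWalk
import Pool.Agent.Lib.MP_1ae3da_al.C.RLSemi
import Pool.Agent.Lib.MP_1ae3da_al.C.RCi

set_option autoImplicit false
set_option linter.unusedSectionVars false

namespace Pool.Agent.Lib.MP_1ae3da_al.CT.R5

open Function Submodule

variable {F k X Y : Type} [Field F] [CharZero F] [IsAlgClosed F] [Field k] [Group X] [Finite X]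
  [Group Y] [Finite Y] {p : ℕ} {O R : Subring F} [IsDiscreteValuationRing O] {r : F → k}
  {GG : Subgroup (RingAut F)} {Q H : Subgroup X} {ι : Y →* X} {n n' : ℕ}
  {ρ : MonoidAlgebra F X →ₗ[F] Matrix (Fin n) (Fin n) F}
  {ρ' : MonoidAlgebra F X →ₗ[F] Matrix (Fin n') (Fin n') F}
  {σ : RingAut F} {γ : RingAut (MonoidAlgebra F X)} {a a' e ψ : MonoidAlgebra F X}

variable {v v' : Set (MonoidAlgebra F X)} {i : Bool}

theorem rli_sca (hW : Wt p O) (hQ : Syl p Q) {V : Lat O X} {M : Lat O (Nz Q)}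
    {Φ : Submodule O (V.V × M.V)} (ht : Typ p Q V M i Φ) : M.Sca :=
  have : (Q.subgroupOf (Nz Q)).Normal := Subgroup.normal_in_normalizer
  hW.loc_sca hQ.sub ht.triv ht.mirr

theorem rli_eq {M : Lat O (Nz Q)} (ha : a ∈ span F (HX F (Nz Q))) (ha' : a' ∈ span F (HX F (Nz Q)))
    (h : M.Idem F (cf (Nz Q).subtype a)) (h' : M.Idem F (cf (Nz Q).subtype a')) : a = a' :=
  cf_ext (Nz Q).subtype_injective (Nz Q).range_subtype ha ha' (funext fun y =>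
    mul_left_cancel₀ (Nat.cast_ne_zero.2 Nat.card_pos.ne') ((h y).trans (h' y).symm))

theorem ty_of (hW : Wt p O) (hQ : Syl p Q) {V : Lat O X} {M : Lat O (Nz Q)}
    {Φ : Submodule O (V.V × M.V)} (ht : Typ p Q V M i Φ) : ∃ ψ, Ty p O Q (Sup V) ψ i ∧
      M.Idem F (cf (Nz Q).subtype ψ) := by
  obtain ⟨ψ, h1, h2⟩ := idem_ex (F := F) (Nz Q).subtype_injective (Nz Q).range_subtype M
  exact ⟨ψ, ⟨V, M, Φ, ht, (idem_irr (Nz Q).subtype_injective (Nz Q).range_subtype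
    (rli_sca hW hQ ht) ht.mirr.1 h1 h2).1, h2, rfl⟩, h2⟩

theorem ty_dom (h : PM p O R r GG) (hQ : Syl p Q) (ht : Ty p O Q v ψ i) :
    (∃ e ∈ Irr F (HX F (⊤ : Subgroup X)), v = Orb O GG e) ∧ ψ ∈ Psi F Q := by
  obtain ⟨V, M, Φ, ht, h1, h2, rfl⟩ := ht
  obtain ⟨e, he⟩ := sup_ne (F := F) ht.irr.1
  exact ⟨⟨e, he.1, sup_orb h ht.irr he⟩,
    idem_psi (rli_sca (wt_of_pm h) hQ ht) ht.mirr.1 ht.triv h1.1.1 h2⟩

theorem ty_val (h : PM p O R r GG) (hQ : Syl p Q) (h2 : ¬ p ^ 2 ∣ Nat.card X)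
    (ht : Ty p O Q v ψ i) : ∃ s : ℕ, 0 < s ∧ ∀ k ∈ Kp p Q, ∀ q ∈ Q, q ≠ 1 →
      (s : F) * ∑ᶠ e ∈ v, Chv F (HX F ⊤) e (gu F X (k * q)) =
        (if i then -1 else 1) * Chv F (HX F (NQ Q)) ψ (gu F X k) := by
  obtain ⟨V, M, Φ, ht, h1, h3, rfl⟩ := ht
  have := Fact.mk h.prime
  have hW := wt_of_pm h
  obtain ⟨s, s0, hs⟩ := sup_ch h ht.irr
  refine ⟨s, s0, fun k hk q hq q1 => ?_⟩
  obtain ⟨k1, k2⟩ := (mem_kp hQ.card h2).1 hk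
  have kn : k ∈ Nz Q := Subgroup.centralizer_le_normalizer _ k1
  have a := hW.val hQ.card ht.tie ht.zero ⟨k, kn⟩ (fun g hg => (kp_comm hg hk).symm)
    (by rwa [Subgroup.orderOf_mk]) hq q1
  have b := (idem_irr (Nz Q).subtype_injective (Nz Q).range_subtype
    (rli_sca hW hQ ht) ht.mirr.1 h1.1.1 h3).2 ⟨k, kn⟩
  rw [← hs, show V.ch (k * q) = _ from a, show Chv F (HX F (NQ Q)) ψ (gu F X k) = _ from b]
  cases i <;> simp [sg]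

theorem ty_tot (h : PM p O R r GG) (hQ : Syl p Q) (h2 : ¬ p ^ 2 ∣ Nat.card X)
    (he : e ∈ Irr F (HX F (⊤ : Subgroup X))) : (∃ ψ i, Ty p O Q (Orb O GG e) ψ i) ∨
      ∀ k ∈ Kp p Q, ∀ q ∈ Q, q ≠ 1 →
        ∑ᶠ e' ∈ Orb O GG e, Chv F (HX F ⊤) e' (gu F X (k * q)) = 0 := by
  have := Fact.mk h.prime
  have hW := wt_of_pm h
  obtain ⟨V, hV, hs⟩ := sup_ex O he
  rw [← sup_orb h hV hs]
  rcases hW.typ_ex hQ hV with h0 | ⟨M, i, Φ, ht⟩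
  · refine .inr fun k hk q hq q1 => ?_
    obtain ⟨s, s0, hs⟩ := sup_ch h hV
    have a := hs (k * q)
    rw [hW.val0 hQ.card h0 k (fun g hg => (kp_comm hg hk).symm) ((mem_kp hQ.card h2).1 hk).2 hq q1,
      ZeroMemClass.coe_zero] at a
    exact (mul_eq_zero.1 a.symm).resolve_left (Nat.cast_ne_zero.2 s0.ne')
  · obtain ⟨ψ, h1, -⟩ := ty_of hW hQ ht
    exact .inl ⟨ψ, i, h1⟩

theorem ty_uniq (hW : Wt p O) (hQ : Syl p Q) (ht : Ty p O Q v ψ i) (ht' : Ty p O Q v' ψ i) :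
    v = v' := by
  obtain ⟨V, M, Φ, ht, -, h2, rfl⟩ := ht
  obtain ⟨V', M', Φ', ht', -, h2', rfl⟩ := ht'
  have : (Q.subgroupOf (Nz Q)).Normal := Subgroup.normal_in_normalizer
  obtain ⟨f, f1, f2⟩ := hW.loc_iso hQ.sub ht.triv ht.mirr ht'.triv ht'.mirr (h2.ch_eq h2')
  obtain ⟨w, w1, w2, -⟩ := hW.typ_iso hQ ht ht' f f1 f2
  exact sup_congr (isog_ch w1 w2.1 fun x => ⟨1, one_ne_zero, by
    rw [one_smul]; exact w2.2 x⟩)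

theorem ty_w1 (hW : Wt p O) (hQ : Syl p Q) (ht : Ty p O Q v ψ true) :
    ∃ v', Ty p O Q v' ψ false := by
  obtain ⟨V, M, Φ, ht, h1, h2, rfl⟩ := ht
  obtain ⟨W, Φ', h⟩ := hW.walk1 hQ ht
  exact ⟨_, W, M, Φ', h, h1, h2, rfl⟩

theorem ty_w2 (hW : Wt p O) (hQ : Syl p Q) {ω : Nz Q →* Oˣ} (hω : Omg p Q ω)
    {T : MonoidAlgebra F X →ₗ[F] MonoidAlgebra F X}
    (h1 : ∀ a ∈ span F (HX F (Nz Q)), T a ∈ span F (HX F (Nz Q)))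
    (h2 : ∀ (a : MonoidAlgebra F X) (y : Nz Q),
      (T a).coeff (y : X) = ((ω y⁻¹ : O) : F) * a.coeff (y : X)) (ht : Ty p O Q v ψ false) :
    ∃ v' ψ', Ty p O Q v' (T ψ) true ∧ Ty p O Q v' ψ' true ∧ Ty p O Q v ψ' false := by
  obtain ⟨V, M, Φ, ht, h3, h4, rfl⟩ := ht
  obtain ⟨W, Φ', V2, W2, M2, Φ2, Φ3, t1, t2, t3, c1, c2⟩ := hW.walk0 hQ hω ht
  have a : (M.sc ω).Idem F (cf (Nz Q).subtype (T ψ)) := h4.sc ω fun y => h2 ψ y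
  obtain ⟨ψ', ⟨_, _, _, -, b, -⟩, c⟩ := ty_of hW hQ t2
  exact ⟨Sup W, ψ', ⟨W, _, Φ', t1, (idem_irr (Nz Q).subtype_injective (Nz Q).range_subtype
    (rli_sca hW hQ t1) t1.mirr.1 (h1 ψ h3.1.1) a).1, a, rfl⟩,
    ⟨V2, M2, Φ2, t2, b, c, (sup_congr c1).symm⟩, ⟨W2, M2, Φ3, t3, b, c, (sup_congr c2).symm⟩⟩

theorem ty_eqv (h : PM p O R r GG) (hX : commutator X = ⊤) (hQ : Syl p Q)
    (h2 : ¬ p ^ 2 ∣ Nat.card X) (hγ : γ ∈ Gm GG Q) (ht : Ty p O Q v ψ i) :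
    Ty p O Q (γ '' v) (γ ψ) i := by
  obtain ⟨V, M, Φ, ht, h3, h4, rfl⟩ := ht
  have := Fact.mk h.prime
  obtain ⟨σ, hσ, α, sl, hα, hq, -⟩ := gm_aut hX hQ.card h2 hγ
  obtain ⟨σ0, h0⟩ := res_O h hσ
  obtain ⟨β, hβ⟩ := exists_res α hq
  obtain ⟨W, G, hG⟩ := exists_semi σ0 α V
  obtain ⟨M', G', hG'⟩ := exists_semi σ0 β M
  obtain ⟨Φ', ht', -⟩ := hG.typ hβ hG' ht
  refine ⟨W, M', Φ', ht', (irr_stb hγ.1.1 hγ.2).2 h3, h4.semi h0 hG'.rk hG'.ch fun y => ?_,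
    (sup_aut h0 sl hα hG.ch).symm⟩
  change (γ ψ).coeff (β y : X) = σ (ψ.coeff (y : X))
  rw [hβ.coe, coeff_aut sl hα]

end Pool.Agent.Lib.MP_1ae3da_al.CT.R5
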