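import Pool.Agent.Lib.MP_1ae3da_al.C.RLSub
import Pool.Agent.Lib.MP_1ae3da_al.C.RLTr

set_option autoImplicit false
set_option linter.unusedSectionVars false

namespace Pool.Agent.Lib.MP_1ae3da_al.CT.R5

open Function

variable {O X Y : Type} [CommRing O] [IsDomain O] [IsDiscreteValuationRing O] [CharZero O]
  [Group X] [Finite X] [Group Y] [Finite Y] {p : ℕ} {Q : Subgroup X}

theorem rlproj_av [Fintype X] {V W : Lat O X} (s : V.V →ₗ[O] W.V) :
    V.Hom W (∑ x : X, W.ρ x ∘ₗ s ∘ₗ V.ρ x⁻¹) := by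
  intro y v
  simp only [LinearMap.sum_apply, LinearMap.comp_apply, map_sum]
  rw [← Equiv.sum_comp (Equiv.mulLeft y)]
  refine Finset.sum_congr rfl fun x _ => ?_
  rw [Equiv.coe_mulLeft, map_mul, Module.End.mul_apply, ← Module.End.mul_apply (V.ρ _) (V.ρ y),
    ← map_mul, mul_inv_rev, inv_mul_cancel_right]

theorem rlproj_hig [Fintype X] {P : Lat O X} :
    P.Hig ↔ ∃ h : Module.End O P.V, ∀ v, ∑ x : X, P.ρ x (h (P.ρ x⁻¹ v)) = v := by
  refine exists_congr fun h => ?_
  rw [finsum_eq_sum_of_fintype, LinearMap.ext_iff]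
  simp only [LinearMap.sum_apply, Module.End.mul_apply, Module.End.one_apply]

theorem Lat.Hig.lift {P E U : Lat O X} (hP : P.Hig) (π : E.V →ₗ[O] U.V) (hπ : E.Hom U π)
    (hs : Surjective π) (f : P.V →ₗ[O] U.V) (hf : P.Hom U f) :
    ∃ f' : P.V →ₗ[O] E.V, P.Hom E f' ∧ ∀ v, π (f' v) = f v := by
  have := Fintype.ofFinite X
  obtain ⟨h, hh⟩ := rlproj_hig.1 hP
  obtain ⟨s, h1⟩ := Module.projective_lifting_property π (f ∘ₗ h) hs
  have h2 : ∀ v, π (s v) = f (h v) := fun v => LinearMap.congr_fun h1 v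
  refine ⟨_, rlproj_av s, fun v => ?_⟩
  conv_rhs => rw [← hh v]
  simp only [LinearMap.sum_apply, LinearMap.comp_apply, map_sum]
  exact Finset.sum_congr rfl fun x _ => by rw [hπ, h2, hf]

theorem Lat.Hig.z {P : Lat O X} (hP : P.Hig) (Q : Subgroup X) (i : Bool) : P.Z Q i := by
  have := Fintype.ofFinite X
  have := Fintype.ofFinite Q
  obtain ⟨h, hh⟩ := rlproj_hig.1 hP
  obtain ⟨T, hT, -⟩ := Subgroup.exists_isComplement_right Q 1
  have := Fintype.ofFinite T
  intro v hv
  have h1 := free_orbit (W := P) i (∑ t : T, P.ρ (t : X) ∘ₗ h ∘ₗ P.ρ (t : X)⁻¹) hv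
  rw [finsum_eq_sum_of_fintype] at h1
  convert h1 using 1
  conv_lhs => rw [← hh v, ← Equiv.sum_comp (Equiv.ofBijective _ hT), Fintype.sum_prod_type]
  refine Finset.sum_congr rfl fun g _ => ?_
  simp only [LinearMap.sum_apply, LinearMap.comp_apply, map_sum]
  refine Finset.sum_congr rfl fun t _ => ?_
  show P.ρ ((g : X) * t) (h (P.ρ ((g : X) * t)⁻¹ v)) = _
  rw [mul_inv_rev, map_mul, map_mul]
  rfl

/-- the induced lattice of functions. -/
abbrev rlprojF (V : Lat O X) : Lat O X :=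
  { V := X → V.V
    ρ := { toFun := fun x => LinearMap.funLeft O V.V (fun y => x⁻¹ * y)
           map_one' := by ext f y; simp
           map_mul' := fun x z => by ext f y; simp [mul_assoc] } }

theorem rlproj_start (V : Lat O X) :
    ∃ (P : Lat O X) (q : P.V →ₗ[O] V.V), P.Hig ∧ P.Hom V q ∧ Surjective q := by
  classical
  have := Fintype.ofFinite X
  refine ⟨rlprojF V, ∑ y : X, V.ρ y ∘ₗ LinearMap.proj y, rlproj_hig.2
    ⟨LinearMap.single O (fun _ : X => V.V) 1 ∘ₗ LinearMap.proj 1, fun f => funext fun y => ?_⟩,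
    fun x f => ?_, fun v => ⟨Pi.single 1 v, ?_⟩⟩
  · rw [Finset.sum_apply, Finset.sum_eq_single y]
    · simp [LinearMap.funLeft_apply]
    · intro x _ hx
      have : x⁻¹ * y ≠ 1 := fun h => hx (inv_mul_eq_one.1 h)
      simp [LinearMap.funLeft_apply, this]
    · simp
  · simp only [LinearMap.sum_apply, LinearMap.comp_apply, map_sum]
    rw [← Equiv.sum_comp (Equiv.mulLeft x)]
    refine Finset.sum_congr rfl fun y _ => ?_
    simp [LinearMap.funLeft_apply]
  · simp only [LinearMap.sum_apply, LinearMap.comp_apply]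
    rw [Finset.sum_eq_single 1]
    · simp
    · intro x _ hx
      simp [hx]
    · simp

theorem Wt.cover (hW : Wt p O) (V : Lat O X) :
    ∃ (P : Lat O X) (q : P.V →ₗ[O] V.V), P.Hig ∧ P.Hom V q ∧ Surjective q ∧ Mini P V q := by
  classical
  have := Fintype.ofFinite X
  have hex : ∃ n, ∃ (P : Lat O X) (q : P.V →ₗ[O] V.V), P.Hig ∧ P.Hom V q ∧ Surjective q ∧
      P.rk = n := by
    obtain ⟨P, q, h1, h2, h3⟩ := rlproj_start V
    exact ⟨_, P, q, h1, h2, h3, rfl⟩
  obtain ⟨P, q, h1, h2, h3, h4⟩ := Nat.find_spec hex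
  refine ⟨P, q, h1, h2, h3, fun f hf hq => ?_⟩
  have := hW.cpl
  obtain ⟨e, g, y, n, e1, e2, e3, -, -, e4, e5, -, e6⟩ := rfit (p : O)
    (PrincipalIdealRing.isMaximal_of_irreducible hW.irr) f (IsIntegral.of_finite O f)
  have hc : ∀ {a b : Module.End O P.V}, Commute a f → b ∈ Algebra.adjoin O {f} → Commute a b :=
    fun ha hb => Algebra.commute_of_mem_adjoin_singleton_of_commute hb ha
  have he : P.Hom P e := fun x v =>
    (LinearMap.congr_fun (hc (a := P.ρ x) (LinearMap.ext fun v => (hf x v).symm) e5).eq v).symm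
  have hye : y * e = e * y := (hc (hc (Commute.refl f) e6).symm e5).eq
  have hn : ∀ (m : ℕ) v, q ((f ^ m) v) = q v := by
    intro m
    induction m with
    | zero => exact fun v => rfl
    | succ m ih => exact fun v => by rw [pow_succ', Module.End.mul_apply, hq, ih]
  have hN : (LinearMap.range (1 - e)).map q ≤ ⊥ := by
    refine hW.nak _ _ ?_
    rintro _ ⟨_, ⟨v, rfl⟩, rfl⟩
    refine ⟨0, zero_mem _, q ((1 - e) (y v)), ⟨_, ⟨_, rfl⟩, rfl⟩, ?_⟩
    have h5 : f ^ n * (1 - e) = (p : O) • ((1 - e) * y) := by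
      have h6 : (1 - e) * (1 - e) = 1 - e := by
        rw [mul_sub, mul_one, sub_mul, one_mul, e1, sub_self, sub_zero]
      rw [← h6, ← mul_assoc, e4, smul_mul_assoc, mul_sub, hye, mul_one, h6, sub_mul, one_mul]
    rw [zero_add, ← hn n, ← Module.End.mul_apply, h5, LinearMap.smul_apply, map_smul,
      Module.End.mul_apply]
  have hqe : ∀ v, q (e v) = q v := fun v => by
    have h5 : q ((1 - e) v) = 0 := hN ⟨_, ⟨v, rfl⟩, rfl⟩
    rw [LinearMap.sub_apply, map_sub, Module.End.one_apply] at h5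
    exact (sub_eq_zero.1 h5).symm
  obtain ⟨P', j, j1, j2, j3⟩ := exists_sub P he.range_st
  let e' : P.V →ₗ[O] P'.V := (LinearEquiv.ofInjective j j2).symm.toLinearMap ∘ₗ
    e.codRestrict (LinearMap.range j) fun v => j3 ▸ ⟨v, rfl⟩
  have hj : ∀ v, j (e' v) = e v := fun v =>
    congrArg Subtype.val ((LinearEquiv.ofInjective j j2).apply_symm_apply _)
  have hee : ∀ w, e' (j w) = w := fun w => j2 (by
    obtain ⟨v, hv⟩ : j w ∈ LinearMap.range e := j3 ▸ ⟨w, rfl⟩
    rw [hj, ← hv, ← Module.End.mul_apply, e1])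
  have he' : P.Hom P' e' := fun x v => j2 (by rw [hj, he, j1, hj])
  obtain ⟨h, hh⟩ := rlproj_hig.1 h1
  have hP' : P'.Hig := rlproj_hig.2 ⟨e' ∘ₗ h ∘ₗ j, fun w => by
    conv_rhs => rw [← hee w, ← hh (j w), map_sum]
    exact Finset.sum_congr rfl fun x _ => by
      rw [he', ← j1]
      rfl⟩
  have hle : Nat.find hex ≤ P'.rk := Nat.find_min' hex ⟨P', q ∘ₗ j, hP',
    fun x w => by rw [LinearMap.comp_apply, LinearMap.comp_apply, j1, h2],
    fun v => by
      obtain ⟨u, rfl⟩ := h3 v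
      exact ⟨e' u, by rw [LinearMap.comp_apply, hj, hqe]⟩, rfl⟩
  obtain ⟨W, i, hs⟩ := exists_ses he' fun w => ⟨j w, hee w⟩
  have h0 : W.rk = 0 := by have := hs.rk; omega
  have hsub : Subsingleton W.V := Module.finrank_zero_iff.1 h0
  have h7 : e = 1 := LinearMap.ext fun v => by
    obtain ⟨w, hw⟩ : e v - v ∈ LinearMap.range i := by
      rw [hs.ex, LinearMap.mem_ker]
      exact j2 (by rw [hj, map_sub, ← Module.End.mul_apply, e1, sub_self, map_zero])
    rw [Subsingleton.elim w 0, map_zero] at hw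
    exact sub_eq_zero.1 hw.symm
  rw [h7] at e2 e3
  exact ⟨LeftInverse.injective (g := g) fun v => LinearMap.congr_fun e2 v,
    RightInverse.surjective (g := g) fun v => LinearMap.congr_fun e3 v⟩

theorem exists_sec {P V : Lat O X} {q : P.V →ₗ[O] V.V} (h : P.Hom V q) (hs : Surjective q) :
    ∃ s : V.V →ₗ[O] P.V, V.Hom P s ∧ ∀ v, q (s v) = (Nat.card X : O) • v := by
  have := Fintype.ofFinite X
  obtain ⟨s, h1⟩ := Module.projective_lifting_property q LinearMap.id hs
  have h2 : ∀ v, q (s v) = v := fun v => LinearMap.congr_fun h1 v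
  refine ⟨_, rlproj_av s, fun v => ?_⟩
  simp only [LinearMap.sum_apply, LinearMap.comp_apply, map_sum]
  rw [Finset.sum_congr rfl (g := fun _ => v) fun x _ => by
    rw [h, h2, ← Module.End.mul_apply, ← map_mul, mul_inv_cancel, map_one, Module.End.one_apply],
    Finset.sum_const, Finset.card_univ, Nat.card_eq_fintype_card, Nat.cast_smul_eq_nsmul]

end Pool.Agent.Lib.MP_1ae3da_al.CT.R5
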