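import Pool.Agent.Lib.MP_1ae3da_al.C.RLTy
import Pool.Agent.Lib.MP_1ae3da_al.C.RLProj

set_option autoImplicit false
set_option linter.unusedSectionVars false

namespace Pool.Agent.Lib.MP_1ae3da_al.CT.R5

open Function

variable {O X Y : Type} [CommRing O] [IsDomain O] [IsDiscreteValuationRing O] [CharZero O]
  [Group X] [Finite X] [Group Y] [Finite Y] {p : ℕ} {Q : Subgroup X}

/-- the operator whose kernel is the module of cycles -/
noncomputable def rlker_op (p : ℕ) (V : Lat O X) (g : X) : Bool → Module.End O V.V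
  | false => V.ρ g - 1
  | true => ∑ k ∈ Finset.range p, V.ρ g ^ k

theorem rlker_memA (hp : p.Prime) (hc : Nat.card Q = p) {g : X} (hg : g ∈ Q) (h1 : g ≠ 1)
    (V : Lat O X) (i : Bool) (v : V.V) : v ∈ V.A Q i ↔ rlker_op p V g i v = 0 := by
  rw [V.A_eq hp hc hg h1]
  cases i <;> exact Iff.rfl

theorem rlker_memB (hp : p.Prime) (hc : Nat.card Q = p) {g : X} (hg : g ∈ Q) (h1 : g ≠ 1)
    (V : Lat O X) (i : Bool) (v : V.V) :
    v ∈ V.B Q (!i) ↔ ∃ u, rlker_op p V g i u = v := by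
  rw [V.B_eq hp hc hg h1]
  cases i <;> exact Iff.rfl

theorem rlker_op_hom {V W : Lat O X} {f : V.V →ₗ[O] W.V} (h : V.Hom W f) (g : X) (i : Bool)
    (v : V.V) : f (rlker_op p V g i v) = rlker_op p W g i (f v) := by
  cases i
  · change f (V.ρ g v - v) = W.ρ g (f v) - f v
    rw [map_sub, h g v]
  · change f ((∑ k ∈ Finset.range p, V.ρ g ^ k) v) = (∑ k ∈ Finset.range p, W.ρ g ^ k) (f v)
    rw [LinearMap.sum_apply, LinearMap.sum_apply, map_sum]
    refine Finset.sum_congr rfl fun k _ => ?_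
    rw [← map_pow, ← map_pow]
    exact h _ v

theorem rlker_comp {U V W : Lat O X} {f : U.V →ₗ[O] V.V} {g : V.V →ₗ[O] W.V} (hf : U.Hom V f)
    (hg : V.Hom W g) : U.Hom W (g ∘ₗ f) := fun x v => by
  rw [LinearMap.comp_apply, LinearMap.comp_apply, hf x v, hg x]

/-- a map onto an irreducible lattice that is onto on a non-zero Tate group splits -/
theorem rlker_split (hW : Wt p O) (hQ : Syl p Q) {E V : Lat O X} (hV : V.Ir) (i : Bool)
    (hne : ¬ V.Z Q i) {π : E.V →ₗ[O] V.V} (hπ : E.Hom V π)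
    (hs : ∀ v ∈ V.A Q i, ∃ z ∈ E.A Q i, π z - v ∈ V.B Q i) :
    ∃ s : V.V →ₗ[O] E.V, V.Hom E s ∧ ∀ v, π (s v) = v := by
  let Φ : Submodule O (V.V × E.V) :=
    (V.B Q i).comap (π ∘ₗ LinearMap.snd O V.V E.V - LinearMap.fst O V.V E.V)
  have hΦ : ∀ v z, (v, z) ∈ Φ ↔ π z - v ∈ V.B Q i := fun v z => Iff.rfl
  obtain ⟨s, hs1, hs2, -⟩ := hW.l1 hQ (V := V) (W := E) i Φ
    (fun n hn v z hvz => by
      rw [hΦ] at hvz ⊢
      rw [hπ n z, ← map_sub]
      exact V.B_st hn i hvz)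
    (fun v hv => by
      obtain ⟨z, hz, hz'⟩ := hs v hv
      exact ⟨z, hz, (hΦ v z).2 hz'⟩)
    (fun w hw => by
      rw [hΦ, sub_zero]
      exact hπ.mapB i hw)
    (fun v hv => by
      rw [hΦ, map_zero, zero_sub]
      exact Submodule.neg_mem _ hv)
  have hb : Bijective (π ∘ₗ s) :=
    hW.bij_of_id hQ hV (rlker_comp hs1 hπ) i hne fun v hv => (hΦ v (s v)).1 (hs2 v hv)
  obtain ⟨t, ht1, -, ht3⟩ := (rlker_comp hs1 hπ).inv hb
  exact ⟨s ∘ₗ t, rlker_comp ht1 hs1, fun v => ht3 v⟩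

theorem Wt.ker_zero (hW : Wt p O) (hQ : Syl p Q) {W P V U : Lat O X} {j : W.V →ₗ[O] P.V}
    {q : P.V →ₗ[O] V.V} (h : Ses W P V j q) (hP : P.Hig) (hm : Mini P V q) (hV : V.Ir)
    (i : Bool) (hne : ¬ V.Z Q i) (r : W.V →ₗ[O] U.V) (hr : W.Hom U r) (hs : Surjective r)
    (hz : ∀ w ∈ W.A Q (!i), r w ∈ U.B Q (!i)) : Subsingleton U.V := by
  have hqj : ∀ w, q (j w) = 0 := fun w => by
    rw [← LinearMap.mem_ker, ← h.ex]
    exact ⟨w, rfl⟩
  have hex : ∀ y, q y = 0 → ∃ w, j w = y := fun y hy => by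
    rw [← LinearMap.mem_ker, ← h.ex] at hy
    exact hy
  have hKs : P.St ((LinearMap.ker r).map j) := by
    rintro x _ ⟨w, hw, rfl⟩
    exact ⟨W.ρ x w, hr.ker_st.1 x w hw, h.hj x w⟩
  have hKp : Pure ((LinearMap.ker r).map j) := by
    rintro c y hc ⟨w, hw, hwy⟩
    have h1 : y ∈ LinearMap.ker q := h.hq.ker_st.2 c y hc (by
      rw [← hwy, LinearMap.mem_ker]
      exact hqj w)
    obtain ⟨w', rfl⟩ := hex y h1
    refine ⟨w', hr.ker_st.2 c w' hc ?_, rfl⟩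
    have h2 : c • w' = w := h.inj (by rw [map_smul, hwy])
    rw [h2]
    exact hw
  obtain ⟨E, e, he, hes, hek⟩ := exists_quo P hKs hKp
  have hke : ∀ y, e y = 0 ↔ ∃ w, r w = 0 ∧ j w = y := fun y => by
    rw [← LinearMap.mem_ker, hek]
    exact Iff.rfl
  obtain ⟨σ, hσ⟩ := e.exists_rightInverse_of_surjective (LinearMap.range_eq_top.2 hes)
  have hσ' : ∀ z, e (σ z) = z := fun z => LinearMap.congr_fun hσ z
  have hπe : ∀ y, (q ∘ₗ σ) (e y) = q y := fun y => by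
    obtain ⟨w, -, hw⟩ := (hke (σ (e y) - y)).1 (by rw [map_sub, hσ', sub_self])
    have h1 := hqj w
    rw [hw, map_sub, sub_eq_zero] at h1
    exact h1
  generalize q ∘ₗ σ = π at hπe
  have hπ : E.Hom V π := fun x z => by
    obtain ⟨y, rfl⟩ := hes z
    rw [← he x y, hπe, hπe, h.hq x y]
  obtain ⟨g, hg, hg1⟩ := exists_gen hW.prime hQ.card
  have mA := rlker_memA (O := O) hW.prime hQ.card hg hg1
  have mB := rlker_memB (O := O) hW.prime hQ.card hg hg1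
  have hT : ∀ v ∈ V.A Q i, ∃ z ∈ E.A Q i, π z - v ∈ V.B Q i := fun v hv => by
    obtain ⟨y, rfl⟩ := h.sur v
    obtain ⟨w, hw⟩ := hex (rlker_op p P g i y) (by
      rw [rlker_op_hom h.hq]
      exact (mA V i _).1 hv)
    have hwA : w ∈ W.A Q (!i) := by
      rw [mA]
      apply h.inj
      rw [rlker_op_hom h.hj, map_zero, ← mA, hw]
      exact P.B_le _ ((mB P i _).2 ⟨y, rfl⟩)
    obtain ⟨u, hu⟩ := (mB U i _).1 (hz w hwA)
    obtain ⟨w', rfl⟩ := hs u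
    refine ⟨e (y - j w'), ?_, ?_⟩
    · rw [mA, ← rlker_op_hom he, hke]
      refine ⟨w - rlker_op p W g i w', ?_, ?_⟩
      · rw [map_sub, rlker_op_hom hr, hu, sub_self]
      · rw [map_sub, map_sub, hw, rlker_op_hom h.hj]
    · rw [hπe, map_sub, hqj, sub_zero, sub_self]
      exact Submodule.zero_mem _
  obtain ⟨s, hs1, hs2⟩ := rlker_split hW hQ hV i hne hπ hT
  obtain ⟨f, hf1, hf2⟩ := hP.lift e he hes (s ∘ₗ q) (rlker_comp h.hq hs1)
  have hqf : ∀ y, q (f y) = q y := fun y => by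
    rw [← hπe, hf2, LinearMap.comp_apply, hs2]
  have hfb := hm f hf1 hqf
  refine ⟨fun a b => ?_⟩
  suffices H : ∀ u : U.V, u = 0 by rw [H a, H b]
  intro u
  obtain ⟨w, rfl⟩ := hs u
  obtain ⟨y, hy⟩ := hfb.2 (j w)
  have h1 : q y = 0 := by rw [← hqf, hy, hqj]
  have h2 : e (j w) = 0 := by rw [← hy, hf2, LinearMap.comp_apply, h1, map_zero]
  obtain ⟨w0, hw0, hw1⟩ := (hke _).1 h2
  rw [← h.inj hw1]
  exact hw0

theorem Wt.ker_ir (hW : Wt p O) (hQ : Syl p Q) {W P V : Lat O X} {j : W.V →ₗ[O] P.V}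
    {q : P.V →ₗ[O] V.V} (h : Ses W P V j q) (hP : P.Hig) (hm : Mini P V q) (hV : V.Ir)
    (i : Bool) (hne : ¬ V.Z Q i) {M : Lat O (Nz Q)} {Φ : Submodule O (W.V × M.V)}
    (ht : Tie p Q W M (!i) Φ) (hi : M.Ir) (hM : M.Triv (Q.subgroupOf (Nz Q))) : W.Ir := by
  have hWn : ¬ W.Z Q (!i) := ht.ne hW hi.1
  have hnt : Nontrivial W.V := by
    by_contra hn
    rw [not_nontrivial_iff_subsingleton] at hn
    refine hWn fun v _ => ?_
    rw [Subsingleton.elim v 0]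
    exact Submodule.zero_mem _
  obtain ⟨U, r, hU, hr, hs⟩ := exists_ir_quo W hnt
  have hw0 : ∃ w ∈ W.A Q (!i), r w ∉ U.B Q (!i) := by
    by_contra hn
    push Not at hn
    have h1 := hW.ker_zero hQ h hP hm hV i hne r hr hs hn
    exact not_subsingleton_iff_nontrivial.2 hU.1 h1
  obtain ⟨w0, hw0, hw1⟩ := hw0
  have hinj : ∀ w ∈ W.A Q (!i), r w ∈ U.B Q (!i) → w ∈ W.B Q (!i) := by
    rcases hW.tie_simple hQ ht hi hM (W.A Q (!i) ⊓ (U.B Q (!i)).comap r)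
      (fun n hn v hv => ⟨W.A_st hn _ hv.1, by
        change r (W.ρ n v) ∈ U.B Q (!i)
        rw [hr n v]
        exact U.B_st hn _ hv.2⟩)
      (fun v hv => ⟨W.B_le _ hv, hr.mapB _ hv⟩) inf_le_left with h1 | h1
    · intro w hw hw'
      rw [← h1]
      exact ⟨hw, hw'⟩
    · rw [← h1] at hw0
      exact absurd hw0.2 hw1
  have hsur : ∀ u ∈ U.A Q (!i), ∃ w ∈ W.A Q (!i), r w - u ∈ U.B Q (!i) := by
    rcases hW.simple hQ hU (!i) ((W.A Q (!i)).map r ⊔ U.B Q (!i))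
      (fun n hn v hv => by
        obtain ⟨_, ⟨a, ha, rfl⟩, b, hb, rfl⟩ := Submodule.mem_sup.1 hv
        rw [map_add, ← hr n a]
        exact Submodule.add_mem_sup ⟨_, W.A_st hn _ ha, rfl⟩ (U.B_st hn _ hb))
      le_sup_right
      (sup_le (by
        rintro _ ⟨a, ha, rfl⟩
        exact hr.mapA _ ha) (U.B_le _)) with h1 | h1
    · refine absurd ?_ hw1
      rw [← h1]
      exact Submodule.mem_sup_left ⟨w0, hw0, rfl⟩
    · intro u hu
      rw [← h1] at hu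
      obtain ⟨_, ⟨a, ha, rfl⟩, b, hb, rfl⟩ := Submodule.mem_sup.1 hu
      refine ⟨a, ha, ?_⟩
      rw [sub_add_cancel_left]
      exact Submodule.neg_mem _ hb
  have hUn : ¬ U.Z Q (!i) := fun hz => hw1 (hz (hr.mapA _ hw0))
  obtain ⟨s, hs1, hs2⟩ := rlker_split hW hQ hU (!i) hUn hr hsur
  let φ : W.V →ₗ[O] W.V := LinearMap.id - s ∘ₗ r
  have hφa : ∀ w, φ w = w - s (r w) := fun w => rfl
  have hφ : W.Hom W φ := fun x w => by
    rw [hφa, hφa, map_sub, hr x w, hs1 x]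
  obtain ⟨W', r', hr', hs', hk'⟩ := exists_quo W hφ.ker_st.1 hφ.ker_st.2
  have hk : ∀ w, r' w = 0 ↔ φ w = 0 := fun w => by
    rw [← LinearMap.mem_ker, hk']
    exact Iff.rfl
  have hsub := hW.ker_zero hQ h hP hm hV i hne r' hr' hs' fun w hw => by
    have h1 : r' (s (r w)) = 0 := by rw [hk, hφa, hs2, sub_self]
    have h2 : r' w = r' (φ w) := by rw [hφa, map_sub, h1, sub_zero]
    rw [h2]
    refine hr'.mapB _ (hinj _ (hφ.mapA _ hw) ?_)
    rw [hφa, map_sub, hs2, sub_self]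
    exact Submodule.zero_mem _
  have hri : Injective r := fun a b hab => by
    have ha := (hk a).1 (Subsingleton.elim _ _)
    have hb := (hk b).1 (Subsingleton.elim _ _)
    rw [hφa, sub_eq_zero] at ha hb
    rw [ha, hb, hab]
  refine (isog_ir hr hri fun u => ⟨1, one_ne_zero, ?_⟩).2 hU
  rw [one_smul]
  exact hs u

end Pool.Agent.Lib.MP_1ae3da_al.CT.R5
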