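import Pool.Agent.Lib.MP_1ae3da_al.C.RLTy
import Pool.Agent.Lib.MP_1ae3da_al.C.RLSemi
import Pool.Agent.Lib.MP_1ae3da_al.C.RLHen

set_option autoImplicit false
set_option linter.unusedSectionVars false

namespace Pool.Agent.Lib.MP_1ae3da_al.CT.R5

open Function

variable {O X Y : Type} [CommRing O] [IsDomain O] [IsDiscreteValuationRing O] [CharZero O]
  [Group X] [Finite X] [Group Y] [Finite Y] {p : ℕ} {Q : Subgroup X}

theorem rlu0_comp {σ : O ≃+* O} {a : X ≃* X} {V W U : Lat O X} {G : V.V ≃+ W.V}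
    (h : Semi σ a V W G) {f : W.V →ₗ[O] U.V} (hf : W.Hom U f) (hb : Bijective f) :
    Semi σ a V U (G.trans (LinearEquiv.ofBijective f hb).toAddEquiv) := by
  refine ⟨fun c v => ?_, fun x v => ?_⟩
  · change f (G (c • v)) = σ c • f (G v)
    rw [h.smul, map_smul]
  · change f (G (V.ρ x v)) = U.ρ (a x) (f (G v))
    rw [h.act, hf]

theorem rlu0_norm (hW : Wt p O) {V : Lat O X} (hk : ¬ p ∣ V.rk) {a : X ≃* X} {G : V.V ≃+ V.V}
    (h : Semi (RingEquiv.refl O) a V V G) :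
    ∃ (w : Module.End O V.V) (c : O), (p : O) ∣ c - 1 ∧ NL p V a w ∧ ∀ v, w v = c • G v := by
  let w0 : Module.End O V.V :=
    { toFun := G, map_add' := G.map_add, map_smul' := fun c v => h.smul c v }
  have hu : IsUnit w0 := (Module.End.isUnit_iff w0).2 G.bijective
  obtain ⟨c, hc, hm⟩ := hW.normalise hk (hu.map (LinearMap.det : Module.End O V.V →* O))
  refine ⟨c • w0, c, hc, ⟨fun x v => ?_, ?_⟩, fun v => rfl⟩
  · change c • G (V.ρ x v) = V.ρ (a x) (c • G v)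
    rw [h.act, map_smul]
  · rw [LinearMap.det_smul]
    exact hm

theorem rlu0_bij {V : Lat O X} {a : X ≃* X} {w : Module.End O V.V} (h : NL p V a w) :
    Bijective w :=
  (Module.End.isUnit_iff w).1 ((LinearMap.isUnit_iff_isUnit_det w).2 (mup_unit h.det))

theorem rlu0_sca (hp : p.Prime) {V : Lat O X} (hS : V.Sca) (hk : ¬ p ∣ V.rk) {a : X ≃* X}
    {w x : Module.End O V.V} (h1 : NL p V a w) (h2 : NL p V a x) :
    ∃ u : O, Mup p u ∧ x = u • w := by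
  let e := LinearEquiv.ofBijective w (rlu0_bij h1)
  have he : ∀ v, e.symm (w v) = v := fun v => e.symm_apply_apply v
  obtain ⟨u, hu⟩ := hS (x ∘ₗ e.symm.toLinearMap) (fun y v => by
    obtain ⟨y, rfl⟩ := a.surjective y
    obtain ⟨v, rfl⟩ := (rlu0_bij h1).2 v
    change x (e.symm (V.ρ (a y) (w v))) = V.ρ (a y) (x (e.symm (w v)))
    rw [← h1.act, he, he, h2.act])
  have hx : x = u • w := by
    ext v
    have h3 := LinearMap.congr_fun hu (w v)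
    change x (e.symm (w v)) = u • w v at h3
    rw [he] at h3
    exact h3
  refine ⟨u, mup_of_pow hp hk (mup_cancel hp h1.det ?_), hx⟩
  have h4 := h2.det
  rw [hx, LinearMap.det_smul] at h4
  exact h4

theorem rlu0_mul (hp : p.Prime) {V : Lat O X} {a a2 a3 : X ≃* X} {w x : Module.End O V.V}
    (h1 : NL p V a w) (h2 : NL p V a2 x) (ha : ∀ y, a3 y = a (a2 y)) : NL p V a3 (w * x) := by
  refine ⟨fun y v => ?_, ?_⟩
  · change w (x (V.ρ y v)) = V.ρ (a3 y) (w (x v))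
    rw [h2.act, h1.act, ha]
  · rw [map_mul]
    exact mup_mul hp h1.det h2.det

theorem rlu0_inn (V : Lat O X) (n : X) {a : X ≃* X} (ha : ∀ y, a y = n * y * n⁻¹) (y : X)
    (v : V.V) : V.ρ n (V.ρ y v) = V.ρ (a y) (V.ρ n v) := by
  rw [← Module.End.mul_apply, ← Module.End.mul_apply, ← map_mul, ← map_mul, ha,
    inv_mul_cancel_right]

theorem rlu0_nat {V : Lat O X} {σ : O ≃+* O} {c : X ≃* X} {G : V.V ≃+ V.V}
    (hG : Semi σ c V V G) {a a' : X ≃* X} {w : Module.End O V.V} (h : NL p V a w)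
    (ha : ∀ y, a' (c y) = c (a y)) :
    ∃ x, NL p V a' x ∧ ∀ v, x (G v) = G (w v) := by
  obtain ⟨x, hx, hd, -⟩ := hG.conj w
  refine ⟨x, ⟨fun y v => ?_, ?_⟩, hx⟩
  · obtain ⟨y, rfl⟩ := c.surjective y
    obtain ⟨v, rfl⟩ := G.surjective v
    rw [← hG.act, hx, hx, h.act, hG.act, ha]
  · rw [hd]
    exact mup_map σ.toRingHom.toMonoidHom h.det

theorem Wt.nat_ex (hW : Wt p O) (hQ : Syl p Q) {V : Lat O X} {M : Lat O (Nz Q)} {i : Bool}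
    {Φ : Submodule O (V.V × M.V)} (ht : Typ p Q V M i Φ) (σ : O ≃+* O) {a : X ≃* X}
    {b : Nz Q ≃* Nz Q} (hr : Res Q a b) (hψ : ∀ n, M.ch (b n) = σ (M.ch n)) :
    ∃ (G : V.V ≃+ V.V) (G' : M.V ≃+ M.V), Semi σ a V V G ∧ Semi σ b M M G' ∧
      ∀ v m, (v, m) ∈ Φ ↔ (G v, G' m) ∈ Φ := by
  obtain ⟨V', G0, hG0⟩ := exists_semi σ a V
  obtain ⟨M', G0', hG0'⟩ := exists_semi σ b M
  obtain ⟨Φ', ht', hΦ⟩ := Semi.typ hr hG0 hG0' ht
  have hch : ∀ n, M'.ch n = M.ch n := fun n => by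
    obtain ⟨n, rfl⟩ := b.surjective n
    rw [hG0'.ch, hψ]
  obtain ⟨f', hf', hb'⟩ := hW.loc_iso hQ.sub ht'.triv ht'.mirr ht.triv ht.mirr hch
  obtain ⟨f, hf, hb, hΦ2⟩ := hW.typ_iso hQ ht' ht f' hf' hb'
  refine ⟨G0.trans (LinearEquiv.ofBijective f hb).toAddEquiv,
    G0'.trans (LinearEquiv.ofBijective f' hb').toAddEquiv, rlu0_comp hG0 hf hb,
    rlu0_comp hG0' hf' hb', fun v m => ?_⟩
  exact (hΦ v m).trans (hΦ2 _ _)

theorem Wt.u_tot (hW : Wt p O) (hQ : Syl p Q) {V : Lat O X} {M : Lat O (Nz Q)} {i : Bool}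
    {Φ : Submodule O (V.V × M.V)} (ht : Typ p Q V M i Φ) (hk : ¬ p ∣ V.rk) {a : X ≃* X}
    {b : Nz Q ≃* Nz Q} (hr : Res Q a b) (hψ : ∀ n, M.ch (b n) = M.ch n) :
    ∃ w w', U0 p Q V M Φ a b w w' := by
  obtain ⟨G, G', hG, hG', hΦ⟩ := hW.nat_ex hQ ht (RingEquiv.refl O) hr hψ
  obtain ⟨w, c, hc, hw, hwG⟩ := rlu0_norm hW hk hG
  obtain ⟨w', c', hc', hw', hwG'⟩ :=
    rlu0_norm hW (hW.loc_rk hQ.sub ht.triv ht.mirr) hG'
  refine ⟨w, w', hw, hw', fun v m hvm => ?_⟩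
  have h0 := (hΦ v m).1 hvm
  obtain ⟨k, hk1⟩ := hc
  obtain ⟨k', hk1'⟩ := hc'
  have e1 : c = 1 + k * (p : O) := by rw [mul_comm, ← hk1]; ring
  have e2 : c' = 1 + (p : O) * k' := by rw [← hk1']; ring
  have h1 : (((p : O) • G v, 0) : V.V × M.V) ∈ Φ :=
    (ht.tie.gr.kl _).2 (V.psmul hQ.card i ((ht.tie.gr.dom _).2 ⟨_, h0⟩))
  have h2 : ((0, (p : O) • k' • G' m) : V.V × M.V) ∈ Φ := (ht.tie.gr.kr _).2 ⟨_, rfl⟩
  have h3 := Φ.add_mem (Φ.add_mem h0 (Φ.smul_mem k h1)) h2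
  have e : ((w v, w' m) : V.V × M.V) =
      (G v, G' m) + k • ((p : O) • G v, 0) + (0, (p : O) • k' • G' m) := by
    rw [hwG, hwG', e1, e2]
    refine Prod.ext ?_ ?_
    · simp [add_smul, mul_smul]
    · simp [add_smul, mul_smul]
  rw [e]
  exact h3

theorem Wt.u_fn (hW : Wt p O) (hQ : Syl p Q) {V : Lat O X} {M : Lat O (Nz Q)} {i : Bool}
    {Φ : Submodule O (V.V × M.V)} (ht : Typ p Q V M i Φ) (hS : V.Sca) (hk : ¬ p ∣ V.rk)
    {a : X ≃* X} {b : Nz Q ≃* Nz Q} {w x : Module.End O V.V} {w' x' : Module.End O M.V}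
    (h1 : U0 p Q V M Φ a b w w') (h2 : U0 p Q V M Φ a b x x') :
    ∃ u : O, x = u • w ∧ x' = u • w' := by
  obtain ⟨u, hu, hx⟩ := rlu0_sca hW.prime hS hk h1.l h2.l
  obtain ⟨u', hu', hx'⟩ := rlu0_sca hW.prime (hW.loc_sca hQ.sub ht.triv ht.mirr)
    (hW.loc_rk hQ.sub ht.triv ht.mirr) h1.r h2.r
  have hd : (p : O) ∣ u - u' := by
    by_contra hn
    obtain ⟨m0, hm0⟩ := hW.loc_ne ht.mirr.1
    obtain ⟨m, rfl⟩ := (rlu0_bij h1.r).2 m0
    obtain ⟨v, hv⟩ := ht.tie.gr.ran m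
    have h3 := Φ.sub_mem (Φ.smul_mem u (h1.st v m hv)) (h2.st v m hv)
    have e : u • ((w v, w' m) : V.V × M.V) - (x v, x' m) = (0, (u - u') • w' m) := by
      rw [hx, hx']
      refine Prod.ext ?_ ?_
      · simp
      · simp [sub_smul]
    rw [e] at h3
    obtain ⟨m', hm'⟩ := (ht.tie.gr.kr _).1 h3
    obtain ⟨t, ht1⟩ := ((hW.unit_iff _).2 hn).exists_left_inv
    refine hm0 ⟨t • m', ?_⟩
    rw [smul_comm, ← hm', smul_smul, ht1, one_smul]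
  have e := hW.mu_inj hu hu' hd
  exact ⟨u, hx, by rw [e]; exact hx'⟩

theorem U0.mul (hp : p.Prime) {V : Lat O X} {M : Lat O (Nz Q)} {Φ : Submodule O (V.V × M.V)}
    {a a2 a3 : X ≃* X} {b b2 b3 : Nz Q ≃* Nz Q} {w x : Module.End O V.V}
    {w' x' : Module.End O M.V} (h1 : U0 p Q V M Φ a b w w') (h2 : U0 p Q V M Φ a2 b2 x x')
    (ha : ∀ y, a3 y = a (a2 y)) (hb : ∀ y, b3 y = b (b2 y)) :
    U0 p Q V M Φ a3 b3 (w * x) (w' * x') :=
  ⟨rlu0_mul hp h1.l h2.l ha, rlu0_mul hp h1.r h2.r hb,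
    fun v m h => h1.st _ _ (h2.st v m h)⟩

theorem u_loc (hp : p.Prime) (hQ : Syl p Q) (hX : commutator X = ⊤) {V : Lat O X}
    {M : Lat O (Nz Q)} {i : Bool} {Φ : Submodule O (V.V × M.V)} (ht : Typ p Q V M i Φ)
    (n : Nz Q) {a : X ≃* X} {b : Nz Q ≃* Nz Q} (ha : ∀ y, a y = n * y * (n : X)⁻¹)
    (hb : ∀ y, b y = n * y * n⁻¹) : U0 p Q V M Φ a b (V.ρ n) (M.ρ n) := by
  refine ⟨⟨rlu0_inn V n ha, 1, hp.not_dvd_one, ?_⟩,
    ⟨rlu0_inn M n hb, (Q.subgroupOf (Nz Q)).index, hQ.sub.ind, ?_⟩, ht.tie.st n⟩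
  · have hle := Abelianization.commutator_subset_ker
      ((LinearMap.det : Module.End O V.V →* O).comp V.ρ).toHomUnits
    rw [hX] at hle
    have h1 := congrArg Units.val (MonoidHom.mem_ker.1 (hle (Subgroup.mem_top (n : X))))
    rw [pow_one]
    simpa using h1
  · rw [← map_pow, ← map_pow, ht.triv _ (Subgroup.pow_index_mem _ n), map_one]

theorem U0.nat {V : Lat O X} {M : Lat O (Nz Q)} {Φ : Submodule O (V.V × M.V)} {σ : O ≃+* O}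
    {c : X ≃* X} {d : Nz Q ≃* Nz Q} {G : V.V ≃+ V.V} {G' : M.V ≃+ M.V} (hG : Semi σ c V V G)
    (hG' : Semi σ d M M G') (hΦ : ∀ v m, (v, m) ∈ Φ ↔ (G v, G' m) ∈ Φ) {a a' : X ≃* X}
    {b b' : Nz Q ≃* Nz Q} {w : Module.End O V.V} {w' : Module.End O M.V}
    (h : U0 p Q V M Φ a b w w') (ha : ∀ y, a' (c y) = c (a y)) (hb : ∀ y, b' (d y) = d (b y)) :
    ∃ x x', U0 p Q V M Φ a' b' x x' ∧ (∀ v, x (G v) = G (w v)) ∧
      ∀ m, x' (G' m) = G' (w' m) := by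
  obtain ⟨x, hx, hxG⟩ := rlu0_nat hG h.l ha
  obtain ⟨x', hx', hxG'⟩ := rlu0_nat hG' h.r hb
  refine ⟨x, x', ⟨hx, hx', fun v m hvm => ?_⟩, hxG, hxG'⟩
  obtain ⟨v, rfl⟩ := G.surjective v
  obtain ⟨m, rfl⟩ := G'.surjective m
  rw [hxG, hxG']
  exact (hΦ _ _).1 (h.st v m ((hΦ v m).2 hvm))

end Pool.Agent.Lib.MP_1ae3da_al.CT.R5
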