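import Pool.Agent.Lib.MP_1ae3da_al.C.RLDf2
import Pool.Agent.Lib.MP_1ae3da_al.C.RLHen
import Pool.Agent.Lib.MP_1ae3da_al.C.AGa

set_option autoImplicit false
set_option linter.unusedSectionVars false

namespace Pool.Agent.Lib.MP_1ae3da_al.CT.R5

open Function Submodule

variable {F k X Y : Type} [Field F] [CharZero F] [IsAlgClosed F] [Field k] [Group X] [Finite X]
  [Group Y] [Finite Y] {p : ℕ} {O R : Subring F} [IsDiscreteValuationRing O] {r : F → k}
  {GG : Subgroup (RingAut F)} {Q H : Subgroup X} {ι : Y →* X} {n n' : ℕ}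
  {ρ : MonoidAlgebra F X →ₗ[F] Matrix (Fin n) (Fin n) F}
  {ρ' : MonoidAlgebra F X →ₗ[F] Matrix (Fin n') (Fin n') F}
  {σ : RingAut F} {γ : RingAut (MonoidAlgebra F X)} {a a' e ψ : MonoidAlgebra F X}

theorem wt_of_pm (h : PM p O R r GG) : Wt p O := by
  have := h.algk
  let f : O →+* k := RingHom.mk' ⟨⟨fun y => r y, h.one⟩, fun x y => h.mul _ (h.le x.2) _ (h.le y.2)⟩
    fun x y => h.add _ (h.le x.2) _ (h.le y.2)
  have ker : ∀ y : O, f y = 0 ↔ (p : O) ∣ y := fun y => (h.ker y y.2).trans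
    ⟨fun ⟨z, hz, e⟩ => ⟨⟨z, hz⟩, Subtype.ext (by simpa using e)⟩,
      fun ⟨z, e⟩ => ⟨z, z.2, by simpa using congrArg Subtype.val e⟩⟩
  have sur : Surjective f := fun c => by
    by_cases c0 : c = 0
    · exact ⟨0, by rw [c0, map_zero]⟩
    · obtain ⟨ξ, m, e⟩ := h.teich c c0
      exact ⟨⟨ξ, h.mup ξ m⟩, e⟩
  refine ⟨h.prime, ?_, h.cpl, fun g hg hd => ?_, fun u hu => ?_⟩
  · rw [IsDiscreteValuationRing.irreducible_iff_uniformizer,
      ← IsLocalRing.eq_maximalIdeal (RingHom.ker_isMaximal_of_surjective f sur)]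
    ext y
    rw [RingHom.mem_ker, ker, Ideal.mem_span_singleton]
  · obtain ⟨c, hc⟩ := IsAlgClosed.exists_root (g.map f) (by
      rw [hg.degree_map]
      exact (Polynomial.natDegree_pos_iff_degree_pos.1 hd).ne')
    obtain ⟨c, rfl⟩ := sur c
    exact ⟨c, (ker _).1 (by rw [← Polynomial.eval_map_apply]; exact hc)⟩
  · obtain ⟨ξ, m, e⟩ := h.teich (f u) (hu.map f).ne_zero
    have e' : f ⟨ξ, h.mup ξ m⟩ = f u := e
    obtain ⟨l, l1, l2⟩ := m
    refine ⟨l, l1, (ker _).1 ?_⟩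
    rw [map_sub, map_pow, ← e', ← map_pow, sub_eq_zero]
    exact congrArg f (Subtype.ext (by simpa using l2))

theorem res_O (h : PM p O R r GG) (hσ : σ ∈ GG) :
    ∃ σ0 : O ≃+* O, ∀ y : O, (σ0 y : F) = σ y :=   ⟨σ.restrict O O fun x => ((h.gal σ hσ).1 x).symm, fun _ => rfl⟩

theorem syl_of (hp : p.Prime) (hQ : Nat.card Q = p) (h2 : ¬ p ^ 2 ∣ Nat.card X) :
    Syl p Q :=   haveI := Fact.mk hp
  ⟨hQ, rg_index hQ h2⟩

theorem coeff_aut (hγ : SL F σ γ) {α : X ≃* X} (hα : ∀ x, γ (gu F X x) = gu F X (α x))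
    (a : MonoidAlgebra F X) (x : X) : (γ a).coeff (α x) = σ (a.coeff x) := by
  classical
  induction a using MonoidAlgebra.induction_linear with
  | zero => simp
  | add a b ha hb => simp [ha, hb]
  | single y c =>
    rw [← aga_smul, hγ, hα, aga_smul, aga_smul]
    by_cases q : y = x <;> simp [q]

theorem exists_Om (h : PM p O R r GG) (hQ : Nat.card Q = p) {ω : Nz Q →* Oˣ}
    (hω : Omg p Q ω) :
    ∃ (om : X → F) (T : MonoidAlgebra F X →ₗ[F] MonoidAlgebra F X), Om GG Q om T ∧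
      (∀ a ∈ span F (HX F (Nz Q)), T a ∈ span F (HX F (Nz Q))) ∧
      ∀ (a : MonoidAlgebra F X) (y : Nz Q),
        (T a).coeff (y : X) = ((ω y⁻¹ : O) : F) * a.coeff (y : X) := by
  classical
  have hW := wt_of_pm h
  let om : X → F := fun x => if k : x ∈ Nz Q then ((ω (⟨x, k⟩ : Nz Q)⁻¹ : O) : F) else 1
  have ev : ∀ y : Nz Q, om y = ((ω y⁻¹ : O) : F) := fun y => dif_pos y.2
  let T : MonoidAlgebra F X →ₗ[F] MonoidAlgebra F X :=
    (MonoidAlgebra.basis X F).constr F fun x => om x • gu F X x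
  have tw : ∀ x, T (gu F X x) = om x • gu F X x := fun x => by
    have := (MonoidAlgebra.basis X F).constr_basis F (fun x => om x • gu F X x) x
    rwa [MonoidAlgebra.basis_apply] at this
  refine ⟨om, T, ⟨fun x hx y hy => ?_, fun x hx => ?_, fun α hα x hx => ?_, fun σ hσ x hx => ?_,
    tw⟩, fun a ha => ?_, fun a y => ?_⟩
  · refine (ev (⟨x, hx⟩ * ⟨y, hy⟩)).trans ?_
    rw [ev ⟨x, hx⟩, ev ⟨y, hy⟩, mul_inv_rev, map_mul, mul_comm]
    simp
  · rw [ev ⟨x, hx⟩, OneMemClass.coe_eq_one, Units.val_eq_one, map_inv, inv_eq_one,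
      hω.eq_one_iff hW hQ]
    exact ⟨fun k g hg => (k g hg).symm, fun k g hg => (k g hg).symm⟩
  · obtain ⟨b, hb⟩ := exists_res α hα
    rw [← hb.coe ⟨x, hx⟩, ev, ev ⟨x, hx⟩, ← map_inv b, hω.aut hW hQ hb]
  · obtain ⟨σ0, h0⟩ := res_O h hσ
    rw [ev ⟨x, hx⟩, ← h0, hω.fix hW hQ]
  · induction ha using span_induction with
    | mem x hx =>
      obtain ⟨c, -, x, hx, rfl⟩ := hx
      rw [map_smul, tw]
      exact smul_mem _ _ (smul_mem _ _ (subset_span (aga_mem.2 hx)))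
    | zero => simp
    | add x y _ _ h1 h2 => rw [map_add]; exact add_mem h1 h2
    | smul c x _ h1 => rw [map_smul]; exact smul_mem _ _ h1
  · rw [← ev]
    induction a using MonoidAlgebra.induction_linear with
    | zero => simp
    | add a b ha hb => simp [ha, hb, mul_add]
    | single x c =>
      rw [← aga_smul, map_smul, tw, smul_smul, aga_smul, aga_smul]
      by_cases q : x = y <;> simp [q, mul_comm]

theorem Lat.Idem.sc {M : Lat O Y} {c c' : Y → F} (h : M.Idem F c) (ω : Y →* Oˣ)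
    (hc : ∀ y, c' y = ((ω y⁻¹ : O) : F) * c y) : (M.sc ω).Idem F c' := fun y => by
  rw [hc, mul_left_comm, h y, mul_left_comm]
  congr 1
  change _ = ((LinearMap.trace O M.V ((ω y⁻¹ : O) • M.ρ y⁻¹) : O) : F)
  rw [map_smul]
  rfl

theorem rlw_zero {M : Lat O Y} (h : M.rk = 0) (y : Y) : M.ch y = 0 := by
  have : Subsingleton M.V := Module.finrank_zero_iff.1 h
  rw [Lat.ch, Subsingleton.elim (M.ρ y) 0, map_zero]

theorem rlw_one (M : Lat O Y) : M.ch 1 = M.rk := by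
  rw [Lat.ch, map_one, LinearMap.trace_one]

theorem Lat.Idem.ch_eq {M M' : Lat O Y} {c : Y → F} (h : M.Idem F c) (h' : M'.Idem F c) (y : Y) :
    M.ch y = M'.ch y := by
  have e := (h 1).symm.trans (h' 1)
  rw [inv_one, rlw_one, rlw_one, map_natCast, map_natCast, ← Nat.cast_mul, ← Nat.cast_mul,
    Nat.cast_inj, Nat.mul_self_inj] at e
  by_cases z : M.rk = 0
  · rw [rlw_zero z, rlw_zero (e ▸ z)]
  · have := (h y⁻¹).symm.trans (h' y⁻¹)
    rw [inv_inv, ← e] at this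
    exact Subtype.ext (mul_left_cancel₀ (Nat.cast_ne_zero.2 z) this)

theorem Lat.Idem.semi {σ0 : O ≃+* O} (h0 : ∀ y : O, (σ0 y : F) = σ y) {d : Y ≃* Y}
    {M M' : Lat O Y} (hr : M'.rk = M.rk) (hch : ∀ y, M'.ch (d y) = σ0 (M.ch y)) {c c' : Y → F}
    (h : M.Idem F c) (hc : ∀ y, c' (d y) = σ (c y)) : M'.Idem F c' := fun y => by
  obtain ⟨y, rfl⟩ := d.surjective y
  have := congrArg σ (h y)
  rw [map_mul, map_mul, map_natCast, map_natCast] at this
  rw [hc, this, hr, ← map_inv d, hch]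
  exact congrArg _ (h0 _).symm

theorem Lat.Idem.fix {σ0 : O ≃+* O} (h0 : ∀ y : O, (σ0 y : F) = σ y) {d : Y ≃* Y}
    {M : Lat O Y} {c : Y → F} (h : M.Idem F c) (hc : ∀ y, c (d y) = σ (c y)) (y : Y) :
    M.ch (d y) = σ0 (M.ch y) := by
  by_cases z : M.rk = 0
  · rw [rlw_zero z, rlw_zero z, map_zero]
  · have := congrArg σ (h y⁻¹)
    rw [map_mul, map_mul, map_natCast, map_natCast, ← hc, h, map_inv, inv_inv, inv_inv] at this
    exact Subtype.ext ((mul_left_cancel₀ (Nat.cast_ne_zero.2 z) this).trans (h0 _).symm)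

end Pool.Agent.Lib.MP_1ae3da_al.CT.R5
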