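import Pool.Agent.Lib.MP_1ae3da_al.C.RLMM
import Pool.Agent.Lib.MP_1ae3da_al.C.RLW
import Pool.Agent.Lib.MP_1ae3da_al.C.RLU0
import Pool.Agent.Lib.MP_1ae3da_al.C.RCi

set_option autoImplicit false
set_option linter.unusedSectionVars false

namespace Pool.Agent.Lib.MP_1ae3da_al.CT.R5

open Function Submodule

variable {F k X Y : Type} [Field F] [CharZero F] [IsAlgClosed F] [Field k] [Group X] [Finite X]
  [Group Y] [Finite Y] {p : ℕ} {O R : Subring F} [IsDiscreteValuationRing O] {r : F → k}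
  {GG : Subgroup (RingAut F)} {Q H : Subgroup X} {ι : Y →* X} {n n' : ℕ}
  {ρ : MonoidAlgebra F X →ₗ[F] Matrix (Fin n) (Fin n) F}
  {ρ' : MonoidAlgebra F X →ₗ[F] Matrix (Fin n') (Fin n') F}
  {σ : RingAut F} {γ : RingAut (MonoidAlgebra F X)} {a a' e ψ : MonoidAlgebra F X}
variable {V : Lat O X} {M : Lat O (Nz Q)} {i : Bool} {Φ : Submodule O (V.V × M.V)}
  {b : Module.Basis (Fin n) O V.V} {b' : Module.Basis (Fin n') O M.V}
  {g g' : RingAut (MonoidAlgebra F X)} {w w' x x' : MonoidAlgebra F X}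

theorem rlla_ln {W : Lat O Y} {c0 : Module.Basis (Fin n) O W.V} (h : MR H ι W c0 ρ)
    (hm : MM F (HX F H) e ρ) (he : e ∈ Irr F (HX F H)) (hl : Lin F γ) {d : Y ≃* Y}
    (hd : ∀ y, γ (gu F X (ι y)) = gu F X (ι (d y))) (ha : a ∈ span F (HX F H)) (h1 : a * e = a)
    {w0 : Module.End O W.V} (hn : NL p W d w0) {c : F} (hc : c ≠ 0) (hw : ρ a = c • mF c0 w0) :
    a ∈ Ln F (HX F H) e γ := by
  have hs : ∀ y, gu F X (ι y) ∈ span F (HX F H) := fun y =>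
    subset_span (aga_mem.2 (h.ran ▸ ⟨y, rfl⟩))
  refine ⟨ha, h1, fun h0 => ?_, ?_⟩
  · rw [h0, map_zero] at hw
    have h2 := mF_det c0 w0
    have : Nonempty (Fin n) := ⟨⟨0, hm.pos⟩⟩
    rw [(smul_eq_zero.1 hw.symm).resolve_left hc, Matrix.det_zero] at h2
    obtain ⟨m, hm1, hm2⟩ := hn.det
    have h3 : LinearMap.det w0 = 0 := Subtype.ext h2.symm
    rw [h3, zero_pow (fun h4 : m = 0 => hm1 (by rw [h4]; exact dvd_zero p))] at hm2
    exact zero_ne_one hm2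
  · rintro _ ⟨t, -, z, hz, rfl⟩
    rw [← h.ran] at hz
    obtain ⟨y, rfl⟩ := hz
    rw [hl, mul_smul_comm, smul_mul_assoc, hd]
    congr 1
    refine te_ext hm he (gu_span_mul H _ ha _ (hs y)) (gu_span_mul H _ (hs _) _ ha) ?_ ?_ ?_
    · rw [mul_assoc, te_cen he (hs y), ← mul_assoc, h1]
    · rw [mul_assoc, h1]
    · rw [hm.mul _ ha _ (hs y), hm.mul _ (hs _) _ ha, h.val, h.val, hw, smul_mul_assoc,
        mul_smul_comm, ← mF_mul, ← mF_mul]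
      congr 2
      exact LinearMap.ext fun v => hn.act y v

theorem rlla_top (a : MonoidAlgebra F X) : a ∈ span F (HX F (⊤ : Subgroup X)) := by
  rw [gu_span]; trivial

theorem ul_int (h : LC p Q e ψ V M i Φ b b' ρ ρ') (hU : UL p GG Q e ψ V M Φ b b' ρ ρ' g w w') :
    g ∈ Gm GG Q ⊓ Fx e ⊓ Fx ψ ∧ Lin F g ∧ w ∈ Ln F (HX F ⊤) e g ∧
      w' ∈ Ln F (HX F (NQ Q)) ψ g := by
  obtain ⟨h1, h2, h3, h4, h5, α, β, hr, hα, c, w0, w0', hc, hu, e1, e2⟩ := hU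
  exact ⟨h1, h2, rlla_ln h.mr h.mm h.ie h2 (d := α) hα (rlla_top w) h3 hu.l hc e1,
    rlla_ln h.mr' h.mm' h.ip h2 (d := β)
      (fun y => (hα y).trans (congrArg (gu F X) (hr.coe y).symm)) h4 h5 hu.r hc e2⟩

theorem ul_tot (hW : Wt p O) (hX : commutator X = ⊤) (hQ : Syl p Q)
    (h2 : ¬ p ^ 2 ∣ Nat.card X) (h : LC p Q e ψ V M i Φ b b' ρ ρ')
    (hg : g ∈ Gm GG Q ⊓ Fx e ⊓ Fx ψ) (hl : Lin F g) :
    ∃ w w', UL p GG Q e ψ V M Φ b b' ρ ρ' g w w' := by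
  have : Fact p.Prime := ⟨hW.prime⟩
  obtain ⟨σ, -, α, hσ, hα, hq, -⟩ := gm_aut hX hQ.card h2 hg.1.1
  have hs : SL F 1 g := lin_iff.1 hl
  obtain ⟨β, hr⟩ := exists_res (Q := Q) α hq
  have hψ : g ψ = ψ := hg.2
  have hch : ∀ y, M.ch (β y) = M.ch y := fun y =>
    Lat.Idem.fix (σ := 1) (σ0 := RingEquiv.refl O) (fun _ => rfl) h.idm (fun z => by
      have k := coeff_aut hs hα ψ (z : X)
      rw [hψ, ← hr.coe] at k
      exact k) y
  obtain ⟨w0, w0', hu⟩ := hW.u_tot hQ h.typ h.nrk hr hch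
  obtain ⟨w, -, k1, k2⟩ := te_lift (nice_Hm0 gu_tg ⊤) h.mm h.ie (mF b w0)
  obtain ⟨w', k3, k4, k5⟩ := te_lift (nice_Hm0 gu_tg (Nz Q)) h.mm' h.ip (mF b' w0')
  exact ⟨w, w', hg, hl, k1, k3, k4, α, β, hr, hα, 1, w0, w0', one_ne_zero, hu,
    by rw [one_smul, k2], by rw [one_smul, k5]⟩

theorem ul_smul (hU : UL p GG Q e ψ V M Φ b b' ρ ρ' g w w') {c : F} (hc : c ≠ 0) :
    UL p GG Q e ψ V M Φ b b' ρ ρ' g (c • w) (c • w') := by
  obtain ⟨h1, h2, h3, h4, h5, α, β, hr, hα, d, w0, w0', hd, hu, e1, e2⟩ := hU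
  exact ⟨h1, h2, by rw [smul_mul_assoc, h3], smul_mem _ _ h4, by rw [smul_mul_assoc, h5], α, β, hr,
    hα, c * d, w0, w0', mul_ne_zero hc hd, hu, by rw [map_smul, e1, mul_smul],
    by rw [map_smul, e2, mul_smul]⟩

theorem ul_mul (hp : p.Prime) (h : LC p Q e ψ V M i Φ b b' ρ ρ')
    (hU : UL p GG Q e ψ V M Φ b b' ρ ρ' g w w') (hU' : UL p GG Q e ψ V M Φ b b' ρ ρ' g' x x') :
    UL p GG Q e ψ V M Φ b b' ρ ρ' (g * g') (w * x) (w' * x') := by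
  obtain ⟨h1, h2, h3, h4, h5, α, β, hr, hα, c, w0, w0', hc, hu, e1, e2⟩ := hU
  obtain ⟨k1, k2, k3, k4, k5, α', β', kr, kα, d, x0, x0', hd, ku, f1, f2⟩ := hU'
  refine ⟨mul_mem h1 k1, fun t z => ?_, by rw [mul_assoc, k3], gu_span_mul _ _ h4 _ k4,
    by rw [mul_assoc, k5], α'.trans α, β'.trans β,
    ⟨fun y => (hr.mem _).trans (kr.mem y), fun y => ?_⟩, fun y => ?_, c * d, w0 * x0, w0' * x0',
    mul_ne_zero hc hd, U0.mul hp hu ku (fun _ => rfl) fun _ => rfl, ?_, ?_⟩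
  · change g (g' (t • z)) = t • g (g' z)
    rw [k2, h2]
  · change (β (β' y) : X) = α (α' y)
    rw [hr.coe, kr.coe]
  · change g (g' (gu F X y)) = gu F X (α (α' y))
    rw [kα, hα]
  · rw [h.mm.mul _ (rlla_top w) _ (rlla_top x), e1, f1, smul_mul_smul_comm, mF_mul]
  · rw [h.mm'.mul _ h4 _ k4, e2, f2, smul_mul_smul_comm, mF_mul]

end Pool.Agent.Lib.MP_1ae3da_al.CT.R5
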