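import Pool.Agent.Lib.MP_1ae3da_al.C.RLMM
import Pool.Agent.Lib.MP_1ae3da_al.C.RLW
import Pool.Agent.Lib.MP_1ae3da_al.C.RLU0
import Pool.Agent.Lib.MP_1ae3da_al.C.RCi

set_option autoImplicit false
set_option linter.unusedSectionVars false

namespace Pool.Agent.Lib.MP_1ae3da_al.CT.R5

open Function Submodule

variable {F k X Y : Type} [Field F] [CharZero F] [IsAlgClosed F] [Field k] [Group X] [Finite X]
  [Group Y] [Finite Y] {p : ℕ} {O R : Subring F} [IsDiscreteValuationRing O] {r : F → k}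
  {GG : Subgroup (RingAut F)} {Q H : Subgroup X} {ι : Y →* X} {n n' : ℕ}
  {ρ : MonoidAlgebra F X →ₗ[F] Matrix (Fin n) (Fin n) F}
  {ρ' : MonoidAlgebra F X →ₗ[F] Matrix (Fin n') (Fin n') F}
  {σ : RingAut F} {γ : RingAut (MonoidAlgebra F X)} {a a' e ψ : MonoidAlgebra F X}
variable {V : Lat O X} {M : Lat O (Nz Q)} {i : Bool} {Φ : Submodule O (V.V × M.V)}
  {b : Module.Basis (Fin n) O V.V} {b' : Module.Basis (Fin n') O M.V}
  {g g' : RingAut (MonoidAlgebra F X)} {w w' x x' : MonoidAlgebra F X}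

theorem rllb_gu {y z : X} (h : gu F X y = gu F X z) : y = z :=
  (gu_inj one_ne_zero (congrArg ((1 : F) • ·) h)).1

theorem ul_fn (hW : Wt p O) (hQ : Syl p Q) (h : LC p Q e ψ V M i Φ b b' ρ ρ')
    (hU : UL p GG Q e ψ V M Φ b b' ρ ρ' g w w') (hU' : UL p GG Q e ψ V M Φ b b' ρ ρ' g w x') :
    w' = x' := by
  obtain ⟨-, -, -, s1, e1, α, β, r1, g1, c, w0, w0', -, u1, k1, k1'⟩ := hU
  obtain ⟨-, -, -, s2, e2, α2, β2, r2, g2, c2, x0, x0', -, u2, k2, k2'⟩ := hU'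
  obtain rfl : α = α2 := MulEquiv.ext fun y => rllb_gu ((g1 y).symm.trans (g2 y))
  obtain rfl : β = β2 := MulEquiv.ext fun y => Subtype.ext ((r1.coe y).trans (r2.coe y).symm)
  obtain ⟨u, rfl, rfl⟩ := hW.u_fn hQ h.typ h.sca h.nrk u1 u2
  have h0 : (mF b w0 : Matrix _ _ F) ≠ 0 := fun k => by
    have z : w0 = (0 : O) • w0 := mF_inj b (by rw [mF_smul, k, smul_zero])
    have := h.typ.irr.1
    obtain ⟨v, hv⟩ := exists_ne (0 : V.V)
    exact hv ((rlu0_bij u1.l).1 (by rw [map_zero, z, zero_smul, LinearMap.zero_apply]))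
  rw [k1, mF_smul, smul_smul] at k2
  refine te_ext h.mm' h.ip s1 s2 e1 e2 ?_
  rw [k1', k2', mF_smul, smul_smul, smul_left_injective F h0 k2]

theorem ul_loc (hp : p.Prime) (hX : commutator X = ⊤) (hQ : Syl p Q)
    (h : LC p Q e ψ V M i Φ b b' ρ ρ') (hg : g ∈ Gm GG Q ⊓ Fx e ⊓ Fx ψ) (hl : Lin F g)
    {m : MonoidAlgebra F X} (hm : m ∈ HX F (NQ Q))
    (hx : ∀ y ∈ HX F (⊤ : Subgroup X), m * y = g y * m) :
    UL p GG Q e ψ V M Φ b b' ρ ρ' g (m * e) (m * ψ) := by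
  have hs : m ∈ span F (HX F (NQ Q)) := subset_span hm
  obtain ⟨c, hc, t, ht, rfl⟩ := hm
  refine ⟨hg, hl, by rw [mul_assoc, h.ie.2.1], gu_span_mul _ _ hs _ h.ip.1.1,
    by rw [mul_assoc, h.ip.2.1], MulAut.conj t, MulAut.conj (⟨t, ht⟩ : Nz Q),
    ⟨fun y => (Subgroup.mem_normalizer_iff.1 ht y).symm, fun _ => rfl⟩, fun y => ?_, c,
    V.ρ t, M.ρ ⟨t, ht⟩, hc, u_loc hp hQ hX h.typ ⟨t, ht⟩ (fun _ => rfl) fun _ => rfl, ?_, ?_⟩
  · have k := hx (gu F X y) (aga_mem.2 trivial)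
    rw [smul_mul_assoc, mul_smul_comm] at k
    have k2 := congrArg (· * gu F X t⁻¹) (smul_right_injective _ hc k)
    simp only [mul_assoc, gu_mul, mul_inv_cancel, gu_one, mul_one] at k2
    rw [← k2, MulAut.conj_apply, mul_assoc]
  · rw [td_cut h.ie.1.1 h.mm (gu_span.ge trivial), map_smul]
    exact congrArg (c • ·) (h.mr.val t)
  · rw [td_cut h.ip.1.1 h.mm' hs, map_smul]
    exact congrArg (c • ·) (h.mr'.val ⟨t, ht⟩)

theorem ul_nat (hP : PM p O R r GG) (hX : commutator X = ⊤) (hQ : Syl p Q)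
    (h2 : ¬ p ^ 2 ∣ Nat.card X) (h : LC p Q e ψ V M i Φ b b' ρ ρ')
    (hγ : γ ∈ Gm GG Q ⊓ Fx e ⊓ Fx ψ) (hU : UL p GG Q e ψ V M Φ b b' ρ ρ' g w w') :
    UL p GG Q e ψ V M Φ b b' ρ ρ' (γ * g * γ⁻¹) (γ w) (γ w') := by
  haveI : Fact p.Prime := ⟨hP.prime⟩
  obtain ⟨hg, hl, e0, s1, e1, α, β, r1, g1, c, w0, w0', hc, u1, k1, k1'⟩ := hU
  obtain ⟨σ, hσ, δ, hs, hδ, hδQ, -⟩ := gm_aut hX hQ.card h2 hγ.1.1
  obtain ⟨σ0, h0⟩ := res_O hP hσ
  obtain ⟨d, hd⟩ := exists_res δ hδQ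
  have fe : γ e = e := hγ.1.2
  have fψ : γ ψ = ψ := hγ.2
  have hch := Lat.Idem.fix h0 (d := d) h.idm fun y => by
    have := coeff_aut hs hδ ψ y
    rw [fψ, ← hd.coe] at this
    exact this
  obtain ⟨G, G', hG, hG', hΦ⟩ := (wt_of_pm hP).nat_ex hQ h.typ σ0 hd hch
  obtain ⟨x0, x0', u2, q, q'⟩ := U0.nat hG hG' hΦ u1 (a' := δ.symm.trans (α.trans δ))
    (b' := d.symm.trans (β.trans d)) (fun y => by simp) fun y => by simp
  refine ⟨mul_mem (mul_mem hγ hg) (inv_mem hγ), hs.lin hl, ?_,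
    (span_stb hγ.1.1.1.1 hγ.1.1.2).2 s1, ?_, _, _, ⟨fun y => ?_, fun y => ?_⟩, fun y => ?_,
    σ c, x0, x0', (map_ne_zero σ).2 hc, u2,
    h.mr.nat h.mr h0 hG hs hδ (gu_span.ge trivial) q k1,
    h.mr'.nat h.mr' h0 hG' hs (fun y => (hδ y).trans (congrArg _ (hd.coe y).symm)) s1 q' k1'⟩
  · rw [← fe, ← map_mul, e0]
  · rw [← fψ, ← map_mul, e1]
  · obtain ⟨y, rfl⟩ := δ.surjective y
    simp only [MulEquiv.trans_apply, MulEquiv.symm_apply_apply]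
    rw [hδQ, r1.mem, hδQ]
  · obtain ⟨y, rfl⟩ := d.surjective y
    simp only [MulEquiv.trans_apply, MulEquiv.symm_apply_apply, hd.coe, r1.coe]
  · obtain ⟨y, rfl⟩ := δ.surjective y
    simp only [MulEquiv.trans_apply, MulEquiv.symm_apply_apply]
    rw [← hδ, tc_conj, g1, hδ]

end Pool.Agent.Lib.MP_1ae3da_al.CT.R5
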