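import Mathlib

/-! Lifting maps between Tate cohomology groups of a cyclic group of prime order. -/

namespace Pool.Agent.Lib.MP_1ae3da_al.R5

open Module Polynomial IsLocalRing TensorProduct

/-- A finite module on which the generator of the maximal ideal is injective is free. -/
theorem l1_free {S M : Type*} [CommRing S] [IsLocalRing S] [IsNoetherianRing S] [AddCommGroup M]
    [Module S M] [Module.Finite S M] {π : S} (hπ : maximalIdeal S = Ideal.span {π})
    (h : ∀ m : M, π • m = 0 → m = 0) : Module.Free S M := by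
  have : Module.FinitePresentation S M := Module.finitePresentation_of_finite S M
  refine Module.free_of_maximalIdeal_rTensor_injective ((injective_iff_map_eq_zero _).2 fun x hx => ?_)
  have mem : π ∈ maximalIdeal S := hπ ▸ Ideal.mem_span_singleton_self π
  obtain ⟨m, rfl⟩ : ∃ m, x = (⟨π, mem⟩ : maximalIdeal S) ⊗ₜ m := by
    clear hx
    induction x with
    | zero => exact ⟨0, by simp⟩
    | tmul a m =>
      obtain ⟨c, e⟩ := Ideal.mem_span_singleton'.1 (hπ ▸ a.2 : a.1 ∈ Ideal.span {π})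
      exact ⟨c • m, by rw [← smul_tmul]; congr 1; exact Subtype.ext e.symm⟩
    | add x y a b =>
      obtain ⟨m, rfl⟩ := a
      obtain ⟨n, rfl⟩ := b
      exact ⟨m + n, (tmul_add ..).symm⟩
  rw [h m (by simpa using congrArg (TensorProduct.lid S M) hx), tmul_zero]

variable {O V K T : Type*} [CommRing O] [AddCommGroup V] [Module O V] [AddCommGroup K]
  [Module O K] [AddCommGroup T] [Module O T]

/-- Extension of a map from a submodule when the quotient is a vector space. -/
theorem l1_ext {π : O} (hπ : (Ideal.span {π}).IsMaximal) (A B : Submodule O V)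
    (hB : ∀ v, π • v ∈ B) (a : A →ₗ[O] T) (h : ∀ v : A, v.1 ∈ B → a v = 0) :
    ∃ b : V →ₗ[O] T, (∀ v : A, b v = a v) ∧ ∀ v ∈ B, b v = 0 := by
  have t : Module.IsTorsionBySet O (V ⧸ B) (Ideal.span {π} : Ideal O) :=
    (Module.isTorsionBySet_span_singleton_iff π).2 fun x => by
      obtain ⟨v, rfl⟩ := B.mkQ_surjective x
      exact (Submodule.Quotient.mk_eq_zero _).2 (hB v)
  have : IsSemisimpleModule O (V ⧸ B) := by
    rw [← t.isSemisimpleModule_iff]
    let _ := Ideal.Quotient.field (Ideal.span {π})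
    let _ := t.module
    infer_instance
  obtain ⟨c, e⟩ := IsSemisimpleModule.extension_property
    ((B.comap A.subtype).mapQ B A.subtype le_rfl)
    (LinearMap.ker_eq_bot.1 (by rw [Submodule.ker_mapQ, Submodule.mkQ_map_self]))
    ((B.comap A.subtype).liftQ a fun v c => h v c)
  exact ⟨c ∘ₗ B.mkQ, fun v => LinearMap.congr_fun e (Submodule.Quotient.mk v), fun v m => by
    rw [LinearMap.comp_apply, B.mkQ_apply, (Submodule.Quotient.mk_eq_zero _).2 m, map_zero]⟩

/-- The norm of an endomorphism of order `p`. -/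
def Nm (p : ℕ) (g : End O V) : End O V := ∑ i ∈ Finset.range p, g ^ i

theorem l1_pow {g : End O V} {v : V} (h : g v = v) (i : ℕ) : (g ^ i) v = v := by
  induction i with
  | zero => rfl
  | succ i k => rw [pow_succ, End.mul_apply, h, k]

theorem nm_fix {p : ℕ} {g : End O V} {v : V} (h : g v = v) : Nm p g v = (p : O) • v := by
  simp [Nm, LinearMap.sum_apply, l1_pow h, Nat.cast_smul_eq_nsmul]

theorem nm_sub {p : ℕ} {g : End O V} (h : g ^ p = 1) (v : V) : Nm p g (g v - v) = 0 := by
  have := LinearMap.congr_fun (geom_sum_mul g p) v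
  rwa [h, sub_self] at this

theorem sub_nm {p : ℕ} {g : End O V} (h : g ^ p = 1) (v : V) : g (Nm p g v) = Nm p g v := by
  have := LinearMap.congr_fun (mul_geom_sum g p) v
  rw [h, sub_self] at this
  exact sub_eq_zero.1 this

theorem l1_semi {g : End O V} {h : End O K} {f : V →ₗ[O] K} (e : ∀ v, f (g v) = h (f v))
    (P : O[X]) (v : V) : f (aeval g P v) = aeval h P (f v) := by
  induction P using Polynomial.induction_on' with
  | add P Q a b => simp [a, b]
  | monomial n c =>
    simp only [aeval_monomial, End.mul_apply, Module.algebraMap_end_apply, map_smul]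
    congr 1
    induction n with
    | zero => rfl
    | succ n k => rw [pow_succ', pow_succ', End.mul_apply, End.mul_apply, e, k]

theorem nm_semi {g : End O V} {h : End O K} {f : V →ₗ[O] K} (e : ∀ v, f (g v) = h (f v)) (p : ℕ)
    (v : V) : f (Nm p g v) = Nm p h (f v) := by
  simpa [Nm] using l1_semi e (∑ i ∈ Finset.range p, X ^ i) v

variable [IsLocalRing O] [IsNoetherianRing O] {p : ℕ}

/-- Lifting a map on the fixed points. -/
theorem l1_zero [Module.Finite O V] (hp : maximalIdeal O = Ideal.span {(p : O)})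
    (hV : ∀ v : V, (p : O) • v = 0 → v = 0) {g : End O V} (hg : g ^ p = 1) (A : Submodule O V)
    (hA : ∀ v, v ∈ A ↔ g v = v) (a : A →ₗ[O] T) (ha : ∀ (v : A) w, v.1 = Nm p g w → a v = 0)
    (q : K →ₗ[O] T) (hq : Function.Surjective q) :
    ∃ f : V →ₗ[O] K, (∀ v, Nm p g v = 0 → f v = 0) ∧ ∀ v : A, q (f v) = a v := by
  let N := LinearMap.ker (Nm p g)
  obtain ⟨b, b1, b2⟩ := l1_ext (hp ▸ maximalIdeal.isMaximal O) A
    (N ⊔ LinearMap.range ((p : O) • LinearMap.id)) (fun v => Submodule.mem_sup_right ⟨v, rfl⟩) a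
    fun v m => by
      obtain ⟨n, k, _, ⟨w, rfl⟩, e⟩ := Submodule.mem_sup.1 m
      refine ha v w (sub_eq_zero.1 (hV _ ?_))
      rw [smul_sub, ← nm_fix ((hA _).1 v.2), ← e, map_add, k, zero_add, ← map_smul]
      exact sub_self _
  have : Module.Free O (V ⧸ N) := l1_free hp fun x e => by
    obtain ⟨v, rfl⟩ := N.mkQ_surjective x
    refine (Submodule.Quotient.mk_eq_zero _).2 (hV _ ?_)
    rw [← map_smul]
    exact (Submodule.Quotient.mk_eq_zero _).1 e
  obtain ⟨f, e⟩ := Module.projective_lifting_property q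
    (N.liftQ b fun v m => b2 v (Submodule.mem_sup_left m)) hq
  exact ⟨f ∘ₗ N.mkQ, fun v m => by
    rw [LinearMap.comp_apply, N.mkQ_apply, (Submodule.Quotient.mk_eq_zero _).2 m, map_zero],
    fun v => (LinearMap.congr_fun e (Submodule.Quotient.mk v.1)).trans (b1 v)⟩

variable (O p) in
/-- The cyclotomic polynomial. -/
noncomputable def l1P : O[X] := ∑ i ∈ Finset.range p, X ^ i

omit [IsLocalRing O] [IsNoetherianRing O] in
theorem l1_aeval {A : Type*} [Semiring A] [Algebra O A] (x : A) :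
    aeval x (l1P O p) = ∑ i ∈ Finset.range p, x ^ i := by simp [l1P]

omit [IsNoetherianRing O] in
theorem l1_loc (pp : p.Prime) (hp : maximalIdeal O = Ideal.span {(p : O)}) :
    ∃ _ : IsLocalRing (AdjoinRoot (l1P O p)), maximalIdeal (AdjoinRoot (l1P O p)) =
      Ideal.span {AdjoinRoot.root (l1P O p) - 1} := by
  set r := AdjoinRoot.root (l1P O p)
  have mo : (l1P O p).Monic := monic_geom_sum_X pp.ne_zero
  have := mo.finite_adjoinRoot
  have z : ∑ i ∈ Finset.range p, r ^ i = 0 := by
    refine .trans ?_ ((AdjoinRoot.aeval_eq (l1P O p)).trans AdjoinRoot.mk_self)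
    exact (l1_aeval r).symm
  have pm : (p : O) ∈ maximalIdeal O := hp ▸ Ideal.mem_span_singleton_self _
  let ε : AdjoinRoot (l1P O p) →+* ResidueField O := AdjoinRoot.lift (residue O) 1 (by
    simpa [l1P, eval₂_finsetSum] using (residue_eq_zero_iff (p : O)).2 pm)
  have ev (f : O[X]) : AdjoinRoot.mk _ f - algebraMap O _ (f.eval 1) ∈ Ideal.span {r - 1} := by
    obtain ⟨c, e⟩ := X_sub_C_dvd_sub_C_eval (a := (1 : O)) (p := f)
    refine Ideal.mem_span_singleton.2 ⟨AdjoinRoot.mk _ c, ?_⟩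
    simpa using congrArg (AdjoinRoot.mk (l1P O p)) e
  have pr : algebraMap O _ (p : O) ∈ Ideal.span {r - 1} := by
    have := ev (l1P O p)
    rwa [AdjoinRoot.mk_self, zero_sub, neg_mem_iff, show (l1P O p).eval 1 = p by
      simp [l1P, eval_finsetSum]] at this
  have ke : RingHom.ker ε = Ideal.span {r - 1} := by
    refine le_antisymm (fun x m => ?_) ((Ideal.span_singleton_le_iff_mem _).2 (by simp [ε, r]))
    obtain ⟨f, rfl⟩ := AdjoinRoot.mk_surjective x
    have : f.eval 1 ∈ Ideal.span {(p : O)} := by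
      rw [← hp, ← residue_eq_zero_iff]
      simpa [ε, eval₂_at_one] using m
    obtain ⟨c, e⟩ := Ideal.mem_span_singleton'.1 this
    have k := ev f
    rw [← e, map_mul] at k
    simpa using Ideal.add_mem _ k (Ideal.mul_mem_left _ (algebraMap O _ c) pr)
  have mx : (Ideal.span {r - 1}).IsMaximal := ke ▸ RingHom.ker_isMaximal_of_surjective ε fun y => by
    obtain ⟨x, rfl⟩ := residue_surjective y
    exact ⟨AdjoinRoot.of _ x, AdjoinRoot.lift_of _⟩
  have un (J : Ideal (AdjoinRoot (l1P O p))) (hJ : J.IsMaximal) : J = Ideal.span {r - 1} := by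
    refine (mx.eq_of_le hJ.ne_top ((Ideal.span_singleton_le_iff_mem _).2
      (hJ.isPrime.mem_of_pow_mem p ?_))).symm
    have m : (p : O) ∈ J.comap (algebraMap O _) := by
      rwa [eq_maximalIdeal (Ideal.isMaximal_comap_of_isIntegral_of_isMaximal (R := O) J)]
    obtain ⟨c, e⟩ := exists_add_pow_prime_eq pp (r - 1) 1
    have o := geom_sum_mul r p
    rw [z, zero_mul, eq_comm, sub_eq_zero] at o
    rw [sub_add_cancel, o, one_pow] at e
    rw [show (r - 1) ^ p = -((r - 1) * c) * algebraMap O _ (p : O) by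
      rw [map_natCast]; linear_combination -e]
    exact J.mul_mem_left _ m
  have := IsLocalRing.of_unique_max_ideal ⟨_, mx, un⟩
  exact ⟨this, un _ (maximalIdeal.isMaximal _)⟩

omit [IsLocalRing O] [IsNoetherianRing O] in
/-- The action of the cyclotomic ring. -/
noncomputable def l1A {g : End O V} (h : Nm p g = 0) : AdjoinRoot (l1P O p) →+* End O V :=
  Ideal.Quotient.lift _ (aeval g : O[X] →ₐ[O] End O V) fun a m => by
    obtain ⟨c, rfl⟩ := Ideal.mem_span_singleton'.1 m
    exact (map_mul (aeval g) _ _).trans (by rw [l1_aeval, ← Nm, h, mul_zero])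

/-- Lifting over the cyclotomic ring. -/
theorem l1_cyc [Module.Finite O V] (pp : p.Prime) (hp : maximalIdeal O = Ideal.span {(p : O)})
    {g : End O V} (hg : Nm p g = 0) (hi : ∀ v, g v = v → v = 0) {h : End O K} (hh : Nm p h = 0)
    (q : K →ₗ[O] T) (hq : Function.Surjective q) (e : ∀ k, q (h k) = q k) (b : V →ₗ[O] T)
    (hb : ∀ v, b (g v) = b v) : ∃ f : V →ₗ[O] K, (∀ v, f (g v) = h (f v)) ∧ ∀ v, q (f v) = b v := by
  have hT : Nm p (1 : End O T) = 0 := LinearMap.ext fun t => by
    obtain ⟨k, rfl⟩ := hq t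
    rw [← nm_semi (g := h) (h := 1) e, hh]
    simp
  let S := AdjoinRoot (l1P O p)
  obtain ⟨_, hm⟩ := l1_loc pp hp
  let _ : Module S V := Module.compHom V (l1A hg)
  let _ : Module S K := Module.compHom K (l1A hh)
  let _ : Module S T := Module.compHom T (l1A hT)
  have sV (P : O[X]) (v : V) : AdjoinRoot.mk (l1P O p) P • v = aeval g P v := rfl
  have sK (P : O[X]) (v : K) : AdjoinRoot.mk (l1P O p) P • v = aeval h P v := rfl
  have : IsScalarTower O S V := .of_algebraMap_smul fun c v => (sV (C c) v).trans (by simp)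
  have : IsScalarTower O S K := .of_algebraMap_smul fun c v => (sK (C c) v).trans (by simp)
  have : Module.Finite S V := .of_restrictScalars_finite O S V
  have : Module.Free S V := l1_free hm fun v z => hi v (by
    rw [sub_smul, one_smul, sub_eq_zero] at z
    simpa using (sV X v).symm.trans z)
  let q' : K →ₗ[S] T := ⟨q.toAddHom, fun s k => by
    obtain ⟨P, rfl⟩ := AdjoinRoot.mk_surjective s
    exact l1_semi (g := h) (h := 1) e P k⟩
  let b' : V →ₗ[S] T := ⟨b.toAddHom, fun s k => by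
    obtain ⟨P, rfl⟩ := AdjoinRoot.mk_surjective s
    exact l1_semi (g := g) (h := 1) hb P k⟩
  obtain ⟨f, k⟩ := Module.projective_lifting_property q' b' hq
  refine ⟨f.restrictScalars O, fun v => ?_, fun v => LinearMap.congr_fun k v⟩
  have := f.map_smul (AdjoinRoot.mk _ X) v
  rwa [sV, sK, aeval_X, aeval_X] at this

/-- Lifting a map on the kernel of the norm. -/
theorem l1_one [Module.Finite O V] (pp : p.Prime) (hp : maximalIdeal O = Ideal.span {(p : O)})
    (hV : ∀ v : V, (p : O) • v = 0 → v = 0) {g : End O V} (hg : g ^ p = 1) (A : Submodule O V)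
    (hA : ∀ v, v ∈ A ↔ Nm p g v = 0) (a : A →ₗ[O] T) (ha : ∀ (v : A) w, v.1 = g w - w → a v = 0)
    {h : End O K} (hh : Nm p h = 0) (q : K →ₗ[O] T) (hq : Function.Surjective q)
    (e : ∀ k, q (h k) = q k) : ∃ f : V →ₗ[O] K, (∀ v, f (g v) = h (f v)) ∧
      (∀ v, g v = v → f v = 0) ∧ ∀ v : A, q (f v) = a v := by
  let N := LinearMap.ker (g - 1)
  have mN (v) : v ∈ N ↔ g v = v := sub_eq_zero
  obtain ⟨b, b1, b2⟩ := l1_ext (hp ▸ maximalIdeal.isMaximal O) A
    (N ⊔ LinearMap.range (g - 1)) (fun v => by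
      have s (i : ℕ) : v - (g ^ i) v ∈ LinearMap.range (g - 1) :=
        ⟨-(∑ j ∈ Finset.range i, g ^ j) v, by
          rw [map_neg, ← End.mul_apply, mul_geom_sum]
          simp⟩
      rw [show (p : O) • v = Nm p g v + ∑ i ∈ Finset.range p, (v - (g ^ i) v) by
        simp [Nm, LinearMap.sum_apply, Nat.cast_smul_eq_nsmul]]
      exact Submodule.add_mem_sup ((mN _).2 (sub_nm hg v)) (Submodule.sum_mem _ fun i _ => s i)) a
    fun v m => by
      obtain ⟨n, k, _, ⟨w, rfl⟩, e⟩ := Submodule.mem_sup.1 m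
      have z : n = 0 := hV _ (by
        rw [← nm_fix ((mN _).1 k), ← (hA _).1 v.2, ← e, map_add]
        exact (add_eq_left.2 (nm_sub hg w)).symm)
      exact ha v w (by rw [← e, z, zero_add]; rfl)
  let g' : End O (V ⧸ N) := N.mapQ N g fun v m => (mN _).2 (congrArg g ((mN _).1 m))
  have s (v) : N.mkQ (g v) = g' (N.mkQ v) := rfl
  obtain ⟨f, f1, f2⟩ := l1_cyc pp hp (g := g') (LinearMap.ext fun x => by
      obtain ⟨v, rfl⟩ := N.mkQ_surjective x
      exact (nm_semi s p v).symm.trans
        ((Submodule.Quotient.mk_eq_zero _).2 ((mN _).2 (sub_nm hg v))))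
    (fun x z => by
      obtain ⟨v, rfl⟩ := N.mkQ_surjective x
      have m : g v - v ∈ N := (Submodule.Quotient.eq _).1 z
      exact (Submodule.Quotient.mk_eq_zero _).2 ((mN _).2 (sub_eq_zero.1 (hV _
        ((nm_fix ((mN _).1 m)).symm.trans (nm_sub hg v))))))
    hh q hq e (N.liftQ b fun v m => b2 v (Submodule.mem_sup_left m)) fun x => by
      obtain ⟨v, rfl⟩ := N.mkQ_surjective x
      exact sub_eq_zero.1 ((map_sub b _ _).symm.trans (b2 _ (Submodule.mem_sup_right ⟨v, rfl⟩)))
  exact ⟨f ∘ₗ N.mkQ, fun v => f1 (N.mkQ v), fun v m => by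
    rw [LinearMap.comp_apply, N.mkQ_apply, (Submodule.Quotient.mk_eq_zero _).2 ((mN _).2 m),
      map_zero], fun v => (f2 _).trans (b1 v)⟩

/-- Every pair of maps between the two Tate groups comes from one equivariant map. -/
theorem l1 {W T' : Type*} [AddCommGroup W] [Module O W] [AddCommGroup T'] [Module O T']
    [Module.Finite O V] (pp : p.Prime) (hp : maximalIdeal O = Ideal.span {(p : O)})
    (hV : ∀ v : V, (p : O) • v = 0 → v = 0) {g : End O V} (hg : g ^ p = 1) {h : End O W}
    (a : LinearMap.ker (g - 1) →ₗ[O] T)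
    (ha : ∀ (v : LinearMap.ker (g - 1)) w, v.1 = Nm p g w → a v = 0)
    (q : LinearMap.ker (h - 1) →ₗ[O] T) (hq : Function.Surjective q)
    (a' : LinearMap.ker (Nm p g) →ₗ[O] T')
    (ha' : ∀ (v : LinearMap.ker (Nm p g)) w, v.1 = g w - w → a' v = 0)
    (q' : LinearMap.ker (Nm p h) →ₗ[O] T') (hq' : Function.Surjective q')
    (e' : ∀ (k : LinearMap.ker (Nm p h)) w, k.1 = h w - w → q' k = 0) :
    ∃ f : V →ₗ[O] W, (∀ v, f (g v) = h (f v)) ∧
      (∀ v : LinearMap.ker (g - 1), ∃ m, q ⟨f v, m⟩ = a v) ∧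
      ∀ v : LinearMap.ker (Nm p g), ∃ m, q' ⟨f v, m⟩ = a' v := by
  have c (k : W) : Nm p h (h k) = h (Nm p h k) := (nm_semi (f := h) (fun _ => rfl) p k).symm
  let h' : End O (LinearMap.ker (Nm p h)) := h.restrict fun k m => by
    rw [LinearMap.mem_ker, c, m, map_zero]
  obtain ⟨f, f1, f2⟩ := l1_zero hp hV hg _ (fun _ => sub_eq_zero) a ha q hq
  obtain ⟨k, k1, k2, k3⟩ := l1_one pp hp hV hg _ (fun _ => Iff.rfl) a' ha' (h := h')
    (LinearMap.ext fun x => Subtype.ext ((nm_semi (g := h') (h := h)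
      (f := (LinearMap.ker (Nm p h)).subtype) (fun _ => rfl) p x).trans x.2)) q' hq'
    fun x => sub_eq_zero.1 ((map_sub q' _ _).symm.trans (e' _ x.1 rfl))
  refine ⟨Submodule.subtype _ ∘ₗ f + Submodule.subtype _ ∘ₗ k, fun v => ?_, fun v => ?_, fun v => ?_⟩
  · have a := f1 _ (nm_sub hg v)
    rw [map_sub, sub_eq_zero] at a
    change (f (g v)).1 + (k (g v)).1 = h ((f v).1 + (k v).1)
    rw [a, k1, map_add, sub_eq_zero.1 (f v).2]
    rfl
  · have z : (f v).1 + (k v).1 = (f v).1 := by rw [k2 _ (sub_eq_zero.1 v.2)]; exact add_zero _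
    exact ⟨(congrArg (· ∈ _) z).mpr (f v).2, (congrArg q (Subtype.ext z)).trans (f2 v)⟩
  · have z : (f v).1 + (k v).1 = (k v).1 := by rw [f1 _ v.2]; exact zero_add _
    exact ⟨(congrArg (· ∈ _) z).mpr (k v).2, (congrArg q' (Subtype.ext z)).trans (k3 v)⟩


end Pool.Agent.Lib.MP_1ae3da_al.R5
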