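import Pool.Agent.Lib.MP_1ae3da_al.C.RLZeta
import Pool.Agent.Lib.MP_1ae3da_al.C.RYa

set_option autoImplicit false
set_option linter.unusedSectionVars false

namespace Pool.Agent.Lib.MP_1ae3da_al.CT.R5

open Function

variable {O X Y : Type} [CommRing O] [IsDomain O] [IsDiscreteValuationRing O] [CharZero O]
  [Group X] [Finite X] [Group Y] [Finite Y] {p : ℕ} {Q : Subgroup X}
variable {U W M : Type} [AddCommGroup U] [Module O U] [Module.Free O U] [Module.Finite O U]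
  [AddCommGroup W] [Module O W] [Module.Free O W] [Module.Finite O W]
  [AddCommGroup M] [Module O M] [Module.Free O M] [Module.Finite O M]

/-- a total relation is a map to a quotient -/
theorem rllift_rel {V Z : Type} [AddCommGroup V] [Module O V] [AddCommGroup Z] [Module O Z]
    (Φ : Submodule O (V × Z)) (A : Submodule O V) (K : Submodule O Z)
    (h : ∀ v ∈ A, ∃ w ∈ K, (v, w) ∈ Φ) :
    ∃ (N : Submodule O K) (a : A →ₗ[O] K ⧸ N), (∀ w : K, w ∈ N ↔ ((0 : V), (w : Z)) ∈ Φ) ∧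
      ∀ (v : A) (w : K), N.mkQ w = a v ↔ ((v : V), (w : Z)) ∈ Φ := by
  choose s s1 s2 using h
  let N : Submodule O K := Φ.comap (LinearMap.inr O V Z ∘ₗ K.subtype)
  have k : ∀ (v : A) (w : K), N.mkQ w = N.mkQ ⟨s v v.2, s1 v v.2⟩ ↔ ((v : V), (w : Z)) ∈ Φ :=
    fun v w => by
    refine (Submodule.Quotient.eq N).trans ?_
    change ((0 : V), (w : Z) - s v v.2) ∈ Φ ↔ _
    exact ⟨fun e => by simpa using Φ.add_mem e (s2 v v.2),
      fun e => by simpa using Φ.sub_mem e (s2 v v.2)⟩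
  refine ⟨N, ⟨⟨fun v => N.mkQ ⟨s v v.2, s1 v v.2⟩, fun x y => ?_⟩, fun c x => ?_⟩,
    fun _ => Iff.rfl, k⟩
  · rw [← map_add]
    exact ((k (x + y) _).2 (Φ.add_mem (s2 x x.2) (s2 y y.2))).symm
  · rw [RingHom.id_apply, ← map_smul]
    exact ((k (c • x) _).2 (Φ.smul_mem c (s2 x x.2))).symm

/-- extension of a relation modulo `p`: the tool for both degrees. -/
theorem Wt.ext (hW : Wt p O) {Z ι : Type} [AddCommGroup Z]
    [Module O Z] [Fintype ι] (S : Submodule O (ι → O)) (hS : ∀ c : ι → O, (p : O) • c ∈ S)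
    (Ψ : Submodule O ((ι → O) × Z)) (h1 : ∀ c ∈ S, ∃ z, (c, z) ∈ Ψ)
    (h2 : ∀ z : Z, ((0 : ι → O), (p : O) • z) ∈ Ψ)
    (h3 : ∀ c : ι → O, ((p : O) • c, (0 : Z)) ∈ Ψ) :
    ∃ f : (ι → O) →ₗ[O] Z, ∀ c ∈ S, (c, f c) ∈ Ψ := by
  obtain ⟨N, a, -, k⟩ := rllift_rel Ψ S ⊤ fun c hc => (h1 c hc).imp fun _ h => ⟨trivial, h⟩
  obtain ⟨b, b1, -⟩ := MP_1ae3da_al.R5.l1_ext
    (hW.irr.maximalIdeal_eq ▸ IsLocalRing.maximalIdeal.isMaximal O) S
    (LinearMap.range ((p : O) • LinearMap.id)) (fun v => ⟨v, rfl⟩) a fun v ⟨c, hc⟩ =>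
      ((k v 0).2 (hc ▸ h3 c)).symm
  obtain ⟨f, e⟩ := Module.projective_lifting_property N.mkQ b N.mkQ_surjective
  exact ⟨Submodule.subtype _ ∘ₗ f, fun c hc =>
    (k ⟨c, hc⟩ (f c)).1 ((LinearMap.congr_fun e c).trans (b1 ⟨c, hc⟩))⟩

theorem Wt.lift (hW : Wt p O) (g : Module.End O U) (g' : Module.End O W) (hg : g ^ p = 1)
    (hg' : g' ^ p = 1) (i : Bool) (Φ : Submodule O (U × W))
    (h1 : ∀ v ∈ zA p g i, ∃ w ∈ zA p g' i, (v, w) ∈ Φ)
    (h2 : ∀ w ∈ zB p g' i, ((0 : U), w) ∈ Φ) (h3 : ∀ v ∈ zB p g i, (v, (0 : W)) ∈ Φ) :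
    ∃ f : U →ₗ[O] W, (∀ v, f (g v) = g' (f v)) ∧ (∀ v ∈ zA p g i, (v, f v) ∈ Φ) ∧
      ∀ v ∈ zA p g (!i), f v = 0 := by
  obtain ⟨N, a, n, k⟩ := rllift_rel Φ _ _ h1
  have hp := hW.irr.maximalIdeal_eq
  have hV : ∀ v : U, (p : O) • v = 0 → v = 0 := fun v h =>
    (smul_eq_zero.1 h).resolve_left hW.irr.ne_zero
  cases i
  · obtain ⟨f, f1, f2⟩ := MP_1ae3da_al.R5.l1_zero hp hV hg (zA p g false) (fun _ => sub_eq_zero) a
      (fun v w e => ((k v 0).2 (h3 _ ⟨w, e.symm⟩)).symm) N.mkQ N.mkQ_surjective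
    refine ⟨Submodule.subtype _ ∘ₗ f, fun v => ?_, fun v hv => (k ⟨v, hv⟩ (f v)).1 (f2 ⟨v, hv⟩),
      fun v hv => congrArg Subtype.val (f1 v hv)⟩
    have e := f1 _ (MP_1ae3da_al.R5.nm_sub hg v)
    rw [map_sub, sub_eq_zero] at e
    change (f (g v)).1 = g' (f v).1
    rw [e]
    exact (sub_eq_zero.1 (f v).2).symm
  · have c (w : W) : MP_1ae3da_al.R5.Nm p g' (g' w) = g' (MP_1ae3da_al.R5.Nm p g' w) :=
      (MP_1ae3da_al.R5.nm_semi (f := g') (fun _ => rfl) p w).symm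
    let h' : Module.End O (zA p g' true) := g'.restrict fun w m =>
      (c w).trans ((congrArg g' m).trans (map_zero _))
    obtain ⟨f, f1, f2, f3⟩ := MP_1ae3da_al.R5.l1_one hW.prime hp hV hg (zA p g true)
      (fun _ => Iff.rfl) a (fun v w e => ((k v 0).2 (h3 _ ⟨w, e.symm⟩)).symm) (h := h')
      (LinearMap.ext fun x => Subtype.ext ((MP_1ae3da_al.R5.nm_semi (g := h') (h := g')
        (f := (zA p g' true).subtype) (fun _ => rfl) p x).trans x.2)) N.mkQ N.mkQ_surjective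
      fun x => (Submodule.Quotient.eq N).2 ((n _).2 (h2 _ ⟨x.1, rfl⟩))
    exact ⟨Submodule.subtype _ ∘ₗ f, fun v => congrArg Subtype.val (f1 v),
      fun v hv => (k ⟨v, hv⟩ (f v)).1 (f3 ⟨v, hv⟩),
      fun v hv => congrArg Subtype.val (f2 v (sub_eq_zero.1 hv))⟩

end Pool.Agent.Lib.MP_1ae3da_al.CT.R5
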