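import Pool.Agent.Lib.MP_1ae3da_al.C.RLTr
import Pool.Agent.Lib.MP_1ae3da_al.C.RLSub
import Pool.Agent.Lib.MP_1ae3da_al.C.RLNorm

set_option autoImplicit false
set_option linter.unusedSectionVars false

namespace Pool.Agent.Lib.MP_1ae3da_al.CT.R5

open Function

variable {O X Y : Type} [CommRing O] [IsDomain O] [IsDiscreteValuationRing O] [CharZero O]
  [Group X] [Finite X] [Group Y] [Finite Y] {p : ℕ} {Q : Subgroup X}

lemma rlloc_proj {V : Type} [AddCommGroup V] [Module O V] [Module.Free O V] [Module.Finite O V]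
    (U T : Submodule O V) (h : ∀ (a : O) (m : V), a • m ∈ U → m ∉ U → a • m ∈ T) :
    ∃ f : V →ₗ[O] V, (∀ v, f v ∈ U) ∧ ∀ u ∈ U, f u - u ∈ T := by
  classical
  obtain ⟨n, bM, bN, e, a, snf⟩ := U.smithNormalForm (Module.Free.chooseBasis O V)
  let f : V →ₗ[O] V := bM.constr O fun j => if bM j ∈ U then bM j else 0
  have hf : ∀ j, f (bM j) = if bM j ∈ U then bM j else 0 := fun j => bM.constr_basis O _ j
  refine ⟨f, fun v => ?_, fun u hu => ?_⟩
  · rw [← bM.sum_repr v, map_sum]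
    refine U.sum_mem fun j _ => ?_
    rw [map_smul, hf]
    split_ifs with c
    · exact U.smul_mem _ c
    · simp
  · have : (f - 1) (U.subtype (∑ i, bN.repr ⟨u, hu⟩ i • bN i)) ∈ T := by
      rw [map_sum, map_sum]
      refine T.sum_mem fun i _ => ?_
      rw [map_smul, map_smul]
      refine T.smul_mem _ ?_
      rw [Submodule.subtype_apply, snf, LinearMap.sub_apply, map_smul, hf, Module.End.one_apply]
      split_ifs with c
      · simp
      · rw [smul_zero, zero_sub]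
        exact T.neg_mem (h _ _ (snf i ▸ (bN i).2) c)
    rwa [bN.sum_repr] at this

lemma rlloc_div (hW : Wt p O) {M M' : Lat O X} {f : M.V →ₗ[O] M'.V} (hf : M.Hom M' f)
    (h : ∀ v, ∃ m, f v = (p : O) • m) : ∃ g : M.V →ₗ[O] M'.V, M.Hom M' g ∧ f = (p : O) • g := by
  choose m hm using h
  let b := Module.Free.chooseBasis O M.V
  have e : f = (p : O) • b.constr O fun j => m (b j) := b.ext fun j => by simp [hm]
  refine ⟨_, fun x v => smul_right_injective M'.V hW.irr.ne_zero ?_, e⟩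
  have := hf x v
  rw [e, LinearMap.smul_apply, LinearMap.smul_apply, map_smul] at this
  exact this

/-- equivariant maps as a submodule -/
def rllocH (M M' : Lat O X) : Submodule O (M.V →ₗ[O] M'.V) where
  carrier := {f | M.Hom M' f}
  add_mem' := fun {f g} hf hg x v => by simp [hf x v, hg x v]
  zero_mem' := fun x v => by simp
  smul_mem' := fun c f hf x v => by simp [hf x v]

/-- the multiples of `p` -/
def rllocP (p : ℕ) (M : Lat O X) : Submodule O M.V := LinearMap.range ((p : O) • LinearMap.id)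

lemma rlloc_mem {M : Lat O X} {v : M.V} : v ∈ rllocP p M ↔ ∃ m, v = (p : O) • m :=
  exists_congr fun _ => eq_comm

lemma rlloc_st (M : Lat O X) : M.St (rllocP p M) := fun x v hv => by
  obtain ⟨m, rfl⟩ := rlloc_mem.1 hv
  exact rlloc_mem.2 ⟨_, map_smul _ _ _⟩

theorem Wt.avg (hW : Wt p O) (hQ : Syl p Q) [Q.Normal] {M M' : Lat O X} (hM : M.Triv Q)
    (hM' : M'.Triv Q) (f0 : M.V →ₗ[O] M'.V) :
    ∃ f : M.V →ₗ[O] M'.V, M.Hom M' f ∧
      ∀ (D : Submodule O M.V) (Φ : Submodule O (M.V × M'.V)), M.St D →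
        (∀ x v w, (v, w) ∈ Φ → (M.ρ x v, M'.ρ x w) ∈ Φ) → (∀ v ∈ D, (v, f0 v) ∈ Φ) →
        ∀ v ∈ D, (v, f v) ∈ Φ := by
  obtain ⟨f, hf, h⟩ := hW.tr hQ f0 fun g hg v => by rw [hM g hg, hM' g hg]; rfl
  exact ⟨f, hf, fun D Φ hD hΦ h0 => h D Φ (fun n _ => hD n) (fun n _ => hΦ n) h0
    (Or.inl (Subgroup.normalizer_eq_top Q))⟩

lemma rlloc_avg (hW : Wt p O) (hQ : Syl p Q) [Q.Normal] {M : Lat O X} (hM : M.Triv Q)
    {U T : Submodule O M.V} (hU : M.St U) (hT : M.St T)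
    (h : ∀ (a : O) (m : M.V), a • m ∈ U → m ∉ U → a • m ∈ T) :
    ∃ f : M.V →ₗ[O] M.V, M.Hom M f ∧ (∀ v, f v ∈ U) ∧ ∀ u ∈ U, f u - u ∈ T := by
  obtain ⟨f0, h1, h2⟩ := rlloc_proj U T h
  obtain ⟨f, hf, k⟩ := hW.avg hQ hM hM f0
  refine ⟨f, hf, fun v => k ⊤ (U.comap (LinearMap.snd O _ _)) (fun _ _ _ => trivial)
    (fun x v w hw => hU x w hw) (fun v _ => h1 v) v trivial, fun u hu =>
    k U (T.comap (LinearMap.snd O M.V M.V - LinearMap.fst O M.V M.V)) hU (fun x v w hw => ?_) h2 u hu⟩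
  have := hT x (w - v) hw
  rwa [map_sub] at this

theorem Wt.loc_split (hW : Wt p O) (hQ : Syl p Q) [Q.Normal] {M : Lat O X} (hM : M.Triv Q)
    {U : Submodule O M.V} (hU : M.St U) (hp : Pure U) : ∃ U', M.St U' ∧ IsCompl U U' := by
  obtain ⟨f, hf, h1, h2⟩ := rlloc_avg hW hQ hM hU (T := ⊥) (fun x v hv => by
    rw [(Submodule.mem_bot O).1 hv, map_zero]; exact Submodule.zero_mem _) fun a m ha hm => by
      by_cases c : a = 0
      · simp [c]
      · exact absurd (hp a m c ha) hm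
  refine ⟨LinearMap.ker f, hf.ker_st.1, ?_⟩
  have := LinearMap.isCompl_of_proj (f := f.codRestrict U h1) fun x =>
    Subtype.ext (sub_eq_zero.1 (h2 x x.2))
  rwa [LinearMap.ker_codRestrict] at this

theorem Wt.loc_ne (hW : Wt p O) {M : Lat O X} (h : Nontrivial M.V) :
    ∃ m : M.V, ¬ ∃ m', m = (p : O) • m' := by
  by_contra c
  push Not at c
  obtain ⟨m, hm⟩ := exists_ne (0 : M.V)
  refine hm (hW.nak (⊤ : Submodule O M.V) ⊥ (fun v _ => ?_) trivial)
  obtain ⟨w, hw⟩ := c v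
  exact ⟨0, Submodule.zero_mem _, w, trivial, by rw [zero_add, hw]⟩

theorem Wt.loc_simple (hW : Wt p O) (hQ : Syl p Q) [Q.Normal] {M : Lat O X} (hM : M.Triv Q)
    (hi : M.Ir) {U : Submodule O M.V} (hU : M.St U) (hp : ∀ m, (p : O) • m ∈ U) :
    U = ⊤ ∨ ∀ u ∈ U, ∃ m, u = (p : O) • m := by
  have _ := hp
  obtain ⟨f, hf, h1, h2⟩ := rlloc_avg hW hQ hM hU (rlloc_st (p := p) M) fun a m ha hm => by
    by_cases c : IsUnit a
    · exact absurd ((U.smul_mem_iff_of_isUnit c).1 ha) hm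
    · obtain ⟨b, rfl⟩ := not_not.1 (mt (hW.unit_iff a).2 c)
      exact rlloc_mem.2 ⟨_, mul_smul _ _ _⟩
  rcases hW.fit_ir hi hf with hb | ⟨n, h, e⟩
  · refine Or.inl (eq_top_iff.2 fun v _ => ?_)
    obtain ⟨w, rfl⟩ := hb.2 v
    exact h1 w
  · refine Or.inr fun u hu => rlloc_mem.1 ?_
    have key : ∀ j : ℕ, ((f : Module.End O M.V) ^ j) u ∈ U ∧
        ((f : Module.End O M.V) ^ j) u - u ∈ rllocP p M := fun j => by
      induction j with
      | zero => exact ⟨hu, by simp⟩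
      | succ j ih =>
        rw [pow_succ', Module.End.mul_apply]
        exact ⟨h1 _, by simpa using Submodule.add_mem _ (h2 _ ih.1) ih.2⟩
    have k := (key n).2
    rw [e] at k
    simpa using Submodule.sub_mem _ (rlloc_mem.2 ⟨h u, rfl⟩) k

lemma rlloc_or (hW : Wt p O) (hQ : Syl p Q) [Q.Normal] {M M' : Lat O X} (hM' : M'.Triv Q)
    (hi' : M'.Ir) {f : M.V →ₗ[O] M'.V} (hf : M.Hom M' f) :
    Surjective f ∨ ∃ g : M.V →ₗ[O] M'.V, M.Hom M' g ∧ f = (p : O) • g := by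
  rcases hW.loc_simple hQ hM' hi' (U := LinearMap.range f ⊔ rllocP p M') (fun x v hv => by
    obtain ⟨a, ha, b, hb, rfl⟩ := Submodule.mem_sup.1 hv
    rw [map_add]
    exact Submodule.add_mem_sup (hf.range_st x a ha) (rlloc_st M' x b hb))
    (fun m => Submodule.mem_sup_right (rlloc_mem.2 ⟨m, rfl⟩)) with h | h
  · refine Or.inl fun v => hW.nak ⊤ (LinearMap.range f) (fun v _ => ?_) (Submodule.mem_top (x := v))
    obtain ⟨a, ha, b, hb, e⟩ := Submodule.mem_sup.1 (h ▸ Submodule.mem_top (x := v))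
    obtain ⟨m, rfl⟩ := rlloc_mem.1 hb
    exact ⟨a, ha, m, trivial, e.symm⟩
  · exact Or.inr (rlloc_div hW hf fun v => h _ (Submodule.mem_sup_left ⟨v, rfl⟩))

theorem Wt.loc_sca (hW : Wt p O) (hQ : Syl p Q) [Q.Normal] {M : Lat O X} (hM : M.Triv Q)
    (hi : M.Ir) : M.Sca := by
  have := hi.1
  intro f hf
  have key := hW.nak (rllocH M M) (Submodule.span O {1}) (fun f hf => ?_) hf
  · obtain ⟨c, hc⟩ := Submodule.mem_span_singleton.1 key
    exact ⟨c, hc.symm⟩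
  obtain ⟨c, hc⟩ := hW.alg f.charpoly f.charpoly_monic (by
    rw [f.charpoly_natDegree]; exact Module.finrank_pos)
  rw [LinearMap.eval_charpoly] at hc
  have hg : M.Hom M (algebraMap O (Module.End O M.V) c - f) := fun x v => by
    simp [Module.algebraMap_end_apply, hf x v]
  rcases rlloc_or hW hQ hM hi hg with h | ⟨g, hg, e⟩
  · refine absurd hc ((hW.unit_iff _).1 ((LinearMap.isUnit_iff_isUnit_det _).1 ?_))
    exact (Module.End.isUnit_iff _).2 ⟨OrzechProperty.injective_of_surjective_endomorphism _ h, h⟩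
  · refine ⟨c • 1, Submodule.smul_mem _ _ (Submodule.mem_span_singleton_self _), -g,
      Submodule.neg_mem _ hg, ?_⟩
    rw [smul_neg, ← e, Algebra.algebraMap_eq_smul_one]
    abel

theorem Wt.loc_rk (hW : Wt p O) (hQ : Syl p Q) [Q.Normal] {M : Lat O X} (hM : M.Triv Q)
    (hi : M.Ir) : ¬ p ∣ M.rk := by
  rintro ⟨k, hk⟩
  let N : Lat O (X ⧸ Q) := { V := M.V, ρ := QuotientGroup.lift Q M.ρ hM }
  have hs : N.Sca := fun f hf => hW.loc_sca hQ hM hi f fun x v => hf (x : X ⧸ Q) v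
  have h1 := hs.fi 1
  obtain ⟨u, hu⟩ := (hW.unit hQ.ind).exists_left_inv
  obtain ⟨m, hm⟩ := hW.loc_ne hi.1
  obtain ⟨S, hS⟩ : ∃ S : Module.End O M.V, (M.rk : O) • S = (Q.index : O) • 1 := ⟨_, h1⟩
  refine hm ⟨u • (k : O) • S m, ?_⟩
  have := LinearMap.congr_fun hS m
  rw [LinearMap.smul_apply, LinearMap.smul_apply, Module.End.one_apply, hk, Nat.cast_mul,
    mul_smul] at this
  rw [smul_comm, this, smul_smul, hu, one_smul]

theorem Wt.loc_iso (hW : Wt p O) (hQ : Syl p Q) [Q.Normal] {M M' : Lat O X} (hM : M.Triv Q)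
    (hi : M.Ir) (hM' : M'.Triv Q) (hi' : M'.Ir) (h : ∀ x, M.ch x = M'.ch x) :
    ∃ f : M.V →ₗ[O] M'.V, M.Hom M' f ∧ Bijective f := by
  obtain ⟨f, hf, h0⟩ := hom_of_pair (V := M) (W := M') (by
    simp only [← h, mul_comm (M.ch _⁻¹)]
    rw [(hW.loc_sca hQ hM hi).norm hi.1]
    exact Nat.cast_ne_zero.2 Nat.card_pos.ne')
  by_contra c
  refine h0 (hW.nak (rllocH M M') ⊥ (fun g hg => ?_) hf)
  rcases rlloc_or hW hQ hM' hi' hg with k | ⟨g', hg', e⟩
  · refine absurd ⟨g, hg, hi.inj hg fun e => ?_, k⟩ c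
    have := hi'.1
    obtain ⟨m, hm⟩ := exists_ne (0 : M'.V)
    obtain ⟨v, rfl⟩ := k m
    exact hm (by rw [e]; rfl)
  · exact ⟨0, Submodule.zero_mem _, g', hg', by rw [zero_add, e]⟩

end Pool.Agent.Lib.MP_1ae3da_al.CT.R5
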