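import Pool.Agent.Lib.MP_1ae3da_al.C.Defs

/-! Inner automorphisms of the ambient algebra and induced automorphisms of the group. -/

namespace Pool.Agent.Lib.MP_1ae3da_al.CT

open Submodule

variable {F A G : Type} [Field F] [Ring A] [Algebra F A] [Group G] {u : G → A}

theorem tad_one_mul (hu : TG F u) (x : G) : u 1 * u x = u x := by
  obtain ⟨c, hc, e⟩ := hu.mul 1 x
  rw [one_mul] at e
  have h : c • c • u x = c • u x := by rw [← e, ← mul_smul_comm, ← e, ← mul_assoc, hu.one]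
  rw [e, smul_right_injective A hc h]

theorem tad_mul_one (hu : TG F u) (x : G) : u x * u 1 = u x := by
  obtain ⟨c, hc, e⟩ := hu.mul x 1
  rw [mul_one] at e
  have h : c • c • u x = c • u x := by rw [← e, ← smul_mul_assoc, ← e, mul_assoc, hu.one]
  rw [e, smul_right_injective A hc h]

theorem tad_inj (hu : TG F u) {x y : G} {c d : F} (hc : c ≠ 0) (h : c • u x = d • u y) : x = y := by
  by_contra n
  classical
  exact hc (linearIndependent_iff'.1 hu.ind {x, y} (fun z => if z = x then c else -d)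
    (by rw [Finset.sum_pair n]; simp [Ne.symm n, h]) x (by simp) |>.symm.trans (by simp)).symm

theorem tad_mem {H : Subgroup G} {x : G} (hx : x ∈ H) : u x ∈ Hm F u H :=
  ⟨1, one_ne_zero, x, hx, (one_smul _ _).symm⟩

theorem tad_span (hu : TG F u) {H : Subgroup G} {b : A} (hb : b ∈ span F (Hm F u H)) :
    u 1 * b = b ∧ b * u 1 = b := by
  induction hb using span_induction with
  | mem x h =>
    obtain ⟨c, -, x, -, rfl⟩ := h
    rw [mul_smul_comm, smul_mul_assoc, tad_one_mul hu, tad_mul_one hu]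
    exact ⟨rfl, rfl⟩
  | zero => simp
  | add x y _ _ a b => rw [mul_add, add_mul, a.1, a.2, b.1, b.2]; exact ⟨rfl, rfl⟩
  | smul c x _ a => rw [mul_smul_comm, smul_mul_assoc, a.1, a.2]; exact ⟨rfl, rfl⟩

theorem tad_inv (hu : TG F u) (x : G) :
    ∃ c : F, c ≠ 0 ∧ u x * (c • u x⁻¹) = u 1 ∧ (c • u x⁻¹) * u x = u 1 := by
  obtain ⟨c, hc, e⟩ := hu.mul x x⁻¹
  obtain ⟨d, hd, e'⟩ := hu.mul x⁻¹ x
  rw [mul_inv_cancel] at e
  rw [inv_mul_cancel] at e'
  have h : c • u x = d • u x := by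
    rw [← tad_one_mul hu x, ← smul_mul_assoc, ← e, mul_assoc, e', mul_smul_comm, tad_mul_one hu,
      tad_one_mul hu]
  obtain rfl := smul_left_injective F (hu.ind.ne_zero x) h
  exact ⟨c⁻¹, inv_ne_zero hc, by rw [mul_smul_comm, e, inv_smul_smul₀ hc],
    by rw [smul_mul_assoc, e', inv_smul_smul₀ hc]⟩

variable (F u) in
/-- `γ` permutes the lines of the basis as `φ` does. -/
def Ind (γ : RingAut A) (φ : MulAut G) : Prop := ∀ x, ∃ c : F, c ≠ 0 ∧ γ (u x) = c • u (φ x)

theorem tad_sl_inv {σ : RingAut F} {γ : RingAut A} (h : SL F σ γ) : SL F σ⁻¹ γ⁻¹ := fun c x => by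
  change γ.symm (c • x) = σ.symm c • γ.symm x
  apply γ.injective
  rw [h]
  simp

theorem Ind.inv {σ : RingAut F} {γ : RingAut A} {φ : MulAut G} (h : Ind F u γ φ)
    (hs : SL F σ γ) : Ind F u γ⁻¹ φ⁻¹ := fun x => by
  obtain ⟨c, hc, e⟩ := h (φ⁻¹ x)
  refine ⟨σ⁻¹ c⁻¹, by simpa using hc, ?_⟩
  change γ.symm _ = σ.symm _ • _
  rw [RingEquiv.symm_apply_eq, hs, e, smul_smul]
  simp [hc]

theorem Ind.mem {σ : RingAut F} {γ : RingAut A} {φ : MulAut G} (h : Ind F u γ φ) (hs : SL F σ γ)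
    {H K : Subgroup G} (hH : ∀ x ∈ H, φ x ∈ K) {a : A} (ha : a ∈ Hm F u H) : γ a ∈ Hm F u K := by
  obtain ⟨c, hc, x, hx, rfl⟩ := ha
  obtain ⟨d, hd, e⟩ := h x
  exact ⟨σ c * d, mul_ne_zero (by simpa using hc) hd, φ x, hH x hx, by rw [hs, e, smul_smul]⟩

theorem Ind.stb {σ : RingAut F} {γ : RingAut A} {φ : MulAut G} (h : Ind F u γ φ) (hs : SL F σ γ)
    {H : Subgroup G} (hH : ∀ x, φ x ∈ H ↔ x ∈ H) : γ ∈ Stb (Hm F u H) := fun a =>
  ⟨fun ha => by
    simpa using (h.inv hs).mem (tad_sl_inv hs) (K := H)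
      (fun x hx => (hH _).1 (by simpa using hx)) ha,
    h.mem hs fun x hx => (hH x).2 hx⟩

theorem Ind.of_stb (hu : TG F u) {γ : RingAut A} {φ : MulAut G} (h : Ind F u γ φ)
    {H : Subgroup G} (hH : γ ∈ Stb (Hm F u H)) (x : G) : φ x ∈ H ↔ x ∈ H := by
  obtain ⟨c, hc, e⟩ := h x
  have key : ∀ y (d : F), d ≠ 0 → (d • u y ∈ Hm F u H ↔ y ∈ H) := fun y d hd =>
    ⟨fun ⟨_, _, _, hz, e⟩ => tad_inj hu hd e ▸ hz, fun hy => ⟨d, hd, y, hy, rfl⟩⟩
  rw [← key _ c hc, ← e, hH, ← key x 1 one_ne_zero, one_smul]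

theorem exists_ind (hu : TG F u) {σ : RingAut F} {γ : RingAut A} (hs : SL F σ γ)
    (h : γ ∈ Stb (Hm F u ⊤)) : ∃ φ : MulAut G, Ind F u γ φ := by
  choose c hc f _ hf using fun x => (h (u x)).2 (tad_mem (Subgroup.mem_top x))
  choose d hd g _ hg using fun x => (((Stb _).inv_mem h) (u x)).2 (tad_mem (Subgroup.mem_top x))
  refine ⟨⟨⟨f, g, fun x => ?_, fun x => ?_⟩, fun x y => ?_⟩, fun x => ⟨c x, hc x, hf x⟩⟩
  · refine (tad_inj hu one_ne_zero (d := σ⁻¹ (c x) * d (f x)) ?_).symm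
    rw [← smul_smul, ← hg, ← tad_sl_inv hs, ← hf, one_smul]
    exact (γ.symm_apply_apply _).symm
  · refine (tad_inj hu one_ne_zero (d := σ (d x) * c (g x)) ?_).symm
    rw [← smul_smul, ← hf, ← hs, ← hg, one_smul]
    exact (γ.apply_symm_apply _).symm
  · obtain ⟨a, ha, e⟩ := hu.mul x y
    obtain ⟨b, hb, e'⟩ := hu.mul (f x) (f y)
    refine tad_inj hu (c := σ a * c (x * y)) (d := c x * c y * b)
      (mul_ne_zero (by simpa using ha) (hc _)) ?_
    change _ • u (f (x * y)) = _ • u (f x * f y)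
    rw [← smul_smul, ← hf, ← hs, ← e, map_mul, hf, hf, smul_mul_smul_comm, e', smul_smul]

theorem Lin.sl {γ : RingAut A} (h : Lin F γ) : SL F 1 γ := h

theorem Lin.sg {γ : RingAut A} (h : Lin F γ) (GG : Subgroup (RingAut F)) : γ ∈ SG GG A :=
  ⟨1, one_mem _, h⟩

theorem tad_ind (hu : TG F u) {x : G} {a : RingAut A}
    (h : ∀ y, a (u y) * u 1 = a (u y) ∧ u x * u y = a (u y) * u x) :
    Ind F u a (MulAut.conj x) := fun y => by
  obtain ⟨c, hc, e, -⟩ := tad_inv hu x
  obtain ⟨d, hd, e1⟩ := hu.mul x y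
  obtain ⟨d', hd', e2⟩ := hu.mul (x * y) x⁻¹
  refine ⟨d * c * d', mul_ne_zero (mul_ne_zero hd hc) hd', ?_⟩
  rw [← (h y).1, ← e, ← mul_assoc, ← (h y).2, e1, smul_mul_smul_comm, e2, smul_smul,
    MulAut.conj_apply]

theorem IsAd.ind (hu : TG F u) {x : G} {a : RingAut A} (h : IsAd F u x a) :
    Ind F u a (MulAut.conj x) := tad_ind hu fun y =>
  ⟨(tad_span hu (subset_span ((h.2.1 _).2 (tad_mem (Subgroup.mem_top y))))).2,
    h.2.2 _ (subset_span (tad_mem (Subgroup.mem_top y)))⟩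

theorem exists_ad (hu : TG F u) (x : G) : ∃ a, IsAd F u x a := by
  obtain ⟨c, hc, e, e'⟩ := tad_inv hu x
  have h1 := tad_one_mul hu
  have h2 := tad_mul_one hu
  have t1 : (u x + (1 - u 1)) * (c • u x⁻¹ + (1 - u 1)) = 1 := by
    rw [add_mul, mul_add, mul_add, e]
    simp [mul_sub, sub_mul, h1, h2]
  have t2 : (c • u x⁻¹ + (1 - u 1)) * (u x + (1 - u 1)) = 1 := by
    rw [add_mul, mul_add, mul_add, e']
    simp [mul_sub, sub_mul, h1, h2]
  have t3 : (c • u x⁻¹ + (1 - u 1)) * u x = u 1 := by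
    rw [add_mul, e']
    simp [sub_mul, h1]
  have t4 : (c • u x⁻¹ + (1 - u 1)) * u 1 = u 1 * (c • u x⁻¹ + (1 - u 1)) := by
    simp [add_mul, mul_add, mul_sub, sub_mul, h1, h2]
  have t5 : ∀ b, u 1 * b = b → (u x + (1 - u 1)) * b = u x * b := fun b hb => by
    simp [add_mul, sub_mul, hb]
  generalize c • u x⁻¹ + (1 - u 1) = s at *
  generalize u x + (1 - u 1) = t at *
  let a : RingAut A :=
    { toFun := fun b => t * b * s
      invFun := fun b => s * b * t
      left_inv := fun b => by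
        change s * (t * b * s) * t = b
        rw [← mul_assoc, ← mul_assoc, t2, one_mul, mul_assoc, t2, mul_one]
      right_inv := fun b => by
        change t * (s * b * t) * s = b
        rw [← mul_assoc, ← mul_assoc, t1, one_mul, mul_assoc, t1, mul_one]
      map_mul' := fun b b' => by
        rw [mul_assoc (t * b), ← mul_assoc s, ← mul_assoc s, t2, one_mul]
        simp only [mul_assoc]
      map_add' := fun b b' => by rw [mul_add, add_mul] }
  have l : Lin F a := fun c b => by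
    change t * (c • b) * s = c • (t * b * s)
    rw [mul_smul_comm, smul_mul_assoc]
  have k : ∀ b ∈ span F (Hm F u ⊤), u x * b = a b * u x := fun b hb => by
    change _ = t * b * s * u x
    rw [mul_assoc, t3, mul_assoc, (tad_span hu hb).2, t5 b (tad_span hu hb).1]
  refine ⟨a, l, (tad_ind hu (x := x) fun y => ⟨?_, k _ (subset_span (tad_mem trivial))⟩).stb l.sl
    fun _ => Iff.rfl, k⟩
  change t * u y * s * u 1 = t * u y * s
  rw [mul_assoc, t4, ← mul_assoc, mul_assoc t, h2]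

theorem IsAd.stb (hu : TG F u) {x : G} {a : RingAut A} (h : IsAd F u x a) {H : Subgroup G}
    (hx : x ∈ Subgroup.normalizer (H : Set G)) : a ∈ Stb (Hm F u H) :=
  (h.ind hu).stb h.1.sl fun y => (Subgroup.mem_normalizer_iff.1 hx y).symm

theorem tad_map_span {σ : RingAut F} {γ : RingAut A} (hs : SL F σ γ) {S T : Set A}
    (h : ∀ a ∈ S, γ a ∈ T) {b : A} (hb : b ∈ span F S) : γ b ∈ span F T := by
  induction hb using span_induction with
  | mem x hx => exact subset_span (h x hx)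
  | zero => simp
  | add x y _ _ a b => rw [map_add]; exact add_mem a b
  | smul c x _ a => rw [hs]; exact smul_mem _ _ a

/-- `a` fixes exactly the elements that commute with `u x`. -/
theorem IsAd.fix (hu : TG F u) {x : G} {a : RingAut A} (h : IsAd F u x a) {b : A}
    (hb : b ∈ span F (Hm F u ⊤)) : a b = b ↔ u x * b = b * u x := by
  rw [h.2.2 b hb]
  refine ⟨fun e => by rw [e], fun e => ?_⟩
  obtain ⟨c, -, e1, -⟩ := tad_inv hu x
  rw [← (tad_span hu (tad_map_span h.1.sl (fun a ha => (h.2.1 a).2 ha) hb)).2, ← e1, ← mul_assoc,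
    e, mul_assoc, e1, (tad_span hu hb).2]

theorem mem_St (hu : TG F u) {e : A} (he : e ∈ span F (Hm F u ⊤)) {x : G} :
    x ∈ St u e ↔ u x * e = e * u x := by
  refine ⟨fun h => ?_, fun h => Subgroup.subset_closure h⟩
  induction h using Subgroup.closure_induction with
  | mem x h => exact h
  | one => rw [(tad_span hu he).1, (tad_span hu he).2]
  | mul x y _ _ a b =>
    obtain ⟨c, hc, e⟩ := hu.mul x y
    refine smul_right_injective A hc ?_
    change c • (_ * _) = c • (_ * _)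
    rw [← smul_mul_assoc, ← mul_smul_comm, ← e, mul_assoc, b, ← mul_assoc, a, mul_assoc]
  | inv x _ a =>
    obtain ⟨c, hc, e1, e2⟩ := tad_inv hu x
    refine smul_right_injective A hc ?_
    change c • (_ * _) = c • (_ * _)
    rw [← smul_mul_assoc, ← mul_smul_comm]
    calc _ = c • u x⁻¹ * (e * u x * c • u x⁻¹) := by rw [mul_assoc e, e1, (tad_span hu he).2]
      _ = _ := by rw [← a, ← mul_assoc, ← mul_assoc, e2, (tad_span hu he).1]

end Pool.Agent.Lib.MP_1ae3da_al.CT
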