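import Pool.Agent.Lib.MP_1ae3da_al.C.Defs

/-! Clifford theory, part A: inverses, conjugation, cosets. -/

namespace Pool.Agent.Lib.MP_1ae3da_al.CT

open Submodule

variable {F A G : Type} [Field F] [Ring A] [Algebra F A] [Group G] {u : G → A}

theorem tcl_ne (hu : TG F u) (x : G) : u x ≠ 0 := hu.ind.ne_zero x

theorem tcl_idem {c : F} {a : A} (ha : a ≠ 0) (hc : c ≠ 0) (h : c • c • a = c • a) : c = 1 := by
  rw [smul_smul] at h
  exact mul_left_cancel₀ hc ((smul_left_injective F ha h).trans (mul_one c).symm)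

theorem tcl_one_u (hu : TG F u) (x : G) : u 1 * u x = u x := by
  obtain ⟨c, hc, h⟩ := hu.mul 1 x
  rw [one_mul] at h
  have : c = 1 := tcl_idem (tcl_ne hu x) hc (by
    rw [← h, ← mul_smul_comm, ← h, ← mul_assoc, hu.one])
  rw [h, this, one_smul]

theorem tcl_u_one (hu : TG F u) (x : G) : u x * u 1 = u x := by
  obtain ⟨c, hc, h⟩ := hu.mul x 1
  rw [mul_one] at h
  have : c = 1 := tcl_idem (tcl_ne hu x) hc (by
    rw [← h, ← smul_mul_assoc, ← h, mul_assoc, hu.one])
  rw [h, this, one_smul]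

theorem tcl_hm {H : Subgroup G} {x : G} (h : x ∈ H) : u x ∈ Hm F u H :=
  ⟨1, one_ne_zero, x, h, (one_smul _ _).symm⟩

theorem tcl_mem {H : Subgroup G} {x : G} (h : x ∈ H) : u x ∈ span F (Hm F u H) :=
  subset_span (tcl_hm h)

theorem tcl_mono {H K : Subgroup G} (h : H ≤ K) : span F (Hm F u H) ≤ span F (Hm F u K) :=
  span_mono fun _ ⟨c, hc, x, hx, e⟩ => ⟨c, hc, x, h hx, e⟩

/-- a submodule that contains the `u x` contains the span -/
theorem tcl_le {H : Subgroup G} {N : Submodule F A} (h : ∀ x ∈ H, u x ∈ N) :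
    span F (Hm F u H) ≤ N :=
  span_le.2 fun _ ⟨c, _, x, hx, e⟩ => e ▸ N.smul_mem c (h x hx)

/-- linear maps that agree on the `u x` agree on the span -/
theorem tcl_eq {M : Type} [AddCommGroup M] [Module F M] {H : Subgroup G} (f g : A →ₗ[F] M)
    (h : ∀ x ∈ H, f (u x) = g (u x)) {b : A} (hb : b ∈ span F (Hm F u H)) : f b = g b :=
  tcl_le (N := LinearMap.eqLocus f g) h hb

theorem tcl_comm {S : Set A} {z b : A} (h : ∀ s ∈ S, z * s = s * z) (hb : b ∈ span F S) :
    z * b = b * z :=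
  (span_le.2 (show S ⊆ LinearMap.eqLocus (LinearMap.mulLeft F z) (LinearMap.mulRight F z) from
    h)) hb

theorem tcl_commH {H : Subgroup G} {z : A} (h : ∀ x ∈ H, z * u x = u x * z) :
    ∀ s ∈ Hm F u H, z * s = s * z := by
  rintro _ ⟨c, -, x, hx, rfl⟩
  rw [mul_smul_comm, smul_mul_assoc, h x hx]

theorem tcl_mul (hu : TG F u) {H : Subgroup G} {a b : A} (ha : a ∈ span F (Hm F u H))
    (hb : b ∈ span F (Hm F u H)) : a * b ∈ span F (Hm F u H) :=
  tcl_le (N := (span F (Hm F u H)).comap (LinearMap.mulRight F b)) (fun x hx =>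
    tcl_le (N := (span F (Hm F u H)).comap (LinearMap.mulLeft F (u x))) (fun y hy => by
      obtain ⟨c, -, h⟩ := hu.mul x y
      change u x * u y ∈ span F (Hm F u H)
      rw [h]
      exact smul_mem _ _ (tcl_mem (H.mul_mem hx hy))) hb) ha

theorem tcl_one_mul (hu : TG F u) {H : Subgroup G} {a : A} (ha : a ∈ span F (Hm F u H)) :
    u 1 * a = a :=
  tcl_eq (LinearMap.mulLeft F (u 1)) LinearMap.id (fun x _ => tcl_one_u hu x) ha

theorem tcl_mul_one (hu : TG F u) {H : Subgroup G} {a : A} (ha : a ∈ span F (Hm F u H)) :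
    a * u 1 = a :=
  tcl_eq (LinearMap.mulRight F (u 1)) LinearMap.id (fun x _ => tcl_u_one hu x) ha

/-- inverses of the basis elements -/
theorem tcl_inv (hu : TG F u) : ∃ y : G → A, ∀ x, (∃ c : F, c ≠ 0 ∧ y x = c • u x⁻¹) ∧
    u x * y x = u 1 ∧ y x * u x = u 1 := by
  have (x : G) : ∃ y : A, (∃ c : F, c ≠ 0 ∧ y = c • u x⁻¹) ∧ u x * y = u 1 ∧ y * u x = u 1 := by
    obtain ⟨c, hc, h⟩ := hu.mul x x⁻¹
    obtain ⟨d, -, k⟩ := hu.mul x⁻¹ x
    rw [mul_inv_cancel] at h
    rw [inv_mul_cancel] at k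
    have : d = c := smul_left_injective F (tcl_ne hu x) (by
      have := mul_assoc (u x) (u x⁻¹) (u x)
      rwa [h, k, smul_mul_assoc, mul_smul_comm, tcl_one_u hu, tcl_u_one hu, eq_comm] at this)
    refine ⟨c⁻¹ • u x⁻¹, ⟨_, inv_ne_zero hc, rfl⟩, ?_, ?_⟩
    · rw [mul_smul_comm, h, inv_smul_smul₀ hc]
    · rw [smul_mul_assoc, k, this, inv_smul_smul₀ hc]
  choose y hy using this
  exact ⟨y, hy⟩

theorem tcl_st (hu : TG F u) {e : A} (he : e ∈ span F (Hm F u ⊤)) {x : G} :
    x ∈ St u e ↔ u x * e = e * u x := by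
  refine ⟨fun h => ?_, fun h => Subgroup.subset_closure h⟩
  obtain ⟨y, hy⟩ := tcl_inv hu
  induction h using Subgroup.closure_induction with
  | mem x h => exact h
  | one => rw [tcl_one_mul hu he, tcl_mul_one hu he]
  | mul x z _ _ a b =>
    obtain ⟨c, hc, h⟩ := hu.mul x z
    refine smul_right_injective A hc ?_
    change c • _ = c • _
    rw [← smul_mul_assoc, ← mul_smul_comm, ← h, mul_assoc, b, ← mul_assoc, a, mul_assoc]
  | inv x _ a =>
    obtain ⟨⟨c, hc, h⟩, h1, h2⟩ := hy x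
    refine smul_right_injective A hc ?_
    change c • _ = c • _
    rw [← smul_mul_assoc, ← mul_smul_comm, ← h]
    calc y x * e = y x * (e * u x) * y x := by
          rw [mul_assoc, mul_assoc, h1, tcl_mul_one hu he]
      _ = e * y x := by rw [← a, ← mul_assoc, h2, tcl_one_mul hu he]

/-- conjugation keeps the span of a normal subgroup -/
theorem tcl_conj (hu : TG F u) {L : Subgroup G} [L.Normal] (x : G) {b : A}
    (hb : b ∈ span F (Hm F u L)) : u x * b * u x⁻¹ ∈ span F (Hm F u L) :=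
  tcl_le (N := (span F (Hm F u L)).comap
    (LinearMap.mulRight F (u x⁻¹) ∘ₗ LinearMap.mulLeft F (u x))) (fun l hl => by
      obtain ⟨c, -, h⟩ := hu.mul x l
      obtain ⟨d, -, k⟩ := hu.mul (x * l) x⁻¹
      change u x * u l * u x⁻¹ ∈ span F (Hm F u L)
      rw [h, smul_mul_assoc, k]
      exact smul_mem _ _ (smul_mem _ _ (tcl_mem (Subgroup.Normal.conj_mem ‹_› l hl x)))) hb

theorem tcl_cen (hu : TG F u) {L : Subgroup G} [L.Normal] (x : G) {e : A}
    (he : e ∈ Cen F (Hm F u L)) : u x * e * u x⁻¹ ∈ Cen F (Hm F u L) := by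
  refine ⟨tcl_conj hu x he.1, tcl_commH fun l hl => ?_⟩
  obtain ⟨y, hy⟩ := tcl_inv hu
  obtain ⟨⟨c, -, h⟩, h1, -⟩ := hy x
  have k := tcl_comm he.2 (tcl_conj hu x⁻¹ (tcl_mem (F := F) (u := u) hl))
  rw [inv_inv] at k
  calc u x * e * u x⁻¹ * u l = u x * (e * (u x⁻¹ * u l * u x)) * y x := by
        simp only [mul_assoc]
        rw [h1, tcl_u_one hu]
    _ = (u x * y x) * u l * (u x * e * u x⁻¹) := by
        rw [k]
        simp only [h, mul_assoc, mul_smul_comm, smul_mul_assoc]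
    _ = _ := by rw [h1, tcl_one_u hu]

/-- a block that is not fixed by `x` is orthogonal to its conjugate -/
theorem tcl_orth (hu : TG F u) {L : Subgroup G} [L.Normal] {e : A} (he : e ∈ Irr F (Hm F u L))
    {x : G} (hx : x ∉ St u e) : e * u x * e = 0 := by
  by_contra n
  obtain ⟨y, hy⟩ := tcl_inv hu
  obtain ⟨⟨a, -, h⟩, h1, h2⟩ := hy x
  obtain ⟨c, hc⟩ := he.2.2.2 _ (tcl_cen hu x he.1)
  obtain ⟨d, hd⟩ := he.2.2.2 _ (tcl_cen hu x⁻¹ he.1)
  rw [inv_inv] at hd
  rw [← tcl_comm he.1.2 (tcl_conj hu x he.1.1)] at hc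
  have e1 : e * u x * e = (a * c) • (e * u x) := by
    calc e * u x * e = e * u x * e * (y x * u x) := by
          rw [h2, mul_assoc _ e, tcl_mul_one hu he.1.1]
      _ = a • (e * (u x * e * u x⁻¹)) * u x := by
          simp only [h, mul_assoc, mul_smul_comm, smul_mul_assoc]
      _ = _ := by rw [hc, smul_smul, smul_mul_assoc]
  have e2 : e * u x * e = (a * d) • (u x * e) := by
    calc e * u x * e = (u x * y x) * (e * u x * e) := by
          rw [h1, ← mul_assoc, ← mul_assoc, tcl_one_mul hu he.1.1]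
      _ = a • (u x * (u x⁻¹ * e * u x * e)) := by
          simp only [h, mul_assoc, mul_smul_comm, smul_mul_assoc]
      _ = _ := by rw [hd, mul_smul_comm, smul_smul]
  have k1 : a * c = 1 := by
    have := congrArg (· * e) e1
    simp only [smul_mul_assoc] at this
    rw [mul_assoc _ e e, he.2.1] at this
    exact (smul_left_injective F n ((one_smul _ _).trans this)).symm
  have k2 : a * d = 1 := by
    have := congrArg (e * ·) e2
    simp only [mul_smul_comm, ← mul_assoc] at this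
    rw [he.2.1] at this
    exact (smul_left_injective F n ((one_smul _ _).trans this)).symm
  rw [k1, one_smul] at e1
  rw [k2, one_smul] at e2
  exact hx (Subgroup.subset_closure (e2.symm.trans e1))

open Classical in
/-- the projection to a set of basis elements -/
theorem tcl_proj (hu : TG F u) (s : Set G) :
    ∃ π : A →ₗ[F] A, ∀ x, π (u x) = if x ∈ s then u x else 0 := by
  obtain ⟨π, h⟩ := LinearMap.exists_extend
    ((Module.Basis.span hu.ind).constr F fun x => if x ∈ s then u x else 0)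
  refine ⟨π, fun x => ?_⟩
  have := LinearMap.congr_fun h (Module.Basis.span hu.ind x)
  rwa [Module.Basis.constr_basis, LinearMap.comp_apply, subtype_apply,
    Module.Basis.span_apply] at this

/-- the projection to a union of cosets -/
theorem tcl_coset (hu : TG F u) (L : Subgroup G) (s : Set G)
    (hs : ∀ l ∈ L, ∀ x, l * x ∈ s ↔ x ∈ s) : ∃ π : A →ₗ[F] A, ∀ b ∈ span F (Hm F u L), ∀ x,
      (x ∈ s → π (b * u x) = b * u x) ∧ (x ∉ s → π (b * u x) = 0) := by
  obtain ⟨π, h⟩ := tcl_proj hu s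
  refine ⟨π, fun b hb x => ⟨fun m => ?_, fun m => ?_⟩⟩
  · refine tcl_eq (π ∘ₗ LinearMap.mulRight F (u x)) (LinearMap.mulRight F (u x))
      (fun l hl => ?_) hb
    obtain ⟨c, -, k⟩ := hu.mul l x
    change π (u l * u x) = u l * u x
    rw [k, map_smul, h, if_pos ((hs l hl x).2 m)]
  · refine tcl_eq (π ∘ₗ LinearMap.mulRight F (u x)) 0 (fun l hl => ?_) hb
    obtain ⟨c, -, k⟩ := hu.mul l x
    change π (u l * u x) = 0
    rw [k, map_smul, h, if_neg fun n => m ((hs l hl x).1 n), smul_zero]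

/-- conjugation by `u x` extends to the ambient algebra -/
theorem tcl_ad (hu : TG F u) (x : G) : ∃ a : RingAut A, Lin F a ∧
    (∀ b ∈ span F (Hm F u ⊤), u x * b = a b * u x) ∧
    ∀ L : Subgroup G, L.Normal → a ∈ Stb (Hm F u L) := by
  obtain ⟨y, hy⟩ := tcl_inv hu
  obtain ⟨⟨c, hc, h⟩, h1, h2⟩ := hy x
  have y1 : u 1 * y x = y x := by rw [h, mul_smul_comm, tcl_one_u hu]
  have y2 : y x * u 1 = y x := by rw [h, smul_mul_assoc, tcl_u_one hu]
  let U : Aˣ := ⟨u x + (1 - u 1), y x + (1 - u 1), by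
      simp only [mul_add, add_mul, mul_sub, sub_mul, mul_one, one_mul, h1, y1, tcl_u_one hu]
      abel, by
      simp only [mul_add, add_mul, mul_sub, sub_mul, mul_one, one_mul, h2, y2, tcl_one_u hu]
      abel⟩
  let a : RingAut A := MulSemiringAction.toRingEquiv (ConjAct Aˣ) A (ConjAct.toConjAct U)
  have k (b p q : A) (hb : b ∈ span F (Hm F u ⊤)) :
      (p + (1 - u 1)) * b * (q + (1 - u 1)) = p * b * q := by
    rw [add_mul p, sub_mul, one_mul, tcl_one_mul hu hb, sub_self, add_zero, mul_add, mul_sub,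
      mul_one, mul_assoc p b (u 1), tcl_mul_one hu hb, sub_self, add_zero]
  have ea (b) : a b = (u x + (1 - u 1)) * b * (y x + (1 - u 1)) := rfl
  have es (b) : a.symm b = (y x + (1 - u 1)) * b * (u x + (1 - u 1)) := rfl
  have t (L : Subgroup G) (n : L.Normal) (g : G) (d d' : F) (hd : d ≠ 0) (hd' : d' ≠ 0) (b)
      (hb : b ∈ Hm F u L) : (d • u g) * b * (d' • u g⁻¹) ∈ Hm F u L := by
    obtain ⟨c, hc, l, hl, rfl⟩ := hb
    obtain ⟨c1, p1, k1⟩ := hu.mul g l
    obtain ⟨c2, p2, k2⟩ := hu.mul (g * l) g⁻¹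
    refine ⟨d * c * d' * c1 * c2, by positivity, _, n.conj_mem l hl g, ?_⟩
    simp only [mul_smul_comm, smul_mul_assoc, k1, k2, smul_smul]
    congr 1
    ring
  refine ⟨a, fun c b => by rw [ea, ea, mul_smul_comm, smul_mul_assoc], fun b hb => ?_,
    fun L n b => ⟨fun hb => ?_, fun hb => ?_⟩⟩
  · rw [ea, k b _ _ hb, mul_assoc, h2, mul_assoc, tcl_mul_one hu hb]
  · rw [← a.symm_apply_apply b, es, k _ _ _ (tcl_mono le_top (subset_span hb)), h]
    simpa using t L n x⁻¹ c 1 hc one_ne_zero _ hb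
  · rw [ea, k _ _ _ (tcl_mono le_top (subset_span hb)), h]
    simpa using t L n x 1 c one_ne_zero hc _ hb

end Pool.Agent.Lib.MP_1ae3da_al.CT
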