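import Pool.Agent.Lib.MP_1ae3da_al.C.THm
import Pool.Agent.Lib.MP_1ae3da_al.C.TAd
import Pool.Agent.Lib.MP_1ae3da_al.C.TClA
import Pool.Agent.Lib.MP_1ae3da_al.C.TDg
import Pool.Agent.Lib.MP_1ae3da_al.C.TNd
import Pool.Agent.Lib.MP_1ae3da_al.C.TWed

/-! Basic facts on homogeneous elements. -/

namespace Pool.Agent.Lib.MP_1ae3da_al.CT

open Submodule

variable {F A G : Type} [Field F] [Ring A] [Algebra F A] [Group G] {u : G → A}
  {H K : Subgroup G} {a b : A}

theorem TG.eq_of_smul (hu : TG F u) {x y : G} {c d : F} (hc : c ≠ 0) (h : c • u x = d • u y) :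
    x = y ∧ c = d := hu.eq_of hc h

theorem ta_inv (hu : TG F u) (x : G) :
    ∃ c : F, c ≠ 0 ∧ u x * (c • u x⁻¹) = u 1 ∧ (c • u x⁻¹) * u x = u 1 := hu.inv x

theorem u_mem_Hm {x : G} (hx : x ∈ H) : u x ∈ Hm F u H :=
  ⟨1, one_ne_zero, x, hx, (one_smul _ _).symm⟩

theorem Hm_ne (hu : TG F u) (ha : a ∈ Hm F u H) : a ≠ 0 := hu.Hm_ne ha

theorem Hm_mul (hu : TG F u) (ha : a ∈ Hm F u H) (hb : b ∈ Hm F u H) : a * b ∈ Hm F u H :=
  hu.Hm_mul ha hb

theorem Hm_inv (hu : TG F u) (ha : a ∈ Hm F u H) :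
    ∃ b ∈ Hm F u H, a * b = u 1 ∧ b * a = u 1 := hu.Hm_inv ha

theorem Hm_inj (hu : TG F u) (h : Hm F u H = Hm F u K) : H = K := hu.Hm_inj h

theorem Hm_congr {v : G → A} (h : ∀ x, ∃ c : F, c ≠ 0 ∧ v x = c • u x) :
    Hm F v H = Hm F u H := by
  ext a
  constructor
  · rintro ⟨c, hc, x, hx, rfl⟩
    obtain ⟨d, hd, e⟩ := h x
    rw [e]
    exact Hm_smul hc (Hm_smul hd (u_mem_Hm hx))
  · rintro ⟨c, hc, x, hx, rfl⟩
    obtain ⟨d, hd, e⟩ := h x
    rw [← inv_smul_smul₀ hd (u x), ← e]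
    exact Hm_smul hc (Hm_smul (inv_ne_zero hd) (u_mem_Hm hx))

theorem ta_ext {V : Type} [AddCommGroup V] [Module F V] {f g : A →ₗ[F] V}
    (h : ∀ x ∈ H, f (u x) = g (u x)) (ha : a ∈ span F (Hm F u H)) : f a = g a := by
  rw [span_Hm] at ha
  refine LinearMap.eqOn_span' ?_ ha
  rintro _ ⟨x, hx, rfl⟩
  exact h x hx

theorem span_mul (hu : TG F u) (ha : a ∈ span F (Hm F u H)) (hb : b ∈ span F (Hm F u H)) :
    a * b ∈ span F (Hm F u H) := hu.span_mul ha hb

theorem one_span (hu : TG F u) (ha : a ∈ span F (Hm F u H)) : u 1 * a = a ∧ a * u 1 = a :=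
  ⟨ta_ext (f := LinearMap.mulLeft F (u 1)) (g := LinearMap.id) (fun x _ => hu.one_mul x) ha,
    ta_ext (f := LinearMap.mulRight F (u 1)) (g := LinearMap.id) (fun x _ => hu.mul_one x) ha⟩

theorem ta_co [DecidableEq G] (hu : TG F u) (y : G) :
    ∃ t : A →ₗ[F] F, ∀ x, t (u x) = if x = y then 1 else 0 := by
  obtain ⟨g, hg⟩ := LinearMap.exists_extend ((Finsupp.lapply y).comp hu.ind.repr)
  refine ⟨g, fun x => ?_⟩
  have := LinearMap.congr_fun hg ⟨u x, subset_span ⟨x, rfl⟩⟩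
  simp only [LinearMap.comp_apply, subtype_apply, Finsupp.lapply_apply] at this
  rw [this, hu.ind.repr_eq_single x _ rfl, Finsupp.single_apply]

theorem mem_span_Hm (hu : TG F u) {x : G} : u x ∈ span F (Hm F u H) ↔ x ∈ H := by
  classical
  refine ⟨fun h => ?_, fun h => subset_span (u_mem_Hm h)⟩
  by_contra hx
  obtain ⟨t, ht⟩ := ta_co hu x
  have := ta_ext (f := t) (g := 0) (fun y hy => by
    rw [ht, if_neg (fun e : y = x => hx (e ▸ hy)), LinearMap.zero_apply]) h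
  rw [ht, if_pos rfl] at this
  exact one_ne_zero this

theorem Hm_subtype : Hm F (fun x : H => u x) ⊤ = Hm F u H := Hm_sub_top H

theorem nice_Hm [Finite G] (hu : TG F u) (h : (Nat.card H : F) ≠ 0) : Nice F (Hm F u H) :=
  hu.nice H h

theorem nice_Hm0 [Finite G] [CharZero F] (hu : TG F u) (H : Subgroup G) : Nice F (Hm F u H) :=
  nice_Hm hu (Nat.cast_ne_zero.2 Nat.card_pos.ne')

theorem finrank_span [Finite G] (hu : TG F u) (H : Subgroup G) :
    Module.finrank F (span F (Hm F u H)) = Nat.card H := hu.finrank H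

theorem exists_coord [Fintype G] (ha : a ∈ span F (Hm F u H)) :
    ∃ c : G → F, (∀ x, x ∉ H → c x = 0) ∧ a = ∑ x, c x • u x := by
  classical
  rw [span_Hm] at ha
  induction ha using span_induction with
  | mem x h =>
    obtain ⟨y, hy, rfl⟩ := h
    exact ⟨Pi.single y 1, fun x hx => Pi.single_eq_of_ne (fun e : x = y => hx (e ▸ hy)) _,
      by simp [Pi.single_apply]⟩
  | zero => exact ⟨0, fun _ _ => rfl, by simp⟩
  | add x y _ _ h1 h2 =>
    obtain ⟨c, hc, rfl⟩ := h1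
    obtain ⟨d, hd, rfl⟩ := h2
    exact ⟨c + d, fun x hx => by simp [hc x hx, hd x hx],
      by simp [add_smul, Finset.sum_add_distrib]⟩
  | smul k x _ h1 =>
    obtain ⟨c, hc, rfl⟩ := h1
    exact ⟨k • c, fun x hx => by simp [hc x hx], by simp [Finset.smul_sum, smul_smul]⟩

theorem exists_Tf (hu : TG F u) : ∃ t : A →ₗ[F] F, Tf F u t := by
  classical
  obtain ⟨t, ht⟩ := ta_co hu 1
  exact ⟨t, by rw [ht, if_pos rfl], fun x hx => by rw [ht, if_neg hx]⟩

theorem Tf.comm (hu : TG F u) {t : A →ₗ[F] F} (ht : Tf F u t) (ha : a ∈ span F (Hm F u ⊤))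
    (hb : b ∈ span F (Hm F u ⊤)) : t (a * b) = t (b * a) := by
  refine ta_ext (f := t ∘ₗ LinearMap.mulRight F b) (g := t ∘ₗ LinearMap.mulLeft F b)
    (fun x _ => ?_) ha
  refine ta_ext (f := t ∘ₗ LinearMap.mulLeft F (u x)) (g := t ∘ₗ LinearMap.mulRight F (u x))
    (fun y _ => ?_) hb
  change t (u x * u y) = t (u y * u x)
  by_cases h : y = x⁻¹
  · obtain ⟨c, hc, h1, h2⟩ := ta_inv hu x
    rw [mul_smul_comm, ← h2, smul_mul_assoc] at h1
    rw [h, smul_right_injective A hc h1]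
  · obtain ⟨c, -, h1⟩ := hu.mul x y
    obtain ⟨d, -, h2⟩ := hu.mul y x
    rw [h1, h2, map_smul, map_smul, ht.2 _ fun e => h (eq_inv_of_mul_eq_one_right e),
      ht.2 _ fun e => h (eq_inv_of_mul_eq_one_left e), smul_zero, smul_zero]

theorem Tf.nondeg (hu : TG F u) {t : A →ₗ[F] F} (ht : Tf F u t) (ha : a ∈ span F (Hm F u H))
    (h : ∀ x ∈ H, t (a * u x) = 0) : a = 0 := by
  rw [span_Hm, Finsupp.mem_span_image_iff_linearCombination] at ha
  obtain ⟨l, hl, rfl⟩ := ha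
  have h0 : l = 0 := by
    ext y
    by_contra hy
    have hy' : y ∈ l.support := Finsupp.mem_support_iff.2 hy
    have h1 := h y⁻¹ (H.inv_mem (hl hy'))
    obtain ⟨d, d0, hd⟩ := hu.mul y y⁻¹
    rw [Finsupp.linearCombination_apply, Finsupp.sum, Finset.sum_mul, map_sum,
      Finset.sum_eq_single y (fun z _ k => by
        obtain ⟨d, -, hd⟩ := hu.mul z y⁻¹
        rw [smul_mul_assoc, hd, map_smul, map_smul, ht.2 _ fun e => k (mul_inv_eq_one.1 e),
          smul_zero, smul_zero]) (fun k => (k hy').elim), smul_mul_assoc, hd, mul_inv_cancel,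
      map_smul, map_smul, ht.1] at h1
    exact hy ((mul_eq_zero.1 h1).resolve_right (by simpa using d0))
  rw [h0, map_zero]

/-- induction principle for identities that are linear in one argument. -/
theorem span_ind {S : Set A} {f g : A → A} (hf : ∃ l : A →ₗ[F] A, ∀ x, l x = f x)
    (hg : ∃ l : A →ₗ[F] A, ∀ x, l x = g x) (h : ∀ x ∈ S, f x = g x) (ha : a ∈ span F S) :
    f a = g a := by
  obtain ⟨l, hl⟩ := hf
  obtain ⟨m, hm⟩ := hg
  rw [← hl, ← hm]
  exact LinearMap.eqOn_span' (fun x hx => by rw [hl, hm, h x hx]) ha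

theorem Cen_comm {S : Set A} {z : A} (hz : z ∈ Cen F S) (ha : a ∈ span F S) : z * a = a * z :=
  LinearMap.eqOn_span' (f := LinearMap.mulLeft F z) (g := LinearMap.mulRight F z) hz.2 ha

/-- a central idempotent either kills or fixes a primitive one. -/
theorem Irr_idem {S : Set A} {e z : A} (he : e ∈ Irr F S) (hz : z ∈ Cen F S) (h : z * z = z) :
    z * e = 0 ∨ z * e = e := by
  obtain ⟨c, hc⟩ := he.2.2.2 z hz
  have h1 : (c * c) • e = c • e := by
    rw [← smul_smul, ← hc, ← mul_smul_comm, ← hc, ← mul_assoc, h]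
  have h2 := smul_left_injective F he.2.2.1 h1
  rcases eq_or_ne c 0 with h0 | h0
  · exact .inl (by rw [hc, h0, zero_smul])
  · exact .inr (by rw [hc, mul_right_cancel₀ h0 (h2.trans (one_mul c).symm), one_smul])

theorem Irr_orth {S : Set A} {e e' : A} (he : e ∈ Irr F S) (he' : e' ∈ Irr F S) (h : e ≠ e') :
    e * e' = 0 := by
  refine (Irr_idem he' he.1 he.2.1).resolve_right fun h1 => ?_
  have h2 := Cen_comm he.1 he'.1.1
  rcases Irr_idem he he'.1 he'.2.1 with h3 | h3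
  · exact he'.2.2.1 (h1.symm.trans (h2.trans h3))
  · exact h (h3.symm.trans (h2.symm.trans h1))

theorem Nice.mul {S : Set A} (hS : Nice F S) (ha : a ∈ S) (hb : b ∈ S) : a * b ∈ S := by
  obtain ⟨G, _, _, u, hu, -, rfl⟩ := hS
  exact Hm_mul hu ha hb

theorem Nice.smul {S : Set A} (hS : Nice F S) (ha : a ∈ S) {c : F} (hc : c ≠ 0) : c • a ∈ S := by
  obtain ⟨G, _, _, u, hu, -, rfl⟩ := hS
  exact Hm_smul hc ha

theorem Nice.span_mul {S : Set A} (hS : Nice F S) (ha : a ∈ span F S) (hb : b ∈ span F S) :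
    a * b ∈ span F S := by
  obtain ⟨G, _, _, u, hu, -, rfl⟩ := hS
  exact CT.span_mul hu ha hb

theorem Nice.fin {S : Set A} (hS : Nice F S) : Module.Finite F (span F S) := by
  obtain ⟨G, _, _, u, hu, -, rfl⟩ := hS
  rw [span_Hm]
  exact Module.Finite.span_of_finite F (Set.toFinite _)

theorem Nice.cen_mul {S : Set A} (hS : Nice F S) (ha : a ∈ Cen F S) (hb : b ∈ Cen F S) :
    a * b ∈ Cen F S :=
  ⟨hS.span_mul ha.1 hb.1, fun s hs => by
    rw [mul_assoc, hb.2 s hs, ← mul_assoc, ha.2 s hs, mul_assoc]⟩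

theorem Nice.unit {S : Set A} (hS : Nice F S) : ∃ ε ∈ S, ε ≠ 0 ∧
    (∀ a ∈ span F S, ε * a = a ∧ a * ε = a) ∧ (∀ s ∈ S, ∃ s' ∈ S, s * s' = ε ∧ s' * s = ε) ∧
    ∀ s ∈ S, s * s = s → s = ε := by
  obtain ⟨G, _, _, u, hu, -, rfl⟩ := hS
  refine ⟨u 1, u_mem_Hm (one_mem _), hu.ne 1, fun a ha => one_span hu ha,
    fun s hs => Hm_inv hu hs, fun s hs h => ?_⟩
  obtain ⟨s', -, h1, -⟩ := Hm_inv hu hs
  calc s = s * (s * s') := by rw [h1, (one_span hu (subset_span hs)).2]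
    _ = u 1 := by rw [← mul_assoc, h, h1]

end Pool.Agent.Lib.MP_1ae3da_al.CT
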