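import Pool.Agent.Lib.MP_1ae3da_al.C.RLDf2
import Pool.Agent.Lib.MP_1ae3da_al.C.RLSemi
import Pool.Agent.Lib.MP_1ae3da_al.C.AGa
import Pool.Agent.Lib.MP_1ae3da_al.C.TA

set_option autoImplicit false
set_option linter.unusedSectionVars false

namespace Pool.Agent.Lib.MP_1ae3da_al.CT.R5

open Function Submodule

variable {F k X Y : Type} [Field F] [CharZero F] [IsAlgClosed F] [Field k] [Group X] [Finite X]
  [Group Y] [Finite Y] {p : ℕ} {O R : Subring F} [IsDiscreteValuationRing O] {r : F → k}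
  {GG : Subgroup (RingAut F)} {Q H : Subgroup X} {ι : Y →* X} {n n' : ℕ}
  {ρ : MonoidAlgebra F X →ₗ[F] Matrix (Fin n) (Fin n) F}
  {ρ' : MonoidAlgebra F X →ₗ[F] Matrix (Fin n') (Fin n') F}
  {σ : RingAut F} {γ : RingAut (MonoidAlgebra F X)} {a a' e ψ : MonoidAlgebra F X}

section
variable {U : Type} [AddCommGroup U] [Module O U] (b : Module.Basis (Fin n) O U)

/-- the matrix as a ring homomorphism -/
noncomputable def rlmrH : Module.End O U →+* Matrix (Fin n) (Fin n) F :=
  O.subtype.mapMatrix.comp (LinearMap.toMatrixAlgEquiv b).toRingEquiv.toRingHom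

theorem mF_mul (w x : Module.End O U) : mF b (w * x) = mF b w * mF b x := map_mul (rlmrH b) w x

theorem mF_one : mF b 1 = 1 := map_one (rlmrH b)

theorem mF_add (w x : Module.End O U) : mF b (w + x) = mF b w + mF b x := map_add (rlmrH b) w x

theorem mF_smul (c : O) (w : Module.End O U) : mF b (c • w) = (c : F) • mF b w := by
  ext i j
  simp [mF]

theorem mF_sum {I : Type} (s : Finset I) (w : I → Module.End O U) :
    mF b (∑ i ∈ s, w i) = ∑ i ∈ s, mF b (w i) := map_sum (rlmrH b) w s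

theorem mF_inj {w x : Module.End O U} (h : mF b w = mF b x) : w = x :=
  (LinearMap.toMatrix b b).injective
    (Matrix.ext fun i j => Subtype.ext (congrFun (congrFun h i) j))

theorem mF_trace (w : Module.End O U) :
    (mF b w).trace = ((LinearMap.trace O U w : O) : F) := by
  rw [LinearMap.trace_eq_matrix_trace O b]
  exact (AddMonoidHom.map_trace O.subtype _).symm

theorem mF_det (w : Module.End O U) : (mF b w).det = ((LinearMap.det w : O) : F) := by
  rw [← LinearMap.det_toMatrix b]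
  exact (RingHom.map_det O.subtype _).symm

theorem mF_span : span F (Set.range (mF b)) = ⊤ := by
  refine eq_top_iff.2 fun m _ => ?_
  rw [Matrix.matrix_eq_sum_single m]
  refine sum_mem fun i _ => sum_mem fun j _ => ?_
  have e : Matrix.single i j (m i j) = m i j • mF b (Matrix.toLin b b (Matrix.single i j 1)) := by
    ext i' j'
    simp only [mF, LinearMap.toMatrix_toLin, Matrix.smul_apply, Matrix.map_apply, Matrix.single,
      Matrix.of_apply]
    split_ifs <;> simp
  rw [e]
  exact smul_mem _ _ (subset_span ⟨_, rfl⟩)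

end

theorem rlmr_sum (hi : Injective ι) [Fintype Y] (c : Y → F) (y : Y) :
    cf ι (∑ z, c z • gu F X (ι z)) y = c y := by
  classical
  simp [cf, gu, Finsupp.single_apply, hi.eq_iff]

theorem rlmr_ran (hH : ι.range = H) {g : X} (hg : g ∈ H) : ∃ y, ι y = g :=
  MonoidHom.mem_range.1 (hH ▸ hg)

theorem span_cf (hi : Injective ι) (hH : ι.range = H) (ha : a ∈ span F (HX F H)) :
    a = ∑ᶠ y : Y, cf ι a y • gu F X (ι y) := by
  classical
  have := Fintype.ofFinite Y
  rw [finsum_eq_sum_of_fintype]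
  have k := ta_ext (f := LinearMap.id) (g := ∑ y : Y,
    ((MonoidAlgebra.basis X F).coord (ι y)).smulRight (gu F X (ι y))) (fun g hg => by
      obtain ⟨z, rfl⟩ := rlmr_ran hH hg
      rw [LinearMap.sum_apply, Finset.sum_eq_single z (fun y _ c => ?_) (by simp)]
      · change gu F X (ι z) = (Finsupp.single (ι z) (1 : F)) (ι z) • gu F X (ι z)
        simp
      · change (Finsupp.single (ι z) (1 : F)) (ι y) • gu F X (ι y) = 0
        rw [Finsupp.single_eq_of_ne (hi.ne c), zero_smul]) ha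
  rw [LinearMap.sum_apply] at k
  exact k

theorem cf_ext (hi : Injective ι) (hH : ι.range = H) (ha : a ∈ span F (HX F H))
    (ha' : a' ∈ span F (HX F H)) (h : cf ι a = cf ι a') : a = a' := by
  rw [span_cf hi hH ha, h, ← span_cf hi hH ha']

theorem exists_cf (hi : Injective ι) (hH : ι.range = H) (c : Y → F) :
    ∃ a ∈ span F (HX F H), cf ι a = c := by
  have := Fintype.ofFinite Y
  exact ⟨∑ z, c z • gu F X (ι z), sum_mem fun z _ => smul_mem _ _
    (subset_span (mem_Hm (hH ▸ MonoidHom.mem_range.2 ⟨z, rfl⟩))), funext (rlmr_sum hi c)⟩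

theorem exists_MR (hi : Injective ι) (hH : ι.range = H) (V : Lat O Y) :
    ∃ (b : Module.Basis (Fin V.rk) O V.V)
      (ρ : MonoidAlgebra F X →ₗ[F] Matrix (Fin V.rk) (Fin V.rk) F), MR H ι V b ρ := by
  refine ⟨Module.finBasis O V.V, (MonoidAlgebra.basis X F).constr F
    (extend ι (fun y => mF (Module.finBasis O V.V) (V.ρ y)) 0), hi, hH, fun y => ?_⟩
  rw [gu, ← MonoidAlgebra.basis_apply, Module.Basis.constr_basis, hi.extend_apply]

variable {V W : Lat O Y} {b : Module.Basis (Fin n) O V.V} {b' : Module.Basis (Fin n') O W.V}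

theorem MR.rk (h : MR H ι V b ρ) : V.rk = n := by
  rw [Lat.rk, Module.finrank_eq_card_basis b, Fintype.card_fin]

theorem MR.one (h : MR H ι V b ρ) : ρ 1 = 1 := by
  have := h.val 1
  rwa [map_one, map_one, gu_one, mF_one] at this

theorem MR.mul (h : MR H ι V b ρ) (ha : a ∈ span F (HX F H)) (ha' : a' ∈ span F (HX F H)) :
    ρ (a * a') = ρ a * ρ a' :=
  ta_ext (f := ρ ∘ₗ LinearMap.mulRight F a') (g := LinearMap.mulRight F (ρ a') ∘ₗ ρ) (fun g hg =>
    ta_ext (f := ρ ∘ₗ LinearMap.mulLeft F (gu F X g)) (g := LinearMap.mulLeft F (ρ (gu F X g)) ∘ₗ ρ)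
      (fun g' hg' => by
        obtain ⟨y, rfl⟩ := rlmr_ran h.ran hg
        obtain ⟨y', rfl⟩ := rlmr_ran h.ran hg'
        change ρ (gu F X _ * gu F X _) = ρ (gu F X _) * ρ (gu F X _)
        rw [gu_mul, ← map_mul ι, h.val, h.val, h.val, map_mul, mF_mul]) ha') ha

theorem MR.sum (h : MR H ι V b ρ) (ha : a ∈ span F (HX F H)) :
    ρ a = ∑ᶠ y : Y, cf ι a y • mF b (V.ρ y) := by
  have := Fintype.ofFinite Y
  have k := congrArg ρ (span_cf h.inj h.ran ha)
  rw [finsum_eq_sum_of_fintype] at k ⊢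
  simpa only [map_sum, map_smul, h.val] using k

theorem MR.chF (h : MR H ι V b ρ) (ha : a ∈ span F (HX F H)) :
    V.chF F (cf ι a) = (ρ a).trace := by
  have := Fintype.ofFinite Y
  rw [h.sum ha, Lat.chF, finsum_eq_sum_of_fintype, finsum_eq_sum_of_fintype, Matrix.trace_sum]
  refine Finset.sum_congr rfl fun y _ => ?_
  rw [Matrix.trace_smul, mF_trace]
  rfl

theorem MR.ch (h : MR H ι V b ρ) (y : Y) : (ρ (gu F X (ι y))).trace = ((V.ch y : O) : F) := by
  rw [h.val, mF_trace]
  rfl

theorem MR.nat (h : MR H ι V b ρ) (h' : MR H ι W b' ρ') {σ0 : O ≃+* O}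
    (h0 : ∀ y : O, (σ0 y : F) = σ y) {d : Y ≃* Y} {G : V.V ≃+ W.V} (hG : Semi σ0 d V W G)
    (hγ : SL F σ γ) (hd : ∀ y, γ (gu F X (ι y)) = gu F X (ι (d y)))
    (ha : a ∈ span F (HX F H)) {c : F} {w : Module.End O V.V} {x : Module.End O W.V}
    (hx : ∀ v, x (G v) = G (w v)) (hw : ρ a = c • mF b w) :
    ρ' (γ a) = σ c • mF b' x := by
  obtain ⟨b₁, h1, h2⟩ := sem_bas hG.smul b
  let P : Matrix (Fin n') (Fin n) F := (b'.toMatrix b₁).map O.subtype
  let P' : Matrix (Fin n) (Fin n') F := (b₁.toMatrix b').map O.subtype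
  have key (w : Module.End O V.V) (x : Module.End O W.V) (hx : ∀ v, x (G v) = G (w v)) :
      mF b' x = P * (mF b w).map σ * P' := by
    have e : (mF b w).map σ = (LinearMap.toMatrix b₁ b₁ x).map O.subtype := by
      ext i j
      simp only [mF, Matrix.map_apply, LinearMap.toMatrix_apply, h2, hx, h1, Subring.coe_subtype, h0]
    rw [e, ← Matrix.map_mul, ← Matrix.map_mul,
      basis_toMatrix_mul_linearMap_toMatrix_mul_basis_toMatrix]
    rfl
  have sm (c : F) (m : Matrix (Fin n) (Fin n) F) :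
      P * (c • m).map σ * P' = σ c • (P * m.map σ * P') := by
    rw [show (c • m).map σ = σ c • m.map σ from Matrix.ext fun i j => map_mul σ c (m i j),
      Matrix.mul_smul, Matrix.smul_mul]
  have k := gu_ext σ H (ρ'.toAddMonoidHom.comp γ.toAddMonoidHom)
    (AddMonoidHom.mk' (fun a => P * (ρ a).map σ * P') fun a a' => by
      rw [map_add, Matrix.map_add _ (map_add σ), Matrix.mul_add, Matrix.add_mul])
    (fun c a => by
      change ρ' (γ (c • a)) = σ c • ρ' (γ a)
      rw [hγ, map_smul])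
    (fun c a => by
      change P * (ρ (c • a)).map σ * P' = σ c • (P * (ρ a).map σ * P')
      rw [map_smul, sm])
    (fun g hg => by
      obtain ⟨y, rfl⟩ := rlmr_ran h.ran hg
      change ρ' (γ _) = P * (ρ _).map σ * P'
      rw [hd, h'.val, h.val]
      exact key _ _ fun v => (hG.act y v).symm) a ha
  change ρ' (γ a) = P * (ρ a).map σ * P' at k
  rw [k, hw, sm, key w x hx]

end Pool.Agent.Lib.MP_1ae3da_al.CT.R5
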