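import Pool.Agent.Lib.MP_1ae3da_al.C.RSp

set_option linter.unusedSectionVars false

/-! The support of an irreducible lattice is a Galois orbit of blocks. -/

namespace Pool.Agent.Lib.MP_1ae3da_al.CT.R5

open Function Submodule

variable {p : ℕ} {F k X : Type} [Field F] [CharZero F] [IsAlgClosed F] [Field k] [Group X]
  [Finite X] {O R : Subring F} {r : F → k} {GG : Subgroup (RingAut F)}
  {e : MonoidAlgebra F X} {γ : RingAut (MonoidAlgebra F X)}

theorem rsq_top (a : MonoidAlgebra F X) : a ∈ span F (HX F (⊤ : Subgroup X)) :=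
  gu_span.ge trivial

theorem rsq_mul (V : Lat O X) (a b : MonoidAlgebra F X) :
    rspR V (MonoidHom.id X) (a * b) = rspR V (MonoidHom.id X) a * rspR V (MonoidHom.id X) b :=
  rspR_mul V injective_id (MonoidHom.range_eq_top.2 surjective_id) a (rsq_top a) b (rsq_top b)

theorem rsq_gu (V : Lat O X) (x : X) : rspR V (MonoidHom.id X) (gu F X x) = rspM V (V.ρ x) :=
  rspR_gu V (ι := MonoidHom.id X) injective_id x

theorem rsq_coeff {σ : RingAut F} (h1 : SL F σ γ) (h2 : ∀ x, γ (gu F X x) = gu F X x)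
    (a : MonoidAlgebra F X) (x : X) : (γ a).coeff x = σ (a.coeff x) := by
  classical
  induction a using MonoidAlgebra.induction_linear with
  | zero => simp
  | add a b p q => simp [p, q]
  | single y c =>
    rw [← aga_smul, h1, h2, aga_smul, aga_smul]
    simp [Finsupp.single_apply, apply_ite σ]

theorem rsq_g0 (hγ : γ ∈ G0 O GG X) : γ ∈ SG GG (MonoidAlgebra F X) ∧
    γ ∈ Stb (HX F (⊤ : Subgroup X)) := by
  obtain ⟨σ, h1, -, h2, h3⟩ := hγ
  exact ⟨⟨σ, h1, h2⟩, (ga_stb (δ := 1) h2 h3 ⊤).2 fun _ => Iff.rfl⟩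

theorem rsq_chF (V : Lat O X) (hγ : γ ∈ G0 O GG X) : ∃ σ : RingAut F, ∀ a,
    V.chF F (cf (MonoidHom.id X) (γ a)) = σ (V.chF F (cf (MonoidHom.id X) a)) := by
  have := Fintype.ofFinite X
  obtain ⟨σ, -, h0, h2, h3⟩ := hγ
  refine ⟨σ, fun a => ?_⟩
  rw [Lat.chF, Lat.chF, finsum_eq_sum_of_fintype, finsum_eq_sum_of_fintype, map_sum]
  refine Finset.sum_congr rfl fun x _ => ?_
  rw [map_mul, show σ (algebraMap O F (V.ch x)) = algebraMap O F (V.ch x) from h0 _ (V.ch x).2]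
  exact congrArg (· * _) (rsq_coeff h2 h3 a x)

/-- the multiplicity of a block in a lattice. -/
theorem rsq_mult (V : Lat O X) (he : e ∈ Irr F (HX F (⊤ : Subgroup X))) : ∃ s : ℕ,
    V.chF F (cf (MonoidHom.id X) e) = s * dg F (HX F ⊤) e ∧
    (s = 0 → rspR V (MonoidHom.id X) e = 0) ∧
    ∀ b, (rspR V (MonoidHom.id X) (b * e)).trace = s * Chv F (HX F ⊤) e b := by
  obtain ⟨s, h1, h2⟩ := trace_decomp (ρ := rspR V (MonoidHom.id X)) (rsp_nice ⊤)
    (fun a _ b _ => rsq_mul V a b) he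
  refine ⟨s, ?_, fun h0 => ?_, fun b => h2 b (rsq_top b)⟩
  · rw [← rspR_trace, ← chv_self (rsp_nice ⊤) he, ← h2 e (rsq_top e), he.2.1]
  · rw [h0, zero_mul] at h1
    have h3 : Matrix.toLin' (rspR V (MonoidHom.id X) e) = 0 :=
      LinearMap.range_eq_bot.1 (Submodule.finrank_eq_zero.1 h1)
    exact Matrix.toLin'.map_eq_zero_iff.1 h3

theorem rsq_mem (V : Lat O X) (he : e ∈ Irr F (HX F (⊤ : Subgroup X))) :
    e ∈ Sup V ↔ rspR V (MonoidHom.id X) e ≠ 0 := by
  refine ⟨fun h h0 => h.2 (by rw [← rspR_trace, h0, Matrix.trace_zero]), fun h => ⟨he, ?_⟩⟩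
  obtain ⟨s, h1, h2, -⟩ := rsq_mult V he
  rw [h1]
  exact mul_ne_zero (Nat.cast_ne_zero.2 fun h0 => h (h2 h0))
    (Nat.cast_ne_zero.2 (Dg_sq (rsp_nice ⊤) he).2.ne')

theorem rsq_orb_irr (he : e ∈ Irr F (HX F (⊤ : Subgroup X))) :
    Orb O GG e ⊆ Irr F (HX F (⊤ : Subgroup X)) := by
  rintro _ ⟨γ, hγ, rfl⟩
  exact (irr_stb (rsq_g0 hγ).1 (rsq_g0 hγ).2).2 he

theorem rsq_self (e : MonoidAlgebra F X) : e ∈ Orb O GG e := ⟨1, one_mem _, rfl⟩

variable [IsDiscreteValuationRing O]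

theorem rsq_orb (h : PM p O R r GG) {V : Lat O X} (hV : V.Ir) (he : e ∈ Sup V) :
    Sup V = Orb O GG e := by
  classical
  have := Fintype.ofFinite X
  refine Set.Subset.antisymm (fun e' he' => ?_) ?_
  swap
  · rintro _ ⟨γ, hγ, rfl⟩
    obtain ⟨σ, h1⟩ := rsq_chF V hγ
    exact ⟨rsq_orb_irr he.1 ⟨γ, hγ, rfl⟩, by rw [h1]; exact (map_ne_zero σ).2 he.2⟩
  obtain ⟨s, hs, -⟩ := Irr_sum (H := (⊤ : Subgroup X)) (gu_tg (F := F))
    (Nat.cast_ne_zero.2 Nat.card_pos.ne')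
  set t := s.filter (· ∈ Orb O GG e) with ht
  have hm : ∀ x, x ∈ t ↔ x ∈ Orb O GG e := fun x => by
    rw [ht, Finset.mem_filter, and_iff_right_iff_imp]
    exact fun hx => by rw [← Finset.mem_coe, hs]; exact rsq_orb_irr he.1 hx
  have hi : ∀ x ∈ t, x ∈ Irr F (HX F (⊤ : Subgroup X)) := fun x hx =>
    rsq_orb_irr he.1 ((hm x).1 hx)
  set ε := ∑ x ∈ t, x with hε
  have h1 : ∀ γ ∈ G0 O GG X, γ ε = ε := fun γ hγ => by
    rw [hε, map_sum]
    refine Finset.sum_bij (fun x _ => γ x) (fun x hx => ?_) (fun x _ y _ h => γ.injective h)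
      (fun y hy => ⟨γ⁻¹ y, ?_, γ.apply_symm_apply y⟩) fun _ _ => rfl
    · obtain ⟨δ, hδ, rfl⟩ := (hm x).1 hx
      exact (hm _).2 ⟨γ * δ, mul_mem hγ hδ, rfl⟩
    · obtain ⟨δ, hδ, rfl⟩ := (hm y).1 hy
      exact (hm _).2 ⟨γ⁻¹ * δ, mul_mem (inv_mem hγ) hδ, rfl⟩
  have h2 : ∀ x, ∃ a : ℕ, (p : F) ^ a * ε.coeff x ∈ O := fun x => h.fix _ fun σ hσ h0 => by
    obtain ⟨γ, h3, h4⟩ := ga_aut (X := X) σ 1
    rw [← rsq_coeff h3 h4, h1 γ ⟨σ, hσ, h0, h3, h4⟩]
  choose a ha using h2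
  have h3 : ∀ x, (p : F) ^ (∑ y, a y) * ε.coeff x ∈ O := fun x => by
    obtain ⟨c, hc⟩ := Nat.exists_eq_add_of_le'
      (Finset.single_le_sum (f := a) (fun _ _ => Nat.zero_le _) (Finset.mem_univ x))
    rw [hc, pow_add, mul_assoc]
    exact O.mul_mem (O.pow_mem (natCast_mem O p) c) (ha x)
  set n := ∑ y, a y
  have hp : (p : F) ^ n ≠ 0 := pow_ne_zero _ (Nat.cast_ne_zero.2 h.prime.ne_zero)
  let f : Module.End O V.V := ∑ x, (⟨_, h3 x⟩ : O) • V.ρ x
  have h4 : rspM V f = (p : F) ^ n • rspR V (MonoidHom.id X) ε := by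
    rw [rspR_apply, Finset.smul_sum, map_sum]
    exact Finset.sum_congr rfl fun x _ => by rw [rspM_smul, smul_smul]; rfl
  have h5 : ∀ y ∈ Irr F (HX F (⊤ : Subgroup X)), y * ε = if y ∈ t then y else 0 := fun y hy => by
    rw [hε, Finset.mul_sum, ← Finset.sum_ite_eq t y fun _ => y]
    refine Finset.sum_congr rfl fun x hx => ?_
    split_ifs with h6
    · rw [← h6, hy.2.1]
    · exact Irr_orth hy (hi x hx) h6
  have h6 : ε * ε = ε := by
    conv_lhs => rw [hε, Finset.sum_mul]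
    exact Finset.sum_congr rfl fun y hy => by rw [← hε, h5 y (hi y hy), if_pos hy]
  have h7 : V.Hom V f := fun x v => by
    have h8 : gu F X x * ε = ε * gu F X x := by
      rw [hε, Finset.mul_sum, Finset.sum_mul]
      exact Finset.sum_congr rfl fun y hy => ((hi y hy).1.2 _ (aga_mem.2 trivial)).symm
    have h9 : f * V.ρ x = V.ρ x * f := rspM_inj V (by
      rw [map_mul, map_mul, h4, ← rsq_gu, smul_mul_assoc, mul_smul_comm, ← rsq_mul, ← rsq_mul, h8])
    exact LinearMap.congr_fun h9 v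
  have h8 : f ≠ 0 := fun h0 => (rsq_mem V he.1).1 he (by
    rw [h0, map_zero] at h4
    have h9 := h5 e he.1
    rw [if_pos ((hm e).2 (rsq_self e))] at h9
    rw [← h9, rsq_mul, (smul_eq_zero.1 h4.symm).resolve_left hp, mul_zero])
  have h9 : f * (f - ((p : O) ^ n) • 1) = 0 := rspM_inj V (by
    rw [map_mul, map_sub, rspM_smul, map_one, h4, map_zero, mul_sub, smul_mul_smul_comm,
      ← rsq_mul, h6, smul_mul_smul_comm, mul_one]
    simp)
  have h10 : f = ((p : O) ^ n) • 1 := sub_eq_zero.1 (LinearMap.ext fun v =>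
    hV.inj h7 h8 ((LinearMap.congr_fun h9 v).trans (map_zero f).symm))
  have h11 : rspR V (MonoidHom.id X) ε = 1 := smul_right_injective _ hp (by
    show (p : F) ^ n • _ = (p : F) ^ n • _
    rw [← h4, h10, rspM_smul, map_one]
    simp)
  by_contra hc
  have h12 := h5 e' he'.1
  rw [if_neg fun h0 => hc ((hm e').1 h0)] at h12
  refine (rsq_mem V he'.1).1 he' ?_
  rw [← mul_one (rspR V _ e'), ← h11, ← rsq_mul, h12, map_zero]

theorem rsq_ne {V : Lat O X} (hV : Nontrivial V.V) : (Sup V).Nonempty := by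
  obtain ⟨s, hs, h1⟩ := Irr_sum (H := (⊤ : Subgroup X)) (gu_tg (F := F))
    (Nat.cast_ne_zero.2 Nat.card_pos.ne')
  by_contra hc
  have h2 := rspR_one V (ι := MonoidHom.id X) injective_id
  rw [← gu_one, ← h1, map_sum, Finset.sum_eq_zero fun e he => by
    have h3 : e ∈ Irr F (HX F (⊤ : Subgroup X)) := by rw [← hs]; exact he
    by_contra h4
    exact hc ⟨e, (rsq_mem V h3).2 h4⟩] at h2
  have : Nonempty (Fin V.rk) := ⟨⟨0, rsp_pos hV⟩⟩
  exact zero_ne_one h2

/-- support and character of an irreducible lattice. -/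
theorem rsq_ir (h : PM p O R r GG) {V : Lat O X} (hV : V.Ir) :
    (∃ e ∈ Irr F (HX F (⊤ : Subgroup X)), Sup V = Orb O GG e) ∧ ∃ s : ℕ, 0 < s ∧ ∀ a,
      (s : F) * ∑ᶠ e ∈ Sup V, Chv F (HX F ⊤) e a = V.chF F (cf (MonoidHom.id X) a) := by
  classical
  obtain ⟨e, he⟩ := rsq_ne hV.1
  have h0 := rsq_orb h hV he
  refine ⟨⟨e, he.1, h0⟩, ?_⟩
  obtain ⟨s, hs, h1⟩ := Irr_sum (H := (⊤ : Subgroup X)) (gu_tg (F := F))
    (Nat.cast_ne_zero.2 Nat.card_pos.ne')
  obtain ⟨m, m1, m2, -⟩ := rsq_mult V he.1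
  refine ⟨m, Nat.pos_of_ne_zero fun h2 => (rsq_mem V he.1).1 he (m2 h2), fun a => ?_⟩
  have h2 : Sup V = (s.filter (· ∈ Sup V) : Finset _) := Set.ext fun x => by
    rw [Finset.coe_filter]
    exact ⟨fun hx => ⟨by rw [← Finset.mem_coe, hs]; exact hx.1, hx⟩, fun hx => hx.2⟩
  conv_lhs => rw [h2, finsum_mem_coe_finset, Finset.mul_sum, Finset.sum_filter]
  conv_rhs => rw [← rspR_trace, ← mul_one a, ← gu_one, ← h1, Finset.mul_sum, map_sum,
    Matrix.trace_sum]
  refine Finset.sum_congr rfl fun x hx => ?_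
  have h3 : x ∈ Irr F (HX F (⊤ : Subgroup X)) := by rw [← hs]; exact hx
  split_ifs with h4
  · obtain ⟨n, n1, -, n2⟩ := rsq_mult V h3
    rw [h0] at h4
    obtain ⟨γ, hγ, rfl⟩ := h4
    obtain ⟨σ, h5⟩ := rsq_chF V hγ
    have h6 : dg F (HX F ⊤) (γ e) = dg F (HX F ⊤) e := by
      rw [dg, dg, dg_stb (rsq_g0 hγ).1 (rsq_g0 hγ).2]
    rw [h5, m1, h6, map_mul, map_natCast, map_natCast] at n1
    rw [n2, mul_right_cancel₀ (Nat.cast_ne_zero.2 (Dg_sq (rsp_nice ⊤) he.1).2.ne') n1]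
  · rw [rsq_mul, not_not.1 fun h5 => h4 ((rsq_mem V h3).2 h5), mul_zero, Matrix.trace_zero]

theorem rsq_chF_gu (V : Lat O X) (x : X) :
    V.chF F (cf (MonoidHom.id X) (gu F X x)) = (V.ch x : O) := by
  rw [← rspR_trace, rsq_gu, rspM_trace]
  rfl

theorem rsq_down : ∀ (n : ℕ) (V : Lat O X), V.rk = n → V.chF F (cf (MonoidHom.id X) e) ≠ 0 →
    ∃ U : Lat O X, U.Ir ∧ U.chF F (cf (MonoidHom.id X) e) ≠ 0 := by
  have := Fintype.ofFinite X
  intro n
  induction n using Nat.strong_induction_on with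
  | _ n ih =>
    intro V hn hV
    have hnt : Nontrivial V.V := by
      by_contra hc
      have := not_nontrivial_iff_subsingleton.1 hc
      refine hV ?_
      rw [Lat.chF, finsum_eq_sum_of_fintype]
      exact Finset.sum_eq_zero fun x _ => by
        rw [Lat.ch, Subsingleton.elim (V.ρ x) 0, map_zero, map_zero, mul_zero]
    obtain ⟨U, q, h1, h2, h3⟩ := exists_ir_quo V hnt
    obtain ⟨W, j, h4⟩ := exists_ses h2 h3
    by_cases h5 : U.chF F (cf (MonoidHom.id X) e) = 0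
    · refine ih W.rk (by have := h4.rk; have := rsp_pos h1.1; omega) W rfl fun h6 => hV ?_
      rw [← add_zero (0 : F)]
      conv_rhs => rw [← h6]; arg 2; rw [h6, ← h5]
      simp only [Lat.chF, finsum_eq_sum_of_fintype, h4.ch, map_add, mul_add,
        Finset.sum_add_distrib]
    · exact ⟨U, h1, h5⟩

/-- the regular lattice. -/
abbrev rsqReg (O X : Type) [CommRing O] [Group X] [Finite X] : Lat O X :=
  { V := X → O
    ρ := { toFun := fun x => LinearMap.funLeft O O (fun y => x⁻¹ * y)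
           map_one' := by ext f y; simp
           map_mul' := fun x z => by ext f y; simp [mul_assoc] } }

/-- every block is alive on some irreducible lattice. -/
theorem rsq_tot (he : e ∈ Irr F (HX F (⊤ : Subgroup X))) : ∃ V : Lat O X, V.Ir ∧ e ∈ Sup V := by
  classical
  have := Fintype.ofFinite X
  have h1 : ∀ x : X, (rsqReg O X).ch x = if x = 1 then (Nat.card X : O) else 0 := fun x => by
    rw [Lat.ch, LinearMap.trace_eq_matrix_trace O (Pi.basisFun O X), Matrix.trace]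
    simp only [Matrix.diag_apply, LinearMap.toMatrix_apply, Pi.basisFun_apply, Pi.basisFun_repr]
    by_cases hx : x = 1
    · simp [hx, Nat.card_eq_fintype_card]
    · rw [if_neg hx]
      refine Finset.sum_eq_zero fun y _ => ?_
      exact Pi.single_eq_of_ne (fun h => hx (inv_eq_one.1 (mul_eq_right.1 h))) _
  obtain ⟨U, h2, h3⟩ := rsq_down (O := O) (e := e) _ (rsqReg O X) rfl (by
    rw [Lat.chF, finsum_eq_sum_of_fintype, Finset.sum_eq_single 1
      (fun x _ hx => by rw [h1, if_neg hx, map_zero, mul_zero]) (by simp), h1, if_pos rfl,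
      map_natCast, mul_comm]
    have h4 := Dg_eq gu_tg rspT_tf he.1.1 he.2.1
    rw [Subgroup.card_top] at h4
    exact fun h5 => Dg_ne (rsp_nice ⊤) he (h4.trans h5))
  exact ⟨U, h2, he, h3⟩

end Pool.Agent.Lib.MP_1ae3da_al.CT.R5
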