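import Pool.Agent.Lib.MP_1ae3da_al.C.RLSup
import Pool.Agent.Lib.MP_1ae3da_al.C.RSq

set_option autoImplicit false
set_option linter.unusedSectionVars false

namespace Pool.Agent.Lib.MP_1ae3da_al.CT.R5

open Function Submodule

variable {F k X Y : Type} [Field F] [CharZero F] [IsAlgClosed F] [Field k] [Group X] [Finite X]
  [Group Y] [Finite Y] {p : ℕ} {O R : Subring F} [IsDiscreteValuationRing O] {r : F → k}
  {GG : Subgroup (RingAut F)} {Q H : Subgroup X} {ι : Y →* X} {n n' : ℕ}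
  {ρ : MonoidAlgebra F X →ₗ[F] Matrix (Fin n) (Fin n) F}
  {ρ' : MonoidAlgebra F X →ₗ[F] Matrix (Fin n') (Fin n') F}
  {σ : RingAut F} {γ : RingAut (MonoidAlgebra F X)} {a a' e ψ : MonoidAlgebra F X}

theorem sup_mult (V : Lat O X) (he : e ∈ Irr F (HX F (⊤ : Subgroup X))) :
    ∃ s : ℕ, ∀ a, V.chF F (cf (MonoidHom.id X) (a * e)) = s * Chv F (HX F ⊤) e a := by
  obtain ⟨s, -, -, h⟩ := rsq_mult V he
  exact ⟨s, fun a => by rw [← rspR_trace, h]⟩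

theorem sup_ch (h : PM p O R r GG) {V : Lat O X} (hV : V.Ir) :
    ∃ s : ℕ, 0 < s ∧ ∀ x, ((V.ch x : O) : F) =
      s * ∑ᶠ e ∈ Sup V, Chv F (HX F ⊤) e (gu F X x) := by
  obtain ⟨s, hs, h1⟩ := (rsq_ir h hV).2
  exact ⟨s, hs, fun x => by rw [h1, rsq_chF_gu]⟩

end Pool.Agent.Lib.MP_1ae3da_al.CT.R5
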