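import Pool.Agent.Lib.MP_1ae3da_al.C.RLMR
import Pool.Agent.Lib.MP_1ae3da_al.C.RLW
import Pool.Agent.Lib.MP_1ae3da_al.C.RLSub
import Pool.Agent.Lib.MP_1ae3da_al.C.TE
import Pool.Agent.Lib.MP_1ae3da_al.C.RSq

set_option autoImplicit false
set_option linter.unusedSectionVars false

namespace Pool.Agent.Lib.MP_1ae3da_al.CT.R5

open Function Submodule

variable {F k X Y : Type} [Field F] [CharZero F] [IsAlgClosed F] [Field k] [Group X] [Finite X]
  [Group Y] [Finite Y] {p : ℕ} {O R : Subring F} [IsDiscreteValuationRing O] {r : F → k}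
  {GG : Subgroup (RingAut F)} {Q H : Subgroup X} {ι : Y →* X} {n n' : ℕ}
  {ρ : MonoidAlgebra F X →ₗ[F] Matrix (Fin n) (Fin n) F}
  {ρ' : MonoidAlgebra F X →ₗ[F] Matrix (Fin n') (Fin n') F}
  {σ : RingAut F} {γ : RingAut (MonoidAlgebra F X)} {a a' e ψ : MonoidAlgebra F X}

variable {V W : Lat O X}

theorem sup_congr (h : ∀ x, V.ch x = W.ch x) : Sup V = Sup W := by
  simp only [Sup, Lat.chF, h]

theorem chF_aut {σ0 : O ≃+* O} (h0 : ∀ y : O, (σ0 y : F) = σ y) (hγ : SL F σ γ) {α : X ≃* X}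
    (hα : ∀ x, γ (gu F X x) = gu F X (α x)) (h : ∀ x, W.ch (α x) = σ0 (V.ch x))
    (a : MonoidAlgebra F X) :
    W.chF F (cf (MonoidHom.id X) (γ a)) = σ (V.chF F (cf (MonoidHom.id X) a)) := by
  have := Fintype.ofFinite X
  rw [Lat.chF, Lat.chF, finsum_eq_sum_of_fintype, finsum_eq_sum_of_fintype, map_sum,
    ← α.toEquiv.sum_comp]
  refine Finset.sum_congr rfl fun x _ => ?_
  rw [map_mul]
  exact congrArg₂ (· * ·) (coeff_aut hγ hα a x) ((congrArg Subtype.val (h x)).trans (h0 _))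

theorem sup_aut {σ0 : O ≃+* O} (h0 : ∀ y : O, (σ0 y : F) = σ y) (hγ : SL F σ γ) {α : X ≃* X}
    (hα : ∀ x, γ (gu F X x) = gu F X (α x)) (h : ∀ x, W.ch (α x) = σ0 (V.ch x)) :
    Sup W = γ '' Sup V := by
  have h1 : ∀ b, γ b ∈ Sup W ↔ b ∈ Sup V := fun b => and_congr
    (irr_stb (GG := ⊤) ⟨σ, trivial, hγ⟩ ((ga_stb (δ := α) hγ hα ⊤).2 fun _ => Iff.rfl))
    (by rw [chF_aut h0 hγ hα h, map_ne_zero])
  ext b
  obtain ⟨b, rfl⟩ := γ.surjective b
  rw [h1, γ.injective.mem_set_image]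

theorem sup_ex (O : Subring F) [IsDiscreteValuationRing O]
    (he : e ∈ Irr F (HX F (⊤ : Subgroup X))) : ∃ V : Lat O X, V.Ir ∧ e ∈ Sup V :=
  rsq_tot he

theorem sup_ne (h : Nontrivial V.V) : (Sup V).Nonempty :=
  rsq_ne h

theorem sup_orb (h : PM p O R r GG) (hV : V.Ir) (he : e ∈ Sup V) :
    Sup V = Orb O GG e :=
  rsq_orb h hV he

end Pool.Agent.Lib.MP_1ae3da_al.CT.R5
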