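import Pool.Agent.Lib.MP_1ae3da_al.C.RL1
import Pool.Agent.Lib.MP_1ae3da_al.C.RLLoc

set_option autoImplicit false
set_option linter.unusedSectionVars false

namespace Pool.Agent.Lib.MP_1ae3da_al.CT.R5

open Function

variable {O X Y : Type} [CommRing O] [IsDomain O] [IsDiscreteValuationRing O] [CharZero O]
  [Group X] [Finite X] [Group Y] [Finite Y] {p : ℕ} {Q : Subgroup X}

theorem Tie.ne (hW : Wt p O) {V : Lat O X} {M : Lat O (Nz Q)} {i : Bool}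
    {Φ : Submodule O (V.V × M.V)} (h : Tie p Q V M i Φ) (hM : Nontrivial M.V) :
    ¬ V.Z Q i := by
  intro hz
  obtain ⟨m, hm⟩ := hW.loc_ne hM
  obtain ⟨v, hv⟩ := h.gr.ran m
  have h0 := (h.gr.kl v).2 (hz ((h.gr.dom v).2 ⟨m, hv⟩))
  exact hm ((h.gr.kr m).1 (by simpa using Φ.sub_mem hv h0))

/-- `Φ` is the graph of a surjection of `M` onto the Tate group -/
structure RltyPre (p : ℕ) (Q : Subgroup X) (V : Lat O X) (i : Bool) (M : Lat O (Nz Q))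
    (Φ : Submodule O (V.V × M.V)) : Prop where
  triv : M.Triv (Q.subgroupOf (Nz Q))
  st : ∀ (n : Nz Q) v m, (v, m) ∈ Φ → (V.ρ (n : X) v, M.ρ n m) ∈ Φ
  dom : ∀ v, v ∈ V.A Q i ↔ ∃ m, (v, m) ∈ Φ
  ran : ∀ m, ∃ v, (v, m) ∈ Φ
  kl : ∀ v, (v, (0 : M.V)) ∈ Φ ↔ v ∈ V.B Q i
  kp : ∀ m, ((0 : V.V), (p : O) • m) ∈ Φ

theorem rlty_start (hW : Wt p O) (hQ : Syl p Q) {V : Lat O X} (hV : V.Ir) {i : Bool}
    (hi : ¬ V.Z Q i) : ∃ M Φ, RltyPre p Q V i M Φ := by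
  classical
  obtain ⟨v0, hA, hB⟩ := SetLike.not_le_iff_exists.mp hi
  let C := Nz Q ⧸ Q.subgroupOf (Nz Q)
  have := Fintype.ofFinite C
  let M : Lat O (Nz Q) :=
    { V := C → O
      ρ := { toFun := fun n => LinearMap.funLeft O O fun c => n⁻¹ • c
             map_one' := by ext; simp
             map_mul' := fun a b => by
               refine LinearMap.ext fun f => funext fun c => ?_
               change f ((a * b)⁻¹ • c) = f (b⁻¹ • a⁻¹ • c)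
               rw [mul_inv_rev, mul_smul] } }
  let y : C → V.V := fun c => V.ρ ((c.out : Nz Q) : X) v0
  let φ : (C → O) →ₗ[O] V.V := Fintype.linearCombination O y
  have hφ : ∀ f, φ f = ∑ c, f c • y c := fun f => Fintype.linearCombination_apply O y f
  have hyA : ∀ c, y c ∈ V.A Q i := fun c => V.A_st c.out.2 i hA
  have hφA : ∀ f, φ f ∈ V.A Q i := fun f => by
    rw [hφ]; exact Submodule.sum_mem _ fun c _ => Submodule.smul_mem _ _ (hyA c)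
  have hy : ∀ n : Nz Q, V.ρ n v0 - y (n : C) ∈ V.B Q i := fun n => by
    obtain ⟨q, hq⟩ := QuotientGroup.mk_out_eq_mul (Q.subgroupOf (Nz Q)) n
    have h1 := V.B_st n.2 i (V.sub_mem_B i (g := ((q : Nz Q) : X)) q.2 hA)
    have h2 : y (n : C) = V.ρ n (V.ρ ((q : Nz Q) : X) v0) := by
      simp only [y]
      rw [hq, Subgroup.coe_mul, map_mul]; rfl
    rw [h2, ← neg_mem_iff, neg_sub, ← map_sub]
    exact h1
  have hst : ∀ (n : Nz Q) f, V.ρ n (φ f) - φ (M.ρ n f) ∈ V.B Q i := fun n f => by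
    have h1 : φ (M.ρ n f) = ∑ c, f c • y (n • c) := by
      rw [hφ]
      refine (Fintype.sum_equiv (MulAction.toPerm n) _ _ fun c => ?_).symm
      change _ = f (n⁻¹ • n • c) • y (n • c)
      rw [inv_smul_smul]
    rw [h1, hφ, map_sum, ← Finset.sum_sub_distrib]
    refine Submodule.sum_mem _ fun c _ => ?_
    rw [map_smul, ← smul_sub]
    refine Submodule.smul_mem _ _ ?_
    have h2 := hy (n * c.out)
    rw [Subgroup.coe_mul, map_mul] at h2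
    have h3 : ((n * c.out : Nz Q) : C) = n • c := by
      conv_rhs => rw [← QuotientGroup.out_eq' c]
      rfl
    rwa [h3] at h2
  let Φ : Submodule O (V.V × M.V) :=
    (V.B Q i).comap (LinearMap.fst O _ _ - φ ∘ₗ LinearMap.snd O _ _)
  have hΦ : ∀ v f, (v, f) ∈ Φ ↔ v - φ f ∈ V.B Q i := fun _ _ => Iff.rfl
  have st : ∀ (n : Nz Q) v m, (v, m) ∈ Φ → (V.ρ (n : X) v, M.ρ n m) ∈ Φ := fun n v m h => by
    rw [hΦ] at h ⊢
    have h1 := add_mem (V.B_st n.2 i h) (hst n m)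
    rwa [map_sub, sub_add_sub_cancel] at h1
  have hle : Φ.map (LinearMap.fst O _ _) ≤ V.A Q i := by
    rintro _ ⟨⟨v, f⟩, h, rfl⟩
    simpa using add_mem (V.B_le i ((hΦ v f).1 h)) (hφA f)
  have hI : Φ.map (LinearMap.fst O _ _) = V.A Q i := by
    refine (hW.simple hQ hV i (Φ.map (LinearMap.fst O _ _)) ?_
      (fun v hv => ⟨(v, 0), by simpa [hΦ] using hv, rfl⟩) hle).resolve_left fun h => hB ?_
    · rintro n hn _ ⟨⟨v, f⟩, h, rfl⟩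
      exact ⟨_, st ⟨n, hn⟩ v f h, rfl⟩
    · rw [← h]
      refine ⟨(v0, Pi.single ((1 : Nz Q) : C) 1), ?_, rfl⟩
      have h1 := hy 1
      simpa [hΦ, φ, Fintype.linearCombination_apply_single] using h1
  refine ⟨M, Φ, fun g hg => ?_, st, fun v => ?_, fun m => ⟨φ m, by simp [hΦ]⟩,
    fun v => by simp [hΦ], fun m => ?_⟩
  · refine LinearMap.ext fun f => funext fun c => ?_
    change f (g⁻¹ • c) = f c
    obtain ⟨x, rfl⟩ := QuotientGroup.mk_surjective c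
    congr 1
    refine QuotientGroup.eq.mpr ?_
    have := (inferInstance : (Q.subgroupOf (Nz Q)).Normal).conj_mem' g hg x
    simpa [mul_assoc] using this
  · rw [← hI]
    exact ⟨fun ⟨⟨_, f⟩, h, e⟩ => ⟨f, e ▸ h⟩, fun ⟨f, h⟩ => ⟨_, h, rfl⟩⟩
  · rw [hΦ, zero_sub, neg_mem_iff, map_smul]
    exact V.psmul hQ.card i (hφA m)

theorem RltyPre.cut {V : Lat O X} {i : Bool} {M : Lat O (Nz Q)} {Φ : Submodule O (V.V × M.V)}
    (h : RltyPre p Q V i M Φ)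
    (hmin : ∀ M' Φ', RltyPre p Q V i M' Φ' → M.rk ≤ M'.rk) {U U' : Submodule O M.V}
    (hU : M.St U) (hc : IsCompl U U') (hs : ∀ v ∈ V.A Q i, ∃ m ∈ U, (v, m) ∈ Φ) : U' = ⊥ := by
  obtain ⟨W, j, hj, hinj, hr⟩ := exists_sub M hU
  have h1 : RltyPre p Q V i W (Φ.comap (LinearMap.prodMap LinearMap.id j)) := by
    refine ⟨fun g hg => LinearMap.ext fun w => hinj ?_, fun n v m k => ?_, fun v => ⟨fun k => ?_,
      fun ⟨m, k⟩ => (h.dom v).2 ⟨j m, k⟩⟩, fun m => h.ran (j m), fun v => ?_, fun m => ?_⟩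
    · rw [hj, h.triv g hg]; rfl
    · change (_, j (W.ρ n m)) ∈ Φ
      rw [hj]
      exact h.st n v (j m) k
    · obtain ⟨m, hm, k⟩ := hs v k
      rw [← hr] at hm
      obtain ⟨w, rfl⟩ := hm
      exact ⟨w, k⟩
    · rw [← h.kl]
      change (v, j 0) ∈ Φ ↔ _
      rw [map_zero]
    · change ((0 : V.V), j ((p : O) • m)) ∈ Φ
      rw [map_smul]
      exact h.kp _
  have h2 := hmin _ _ h1
  have h3 : Module.finrank O U = W.rk := by
    rw [← hr]; exact LinearMap.finrank_range_of_inj hinj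
  have h4 := Submodule.finrank_quotient_add_finrank U
  have h5 : Module.finrank O (M.V ⧸ U) = 0 := by
    change Module.finrank O M.V ≤ _ at h2
    omega
  rw [eq_bot_iff]
  intro x hx
  obtain ⟨a, ha, e⟩ := Module.finrank_eq_zero_iff.mp h5 (Submodule.Quotient.mk x)
  rw [← Submodule.Quotient.mk_smul, Submodule.Quotient.mk_eq_zero] at e
  have h6 : a • x = 0 := (Submodule.disjoint_def.mp hc.disjoint) _ e (U'.smul_mem a hx)
  exact (smul_eq_zero.mp h6).resolve_left ha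

theorem Wt.typ_ex (hW : Wt p O) (hQ : Syl p Q) {V : Lat O X} (hV : V.Ir) :
    (∀ i, V.Z Q i) ∨ ∃ (M : Lat O (Nz Q)) (i : Bool) (Φ : Submodule O (V.V × M.V)),
      Typ p Q V M i Φ := by
  classical
  by_cases hz : ∀ i, V.Z Q i
  · exact Or.inl hz
  right
  obtain ⟨i, hi⟩ := not_forall.mp hz
  have hz' : V.Z Q (!i) := by
    rcases hW.one_deg hQ hV with h | h <;> cases i <;> first | exact h | exact absurd h hi
  have hex : ∃ n, ∃ M Φ, RltyPre p Q V i M Φ ∧ M.rk = n := by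
    obtain ⟨M, Φ, h⟩ := rlty_start hW hQ hV hi
    exact ⟨_, M, Φ, h, rfl⟩
  obtain ⟨M, Φ, h, hn⟩ := Nat.find_spec hex
  have hmin : ∀ M' Φ', RltyPre p Q V i M' Φ' → M.rk ≤ M'.rk := fun M' Φ' h' =>
    hn ▸ Nat.find_min' hex ⟨M', Φ', h', rfl⟩
  have hir : M.Ir := by
    refine ⟨?_, fun U hU hp => ?_⟩
    · obtain ⟨v, hA, hB⟩ := SetLike.not_le_iff_exists.mp hi
      obtain ⟨m, hm⟩ := (h.dom v).1 hA
      exact ⟨m, 0, fun e => hB ((h.kl v).1 (e ▸ hm))⟩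
    obtain ⟨U', hU', hc⟩ := hW.loc_split hQ.sub h.triv hU hp
    have hI := hW.simple hQ hV i
      ((Φ ⊓ U.comap (LinearMap.snd O _ _)).map (LinearMap.fst O _ _))
      (by
        rintro n hn _ ⟨⟨v, m⟩, ⟨k1, k2⟩, rfl⟩
        exact ⟨_, ⟨h.st ⟨n, hn⟩ v m k1, hU _ _ k2⟩, rfl⟩)
      (fun v hv => ⟨(v, 0), ⟨(h.kl v).2 hv, U.zero_mem⟩, rfl⟩)
      (by
        rintro _ ⟨⟨v, m⟩, ⟨k1, -⟩, rfl⟩
        exact (h.dom v).2 ⟨m, k1⟩)
    rcases hI with hI | hI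
    · refine Or.inl (h.cut hmin hU' hc.symm fun v hv => ?_)
      obtain ⟨m, hm⟩ := (h.dom v).1 hv
      obtain ⟨u, hu, u', hu', rfl⟩ := Submodule.mem_sup.mp
        (show m ∈ U ⊔ U' by rw [hc.sup_eq_top]; trivial)
      obtain ⟨v1, k⟩ := h.ran u
      have k1 : v1 ∈ V.B Q i := hI ▸ ⟨(v1, u), ⟨k, hu⟩, rfl⟩
      exact ⟨u', hu', by simpa using Φ.add_mem (Φ.sub_mem hm k) ((h.kl v1).2 k1)⟩
    · have h0 := h.cut hmin hU hc fun v hv => by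
        rw [← hI] at hv
        obtain ⟨⟨_, m⟩, ⟨k1, k2⟩, rfl⟩ := hv
        exact ⟨m, k2, k1⟩
      right
      rw [← hc.sup_eq_top, h0, sup_bot_eq]
  refine ⟨M, i, Φ, hV, hir, h.triv, ⟨⟨h.dom, h.ran, h.kl, fun m => ⟨fun k => ?_, ?_⟩⟩, h.st⟩, hz'⟩
  · rcases hW.loc_simple hQ.sub h.triv hir (U := Φ.comap (LinearMap.inr O _ _))
      (fun n m k => by simpa using h.st n 0 m k) h.kp with h1 | h1
    · refine absurd (fun v hv => ?_) hi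
      obtain ⟨m, hm⟩ := (h.dom v).1 hv
      have k1 : ((0 : V.V), m) ∈ Φ := show m ∈ Φ.comap (LinearMap.inr O _ _) from h1 ▸ trivial
      exact (h.kl v).1 (by simpa using Φ.sub_mem hm k1)
    · exact h1 m k
  · rintro ⟨m', rfl⟩
    exact h.kp m'

theorem rlty_half (hW : Wt p O) (hQ : Syl p Q) {V V' : Lat O X} {M M' : Lat O (Nz Q)}
    {i : Bool} {Φ : Submodule O (V.V × M.V)} {Φ' : Submodule O (V'.V × M'.V)}
    (h : Tie p Q V M i Φ) (h' : Tie p Q V' M' i Φ') (w' : M.V →ₗ[O] M'.V) (hw : M.Hom M' w') :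
    ∃ w : V.V →ₗ[O] V'.V, V.Hom V' w ∧ ∀ v m, (v, m) ∈ Φ → (w v, w' m) ∈ Φ' := by
  let Ψ : Submodule O (V.V × V'.V) :=
    { carrier := {x | ∃ m, (x.1, m) ∈ Φ ∧ (x.2, w' m) ∈ Φ'}
      add_mem' := fun ⟨m, k1, k2⟩ ⟨m', k3, k4⟩ =>
        ⟨m + m', Φ.add_mem k1 k3, by rw [map_add]; exact Φ'.add_mem k2 k4⟩
      zero_mem' := ⟨0, Φ.zero_mem, by rw [map_zero]; exact Φ'.zero_mem⟩
      smul_mem' := fun c _ ⟨m, k1, k2⟩ =>
        ⟨c • m, Φ.smul_mem c k1, by rw [map_smul]; exact Φ'.smul_mem c k2⟩ }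
  obtain ⟨f, hf, h1, -⟩ := hW.l1 hQ i Ψ
    (fun n hn v w ⟨m, k1, k2⟩ => ⟨M.ρ ⟨n, hn⟩ m, h.st ⟨n, hn⟩ v m k1, by
      rw [hw]; exact h'.st ⟨n, hn⟩ w _ k2⟩)
    (fun v hv => by
      obtain ⟨m, hm⟩ := (h.gr.dom v).1 hv
      obtain ⟨w, k⟩ := h'.gr.ran (w' m)
      exact ⟨w, (h'.gr.dom w).2 ⟨_, k⟩, m, hm, k⟩)
    (fun w k => ⟨0, Φ.zero_mem, by rw [map_zero]; exact (h'.gr.kl w).2 k⟩)
    (fun v k => ⟨0, (h.gr.kl v).2 k, by rw [map_zero]; exact Φ'.zero_mem⟩)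
  refine ⟨f, hf, fun v m k => ?_⟩
  obtain ⟨m1, k1, k2⟩ := h1 v ((h.gr.dom v).2 ⟨m, k⟩)
  obtain ⟨m2, e⟩ := (h.gr.kr (m - m1)).1 (by simpa using Φ.sub_mem k k1)
  have k3 := (h'.gr.kr (w' (m - m1))).2 ⟨w' m2, by rw [e, map_smul]⟩
  simpa using Φ'.add_mem k2 k3

theorem Wt.typ_iso (hW : Wt p O) (hQ : Syl p Q) {V V' : Lat O X} {M M' : Lat O (Nz Q)}
    {i : Bool} {Φ : Submodule O (V.V × M.V)} {Φ' : Submodule O (V'.V × M'.V)}
    (h : Typ p Q V M i Φ) (h' : Typ p Q V' M' i Φ') (w' : M.V →ₗ[O] M'.V) (hw : M.Hom M' w')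
    (hb : Bijective w') :
    ∃ w : V.V →ₗ[O] V'.V, V.Hom V' w ∧ Bijective w ∧
      ∀ v m, (v, m) ∈ Φ ↔ (w v, w' m) ∈ Φ' := by
  obtain ⟨g', hg', e1, e2⟩ := hw.inv hb
  obtain ⟨f, hf, k1⟩ := rlty_half hW hQ h.tie h'.tie w' hw
  obtain ⟨g, hg, k2⟩ := rlty_half hW hQ h'.tie h.tie g' hg'
  have b1 : Bijective (g ∘ₗ f) := hW.bij_of_id hQ h.irr
    (fun x v => by rw [LinearMap.comp_apply, hf, hg]; rfl) i (h.tie.ne hW h.mirr.1) fun v hv => by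
      obtain ⟨m, hm⟩ := (h.tie.gr.dom v).1 hv
      have k := k2 _ _ (k1 v m hm)
      rw [e1] at k
      exact (h.tie.gr.kl _).1 (by simpa using Φ.sub_mem k hm)
  have b2 : Bijective (f ∘ₗ g) := hW.bij_of_id hQ h'.irr
    (fun x v => by rw [LinearMap.comp_apply, hg, hf]; rfl) i (h'.tie.ne hW h'.mirr.1) fun v hv => by
      obtain ⟨m, hm⟩ := (h'.tie.gr.dom v).1 hv
      have k := k1 _ _ (k2 v m hm)
      rw [e2] at k
      exact (h'.tie.gr.kl _).1 (by simpa using Φ'.sub_mem k hm)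
  have b3 : Bijective f := ⟨Injective.of_comp (f := g) b1.1, Surjective.of_comp (g := g) b2.2⟩
  refine ⟨f, hf, b3, fun v m => ⟨k1 v m, fun k => ?_⟩⟩
  obtain ⟨f', hf', e3, -⟩ := hf.inv b3
  have hv : v ∈ V.A Q i := e3 v ▸ hf'.mapA i ((h'.tie.gr.dom _).2 ⟨_, k⟩)
  obtain ⟨m1, k3⟩ := (h.tie.gr.dom v).1 hv
  obtain ⟨m2, e⟩ := (h'.tie.gr.kr (w' (m - m1))).1 (by simpa using Φ'.sub_mem k (k1 v m1 k3))
  have k4 := (h.tie.gr.kr (m - m1)).2 ⟨g' m2, by rw [← map_smul, ← e, e1]⟩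
  simpa using Φ.add_mem k3 k4

theorem Wt.tie_simple (hW : Wt p O) (hQ : Syl p Q) {V : Lat O X} {M : Lat O (Nz Q)} {i : Bool}
    {Φ : Submodule O (V.V × M.V)} (h : Tie p Q V M i Φ) (hi : M.Ir)
    (ht : M.Triv (Q.subgroupOf (Nz Q))) (U : Submodule O V.V)
    (hU : ∀ n ∈ Nz Q, ∀ v ∈ U, V.ρ n v ∈ U) (h1 : V.B Q i ≤ U) (h2 : U ≤ V.A Q i) :
    U = V.B Q i ∨ U = V.A Q i := by
  rcases hW.loc_simple hQ.sub ht hi
    (U := (Φ ⊓ U.comap (LinearMap.fst O _ _)).map (LinearMap.snd O _ _))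
    (by
      rintro n _ ⟨⟨v, m⟩, ⟨k1, k2⟩, rfl⟩
      exact ⟨_, ⟨h.st n v m k1, hU n n.2 v k2⟩, rfl⟩)
    (fun m => ⟨(0, _), ⟨(h.gr.kr _).2 ⟨m, rfl⟩, U.zero_mem⟩, rfl⟩) with k | k
  · refine Or.inr (le_antisymm h2 fun v hv => ?_)
    obtain ⟨m, hm⟩ := (h.gr.dom v).1 hv
    obtain ⟨⟨v', _⟩, ⟨k1, k2⟩, rfl⟩ : m ∈ (Φ ⊓ U.comap (LinearMap.fst O _ _)).map
      (LinearMap.snd O _ _) := k ▸ trivial
    have k3 := h1 ((h.gr.kl (v - v')).1 (by simpa using Φ.sub_mem hm k1))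
    simpa using U.add_mem k3 k2
  · refine Or.inl (le_antisymm (fun v hv => ?_) h1)
    obtain ⟨m, hm⟩ := (h.gr.dom v).1 (h2 hv)
    have k1 := (h.gr.kr m).2 (k m ⟨(v, m), ⟨hm, hv⟩, rfl⟩)
    exact (h.gr.kl v).1 (by simpa using Φ.sub_mem hm k1)

end Pool.Agent.Lib.MP_1ae3da_al.CT.R5
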