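import Pool.Agent.Lib.MP_1ae3da_al.C.RLDef

/-! The coefficient ring of a modular system. -/

namespace Pool.Agent.Lib.MP_1ae3da_al.CT

variable {p : ℕ} {F k : Type} [Field F] [Field k] {O R : Subring F} {r : F → k}
  {GG : Subgroup (RingAut F)}

theorem PM.res (h : PM p O R r GG) :
    ∃ ρ : O →+* k, (∀ x : O, ρ x = r x) ∧ (∀ x : O, ρ x = 0 ↔ (p : O) ∣ x) ∧
      ∀ c : k, c ≠ 0 → ∃ x : O, Mup p x ∧ ρ x = c := by
  have z : r 0 = 0 := by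
    have := h.add 0 (zero_mem _) 0 (zero_mem _)
    rw [add_zero] at this
    exact left_eq_add.1 this
  refine ⟨⟨⟨⟨fun x => r x, h.one⟩, fun x y => h.mul _ (h.le x.2) _ (h.le y.2)⟩, z,
    fun x y => h.add _ (h.le x.2) _ (h.le y.2)⟩, fun _ => rfl, fun x => ?_, fun c hc => ?_⟩
  · refine (h.ker x x.2).trans ⟨fun ⟨y, hy, e⟩ => ⟨⟨y, hy⟩, Subtype.ext (by simpa using e)⟩,
      fun ⟨y, e⟩ => ⟨y, y.2, by simpa using congrArg Subtype.val e⟩⟩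
  · obtain ⟨ξ, ⟨n, hn, h1⟩, h2⟩ := h.teich c hc
    exact ⟨⟨ξ, h.mup ξ ⟨n, hn, h1⟩⟩, ⟨n, hn, Subtype.ext (by simpa using h1)⟩, h2⟩

theorem PM.wt (h : PM p O R r GG) : R5.Wt p O := by
  obtain ⟨ρ, -, h1, h2⟩ := h.res
  have := h.charF
  have := h.algk
  refine ⟨h.prime, Prime.irreducible ⟨?_, fun hu => ?_, fun a b hab => ?_⟩, h.cpl,
    fun f hf hd => ?_, fun u hu => ?_⟩
  · exact Nat.cast_ne_zero.2 h.prime.ne_zero
  · exact one_ne_zero ((map_one ρ).symm.trans ((h1 1).2 hu.dvd))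
  · rw [← h1, map_mul, mul_eq_zero, h1, h1] at hab
    exact hab
  · obtain ⟨c, hc⟩ := IsAlgClosed.exists_root (f.map ρ) (by
      rw [hf.degree_map]
      exact (Polynomial.natDegree_pos_iff_degree_pos.1 hd).ne')
    have : ∃ x, ρ x = c := by
      by_cases h0 : c = 0
      · exact ⟨0, by rw [map_zero, h0]⟩
      · obtain ⟨x, -, hx⟩ := h2 c h0
        exact ⟨x, hx⟩
    obtain ⟨x, rfl⟩ := this
    refine ⟨x, (h1 _).1 ?_⟩
    rw [← Polynomial.eval₂_at_apply, ← Polynomial.eval_map]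
    exact hc
  · obtain ⟨x, ⟨n, hn, hx⟩, e⟩ := h2 (ρ u) (hu.map ρ).ne_zero
    refine ⟨n, hn, (h1 _).1 ?_⟩
    rw [map_sub, map_pow, ← e, ← map_pow, hx, sub_self]

end Pool.Agent.Lib.MP_1ae3da_al.CT
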