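import Pool.Agent.Lib.MP_1ae3da_al.C.RLBas

set_option autoImplicit false
set_option linter.unusedSectionVars false

namespace Pool.Agent.Lib.MP_1ae3da_al.CT.R5

open Function

variable {O X Y : Type} [CommRing O] [IsDomain O] [IsDiscreteValuationRing O] [CharZero O]
  [Group X] [Finite X] [Group Y] [Finite Y] {p : ℕ} {Q : Subgroup X}
variable {U W M : Type} [AddCommGroup U] [Module O U] [Module.Free O U] [Module.Finite O U]
  [AddCommGroup W] [Module O W] [Module.Free O W] [Module.Finite O W]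
  [AddCommGroup M] [Module O M] [Module.Free O M] [Module.Finite O M]

theorem rlz_pow {E : Type} [AddCommGroup E] [Module O E] (g : Module.End O E) (j : ℕ) (v : E) :
    (g ^ j) v - v ∈ LinearMap.range (g - 1) :=
  ⟨(∑ i ∈ Finset.range j, g ^ i) v, by
    rw [← Module.End.mul_apply, mul_geom_sum]; rfl⟩

theorem rlz_last {E : Type} [AddCommGroup E] [Module O E] (hp : p.Prime) {g : Module.End O E}
    {w : E} (h : (∑ j ∈ Finset.range p, g ^ j) w = 0) :
    (g ^ (p - 1)) w = -∑ j : Fin (p - 1), (g ^ (j : ℕ)) w := by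
  obtain ⟨N, rfl⟩ : ∃ N, p = N + 1 := ⟨p - 1, by have := hp.pos; omega⟩
  rw [Finset.sum_range_succ, Finset.sum_range, LinearMap.add_apply, LinearMap.sum_apply] at h
  exact eq_neg_of_add_eq_zero_right h

theorem rlz_comm {E E' : Type} [AddCommGroup E] [Module O E] [AddCommGroup E'] [Module O E']
    {g : Module.End O E} {g' : Module.End O E'} {f : E →ₗ[O] E'} (h : ∀ u, f (g u) = g' (f u))
    (n : ℕ) (u : E) : f ((g ^ n) u) = (g' ^ n) (f u) := by
  induction n with
  | zero => rfl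
  | succ n k => rw [pow_succ', pow_succ', Module.End.mul_apply, Module.End.mul_apply, h, k]

theorem rlz_lift {E E' : Type} [AddCommGroup E] [Module O E] [AddCommGroup E'] [Module O E']
    (hp : p.Prime) (g : Module.End O E) (hg : ∑ j ∈ Finset.range p, g ^ j = 0)
    {r : ℕ} (b : Module.Basis (Fin r × Fin (p - 1)) O E) (v : Fin r → E)
    (hb : ∀ s j, b (s, j) = (g ^ (j : ℕ)) (v s)) (g' : Module.End O E') (w : Fin r → E')
    (hw : ∀ s, (∑ j ∈ Finset.range p, g' ^ j) (w s) = 0) :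
    ∃ f : E →ₗ[O] E', (∀ s, f (v s) = w s) ∧ ∀ u, f (g u) = g' (f u) := by
  let f : E →ₗ[O] E' := b.constr O fun x => (g' ^ (x.2 : ℕ)) (w x.1)
  have k (s) (j : Fin (p - 1)) : f ((g ^ (j : ℕ)) (v s)) = (g' ^ (j : ℕ)) (w s) := by
    rw [← hb]; exact b.constr_basis O _ _
  have k' (s) (n : ℕ) (hn : n ≤ p - 1) : f ((g ^ n) (v s)) = (g' ^ n) (w s) := by
    rcases hn.lt_or_eq with h | rfl
    · exact k s ⟨n, h⟩
    · rw [rlz_last hp (g := g) (by rw [hg]; rfl), rlz_last hp (hw s), map_neg, map_sum]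
      simp only [k]
  refine ⟨f, fun s => k' s 0 (Nat.zero_le _), fun u => LinearMap.congr_fun
    (b.ext (f₁ := f ∘ₗ g) (f₂ := g' ∘ₗ f) fun ⟨s, j⟩ => ?_) u⟩
  have := k' s (j + 1) j.2
  rw [pow_succ', pow_succ', Module.End.mul_apply, Module.End.mul_apply] at this
  rw [LinearMap.comp_apply, LinearMap.comp_apply, hb, this, k]

theorem rlz_p {E : Type} [AddCommGroup E] [Module O E] {g : Module.End O E}
    (hg : ∑ j ∈ Finset.range p, g ^ j = 0) (v : E) : (p : O) • v ∈ LinearMap.range (g - 1) := by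
  have h : ∑ j ∈ Finset.range p, ((g ^ j) v - v) = -((p : O) • v) := by
    rw [Finset.sum_sub_distrib, ← LinearMap.sum_apply, hg, Finset.sum_const, Finset.card_range,
      Nat.cast_smul_eq_nsmul, LinearMap.zero_apply, zero_sub]
  rw [← neg_mem_iff, ← h]
  exact Submodule.sum_mem _ fun j _ => rlz_pow g j v

theorem rlz_nil {E : Type} [AddCommGroup E] [Module O E] (hp : p.Prime) {g : Module.End O E}
    (hg : ∑ j ∈ Finset.range p, g ^ j = 0) (v : E) : ∃ u, ((g - 1) ^ p) v = (p : O) • u := by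
  obtain ⟨r, h⟩ := (Commute.one_right (g - 1)).exists_add_pow_prime_eq hp
  have e : g ^ p = 1 := by rw [← sub_eq_zero, ← mul_geom_sum, hg, mul_zero]
  rw [sub_add_cancel, e, one_pow, add_assoc, add_left_comm, left_eq_add, mul_assoc, mul_assoc,
    add_eq_zero_iff_eq_neg] at h
  exact ⟨-((g - 1) * (1 * r)) v, by
    rw [h, LinearMap.neg_apply, Module.End.mul_apply, Module.End.natCast_apply, smul_neg,
      Nat.cast_smul_eq_nsmul]⟩

theorem rlz_model (O : Type) [CommRing O] (hp : p.Prime) (r : ℕ) :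
    ∃ (G : Module.End O (Fin r × Fin (p - 1) → O)) (e : Fin r → Fin r × Fin (p - 1) → O),
      ∑ j ∈ Finset.range p, G ^ j = 0 ∧
      ∀ s (j : Fin (p - 1)), Pi.basisFun O _ (s, j) = (G ^ (j : ℕ)) (e s) := by
  have h2 := hp.two_le
  let b := Pi.basisFun O (Fin r × Fin (p - 1))
  let G : Module.End O (Fin r × Fin (p - 1) → O) := b.constr O fun x =>
    if h : (x.2 : ℕ) + 1 < p - 1 then b (x.1, ⟨_, h⟩) else -∑ i, b (x.1, i)
  have k (s) (n : ℕ) (h : n < p - 1) : b (s, ⟨n, h⟩) = (G ^ n) (b (s, ⟨0, by omega⟩)) := by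
    induction n with
    | zero => rfl
    | succ n k =>
      rw [pow_succ', Module.End.mul_apply, ← k (by omega), b.constr_basis, dif_pos h]
  refine ⟨G, fun s => b (s, ⟨0, by omega⟩), b.ext fun ⟨s, j⟩ => ?_, fun s j => k s j j.2⟩
  have z : (∑ j ∈ Finset.range p, G ^ j) (b (s, ⟨0, by omega⟩)) = 0 := by
    obtain ⟨N, rfl⟩ : ∃ N, p = N + 2 := ⟨p - 2, by omega⟩
    rw [Finset.sum_range_succ, Finset.sum_range, LinearMap.add_apply, LinearMap.sum_apply,
      pow_succ', Module.End.mul_apply, ← k s N (by omega), b.constr_basis, dif_neg (by simp),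
      add_neg_eq_zero]
    exact Finset.sum_congr rfl fun i _ => (k s i i.2).symm
  rw [k s j j.2, ← Module.End.mul_apply,
    (Commute.sum_left _ _ _ fun i _ => Commute.pow_pow_self G i j).eq, Module.End.mul_apply, z,
    map_zero, LinearMap.zero_apply]

theorem zeta_trace (hp : p.Prime) (g : Module.End O U) (hg : ∑ j ∈ Finset.range p, g ^ j = 0)
    {r : ℕ} (b : Module.Basis (Fin r × Fin (p - 1)) O U) (v : Fin r → U)
    (hb : ∀ s j, b (s, j) = (g ^ (j : ℕ)) (v s)) : LinearMap.trace O U g = -(r : O) := by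
  have h2 := hp.two_le
  rw [LinearMap.trace_eq_matrix_trace O b, Matrix.trace, Fintype.sum_prod_type]
  have k (s : Fin r) : ∑ j, (LinearMap.toMatrix b b g).diag (s, j) = -1 := by
    rw [Finset.sum_eq_single ⟨p - 2, by omega⟩ (fun j _ n => ?_) (by simp)]
    · rw [Matrix.diag_apply, LinearMap.toMatrix_apply, hb, ← Module.End.mul_apply, ← pow_succ',
        show p - 2 + 1 = p - 1 by omega, rlz_last hp (g := g) (by rw [hg]; rfl)]
      simp [← hb, Finsupp.single_apply]
    · have h : (j : ℕ) + 1 < p - 1 := by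
        have := j.2
        have : (j : ℕ) ≠ p - 2 := fun e => n (Fin.ext e)
        omega
      rw [Matrix.diag_apply, LinearMap.toMatrix_apply, hb, ← Module.End.mul_apply, ← pow_succ',
        ← hb s ⟨_, h⟩, b.repr_self, Finsupp.single_eq_of_ne]
      simp [Fin.ext_iff]
  simp only [k]
  simp

theorem zeta_span (g : Module.End O U) {r : ℕ} (b : Module.Basis (Fin r × Fin (p - 1)) O U)
    (v : Fin r → U) (hb : ∀ s j, b (s, j) = (g ^ (j : ℕ)) (v s)) (u : U) :
    ∃ c : Fin r → O, u - ∑ s, c s • v s ∈ LinearMap.range (g - 1) := by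
  refine ⟨fun s => ∑ j, b.repr u (s, j), ?_⟩
  have : u - ∑ s, (∑ j, b.repr u (s, j)) • v s =
      ∑ s, ∑ j, b.repr u (s, j) • ((g ^ (j : ℕ)) (v s) - v s) := by
    simp only [smul_sub, Finset.sum_sub_distrib, Finset.sum_smul, ← hb]
    rw [← Fintype.sum_prod_type (f := fun x => b.repr u x • b x), b.sum_repr]
  rw [this]
  exact Submodule.sum_mem _ fun s _ => Submodule.sum_mem _ fun j _ =>
    Submodule.smul_mem _ _ (rlz_pow g j _)

theorem zeta_ind (hp : p.Prime) (g : Module.End O U) (hg : ∑ j ∈ Finset.range p, g ^ j = 0)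
    {r : ℕ} (b : Module.Basis (Fin r × Fin (p - 1)) O U) (v : Fin r → U)
    (hb : ∀ s j, b (s, j) = (g ^ (j : ℕ)) (v s)) (c : Fin r → O) :
    ∑ s, c s • v s ∈ LinearMap.range (g - 1) ↔ ∀ s, (p : O) ∣ c s := by
  refine ⟨fun ⟨u, hu⟩ s => ?_, fun h => Submodule.sum_mem _ fun s _ => ?_⟩
  · obtain ⟨f, f1, f2⟩ := rlz_lift (E' := O ⧸ Ideal.span {(p : O)}) hp g hg b v hb 1
      (Pi.single s 1) fun t => by
        simp only [one_pow, Finset.sum_const, Finset.card_range]
        rw [LinearMap.smul_apply, Module.End.one_apply, nsmul_eq_mul, ← map_natCast (Ideal.Quotient.mk _),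
          Ideal.Quotient.eq_zero_iff_mem.2 (Ideal.mem_span_singleton_self _), zero_mul]
    have := congrArg f hu
    rw [LinearMap.sub_apply, map_sub, f2, Module.End.one_apply, Module.End.one_apply, sub_self,
      map_sum, Finset.sum_eq_single s (fun t _ n => by
        rw [map_smul, f1, Pi.single_eq_of_ne n, smul_zero]) (by simp), map_smul, f1,
      Pi.single_eq_same, ← Algebra.algebraMap_eq_smul_one] at this
    exact Ideal.mem_span_singleton.1 (Ideal.Quotient.eq_zero_iff_mem.1 this.symm)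
  · obtain ⟨d, hd⟩ := h s
    rw [hd, mul_comm, mul_smul]
    exact Submodule.smul_mem _ _ (rlz_p hg _)

theorem zeta_lift (hp : p.Prime) (g : Module.End O U) (hg : ∑ j ∈ Finset.range p, g ^ j = 0)
    {r : ℕ} (b : Module.Basis (Fin r × Fin (p - 1)) O U) (v : Fin r → U)
    (hb : ∀ s j, b (s, j) = (g ^ (j : ℕ)) (v s)) (g' : Module.End O W) (w : Fin r → W)
    (hw : ∀ s, (∑ j ∈ Finset.range p, g' ^ j) (w s) = 0) :
    ∃ f : U →ₗ[O] W, (∀ s, f (v s) = w s) ∧ (∀ u, f (g u) = g' (f u)) ∧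
      ∀ u, (∑ j ∈ Finset.range p, g' ^ j) (f u) = 0 := by
  obtain ⟨f, f1, f2⟩ := rlz_lift hp g hg b v hb g' w hw
  refine ⟨f, f1, f2, fun u => ?_⟩
  rw [LinearMap.sum_apply]
  simp only [← rlz_comm f2]
  rw [← map_sum, ← LinearMap.sum_apply, hg, LinearMap.zero_apply, map_zero]

theorem rlz_gen (hW : Wt p O) (S : Submodule O U) : ∃ (r : ℕ) (v : Fin r → U),
    (∀ u, ∃ c : Fin r → O, u - ∑ s, c s • v s ∈ S) ∧
      ∀ c : Fin r → O, ∑ s, c s • v s ∈ S → ∀ s, (p : O) ∣ c s := by
  let k := IsLocalRing.ResidueField O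
  let b := Module.finBasis k (TensorProduct O k (U ⧸ S))
  choose v hv using fun s => ((TensorProduct.mk_surjective O (U ⧸ S) k
    IsLocalRing.residue_surjective).comp S.mkQ_surjective) (b s)
  have hv' (s) : (1 : k) ⊗ₜ[O] S.mkQ (v s) = b s := hv s
  refine ⟨_, v, fun u => ?_, fun c h s => ?_⟩
  · have : S.mkQ u ∈ Submodule.span O (Set.range fun s => S.mkQ (v s)) := by
      rw [IsLocalRing.span_eq_top_of_tmul_eq_basis _ b hv']; trivial
    obtain ⟨c, hc⟩ := (Submodule.mem_span_range_iff_exists_fun O).1 this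
    refine ⟨c, (Submodule.Quotient.eq S).1 ?_⟩
    rw [← S.mkQ_apply, ← S.mkQ_apply, ← hc, map_sum]
    simp only [map_smul]
  · have z : ∑ s, algebraMap O k (c s) • b s = 0 := by
      have := congrArg (TensorProduct.mk O k (U ⧸ S) 1) ((Submodule.Quotient.mk_eq_zero S).2 h)
      rw [← S.mkQ_apply, map_sum, map_sum, map_zero] at this
      simpa only [map_smul, TensorProduct.mk_apply, hv', algebraMap_smul] using this
    have := Fintype.linearIndependent_iff.1 b.linearIndependent _ z s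
    by_contra n
    exact ((hW.unit_iff _).2 n).map (algebraMap O k) |>.ne_zero this

theorem Wt.zeta (hW : Wt p O) (g : Module.End O U) (hg : ∑ j ∈ Finset.range p, g ^ j = 0) :
    ∃ (r : ℕ) (b : Module.Basis (Fin r × Fin (p - 1)) O U) (v : Fin r → U),
      ∀ s j, b (s, j) = (g ^ (j : ℕ)) (v s) := by
  have hp := hW.prime
  have p0 : (p : O) ≠ 0 := hW.irr.ne_zero
  obtain ⟨r, v, h1, h2⟩ := rlz_gen hW (LinearMap.range (g - 1))
  obtain ⟨G, e, hG, he⟩ := rlz_model O hp r
  obtain ⟨f, f1, f2⟩ := rlz_lift hp G hG _ e he g v fun s => by rw [hg]; rfl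
  have f3 (u) : f ((G - 1) u) = (g - 1) (f u) := by
    rw [LinearMap.sub_apply, LinearMap.sub_apply, map_sub, f2]; rfl
  have fs (c : Fin r → O) : f (∑ s, c s • e s) = ∑ s, c s • v s := by
    simp only [map_sum, map_smul, f1]
  have inj (u : U) (h : (g - 1) u = 0) : u = 0 := by
    have k (j : ℕ) : (g ^ j) u = u := by
      induction j with
      | zero => rfl
      | succ j k => rw [pow_succ, Module.End.mul_apply, show g u = u from sub_eq_zero.1 h, k]
    have := LinearMap.congr_fun hg u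
    rw [LinearMap.sum_apply] at this
    simp only [k, Finset.sum_const, Finset.card_range, ← Nat.cast_smul_eq_nsmul O] at this
    exact (smul_eq_zero.1 this).resolve_left p0
  have sur : Surjective f := by
    have k (n : ℕ) (u : U) : ∃ a y, u = f a + ((g - 1) ^ n) y := by
      induction n with
      | zero => exact ⟨0, u, by simp⟩
      | succ n k =>
        obtain ⟨a, y, k⟩ := k
        obtain ⟨c, y', h⟩ := h1 y
        refine ⟨a + ((G - 1) ^ n) (∑ s, c s • e s), y', ?_⟩
        rw [map_add, rlz_comm f3, fs, pow_succ, Module.End.mul_apply, h, map_sub, k]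
        abel
    refine LinearMap.range_eq_top.1 (top_le_iff.1 (hW.nak _ _ fun u _ => ?_))
    obtain ⟨a, y, k⟩ := k p u
    obtain ⟨z, hz⟩ := rlz_nil hp hg y
    exact ⟨_, ⟨a, rfl⟩, z, trivial, hz ▸ k⟩
  have inj' : Injective f := by
    have k (n : ℕ) (a) (h : f a = 0) : ∃ y, f y = 0 ∧ a = ((G - 1) ^ n) y := by
      induction n with
      | zero => exact ⟨a, h, rfl⟩
      | succ n k =>
        obtain ⟨y, hy, k⟩ := k
        obtain ⟨c, y', h'⟩ := zeta_span G _ e he y
        obtain ⟨y'', h''⟩ := (zeta_ind hp G hG _ e he c).2 (h2 c ⟨-f y', by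
          rw [map_neg, ← f3, h', map_sub, hy, fs, zero_sub, neg_neg]⟩)
        have ey : (G - 1) (y' + y'') = y := by rw [map_add, h', h'', sub_add_cancel]
        exact ⟨y' + y'', inj _ (by rw [← f3, ey, hy]), by
          rw [pow_succ, Module.End.mul_apply, ey, k]⟩
    refine LinearMap.ker_eq_bot.1 (le_bot_iff.1 (hW.nak _ _ fun a ha => ?_))
    obtain ⟨y, -, k⟩ := k p a ha
    obtain ⟨z, hz⟩ := rlz_nil hp hG y
    refine ⟨0, zero_mem _, z, ?_, by rw [zero_add, k, hz]⟩
    have : (p : O) • f z = 0 := by rw [← map_smul, ← hz, ← k]; exact ha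
    exact (smul_eq_zero.1 this).resolve_left p0
  refine ⟨r, (Pi.basisFun O _).map (LinearEquiv.ofBijective f ⟨inj', sur⟩), v, fun s j => ?_⟩
  rw [Module.Basis.map_apply, LinearEquiv.ofBijective_apply, he, rlz_comm f2, f1]

end Pool.Agent.Lib.MP_1ae3da_al.CT.R5
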