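import Pool.Agent.Lib.MP_1ae3da_al.C.RCk
import Pool.Agent.Lib.MP_1ae3da_al.C.RCi
import Pool.Agent.Lib.MP_1ae3da_al.C.RCb
import Pool.Agent.Lib.MP_1ae3da_al.C.TH

/-! The Schur index of a vertex with one character is one. -/

namespace Pool.Agent.Lib.MP_1ae3da_al.CT

open Submodule

variable {p : ℕ} {F X : Type} [Field F] [CharZero F] [IsAlgClosed F] [Group X] [Finite X]
  [Fact p.Prime] {Q : Subgroup X} {e ψ b : MonoidAlgebra F X} {GG : Subgroup (RingAut F)}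
  {om : X → F} {T : MonoidAlgebra F X →ₗ[F] MonoidAlgebra F X}

omit [Fact p.Prime] in
theorem rs1_e0 (hψ : ψ ∈ Psi F Q) (hb : b ∈ span F (HX F (NQ Q))) :
    Chv F (HX F (NQ Q)) ψ (b * e0 F Q) = Chv F (HX F (NQ Q)) ψ b := by
  have hN : Nice F (HX F (NQ Q)) := nice_Hm0 gu_tg _
  rw [← chv_mul_e hN hψ.1 (span_mul gu_tg hb e0_cen.1), mul_assoc,
    ← Cen_comm hψ.1.1 e0_cen.1, hψ.2, chv_mul_e hN hψ.1 hb]

theorem schur_one (hQ : Nat.card Q = p) (h2 : ¬ p ^ 2 ∣ Nat.card X) (hO : Om GG Q om T)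
    (he : e ∈ Irr F (HX F (⊤ : Subgroup X))) (hψ : ψ ∈ Psi F Q) {s : ℕ} {i : Bool}
    (hv : ∀ k ∈ Kp p Q, ∀ q ∈ Q, q ≠ 1 → (s : F) * Chv F (HX F ⊤) e (gu F X (k * q)) =
      (if i then -1 else 1) * Chv F (HX F (NQ Q)) ψ (gu F X k)) : s = 1 := by
  have hT : Nice F (HX F (⊤ : Subgroup X)) := nice_Hm0 gu_tg _
  have hN : Nice F (HX F (NQ Q)) := nice_Hm0 gu_tg _
  have hKN : Kp p Q ≤ NQ Q := (kp_le Q).trans (Subgroup.centralizer_le_normalizer _)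
  have top : ∀ a : MonoidAlgebra F X, a ∈ span F (HX F (⊤ : Subgroup X)) := fun a =>
    gu_span.ge trivial
  obtain ⟨θ, hθ, h0⟩ := exists_under (L := Kp p Q) gu_tg (Nat.cast_ne_zero.2 Nat.card_pos.ne')
    hψ.1.1.1 hψ.1.2.2.1
  obtain ⟨j, hj⟩ := exists_Prim (nice_Hm0 gu_tg _) hθ
  obtain ⟨ε, hε, hne⟩ := irrQ_ne (F := F) hQ
  have h1 := (chv_psi hQ h2 hO hθ hj hψ).1 h0
  obtain ⟨l, hl⟩ := Chv_lin (F := F) (HX F (⊤ : Subgroup X)) e
  obtain ⟨l', hl'⟩ := Chv_lin (F := F) (HX F (NQ Q)) ψ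
  have h3 : (s : F) • l (j * (e0 F Q - ε)) =
      (if i then -1 else 1 : F) • l' (j * (e0 F Q - ε)) := by
    refine LinearMap.eqOn_span' (f := (s : F) • l) (g := (if i then -1 else 1 : F) • l') ?_
      (sing_mem hQ hε hj.1)
    rintro _ ⟨k, hk, q, hq, hq1, rfl⟩
    have m : ∀ x ∈ NQ Q, gu F X x ∈ span F (HX F (NQ Q)) := fun x hx =>
      subset_span (aga_mem.2 hx)
    simp only [LinearMap.smul_apply, smul_eq_mul, hl, hl']
    rw [hv k hk q hq hq1, ← rs1_e0 hψ (m _ (mul_mem (hKN hk) (Subgroup.le_normalizer hq))),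
      ← gu_mul, mul_assoc (gu F X k), (gu_e0 hq).1, rs1_e0 hψ (m _ (hKN hk))]
  have jN := span_Hm_mono hKN hj.1
  have εN : ε ∈ span F (HX F (NQ Q)) := span_Hm_mono Subgroup.le_normalizer hε.1.1
  have h4 : l' (j * ε) = 0 := by
    rw [hl', ← rs1_e0 hψ (span_mul gu_tg jN εN), mul_assoc, Irr_orth hε e0_irr hne, mul_zero,
      ← hl', map_zero]
  have idem : ∀ x ∈ Irr F (HX F Q), ∃ n : ℕ, l (j * x) = n := fun x hx => by
    obtain ⟨n, hn, -⟩ := chv_idem hT he (top (j * x)) (by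
      rw [mul_assoc, ← mul_assoc x, irrQ_comm hx.1.1 (rci_kc hj.1), mul_assoc, hx.2.1,
        ← mul_assoc, hj.2.2.1])
    exact ⟨n, (hl _).trans hn⟩
  obtain ⟨n0, k0⟩ := idem _ e0_irr
  obtain ⟨n1, k1⟩ := idem _ hε
  rw [mul_sub, map_sub, map_sub, k0, k1, h4, hl', rs1_e0 hψ jN, h1, sub_zero, smul_eq_mul,
    smul_eq_mul, mul_one] at h3
  have h5 : (s : ℤ) * ((n0 : ℤ) - n1) = if i then -1 else 1 := by
    apply Int.cast_injective (α := F)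
    push_cast
    exact h3
  have h6 : (s : ℤ) ∣ 1 := by
    cases i
    · exact ⟨_, h5.symm⟩
    · exact Int.dvd_neg.1 ⟨_, h5.symm⟩
  exact Nat.dvd_one.1 (Int.natCast_dvd_natCast.1 h6)

end Pool.Agent.Lib.MP_1ae3da_al.CT
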