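import Pool.Agent.Lib.MP_1ae3da_al.C.RLI
import Pool.Agent.Lib.MP_1ae3da_al.C.RLLa
import Pool.Agent.Lib.MP_1ae3da_al.C.RLLb
import Pool.Agent.Lib.MP_1ae3da_al.C.RS1

/-! The link at a vertex with one character, and the types of all vertices. -/

namespace Pool.Agent.Lib.MP_1ae3da_al.CT.R5

open Function Submodule

variable {F k X : Type} [Field F] [Field k] [Group X] [Finite X] {p : ℕ} {O R : Subring F}
  {r : F → k} {GG : Subgroup (RingAut F)} {Q : Subgroup X} {om : X → F}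
  {T : MonoidAlgebra F X →ₗ[F] MonoidAlgebra F X} {e ψ : MonoidAlgebra F X} {i : Bool}

theorem rln_ln (h : PM p O R r GG) (hX : commutator X = ⊤) (hQ : Nat.card Q = p)
    (h2 : ¬ p ^ 2 ∣ Nat.card X) (hO : Om GG Q om T) (ht : Ty p O Q {e} ψ i)
    (he : e ∈ IrrP F p (HX F (⊤ : Subgroup X))) :
    ∃ U, Link F (Gm GG Q ⊓ Fx e ⊓ Fx ψ) (HX F ⊤) (HX F (NQ Q)) e ψ U := by
  have := h.charF
  have := h.algF
  have := h.dvr
  have : Fact p.Prime := ⟨h.prime⟩
  have hW := wt_of_pm h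
  have hS := syl_of h.prime hQ h2
  have hψ := (ty_dom h hS ht).2
  obtain ⟨V, M, Φ, t, h3, h4, h5⟩ := ht
  have hM : M.Sca := hW.loc_sca hS.sub t.triv t.mirr
  have rg : (Nz Q).subtype.range = Nz Q := Subgroup.range_subtype _
  have c1 := (idem_irr (Nz Q).subtype_injective rg hM t.mirr.1 h3.1.1 h4).2
  obtain ⟨s, -, hs⟩ := sup_ch h t.irr
  simp only [← h5, finsum_mem_singleton] at hs
  have s1 : s = 1 := schur_one hQ h2 hO he.1 hψ (i := i) fun x hx q hq hq1 => by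
    have hx' := (mem_kp hQ h2).1 hx
    have v := hW.val hQ t.tie t.zero ⟨x, Subgroup.centralizer_le_normalizer _ hx'.1⟩
      (fun g hg => (Subgroup.mem_centralizer_iff.1 hx'.1 g hg).symm)
      (by rw [← Subgroup.orderOf_coe]; exact hx'.2) hq hq1
    rw [← hs, v]
    refine Eq.trans ?_ (congrArg _ (c1 ⟨x, Subgroup.centralizer_le_normalizer _ hx'.1⟩).symm)
    cases i <;> simp [sg]
  simp only [s1, Nat.cast_one, one_mul] at hs
  obtain ⟨a1, a2, a3⟩ := irr_idem he.1 hs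
  have rg' : (MonoidHom.id X).range = ⊤ := MonoidHom.range_eq_top.2 surjective_id
  obtain ⟨b, ρ, m⟩ := exists_MR (F := F) (ι := MonoidHom.id X) injective_id rg' V
  obtain ⟨b', ρ', m'⟩ := exists_MR (F := F) (Nz Q).subtype_injective rg M
  have mm := (m.mm a1 a2 he.1.1.1 a3).2
  have L : LC p Q e ψ V M i Φ b b' ρ ρ' := ⟨t, a1, fun d => he.2 (by
    rw [mm.dimsq (nice_Hm0 gu_tg _) he.1]; exact d.trans (dvd_pow_self _ two_ne_zero)), he.1, h3,
    h4, m, m', mm, (m'.mm hM t.mirr.1 h3.1.1 h4).2⟩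
  exact ⟨UL p GG Q e ψ V M Φ b b' ρ ρ', fun _ _ _ u => ul_int L u,
    fun _ hg hl => ul_tot hW hX hS h2 L hg hl, fun _ _ _ _ _ _ u u' => ul_mul h.prime L u u',
    fun _ _ _ _ hc u => ul_smul u hc, fun _ _ _ _ u u' => ul_fn hW hS L u u',
    fun _ hg hl _ hm hx => ul_loc h.prime hX hS L hg hl hm hx,
    fun _ hγ _ _ _ u => ul_nat h hX hS h2 L hγ u⟩

theorem rln_ty (h : PM p O R r GG) (hX : commutator X = ⊤) (hQ : Nat.card Q = p)
    (h2 : ¬ p ^ 2 ∣ Nat.card X) :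
    ∃ (om : X → F) (T : MonoidAlgebra F X →ₗ[F] MonoidAlgebra F X)
      (Ty : Set (MonoidAlgebra F X) → MonoidAlgebra F X → Bool → Prop),
      Om GG Q om T ∧ TyS O GG p Q T Ty := by
  have := h.charF
  have := h.algF
  have := h.dvr
  have hW := wt_of_pm h
  have hS := syl_of h.prime hQ h2
  obtain ⟨ω, hω⟩ := exists_om hW hQ
  obtain ⟨om, T, hO, h3, h4⟩ := exists_Om h hQ hω
  exact ⟨om, T, Ty p O Q, hO, fun _ _ _ t => ty_dom h hS t, fun _ _ _ t => ty_val h hS h2 t,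
    fun _ he => ty_tot h hS h2 he, fun _ _ _ _ t t' => ty_uniq hW hS t t',
    fun _ _ t => ty_w1 hW hS t, fun _ _ t => ty_w2 hW hS hω h3 h4 t,
    fun _ hγ _ _ _ t => ty_eqv h hX hS h2 hγ t, fun _ _ _ t he _ => rln_ln h hX hQ h2 hO t he⟩

end Pool.Agent.Lib.MP_1ae3da_al.CT.R5
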