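import Pool.Agent.Lib.MP_1ae3da_al.C.RLSub
import Pool.Agent.Lib.MP_1ae3da_al.C.RLNorm
import Pool.Agent.Lib.MP_1ae3da_al.C.RCb

set_option linter.unusedSectionVars false

/-! The matrix representation of the group algebra over the big field attached to a lattice. -/

namespace Pool.Agent.Lib.MP_1ae3da_al.CT.R5

open Function Submodule

variable {F X Y : Type} [Field F] [CharZero F] [IsAlgClosed F] [Group X] [Finite X] [Group Y]
  [Finite Y] {O : Subring F}

/-- the matrix over `F` of an endomorphism of a lattice. -/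
noncomputable def rspM (V : Lat O Y) : Module.End O V.V →+* Matrix (Fin V.rk) (Fin V.rk) F :=
  (O.subtype.mapMatrix).comp (LinearMap.toMatrixAlgEquiv (Module.finBasis O V.V)).toRingHom

theorem rspM_inj (V : Lat O Y) : Injective (rspM V) := fun _ _ h =>
  (LinearMap.toMatrixAlgEquiv (Module.finBasis O V.V)).injective
    (Matrix.map_injective O.subtype_injective h)

theorem rspM_mem (V : Lat O Y) (w : Module.End O V.V) (i j) : rspM V w i j ∈ O :=
  (LinearMap.toMatrixAlgEquiv (Module.finBasis O V.V) w i j).2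

theorem rspM_smul (V : Lat O Y) (c : O) (w : Module.End O V.V) :
    rspM V (c • w) = (c : F) • rspM V w := by
  ext i j
  simp [rspM]

theorem rspM_trace (V : Lat O Y) (w : Module.End O V.V) :
    (rspM V w).trace = (LinearMap.trace O V.V w : O) := by
  rw [LinearMap.trace_eq_matrix_trace O (Module.finBasis O V.V)]
  exact (AddMonoidHom.map_trace O.subtype _).symm

theorem rspM_det (V : Lat O Y) (w : Module.End O V.V) :
    (rspM V w).det = (LinearMap.det w : O) := by
  rw [← LinearMap.det_toMatrix (Module.finBasis O V.V)]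
  exact (O.subtype.map_det _).symm

theorem rspM_surj (V : Lat O Y) (m : Matrix (Fin V.rk) (Fin V.rk) F) (h : ∀ i j, m i j ∈ O) :
    ∃ w, rspM V w = m :=
  ⟨(LinearMap.toMatrixAlgEquiv (Module.finBasis O V.V)).symm (Matrix.of fun i j => ⟨m i j, h i j⟩),
    by ext i j; simp [rspM]⟩

/-- the action of the group algebra over `F` on the lattice, in matrices. -/
noncomputable def rspR (V : Lat O Y) (ι : Y →* X) :
    MonoidAlgebra F X →ₗ[F] Matrix (Fin V.rk) (Fin V.rk) F where
  toFun a := ∑ᶠ y : Y, a.coeff (ι y) • rspM V (V.ρ y)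
  map_add' a b := by
    have := Fintype.ofFinite Y
    simp only [finsum_eq_sum_of_fintype, MonoidAlgebra.coeff_add, Finsupp.add_apply, add_smul,
      Finset.sum_add_distrib]
  map_smul' c a := by
    have := Fintype.ofFinite Y
    simp only [finsum_eq_sum_of_fintype, MonoidAlgebra.coeff_smul_apply, smul_eq_mul, mul_smul,
      Finset.smul_sum, RingHom.id_apply]

theorem rspR_apply [Fintype Y] (V : Lat O Y) (ι : Y →* X) (a : MonoidAlgebra F X) :
    rspR V ι a = ∑ y : Y, a.coeff (ι y) • rspM V (V.ρ y) := finsum_eq_sum_of_fintype _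

theorem rspR_gu (V : Lat O Y) {ι : Y →* X} (hι : Injective ι) (y : Y) :
    rspR V ι (gu F X (ι y)) = rspM V (V.ρ y) := by
  have := Fintype.ofFinite Y
  rw [rspR_apply, Finset.sum_eq_single y]
  · simp [gu]
  · intro z _ hz
    have : ι y ≠ ι z := fun h => hz (hι h).symm
    simp [gu, Finsupp.single_eq_of_ne' this]
  · simp

theorem rspR_trace (V : Lat O Y) (ι : Y →* X) (a : MonoidAlgebra F X) :
    (rspR V ι a).trace = V.chF F (cf ι a) := by
  have := Fintype.ofFinite Y
  rw [rspR_apply, Lat.chF, finsum_eq_sum_of_fintype, Matrix.trace_sum]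
  exact Finset.sum_congr rfl fun y _ => by rw [Matrix.trace_smul, rspM_trace]; rfl

theorem rspR_mul (V : Lat O Y) {ι : Y →* X} (hι : Injective ι) {H : Subgroup X}
    (hH : ι.range = H) : ∀ a ∈ span F (HX F H), ∀ b ∈ span F (HX F H),
      rspR V ι (a * b) = rspR V ι a * rspR V ι b := by
  subst hH
  intro a ha b hb
  induction ha using span_induction with
  | mem a m =>
    obtain ⟨c, -, _, ⟨x, rfl⟩, rfl⟩ := m
    induction hb using span_induction with
    | mem b m =>
      obtain ⟨d, -, _, ⟨y, rfl⟩, rfl⟩ := m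
      rw [smul_mul_smul_comm, gu_mul, ← map_mul, map_smul, map_smul, map_smul, rspR_gu V hι,
        rspR_gu V hι, rspR_gu V hι, map_mul, map_mul, smul_mul_smul_comm]
    | zero => simp
    | add a b _ _ p q => rw [mul_add, map_add, map_add, p, q, mul_add]
    | smul c a _ p => rw [mul_smul_comm, map_smul, map_smul _ c a, p, mul_smul_comm]
  | zero => simp
  | add a b _ _ p q => rw [add_mul, map_add, map_add, p, q, add_mul]
  | smul c a _ p => rw [smul_mul_assoc, map_smul, map_smul, p, smul_mul_assoc]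

theorem rspR_one (V : Lat O Y) {ι : Y →* X} (hι : Injective ι) : rspR V ι 1 = 1 := by
  have := rspR_gu V hι 1
  rwa [map_one, map_one, map_one, gu_one] at this

theorem rsp_nice (H : Subgroup X) : Nice F (HX F H) := nice_Hm0 gu_tg H

/-- the coefficient of the identity. -/
noncomputable def rspT (F X : Type) [Field F] [Group X] : MonoidAlgebra F X →ₗ[F] F where
  toFun a := a.coeff 1
  map_add' _ _ := rfl
  map_smul' _ _ := rfl

theorem rspT_apply (a : MonoidAlgebra F X) : rspT F X a = a.coeff 1 := rfl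

theorem rspT_tf : Tf F (gu F X) (rspT F X) :=
  ⟨by simp [rspT_apply, gu], fun x hx => by simp [rspT_apply, gu, Finsupp.single_eq_of_ne' hx]⟩

theorem rspT_mul (x : X) (a : MonoidAlgebra F X) : rspT F X (gu F X x⁻¹ * a) = a.coeff x := by
  simp [rspT_apply, gu]

theorem rsp_ext {ι : Y →* X} {H : Subgroup X} (hH : ι.range = H) {a b : MonoidAlgebra F X}
    (ha : a ∈ span F (HX F H)) (hb : b ∈ span F (HX F H)) (h : cf ι a = cf ι b) : a = b := by
  rw [← sub_eq_zero]
  refine Tf.nondeg gu_tg rspT_tf (sub_mem ha hb) fun x hx => ?_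
  obtain ⟨y, rfl⟩ : x ∈ ι.range := hH ▸ hx
  rw [Tf.comm gu_tg rspT_tf (gu_span.ge trivial) (gu_span.ge trivial), mul_sub, map_sub,
    ← inv_inv (ι y), rspT_mul, rspT_mul, ← map_inv]
  exact sub_eq_zero.2 (congrFun h y⁻¹)

section
variable [IsDiscreteValuationRing O]

theorem rsp_pos {V : Lat O Y} (h : Nontrivial V.V) : 0 < V.rk := Module.finrank_pos

/-- an absolutely irreducible lattice is the matrix model of a block. -/
theorem rsp_model {M : Lat O Y} (hs : M.Sca) (hn : Nontrivial M.V) {ι : Y →* X}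
    (hι : Injective ι) {H : Subgroup X} (hH : ι.range = H) :
    ∃ e ∈ Irr F (HX F H), MM F (HX F H) e (rspR M ι) ∧ M.Idem F (cf ι e) := by
  have := Fintype.ofFinite Y
  have hY : (Nat.card Y : F) ≠ 0 := Nat.cast_ne_zero.2 Nat.card_pos.ne'
  have hg : ∀ y, gu F X (ι y) ∈ span F (HX F H) := fun y =>
    subset_span (aga_mem.2 (hH ▸ ⟨y, rfl⟩))
  have h1 : ∀ w, rspM M w ∈ (span F (HX F H)).map (rspR M ι) := fun w => by
    have h2 := congrArg (rspM M) (hs.fi w)
    rw [rspM_smul, rspM_smul, finsum_eq_sum_of_fintype, map_sum] at h2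
    have h3 : ((Nat.card Y : O) : F) = Nat.card Y := by simp
    rw [h3] at h2
    rw [← smul_mem_iff _ hY, ← h2]
    refine smul_mem _ _ (sum_mem fun y _ => ?_)
    rw [rspM_smul]
    exact smul_mem _ _ ⟨_, hg y, rspR_gu M hι y⟩
  obtain ⟨e, he, hm⟩ := MM.of_surj (ρ := rspR M ι) (rsp_nice H) (rspR_mul M hι hH) (fun m => by
    have h2 : m ∈ (span F (HX F H)).map (rspR M ι) := by
      rw [Matrix.matrix_eq_sum_single m]
      refine sum_mem fun i _ => sum_mem fun j _ => ?_
      obtain ⟨w, hw⟩ := rspM_surj M (Matrix.single i j 1) fun a b => by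
        rw [Matrix.single_apply]; split_ifs <;> simp [O.one_mem, O.zero_mem]
      have h3 : Matrix.single i j (m i j) = m i j • rspM M w := by rw [hw]; simp
      rw [h3]
      exact smul_mem _ _ (h1 w)
    exact h2) (rsp_pos hn)
  refine ⟨e, he, hm, fun y => ?_⟩
  have hc : Nat.card H = Nat.card Y := by
    rw [← hH]; exact (Nat.card_congr (MonoidHom.ofInjective hι).toEquiv).symm
  have h2 := hm.t_eq gu_tg rspT_tf (by rwa [hc]) he (hg y⁻¹)
  rw [rspR_gu M hι, rspM_trace, map_inv, rspT_mul, hc] at h2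
  exact h2

theorem rsp_mm {M : Lat O Y} (hs : M.Sca) (hn : Nontrivial M.V) {ι : Y →* X}
    (hι : Injective ι) {H : Subgroup X} (hH : ι.range = H) {e : MonoidAlgebra F X}
    (he : e ∈ span F (HX F H)) (hi : M.Idem F (cf ι e)) :
    e ∈ Irr F (HX F H) ∧ MM F (HX F H) e (rspR M ι) := by
  obtain ⟨e', h1, h2, h3⟩ := rsp_model hs hn hι hH
  have hY : (Nat.card Y : F) ≠ 0 := Nat.cast_ne_zero.2 Nat.card_pos.ne'
  obtain rfl : e = e' :=
    rsp_ext hH he h1.1.1 (funext fun y => mul_left_cancel₀ hY ((hi y).trans (h3 y).symm))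
  exact ⟨h1, h2⟩

theorem rsp_chv {M : Lat O Y} (hs : M.Sca) (hn : Nontrivial M.V) {ι : Y →* X}
    (hι : Injective ι) {H : Subgroup X} (hH : ι.range = H) {e : MonoidAlgebra F X}
    (he : e ∈ span F (HX F H)) (hi : M.Idem F (cf ι e)) (y : Y) :
    Chv F (HX F H) e (gu F X (ι y)) = (M.ch y : O) := by
  obtain ⟨h1, h2⟩ := rsp_mm hs hn hι hH he hi
  rw [Chv_eq (rsp_nice H) h1 h2 (subset_span (aga_mem.2 (hH ▸ ⟨y, rfl⟩))), rspR_gu M hι,
    rspM_trace]
  rfl

end

end Pool.Agent.Lib.MP_1ae3da_al.CT.R5
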