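import Pool.Agent.Lib.MP_1ae3da_al.C.RLI
import Pool.Agent.Lib.MP_1ae3da_al.C.RLLa
import Pool.Agent.Lib.MP_1ae3da_al.C.RLLb
import Pool.Agent.Lib.MP_1ae3da_al.C.RCe
import Pool.Agent.Lib.MP_1ae3da_al.C.RCk

set_option autoImplicit false
set_option linter.unusedSectionVars false

/-! The lattice side of the case of a Sylow subgroup of prime order: the end theorem. -/

namespace Pool.Agent.Lib.MP_1ae3da_al.CT

open Function Submodule CT.R5

variable {F k X : Type} [Field F] [Field k] [Group X] [Finite X] {p : ℕ} {O R : Subring F}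
  {r : F → k} {GG : Subgroup (RingAut F)} {Q : Subgroup X}

/-- the multiplicity is one. -/
theorem rty_s [CharZero F] [IsAlgClosed F] [Fact p.Prime] (hQ : Nat.card Q = p)
    (h2 : ¬ p ^ 2 ∣ Nat.card X) {om : X → F} {T : MonoidAlgebra F X →ₗ[F] MonoidAlgebra F X}
    (hO : Om GG Q om T) {e ψ : MonoidAlgebra F X} (he : e ∈ Irr F (HX F (⊤ : Subgroup X)))
    (hψ : ψ ∈ Psi F Q) {s : ℕ} {z : ℤ} (hz : IsUnit z)
    (hv : ∀ k ∈ Kp p Q, ∀ q ∈ Q, q ≠ 1 → (s : F) * Chv F (HX F ⊤) e (gu F X (k * q)) =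
      z * Chv F (HX F (NQ Q)) ψ (gu F X k)) : s = 1 := by
  obtain ⟨θ, hθ, h1, -⟩ := bk_refl (p := p) (Q := Q) hψ.1.2.2.1
  obtain ⟨i, hi⟩ := exists_Prim (rce_nice _) hθ
  obtain ⟨ε, hε, hne⟩ := irrQ_ne (F := F) hQ
  obtain ⟨l, hl⟩ := Chv_lin (F := F) (HX F (⊤ : Subgroup X)) e
  obtain ⟨l', hl'⟩ := Chv_lin (F := F) (HX F (NQ Q)) ψ
  have hKN : ∀ {a}, a ∈ span F (HX F (Kp p Q)) → a ∈ span F (HX F (NQ Q)) :=
    fun ha => span_Hm_mono rcc_KN ha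
  have hQN : ∀ {a}, a ∈ span F (HX F Q) → a ∈ span F (HX F (NQ Q)) :=
    fun ha => span_Hm_mono Subgroup.le_normalizer ha
  have hc : ∀ {a}, a ∈ span F (HX F (NQ Q)) → l' (a * ψ) = l' a := fun ha => by
    rw [hl', hl', chv_mul_e (rce_nice _) hψ.1 ha]
  have h3 : Sing F p Q ≤ LinearMap.ker ((s : F) • l - (z : F) • l') := by
    refine span_le.2 ?_
    rintro _ ⟨k, hk, q, hq, hq1, rfl⟩
    have h4 : l' (gu F X (k * q)) = l' (gu F X k) := by
      rw [← hc (rce_gu (mul_mem (rcc_KN hk) (Subgroup.le_normalizer hq))), ← gu_mul, mul_assoc,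
        psi_gu hψ hq, hc (rce_gu (rcc_KN hk))]
    simp only [SetLike.mem_coe, LinearMap.mem_ker, LinearMap.sub_apply, LinearMap.smul_apply,
      smul_eq_mul, h4]
    rw [hl, hl', hv k hk q hq hq1, sub_self]
  have h5 := h3 (sing_mem hQ hε hi.1)
  have h6 : e0 F Q * ψ = ψ := by rw [← Cen_comm hψ.1.1 e0_cen.1, hψ.2]
  have h7 : ε * ψ = 0 := by rw [← h6, ← mul_assoc, Irr_orth hε e0_irr hne, zero_mul]
  have h8 : l' (i * (e0 F Q - ε)) = 1 := by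
    rw [← hc (gu_span_mul _ _ (hKN hi.1) _ (hQN (sub_mem e0_irr.1.1 hε.1.1))), mul_assoc, sub_mul,
      h6, h7, sub_zero, hc (hKN hi.1), hl', (chv_psi hQ h2 hO hθ hi hψ).1 h1]
  obtain ⟨n, hn⟩ := rce_nat he hi e0_irr
  obtain ⟨m, hm⟩ := rce_nat he hi hε
  simp only [LinearMap.mem_ker, LinearMap.sub_apply, LinearMap.smul_apply, smul_eq_mul, h8] at h5
  rw [mul_sub, map_sub, hl, hl, hn, hm, mul_one, sub_eq_zero] at h5
  have h9 : (s : ℤ) * (n - m) = z := by exact_mod_cast h5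
  have h10 : IsUnit (s : ℤ) := isUnit_of_mul_isUnit_left (h9 ▸ hz)
  rcases Int.isUnit_iff.1 h10 with h | h <;> omega

theorem rty_ln [CharZero F] [IsAlgClosed F] [IsDiscreteValuationRing O] (h : PM p O R r GG)
    (hX : commutator X = ⊤) (hQ : Syl p Q) (h2 : ¬ p ^ 2 ∣ Nat.card X) {om : X → F}
    {T : MonoidAlgebra F X →ₗ[F] MonoidAlgebra F X} (hO : Om GG Q om T)
    {e ψ : MonoidAlgebra F X} {i : Bool} (ht : Ty p O Q {e} ψ i)
    (he : e ∈ IrrP F p (HX F (⊤ : Subgroup X))) :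
    ∃ U, Link F (Gm GG Q ⊓ Fx e ⊓ Fx ψ) (HX F ⊤) (HX F (NQ Q)) e ψ U := by
  have hW := wt_of_pm h
  have := Fact.mk h.prime
  have hP := (ty_dom h hQ ht).2
  obtain ⟨V, M, Φ, hT, hψ, hi, hs⟩ := ht
  have hN : (Q.subgroupOf (Nz Q)).Normal := Subgroup.normal_in_normalizer
  have hSM : M.Sca := hW.loc_sca hQ.sub hT.triv hT.mirr
  have hc := (idem_irr (Nz Q).subtype_injective (Subgroup.range_subtype _) hSM hT.mirr.1
    hψ.1.1 hi).2
  obtain ⟨s, -, hch⟩ := sup_ch h hT.irr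
  simp only [← hs, finsum_mem_singleton] at hch
  have hs1 : s = 1 := by
    refine rty_s hQ.card h2 hO he.1 hP (z := sg ℤ i) (by cases i <;> simp [sg])
      fun k hk q hq hq1 => ?_
    have hk' := (mem_kp hQ.card h2).1 hk
    have h1 := hW.val hQ.card hT.tie hT.zero ⟨k, rcc_KN hk⟩
      (fun g hg => (kp_comm hg hk).symm) (by rw [← Subgroup.orderOf_coe]; exact hk'.2) hq hq1
    have h3 := hc ⟨k, rcc_KN hk⟩
    simp only [Subgroup.subtype_apply] at h3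
    rw [← hch, h3, h1]
    cases i <;> simp [sg]
  simp only [hs1, Nat.cast_one, one_mul] at hch
  obtain ⟨hS, hn, hI⟩ := irr_idem he.1 hch
  obtain ⟨b, ρ, hm⟩ := exists_MR (F := F) (ι := MonoidHom.id X) (H := ⊤) injective_id
    (MonoidHom.range_eq_top.2 surjective_id) V
  obtain ⟨b', ρ', hm'⟩ := exists_MR (F := F) (Nz Q).subtype_injective
    (Subgroup.range_subtype _) M
  have hM := (hm.mm hS hn he.1.1.1 hI).2
  have hM' := (hm'.mm hSM hT.mirr.1 hψ.1.1 hi).2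
  have hk : ¬ p ∣ V.rk := fun hd => he.2 (by
    rw [hM.Dg_eq (gu_tg.mcl _) he.1.1.1]
    exact hd.trans (dvd_pow_self _ two_ne_zero))
  have hL : LC p Q e ψ V M i Φ b b' ρ ρ' := ⟨hT, hS, hk, he.1, hψ, hi, hm, hm', hM, hM'⟩
  exact ⟨UL p GG Q e ψ V M Φ b b' ρ ρ',
    fun _ _ _ hU => ul_int hL hU,
    fun _ ha hl => ul_tot hW hX hQ h2 hL ha hl,
    fun _ _ _ _ _ _ hU hU' => ul_mul hW.prime hL hU hU',
    fun _ _ _ _ hc hU => ul_smul hU hc,
    fun _ _ _ _ hU hU' => ul_fn hW hQ hL hU hU',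
    fun _ ha hl _ hm hx => ul_loc hW.prime hX hQ hL ha hl hm hx,
    fun _ hγ _ _ _ hU => ul_nat h hX hQ h2 hL hγ hU⟩

theorem r5_ty (h : PM p O R r GG) (X : Type) [Group X] [Finite X] (hX : commutator X = ⊤)
    (Q : Subgroup X) (hQ : Nat.card Q = p) (h2 : ¬ p ^ 2 ∣ Nat.card X) :
    ∃ om T Ty, Om GG Q om T ∧ TyS O GG p Q T Ty := by
  have := h.charF
  have := h.algF
  have := h.dvr
  have hW := wt_of_pm h
  have hS := syl_of h.prime hQ h2
  obtain ⟨ω, hω⟩ := exists_om hW hQ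
  obtain ⟨om, T, hO, h3, h4⟩ := exists_Om h hQ hω
  exact ⟨om, T, Ty p O Q, hO,
    fun _ _ _ ht => ty_dom h hS ht,
    fun _ _ _ ht => ty_val h hS h2 ht,
    fun _ he => ty_tot h hS h2 he,
    fun _ _ _ _ ht ht' => ty_uniq hW hS ht ht',
    fun _ _ ht => ty_w1 hW hS ht,
    fun _ _ ht => ty_w2 hW hS hω h3 h4 ht,
    fun _ hγ _ _ _ ht => ty_eqv h hX hS h2 hγ ht,
    fun _ _ _ ht he _ => rty_ln h hX hS h2 hO ht he⟩

end Pool.Agent.Lib.MP_1ae3da_al.CT
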