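import Pool.Agent.Lib.MP_1ae3da_al.C.RLShift
import Pool.Agent.Lib.MP_1ae3da_al.C.RLWt

set_option autoImplicit false
set_option linter.unusedSectionVars false

/-! Restriction of Galois automorphisms to the coefficient ring, and the twist. -/

namespace Pool.Agent.Lib.MP_1ae3da_al.CT.R5

open Function

variable {F k : Type} [Field F] [Field k] {O R : Subring F} {r : F → k}
  {GG : Subgroup (RingAut F)} {p : ℕ}

theorem rwt_res (h : PM p O R r GG) {σ : RingAut F} (hσ : σ ∈ GG) :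
    ∃ s : O ≃+* O, ∀ x : O, (s x : F) = σ x := by
  have k1 := (h.gal σ hσ).1
  refine ⟨{ toFun := fun x => ⟨σ x, (k1 x).2 x.2⟩
            invFun := fun x => ⟨σ.symm x, (k1 _).1 (by rw [σ.apply_symm_apply]; exact x.2)⟩
            left_inv := fun x => Subtype.ext (σ.symm_apply_apply x)
            right_inv := fun x => Subtype.ext (σ.apply_symm_apply x)
            map_mul' := fun x y => Subtype.ext (map_mul σ x.1 y.1)
            map_add' := fun x y => Subtype.ext (map_add σ x.1 y.1) }, fun _ => rfl⟩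

variable {X : Type} [Group X] [Finite X] {Q : Subgroup X}

/-- the diagonal operator with the given weights -/
noncomputable def rwtT (om : X → F) : MonoidAlgebra F X →ₗ[F] MonoidAlgebra F X :=
  (MonoidAlgebra.basis X F).constr F fun x => om x • gu F X x

theorem rwtT_gu (om : X → F) (x : X) : rwtT om (gu F X x) = om x • gu F X x := by
  have := (MonoidAlgebra.basis X F).constr_basis F (fun x => om x • gu F X x) x
  rwa [MonoidAlgebra.basis_apply] at this

theorem rwt_coeff {om : X → F} {T : MonoidAlgebra F X →ₗ[F] MonoidAlgebra F X}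
    (h : ∀ x, T (gu F X x) = om x • gu F X x) (a : MonoidAlgebra F X) (x : X) :
    (T a).coeff x = om x * a.coeff x := by
  classical
  induction a using MonoidAlgebra.induction_linear with
  | zero => simp
  | add a b ha hb => simp [ha, hb, mul_add]
  | single y c =>
    have e : MonoidAlgebra.single y c = c • gu F X y := by simp [gu]
    rw [e, map_smul, h]
    by_cases hy : y = x
    · subst hy
      simp [gu, mul_comm]
    · simp [gu, hy]

theorem rwt_om (h : PM p O R r GG) (hQ : Nat.card Q = p) {ω : Nz Q →* Oˣ} (hω : Omg p Q ω) :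
    ∃ om T, Om GG Q om T ∧ ∀ n : Nz Q, om n = ((((ω n)⁻¹ : Oˣ) : O) : F) := by
  classical
  have := h.dvr
  have := h.charF
  have hW := h.wt
  let om : X → F := fun x =>
    if hx : x ∈ Nz Q then ((((ω ⟨x, hx⟩)⁻¹ : Oˣ) : O) : F) else 1
  have e : ∀ x (hx : x ∈ Nz Q), om x = ((((ω ⟨x, hx⟩)⁻¹ : Oˣ) : O) : F) := fun x hx =>
    dif_pos hx
  refine ⟨om, rwtT om, ⟨fun x hx y hy => ?_, fun x hx => ?_, fun α hα x hx => ?_,
    fun σ hσ x hx => ?_, rwtT_gu om⟩, fun n => e n n.2⟩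
  · rw [e x hx, e y hy, e _ (mul_mem hx hy),
      show (⟨x * y, mul_mem hx hy⟩ : Nz Q) = ⟨x, hx⟩ * ⟨y, hy⟩ from rfl, map_mul, mul_inv]
    simp
  · rw [e x hx, Subgroup.mem_centralizer_iff]
    have k1 : ((((ω ⟨x, hx⟩)⁻¹ : Oˣ) : O) : F) = 1 ↔ ω ⟨x, hx⟩ = 1 := by
      rw [OneMemClass.coe_eq_one, Units.val_eq_one, inv_eq_one]
    rw [k1, hω.eq_one_iff hW hQ]
    exact ⟨fun k g hg => (k g hg).symm, fun k g hg => (k g hg).symm⟩
  · obtain ⟨b, hb⟩ := exists_res (Q := Q) α hα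
    have k1 : α x = (b ⟨x, hx⟩ : X) := (hb.coe ⟨x, hx⟩).symm
    rw [k1, e _ (b ⟨x, hx⟩).2, e x hx, ← hω.aut hW hQ hb ⟨x, hx⟩]
  · obtain ⟨s, hs⟩ := rwt_res h hσ
    rw [e x hx, ← hs, ← map_inv, hω.fix hW hQ s]

theorem rwt_idem {om : X → F} {T : MonoidAlgebra F X →ₗ[F] MonoidAlgebra F X}
    (hT : ∀ x, T (gu F X x) = om x • gu F X x) [IsDiscreteValuationRing O] [CharZero F]
    {ω : Nz Q →* Oˣ} (ho : ∀ n : Nz Q, om n = ((((ω n)⁻¹ : Oˣ) : O) : F)) {M : Lat O (Nz Q)}
    {e : MonoidAlgebra F X} (hM : M.Idem F (cf (Nz Q).subtype e)) :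
    (M.sc ω).Idem F (cf (Nz Q).subtype (T e)) := by
  intro x
  have k1 := hM x
  unfold cf at k1 ⊢
  rw [rwt_coeff hT, Lat.sc_ch, map_mul, map_inv, mul_left_comm, k1, Subgroup.coe_subtype, ho,
    mul_left_comm]
  rfl

end Pool.Agent.Lib.MP_1ae3da_al.CT.R5
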