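import Pool.Agent.Lib.MP_1ae3da_al.C.RYa

/-! The transfer of a map from a subgroup of prime order. -/

namespace Pool.Agent.Lib.MP_1ae3da_al.R5

open Module IsLocalRing Finset Subgroup

variable {X : Type*} [Group X] {p : ℕ}

/-- A sum over free orbits of an element of prime order. -/
theorem l1b_orb {Y M : Type*} [MulAction X Y] [AddCommMonoid M] (S : AddSubmonoid M) (pp : p.Prime)
    {g : X} (hg : g ^ p = 1) (φ : Y → M) (T : Finset Y) (st : ∀ y ∈ T, g • y ∈ T)
    (fr : ∀ y ∈ T, g • y ≠ y) (h : ∀ y ∈ T, ∑ i ∈ range p, φ (g ^ i • y) ∈ S) :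
    ∑ y ∈ T, φ y ∈ S := by
  classical
  have := Fact.mk pp
  induction T using Finset.strongInduction with | H T ih => ?_
  obtain rfl | ⟨y, hy⟩ := T.eq_empty_or_nonempty
  · exact S.zero_mem
  have sub : (range p).image (g ^ · • y) ⊆ T := image_subset_iff.2 fun i _ => by
    induction i with
    | zero => simpa using hy
    | succ i k => exact (pow_succ' g i).symm ▸ (mul_smul g _ y).symm ▸ st _ (k (by simp_all; omega))
  have mp : Function.minimalPeriod (g • ·) y = p := Function.minimalPeriod_eq_prime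
    (by rw [Function.IsPeriodicPt, Function.IsFixedPt, smul_iterate_apply, hg, one_smul]) (fr y hy)
  rw [← sum_sdiff sub, sum_image fun i a j b e => Function.iterate_injOn_Iio_minimalPeriod
    (f := (g • ·)) (x := y) (by simpa [mp] using a) (by simpa [mp] using b)
    (by simpa [smul_iterate_apply] using e)]
  refine S.add_mem (ih _ (sdiff_ssubset sub ⟨_, mem_image_of_mem _ (mem_range.2 pp.pos)⟩)
    (fun z m => mem_sdiff.2 ⟨st _ (mem_sdiff.1 m).1, fun c => (mem_sdiff.1 m).2 ?_⟩)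
    (fun z m => fr z (mem_sdiff.1 m).1) fun z m => h z (mem_sdiff.1 m).1) (h y hy)
  obtain ⟨i, -, e⟩ := mem_image.1 c
  refine mem_image.2 ⟨(p - 1 + i) % p, mem_range.2 (Nat.mod_lt _ pp.pos), ?_⟩
  rw [← pow_eq_pow_mod _ hg, pow_add, mul_smul, e, ← mul_smul, ← pow_succ,
    Nat.sub_add_cancel pp.pos, hg, one_smul]

variable {O V W : Type*} [CommRing O] [AddCommGroup V] [Module O V] [AddCommGroup W] [Module O W]
  (ρ : X →* End O V) (σ : X →* End O W)

/-- The conjugate of a linear map. -/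
def cj (x : X) (f : V →ₗ[O] W) : V →ₗ[O] W := σ x ∘ₗ f ∘ₗ ρ x⁻¹

theorem cj_apply (x : X) (f : V →ₗ[O] W) (v : V) : cj ρ σ x f v = σ x (f (ρ x⁻¹ v)) := rfl

theorem cj_mul (x y : X) (f : V →ₗ[O] W) : cj ρ σ (x * y) f = cj ρ σ x (cj ρ σ y f) :=
  LinearMap.ext fun v => by simp [cj_apply]

variable {ρ σ}

theorem cj_fix {x : X} {f : V →ₗ[O] W} : cj ρ σ x f = f ↔ ∀ v, f (ρ x v) = σ x (f v) :=
  ⟨fun h v => by rw [← h, cj_apply, ← End.mul_apply (ρ x⁻¹), ← map_mul, inv_mul_cancel, map_one, h]; rfl,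
    fun h => LinearMap.ext fun v => by
      rw [cj_apply, ← h, ← End.mul_apply, ← map_mul, mul_inv_cancel, map_one]; rfl⟩

theorem cj_zp {g x : X} {f : V →ₗ[O] W} (h : cj ρ σ g f = f) (m : x ∈ zpowers g) :
    cj ρ σ x f = f := by
  let S : Subgroup X :=
    { carrier := {x | cj ρ σ x f = f}
      mul_mem' := fun {a b} s t => (cj_mul ρ σ a b f).trans ((congrArg _ t).trans s)
      one_mem' := cj_fix.2 (by simp)
      inv_mem' := fun {a} s => ((congrArg (cj ρ σ a⁻¹) s).symm.trans (cj_mul ρ σ _ _ f).symm).trans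
        (cj_fix.2 (by simp)) }
  exact (zpowers_le (H := S)).2 h m

theorem l1b_unit [IsLocalRing O] (pp : p.Prime) (hp : (p : O) ∈ maximalIdeal O) {n : ℕ}
    (h : ¬ p ∣ n) : IsUnit (n : O) := by
  by_contra c
  obtain ⟨a, b, e⟩ := (Nat.isCoprime_iff_coprime.2 (pp.coprime_iff_not_dvd.2 h)).map
    (Int.castRingHom O)
  refine (maximalIdeal.isMaximal O).ne_top ((Ideal.eq_top_iff_one _).2 (e ▸ add_mem
    (Ideal.mul_mem_left _ _ (by simpa using hp)) (Ideal.mul_mem_left _ _ (by simpa using c))))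

variable (ρ σ)

theorem l1b_inv (pp : p.Prime) {g : X} (hg : g ^ p = 1) (v : V) :
    Nm p (ρ g) v = ∑ i ∈ range p, ρ (g ^ i)⁻¹ v := by
  have h : ρ g ^ p = 1 := by rw [← map_pow, hg, map_one]
  have f (i : ℕ) : ρ (g ^ i)⁻¹ (Nm p (ρ g) v) = Nm p (ρ g) v := by
    conv_lhs => rw [← l1_pow (sub_nm h v) i, ← map_pow, ← End.mul_apply, ← map_mul, inv_mul_cancel,
      map_one]
    rfl
  rw [← f (p - 1), Nm, LinearMap.sum_apply, map_sum, ← sum_range_reflect]
  refine sum_congr rfl fun i m => ?_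
  rw [← map_pow, ← End.mul_apply, ← map_mul]
  congr 2
  rw [inv_mul_eq_iff_eq_mul, eq_mul_inv_iff_mul_eq, ← pow_add, Nat.sub_add_cancel]
  have := mem_range.1 m
  omega

/-- The transfer acts on the Tate groups as the average over the normaliser. -/
theorem l1_tr [Finite X] [IsLocalRing O] (pp : p.Prime) (hp : (p : O) ∈ maximalIdeal O) {g : X}
    (hg : g ^ p = 1) (hi : ¬ p ∣ (zpowers g).index) (f : V →ₗ[O] W)
    (hf : ∀ v, f (ρ g v) = σ g (f v)) :
    ∃ (F : V →ₗ[O] W) (ι : Type) (_ : Fintype ι) (n : ι → X) (c : O),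
      (∀ x v, F (ρ x v) = σ x (F v)) ∧ (∀ i, n i ∈ normalizer (zpowers g : Set X)) ∧
      c * Fintype.card ι = 1 ∧
      (∀ v, ρ g v = v → ∃ w, F v = c • ∑ i, cj ρ σ (n i) f v + Nm p (σ g) w) ∧
      ∀ v, Nm p (ρ g) v = 0 → ∃ w, F v = c • ∑ i, cj ρ σ (n i) f v + (σ g w - w) := by
  classical
  have := Fintype.ofFinite (X ⧸ zpowers g)
  let φ (y : X ⧸ zpowers g) : V →ₗ[O] W := cj ρ σ y.out f
  have e (x : X) (y : X ⧸ zpowers g) : φ (x • y) = cj ρ σ x (φ y) := by
    obtain ⟨q, k⟩ := QuotientGroup.mk_out_eq_mul (zpowers g) (x * y.out)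
    have : (x • y).out = x * y.out * q := by rw [← k, ← MulAction.Quotient.mk_smul_out]; rfl
    simp only [φ, this, cj_mul, cj_zp (cj_fix.2 hf) q.2]
  let A := univ.filter fun y : X ⧸ zpowers g => g • y = y
  let B := univ.filter fun y : X ⧸ zpowers g => ¬ g • y = y
  have orb {M : Type _} [AddCommMonoid M] (S : AddSubmonoid M) (ψ : X ⧸ zpowers g → M)
      (h : ∀ y, ∑ i ∈ range p, ψ (g ^ i • y) ∈ S) : ∑ y ∈ B, ψ y ∈ S :=
    l1b_orb S pp hg ψ B (fun y m => by simpa [B] using m) (fun y m => by simpa [B] using m)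
      fun y _ => h y
  have u : IsUnit (A.card : O) := l1b_unit pp hp fun d => hi (by
    have := l1b_orb (AddSubmonoid.multiples p) pp hg (fun _ => 1) B
      (fun y m => by simpa [B] using m) (fun y m => by simpa [B] using m) fun y _ => ⟨1, by simp⟩
    obtain ⟨k, e⟩ := this
    rw [index_eq_card, Nat.card_eq_fintype_card, ← card_univ,
      ← card_filter_add_card_filter_not fun y : X ⧸ zpowers g => g • y = y]
    exact d.add ⟨k, by simpa [mul_comm] using e.symm⟩)
  obtain ⟨c, hc⟩ := u.exists_left_inv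
  have sp (v) : (c • ∑ y, φ y) v = c • ∑ i : Fin A.card, φ (A.equivFin.symm i) v +
      c • ∑ y ∈ B, φ y v := by
    rw [A.equivFin.symm.sum_comp fun i => φ i v, sum_coe_sort A fun i => φ i v, ← smul_add,
      sum_filter_add_sum_filter_not]
    simp
  have pw (i : ℕ) (y) (v) : φ (g ^ i • y) v = (σ g ^ i) (φ y (ρ (g ^ i)⁻¹ v)) := by
    rw [e, cj_apply, map_pow]
  refine ⟨c • ∑ y, φ y, Fin A.card, inferInstance, fun i => (A.equivFin.symm i).1.out, c,
    fun x => cj_fix.1 ?_, fun i => ?_, by simpa using hc, fun v m => ?_, fun v m => ?_⟩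
  · conv_rhs => rw [← Equiv.sum_comp (MulAction.toPerm x) φ]
    ext v
    simp only [MulAction.toPerm_apply, e, cj_apply, LinearMap.smul_apply, LinearMap.sum_apply,
      map_smul, map_sum]
  · change (A.equivFin.symm i).1.out ∈ _
    obtain ⟨y, m⟩ := A.equivFin.symm i
    have k : y.out⁻¹ * g⁻¹ * y.out ∈ zpowers g := by
      have := (mem_filter.1 m).2
      rw [← y.out_eq', MulAction.Quotient.smul_mk, QuotientGroup.eq] at this
      simpa using this
    refine inv_mem_iff.1 (mem_normalizer_fintype fun _ ⟨j, t⟩ => ?_)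
    have := zpow_mem k (-j)
    rw [show y.out⁻¹ * g⁻¹ * y.out = y.out⁻¹ * g⁻¹ * y.out⁻¹⁻¹ by simp, conj_zpow] at this
    simpa [← t] using this
  · obtain ⟨w, k⟩ := orb (LinearMap.range (Nm p (σ g))).toAddSubmonoid (fun y => φ y v) fun y =>
      ⟨φ y v, by
        rw [Nm, LinearMap.sum_apply]
        refine sum_congr rfl fun i _ => ?_
        rw [pw]
        congr 2
        conv_rhs => rw [← l1_pow m i, ← map_pow, ← End.mul_apply, ← map_mul, inv_mul_cancel, map_one]
        rfl⟩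
    exact ⟨c • w, by rw [sp, map_smul, k]⟩
  · obtain ⟨w, k⟩ := orb (LinearMap.range (σ g - 1)).toAddSubmonoid (fun y => φ y v) fun y => by
      have z : ∑ i ∈ range p, φ y (ρ (g ^ i)⁻¹ v) = 0 := by
        rw [← map_sum, ← l1b_inv ρ pp hg, m, map_zero]
      rw [← sub_zero (∑ _ ∈ _, _), ← z, ← sum_sub_distrib]
      refine sum_mem fun i _ => ⟨(∑ j ∈ range i, σ g ^ j) (φ y (ρ (g ^ i)⁻¹ v)), ?_⟩
      rw [← End.mul_apply, mul_geom_sum, pw]
      rfl
    exact ⟨c • w, by rw [sp, map_smul, ← smul_sub, ← k]; rfl⟩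

/-- An equivariant map on the Tate groups that comes from a map of the subgroup comes from a map
of the group. -/
theorem l1_avg [Finite X] [IsLocalRing O] (pp : p.Prime) (hp : (p : O) ∈ maximalIdeal O) {g : X}
    (hg : g ^ p = 1) (hi : ¬ p ∣ (zpowers g).index) (f : V →ₗ[O] W)
    (hf : ∀ v, f (ρ g v) = σ g (f v)) : ∃ F : V →ₗ[O] W, (∀ x v, F (ρ x v) = σ x (F v)) ∧
      (∀ v t, ρ g v = v → (∀ n ∈ normalizer (zpowers g : Set X),
        ∃ w, cj ρ σ n f v = t + Nm p (σ g) w) → ∃ w, F v = t + Nm p (σ g) w) ∧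
      ∀ v t, Nm p (ρ g) v = 0 → (∀ n ∈ normalizer (zpowers g : Set X),
        ∃ w, cj ρ σ n f v = t + (σ g w - w)) → ∃ w, F v = t + (σ g w - w) := by
  obtain ⟨F, ι, _, n, c, a, b, d, k, l⟩ := l1_tr ρ σ pp hp hg hi f hf
  have s (t : W) : c • ∑ _ : ι, t = t := by
    rw [sum_const, card_univ, ← Nat.cast_smul_eq_nsmul O, smul_smul, d, one_smul]
  refine ⟨F, a, fun v t m h => ?_, fun v t m h => ?_⟩
  · choose w e using fun i => h _ (b i)
    obtain ⟨z, q⟩ := k v m
    exact ⟨c • ∑ i, w i + z, by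
      simp only [q, e, sum_add_distrib, smul_add, s, map_add, map_smul, map_sum, add_assoc]⟩
  · choose w e using fun i => h _ (b i)
    obtain ⟨z, q⟩ := l v m
    refine ⟨c • ∑ i, w i + z, ?_⟩
    simp only [q, e, sum_add_distrib, sum_sub_distrib, smul_add, smul_sub, s, map_add, map_smul,
      map_sum]
    abel


end Pool.Agent.Lib.MP_1ae3da_al.R5
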