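import Pool.Agent.Lib.MP_1ae3da_al.C.RYa

/-! The trace of an endomorphism of prime order and the Tate groups. -/

namespace Pool.Agent.Lib.MP_1ae3da_al.R5

open Module Polynomial IsLocalRing LinearMap

variable {O V M M' P P' : Type*} [CommRing O] [AddCommGroup V] [Module O V] [AddCommGroup M]
  [Module O M] [AddCommGroup M'] [Module O M'] [AddCommGroup P] [Module O P] [AddCommGroup P']
  [Module O P'] {p : ℕ}

theorem l3_eq {N N' : Type*} [AddCommGroup N] [Module O N] [AddCommGroup N'] [Module O N']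
    (f : P →ₗ[O] N) (g : P →ₗ[O] N') (hf : Function.Surjective f) (hg : Function.Surjective g)
    (h : ∀ x, f x = 0 ↔ g x = 0) : length O N = length O N' :=
  ((f.quotKerEquivOfSurjective hf).symm ≪≫ₗ Submodule.quotEquivOfEq _ (ker g) (Submodule.ext h) ≪≫ₗ
    g.quotKerEquivOfSurjective hg).length_eq

/-- The length of the reduction of a free module is its rank. -/
theorem l3_free {S k N : Type*} [CommRing S] [Nontrivial S] [Algebra O S] [Module S V]
    [IsScalarTower O S V] [Module.Free S V] [Module.Finite S V] [AddCommGroup k] [Module O k]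
    [IsSimpleModule O k] [AddCommGroup N] [Module O N] {π : S} (ε : S →ₗ[O] k)
    (hε : Function.Surjective ε) (e : ∀ s, ε s = 0 ↔ π ∣ s) (q : V →ₗ[O] N)
    (hq : Function.Surjective q) (h : ∀ v, q v = 0 ↔ ∃ w, v = π • w) :
    length O N = finrank S V := by
  let b := (Module.finBasis S V).equivFun
  rw [l3_eq q (ε.compLeft (Fin (finrank S V)) ∘ₗ (b.restrictScalars O).toLinearMap) hq
    ((hε.comp_left).comp b.surjective) fun v => (h v).trans ⟨?_, fun z => ?_⟩]
  · simp
  · rintro ⟨w, rfl⟩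
    exact funext fun i => (e _).2 ⟨b w i, by simp⟩
  · choose c k using fun i => (e _).1 (congrFun z i)
    exact ⟨b.symm c, b.injective (funext fun i => by simpa using k i)⟩

theorem l3_cnt {N : Type*} [AddCommGroup N] [Module O N] (B B' : Submodule O V) (s : P →ₗ[O] V)
    (t : P →ₗ[O] N) (ht : Function.Surjective t) (h : ∀ x, t x = 0 ↔ s x ∈ B)
    (e : B' = B ⊔ range s) : length O (V ⧸ B) = length O N + length O (V ⧸ B') := by
  have le : B ≤ B' := e ▸ le_sup_left
  rw [l3_eq t (B.mkQ ∘ₗ s).rangeRestrict ht (surjective_rangeRestrict _) fun x =>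
    (h x).trans (by simp [Subtype.ext_iff])]
  refine length_eq_add_of_exact (Submodule.subtype _) (Submodule.factor le)
    Subtype.val_injective (Submodule.factor_surjective le) (exact_iff.2 ?_)
  rw [Submodule.range_subtype, range_comp, Submodule.ker_mapQ, Submodule.comap_id, e,
    Submodule.map_sup, Submodule.mkQ_map_self, bot_sup_eq]

theorem l3_root [Nontrivial O] (pp : p.Prime) :
    Algebra.trace O _ (AdjoinRoot.root (l1P O p)) = -1 := by
  have mo : (l1P O p).Monic := monic_geom_sum_X pp.ne_zero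
  have dg : (l1P O p).natDegree = p - 1 := by
    have := (mo.natDegree_mul (monic_X_sub_C (1 : O))).symm.trans
      (congrArg natDegree (geom_sum_mul (X : O[X]) p))
    rw [natDegree_X_sub_C, ← C_1, natDegree_X_pow_sub_C] at this
    omega
  have m : l1P O p = minpoly O (AdjoinRoot.powerBasis' mo).gen := minpoly.unique' _ _ mo
    ((AdjoinRoot.aeval_eq _).trans AdjoinRoot.mk_self) fun q d => or_iff_not_imp_left.2 fun z c =>
      mo.not_dvd_of_degree_lt z d (AdjoinRoot.mk_eq_zero.1 ((AdjoinRoot.aeval_eq _).symm.trans c))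
  have := pp.two_le
  rw [Algebra.trace_eq_matrix_trace (AdjoinRoot.powerBasis' mo).basis,
    Matrix.trace_eq_neg_charpoly_nextCoeff]
  erw [charpoly_leftMulMatrix (AdjoinRoot.powerBasis' mo)]
  rw [← m, nextCoeff_of_natDegree_pos (by omega), dg, l1P, finsetSum_coeff,
    Finset.sum_eq_single (p - 1 - 1) (fun i _ c => by simp [coeff_X_pow, c.symm])
      fun c => (c (Finset.mem_range.2 (by omega))).elim]
  simp

theorem l3_smul {S : Type*} [CommRing S] [Nontrivial S] [Algebra O S] [Module S V]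
    [IsScalarTower O S V] [Module.Free S V] [Module.Finite S V] [Module.Free O S]
    [Module.Finite O S] (r : S) {g : End O V} (h : ∀ v, g v = r • v) :
    trace O V g = finrank S V * Algebra.trace O S r := by
  classical
  let b := Module.Free.chooseBasis O S
  let c := Module.finBasis S V
  rw [trace_eq_matrix_trace O (b.smulTower c), Algebra.trace_eq_matrix_trace b, Matrix.trace,
    Fintype.sum_prod_type_right]
  simp [toMatrix_apply, h, smul_smul, Matrix.trace, Algebra.leftMulMatrix_eq_repr_mul]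

variable [IsLocalRing O] [IsNoetherianRing O]

/-- The trace over the cyclotomic ring. -/
theorem l3_cyc {N : Type*} [AddCommGroup N] [Module O N] [Module.Finite O V] (pp : p.Prime)
    (hp : maximalIdeal O = Ideal.span {(p : O)}) {g : End O V} (hg : Nm p g = 0)
    (hi : ∀ v, g v = v → v = 0) (q : V →ₗ[O] N) (hq : Function.Surjective q)
    (h : ∀ v, q v = 0 ↔ ∃ w, v = g w - w) : ∃ b : ℕ, length O N = b ∧ trace O V g = -b := by
  let S := AdjoinRoot (l1P O p)
  have mo : (l1P O p).Monic := monic_geom_sum_X pp.ne_zero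
  have := mo.finite_adjoinRoot
  have := mo.free_adjoinRoot
  obtain ⟨_, hm⟩ := l1_loc pp hp
  let _ : Module S V := Module.compHom V (l1A hg)
  have sV (P : O[X]) (v : V) : AdjoinRoot.mk (l1P O p) P • v = aeval g P v := rfl
  have sX (v : V) : g v = AdjoinRoot.root (l1P O p) • v := by
    have := sV X v
    rw [aeval_X] at this
    exact this.symm
  have : IsScalarTower O S V := .of_algebraMap_smul fun c v => (sV (C c) v).trans (by simp)
  have : Module.Finite S V := .of_restrictScalars_finite O S V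
  have : Module.Free S V := l1_free hm fun v z => hi v (by
    rwa [sub_smul, one_smul, sub_eq_zero, ← sX] at z)
  have pm : (p : O) ∈ maximalIdeal O := hp ▸ Ideal.mem_span_singleton_self _
  let ε : S →ₐ[O] ResidueField O := AdjoinRoot.liftAlgHom _ (Algebra.ofId _ _) 1 (by
    simpa [l1P, eval₂_finsetSum] using (residue_eq_zero_iff (p : O)).2 pm)
  have su : Function.Surjective ε := fun y => by
    obtain ⟨x, rfl⟩ := residue_surjective y
    exact ⟨algebraMap O S x, ε.commutes x⟩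
  have : IsSimpleModule O (ResidueField O) :=
    isSimpleModule_iff_isCoatom.2 (Ideal.isMaximal_def.1 (maximalIdeal.isMaximal O))
  refine ⟨finrank S V, l3_free (π := AdjoinRoot.root (l1P O p) - 1) ε.toLinearMap su
    (fun s => ?_) q hq fun v => by simp only [h, sub_smul, one_smul, sX], ?_⟩
  · rw [← Ideal.mem_span_singleton, ← hm,
      ← eq_maximalIdeal (RingHom.ker_isMaximal_of_surjective ε.toRingHom su)]
    rfl
  · rw [l3_smul _ sX, l3_root pp, mul_neg_one]

omit [IsNoetherianRing O] in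
theorem l3_red {N : Type*} [AddCommGroup N] [Module O N] [Module.Finite O V] [Module.Free O V]
    (hp : maximalIdeal O = Ideal.span {(p : O)}) (q : V →ₗ[O] N) (hq : Function.Surjective q)
    (h : ∀ v, q v = 0 ↔ ∃ w, v = (p : O) • w) : length O N = finrank O V :=
  have : IsSimpleModule O (ResidueField O) :=
    isSimpleModule_iff_isCoatom.2 (Ideal.isMaximal_def.1 (maximalIdeal.isMaximal O))
  l3_free (Algebra.linearMap O (ResidueField O)) residue_surjective
    (fun s => (residue_eq_zero_iff s).trans (hp ▸ Ideal.mem_span_singleton)) q hq h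

/-- The trace is the difference of the lengths of the two Tate groups. -/
theorem l3_len {T T' : Type*} [AddCommGroup T] [Module O T] [AddCommGroup T'] [Module O T']
    [Module.Finite O V] (pp : p.Prime) (hp : maximalIdeal O = Ideal.span {(p : O)})
    (hO : ∀ c : O, p * c = 0 → c = 0) (hV : ∀ v : V, (p : O) • v = 0 → v = 0) {g : End O V}
    (hg : g ^ p = 1) (s : P →ₗ[O] V) (t : P →ₗ[O] T) (hs : ∀ v, v ∈ range s ↔ g v = v)
    (ht : Function.Surjective t) (h : ∀ x, t x = 0 ↔ s x ∈ range (Nm p g))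
    (s' : P' →ₗ[O] V) (t' : P' →ₗ[O] T') (hs' : ∀ v, v ∈ range s' ↔ Nm p g v = 0)
    (ht' : Function.Surjective t') (h' : ∀ x, t' x = 0 ↔ s' x ∈ range (g - 1)) :
    ∃ n n' : ℕ, length O T = n ∧ length O T' = n' ∧ trace O V g = n - n' := by
  let K := ker (Nm p g)
  let N := ker (g - 1)
  have mN (v) : v ∈ N ↔ g v = v := sub_eq_zero
  have nN (v) : Nm p g v ∈ N := (mN _).2 (sub_nm hg v)
  have pK (v) : (p : O) • v - Nm p g v ∈ K := by
    rw [mem_ker, map_sub, map_smul, nm_fix (sub_nm hg v), sub_self]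
  have rs : range s = N := Submodule.ext fun v => (hs v).trans (mN v).symm
  have rs' : range s' = K := Submodule.ext hs'
  have : Module.Free O V := l1_free hp hV
  have : Module.Free O (V ⧸ K) := l1_free hp fun x e => by
    obtain ⟨v, rfl⟩ := K.mkQ_surjective x
    refine (Submodule.Quotient.mk_eq_zero _).2 (hV _ ?_)
    rw [← map_smul]
    exact (Submodule.Quotient.mk_eq_zero _).1 e
  have : Module.Free O (V ⧸ N) := l1_free hp fun x e => by
    obtain ⟨v, rfl⟩ := N.mkQ_surjective x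
    refine (Submodule.Quotient.mk_eq_zero _).2 (hV _ ?_)
    rw [← map_smul]
    exact (Submodule.Quotient.mk_eq_zero _).1 e
  let g' : End O (V ⧸ N) := N.mapQ N g fun v m => (mN _).2 (congrArg g ((mN _).1 m))
  have sg (v) : N.mkQ (g v) = g' (N.mkQ v) := rfl
  have a := l3_red hp (Submodule.factor (le_sup_left : K ≤ K ⊔ range ((p : O) • LinearMap.id)))
    (Submodule.factor_surjective _) fun x => by
      obtain ⟨v, rfl⟩ := K.mkQ_surjective x
      refine (Submodule.Quotient.mk_eq_zero _).trans ⟨fun m => ?_, fun ⟨y, e⟩ => ?_⟩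
      · obtain ⟨n, k, _, ⟨w, rfl⟩, rfl⟩ := Submodule.mem_sup.1 m
        exact ⟨K.mkQ w, (Submodule.Quotient.eq _).2 (by simpa using k)⟩
      · obtain ⟨w, rfl⟩ := K.mkQ_surjective y
        exact Submodule.mem_sup.2 ⟨_, (Submodule.Quotient.eq _).1 e, _, ⟨w, rfl⟩, sub_add_cancel ..⟩
  obtain ⟨b, b1, b2⟩ := l3_cyc pp hp (g := g') (LinearMap.ext fun x => by
      obtain ⟨v, rfl⟩ := N.mkQ_surjective x
      exact (nm_semi sg p v).symm.trans ((Submodule.Quotient.mk_eq_zero _).2 (nN v)))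
    (fun x z => by
      obtain ⟨v, rfl⟩ := N.mkQ_surjective x
      have m : g v - v ∈ N := (Submodule.Quotient.eq _).1 z
      exact (Submodule.Quotient.mk_eq_zero _).2 ((mN _).2 (sub_eq_zero.1 (hV _
        ((nm_fix ((mN _).1 m)).symm.trans (nm_sub hg v))))))
    (Submodule.factor (le_sup_left : N ≤ N ⊔ range (g - 1))) (Submodule.factor_surjective _)
    fun x => by
      obtain ⟨v, rfl⟩ := N.mkQ_surjective x
      refine (Submodule.Quotient.mk_eq_zero _).trans ⟨fun m => ?_, fun ⟨y, e⟩ => ?_⟩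
      · obtain ⟨n, k, _, ⟨w, rfl⟩, rfl⟩ := Submodule.mem_sup.1 m
        exact ⟨N.mkQ w, (Submodule.Quotient.eq _).2
          ((add_sub_cancel_right n ((g - 1) w)).symm ▸ k : n + (g - 1) w - (g - 1) w ∈ N)⟩
      · obtain ⟨w, rfl⟩ := N.mkQ_surjective y
        exact Submodule.mem_sup.2 ⟨v - (g - 1) w, (Submodule.Quotient.eq _).1 e, _, ⟨w, rfl⟩,
          sub_add_cancel ..⟩
  rw [l3_cnt _ (K ⊔ N) s t ht (fun x => (h x).trans ⟨fun ⟨w, e⟩ => ?_, fun m => ?_⟩) ?_] at a
  rw [l3_cnt _ (K ⊔ N) s' t' ht' (fun x => (h' x).trans ⟨Submodule.mem_sup_right, fun m => ?_⟩) ?_]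
    at b1
  · have f (x y : ℕ∞) (n : ℕ) (e : x + y = n) : x ≠ ⊤ ∧ y ≠ ⊤ :=
      WithTop.add_ne_top.1 (e ▸ ENat.natCast_ne_top n)
    obtain ⟨n, e⟩ := ENat.ne_top_iff_exists.1 (f _ _ _ a).1
    obtain ⟨n', e'⟩ := ENat.ne_top_iff_exists.1 (f _ _ _ b1).1
    obtain ⟨c, e''⟩ := ENat.ne_top_iff_exists.1 (f _ _ _ a).2
    rw [← e, ← e''] at a
    rw [← e', ← e''] at b1
    norm_cast at a b1
    refine ⟨n, n', e.symm, e'.symm, sub_eq_zero.1 (hO _ ?_)⟩
    have t1 : trace O V (Nm p g) = p * finrank O (V ⧸ K) := by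
      rw [← K.liftQ_mkQ (Nm p g) le_rfl, trace_comp_comm', ← trace_id, ← smul_eq_mul, ← map_smul]
      refine congrArg _ (K.linearMap_qext (LinearMap.ext fun v => ?_))
      exact ((Submodule.Quotient.eq _).2 (pK v)).symm
    have t2 : trace O V ((p : O) • g - Nm p g) = p * trace O _ g' := by
      rw [← N.liftQ_mkQ ((p : O) • g - Nm p g) fun v m => by
        simp [nm_fix ((mN v).1 m), (mN v).1 m], trace_comp_comm', ← smul_eq_mul, ← map_smul]
      refine congrArg _ (N.linearMap_qext (LinearMap.ext fun v => ?_))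
      exact (Submodule.Quotient.eq _).2 (by simpa using nN v)
    rw [map_sub, map_smul, smul_eq_mul, t1, b2, ← a, ← b1] at t2
    push_cast at t2
    linear_combination t2
  · rw [rs', sup_assoc, sup_comm K, sup_eq_right (a := range _) |>.2
      (by rintro _ ⟨w, rfl⟩; exact nm_sub hg w)]
  · obtain ⟨n, k, _, ⟨w, rfl⟩, e⟩ := Submodule.mem_sup.1 m
    have z : n = 0 := hV _ (by
      rw [← nm_fix ((mN _).1 k), ← (hs' _).1 ⟨x, rfl⟩, ← e, map_add]
      exact (add_eq_left.2 (nm_sub hg w)).symm)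
    exact ⟨w, by rw [← e, z, zero_add]⟩
  · rw [rs]
    refine le_antisymm (sup_le_sup_right le_sup_left _) (sup_le (sup_le le_sup_left ?_) le_sup_right)
    rintro _ ⟨w, rfl⟩
    exact Submodule.mem_sup.2 ⟨_, pK w, _, nN w, sub_add_cancel ..⟩
  · exact Submodule.mem_sup.2 ⟨_, neg_mem (pK w), _, ⟨w, rfl⟩, by simp [e]⟩
  · obtain ⟨n, k, _, ⟨w, rfl⟩, e⟩ := Submodule.mem_sup.1 m
    refine ⟨w, (sub_eq_zero.1 (hV _ ?_)).symm⟩
    rw [smul_sub, ← nm_fix ((hs _).1 ⟨x, rfl⟩), ← e, map_add, k, zero_add, ← map_smul]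
    exact sub_self _

/-- `Φ` is the graph of an isomorphism from `A / B` onto `M / p M`. -/
structure Gph (p : ℕ) (A B : Submodule O V) (Φ : Submodule O (V × M)) : Prop where
  dom : ∀ v, v ∈ A ↔ ∃ m, (v, m) ∈ Φ
  on : ∀ m, ∃ v, (v, m) ∈ Φ
  ker : ∀ v m, (v, m) ∈ Φ → (v ∈ B ↔ ∃ w, m = (p : O) • w)

/-- The trace is the difference of the ranks of lattices that reduce to the Tate groups. -/
theorem l3 [Module.Finite O V] [Module.Finite O M] [Module.Finite O M'] (pp : p.Prime)
    (hp : maximalIdeal O = Ideal.span {(p : O)}) (hO : ∀ c : O, p * c = 0 → c = 0)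
    (hV : ∀ v : V, (p : O) • v = 0 → v = 0) (hM : ∀ v : M, (p : O) • v = 0 → v = 0)
    (hM' : ∀ v : M', (p : O) • v = 0 → v = 0) {g : End O V} (hg : g ^ p = 1)
    {Φ : Submodule O (V × M)} (h : Gph p (ker (g - 1)) (range (Nm p g)) Φ)
    {Φ' : Submodule O (V × M')} (h' : Gph p (ker (Nm p g)) (range (g - 1)) Φ') :
    trace O V g = finrank O M - finrank O M' := by
  have : Module.Free O M := l1_free hp hM
  have : Module.Free O M' := l1_free hp hM'
  let R := range ((p : O) • LinearMap.id : End O M)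
  let R' := range ((p : O) • LinearMap.id : End O M')
  obtain ⟨n, n', a, b, c⟩ := l3_len pp hp hO hV hg (fst O V M ∘ₗ Φ.subtype)
    (R.mkQ ∘ₗ snd O V M ∘ₗ Φ.subtype) (fun v => ⟨fun ⟨x, e⟩ => sub_eq_zero.1 ((h.dom v).2
      ⟨x.1.2, e ▸ x.2⟩), fun e => ((h.dom v).1 (sub_eq_zero.2 e)).elim fun _ k => ⟨⟨_, k⟩, rfl⟩⟩)
    (R.mkQ_surjective.comp fun m => (h.on m).elim fun _ k => ⟨⟨_, k⟩, rfl⟩)
    (fun x => (Submodule.Quotient.mk_eq_zero _).trans ((exists_congr fun _ => eq_comm).trans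
      (h.ker _ _ x.2).symm)) (fst O V M' ∘ₗ Φ'.subtype) (R'.mkQ ∘ₗ snd O V M' ∘ₗ Φ'.subtype)
    (fun v => ⟨fun ⟨x, e⟩ => (h'.dom v).2 ⟨x.1.2, e ▸ x.2⟩,
      fun e => ((h'.dom v).1 e).elim fun _ k => ⟨⟨_, k⟩, rfl⟩⟩)
    (R'.mkQ_surjective.comp fun m => (h'.on m).elim fun _ k => ⟨⟨_, k⟩, rfl⟩)
    fun x => (Submodule.Quotient.mk_eq_zero _).trans ((exists_congr fun _ => eq_comm).trans
      (h'.ker _ _ x.2).symm)
  rw [l3_red hp R.mkQ R.mkQ_surjective fun _ =>
    (Submodule.Quotient.mk_eq_zero _).trans (exists_congr fun _ => eq_comm)] at a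
  rw [l3_red hp R'.mkQ R'.mkQ_surjective fun _ =>
    (Submodule.Quotient.mk_eq_zero _).trans (exists_congr fun _ => eq_comm)] at b
  rw [c, Nat.cast_inj.1 a, Nat.cast_inj.1 b]

omit [IsLocalRing O] [IsNoetherianRing O] in
theorem l3_cut [Module.Finite O V] [Module.Free O V] {e g : End O V} (he : e * e = e)
    [Module.Finite O (range e)] [Module.Free O (range e)] (g' : End O (range e))
    (h : ∀ v, (g' v).1 = g v) : trace O V (g * e) = trace O _ g' := by
  rw [show g * e = ((range e).subtype ∘ₗ g') ∘ₗ e.rangeRestrict from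
    LinearMap.ext fun v => (h ⟨_, v, rfl⟩).symm, trace_comp_comm']
  refine congrArg _ (LinearMap.ext fun x => Subtype.ext ?_)
  obtain ⟨v, k⟩ := (g' x).2
  exact (congrArg e k.symm).trans ((LinearMap.congr_fun he v).trans k)

omit [IsLocalRing O] [IsNoetherianRing O] in
theorem Gph.cut {A B : Submodule O V} {Φ : Submodule O (V × M)} (h : Gph p A B Φ) {e : End O V}
    {f : End O M} (he : e * e = e) (hf : f * f = f) (c : ∀ v m, (v, m) ∈ Φ → (e v, f m) ∈ Φ)
    {A' B' : Submodule O (range e)} (hA : ∀ v, v ∈ A' ↔ v.1 ∈ A) (hB : ∀ v, v ∈ B' ↔ v.1 ∈ B) :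
    Gph p A' B' (Φ.comap ((range e).subtype.prodMap (range f).subtype)) := by
  have a (v : range e) : e v = v := v.2.elim fun w k => k ▸ LinearMap.congr_fun he w
  have b (v : range f) : f v = v := v.2.elim fun w k => k ▸ LinearMap.congr_fun hf w
  refine ⟨fun v => (hA v).trans ((h.dom _).trans ⟨fun ⟨m, k⟩ => ⟨⟨_, m, rfl⟩, ?_⟩,
    fun ⟨m, k⟩ => ⟨_, k⟩⟩), fun m => (h.on m).elim fun v k => ⟨⟨_, v, rfl⟩, ?_⟩,
    fun v m k => (hB v).trans ((h.ker _ _ k).trans ⟨fun ⟨w, e⟩ => ⟨⟨_, w, rfl⟩, Subtype.ext ?_⟩,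
      fun ⟨w, e⟩ => ⟨w, congrArg Subtype.val e⟩⟩)⟩
  · exact (congrArg (fun x => (x, f m) ∈ Φ) (a v)).mp (c _ _ k)
  · exact (congrArg (fun x => (e v, x) ∈ Φ) (b m)).mp (c _ _ k)
  · exact (b m).symm.trans ((congrArg f e).trans (map_smul ..))

/-- The trace formula cut by compatible idempotents. -/
theorem l3_idem [Module.Finite O V] [Module.Finite O M] [Module.Finite O M'] (pp : p.Prime)
    (hp : maximalIdeal O = Ideal.span {(p : O)}) (hO : ∀ c : O, p * c = 0 → c = 0)
    (hV : ∀ v : V, (p : O) • v = 0 → v = 0) (hM : ∀ v : M, (p : O) • v = 0 → v = 0)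
    (hM' : ∀ v : M', (p : O) • v = 0 → v = 0) {g : End O V} (hg : g ^ p = 1)
    {Φ : Submodule O (V × M)} (h : Gph p (ker (g - 1)) (range (Nm p g)) Φ)
    {Φ' : Submodule O (V × M')} (h' : Gph p (ker (Nm p g)) (range (g - 1)) Φ') {e : End O V}
    {f : End O M} {f' : End O M'} (he : e * e = e) (hf : f * f = f) (hf' : f' * f' = f')
    (k : ∀ v, e (g v) = g (e v)) (c : ∀ v m, (v, m) ∈ Φ → (e v, f m) ∈ Φ)
    (c' : ∀ v m, (v, m) ∈ Φ' → (e v, f' m) ∈ Φ') :
    trace O V (g * e) = trace O M f - trace O M' f' := by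
  have : Module.Free O V := l1_free hp hV
  have : Module.Free O M := l1_free hp hM
  have : Module.Free O M' := l1_free hp hM'
  have a (v : range e) (z : (p : O) • v = 0) : v = 0 := Subtype.ext (hV _ (congrArg (·.1) z))
  have b (v : range f) (z : (p : O) • v = 0) : v = 0 := Subtype.ext (hM _ (congrArg (·.1) z))
  have b' (v : range f') (z : (p : O) • v = 0) : v = 0 := Subtype.ext (hM' _ (congrArg (·.1) z))
  have : Module.Free O (range e) := l1_free hp a
  have : Module.Free O (range f) := l1_free hp b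
  have : Module.Free O (range f') := l1_free hp b'
  let g' : End O (range e) := g.restrict fun _ ⟨v, q⟩ => ⟨g v, by rw [k, q]⟩
  have n (v : range e) : (Nm p g' v).1 = Nm p g v :=
    nm_semi (g := g') (h := g) (f := (range e).subtype) (fun _ => rfl) p v
  have i (v : range e) : e v = v := v.2.elim fun w k => k ▸ LinearMap.congr_fun he w
  rw [l3_cut he g' fun _ => rfl, ← one_mul f, ← one_mul f', l3_cut hf 1 fun _ => rfl,
    l3_cut hf' 1 fun _ => rfl, trace_one, trace_one]
  refine l3 pp hp hO a b b' (LinearMap.ext fun v => Subtype.ext ?_)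
    (h.cut he hf c (fun v => Subtype.ext_iff) fun v => ⟨fun ⟨w, q⟩ => ⟨w, by rw [← n, q]⟩,
      fun ⟨w, q⟩ => ⟨⟨_, w, rfl⟩, Subtype.ext (by rw [n, ← nm_semi k, q, i])⟩⟩)
    (h'.cut he hf' c' (fun v => Subtype.ext_iff.trans (by rw [n]; rfl)) fun v =>
      ⟨fun ⟨w, q⟩ => ⟨w, congrArg (·.1) q⟩, fun ⟨w, q⟩ => ⟨⟨_, w, rfl⟩, Subtype.ext ?_⟩⟩)
  · have := l1_semi (g := g') (h := g) (f := (range e).subtype) (fun _ => rfl) (X ^ p) v
    simpa [hg] using this
  · change g (e w) - e w = v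
    rw [← i v, ← q, ← k, ← map_sub]
    rfl

omit [IsLocalRing O] [IsNoetherianRing O] in
theorem l3_eig [IsDomain O] {m : ℕ} (hm : 0 < m) {ζ c : O} (hζ : IsPrimitiveRoot ζ m)
    (hc : c * m = 1) {k : End O V} (hk : k ^ m = 1) :
    (∀ i : ℕ, c • Nm m (ζ ^ i • k) * c • Nm m (ζ ^ i • k) = c • Nm m (ζ ^ i • k)) ∧
      k = ∑ i ∈ Finset.range m, (ζ ^ (m - 1)) ^ i • c • Nm m (ζ ^ i • k) := by
  have o (i : ℕ) : (ζ ^ i • k) ^ m = 1 := by
    rw [_root_.smul_pow, hk, ← pow_mul, mul_comm, pow_mul, hζ.pow_eq_one, one_pow, one_smul]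
  have s : ∑ i ∈ Finset.range m, c • Nm m (ζ ^ i • k) = 1 := by
    simp only [Nm, _root_.smul_pow, ← Finset.smul_sum]
    rw [Finset.sum_comm, Finset.sum_eq_single 0 (fun j a b => ?_)
      fun a => (a (Finset.mem_range.2 hm)).elim]
    · simp [← Nat.cast_smul_eq_nsmul O, smul_smul, hc]
    · have := geom_sum_mul (ζ ^ j) m
      rw [← pow_mul, mul_comm j, pow_mul, hζ.pow_eq_one, one_pow, sub_self, mul_eq_zero,
        sub_eq_zero, or_iff_left (hζ.pow_ne_one_of_pos_of_lt b (Finset.mem_range.1 a))] at this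
      simp only [← Finset.sum_smul, ← pow_mul, mul_comm _ j]
      simp only [pow_mul, this, zero_smul]
  refine ⟨fun i => LinearMap.ext fun v => ?_, ?_⟩
  · simp only [End.mul_apply, LinearMap.smul_apply, map_smul, nm_fix (sub_nm (o i) v), smul_smul c (m : O),
      hc, one_smul]
  · conv_lhs => rw [← mul_one k, ← s, Finset.mul_sum]
    refine Finset.sum_congr rfl fun i _ => LinearMap.ext fun v => ?_
    simp only [End.mul_apply, LinearMap.smul_apply, map_smul, smul_comm _ c]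
    conv_rhs => rw [← sub_nm (o i) v, LinearMap.smul_apply, smul_smul _ (ζ ^ i), ← mul_pow, ← pow_succ,
      Nat.sub_add_cancel hm, hζ.pow_eq_one, one_pow, one_smul]

omit [IsLocalRing O] [IsNoetherianRing O] in
theorem l3_stb {Φ : Submodule O (V × M)} {k : End O V} {f : End O M}
    (h : ∀ v m, (v, m) ∈ Φ → (k v, f m) ∈ Φ) (c d : O) (n : ℕ) (v m) (a : (v, m) ∈ Φ) :
    ((c • Nm n (d • k)) v, (c • Nm n (d • f)) m) ∈ Φ := by
  have b (j : ℕ) : (((d • k) ^ j) v, ((d • f) ^ j) m) ∈ Φ := by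
    induction j with
    | zero => exact a
    | succ j q => rw [pow_succ', pow_succ']; exact Φ.smul_mem d (h _ _ q)
  have := Φ.smul_mem c (Φ.sum_mem (t := Finset.range n) fun j _ => b j)
  simpa [Nm, LinearMap.sum_apply, ← prod_mk_sum] using this

/-- The trace of `g k` for an operator `k` of order prime to `p` that commutes with `g`. -/
theorem l3_val [IsDomain O] [Module.Finite O V] [Module.Finite O M] [Module.Finite O M']
    (pp : p.Prime) (hp : maximalIdeal O = Ideal.span {(p : O)}) (p0 : (p : O) ≠ 0)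
    (hV : ∀ v : V, (p : O) • v = 0 → v = 0) (hM : ∀ v : M, (p : O) • v = 0 → v = 0)
    (hM' : ∀ v : M', (p : O) • v = 0 → v = 0) {g : End O V} (hg : g ^ p = 1)
    {Φ : Submodule O (V × M)} (h : Gph p (ker (g - 1)) (range (Nm p g)) Φ)
    {Φ' : Submodule O (V × M')} (h' : Gph p (ker (Nm p g)) (range (g - 1)) Φ') {m : ℕ} {ζ : O}
    (hζ : IsPrimitiveRoot ζ m) (hm : IsUnit (m : O)) {k : End O V} {f : End O M} {f' : End O M'}
    (hk : k ^ m = 1) (hf : f ^ m = 1) (hf' : f' ^ m = 1) (e : ∀ v, k (g v) = g (k v))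
    (c : ∀ v m, (v, m) ∈ Φ → (k v, f m) ∈ Φ) (c' : ∀ v m, (v, m) ∈ Φ' → (k v, f' m) ∈ Φ') :
    trace O V (g * k) = trace O M f - trace O M' f' := by
  obtain ⟨d, hd⟩ := hm.exists_left_inv
  have m0 : 0 < m := Nat.pos_of_ne_zero fun z => by simp [z] at hd
  obtain ⟨a, b⟩ := l3_eig m0 hζ hd hk
  obtain ⟨a₁, b₁⟩ := l3_eig m0 hζ hd hf
  obtain ⟨a₂, b₂⟩ := l3_eig m0 hζ hd hf'
  have t (i : ℕ) := l3_idem pp hp (fun _ z => (mul_eq_zero.1 z).resolve_left p0) hV hM hM' hg h h'
    (a i) (a₁ i) (a₂ i) (fun v => by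
      rw [LinearMap.smul_apply, LinearMap.smul_apply, map_smul, nm_semi (f := g) (g := ζ ^ i • k) (h := ζ ^ i • k)
        fun v => by simp [e]]) (l3_stb c _ _ _) (l3_stb c' _ _ _)
  conv_lhs => rw [b]
  conv_rhs => rw [b₁, b₂]
  simp only [Finset.mul_sum, mul_smul_comm (_ ^ _ : O), map_sum, map_smul _ (_ ^ _ : O), t,
    smul_sub, Finset.sum_sub_distrib]


end Pool.Agent.Lib.MP_1ae3da_al.R5
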