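import Mathlib

namespace Pool.Agent.Lib.McK

open Function

/-- The smallest class of groups containing the groups of order not divisible by `p ^ 2` and the
alternating groups, closed under extensions. -/
inductive Ser (p : ℕ) : (G : Type) → [Group G] → Prop
  | small (G : Type) [Group G] (h : ¬ p ^ 2 ∣ Nat.card G) : Ser p G
  | alt (G : Type) [Group G] (n : ℕ) (e : G ≃* alternatingGroup (Fin n)) : Ser p G
  | ext (G : Type) [Group G] (N : Subgroup G) [N.Normal] (h1 : Ser p N) (h2 : Ser p (G ⧸ N)) :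
      Ser p G

variable {p : ℕ}

theorem Ser.finite {G : Type} [Group G] (h : Ser p G) : Finite G := by
  induction h with
  | small G h => exact Nat.finite_of_card_ne_zero (fun h0 => h (h0 ▸ dvd_zero _))
  | alt G n e => exact Finite.of_equiv _ e.toEquiv.symm
  | ext G N h1 h2 i1 i2 => exact Finite.of_equiv _ (Subgroup.groupEquivQuotientProdSubgroup (s := N)).symm

theorem Ser.congr {G : Type} [Group G] (h : Ser p G) :
    ∀ {H : Type} [Group H], (G ≃* H) → Ser p H := by
  induction h with
  | small G h => exact fun {H} _ e => .small H (by rwa [← Nat.card_congr e.toEquiv])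
  | alt G n e => exact fun {H} _ f => .alt H n (f.symm.trans e)
  | ext G N h1 h2 i1 i2 =>
    intro H _ e
    have : (N.map (e : G →* H)).Normal := Subgroup.Normal.map inferInstance _ e.surjective
    exact .ext H (N.map (e : G →* H)) (i1 (e.subgroupMap N)) (i2 (QuotientGroup.congr N _ e rfl))

theorem Ser.of_hom {G Q : Type} [Group G] [Group Q] (f : G →* Q) (h1 : Ser p f.ker)
    (h2 : Ser p f.range) : Ser p G :=
  .ext G f.ker h1 (h2.congr (QuotientGroup.quotientKerEquivRange f).symm)

theorem Ser.of_dvd {G : Type} [Group G] {m : ℕ} (hm : ¬ p ^ 2 ∣ m) (h : Nat.card G ∣ m) :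
    Ser p G := .small G fun h' => hm (h'.trans h)

theorem sq_not_dvd (hp : p.Prime) (h3 : 3 ≤ p) : ¬ p ^ 2 ∣ 24 := by
  intro h
  have h5 : p ^ 2 ≤ 24 := Nat.le_of_dvd (by norm_num) h
  have h4 : p ≤ 4 := by nlinarith
  interval_cases p <;> simp_all (config := {decide := true})

theorem card_alt_dvd {n : ℕ} (hn : n < 5) : Nat.card (alternatingGroup (Fin n)) ∣ 24 := by
  have h := Subgroup.card_subgroup_dvd_card (alternatingGroup (Fin n))
  rw [Nat.card_perm, Nat.card_fin] at h
  exact h.trans (Nat.factorial_dvd_factorial (show n ≤ 4 by omega))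

theorem Ser.quot (hp : p.Prime) (h3 : 3 ≤ p) {G : Type} [Group G] (h : Ser p G) :
    ∀ {Q : Type} [Group Q] (f : G →* Q), Surjective f → Ser p Q := by
  induction h with
  | small G h => exact fun {Q} _ f hf => .of_dvd h (Subgroup.card_dvd_of_surjective f hf)
  | alt G n e =>
    intro Q _ f hf
    by_cases hn : n < 5
    · refine .of_dvd (sq_not_dvd hp h3) ((Subgroup.card_dvd_of_surjective f hf).trans ?_)
      rw [Nat.card_congr e.toEquiv]; exact card_alt_dvd hn
    · have : IsSimpleGroup (alternatingGroup (Fin n)) :=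
        alternatingGroup.isSimpleGroup (by rw [Nat.card_fin]; omega)
      have : IsSimpleGroup G := e.isSimpleGroup
      rcases (inferInstance : f.ker.Normal).eq_bot_or_eq_top with hk | hk
      · exact .alt Q n ((MulEquiv.ofBijective f ⟨(MonoidHom.ker_eq_bot_iff f).1 hk, hf⟩).symm.trans e)
      · have : Subsingleton Q := ⟨fun a b => by
          obtain ⟨x, rfl⟩ := hf a
          obtain ⟨y, rfl⟩ := hf b
          have hx : x ∈ f.ker := hk ▸ Subgroup.mem_top x
          have hy : y ∈ f.ker := hk ▸ Subgroup.mem_top y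
          rw [MonoidHom.mem_ker.1 hx, MonoidHom.mem_ker.1 hy]⟩
        refine .of_dvd (sq_not_dvd hp h3) ?_
        rw [Nat.card_of_subsingleton (1 : Q)]; exact one_dvd _
  | ext G N h1 h2 i1 i2 =>
    intro Q _ f hf
    have : (N.map f).Normal := Subgroup.Normal.map inferInstance _ hf
    refine .ext Q (N.map f) (i1 (f.subgroupMap N) (f.subgroupMap_surjective N))
      (i2 (QuotientGroup.map N (N.map f) f (Subgroup.le_comap_map f N)) ?_)
    intro q
    obtain ⟨q, rfl⟩ := QuotientGroup.mk_surjective q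
    obtain ⟨x, rfl⟩ := hf q
    exact ⟨QuotientGroup.mk x, rfl⟩

theorem Ser.quotient (hp : p.Prime) (h3 : 3 ≤ p) {G : Type} [Group G] (h : Ser p G)
    (N : Subgroup G) [N.Normal] : Ser p (G ⧸ N) :=
  h.quot hp h3 (QuotientGroup.mk' N) (QuotientGroup.mk'_surjective N)

/-- For `f : H →* G`, the map from the preimage of `N` to `N`. -/
def kerTo {G H : Type} [Group G] [Group H] (N : Subgroup G) [N.Normal] (f : H →* G) :
    ((QuotientGroup.mk' N).comp f).ker →* N :=
  (f.comp (Subgroup.subtype _)).codRestrict N fun x =>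
    (QuotientGroup.eq_one_iff _).1 (MonoidHom.mem_ker.1 x.2)

theorem kerTo_inj {G H : Type} [Group G] [Group H] (N : Subgroup G) [N.Normal] {f : H →* G}
    (hf : Injective f) : Injective (kerTo N f) := fun _ _ h =>
  Subtype.ext (hf (congrArg Subtype.val h))

theorem Ser.normal' (hp : p.Prime) (h3 : 3 ≤ p) {G : Type} [Group G] (h : Ser p G) :
    ∀ {H : Type} [Group H] (f : H →* G), Injective f → f.range.Normal → Ser p H := by
  induction h with
  | small G h => exact fun {H} _ f hf _ => .of_dvd h (Subgroup.card_dvd_of_injective f hf)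
  | alt G n e =>
    intro H _ f hf hN
    by_cases hn : n < 5
    · refine .of_dvd (sq_not_dvd hp h3) ((Subgroup.card_dvd_of_injective f hf).trans ?_)
      rw [Nat.card_congr e.toEquiv]; exact card_alt_dvd hn
    · have : IsSimpleGroup (alternatingGroup (Fin n)) :=
        alternatingGroup.isSimpleGroup (by rw [Nat.card_fin]; omega)
      have : IsSimpleGroup G := e.isSimpleGroup
      rcases hN.eq_bot_or_eq_top with hk | hk
      · have : Subsingleton H := ⟨fun a b => hf (by
          have ha : f a ∈ f.range := ⟨a, rfl⟩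
          have hb : f b ∈ f.range := ⟨b, rfl⟩
          rw [hk, Subgroup.mem_bot] at ha hb
          rw [ha, hb])⟩
        refine .of_dvd (sq_not_dvd hp h3) ?_
        rw [Nat.card_of_subsingleton (1 : H)]; exact one_dvd _
      · exact .alt H n ((MulEquiv.ofBijective f ⟨hf, MonoidHom.range_eq_top.1 hk⟩).trans e)
  | ext G N h1 h2 i1 i2 =>
    intro H _ f hf hN
    refine .of_hom ((QuotientGroup.mk' N).comp f) (i1 (kerTo N f) (kerTo_inj N hf) ?_)
      (i2 (Subgroup.subtype _) (Subgroup.subtype_injective _) ?_)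
    · refine ⟨?_⟩
      rintro _ ⟨x, rfl⟩ g
      obtain ⟨y, hy⟩ := hN.conj_mem (f x) ⟨x, rfl⟩ g
      have hm : f y ∈ N := by
        rw [hy]; exact N.mul_mem (N.mul_mem g.2 (kerTo N f x).2) (N.inv_mem g.2)
      exact ⟨⟨y, MonoidHom.mem_ker.2 ((QuotientGroup.eq_one_iff _).2 hm)⟩, Subtype.ext hy⟩
    · rw [Subgroup.range_subtype, MonoidHom.range_comp]
      exact hN.map _ (QuotientGroup.mk'_surjective N)

theorem Ser.normal (hp : p.Prime) (h3 : 3 ≤ p) {G : Type} [Group G] (h : Ser p G)
    (N : Subgroup G) [hN : N.Normal] : Ser p N :=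
  h.normal' hp h3 N.subtype N.subtype_injective (by rwa [Subgroup.range_subtype])

theorem Ser.simple (hp : p.Prime) (h3 : 3 ≤ p) {G : Type} [Group G] (h : Ser p G) :
    IsSimpleGroup G →
      ¬ p ^ 2 ∣ Nat.card G ∨ ∃ n, 5 ≤ n ∧ Nonempty (G ≃* alternatingGroup (Fin n)) := by
  induction h with
  | small G h => exact fun _ => .inl h
  | alt G n e =>
    intro _
    by_cases hn : n < 5
    · refine .inl fun h => sq_not_dvd hp h3 (h.trans ?_)
      rw [Nat.card_congr e.toEquiv]; exact card_alt_dvd hn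
    · exact .inr ⟨n, by omega, ⟨e⟩⟩
  | ext G N h1 h2 i1 i2 =>
    intro hs
    have key : ∀ (K : Type) [Group K] (e : G ≃* K),
        (¬ p ^ 2 ∣ Nat.card K ∨ ∃ n, 5 ≤ n ∧ Nonempty (K ≃* alternatingGroup (Fin n))) →
        ¬ p ^ 2 ∣ Nat.card G ∨ ∃ n, 5 ≤ n ∧ Nonempty (G ≃* alternatingGroup (Fin n)) := by
      intro K _ e h
      rcases h with h | ⟨n, hn, ⟨f⟩⟩
      · exact .inl (by rwa [Nat.card_congr e.toEquiv])
      · exact .inr ⟨n, hn, ⟨e.trans f⟩⟩
    rcases (inferInstance : N.Normal).eq_bot_or_eq_top with hk | hk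
    · have e : G ≃* G ⧸ N := MulEquiv.ofBijective (QuotientGroup.mk' N)
        ⟨(MonoidHom.ker_eq_bot_iff _).1 (by rw [QuotientGroup.ker_mk', hk]),
          QuotientGroup.mk'_surjective N⟩
      exact key _ e (i2 e.symm.isSimpleGroup)
    · have e : N ≃* G := MulEquiv.ofBijective N.subtype
        ⟨N.subtype_injective, fun x => ⟨⟨x, hk ▸ Subgroup.mem_top x⟩, rfl⟩⟩
      exact key _ e.symm (i1 e.isSimpleGroup)

end Pool.Agent.Lib.McK
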