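import Mathlib

/-! Jordan step for the class theorem: a primitive permutation group of degree at least `2 p`
and of index prime to `p` contains the alternating group. -/

namespace Pool.Agent.Lib.MP_1ae3da_al.CT

open Equiv Equiv.Perm MulAction

variable {α : Type*} [Fintype α] [DecidableEq α]

/-- an element of `p`-power order is conjugate into a subgroup of index prime to `p` -/
theorem clsj_conj {G : Type*} [Group G] {p : ℕ} (hp : p.Prime) (H : Subgroup G)
    (hH : ¬ p ∣ H.index) (c : G) (hc : orderOf c = p) : ∃ x : G, x⁻¹ * c * x ∈ H := by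
  have : Fact p.Prime := ⟨hp⟩
  have hP : IsPGroup p (Subgroup.zpowers c) :=
    IsPGroup.of_card (n := 1) (by rw [Nat.card_zpowers, hc, pow_one])
  obtain ⟨y, hy⟩ := hP.nonempty_fixed_point_of_prime_not_dvd_card (G ⧸ H) hH
  obtain ⟨x, rfl⟩ := QuotientGroup.mk_surjective y
  have h1 := hy ⟨c, Subgroup.mem_zpowers c⟩
  have h2 : ((c * x : G) : G ⧸ H) = (x : G ⧸ H) := h1
  have h3 := QuotientGroup.eq.mp h2.symm
  exact ⟨x, by simpa [mul_assoc] using h3⟩

theorem clsj_cycle {p : ℕ} (hp : p.Prime) (hn : p ≤ Fintype.card α) (H : Subgroup (Perm α))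
    (hH : ¬ p ∣ H.index) : ∃ g ∈ H, g.IsCycle ∧ g.support.card = p := by
  obtain ⟨c, hc⟩ := (Equiv.Perm.exists_with_cycleType_iff α (m := {p})).mpr
    ⟨by simpa using hn, by simpa using hp.two_le⟩
  have hcyc : c.IsCycle := card_cycleType_eq_one.mp (by simp [hc])
  have hsup : c.support.card = p := by
    have := hcyc.cycleType
    rw [hc] at this
    exact (Multiset.singleton_inj.mp this).symm
  obtain ⟨x, hx⟩ := clsj_conj hp H hH c (by rw [hcyc.orderOf, hsup])
  refine ⟨_, hx, ?_, ?_⟩
  · have := hcyc.conj (g := x⁻¹)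
    simpa using this
  · have := card_support_conj (σ := x⁻¹) (τ := c)
    simpa [hsup] using this

/-- the commutator of two permutations whose supports meet in one point is a 3-cycle -/
theorem clsj_three {σ τ : Perm α} {a : α} (hσ : σ a ≠ a) (hτ : τ a ≠ a)
    (h : ∀ x, x ≠ a → σ x = x ∨ τ x = x) : (σ * τ * σ⁻¹ * τ⁻¹).IsThreeCycle := by
  have hb : τ (σ a) = σ a := by
    rcases h (σ a) hσ with h1 | h1
    · exact absurd (σ.injective h1) hσ
    · exact h1
  have hd : σ (τ a) = τ a := by
    rcases h (τ a) hτ with h1 | h1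
    · exact h1
    · exact absurd (τ.injective h1) hτ
  have hbd : σ a ≠ τ a := by
    intro e
    rw [← e] at hd
    exact hσ (σ.injective hd)
  have hc : τ (σ⁻¹ a) = σ⁻¹ a := by
    have hne : σ⁻¹ a ≠ a := fun e => hσ (by conv_lhs => rw [← e]; simp)
    rcases h _ hne with h1 | h1
    · exact absurd (by simpa using h1.symm) hne
    · exact h1
  have he : σ (τ⁻¹ a) = τ⁻¹ a := by
    have hne : τ⁻¹ a ≠ a := fun e => hτ (by conv_lhs => rw [← e]; simp)
    rcases h _ hne with h1 | h1
    · exact h1
    · exact absurd (by simpa using h1.symm) hne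
  have inv : ∀ (f : Perm α) (x : α), f x = x → f⁻¹ x = x := fun f x hx => by
    conv_lhs => rw [← hx]
    simp
  have k1 : (σ * τ * σ⁻¹ * τ⁻¹) a = σ a := by
    simp only [Perm.mul_apply]
    rw [inv σ _ he]; simp
  have k2 : (σ * τ * σ⁻¹ * τ⁻¹) (σ a) = τ a := by
    simp only [Perm.mul_apply]
    rw [inv τ _ hb]; simp [hd]
  have k3 : (σ * τ * σ⁻¹ * τ⁻¹) (τ a) = a := by
    simp only [Perm.mul_apply]
    have : τ⁻¹ (τ a) = a := by simp
    rw [this, hc]; simp
  have k4 : ∀ x, x ≠ a → x ≠ σ a → x ≠ τ a → (σ * τ * σ⁻¹ * τ⁻¹) x = x := by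
    intro x h1 h2 h3
    simp only [Perm.mul_apply]
    by_cases hx : τ x = x
    · rw [inv τ _ hx]
      have hy : σ⁻¹ x ≠ a := fun e => h2 (by rw [← e]; simp)
      rcases h _ hy with h4 | h4
      · have h5 : σ⁻¹ x = x := by simpa using h4.symm
        rw [h5, hx]
        conv_lhs => rw [← h5]
        simp
      · rw [h4]; simp
    · have hsx : σ x = x := (h x h1).resolve_right hx
      have hy : τ⁻¹ x ≠ a := fun e => h3 (by rw [← e]; simp)
      have h4 : σ (τ⁻¹ x) = τ⁻¹ x := by
        refine (h _ hy).resolve_right fun e => hx ?_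
        have h5 : τ⁻¹ x = x := by simpa using e.symm
        conv_lhs => rw [← h5]
        simp
      rw [inv σ _ h4]; simp [hsx]
  rw [← card_support_eq_three_iff]
  have hs : (σ * τ * σ⁻¹ * τ⁻¹).support = {a, σ a, τ a} := by
    ext x
    simp only [mem_support, Finset.mem_insert, Finset.mem_singleton]
    constructor
    · intro hx
      by_contra hn
      push Not at hn
      exact hx (k4 x hn.1 hn.2.1 hn.2.2)
    · rintro (rfl | rfl | rfl)
      · rw [k1]; exact hσ
      · rw [k2]; exact hbd.symm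
      · rw [k3]; exact hτ.symm
  rw [hs, Finset.card_eq_three]
  exact ⟨a, σ a, τ a, hσ.symm, hτ.symm, hbd, rfl⟩

theorem clsj_trans {p : ℕ} (hp : p.Prime) (hn : 2 * p ≤ Fintype.card α)
    {H : Subgroup (Perm α)} (hG : IsPreprimitive H α) {g : Perm α} (hg : g ∈ H)
    (hc : g.IsCycle) (hs : g.support.card = p) : IsMultiplyPretransitive H α p := by
  classical
  have h2 := hp.two_le
  obtain ⟨m, hm⟩ : ∃ m, Fintype.card α = p + (m + 1) := ⟨Fintype.card α - p - 1, by omega⟩
  have hsc : Set.ncard ((g.support)ᶜ : Set α) = m + 1 := by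
    apply Nat.add_left_cancel
    rw [Set.ncard_add_ncard_compl, Set.ncard_coe_finset, hs, Nat.card_eq_fintype_card, hm]
  have hcard : Nat.card α = p + (m + 1) := by rw [Nat.card_eq_fintype_card, hm]
  have h1 : IsMultiplyPreprimitive H α (m + 2) := by
    apply hG.isMultiplyPreprimitive hsc
    · omega
    have := isPretransitive_of_isCycle_mem hc hg
    apply IsPreprimitive.of_prime_card
    convert! hp
    rw [Nat.card_eq_fintype_card, Fintype.card_subtype, ← hs]
    apply congr_arg
    ext x
    simp [SubMulAction.mem_ofFixingSubgroup_iff]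
  have h3 : IsMultiplyPretransitive H α (m + 2) := IsMultiplyPreprimitive.isMultiplyPretransitive ..
  exact isMultiplyPretransitive_of_le (n := m + 2) (by omega) (by omega)

/-- Jordan: primitive, index prime to `p`, degree at least `2 p`. -/
theorem cls_jordan {p : ℕ} (hp : p.Prime) (hn : 2 * p ≤ Fintype.card α)
    (H : Subgroup (Perm α)) (hG : IsPreprimitive H α) (hH : ¬ p ∣ H.index) :
    alternatingGroup α ≤ H := by
  have h2 := hp.two_le
  obtain ⟨g, hg, hc, hs⟩ := clsj_cycle hp (by omega) H hH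
  have ht := clsj_trans hp hn hG hg hc hs
  obtain ⟨a, ha⟩ : g.support.Nonempty := Finset.card_pos.mp (by omega)
  obtain ⟨T, hT, hTc⟩ := Finset.exists_subset_card_eq (s := g.supportᶜ) (n := p - 1)
    (by rw [Finset.card_compl, hs]; omega)
  have haT : a ∉ T := fun h => Finset.mem_compl.mp (hT h) ha
  have hS : (insert a T).card = p := by rw [Finset.card_insert_of_notMem haT, hTc]; omega
  let x : Fin p ↪ α := (Finset.equivFinOfCardEq hs).symm.toEmbedding.trans (Function.Embedding.subtype _)
  let y : Fin p ↪ α := (Finset.equivFinOfCardEq hS).symm.toEmbedding.trans (Function.Embedding.subtype _)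
  obtain ⟨h, hh⟩ := ht.exists_smul_eq x y
  have hxy : ∀ i, (h : Perm α) (x i) = y i := fun i => by
    rw [← hh]; rfl
  have hsub : ((h : Perm α) * g * (h : Perm α)⁻¹).support ⊆ insert a T := by
    intro z hz
    rw [support_conj, Finset.mem_map] at hz
    obtain ⟨w, hw, rfl⟩ := hz
    have : w = x (Finset.equivFinOfCardEq hs ⟨w, hw⟩) := by simp [x]
    rw [this]
    show (h : Perm α) _ ∈ _
    rw [hxy]
    exact ((Finset.equivFinOfCardEq hS).symm _).2
  have heq : ((h : Perm α) * g * (h : Perm α)⁻¹).support = insert a T :=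
    Finset.eq_of_subset_of_card_le hsub (by rw [card_support_conj, hs, hS])
  have hτ : ((h : Perm α) * g * (h : Perm α)⁻¹) a ≠ a := by
    rw [← mem_support, heq]; simp
  have h3 := clsj_three (mem_support.mp ha) hτ (fun z hz => by
    by_cases h1 : z ∈ g.support
    · right
      rw [← notMem_support, heq]
      intro h4
      rcases Finset.mem_insert.mp h4 with h5 | h5
      · exact hz h5
      · exact Finset.mem_compl.mp (hT h5) h1
    · left; exact notMem_support.mp h1)
  have hτH : (h : Perm α) * g * (h : Perm α)⁻¹ ∈ H := H.mul_mem (H.mul_mem h.2 hg) (H.inv_mem h.2)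
  exact alternatingGroup_le_of_isPreprimitive_of_isThreeCycle_mem hG h3
    (H.mul_mem (H.mul_mem (H.mul_mem hg hτH) (H.inv_mem hg)) (H.inv_mem hτH))

end Pool.Agent.Lib.MP_1ae3da_al.CT
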