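import Pool.Agent.Lib.MP_1ae3da_al.C.TA
import Pool.Agent.Lib.MP_1ae3da_al.C.TAd

/-! Stabilisers and conjugation (more in `TAd` and `THm`). -/

namespace Pool.Agent.Lib.MP_1ae3da_al.CT

open Submodule

variable {F A G : Type} [Field F] [Ring A] [Algebra F A] [Group G] {u : G → A}
  {H K : Subgroup G} {a : RingAut A} {b e : A} {x : G}

theorem tb_mono (h : H ≤ K) : span F (Hm F u H) ≤ span F (Hm F u K) :=
  span_mono fun _ ⟨c, hc, y, hy, k⟩ => ⟨c, hc, y, h hy, k⟩

theorem tb_mul (hu : TG F u) (hb : b ∈ span F (Hm F u H)) (he : e ∈ span F (Hm F u H)) :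
    b * e ∈ span F (Hm F u H) := by
  have h := Submodule.mul_mem_mul hb he
  rw [span_mul_span] at h
  refine span_mono ?_ h
  rintro _ ⟨_, ⟨c, hc, y, hy, rfl⟩, _, ⟨d, hd, z, hz, rfl⟩, rfl⟩
  obtain ⟨k, hk, r⟩ := hu.mul y z
  exact ⟨c * d * k, mul_ne_zero (mul_ne_zero hc hd) hk, y * z, mul_mem hy hz, by
    change c • u y * d • u z = _
    rw [smul_mul_smul_comm, r, smul_smul]⟩

theorem le_St (hu : TG F u) (he : e ∈ Cen F (Hm F u H)) : H ≤ St u e := fun _ hx =>
  (mem_St hu (tb_mono le_top he.1)).2 (he.2 _ (tad_mem hx)).symm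

theorem IsAd.cen (hu : TG F u) (ha : IsAd F u x a) (hx : x ∈ H) (hb : b ∈ Cen F (Hm F u H)) :
    a b = b := (ha.fix hu (tb_mono le_top hb.1)).2 (hb.2 _ (tad_mem hx)).symm

theorem tb_ne (hu : TG F u) (x y : G) : u x * u y ≠ 0 := by
  obtain ⟨c, hc, k⟩ := hu.mul x y
  rw [k]
  exact smul_ne_zero hc (hu.ind.ne_zero _)

theorem tb_ex (hu : TG F u) {y : G} (h : x * y = y * x) :
    ∃ c : F, c ≠ 0 ∧ u x * u y = c • (u y * u x) := by
  obtain ⟨c, hc, k⟩ := hu.mul x y
  obtain ⟨d, hd, l⟩ := hu.mul y x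
  exact ⟨c * d⁻¹, mul_ne_zero hc (inv_ne_zero hd), by
    rw [k, l, h, smul_smul, mul_assoc, inv_mul_cancel₀ hd, mul_one]⟩

theorem tb_cmul (hu : TG F u) {x' y : G} {c c' : F} (h : u x * u y = c • (u y * u x))
    (h' : u x' * u y = c' • (u y * u x')) :
    u (x * x') * u y = (c * c') • (u y * u (x * x')) := by
  obtain ⟨d, hd, k⟩ := hu.mul x x'
  refine smul_right_injective A hd ?_
  change d • (_ * _) = d • _ • (_ * _)
  rw [← smul_mul_assoc, ← k, smul_comm, ← mul_smul_comm d, ← k, mul_assoc, h', mul_smul_comm,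
    ← mul_assoc, h, smul_mul_assoc, smul_smul, mul_comm c', mul_assoc]

theorem tb_cpow (hu : TG F u) {y : G} {c : F} (h : u x * u y = c • (u y * u x)) (n : ℕ) :
    u (x ^ n) * u y = c ^ n • (u y * u (x ^ n)) := by
  induction n with
  | zero => rw [pow_zero, pow_zero, one_smul, tad_one_mul hu, tad_mul_one hu]
  | succ n ih => rw [pow_succ, pow_succ]; exact tb_cmul hu ih h

theorem tb_cord (hu : TG F u) {y : G} {c : F} (h : u x * u y = c • (u y * u x)) :
    c ^ orderOf x = 1 := by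
  have k := tb_cpow hu h (orderOf x)
  rw [pow_orderOf_eq_one, tad_one_mul hu, tad_mul_one hu] at k
  exact smul_left_injective F (hu.ind.ne_zero y) (k.symm.trans (one_smul F _).symm)

/-- commuting subgroups, one of them perfect, commute in the twisted group algebra. -/
theorem comm_of_perfect (hu : TG F u) (hH : commutator H = ⊤)
    (hc : ∀ x ∈ H, ∀ y ∈ K, x * y = y * x) : ∀ x ∈ H, ∀ y ∈ K, u x * u y = u y * u x := by
  intro x hx y hy
  choose c h0 h using fun z : H => tb_ex hu (hc z z.2 y hy)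
  let f : H →* Fˣ := MonoidHom.mk' (fun z => Units.mk0 (c z) (h0 z)) fun z w => Units.ext <|
    smul_left_injective F (tb_ne hu y (z * w : H)) ((h (z * w)).symm.trans (tb_cmul hu (h z) (h w)))
  have k : (⟨x, hx⟩ : H) ∈ f.ker := Abelianization.commutator_subset_ker f (hH ▸ trivial)
  have l : c ⟨x, hx⟩ = 1 := congrArg Units.val (MonoidHom.mem_ker.1 k)
  simpa [l] using h ⟨x, hx⟩

/-- commuting elements of coprime orders commute in the twisted group algebra. -/
theorem comm_of_coprime (hu : TG F u) {y : G} (hc : x * y = y * x)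
    (h : (orderOf x).Coprime (orderOf y)) : u x * u y = u y * u x := by
  obtain ⟨c, h0, k⟩ := tb_ex hu hc
  have l : u y * u x = c⁻¹ • (u x * u y) := by rw [k, inv_smul_smul₀ h0]
  have m := tb_cord hu l
  rw [inv_pow, inv_eq_one] at m
  have : c = 1 := orderOf_eq_one_iff.1 (Nat.eq_one_of_dvd_coprimes h
    (orderOf_dvd_of_pow_eq_one (tb_cord hu k)) (orderOf_dvd_of_pow_eq_one m))
  rw [k, this, one_smul]

/-- the twisted group algebra of a cyclic group is commutative. -/
theorem comm_of_cyclic (hu : TG F u) [IsCyclic G] (x y : G) : u x * u y = u y * u x := by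
  obtain ⟨g, hg⟩ := IsCyclic.exists_generator (α := G)
  have key : ∀ z, u g * u z = u z * u g → ∀ w, u w * u z = u z * u w := fun z h w => by
    have m : u z ∈ span F (Hm F u ⊤) := subset_span (tad_mem trivial)
    exact (mem_St hu m).1 (Subgroup.zpowers_le.2 ((mem_St hu m).2 h) (hg w))
  exact key y (key g rfl y).symm x

/-- averaging over `H` lands in the centraliser of `H`. -/
theorem exists_avg [Finite G] (hu : TG F u) (hH : (Nat.card H : F) ≠ 0) :
    ∃ m : A →ₗ[F] A, (∀ b ∈ span F (Hm F u ⊤), (∀ s ∈ Hm F u H, m b * s = s * m b) ∧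
      ((∀ s ∈ Hm F u H, b * s = s * b) → m b = b) ∧
      ∀ z ∈ span F (Hm F u ⊤), (∀ s ∈ Hm F u H, z * s = s * z) →
        m (b * z) = m b * z ∧ m (z * b) = z * m b) ∧
      ∀ K : Subgroup G, H ≤ K → ∀ b ∈ span F (Hm F u K), m b ∈ span F (Hm F u K) := by
  classical
  choose c hc h1 h2 using tad_inv hu
  have hv : ∀ x ∈ H, c x • u x⁻¹ ∈ Hm F u H := fun x hx => ⟨_, hc x, _, inv_mem hx, rfl⟩
  have h3 : ∀ x, u 1 * c x • u x⁻¹ = c x • u x⁻¹ := fun x => by
    rw [mul_smul_comm, tad_one_mul hu]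
  generalize hw : (fun x => c x • u x⁻¹) = v at *
  have hw' : ∀ x, c x • u x⁻¹ = v x := fun x => congrFun hw x
  simp only [hw'] at h1 h2 h3 hv
  have := Fintype.ofFinite H
  let m : A →ₗ[F] A := (Nat.card H : F)⁻¹ •
    ∑ h : H, LinearMap.mulRight F (v h) ∘ₗ LinearMap.mulLeft F (u h)
  have hm : ∀ b, m b = (Nat.card H : F)⁻¹ • ∑ h : H, u h * b * v h := fun b => by
    simp [m, LinearMap.sum_apply]
  refine ⟨m, fun b hb => ⟨?_, fun k => ?_, fun z _ k => ⟨?_, ?_⟩⟩, fun K hK b hb => ?_⟩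
  · rintro _ ⟨d, -, x, hx, rfl⟩
    rw [hm, mul_smul_comm, smul_mul_assoc d, smul_mul_assoc, mul_smul_comm, Finset.sum_mul,
      Finset.mul_sum, ← Equiv.sum_comp (Equiv.mulLeft (⟨x, hx⟩ : H))]
    congr 2
    refine Finset.sum_congr rfl fun h _ => ?_
    obtain ⟨k, -, r⟩ := hu.mul x h
    have s : v (x * h) * u x = k • v h := by
      rw [← tad_mul_one hu x, ← h1 h, ← mul_assoc (u x), r, ← mul_assoc, mul_smul_comm, h2,
        smul_mul_assoc, h3]
    change u (x * h) * b * v (x * h) * u x = _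
    rw [mul_assoc _ (v _), s, ← mul_assoc, ← mul_assoc, r, mul_smul_comm, smul_mul_assoc,
      smul_mul_assoc]
  · rw [hm, Finset.sum_congr rfl fun (h : H) _ => show u h * b * v h = b by
      rw [← k _ (tad_mem h.2), mul_assoc, h1, (tad_span hu hb).2]]
    rw [Finset.sum_const, Finset.card_univ, ← Nat.card_eq_fintype_card, ← Nat.cast_smul_eq_nsmul F,
      inv_smul_smul₀ hH]
  · rw [hm, hm, smul_mul_assoc, Finset.sum_mul]
    congr 1
    refine Finset.sum_congr rfl fun h _ => ?_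
    rw [mul_assoc _ (v _), ← k _ (hv _ h.2)]
    simp only [mul_assoc]
  · rw [hm, hm, mul_smul_comm, Finset.mul_sum]
    congr 1
    refine Finset.sum_congr rfl fun h _ => ?_
    rw [← mul_assoc, ← k _ (tad_mem h.2)]
    simp only [mul_assoc]
  · rw [hm]
    exact smul_mem _ _ (sum_mem fun h _ => tb_mul hu (tb_mul hu (subset_span (tad_mem (hK h.2))) hb)
      (tb_mono hK (subset_span (hv _ h.2))))

end Pool.Agent.Lib.MP_1ae3da_al.CT
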