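import Pool.Agent.Lib.MP_1ae3da_al.C.TB

/-! Transport along semilinear automorphisms. -/

namespace Pool.Agent.Lib.MP_1ae3da_al.CT

open Submodule

variable {F A G : Type} [Field F] [Ring A] [Algebra F A] [Group G] {u : G → A}
  {σ : RingAut F} {γ a : RingAut A} {S L : Set A} {b e w : A} {GG : Subgroup (RingAut F)}

theorem tc_ia (γ : RingAut A) (b : A) : γ⁻¹ (γ b) = b := γ.symm_apply_apply b
theorem tc_ai (γ : RingAut A) (b : A) : γ (γ⁻¹ b) = b := γ.apply_symm_apply b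
theorem tc_img (γ : RingAut A) (S : Set A) : ⇑(γ⁻¹) '' (γ '' S) = S := by
  rw [Set.image_image]; simp only [tc_ia, Set.image_id']
theorem tc_mem : γ b ∈ γ '' S ↔ b ∈ S := γ.injective.mem_set_image
theorem tc_conj (γ a : RingAut A) (b : A) : (γ * a * γ⁻¹) (γ b) = γ (a b) :=
  congrArg (fun x => γ (a x)) (tc_ia γ b)

theorem tc_u (x : G) : u x ∈ Hm F u ⊤ := ⟨1, one_ne_zero, x, trivial, (one_smul F _).symm⟩

theorem stb_image : γ ∈ Stb S ↔ γ '' S = S := by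
  refine ⟨fun h => Set.ext fun x => ?_, fun h x => ?_⟩
  · obtain ⟨y, rfl⟩ := γ.surjective x
    exact tc_mem.trans (h y).symm
  · conv_lhs => rw [← h]
    exact tc_mem
theorem lin_iff_sl : Lin F γ ↔ SL F 1 γ := Iff.rfl
theorem Lin.one : Lin F (1 : RingAut A) := fun _ _ => rfl
theorem SL.mul {τ : RingAut F} (h : SL F σ γ) (h' : SL F τ a) : SL F (σ * τ) (γ * a) :=
  fun c x => (congrArg γ (h' c x)).trans (h _ _)
theorem SL.inv (h : SL F σ γ) : SL F σ⁻¹ γ⁻¹ := fun c x => γ.injective (by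
  rw [h, tc_ai, tc_ai, tc_ai])
theorem Lin.mul (h : Lin F γ) (ha : Lin F a) : Lin F (γ * a) :=
  fun c x => (congrArg γ (ha c x)).trans (h _ _)
theorem Lin.inv (h : Lin F γ) : Lin F γ⁻¹ := fun c x => γ.injective (by rw [h, tc_ai, tc_ai])
theorem SL.unique [Nontrivial A] {τ : RingAut F} (h : SL F σ γ) (h' : SL F τ γ) : σ = τ :=
  RingEquiv.ext fun c => by
    have := (h c 1).symm.trans (h' c 1)
    rw [map_one] at this
    exact smul_left_injective F one_ne_zero this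
theorem SL.lin (h : SL F σ γ) (ha : Lin F a) : Lin F (γ * a * γ⁻¹) := fun c x => by
  obtain ⟨y, rfl⟩ := γ.surjective x
  obtain ⟨d, rfl⟩ := σ.surjective c
  rw [← h, tc_conj, tc_conj, ha, h]

theorem tc_span (h : SL F σ γ) (hb : b ∈ span F S) : γ b ∈ span F (γ '' S) := by
  induction hb using span_induction with
  | mem x k => exact subset_span ⟨x, k, rfl⟩
  | zero => rw [map_zero]; exact zero_mem _
  | add x y _ _ p q => rw [map_add]; exact add_mem p q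
  | smul c x _ p => rw [h]; exact smul_mem _ _ p

theorem SL.mem_span (h : SL F σ γ) : γ b ∈ span F (γ '' S) ↔ b ∈ span F S :=
  ⟨fun k => by simpa only [tc_ia, tc_img] using tc_span h.inv k, tc_span h⟩
theorem SL.cen (h : SL F σ γ) : γ b ∈ Cen F (γ '' S) ↔ b ∈ Cen F S :=
  and_congr h.mem_span (by
    rw [Set.forall_mem_image]
    exact forall₂_congr fun s _ => by rw [← map_mul, ← map_mul, γ.injective.eq_iff])

theorem tc_irr (h : SL F σ γ) (he : e ∈ Irr F S) : γ e ∈ Irr F (γ '' S) := by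
  refine ⟨h.cen.2 he.1, by rw [← map_mul, he.2.1], (map_ne_zero_iff γ γ.injective).2 he.2.2.1,
    fun z hz => ?_⟩
  obtain ⟨y, rfl⟩ := γ.surjective z
  obtain ⟨c, hc⟩ := he.2.2.2 y (h.cen.1 hz)
  exact ⟨σ c, by rw [← map_mul, hc, h]⟩

theorem SL.irr (h : SL F σ γ) : γ e ∈ Irr F (γ '' S) ↔ e ∈ Irr F S :=
  ⟨fun k => by simpa only [tc_ia, tc_img] using tc_irr h.inv k, tc_irr h⟩

theorem tc_rank (h : SL F σ γ) {V W : Submodule F A} (k : ∀ b, γ b ∈ W ↔ b ∈ V) :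
    Module.finrank F W = Module.finrank F V := by
  let j : V ≃+ W :=
    { toFun := fun x => ⟨γ x, (k _).2 x.2⟩
      invFun := fun y => ⟨γ⁻¹ y, (k _).1 ((tc_ai γ y).symm ▸ y.2)⟩
      left_inv := fun x => Subtype.ext (tc_ia γ x)
      right_inv := fun y => Subtype.ext (tc_ai γ y)
      map_add' := fun x y => Subtype.ext (map_add γ _ _) }
  exact congrArg Cardinal.toNat
    (rank_eq_of_equiv_equiv σ j σ.bijective fun c x => Subtype.ext (h c x)).symm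

theorem SL.dgr (h : SL F σ γ) : Dg F (γ '' S) (γ e) = Dg F S e := by
  refine tc_rank h fun b => ⟨?_, ?_⟩
  · rintro ⟨x, hx, k⟩
    obtain ⟨y, rfl⟩ := γ.surjective x
    exact ⟨y, h.mem_span.1 hx, γ.injective ((map_mul γ y e).trans k)⟩
  · rintro ⟨x, hx, rfl⟩
    exact ⟨γ x, h.mem_span.2 hx, (map_mul γ x e).symm⟩
theorem SL.irrP (h : SL F σ γ) {p : ℕ} : γ e ∈ IrrP F p (γ '' S) ↔ e ∈ IrrP F p S :=
  and_congr h.irr (by rw [h.dgr])
theorem SL.ln (h : SL F σ γ) (hw : w ∈ Ln F S e a) :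
    γ w ∈ Ln F (γ '' S) (γ e) (γ * a * γ⁻¹) := by
  refine ⟨h.mem_span.2 hw.1, by rw [← map_mul, hw.2.1], (map_ne_zero_iff γ γ.injective).2 hw.2.2.1,
    ?_⟩
  rintro _ ⟨x, hx, rfl⟩
  rw [tc_conj, ← map_mul, ← map_mul, hw.2.2.2 x hx]
theorem SL.prim (h : SL F σ γ) (hw : Prim F S e w) : Prim F (γ '' S) (γ e) (γ w) := by
  refine ⟨h.mem_span.2 hw.1, by rw [← map_mul, hw.2.1], by rw [← map_mul, hw.2.2.1],
    (map_ne_zero_iff γ γ.injective).2 hw.2.2.2.1, fun z hz => ?_⟩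
  obtain ⟨y, rfl⟩ := γ.surjective z
  obtain ⟨c, hc⟩ := hw.2.2.2.2 y (h.mem_span.1 hz)
  exact ⟨σ c, by rw [← map_mul, ← map_mul, hc, h]⟩

theorem tc_cz (h : SL F σ γ) (hb : b ∈ Cz F S L e) : γ b ∈ Cz F (γ '' S) (γ '' L) (γ e) := by
  obtain ⟨h0, ⟨t, ht, w, hw, k⟩, hc⟩ := hb
  refine ⟨(map_ne_zero_iff γ γ.injective).2 h0,
    ⟨γ t, ⟨t, ht, rfl⟩, γ w, h.mem_span.2 hw, by rw [k, map_mul, map_mul]⟩, ?_⟩
  rintro _ ⟨x, hx, rfl⟩
  rw [← map_mul, ← map_mul, hc x hx]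

theorem SL.cz (h : SL F σ γ) : γ '' Cz F S L e = Cz F (γ '' S) (γ '' L) (γ e) := by
  refine Set.Subset.antisymm (Set.image_subset_iff.2 fun _ k => tc_cz h k) fun x k => ?_
  exact ⟨γ⁻¹ x, by simpa only [tc_ia, tc_img] using tc_cz h.inv k, tc_ai γ x⟩
theorem SL.tg (h : SL F σ γ) (hu : TG F u) : TG F (fun x => γ (u x)) := by
  refine ⟨fun x y => ?_, hu.ind.map_of_surjective_injectiveₛ σ (γ : A →+ A) σ.surjective
    γ.injective h, by rw [← map_mul, hu.one]⟩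
  obtain ⟨c, c0, k⟩ := hu.mul x y
  exact ⟨σ c, (map_ne_zero σ).2 c0, by rw [← map_mul, k, h]⟩

theorem tc_Hm (h : SL F σ γ) (H : Subgroup G) :
    γ '' Hm F u H = Hm F (fun x => γ (u x)) H := by
  ext z
  constructor
  · rintro ⟨_, ⟨c, c0, x, hx, rfl⟩, rfl⟩
    exact ⟨σ c, (map_ne_zero σ).2 c0, x, hx, h _ _⟩
  · rintro ⟨c, c0, x, hx, rfl⟩
    obtain ⟨d, rfl⟩ := σ.surjective c
    exact ⟨_, ⟨d, (map_ne_zero σ).1 c0, x, hx, rfl⟩, h _ _⟩

theorem SL.nice (h : SL F σ γ) (hS : Nice F S) : Nice F (γ '' S) := by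
  obtain ⟨G, _, _, u, hu, hc, rfl⟩ := hS
  exact ⟨G, _, ‹_›, _, h.tg hu, hc, tc_Hm h ⊤⟩
theorem span_stb (hγ : γ ∈ SG GG A) (hS : γ ∈ Stb S) : γ b ∈ span F S ↔ b ∈ span F S := by
  obtain ⟨σ, -, h⟩ := hγ
  simpa only [stb_image.1 hS] using h.mem_span (S := S)
theorem cen_stb (hγ : γ ∈ SG GG A) (hS : γ ∈ Stb S) : γ b ∈ Cen F S ↔ b ∈ Cen F S := by
  obtain ⟨σ, -, h⟩ := hγ
  simpa only [stb_image.1 hS] using h.cen (S := S)
theorem irr_stb (hγ : γ ∈ SG GG A) (hS : γ ∈ Stb S) : γ e ∈ Irr F S ↔ e ∈ Irr F S := by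
  obtain ⟨σ, -, h⟩ := hγ
  simpa only [stb_image.1 hS] using h.irr (S := S)
theorem dg_stb (hγ : γ ∈ SG GG A) (hS : γ ∈ Stb S) : Dg F S (γ e) = Dg F S e := by
  obtain ⟨σ, -, h⟩ := hγ
  simpa only [stb_image.1 hS] using h.dgr (S := S)
theorem irrP_stb (hγ : γ ∈ SG GG A) (hS : γ ∈ Stb S) {p : ℕ} :
    γ e ∈ IrrP F p S ↔ e ∈ IrrP F p S := by
  obtain ⟨σ, -, h⟩ := hγ
  simpa only [stb_image.1 hS] using h.irrP (S := S)
theorem ln_stb (hγ : γ ∈ SG GG A) (hS : γ ∈ Stb S) (hw : w ∈ Ln F S e a) :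
    γ w ∈ Ln F S (γ e) (γ * a * γ⁻¹) := by
  obtain ⟨σ, -, h⟩ := hγ
  simpa only [stb_image.1 hS] using h.ln hw
theorem cz_stb (hγ : γ ∈ SG GG A) (hS : γ ∈ Stb S) (hL : γ ∈ Stb L) (he : γ e = e) :
    γ ∈ Stb (Cz F S L e) := by
  obtain ⟨σ, -, h⟩ := hγ
  rw [stb_image, h.cz, stb_image.1 hS, stb_image.1 hL, he]
/-- the automorphism of `G` induced by `γ`. -/
theorem exists_aut (hu : TG F u) (h : SL F σ γ) (hγ : γ ∈ Stb (Hm F u ⊤)) :
    ∃ φ : MulAut G, ∀ x, ∃ c : F, c ≠ 0 ∧ γ (u x) = c • u (φ x) := by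
  have ex : ∀ x, ∃ (c : F) (y : G), c ≠ 0 ∧ γ (u x) = c • u y := fun x => by
    obtain ⟨c, c0, y, -, k⟩ := (hγ (u x)).2 (tc_u x)
    exact ⟨c, y, c0, k⟩
  choose c f c0 hf using ex
  have mul : ∀ x y, f (x * y) = f x * f y := fun x y => by
    obtain ⟨d, d0, k⟩ := (h.tg hu).mul x y
    obtain ⟨d', -, k'⟩ := hu.mul (f x) (f y)
    simp only [hf] at k
    rw [smul_mul_smul_comm, k', smul_smul, smul_smul] at k
    exact (hu.eq_of_smul (mul_ne_zero d0 (c0 _)) k.symm).1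
  have inj : Function.Injective f := fun x y k =>
    ((h.tg hu).eq_of_smul (c := c y) (d := c x) (c0 y) (by
      simp only [hf, k, smul_smul, mul_comm])).1
  have sur : Function.Surjective f := fun y => by
    obtain ⟨d, -, x, -, k⟩ := (hγ (γ⁻¹ (u y))).1
      ((tc_ai γ (u y)).symm ▸ tc_u y)
    have k' := congrArg γ k
    rw [tc_ai, h, hf, smul_smul] at k'
    exact ⟨x, (hu.eq_of_smul one_ne_zero ((one_smul F _).trans k')).1.symm⟩
  exact ⟨MulEquiv.ofBijective (MonoidHom.mk' f mul) ⟨inj, sur⟩, fun x => ⟨c x, c0 x, hf x⟩⟩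
theorem stb_Hm (hu : TG F u) (h : SL F σ γ) {φ : MulAut G}
    (hφ : ∀ x, ∃ c : F, c ≠ 0 ∧ γ (u x) = c • u (φ x)) (H : Subgroup G) :
    γ ∈ Stb (Hm F u H) ↔ H.map φ.toMonoidHom = H := by
  rw [stb_image, image_Hm h hφ]
  exact ⟨Hm_inj hu, congrArg _⟩
theorem St_map (hu : TG F u) (h : SL F σ γ) {φ : MulAut G}
    (hφ : ∀ x, ∃ c : F, c ≠ 0 ∧ γ (u x) = c • u (φ x)) (he : e ∈ span F (Hm F u ⊤)) :
    St u (γ e) = (St u e).map φ.toMonoidHom := by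
  have he' : γ e ∈ span F (Hm F u ⊤) := by
    have := h.mem_span.2 he
    rwa [image_Hm h hφ, Subgroup.map_top_of_surjective _ φ.surjective] at this
  ext x
  obtain ⟨y, rfl⟩ := φ.surjective x
  obtain ⟨c, c0, k⟩ := hφ y
  refine Iff.trans ?_ (Subgroup.mem_map_iff_mem (f := φ.toMonoidHom) φ.injective).symm
  rw [mem_St hu he', mem_St hu he, ← γ.injective.eq_iff (a := u y * e), map_mul, map_mul, k,
    smul_mul_assoc, mul_smul_comm, (smul_right_injective A c0).eq_iff]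
theorem map_one_u (hu : TG F u) (hγ : γ ∈ Stb (Hm F u ⊤)) : γ (u 1) = u 1 := by
  obtain ⟨c, c0, x, -, k⟩ := (hγ (u 1)).2 (tc_u 1)
  have e := congrArg γ hu.one
  obtain ⟨d, -, q⟩ := hu.mul x x
  rw [map_mul, k, smul_mul_smul_comm] at e
  have x1 : x = 1 := by
    rw [q, smul_smul] at e
    exact left_eq_mul.1 (hu.eq_of_smul c0 e.symm).1
  rw [x1, hu.one] at e
  rw [k, x1, (left_eq_mul₀ c0).1 (hu.eq_of_smul c0 e.symm).2, one_smul]
theorem Tf.nat (hu : TG F u) {t : A →ₗ[F] F} (ht : Tf F u t) (h : SL F σ γ)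
    (hγ : γ ∈ Stb (Hm F u ⊤)) (hb : b ∈ span F (Hm F u ⊤)) : t (γ b) = σ (t b) := by
  obtain ⟨φ, hφ⟩ := exists_aut hu h hγ
  induction hb using span_induction with
  | mem z k =>
    obtain ⟨c, -, x, -, rfl⟩ := k
    rw [h, map_smul, map_smul, smul_eq_mul, smul_eq_mul, map_mul]
    congr 1
    by_cases hx : x = 1
    · rw [hx, map_one_u hu hγ, ht.1, map_one]
    · obtain ⟨d, -, k⟩ := hφ x
      rw [k, map_smul, ht.2 x hx, ht.2 _ ((map_ne_one_iff φ φ.injective).2 hx), smul_zero, map_zero]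
  | zero => simp only [map_zero]
  | add x y _ _ p q => simp only [map_add, p, q]
  | smul c x _ p => rw [h, map_smul, map_smul, p, smul_eq_mul, smul_eq_mul, map_mul]
/-- a subgroup invariant under the automorphisms fixing `P` is stable. -/
theorem stb_of_inv (hu : TG F u) {P T : Subgroup G}
    (h : ∀ φ : MulAut G, P.map φ.toMonoidHom = P → T.map φ.toMonoidHom = T) :
    SG GG A ⊓ Stb (Hm F u ⊤) ⊓ Stb (Hm F u P) ≤ Stb (Hm F u T) := by
  rintro γ ⟨⟨⟨σ, -, k⟩, h0⟩, h1⟩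
  obtain ⟨φ, hφ⟩ := exists_aut hu k h0
  exact (stb_Hm hu k hφ T).2 (h φ ((stb_Hm hu k hφ P).1 h1))
theorem stb_char (hu : TG F u) (T : Subgroup G) [T.Characteristic] :
    SG GG A ⊓ Stb (Hm F u ⊤) ≤ Stb (Hm F u T) := by
  rintro γ ⟨⟨σ, -, k⟩, h0⟩
  obtain ⟨φ, hφ⟩ := exists_aut hu k h0
  exact (stb_Hm hu k hφ T).2 (Subgroup.characteristic_iff_map_eq.1 ‹_› φ)

theorem tc_inf (hu : TG F u) {H K : Subgroup G} :
    b ∈ Hm F u (H ⊓ K) ↔ b ∈ Hm F u H ∧ b ∈ Hm F u K := by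
  refine ⟨fun k => ⟨Hm_mono inf_le_left k, Hm_mono inf_le_right k⟩, ?_⟩
  rintro ⟨⟨c, c0, x, hx, rfl⟩, d, -, y, hy, k⟩
  exact ⟨c, c0, x, ⟨hx, (hu.eq_of_smul c0 k).1 ▸ hy⟩, rfl⟩

theorem stb_inf (hu : TG F u) {H K : Subgroup G} (h1 : γ ∈ Stb (Hm F u H))
    (h2 : γ ∈ Stb (Hm F u K)) : γ ∈ Stb (Hm F u (H ⊓ K)) := fun x => by
  rw [tc_inf hu, tc_inf hu, h1 x, h2 x]
theorem stb_St (hu : TG F u) (hγ : γ ∈ SG GG A) (h0 : γ ∈ Stb (Hm F u ⊤))
    (he : e ∈ span F (Hm F u ⊤)) (h : γ e = e) : γ ∈ Stb (Hm F u (St u e)) := by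
  obtain ⟨σ, -, k⟩ := hγ
  obtain ⟨φ, hφ⟩ := exists_aut hu k h0
  rw [stb_Hm hu k hφ, ← St_map hu k hφ he, h]

end Pool.Agent.Lib.MP_1ae3da_al.CT
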