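import Pool.Agent.Lib.MP_1ae3da_al.C.TF

/-! Blocks over an invariant block. -/

namespace Pool.Agent.Lib.MP_1ae3da_al.CT

open Submodule

variable {F A G : Type} [Field F] [Ring A] [Algebra F A] [Group G] {u : G → A}
  {L H : Subgroup G} {e f : A}

theorem tg2_fam [IsAlgClosed F] [CharZero F] [Finite G] (hu : TG F u) (hLH : L ≤ H)
    (hn : H ≤ Subgroup.normalizer (L : Set G)) (he : e ∈ Irr F (Hm F u L)) (hH : H ≤ St u e) :
    ∃ (Q : Type) (_ : Group Q) (_ : Finite Q) (v : Q → A) (π : H → Q), TG F v ∧ v 1 = e ∧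
      Function.Surjective π ∧ (∀ x : H, π x = 1 ↔ (x : G) ∈ L) ∧
      Nat.card H = Nat.card Q * Nat.card L ∧
      (∀ x : H, ∃ w ∈ span F (Hm F u L), ∃ w' ∈ span F (Hm F u L),
        w * v (π x) = e * u x ∧ v (π x) = w' * e * u x) ∧
      Cz F (Hm F u H) (Hm F u L) e = Hm F v ⊤ := by
  have := (Subgroup.normal_subgroupOf_iff_le_normalizer hLH).2 hn
  obtain ⟨v, hv, h1, h2, h3⟩ := cz_family hu (Nat.cast_ne_zero.2 Nat.card_pos.ne') hLH he hH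
  refine ⟨_, _, inferInstance, v, QuotientGroup.mk, hv, h1, QuotientGroup.mk_surjective,
    fun x => QuotientGroup.eq_one_iff x, ?_, h2, ?_⟩
  · rw [Subgroup.card_eq_card_quotient_mul_card_subgroup (L.subgroupOf H),
      Nat.card_congr (Subgroup.subgroupOfEquivOfLe hLH).toEquiv]
  · rw [h3 H hLH le_rfl, Subgroup.subgroupOf_self,
      Subgroup.map_top_of_surjective _ (QuotientGroup.mk'_surjective _)]

theorem tg2_comm {S : Set A} {z a : A} (h : ∀ s ∈ S, z * s = s * z) (ha : a ∈ span F S) :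
    z * a = a * z :=
  span_ind (f := fun a => z * a) (g := fun a => a * z) ⟨LinearMap.mulLeft F z, fun _ => rfl⟩
    ⟨LinearMap.mulRight F z, fun _ => rfl⟩ h ha

theorem tg2_cen (hu : TG F u) (hLH : L ≤ H) (he : e ∈ Irr F (Hm F u L)) (hH : H ≤ St u e) :
    e ∈ Cen F (Hm F u H) := by
  refine ⟨span_mono (Hm_mono hLH) he.1.1, ?_⟩
  rintro _ ⟨c, -, x, hx, rfl⟩
  rw [mul_smul_comm, smul_mul_assoc, (mem_St hu (span_mono (Hm_mono le_top) he.1.1)).1 (hH hx)]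

theorem tg2_to (hu : TG F u) (hLH : L ≤ H) (he : e ∈ Irr F (Hm F u L)) (hH : H ≤ St u e)
    (hf : f ∈ span F (Cz F (Hm F u H) (Hm F u L) e)) :
    f ∈ span F (Hm F u H) ∧ f * e = f ∧ ∀ s ∈ Hm F u L, f * s = s * f := by
  have c := tg2_cen hu hLH he hH
  induction hf using span_induction with
  | mem z hz =>
    obtain ⟨-, ⟨t, ht, w, hw, rfl⟩, k⟩ := hz
    exact ⟨span_mul hu (span_mul hu (span_mono (Hm_mono hLH) hw) c.1) (subset_span ht),
      by rw [mul_assoc, ← c.2 t ht, ← mul_assoc, mul_assoc w, he.2.1], k⟩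
  | zero => exact ⟨zero_mem _, zero_mul _, fun s _ => by rw [zero_mul, mul_zero]⟩
  | add a b _ _ ha hb =>
    exact ⟨add_mem ha.1 hb.1, by rw [add_mul, ha.2.1, hb.2.1],
      fun s hs => by rw [add_mul, mul_add, ha.2.2 s hs, hb.2.2 s hs]⟩
  | smul r a _ ha =>
    exact ⟨smul_mem _ r ha.1, by rw [smul_mul_assoc, ha.2.1],
      fun s hs => by rw [smul_mul_assoc, mul_smul_comm, ha.2.2 s hs]⟩

theorem cz_nice [IsAlgClosed F] [CharZero F] [Finite G] (hu : TG F u) (hLH : L ≤ H)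
    (hn : H ≤ Subgroup.normalizer (L : Set G)) (he : e ∈ Irr F (Hm F u L)) (hH : H ≤ St u e) :
    Nice F (Cz F (Hm F u H) (Hm F u L) e) := by
  obtain ⟨Q, _, _, v, π, hv, -, -, -, -, -, h⟩ := tg2_fam hu hLH hn he hH
  exact ⟨Q, _, inferInstance, v, hv, Nat.cast_ne_zero.2 Nat.card_pos.ne', h⟩
/-- hint: average over `L` (`exists_avg`). -/
theorem cz_span [IsAlgClosed F] [CharZero F] [Finite G] (hu : TG F u) (hLH : L ≤ H)
    (hn : H ≤ Subgroup.normalizer (L : Set G)) (he : e ∈ Irr F (Hm F u L)) (hH : H ≤ St u e) :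
    f ∈ span F (Cz F (Hm F u H) (Hm F u L) e) ↔
      f ∈ span F (Hm F u H) ∧ f * e = f ∧ ∀ s ∈ Hm F u L, f * s = s * f := by
  refine ⟨tg2_to hu hLH he hH, fun ⟨h1, h2, h3⟩ => ?_⟩
  obtain ⟨Q, _, _, v, π, hv, v1, -, -, -, hw, h⟩ := tg2_fam hu hLH hn he hH
  obtain ⟨m, m1, m2⟩ := exists_avg (H := L) hu (Nat.cast_ne_zero.2 Nat.card_pos.ne')
  have top : ∀ {K : Subgroup G} {a : A}, a ∈ span F (Hm F u K) → a ∈ span F (Hm F u ⊤) :=
    fun ha => span_mono (Hm_mono le_top) ha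
  have key : span F (Hm F u H) ≤
      (span F (Cz F (Hm F u H) (Hm F u L) e)).comap (m ∘ₗ LinearMap.mulLeft F e) := by
    refine span_le.2 ?_
    rintro _ ⟨c, -, x, hx, rfl⟩
    refine smul_mem _ c ?_
    obtain ⟨w, w1, -, -, w2, -⟩ := hw ⟨x, hx⟩
    have z : v (π ⟨x, hx⟩) ∈ Cz F (Hm F u H) (Hm F u L) e := h ▸ u_mem_Hm trivial
    obtain ⟨d, hd⟩ := he.2.2.2 (m w) ⟨m2 L le_rfl w w1, (m1 w (top w1)).1⟩
    show m (e * u x) ∈ span F _
    rw [← w2, ((m1 w (top w1)).2.2 _ (top (tg2_to hu hLH he hH (subset_span z)).1) z.2.2).1,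
      ← hv.one_mul (π ⟨x, hx⟩), v1, ← mul_assoc, hd, smul_mul_assoc, ← v1, hv.one_mul, v1]
    exact smul_mem _ d (subset_span z)
  have k : m (e * f) ∈ span F (Cz F (Hm F u H) (Hm F u L) e) := key h1
  rwa [← tg2_comm h3 he.1.1, h2, (m1 f (top h1)).2.1 h3] at k

theorem tg2_cen_iff [IsAlgClosed F] [CharZero F] [Finite G] (hu : TG F u) (hLH : L ≤ H)
    (hn : H ≤ Subgroup.normalizer (L : Set G)) (he : e ∈ Irr F (Hm F u L)) (hH : H ≤ St u e) :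
    f ∈ Cen F (Cz F (Hm F u H) (Hm F u L) e) ↔ f ∈ Cen F (Hm F u H) ∧ f * e = f := by
  constructor
  · rintro ⟨h1, h2⟩
    obtain ⟨k1, k2, k3⟩ := tg2_to hu hLH he hH h1
    obtain ⟨Q, _, _, v, π, -, -, -, -, -, hw, h⟩ := tg2_fam hu hLH hn he hH
    refine ⟨⟨k1, ?_⟩, k2⟩
    rintro _ ⟨c, -, x, hx, rfl⟩
    obtain ⟨w, w1, -, -, w2, -⟩ := hw ⟨x, hx⟩
    have z : v (π ⟨x, hx⟩) ∈ Cz F (Hm F u H) (Hm F u L) e := h ▸ u_mem_Hm trivial
    have k : f * (e * u x) = e * u x * f := by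
      rw [← w2, ← mul_assoc, tg2_comm k3 w1, mul_assoc, h2 _ z, mul_assoc]
    rw [← mul_assoc, k2, (tg2_cen hu hLH he hH).2 _ (u_mem_Hm hx), mul_assoc,
      ← tg2_comm k3 he.1.1, k2] at k
    rw [mul_smul_comm, smul_mul_assoc, k]
  · rintro ⟨h1, h2⟩
    exact ⟨(cz_span hu hLH hn he hH).2 ⟨h1.1, h2, fun s hs => h1.2 s (Hm_mono hLH hs)⟩,
      fun s hs => Cen_comm h1 (tg2_to hu hLH he hH (subset_span hs)).1⟩

theorem cz_irr [IsAlgClosed F] [CharZero F] [Finite G] (hu : TG F u) (hLH : L ≤ H)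
    (hn : H ≤ Subgroup.normalizer (L : Set G)) (he : e ∈ Irr F (Hm F u L)) (hH : H ≤ St u e) :
    f ∈ Irr F (Cz F (Hm F u H) (Hm F u L) e) ↔ f ∈ Irr F (Hm F u H) ∧ f * e = f := by
  have c := tg2_cen hu hLH he hH
  constructor
  · rintro ⟨h1, h2, h3, h4⟩
    obtain ⟨k1, k2⟩ := (tg2_cen_iff hu hLH hn he hH).1 h1
    refine ⟨⟨k1, h2, h3, fun z hz => ?_⟩, k2⟩
    obtain ⟨d, hd⟩ := h4 (z * e) ((tg2_cen_iff hu hLH hn he hH).2
      ⟨(nice_Hm0 hu H).cen_mul hz c, by rw [mul_assoc, he.2.1]⟩)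
    exact ⟨d, by rwa [mul_assoc, ← Cen_comm k1 c.1, k2] at hd⟩
  · rintro ⟨⟨h1, h2, h3, h4⟩, k⟩
    exact ⟨(tg2_cen_iff hu hLH hn he hH).2 ⟨h1, k⟩, h2, h3,
      fun z hz => h4 z ((tg2_cen_iff hu hLH hn he hH).1 hz).1⟩

theorem tg2_off (hu : TG F u) {t : A →ₗ[F] F} (ht : Tf F u t) {x : G} (hx : x ∉ L) {w : A}
    (hw : w ∈ span F (Hm F u L)) : t (w * u x) = 0 := by
  have key : span F (Hm F u L) ≤ LinearMap.ker (t ∘ₗ LinearMap.mulRight F (u x)) := by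
    refine span_le.2 ?_
    rintro _ ⟨c, -, y, hy, rfl⟩
    refine smul_mem _ c ?_
    obtain ⟨d, -, hd⟩ := hu.mul y x
    have n : y * x ≠ 1 := fun h =>
      hx ((L.mul_mem_cancel_left hy).1 (by rw [h]; exact one_mem L))
    show t (u y * u x) = 0
    rw [hd, map_smul, ht.2 _ n, smul_zero]
  exact key hw

/-- hint: `Dg_eq` three times; on the span of `Cz` one has `t = t e * t'`. -/
theorem cz_dg [IsAlgClosed F] [CharZero F] [Finite G] (hu : TG F u) (hLH : L ≤ H)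
    (hn : H ≤ Subgroup.normalizer (L : Set G)) (he : e ∈ Irr F (Hm F u L)) (hH : H ≤ St u e)
    (hf : f ∈ Irr F (Cz F (Hm F u H) (Hm F u L) e)) :
    Dg F (Hm F u H) f = Dg F (Hm F u L) e * Dg F (Cz F (Hm F u H) (Hm F u L) e) f := by
  obtain ⟨Q, _, _, v, π, hv, v1, sj, k1, cd, hw, h⟩ := tg2_fam hu hLH hn he hH
  obtain ⟨t, ht⟩ := exists_Tf hu
  obtain ⟨t', ht'⟩ := exists_Tf hv
  have f1 := (tg2_to hu hLH he hH hf.1.1).1
  have f2 : f ∈ span F (Hm F v ⊤) := h ▸ hf.1.1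
  have key : span F (Hm F v ⊤) ≤ LinearMap.eqLocus t (t e • t') := by
    refine span_le.2 ?_
    rintro _ ⟨c, -, q, -, rfl⟩
    refine smul_mem _ c ?_
    show t (v q) = t e • t' (v q)
    by_cases hq : q = 1
    · rw [hq, ht'.1, v1, smul_eq_mul, mul_one]
    · obtain ⟨x, rfl⟩ := sj q
      obtain ⟨-, -, w, w1, -, w2⟩ := hw x
      rw [ht'.2 _ hq, w2, tg2_off hu ht (fun m => hq ((k1 x).2 m)) (span_mul hu w1 he.1.1),
        smul_zero]
  have k : t f = t e * t' f := key f2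
  apply Nat.cast_injective (R := F)
  rw [Nat.cast_mul, h, Dg_eq hu ht f1 hf.2.1, Dg_eq hu ht he.1.1 he.2.1, Dg_eq hv ht' f2 hf.2.1,
    Subgroup.card_top, cd, k]
  push_cast
  ring

end Pool.Agent.Lib.MP_1ae3da_al.CT
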