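import Pool.Agent.Lib.MP_1ae3da_al.C.TTr

/-! Equivariant choice, gluing of equivariant bijections, transport of links. -/

namespace Pool.Agent.Lib.MP_1ae3da_al.CT

open Submodule

/-- Equivariant choice: data fixed by the stabilisers extend to an equivariant family. -/
theorem tgl_rel {Γ Z D : Type*} [Group Γ] [MulAction Γ Z] (t : Γ → D → D)
    (E : Z → D → D → Prop) (P : Z → D → Prop)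
    (hE : ∀ γ z a b, E z a b → E (γ • z) (t γ a) (t γ b))
    (mul : ∀ γ δ a, t γ (t δ a) = t (γ * δ) a)
    (hP : ∀ γ z d, P z d → P (γ • z) (t γ d))
    (h : ∀ z, ∃ d, P z d ∧ ∀ γ : Γ, γ • z = z → E z (t γ d) d) :
    ∃ d : Z → D, (∀ z, P z (d z)) ∧ ∀ (γ : Γ) z, E (γ • z) (d (γ • z)) (t γ (d z)) := by
  choose d d1 d2 using h
  let o (z : Z) : Z := (Quotient.mk (MulAction.orbitRel Γ Z) z).out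
  have a (z : Z) : ∃ g : Γ, g • o z = z :=
    (MulAction.orbitRel Γ Z).symm (Quotient.exact (Quotient.out_eq _))
  choose g g1 using a
  have b (γ : Γ) (z : Z) : o (γ • z) = o z :=
    congrArg Quotient.out (Quotient.sound (⟨γ, rfl⟩ : MulAction.orbitRel Γ Z _ _))
  refine ⟨fun z => t (g z) (d (o z)), fun z => by
    simpa only [g1] using hP (g z) _ _ (d1 (o z)), fun γ z => ?_⟩
  have c : g (γ • z) • o z = γ • z := b γ z ▸ g1 (γ • z)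
  have k := hE (γ * g z) _ _ _ (d2 (o z) ((γ * g z)⁻¹ * g (γ • z)) (by
    rw [mul_smul, c, inv_smul_eq_iff, mul_smul, g1]))
  rw [mul, mul_inv_cancel_left, mul_smul, g1] at k
  simpa only [b, mul] using k

theorem tgl_eqv {Γ Z D : Type*} [Group Γ] [MulAction Γ Z] [MulAction Γ D] (P : Z → D → Prop)
    (hP : ∀ (γ : Γ) z d, P z d → P (γ • z) (γ • d))
    (h : ∀ z, ∃ d, P z d ∧ ∀ γ : Γ, γ • z = z → γ • d = d) :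
    ∃ d : Z → D, (∀ z, P z (d z)) ∧ ∀ (γ : Γ) z, d (γ • z) = γ • d z :=
  tgl_rel (fun γ d => γ • d) (fun _ => Eq) P
    (fun _ _ _ _ a => congrArg _ a) (fun _ _ _ => smul_smul ..) hP h

variable {F A : Type} [Field F] [Ring A] [Algebra F A] {Γ : Subgroup (RingAut A)}
  {X Y Z L M L' M' : Set A}

theorem tgl_inv (γ : RingAut A) (x : A) : γ⁻¹ (γ x) = x := γ.symm_apply_apply x

theorem tgl_inv' (γ : RingAut A) (x : A) : γ (γ⁻¹ x) = x := γ.apply_symm_apply x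

theorem tgl_mul (γ δ : RingAut A) (x : A) : (γ * δ) x = γ (δ x) := rfl

/-- An equivariant family of local bijections. -/
theorem glue_fam (r r' : A → A → Prop) (Q : A → A → A → Prop)
    (hX : ∀ γ ∈ Γ, ∀ x ∈ X, γ x ∈ X) (hY : ∀ γ ∈ Γ, ∀ y ∈ Y, γ y ∈ Y)
    (hZ : ∀ γ ∈ Γ, ∀ z ∈ Z, γ z ∈ Z)
    (hr : ∀ γ ∈ Γ, ∀ x ∈ X, ∀ z ∈ Z, r x z → r (γ x) (γ z))
    (hr' : ∀ γ ∈ Γ, ∀ y ∈ Y, ∀ z ∈ Z, r' y z → r' (γ y) (γ z))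
    (hQ : ∀ γ ∈ Γ, ∀ z ∈ Z, ∀ x ∈ X, ∀ y ∈ Y, Q z x y → Q (γ z) (γ x) (γ y))
    (loc : ∀ z ∈ Z, ∃ Ω, EqB (Γ ⊓ Fx z) {x | x ∈ X ∧ r x z} {y | y ∈ Y ∧ r' y z} Ω ∧
      ∀ x ∈ X, r x z → Q z x (Ω x)) :
    ∃ Ω : A → A → A, ∀ z ∈ Z, Set.BijOn (Ω z) {x | x ∈ X ∧ r x z} {y | y ∈ Y ∧ r' y z} ∧
      ∀ x ∈ X, r x z → Q z x (Ω z x) ∧ ∀ γ ∈ Γ, Ω (γ z) (γ x) = γ (Ω z x) := by
  let _ : MulAction Γ Z :=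
    { smul := fun γ z => ⟨γ.1 z.1, hZ _ γ.2 _ z.2⟩
      one_smul := fun _ => rfl
      mul_smul := fun _ _ _ => rfl }
  have bX (γ : Γ) (z : Z) {x} (h : x ∈ X) (k : r x (γ.1 z)) : γ.1⁻¹ x ∈ X ∧ r (γ.1⁻¹ x) z :=
    ⟨hX _ (inv_mem γ.2) _ h, tgl_inv γ.1 z ▸ hr _ (inv_mem γ.2) _ h _ (hZ _ γ.2 _ z.2) k⟩
  refine (tgl_rel (Γ := Γ) (Z := Z) (D := A → A)
    (fun γ Ω x => γ.1 (Ω (γ.1⁻¹ x))) (fun z a b => ∀ x ∈ X, r x z → a x = b x)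
    (fun z Ω => Set.BijOn Ω {x | x ∈ X ∧ r x z} {y | y ∈ Y ∧ r' y z} ∧
      ∀ x ∈ X, r x z → Q z x (Ω x))
    (fun γ z _ _ a x h k => congrArg γ.1 (a _ (bX γ z h k).1 (bX γ z h k).2))
    (fun γ δ Ω => funext fun x => by simp only [Subgroup.coe_mul, mul_inv_rev, tgl_mul])
    (fun γ z Ω ⟨a, b⟩ => ⟨⟨fun x ⟨h, k⟩ => ?_, fun x ⟨h, k⟩ x' ⟨h', k'⟩ e => ?_,
      fun y ⟨h, k⟩ => ?_⟩, fun x h k => ?_⟩)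
    fun z => (loc z z.2).imp fun Ω ⟨a, b⟩ => ⟨⟨a.1, b⟩, fun γ e x h k => ?_⟩).elim
      fun d ⟨d1, d2⟩ => ?_
  · have m := a.mapsTo (bX γ z h k)
    exact ⟨hY _ γ.2 _ m.1, hr' _ γ.2 _ m.1 _ z.2 m.2⟩
  · exact γ.1⁻¹.injective (a.injOn (bX γ z h k) (bX γ z h' k') (γ.1.injective e))
  · obtain ⟨x, m, e⟩ := a.surjOn (show γ.1⁻¹ y ∈ {y | y ∈ Y ∧ r' y z} from
      ⟨hY _ (inv_mem γ.2) _ h, tgl_inv γ.1 z ▸ hr' _ (inv_mem γ.2) _ h _ (hZ _ γ.2 _ z.2) k⟩)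
    exact ⟨γ.1 x, ⟨hX _ γ.2 _ m.1, hr _ γ.2 _ m.1 _ z.2 m.2⟩, by
      simp only [tgl_inv, e, tgl_inv']⟩
  · have m := bX γ z h k
    have := hQ _ γ.2 _ z.2 _ m.1 _ (a.mapsTo m).1 (b _ m.1 m.2)
    rwa [tgl_inv'] at this
  · classical
    refine ⟨fun z => if c : z ∈ Z then d ⟨z, c⟩ else id, fun z c => ?_⟩
    simp only [dif_pos c]
    refine ⟨(d1 ⟨z, c⟩).1, fun x h k => ⟨(d1 ⟨z, c⟩).2 x h k, fun γ g => ?_⟩⟩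
    rw [dif_pos (hZ γ g z c)]
    exact (d2 ⟨γ, g⟩ ⟨z, c⟩ _ (hX γ g x h) (hr γ g x h z c k)).trans
      (congrArg (fun t => γ (d ⟨z, c⟩ t)) (tgl_inv γ x))
  · have g : γ.1⁻¹ ∈ Γ ⊓ Fx z.1 := inv_mem ⟨γ.2, congrArg Subtype.val e⟩
    exact (congrArg γ.1 (a.2 _ g x ⟨h, k⟩).2).trans (tgl_inv' _ _)

/-- Gluing of local equivariant bijections over an index set `Z`. -/
theorem glue_q (r r' : A → A → Prop) (Q : A → A → A → Prop)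
    (hX : ∀ γ ∈ Γ, ∀ x ∈ X, γ x ∈ X) (hY : ∀ γ ∈ Γ, ∀ y ∈ Y, γ y ∈ Y)
    (hZ : ∀ γ ∈ Γ, ∀ z ∈ Z, γ z ∈ Z)
    (hr : ∀ γ ∈ Γ, ∀ x ∈ X, ∀ z ∈ Z, r x z → r (γ x) (γ z))
    (hr' : ∀ γ ∈ Γ, ∀ y ∈ Y, ∀ z ∈ Z, r' y z → r' (γ y) (γ z))
    (hQ : ∀ γ ∈ Γ, ∀ z ∈ Z, ∀ x ∈ X, ∀ y ∈ Y, Q z x y → Q (γ z) (γ x) (γ y))
    (ex : ∀ x ∈ X, ∃ z ∈ Z, r x z) (ex' : ∀ y ∈ Y, ∃ z ∈ Z, r' y z)
    (tr : ∀ x ∈ X, ∀ z ∈ Z, ∀ z' ∈ Z, r x z → r x z' → ∃ δ ∈ Γ, δ z = z' ∧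
      (∀ x ∈ X, δ x = x) ∧ ∀ y ∈ Y, δ y = y)
    (tr' : ∀ y ∈ Y, ∀ z ∈ Z, ∀ z' ∈ Z, r' y z → r' y z' → ∃ δ ∈ Γ, δ z = z' ∧
      (∀ x ∈ X, δ x = x) ∧ ∀ y ∈ Y, δ y = y)
    (loc : ∀ z ∈ Z, ∃ Ω, EqB (Γ ⊓ Fx z) {x | x ∈ X ∧ r x z} {y | y ∈ Y ∧ r' y z} Ω ∧
      ∀ x ∈ X, r x z → Q z x (Ω x)) :
    ∃ Ω, EqB Γ X Y Ω ∧ ∀ x ∈ X, ∀ z ∈ Z, r x z → r' (Ω x) z ∧ Q z x (Ω x) := by
  obtain ⟨Ω, h⟩ := glue_fam r r' Q hX hY hZ hr hr' hQ loc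
  choose! s s1 s2 using ex
  have w : ∀ x ∈ X, ∀ z ∈ Z, r x z → Ω (s x) x = Ω z x := fun x hx z hz k => by
    obtain ⟨δ, g, rfl, a, b⟩ := tr x hx _ (s1 x hx) z hz (s2 x hx) k
    have := ((h _ (s1 x hx)).2 x hx (s2 x hx)).2 δ g
    rw [a x hx, b _ ((h _ (s1 x hx)).1.mapsTo ⟨hx, s2 x hx⟩).1] at this
    exact this.symm
  have m : ∀ x ∈ X, ∀ z ∈ Z, r x z → Ω z x ∈ Y ∧ r' (Ω z x) z := fun x hx z hz k =>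
    (h z hz).1.mapsTo ⟨hx, k⟩
  refine ⟨fun x => Ω (s x) x, ⟨⟨fun x hx => (m x hx _ (s1 x hx) (s2 x hx)).1,
    fun x hx x' hx' (e : Ω (s x) x = Ω (s x') x') => ?_, fun y hy => ?_⟩,
    fun γ g x hx => ⟨hX γ g x hx, ?_⟩⟩, fun x hx z hz k => ?_⟩
  · obtain ⟨δ, g, c, a, -⟩ := tr' _ (m x hx _ (s1 x hx) (s2 x hx)).1 _ (s1 x hx) _ (s1 x' hx')
      (m x hx _ (s1 x hx) (s2 x hx)).2 (e ▸ (m x' hx' _ (s1 x' hx') (s2 x' hx')).2)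
    have k := hr δ g x hx _ (s1 x hx) (s2 x hx)
    rw [a x hx, c] at k
    exact (h _ (s1 x' hx')).1.injOn ⟨hx, k⟩ ⟨hx', s2 x' hx'⟩
      ((w x hx _ (s1 x' hx') k).symm.trans e)
  · obtain ⟨z, hz, k⟩ := ex' y hy
    obtain ⟨x, hx, e⟩ := (h z hz).1.surjOn ⟨hy, k⟩
    exact ⟨x, hx.1, (w x hx.1 z hz hx.2).trans e⟩
  · exact (w _ (hX γ g x hx) _ (hZ γ g _ (s1 x hx)) (hr γ g x hx _ (s1 x hx) (s2 x hx))).trans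
      (((h _ (s1 x hx)).2 x hx (s2 x hx)).2 γ g)
  · simp only [w x hx z hz k]
    exact ⟨(m x hx z hz k).2, ((h z hz).2 x hx k).1⟩

theorem glue_eb (r r' : A → A → Prop)
    (hX : ∀ γ ∈ Γ, ∀ x ∈ X, γ x ∈ X) (hY : ∀ γ ∈ Γ, ∀ y ∈ Y, γ y ∈ Y)
    (hZ : ∀ γ ∈ Γ, ∀ z ∈ Z, γ z ∈ Z)
    (hr : ∀ γ ∈ Γ, ∀ x ∈ X, ∀ z ∈ Z, r x z → r (γ x) (γ z))
    (hr' : ∀ γ ∈ Γ, ∀ y ∈ Y, ∀ z ∈ Z, r' y z → r' (γ y) (γ z))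
    (ex : ∀ x ∈ X, ∃ z ∈ Z, r x z) (ex' : ∀ y ∈ Y, ∃ z ∈ Z, r' y z)
    (tr : ∀ x ∈ X, ∀ z ∈ Z, ∀ z' ∈ Z, r x z → r x z' → ∃ δ ∈ Γ, δ z = z' ∧
      (∀ x ∈ X, δ x = x) ∧ ∀ y ∈ Y, δ y = y)
    (tr' : ∀ y ∈ Y, ∀ z ∈ Z, ∀ z' ∈ Z, r' y z → r' y z' → ∃ δ ∈ Γ, δ z = z' ∧
      (∀ x ∈ X, δ x = x) ∧ ∀ y ∈ Y, δ y = y)
    (loc : ∀ z ∈ Z, EB (Γ ⊓ Fx z) {x | x ∈ X ∧ r x z} {y | y ∈ Y ∧ r' y z}) : EB Γ X Y :=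
  (glue_q r r' (fun _ _ _ => True) hX hY hZ hr hr' (fun _ _ _ _ _ _ _ _ _ => trivial) ex ex' tr tr'
    fun z hz => (loc z hz).imp fun _ h => ⟨h, fun _ _ _ => trivial⟩).imp fun _ h => h.1

theorem Lin.conj {σ : RingAut F} {γ a : RingAut A} (h : SL F σ γ) (k : Lin F a) :
    Lin F (γ * a * γ⁻¹) := fun c x => by
  have t : TR σ γ Set.univ Set.univ := ⟨h, fun _ => Iff.rfl⟩
  change γ (a (γ.symm (c • x))) = c • γ (a (γ.symm x))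
  rw [t.symm.sl, k, h, σ.apply_symm_apply]

/-- Transport of a link along a semilinear automorphism. -/
theorem Link.conj {σ : RingAut F} {γ : RingAut A} {Γ' : Subgroup (RingAut A)} {e e' : A}
    {U : RingAut A → A → A → Prop} (h : Link F Γ L M e e' U) (tL : TR σ γ L L') (tM : TR σ γ M M')
    (k : ∀ a, a ∈ Γ' ↔ γ⁻¹ * a * γ ∈ Γ) :
    Link F Γ' L' M' (γ e) (γ e') fun a w w' => U (γ⁻¹ * a * γ) (γ⁻¹ w) (γ⁻¹ w') := by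
  have c (a : RingAut A) : γ * (γ⁻¹ * a * γ) * γ⁻¹ = a := by group
  have l {a : RingAut A} (n : Lin F a) : Lin F (γ⁻¹ * a * γ) :=
    Lin.conj (σ := σ.symm) (γ := γ⁻¹) tL.symm.sl n
  refine ⟨fun a w w' p => ?_, fun a p n => ?_, fun a w w' b v v' p q => ?_,
    fun a w w' t t0 p => ?_, fun a w w₁ w₂ p q => γ⁻¹.injective (h.fn _ _ _ _ p q),
    fun a p n m hm q => ?_, fun δ p a w w' q => ?_⟩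
  · obtain ⟨p1, p2, p3, p4⟩ := h.int _ _ _ p
    exact ⟨(k a).2 p1, c a ▸ Lin.conj tL.sl p2,
      c a ▸ tgl_inv' γ w ▸ ((tL.ln_conj e _).mem _).2 p3,
      c a ▸ tgl_inv' γ w' ▸ ((tM.ln_conj e' _).mem _).2 p4⟩
  · obtain ⟨w, w', q⟩ := h.tot _ ((k a).1 p) (l n)
    exact ⟨γ w, γ w', by rwa [tgl_inv, tgl_inv]⟩
  · have := h.mul _ _ _ _ _ _ p q
    rwa [← map_mul, ← map_mul, show γ⁻¹ * a * γ * (γ⁻¹ * b * γ) = γ⁻¹ * (a * b) * γ by group]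
      at this
  · have := h.smul _ _ _ (σ.symm t) (by simpa using t0) p
    have s (x : A) : γ⁻¹ (t • x) = σ.symm t • γ⁻¹ x := tL.symm.sl t x
    rwa [← s, ← s] at this
  · have := h.loc _ ((k a).1 p) (l n) (γ⁻¹ m) ((tM.symm.mem m).2 hm) fun x hx => γ.injective (by
      rw [map_mul, map_mul, tgl_inv', q _ ((tL.mem x).2 hx), tgl_mul, tgl_mul, tgl_inv'])
    simpa only [map_mul, tgl_inv] using this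
  · have := h.nat _ ((k δ).1 p) _ _ _ q
    rw [show γ⁻¹ * δ * γ * (γ⁻¹ * a * γ) * (γ⁻¹ * δ * γ)⁻¹ = γ⁻¹ * (δ * a * δ⁻¹) * γ by group]
      at this
    simpa only [tgl_mul, tgl_inv'] using this

theorem tgl_fx {γ : RingAut A} (g : γ ∈ Γ) (e : A) (a : RingAut A) :
    a ∈ Γ ⊓ Fx (γ e) ↔ γ⁻¹ * a * γ ∈ Γ ⊓ Fx e :=
  and_congr ((Γ.mul_mem_cancel_right g).trans (Γ.mul_mem_cancel_left (inv_mem g))).symm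
    (γ.symm_apply_eq (x := a (γ e)) (y := e)).symm

theorem link_smul {GG : Subgroup (RingAut F)} (hΓ : Γ ≤ SG GG A ⊓ Stb L ⊓ Stb M) {γ : RingAut A}
    (g : γ ∈ Γ) {e e' : A} (h : ∃ U, Link F (Γ ⊓ Fx e) L M e e' U) :
    ∃ U, Link F (Γ ⊓ Fx (γ e)) L M (γ e) (γ e') U := by
  obtain ⟨U, h⟩ := h
  obtain ⟨⟨⟨σ, -, s⟩, a⟩, b⟩ := hΓ g
  exact ⟨_, h.conj (.of_stb s a) (.of_stb s b) (tgl_fx g e)⟩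

/-- Gluing with links. -/
theorem glue_lk {GG : Subgroup (RingAut F)} (hΓ : Γ ≤ SG GG A ⊓ Stb L ⊓ Stb M)
    (r r' : A → A → Prop)
    (hX : ∀ γ ∈ Γ, ∀ x ∈ X, γ x ∈ X) (hY : ∀ γ ∈ Γ, ∀ y ∈ Y, γ y ∈ Y)
    (hZ : ∀ γ ∈ Γ, ∀ z ∈ Z, γ z ∈ Z)
    (hr : ∀ γ ∈ Γ, ∀ x ∈ X, ∀ z ∈ Z, r x z → r (γ x) (γ z))
    (hr' : ∀ γ ∈ Γ, ∀ y ∈ Y, ∀ z ∈ Z, r' y z → r' (γ y) (γ z))
    (ex : ∀ x ∈ X, ∃ z ∈ Z, r x z) (ex' : ∀ y ∈ Y, ∃ z ∈ Z, r' y z)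
    (tr : ∀ x ∈ X, ∀ z ∈ Z, ∀ z' ∈ Z, r x z → r x z' → ∃ δ ∈ Γ, δ z = z' ∧
      (∀ x ∈ X, δ x = x) ∧ ∀ y ∈ Y, δ y = y)
    (tr' : ∀ y ∈ Y, ∀ z ∈ Z, ∀ z' ∈ Z, r' y z → r' y z' → ∃ δ ∈ Γ, δ z = z' ∧
      (∀ x ∈ X, δ x = x) ∧ ∀ y ∈ Y, δ y = y)
    (loc : ∀ z ∈ Z, ∃ Ω, EqB (Γ ⊓ Fx z) {x | x ∈ X ∧ r x z} {y | y ∈ Y ∧ r' y z} Ω ∧
      ∀ x ∈ X, r x z → ∃ U, Link F (Γ ⊓ Fx x) L M x (Ω x) U) : LK F Γ L M X Y :=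
  (glue_q r r' (fun _ x y => ∃ U, Link F (Γ ⊓ Fx x) L M x y U) hX hY hZ hr hr'
    (fun _ g _ _ _ _ _ _ h => link_smul hΓ g h) ex ex' tr tr' loc).imp fun _ h =>
      ⟨h.1, fun x hx => (ex x hx).elim fun z k => (h.2 x hx z k.1 k.2).2⟩

end Pool.Agent.Lib.MP_1ae3da_al.CT
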