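import Pool.Agent.Lib.MP_1ae3da_al.C.TG2
import Pool.Agent.Lib.MP_1ae3da_al.C.TH
import Pool.Agent.Lib.MP_1ae3da_al.C.TI

/-! Clifford theory: the blocks over a given block of a normal subgroup. -/

namespace Pool.Agent.Lib.MP_1ae3da_al.CT

open Submodule

variable {F A G : Type} [Field F] [Ring A] [Algebra F A] [Group G] {u : G → A}
  {L H : Subgroup G} {e f : A} {p : ℕ} {GG : Subgroup (RingAut F)}

theorem tk_iff [IsAlgClosed F] [CharZero F] [Finite G] (hu : TG F u) (hLH : L ≤ H)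
    (hn : H ≤ Subgroup.normalizer (L : Set G)) (he : e ∈ Irr F (Hm F u L)) :
    f ∈ Irr F (Cz F (Hm F u (H ⊓ St u e)) (Hm F u L) e) ↔
      f ∈ Irr F (Hm F u (H ⊓ St u e)) ∧ f * e = f :=
  cz_irr hu (le_inf_St hu hLH he) (inf_le_left.trans hn) he inf_le_right

theorem cl_dim [IsAlgClosed F] [CharZero F] [Finite G] (hu : TG F u) (hLH : L ≤ H)
    (hn : H ≤ Subgroup.normalizer (L : Set G)) (he : e ∈ Irr F (Hm F u L))
    (hf : f ∈ Irr F (Hm F u H)) (h : f * e ≠ 0) :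
    Dg F (Hm F u H) f = (St u e).relIndex H ^ 2 * Dg F (Hm F u L) e *
      Dg F (Cz F (Hm F u (H ⊓ St u e)) (Hm F u L) e) (f * e) := by
  rw [c1_dg hu hLH hn he hf h, cz_dg hu (le_inf_St hu hLH he) (inf_le_left.trans hn) he
    inf_le_right ((tk_iff hu hLH hn he).2 ((c1_bij hu hLH hn he).mapsTo ⟨hf, h⟩)), mul_assoc]

theorem cl_under [IsAlgClosed F] [CharZero F] [Finite G] (hu : TG F u) (hLH : L ≤ H)
    (hn : H ≤ Subgroup.normalizer (L : Set G)) (he : e ∈ Irr F (Hm F u L))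
    (hf : f ∈ IrrP F p (Hm F u H)) (h : f * e ≠ 0) :
    e ∈ IrrP F p (Hm F u L) ∧ ¬ p ∣ (St u e).relIndex H := by
  have k := hf.2
  rw [cl_dim hu hLH hn he hf.1 h] at k
  exact ⟨⟨he, fun d => k ((d.mul_left _).mul_right _)⟩,
    fun d => k (((d.pow two_ne_zero).mul_right _).mul_right _)⟩

theorem cl_eb [IsAlgClosed F] [CharZero F] [Finite G] (hp : p.Prime) (hu : TG F u) (hLH : L ≤ H)
    (hn : H ≤ Subgroup.normalizer (L : Set G)) (he : e ∈ IrrP F p (Hm F u L))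
    (hi : ¬ p ∣ (St u e).relIndex H) {Γ : Subgroup (RingAut A)}
    (hΓ : Γ ≤ SG GG A ⊓ Stb (Hm F u H) ⊓ Fx e) :
    EB Γ {f | f ∈ IrrP F p (Hm F u H) ∧ f * e ≠ 0}
      (IrrP F p (Cz F (Hm F u (H ⊓ St u e)) (Hm F u L) e)) := by
  have b := c1_bij hu hLH hn he.1
  refine ⟨fun f => f * e, ⟨fun f hf => ⟨(tk_iff hu hLH hn he.1).2 (b.mapsTo ⟨hf.1.1, hf.2⟩),
    fun d => hf.1.2 ?_⟩, fun f hf g hg k => b.injOn ⟨hf.1.1, hf.2⟩ ⟨hg.1.1, hg.2⟩ k,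
    fun g hg => ?_⟩, fun γ hγ f hf => ?_⟩
  · rw [cl_dim hu hLH hn he.1 hf.1.1 hf.2]
    exact d.mul_left _
  · obtain ⟨f, hf, rfl⟩ := b.surjOn ((tk_iff hu hLH hn he.1).1 hg.1)
    refine ⟨f, ⟨⟨hf.1, fun d => ?_⟩, hf.2⟩, rfl⟩
    rw [cl_dim hu hLH hn he.1 hf.1 hf.2] at d
    rcases (hp.dvd_mul.1 d).imp_left hp.dvd_mul.1 with (d | d) | d
    exacts [hi (hp.dvd_of_dvd_pow d), he.2 d, hg.2 d]
  · have k : γ f * e = γ (f * e) := by rw [map_mul, show γ e = e from (hΓ hγ).2]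
    exact ⟨⟨(irrP_stb (hΓ hγ).1.1 (hΓ hγ).1.2).2 hf.1,
      fun z => hf.2 (γ.injective (k.symm.trans (z.trans (map_zero γ).symm)))⟩, k⟩

end Pool.Agent.Lib.MP_1ae3da_al.CT
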