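import Mathlib

/-! Sylow subgroups, stabilisers and quotients. -/

namespace Pool.Agent.Lib.MP_1ae3da_al.CT

open Subgroup Pointwise

variable {G : Type} [Group G] {p : ℕ}

theorem trg_conj [Fact p.Prime] [Finite G] (P Q : Sylow p G) {K : Subgroup G}
    (hP : (P : Subgroup G) ≤ K) (hQ : (Q : Subgroup G) ≤ K) : ∃ y ∈ K, y • P = Q := by
  obtain ⟨y, hy⟩ := MulAction.exists_smul_eq K (P.subtype hP) (Q.subtype hQ)
  rw [Sylow.smul_subtype] at hy
  exact ⟨y, y.2, Sylow.subtype_injective hy⟩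

theorem trg_coe (P : Sylow p G) (y : G) :
    ((y • P : Sylow p G) : Subgroup G) = (P : Subgroup G).map (MulAut.conj y).toMonoidHom := rfl

theorem trg_rel [Fact p.Prime] [Finite G] (P : Sylow p G) {K H : Subgroup G}
    (hK : (P : Subgroup G) ≤ K) (hH : (P : Subgroup G) ≤ H) : ¬ p ∣ K.relIndex H := fun h =>
  P.not_dvd_index ((h.trans (relIndex_dvd_of_le_left H hK)).trans (relIndex_dvd_index_of_le hH))

theorem trg_in [Fact p.Prime] [Finite G] (P : Sylow p G) {K H : Subgroup G}
    (hH : (P : Subgroup G) ≤ H) (hK : ¬ p ∣ K.relIndex H) :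
    ∃ t ∈ H, (P : Subgroup G) ≤ K.map (MulAut.conj t).toMonoidHom := by
  have hp : p.Prime := Fact.out
  have h1 : ¬ p ∣ (K ⊓ H).index := by
    rw [← relIndex_mul_index (inf_le_right : K ⊓ H ≤ H), inf_relIndex_right]
    intro h
    rcases (Nat.Prime.dvd_mul hp).1 h with h | h
    · exact hK h
    · exact P.not_dvd_index (h.trans (index_dvd_of_le hH))
  let R : Sylow p (K ⊓ H : Subgroup G) := default
  have h2 : ¬ p ∣ ((R : Subgroup (K ⊓ H : Subgroup G)).map (K ⊓ H).subtype).index := by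
    rw [index_map_subtype]
    intro h
    rcases (Nat.Prime.dvd_mul hp).1 h with h | h
    · exact R.not_dvd_index h
    · exact h1 h
  let Q : Sylow p G := (R.isPGroup'.map (K ⊓ H).subtype).toSylow h2
  have hQ : (Q : Subgroup G) ≤ K ⊓ H := map_subtype_le _
  obtain ⟨t, ht, h⟩ := trg_conj Q P (hQ.trans inf_le_right) hH
  refine ⟨t, ht, ?_⟩
  rw [← h, trg_coe]
  exact map_mono (hQ.trans inf_le_left)

theorem trg_norm [Fact p.Prime] [Finite G] (P : Sylow p G) {K : Subgroup G} {x : G}
    (h1 : (P : Subgroup G) ≤ K) (h2 : (P : Subgroup G) ≤ K.map (MulAut.conj x).toMonoidHom) :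
    ∃ y ∈ K.map (MulAut.conj x).toMonoidHom, y * x ∈ normalizer (P : Set G) := by
  obtain ⟨y, hy, h⟩ := trg_conj (x • P) P (K := K.map (MulAut.conj x).toMonoidHom)
    (by rw [trg_coe]; exact map_mono h1) h2
  rw [← mul_smul] at h
  exact ⟨y, hy, Sylow.smul_eq_iff_mem_normalizer.1 h⟩

theorem trg_map [Fact p.Prime] [Finite G] {Q : Type} [Group Q] {f : G →* Q}
    (hf : Function.Surjective f) (P : Sylow p G) :
    normalizer (P.mapSurjective hf : Set Q) = (normalizer (P : Set G)).map f := by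
  apply le_antisymm
  · intro q hq
    obtain ⟨g, rfl⟩ := hf q
    have hq' : f g ∈ normalizer (((P : Subgroup G).map f : Subgroup Q) : Set Q) := hq
    have h2 : ((g • P : Sylow p G) : Subgroup G) ≤ (P : Subgroup G) ⊔ f.ker := by
      rw [trg_coe, ← comap_map_eq]
      rintro _ ⟨a, ha, rfl⟩
      have : f g * f a * (f g)⁻¹ ∈ (P : Subgroup G).map f :=
        (mem_normalizer_iff.1 hq' _).1 (mem_map_of_mem f ha)
      simpa using this
    obtain ⟨y, hy, h⟩ := trg_conj (g • P) P h2 le_sup_left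
    rw [← mul_smul] at h
    have h3 := Sylow.smul_eq_iff_mem_normalizer.1 h
    have h4 : f y ∈ (normalizer (P : Set G)).map f := by
      have : (P : Subgroup G) ⊔ f.ker ≤ ((normalizer (P : Set G)).map f).comap f := by
        rw [comap_map_eq]
        exact sup_le_sup_right (le_normalizer (H := (P : Subgroup G))) _
      exact this hy
    have h5 := mul_mem (inv_mem h4) (mem_map_of_mem f h3)
    simpa using h5
  · exact le_normalizer_map (H := (P : Subgroup G)) f

theorem trg_sup {L S : Subgroup G} [L.Normal] (hL : L ≤ S) (K : Subgroup G) :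
    (((K ⊔ L) ⊓ S).subgroupOf S).map (QuotientGroup.mk' (L.subgroupOf S)) =
      (K.subgroupOf S).map (QuotientGroup.mk' (L.subgroupOf S)) := by
  apply le_antisymm
  · rintro _ ⟨x, hx, rfl⟩
    have hx1 : (x : G) ∈ K ⊔ L := (mem_subgroupOf.1 hx).1
    obtain ⟨k, hk, l, hl, h⟩ := mem_sup_of_normal_right.1 hx1
    have hk' : k ∈ S := by
      have : k = x * l⁻¹ := by rw [← h]; simp
      rw [this]; exact mul_mem x.2 (inv_mem (hL hl))
    refine ⟨⟨k, hk'⟩, hk, ?_⟩
    simp only [QuotientGroup.mk'_apply]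
    rw [QuotientGroup.eq, mem_subgroupOf]
    simp [← h, hl]
  · apply map_mono
    intro x hx
    exact mem_subgroupOf.2 ⟨mem_sup_left (mem_subgroupOf.1 hx), x.2⟩

theorem trg_sub (P : Sylow p G) {S : Subgroup G} (h : (P : Subgroup G) ≤ S) :
    normalizer (P.subtype h : Set S) = (normalizer (P : Set G)).subgroupOf S :=
  (subgroupOf_normalizer_eq (H := (P : Subgroup G)) h).symm

theorem trg_aut {P : Subgroup G} {φ : MulAut G} (h : P.map φ.toMonoidHom = P) :
    (normalizer (P : Set G)).map φ.toMonoidHom = normalizer (P : Set G) := by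
  rw [map_normalizer_eq_of_bijective P (f := φ.toMonoidHom) φ.bijective, h]

theorem trg_card [Finite G] {L S : Subgroup G} [L.Normal] (hL : L ≠ ⊥) (h : L ≤ S) :
    Nat.card (S ⧸ L.subgroupOf S) < Nat.card G := by
  have h1 := (L.subgroupOf S).card_mul_index
  rw [Nat.card_congr (subgroupOfEquivOfLe h).toEquiv, index_eq_card] at h1
  have h2 : 1 < Nat.card L := one_lt_card_iff_ne_bot L |>.2 hL
  have h3 : Nat.card S ≤ Nat.card G := card_le_card_group S
  have h4 : 0 < Nat.card (S ⧸ L.subgroupOf S) := Nat.card_pos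
  nlinarith

end Pool.Agent.Lib.MP_1ae3da_al.CT
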