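import Pool.Agent.Lib.MP_1ae3da_al.C.TK
import Pool.Agent.Lib.MP_1ae3da_al.C.SerA
import Pool.Agent.Lib.MP_1ae3da_al.C.TRg

/-! Reduction modulo a normal subgroup. -/

namespace Pool.Agent.Lib.MP_1ae3da_al.CT

open Submodule

open Pool.Agent.Lib.McK

variable {F A : Type} [Field F] [Ring A] [Algebra F A] {p : ℕ} {GG : Subgroup (RingAut F)}

variable (F A p GG) in
/-- the induction hypothesis. -/
def IH (n : ℕ) : Prop :=
  ∀ (G : Type) [Group G] [Finite G], Nat.card G < n → Ser p G → ∀ (v : G → A), TG F v →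
    ∀ P : Sylow p G, MN F p GG v P

section aux
variable {G : Type} [Group G] {u : G → A}

theorem r1_aut (hu : TG F u) {P L : Subgroup G} {γ : RingAut A}
    (hγ : γ ∈ SG GG A ⊓ Stb (Hm F u ⊤) ⊓ Stb (Hm F u P) ⊓ Stb (Hm F u L)) :
    ∃ φ : MulAut G, P.map φ.toMonoidHom = P ∧ L.map φ.toMonoidHom = L ∧
      (∀ H : Subgroup G, H.map φ.toMonoidHom = H → γ ∈ Stb (Hm F u H)) ∧
      ∀ e ∈ span F (Hm F u ⊤), St u (γ e) = (St u e).map φ.toMonoidHom := by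
  obtain ⟨⟨⟨⟨σ, -, h⟩, h0⟩, h1⟩, h2⟩ := hγ
  obtain ⟨φ, hφ⟩ := exists_aut hu h h0
  exact ⟨φ, (stb_Hm hu h hφ P).1 h1, (stb_Hm hu h hφ L).1 h2, fun H hH => (stb_Hm hu h hφ H).2 hH,
    fun e he => St_map hu h hφ he⟩

theorem r1_stbT (hu : TG F u) {P L : Subgroup G} {γ : RingAut A}
    (hγ : γ ∈ SG GG A ⊓ Stb (Hm F u ⊤) ⊓ Stb (Hm F u P) ⊓ Stb (Hm F u L)) :
    γ ∈ Stb (Hm F u (Subgroup.normalizer (P : Set G) ⊔ L)) ∧ γ ∈ Stb (Hm F u (P ⊔ L)) := by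
  obtain ⟨φ, h1, h2, h3, -⟩ := r1_aut hu hγ
  exact ⟨h3 _ (by rw [Subgroup.map_sup, trg_aut h1, h2]), h3 _ (by rw [Subgroup.map_sup, h1, h2])⟩

theorem r1_top {H : Subgroup G} {e : A} (he : e ∈ span F (Hm F u H)) :
    e ∈ span F (Hm F u ⊤) := span_mono (Hm_mono le_top) he

theorem r1_St (hu : TG F u) {x : G} {a : RingAut A} (ha : IsAd F u x a) {e : A}
    (he : e ∈ span F (Hm F u ⊤)) : St u (a e) = (St u e).map (MulAut.conj x).toMonoidHom :=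
  St_map hu ha.1.sl (φ := MulAut.conj x) (fun y => ha.conj hu y) he

theorem r1_nrm (L H : Subgroup G) [L.Normal] : H ≤ Subgroup.normalizer (L : Set G) := by
  rw [Subgroup.normalizer_eq_top]; exact le_top

theorem r1_exists [IsAlgClosed F] [CharZero F] [Fact p.Prime] [Finite G] (hu : TG F u)
    (P : Sylow p G) {L H : Subgroup G} [L.Normal] (hP : (P : Subgroup G) ≤ H) (hL : L ≤ H) {f : A}
    (hf : f ∈ IrrP F p (Hm F u H)) :
    ∃ e, (e ∈ IrrP F p (Hm F u L) ∧ (P : Subgroup G) ≤ St u e) ∧ f * e ≠ 0 := by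
  obtain ⟨e, he, h⟩ := exists_under (L := L) hu (Nat.cast_ne_zero.2 Nat.card_pos.ne') hf.1.1.1
    hf.1.2.2.1
  obtain ⟨h1, h2⟩ := cl_under hu hL (r1_nrm L H) he hf h
  obtain ⟨t, ht, h3⟩ := trg_in P hP h2
  obtain ⟨a, ha⟩ := exists_ad hu t
  have h4 : a ∈ Stb (Hm F u L) := ha.stb hu (r1_nrm L ⊤ trivial)
  refine ⟨a e, ⟨(irrP_stb (GG := ⊤) ha.1.mem_SG h4).2 h1, ?_⟩, ?_⟩
  · rw [r1_St hu ha (r1_top he.1.1)]; exact h3
  · rw [← ha.cen hu ht hf.1.1, ← map_mul]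
    exact (map_ne_zero_iff a a.injective).2 h

theorem r1_trans [Fact p.Prime] [Finite G] (hu : TG F u) (P : Sylow p G) {L H : Subgroup G}
    [L.Normal] (hL : L ≤ H) {f e e' : A} (hf : f ∈ Irr F (Hm F u H))
    (he : e ∈ Irr F (Hm F u L)) (he' : e' ∈ Irr F (Hm F u L)) (h : f * e ≠ 0) (h' : f * e' ≠ 0)
    (hP : (P : Subgroup G) ≤ St u e) (hP' : (P : Subgroup G) ≤ St u e') :
    ∃ s ∈ SG GG A ⊓ Stb (Hm F u ⊤) ⊓ Stb (Hm F u P) ⊓ Stb (Hm F u L), s e = e' ∧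
      (∀ a ∈ IrrP F p (Hm F u ⊤), s a = a) ∧
      ∀ b ∈ IrrP F p (Hm F u (Subgroup.normalizer (P : Set G) ⊔ L)), s b = b := by
  obtain ⟨x, -, hx⟩ := clifford hu hL (r1_nrm L H) hf he he' h h'
  have e1 := r1_top he.1.1
  have e2 := r1_top he'.1.1
  obtain ⟨a, ha⟩ := exists_ad hu x
  have h1 : St u e' = (St u e).map (MulAut.conj x).toMonoidHom := by
    rw [← (ha.eq_iff hu e1 (one_span hu e2).2).2 hx]; exact r1_St hu ha e1
  obtain ⟨y, hy, hn⟩ := trg_norm P hP (h1 ▸ hP')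
  rw [← h1, mem_St hu e2] at hy
  obtain ⟨s, hs⟩ := exists_ad hu (y * x)
  refine ⟨s, ⟨⟨⟨hs.1.mem_SG, hs.2.1⟩, hs.stb hu hn⟩, hs.stb hu (r1_nrm L ⊤ trivial)⟩, ?_,
    fun b hb => hs.cen hu (Subgroup.mem_top _) hb.1.1, fun b hb => hs.cen hu (Subgroup.mem_sup_left hn) hb.1.1⟩
  rw [hs.eq_iff hu e1 (one_span hu e2).2]
  obtain ⟨c, hc, h2⟩ := hu.mul y x
  have h3 : c • (u (y * x) * e) = c • (e' * u (y * x)) := by
    rw [← smul_mul_assoc, ← mul_smul_comm, ← h2, mul_assoc, hx, ← mul_assoc, hy, mul_assoc]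
  exact smul_right_injective A hc h3

end aux

/-- the fibre over a `P`-invariant block `e` of `L`.  hint: `S = St u e` has index prime to `p`;
`cl_eb` for `H = ⊤` and `H = T`; `cz_family` with `H = S`; the image of `P` in `S / L` is a Sylow
subgroup with normaliser the image of `T ⊓ S`; `cz_stb`. -/
theorem r1_fibre [IsAlgClosed F] [CharZero F] [Fact p.Prime] (h5 : 5 ≤ p) {G : Type} [Group G]
    [Finite G] (hsub : ∀ H : Subgroup G, ¬ p ∣ H.index → Ser p H) (ih : IH F A p GG (Nat.card G))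
    {u : G → A} (hu : TG F u) (P : Sylow p G) (L : Subgroup G) [L.Normal] (hL : L ≠ ⊥) {e : A}
    (he : e ∈ IrrP F p (Hm F u L)) (hP : (P : Subgroup G) ≤ St u e) :
    EB (SG GG A ⊓ Stb (Hm F u ⊤) ⊓ Stb (Hm F u P) ⊓ Stb (Hm F u L) ⊓ Fx e)
      {f | f ∈ IrrP F p (Hm F u ⊤) ∧ f * e ≠ 0}
      {f | f ∈ IrrP F p (Hm F u (Subgroup.normalizer (P : Set G) ⊔ L)) ∧ f * e ≠ 0} := by
  have hp : p.Prime := Fact.out
  have hLS : L ≤ St u e := le_St hu he.1.1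
  have hPT : (P : Subgroup G) ≤ Subgroup.normalizer (P : Set G) ⊔ L :=
    le_sup_of_le_left (Subgroup.le_normalizer (H := (P : Subgroup G)))
  have h1 := cl_eb (GG := GG) hp hu (le_top : L ≤ ⊤) (r1_nrm L ⊤) he (trg_rel P hP le_top)
    (Γ := SG GG A ⊓ Stb (Hm F u ⊤) ⊓ Stb (Hm F u P) ⊓ Stb (Hm F u L) ⊓ Fx e)
    (fun γ hγ => ⟨hγ.1.1.1, hγ.2⟩)
  have h2 := cl_eb (GG := GG) hp hu (le_sup_right : L ≤ Subgroup.normalizer (P : Set G) ⊔ L)
    (r1_nrm L _) he (trg_rel P hP hPT)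
    (Γ := SG GG A ⊓ Stb (Hm F u ⊤) ⊓ Stb (Hm F u P) ⊓ Stb (Hm F u L) ⊓ Fx e)
    (fun γ hγ => ⟨⟨hγ.1.1.1.1, (r1_stbT hu hγ.1).1⟩, hγ.2⟩)
  refine (h1.trans ?_).trans h2.symm
  obtain ⟨v, hv, -, -, hz⟩ := cz_family hu (Nat.cast_ne_zero.2 Nat.card_pos.ne') hLS he.1 le_rfl
  have hs := QuotientGroup.mk'_surjective (L.subgroupOf (St u e))
  have hS : Ser p (St u e) := hsub _ fun h => P.not_dvd_index (h.trans (Subgroup.index_dvd_of_le hP))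
  have h3 := ih _ (trg_card hL hLS) (hS.quot hp (by omega) _ hs) v hv
    ((P.subtype hP).mapSurjective hs)
  have z1 : Cz F (Hm F u (St u e)) (Hm F u L) e = Hm F v ⊤ := by
    rw [hz _ hLS le_rfl, Subgroup.subgroupOf_self, Subgroup.map_top_of_surjective _ hs]
  have z2 : Cz F (Hm F u (((P : Subgroup G) ⊔ L) ⊓ St u e)) (Hm F u L) e =
      Hm F v ((P.subtype hP).mapSurjective hs : Sylow p _) := by
    rw [hz _ (le_inf le_sup_right hLS) inf_le_right, trg_sup hLS]; rfl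
  have z3 : Cz F (Hm F u ((Subgroup.normalizer (P : Set G) ⊔ L) ⊓ St u e)) (Hm F u L) e =
      Hm F v (Subgroup.normalizer ((P.subtype hP).mapSurjective hs : Set _)) := by
    rw [hz _ (le_inf le_sup_right hLS) inf_le_right, trg_sup hLS, trg_map hs, trg_sub]
  rw [top_inf_eq, z1, z3]
  refine EB.mono h3 fun γ hγ => ?_
  have h4 := stb_St hu hγ.1.1.1.1 hγ.1.1.1.2 (r1_top he.1.1.1) hγ.2
  refine ⟨⟨hγ.1.1.1.1, ?_⟩, ?_⟩
  · rw [← z1]; exact cz_stb hγ.1.1.1.1 h4 hγ.1.2 hγ.2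
  · rw [← z2]; exact cz_stb hγ.1.1.1.1 (stb_inf hu (r1_stbT hu hγ.1).2 h4) hγ.1.2 hγ.2

/-- hint: `glue` over `X = {e ∈ IrrP (Hm L) | P ≤ St u e}`; existence by `exists_under`,
`cl_under` and Sylow conjugacy; transitivity of `N(P)` by `clifford` and Sylow conjugacy inside
the stabiliser; `exists_ad`. -/
theorem r1 [IsAlgClosed F] [CharZero F] [Fact p.Prime] (h5 : 5 ≤ p) {G : Type} [Group G]
    [Finite G] (hsub : ∀ H : Subgroup G, ¬ p ∣ H.index → Ser p H) (ih : IH F A p GG (Nat.card G))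
    {u : G → A} (hu : TG F u) (P : Sylow p G) (L : Subgroup G) [L.Normal] (hL : L ≠ ⊥) :
    EB (SG GG A ⊓ Stb (Hm F u ⊤) ⊓ Stb (Hm F u P) ⊓ Stb (Hm F u L)) (IrrP F p (Hm F u ⊤))
      (IrrP F p (Hm F u (Subgroup.normalizer (P : Set G) ⊔ L))) := by
  have hPT : (P : Subgroup G) ≤ Subgroup.normalizer (P : Set G) ⊔ L :=
    le_sup_of_le_left (Subgroup.le_normalizer (H := (P : Subgroup G)))
  have hn : ∀ (γ : RingAut A) (a e : A), a * e ≠ 0 → γ a * γ e ≠ 0 := fun γ a e h => by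
    rw [← map_mul]; exact (map_ne_zero_iff γ γ.injective).2 h
  refine glue _ _ {e | e ∈ IrrP F p (Hm F u L) ∧ (P : Subgroup G) ≤ St u e}
    (fun a e => a * e ≠ 0) (fun a e => a * e ≠ 0)
    (fun γ hγ a ha => (irrP_stb hγ.1.1.1 hγ.1.1.2).2 ha)
    (fun γ hγ a ha => (irrP_stb hγ.1.1.1 (r1_stbT hu hγ).1).2 ha) ?_
    (fun γ _ a _ e _ => hn γ a e) (fun γ _ a _ e _ => hn γ a e)
    (fun a ha => r1_exists hu P le_top le_top ha) (fun a ha => r1_exists hu P hPT le_sup_right ha)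
    (fun a ha e he e' he' h h' => r1_trans hu P le_top ha.1 he.1.1 he'.1.1 h h' he.2 he'.2)
    (fun a ha e he e' he' h h' => r1_trans hu P le_sup_right ha.1 he.1.1 he'.1.1 h h' he.2 he'.2)
    (fun e he => r1_fibre h5 hsub ih hu P L hL he.1 he.2)
  intro γ hγ e he
  refine ⟨(irrP_stb hγ.1.1.1 hγ.2).2 he.1, ?_⟩
  obtain ⟨φ, h1, -, -, h2⟩ := r1_aut hu hγ
  rw [h2 e (r1_top he.1.1.1.1), ← h1]
  exact Subgroup.map_mono he.2

end Pool.Agent.Lib.MP_1ae3da_al.CT
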